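import Pool.Agent.Work.MP_f62247_an.SL

-- merged part: Pool.Agent.Work.MP_f62247_an.CalmA
section
-- merged part: Pool.Agent.Work.MP_f62247_an.DL1
section
/-!
# Line integrals of `D`

Split with `U_split` at `y`.  Linear term: `Dop` of `Re (c e^(t+iφ))` is `-2 sin h Im (c e^(iθ)) e^t`, and `sin h ≤ 4 (lam-1)` (`ha_sin`).
For one zero, `Dop u θ = u (θ + h) - u (θ - h + 2π)`, two angles at distance `2 (π - h) ≤ 8 (lam - 1)` (`ha_le`, `lg_per`, `nk_per`).
Past zeros (`ξ < y`, `w0 (y - ξ) ≥ 1`): `lip_lg` and weight `≤ 1`.  Future zeros (`u = ξ - y ≥ 0`, `w0 (y-ξ) = e^(-2u)`): `lip_nk_neg`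
(`a = 0`), `lip_nk_pos`.  Integrability: `Wt.int_*`.
`U_near`: `abs_lg_sub_le`, `integrable_l0`; future zeros `abs_nk_le`, `env_pos`.
-/

open Real MeasureTheory Set Filter Topology

namespace Pool.Agent.MinMod

noncomputable section

/-- `f` has an integrable majorant on `T` with integral at most `K` -/
def DL1_M (T : Set ℝ) (f : ℝ → ℝ) (K : ℝ) : Prop :=
  ∃ G : ℝ → ℝ, IntegrableOn G T ∧ (∀ᵐ t ∂(volume.restrict T), f t ≤ G t) ∧ ∫ t in T, G t ≤ K

theorem DL1_M.int {T : Set ℝ} {f : ℝ → ℝ} {K : ℝ} (h : DL1_M T f K) (h0 : ∀ t, 0 ≤ f t) :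
    ∫ t in T, f t ≤ K := by
  obtain ⟨G, h1, h2, h3⟩ := h
  exact (integral_mono_of_nonneg (ae_of_all _ h0) h1 h2).trans h3

theorem DL1_of {T : Set ℝ} {f : ℝ → ℝ} {K : ℝ} (h : IntegrableOn f T ∧ ∫ t in T, f t ≤ K) :
    DL1_M T f K := ⟨f, h.1, ae_of_all _ fun _ => le_rfl, h.2⟩

theorem DL1_M.add {T : Set ℝ} {f g : ℝ → ℝ} {K L : ℝ} (h : DL1_M T f K) (h' : DL1_M T g L) :
    DL1_M T (fun t => f t + g t) (K + L) := by
  obtain ⟨G, h1, h2, h3⟩ := h
  obtain ⟨G', k1, k2, k3⟩ := h'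
  refine ⟨fun t => G t + G' t, h1.add k1, ?_, ?_⟩
  · filter_upwards [h2, k2] with t a b using add_le_add a b
  · rw [integral_add h1 k1]; exact add_le_add h3 k3

theorem DL1_M.mul {T : Set ℝ} {f : ℝ → ℝ} {K c : ℝ} (h : DL1_M T f K) (hc : 0 ≤ c) :
    DL1_M T (fun t => c * f t) (c * K) := by
  obtain ⟨G, h1, h2, h3⟩ := h
  refine ⟨fun t => c * G t, h1.const_mul c, ?_, ?_⟩
  · filter_upwards [h2] with t a using mul_le_mul_of_nonneg_left a hc
  · rw [integral_const_mul]; exact mul_le_mul_of_nonneg_left h3 hc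

theorem DL1_M.mono {T : Set ℝ} {f g : ℝ → ℝ} {K L : ℝ} (h : DL1_M T g K) (hT : MeasurableSet T)
    (hf : ∀ᵐ t, t ∈ T → f t ≤ g t) (hK : K ≤ L) : DL1_M T f L := by
  obtain ⟨G, h1, h2, h3⟩ := h
  refine ⟨G, h1, ?_, h3.trans hK⟩
  filter_upwards [h2, (ae_restrict_iff' hT).2 hf] with t a b using b.trans a

theorem DL1_M.sub {S T : Set ℝ} {f : ℝ → ℝ} {K : ℝ} (h : DL1_M T f K) (h0 : ∀ t, 0 ≤ f t)
    (hS : S ⊆ T) : DL1_M S f K := by
  obtain ⟨G, h1, h2, h3⟩ := h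
  refine ⟨G, h1.mono_set hS, ae_restrict_of_ae_restrict_of_subset hS h2, le_trans ?_ h3⟩
  refine setIntegral_mono_set h1 ?_ hS.eventuallyLE
  filter_upwards [h2] with t a using (h0 t).trans a

theorem DL1_univ {f : ℝ → ℝ} {K : ℝ} (h : Integrable f ∧ ∫ t, f t ≤ K) (h0 : ∀ t, 0 ≤ f t)
    (ξ : ℝ) (T : Set ℝ) : DL1_M T (fun t => f (t - ξ)) K := by
  refine DL1_M.sub (T := univ) (DL1_of ⟨?_, ?_⟩) (fun t => h0 _) (subset_univ T)
  · exact (h.1.comp_sub_right ξ).integrableOn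
  · rw [Measure.restrict_univ, integral_sub_right_eq_self f ξ]; exact h.2

theorem DL1_shift {S : Set ℝ} {f : ℝ → ℝ} {K : ℝ} (h : IntegrableOn f S ∧ ∫ t in S, f t ≤ K)
    (ξ : ℝ) : DL1_M ((fun t => t - ξ) ⁻¹' S) (fun t => f (t - ξ)) K := by
  have hp := measurePreserving_sub_right (volume : Measure ℝ) ξ
  have he := measurableEmbedding_subRight ξ
  refine DL1_of ⟨(hp.integrableOn_comp_preimage he).2 h.1, ?_⟩
  rw [hp.setIntegral_preimage_emb he f S]; exact h.2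

theorem DL1_sum {T : Set ℝ} {f : ℕ → ℝ → ℝ} {K : ℕ → ℝ} (A : Finset ℕ)
    (h : ∀ a ∈ A, DL1_M T (f a) (K a)) : DL1_M T (fun t => ∑ a ∈ A, f a t) (∑ a ∈ A, K a) := by
  classical
  induction A using Finset.induction_on with
  | empty => exact DL1_of ⟨by simp, by simp⟩
  | insert a A ha ih =>
    simp only [Finset.sum_insert ha]
    exact (h a (Finset.mem_insert_self _ _)).add
      (ih fun b hb => h b (Finset.mem_insert_of_mem hb))

theorem DL1_w {s : ℝ} (hs : 0 ≤ s) {K : ℝ} (hK : 0 ≤ K) : K ≤ K * w0 s :=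
  le_mul_of_one_le_right hK (by rw [w0_of_nonneg hs]; linarith)

namespace Cfg

theorem DL1_W (Z : Cfg) (y : ℝ) {T : Set ℝ} {p q : ℕ → ℝ → ℝ} {K : ℝ}
    (hp : ∀ a, Z.ξ a < y → DL1_M T (p a) (K * w0 (y - Z.ξ a)))
    (hq : ∀ a, y ≤ Z.ξ a → DL1_M T (q a) (K * w0 (y - Z.ξ a))) :
    DL1_M T (fun t => ∑ a ∈ Z.s.filter (fun a => Z.ξ a < y), p a t +
      ∑ a ∈ Z.s.filter (fun a => y ≤ Z.ξ a), q a t) (K * Z.W y) := by
  rw [Bf_W_split, mul_add, Finset.mul_sum, Finset.mul_sum]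
  exact (DL1_sum _ fun a ha => hp a (Finset.mem_filter.1 ha).2).add
    (DL1_sum _ fun a ha => hq a (Finset.mem_filter.1 ha).2)

/-- `U` without its linear term -/
def DL1_R (Z : Cfg) (y t φ : ℝ) : ℝ :=
  Z.U t φ - (Z.cc y * Complex.exp (t + φ * Complex.I)).re

theorem DL1_R_eq (Z : Cfg) (y t φ : ℝ) : Z.DL1_R y t φ =
    ∑ a ∈ Z.s.filter (fun a => Z.ξ a < y), lg (t - Z.ξ a) (φ - Z.η a) +
      ∑ a ∈ Z.s.filter (fun a => y ≤ Z.ξ a), nk (t - Z.ξ a) (φ - Z.η a) := by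
  unfold DL1_R
  rw [Z.U_split y]; ring

theorem DL1_R_sub (Z : Cfg) (y t φ φ' : ℝ) {w : ℝ} (hw : 0 ≤ w) :
    w * |Z.DL1_R y t φ - Z.DL1_R y t φ'| ≤
    ∑ a ∈ Z.s.filter (fun a => Z.ξ a < y),
        w * |lg (t - Z.ξ a) (φ - Z.η a) - lg (t - Z.ξ a) (φ' - Z.η a)| +
      ∑ a ∈ Z.s.filter (fun a => y ≤ Z.ξ a),
        w * |nk (t - Z.ξ a) (φ - Z.η a) - nk (t - Z.ξ a) (φ' - Z.η a)| := by
  rw [← Finset.mul_sum, ← Finset.mul_sum, ← mul_add, DL1_R_eq, DL1_R_eq, add_sub_add_comm,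
    ← Finset.sum_sub_distrib, ← Finset.sum_sub_distrib]
  exact mul_le_mul_of_nonneg_left ((abs_add_le _ _).trans
    (add_le_add (Finset.abs_sum_le_sum_abs _ _) (Finset.abs_sum_le_sum_abs _ _))) hw

theorem DL1_lg (ξ η φ φ' : ℝ) (T : Set ℝ) :
    DL1_M T (fun t => |lg (t - ξ) (φ - η) - lg (t - ξ) (φ' - η)|) (π * |φ - φ'|) := by
  have := DL1_univ (lip_lg (φ - η) (φ' - η)) (fun _ => abs_nonneg _) ξ T
  rwa [sub_sub_sub_cancel_right] at this

theorem DL1_left : ∃ C : ℝ, 1 ≤ C ∧ ∀ (Z : Cfg) (y φ φ' : ℝ),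
    DL1_M (Iio y) (fun t => |Z.DL1_R y t φ - Z.DL1_R y t φ'|) (C * |φ - φ'| * Z.W y) := by
  obtain ⟨C, hC, h⟩ := lip_nk_neg
  refine ⟨C + π, by linarith [pi_pos], fun Z y φ φ' => ?_⟩
  have hd := abs_nonneg (φ - φ')
  have h1 : 0 ≤ C * |φ - φ'| := by positivity
  have h2 : 0 ≤ π * |φ - φ'| := by positivity
  refine (Z.DL1_W y (K := (C + π) * |φ - φ'|) (fun a ha => ?_) (fun a ha => ?_)).mono
    measurableSet_Iio (ae_of_all _ fun t _ => by
      simpa only [one_mul] using Z.DL1_R_sub y t φ φ' zero_le_one) le_rfl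
  · refine (DL1_lg _ _ φ φ' _).mono measurableSet_Iio (ae_of_all _ fun _ _ => le_rfl) ?_
    exact le_trans (by linarith) (DL1_w (by linarith) (by positivity))
  · have := DL1_shift (h 0 (Z.ξ a - y) (φ - Z.η a) (φ' - Z.η a) le_rfl (by norm_num)
      (by linarith)) (Z.ξ a)
    rw [preimage_sub_const_Iio, show -(Z.ξ a - y) + Z.ξ a = y by ring,
      sub_sub_sub_cancel_right] at this
    refine this.mono measurableSet_Iio (ae_of_all _ fun _ _ => by simp) ?_
    rw [w0_of_nonpos (by linarith only [ha]), show -(2 - 0) * (Z.ξ a - y) = 2 * (y - Z.ξ a) by ring]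
    exact mul_le_mul_of_nonneg_right (by linarith) (exp_pos _).le

theorem DL1_right : ∃ C : ℝ, 1 ≤ C ∧ ∀ (Z : Cfg) (lam y φ φ' : ℝ), 1 < lam → lam ≤ 11 / 10 →
    DL1_M (Ioi y) (fun t => exp (-2 * lam * (t - y)) * |Z.DL1_R y t φ - Z.DL1_R y t φ'|)
      (C * |φ - φ'| / (lam - 1) * Z.W y) := by
  obtain ⟨C, hC, h⟩ := lip_nk_pos
  refine ⟨C + π, by linarith [pi_pos], fun Z lam y φ φ' hl hl' => ?_⟩
  have hd := abs_nonneg (φ - φ')
  have h0 : 0 < lam - 1 := by linarith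
  have h1 : 0 ≤ C * |φ - φ'| := by positivity
  have h2 : 0 ≤ π * |φ - φ'| := by positivity
  refine (Z.DL1_W y (K := (C + π) * |φ - φ'| / (lam - 1)) (fun a ha => ?_) (fun a ha => ?_)).mono
    measurableSet_Ioi (ae_of_all _ fun t _ => Z.DL1_R_sub y t φ φ' (exp_pos _).le) le_rfl
  · refine (DL1_lg (Z.ξ a) (Z.η a) φ φ' _).mono measurableSet_Ioi (ae_of_all _ fun t ht => ?_) ?_
    · refine mul_le_of_le_one_left (abs_nonneg _) (exp_le_one_iff.2 ?_)
      have : 0 ≤ lam * (t - y) := mul_nonneg (by linarith) (by linarith [mem_Ioi.1 ht])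
      linarith only [this]
    · refine le_trans ?_ (DL1_w (by linarith) (by positivity))
      rw [le_div_iff₀ h0]
      have := mul_le_of_le_one_right h2 (by linarith : lam - 1 ≤ 1)
      linarith
  · have := DL1_shift (h lam (Z.ξ a - y) (φ - Z.η a) (φ' - Z.η a) hl hl' (by linarith)) y
    rw [preimage_sub_const_Ioi, zero_add, sub_sub_sub_cancel_right] at this
    refine this.mono measurableSet_Ioi (ae_of_all _ fun _ _ => by
      simp only [sub_sub_sub_cancel_right, le_refl]) ?_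
    rw [w0_of_nonpos (by linarith only [ha]), show -2 * (Z.ξ a - y) = 2 * (y - Z.ξ a) by ring,
      div_mul_eq_mul_div]
    exact div_le_div_of_nonneg_right
      (mul_le_mul_of_nonneg_right (by linarith only [h2]) (exp_pos _).le) h0.le

theorem DL1_D (Z : Cfg) {lam : ℝ} (hl : 1 ≤ lam) (y t θ : ℝ) :
    |Z.D lam t θ| ≤ 8 * (lam - 1) * ‖Z.cc y‖ * exp t +
      |Z.DL1_R y t (θ + π / lam) - Z.DL1_R y t (θ - π / lam + (1 : ℤ) * (2 * π))| := by
  have e : Z.D lam t θ = ‖Z.cc y‖ * exp t * (cos (θ + π / lam - -Complex.arg (Z.cc y)) -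
      cos (θ - π / lam + (1 : ℤ) * (2 * π) - -Complex.arg (Z.cc y))) +
      (Z.DL1_R y t (θ + π / lam) - Z.DL1_R y t (θ - π / lam + (1 : ℤ) * (2 * π))) := by
    unfold D Dop DL1_R
    rw [U_per, Bf_re_mul, Bf_re_mul]; ring
  rw [e]
  refine (abs_add_le _ _).trans (add_le_add_left ?_ _)
  have h1 := abs_cos_sub_cos_le (θ + π / lam - -Complex.arg (Z.cc y))
    (θ - π / lam + (1 : ℤ) * (2 * π) - -Complex.arg (Z.cc y))
  have h2 := ha_le hl
  have h3 : 0 ≤ ‖Z.cc y‖ * exp t := by positivity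
  rw [sub_sub_sub_cancel_right, abs_of_nonpos (a := θ + π / lam - _) (by push_cast; linarith only [h2])] at h1
  rw [abs_mul, abs_of_nonneg h3]
  refine (mul_le_mul_of_nonneg_left (h1.trans (c := 8 * (lam - 1)) ?_) h3).trans_eq (by ring)
  push_cast; linarith only [h2]

theorem DL1_dist {lam : ℝ} (hl : 1 ≤ lam) (θ : ℝ) :
    |θ + π / lam - (θ - π / lam + (1 : ℤ) * (2 * π))| ≤ 8 * (lam - 1) := by
  have h2 := ha_le hl
  rw [abs_of_nonpos (by push_cast; linarith only [h2])]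
  push_cast; linarith only [h2]

theorem DL1_exp (y : ℝ) : DL1_M (Iio y) exp (exp y) :=
  DL1_of ⟨(integrableOn_exp_Iic y).mono_set Iio_subset_Iic_self,
    (integral_Iic_eq_integral_Iio.symm.trans (integral_exp_Iic y)).le⟩

theorem D_left : ∃ C : ℝ, 1 ≤ C ∧ ∀ (Z : Cfg) (lam y θ : ℝ), 1 < lam → lam ≤ 11 / 10 →
    ∫ t in Iio y, exp (lam * (t - y)) * |Z.D lam t θ| ≤ C * (lam - 1) * (Z.A y + Z.W y) := by
  obtain ⟨C, hC, h⟩ := DL1_left
  refine ⟨8 * C, by linarith only [hC], fun Z lam y θ hl hl' => ?_⟩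
  have h0 : 0 < lam - 1 := by linarith only [hl]
  have hW := Z.W_nonneg y
  refine DL1_M.int ((((DL1_exp y).mul (c := 8 * (lam - 1) * ‖Z.cc y‖) (by positivity)).add
    (h Z y (θ + π / lam) (θ - π / lam + (1 : ℤ) * (2 * π)))).mono measurableSet_Iio
      (ae_of_all _ fun t ht => ?_) ?_) fun t => by positivity
  · refine le_trans (mul_le_of_le_one_left (abs_nonneg _) (exp_le_one_iff.2 ?_))
      (Z.DL1_D hl.le y t θ)
    exact mul_nonpos_of_nonneg_of_nonpos (by linarith only [hl, hl']) (by linarith [mem_Iio.1 ht])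
  · have h1 := mul_le_mul_of_nonneg_right
      (mul_le_mul_of_nonneg_left (DL1_dist hl.le θ) (by linarith : 0 ≤ C)) hW
    have h2 : 0 ≤ (lam - 1) * (‖Z.cc y‖ * exp y) := by positivity
    have h3 := le_mul_of_one_le_left h2 hC
    unfold A
    linarith only [h1, h3]

theorem D_right : ∃ C : ℝ, 1 ≤ C ∧ ∀ (Z : Cfg) (lam y θ : ℝ), 1 < lam → lam ≤ 11 / 10 →
    ∫ t in Ioi y, exp (-2 * lam * (t - y)) * |Z.D lam t θ| ≤ C * ((lam - 1) * Z.A y + Z.W y) := by
  obtain ⟨C, hC, h⟩ := DL1_right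
  refine ⟨8 * C, by linarith, fun Z lam y θ hl hl' => ?_⟩
  have h0 : 0 < lam - 1 := by linarith
  have hW := Z.W_nonneg y
  have he : DL1_M (Ioi y) (fun t => exp (-1 * (t - y))) 1 := by
    have := DL1_shift (S := Ioi 0) (f := fun t => exp (-1 * t)) (K := 1)
      ⟨integrableOn_exp_mul_Ioi (by norm_num) 0,
        by rw [integral_exp_mul_Ioi (by norm_num)]; norm_num⟩ y
    rwa [preimage_sub_const_Ioi, zero_add] at this
  refine DL1_M.int (((he.mul (c := 8 * (lam - 1) * ‖Z.cc y‖ * exp y) (by positivity)).add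
    (h Z lam y (θ + π / lam) (θ - π / lam + (1 : ℤ) * (2 * π)) hl hl')).mono measurableSet_Ioi
      (ae_of_all _ fun t ht => ?_) ?_) fun t => by positivity
  · refine (mul_le_mul_of_nonneg_left (Z.DL1_D hl.le y t θ) (exp_pos _).le).trans ?_
    rw [mul_add]
    refine add_le_add_left ?_ _
    have h1 : exp (-2 * lam * (t - y)) * exp t ≤ exp y * exp (-1 * (t - y)) := by
      rw [← exp_add, ← exp_add]
      have : 0 ≤ (lam - 1) * (t - y) := mul_nonneg h0.le (by linarith only [ht, mem_Ioi.1 ht])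
      exact exp_le_exp.2 (by linarith only [this])
    have h2 := mul_le_mul_of_nonneg_left h1 (by positivity : 0 ≤ 8 * (lam - 1) * ‖Z.cc y‖)
    linarith only [h2]
  · have h1 : C * |θ + π / lam - (θ - π / lam + (1 : ℤ) * (2 * π))| / (lam - 1) ≤ 8 * C := by
      rw [div_le_iff₀ h0]
      have := mul_le_mul_of_nonneg_left (DL1_dist hl.le θ) (by linarith only [hC, hl, hl'] : 0 ≤ C)
      linarith only [this]
    have h4 := mul_le_mul_of_nonneg_right h1 hW
    have h2 : 0 ≤ (lam - 1) * (‖Z.cc y‖ * exp y) := by positivity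
    have h3 := le_mul_of_one_le_left h2 hC
    unfold A
    linarith only [h4, h3]

theorem D_lip : ∃ C : ℝ, 1 ≤ C ∧ ∀ (Z : Cfg) (lam y θ θ' : ℝ), 1 < lam → lam ≤ 11 / 10 →
    ∫ t in (y - 1)..y, |Z.D lam t θ - Z.D lam t θ'| ≤
      C * |θ - θ'| * ((lam - 1) * Z.A y + Z.W y) := by
  obtain ⟨C, hC, h⟩ := DL1_left
  refine ⟨8 * C, by linarith, fun Z lam y θ θ' hl hl' => ?_⟩
  have h0 : 0 < lam - 1 := by linarith
  have hW := Z.W_nonneg y
  have hd := abs_nonneg (θ - θ')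
  rw [intervalIntegral.integral_of_le (by linarith), integral_Ioc_eq_integral_Ioo]
  refine DL1_M.int (DL1_M.sub (T := Iio y) ?_ (fun t => abs_nonneg _) Ioo_subset_Iio_self)
    fun t => abs_nonneg _
  refine ((((DL1_exp y).mul (c := 8 * (lam - 1) * |θ - θ'| * ‖Z.cc y‖) (by positivity)).add
    (h Z y (θ + π / lam) (θ' + π / lam))).add (h Z y (θ - π / lam) (θ' - π / lam))).mono
      measurableSet_Iio (ae_of_all _ fun t _ => ?_) ?_
  · have e : Z.D lam t θ - Z.D lam t θ' = -2 * sin (π / lam) * (‖Z.cc y‖ * exp t) *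
        (sin (θ + Complex.arg (Z.cc y)) - sin (θ' + Complex.arg (Z.cc y))) +
        (Z.DL1_R y t (θ + π / lam) - Z.DL1_R y t (θ' + π / lam)) -
        (Z.DL1_R y t (θ - π / lam) - Z.DL1_R y t (θ' - π / lam)) := by
      unfold D Dop DL1_R
      simp only [Bf_re_mul, sub_neg_eq_add, add_right_comm _ (π / lam), sub_add_eq_add_sub,
        cos_add _ (π / lam), cos_sub _ (π / lam)]
      ring
    rw [e]
    refine (abs_sub _ _).trans (add_le_add_left ((abs_add_le _ _).trans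
      (add_le_add_left ?_ _)) _)
    have h1 := abs_sin_sub_sin_le (θ + Complex.arg (Z.cc y)) (θ' + Complex.arg (Z.cc y))
    rw [add_sub_add_right_eq_sub] at h1
    obtain ⟨h2, h3⟩ := ha_sin hl.le hl'
    have h4 : 0 ≤ sin (π / lam) := by
      by_contra hn
      have := mul_neg_of_pos_of_neg (by linarith only [hl, hl'] : 0 < lam) (not_le.1 hn)
      linarith only [hl, h2, this]
    have h5 : sin (π / lam) ≤ 4 * (lam - 1) := (le_mul_of_one_le_left h4 hl.le).trans h3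
    have h6 : 0 ≤ ‖Z.cc y‖ * exp t := by positivity
    rw [abs_mul, abs_mul, abs_mul, abs_of_nonneg h4, abs_of_nonneg h6, abs_neg, abs_two]
    refine (mul_le_mul (mul_le_mul_of_nonneg_right
      (mul_le_mul_of_nonneg_left h5 zero_le_two) h6) h1 (abs_nonneg _) (by positivity)).trans_eq ?_
    ring
  · rw [add_sub_add_right_eq_sub, sub_sub_sub_cancel_right]
    have h2 : 0 ≤ |θ - θ'| * ((lam - 1) * (‖Z.cc y‖ * exp y)) := by positivity
    have h3 := le_mul_of_one_le_left h2 hC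
    have h4 : 0 ≤ C * |θ - θ'| * Z.W y := by positivity
    unfold A
    linarith only [h3, h4]

theorem U_near : ∃ C : ℝ, 1 ≤ C ∧ ∀ (Z : Cfg) (y φ : ℝ),
    ∫ t in y..(y + 1), |Z.U t φ - (Z.cc y * Complex.exp (t + φ * Complex.I)).re| ≤ C * Z.W y := by
  obtain ⟨C, hC, h⟩ := env_pos
  have hI : 0 ≤ ∫ s, l0 s := integral_nonneg l0_nonneg
  have h3 : 0 ≤ exp 3 * C := by positivity
  refine ⟨1 + (∫ s, l0 s) + exp 3 * C, by linarith, fun Z y φ => ?_⟩
  rw [intervalIntegral.integral_of_le (by linarith)]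
  refine DL1_M.int ((Z.DL1_W y (T := Ioc y (y + 1)) (K := 1 + (∫ s, l0 s) + exp 3 * C)
    (p := fun a t => w0 (y - Z.ξ a) + l0 (t - Z.ξ a)) (q := fun a t => env (t - Z.ξ a))
    (fun a ha => ?_) (fun a ha => ?_)).mono measurableSet_Ioc ?_ le_rfl) fun t => abs_nonneg _
  · have h1 : DL1_M (Ioc y (y + 1)) (fun _ => w0 (y - Z.ξ a)) (w0 (y - Z.ξ a)) :=
      DL1_of ⟨integrableOn_const (by simp), by simp⟩
    refine (h1.add (DL1_univ ⟨integrable_l0, le_rfl⟩ l0_nonneg (Z.ξ a) _)).mono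
      measurableSet_Ioc (ae_of_all _ fun _ _ => le_rfl) ?_
    have h2 := DL1_w (s := y - Z.ξ a) (by linarith) hI
    have h4 := mul_nonneg h3 (w0_pos (y - Z.ξ a)).le
    linarith
  · have := DL1_shift (h (Z.ξ a - y) (by linarith)) (Z.ξ a)
    rw [preimage_sub_const_Ioi, show -(Z.ξ a - y) + Z.ξ a = y by ring] at this
    refine ((this.sub (fun t => mul_nonneg (exp_pos _).le (env_nonneg _))
      Ioc_subset_Ioi_self).mul (exp_pos (3 + 3 * (y - Z.ξ a))).le).mono measurableSet_Ioc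
        (ae_of_all _ fun t ht => ?_) ?_
    · rw [← mul_assoc, ← exp_add]
      exact le_mul_of_one_le_left (env_nonneg _) (one_le_exp (by linarith [ht.2]))
    · rw [w0_of_nonpos (by linarith)]
      have e : exp (3 + 3 * (y - Z.ξ a)) * (C * exp (Z.ξ a - y)) =
          exp 3 * C * exp (2 * (y - Z.ξ a)) := by
        rw [mul_left_comm, ← exp_add, mul_right_comm, ← exp_add, mul_comm]
        congr 2; ring
      rw [e]
      exact mul_le_mul_of_nonneg_right (by linarith only [hI]) (exp_pos _).le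
  · filter_upwards [Z.ae_reg] with t ht hm
    have e := Z.DL1_R_eq y t φ
    unfold DL1_R at e
    rw [e]
    refine (abs_add_le _ _).trans (add_le_add
      ((Finset.abs_sum_le_sum_abs _ _).trans (Finset.sum_le_sum fun a ha => ?_))
      ((Finset.abs_sum_le_sum_abs _ _).trans (Finset.sum_le_sum fun a ha => ?_)))
    · obtain ⟨ha1, ha2⟩ := Finset.mem_filter.1 ha
      have h1 := abs_le.1 (abs_lg_sub_le (sub_ne_zero.2 (ht a ha1).symm) (φ - Z.η a))
      rw [max_eq_left (by linarith [hm.1])] at h1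
      rw [w0_of_nonneg (by linarith), abs_le]
      constructor <;> linarith only [ha2, h1, hm, hm.1, hm.2, h1.1, h1.2]
    · exact abs_nk_le (sub_ne_zero.2 (ht a (Finset.mem_filter.1 ha).1).symm) _

end Cfg

end

end Pool.Agent.MinMod
end

-- merged part: Pool.Agent.Work.MP_f62247_an.CalmA
section
/-!
# First consequences of calm

`A k = e^(lam k) g k`.  `slow`: `norm_cc_step`.  `B_calm`: `B_le`, `B_ge` (`t = 1/40`).  For `k < n` and `a ∈ cell k`, `ki n (ξ a) = k`.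
`mm_le`: on `[k, k+1]`, `B ≤ ‖cc k‖ e^t + e² W k`; `Re (cc k e^(i(θ k ± h))) ≥ ‖cc k‖ (1 - 8 (lam-1)² - μ)` (`dir`, `ha_cos`); `U_near`.
`dd² ≤ (∑ e^(-lam ξ)) qq` (Cauchy-Schwarz).
-/

open Real MeasureTheory Set Filter Topology

namespace Pool.Agent.MinMod

noncomputable section

namespace Cfg

theorem Calm.mu_pos {Z : Cfg} {lam μ η : ℝ} {n : ℕ} {θ : ℕ → ℝ} (h : Z.Calm lam μ η n θ) :
    0 < μ := by
  linarith [h.lam1, h.le_mu]

theorem A_eq (Z : Cfg) (lam : ℝ) (k : ℕ) : Z.A k = exp (lam * k) * Z.g lam k := by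
  rw [A, g, mul_left_comm, ← exp_add]
  congr 2
  ring

theorem Calm.g_pos {Z : Cfg} {lam μ η : ℝ} {n : ℕ} {θ : ℕ → ℝ} (h : Z.Calm lam μ η n θ)
    {k : ℕ} (hk : k ≤ n) : 0 < Z.g lam k :=
  mul_pos (h.pos k hk) (exp_pos _)

theorem Calm.Wh_le {Z : Cfg} {lam μ η : ℝ} {n : ℕ} {θ : ℕ → ℝ} (h : Z.Calm lam μ η n θ)
    {k : ℕ} (hk : k ≤ n) : Z.Wh lam k ≤ μ * Z.g lam k := by
  have h1 := mul_le_mul_of_nonneg_left (h.calm k hk) (exp_pos (-lam * k)).le
  rw [Z.A_eq lam, mul_left_comm, ← mul_assoc (exp _), ← exp_add, neg_mul, neg_add_cancel, exp_zero,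
    one_mul, ← neg_mul] at h1
  exact h1

theorem Calm.drift {Z : Cfg} {lam μ η : ℝ} {n : ℕ} {θ : ℕ → ℝ} (h : Z.Calm lam μ η n θ)
    {i j : ℕ} (hi : i ≤ n) (hj : j ≤ n) : |θ i - θ j| ≤ μ * |(i : ℝ) - j| := by
  have key : ∀ i d : ℕ, i + d ≤ n → |θ (i + d) - θ i| ≤ μ * d := fun i d => by
    induction d with
    | zero => simp
    | succ d ih =>
      intro hd
      have h1 := h.step (i + d) hd
      have h2 := abs_sub_le (θ (i + d + 1)) (θ (i + d)) (θ i)
      have h3 := ih (by omega)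
      rw [← add_assoc]
      push_cast
      linarith only [h1, h2, h3]
  rcases le_total i j with hij | hij
  · obtain ⟨d, rfl⟩ := Nat.exists_eq_add_of_le hij
    rw [abs_sub_comm]
    simpa using key i d hj
  · obtain ⟨d, rfl⟩ := Nat.exists_eq_add_of_le hij
    simpa using key j d hi

theorem ki_le (n : ℕ) (x : ℝ) : ki n x ≤ n :=
  min_le_left _ _

theorem ki_of_mem_cell (Z : Cfg) {n k a : ℕ} (hk : k ≤ n) (ha : a ∈ Z.cell k) :
    ki n (Z.ξ a) = k := by
  obtain ⟨-, h1, h2⟩ := Finset.mem_filter.1 ha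
  rw [ki, (Nat.floor_eq_iff ((Nat.cast_nonneg k).trans h1)).2 ⟨h1, h2⟩, min_eq_right hk]

theorem abs_ki_sub_le {n j : ℕ} (hj : j ≤ n) (x : ℝ) : |(ki n x : ℝ) - j| ≤ |x - j| + 1 := by
  have h1 : (j : ℝ) ≤ n := Nat.cast_le.2 hj
  have h2 := Nat.lt_floor_add_one x
  have h3 := le_abs_self (x - j)
  have h4 := neg_abs_le (x - j)
  have h5 := abs_nonneg (x - j)
  have h6 : (⌊x⌋₊ : ℝ) - j ≤ |x - j| := by
    rcases le_total 0 x with h | h
    · linarith only [h3, h, Nat.floor_le h]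
    · rw [Nat.floor_of_nonpos h, Nat.cast_zero]
      linarith only [h3, h4, Nat.cast_nonneg (α := ℝ) j]
  rw [ki, Nat.cast_min, abs_le]
  constructor
  · linarith only [h1, h3, h4, h2, le_min (show (j : ℝ) - |x - j| - 1 ≤ n by linarith only [h1, h3, h4])
      (show (j : ℝ) - |x - j| - 1 ≤ ⌊x⌋₊ by linarith)]
  · linarith only [h6, min_le_right (n : ℝ) ⌊x⌋₊]

theorem VV_subset (Z : Cfg) (n : ℕ) (θ : ℕ → ℝ) : Z.VV n θ ⊆ Z.s :=
  Finset.filter_subset _ _

theorem rr_nonneg (Z : Cfg) (lam : ℝ) {t : ℝ} (ht : Z.Reg t) (θ : ℝ) :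
    0 ≤ Z.rr lam t θ ∧ |Z.D lam t θ| ≤ Z.rr lam t θ := by
  have h1 := Z.U_le_B ht (θ + π / lam)
  have h2 := Z.U_le_B ht (θ - π / lam)
  rw [rr, D, Dop, abs_le]
  exact ⟨by linarith only [h1, h2], by linarith only [h2], by linarith only [h1]⟩

theorem intervalIntegrable_rr (Z : Cfg) (lam θ a b : ℝ) :
    IntervalIntegrable (fun t => Z.rr lam t θ) volume a b :=
  (((Z.continuous_B.intervalIntegrable a b).const_mul 2).sub
    (Z.intervalIntegrable_U _ a b)).sub (Z.intervalIntegrable_U _ a b)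

theorem mm_nonneg (Z : Cfg) {lam : ℝ} (h : 0 ≤ lam) (n : ℕ) (θ : ℕ → ℝ) (k : ℕ) :
    0 ≤ Z.mm lam n θ k ∧ 0 ≤ Z.qq lam n θ k ∧ 0 ≤ Z.dd lam n θ k := by
  refine ⟨add_nonneg (mul_nonneg h (intervalIntegral.integral_nonneg_of_ae (by linarith) ?_))
    (Finset.sum_nonneg fun a _ => by positivity), Finset.sum_nonneg fun a _ => by positivity,
    Finset.sum_nonneg fun a _ => by positivity⟩
  filter_upwards [Z.ae_reg] with t ht
  exact mul_nonneg (exp_pos _).le (Z.rr_nonneg lam ht _).1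

theorem EE_nonneg (Z : Cfg) {lam : ℝ} (h : 1 ≤ lam) (k : ℕ) : 0 ≤ Z.EE lam k :=
  add_nonneg (mul_nonneg (sub_nonneg.2 h) (mul_nonneg (norm_nonneg _) (exp_pos _).le))
    (mul_nonneg (exp_pos _).le (Z.W_nonneg _))

theorem CalmA_exp : exp 1 ≤ 3 ∧ exp 2 ≤ 8 := by
  have h := exp_one_lt_d9
  have e : exp 2 = exp 1 * exp 1 := by rw [← exp_add]; norm_num
  refine ⟨by linarith only [h], ?_⟩
  rw [e]
  linarith only [h, exp_pos 1, mul_pos_of_neg_of_neg (Mathlib.Tactic.Linarith.sub_neg_of_lt h) (Mathlib.Tactic.Linarith.sub_neg_of_lt (exp_pos (1 : ℝ)))]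

theorem CalmA_step {Z : Cfg} {lam μ η : ℝ} {n : ℕ} {θ : ℕ → ℝ} (h : Z.Calm lam μ η n θ)
    (hμ : μ ≤ 1 / 2000) {k : ℕ} (hk : k < n) :
    Z.g lam (k + 1) ≤ exp (1 / 100) * Z.g lam k ∧ Z.g lam k ≤ exp (1 / 100) * Z.g lam (k + 1) := by
  have m0 := h.mu_pos
  have c0 := h.pos k hk.le
  have h1 := Z.norm_cc_step (y := k) (y' := ((k + 1 : ℕ) : ℝ)) (by push_cast; linarith only [hμ, m0])
    (by push_cast; linarith only [])
  have h2 : exp 2 * Z.W k ≤ 8 * μ * ‖Z.cc k‖ * exp k := by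
    have := mul_le_mul CalmA_exp.2 (h.calm k hk.le) (Z.W_nonneg _) (by norm_num)
    rw [A] at this
    linarith only [this]
  have h3 := abs_le.1 ((abs_norm_sub_norm_le _ _).trans
    (le_of_mul_le_mul_right (h1.trans h2) (exp_pos _)))
  have e : exp (-(lam - 1) * (k + 1 : ℕ)) = exp (-(lam - 1)) * exp (-(lam - 1) * k) := by
    rw [← exp_add]; push_cast; ring_nf
  have a1 : exp (-(lam - 1)) ≤ 1 := exp_le_one_iff.2 (by linarith only [h, h.lam1])
  have a2 : 1 - μ ≤ exp (-(lam - 1)) := by linarith only [h, add_one_le_exp (-(lam - 1)), h.le_mu]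
  have a3 : 101 / 100 ≤ exp (1 / 100) := by linarith only [add_one_le_exp (1 / 100)]
  have c1 := norm_nonneg (Z.cc ((k + 1 : ℕ) : ℝ))
  simp only [g, e, ← mul_assoc]
  refine ⟨mul_le_mul_of_nonneg_right ?_ (exp_pos _).le,
    mul_le_mul_of_nonneg_right ?_ (exp_pos _).le⟩
  · linarith only [c0, h3, a1, c1, a3, hμ, mul_le_mul_of_nonneg_left a1 c1, mul_le_mul_of_nonneg_right a3 c0.le, mul_nonneg_of_nonpos_of_nonpos (Mathlib.Tactic.Linarith.sub_nonpos_of_le hμ) (le_of_lt (Mathlib.Tactic.Linarith.sub_neg_of_lt c0))]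
  · have b1 : 249 / 250 * ‖Z.cc k‖ ≤ ‖Z.cc ((k + 1 : ℕ) : ℝ)‖ := by linarith only [h3, hμ, c0, mul_nonneg_of_nonpos_of_nonpos (Mathlib.Tactic.Linarith.sub_nonpos_of_le hμ) (le_of_lt (Mathlib.Tactic.Linarith.sub_neg_of_lt c0))]
    have b2 := mul_le_mul (mul_le_mul a3 b1 (by positivity) (exp_pos _).le)
      (show 1999 / 2000 ≤ exp (-(lam - 1)) by linarith only [hμ, a2]) (by norm_num) (by positivity)
    linarith only [c0, b2]

theorem slow : ∃ μ0 : ℝ, 0 < μ0 ∧ ∀ (Z : Cfg) (lam μ η : ℝ) (n : ℕ) (θ : ℕ → ℝ),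
    Z.Calm lam μ η n θ → μ ≤ μ0 →
    ∀ i ≤ n, ∀ j ≤ n, Z.g lam i ≤ exp (|(i : ℝ) - j| / 100) * Z.g lam j := by
  refine ⟨1 / 2000, by norm_num, fun Z lam μ η n θ h hμ => ?_⟩
  have key : ∀ i d : ℕ, i + d ≤ n → Z.g lam (i + d) ≤ exp (d / 100) * Z.g lam i ∧
      Z.g lam i ≤ exp (d / 100) * Z.g lam (i + d) := fun i d => by
    induction d with
    | zero => simp
    | succ d ih =>
      intro hd
      obtain ⟨h1, h2⟩ := CalmA_step h hμ (k := i + d) hd
      obtain ⟨h3, h4⟩ := ih (by omega)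
      have e : exp (((d + 1 : ℕ) : ℝ) / 100) = exp (1 / 100) * exp (d / 100) := by
        rw [← exp_add]; push_cast; ring_nf
      rw [e, ← add_assoc]
      refine ⟨h1.trans ?_, h4.trans ?_⟩
      · rw [mul_assoc]
        exact mul_le_mul_of_nonneg_left h3 (exp_pos _).le
      · rw [mul_comm (exp (1 / 100)), mul_assoc]
        exact mul_le_mul_of_nonneg_left h2 (exp_pos _).le
  intro i hi j hj
  rcases le_total i j with hij | hij
  · obtain ⟨d, rfl⟩ := Nat.exists_eq_add_of_le hij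
    simpa using (key i d hj).2
  · obtain ⟨d, rfl⟩ := Nat.exists_eq_add_of_le hij
    simpa using (key j d hi).1

theorem CalmA_cell {Z : Cfg} {lam μ η : ℝ} {n : ℕ} {θ : ℕ → ℝ} (h : Z.Calm lam μ η n θ)
    {k : ℕ} (hk : k ≤ n) : ∑ a ∈ Z.cell k, exp (-lam * Z.ξ a) ≤ 8 * μ * Z.g lam k := by
  have h1 : ∑ a ∈ Z.cell k, exp (-lam * Z.ξ a) ≤ (Z.cell k).card • exp (-lam * k) :=
    Finset.sum_le_card_nsmul _ _ _ fun a ha => exp_le_exp.2 (by
      linarith only [ha, h, (Finset.mem_filter.1 ha).2.1, h.lam1, mul_nonneg_of_nonpos_of_nonpos (Mathlib.Tactic.Linarith.sub_nonpos_of_le (Finset.mem_filter.mp ha).right.left) (le_of_lt (Mathlib.Tactic.Linarith.sub_neg_of_lt h.lam1))])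
  have h2 := Z.card_le_W k zero_le_one (A := Z.cell k) (Finset.filter_subset _ _)
    fun a ha => (Finset.mem_filter.1 ha).2.2.le
  rw [mul_one] at h2
  have h3 := h.Wh_le hk
  rw [Wh] at h3
  rw [nsmul_eq_mul] at h1
  have h4 := mul_le_mul_of_nonneg_right (h2.trans
    (mul_le_mul_of_nonneg_right CalmA_exp.2 (Z.W_nonneg _))) (exp_pos (-lam * k)).le
  linarith only [h1, h3, h4]

theorem B_calm : ∃ C μ0 : ℝ, 1 ≤ C ∧ 0 < μ0 ∧ ∀ (Z : Cfg) (lam μ η : ℝ) (n : ℕ) (θ : ℕ → ℝ),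
    Z.Calm lam μ η n θ → μ ≤ μ0 →
    ∀ k ≤ n, (∀ x ∈ Icc (k : ℝ) (k + 3), Z.B x ≤ 2 * (‖Z.cc k‖ * exp x)) ∧
      (∀ x ∈ Icc (k : ℝ) (k + 1), (cos (1 / 40) - C * μ) * (‖Z.cc k‖ * exp x) ≤ Z.B x) ∧
      (∀ x ∈ Icc (k : ℝ) (k + 1), Z.g lam k / C ≤ exp (-lam * x) * Z.B x ∧
        exp (-lam * x) * Z.B x ≤ C * Z.g lam k) ∧
      ∑ a ∈ Z.cell k, exp (-lam * Z.ξ a) ≤ C * μ * Z.g lam k := by
  obtain ⟨C, hC, hB⟩ := B_ge
  refine ⟨40 * C + 8, min (exp (-6)) (1 / (4 * (40 * C + 8))), by linarith only [hC], by positivity,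
    fun Z lam μ η n θ h hμ k hk => ?_⟩
  have m0 := h.mu_pos
  have c0 := h.pos k hk
  have g0 := h.g_pos hk
  have m1 : exp 6 * μ ≤ 1 := by
    have := mul_le_mul_of_nonneg_left (hμ.trans (min_le_left _ _)) (exp_pos 6).le
    rwa [← exp_add, add_neg_cancel, exp_zero] at this
  have m2 : (40 * C + 8) * μ ≤ 1 / 4 := by
    have := hμ.trans (min_le_right _ _)
    rw [le_div_iff₀ (by positivity)] at this
    linarith only [this]
  have hW : ∀ x : ℝ, k ≤ x → Z.W k ≤ μ * (‖Z.cc k‖ * exp x) := fun x hx =>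
    (h.calm k hk).trans (mul_le_mul_of_nonneg_left
      (mul_le_mul_of_nonneg_left (exp_le_exp.2 hx) c0.le) m0.le)
  have p1 : ∀ x ∈ Icc (k : ℝ) (k + 3), Z.B x ≤ 2 * (‖Z.cc k‖ * exp x) := fun x hx => by
    have h1 := Z.B_le hx.1
    have h2 := mul_le_mul (exp_le_exp.2 (show 2 * (x - k) ≤ 6 by linarith only [hx, hx.2])) (hW x hx.1)
      (Z.W_nonneg _) (exp_pos _).le
    have h3 := mul_le_mul_of_nonneg_right m1 (mul_pos c0 (exp_pos x)).le
    linarith only [h1, h2, h3]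
  have p2 : ∀ x ∈ Icc (k : ℝ) (k + 1),
      (cos (1 / 40) - (40 * C + 8) * μ) * (‖Z.cc k‖ * exp x) ≤ Z.B x := fun x hx => by
    have h1 := hB Z (1 / 40) k x (by norm_num) (by norm_num) hx.1 hx.2
    have h2 := mul_le_mul_of_nonneg_left (hW x hx.1) (zero_le_one.trans hC)
    have h3 := mul_pos m0 (mul_pos c0 (exp_pos x))
    rw [div_div_eq_mul_div, div_one] at h1
    linarith only [h1, h2, h3]
  refine ⟨p1, p2, fun x hx => ?_, (CalmA_cell h hk).trans ?_⟩
  · have e : exp (-lam * x) * (‖Z.cc k‖ * exp x) = exp (-(lam - 1) * (x - k)) * Z.g lam k := by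
      rw [g, mul_left_comm, mul_left_comm (exp _), ← exp_add, ← exp_add]
      congr 2
      ring
    have l1 := h.lam1
    have l2 := h.lam2
    have a1 : exp (-(lam - 1) * (x - k)) ≤ 1 := exp_le_one_iff.2 (by linarith only [l1, hx, hx.1, mul_nonneg_of_nonpos_of_nonpos (le_of_lt (Mathlib.Tactic.Linarith.sub_neg_of_lt l1)) (Mathlib.Tactic.Linarith.sub_nonpos_of_le hx.left)])
    have a2 : 9 / 10 ≤ exp (-(lam - 1) * (x - k)) := by
      linarith only [l2, l1, hx, add_one_le_exp (-(lam - 1) * (x - k)), hx.1, hx.2, mul_nonneg_of_nonpos_of_nonpos (le_of_lt (Mathlib.Tactic.Linarith.sub_neg_of_lt l1)) (Mathlib.Tactic.Linarith.sub_nonpos_of_le hx.right)]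
    have a3 : 3 / 4 ≤ cos (1 / 40) := by linarith only [l1, l2, one_sub_sq_div_two_le_cos (x := 1 / 40)]
    have b1 := mul_le_mul_of_nonneg_left (p1 x ⟨hx.1, by linarith only [l1, l2, hx, hx.2]⟩) (exp_pos (-lam * x)).le
    have b2 := mul_le_mul_of_nonneg_left ((mul_le_mul_of_nonneg_right
      (show 1 / 2 ≤ cos (1 / 40) - (40 * C + 8) * μ by linarith only [m2, a3])
      (mul_pos c0 (exp_pos x)).le).trans (p2 x hx)) (exp_pos (-lam * x)).le
    rw [mul_left_comm, e] at b1 b2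
    constructor
    · refine (div_le_div_of_nonneg_left g0.le (by norm_num : (0 : ℝ) < 3) (by linarith only [hC, l1, l2])).trans ?_
      linarith only [b2, g0, l1, l2, a2, mul_pos_of_neg_of_neg (Mathlib.Tactic.Linarith.sub_neg_of_lt g0) (Mathlib.Tactic.Linarith.sub_neg_of_lt l1), mul_nonneg_of_nonpos_of_nonpos (le_of_lt (Mathlib.Tactic.Linarith.sub_neg_of_lt g0)) (Mathlib.Tactic.Linarith.sub_nonpos_of_le l2), mul_nonneg_of_nonpos_of_nonpos (le_of_lt (Mathlib.Tactic.Linarith.sub_neg_of_lt g0)) (Mathlib.Tactic.Linarith.sub_nonpos_of_le a2)]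
    · linarith only [b1, hC, g0, l1, l2, a1, mul_nonneg_of_nonpos_of_nonpos (Mathlib.Tactic.Linarith.sub_nonpos_of_le hC) (le_of_lt (Mathlib.Tactic.Linarith.sub_neg_of_lt g0)), mul_pos_of_neg_of_neg (Mathlib.Tactic.Linarith.sub_neg_of_lt g0) (Mathlib.Tactic.Linarith.sub_neg_of_lt l1), mul_nonneg_of_nonpos_of_nonpos (le_of_lt (Mathlib.Tactic.Linarith.sub_neg_of_lt g0)) (Mathlib.Tactic.Linarith.sub_nonpos_of_le l2), mul_nonneg_of_nonpos_of_nonpos (le_of_lt (Mathlib.Tactic.Linarith.sub_neg_of_lt g0)) (Mathlib.Tactic.Linarith.sub_nonpos_of_le a1)]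
  · linarith only [m0, g0, hC, mul_pos m0 g0, mul_nonneg_of_nonpos_of_nonpos (Mathlib.Tactic.Linarith.sub_nonpos_of_le hC) (le_of_lt (Mathlib.Tactic.Linarith.sub_neg_of_lt (mul_pos m0 g0)))]

theorem CalmA_re (c : ℂ) (t θ h : ℝ) : (c * Complex.exp (t + (θ + h : ℝ) * Complex.I)).re +
    (c * Complex.exp (t + (θ - h : ℝ) * Complex.I)).re =
    2 * exp t * (cos h * (c * Complex.exp (θ * Complex.I)).re) := by
  have e0 : ∀ t φ : ℝ, (c * Complex.exp (t + φ * Complex.I)).re =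
      exp t * (c.re * cos φ - c.im * sin φ) := fun t φ => by
    simp [Complex.exp_re, Complex.exp_im]
    ring
  have e1 := e0 0 θ
  rw [Complex.ofReal_zero, zero_add, exp_zero, one_mul] at e1
  rw [e0, e0, e1, cos_add, cos_sub, sin_add, sin_sub]
  ring

theorem mm_le : ∃ C μ0 : ℝ, 1 ≤ C ∧ 0 < μ0 ∧ ∀ (Z : Cfg) (lam μ η : ℝ) (n : ℕ) (θ : ℕ → ℝ),
    Z.Calm lam μ η n θ → μ ≤ μ0 →
    ∀ k < n, Z.mm lam n θ k ≤ C * μ * Z.g lam k ∧ Z.qq lam n θ k ≤ C * μ * Z.g lam k ∧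
      Z.dd lam n θ k ^ 2 ≤ C * μ * Z.g lam k * Z.qq lam n θ k := by
  obtain ⟨C, hC, hU⟩ := U_near
  refine ⟨2 * (28 + 2 * C) + 8, 1, by linarith only [hC], one_pos, fun Z lam μ η n θ h hμ k hk => ?_⟩
  have m0 := h.mu_pos
  have c0 := h.pos k hk.le
  have g0 := h.g_pos hk.le
  have l1 := h.lam1
  have l2 := h.lam2
  have l3 := h.le_mu
  have hc := CalmA_cell h hk.le
  have mg := mul_pos m0 g0
  have sub : ∀ A ⊆ Z.cell k, ∑ a ∈ A, exp (-lam * Z.ξ a) ≤ 8 * μ * Z.g lam k := fun A hA =>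
    (Finset.sum_le_sum_of_subset_of_nonneg hA fun a _ _ => (exp_pos _).le).trans hc
  refine ⟨?_, ?_, ?_⟩
  · let r : ℝ → ℝ → ℝ := fun φ t => |Z.U t φ - (Z.cc k * Complex.exp (t + φ * Complex.I)).re|
    have ri : ∀ φ, IntervalIntegrable (r φ) volume k (k + 1) := fun φ =>
      ((Z.intervalIntegrable_U φ _ _).sub (Continuous.intervalIntegrable (by fun_prop) _ _)).abs
    have hW := h.calm k hk.le
    have A0 : 0 < Z.A k := mul_pos c0 (exp_pos _)
    have pt : ∀ t ∈ Icc (k : ℝ) (k + 1), exp (-lam * t) * Z.rr lam t (θ k) ≤ exp (-lam * k) *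
        (28 * μ * Z.A k + r (θ k + π / lam) t + r (θ k - π / lam) t) := fun t ht => by
      have a1 := Z.B_le ht.1
      have a2 := mul_le_mul ((exp_le_exp.2 (show 2 * (t - k) ≤ 2 by linarith only [ht, ht.2])).trans
        CalmA_exp.2) hW (Z.W_nonneg _) (by norm_num)
      have a3 := CalmA_re (Z.cc k) t (θ k) (π / lam)
      have a4 := (abs_le.1 ((Complex.abs_re_le_norm _).trans (h.dir k hk.le))).2
      rw [Complex.add_re, Complex.ofReal_re] at a4
      have a5 := (ha_cos l1.le).2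
      have a6 : cos (π / lam) ≤ -(1 - μ) := by linarith only [m0, l3, a5, l1, l2, mul_nonneg_of_nonpos_of_nonpos (le_of_lt (Mathlib.Tactic.Linarith.sub_neg_of_lt l1)) (Mathlib.Tactic.Linarith.sub_nonpos_of_le l2)]
      have a7 : (1 - 2 * μ) * ‖Z.cc k‖ ≤
          cos (π / lam) * (Z.cc k * Complex.exp (θ k * Complex.I)).re := by
        have := mul_le_mul (show 1 - μ ≤ -cos (π / lam) by linarith only [a6])
          (show (1 - μ) * ‖Z.cc k‖ ≤ -(Z.cc k * Complex.exp (θ k * Complex.I)).re by linarith only [a4])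
          (mul_nonneg (by linarith only [hμ]) c0.le) (by linarith only [hμ, a6])
        linarith only [this, c0, mul_nonneg (sq_nonneg μ) c0.le, sq_nonneg μ]
      have a8 := mul_le_mul_of_nonneg_left a7 (exp_pos t).le
      have a9 : ‖Z.cc k‖ * exp t ≤ 3 * Z.A k := by
        have : exp t ≤ 3 * exp k := by
          refine (exp_le_exp.2 ht.2).trans ?_
          rw [exp_add, mul_comm]
          exact mul_le_mul_of_nonneg_right CalmA_exp.1 (exp_pos _).le
        rw [A]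
        linarith only [c0, this, mul_nonneg_of_nonpos_of_nonpos (le_of_lt (Mathlib.Tactic.Linarith.sub_neg_of_lt c0)) (Mathlib.Tactic.Linarith.sub_nonpos_of_le this)]
      have b1 := mul_le_mul_of_nonneg_left a9 m0.le
      have b2 := neg_abs_le (Z.U t (θ k + π / lam) -
        (Z.cc k * Complex.exp (t + (θ k + π / lam : ℝ) * Complex.I)).re)
      have b3 := neg_abs_le (Z.U t (θ k - π / lam) -
        (Z.cc k * Complex.exp (t + (θ k - π / lam : ℝ) * Complex.I)).re)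
      have b4 : Z.rr lam t (θ k) ≤ 28 * μ * Z.A k + r (θ k + π / lam) t + r (θ k - π / lam) t := by
        simp only [rr, r]
        linarith only [a1, a2, a3, a8, b1, b2, b3]
      refine (mul_le_mul_of_nonneg_left b4 (exp_pos _).le).trans (mul_le_mul_of_nonneg_right
        (exp_le_exp.2 (by linarith only [ht, l1, ht.1, mul_nonneg_of_nonpos_of_nonpos (le_of_lt (Mathlib.Tactic.Linarith.sub_neg_of_lt l1)) (Mathlib.Tactic.Linarith.sub_nonpos_of_le ht.left)])) ?_)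
      simp only [r]
      positivity
    have i1 := intervalIntegral.integral_mono_on (by linarith only [l1, l2] : (k : ℝ) ≤ k + 1)
      ((Z.intervalIntegrable_rr lam (θ k) k (k + 1)).continuousOn_mul
        (g := fun t => exp (-lam * t)) (by fun_prop))
      (((intervalIntegrable_const.add (ri _)).add (ri _)).const_mul _) pt
    rw [intervalIntegral.integral_const_mul, intervalIntegral.integral_add
      (intervalIntegrable_const.add (ri _)) (ri _),
      intervalIntegral.integral_add intervalIntegrable_const (ri _),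
      intervalIntegral.integral_const, add_sub_cancel_left, one_smul] at i1
    have u1 := hU Z k (θ k + π / lam)
    have u2 := hU Z k (θ k - π / lam)
    have u3 := mul_le_mul_of_nonneg_left hW (zero_le_one.trans hC)
    have e : exp (-lam * k) * Z.A k = Z.g lam k := by
      rw [Z.A_eq lam, ← mul_assoc, ← exp_add, neg_mul, neg_add_cancel, exp_zero, one_mul]
    have i2 : ∫ t in (k : ℝ)..(k + 1), exp (-lam * t) * Z.rr lam t (θ k) ≤
        (28 + 2 * C) * μ * Z.g lam k := by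
      refine i1.trans ((mul_le_mul_of_nonneg_left (show _ ≤ (28 + 2 * C) * μ * Z.A k by
        simp only [r]; linarith only [u1, u2, u3]) (exp_pos _).le).trans_eq ?_)
      rw [mul_left_comm, e]
    have i3 : ∑ a ∈ Z.cell k \ Z.VV n θ, exp (-lam * Z.ξ a) * |Sg lam (Z.η a - θ k)| ≤
        8 * μ * Z.g lam k :=
      (Finset.sum_le_sum fun a _ => mul_le_of_le_one_right (exp_pos _).le (abs_Sg_le_one _ _)).trans
        (sub _ Finset.sdiff_subset)
    have i4 := mul_le_mul_of_nonneg_left i2 (by linarith only [l1, l2] : 0 ≤ lam)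
    have i5 : lam * ((28 + 2 * C) * μ * Z.g lam k) ≤ 2 * ((28 + 2 * C) * μ * Z.g lam k) :=
      mul_le_mul_of_nonneg_right (by linarith only [l1, l2]) (by positivity)
    rw [mm]
    linarith only [i3, i4, i5]
  · refine ((Finset.sum_le_sum fun a ha => mul_le_of_le_one_right (exp_pos _).le ?_).trans
      (sub _ Finset.inter_subset_left)).trans (by linarith only [mg, hC, mul_nonneg_of_nonpos_of_nonpos (Mathlib.Tactic.Linarith.sub_nonpos_of_le hC) (le_of_lt (Mathlib.Tactic.Linarith.sub_neg_of_lt mg))])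
    obtain ⟨h1, h2⟩ := Finset.mem_inter.1 ha
    have h3 := (Finset.mem_filter.1 h2).2
    rw [Z.ki_of_mem_cell hk.le h1] at h3
    rw [sq_le_one_iff_abs_le_one]
    linarith only [l1, l2, h3]
  · refine (Finset.sum_sq_le_sum_mul_sum_of_sq_le_mul _ (f := fun a => exp (-lam * Z.ξ a))
      (g := fun a => exp (-lam * Z.ξ a) * (Z.η a - θ k) ^ 2) (fun a _ => (exp_pos _).le)
      (fun a _ => by positivity) fun a _ => le_of_eq (by rw [mul_pow, sq_abs]; ring)).trans ?_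
    exact mul_le_mul_of_nonneg_right ((sub _ Finset.inter_subset_left).trans (by linarith only [mg, hC, mul_nonneg_of_nonpos_of_nonpos (Mathlib.Tactic.Linarith.sub_nonpos_of_le hC) (le_of_lt (Mathlib.Tactic.Linarith.sub_neg_of_lt mg))]))
      (Z.mm_nonneg (by linarith only [l1, l2] : 0 ≤ lam) n θ k).2.1

end Cfg

end

end Pool.Agent.MinMod
end
end

-- merged part: Pool.Agent.Work.MP_f62247_an.PstB
section
-- merged part: Pool.Agent.Work.MP_f62247_an.PstA
section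
/-!
# Positivity at the start: one zero

`s = t - ξ`, `φ = θ - η`, `h = π / lam`, `e = lam - 1`.  `Sop u θ = 2 (u θ + u (θ+π)) + (u (θ+h) - u (θ+π)) + (u (θ-h) - u (θ-π))` for `2π`-periodic `u`;
the last two brackets are errors between angles at distance `π - h ≤ 4e`.  For `u = lg` or `nk`: `u θ + u (θ+π) = lg (2s) (2φ) = kap s + gap`, `gap ≥ 0`.
* `st_past`: `gap_lam_le`, `KL_ge 0`, error `≤ C e` (`lip_lg`), `w0 ≥ 1`.
* `st_crude`: `abs_nk_le`, `abs_gapN_le`, `env_neg`.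
* `st_V`: for `ξ ≥ 1`, on `s < -ξ`: `-p ≥ -2 kap - 2 gap - err ≥ 2 e^(2s) - 8 e^(2s)/9 - err` (`neg_kap_ge`, `gap_le`, `abs_gapN_le`, `lip_nk_neg` with `a = lam`).
  For `ξ ≤ 1`: by `tot_S`, `tot_N`, `Sg_eq` the integral over the whole line is zero, so use `∫_{Ioi 0}` as in `st_past` (`gap_lam_le`, `KL_ge 1`; the error is
  `lg`-differences (`lip_lg`) plus `e^s (2 + 2 cos h) cos φ` (`ha_cos`), in total `≤ C e`).
* `st_off`: `Π = -lam ∫_{Iio 0} e^(-lam t) Sop nk`.  For `ξ ≥ R`: `Π ≥ (c - C sin² φ - C e) e^(-2ξ)` (`gap_le`, `lip_nk_neg`), `sin_sq_le`, take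
  `a = e^(-(2-lam)(ξ-R))` with `R` large.  For `ξ ≤ R` take `a = 1`: `Π + (1-κ) m = (1-κ)(Π + m) + κ Π`, `m = e^(-lam ξ) 2π |Sg|`,
  `Π + m = lam ∫_{Ioi 0} e^(-lam t) Sop nk ≥ c_R - C e` (`tot_S`, `KL_ge R`), `Π ≥ -C` (`st_crude`).
-/

open Real MeasureTheory Set Filter Topology

namespace Pool.Agent.MinMod

noncomputable section

theorem PstA_shift (f : ℝ → ℝ) (ξ : ℝ) (S : Set ℝ) :
    ∫ t in (fun t => t - ξ) ⁻¹' S, f (t - ξ) = ∫ s in S, f s :=
  (measurePreserving_sub_right volume ξ).setIntegral_preimage_emb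
    (MeasurableEquiv.subRight ξ).measurableEmbedding f S

theorem PstA_shift_int {f : ℝ → ℝ} (ξ : ℝ) {S : Set ℝ} (h : IntegrableOn f S) :
    IntegrableOn (fun t => f (t - ξ)) ((fun t => t - ξ) ⁻¹' S) :=
  ((measurePreserving_sub_right volume ξ).integrableOn_comp_preimage
    (MeasurableEquiv.subRight ξ).measurableEmbedding).2 h

theorem PstA_pre_Ioi (ξ : ℝ) : (fun t => t - ξ) ⁻¹' Ioi (-ξ) = Ioi 0 := by
  ext t
  simp only [mem_preimage, mem_Ioi]
  constructor <;> intro h <;> linarith only [h]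

theorem PstA_pre_Iio (ξ : ℝ) : (fun t => t - ξ) ⁻¹' Iio (-ξ) = Iio 0 := by
  ext t
  simp only [mem_preimage, mem_Iio]
  constructor <;> intro h <;> linarith only [h]

theorem PstA_exp (lam ξ t : ℝ) : exp (-lam * t) = exp (-lam * ξ) * exp (-lam * (t - ξ)) := by
  rw [← exp_add]
  congr 1
  ring

theorem PstA_ae (ξ : ℝ) (S : Set ℝ) : ∀ᵐ t ∂(volume.restrict S), t - ξ ≠ 0 := by
  refine ae_restrict_of_ae ?_
  filter_upwards [Measure.ae_ne volume ξ] with t ht
  exact sub_ne_zero.2 ht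

theorem PstA_lg_pi (s φ : ℝ) : lg s (φ - π) = lg s (φ + π) := by
  rw [← lg_per s (φ - π) 1]
  congr 1
  push_cast
  ring

theorem PstA_nk_pi (s φ : ℝ) : nk s (φ - π) = nk s (φ + π) := by
  rw [← nk_per s (φ - π) 1]
  congr 1
  push_cast
  ring

theorem PstA_sop (lam η θ : ℝ) (u : ℝ → ℝ) : Sop lam (fun φ => u (φ - η)) θ =
    2 * u (θ - η) + u (θ - η + π / lam) + u (θ - η - π / lam) := by
  unfold Sop
  beta_reduce
  rw [add_sub_right_comm, sub_right_comm]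

theorem PstA_int_lg {lam : ℝ} (h : 0 < lam) (ξ φ : ℝ) :
    IntegrableOn (fun t => exp (-lam * t) * lg (t - ξ) φ) (Ioi 0) := by
  have h1 := (wt_Ioi h.le 0).int_lg h ξ φ
  rw [← integrable_indicator_iff measurableSet_Ioi]
  refine h1.congr (Eventually.of_forall fun t => ?_)
  by_cases ht : t ∈ Ioi (0 : ℝ) <;> simp [ht]

theorem PstA_int_Slg {lam : ℝ} (h : 0 < lam) (ξ η θ : ℝ) :
    IntegrableOn (fun t => exp (-lam * t) * Sop lam (fun φ => lg (t - ξ) (φ - η)) θ) (Ioi 0) := by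
  refine ((((PstA_int_lg h ξ (θ - η)).const_mul 2).add (PstA_int_lg h ξ (θ - η + π / lam))).add
    (PstA_int_lg h ξ (θ - η - π / lam))).congr (Eventually.of_forall fun t => ?_)
  simp only [Pi.add_apply, PstA_sop lam η θ (lg (t - ξ))]
  ring

theorem PstA_int_Snk {lam : ℝ} (h : 1 < lam) (h2 : lam < 2) (ξ η θ : ℝ) :
    Integrable (fun t => exp (-lam * t) * Sop lam (fun φ => nk (t - ξ) (φ - η)) θ) := by
  refine ((((int_exp_nk h h2 ξ (θ - η)).const_mul 2).add (int_exp_nk h h2 ξ (θ - η + π / lam))).add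
    (int_exp_nk h h2 ξ (θ - η - π / lam))).congr (Eventually.of_forall fun t => ?_)
  simp only [Pi.add_apply, PstA_sop lam η θ (nk (t - ξ))]
  ring

theorem PstA_int_G {lam : ℝ} (h : 0 < lam) (ξ φ : ℝ) (v : Prop) [Decidable v] :
    Integrable (fun t => exp (-lam * t) *
      (if v then 2 * (Nh lam (t - ξ) φ - Nh lam (t - ξ) 0) else 0)) := by
  split_ifs
  · refine (((int_exp_Nh h ξ φ).sub (int_exp_Nh h ξ 0)).const_mul 2).congr
      (Eventually.of_forall fun t => ?_)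
    simp only [Pi.sub_apply]
    ring
  · simp

theorem PstA_third {lam x : ℝ} (h : 1 < lam) (h2 : lam ≤ 11 / 10) (hx : |x| ≤ 1 / 3) :
    |x| ≤ π / lam := by
  rw [le_div_iff₀ (by linarith only [h, h2])]
  linarith only [h2, hx, h, pi_gt_three, abs_nonneg x, mul_pos_of_neg_of_neg (Mathlib.Tactic.Linarith.sub_neg_of_lt h) (Mathlib.Tactic.Linarith.sub_neg_of_lt h), mul_nonneg_of_nonpos_of_nonpos (le_of_lt (Mathlib.Tactic.Linarith.sub_neg_of_lt h)) (Mathlib.Tactic.Linarith.sub_nonpos_of_le h2), mul_nonneg_of_nonpos_of_nonpos (le_of_lt (Mathlib.Tactic.Linarith.sub_neg_of_lt h)) (Mathlib.Tactic.Linarith.sub_nonpos_of_le hx)]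

theorem PstA_pos (R : ℝ) : ∃ c e0 : ℝ, 0 < c ∧ 0 < e0 ∧ e0 ≤ 1 / 10 ∧
    ∀ (lam ξ η θ : ℝ) (v : Prop) [Decidable v], 1 < lam → lam ≤ 1 + e0 → ξ ≤ R →
    (v → |η - θ| ≤ 1 / 3) →
    c * w0 (-ξ) - 32 * (lam - 1) ≤
      ∫ t in Ioi 0, exp (-lam * t) * (Sop lam (fun φ => lg (t - ξ) (φ - η)) θ -
        if v then 2 * (Nh lam (t - ξ) (θ - η) - Nh lam (t - ξ) 0) else 0) := by
  obtain ⟨c, e0, hc, he, H⟩ := KL_ge R
  refine ⟨2 * c, min e0 (1 / 10), by positivity, by positivity, min_le_right _ _, ?_⟩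
  intro lam ξ η θ v _ h1 h2 h3 hv
  have h0 : 0 < lam := by linarith
  have h2' : lam ≤ 11 / 10 := by linarith only [h2, min_le_right e0 (1 / 10)]
  obtain ⟨hi, hge⟩ := H lam (-ξ) h1 (by linarith [min_le_left e0 (1 / 10)]) (by linarith)
  have hi1 := PstA_shift_int ξ hi
  have hs1 := PstA_shift (fun s => exp (-lam * s) * kap s) ξ (Ioi (-ξ))
  rw [PstA_pre_Ioi] at hi1 hs1
  set φ := θ - η with hφ
  obtain ⟨a1, a2⟩ := lip_lg (φ + π / lam) (φ + π)
  obtain ⟨b1, b2⟩ := lip_lg (φ - π / lam) (φ - π)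
  obtain ⟨d1, d2⟩ := ha_le h1.le
  have ea : |φ + π / lam - (φ + π)| = π - π / lam := by
    rw [abs_of_nonpos (by linarith only [d1])]
    ring
  have eb : |φ - π / lam - (φ - π)| = π - π / lam := by
    rw [abs_of_nonneg (by linarith only [d1])]
    ring
  rw [ea] at a2
  rw [eb] at b2
  have a3 := a1.comp_sub_right ξ
  have b3 := b1.comp_sub_right ξ
  have a4 : ∫ t in Ioi 0, |lg (t - ξ) (φ + π / lam) - lg (t - ξ) (φ + π)| ≤ π * (π - π / lam) := by
    refine (setIntegral_le_integral a3 (Eventually.of_forall fun t => abs_nonneg _)).trans ?_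
    rwa [integral_sub_right_eq_self (fun t => |lg t (φ + π / lam) - lg t (φ + π)|) ξ]
  have b4 : ∫ t in Ioi 0, |lg (t - ξ) (φ - π / lam) - lg (t - ξ) (φ - π)| ≤ π * (π - π / lam) := by
    refine (setIntegral_le_integral b3 (Eventually.of_forall fun t => abs_nonneg _)).trans ?_
    rwa [integral_sub_right_eq_self (fun t => |lg t (φ - π / lam) - lg t (φ - π)|) ξ]
  have hlow : ∫ t in Ioi 0, (2 * exp (-lam * ξ) * (exp (-lam * (t - ξ)) * kap (t - ξ)) -
      |lg (t - ξ) (φ + π / lam) - lg (t - ξ) (φ + π)| -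
      |lg (t - ξ) (φ - π / lam) - lg (t - ξ) (φ - π)|) ≤
      ∫ t in Ioi 0, exp (-lam * t) * (Sop lam (fun φ => lg (t - ξ) (φ - η)) θ -
        if v then 2 * (Nh lam (t - ξ) φ - Nh lam (t - ξ) 0) else 0) := by
    refine integral_mono_ae (((hi1.const_mul _).sub a3.integrableOn).sub b3.integrableOn) ?_ ?_
    · refine ((PstA_int_Slg h0 ξ η θ).sub (PstA_int_G h0 ξ φ v).integrableOn).congr
        (Eventually.of_forall fun t => ?_)
      simp only [Pi.sub_apply]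
      ring
    · filter_upwards [PstA_ae ξ (Ioi 0), ae_restrict_mem measurableSet_Ioi] with t ht ht0
      have e1 : 0 < exp (-lam * t) := exp_pos _
      have e2 : exp (-lam * t) ≤ 1 := exp_le_one_iff.2 (by linarith only [ht0, h1, mem_Ioi.1 ht0, mul_pos_of_neg_of_neg (Mathlib.Tactic.Linarith.sub_neg_of_lt h1) (Mathlib.Tactic.Linarith.sub_neg_of_lt (mem_Ioi.mp ht0))])
      have e3 := lg_add_pi ht φ
      have e4 := PstA_lg_pi (t - ξ) φ
      have e5 : (if v then 2 * (Nh lam (t - ξ) φ - Nh lam (t - ξ) 0) else 0) ≤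
          2 * (lg (2 * (t - ξ)) (2 * φ) - kap (t - ξ)) := by
        split_ifs with hv'
        · have := gap_lam_le h1.le ht (φ := φ)
            (PstA_third h1 h2' (by rw [hφ, abs_sub_comm]; exact hv hv'))
          linarith only [this]
        · have := lg_zero_le (s := 2 * (t - ξ)) (mul_ne_zero two_ne_zero ht) (2 * φ)
          unfold kap
          linarith only [this]
      rw [PstA_sop lam η θ (lg (t - ξ)), ← hφ, mul_assoc 2, ← mul_assoc (exp (-lam * ξ)),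
        ← PstA_exp]
      have f1 := neg_abs_le (lg (t - ξ) (φ + π / lam) - lg (t - ξ) (φ + π))
      have f2 := neg_abs_le (lg (t - ξ) (φ - π / lam) - lg (t - ξ) (φ - π))
      have f3 := abs_nonneg (lg (t - ξ) (φ + π / lam) - lg (t - ξ) (φ + π))
      have f4 := abs_nonneg (lg (t - ξ) (φ - π / lam) - lg (t - ξ) (φ - π))
      have f5 := mul_le_mul_of_nonneg_left (show 2 * kap (t - ξ) -
          |lg (t - ξ) (φ + π / lam) - lg (t - ξ) (φ + π)| -
          |lg (t - ξ) (φ - π / lam) - lg (t - ξ) (φ - π)| ≤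
          2 * lg (t - ξ) φ + lg (t - ξ) (φ + π / lam) + lg (t - ξ) (φ - π / lam) -
          if v then 2 * (Nh lam (t - ξ) φ - Nh lam (t - ξ) 0) else 0 by linarith only [e3, e4, e5, f1, f2]) e1.le
      linarith only [f5, e2, f3, f4, mul_le_mul_of_nonneg_right e2 f3, mul_le_mul_of_nonneg_right e2 f4]
  have hi2 : IntegrableOn (fun t => 2 * exp (-lam * ξ) * (exp (-lam * (t - ξ)) * kap (t - ξ)) -
      |lg (t - ξ) (φ + π / lam) - lg (t - ξ) (φ + π)|) (Ioi 0) :=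
    (hi1.const_mul _).sub a3.integrableOn
  rw [integral_sub hi2 b3.integrableOn,
    integral_sub (hi1.const_mul _) a3.integrableOn, integral_const_mul, hs1] at hlow
  have g1 := mul_le_mul_of_nonneg_left hge (exp_pos (-lam * ξ)).le
  have g2 : exp (-lam * ξ) * (c * (exp (-lam * -ξ) * w0 (-ξ))) = c * w0 (-ξ) := by
    have : exp (-lam * ξ) * exp (-lam * -ξ) = 1 := by
      rw [← exp_add]
      simp
    linear_combination c * w0 (-ξ) * this
  have g3 : π * (π - π / lam) ≤ 4 * (4 * (lam - 1)) :=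
    mul_le_mul pi_le_four d2 d1 (by norm_num)
  linarith only [a4, b4, hlow, g1, g2, g3]

theorem PstA_posN (R : ℝ) : ∃ c e0 : ℝ, 0 < c ∧ 0 < e0 ∧ e0 ≤ 1 / 10 ∧
    ∀ (lam ξ η θ : ℝ) (v : Prop) [Decidable v], 1 < lam → lam ≤ 1 + e0 → 0 ≤ ξ → ξ ≤ R →
    (v → |η - θ| ≤ 1 / 3) →
    c * exp (-2 * ξ) ≤
      lam * ∫ t in Ioi 0, exp (-lam * t) * (Sop lam (fun φ => nk (t - ξ) (φ - η)) θ -
        if v then 2 * (Nh lam (t - ξ) (θ - η) - Nh lam (t - ξ) 0) else 0) := by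
  obtain ⟨c, e0, hc, he, he', H⟩ := PstA_pos R
  refine ⟨c / 2, min e0 (c * exp (-2 * R) / 96), by positivity, by positivity,
    (min_le_left _ _).trans he', ?_⟩
  intro lam ξ η θ v _ h1 h2 h3 h4 hv
  have h0 : 0 < lam := by linarith only [he, he', h1]
  have m1 := min_le_left e0 (c * exp (-2 * R) / 96)
  have m2 := min_le_right e0 (c * exp (-2 * R) / 96)
  have H1 := H lam ξ η θ v h1 (by linarith only [h2, m1]) h4 hv
  rw [w0_of_nonpos (by linarith only [h3]), show 2 * -ξ = -2 * ξ by ring] at H1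
  obtain ⟨d1, d2⟩ := ha_cos h1.le
  have i1 : IntegrableOn (fun t => exp ((1 - lam) * t)) (Ioi 0) :=
    integrableOn_exp_mul_Ioi (by linarith only [h1]) 0
  have i2 : ∫ t in Ioi 0, exp ((1 - lam) * t) = 1 / (lam - 1) := by
    rw [integral_exp_mul_Ioi (by linarith only [h1]), mul_zero, exp_zero, ← neg_sub lam 1, neg_div_neg_eq]
  have i3 : IntegrableOn (fun t => exp (-lam * t) * (Sop lam (fun φ => lg (t - ξ) (φ - η)) θ -
      if v then 2 * (Nh lam (t - ξ) (θ - η) - Nh lam (t - ξ) 0) else 0)) (Ioi 0) := by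
    refine ((PstA_int_Slg h0 ξ η θ).sub (PstA_int_G h0 ξ (θ - η) v).integrableOn).congr
      (Eventually.of_forall fun t => ?_)
    simp only [Pi.sub_apply]
    ring
  have e1 : ∫ t in Ioi 0, exp (-lam * t) * (Sop lam (fun φ => nk (t - ξ) (φ - η)) θ -
      if v then 2 * (Nh lam (t - ξ) (θ - η) - Nh lam (t - ξ) 0) else 0) =
      (∫ t in Ioi 0, exp (-lam * t) * (Sop lam (fun φ => lg (t - ξ) (φ - η)) θ -
      if v then 2 * (Nh lam (t - ξ) (θ - η) - Nh lam (t - ξ) 0) else 0)) +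
      2 * (1 + cos (π / lam)) * cos (θ - η) * exp (-ξ) * (1 / (lam - 1)) := by
    rw [← i2, ← integral_const_mul, ← integral_add i3 (i1.const_mul _)]
    refine integral_congr_ae (Eventually.of_forall fun t => ?_)
    have e2 : exp (-lam * t) * exp (t - ξ) = exp (-ξ) * exp ((1 - lam) * t) := by
      rw [← exp_add, ← exp_add]
      congr 1
      ring
    beta_reduce
    rw [PstA_sop lam η θ (lg (t - ξ)), PstA_sop lam η θ (nk (t - ξ)), nk, nk, nk]
    rw [cos_add (θ - η), cos_sub (θ - η) (π / lam)]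
    linear_combination 2 * (1 + cos (π / lam)) * cos (θ - η) * e2
  have e3 : -(16 * (lam - 1)) ≤
      2 * (1 + cos (π / lam)) * cos (θ - η) * exp (-ξ) * (1 / (lam - 1)) := by
    have k1 : 0 < lam - 1 := by linarith only [h1]
    have k2 : -1 ≤ cos (θ - η) * exp (-ξ) := by
      have := exp_le_one_iff.2 (neg_nonpos.2 h3)
      (refine le_of_not_gt fun h_nl => ?_; linarith only [h_nl, this, he, he', neg_one_le_cos (θ - η), exp_pos (-ξ), mul_pos_of_neg_of_neg (Mathlib.Tactic.Linarith.sub_neg_of_lt he) (Mathlib.Tactic.Linarith.sub_neg_of_lt h_nl), mul_nonneg_of_nonpos_of_nonpos (Mathlib.Tactic.Linarith.sub_nonpos_of_le he') (le_of_lt (Mathlib.Tactic.Linarith.sub_neg_of_lt h_nl)), mul_nonneg_of_nonpos_of_nonpos (Mathlib.Tactic.Linarith.sub_nonpos_of_le (neg_one_le_cos (θ - η))) (le_of_lt (Mathlib.Tactic.Linarith.sub_neg_of_lt (exp_pos (-ξ))))])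
    rw [mul_one_div, le_div_iff₀ k1]
    linarith only [d2, k2, d1, mul_le_mul_of_nonneg_left k2 d1]
  have e4 : c * exp (-2 * R) ≤ c * exp (-2 * ξ) :=
    mul_le_mul_of_nonneg_left (exp_le_exp.2 (by linarith only [h4])) hc.le
  have e5 : 0 < c * exp (-2 * ξ) := by positivity
  have e6 : c / 2 * exp (-2 * ξ) ≤
      ∫ t in Ioi 0, exp (-lam * t) * (Sop lam (fun φ => nk (t - ξ) (φ - η)) θ -
        if v then 2 * (Nh lam (t - ξ) (θ - η) - Nh lam (t - ξ) 0) else 0) := by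
    rw [e1]
    linarith only [h2, m2, H1, e3, e4]
  exact e6.trans (le_mul_of_one_le_left (le_trans (by positivity) e6) h1.le)

theorem PstA_far {lam ξ : ℝ} (h1 : 1 < lam) (h2 : lam < 2) (hξ : 1 ≤ ξ) (η θ : ℝ) (v : Prop)
    [Decidable v] :
    lam / (2 - lam) * ((2 - 8 * sin (η - θ) ^ 2 - 16 * (lam - 1)) * exp (-2 * ξ)) ≤
      -(lam * ∫ t in Iio 0, exp (-lam * t) * (Sop lam (fun φ => nk (t - ξ) (φ - η)) θ -
        if v then 2 * (Nh lam (t - ξ) (θ - η) - Nh lam (t - ξ) 0) else 0)) := by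
  have h0 : 0 < lam := by linarith
  have i1 : IntegrableOn (fun t => exp ((2 - lam) * t)) (Iio 0) :=
    (integrableOn_exp_mul_Iic (by linarith) 0).mono_set Iio_subset_Iic_self
  have i2 : ∫ t in Iio 0, exp ((2 - lam) * t) = 1 / (2 - lam) := by
    rw [← integral_Iic_eq_integral_Iio, integral_exp_mul_Iic (by linarith), mul_zero, exp_zero]
  have i3 : Integrable (fun t => exp (-lam * t) * (Sop lam (fun φ => nk (t - ξ) (φ - η)) θ -
      if v then 2 * (Nh lam (t - ξ) (θ - η) - Nh lam (t - ξ) 0) else 0)) := by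
    refine ((PstA_int_Snk h1 h2 ξ η θ).sub (PstA_int_G h0 ξ (θ - η) v)).congr
      (Eventually.of_forall fun t => ?_)
    simp only [Pi.sub_apply]
    ring
  obtain ⟨d1, d2⟩ := ha_le h1.le
  have hle : ∫ t in Iio 0, exp (-lam * t) * (Sop lam (fun φ => nk (t - ξ) (φ - η)) θ -
      if v then 2 * (Nh lam (t - ξ) (θ - η) - Nh lam (t - ξ) 0) else 0) ≤
      ∫ t in Iio 0, -((2 - 8 * sin (η - θ) ^ 2 - 16 * (lam - 1)) * exp (-2 * ξ)) *
        exp ((2 - lam) * t) := by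
    refine setIntegral_mono_on i3.integrableOn (i1.const_mul _) measurableSet_Iio fun t ht => ?_
    have ht0 : t - ξ ≤ -1 := by linarith only [hξ, ht, mem_Iio.1 ht]
    have ht1 : t - ξ ≠ 0 := by linarith only [h1, h2, ht0]
    set φ := θ - η with hφ
    have e0 : sin (η - θ) ^ 2 = sin φ ^ 2 := by
      rw [hφ, ← neg_sub θ η, sin_neg, neg_sq]
    have e2 : exp (-2 * ξ) * exp ((2 - lam) * t) = exp (-lam * t) * exp (2 * (t - ξ)) := by
      rw [← exp_add, ← exp_add]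
      congr 1
      ring
    have e3 := nk_add_pi ht1 φ
    have e4 := PstA_nk_pi (t - ξ) φ
    have e5 : 0 ≤ (if v then 2 * (Nh lam (t - ξ) φ - Nh lam (t - ξ) 0) else 0) := by
      split_ifs
      · linarith only [h1, ht1, (abs_gapN_le h1.le ht1 φ).1]
      · exact le_rfl
    have e6 := gap_le ht0 φ
    have e7 := neg_kap_ge (s := t - ξ) (by linarith only [h1, h2, ht0])
    have a1 := lip_nk_pt ht0 (φ + π / lam) (φ + π)
    have b1 := lip_nk_pt ht0 (φ - π / lam) (φ - π)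
    have ea : |φ + π / lam - (φ + π)| = π - π / lam := by
      rw [abs_of_nonpos (by linarith only [d1])]
      ring
    have eb : |φ - π / lam - (φ - π)| = π - π / lam := by
      rw [abs_of_nonneg (by linarith only [d1])]
      ring
    rw [ea] at a1
    rw [eb] at b1
    have a2 := le_abs_self (nk (t - ξ) (φ + π / lam) - nk (t - ξ) (φ + π))
    have b2 := le_abs_self (nk (t - ξ) (φ - π / lam) - nk (t - ξ) (φ - π))
    have e8 := mul_le_mul_of_nonneg_left d2 (exp_pos (2 * (t - ξ))).le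
    have e9 : -((2 - 8 * sin φ ^ 2 - 16 * (lam - 1)) * exp (-2 * ξ)) * exp ((2 - lam) * t) =
        exp (-lam * t) * -((2 - 8 * sin φ ^ 2 - 16 * (lam - 1)) * exp (2 * (t - ξ))) := by
      linear_combination -(2 - 8 * sin φ ^ 2 - 16 * (lam - 1)) * e2
    rw [PstA_sop lam η θ (nk (t - ξ)), ← hφ, e0, e9]
    refine mul_le_mul_of_nonneg_left ?_ (exp_pos _).le
    linarith only [e3, e4, e5, e6, e7, a1, b1, a2, b2, e8]
  rw [integral_const_mul, i2] at hle
  have := mul_le_mul_of_nonneg_left hle h0.le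
  rw [div_eq_mul_one_div lam]
  linarith only [this]

theorem PstA_split {f : ℝ → ℝ} (hf : Integrable f) :
    ∫ t, f t = (∫ t in Iio 0, f t) + ∫ t in Ioi 0, f t := by
  rw [← integral_Ici_eq_integral_Ioi, ← setIntegral_union _ measurableSet_Ici hf.integrableOn
    hf.integrableOn, Iio_union_Ici, Measure.restrict_univ]
  exact Iio_disjoint_Ici le_rfl

theorem st_past : ∃ c e0 : ℝ, 0 < c ∧ 0 < e0 ∧ ∀ (lam ξ η θ : ℝ) (v : Prop) [Decidable v], 1 < lam →
    lam ≤ 1 + e0 → ξ < 0 → (v → |η - θ| ≤ 1 / 3) →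
    c * w0 (-ξ) ≤ lam * ∫ t in Ioi 0, exp (-lam * t) * (Sop lam (fun φ => lg (t - ξ) (φ - η)) θ -
      if v then 2 * (Nh lam (t - ξ) (θ - η) - Nh lam (t - ξ) 0) else 0) := by
  obtain ⟨c, e0, hc, he, he', H⟩ := PstA_pos 0
  refine ⟨c / 2, min e0 (c / 64), by positivity, by positivity, ?_⟩
  intro lam ξ η θ v _ h1 h2 h3 hv
  have m1 := min_le_left e0 (c / 64)
  have m2 := min_le_right e0 (c / 64)
  have H1 := H lam ξ η θ v h1 (by linarith only [h2, m1]) h3.le hv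
  have w1 : 1 ≤ w0 (-ξ) := by
    rw [w0_of_nonneg (by linarith only [h3])]
    linarith only [h3]
  have w2 := mul_le_mul_of_nonneg_left w1 hc.le
  have H2 := le_trans (show c / 2 * w0 (-ξ) ≤ c * w0 (-ξ) - 32 * (lam - 1) by linarith only [h2, m2, w2]) H1
  exact H2.trans (le_mul_of_one_le_left (le_trans (by positivity) H2) h1.le)

theorem st_crude : ∃ C : ℝ, 1 ≤ C ∧ ∀ (lam ξ η θ : ℝ) (v : Prop) [Decidable v], 1 < lam →
    lam ≤ 11 / 10 → 0 ≤ ξ →
    |lam * ∫ t in Iio 0, exp (-lam * t) * (Sop lam (fun φ => nk (t - ξ) (φ - η)) θ -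
      if v then 2 * (Nh lam (t - ξ) (θ - η) - Nh lam (t - ξ) 0) else 0)| ≤ C * exp (-2 * ξ) := by
  obtain ⟨C, hC, H⟩ := env_neg
  refine ⟨9 * C, by linarith, ?_⟩
  intro lam ξ η θ v _ h1 h2 h3
  have h0 : 0 < lam := by linarith only [h1, h2]
  obtain ⟨hi, hle⟩ := H lam ξ h0.le h2 h3
  have hi1 := PstA_shift_int ξ hi
  have hs1 := PstA_shift (fun s => exp (-lam * s) * env s) ξ (Iio (-ξ))
  rw [PstA_pre_Iio] at hi1 hs1
  have hb := norm_integral_le_of_norm_le (μ := volume.restrict (Iio 0))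
    (f := fun t => exp (-lam * t) * (Sop lam (fun φ => nk (t - ξ) (φ - η)) θ -
      if v then 2 * (Nh lam (t - ξ) (θ - η) - Nh lam (t - ξ) 0) else 0))
    (hi1.const_mul (8 * exp (-lam * ξ))) (by
      filter_upwards [PstA_ae ξ (Iio 0)] with t ht
      have a1 := abs_le.1 (abs_nk_le ht (θ - η))
      have a2 := abs_le.1 (abs_nk_le ht (θ - η + π / lam))
      have a3 := abs_le.1 (abs_nk_le ht (θ - η - π / lam))
      have a4 := abs_gapN_le h1.le ht (θ - η)
      have a5 := env_nonneg (t - ξ)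
      rw [Real.norm_eq_abs, abs_mul, abs_of_pos (exp_pos _), PstA_sop lam η θ (nk (t - ξ)),
        mul_assoc 8, ← mul_assoc (exp (-lam * ξ)), ← PstA_exp, mul_left_comm]
      refine mul_le_mul_of_nonneg_left (abs_le.2 ?_) (exp_pos _).le
      split_ifs <;> constructor <;> linarith only [a1, a2, a3, a4, a1.1, a1.2, a2.1, a2.2, a3.1, a3.2, a4.1, a4.2.1])
  rw [integral_const_mul, hs1, Real.norm_eq_abs] at hb
  have g1 := mul_le_mul_of_nonneg_left hle (exp_pos (-lam * ξ)).le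
  have g2 : exp (-lam * ξ) * (C * exp (-(2 - lam) * ξ)) = C * exp (-2 * ξ) := by
    rw [mul_left_comm, ← exp_add]
    congr 2
    ring
  have g3 : 0 < C * exp (-2 * ξ) := by positivity
  rw [abs_mul, abs_of_pos h0]
  refine (mul_le_mul h2 (hb.trans (show _ ≤ 8 * (C * exp (-2 * ξ)) by linarith only [g1, g2])) (abs_nonneg _)
    (by norm_num)).trans ?_
  linarith only [g3]

theorem st_V : ∃ c e0 : ℝ, 0 < c ∧ 0 < e0 ∧ ∀ lam ξ η θ : ℝ, 1 < lam → lam ≤ 1 + e0 → 0 ≤ ξ →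
    |η - θ| ≤ 1 / 3 →
    c * exp (-2 * ξ) ≤ -(lam * ∫ t in Iio 0, exp (-lam * t) *
      (Sop lam (fun φ => nk (t - ξ) (φ - η)) θ -
        2 * (Nh lam (t - ξ) (θ - η) - Nh lam (t - ξ) 0))) := by
  obtain ⟨c, e0, hc, he, he', H⟩ := PstA_posN 1
  refine ⟨min c 1, min e0 (1 / 200), by positivity, by positivity, ?_⟩
  intro lam ξ η θ h1 h2 h3 hv
  have h0 : 0 < lam := by linarith only [he, he', h1]
  have m1 := min_le_left e0 (1 / 200)
  have m2 := min_le_right e0 (1 / 200)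
  have x0 := exp_pos (-2 * ξ)
  rcases le_total ξ 1 with h4 | h4
  · have H1 := H lam ξ η θ True h1 (by linarith only [h2, m1]) h3 h4 fun _ => hv
    have i1 := PstA_int_Snk h1 (by linarith only [h1, h2, m2]) ξ η θ
    have i2 := PstA_int_G h0 ξ (θ - η) True
    simp only [if_true] at H1 i2
    have t1 := tot_S h1 (by linarith only [h1, h2, m2]) ξ η θ
    have t2 := tot_N h0 ξ η θ
    rw [Sg_eq h1 (PstA_third h1 (by linarith only [h1, h2, m2]) hv)] at t1
    have t3 := PstA_split (i1.sub i2)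
    simp only [Pi.sub_apply] at t3
    rw [integral_sub i1 i2] at t3
    simp only [← mul_sub] at t3
    have t4 := congrArg (fun x => lam * x) t3
    simp only [mul_sub lam, mul_add lam] at t4
    have t5 := mul_le_mul_of_nonneg_right (min_le_left c 1) x0.le
    simp only [← mul_sub] at t1 t2 t4 H1 ⊢
    linarith only [H1, t1, t2, t5, t4]
  · have H1 := PstA_far h1 (by linarith only [h1, h2, m2]) h4 η θ True
    simp only [if_true] at H1
    refine le_trans ?_ H1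
    have s1 : sin (η - θ) ^ 2 ≤ 1 / 9 := by
      have s2 : |sin (η - θ)| ≤ 1 / 3 := abs_sin_le_abs.trans hv
      rw [← sq_abs]
      linarith only [s2, abs_nonneg (sin (η - θ)), mul_nonneg_of_nonpos_of_nonpos (Mathlib.Tactic.Linarith.sub_nonpos_of_le s2) (Mathlib.Tactic.Linarith.sub_nonpos_of_le (abs_nonneg (sin (η - θ))))]
    have s3 : 1 ≤ lam / (2 - lam) := by
      rw [le_div_iff₀ (by linarith only [h1, h2, m2])]
      linarith only [h1]
    have s4 : min c 1 * exp (-2 * ξ) ≤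
        (2 - 8 * sin (η - θ) ^ 2 - 16 * (lam - 1)) * exp (-2 * ξ) :=
      mul_le_mul_of_nonneg_right (by linarith only [h1, h2, m2, s1, min_le_right c 1]) x0.le
    exact s4.trans (le_mul_of_one_le_left (le_trans (by positivity) s4) s3)

theorem st_off : ∃ κ c C e0 : ℝ, 0 < κ ∧ κ ≤ 1 ∧ 0 < c ∧ 1 ≤ C ∧ 0 < e0 ∧ ∀ lam ξ η θ : ℝ,
    1 < lam → lam ≤ 1 + e0 → 0 ≤ ξ → ∃ a : ℝ, 0 ≤ a ∧ a ≤ 1 ∧
      a * exp (-lam * ξ) ≤ C * exp (-2 * ξ) ∧
      c * exp (-2 * ξ) ≤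
        -(lam * ∫ t in Iio 0, exp (-lam * t) * Sop lam (fun φ => nk (t - ξ) (φ - η)) θ) +
          (1 - κ) * a * (exp (-lam * ξ) * (2 * π * |Sg lam (η - θ)|)) := by
  obtain ⟨C, hC, HC⟩ := sin_sq_le
  obtain ⟨c, e0, hc, he, he', H⟩ := PstA_posN (12 * C)
  obtain ⟨C1, hC1, H1⟩ := st_crude
  have k1 := min_le_left (1 / 2) (c / (4 * C1))
  have k2 := min_le_right (1 / 2) (c / (4 * C1))
  have k0 : 0 < min (1 / 2) (c / (4 * C1)) := by positivity
  set κ := min (1 / 2) (c / (4 * C1)) with hκ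
  have k3 : κ * C1 ≤ c / 4 := by
    rw [le_div_iff₀ (by positivity)] at k2
    linarith only [k2]
  refine ⟨κ, min (c / 4) 1, max (exp (12 * C)) (6 * C), min e0 (1 / (24 * C)), k0, by linarith only [he, he', k1],
    by positivity, le_max_of_le_right (by linarith only [hC, he, he']), by positivity, ?_⟩
  intro lam ξ η θ h1 h2 h3
  have h0 : 0 < lam := by linarith only [he, he', h1]
  have m1 := min_le_left e0 (1 / (24 * C))
  have m2 := min_le_right e0 (1 / (24 * C))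
  have x0 := exp_pos (-2 * ξ)
  rcases le_total ξ (12 * C) with h4 | h4
  · refine ⟨1, zero_le_one, le_rfl, ?_, ?_⟩
    · refine le_trans ?_ (mul_le_mul_of_nonneg_right (le_max_left _ _) x0.le)
      rw [one_mul, ← exp_add]
      exact exp_le_exp.2 (by (refine le_of_not_gt fun h_nl => ?_; linarith only [h_nl, h4, he, he', h1, h3, mul_pos_of_neg_of_neg (Mathlib.Tactic.Linarith.sub_neg_of_lt he) (Mathlib.Tactic.Linarith.sub_neg_of_lt h_nl), mul_nonneg_of_nonpos_of_nonpos (Mathlib.Tactic.Linarith.sub_nonpos_of_le he') (le_of_lt (Mathlib.Tactic.Linarith.sub_neg_of_lt h_nl)), mul_nonneg_of_nonpos_of_nonpos (le_of_lt (Mathlib.Tactic.Linarith.sub_neg_of_lt h1)) (Mathlib.Tactic.Linarith.sub_nonpos_of_le h3)]))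
    · have G1 := H lam ξ η θ False h1 (by linarith only [h2, m1]) h3 h4 False.elim
      have G2 := (abs_le.1 (H1 lam ξ η θ False h1 (by linarith only [he', h2, m1]) h3)).2
      simp only [if_false, sub_zero] at G1 G2
      have t1 := tot_S h1 (by linarith only [he, he', h2, m1]) ξ η θ
      rw [PstA_split (PstA_int_Snk h1 (by linarith only [he, he', h2, m1]) ξ η θ), mul_add] at t1
      have t2 := mul_le_mul_of_nonneg_left G1 (show 0 ≤ 1 - κ by linarith only [he, he', k1])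
      have t3 := mul_le_mul_of_nonneg_left G2 k0.le
      have t4 := mul_le_mul_of_nonneg_right k3 x0.le
      have t5 := mul_le_mul_of_nonneg_right k1 (mul_pos hc x0).le
      have t6 := mul_le_mul_of_nonneg_right (min_le_left (c / 4) 1) x0.le
      rw [← t1]
      linarith only [t2, t3, t4, t5, t6]
  · have e1 : 6 * C * exp (-(2 - lam) * ξ) * exp (-lam * ξ) = 6 * C * exp (-2 * ξ) := by
      rw [mul_assoc, ← exp_add]
      congr 2
      ring
    refine ⟨6 * C * exp (-(2 - lam) * ξ), by positivity, ?_, ?_, ?_⟩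
    · rw [neg_mul, exp_neg, ← div_eq_mul_inv, div_le_one (exp_pos _)]
      (refine le_of_not_gt fun h_nl => ?_; linarith only [h_nl, hC, he', h4, he, h3, h2, m1, add_one_le_exp ((2 - lam) * ξ), mul_pos_of_neg_of_neg (Mathlib.Tactic.Linarith.sub_neg_of_lt he) (Mathlib.Tactic.Linarith.sub_neg_of_lt he), mul_nonneg_of_nonpos_of_nonpos (le_of_lt (Mathlib.Tactic.Linarith.sub_neg_of_lt he)) (Mathlib.Tactic.Linarith.sub_nonpos_of_le he'), mul_pos_of_neg_of_neg (Mathlib.Tactic.Linarith.sub_neg_of_lt he) (Mathlib.Tactic.Linarith.sub_neg_of_lt h_nl), mul_nonneg_of_nonpos_of_nonpos (Mathlib.Tactic.Linarith.sub_nonpos_of_le he') (Mathlib.Tactic.Linarith.sub_nonpos_of_le h3), mul_nonneg_of_nonpos_of_nonpos (Mathlib.Tactic.Linarith.sub_nonpos_of_le he') (le_of_lt (Mathlib.Tactic.Linarith.sub_neg_of_lt h_nl)), mul_nonneg_of_nonpos_of_nonpos (Mathlib.Tactic.Linarith.sub_nonpos_of_le h2) (Mathlib.Tactic.Linarith.sub_nonpos_of_le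 h3), mul_nonneg_of_nonpos_of_nonpos (Mathlib.Tactic.Linarith.sub_nonpos_of_le h3) (Mathlib.Tactic.Linarith.sub_nonpos_of_le m1)])
    · rw [e1]
      exact mul_le_mul_of_nonneg_right (le_max_right _ _) x0.le
    · have G1 := PstA_far h1 (by linarith only [he, he', h2, m1]) (show 1 ≤ ξ by linarith only [hC, he, he', h4]) η θ False
      simp only [if_false, sub_zero] at G1
      have G2 := HC lam (η - θ) h1 (by linarith only [he', h2, m1])
      have s0 := abs_nonneg (Sg lam (η - θ))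
      set σ := |Sg lam (η - θ)| with hσ
      have s1 : 24 * C * (lam - 1) ≤ 1 := by
        have s2 : lam - 1 ≤ 1 / (24 * C) := by linarith only [h2, m2]
        rw [le_div_iff₀ (by positivity)] at s2
        linarith only [s2]
      have s3 : 1 ≤ lam / (2 - lam) := by
        rw [le_div_iff₀ (by linarith only [he, he', h2, m1])]
        linarith only [h1]
      have s4 : lam / (2 - lam) ≤ 9 / 4 := by
        rw [div_le_iff₀ (by linarith only [he, he', h2, m1])]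
        linarith only [he, he', h2, m1]
      have s5 : 1 - 8 * (C * σ) ≤ 2 - 8 * sin (η - θ) ^ 2 - 16 * (lam - 1) := by
        linarith only [G2, s1, hC, h1, mul_le_mul_of_nonneg_right hC (show 0 ≤ lam - 1 by linarith only [h1])]
      have s6 : 0 ≤ C * σ := by positivity
      have s7 : 1 - 18 * (C * σ) ≤
          lam / (2 - lam) * (2 - 8 * sin (η - θ) ^ 2 - 16 * (lam - 1)) := by
        linarith only [s3, s5, s4, s6, mul_le_mul_of_nonneg_left s5 (show 0 ≤ lam / (2 - lam) by linarith only [s3]),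
          mul_le_mul_of_nonneg_right s4 s6]
      have s8 := mul_le_mul_of_nonneg_right s7 x0.le
      have s9 : 3 ≤ (1 - κ) * (2 * π) := by (refine le_of_not_gt fun h_nl => ?_; linarith only [h_nl, k1, he, he', pi_gt_three, mul_pos_of_neg_of_neg (Mathlib.Tactic.Linarith.sub_neg_of_lt he) (Mathlib.Tactic.Linarith.sub_neg_of_lt h_nl), mul_pos_of_neg_of_neg (Mathlib.Tactic.Linarith.sub_neg_of_lt he) (Mathlib.Tactic.Linarith.sub_neg_of_lt pi_gt_three), mul_nonneg_of_nonpos_of_nonpos (Mathlib.Tactic.Linarith.sub_nonpos_of_le he') (le_of_lt (Mathlib.Tactic.Linarith.sub_neg_of_lt h_nl)), mul_nonneg_of_nonpos_of_nonpos (Mathlib.Tactic.Linarith.sub_nonpos_of_le he') (le_of_lt (Mathlib.Tactic.Linarith.sub_neg_of_lt pi_gt_three)), mul_nonneg_of_nonpos_of_nonpos (Mathlib.Tactic.Linarith.sub_nonpos_of_le k1) (le_of_lt (Mathlib.Tactic.Linarith.sub_neg_of_lt pi_gt_three))])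
      have s10 := mul_le_mul_of_nonneg_right s9 (show 0 ≤ 6 * (C * σ) * exp (-2 * ξ) by positivity)
      have s11 : (1 - κ) * (6 * C * exp (-(2 - lam) * ξ)) * (exp (-lam * ξ) * (2 * π * σ)) =
          (1 - κ) * (2 * π) * (6 * (C * σ) * exp (-2 * ξ)) := by
        linear_combination (1 - κ) * (2 * π * σ) * e1
      have s12 := mul_le_mul_of_nonneg_right (min_le_right (c / 4) 1) x0.le
      rw [s11]
      linarith only [G1, s8, s10, s12]

end

end Pool.Agent.MinMod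
end

-- merged part: Pool.Agent.Work.MP_f62247_an.PstB
section
/-!
# Positivity at the start

`Mc_one`: `U_split` at `0`; the linear term gives `lam (2 + 2cos h) Re (cc 0 e^(iθ)) / (lam - 1)`; future zeros are flipped to `Iio 0` by `tot_S`, `tot_N`.
`start_ge`: past zeros: `st_past` (`ki = 0`).  Call a future zero near if `ξ < n` and `μ (ξ + 4) ≤ κ'` (`κ'` a small constant).  Near, in `VV`:
`|η - θ 0| ≤ 1/4 + μ (ξ+1) ≤ 1/3`, `st_V`.  Near, not in `VV`: `st_off`, and `|Sg (η-θ 0)| ≤ ∑_k chi k ξ |Sg (η-θ k)| + lam μ (ξ+3) + Om (ξ-n)`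
(`sum_chi`, `Sg_lip`, `drift`, `sum_mul_chi_le`); `e^(-2ξ) Om (ξ-n) ≤ e^(-lam n) w0 (n-ξ)`.  Far: `st_crude`; `∑_{ξ ≥ n} e^(-2ξ) ≤ Wh n`, and
`∑_{far, ξ<n} e^(-2ξ) ≤ ∑_{i ≥ κ'/μ - 5} C μ g 0 e^(-i/2) ≤ C exp (-κ'/(2μ)) g 0 ≤ (lam-1) g 0` (`B_calm`, `slow`, `mu_le`).
All terms of `Mass` are `≥ 0`.
-/

open Real MeasureTheory Set Filter Topology

namespace Pool.Agent.MinMod

noncomputable section

theorem PstB_on_lg {lam : ℝ} (h1 : 1 < lam) (ξ φ : ℝ) :
    IntegrableOn (fun t => exp (-lam * t) * lg (t - ξ) φ) (Ioi 0) := by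
  have h := (wt_Ioi (lam := lam) (by linarith) 0).int_lg (by linarith) ξ φ
  rw [← integrable_indicator_iff measurableSet_Ioi]
  refine h.congr (ae_of_all _ fun t => ?_)
  by_cases ht : t ∈ Ioi (0 : ℝ)
  · simp only [indicator_of_mem ht]
  · simp only [indicator_of_notMem ht, zero_mul]

theorem PstB_intN {lam : ℝ} (h1 : 1 < lam) (ξ η θ : ℝ) (v : Prop) [Decidable v] :
    Integrable fun t => exp (-lam * t) *
      (if v then 2 * (Nh lam (t - ξ) (θ - η) - Nh lam (t - ξ) 0) else 0) := by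
  by_cases hv : v
  · simp only [if_pos hv]
    have h := ((int_exp_Nh (lam := lam) (by linarith) ξ (θ - η)).sub
      (int_exp_Nh (lam := lam) (by linarith) ξ 0)).const_mul 2
    refine h.congr (ae_of_all _ fun t => ?_)
    simp only [Pi.sub_apply]
    ring
  · simp only [if_neg hv, mul_zero]
    exact integrable_zero _ _ _

theorem PstB_intS {lam : ℝ} (h1 : 1 < lam) (h2 : lam < 2) (ξ η θ : ℝ) :
    Integrable fun t => exp (-lam * t) * Sop lam (fun φ => nk (t - ξ) (φ - η)) θ := by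
  have h := (((int_exp_nk h1 h2 ξ (θ - η)).const_mul 2).add
    (int_exp_nk h1 h2 ξ (θ + π / lam - η))).add (int_exp_nk h1 h2 ξ (θ - π / lam - η))
  refine h.congr (ae_of_all _ fun t => ?_)
  simp only [Pi.add_apply, Sop]
  ring

theorem PstB_intP {lam : ℝ} (h1 : 1 < lam) (ξ η θ : ℝ) (v : Prop) [Decidable v] :
    IntegrableOn (fun t => exp (-lam * t) * (Sop lam (fun φ => lg (t - ξ) (φ - η)) θ -
      if v then 2 * (Nh lam (t - ξ) (θ - η) - Nh lam (t - ξ) 0) else 0)) (Ioi 0) := by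
  have h := ((((PstB_on_lg h1 ξ (θ - η)).const_mul 2).add
    (PstB_on_lg h1 ξ (θ + π / lam - η))).add (PstB_on_lg h1 ξ (θ - π / lam - η))).sub
    (PstB_intN h1 ξ η θ v).integrableOn
  refine h.congr (ae_of_all _ fun t => ?_)
  simp only [Pi.add_apply, Pi.sub_apply, Sop]
  ring

theorem PstB_intF {lam : ℝ} (h1 : 1 < lam) (h2 : lam < 2) (ξ η θ : ℝ) (v : Prop) [Decidable v] :
    Integrable fun t => exp (-lam * t) * (Sop lam (fun φ => nk (t - ξ) (φ - η)) θ -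
      if v then 2 * (Nh lam (t - ξ) (θ - η) - Nh lam (t - ξ) 0) else 0) := by
  have h := (PstB_intS h1 h2 ξ η θ).sub (PstB_intN h1 ξ η θ v)
  refine h.congr (ae_of_all _ fun t => ?_)
  simp only [Pi.sub_apply]
  ring

theorem PstB_flip {lam : ℝ} (h1 : 1 < lam) (h2 : lam < 2) (ξ η θ : ℝ) (v : Prop) [Decidable v] :
    lam * (∫ t in Ioi 0, exp (-lam * t) * (Sop lam (fun φ => nk (t - ξ) (φ - η)) θ -
      if v then 2 * (Nh lam (t - ξ) (θ - η) - Nh lam (t - ξ) 0) else 0)) -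
      exp (-lam * ξ) * (2 * π * (|Sg lam (η - θ)| - if v then |sin (lam * (η - θ))| else 0)) =
    -(lam * ∫ t in Iio 0, exp (-lam * t) * (Sop lam (fun φ => nk (t - ξ) (φ - η)) θ -
      if v then 2 * (Nh lam (t - ξ) (θ - η) - Nh lam (t - ξ) 0) else 0)) := by
  have hI := PstB_intF h1 h2 ξ η θ v
  have e1 := intervalIntegral.integral_Iio_add_Ici (b := (0 : ℝ)) hI.integrableOn hI.integrableOn
  rw [integral_Ici_eq_integral_Ioi] at e1
  have e2 : (∫ t, exp (-lam * t) * (Sop lam (fun φ => nk (t - ξ) (φ - η)) θ -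
      if v then 2 * (Nh lam (t - ξ) (θ - η) - Nh lam (t - ξ) 0) else 0)) =
      (∫ t, exp (-lam * t) * Sop lam (fun φ => nk (t - ξ) (φ - η)) θ) -
      ∫ t, exp (-lam * t) *
        (if v then 2 * (Nh lam (t - ξ) (θ - η) - Nh lam (t - ξ) 0) else 0) := by
    rw [← integral_sub (PstB_intS h1 h2 ξ η θ) (PstB_intN h1 ξ η θ v)]
    congr 1
    ext t
    ring
  have e3 := tot_S h1 h2 ξ η θ
  have e4 : lam * (∫ t, exp (-lam * t) *
      (if v then 2 * (Nh lam (t - ξ) (θ - η) - Nh lam (t - ξ) 0) else 0)) =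
      exp (-lam * ξ) * (2 * π * if v then |sin (lam * (η - θ))| else 0) := by
    by_cases hv : v
    · simp only [if_pos hv]
      exact tot_N (by linarith only [h1, h2]) ξ η θ
    · simp [if_neg hv]
  rw [e2] at e1
  linear_combination lam * e1 + e3 - e4

theorem PstB_lin (c : ℂ) (lam t θ : ℝ) :
    Sop lam (fun φ : ℝ => (c * Complex.exp (t + φ * Complex.I)).re) θ =
      exp t * ((2 + 2 * cos (π / lam)) * (c * Complex.exp (θ * Complex.I)).re) := by
  have h0 := KerA_re 0 θ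
  have h0' := KerA_im 0 θ
  simp only [Complex.ofReal_zero, zero_add, exp_zero, one_mul] at h0 h0'
  simp only [Sop, Complex.mul_re, KerA_re, KerA_im, h0, h0', cos_add, sin_add, cos_sub, sin_sub]
  ring

theorem PstB_Om {lam ξ n : ℝ} (h1 : 1 < lam) (h2 : lam < 2) (h0 : 0 ≤ ξ) (hn : ξ ≤ n) :
    exp (-2 * ξ) * Om lam (ξ - n) ≤ exp (-lam * n) * w0 (n - ξ) := by
  have e1 := Om_le lam (ξ - n)
  have e2 : 1 ≤ w0 (n - ξ) := by rw [w0_of_nonneg (by linarith)]; linarith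
  have e3 : exp (-2 * ξ) * exp (2 * lam * (ξ - n)) ≤ exp (-lam * n) := by
    rw [← exp_add]
    apply exp_le_exp.2
    linarith only [hn, h1, h2, h0, mul_nonneg_of_nonpos_of_nonpos (le_of_lt (Mathlib.Tactic.Linarith.sub_neg_of_lt h1)) (Mathlib.Tactic.Linarith.sub_nonpos_of_le hn), mul_nonneg_of_nonpos_of_nonpos (le_of_lt (Mathlib.Tactic.Linarith.sub_neg_of_lt h2)) (Mathlib.Tactic.Linarith.sub_nonpos_of_le h0)]
  have e4 := exp_pos (-2 * ξ)
  have e5 := exp_pos (-lam * n)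
  (refine le_of_not_gt fun h_nl => ?_; linarith only [h_nl, e3, h1, h2, e1, e4, e2, e5, mul_pos_of_neg_of_neg (Mathlib.Tactic.Linarith.sub_neg_of_lt h1) (Mathlib.Tactic.Linarith.sub_neg_of_lt h_nl), mul_pos_of_neg_of_neg (Mathlib.Tactic.Linarith.sub_neg_of_lt h2) (Mathlib.Tactic.Linarith.sub_neg_of_lt h_nl), mul_nonneg_of_nonpos_of_nonpos (Mathlib.Tactic.Linarith.sub_nonpos_of_le e1) (le_of_lt (Mathlib.Tactic.Linarith.sub_neg_of_lt e4)), mul_nonneg_of_nonpos_of_nonpos (Mathlib.Tactic.Linarith.sub_nonpos_of_le e2) (le_of_lt (Mathlib.Tactic.Linarith.sub_neg_of_lt e5))])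

theorem PstB_small {k μ j : ℝ} (hk : 0 < k) (hμ : 0 < μ) (hj : k / μ - 5 ≤ j) :
    exp (-j / 2) ≤ exp (5 / 2) * (24 * (2 / k) ^ 4) * μ ^ 4 := by
  have hy : 0 < k / μ / 2 := by positivity
  have h1 := Real.pow_div_factorial_le_exp (k / μ / 2) hy.le 4
  have h2 : exp (-j / 2) ≤ exp (5 / 2) * (exp (k / μ / 2))⁻¹ := by
    rw [← exp_neg, ← exp_add]
    apply exp_le_exp.2
    linarith only [hj]
  have h3 : (exp (k / μ / 2))⁻¹ ≤ (24 * (2 / k) ^ 4) * μ ^ 4 := by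
    have h4 : (24 * (2 / k) ^ 4) * μ ^ 4 = ((k / μ / 2) ^ 4 / (Nat.factorial 4 : ℕ))⁻¹ := by
      have : ((Nat.factorial 4 : ℕ) : ℝ) = 24 := by norm_num [Nat.factorial]
      rw [this]
      field_simp
    rw [h4]
    exact inv_anti₀ (by positivity) h1
  calc exp (-j / 2) ≤ exp (5 / 2) * (exp (k / μ / 2))⁻¹ := h2
    _ ≤ exp (5 / 2) * ((24 * (2 / k) ^ 4) * μ ^ 4) := by gcongr
    _ = _ := by ring

namespace Cfg

theorem Mc_one (Z : Cfg) {lam : ℝ} (h1 : 1 < lam) (h2 : lam < 2) {V : Finset ℕ} (hV : V ⊆ Z.s)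
    (θ : ℝ) : Z.Mc lam V (fun _ => 1) θ =
      lam * (2 + 2 * cos (π / lam)) / (lam - 1) * (Z.cc 0 * Complex.exp (θ * Complex.I)).re +
      ∑ a ∈ Z.s.filter (fun a => Z.ξ a < 0), lam *
        (∫ t in Ioi 0, exp (-lam * t) * (Sop lam (fun φ => lg (t - Z.ξ a) (φ - Z.η a)) θ -
          if a ∈ V then 2 * (Nh lam (t - Z.ξ a) (θ - Z.η a) - Nh lam (t - Z.ξ a) 0) else 0)) -
      ∑ a ∈ Z.s.filter (fun a => 0 ≤ Z.ξ a), lam *
        ∫ t in Iio 0, exp (-lam * t) * (Sop lam (fun φ => nk (t - Z.ξ a) (φ - Z.η a)) θ -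
          if a ∈ V then 2 * (Nh lam (t - Z.ξ a) (θ - Z.η a) - Nh lam (t - Z.ξ a) 0) else 0) := by
  have hP : ∀ t : ℝ, exp (-lam * t) * 1 * Z.P lam V t θ =
      exp (-(lam - 1) * t) * ((2 + 2 * cos (π / lam)) * (Z.cc 0 * Complex.exp (θ * Complex.I)).re) +
      ∑ a ∈ Z.s.filter (fun a => Z.ξ a < 0), exp (-lam * t) *
        (Sop lam (fun φ => lg (t - Z.ξ a) (φ - Z.η a)) θ -
          if a ∈ V then 2 * (Nh lam (t - Z.ξ a) (θ - Z.η a) - Nh lam (t - Z.ξ a) 0) else 0) +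
      ∑ a ∈ Z.s.filter (fun a => 0 ≤ Z.ξ a), exp (-lam * t) *
        (Sop lam (fun φ => nk (t - Z.ξ a) (φ - Z.η a)) θ -
          if a ∈ V then 2 * (Nh lam (t - Z.ξ a) (θ - Z.η a) - Nh lam (t - Z.ξ a) 0) else 0) := by
    intro t
    have e1 : Sop lam (Z.U t) θ =
        Sop lam (fun φ : ℝ => (Z.cc 0 * Complex.exp (t + φ * Complex.I)).re) θ +
        ∑ a ∈ Z.s.filter (fun a => Z.ξ a < 0), Sop lam (fun φ => lg (t - Z.ξ a) (φ - Z.η a)) θ +
        ∑ a ∈ Z.s.filter (fun a => 0 ≤ Z.ξ a),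
          Sop lam (fun φ => nk (t - Z.ξ a) (φ - Z.η a)) θ := by
      simp only [Sop, Z.U_split 0 t, Finset.sum_add_distrib, ← Finset.mul_sum]
      ring
    have e2 : 2 * Z.gap lam V t θ =
        ∑ a ∈ Z.s.filter (fun a => Z.ξ a < 0),
          (if a ∈ V then 2 * (Nh lam (t - Z.ξ a) (θ - Z.η a) - Nh lam (t - Z.ξ a) 0) else 0) +
        ∑ a ∈ Z.s.filter (fun a => 0 ≤ Z.ξ a),
          (if a ∈ V then 2 * (Nh lam (t - Z.ξ a) (θ - Z.η a) - Nh lam (t - Z.ξ a) 0) else 0) := by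
      have e3 := Finset.sum_filter_add_sum_filter_not Z.s (fun a => Z.ξ a < 0) (fun a =>
        if a ∈ V then 2 * (Nh lam (t - Z.ξ a) (θ - Z.η a) - Nh lam (t - Z.ξ a) 0) else 0)
      simp only [not_lt] at e3
      rw [e3, Finset.sum_ite_mem, Finset.inter_eq_right.2 hV, Cfg.gap, Finset.mul_sum]
    have e4 : exp (-(lam - 1) * t) = exp (-lam * t) * exp t := by
      rw [← exp_add]; congr 1; ring
    rw [Cfg.P, e1, e2, PstB_lin, e4, ← Finset.mul_sum, ← Finset.mul_sum, Finset.sum_sub_distrib,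
      Finset.sum_sub_distrib]
    ring
  have i0 : IntegrableOn (fun t : ℝ => exp (-(lam - 1) * t)) (Ioi 0) :=
    exp_neg_integrableOn_Ioi 0 (by linarith)
  have i1 := i0.mul_const ((2 + 2 * cos (π / lam)) * (Z.cc 0 * Complex.exp (θ * Complex.I)).re)
  have i2 := fun a (_ : a ∈ Z.s.filter (fun a => Z.ξ a < 0)) =>
    PstB_intP h1 (Z.ξ a) (Z.η a) θ (a ∈ V)
  have i3 := fun a (_ : a ∈ Z.s.filter (fun a => 0 ≤ Z.ξ a)) =>
    (PstB_intF h1 h2 (Z.ξ a) (Z.η a) θ (a ∈ V)).integrableOn (s := Ioi 0)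
  have v0 : ∫ t in Ioi (0 : ℝ), exp (-(lam - 1) * t) = 1 / (lam - 1) := by
    rw [integral_exp_mul_Ioi (by linarith)]
    have : lam - 1 ≠ 0 := by linarith
    simp only [mul_zero, exp_zero]
    field_simp
  simp only [Cfg.Mc, hP]
  rw [integral_add (by exact i1.add (integrable_finsetSum _ i2)) (integrable_finsetSum _ i3),
    integral_add i1 (integrable_finsetSum _ i2), integral_finsetSum _ i2,
    integral_finsetSum _ i3, integral_mul_const, v0, mul_add, mul_add, Finset.mul_sum,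
    Finset.mul_sum, add_sub_assoc, ← Finset.sum_sub_distrib, sub_eq_add_neg _ (Finset.sum _ _),
    ← Finset.sum_neg_distrib]
  congr 1
  · congr 1
    ring
  · refine Finset.sum_congr rfl fun a _ => ?_
    rw [← PstB_flip h1 h2 (Z.ξ a) (Z.η a) θ (a ∈ V), Cfg.ms, one_mul]

theorem PstB_S {Z : Cfg} {lam μ η : ℝ} {n : ℕ} {θ : ℕ → ℝ} (h : Z.Calm lam μ η n θ) (hn : 1 ≤ n)
    {ξ : ℝ} (hξ : 0 ≤ ξ) (β : ℝ) :
    |Sg lam (β - θ 0)| ≤ ∑ k ∈ Finset.range n, chi lam k ξ * |Sg lam (β - θ k)| +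
      lam * μ * (ξ + 3) + Om lam (ξ - n) := by
  have h1 := h.lam1
  have hμ := h.mu_pos
  have e1 := sum_chi lam hn ξ
  have e2 := sum_mul_chi_le h1.le n hξ
  have e3 : ∑ k ∈ Finset.range n, chi lam k ξ * |Sg lam (β - θ 0)| ≤
      ∑ k ∈ Finset.range n, (chi lam k ξ * |Sg lam (β - θ k)| +
        lam * μ * ((k : ℝ) * chi lam k ξ)) := by
    refine Finset.sum_le_sum fun k hk => ?_
    have a1 := Sg_lip h1 (β - θ 0) (β - θ k)
    have a2 := h.drift (Finset.mem_range.1 hk).le (Nat.zero_le n)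
    have a3 : β - θ 0 - (β - θ k) = θ k - θ 0 := by ring
    rw [a3] at a1
    simp only [Nat.cast_zero, sub_zero, Nat.abs_cast] at a2
    have a4 := abs_sub_abs_le_abs_sub (Sg lam (β - θ 0)) (Sg lam (β - θ k))
    have a5 : lam * |θ k - θ 0| ≤ lam * (μ * k) := by gcongr
    have a6 := chi_nonneg (lam := lam) (by linarith only [h1]) k ξ
    have a7 : |Sg lam (β - θ 0)| ≤ |Sg lam (β - θ k)| + lam * (μ * k) := by linarith only [a1, a4, a5]
    linarith only [a7, a6, mul_le_mul_of_nonneg_left a7 a6]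
  rw [← Finset.sum_mul, e1, Finset.sum_add_distrib, ← Finset.mul_sum] at e3
  have e4 : lam * μ * ∑ k ∈ Finset.range n, (k : ℝ) * chi lam k ξ ≤ lam * μ * (ξ + 3) := by
    gcongr
  have e5 := abs_Sg_le_one lam (β - θ 0)
  have e6 := Om_pos lam (ξ - n)
  linarith only [e3, e4, e5, e6, mul_nonneg_of_nonpos_of_nonpos (Mathlib.Tactic.Linarith.sub_nonpos_of_le e5) (le_of_lt (Mathlib.Tactic.Linarith.sub_neg_of_lt e6))]

theorem PstB_far : ∃ μ0 : ℝ, 0 < μ0 ∧ ∀ (Z : Cfg) (lam μ η : ℝ) (n : ℕ) (θ : ℕ → ℝ) (k : ℝ),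
    Z.Calm lam μ η n θ → μ ≤ μ0 → 0 < k →
    exp (-2 * ((min n ⌊k / μ - 4⌋₊ : ℕ) : ℝ)) * Z.W ((min n ⌊k / μ - 4⌋₊ : ℕ) : ℝ) ≤
      Z.Wh lam n + exp (5 / 2) * (24 * (2 / k) ^ 4) * ((lam - 1) * Z.g lam 0) := by
  obtain ⟨μ0, hμ0, hs⟩ := slow
  refine ⟨μ0, hμ0, fun Z lam μ η n θ k h hμ hk => ?_⟩
  have h1 := h.lam1
  have h2 := h.lam2
  have hμp := h.mu_pos
  have hg0 := h.g_pos (Nat.zero_le n)
  have hW : ∀ x, 0 ≤ Z.W x := fun x => Finset.sum_nonneg fun a _ => (w0_pos _).le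
  have hWh : 0 ≤ Z.Wh lam n := mul_nonneg (exp_pos _).le (hW _)
  have hK : 0 ≤ exp (5 / 2) * (24 * (2 / k) ^ 4) * ((lam - 1) * Z.g lam 0) := by
    have : 0 ≤ lam - 1 := by linarith only [h1]
    positivity
  rcases le_total n ⌊k / μ - 4⌋₊ with hc | hc
  · rw [min_eq_left hc]
    have : exp (-2 * (n : ℝ)) * Z.W n ≤ Z.Wh lam n := by
      unfold Cfg.Wh
      refine mul_le_mul_of_nonneg_right (exp_le_exp.2 ?_) (hW _)
      have : (0 : ℝ) ≤ n := Nat.cast_nonneg n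
      linarith only [h2, mul_nonneg_of_nonpos_of_nonpos (Mathlib.Tactic.Linarith.sub_nonpos_of_le (Mathlib.Tactic.Linarith.natCast_nonneg ℝ n)) (Mathlib.Tactic.Linarith.sub_nonpos_of_le h2)]
    linarith only [hK, this]
  · rw [min_eq_right hc]
    set j := ⌊k / μ - 4⌋₊ with hj
    have hj0 : (0 : ℝ) ≤ j := Nat.cast_nonneg j
    have a1 : k / μ - 5 ≤ j := by
      have := Nat.sub_one_lt_floor (k / μ - 4)
      linarith only [this]
    have a2 := PstB_small hk hμp a1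
    have a3 := h.Wh_le hc
    have a4 := hs Z lam μ η n θ h hμ j hc 0 (Nat.zero_le n)
    simp only [Nat.cast_zero, sub_zero, Nat.abs_cast] at a4
    have a5 : exp (-2 * (j : ℝ)) * Z.W j = exp (-(2 - lam) * j) * Z.Wh lam j := by
      unfold Cfg.Wh
      rw [← mul_assoc, ← exp_add]
      congr 2
      ring
    have a6 : exp (-(2 - lam) * j) * exp ((j : ℝ) / 100) ≤ exp (-(j : ℝ) / 2) := by
      rw [← exp_add]
      apply exp_le_exp.2
      linarith only [h2, mul_nonneg_of_nonpos_of_nonpos (Mathlib.Tactic.Linarith.sub_nonpos_of_le (Mathlib.Tactic.Linarith.natCast_nonneg ℝ j)) (Mathlib.Tactic.Linarith.sub_nonpos_of_le h2)]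
    have a7 := h.mu_le
    calc exp (-2 * (j : ℝ)) * Z.W j = exp (-(2 - lam) * j) * Z.Wh lam j := a5
      _ ≤ exp (-(2 - lam) * j) * (μ * (exp ((j : ℝ) / 100) * Z.g lam 0)) := by
          gcongr
          exact a3.trans (by gcongr)
      _ = (exp (-(2 - lam) * j) * exp ((j : ℝ) / 100)) * (μ * Z.g lam 0) := by ring
      _ ≤ (exp (5 / 2) * (24 * (2 / k) ^ 4) * μ ^ 4) * (μ * Z.g lam 0) :=
          mul_le_mul_of_nonneg_right (a6.trans a2) (by positivity)
      _ = exp (5 / 2) * (24 * (2 / k) ^ 4) * (μ ^ 5 * Z.g lam 0) := by ring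
      _ ≤ exp (5 / 2) * (24 * (2 / k) ^ 4) * ((lam - 1) * Z.g lam 0) := by gcongr
      _ ≤ _ := by linarith only [hWh]

theorem PstB_one : ∃ κ c K k e0 : ℝ, 0 < κ ∧ κ ≤ 1 ∧ 0 < c ∧ 0 < K ∧ 0 < k ∧ 0 < e0 ∧
    ∀ (Z : Cfg) (lam μ η : ℝ) (n : ℕ) (θ : ℕ → ℝ), Z.Calm lam μ η n θ → μ ≤ e0 → 1 ≤ n →
    ∀ a ∈ Z.s, 0 ≤ Z.ξ a →
      c * w0 (0 - Z.ξ a) - K * (exp (-lam * n) * w0 (n - Z.ξ a)) -
        K * (exp (-2 * ((min n ⌊k / μ - 4⌋₊ : ℕ) : ℝ)) *
          w0 (((min n ⌊k / μ - 4⌋₊ : ℕ) : ℝ) - Z.ξ a)) ≤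
      -(lam * ∫ t in Iio 0, exp (-lam * t) * (Sop lam (fun φ => nk (t - Z.ξ a) (φ - Z.η a)) (θ 0) -
          if a ∈ Z.VV n θ then 2 * (Nh lam (t - Z.ξ a) (θ 0 - Z.η a) - Nh lam (t - Z.ξ a) 0)
          else 0)) +
        (1 - κ) * if a ∈ Z.VV n θ then 0 else ∑ i ∈ Finset.range n,
          chi lam i (Z.ξ a) * exp (-lam * Z.ξ a) * (2 * π * |Sg lam (Z.η a - θ i)|) := by
  obtain ⟨C4, hC4, hcr⟩ := st_crude
  obtain ⟨c2, e2, hc2, he2, hV⟩ := st_V
  obtain ⟨κ, c3, C3, e3, hκ, hκ1, hc3, hC3, he3, hoff⟩ := st_off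
  refine ⟨κ, min c2 (c3 / 2), C4 + c2 + 8 * C3, min (1 / 12) (c3 / (20 * C3)), min e2 e3, hκ, hκ1,
    lt_min hc2 (by linarith only [hc3]), by linarith, lt_min (by norm_num) (by positivity), lt_min he2 he3,
    fun Z lam μ η n θ h hμ hn a ha hξ => ?_⟩
  set k : ℝ := min (1 / 12) (c3 / (20 * C3)) with hk
  set m : ℕ := min n ⌊k / μ - 4⌋₊ with hm
  have h1 := h.lam1
  have h2 := h.lam2
  have hμp := h.mu_pos
  have hl2 : lam ≤ 1 + e2 := by linarith only [hμ, h, h.le_mu, min_le_left e2 e3]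
  have hl3 : lam ≤ 1 + e3 := by linarith only [hμ, h, h.le_mu, min_le_right e2 e3]
  have hc_2 : min c2 (c3 / 2) ≤ c2 := min_le_left _ _
  have hc_3 : min c2 (c3 / 2) ≤ c3 / 2 := min_le_right _ _
  have hw : w0 (0 - Z.ξ a) = exp (-2 * Z.ξ a) := by
    rw [w0_of_nonpos (by linarith only [hξ])]; congr 1; ring
  have hE := exp_pos (-2 * Z.ξ a)
  have hA : 0 ≤ exp (-lam * n) * w0 (n - Z.ξ a) := mul_nonneg (exp_pos _).le (w0_pos _).le
  have hB : 0 ≤ exp (-2 * (m : ℝ)) * w0 (m - Z.ξ a) := mul_nonneg (exp_pos _).le (w0_pos _).le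
  have hM0 : 0 ≤ ∑ i ∈ Finset.range n,
      chi lam i (Z.ξ a) * exp (-lam * Z.ξ a) * (2 * π * |Sg lam (Z.η a - θ i)|) :=
    Finset.sum_nonneg fun i _ => mul_nonneg (mul_nonneg (chi_nonneg (by linarith only [h1, h2]) _ _)
      (exp_pos _).le) (by positivity)
  have hM : 0 ≤ (1 - κ) * if a ∈ Z.VV n θ then 0 else ∑ i ∈ Finset.range n,
      chi lam i (Z.ξ a) * exp (-lam * Z.ξ a) * (2 * π * |Sg lam (Z.η a - θ i)|) := by
    refine mul_nonneg (by linarith only [hκ1]) ?_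
    split_ifs
    · exact le_rfl
    · exact hM0
  rw [hw]
  by_cases hfar : (m : ℝ) ≤ Z.ξ a
  · have b1 := hcr lam (Z.ξ a) (Z.η a) (θ 0) (a ∈ Z.VV n θ) h1 h2 hξ
    have b2 : exp (-2 * (m : ℝ)) * w0 (m - Z.ξ a) = exp (-2 * Z.ξ a) := by
      rw [w0_of_nonpos (by linarith only [hfar]), ← exp_add]; congr 1; ring
    rw [b2]
    have b3 := (abs_le.1 b1).2
    linarith only [hM, b3, hc_2, hE, hC3, h1, h2, hC4, hc2, hA, mul_le_mul_of_nonneg_right hc_2 hE.le, mul_nonneg (by linarith only [hC3, h1, h2] : 0 ≤ C3) hE.le,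
      mul_nonneg (by linarith only [hC4, hc2, hC3, h1, h2] : 0 ≤ C4 + c2 + 8 * C3) hA]
  · rw [not_le] at hfar
    have hmn : (m : ℝ) ≤ n := by exact_mod_cast min_le_left _ _
    have hmj : (m : ℝ) ≤ ⌊k / μ - 4⌋₊ := by exact_mod_cast min_le_right _ _
    have hnear : μ * (Z.ξ a + 4) ≤ k := by
      have b1 : 0 ≤ k / μ - 4 := by
        by_contra hneg
        rw [Nat.floor_of_nonpos (not_le.1 hneg).le] at hmj
        simp only [Nat.cast_zero] at hmj
        linarith only [hξ, hfar, hmj]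
      have b2 := Nat.floor_le b1
      have b3 : Z.ξ a + 4 ≤ k / μ := by linarith only [hfar, hmj, b2]
      rw [le_div_iff₀ hμp] at b3
      linarith only [b3]
    have hk1 : k ≤ 1 / 12 := min_le_left _ _
    have hk2 : k ≤ c3 / (20 * C3) := min_le_right _ _
    have hKB := mul_nonneg (by linarith only [hC4, hc2, hC3, h1, h2] : 0 ≤ C4 + c2 + 8 * C3) hB
    by_cases hv : a ∈ Z.VV n θ
    · have b1 : |Z.η a - θ (ki n (Z.ξ a))| ≤ 1 / 4 := (Finset.mem_filter.1 hv).2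
      have b2 := h.drift (ki_le n (Z.ξ a)) (Nat.zero_le n)
      have b3 := abs_ki_sub_le (Nat.zero_le n) (Z.ξ a)
      simp only [Nat.cast_zero, sub_zero] at b2 b3
      rw [abs_of_nonneg hξ] at b3
      have b4 : |Z.η a - θ 0| ≤ 1 / 3 := by
        have b5 := abs_sub_le (Z.η a) (θ (ki n (Z.ξ a))) (θ 0)
        have b6 : μ * |(ki n (Z.ξ a) : ℝ)| ≤ μ * (Z.ξ a + 1) := by gcongr
        linarith only [hμp, hnear, hk1, b1, b2, b5, b6]
      have b7 := hV lam (Z.ξ a) (Z.η a) (θ 0) h1 hl2 hξ b4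
      simp only [if_pos hv]
      linarith only [hKB, b7, hc_2, hE, hC4, hc2, hC3, h1, h2, hA, mul_le_mul_of_nonneg_right hc_2 hE.le,
        mul_nonneg (by linarith only [hC4, hc2, hC3, h1, h2] : 0 ≤ C4 + c2 + 8 * C3) hA]
    · obtain ⟨α, hα0, hα1, hαC, hα⟩ := hoff lam (Z.ξ a) (Z.η a) (θ 0) h1 hl3 hξ
      simp only [if_neg hv, sub_zero]
      have b1 := PstB_S h hn hξ (Z.η a)
      have b2 := PstB_Om h1 (by linarith only [h1, h2]) hξ (by linarith only [hfar, hmn] : Z.ξ a ≤ n)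
      have b3 : ∑ i ∈ Finset.range n,
          chi lam i (Z.ξ a) * exp (-lam * Z.ξ a) * (2 * π * |Sg lam (Z.η a - θ i)|) =
          exp (-lam * Z.ξ a) * (2 * π) *
            ∑ i ∈ Finset.range n, chi lam i (Z.ξ a) * |Sg lam (Z.η a - θ i)| := by
        rw [Finset.mul_sum]
        exact Finset.sum_congr rfl fun i _ => by ring
      rw [b3]
      set S := ∑ i ∈ Finset.range n, chi lam i (Z.ξ a) * |Sg lam (Z.η a - θ i)| with hS
      have hS0 : 0 ≤ S := Finset.sum_nonneg fun i _ =>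
        mul_nonneg (chi_nonneg (by linarith only [h1, h2]) _ _) (abs_nonneg _)
      have hO := (Om_pos lam (Z.ξ a - n)).le
      have hEl := exp_pos (-lam * Z.ξ a)
      have hpi := pi_pos
      have hpi4 := pi_le_four
      have b4 : lam * μ * (Z.ξ a + 3) ≤ 11 / 10 * k := by
        have q1 : μ * (Z.ξ a + 3) ≤ k := by linarith only [hμp, hnear]
        have q2 : 0 ≤ μ * (Z.ξ a + 3) := by positivity
        linarith only [hμp, hnear, h2, q2, mul_le_mul_of_nonneg_right h2 q2]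
      have b5 : C3 * k ≤ c3 / 20 := by
        have := mul_le_mul_of_nonneg_left hk2 (by linarith only [hC3, h1, h2] : 0 ≤ C3)
        have e : C3 * (c3 / (20 * C3)) = c3 / 20 := by field_simp
        linarith only [this, e]
      have hk0 : 0 < k := lt_min (by norm_num) (by positivity)
      have b6 : (1 - κ) * α * (exp (-lam * Z.ξ a) * (2 * π * |Sg lam (Z.η a - θ 0)|)) ≤
          (1 - κ) * α * (exp (-lam * Z.ξ a) * (2 * π * (S + (11 / 10 * k + Om lam (Z.ξ a - n))))) := by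
        have : 0 ≤ 1 - κ := by linarith only [hκ1]
        gcongr
        linarith only [b1, b4]
      have b7 : (1 - κ) * α * (exp (-lam * Z.ξ a) * (2 * π * S)) ≤
          (1 - κ) * (exp (-lam * Z.ξ a) * (2 * π) * S) := by
        have : 0 ≤ (1 - κ) * (exp (-lam * Z.ξ a) * (2 * π) * S) :=
          mul_nonneg (by linarith only [hκ1]) (by positivity)
        linarith only [hα1, this, mul_le_mul_of_nonneg_right hα1 this]
      have b8 : (1 - κ) * α * (exp (-lam * Z.ξ a) * (2 * π * (11 / 10 * k + Om lam (Z.ξ a - n)))) ≤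
          1 * (C3 * exp (-2 * Z.ξ a)) * (2 * 4 * (11 / 10 * k + Om lam (Z.ξ a - n))) := by
        have e : (1 - κ) * α * (exp (-lam * Z.ξ a) *
            (2 * π * (11 / 10 * k + Om lam (Z.ξ a - n)))) = (1 - κ) * (α * exp (-lam * Z.ξ a)) *
            (2 * π * (11 / 10 * k + Om lam (Z.ξ a - n))) := by ring
        rw [e]
        gcongr
        linarith only [hκ]
      have b9 : C3 * (exp (-2 * Z.ξ a) * Om lam (Z.ξ a - n)) ≤
          C3 * (exp (-lam * n) * w0 (n - Z.ξ a)) := by gcongr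
      have b10 := mul_le_mul_of_nonneg_right b5 hE.le
      have b11 := mul_le_mul_of_nonneg_right hc_3 hE.le
      have b12 := mul_nonneg (by linarith only [hC4, hc2, hk1, hk0] : 0 ≤ C4 + c2) hA
      have b13 := mul_pos hc3 hE
      linarith only [hKB, hα, b6, b7, b8, b9, b10, b11, b12, b13]

theorem start_ge : ∃ κ C μ0 : ℝ, 0 < κ ∧ κ ≤ 1 ∧ 1 ≤ C ∧ 0 < μ0 ∧ ∀ (Z : Cfg) (lam μ η : ℝ) (n : ℕ) (θ : ℕ → ℝ),
    Z.Calm lam μ η n θ → μ ≤ μ0 →
    1 ≤ n → Z.W 0 / C - C * ((lam - 1) * Z.g lam 0 + Z.Wh lam n) ≤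
      Z.Mc lam (Z.VV n θ) (omk lam 0) (θ 0) + (1 - κ) * Z.Mass lam n θ := by
  obtain ⟨c1, e1, hc1, he1, hpast⟩ := st_past
  obtain ⟨μ1, hμ1, hfar⟩ := PstB_far
  obtain ⟨κ, c, K, k, e0, hκ, hκ1, hc, hK, hk, he0, hone⟩ := PstB_one
  set K3 : ℝ := exp (5 / 2) * (24 * (2 / k) ^ 4) with hK3
  have hK30 : 0 < K3 := by positivity
  have hcc : 0 < min c c1 := lt_min hc hc1
  have hci : 0 < 1 / min c c1 := by positivity
  refine ⟨κ, 1 / min c c1 + 18 + K * K3 + 2 * K, min e1 (min μ1 e0), hκ, hκ1,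
    by linarith only [hK, hci, hK30, mul_pos hK hK30], lt_min he1 (lt_min hμ1 he0),
    fun Z lam μ η n θ h hμ hn => ?_⟩
  have h1 := h.lam1
  have h2 := h.lam2
  have hμa : μ ≤ e1 := hμ.trans (min_le_left _ _)
  have hμb : μ ≤ μ1 := hμ.trans ((min_le_right _ _).trans (min_le_left _ _))
  have hμc : μ ≤ e0 := hμ.trans ((min_le_right _ _).trans (min_le_right _ _))
  have hom : omk lam 0 = fun _ => 1 := by
    ext t; simp [omk]
  rw [hom, Z.Mc_one h1 (by linarith only [h1, h2]) (Z.VV_subset n θ) (θ 0)]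
  set m : ℕ := min n ⌊k / μ - 4⌋₊ with hm
  have hg0 := h.g_pos (Nat.zero_le n)
  have hW : ∀ x, 0 ≤ Z.W x := fun x => Finset.sum_nonneg fun a _ => (w0_pos _).le
  have hWh : 0 ≤ Z.Wh lam n := mul_nonneg (exp_pos _).le (hW _)
  -- the linear term
  have t1 : -(18 * ((lam - 1) * Z.g lam 0)) ≤ lam * (2 + 2 * cos (π / lam)) / (lam - 1) *
      (Z.cc 0 * Complex.exp (θ 0 * Complex.I)).re := by
    have a1 : Z.g lam 0 = ‖Z.cc 0‖ := by simp [Cfg.g]
    have a2 : |(Z.cc 0 * Complex.exp (θ 0 * Complex.I)).re| ≤ Z.g lam 0 := by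
      refine (Complex.abs_re_le_norm _).trans ?_
      rw [norm_mul, Complex.norm_exp_ofReal_mul_I, mul_one, a1]
    obtain ⟨a3, a4⟩ := ha_cos h1.le
    have a5 : 0 < lam - 1 := by linarith only [h1]
    have a6 : lam * (2 + 2 * cos (π / lam)) / (lam - 1) ≤ 18 * (lam - 1) := by
      rw [div_le_iff₀ a5]
      linarith only [a4, h2, h1, sq_nonneg (lam - 1), mul_nonneg_of_nonpos_of_nonpos (Mathlib.Tactic.Linarith.sub_nonpos_of_le (sq_nonneg (lam - (1 : ℝ)))) (Mathlib.Tactic.Linarith.sub_nonpos_of_le h2), mul_pos_of_neg_of_neg (Mathlib.Tactic.Linarith.sub_neg_of_lt h1) (Mathlib.Tactic.Linarith.sub_neg_of_lt h1), mul_nonneg_of_nonpos_of_nonpos (le_of_lt (Mathlib.Tactic.Linarith.sub_neg_of_lt h1)) (Mathlib.Tactic.Linarith.sub_nonpos_of_le a4)]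
    have a7 : 0 ≤ lam * (2 + 2 * cos (π / lam)) / (lam - 1) :=
      div_nonneg (mul_nonneg (by linarith only [h1, h2]) (by linarith only [a3])) a5.le
    have a8 := (abs_le.1 a2).1
    linarith only [a8, a7, a6, hg0, mul_le_mul_of_nonneg_left a8 a7, mul_le_mul_of_nonneg_right a6 hg0.le]
  -- past zeros
  have t2 : ∑ a ∈ Z.s.filter (fun a => Z.ξ a < 0), min c c1 * w0 (0 - Z.ξ a) ≤
      ∑ a ∈ Z.s.filter (fun a => Z.ξ a < 0), lam *
        (∫ t in Ioi 0, exp (-lam * t) * (Sop lam (fun φ => lg (t - Z.ξ a) (φ - Z.η a)) (θ 0) -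
          if a ∈ Z.VV n θ then 2 * (Nh lam (t - Z.ξ a) (θ 0 - Z.η a) - Nh lam (t - Z.ξ a) 0)
          else 0)) := by
    refine Finset.sum_le_sum fun a ha => ?_
    have hξ : Z.ξ a < 0 := (Finset.mem_filter.1 ha).2
    have a1 := hpast lam (Z.ξ a) (Z.η a) (θ 0) (a ∈ Z.VV n θ) h1 (by linarith only [hμa, h, h.le_mu]) hξ (by
      intro hv
      have a2 : |Z.η a - θ (ki n (Z.ξ a))| ≤ 1 / 4 := (Finset.mem_filter.1 hv).2
      have a3 : ki n (Z.ξ a) = 0 := by simp [ki, Nat.floor_of_nonpos hξ.le]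
      rw [a3] at a2
      linarith only [h1, h2, a2])
    rw [zero_sub]
    exact (mul_le_mul_of_nonneg_right (min_le_right _ _) (w0_pos _).le).trans a1
  -- future zeros
  have t3 := Finset.sum_le_sum fun a (ha : a ∈ Z.s.filter (fun a => 0 ≤ Z.ξ a)) =>
    hone Z lam μ η n θ h hμc hn a (Finset.mem_filter.1 ha).1 (Finset.mem_filter.1 ha).2
  have t4 : Z.Mass lam n θ = ∑ a ∈ Z.s.filter (fun a => 0 ≤ Z.ξ a),
      if a ∈ Z.VV n θ then 0 else ∑ i ∈ Finset.range n,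
        chi lam i (Z.ξ a) * exp (-lam * Z.ξ a) * (2 * π * |Sg lam (Z.η a - θ i)|) := by
    rw [Cfg.Mass, Finset.sum_comm, Finset.sdiff_eq_filter, Finset.sum_filter]
    refine Finset.sum_congr rfl fun a _ => ?_
    by_cases hv : a ∈ Z.VV n θ <;> simp [hv]
  rw [Finset.sum_add_distrib, Finset.sum_neg_distrib, ← Finset.mul_sum _ _ (1 - κ), ← t4,
    Finset.sum_sub_distrib, Finset.sum_sub_distrib, ← Finset.mul_sum _ _ c, ← Finset.mul_sum _ _ K,
    ← Finset.mul_sum _ _ K, ← Finset.mul_sum _ _ (exp (-lam * n)), ← hm,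
    ← Finset.mul_sum _ _ (exp (-2 * (m : ℝ)))] at t3
  have hsub : ∀ x : ℝ, ∑ a ∈ Z.s.filter (fun a => 0 ≤ Z.ξ a), w0 (x - Z.ξ a) ≤ Z.W x := fun x =>
    Finset.sum_le_sum_of_subset_of_nonneg (Finset.filter_subset _ _) fun a _ _ => (w0_pos _).le
  have t5 : exp (-lam * n) * ∑ a ∈ Z.s.filter (fun a => 0 ≤ Z.ξ a), w0 (n - Z.ξ a) ≤ Z.Wh lam n :=
    mul_le_mul_of_nonneg_left (hsub _) (exp_pos _).le
  have t6 : exp (-2 * (m : ℝ)) * ∑ a ∈ Z.s.filter (fun a => 0 ≤ Z.ξ a), w0 (m - Z.ξ a) ≤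
      Z.Wh lam n + K3 * ((lam - 1) * Z.g lam 0) :=
    (mul_le_mul_of_nonneg_left (hsub _) (exp_pos _).le).trans (hfar Z lam μ η n θ k h hμb hk)
  have t7 := Finset.sum_filter_add_sum_filter_not Z.s (fun a => Z.ξ a < 0)
    (fun a => w0 (0 - Z.ξ a))
  simp only [not_lt] at t7
  rw [← Finset.mul_sum] at t2
  have t8 : 0 ≤ ∑ a ∈ Z.s.filter (fun a => 0 ≤ Z.ξ a), w0 (0 - Z.ξ a) :=
    Finset.sum_nonneg fun a _ => (w0_pos _).le
  have t9 := mul_le_mul_of_nonneg_right (min_le_left c c1) t8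
  have t10 : Z.W 0 / (1 / min c c1 + 18 + K * K3 + 2 * K) ≤ min c c1 * Z.W 0 := by
    have a1 : Z.W 0 / (1 / min c c1 + 18 + K * K3 + 2 * K) ≤ Z.W 0 / (1 / min c c1) :=
      div_le_div_of_nonneg_left (hW 0) hci (by linarith only [hK, h1, h2, hK30, mul_pos hK hK30])
    rw [div_div_eq_mul_div, div_one] at a1
    linarith only [a1]
  have t11 : min c c1 * Z.W 0 =
      min c c1 * ∑ a ∈ Z.s.filter (fun a => Z.ξ a < 0), w0 (0 - Z.ξ a) +
      min c c1 * ∑ a ∈ Z.s.filter (fun a => 0 ≤ Z.ξ a), w0 (0 - Z.ξ a) := by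
    rw [← mul_add, t7]; rfl
  have t12 := mul_le_mul_of_nonneg_left t5 hK.le
  have t13 := mul_le_mul_of_nonneg_left t6 hK.le
  have t14 : 0 ≤ (lam - 1) * Z.g lam 0 := mul_nonneg (by linarith only [h1]) hg0.le
  have t15 := mul_nonneg hci.le (add_nonneg t14 hWh)
  have t16 := mul_nonneg hK.le t14
  have t17 := mul_nonneg (mul_pos hK hK30).le hWh
  linarith only [hWh, t1, t2, t3, t9, t10, t11, t12, t13, t15, t16, t17]

end Cfg

end

end Pool.Agent.MinMod
end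
end

-- merged part: Pool.Agent.Work.MP_f62247_an.Elev
section
-- merged part: Pool.Agent.Work.MP_f62247_an.Jen
section
/-!
# Counting zeros near a point; second differences of a convex function

`mass_le`: `p = x + iθ`.  For each zero, Jensen (`AnalyticOnNhd.circleAverage_log_norm` for `z ↦ 1 - e^(z - ζ)`, or for `F` itself) gives
circle average of `log ‖1 - e^(z-ζ)‖` over `|z - p| = R` at least the value at `p`, plus `log 2` if a point `ζ + 2πik` lies within `R/2` of `p`.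
The other terms are real parts of entire functions (mean value property).  On the circle `log ‖F‖ ≤ B (x + R cos t)` a.e., and by convexity
`B (x + R c) ≤ (1+c)/2 B (x+R) + (1-c)/2 B (x-R)`; `cos` has mean zero.
`sd_sum`: `u_i = u + i ρ`, `d_i = f u_(i+1) - f u_i` is increasing and `≥ 0`; `f (p + Kρ) - f p ≤ f u_(l+1+K) - f u_(l+1)` and
`f p - f (p - Kρ) ≥ f u_l - f u_(l-K)`; telescope; `d_i ≤ ρ (f (u+3) - f (u+2))` for `i < N + K`.
-/

open Real MeasureTheory Set Filter Topology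

namespace Pool.Agent.MinMod

noncomputable section

theorem Jen_up {f : ℝ → ℝ} (hf : ConvexOn ℝ univ f) (h0 : ∀ x, 0 ≤ f x) (x : ℝ) {R : ℝ}
    (hR : 0 ≤ R) (hR1 : R ≤ 2) : f (x + R) - f x ≤ R / 2 * f (x + 2) := by
  have h1 := hf.2 (mem_univ x) (mem_univ (x + 2)) (show 0 ≤ 1 - R / 2 by linarith)
    (show 0 ≤ R / 2 by linarith) (by ring)
  simp only [smul_eq_mul] at h1
  rw [show (1 - R / 2) * x + R / 2 * (x + 2) = x + R by ring] at h1
  linarith only [h1, hR, h0, mul_nonneg hR (h0 x)]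

theorem Jen_mono {f : ℝ → ℝ} (hf : ConvexOn ℝ univ f) {s t r : ℝ} (h : s ≤ t) (hr : 0 ≤ r) :
    f (s + r) - f s ≤ f (t + r) - f t := by
  rcases hr.eq_or_lt with rfl | hr
  · simp
  have hD : 0 < t + r - s := by linarith
  have a1 : 0 ≤ r / (t + r - s) := by positivity
  have a2 : 0 ≤ 1 - r / (t + r - s) := sub_nonneg.2 ((div_le_one hD).2 (by linarith))
  have h1 := hf.2 (mem_univ s) (mem_univ (t + r)) a2 a1 (by ring)
  have h2 := hf.2 (mem_univ s) (mem_univ (t + r)) a1 a2 (by ring)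
  simp only [smul_eq_mul] at h1 h2
  rw [show (1 - r / (t + r - s)) * s + r / (t + r - s) * (t + r) = s + r by
    field_simp; ring] at h1
  rw [show r / (t + r - s) * s + (1 - r / (t + r - s)) * (t + r) = t by field_simp; ring] at h2
  linarith only [h1, h2]

theorem sd_one {f : ℝ → ℝ} (hf : ConvexOn ℝ univ f) (hm : Monotone f) (h0 : ∀ x, 0 ≤ f x)
    (x : ℝ) {R : ℝ} (hR : 0 ≤ R) (hR1 : R ≤ 1) :
    (f (x + R) + f (x - R)) / 2 - f x ≤ R * f (x + 2) := by
  have h1 := Jen_up hf h0 x hR (hR1.trans one_le_two)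
  have h2 := hm (sub_le_self x hR)
  have h3 := mul_nonneg hR (h0 (x + 2))
  linarith only [h1, h2, h3]

theorem sd_sum {f : ℝ → ℝ} (hf : ConvexOn ℝ univ f) (hm : Monotone f) (h0 : ∀ x, 0 ≤ f x)
    (u : ℝ) {ρ : ℝ} (hρ : 0 < ρ) (K N : ℕ) (hK : K * ρ ≤ 1) (hN : N * ρ ≤ 1) (p : ℕ → ℝ)
    (hp : ∀ l < N, u + l * ρ ≤ p l ∧ p l ≤ u + (l + 1) * ρ) :
    ∑ l ∈ Finset.range N, ((f (p l + K * ρ) + f (p l - K * ρ)) / 2 - f (p l)) ≤
      (K + 1) ^ 2 * ρ * f (u + 3) := by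
  have hK0 : 0 ≤ K * ρ := by positivity
  obtain ⟨g, hg⟩ : ∃ g : ℕ → ℝ, ∀ j, g j =
      f (u + (j - K) * ρ + K * ρ) - f (u + (j - K) * ρ) := ⟨_, fun _ => rfl⟩
  have h1 : ∀ l ∈ Finset.range N, (f (p l + K * ρ) + f (p l - K * ρ)) / 2 - f (p l) ≤
      (g (K + 1 + l) - g l) / 2 := fun l hl => by
    obtain ⟨a1, a2⟩ := hp l (Finset.mem_range.1 hl)
    have a3 := Jen_mono hf (s := p l) (t := u + (((K + 1 + l : ℕ) : ℝ) - K) * ρ)
      (by push_cast; linarith) hK0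
    have a4 := Jen_mono hf (s := u + (l - K) * ρ) (t := p l - K * ρ) (by linarith) hK0
    rw [sub_add_cancel] at a4
    rw [hg, hg]
    linarith only [a3, a4]
  have h2 := Finset.sum_range_add g N (K + 1)
  rw [add_comm N, Finset.sum_range_add] at h2
  have h3 : 0 ≤ ∑ j ∈ Finset.range (K + 1), g j := Finset.sum_nonneg fun j _ => by
    rw [hg]
    exact sub_nonneg.2 (hm (le_add_of_nonneg_right hK0))
  have h4 : ∑ j ∈ Finset.range (K + 1), g (N + j) ≤
      ∑ _j ∈ Finset.range (K + 1), K * ρ / 2 * f (u + 3) := Finset.sum_le_sum fun j hj => by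
    have a1 : (j : ℝ) ≤ K := Nat.cast_le.2 (Nat.lt_succ_iff.1 (Finset.mem_range.1 hj))
    have a2 := Jen_mono hf (s := u + (((N + j : ℕ) : ℝ) - K) * ρ) (t := u + 1)
      (by push_cast; linarith only [hN, hρ, a1, mul_nonneg_of_nonpos_of_nonpos (le_of_lt (Mathlib.Tactic.Linarith.sub_neg_of_lt hρ)) (Mathlib.Tactic.Linarith.sub_nonpos_of_le a1)]) hK0
    have a3 := Jen_up hf h0 (u + 1) hK0 (hK.trans one_le_two)
    rw [show u + 1 + 2 = u + 3 by ring] at a3
    rw [hg]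
    linarith only [a2, a3]
  rw [Finset.sum_const, Finset.card_range, nsmul_eq_mul] at h4
  push_cast at h4
  refine (Finset.sum_le_sum h1).trans ?_
  rw [← Finset.sum_div, Finset.sum_sub_distrib]
  have h5 := mul_nonneg hρ.le (h0 (u + 3))
  have h6 : (0 : ℝ) ≤ K := Nat.cast_nonneg K
  linarith only [h2, h3, h4, h5, h6, mul_nonneg h6 h5, mul_nonneg h6 (mul_nonneg h6 h5)]

theorem Jen_bl {f : ℂ → ℂ} (hf : Differentiable ℂ f) {p u : ℂ} {R : ℝ} (hR : 0 < R)
    (h0 : f u = 0) (hu : ‖p - u‖ ≤ R / 2) : ∃ g : ℂ → ℂ, Differentiable ℂ g ∧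
      (∀ z ∈ Metric.sphere p R, ‖g z‖ = ‖f z‖) ∧ 2 * ‖f p‖ ≤ ‖g p‖ := by
  have h1 : Differentiable ℂ (dslope f u) := differentiableOn_univ.1
    ((Complex.differentiableOn_dslope univ_mem).2 hf.differentiableOn)
  have h2 : ∀ z, ‖f z‖ = ‖z - u‖ * ‖dslope f u z‖ := fun z => by
    rw [← norm_smul, sub_smul_dslope, h0, sub_zero]
  have h3 : ‖(R : ℂ)‖ = R := Complex.norm_of_nonneg hR.le
  refine ⟨fun z => ((R : ℂ) ^ 2 - (starRingEnd ℂ) (u - p) * (z - p)) / R * dslope f u z,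
    Differentiable.mul (by fun_prop) h1, fun z hz => ?_, ?_⟩
  · have a1 : ‖z - p‖ = R := mem_sphere_iff_norm.1 hz
    have a2 : (R : ℂ) ^ 2 - (starRingEnd ℂ) (u - p) * (z - p) =
        (z - p) * (starRingEnd ℂ) (z - u) := by
      rw [← a1, ← Complex.mul_conj']
      simp only [map_sub]
      ring
    simp only [h2, a2, norm_mul, norm_div, a1, h3, Complex.norm_conj]
    rw [mul_div_cancel_left₀ _ hR.ne']
  · simp only [sub_self, mul_zero, sub_zero, norm_mul, norm_div, norm_pow, h3, h2 p]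
    rw [sq, mul_div_cancel_right₀ _ hR.ne', ← mul_assoc]
    exact mul_le_mul_of_nonneg_right (by linarith) (norm_nonneg _)

theorem Jen_sub {G : ℂ → ℂ} (hG : Differentiable ℂ G) {p : ℂ} (h0 : G p ≠ 0) {R a b : ℝ}
    (hR : 0 < R) (h : ∀ z ∈ Metric.sphere p R, Real.log ‖G z‖ ≤ a + b * (z - p).re) :
    Real.log ‖G p‖ ≤ a := by
  have h1 : ∀ s, AnalyticOnNhd ℂ G s := fun s z _ => hG.analyticAt z
  have h2 := (h1 _).circleAverage_log_norm hR.ne' h0
  have h3 : 0 ≤ ∑ᶠ u, MeromorphicOn.divisor G (Metric.closedBall p |R|) u *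
      Real.log (R * ‖p - u‖⁻¹) := finsum_nonneg fun u => by
    by_cases e : u ∈ Metric.closedBall p |R|
    · refine mul_nonneg (Int.cast_nonneg (MeromorphicOn.AnalyticOnNhd.divisor_nonneg (h1 _) u)) ?_
      rcases eq_zero_or_norm_pos (p - u) with e1 | e1
      · simp [e1]
      · rw [abs_of_pos hR, mem_closedBall_iff_norm'] at e
        exact Real.log_nonneg ((one_le_div e1).2 e)
    · simp [e]
  have h4 : InnerProductSpace.HarmonicOnNhd (fun z : ℂ => ((a : ℂ) + b * (z - p)).re)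
      (Metric.closedBall p |R|) := fun z _ => AnalyticAt.harmonicAt_re (by fun_prop)
  have h5 := circleAverage_mono (h1 _).meromorphicOn.circleIntegrable_log_norm
    (h4.continuousOn.mono Metric.sphere_subset_closedBall).circleIntegrable' fun z hz => by
      rw [abs_of_pos hR] at hz
      simpa only [Complex.add_re, Complex.re_ofReal_mul, Complex.ofReal_re] using h z hz
  rw [h4.circleAverage_eq] at h5
  simp only [sub_self, mul_zero, add_zero, Complex.ofReal_re] at h5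
  linarith only [h2, h3, h5]

theorem Cfg.mass_le (Z : Cfg) {x : ℝ} (hx : Z.Reg x) (θ : ℝ) {R : ℝ} (hR : 0 < R)
    {A : Finset ℕ} (hA : A ⊆ Z.s)
    (h : ∀ a ∈ A, (x - Z.ξ a) ^ 2 + rp (θ - Z.η a) ^ 2 ≤ (R / 2) ^ 2) :
    A.card * Real.log 2 ≤ (Z.B (x + R) + Z.B (x - R)) / 2 - Z.U x θ := by
  classical
  obtain ⟨p, hp⟩ : ∃ p : ℂ, p = x + θ * Complex.I := ⟨_, rfl⟩
  have h1 : ∀ a, ∃ g : ℂ → ℂ, Differentiable ℂ g ∧
      (∀ z ∈ Metric.sphere p R, ‖g z‖ = ‖1 - Complex.exp (z - Z.ζ a)‖) ∧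
      (if a ∈ A then 2 else 1) * ‖1 - Complex.exp (p - Z.ζ a)‖ ≤ ‖g p‖ := fun a => by
    by_cases e : a ∈ A
    · rw [if_pos e]
      refine Jen_bl (f := fun z => 1 - Complex.exp (z - Z.ζ a)) (by fun_prop) hR
        (u := Z.ζ a + toIocDiv Real.two_pi_pos (-π) (θ - Z.η a) * (2 * π * Complex.I)) ?_ ?_
      · simp only [add_sub_cancel_left, Complex.exp_int_mul_two_pi_mul_I, sub_self]
      · have a1 : p - (Z.ζ a + toIocDiv Real.two_pi_pos (-π) (θ - Z.η a) * (2 * π * Complex.I)) =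
            (x - Z.ξ a : ℝ) + rp (θ - Z.η a) * Complex.I := by
          rw [hp, Cfg.ζ, rp, toIocMod, zsmul_eq_mul]
          push_cast
          ring
        rw [a1, Complex.norm_add_mul_I]
        exact Real.sqrt_le_iff.2 ⟨by positivity, h a e⟩
    · exact ⟨_, by fun_prop, fun _ _ => rfl, by rw [if_neg e, one_mul]⟩
  choose g g1 g2 g3 using h1
  obtain ⟨G, hG⟩ : ∃ G : ℂ → ℂ, G = fun z => Complex.exp (Z.c * Complex.exp z) *
    ∏ a ∈ Z.s, (g a z * Complex.exp (Complex.exp (z - Z.ζ a))) := ⟨_, rfl⟩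
  have h2 : Differentiable ℂ G := by
    rw [hG]
    exact Differentiable.mul (by fun_prop)
      (Differentiable.fun_finsetProd fun a _ => (g1 a).mul (by fun_prop))
  have h3 : 2 ^ A.card * exp (Z.U x θ) ≤ ‖G p‖ := by
    have a1 : (2 : ℝ) ^ A.card = ∏ a ∈ Z.s, if a ∈ A then 2 else 1 := by
      rw [Finset.prod_ite_mem, Finset.inter_eq_right.2 hA, Finset.prod_const]
    rw [← Z.norm_F (Z.F_ne_zero hx θ), ← hp, hG, Cfg.F, norm_mul, norm_mul, norm_prod, norm_prod,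
      mul_left_comm, a1, ← Finset.prod_mul_distrib]
    refine mul_le_mul_of_nonneg_left (Finset.prod_le_prod (fun a _ => ?_) fun a _ => ?_)
      (norm_nonneg _)
    · split_ifs <;> positivity
    · rw [norm_mul, norm_mul, ← mul_assoc]
      exact mul_le_mul_of_nonneg_right (g3 a) (norm_nonneg _)
  have h4 : (0 : ℝ) < 2 ^ A.card * exp (Z.U x θ) := by positivity
  have h5 := Real.log_le_log h4 h3
  rw [Real.log_mul (by positivity) (exp_ne_zero _), Real.log_pow, Real.log_exp] at h5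
  have h6 := Jen_sub h2 (norm_pos_iff.1 (h4.trans_le h3)) hR
    (a := (Z.B (x + R) + Z.B (x - R)) / 2) (b := (Z.B (x + R) - Z.B (x - R)) / (2 * R))
    fun z hz => ?_
  · linarith only [h5, h6]
  have a1 : ‖G z‖ = ‖Z.F z‖ := by
    simp only [hG, Cfg.F, norm_mul, norm_prod, g2 _ z hz]
  have a2 : Real.log ‖Z.F z‖ ≤ Z.B z.re := by
    rcases eq_zero_or_norm_pos (Z.F z) with e | e
    · simpa [e] using Z.B_nonneg z.re
    · refine (Real.log_le_iff_le_exp e).2 ?_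
      simpa only [Complex.re_add_im] using Z.norm_F_le z.re z.im
  have a3 := abs_le.1 ((Complex.abs_re_le_norm (z - p)).trans_eq (mem_sphere_iff_norm.1 hz))
  have a4 : z.re = x + (z - p).re := by simp [hp]
  generalize (z - p).re = t at a3 a4
  have a5 := Z.B_convex.2 (mem_univ (x + R)) (mem_univ (x - R))
    (show 0 ≤ (R + t) / (2 * R) from div_nonneg (by linarith) (by linarith))
    (show 0 ≤ (R - t) / (2 * R) from div_nonneg (by linarith) (by linarith)) (by field_simp; ring)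
  simp only [smul_eq_mul] at a5
  rw [show (R + t) / (2 * R) * (x + R) + (R - t) / (2 * R) * (x - R) = x + t by
    field_simp; ring] at a5
  rw [a1]
  refine a2.trans (a4 ▸ a5.trans_eq ?_)
  field_simp
  ring

end

end Pool.Agent.MinMod
end

-- merged part: Pool.Agent.Work.MP_f62247_an.Elev
section
/-!
# The inequality of order one

* `L_sub`: `Kp_sub` for each zero.
* `om_ge`: `U x γ + U x (γ + π) = ∑ lg (2s) (2(γ - η))` (`nk_add_pi`).
* `mass_lower`: integrate `l ≤ L x` over `[u, v]`; zeros in `[u, v)` contribute at most `C e^(-ξ)` (`Kp_total`), zeros left of `u`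
  at most `C L u`, zeros right of `v` at most `C L v` (`Kp_tail_*`).
* `select`: on `[u, u+ρ]` the function `e^(-x) om x` is a.e. `≥ 0` with integral `≤ M`; Markov twice (`avg_l0`), each bad set has
  measure `≤ ρ/4` (`mul_meas_ge_le_integral_of_nonneg`); `ae_reg`.
* `misaligned`: a counted zero has `|sin (η - γ)| ≥ r` (at most `om / (c r²)` of them, `gap_ge`), or `|rp (γ + π - η)| ≤ 2r`
  (`mass_le` at `(x, γ + π)` with `R = 8r`, and `B - U (γ+π) ≤ om`).
* `axis`: `sin² (γ-γ') ≤ 2 sin² (γ-η) + 2 sin² (γ'-η)`.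
-/

open Real MeasureTheory Set Filter Topology

namespace Pool.Agent.MinMod

noncomputable section

namespace Cfg

variable (Z : Cfg)

theorem Elev_om_eq (x : ℝ) : exp (-x) * Z.om x =
    ∑ a ∈ Z.s, -exp (-Z.ξ a) * (exp (-(x - Z.ξ a)) * kap (x - Z.ξ a)) := by
  unfold om
  rw [mul_neg, Finset.mul_sum, ← Finset.sum_neg_distrib]
  refine Finset.sum_congr rfl fun a _ => ?_
  have : exp (-x) = exp (-Z.ξ a) * exp (-(x - Z.ξ a)) := by
    rw [← exp_add]; congr 1; ring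
  rw [this]; ring

theorem Elev_ii (a b : ℝ) (i : ℕ) : IntervalIntegrable
    (fun x => -exp (-Z.ξ i) * (exp (-(x - Z.ξ i)) * kap (x - Z.ξ i))) volume a b := by
  have := (intervalIntegrable_kap (a - Z.ξ i) (b - Z.ξ i)).comp_sub_right (Z.ξ i)
  simp only [sub_add_cancel] at this
  exact this.const_mul _

theorem intervalIntegrable_om (a b : ℝ) :
    IntervalIntegrable (fun x => exp (-x) * Z.om x) volume a b := by
  simp only [Elev_om_eq]
  exact Bf_ii_sum Z.s (Z.Elev_ii a b)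

theorem L_sub (a b : ℝ) : Z.L b - Z.L a = ∫ x in a..b, exp (-x) * Z.om x := by
  simp only [Elev_om_eq]
  rw [intervalIntegral.integral_finsetSum fun i _ => Z.Elev_ii a b i]
  unfold L
  rw [← Finset.sum_sub_distrib]
  refine Finset.sum_congr rfl fun i _ => ?_
  rw [intervalIntegral.integral_const_mul,
    intervalIntegral.integral_comp_sub_right (fun s => exp (-s) * kap s), ← mul_sub, Kp_sub]
  ring

theorem om_ge {η x γ : ℝ} (hx : Z.Reg x) (h : Z.U x γ ≤ -(1 + η) * Z.B x) :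
    η * Z.B x + (Z.B x - Z.U x (γ + π)) +
      ∑ a ∈ Z.s, (lg (2 * (x - Z.ξ a)) (2 * (γ - Z.η a)) - kap (x - Z.ξ a)) ≤ Z.om x := by
  have hsum : Z.U x γ + Z.U x (γ + π) =
      ∑ a ∈ Z.s, lg (2 * (x - Z.ξ a)) (2 * (γ - Z.η a)) := by
    unfold U
    have e : Complex.exp (x + ((γ + π : ℝ) : ℂ) * Complex.I) =
        -Complex.exp (x + γ * Complex.I) := by
      rw [show (x : ℂ) + ((γ + π : ℝ) : ℂ) * Complex.I =
        (x + γ * Complex.I) + π * Complex.I by push_cast; ring, Complex.exp_add_pi_mul_I]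
    rw [e, mul_neg, Complex.neg_re]
    have : ∑ a ∈ Z.s, lg (2 * (x - Z.ξ a)) (2 * (γ - Z.η a)) =
        ∑ a ∈ Z.s, nk (x - Z.ξ a) (γ - Z.η a) + ∑ a ∈ Z.s, nk (x - Z.ξ a) (γ + π - Z.η a) := by
      rw [← Finset.sum_add_distrib]
      refine Finset.sum_congr rfl fun a ha => ?_
      rw [← nk_add_pi (sub_ne_zero.2 (hx a ha).symm), show γ + π - Z.η a = γ - Z.η a + π by ring]
    rw [this]; ring
  rw [Finset.sum_sub_distrib, ← hsum]
  unfold om
  linarith

theorem Elev_gap_nonneg {x : ℝ} (hx : Z.Reg x) (γ : ℝ) {a : ℕ} (ha : a ∈ Z.s) :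
    0 ≤ lg (2 * (x - Z.ξ a)) (2 * (γ - Z.η a)) - kap (x - Z.ξ a) :=
  sub_nonneg.2 (lg_zero_le (mul_ne_zero two_ne_zero (sub_ne_zero.2 (hx a ha).symm)) _)

theorem Elev_parts {x γ : ℝ} (hx : Z.Reg x) (h : Z.U x γ ≤ -Z.B x) :
    0 ≤ Z.om x ∧ Z.B x - Z.U x (γ + π) ≤ Z.om x ∧ ∀ A ⊆ Z.s,
      ∑ a ∈ A, (lg (2 * (x - Z.ξ a)) (2 * (γ - Z.η a)) - kap (x - Z.ξ a)) ≤ Z.om x := by
  have h1 := Z.om_ge (η := 0) hx (γ := γ) (by simpa using h)
  have h2 := Z.U_le_B hx (γ + π)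
  have h3 : 0 ≤ ∑ a ∈ Z.s, (lg (2 * (x - Z.ξ a)) (2 * (γ - Z.η a)) - kap (x - Z.ξ a)) :=
    Finset.sum_nonneg fun a ha => Z.Elev_gap_nonneg hx γ ha
  refine ⟨by linarith, by linarith, fun A hA => ?_⟩
  have h4 := Finset.sum_le_sum_of_subset_of_nonneg hA
    (f := fun a => lg (2 * (x - Z.ξ a)) (2 * (γ - Z.η a)) - kap (x - Z.ξ a))
    fun a ha _ => Z.Elev_gap_nonneg hx γ ha
  linarith

theorem om_nonneg {x : ℝ} (hx : Z.Reg x) (h : Z.Min 0 x) : 0 ≤ Z.om x := by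
  obtain ⟨γ, hγ⟩ := h.exists_U hx
  exact (Z.Elev_parts hx (γ := γ) (by simpa using hγ)).1

theorem L_mono {a b : ℝ} (hab : a ≤ b) (h : ∀ x ∈ Icc a b, Z.Min 0 x) : Z.L a ≤ Z.L b := by
  rw [← sub_nonneg, L_sub]
  refine intervalIntegral.integral_nonneg_of_ae_restrict hab ?_
  rw [EventuallyLE, ae_restrict_iff' measurableSet_Icc]
  filter_upwards [Z.ae_reg] with x hx hm
  exact mul_nonneg (exp_pos _).le (Z.om_nonneg hx (h x hm))

theorem mass_lower : ∃ C : ℝ, 1 ≤ C ∧ ∀ (Z : Cfg) (u v l : ℝ), u ≤ v →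
    (∀ x ∈ Icc u v, l ≤ Z.L x ∧ Z.L x ≤ 2 * l) →
    l * (v - u) / C - C * l ≤ ∑ a ∈ Z.s.filter (fun a => u ≤ Z.ξ a ∧ Z.ξ a < v), exp (-Z.ξ a) := by
  obtain ⟨C1, hC1, h1⟩ := Kp_total
  obtain ⟨C2, hC2, h2⟩ := Kp_tail_right
  obtain ⟨C3, hC3, h3⟩ := Kp_tail_left
  refine ⟨C1 + 2 * (C2 + C3), by linarith, fun Z u v l huv h => ?_⟩
  have hu := h u ⟨le_rfl, huv⟩
  have hv := h v ⟨huv, le_rfl⟩
  have hl : 0 ≤ l := by linarith [Z.L_nonneg u]
  set M := ∑ a ∈ Z.s.filter (fun a => u ≤ Z.ξ a ∧ Z.ξ a < v), exp (-Z.ξ a) with hM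
  have hM0 : 0 ≤ M := Finset.sum_nonneg fun a _ => (exp_pos _).le
  have hlow : l * (v - u) ≤ ∫ x in u..v, Z.L x := by
    have := intervalIntegral.integral_mono_on (μ := volume) huv (f := fun _ => l)
      intervalIntegrable_const (Z.continuous_L.intervalIntegrable u v) fun x hx => (h x hx).1
    rwa [intervalIntegral.integral_const, smul_eq_mul, mul_comm] at this
  have hup : ∫ x in u..v, Z.L x ≤ C1 * M + C2 * Z.L u + C3 * Z.L v := by
    unfold L
    have hi : ∀ i, IntervalIntegrable (fun x => exp (-Z.ξ i) * Kp (x - Z.ξ i)) volume u v :=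
      fun i => (continuous_const.mul (continuous_Kp.comp
        (continuous_id.sub continuous_const))).intervalIntegrable u v
    rw [intervalIntegral.integral_finsetSum fun i _ => hi i,
      hM, Finset.sum_filter, Finset.mul_sum, Finset.mul_sum, Finset.mul_sum,
      ← Finset.sum_add_distrib, ← Finset.sum_add_distrib]
    refine Finset.sum_le_sum fun i _ => ?_
    rw [intervalIntegral.integral_const_mul, intervalIntegral.integral_comp_sub_right Kp]
    have he := exp_pos (-Z.ξ i)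
    have k1 := mul_nonneg he.le (Kp_nonneg (u - Z.ξ i))
    have k2 := mul_nonneg he.le (Kp_nonneg (v - Z.ξ i))
    have k3 := mul_nonneg (zero_le_one.trans hC2) k1
    have k4 := mul_nonneg (zero_le_one.trans hC3) k2
    split_ifs with hi
    · have := mul_le_mul_of_nonneg_left (h1 (u - Z.ξ i) (v - Z.ξ i) (by linarith)) he.le
      linarith
    · rcases not_and_or.1 hi with hi | hi
      · have := mul_le_mul_of_nonneg_left
          (h2 (u - Z.ξ i) (v - Z.ξ i) (by linarith [not_le.1 hi]) (by linarith)) he.le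
        linarith
      · have := mul_le_mul_of_nonneg_left
          (h3 (v - Z.ξ i) (u - Z.ξ i) (by linarith [not_lt.1 hi]) (by linarith)) he.le
        linarith
  have hC : 0 < C1 + 2 * (C2 + C3) := by linarith
  rw [sub_le_iff_le_add, div_le_iff₀ hC]
  have a1 := mul_le_mul_of_nonneg_left hu.2 (zero_le_one.trans hC2)
  have a2 := mul_le_mul_of_nonneg_left hv.2 (zero_le_one.trans hC3)
  have a3 : 0 ≤ M * (C2 + C3) := mul_nonneg hM0 (by linarith)
  have a4 : (C1 + 2 * (C2 + C3)) * l ≤ (C1 + 2 * (C2 + C3)) * l * (C1 + 2 * (C2 + C3)) :=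
    le_mul_of_one_le_right (mul_nonneg hC.le hl) (by linarith)
  have a5 : 0 ≤ C1 * l := mul_nonneg (by linarith) hl
  linarith only [hlow, hup, a1, a2, a3, a4, a5]

theorem Elev_pick {f g : ℝ → ℝ} {u ρ a b : ℝ} {Q : ℝ → Prop} (hρ : 0 < ρ) (ha : 0 < a)
    (hb : 0 < b) (hQ : ∀ᵐ x, Q x) (hf : IntervalIntegrable f volume u (u + ρ))
    (hg : IntervalIntegrable g volume u (u + ρ))
    (hf0 : ∀ x ∈ Icc u (u + ρ), Q x → 0 ≤ f x) (hg0 : ∀ x, 0 ≤ g x)
    (hfi : ∫ x in u..(u + ρ), f x ≤ a * ρ / 4) (hgi : ∫ x in u..(u + ρ), g x ≤ b * ρ / 4) :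
    ∃ x ∈ Icc u (u + ρ), Q x ∧ f x ≤ a ∧ g x ≤ b := by
  by_contra hn
  push Not at hn
  have key : ∫ x in u..(u + ρ), (a * b) ≤ ∫ x in u..(u + ρ), (b * f x + a * g x) := by
    refine intervalIntegral.integral_mono_ae_restrict (by linarith only [hρ]) intervalIntegrable_const
      ((hf.const_mul b).add (hg.const_mul a)) ?_
    rw [EventuallyLE, ae_restrict_iff' measurableSet_Icc]
    filter_upwards [hQ] with x hx hm
    have k1 := mul_nonneg hb.le (hf0 x hm hx)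
    have k2 := mul_nonneg ha.le (hg0 x)
    rcases le_or_gt (f x) a with h | h
    · have := mul_le_mul_of_nonneg_left (hn x hm hx h).le ha.le
      linarith
    · have := mul_le_mul_of_nonneg_left h.le hb.le
      linarith
  rw [intervalIntegral.integral_add (hf.const_mul b) (hg.const_mul a),
    intervalIntegral.integral_const, intervalIntegral.integral_const_mul,
    intervalIntegral.integral_const_mul, smul_eq_mul] at key
  have k1 := mul_le_mul_of_nonneg_left hfi hb.le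
  have k2 := mul_le_mul_of_nonneg_left hgi ha.le
  have k3 : 0 < a * b * ρ := by positivity
  linarith only [key, k1, k2, k3]

theorem select : ∃ C : ℝ, 1 ≤ C ∧ ∀ (Z : Cfg) (ρ u M : ℝ) (A : Finset ℕ), 0 < ρ → ρ ≤ 1 → 0 < M →
    (∀ x ∈ Icc u (u + ρ), Z.Min 0 x) → Z.L (u + ρ) - Z.L u ≤ M →
    ∃ x ∈ Icc u (u + ρ), Z.Reg x ∧ exp (-x) * Z.om x ≤ 4 * M / ρ ∧
      ∑ a ∈ A, l0 (x - Z.ξ a) ≤ C * A.card * (1 - Real.log ρ) := by
  obtain ⟨C, hC, hav⟩ := avg_l0
  refine ⟨4 * C, by linarith, fun Z ρ u M A hρ hρ1 hM hmin hL => ?_⟩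
  have hlog : 0 < 1 - Real.log ρ := by linarith [Real.log_nonpos hρ.le hρ1]
  have hi : ∀ i, IntervalIntegrable (fun x => l0 (x - Z.ξ i)) volume u (u + ρ) := fun i =>
    (integrable_l0.comp_sub_right (Z.ξ i)).intervalIntegrable
  have hg : IntervalIntegrable (fun x => ∑ a ∈ A, l0 (x - Z.ξ a)) volume u (u + ρ) :=
    Bf_ii_sum A hi
  have hgi : ∫ x in u..(u + ρ), ∑ a ∈ A, l0 (x - Z.ξ a) ≤
      4 * C * A.card * (1 - Real.log ρ) * ρ / 4 := by
    rw [intervalIntegral.integral_finsetSum fun i _ => hi i]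
    refine (Finset.sum_le_card_nsmul A _ _ fun i _ => hav u ρ (Z.ξ i) hρ hρ1).trans_eq ?_
    rw [nsmul_eq_mul]; ring
  have hfi : ∫ x in u..(u + ρ), exp (-x) * Z.om x ≤ 4 * M / ρ * ρ / 4 := by
    rw [← L_sub, div_mul_cancel₀ _ hρ.ne']; linarith only [hL]
  have hf0 : ∀ x ∈ Icc u (u + ρ), Z.Reg x → 0 ≤ exp (-x) * Z.om x := fun x hm hx =>
    mul_nonneg (exp_pos _).le (Z.om_nonneg hx (hmin x hm))
  have hg0 : ∀ x, 0 ≤ ∑ a ∈ A, l0 (x - Z.ξ a) := fun x =>
    Finset.sum_nonneg fun a _ => l0_nonneg _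
  rcases A.eq_empty_or_nonempty with rfl | hA
  · obtain ⟨x, hm, hx, h1, -⟩ := Elev_pick (g := fun _ => 0) (b := 1) hρ (by positivity) one_pos
      Z.ae_reg (Z.intervalIntegrable_om _ _) intervalIntegrable_const hf0 (fun _ => le_rfl) hfi
      (by simp; positivity)
    exact ⟨x, hm, hx, h1, by simp⟩
  · have hc : (0 : ℝ) < A.card := by exact_mod_cast hA.card_pos
    exact Elev_pick hρ (by positivity) (by positivity) Z.ae_reg (Z.intervalIntegrable_om _ _) hg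
      hf0 hg0 hfi hgi

theorem Elev_sin {φ r : ℝ} (hr : 0 < r) (h1 : 2 * r < |rp (-φ)|) (h2 : 2 * r < |rp (φ + π)|) :
    r ^ 2 ≤ sin φ ^ 2 := by
  rw [abs_rp_neg] at h1
  have h3 : |rp (φ + π)| ≤ π - |rp φ| := by
    obtain ⟨k, hk⟩ := exists_rp φ
    have hm := rp_mem φ
    rcases le_or_gt 0 (rp φ) with h | h
    · have e : φ + π = (rp φ - π) + ((1 - k : ℤ) : ℝ) * (2 * π) := by rw [hk]; push_cast; ring
      rw [e, rp_per, abs_of_nonneg h]
      refine (abs_rp_le _).trans_eq ?_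
      rw [abs_of_nonpos (by linarith)]; ring
    · have e : φ + π = (rp φ + π) + ((-k : ℤ) : ℝ) * (2 * π) := by rw [hk]; push_cast; ring
      rw [e, rp_per, abs_of_neg h]
      refine (abs_rp_le _).trans_eq ?_
      rw [abs_of_nonneg (by linarith)]; ring
  have h4 : sin φ ^ 2 = sin |rp φ| ^ 2 := by
    rw [← sin_rp φ]
    rcases abs_choice (rp φ) with h | h <;> rw [h]
    rw [sin_neg, neg_sq]
  have hpi : 1 / 2 ≤ 2 / π := by
    rw [div_le_div_iff₀ two_pos pi_pos]; linarith [pi_le_four]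
  have h5 : ∀ t, 2 * r < t → t ≤ π / 2 → r ≤ sin t := by
    intro t ht ht'
    have a1 := mul_le_sin (by linarith only [hr, ht] : 0 ≤ t) ht'
    have a2 := mul_le_mul_of_nonneg_right hpi (by linarith only [hr, ht] : 0 ≤ t)
    linarith only [ht, a1, a2]
  rw [h4]
  refine pow_le_pow_left₀ hr.le ?_ 2
  rcases le_or_gt |rp φ| (π / 2) with h | h
  · exact h5 _ h1 h
  · rw [← sin_pi_sub]
    exact h5 _ (by linarith only [h2, h3]) (by linarith only [h])

theorem misaligned : ∃ C : ℝ, 1 ≤ C ∧ ∀ (Z : Cfg) (x γ r : ℝ), Z.Reg x → Z.U x γ ≤ -Z.B x →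
    0 < r → r ≤ 1 / 8 →
    ((Z.s.filter fun a => |Z.ξ a - x| ≤ r ∧ 2 * r < |rp (Z.η a - γ)|).card : ℝ) ≤
      C * Z.om x / r ^ 2 + C * ((Z.B (x + 8 * r) + Z.B (x - 8 * r)) / 2 - Z.B x) := by
  obtain ⟨c, hc, hgap⟩ := gap_ge 1
  refine ⟨1 / c + 2, by have := one_div_pos.2 hc; linarith only [this], fun Z x γ r hx h hr hr8 => ?_⟩
  obtain ⟨h0, hB, hG⟩ := Z.Elev_parts hx h
  set S := Z.s.filter fun a => |Z.ξ a - x| ≤ r ∧ 2 * r < |rp (Z.η a - γ)| with hS
  have hSs : S ⊆ Z.s := Finset.filter_subset _ _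
  have hcard := Finset.card_filter_add_card_filter_not (s := S)
    (fun a => |rp (γ + π - Z.η a)| ≤ 2 * r)
  set A := S.filter fun a => |rp (γ + π - Z.η a)| ≤ 2 * r with hA
  set A' := S.filter fun a => ¬|rp (γ + π - Z.η a)| ≤ 2 * r with hA'
  have hSD : 0 ≤ (Z.B (x + 8 * r) + Z.B (x - 8 * r)) / 2 - Z.B x := by
    have := Z.B_convex.2 (mem_univ (x + 8 * r)) (mem_univ (x - 8 * r))
      (show (0 : ℝ) ≤ 1 / 2 by norm_num) (show (0 : ℝ) ≤ 1 / 2 by norm_num) (by norm_num)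
    simp only [smul_eq_mul] at this
    rw [show 1 / 2 * (x + 8 * r) + 1 / 2 * (x - 8 * r) = x by ring] at this
    linarith only [this]
  set SD := (Z.B (x + 8 * r) + Z.B (x - 8 * r)) / 2 - Z.B x with hSDdef
  have h1 : (A.card : ℝ) ≤ 2 * (SD + Z.om x) := by
    have := Z.mass_le hx (γ + π) (R := 8 * r) (by positivity) (A := A)
      ((Finset.filter_subset _ _).trans hSs) (by
        intro a ha
        obtain ⟨ha1, ha2⟩ := Finset.mem_filter.1 ha
        have ha3 := (Finset.mem_filter.1 ha1).2.1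
        rw [abs_sub_comm] at ha3
        have b1 := pow_le_pow_left₀ (abs_nonneg _) ha2 2
        have b2 := pow_le_pow_left₀ (abs_nonneg _) ha3 2
        rw [sq_abs] at b1 b2
        linarith only [b1, b2, sq_nonneg r])
    have b3 := mul_le_mul_of_nonneg_left Real.log_two_gt_d9.le (Nat.cast_nonneg (α := ℝ) A.card)
    have b4 := Nat.cast_nonneg (α := ℝ) A.card
    linarith only [h0, hB, hSD, hSDdef, this, b3]
  have h2 : (A'.card : ℝ) * (c * r ^ 2) ≤ Z.om x := by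
    refine le_trans ?_ (hG A' ((Finset.filter_subset _ _).trans hSs))
    rw [← nsmul_eq_mul]
    refine Finset.card_nsmul_le_sum A' _ _ fun a ha => ?_
    obtain ⟨ha1, ha2⟩ := Finset.mem_filter.1 ha
    obtain ⟨ha3, ha4, ha5⟩ := Finset.mem_filter.1 ha1
    refine le_trans ?_ (hgap _ _ (sub_ne_zero.2 (hx a ha3).symm)
      (by rw [abs_sub_comm]; linarith only [hr, hr8, ha4]))
    refine mul_le_mul_of_nonneg_left (Elev_sin hr ?_ ?_) hc.le
    · rwa [neg_sub]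
    · rw [show γ - Z.η a + π = γ + π - Z.η a by ring]; exact not_le.1 ha2
  have hr2 : 0 < r ^ 2 := by positivity
  have h3 : (A'.card : ℝ) ≤ 1 / c * (Z.om x / r ^ 2) := by
    rw [div_mul_div_comm, one_mul, le_div_iff₀ (by positivity)]; exact h2
  have h4 : Z.om x ≤ Z.om x / r ^ 2 := by
    rw [le_div_iff₀ hr2]
    exact mul_le_of_le_one_right h0 (by linarith only [hr, hr8, mul_nonneg_of_nonpos_of_nonpos (le_of_lt (Mathlib.Tactic.Linarith.sub_neg_of_lt hr)) (Mathlib.Tactic.Linarith.sub_nonpos_of_le hr8)])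
  have h5 : (S.card : ℝ) = A.card + A'.card := by exact_mod_cast hcard.symm
  have h6 : 0 ≤ 1 / c * SD := mul_nonneg (one_div_pos.2 hc).le hSD
  rw [h5, mul_div_assoc]
  linarith only [h1, h3, h4, h6]

theorem Elev_sin_sub (a b : ℝ) : sin (a - b) ^ 2 ≤ 2 * sin a ^ 2 + 2 * sin b ^ 2 := by
  rw [sin_sub]
  have h1 := mul_le_of_le_one_right (sq_nonneg (sin a)) (cos_sq_le_one b)
  have h2 := mul_le_of_le_one_right (sq_nonneg (sin b)) (cos_sq_le_one a)
  linarith only [h1, h2, sq_nonneg (sin a * cos b + cos a * sin b), sq_nonneg (sin a * cos b + cos a * sin b)]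

theorem axis (R : ℝ) : ∃ C : ℝ, 1 ≤ C ∧ ∀ (Z : Cfg) (x x' γ γ' : ℝ) (A : Finset ℕ), Z.Reg x →
    Z.Reg x' → Z.U x γ ≤ -Z.B x → Z.U x' γ' ≤ -Z.B x' → A ⊆ Z.s →
    (∀ a ∈ A, |Z.ξ a - x| ≤ R ∧ |Z.ξ a - x'| ≤ R) →
    A.card * sin (γ - γ') ^ 2 ≤ C * (Z.om x + Z.om x') := by
  obtain ⟨c, hc, hgap⟩ := gap_ge R
  refine ⟨2 / c + 1, by have := div_pos two_pos hc; linarith,
    fun Z x x' γ γ' A hx hx' h h' hA hR => ?_⟩
  obtain ⟨h0, -, hG⟩ := Z.Elev_parts hx h
  obtain ⟨h0', -, hG'⟩ := Z.Elev_parts hx' h'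
  have key : (A.card : ℝ) * (c * sin (γ - γ') ^ 2) ≤ 2 * (Z.om x + Z.om x') := by
    refine le_trans ?_ (mul_le_mul_of_nonneg_left (add_le_add (hG A hA) (hG' A hA)) zero_le_two)
    rw [← Finset.sum_add_distrib, Finset.mul_sum, ← nsmul_eq_mul]
    refine Finset.card_nsmul_le_sum A _ _ fun a ha => ?_
    have b1 := hgap _ (γ - Z.η a) (sub_ne_zero.2 (hx a (hA ha)).symm)
      (by rw [abs_sub_comm]; exact (hR a ha).1)
    have b2 := hgap _ (γ' - Z.η a) (sub_ne_zero.2 (hx' a (hA ha)).symm)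
      (by rw [abs_sub_comm]; exact (hR a ha).2)
    have b3 := Elev_sin_sub (γ - Z.η a) (γ' - Z.η a)
    rw [show γ - Z.η a - (γ' - Z.η a) = γ - γ' by ring] at b3
    have b4 := mul_le_mul_of_nonneg_left b3 hc.le
    linarith only [b1, b2, b4]
  have k2 : (A.card : ℝ) * sin (γ - γ') ^ 2 ≤ 2 / c * (Z.om x + Z.om x') := by
    rw [div_mul_eq_mul_div, le_div_iff₀ hc]; linarith
  linarith only [h0, h0', k2]

end Cfg

end

end Pool.Agent.MinMod
end
end

-- merged part: Pool.Agent.Work.MP_f62247_an.BadB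
section
-- merged part: Pool.Agent.Work.MP_f62247_an.BadA
section
/-!
# Where the minimum can be; zeros away from the valley are few

`good_of_small`: let `|rp (φ - θ j)| > 1/16`.  `U_split` at `j`.  `Re (cc j e^(iφ)) ≥ -‖cc j‖ (cos (1/16) + μ)` (`dir`).  Zeros with `ξ ∉ [j-1, j+2)` have `|s| ≥ 1`
(`l0_le`, `abs_nk_le`); zeros in `[j-1, j+2)` not in `Off` have `|rp (φ - η)| ≥ 1/16 - 1/32 - 3μ ≥ 1/64` (`lg_ge_of_rp`); all these cost `≤ C W j ≤ C μ A j`;
zeros in `Off` cost `l0 + e`.  `B x ≥ (cos (1/40) - C μ) ‖cc j‖ e^x`, and `cos (1/40) - cos (1/16) > 0`.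
`off_card`: `e = lam - 1`, `h = π / lam`, `β = η - θ i`, `|β| ≤ π`.  In `VV`: count by `qq`.  Not in `VV`, `|β| ≤ h - e`: `abs_Sg_ge` with `t = e`, count by `mm`.
Otherwise `|rp (θ i + h - η)| ≤ 4 e` or `|rp (θ i - h - η)| ≤ 4 e` (`ha_le`).  `N = ⌈1/e⌉`, `ρ = 1/N ∈ [e/2, e]`; in each piece `[i + lρ, i + (l+1)ρ]`
pick a regular `p l` with `rr (p l) ≤ 2 N ∫ rr + e² A i` (Markov, `ae_reg`); `mass_le` at `(p l, θ i ± h)` with `R = 20ρ`; `sd_sum` with `K = 20`;
`B (i+3) ≤ C A i`.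
-/

open Real MeasureTheory Set Filter Topology

namespace Pool.Agent.MinMod

noncomputable section

namespace Cfg

theorem BadA_re {c : ℂ} {μ θ φ : ℝ} (x : ℝ)
    (h : ‖c * Complex.exp (θ * Complex.I) + (‖c‖ : ℂ)‖ ≤ μ * ‖c‖) (hφ : 1 / 16 ≤ |rp (φ - θ)|) :
    -((μ + cos (1 / 16)) * (‖c‖ * exp x)) ≤ (c * Complex.exp (x + φ * Complex.I)).re := by
  have h1 : c * Complex.exp (x + φ * Complex.I) = (c * Complex.exp (θ * Complex.I) + (‖c‖ : ℂ)) *
      Complex.exp (x + (φ - θ : ℝ) * Complex.I) -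
      (‖c‖ : ℂ) * Complex.exp (x + (φ - θ : ℝ) * Complex.I) := by
    rw [add_mul, add_sub_cancel_right, mul_assoc, ← Complex.exp_add]
    congr 2
    push_cast
    ring
  have h2 := (abs_le.1 (Complex.abs_re_le_norm ((c * Complex.exp (θ * Complex.I) + (‖c‖ : ℂ)) *
    Complex.exp (x + (φ - θ : ℝ) * Complex.I)))).1
  have h3 : cos (φ - θ) ≤ cos (1 / 16) := by
    rw [← cos_rp, ← cos_abs]
    exact cos_le_cos_of_nonneg_of_le_pi (by norm_num) (KerG_abs_le _) hφ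
  rw [norm_mul, KerA_norm] at h2
  rw [h1, Complex.sub_re, Complex.re_ofReal_mul, KerA_re]
  linarith only [h2, h, h3, mul_le_mul_of_nonneg_right h (exp_pos x).le,
    mul_le_mul_of_nonneg_left h3 (mul_nonneg (norm_nonneg c) (exp_pos x).le)]

theorem BadA_term {C j x ξ φ L : ℝ} (hC : 0 ≤ C) (h1 : j ≤ x) (h2 : x ≤ j + 1) (hx : ξ ≠ x)
    (hL : 0 ≤ L) (h : j - 1 ≤ ξ → ξ < j + 2 → -C - L ≤ lg (x - ξ) φ) :
    -((C + exp 1 + 2) * exp 4 * w0 (j - ξ)) - L ≤
      if ξ < j then lg (x - ξ) φ else nk (x - ξ) φ := by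
  have hs : x - ξ ≠ 0 := sub_ne_zero.2 hx.symm
  have h4 : 1 ≤ exp 4 := one_le_exp (by norm_num)
  have h5 := exp_pos 1
  by_cases h6 : ξ < j - 1
  · have h7 := l0_le (s := x - ξ) (le_abs.2 (Or.inl (by linarith)))
    have h8 := exp_le_one_iff.2 (neg_nonpos.2 (abs_nonneg (x - ξ)))
    rw [if_pos (by linarith), w0_of_nonneg (by linarith)]
    linarith only [hC, hL, h4, h5, h7, h8, hs, h6, (abs_le.1 (abs_lg_sub_le hs φ)).1, le_max_right (x - ξ) 0,
      mul_nonneg (by positivity : 0 ≤ (C + exp 1 + 2) * exp 4) (by linarith : 0 ≤ j - ξ), mul_nonneg_of_nonpos_of_nonpos (Mathlib.Tactic.Linarith.sub_nonpos_of_le hC) (Mathlib.Tactic.Linarith.sub_nonpos_of_le h4), mul_nonneg_of_nonpos_of_nonpos (Mathlib.Tactic.Linarith.sub_nonpos_of_le h4) (le_of_lt (Mathlib.Tactic.Linarith.sub_neg_of_lt h5))]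
  by_cases h7 : ξ < j + 2
  · have h8 : 1 ≤ exp 4 * w0 (j - ξ) := by
      refine le_trans ?_ (mul_le_mul_of_nonneg_left (w0_mono (a := -2) (by linarith)) (by linarith))
      rw [w0_of_nonpos (by norm_num), ← exp_add]
      norm_num
    have h9 := h (by linarith) h7
    have h10 : C + exp 1 + 2 ≤ (C + exp 1 + 2) * exp 4 * w0 (j - ξ) := by
      rw [mul_assoc]
      exact le_mul_of_one_le_right (by positivity) h8
    split_ifs with h11
    · linarith only [h5, h9, h10]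
    · rw [nk]
      linarith only [h9, h10, h2, h11, exp_le_exp.2 (by linarith : x - ξ ≤ 1),
        mul_le_mul_of_nonneg_left (neg_one_le_cos φ) (exp_pos (x - ξ)).le]
  have h8 := (abs_le.1 (abs_nk_le hs φ)).1
  have h9 := l0_le (s := x - ξ) (le_abs.2 (Or.inr (by linarith)))
  rw [env, if_pos (by linarith)] at h8
  rw [abs_of_neg (by linarith), neg_neg] at h9
  have h10 : exp (x - ξ) * exp (x - ξ) ≤ exp 4 * exp (2 * (j - ξ)) := by
    rw [← exp_add, ← exp_add]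
    exact exp_le_exp.2 (by linarith)
  rw [if_neg (by linarith), w0_of_nonpos (by linarith)]
  linarith only [hL, h8, h10, h9, hC, mul_le_mul_of_nonneg_left h9 (exp_pos (x - ξ)).le,
    (by positivity : 0 ≤ (C + exp 1) * exp 4 * exp (2 * (j - ξ)))]

theorem good_of_small : ∃ C μ0 : ℝ, 1 ≤ C ∧ 0 < μ0 ∧ ∀ (Z : Cfg) (lam μ η : ℝ) (n : ℕ) (θ : ℕ → ℝ),
    Z.Calm lam μ η n θ → μ ≤ μ0 →
    ∀ j < n, ∀ x ∈ Icc (j : ℝ) (j + 1), Z.Reg x →
      (∀ u : ℝ, u = j - 1 ∨ u = j ∨ u = j + 1 → ∑ a ∈ Z.Off n θ u, l0 (x - Z.ξ a) ≤ Z.A j / C) →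
      Z.GoodAt (θ j) x := by
  obtain ⟨C₀, hC₀, h0⟩ := lg_ge_of_rp (t := 1 / 64) (by norm_num)
  obtain ⟨C₁, μ₁, hC₁, hμ₁, h1⟩ := B_calm
  obtain ⟨δ, hδ⟩ : ∃ δ, δ = cos (1 / 40) - cos (1 / 16) := ⟨_, rfl⟩
  have hδ0 : 0 < δ := hδ ▸ sub_pos.2
    (cos_lt_cos_of_nonneg_of_le_pi (by norm_num) (by linarith only [pi_gt_three]) (by norm_num))
  obtain ⟨K, hK⟩ : ∃ K, K = (C₀ + exp 1 + 2) * exp 4 := ⟨_, rfl⟩
  have hK0 : 0 < K := by rw [hK]; positivity
  refine ⟨1 + 6 / δ, min μ₁ (min (1 / 192) (δ / 2 / (1 + C₁ + K))), le_add_of_nonneg_right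
    (by positivity), by positivity, fun Z lam μ η n θ hc hμ j hj x hx hr ho φ hφ => ?_⟩
  simp only [le_min_iff] at hμ
  obtain ⟨m1, m2, m3⟩ := hμ
  by_contra hn
  have k1 := BadA_re x (hc.dir j hj.le) (not_le.1 hn).le
  have k2 := (h1 Z lam μ η n θ hc m1 j hj.le).2.1 x hx
  have k3 : ∀ a ∈ Z.s, -(K * w0 (j - Z.ξ a)) - ∑ u ∈ ({(j : ℝ) - 1, (j : ℝ), (j : ℝ) + 1} : Finset ℝ),
      (if a ∈ Z.Off n θ u then l0 (x - Z.ξ a) else 0) ≤ if Z.ξ a < j then lg (x - Z.ξ a) (φ - Z.η a)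
        else nk (x - Z.ξ a) (φ - Z.η a) := fun a ha => by
    have p0 : ∀ u ∈ ({(j : ℝ) - 1, (j : ℝ), (j : ℝ) + 1} : Finset ℝ),
        0 ≤ if a ∈ Z.Off n θ u then l0 (x - Z.ξ a) else 0 := fun u _ => by
      split_ifs
      exacts [l0_nonneg _, le_rfl]
    refine hK ▸ BadA_term hC₀ hx.1 hx.2 (hr a ha) (Finset.sum_nonneg p0) fun p1 p2 => ?_
    by_cases p3 : 1 / 32 ≤ |Z.η a - θ (ki n (Z.ξ a))|
    · obtain ⟨u, hu, p4⟩ : ∃ u ∈ ({(j : ℝ) - 1, (j : ℝ), (j : ℝ) + 1} : Finset ℝ),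
          u ≤ Z.ξ a ∧ Z.ξ a < u + 1 := by
        rcases lt_or_ge (Z.ξ a) j with p | p
        · exact ⟨j - 1, by simp, p1, by linarith only [p]⟩
        rcases lt_or_ge (Z.ξ a) (j + 1) with p' | p'
        · exact ⟨j, by simp, p, p'⟩
        · exact ⟨j + 1, by simp, p', by linarith only [p2]⟩
      have p5 := Finset.single_le_sum p0 hu
      rw [if_pos (show a ∈ Z.Off n θ u from Finset.mem_filter.2 ⟨ha, p4, p3⟩)] at p5
      linarith only [hC₀, p5, hr, ha, (abs_le.1 (abs_lg_sub_le (sub_ne_zero.2 (hr a ha).symm) (φ - Z.η a))).1,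
        le_max_right (x - Z.ξ a) 0]
    · have p4 := (hc.drift (ki_le n (Z.ξ a)) hj.le).trans (mul_le_mul_of_nonneg_left
        ((abs_ki_sub_le hj.le _).trans (add_le_add_left (abs_le.2
          ⟨by linarith only [p1], by linarith only [p2]⟩ : |Z.ξ a - j| ≤ 2) 1)) hc.mu_pos.le)
      have p5 := abs_rp_add_le (φ - Z.η a) (Z.η a - θ j)
      rw [sub_add_sub_cancel] at p5
      have p6 := abs_sub_le (Z.η a) (θ <| ki n (Z.ξ a)) (θ j)
      linarith only [h0, m2, hn, p3, p4, p5, p6, p0, h0 (x - Z.ξ a) (φ - Z.η a) (by linarith only [m2, hn, p3, p4, p5, p6, abs_rp_le (Z.η a - θ j)]),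
        le_max_right (x - Z.ξ a) 0, Finset.sum_nonneg p0]
  have k4 := Finset.sum_le_sum k3
  have k5 : ∑ u ∈ ({(j : ℝ) - 1, (j : ℝ), (j : ℝ) + 1} : Finset ℝ), ∑ a ∈ Z.s,
      (if a ∈ Z.Off n θ u then l0 (x - Z.ξ a) else 0) ≤ 3 * (Z.A j / (1 + 6 / δ)) := by
    have k6 : 0 ≤ Z.A j / (1 + 6 / δ) := by unfold A; positivity
    refine (Finset.sum_le_card_nsmul _ _ _ fun u hu => ?_).trans
      ((nsmul_le_nsmul_left k6 Finset.card_le_three).trans_eq (by simp))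
    rw [Finset.sum_ite_mem, Finset.inter_eq_right.2
      (show Z.Off n θ u ⊆ Z.s from Finset.filter_subset _ _)]
    exact ho u (by simpa using hu)
  rw [Finset.sum_sub_distrib, Finset.sum_neg_distrib, ← Finset.mul_sum, Finset.sum_comm,
    Finset.sum_ite] at k4
  simp only [not_lt] at k4
  rw [U_split Z j] at hφ
  have k6 : Z.A j ≤ ‖Z.cc j‖ * exp x := mul_le_mul_of_nonneg_left (exp_le_exp.2 hx.1) (norm_nonneg _)
  have k7 : 0 < Z.A j := mul_pos (hc.pos j hj.le) (exp_pos _)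
  have k8 : 3 * (Z.A j / (1 + 6 / δ)) < δ / 2 * Z.A j := by
    rw [← mul_div_assoc, div_lt_iff₀ (by positivity)]
    have : δ * (6 / δ) = 6 := by field_simp
    linarith only [hδ0, k7, this, mul_pos hδ0 k7, Mathlib.Tactic.Linarith.mul_zero_eq (Mathlib.Tactic.Linarith.sub_neg_of_lt k7) (sub_eq_zero_of_eq this)]
  rw [le_div_iff₀ (by positivity)] at m3
  have k9 : K * ∑ a ∈ Z.s, w0 (j - Z.ξ a) ≤ K * (μ * (‖Z.cc j‖ * exp x)) := mul_le_mul_of_nonneg_left
    ((hc.calm j hj.le).trans (mul_le_mul_of_nonneg_left k6 hc.mu_pos.le)) hK0.le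
  linarith only [hφ, k1, k2, k5, k4, k8, k9, m3, k7, k6, hδ0, hδ, mul_le_mul_of_nonneg_right m3 (k7.le.trans k6), mul_le_mul_of_nonneg_left k6 hδ0.le, Mathlib.Tactic.Linarith.zero_mul_eq (sub_eq_zero_of_eq hδ) (Mathlib.Tactic.Linarith.sub_nonpos_of_le k6), Mathlib.Tactic.Linarith.zero_mul_eq (sub_eq_zero_of_eq hδ) (Mathlib.Tactic.Linarith.sub_neg_of_lt k7)]

theorem BadA_card {S T : Finset ℕ} {f : ℕ → ℝ} {c : ℝ} (h : S ⊆ T) (h0 : ∀ a ∈ T, 0 ≤ f a)
    (h1 : ∀ a ∈ S, c ≤ f a) : S.card * c ≤ ∑ a ∈ T, f a :=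
  ((nsmul_eq_mul _ _).symm.trans_le (Finset.card_nsmul_le_sum S f c h1)).trans
    (Finset.sum_le_sum_of_subset_of_nonneg h fun a ha _ => h0 a ha)

theorem BadA_avg (Z : Cfg) {f : ℝ → ℝ} {a b : ℝ} (hab : a < b)
    (hf : IntervalIntegrable f volume a b) :
    ∃ p, Z.Reg p ∧ a ≤ p ∧ p ≤ b ∧ (b - a) * f p ≤ ∫ t in a..b, f t := by
  obtain ⟨p, h1, h2⟩ := exists_notMem_null_le_average (μ := volume.restrict (Ioc a b))
    (N := {x | ¬ (Z.Reg x ∧ x ∈ Ioc a b)}) (by simpa using hab) hf.1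
    (ae_iff.1 ((ae_restrict_of_ae Z.ae_reg).and (ae_restrict_mem measurableSet_Ioc)))
  obtain ⟨h3, h4⟩ := not_not.1 h1
  refine ⟨p, h3, h4.1.le, h4.2, ?_⟩
  rwa [setAverage_eq, Real.volume_real_Ioc_of_le hab.le, smul_eq_mul,
    le_inv_mul_iff₀ (sub_pos.2 hab), ← intervalIntegral.integral_of_le hab.le] at h2

/-- Zeros close to the two rays at angles `θ ± π / lam`. -/
theorem BadA_ray (Z : Cfg) {lam θ u : ℝ} (h1 : 1 < lam) (h2 : lam - 1 ≤ 1 / 20) {S : Finset ℕ}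
    (hS : ∀ a ∈ S, a ∈ Z.s ∧ u ≤ Z.ξ a ∧ Z.ξ a < u + 1 ∧ π / lam - (lam - 1) ≤ |Z.η a - θ| ∧
      |Z.η a - θ| ≤ π) : S.card * Real.log 2 * (lam - 1) ≤ 882 * (lam - 1) ^ 2 * Z.B (u + 3) +
      2 * exp (lam * (u + 1)) * ∫ t in u..(u + 1), exp (-lam * t) * Z.rr lam t θ := by
  obtain ⟨e, he⟩ : ∃ e, e = lam - 1 := ⟨_, rfl⟩
  have h3 := he ▸ ha_le h1.le
  rw [← he] at h2 hS ⊢
  have e0 : 0 < e := by linarith only [h1, he]
  obtain ⟨N, n0, n1, n2⟩ : ∃ N : ℕ, (0 : ℝ) < N ∧ 1 ≤ N * e ∧ N * e ≤ 2 := by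
    have k1 := (div_le_iff₀ e0).1 (Nat.le_ceil (1 / e))
    have k2 := mul_lt_mul_of_pos_right (Nat.ceil_lt_add_one (one_div_pos.2 e0).le) e0
    rw [add_mul, one_div_mul_cancel e0.ne'] at k2
    exact ⟨_, Nat.cast_pos.2 (Nat.ceil_pos.2 (one_div_pos.2 e0)), k1, by linarith only [h1, h2, he, k2]⟩
  obtain ⟨ρ, r0, r1⟩ : ∃ ρ : ℝ, 0 < ρ ∧ N * ρ = 1 := ⟨_, inv_pos.2 n0, mul_inv_cancel₀ n0.ne'⟩
  have r2 : ρ ≤ e := by (refine le_of_not_gt fun h_nl => ?_; linarith only [h_nl, n1, r1, n0, mul_pos_of_neg_of_neg (Mathlib.Tactic.Linarith.sub_neg_of_lt n0) (Mathlib.Tactic.Linarith.sub_neg_of_lt h_nl)])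
  have r3 : e ≤ 2 * ρ := by (refine le_of_not_gt fun h_nl => ?_; linarith only [h_nl, n2, r1, n0, mul_pos_of_neg_of_neg (Mathlib.Tactic.Linarith.sub_neg_of_lt n0) (Mathlib.Tactic.Linarith.sub_neg_of_lt h_nl)])
  have hi : ∀ a b, IntervalIntegrable (fun t => exp (-lam * t) * Z.rr lam t θ) volume a b :=
    fun a b => (Z.intervalIntegrable_rr lam θ a b).continuousOn_mul (by fun_prop)
  choose p p1 p2 p3 p4 using fun l : ℕ => Z.BadA_avg (a := u + l * ρ) (b := u + (l + 1 : ℕ) * ρ)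
    (by push_cast; linarith only [r0]) (hi _ _)
  let Q : ℕ → ℝ → Finset ℕ := fun l φ =>
    Z.s.filter fun a => (p l - Z.ξ a) ^ 2 + rp (φ - Z.η a) ^ 2 ≤ (20 * ρ / 2) ^ 2
  have q1 : S ⊆ (Finset.range N).biUnion fun l => Q l (θ + π / lam) ∪ Q l (θ - π / lam) := by
    intro a ha
    obtain ⟨a1, a2, a3, a4, a5⟩ := hS a ha
    have a6 : 0 ≤ (Z.ξ a - u) * N := mul_nonneg (by linarith only [a2]) n0.le
    have a7 := mul_le_mul_of_nonneg_right (Nat.floor_le a6) r0.le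
    have a8 := mul_lt_mul_of_pos_right (Nat.lt_floor_add_one ((Z.ξ a - u) * N)) r0
    rw [mul_assoc, r1] at a7 a8
    refine Finset.mem_biUnion.2 ⟨⌊(Z.ξ a - u) * N⌋₊,
      Finset.mem_range.2 ((Nat.floor_lt a6).2 (by linarith only [n0, a3, mul_pos_of_neg_of_neg (Mathlib.Tactic.Linarith.sub_neg_of_lt n0) (Mathlib.Tactic.Linarith.sub_neg_of_lt a3)])), ?_⟩
    generalize ⌊(Z.ξ a - u) * N⌋₊ = l at a7 a8
    have a9 : ∀ φ, |φ - Z.η a| ≤ 8 * ρ → a ∈ Q l φ := fun φ hφ => by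
      have b1 := p2 l
      have b2 := p3 l
      push_cast at b2
      exact Finset.mem_filter.2 ⟨a1, by
        linarith only [a8, b1, a7, b2, hφ, sq_le_sq' (by linarith only [a8, b1] : -ρ ≤ p l - Z.ξ a) (by linarith only [a7, b2]), sq_abs (rp (φ - Z.η a)),
          pow_le_pow_left₀ (abs_nonneg _) ((abs_rp_le _).trans hφ) 2, sq_nonneg ρ]⟩
    rcases abs_cases (Z.η a - θ) with ⟨b, -⟩ | ⟨b, -⟩ <;> rw [b] at a4 a5
    · exact Finset.mem_union_left _ (a9 _ (abs_le.2 ⟨by linarith only [h3, r3, a5], by linarith only [r0, r3, a4]⟩))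
    · exact Finset.mem_union_right _ (a9 _ (abs_le.2 ⟨by linarith only [r0, r3, a4], by linarith only [h3, r3, a5]⟩))
  have q2 : (S.card : ℝ) ≤ ∑ l ∈ Finset.range N,
      (((Q l (θ + π / lam)).card : ℝ) + (Q l (θ - π / lam)).card) := by
    exact_mod_cast ((Finset.card_le_card q1).trans Finset.card_biUnion_le).trans
      (Finset.sum_le_sum fun l _ => Finset.card_union_le _ _)
  have q3 : ∀ l ∈ Finset.range N, (((Q l (θ + π / lam)).card : ℝ) + (Q l (θ - π / lam)).card) *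
      Real.log 2 ≤ 2 * ((Z.B (p l + (20 : ℕ) * ρ) + Z.B (p l - (20 : ℕ) * ρ)) / 2 - Z.B (p l)) +
      N * exp (lam * (u + 1)) *
        ∫ t in (u + l * ρ)..(u + (l + 1 : ℕ) * ρ), exp (-lam * t) * Z.rr lam t θ := fun l hl => by
    have b1 := fun φ => Z.mass_le (p1 l) φ (R := 20 * ρ) (by linarith only [r0]) (A := Q l φ)
      (Finset.filter_subset _ _) fun a ha => (Finset.mem_filter.1 ha).2
    have b2 : ((l + 1 : ℕ) : ℝ) * ρ ≤ 1 := r1 ▸ mul_le_mul_of_nonneg_right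
      (Nat.cast_le.2 (Finset.mem_range.1 hl)) r0.le
    have b3 : 1 ≤ exp (lam * (u + 1)) * exp (-lam * p l) := by
      rw [← exp_add]
      exact one_le_exp (by linarith only [b2, p3, h1, p3 l, mul_nonneg_of_nonpos_of_nonpos (le_of_lt (Mathlib.Tactic.Linarith.sub_neg_of_lt h1)) (Mathlib.Tactic.Linarith.sub_nonpos_of_le b2), mul_nonneg_of_nonpos_of_nonpos (le_of_lt (Mathlib.Tactic.Linarith.sub_neg_of_lt h1)) (Mathlib.Tactic.Linarith.sub_nonpos_of_le (p3 l))])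
    have b4 := mul_le_mul_of_nonneg_left (p4 l) (mul_pos n0 (exp_pos (lam * (u + 1)))).le
    have b5 := le_mul_of_one_le_left (Z.rr_nonneg lam (p1 l) θ).1 b3
    have b6 : N * exp (lam * (u + 1)) * ((u + (l + 1 : ℕ) * ρ - (u + l * ρ)) *
        (exp (-lam * p l) * Z.rr lam (p l) θ)) =
        exp (lam * (u + 1)) * exp (-lam * p l) * Z.rr lam (p l) θ := by
      push_cast
      linear_combination exp (lam * (u + 1)) * exp (-lam * p l) * Z.rr lam (p l) θ * r1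
    rw [b6] at b4
    replace b4 := b5.trans b4
    rw [rr] at b4
    rw [Nat.cast_ofNat]
    linarith only [b4, b1, b1 (θ + π / lam), b1 (θ - π / lam)]
  have q4 := (Finset.sum_le_sum q3).trans_eq Finset.sum_add_distrib
  have q5 := sd_sum Z.B_convex Z.B_mono Z.B_nonneg u r0 20 N (by push_cast; linarith only [h2, r2]) r1.le p
    fun l _ => ⟨p2 l, by simpa using p3 l⟩
  rw [← Finset.sum_mul, ← Finset.mul_sum, ← Finset.mul_sum,
    intervalIntegral.sum_integral_adjacent_intervals (a := fun l : ℕ => u + l * ρ)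
      fun _ _ => hi _ _, r1, Nat.cast_zero, zero_mul, add_zero] at q4
  have q6 : 0 ≤ exp (lam * (u + 1)) * ∫ t in u..(u + 1), exp (-lam * t) * Z.rr lam t θ :=
    mul_nonneg (exp_pos _).le (intervalIntegral.integral_nonneg_of_ae (by linarith only [h1, h2, he])
      (Z.ae_reg.mono fun t ht => mul_nonneg (exp_pos _).le (Z.rr_nonneg lam ht θ).1))
  have q7 := mul_le_mul_of_nonneg_right q2 (log_pos one_lt_two).le
  have q8 := mul_le_mul_of_nonneg_right r2 (Z.B_nonneg (u + 3))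
  push_cast at q5
  linarith only [n2, q6, q7, q4, e0, q5, q8, mul_le_mul_of_nonneg_right n2 q6, mul_le_mul_of_nonneg_right (q7.trans q4) e0.le,
    mul_le_mul_of_nonneg_right q5 e0.le, mul_le_mul_of_nonneg_right q8 e0.le]

theorem BadA_fin {lam E A B G c₁ c₂ c₃ s₁ s₂ s₃ : ℝ} (e0 : 0 < lam - 1) (e1 : lam - 1 ≤ 1 / 20)
    (hE : 0 ≤ E) (hA : 0 < A) (h3 : 0 ≤ c₃) (t1 : 0 ≤ s₁) (t2 : 0 ≤ s₂) (t3 : 0 ≤ s₃)
    (k1 : c₁ * (1 / 32) ^ 2 ≤ E * s₁) (k2 : c₂ * (1 / 2 * (lam - 1)) ≤ E * s₂)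
    (k3 : c₃ * Real.log 2 * (lam - 1) ≤ 882 * (lam - 1) ^ 2 * B + 2 * E * s₃)
    (h : lam * s₃ + s₂ + s₁ ≤ (lam - 1) ^ 2 * G) (k5 : B ≤ 2 * (A * exp 3))
    (k6 : E * G ≤ exp 2 * A) :
    c₁ + (c₂ + c₃) ≤ (1 + 1030 * exp 2 + 3528 * exp 3) * (lam - 1) * A := by
  have k7 := mul_le_mul_of_nonneg_left (by linarith only [h, e0, t3, mul_nonneg_of_nonpos_of_nonpos (le_of_lt (Mathlib.Tactic.Linarith.sub_neg_of_lt e0)) (Mathlib.Tactic.Linarith.sub_nonpos_of_le t3)] : s₃ + s₂ + s₁ ≤ (lam - 1) ^ 2 * G) hE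
  generalize lam - 1 = e at *
  refine le_of_mul_le_mul_right ?_ e0
  linarith only [k2, k3, k7, hE, t1, t2, t3, e0, hA, k5, k6, k1, e1, h3, mul_nonneg hE t1, mul_nonneg hE t2, mul_nonneg hE t3, mul_pos (pow_pos e0 2) hA,
    mul_le_mul_of_nonneg_left k5 (sq_nonneg e), mul_le_mul_of_nonneg_left k6 (sq_nonneg e),
    mul_le_mul_of_nonneg_right k1 e0.le, mul_le_mul_of_nonneg_left e1 (mul_nonneg hE t1),
    mul_le_mul_of_nonneg_left (by linarith only [e0, e1, log_two_gt_d9] : 1 / 2 ≤ Real.log 2)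
      (mul_nonneg h3 e0.le), (by positivity : 0 ≤ e ^ 2 * (exp 2 * A))]

theorem off_card : ∃ C μ0 : ℝ, 1 ≤ C ∧ 0 < μ0 ∧ ∀ (Z : Cfg) (lam μ η : ℝ) (n : ℕ) (θ : ℕ → ℝ),
    Z.Calm lam μ η n θ → μ ≤ μ0 →
    ∀ i < n, Z.mm lam n θ i + Z.qq lam n θ i ≤ (lam - 1) ^ 2 * Z.g lam i →
      ((Z.Off n θ i).card : ℝ) ≤ C * (lam - 1) * Z.A i := by
  obtain ⟨C₁, μ₁, -, hμ₁, h1⟩ := B_calm
  refine ⟨1 + 1030 * exp 2 + 3528 * exp 3, min μ₁ (1 / 20), by linarith only [exp_pos 2, exp_pos 3],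
    by positivity, fun Z lam μ η n θ hc hμ i hi h => ?_⟩
  obtain ⟨m1, m2⟩ := le_min_iff.1 hμ
  have e0 := sub_pos.2 hc.lam1
  have e1 := hc.le_mu.trans m2
  have k0 : ∀ a ∈ Z.Off n θ i, a ∈ Z.cell i ∧ 1 / 32 ≤ |Z.η a - θ i| ∧ |Z.η a - θ i| ≤ π ∧
      exp (-(lam * (i + 1))) ≤ exp (-lam * Z.ξ a) := fun a ha => by
    obtain ⟨a1, a2, a3⟩ := Finset.mem_filter.1 ha
    have a4 : a ∈ Z.cell i := Finset.mem_filter.2 ⟨a1, a2⟩
    have a5 := hc.lift a a1
    rw [Z.ki_of_mem_cell hi.le a4] at a3 a5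
    exact ⟨a4, a3, a5, exp_le_exp.2 (by linarith only [a2, e0, a2.2, mul_pos_of_neg_of_neg (Mathlib.Tactic.Linarith.sub_neg_of_lt e0) (Mathlib.Tactic.Linarith.sub_neg_of_lt a2.right)])⟩
  have k1 := BadA_card (S := (Z.Off n θ i).filter (· ∈ Z.VV n θ)) (T := Z.cell i ∩ Z.VV n θ)
    (f := fun a => exp (-lam * Z.ξ a) * (Z.η a - θ i) ^ 2) (c := exp (-(lam * (i + 1))) * (1 / 32) ^ 2)
    (fun a ha => Finset.mem_inter.2 ((Finset.mem_filter.1 ha).imp_left fun h => (k0 a h).1))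
    (fun a _ => by positivity) fun a ha => by
      obtain ⟨-, a1, -, a2⟩ := k0 a (Finset.mem_filter.1 ha).1
      rw [← sq_abs (Z.η a - θ i)]
      gcongr
  have k2 := BadA_card (S := ((Z.Off n θ i).filter (· ∉ Z.VV n θ)).filter
      fun a => |Z.η a - θ i| ≤ π / lam - (lam - 1)) (T := Z.cell i \ Z.VV n θ)
    (f := fun a => exp (-lam * Z.ξ a) * |Sg lam (Z.η a - θ i)|)
    (c := exp (-(lam * (i + 1))) * (1 / 2 * (lam - 1))) (fun a ha => Finset.mem_sdiff.2
      ((Finset.mem_filter.1 (Finset.mem_filter.1 ha).1).imp_left fun h => (k0 a h).1))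
    (fun a _ => by positivity) fun a ha => by
      simp only [Finset.mem_filter] at ha
      obtain ⟨a0, -, a1, a2⟩ := k0 a ha.1.1
      have a3 : ¬ |Z.η a - θ i| ≤ 1 / 4 := fun h => ha.1.2 (Finset.mem_filter.2
        ⟨(Finset.mem_filter.1 a0).1, by rwa [Z.ki_of_mem_cell hi.le a0]⟩)
      refine mul_le_mul a2 (le_trans ?_ (abs_Sg_ge hc.lam1 e0.le ?_ ?_)) (by positivity) (by positivity)
      · exact mul_le_mul_of_nonneg_right
          ((le_div_iff₀ pi_pos).2 (by linarith only [pi_le_four])) e0.le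
      · rw [abs_rp_eq a1]; linarith only [e1, a3]
      · rw [abs_rp_eq a1]; exact ha.2
  have k3 := Z.BadA_ray (θ := θ i) (u := i) hc.lam1 e1 (S := ((Z.Off n θ i).filter (· ∉ Z.VV n θ)).filter
    fun a => ¬ |Z.η a - θ i| ≤ π / lam - (lam - 1)) fun a ha => by
      simp only [Finset.mem_filter] at ha
      obtain ⟨a0, -, a1, -⟩ := k0 a ha.1.1
      obtain ⟨a2, a3, a4⟩ := Finset.mem_filter.1 a0
      exact ⟨a2, a3, a4, (not_le.1 ha.2).le, a1⟩
  rw [← Finset.card_filter_add_card_filter_not (s := Z.Off n θ i) (· ∈ Z.VV n θ),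
    ← Finset.card_filter_add_card_filter_not (s := (Z.Off n θ i).filter (· ∉ Z.VV n θ))
      fun a => |Z.η a - θ i| ≤ π / lam - (lam - 1), Nat.cast_add, Nat.cast_add]
  have k4 : 0 ≤ ∫ t in (i : ℝ)..(i + 1), exp (-lam * t) * Z.rr lam t (θ i) :=
    intervalIntegral.integral_nonneg_of_ae (by linarith only [])
      (Z.ae_reg.mono fun t ht => mul_nonneg (exp_pos _).le (Z.rr_nonneg lam ht _).1)
  have k5 := (h1 Z lam μ η n θ hc m1 i hi.le).1 (i + 3) ⟨by linarith only [], le_rfl⟩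
  have k6 : exp (lam * (i + 1)) * Z.g lam i ≤ exp 2 * Z.A i := by
    rw [Z.A_eq lam, ← mul_assoc, ← exp_add]
    exact mul_le_mul_of_nonneg_right (exp_le_exp.2 (by linarith only [e1])) (hc.g_pos hi.le).le
  have k7 : 0 < Z.A i := mul_pos (hc.pos i hi.le) (exp_pos _)
  rw [exp_add, ← mul_assoc ‖_‖] at k5
  change _ ≤ 2 * (Z.A i * _) at k5
  rw [mm, qq] at h
  have k8 := le_trans (by positivity) k1
  have k9 := le_trans (by positivity) k2
  rw [exp_neg, mul_left_comm, inv_mul_le_iff₀ (exp_pos _)] at k1 k2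
  exact BadA_fin e0 e1 (exp_pos _).le k7 (Nat.cast_nonneg _) k8 k9 k4 k1 k2 k3 h k5 k6

end Cfg

end

end Pool.Agent.MinMod
end

-- merged part: Pool.Agent.Work.MP_f62247_an.BadB
section
/-!
# The exceptional set is small

`S j` is the union over `u = j-1, j, j+1` of `{x ∈ [j, j+1] : A j / C ≤ ∑_{Off u} l0}` (measurable; `cartan`).  Always `card (Off u) ≤ C μ A j`
(`card_le_W`), which gives measure `≤ C exp (-c/μ)`; if `u = i < n` and `mm i + qq i ≤ e² g i` (`e = lam - 1`), `off_card` and `slow` give `≤ C exp (-c/e)`.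
(If `Off u` is empty the set is empty.)  So for `0 ≤ i < n` the measure is `≤ C exp (-c/e) + C exp (-c/μ) (mm i + qq i) / (e² g i)`, and
`exp (-c/μ) ≤ μ^11 ≤ μ e²`; for `u = -1`, `u = n`: `exp (-c/μ) ≤ μ^5 ≤ e`.
-/

open Real MeasureTheory Set Filter Topology

namespace Pool.Agent.MinMod

noncomputable section

namespace Cfg

theorem BadB_exp {c : ℝ} (hc : 0 < c) :
    ∃ m : ℝ, 0 < m ∧ ∀ μ : ℝ, 0 < μ → μ ≤ m → exp (-c / μ) ≤ μ ^ 11 := by
  refine ⟨c ^ 12 / (Nat.factorial 12 : ℝ), by positivity, fun μ hμ h => ?_⟩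
  have h1 := Real.pow_div_factorial_le_exp (c / μ) (by positivity) 12
  have h2 : 1 / μ ^ 11 ≤ (c / μ) ^ 12 / (Nat.factorial 12 : ℝ) := by
    have e : (c / μ) ^ 12 / (Nat.factorial 12 : ℝ) = c ^ 12 / (Nat.factorial 12 : ℝ) / μ ^ 12 := by
      rw [div_pow]; ring
    rw [e, div_le_div_iff₀ (by positivity) (by positivity)]
    calc 1 * μ ^ 12 = μ * μ ^ 11 := by ring
      _ ≤ _ := by gcongr
  rw [neg_div, exp_neg, inv_le_comm₀ (exp_pos _) (by positivity), ← one_div]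
  exact h2.trans h1

/-- the exceptional set of a finite family of zeros -/
def BadB_T (A : Finset ℕ) (ξ : ℕ → ℝ) (u H : ℝ) : Set ℝ :=
  {x | x ∈ Icc u (u + 1) ∧ H ≤ ∑ a ∈ A, l0 (x - ξ a)}

theorem BadB_T_meas (A : Finset ℕ) (ξ : ℕ → ℝ) (u H : ℝ) : MeasurableSet (BadB_T A ξ u H) :=
  measurableSet_Icc.inter (measurableSet_le measurable_const
    (Finset.measurable_fun_sum _ fun _ _ => measurable_l0.comp (measurable_id.sub_const _)))

theorem BadB_vol : ∃ C : ℝ, 1 ≤ C ∧ ∀ (A : Finset ℕ) (ξ : ℕ → ℝ) (u H K : ℝ), 0 < H → 0 < K →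
    (A.card : ℝ) ≤ K * H → volume (BadB_T A ξ u H) ≤ ENNReal.ofReal (C * exp (-(1 / 2) / K)) := by
  obtain ⟨C, hC, h⟩ := cartan
  refine ⟨C, hC, fun A ξ u H K hH hK hA => ?_⟩
  rcases A.eq_empty_or_nonempty with rfl | hne
  · have : BadB_T ∅ ξ u H = ∅ := by
      ext x; simp [BadB_T, hH]
    rw [this]; simp
  · refine (h A ξ u H).trans (ENNReal.ofReal_le_ofReal ?_)
    have hp : (0 : ℝ) < A.card := by exact_mod_cast hne.card_pos
    refine mul_le_mul_of_nonneg_left (exp_le_exp.2 ?_) (by linarith only [hC])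
    rw [div_le_div_iff₀ (by positivity) hK]
    linarith only [hA]

theorem bad_set : ∃ C c μ0 : ℝ, 1 ≤ C ∧ 0 < c ∧ 0 < μ0 ∧ ∀ (Z : Cfg) (lam μ η : ℝ) (n : ℕ) (θ : ℕ → ℝ),
    Z.Calm lam μ η n θ → μ ≤ μ0 →
    ∃ (S : ℕ → Set ℝ) (β : ℕ → ℝ), (∀ j < n, MeasurableSet (S j) ∧ 0 ≤ β j ∧
        volume (S j) ≤ ENNReal.ofReal (β j) ∧
        ∀ x ∈ Icc (j : ℝ) (j + 1), Z.Reg x → x ∉ S j → Z.GoodAt (θ j) x) ∧
      ∑ j ∈ Finset.range n, β j * Z.g lam j ≤
        C * exp (-c / (lam - 1)) * ∑ j ∈ Finset.range n, Z.g lam j +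
          C * μ * ∑ j ∈ Finset.range n, (Z.mm lam n θ j + Z.qq lam n θ j) +
          C * (lam - 1) * (Z.g lam 0 + Z.g lam n) := by
  obtain ⟨C1, m1, hC1, hm1, hgood⟩ := good_of_small
  obtain ⟨C2, m2, hC2, hm2, hoff⟩ := off_card
  obtain ⟨C3, hC3, hvol⟩ := BadB_vol
  obtain ⟨m3, hm3, hslow⟩ := slow
  set c1 : ℝ := 1 / (2 * (exp 4 * C1)) with hc1
  set c2 : ℝ := 1 / (2 * (exp 2 * C2 * C1)) with hc2
  have hc1p : 0 < c1 := by positivity
  have hc2p : 0 < c2 := by positivity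
  obtain ⟨m4, hm4, hexp⟩ := BadB_exp hc1p
  refine ⟨6 * C3, c2, min (min m1 m2) (min m3 (min m4 1)), by linarith only [hC3], hc2p, by positivity, ?_⟩
  intro Z lam μ η n θ hZ hμ
  simp only [le_min_iff] at hμ
  obtain ⟨⟨hμ1, hμ2⟩, hμ3, hμ4, hμ5⟩ := hμ
  have hμ0 := hZ.mu_pos
  set e := lam - 1 with he
  have he0 : 0 < e := by linarith only [hZ, hZ.lam1]
  have hg : ∀ k ≤ n, 0 < Z.g lam k := fun k hk => hZ.g_pos hk
  have hA : ∀ k : ℕ, k ≤ n → 0 < Z.A k := fun k hk => by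
    rw [A_eq Z lam k]; exact mul_pos (exp_pos _) (hg k hk)
  have hx11 := hexp μ hμ0 hμ4
  have hx1 : exp (-c1 / μ) ≤ μ * e ^ 2 := by
    calc exp (-c1 / μ) ≤ μ ^ 11 := hx11
      _ = μ * (μ ^ 5) ^ 2 := by ring
      _ ≤ μ * e ^ 2 := by gcongr; exact hZ.mu_le
  have hx2 : exp (-c1 / μ) ≤ e :=
    hx11.trans ((pow_le_pow_of_le_one hμ0.le hμ5 (by norm_num : 5 ≤ 11)).trans hZ.mu_le)
  have hsl : ∀ i ≤ n, ∀ j ≤ n, |(i : ℝ) - j| ≤ 1 → Z.g lam i ≤ exp (1 / 100) * Z.g lam j := by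
    intro i hi j hj hij
    refine (hslow Z lam μ η n θ hZ hμ3 i hi j hj).trans ?_
    have := hg j hj
    gcongr
  have h100 : exp (1 / 100) ≤ 2 :=
    (exp_le_exp.2 (by linarith only [Real.log_two_gt_d9] : (1 / 100 : ℝ) ≤ Real.log 2)).trans_eq
      (exp_log two_pos)
  have hsl2 : ∀ i ≤ n, ∀ j ≤ n, |(i : ℝ) - j| ≤ 1 → Z.g lam i ≤ 2 * Z.g lam j := fun i hi j hj hij =>
    (hsl i hi j hj hij).trans (mul_le_mul_of_nonneg_right h100 (hg j hj).le)
  let T : ℕ → ℝ → Set ℝ := fun j u => BadB_T (Z.Off n θ u) Z.ξ j (Z.A j / C1)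
  let mq : ℕ → ℝ := fun i => Z.mm lam n θ i + Z.qq lam n θ i
  have hmq : ∀ i, 0 ≤ mq i := fun i => by
    have := mm_nonneg Z (lam := lam) (by linarith only [he0, hZ.lam1]) n θ i
    exact add_nonneg this.1 this.2.1
  set b' := C3 * exp (-c1 / μ) with hb'
  have hb'0 : 0 ≤ b' := by positivity
  have hb'e : b' ≤ C3 * e := mul_le_mul_of_nonneg_left hx2 (by linarith only [hC3])
  let b : ℕ → ℝ := fun i => C3 * exp (-c2 / e) + b' * (mq i / (e ^ 2 * Z.g lam i))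
  let r : ℕ → ℝ := fun i => C3 * exp (-c2 / e) * Z.g lam i + C3 * μ * mq i
  have hb0 : ∀ i ≤ n, 0 ≤ b i := fun i hi => by
    have := hg i hi
    have := hmq i
    simp only [b]; positivity
  have hr0 : ∀ i ≤ n, 0 ≤ r i := fun i hi => by
    have := hg i hi
    have := hmq i
    simp only [r]; positivity
  have key1 : ∀ j < n, ∀ u : ℝ, u ≤ j + 1 → volume (T j u) ≤ ENNReal.ofReal b' := by
    intro j hj u hu
    have hAj := hA j hj.le
    have h1 := Z.card_le_W j (d := 2) (by norm_num) (A := Z.Off n θ u) (Finset.filter_subset _ _)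
      (fun a ha => by linarith only [hu, ha, (Finset.mem_filter.1 ha).2.1.2])
    have h2 : ((Z.Off n θ u).card : ℝ) ≤ exp 4 * C1 * μ * (Z.A j / C1) := by
      calc ((Z.Off n θ u).card : ℝ) ≤ exp (2 * 2) * Z.W j := h1
        _ ≤ exp (2 * 2) * (μ * Z.A j) := by gcongr; exact hZ.calm j hj.le
        _ = _ := by rw [show (2 * 2 : ℝ) = 4 by norm_num]; field_simp
    refine (hvol _ _ _ _ _ (by positivity) (by positivity) h2).trans (le_of_eq ?_)
    rw [hb', hc1]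
    congr 3
    field_simp
  have key2 : ∀ j < n, ∀ i < n, |(i : ℝ) - j| ≤ 1 →
      volume (T j i) ≤ ENNReal.ofReal (b i) ∧ b i * Z.g lam j ≤ 2 * r i := by
    intro j hj i hi hij
    have hAj := hA j hj.le
    have hgi := hg i hi.le
    have hq := hmq i
    constructor
    · by_cases hs : mq i ≤ e ^ 2 * Z.g lam i
      · have h1 := hoff Z lam μ η n θ hZ hμ2 i hi hs
        have h2 : Z.A i ≤ exp 2 * Z.A j := by
          rw [A_eq Z lam i, A_eq Z lam j]
          have h3 : exp (lam * i) * exp (1 / 100) ≤ exp 2 * exp (lam * j) := by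
            rw [← exp_add, ← exp_add]
            refine exp_le_exp.2 ?_
            have := (abs_le.1 hij).2
            linarith only [this, hZ, he0, hZ.lam1, hZ.lam2, mul_nonneg_of_nonpos_of_nonpos (le_of_lt (Mathlib.Tactic.Linarith.sub_neg_of_lt he0)) (Mathlib.Tactic.Linarith.sub_nonpos_of_le this)]
          calc exp (lam * i) * Z.g lam i ≤ exp (lam * i) * (exp (1 / 100) * Z.g lam j) := by
                gcongr; exact hsl i hi.le j hj.le hij
            _ = exp (lam * i) * exp (1 / 100) * Z.g lam j := by ring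
            _ ≤ exp 2 * exp (lam * j) * Z.g lam j := by
                have := hg j hj.le
                gcongr
            _ = _ := by ring
        have h4 : ((Z.Off n θ i).card : ℝ) ≤ exp 2 * C2 * C1 * e * (Z.A j / C1) := by
          calc ((Z.Off n θ i).card : ℝ) ≤ C2 * e * Z.A i := h1
            _ ≤ C2 * e * (exp 2 * Z.A j) := by gcongr
            _ = _ := by field_simp
        refine (hvol _ _ _ _ _ (by positivity) (by positivity) h4).trans
          (ENNReal.ofReal_le_ofReal ?_)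
        have h5 : -(1 / 2) / (exp 2 * C2 * C1 * e) = -c2 / e := by rw [hc2]; field_simp
        rw [h5]
        exact le_add_of_nonneg_right (by positivity)
      · refine (key1 j hj i (by linarith only [hij, (abs_le.1 hij).2])).trans (ENNReal.ofReal_le_ofReal ?_)
        have h1 : 1 ≤ mq i / (e ^ 2 * Z.g lam i) := (one_le_div (by positivity)).2 (not_le.1 hs).le
        have h2 : b' ≤ b' * (mq i / (e ^ 2 * Z.g lam i)) := le_mul_of_one_le_right hb'0 h1
        have h3 : 0 ≤ C3 * exp (-c2 / e) := by positivity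
        simp only [b]
        linarith only [h2, h3]
    · have h1 := hsl2 j hj.le i hi.le (by rwa [abs_sub_comm])
      have h2 : b i * Z.g lam i ≤ r i := by
        have h3 : b' * (mq i / (e ^ 2 * Z.g lam i)) * Z.g lam i = b' / e ^ 2 * mq i := by
          field_simp
        have h4 : b' / e ^ 2 ≤ C3 * μ := by
          rw [div_le_iff₀ (by positivity), hb', mul_assoc]
          exact mul_le_mul_of_nonneg_left hx1 (by linarith only [hC3])
        have h5 : b' / e ^ 2 * mq i ≤ C3 * μ * mq i := mul_le_mul_of_nonneg_right h4 hq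
        simp only [b, r]
        rw [add_mul, h3]
        linarith only [h5]
      calc b i * Z.g lam j ≤ b i * (2 * Z.g lam i) := mul_le_mul_of_nonneg_left h1 (hb0 i hi.le)
        _ = 2 * (b i * Z.g lam i) := by ring
        _ ≤ 2 * r i := by linarith only [h2]
  let β1 : ℕ → ℝ := fun j => if j = 0 then b' else b (j - 1)
  let β3 : ℕ → ℝ := fun j => if j + 1 < n then b (j + 1) else b'
  let Q : ℕ → ℝ := fun j => if j = 0 then C3 * e * Z.g lam 0 else 2 * r (j - 1)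
  let R : ℕ → ℝ := fun j => if j < n then 2 * r j else 2 * (C3 * e * Z.g lam n)
  have k1 : ∀ j < n, 0 ≤ β1 j ∧ volume (T j (j - 1)) ≤ ENNReal.ofReal (β1 j) ∧
      β1 j * Z.g lam j ≤ Q j := by
    intro j hj
    rcases j with _ | j
    · simp only [β1, Q, if_true]
      exact ⟨hb'0, key1 0 hj _ (by linarith only []),
        mul_le_mul_of_nonneg_right hb'e (hg 0 (Nat.zero_le n)).le⟩
    · have h1 := key2 (j + 1) hj j (by omega) (by push_cast; rw [abs_le]; constructor <;> linarith only [])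
      have h2 : ((j + 1 : ℕ) : ℝ) - 1 = j := by push_cast; ring
      simp only [β1, Q, Nat.add_one_ne_zero, if_false, Nat.add_sub_cancel, h2]
      exact ⟨hb0 j (by omega), h1.1, h1.2⟩
  have k3 : ∀ j < n, 0 ≤ β3 j ∧ volume (T j (j + 1)) ≤ ENNReal.ofReal (β3 j) ∧
      β3 j * Z.g lam j ≤ R (j + 1) := by
    intro j hj
    by_cases h : j + 1 < n
    · have h1 := key2 j hj (j + 1) h (by push_cast; rw [abs_le]; constructor <;> linarith only [])
      simp only [β3, R, h, if_true]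
      push_cast at h1
      exact ⟨hb0 _ h.le, h1.1, h1.2⟩
    · simp only [β3, R, h, if_false]
      refine ⟨hb'0, key1 j hj _ le_rfl, ?_⟩
      have h2 : n = j + 1 := by omega
      have h3 := hsl2 j hj.le n le_rfl (by rw [h2]; push_cast; rw [abs_le]; constructor <;> linarith only [])
      have h4 := hg j hj.le
      calc b' * Z.g lam j ≤ C3 * e * (2 * Z.g lam n) := by gcongr
        _ = _ := by ring
  have k2 : ∀ j < n, volume (T j j) ≤ ENNReal.ofReal (b j) ∧ b j * Z.g lam j ≤ 2 * r j :=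
    fun j hj => key2 j hj j hj (by simp)
  refine ⟨fun j => T j (j - 1) ∪ T j j ∪ T j (j + 1), fun j => β1 j + b j + β3 j, fun j hj => ?_, ?_⟩
  · have h1 := k1 j hj
    have h2 := k2 j hj
    have h3 := k3 j hj
    have h4 := hb0 j hj.le
    refine ⟨((BadB_T_meas _ _ _ _).union (BadB_T_meas _ _ _ _)).union (BadB_T_meas _ _ _ _),
      by linarith only [h1, h3, h4, h1.1, h3.1], ?_, fun x hx hreg hn => ?_⟩
    · rw [ENNReal.ofReal_add (add_nonneg h1.1 h4) h3.1, ENNReal.ofReal_add h1.1 h4]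
      exact (measure_union_le _ _).trans
        (add_le_add ((measure_union_le _ _).trans (add_le_add h1.2.1 h2.1)) h3.2.1)
    · refine hgood Z lam μ η n θ hZ hμ1 j hj x hx hreg fun u hu => ?_
      by_contra hlt
      have hmem : x ∈ T j u := ⟨hx, (not_le.1 hlt).le⟩
      rcases hu with rfl | rfl | rfl
      · exact hn (Or.inl (Or.inl hmem))
      · exact hn (Or.inl (Or.inr hmem))
      · exact hn (Or.inr hmem)
  · have hg0 := hg 0 (Nat.zero_le n)
    have hgn := hg n le_rfl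
    have s0 : ∑ j ∈ Finset.range n, (β1 j + b j + β3 j) * Z.g lam j ≤
        ∑ j ∈ Finset.range n, (Q j + 2 * r j + R (j + 1)) := by
      refine Finset.sum_le_sum fun j hj => ?_
      have hj' := Finset.mem_range.1 hj
      rw [add_mul, add_mul]
      linarith only [k1, hj', k2, k3, (k1 j hj').2.2, (k2 j hj').2, (k3 j hj').2.2]
    have s1 : ∑ j ∈ Finset.range n, Q j ≤ ∑ j ∈ Finset.range n, 2 * r j + C3 * e * Z.g lam 0 := by
      have h1 := Finset.sum_range_succ Q n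
      have h2 := Finset.sum_range_succ' Q n
      have h3 : 0 ≤ Q n := by
        simp only [Q]
        split_ifs
        · positivity
        · linarith only [hr0, hr0 (n - 1) (Nat.sub_le n 1)]
      simp only [Q, Nat.add_one_ne_zero, if_false, if_true, Nat.add_sub_cancel] at h1 h2 h3 ⊢
      linarith only [h3, h1, h2]
    have s3 : ∑ j ∈ Finset.range n, R (j + 1) ≤
        ∑ j ∈ Finset.range n, 2 * r j + 2 * (C3 * e * Z.g lam n) := by
      have h1 := Finset.sum_range_succ R n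
      have h2 := Finset.sum_range_succ' R n
      have h3 : 0 ≤ R 0 := by
        simp only [R]
        split_ifs
        · linarith only [hr0, hr0 0 (Nat.zero_le n)]
        · positivity
      have h4 : ∑ j ∈ Finset.range n, R j = ∑ j ∈ Finset.range n, 2 * r j :=
        Finset.sum_congr rfl fun j hj => if_pos (Finset.mem_range.1 hj)
      have h5 : R n = 2 * (C3 * e * Z.g lam n) := if_neg (lt_irrefl n)
      linarith only [h1, h2, h3, h4, h5]
    have s4 : ∑ j ∈ Finset.range n, 2 * r j =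
        2 * (C3 * exp (-c2 / e) * ∑ j ∈ Finset.range n, Z.g lam j +
          C3 * μ * ∑ j ∈ Finset.range n, mq j) := by
      rw [← Finset.mul_sum, Finset.sum_add_distrib, ← Finset.mul_sum, ← Finset.mul_sum]
    rw [Finset.sum_add_distrib, Finset.sum_add_distrib] at s0
    have s5 : 0 ≤ C3 * e * Z.g lam 0 := by positivity
    have s6 : 0 ≤ C3 * e * Z.g lam n := by positivity
    show ∑ j ∈ Finset.range n, (β1 j + b j + β3 j) * Z.g lam j ≤
      6 * C3 * exp (-c2 / e) * ∑ j ∈ Finset.range n, Z.g lam j +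
        6 * C3 * μ * ∑ j ∈ Finset.range n, mq j + 6 * C3 * e * (Z.g lam 0 + Z.g lam n)
    linarith only [s0, s1, s3, s4, s5, s6]

end Cfg

end

end Pool.Agent.MinMod
end
end
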