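import Pool.Agent.Work.MP_f62247_an.SL

-- merged part: Pool.Agent.Work.MP_f62247_an.SeqA
section
/-!
# The iteration, part one (real sequences only)

`SeqH` collects what is known on `l j = L (a+j)`, `c j = ‖cc (a+j)‖`.
* `gronwall`: induction, `1 + r ∑_{k<n} (1+r)^k = (1+r)^n`.
* `short_step` (`m = l j / c j = v⁴`, `μ = v²`, `e' = v⁸`, `n* = ⌈v⁻⁹⌉`).  While `l ≤ μ c` on `[j, j+n']`, `n' ≤ n*`: `c (j+k) ≤ c j exp (C μ n*)`, the term
  `C exp (-c0/v⁸) n* exp (C v² n*) c j` is `≤ v⁸ c j`, and `C v⁸ c j = C v⁴ l j ≤ l j / (4C)`; so `M` gives `l (j+n') + e' c (j+n') ≥ l j exp (e' n') / (2C²)`.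
  If `l > μ c` somewhere in `(j, j+n*]`: first alternative.  Otherwise at `j' = j + n*`, `exp (e' n*) ≥ exp (1/v)`: if `l j' ≥ e' c j'` then `l j' ≥ l j exp (1/v) / (4C²)`;
  if not, `c j' ≥ l j exp (1/v) / (4 C² e') ≥ 2 c j`, so `c j' / 2 ≤ c j' - c j ≤ C n* l j'` (`step`, `mono`).
* `first_step`: `G k = c k exp (-μ⁴ k) ≥ b exp (-κ' k)/(2C)`; `M` at `j = 0` gives `(η/2C) ∑_{k<m} G k ≤ 2Cμ G m + 2C²μ⁴ b`.  Choose `n1` with `η n1 / (4 C² e) ≥ 4 C² μ⁴` and `κ' = 1/(n1+1)`;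
  for `m ≥ n1` use `gronwall` for `k ↦ G (n1 + k)`, for `m < n1` the lower bound of `G m`.
* `long_step`: `M` with `μ`, `l j / C - C μ⁴ c j ≥ l j / (2C)`, left side `≤ 2 C μ c (j+n) exp (-μ⁴ n)`, `gronwall`.
-/

open Real MeasureTheory Set Filter Topology

namespace Pool.Agent.MinMod

noncomputable section

/-- hypotheses on the sequences -/
structure SeqH (C c0 μ0 η : ℝ) (N : ℕ) (l c : ℕ → ℝ) : Prop where
  l_nonneg : ∀ j, 0 ≤ l j
  c_nonneg : ∀ j, 0 ≤ c j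
  mono : ∀ i j, i ≤ j → j ≤ N → l i ≤ l j
  step : ∀ j, |c (j + 1) - c j| ≤ C * l j
  M : ∀ μ : ℝ, 0 < μ → μ ≤ μ0 → ∀ j n : ℕ, j + n ≤ N → 0 < c j →
    (∀ k ≤ n, l (j + k) ≤ μ * c (j + k)) →
    l j / C + (η / C - C * exp (-c0 / (μ ^ 4) ^ 2)) *
        ∑ k ∈ Finset.range n, c (j + k) * exp (-μ ^ 4 * k) ≤
      C * ((l (j + n) + μ ^ 4 * c (j + n)) * exp (-μ ^ 4 * n)) + C * μ ^ 4 * c j

theorem gronwall {a r : ℝ} (hr : 0 ≤ r) {g : ℕ → ℝ} {n : ℕ}
    (h : ∀ m ≤ n, a + r * ∑ k ∈ Finset.range m, g k ≤ g m) : ∀ m ≤ n, a * (1 + r) ^ m ≤ g m := by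
  have key : ∀ m ≤ n, a * (1 + r) ^ m ≤ a + r * ∑ k ∈ Finset.range m, g k := fun m hm => by
    induction m with
    | zero => simp
    | succ m ih =>
      have h1 := ih (by omega)
      have h2 := mul_le_mul_of_nonneg_left (h1.trans (h m (by omega))) hr
      rw [Finset.sum_range_succ, pow_succ]
      linarith only [h1, h2]
  exact fun m hm => (key m hm).trans (h m hm)

theorem SeqA_small1 {C c0 v : ℝ} (hC : 1 ≤ C) (hc : 0 < c0) (hv : 0 < v) (v1 : v ≤ 1)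
    (v4 : v * (4 * C) ≤ c0) (v5 : v * (64 * C ^ 2) ≤ c0 ^ 2) :
    C * exp (-c0 / ((v ^ 2) ^ 4) ^ 2) * (2 / v ^ 9 * exp (2 * C / v ^ 7)) ≤ v ^ 4 / (4 * C) := by
  have h0 : exp (-c0 / ((v ^ 2) ^ 4) ^ 2) ≤ exp (-c0 / (v ^ 2) ^ 4) := by
    rw [neg_div, neg_div, exp_le_exp, neg_le_neg_iff]
    exact div_le_div_of_nonneg_left hc.le (by positivity) (pow_le_of_le_one (by positivity)
      (pow_le_one₀ (by positivity) (pow_le_one₀ hv.le v1)) two_ne_zero)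
  refine (mul_le_mul_of_nonneg_right (mul_le_mul_of_nonneg_left h0 (by linarith))
    (by positivity)).trans ?_
  have h1 : -c0 / (v ^ 2) ^ 4 + 2 * C / v ^ 7 ≤ -(c0 / (2 * v ^ 8)) := by
    rw [show -c0 / (v ^ 2) ^ 4 + 2 * C / v ^ 7 = (v * (4 * C) - 2 * c0) / (2 * v ^ 8) by
      field_simp; ring, ← neg_div]
    exact div_le_div_of_nonneg_right (by linarith only [v4]) (by positivity)
  have h2 := Real.pow_div_factorial_le_exp (c0 / (2 * v ^ 8)) (by positivity) 2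
  have h3 := (exp_le_exp.2 h1).trans ((exp_neg _).trans_le (inv_anti₀ (by positivity) h2))
  rw [exp_add] at h3
  have h4 := mul_le_mul_of_nonneg_left h3 (by positivity : 0 ≤ C * (2 / v ^ 9))
  refine le_trans (le_of_eq (by ring)) (h4.trans ?_)
  rw [show C * (2 / v ^ 9) * ((c0 / (2 * v ^ 8)) ^ 2 / (Nat.factorial 2 : ℕ))⁻¹ =
    16 * C * v ^ 7 / c0 ^ 2 by norm_num [Nat.factorial]; field_simp; norm_num,
    div_le_div_iff₀ (by positivity) (by positivity)]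
  have h5 := mul_le_mul_of_nonneg_left v5 (by positivity : 0 ≤ v ^ 4)
  have h6 := mul_le_mul_of_nonneg_right (pow_le_pow_of_le_one hv.le v1 (by norm_num : 5 ≤ 7))
    (by positivity : 0 ≤ C ^ 2)
  linarith only [h5, h6]

theorem SeqA_M {C c0 μ0 : ℝ} (hC : 1 ≤ C) {η μ : ℝ} {N j n : ℕ} {l c : ℕ → ℝ}
    (H : SeqH C c0 μ0 η N l c) (hμ : 0 < μ) (hμ0 : μ ≤ μ0) (hμ1 : μ ≤ 1)
    (hη : 2 * C ^ 2 * exp (-c0 / (μ ^ 4) ^ 2) ≤ η) (hj : j + n ≤ N) (hc : 0 < c j)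
    (hcalm : ∀ k ≤ n, l (j + k) ≤ μ * c (j + k)) :
    l j / C + η / (2 * C) * ∑ k ∈ Finset.range n, c (j + k) * exp (-μ ^ 4 * k) ≤
      2 * C * μ * (c (j + n) * exp (-μ ^ 4 * n)) + C * μ ^ 4 * c j := by
  have h1 := H.M μ hμ hμ0 j n hj hc hcalm
  have h2 : η / (2 * C) ≤ η / C - C * exp (-c0 / (μ ^ 4) ^ 2) := by
    rw [show η / C = η / (2 * C) + η / (2 * C) by field_simp; norm_num, add_sub_assoc,
      le_add_iff_nonneg_right, sub_nonneg, le_div_iff₀ (by positivity)]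
    linarith only [hη]
  have h3 := mul_le_mul_of_nonneg_right h2 (Finset.sum_nonneg (s := Finset.range n)
    fun k _ => mul_nonneg (H.c_nonneg (j + k)) (exp_pos (-μ ^ 4 * k)).le)
  have h4 := mul_le_mul_of_nonneg_right (pow_le_of_le_one hμ.le hμ1 four_ne_zero)
    (H.c_nonneg (j + n))
  have h5 := mul_le_mul_of_nonneg_right (add_le_add (hcalm n le_rfl) h4)
    (by positivity : 0 ≤ C * exp (-μ ^ 4 * n))
  linarith only [h1, h3, h5]

theorem short_step {C c0 μ0 : ℝ} (hC : 1 ≤ C) (hc : 0 < c0) (hμ : 0 < μ0) :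
    ∃ v0 : ℝ, 0 < v0 ∧ v0 ≤ 1 ∧ ∀ (η v : ℝ) (N j : ℕ) (l c : ℕ → ℝ), SeqH C c0 μ0 η N l c → 0 ≤ η →
      0 < v → v ≤ v0 → 0 < c j → l j = v ^ 4 * c j → j + ⌈1 / v ^ 9⌉₊ ≤ N →
      ∃ j', j < j' ∧ j' ≤ j + ⌈1 / v ^ 9⌉₊ ∧
        (v ^ 2 * c j' < l j' ∨ (v ^ 10 * c j' ≤ l j' ∧ l j ≤ v ^ 6 * l j')) := by
  refine ⟨min (min 1 μ0) (min (1 / (645120 * C ^ 3)) (min (c0 / (4 * C)) (c0 ^ 2 / (64 * C ^ 2)))),
    by positivity, (min_le_left _ _).trans (min_le_left _ _), ?_⟩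
  intro η v N j l c H hη hv hv0 hcj hl hN
  simp only [le_min_iff] at hv0
  obtain ⟨⟨v1, v2⟩, v3, v4, v5⟩ := hv0
  rw [le_div_iff₀ (by positivity)] at v3 v4 v5
  have s1 := SeqA_small1 hC hc hv v1 v4 v5
  have s2 : 16 * C ^ 3 ≤ v ^ 7 * exp (1 / v) := by
    have h1 := Real.pow_div_factorial_le_exp (1 / v) (by positivity) 8
    refine le_trans ?_ (mul_le_mul_of_nonneg_left h1 (by positivity))
    rw [show v ^ 7 * ((1 / v) ^ 8 / (Nat.factorial 8 : ℕ)) = 1 / (40320 * v) by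
      norm_num [Nat.factorial]; field_simp, le_div_iff₀ (by positivity)]
    linarith only [v3]
  have c2 : C ≤ C ^ 2 := le_self_pow₀ hC two_ne_zero
  have c3 : C ^ 2 ≤ C ^ 3 := pow_le_pow_right₀ hC (by norm_num)
  have p : ∀ {a b : ℕ}, a ≤ b → v ^ b ≤ v ^ a := fun h => pow_le_pow_of_le_one hv.le v1 h
  have n1 : 1 / v ^ 9 ≤ (⌈1 / v ^ 9⌉₊ : ℝ) := Nat.le_ceil _
  have n0 : 1 ≤ 1 / v ^ 9 := one_le_one_div (by positivity) (pow_le_one₀ hv.le v1)
  have n2 : (⌈1 / v ^ 9⌉₊ : ℝ) ≤ 2 / v ^ 9 := by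
    have := Nat.ceil_lt_add_one (a := 1 / v ^ 9) (by positivity)
    rw [show 2 / v ^ 9 = 1 / v ^ 9 + 1 / v ^ 9 by ring]
    linarith only [n0, this]
  generalize ⌈1 / v ^ 9⌉₊ = n at *
  have n3 : 0 < n := by exact_mod_cast (by linarith only [n0, n1] : (0 : ℝ) < n)
  by_cases hA : ∃ k, 0 < k ∧ k ≤ n ∧ v ^ 2 * c (j + k) < l (j + k)
  · obtain ⟨k, k1, k2, k3⟩ := hA
    exact ⟨j + k, by omega, by omega, Or.inl k3⟩
  have calm : ∀ k ≤ n, l (j + k) ≤ v ^ 2 * c (j + k) := fun k hk => by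
    rcases Nat.eq_zero_or_pos k with rfl | k0
    · rw [add_zero, hl]
      exact mul_le_mul_of_nonneg_right (p (by norm_num)) hcj.le
    · exact not_lt.1 fun h => hA ⟨k, k0, hk, h⟩
  have g1 : ∀ k ≤ n, c (j + k) ≤ c j * exp (C * v ^ 2 * k) := fun k hk => by
    induction k with
    | zero => simp
    | succ k ih =>
      have h1 := (abs_le.1 (H.step (j + k))).2
      have h2 := mul_le_mul_of_nonneg_left (calm k (by omega)) (by positivity : 0 ≤ C)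
      have h3 := mul_le_mul (ih (by omega)) (add_one_le_exp (C * v ^ 2)) (by positivity)
        (by positivity)
      rw [Nat.cast_add_one, mul_add_one (C * v ^ 2), exp_add, ← mul_assoc, ← add_assoc]
      linarith only [h1, h2, h3]
  have g2 : ∑ k ∈ Finset.range n, c (j + k) * exp (-(v ^ 2) ^ 4 * k) ≤
      2 / v ^ 9 * (c j * exp (2 * C / v ^ 7)) := by
    clear * - n c j v C c0 μ0 η N l H hv g1 n2 hC hcj
    refine le_trans ?_ (mul_le_mul_of_nonneg_right n2 (by positivity))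
    refine (Finset.sum_le_card_nsmul _ _ (c j * exp (2 * C / v ^ 7)) fun k hk => ?_).trans_eq
      (by rw [Finset.card_range, nsmul_eq_mul])
    rw [Finset.mem_range] at hk
    refine (mul_le_of_le_one_right (H.c_nonneg _) (exp_le_one_iff.2 (by
      rw [neg_mul, neg_nonpos]; positivity))).trans ((g1 k hk.le).trans ?_)
    refine mul_le_mul_of_nonneg_left (exp_le_exp.2 ?_) hcj.le
    refine (mul_le_mul_of_nonneg_left (le_trans (by exact_mod_cast hk.le) n2)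
      (by positivity)).trans_eq ?_
    field_simp
  have g3 : ∀ k ≤ n, c (j + k) - c j ≤ C * k * l (j + n) := fun k hk => by
    induction k with
    | zero => simp
    | succ k ih =>
      have h1 := (abs_le.1 (H.step (j + k))).2
      have h2 := mul_le_mul_of_nonneg_left (H.mono (j + k) (j + n) (by omega) hN)
        (by positivity : 0 ≤ C)
      have h3 := ih (by omega)
      rw [Nat.cast_add_one, ← add_assoc]
      linarith only [h1, h2, h3]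
  have g4 := (g3 n le_rfl).trans (mul_le_mul_of_nonneg_right
    (mul_le_mul_of_nonneg_left n2 (by positivity)) (H.l_nonneg _))
  have m1 := H.M (v ^ 2) (by positivity) (((p one_le_two).trans_eq (pow_one v)).trans v2) j n hN
    hcj calm
  have m2 : 0 ≤ ∑ k ∈ Finset.range n, c (j + k) * exp (-(v ^ 2) ^ 4 * k) :=
    Finset.sum_nonneg fun k _ => mul_nonneg (H.c_nonneg _) (exp_pos _).le
  have m3 : exp (-(v ^ 2) ^ 4 * n) ≤ (exp (1 / v))⁻¹ := by
    rw [← exp_neg, exp_le_exp, neg_mul, neg_le_neg_iff]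
    refine le_trans (le_of_eq ?_) (mul_le_mul_of_nonneg_left n1 (by positivity))
    field_simp
  refine ⟨j + n, by omega, le_rfl, Or.inr ?_⟩
  have hL := H.l_nonneg (j + n)
  have hK := H.c_nonneg (j + n)
  have hE := exp_pos (1 / v)
  generalize ∑ k ∈ Finset.range n, c (j + k) * exp (-(v ^ 2) ^ 4 * k) = S at *
  rw [hl] at m1 ⊢
  generalize l (j + n) = L at *
  generalize c (j + n) = K at *
  generalize c j = x at *
  have m4 : v ^ 4 * x * exp (1 / v) ≤ 2 * C ^ 2 * (L + v ^ 8 * K) := by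
    clear * - C c0 v S x g2 hC s1 hcj v3 p hv c3 L K n m3 hL hK η hη m2 m1 hE
    have h1 := mul_le_mul_of_nonneg_left g2 (by positivity : 0 ≤ C * exp (-c0 / ((v ^ 2) ^ 4) ^ 2))
    have h2 := mul_le_mul_of_nonneg_right s1 hcj.le
    have h3 : C * (v ^ 2) ^ 4 ≤ v ^ 4 / (4 * C) := by
      clear * - C v hC v3 p hv c3
      rw [le_div_iff₀ (by positivity)]
      have := mul_le_mul_of_nonneg_left (show 4 * C ^ 2 * v ^ 4 ≤ 1 by
        nlinarith [(p (by norm_num : 1 ≤ 4)).trans_eq (pow_one v)]) (by positivity : 0 ≤ v ^ 4)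
      linarith
    have h4 := mul_le_mul_of_nonneg_right h3 hcj.le
    have h5 := mul_le_mul_of_nonneg_left m3 (by positivity : 0 ≤ C * (L + (v ^ 2) ^ 4 * K))
    have h6 : 0 ≤ η / C * S := by positivity
    have h7 : v ^ 4 * x / (2 * C) ≤ C * (L + (v ^ 2) ^ 4 * K) * (exp (1 / v))⁻¹ := by
      clear * - v x C hC hcj hv L K η c0 S n m1 h1 h2 h4 h5 h6
      have : v ^ 4 * x / C = v ^ 4 * x / (2 * C) + 2 * (v ^ 4 / (4 * C) * x) := by
        field_simp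
        ring
      linarith only [m1, h1, h2, h4, h5, h6, this]
    rw [← div_eq_mul_inv, div_le_div_iff₀ (by positivity) hE] at h7
    linarith only [h7]
  have m5 := mul_le_mul_of_nonneg_left s2 (by positivity : 0 ≤ v ^ 4 * x)
  generalize exp (1 / v) = E at *
  have hC0 : 0 < C := by positivity
  rcases le_total (v ^ 8 * K) L with h | h
  · refine ⟨(mul_le_mul_of_nonneg_right (p (by norm_num)) hK).trans h,
      le_of_mul_le_mul_left ?_ (by positivity : 0 < 16 * C ^ 3)⟩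
    have h1 := mul_le_mul_of_nonneg_left m4 (by positivity : 0 ≤ v ^ 7)
    have h2 := mul_le_mul_of_nonneg_left h (by positivity : 0 ≤ v ^ 7 * (2 * C ^ 2))
    have h3 := mul_le_mul_of_nonneg_right (mul_le_mul (p (by norm_num : 6 ≤ 7)) c3 (by positivity)
      (by positivity)) hL
    have h4 : 0 ≤ C ^ 3 * (v ^ 6 * L) := by clear * - C v L hC hv hL; positivity
    linarith only [m5, h1, h2, h3, h4]
  · have h1 := mul_le_mul_of_nonneg_left m4 (by positivity : 0 ≤ v ^ 7)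
    have h2 := mul_le_mul_of_nonneg_left h (by positivity : 0 ≤ v ^ 7 * (2 * C ^ 2))
    have h3 : 2 * x ≤ K := by
      clear * - C v x K p hC hK c3 hv hcj E L m5 h1 h2
      refine le_of_mul_le_mul_left ?_ (by positivity : 0 < 4 * C ^ 2 * v ^ 4)
      have h4 := mul_le_mul_of_nonneg_right (p (by norm_num : 4 ≤ 15))
        (by positivity : 0 ≤ C ^ 2 * K)
      have h5 := mul_le_mul_of_nonneg_right c3 (by positivity : 0 ≤ v ^ 4 * x)
      have h6 : 0 ≤ C ^ 3 * (v ^ 4 * x) := by positivity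
      linarith only [m5, h1, h2, h4, h5, h6]
    have h4 : v ^ 9 * K ≤ 4 * C * L := by
      clear * - v K C L x g4 h3 hv hC
      have h5 := mul_le_mul_of_nonneg_left (show K / 2 ≤ C * (2 / v ^ 9) * L by linarith only [g4, h3])
        (by positivity : 0 ≤ 2 * v ^ 9)
      rw [show 2 * v ^ 9 * (C * (2 / v ^ 9) * L) = 4 * C * L by field_simp; ring] at h5
      linarith only [h5]
    refine ⟨?_, le_of_mul_le_mul_left ?_ (by positivity : 0 < 16 * C ^ 3)⟩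
    · have h5 := mul_le_mul_of_nonneg_left h4 hv.le
      have h6 := mul_le_mul_of_nonneg_right (show 4 * C * v ≤ 1 by (refine le_of_not_gt fun h_nl => ?_; linarith only [h_nl, hC, v3, c2, mul_nonneg_of_nonpos_of_nonpos (Mathlib.Tactic.Linarith.sub_nonpos_of_le (sq_nonneg C)) (le_of_lt (Mathlib.Tactic.Linarith.sub_neg_of_lt h_nl))])) hL
      linarith only [h5, h6]
    · have h5 := mul_le_mul_of_nonneg_left h4 (by positivity : 0 ≤ 4 * C ^ 2 * v ^ 6)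
      linarith only [m5, h1, h2, h5]

theorem long_step {C c0 μ0 : ℝ} (hC : 1 ≤ C) {η μ : ℝ} {N j n : ℕ} {l c : ℕ → ℝ}
    (H : SeqH C c0 μ0 η N l c) (hμ : 0 < μ) (hμ0 : μ ≤ μ0) (hμ1 : μ ≤ 1)
    (hη : 2 * C ^ 2 * exp (-c0 / (μ ^ 4) ^ 2) ≤ η) (hj : j + n ≤ N) (hc : 0 < c j)
    (hl : 2 * C ^ 2 * μ ^ 4 * c j ≤ l j) (hcalm : ∀ k ≤ n, l (j + k) ≤ μ * c (j + k)) :
    l j / (4 * C ^ 2 * μ) * (1 + η / (4 * C ^ 2 * μ)) ^ n ≤ c (j + n) * exp (-μ ^ 4 * n) := by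
  have h0 : 0 < η := lt_of_lt_of_le (by positivity) hη
  refine gronwall (g := fun k => c (j + k) * exp (-μ ^ 4 * k)) (by positivity) (fun m hm => ?_) n
    le_rfl
  have h1 := SeqA_M hC H hμ hμ0 hμ1 hη (j := j) (n := m) (by omega) hc
    fun k hk => hcalm k (hk.trans hm)
  have h2 : C * μ ^ 4 * c j ≤ l j / (2 * C) := by
    rw [le_div_iff₀ (by positivity)]
    linarith only [hl]
  have h3 : l j / C = 2 * (l j / (2 * C)) := by field_simp
  refine le_of_mul_le_mul_left ?_ (by positivity : 0 < 2 * C * μ)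
  rw [mul_add, ← mul_assoc, show 2 * C * μ * (l j / (4 * C ^ 2 * μ)) = l j / (2 * C) by
    field_simp; ring, show 2 * C * μ * (η / (4 * C ^ 2 * μ)) = η / (2 * C) by
    field_simp; norm_num]
  linarith only [h1, h2, h3]

theorem first_step {C c0 μ0 : ℝ} (hC : 1 ≤ C) {η μ : ℝ} (hμ : 0 < μ) (hμ0 : μ ≤ μ0) (hμ1 : μ ≤ 1)
    (hη : 2 * C ^ 2 * exp (-c0 / (μ ^ 4) ^ 2) ≤ η) : ∃ κ' A : ℝ, 0 < κ' ∧ 0 < A ∧
      ∀ (N n : ℕ) (l c : ℕ → ℝ) (b : ℝ), SeqH C c0 μ0 η N l c → n ≤ N → 0 < b → c 0 ≤ 2 * C * b →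
        (∀ k ≤ n, l k ≤ μ * c k ∧ b * exp ((μ ^ 4 - κ') * k) ≤ 2 * C * c k) →
        A * b * (1 + η / (4 * C ^ 2 * μ)) ^ n ≤ c n * exp (-μ ^ 4 * n) := by
  have h0 : 0 < η := lt_of_lt_of_le (by positivity) hη
  obtain ⟨r, hr, er⟩ : ∃ r, 0 < r ∧ η / (4 * C ^ 2 * μ) = r := ⟨_, by positivity, rfl⟩
  obtain ⟨d, hd, ed⟩ : ∃ d, 0 < d ∧ exp (-1) / (2 * C) = d := ⟨_, by positivity, rfl⟩
  have hd1 : d ≤ 1 := ed ▸ (div_le_one (by positivity)).2
    ((exp_le_one_iff.2 (by norm_num)).trans (by linarith only [hC]))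
  obtain ⟨n1, hn1⟩ := exists_nat_ge ((C * μ ^ 3 + 1) / (r * d))
  rw [div_le_iff₀ (by positivity)] at hn1
  refine ⟨1 / (n1 + 1), d / (1 + r) ^ n1, by positivity, by positivity,
    fun N n l c b H hn hb hc h => ?_⟩
  have g1 : ∀ k ≤ n, k ≤ n1 → d * b ≤ c k * exp (-μ ^ 4 * k) := fun k hk hk' => by
    clear * - b μ n1 k C c l h hk hk' d ed hC hb
    have h1 := mul_le_mul_of_nonneg_right (h k hk).2 (exp_pos (-μ ^ 4 * k)).le
    have h2 : exp (-1) ≤ exp ((μ ^ 4 - 1 / (n1 + 1)) * k + -μ ^ 4 * k) := by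
      have : 1 / ((n1 : ℝ) + 1) * k ≤ 1 := by
        rw [one_div_mul_eq_div, div_le_one (by positivity)]
        exact_mod_cast Nat.le_succ_of_le hk'
      exact exp_le_exp.2 (by linarith only [this])
    rw [mul_assoc, ← exp_add] at h1
    rw [← ed, div_mul_eq_mul_div, div_le_iff₀ (by positivity)]
    linarith only [h1, h2, hb, mul_le_mul_of_nonneg_left h2 hb.le]
  rw [er, div_mul_eq_mul_div, div_mul_eq_mul_div, div_le_iff₀ (by positivity)]
  rcases le_total n n1 with e | e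
  · exact mul_le_mul (g1 n le_rfl e) (pow_le_pow_right₀ (by linarith only [hr]) e) (by positivity)
      (mul_nonneg (H.c_nonneg _) (exp_pos _).le)
  obtain ⟨i, rfl⟩ := Nat.exists_eq_add_of_le e
  have c0 : 0 < c 0 := by
    have := (g1 0 (Nat.zero_le _) (Nat.zero_le _)).trans_lt' (mul_pos hd hb)
    simpa using this
  have g2 := gronwall (a := b) (g := fun k => c (n1 + k) * exp (-μ ^ 4 * (n1 + k : ℕ))) hr.le
    (n := i) (fun m hm => ?_) i le_rfl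
  · rw [pow_add, mul_comm (_ ^ n1), ← mul_assoc]
    refine mul_le_mul_of_nonneg_right (le_trans ?_ g2) (by positivity)
    rw [mul_assoc]
    exact mul_le_of_le_one_left (by positivity) hd1
  have h1 := SeqA_M hC H hμ hμ0 hμ1 hη (j := 0) (n := n1 + m) (by omega) c0
    fun k hk => by rw [zero_add]; exact (h k (by omega)).1
  simp only [zero_add] at h1
  rw [Finset.sum_range_add] at h1
  have h2 := Finset.card_nsmul_le_sum (Finset.range n1) (fun k => c k * exp (-μ ^ 4 * k)) (d * b)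
    fun k hk => g1 k (by have := Finset.mem_range.1 hk; omega) (Finset.mem_range.1 hk).le
  rw [Finset.card_range, nsmul_eq_mul] at h2
  have h3 : η / (2 * C) = 2 * C * μ * r := by
    rw [← er]
    field_simp
    norm_num
  have h4 := div_nonneg (H.l_nonneg 0) (by positivity : 0 ≤ C)
  have h5 := mul_le_mul_of_nonneg_left hc (by positivity : 0 ≤ C * μ ^ 4)
  have h6 := mul_le_mul_of_nonneg_left h2 (by positivity : 0 ≤ 2 * C * μ * r)
  have h7 := mul_le_mul_of_nonneg_left hn1 (by positivity : 0 ≤ 2 * C * μ * b)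
  rw [h3] at h1
  refine le_of_mul_le_mul_left ?_ (by positivity : 0 < 2 * C * μ)
  linarith only [h1, h4, h5, h6, h7]

end

end Pool.Agent.MinMod
end

-- merged part: Pool.Agent.Work.MP_f62247_an.SeqB
section
/-!
# The iteration, part two (real sequences only)

`e = w^24`, `μ = w^6`, floor `φ = w^21`, `c' = c0 / 2`, `κ = min e (log (1 + η/(4C²μ)))`.  Fix `δ = (min v0 (1/2))⁴` (`short_step`), `T = Tf (δ/2)`, `c1 = cf (δ/2)`,
`δ2 = 1 / (2/δ + C T)`, `0 < β ≤ 1/2` with `β log (δ/δ2) ≤ log (1 + c1) / 2`.  For `l j > 0` put `m j = l j / max (c j) (l j / δ)` (`= min (l/c) δ`),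
`Φ j = log (l j) - (e + κ) j + β log (m j)`.
1. Let `a` be the first index `≤ N` with `φ c a ≤ l a`.  If there is none, `first_step` with `n = N` ends the proof.  Otherwise (`first_step` with `n = a - 1`, or `a = 0`)
   `l a exp (-e a) ≥ A b 0 exp (κ a)`.
2. Let `y` maximise `Φ` on `J = {j ∈ [a, N] : φ c j ≤ l j}`; `Φ y ≥ Φ a ≥ log (A b 0) + β log φ`.  If `y + T0 > N`, `T0 = T + ⌈w^(-18)⌉`, use `mono`.  Otherwise:
   * `(δ/2) c y ≤ l y`: `y + T ∈ J` has larger `Φ` (`hG`; `c (y+T) ≤ (2/δ + C T) l (y+T)`).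
   * `w^8 c y ≤ l y < (δ/2) c y`: `short_step` with `v = (l y / c y)^(1/4) ∈ [w², v0]`; loss `2 e T0 ≤ C w^6`; first alternative: `m` at least doubles;
     second: `l` gains `v^(-6)`, `m` loses at most `v^6`, and `v^10 ≥ w^20 ≥ φ`.
   * `l y < w^8 c y`: `long_step` up to the first `n` with `l > μ c` at `y + n + 1` (there `c (y+n+1) ≥ c (y+n)/2`, `Φ` gains `β log (w^(-2)) - log (8C²) - 2e > 0`),
     or up to `N`, which gives the claim.
-/

open Real MeasureTheory Set Filter Topology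

namespace Pool.Agent.MinMod

noncomputable section

/-- the truncated quotient -/
def SeqB_m (δ l c : ℝ) : ℝ := l / max c (l / δ)

theorem SeqB_m_pos {δ l c : ℝ} (hδ : 0 < δ) (hl : 0 < l) : 0 < SeqB_m δ l c :=
  div_pos hl (lt_max_of_lt_right (div_pos hl hδ))

theorem SeqB_m_le {δ l c : ℝ} (hδ : 0 < δ) (hl : 0 < l) : SeqB_m δ l c ≤ δ := by
  unfold SeqB_m
  rw [div_le_iff₀ (lt_max_of_lt_right (div_pos hl hδ))]
  calc l = δ * (l / δ) := by field_simp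
    _ ≤ δ * max c (l / δ) := by gcongr; exact le_max_right _ _

theorem SeqB_m_le_div {δ l c : ℝ} (hc : 0 < c) (hl : 0 < l) : SeqB_m δ l c ≤ l / c := by
  unfold SeqB_m
  gcongr
  exact le_max_left _ _

theorem SeqB_m_ge {δ δ' l c : ℝ} (h0 : 0 < δ') (h1 : δ' ≤ δ) (hl : 0 < l) (h : δ' * c ≤ l) :
    δ' ≤ SeqB_m δ l c := by
  have hδ : 0 < δ := h0.trans_le h1
  unfold SeqB_m
  rw [le_div_iff₀ (lt_max_of_lt_right (div_pos hl hδ))]
  rcases le_total c (l / δ) with h2 | h2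
  · rw [max_eq_right h2]
    calc δ' * (l / δ) ≤ δ * (l / δ) := by gcongr
      _ = l := by field_simp
  · rw [max_eq_left h2]; exact h

theorem SeqB_gain {l l' m m' a b β x : ℝ} (hl : 0 < l) (hm : 0 < m) (ha : 0 < a) (hb : 0 < b)
    (h1 : a * l ≤ l') (h2 : b * m ≤ m') (hβ : 0 ≤ β) (h : x < Real.log a + β * Real.log b) :
    Real.log l + β * Real.log m < Real.log l' - x + β * Real.log m' := by
  have e1 : Real.log a + Real.log l ≤ Real.log l' := by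
    rw [← Real.log_mul ha.ne' hl.ne']; exact Real.log_le_log (mul_pos ha hl) h1
  have e2 : Real.log b + Real.log m ≤ Real.log m' := by
    rw [← Real.log_mul hb.ne' hm.ne']; exact Real.log_le_log (mul_pos hb hm) h2
  have e3 := mul_le_mul_of_nonneg_left e2 hβ
  linarith only [h, e1, e3]

theorem SeqB_c_le {C c0 μ0 η : ℝ} {N : ℕ} {l c : ℕ → ℝ} (H : SeqH C c0 μ0 η N l c) (hC : 0 ≤ C)
    (y k : ℕ) (h : y + k ≤ N) : c (y + k) ≤ c y + C * k * l (y + k) := by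
  induction k with
  | zero => simp
  | succ k ih =>
    have h1 := ih (by omega)
    have h2 := (abs_le.1 (H.step (y + k))).2
    have h3 := H.mono (y + k) (y + (k + 1)) (by omega) h
    have h4 : C * k * l (y + k) ≤ C * k * l (y + (k + 1)) := by gcongr
    have h5 : C * l (y + k) ≤ C * l (y + (k + 1)) := by gcongr
    rw [← Nat.add_assoc] at h4 h5 ⊢
    push_cast
    linarith only [h1, h2, h4, h5]

theorem SeqB_half {C c0 μ0 η t : ℝ} {N : ℕ} {l c : ℕ → ℝ} (H : SeqH C c0 μ0 η N l c) (hC : 0 ≤ C)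
    (ht : C * t ≤ 1 / 2) {j : ℕ} (h : l j ≤ t * c j) : c j / 2 ≤ c (j + 1) := by
  have h2 := (abs_le.1 (H.step j)).1
  have h3 : C * l j ≤ C * (t * c j) := by gcongr
  have h4 := H.c_nonneg j
  linarith only [h2, h3, ht, h4, mul_nonneg_of_nonpos_of_nonpos (Mathlib.Tactic.Linarith.sub_nonpos_of_le ht) (Mathlib.Tactic.Linarith.sub_nonpos_of_le h4)]

theorem SeqB_exp_le {r κ e x A : ℝ} {n : ℕ} (hr : 0 ≤ r) (hκ : κ ≤ Real.log (1 + r)) (hA : 0 ≤ A)
    (h : A * (1 + r) ^ n ≤ x * exp (-e * n)) : A * exp ((e + κ) * n) ≤ x := by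
  have h1 : exp (κ * n) ≤ (1 + r) ^ n := by
    calc exp (κ * n) ≤ exp (Real.log (1 + r) * n) := by gcongr
      _ = (1 + r) ^ n := by
        rw [mul_comm, Real.exp_nat_mul, Real.exp_log (by linarith)]
  have h2 : A * exp (κ * n) ≤ x * exp (-e * n) := le_trans (by gcongr) h
  have h3 : exp ((e + κ) * n) = exp (κ * n) * exp (e * n) := by rw [← exp_add]; ring_nf
  have h4 : exp (-e * n) * exp (e * n) = 1 := by rw [← exp_add]; simp
  calc A * exp ((e + κ) * n) = A * exp (κ * n) * exp (e * n) := by rw [h3]; ring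
    _ ≤ x * exp (-e * n) * exp (e * n) := by gcongr
    _ = x := by rw [mul_assoc, h4, mul_one]

/-- the start of the iteration -/
theorem SeqB_start {C c0 μ0 η μ φ κ : ℝ} (hC : 1 ≤ C) (hμ : 0 < μ) (hμ0 : μ ≤ μ0) (hμ1 : μ ≤ 1)
    (hη : 2 * C ^ 2 * exp (-c0 / (μ ^ 4) ^ 2) ≤ η) (hφ : 0 < φ) (hφμ : φ ≤ μ) (hCφ : C * φ ≤ 1 / 2)
    (hκ : κ ≤ Real.log (1 + η / (4 * C ^ 2 * μ))) (hκ1 : κ ≤ 1) :
    ∃ κ' A : ℝ, 0 < κ' ∧ 0 < A ∧ ∀ (N : ℕ) (l c b : ℕ → ℝ), SeqH C c0 μ0 η N l c →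
      (∀ j, b j ≤ C * (c j + l j) ∧ c j ≤ C * (b j + l j)) → 0 < b 0 →
      (∀ j ≤ N, b 0 * exp ((μ ^ 4 - κ') * j) ≤ b j) →
      A * b 0 * exp ((μ ^ 4 + κ) * N) ≤ c N ∨
        ∃ a ≤ N, φ * c a ≤ l a ∧ A * b 0 * exp ((μ ^ 4 + κ) * a) ≤ l a := by
  obtain ⟨κ', A, hκ', hA, hF⟩ := first_step (c0 := c0) hC hμ hμ0 hμ1 hη
  have hη0 : 0 ≤ η := le_trans (by positivity) hη
  have hr : 0 ≤ η / (4 * C ^ 2 * μ) := by positivity
  have hφ1 : φ ≤ 1 := hφμ.trans hμ1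
  have hμ4 : μ ^ 4 ≤ 1 := pow_le_one₀ hμ.le hμ1
  refine ⟨κ', min (φ / (2 * C)) (φ * A / (2 * exp 2)), hκ', by positivity, ?_⟩
  intro N l c b H hb hb0 hbj
  have key : ∀ n ≤ N, (∀ k ≤ n, l k < φ * c k) → A * b 0 * exp ((μ ^ 4 + κ) * n) ≤ c n := by
    intro n hn hk
    refine SeqB_exp_le hr hκ (by positivity) (hF N n l c (b 0) H hn hb0 ?_ ?_)
    · have h1 := (hb 0).2
      have h2 := (hk 0 (Nat.zero_le _)).le
      have h3 : C * l 0 ≤ C * (φ * c 0) := by gcongr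
      have h4 := H.c_nonneg 0
      linarith only [h1, h3, hCφ, h4, mul_nonneg_of_nonpos_of_nonpos (Mathlib.Tactic.Linarith.sub_nonpos_of_le hCφ) (Mathlib.Tactic.Linarith.sub_nonpos_of_le h4)]
    · intro k hkn
      have h2 := (hk k hkn).le
      have h4 := H.c_nonneg k
      refine ⟨h2.trans (by gcongr), (hbj k (hkn.trans hn)).trans ((hb k).1.trans ?_)⟩
      have : l k ≤ c k := h2.trans (by linarith only [hμ1, h4, hφμ, mul_nonneg_of_nonpos_of_nonpos (Mathlib.Tactic.Linarith.sub_nonpos_of_le hμ1) (Mathlib.Tactic.Linarith.sub_nonpos_of_le h4), mul_nonneg_of_nonpos_of_nonpos (Mathlib.Tactic.Linarith.sub_nonpos_of_le hφμ) (Mathlib.Tactic.Linarith.sub_nonpos_of_le h4)])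
      linarith only [this, hC, mul_nonneg_of_nonpos_of_nonpos (Mathlib.Tactic.Linarith.sub_nonpos_of_le hC) (Mathlib.Tactic.Linarith.sub_nonpos_of_le this)]
  have hmin2 : min (φ / (2 * C)) (φ * A / (2 * exp 2)) ≤ φ * A / (2 * exp 2) := min_le_right _ _
  have he2 : 1 ≤ exp 2 := one_le_exp (by norm_num)
  by_cases hex : ∃ a, a ≤ N ∧ φ * c a ≤ l a
  · right
    classical
    have ha := Nat.find_spec hex
    refine ⟨Nat.find hex, ha.1, ha.2, ?_⟩
    rcases h0 : Nat.find hex with _ | n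
    · rw [h0] at ha
      have h1 := (hb 0).1
      have h2 := ha.2
      have h3 := H.l_nonneg 0
      simp only [Nat.cast_zero, mul_zero, exp_zero, mul_one]
      calc min (φ / (2 * C)) (φ * A / (2 * exp 2)) * b 0 ≤ φ / (2 * C) * b 0 := by
            clear * - b φ C A hb0
            gcongr; exact min_le_left _ _
        _ ≤ φ / (2 * C) * (C * (c 0 + l 0)) := by clear * - φ C b c l h1 hφ hC; gcongr
        _ = (φ * c 0 + φ * l 0) / 2 := by clear * - φ C c l hC hφ; field_simp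
        _ ≤ l 0 := by clear * - φ c l μ N ha hμ1 h3 hφμ; linarith only [ha, hμ1, h3, hφμ, mul_nonneg_of_nonpos_of_nonpos (Mathlib.Tactic.Linarith.sub_nonpos_of_le hμ1) (Mathlib.Tactic.Linarith.sub_nonpos_of_le h3), mul_nonneg_of_nonpos_of_nonpos (Mathlib.Tactic.Linarith.sub_nonpos_of_le hφμ) (Mathlib.Tactic.Linarith.sub_nonpos_of_le h3)]
    · rw [h0] at ha
      have hk : ∀ k ≤ n, l k < φ * c k := by
        intro k hk
        have := Nat.find_min hex (m := k) (by omega)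
        push Not at this
        exact this (by omega)
      have h1 := key n (by omega) hk
      have h2 := SeqB_half H (by linarith only [hC]) hCφ (hk n le_rfl).le
      have h3 : exp ((μ ^ 4 + κ) * ((n + 1 : ℕ) : ℝ)) ≤ exp ((μ ^ 4 + κ) * n) * exp 2 := by
        rw [← exp_add]; apply exp_le_exp.2; push_cast; linarith only [hκ1, hμ4]
      calc min (φ / (2 * C)) (φ * A / (2 * exp 2)) * b 0 * exp ((μ ^ 4 + κ) * ((n + 1 : ℕ) : ℝ))
          ≤ φ * A / (2 * exp 2) * b 0 * (exp ((μ ^ 4 + κ) * n) * exp 2) := by clear * - φ C A b μ κ n hmin2 hb0 h3 hφ hA; gcongr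
        _ = φ * (A * b 0 * exp ((μ ^ 4 + κ) * n) / 2) := by field_simp
        _ ≤ φ * c (n + 1) := by clear * - φ A b μ κ n c h1 h2 hφ; gcongr; linarith only [h1, h2]
        _ ≤ l (n + 1) := ha.2
  · left
    push Not at hex
    refine le_trans ?_ (key N le_rfl hex)
    gcongr
    refine hmin2.trans ?_
    rw [div_le_iff₀ (by positivity)]
    clear * - φ A C hφ hA hC hCφ he2; linarith only [hφ, hA, hC, hCφ, he2, mul_pos hφ hA, mul_nonneg_of_nonpos_of_nonpos (Mathlib.Tactic.Linarith.sub_nonpos_of_le hC) (le_of_lt (Mathlib.Tactic.Linarith.sub_neg_of_lt (mul_pos hφ hA))), mul_nonneg_of_nonpos_of_nonpos (Mathlib.Tactic.Linarith.sub_nonpos_of_le hCφ) (le_of_lt (Mathlib.Tactic.Linarith.sub_neg_of_lt hA)), mul_nonneg_of_nonpos_of_nonpos (le_of_lt (Mathlib.Tactic.Linarith.sub_neg_of_lt hA)) (Mathlib.Tactic.Linarith.sub_nonpos_of_le he2)]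

/-- one step of the iteration in the calm case -/
theorem SeqB_calm {C c0 μ0 η μ κ : ℝ} (hC : 1 ≤ C) {N y : ℕ} {l c : ℕ → ℝ}
    (H : SeqH C c0 μ0 η N l c) (hμ : 0 < μ) (hμ0 : μ ≤ μ0) (hμ1 : μ ≤ 1)
    (hη : 2 * C ^ 2 * exp (-c0 / (μ ^ 4) ^ 2) ≤ η) (hCμ : C * μ ≤ 1 / 2)
    (hκ : κ ≤ Real.log (1 + η / (4 * C ^ 2 * μ))) (hy : y ≤ N) (hc : 0 < c y)
    (hl : 2 * C ^ 2 * μ ^ 4 * c y ≤ l y) (h0 : l y ≤ μ * c y) :
    l y / (4 * C ^ 2 * μ) * exp ((μ ^ 4 + κ) * ((N : ℝ) - y)) ≤ c N ∨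
      ∃ n : ℕ, y + (n + 1) ≤ N ∧ μ * c (y + (n + 1)) ≤ l (y + (n + 1)) ∧
        exp ((μ ^ 4 + κ) * n) / (8 * C ^ 2) * l y ≤ l (y + (n + 1)) := by
  have hη0 : 0 ≤ η := le_trans (by positivity) hη
  have hr : 0 ≤ η / (4 * C ^ 2 * μ) := by positivity
  have hly := H.l_nonneg y
  have key : ∀ n, y + n ≤ N → (∀ k ≤ n, l (y + k) ≤ μ * c (y + k)) →
      l y / (4 * C ^ 2 * μ) * exp ((μ ^ 4 + κ) * n) ≤ c (y + n) := fun n hn hk =>
    SeqB_exp_le hr hκ (by positivity) (long_step hC H hμ hμ0 hμ1 hη hn hc hl hk)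
  by_cases hex : ∃ k, y + k ≤ N ∧ μ * c (y + k) < l (y + k)
  · right
    classical
    have ha := Nat.find_spec hex
    rcases h1 : Nat.find hex with _ | n
    · rw [h1] at ha
      exact absurd ha.2 (not_lt.2 h0)
    · rw [h1] at ha
      have hk : ∀ k ≤ n, l (y + k) ≤ μ * c (y + k) := by
        intro k hk
        have := Nat.find_min hex (m := k) (by omega)
        push Not at this
        exact this (by omega)
      refine ⟨n, ha.1, ha.2.le, ?_⟩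
      have h2 := key n (by omega) hk
      have h3 := SeqB_half H (by linarith only [hC]) hCμ (hk n le_rfl)
      calc exp ((μ ^ 4 + κ) * n) / (8 * C ^ 2) * l y
          = μ * (l y / (4 * C ^ 2 * μ) * exp ((μ ^ 4 + κ) * n) / 2) := by field_simp; ring
        _ ≤ μ * c (y + n + 1) := by gcongr; linarith only [h2, h3]
        _ ≤ l (y + (n + 1)) := ha.2.le
  · left
    push Not at hex
    have := key (N - y) (by omega) fun k hk => hex k (by omega)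
    rw [Nat.add_sub_cancel' hy, Nat.cast_sub hy] at this
    exact this

/-- a later index of the set with a larger value of the potential -/
def SeqB_Bet (δ φ ρ β : ℝ) (N y : ℕ) (l c : ℕ → ℝ) : Prop :=
  ∃ (k : ℕ) (p q : ℝ), y + k ≤ N ∧ φ * c (y + k) ≤ l (y + k) ∧ 0 < p ∧ 0 < q ∧
    p * l y ≤ l (y + k) ∧ q * SeqB_m δ (l y) (c y) ≤ SeqB_m δ (l (y + k)) (c (y + k)) ∧
    ρ * k < Real.log p + β * Real.log q

theorem SeqB_case1 {C c0 μ0 η δ δ2 φ ρ β c1 : ℝ} {N y T : ℕ} {l c : ℕ → ℝ}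
    (H : SeqH C c0 μ0 η N l c) (hC : 1 ≤ C) (hδ0 : 0 < δ) (hδ2 : δ2 = 1 / (2 / δ + C * T))
    (hδ2δ : δ2 ≤ δ) (hφ : φ ≤ δ2) (hc1 : 0 < c1) (hly : 0 < l y) (hyT : y + T ≤ N)
    (h1 : δ / 2 * c y ≤ l y) (g1 : (1 + c1) * l y ≤ l (y + T))
    (hg : ρ * T < Real.log (1 + c1) + β * Real.log (δ2 / δ)) : SeqB_Bet δ φ ρ β N y l c := by
  have hδ20 : 0 < δ2 := by rw [hδ2]; positivity
  have g2 := SeqB_c_le H (by linarith only [hC]) y T hyT
  have g3 := H.mono y (y + T) (by omega) hyT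
  have g4 : δ2 * c (y + T) ≤ l (y + T) := by
    rw [hδ2, one_div, inv_mul_le_iff₀ (by positivity)]
    have : c y ≤ 2 / δ * l (y + T) := by
      rw [div_mul_eq_mul_div, le_div_iff₀ hδ0]; linarith only [h1, g3]
    linarith only [g2, this]
  have g5 := H.c_nonneg (y + T)
  refine ⟨T, 1 + c1, δ2 / δ, hyT, le_trans (by gcongr) g4, by linarith only [hc1], by positivity, g1, ?_, hg⟩
  refine le_trans ?_ (SeqB_m_ge hδ20 hδ2δ (hly.trans_le g3) g4)
  calc δ2 / δ * SeqB_m δ (l y) (c y) ≤ δ2 / δ * δ := by gcongr; exact SeqB_m_le hδ0 hly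
    _ = δ2 := by field_simp

theorem SeqB_case2 {C c0 μ0 η u v0 w ρ β : ℝ} {N y : ℕ} {l c : ℕ → ℝ}
    (H : SeqH C c0 μ0 η N l c) (hu0 : 0 < u) (huv : u ≤ v0) (hu2 : u ≤ 1 / 2) (hw : 0 < w)
    (hw1 : w ≤ 1) (hly : 0 < l y) (hcy : 0 < c y) (hN : y + ⌈1 / w ^ 18⌉₊ ≤ N)
    (h1 : l y < u ^ 4 / 2 * c y) (h2 : w ^ 8 * c y ≤ l y) (hρ0 : 0 ≤ ρ) (hρ1 : ρ ≤ 2 * w ^ 24)
    (hβ0 : 0 < β) (hβ1 : β ≤ 1 / 2) (w6 : w ≤ β * Real.log 2 / 8)
    (hS : ∀ v : ℝ, 0 < v → v ≤ v0 → l y = v ^ 4 * c y → y + ⌈1 / v ^ 9⌉₊ ≤ N →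
      ∃ j', y < j' ∧ j' ≤ y + ⌈1 / v ^ 9⌉₊ ∧
        (v ^ 2 * c j' < l j' ∨ (v ^ 10 * c j' ≤ l j' ∧ l y ≤ v ^ 6 * l j'))) :
    SeqB_Bet (u ^ 4) (w ^ 21) ρ β N y l c := by
  have hl2 : 0 < Real.log 2 := Real.log_pos (by norm_num)
  have hp : ∀ {m n : ℕ}, m ≤ n → w ^ n ≤ w ^ m := fun h => pow_le_pow_of_le_one hw.le hw1 h
  have hp1 : ∀ {n : ℕ}, 1 ≤ n → w ^ n ≤ w := fun h => by simpa using hp h
  have hmq := SeqB_m_le_div (δ := u ^ 4) hcy hly
  obtain ⟨v, hv⟩ : ∃ v, v = √(√(l y / c y)) := ⟨_, rfl⟩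
  have hv0' : 0 < v := by rw [hv]; positivity
  obtain hv4 : v ^ 4 = l y / c y := by
    rw [hv, show 4 = 2 * 2 by norm_num, pow_mul, Real.sq_sqrt (by positivity),
      Real.sq_sqrt (by positivity)]
  obtain hvδ : 2 * v ^ 4 ≤ u ^ 4 := by
    rw [hv4, ← mul_div_assoc, div_le_iff₀ hcy]; linarith only [h1]
  obtain hvu : v ≤ u := by
    refine (pow_le_pow_iff_left₀ hv0'.le hu0.le (n := 4) (by norm_num)).1 ?_
    linarith only [hvδ, hv0', pow_pos hv0' 4]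
  obtain hwv : w ^ 2 ≤ v := by
    refine (pow_le_pow_iff_left₀ (by positivity) hv0'.le (n := 4) (by norm_num)).1 ?_
    rw [hv4, le_div_iff₀ hcy]
    calc (w ^ 2) ^ 4 * c y = w ^ 8 * c y := by ring
      _ ≤ l y := h2
  have hv2 : v ≤ 1 / 2 := hvu.trans hu2
  obtain hceil : ⌈1 / v ^ 9⌉₊ ≤ ⌈1 / w ^ 18⌉₊ := by
    clear * - v w hw hwv
    apply Nat.ceil_mono
    rw [show w ^ 18 = (w ^ 2) ^ 9 by ring]; gcongr
  obtain ⟨j', g1, g2, g3⟩ := hS v hv0' (hvu.trans huv) (by rw [hv4]; field_simp) (by omega)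
  obtain ⟨k, rfl⟩ : ∃ k, j' = y + k := ⟨j' - y, by omega⟩
  have hk : y + k ≤ N := by omega
  have g4 := H.mono y (y + k) (by omega) hk
  have g5 := H.c_nonneg (y + k)
  obtain hloss : ρ * k < β * Real.log 2 := by
    clear * - k w N y v hceil g2 hw ρ hρ1 hp1 β w6 hl2 hβ0
    obtain e1 : (k : ℝ) ≤ 1 / w ^ 18 + 1 := by
      have : (k : ℝ) ≤ ⌈1 / w ^ 18⌉₊ := by exact_mod_cast (by omega : k ≤ ⌈1 / w ^ 18⌉₊)
      exact this.trans (Nat.ceil_lt_add_one (by positivity)).le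
    have e2 : ρ * k ≤ 2 * w ^ 24 * (1 / w ^ 18 + 1) := by gcongr
    have e3 : 2 * w ^ 24 * (1 / w ^ 18 + 1) = 2 * w ^ 6 + 2 * w ^ 24 := by field_simp
    have e4 := hp1 (n := 24) (by norm_num)
    have e5 := hp1 (n := 6) (by norm_num)
    linarith only [hw, w6, e2, e3, e4, e5, mul_pos hβ0 hl2]
  rw [← hv4] at hmq
  obtain hv10 : w ^ 21 ≤ v ^ 10 := by
    clear * - w v hp hw hwv
    calc w ^ 21 ≤ (w ^ 2) ^ 10 := by rw [← pow_mul]; exact hp (by norm_num)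
      _ ≤ v ^ 10 := by gcongr
  have hpv : ∀ {m n : ℕ}, m ≤ n → v ^ n ≤ v ^ m :=
    fun h => pow_le_pow_of_le_one hv0'.le (by linarith only [hu0, hu2, hvu]) h
  rcases g3 with g3 | ⟨g3, g6⟩
  · have e1 : 2 * v ^ 4 ≤ v ^ 2 := by
      clear * - v hv0' hv2 u hu0 hu2
      have : v ^ 2 ≤ (1 / 2) ^ 2 := by gcongr
      calc 2 * v ^ 4 = 2 * v ^ 2 * v ^ 2 := by ring
        _ ≤ 1 * v ^ 2 := by gcongr; linarith only [hu0, hu2, this]
        _ = v ^ 2 := one_mul _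
    have e2 : 2 * v ^ 4 * c (y + k) ≤ l (y + k) := le_trans (by gcongr) g3.le
    refine ⟨k, 1, 2, hk, le_trans ?_ g3.le, one_pos, two_pos, by linarith only [g4], ?_, by simpa using hloss⟩
    · clear * - c y k w v hv10 hpv g5; gcongr; exact hv10.trans (hpv (by norm_num))
    · exact le_trans (by linarith only [hmq]) (SeqB_m_ge (by positivity) hvδ (hly.trans_le g4) e2)
  · refine ⟨k, 1 / v ^ 6, v ^ 6, hk, le_trans (by gcongr) g3, by positivity, by positivity,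
      ?_, ?_, ?_⟩
    · rw [one_div, inv_mul_le_iff₀ (by positivity)]; exact g6
    · refine le_trans ?_ (SeqB_m_ge (pow_pos hv0' 10) ?_ (hly.trans_le g4) g3)
      · calc v ^ 6 * SeqB_m (u ^ 4) (l y) (c y) ≤ v ^ 6 * v ^ 4 := by clear * - v u l y c hmq hv0'; gcongr
          _ = v ^ 10 := by ring
      · clear * - v u hvδ hpv hv0'; linarith [hpv (show 4 ≤ 10 by norm_num), pow_pos hv0' 4]
    · rw [one_div, Real.log_inv, Real.log_pow]
      obtain e1 : Real.log v ≤ -Real.log 2 := by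
        rw [← Real.log_inv]; exact Real.log_le_log hv0' (by rw [← one_div]; exact hv2)
      have e2 : (1 - β) * Real.log 2 ≤ (1 - β) * (-Real.log v) :=
        mul_le_mul_of_nonneg_left (by linarith only [e1]) (by linarith only [hu0, hu2, hβ1])
      have e3 : β * Real.log 2 ≤ 1 / 2 * Real.log 2 := by gcongr
      push_cast
      clear * - ρ k v β w hw w6 hloss e2 e3; linarith only [hw, w6, hloss, e2, e3]

theorem SeqB_case3 {C c0 μ0 η δ w ρ β : ℝ} {N y n : ℕ} {l c : ℕ → ℝ}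
    (H : SeqH C c0 μ0 η N l c) (hC : 1 ≤ C) (hw : 0 < w) (hw1 : w ≤ 1) (hδ : w ^ 6 ≤ δ)
    (hly : 0 < l y) (hcy : 0 < c y) (h2 : l y < w ^ 8 * c y) (hρ1 : ρ ≤ 2) (hβ0 : 0 < β)
    (w7 : w ≤ exp (-(Real.log (8 * C ^ 2) + 3) / (2 * β))) (g1 : y + (n + 1) ≤ N)
    (g2 : w ^ 6 * c (y + (n + 1)) ≤ l (y + (n + 1)))
    (g3 : exp (ρ * n) / (8 * C ^ 2) * l y ≤ l (y + (n + 1))) :
    SeqB_Bet δ (w ^ 21) ρ β N y l c := by
  have g5 := H.c_nonneg (y + (n + 1))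
  have g4 := H.mono y (y + (n + 1)) (by omega) g1
  have hmq := SeqB_m_le_div (δ := δ) hcy hly
  have h21 : w ^ 21 ≤ w ^ 6 := pow_le_pow_of_le_one hw.le hw1 (by norm_num)
  refine ⟨n + 1, _, 1 / w ^ 2, g1, le_trans (by gcongr) g2, by positivity, by positivity, g3,
    ?_, ?_⟩
  · refine le_trans ?_ (SeqB_m_ge (pow_pos hw 6) hδ (hly.trans_le g4) g2)
    have e1 : l y / c y ≤ w ^ 8 := by rw [div_le_iff₀ hcy]; exact h2.le
    calc 1 / w ^ 2 * SeqB_m δ (l y) (c y) ≤ 1 / w ^ 2 * w ^ 8 := by gcongr; linarith only [hmq, e1]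
      _ = w ^ 6 := by field_simp
  · rw [Real.log_div (exp_pos _).ne' (by positivity), Real.log_exp, one_div, Real.log_inv,
      Real.log_pow]
    have e1 := Real.log_le_log hw w7
    rw [Real.log_exp, le_div_iff₀ (by positivity)] at e1
    push_cast
    linarith only [hρ1, e1]

/-- the maximum point of the potential -/
theorem SeqB_max {C c0 μ0 η δ φ ρ β X : ℝ} {N a : ℕ} {l c : ℕ → ℝ} (H : SeqH C c0 μ0 η N l c)
    (hφ : 0 < φ) (hφδ : φ ≤ δ) (hδ1 : δ ≤ 1) (hβ0 : 0 < β) (hβ1 : β ≤ 1) (hX : 0 < X) (haN : a ≤ N)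
    (ha1 : φ * c a ≤ l a) (ha2 : X * exp (ρ * a) ≤ l a) :
    ∃ y ≤ N, φ * c y ≤ l y ∧ φ * X * exp (ρ * y) ≤ l y ∧ ¬ SeqB_Bet δ φ ρ β N y l c := by
  have hδ0 : 0 < δ := hφ.trans_le hφδ
  have hla : 0 < l a := lt_of_lt_of_le (by positivity) ha2
  classical
  obtain ⟨y, hyJ, hmax⟩ := Finset.exists_max_image
    ((Finset.Icc a N).filter fun j => φ * c j ≤ l j)
    (fun j => Real.log (l j) - ρ * j + β * Real.log (SeqB_m δ (l j) (c j)))
    ⟨a, by simp [haN, ha1]⟩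
  simp only [Finset.mem_filter, Finset.mem_Icc] at hyJ hmax
  obtain ⟨⟨hay, hyN⟩, hy⟩ := hyJ
  have hly : 0 < l y := hla.trans_le (H.mono a y hay hyN)
  have hmy := SeqB_m_pos (c := c y) hδ0 hly
  refine ⟨y, hyN, hy, ?_, ?_⟩
  · have h1 := hmax a ⟨⟨le_rfl, haN⟩, ha1⟩
    have h2 : Real.log (SeqB_m δ (l y) (c y)) ≤ 0 :=
      Real.log_nonpos hmy.le ((SeqB_m_le hδ0 hly).trans hδ1)
    have h3 : Real.log φ ≤ Real.log (SeqB_m δ (l a) (c a)) :=
      Real.log_le_log hφ (SeqB_m_ge hφ hφδ hla ha1)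
    have h4 : Real.log φ ≤ 0 := Real.log_nonpos hφ.le (hφδ.trans hδ1)
    have h5 : Real.log X + ρ * a ≤ Real.log (l a) := by
      have := Real.log_le_log (by positivity) ha2
      rwa [Real.log_mul (by positivity) (exp_pos _).ne', Real.log_exp] at this
    refine (Real.log_le_log_iff (by positivity) hly).1 ?_
    rw [Real.log_mul (by positivity) (exp_pos _).ne', Real.log_exp, Real.log_mul hφ.ne' hX.ne']
    have h7 := mul_le_mul_of_nonneg_left h3 hβ0.le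
    have h8 := mul_nonpos_of_nonneg_of_nonpos hβ0.le h2
    have h9 := mul_nonpos_of_nonneg_of_nonpos (sub_nonneg.2 hβ1) h4
    linarith only [h1, h5, h7, h8, h9]
  · rintro ⟨k, p, q, hk, h1, hp0, hq0, h2, h3, h4⟩
    have h5 := SeqB_gain hly hmy hp0 hq0 h2 h3 hβ0.le h4
    have h6 := hmax (y + k) ⟨⟨by omega, hk⟩, h1⟩
    push_cast at h6
    linarith only [h5, h6]

theorem SeqB_eta {C c0 w η : ℝ} (hC : 1 ≤ C) (hw : 0 < w) (hw1 : w ≤ 1) (w3 : w ≤ c0 / (4 * C ^ 2))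
    (hη : exp (-(c0 / 2) / (w ^ 24) ^ 2) ≤ η) :
    2 * C ^ 2 * exp (-c0 / ((w ^ 6) ^ 4) ^ 2) ≤ η := by
  refine le_trans ?_ hη
  rw [show ((w ^ 6) ^ 4) ^ 2 = w ^ 48 by ring, show (w ^ 24) ^ 2 = w ^ 48 by ring]
  have h1 : 2 * C ^ 2 ≤ c0 / 2 / w ^ 48 := by
    rw [le_div_iff₀ (by positivity)]
    rw [le_div_iff₀ (by positivity)] at w3
    have : w ^ 48 ≤ w := pow_le_of_le_one hw.le hw1 (by norm_num)
    have : 2 * C ^ 2 * w ^ 48 ≤ 2 * C ^ 2 * w := by gcongr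
    linarith only [w3, this]
  have h2 : 2 * C ^ 2 ≤ exp (c0 / 2 / w ^ 48) := by linarith only [h1, add_one_le_exp (c0 / 2 / w ^ 48)]
  calc 2 * C ^ 2 * exp (-c0 / w ^ 48) ≤ exp (c0 / 2 / w ^ 48) * exp (-c0 / w ^ 48) := by gcongr
    _ = exp (-(c0 / 2) / w ^ 48) := by rw [← exp_add]; congr 1; ring

theorem SeqB_beta {G Λ : ℝ} (hG : 0 < G) (hΛ : Λ ≤ 0) :
    ∃ β : ℝ, 0 < β ∧ β ≤ 1 / 2 ∧ -(G / 2) ≤ β * Λ := by
  have h1 : 0 < 1 - Λ := by linarith
  refine ⟨min (1 / 2) (G / (2 * (1 - Λ))), by positivity, min_le_left _ _, ?_⟩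
  have h2 : min (1 / 2) (G / (2 * (1 - Λ))) ≤ G / (2 * (1 - Λ)) := min_le_right _ _
  have h3 : 0 < min (1 / 2) (G / (2 * (1 - Λ))) := by positivity
  rw [le_div_iff₀ (by positivity)] at h2
  linarith only [h2, h3]

theorem seq_main {C c0 μ0 : ℝ} (hC : 1 ≤ C) (hc : 0 < c0) (hμ : 0 < μ0) (Tf : ℝ → ℕ) (cf : ℝ → ℝ)
    (hcf : ∀ δ, 0 < δ → 0 < cf δ) : ∃ w0 : ℝ, 0 < w0 ∧ ∀ w η : ℝ, 0 < w → w ≤ w0 →
      exp (-(c0 / 2) / (w ^ 24) ^ 2) ≤ η → ∃ κ κ' A : ℝ, 0 < κ ∧ 0 < κ' ∧ 0 < A ∧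
        ∀ (N : ℕ) (l c b : ℕ → ℝ), SeqH C c0 μ0 η N l c →
          (∀ δ, 0 < δ → ∀ j, j + Tf δ ≤ N → δ * c j ≤ l j → (1 + cf δ) * l j ≤ l (j + Tf δ)) →
          (∀ j, b j ≤ C * (c j + l j) ∧ c j ≤ C * (b j + l j)) → 0 < b 0 →
          (∀ j ≤ N, b 0 * exp ((w ^ 24 - κ') * j) ≤ b j) →
          A * b 0 * exp ((w ^ 24 + κ) * N) ≤ l N + c N := by
  obtain ⟨v0, hv0, hv01, hS⟩ := short_step hC hc hμ
  obtain ⟨u, hu0, huv, hu2⟩ : ∃ u : ℝ, 0 < u ∧ u ≤ v0 ∧ u ≤ 1 / 2 :=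
    ⟨min v0 (1 / 2), by positivity, min_le_left _ _, min_le_right _ _⟩
  have hδ0 : 0 < u ^ 4 := by positivity
  have hδ1 : u ^ 4 ≤ 1 := pow_le_one₀ hu0.le (by linarith only [hu0, hu2])
  obtain ⟨T, hT⟩ : ∃ T, T = Tf (u ^ 4 / 2) := ⟨_, rfl⟩
  have hc1 := hcf (u ^ 4 / 2) (by positivity)
  have hG0 : 0 < Real.log (1 + cf (u ^ 4 / 2)) := Real.log_pos (by linarith only [hc1])
  obtain ⟨δ2, hδ2⟩ : ∃ δ2, δ2 = 1 / (2 / u ^ 4 + C * T) := ⟨_, rfl⟩
  have hδ20 : 0 < δ2 := by rw [hδ2]; positivity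
  have hδ2δ : δ2 ≤ u ^ 4 := by
    clear * - δ2 u C T hδ2 hu0 hC hu2
    rw [hδ2, div_le_iff₀ (by positivity)]
    have : u ^ 4 * (2 / u ^ 4 + C * T) = 2 + u ^ 4 * (C * T) := by field_simp
    rw [this]
    have : 0 ≤ u ^ 4 * (C * T) := by positivity
    linarith only [hu0, hu2, this]
  obtain ⟨β, hβ0, hβ1, hβΛ⟩ := SeqB_beta hG0
    (Real.log_nonpos (x := δ2 / u ^ 4) (by positivity) ((div_le_one hδ0).2 hδ2δ))
  have hl2 : 0 < Real.log 2 := Real.log_pos (by norm_num)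
  refine ⟨min (min (min (1 / (2 * C ^ 2)) μ0) (min (c0 / (4 * C ^ 2)) δ2))
    (min (min (Real.log (1 + cf (u ^ 4 / 2)) / (4 * T + 4)) (β * Real.log 2 / 8))
      (exp (-(Real.log (8 * C ^ 2) + 3) / (2 * β)))), by positivity, ?_⟩
  intro w η hw hw0 hη
  simp only [le_min_iff] at hw0
  obtain ⟨⟨⟨w1, w2⟩, w3, w4⟩, ⟨w5, w6⟩, w7⟩ := hw0
  have hCC : C ≤ C ^ 2 := le_self_pow₀ hC (by norm_num)
  have w1' : 2 * C ^ 2 * w ≤ 1 := by rw [le_div_iff₀ (by positivity)] at w1; linarith only [w1]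
  have hw1 : w ≤ 1 := w4.trans (hδ2δ.trans hδ1)
  have hp : ∀ {m n : ℕ}, m ≤ n → w ^ n ≤ w ^ m := fun h => pow_le_pow_of_le_one hw.le hw1 h
  have hp1 : ∀ {n : ℕ}, n ≠ 0 → w ^ n ≤ w := fun h => pow_le_of_le_one hw.le hw1 h
  have hμ4 : (w ^ 6) ^ 4 = w ^ 24 := by ring
  have hCw : ∀ {n : ℕ}, n ≠ 0 → C * w ^ n ≤ 1 / 2 := fun {n} h => by
    have : C * w ^ n ≤ C ^ 2 * w := mul_le_mul hCC (hp1 h) (by positivity) (by positivity)
    linarith only [this, w1']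
  have hη' := SeqB_eta hC hw hw1 w3 hη
  have hη0 : 0 < η := lt_of_lt_of_le (exp_pos _) hη
  obtain ⟨κ, hκ0, hκ1, hκ2⟩ : ∃ κ : ℝ, 0 < κ ∧ κ ≤ w ^ 24 ∧
      κ ≤ Real.log (1 + η / (4 * C ^ 2 * w ^ 6)) :=
    ⟨_, lt_min (by positivity) (Real.log_pos (lt_add_of_pos_right _ (by positivity))),
      min_le_left _ _, min_le_right _ _⟩
  have h61 : w ^ 6 ≤ 1 := pow_le_one₀ hw.le hw1
  have h241 : w ^ 24 ≤ 1 := pow_le_one₀ hw.le hw1
  have h6μ : w ^ 6 ≤ μ0 := (hp1 (by norm_num)).trans w2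
  have h216 : w ^ 21 ≤ w ^ 6 := hp (by norm_num)
  have h86 : w ^ 8 ≤ w ^ 6 := hp (by norm_num)
  obtain ⟨κ', A, hκ', hA, hst⟩ := SeqB_start hC (pow_pos hw 6) h6μ h61 hη'
    (pow_pos hw 21) h216 (hCw (by norm_num)) hκ2 (hκ1.trans h241)
  rw [hμ4] at hst
  obtain ⟨T1, hT1⟩ : ∃ T1, T1 = ⌈1 / w ^ 18⌉₊ := ⟨_, rfl⟩
  obtain ⟨ρ, hρ⟩ : ∃ ρ, ρ = w ^ 24 + κ := ⟨_, rfl⟩
  have hρ0 : 0 < ρ := by rw [hρ]; positivity
  have hρ1 : ρ ≤ 2 * w ^ 24 := by linarith only [hρ, hκ1]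
  obtain ⟨E, hE0, hEa, hEb⟩ : ∃ E : ℝ, 0 < E ∧ E ≤ exp (-ρ * (T + T1)) ∧
      E ≤ 1 / (4 * C ^ 2 * w ^ 6) := ⟨_, by positivity, min_le_left _ _, min_le_right _ _⟩
  have hE1 : E ≤ 1 := by
    clear * - E ρ T T1 hEa hρ0
    refine hEa.trans (exp_le_one_iff.2 ?_)
    have : 0 ≤ ρ * (T + T1) := by positivity
    linarith only [this]
  have h21 : w ^ 21 ≤ δ2 := (hp1 (by norm_num)).trans w4
  refine ⟨κ, κ', A * w ^ 21 * E, hκ0, hκ', by positivity, ?_⟩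
  intro N l c b H hGr hb hb0 hbj
  rw [← hρ] at hst ⊢
  have hlN := H.l_nonneg N
  have hcN := H.c_nonneg N
  have h211 : w ^ 21 ≤ 1 := pow_le_one₀ hw.le hw1
  rcases hst N l c b H hb hb0 hbj with h | ⟨a, haN, ha1, ha2⟩
  · have : A * w ^ 21 * E * b 0 * exp (ρ * N) ≤ A * 1 * 1 * b 0 * exp (ρ * N) := by clear * - ρ N A w E b h211 hA hE1 hE0 hb0 h hlN; gcongr
    linarith only [this, h, hlN]
  obtain ⟨y, hyN, hy, hval, no⟩ := SeqB_max H (pow_pos hw 21) (h21.trans hδ2δ) hδ1 hβ0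
    (by linarith only [hβ1]) (mul_pos hA hb0) haN ha1 ha2
  have hly : 0 < l y := lt_of_lt_of_le (by positivity) hval
  by_cases hend : N < y + (T + T1)
  · have h1 : E * exp (ρ * N) ≤ exp (ρ * y) := by
      clear * - E ρ N T T1 y hEa hend hρ0
      calc E * exp (ρ * N) ≤ exp (-ρ * (T + T1)) * exp (ρ * N) := by gcongr
        _ ≤ exp (ρ * y) := by
            rw [← exp_add]; apply exp_le_exp.2
            have h : (N : ℝ) ≤ y + (T + T1) := by exact_mod_cast hend.le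
            linarith only [mul_le_mul_of_nonneg_left h hρ0.le]
    have h2 := H.mono y N hyN le_rfl
    calc A * w ^ 21 * E * b 0 * exp (ρ * N) = w ^ 21 * (A * b 0) * (E * exp (ρ * N)) := by ring
      _ ≤ w ^ 21 * (A * b 0) * exp (ρ * y) := by clear * - w A b E ρ N y h1 hw hA hb0; gcongr
      _ ≤ l N + c N := by linarith only [hval, h2, hcN]
  push Not at hend
  by_cases h1 : u ^ 4 / 2 * c y ≤ l y
  · have g1 := hGr (u ^ 4 / 2) (by positivity) y (by omega) h1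
    rw [← hT] at g1
    refine absurd (SeqB_case1 H hC hδ0 hδ2 hδ2δ h21 hc1 hly (by omega) h1 g1 ?_) no
    rw [le_div_iff₀ (by positivity)] at w5
    have e2 := hp1 (n := 24) (by norm_num)
    have e3 : ρ * T ≤ 2 * w * T := by clear * - T ρ w hρ1 e2; gcongr; linarith only [hρ1, e2]
    linarith only [e3, w5, hβΛ, hw]
  push Not at h1
  have hcy : 0 < c y := by
    refine lt_of_le_of_ne (H.c_nonneg y) fun h0 => ?_
    rw [← h0, mul_zero] at h1
    exact lt_asymm h1 hly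
  by_cases h2 : w ^ 8 * c y ≤ l y
  · exact absurd (SeqB_case2 H hu0 huv hu2 hw hw1 hly hcy (by omega) h1 h2 hρ0.le hρ1 hβ0 hβ1 w6
      fun v a1 a2 a3 a4 => hS η v N y l c H hη0.le a1 a2 hcy a3 a4) no
  push Not at h2
  have h3 : 2 * C ^ 2 * (w ^ 6) ^ 4 * c y ≤ l y := by
    clear * - C w c y l hp1 hC hw w1' hcy hy
    refine le_trans ?_ hy
    gcongr
    calc 2 * C ^ 2 * (w ^ 6) ^ 4 = 2 * C ^ 2 * w ^ 3 * w ^ 21 := by ring
      _ ≤ 2 * C ^ 2 * w * w ^ 21 := by gcongr; exact hp1 (by norm_num)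
      _ ≤ 1 * w ^ 21 := by gcongr
      _ = w ^ 21 := one_mul _
  rcases SeqB_calm hC H (pow_pos hw 6) h6μ h61 hη' (hCw (by norm_num)) hκ2 hyN hcy h3
    (h2.le.trans (by gcongr)) with g | ⟨n, g1, g2, g3⟩
  · rw [hμ4, ← hρ] at g
    have e1 : exp (ρ * N) = exp (ρ * y) * exp (ρ * ((N : ℝ) - y)) := by rw [← exp_add]; ring_nf
    calc A * w ^ 21 * E * b 0 * exp (ρ * N)
        = w ^ 21 * (A * b 0) * exp (ρ * y) * E * exp (ρ * ((N : ℝ) - y)) := by rw [e1]; ring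
      _ ≤ l y * (1 / (4 * C ^ 2 * w ^ 6)) * exp (ρ * ((N : ℝ) - y)) := by clear * - ρ N y w A b E l C hval hEb hE0 hly; gcongr
      _ = l y / (4 * C ^ 2 * w ^ 6) * exp (ρ * ((N : ℝ) - y)) := by ring
      _ ≤ l N + c N := by linarith only [g, hlN]
  · rw [hμ4, ← hρ] at g3
    exact absurd (SeqB_case3 H hC hw hw1 ((hp1 (by norm_num)).trans (w4.trans hδ2δ)) hly hcy h2
      (by linarith only [hρ1, h241]) hβ0 w7 g1 g2 g3) no

end

end Pool.Agent.MinMod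
end

-- merged part: Pool.Agent.Work.MP_f62247_an.Book
section
/-!
# Bookkeeping of the quadratic errors (real sequences only)

`δ k = |θ (k+1) - θ k|`, so `δ k² g k ≤ C0² X k² / g k ≤ C0³ μ Y k`.
Drift: `(θ k - θ j)² ≤ |k-j| ∑_{i between} δ i²`, `g j ≤ e^(|i-j|/100) g i`, and for fixed `i`, `∑_{j,k} e^(-|j-k|/2) |j-k| e^(|i-j|/100)` over pairs with `i` between
them is bounded (bound it by `∑_{j,k} C e^(-|j-i|/8) e^(-|k-i|/8)`).
`T j²`: `(a+b+c)² ≤ 3 (a²+b²+c²)`, Cauchy-Schwarz `(∑ w_i z_i)² ≤ (∑ w_i)(∑ w_i z_i²)`, `1 / g j ≤ e^(|i-j|/100) / g i`; for the term `μ |θ i-θ j| g i` split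
`e^(-|i-j|/2)` so that the drift sum with exponent `-|i-j|/4` appears (prove the drift bound for the exponent `1/4`).
A useful lemma: `∑_{i<m} e^(-a |i - j|) ≤ 2 / (1 - e^(-a))`.
-/

open Real MeasureTheory Set Filter Topology

namespace Pool.Agent.MinMod

noncomputable section

theorem Book_geom {r : ℝ} (h0 : 0 ≤ r) (h1 : r < 1) (s : Finset ℕ) (f : ℕ → ℕ)
    (hf : Set.InjOn f s) : ∑ i ∈ s, r ^ f i ≤ (1 - r)⁻¹ := by
  classical
  rw [← Finset.sum_image (f := fun k => r ^ k) hf, ← tsum_geometric_of_lt_one h0 h1]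
  exact (summable_geometric_of_lt_one h0 h1).sum_le_tsum _ fun i _ => pow_nonneg h0 i

theorem Book_sum : ∃ K : ℝ, 1 ≤ K ∧ ∀ m j : ℕ,
    ∑ i ∈ Finset.range m, exp (-|(i : ℝ) - j| / 20) ≤ K := by
  have h0 : 0 < exp (-1 / 20 : ℝ) := exp_pos _
  have h1 : exp (-1 / 20 : ℝ) < 1 := exp_lt_one_iff.2 (by norm_num)
  have h2 : 1 ≤ (1 - exp (-1 / 20 : ℝ))⁻¹ := (one_le_inv₀ (by linarith only [h1])).2 (by linarith)
  refine ⟨2 * (1 - exp (-1 / 20 : ℝ))⁻¹, by linarith only [h0, h1, h2], fun m j => ?_⟩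
  rw [← Finset.sum_filter_add_sum_filter_not (Finset.range m) (fun i => i ≤ j), two_mul]
  refine add_le_add ?_ ?_
  · refine le_trans (le_of_eq (Finset.sum_congr rfl fun i hi => ?_))
      (Book_geom h0.le h1 _ (fun i => j - i) fun a ha b hb hab => ?_)
    · have hi' := (Finset.mem_filter.1 hi).2
      have : (i : ℝ) ≤ j := by exact_mod_cast hi'
      rw [← exp_nat_mul, Nat.cast_sub hi', abs_of_nonpos (by linarith only [this])]
      congr 1
      ring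
    · have h3 := (Finset.mem_filter.1 ha).2
      have h4 := (Finset.mem_filter.1 hb).2
      simp only at hab
      omega
  · refine le_trans (le_of_eq (Finset.sum_congr rfl fun i hi => ?_))
      (Book_geom h0.le h1 _ (fun i => i - j) fun a ha b hb hab => ?_)
    · have hi' : j ≤ i := (not_le.1 (Finset.mem_filter.1 hi).2).le
      have : (j : ℝ) ≤ i := by exact_mod_cast hi'
      rw [← exp_nat_mul, Nat.cast_sub hi', abs_of_nonneg (by linarith only [this])]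
      congr 1
      ring
    · have h3 := (Finset.mem_filter.1 ha).2
      have h4 := (Finset.mem_filter.1 hb).2
      simp only at hab
      omega

theorem Book_le {K : ℝ} (hK : ∀ m j : ℕ, ∑ i ∈ Finset.range m, exp (-|(i : ℝ) - j| / 20) ≤ K)
    (m j : ℕ) {f : ℕ → ℝ} {c : ℝ} (hc : 0 ≤ c)
    (hf : ∀ i < m, f i ≤ exp (-|(i : ℝ) - j| / 20) * c) : ∑ i ∈ Finset.range m, f i ≤ K * c := by
  refine (Finset.sum_le_sum fun i hi => hf i (Finset.mem_range.1 hi)).trans ?_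
  rw [← Finset.sum_mul]
  exact mul_le_mul_of_nonneg_right (hK m j) hc

theorem Book_schur {K : ℝ} (hK1 : 1 ≤ K)
    (hK : ∀ m j : ℕ, ∑ i ∈ Finset.range m, exp (-|(i : ℝ) - j| / 20) ≤ K) (n : ℕ) (z h : ℕ → ℝ)
    (hh : ∀ j ≤ n, 0 ≤ h j) (hs : ∀ i ≤ n, ∀ j ≤ n, h j ≤ exp (|(i : ℝ) - j| / 100) * h i) :
    ∑ j ∈ Finset.range (n + 1), (∑ i ∈ Finset.range n, exp (-|(i : ℝ) - j| / 16) * z i) ^ 2 * h j ≤
      K ^ 2 * ∑ i ∈ Finset.range n, z i ^ 2 * h i := by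
  have a : ∀ j ∈ Finset.range (n + 1),
      (∑ i ∈ Finset.range n, exp (-|(i : ℝ) - j| / 16) * z i) ^ 2 * h j ≤
        ∑ i ∈ Finset.range n, exp (-|(j : ℝ) - i| / 20) * (K * (z i ^ 2 * h i)) := by
    intro j hj
    have hj' := Nat.lt_succ_iff.1 (Finset.mem_range.1 hj)
    have b := Finset.sum_sq_le_sum_mul_sum_of_sq_le_mul (Finset.range n)
      (r := fun i => exp (-|(i : ℝ) - j| / 16) * z i) (f := fun i => exp (-|(i : ℝ) - j| / 16))
      (g := fun i => exp (-|(i : ℝ) - j| / 16) * z i ^ 2) (fun i _ => (exp_pos _).le)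
      (fun i _ => by positivity) (fun i _ => le_of_eq (by ring))
    have c : ∑ i ∈ Finset.range n, exp (-|(i : ℝ) - j| / 16) ≤ K :=
      (Finset.sum_le_sum fun i _ => exp_le_exp.2 (by linarith only [abs_nonneg ((i : ℝ) - j)])).trans
        (hK n j)
    have d := b.trans (mul_le_mul_of_nonneg_right c (Finset.sum_nonneg fun i _ => by positivity))
    refine (mul_le_mul_of_nonneg_right d (hh j hj')).trans ?_
    rw [Finset.mul_sum, Finset.sum_mul]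
    refine Finset.sum_le_sum fun i hi => ?_
    have e := hs i (Finset.mem_range.1 hi).le j hj'
    have f : exp (-|(i : ℝ) - j| / 16) * exp (|(i : ℝ) - j| / 100) ≤ exp (-|(j : ℝ) - i| / 20) := by
      rw [← exp_add, abs_sub_comm (j : ℝ)]
      exact exp_le_exp.2 (by linarith only [abs_nonneg ((i : ℝ) - j)])
    have g := hh i (Finset.mem_range.1 hi).le
    calc K * (exp (-|(i : ℝ) - j| / 16) * z i ^ 2) * h j
        ≤ K * (exp (-|(i : ℝ) - j| / 16) * z i ^ 2) * (exp (|(i : ℝ) - j| / 100) * h i) :=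
          mul_le_mul_of_nonneg_left e (by positivity)
      _ = exp (-|(i : ℝ) - j| / 16) * exp (|(i : ℝ) - j| / 100) * (K * (z i ^ 2 * h i)) := by ring
      _ ≤ _ := mul_le_mul_of_nonneg_right f (by positivity)
  refine (Finset.sum_le_sum a).trans ?_
  rw [Finset.sum_comm, Finset.mul_sum]
  refine Finset.sum_le_sum fun i hi => ?_
  have g := hh i (Finset.mem_range.1 hi).le
  exact (Book_le hK (n + 1) i (by positivity) fun j _ => le_rfl).trans (le_of_eq (by ring))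

theorem Book_drift (θ : ℕ → ℝ) {n j k : ℕ} (hj : j ≤ n) (hk : k ≤ n) :
    |θ k - θ j| ≤ exp (|(k : ℝ) - j| / 16) *
      ∑ i ∈ Finset.range n, exp (-|(i : ℝ) - j| / 16) * |θ (i + 1) - θ i| := by
  have a : |θ k - θ j| ≤ ∑ i ∈ Finset.Ico (min j k) (max j k), |θ (i + 1) - θ i| := by
    have b := dist_le_Ico_sum_dist θ (min_le_max (a := j) (b := k))
    simp only [Real.dist_eq] at b
    simp only [fun i => abs_sub_comm (θ (i + 1)) (θ i)]
    refine le_trans (le_of_eq ?_) b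
    rcases le_total j k with h | h
    · rw [min_eq_left h, max_eq_right h, abs_sub_comm]
    · rw [min_eq_right h, max_eq_left h]
  refine a.trans ?_
  rw [Finset.mul_sum]
  refine (Finset.sum_le_sum fun i hi => ?_).trans (Finset.sum_le_sum_of_subset_of_nonneg
    (fun i hi => Finset.mem_range.2 ((Finset.mem_Ico.1 hi).2.trans_le (max_le hj hk)))
    fun i _ _ => by positivity)
  obtain ⟨h1, h2⟩ := Finset.mem_Ico.1 hi
  have c : |(i : ℝ) - j| ≤ |(k : ℝ) - j| := by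
    rcases le_total j k with h | h
    · rw [min_eq_left h] at h1
      rw [max_eq_right h] at h2
      have h1' : (j : ℝ) ≤ i := by exact_mod_cast h1
      have h2' : (i : ℝ) < k := by exact_mod_cast h2
      rw [abs_of_nonneg (by linarith only [h1']), abs_of_nonneg (by linarith only [h1', h2'])]
      linarith only [h2']
    · rw [min_eq_right h] at h1
      rw [max_eq_left h] at h2
      have h1' : (k : ℝ) ≤ i := by exact_mod_cast h1
      have h2' : (i : ℝ) < j := by exact_mod_cast h2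
      rw [abs_of_nonpos (by linarith only [h2']), abs_of_nonpos (by linarith)]
      linarith
  rw [← mul_assoc, ← exp_add]
  exact le_mul_of_one_le_left (abs_nonneg _) (one_le_exp (by linarith only [c]))

theorem Book_four (a b c d : ℝ) : (a + b + c + d) ^ 2 ≤ 4 * (a ^ 2 + b ^ 2 + c ^ 2 + d ^ 2) := by
  linarith only [sq_nonneg (a - b), sq_nonneg (a - c), sq_nonneg (a - d), sq_nonneg (b - c),
    sq_nonneg (b - d), sq_nonneg (c - d), sq_nonneg (c - d), sq_nonneg (b - d), sq_nonneg (b - c), sq_nonneg (a - d), sq_nonneg (a - c), sq_nonneg (a - b)]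

theorem Book_end {K : ℝ} (hK : ∀ m j : ℕ, ∑ i ∈ Finset.range m, exp (-|(i : ℝ) - j| / 20) ≤ K)
    (n : ℕ) (h : ℕ → ℝ) (hh : ∀ j ≤ n, 0 ≤ h j)
    (hs : ∀ i ≤ n, ∀ j ≤ n, h j ≤ exp (|(i : ℝ) - j| / 100) * h i) {k : ℕ} (hk : k ≤ n) (E : ℝ) :
    ∑ j ∈ Finset.range (n + 1), (exp (-|(j : ℝ) - k| / 2) * E) ^ 2 * h j ≤ K * (E ^ 2 * h k) := by
  have g := hh k hk
  refine Book_le hK (n + 1) k (by positivity) fun j hj => ?_
  have e := hs k hk j (Nat.lt_succ_iff.1 hj)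
  have f : exp (-|(j : ℝ) - k| / 2) ^ 2 * exp (|(k : ℝ) - j| / 100) ≤ exp (-|(j : ℝ) - k| / 20) := by
    rw [← exp_nat_mul, ← exp_add, abs_sub_comm (k : ℝ)]
    refine exp_le_exp.2 ?_
    push_cast
    linarith only [abs_nonneg ((j : ℝ) - k)]
  calc (exp (-|(j : ℝ) - k| / 2) * E) ^ 2 * h j
      ≤ (exp (-|(j : ℝ) - k| / 2) * E) ^ 2 * (exp (|(k : ℝ) - j| / 100) * h k) :=
        mul_le_mul_of_nonneg_left e (by positivity)
    _ = exp (-|(j : ℝ) - k| / 2) ^ 2 * exp (|(k : ℝ) - j| / 100) * (E ^ 2 * h k) := by ring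
    _ ≤ _ := mul_le_mul_of_nonneg_right f (by positivity)

theorem book {C0 : ℝ} (hC0 : 1 ≤ C0) : ∃ C : ℝ, 1 ≤ C ∧ ∀ (n : ℕ) (μ E0 En : ℝ)
    (g X Y θ T : ℕ → ℝ), 0 < μ → μ ≤ 1 → (∀ k ≤ n, 0 < g k) →
    (∀ i ≤ n, ∀ j ≤ n, g i ≤ exp (|(i : ℝ) - j| / 100) * g j) →
    (∀ k < n, 0 ≤ X k ∧ 0 ≤ Y k ∧ X k ^ 2 ≤ C0 * μ * g k * Y k ∧
      |θ (k + 1) - θ k| * g k ≤ C0 * X k) →
    (∀ j, T j = ∑ i ∈ Finset.range n, exp (-|(i : ℝ) - j| / 2) * (X i + μ * |θ i - θ j| * g i) +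
      exp (-(j : ℝ) / 2) * E0 + exp (-((n : ℝ) - j) / 2) * En) →
    ∑ j ∈ Finset.range (n + 1), T j ^ 2 / g j +
        ∑ j ∈ Finset.range (n + 1), ∑ k ∈ Finset.range (n + 1),
          exp (-|(j : ℝ) - k| / 2) * (θ k - θ j) ^ 2 * g j ≤
      C * μ * ∑ k ∈ Finset.range n, Y k + C * (E0 ^ 2 / g 0 + En ^ 2 / g n) := by
  obtain ⟨K, hK1, hK⟩ := Book_sum
  have hK0 : 0 ≤ K := by linarith
  have hC00 : 0 ≤ C0 := by linarith
  have p1 : 0 ≤ 4 * (K ^ 2 * C0) + (4 * K ^ 2 + K) * (K ^ 2 * C0 ^ 3) := by positivity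
  refine ⟨4 * (K ^ 2 * C0) + (4 * K ^ 2 + K) * (K ^ 2 * C0 ^ 3) + 4 * K, by linarith,
    fun n μ E0 En g X Y θ T hμ hμ1 hg hs hX hT => ?_⟩
  have hi0 : ∀ j ≤ n, 0 ≤ (g j)⁻¹ := fun j hj => (inv_pos.2 (hg j hj)).le
  have his : ∀ i ≤ n, ∀ j ≤ n, (g j)⁻¹ ≤ exp (|(i : ℝ) - j| / 100) * (g i)⁻¹ := by
    intro i hi j hj
    rw [← div_eq_mul_inv, inv_eq_one_div, div_le_div_iff₀ (hg j hj) (hg i hi), one_mul]
    exact hs i hi j hj
  have hs' : ∀ i ≤ n, ∀ j ≤ n, g j ≤ exp (|(i : ℝ) - j| / 100) * g i := by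
    intro i hi j hj
    rw [abs_sub_comm]
    exact hs j hj i hi
  set Q : ℕ → ℝ := fun j => ∑ i ∈ Finset.range n, exp (-|(i : ℝ) - j| / 16) * X i with hQ
  set R : ℕ → ℝ := fun j =>
    ∑ i ∈ Finset.range n, exp (-|(i : ℝ) - j| / 16) * |θ (i + 1) - θ i| with hR
  have hR0 : ∀ j, 0 ≤ R j := fun j => Finset.sum_nonneg fun i _ => by positivity
  have hY : 0 ≤ ∑ k ∈ Finset.range n, Y k :=
    Finset.sum_nonneg fun k hk => (hX k (Finset.mem_range.1 hk)).2.1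
  have s1 : ∑ j ∈ Finset.range (n + 1), Q j ^ 2 * (g j)⁻¹ ≤
      K ^ 2 * C0 * (μ * ∑ k ∈ Finset.range n, Y k) := by
    refine (Book_schur hK1 hK n X (fun j => (g j)⁻¹) hi0 his).trans ?_
    rw [mul_assoc]
    refine mul_le_mul_of_nonneg_left ?_ (by positivity)
    rw [Finset.mul_sum, Finset.mul_sum]
    refine Finset.sum_le_sum fun i hi => ?_
    have hi' := Finset.mem_range.1 hi
    rw [← div_eq_mul_inv, div_le_iff₀ (hg i hi'.le)]
    exact (hX i hi').2.2.1.trans (le_of_eq (by ring))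
  have s2 : ∑ j ∈ Finset.range (n + 1), R j ^ 2 * g j ≤
      K ^ 2 * C0 ^ 3 * (μ * ∑ k ∈ Finset.range n, Y k) := by
    clear * - n θ g K C0 μ Y hK1 hK hg hs' X hX hC0
    refine (Book_schur hK1 hK n (fun i => |θ (i + 1) - θ i|) g (fun j hj => (hg j hj).le)
      hs').trans ?_
    rw [mul_assoc]
    refine mul_le_mul_of_nonneg_left ?_ (by positivity)
    rw [Finset.mul_sum, Finset.mul_sum]
    refine Finset.sum_le_sum fun i hi => ?_
    have hi' := Finset.mem_range.1 hi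
    obtain ⟨x0, y0, x1, x2⟩ := hX i hi'
    have gi := hg i hi'.le
    refine le_of_mul_le_mul_right ?_ gi
    calc |θ (i + 1) - θ i| ^ 2 * g i * g i = (|θ (i + 1) - θ i| * g i) ^ 2 := by ring
      _ ≤ (C0 * X i) ^ 2 := pow_le_pow_left₀ (by positivity) x2 2
      _ = C0 ^ 2 * X i ^ 2 := by ring
      _ ≤ C0 ^ 2 * (C0 * μ * g i * Y i) := mul_le_mul_of_nonneg_left x1 (by positivity)
      _ = _ := by ring
  have s3 := Book_end hK n (fun j => (g j)⁻¹) hi0 his (Nat.zero_le n) E0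
  have s4 := Book_end hK n (fun j => (g j)⁻¹) hi0 his le_rfl En
  have t1 : ∀ j ∈ Finset.range (n + 1), T j ^ 2 / g j ≤
      4 * (Q j ^ 2 * (g j)⁻¹ + K ^ 2 * (R j ^ 2 * g j) +
        (exp (-|(j : ℝ) - (0 : ℕ)| / 2) * E0) ^ 2 * (g j)⁻¹ +
        (exp (-|(j : ℝ) - n| / 2) * En) ^ 2 * (g j)⁻¹) := by
    clear * - n g hg X Y C0 μ θ hX Q hμ K R hR0 hK hs hμ1 T E0 En hT
    intro j hj
    have hj' := Nat.lt_succ_iff.1 (Finset.mem_range.1 hj)
    have gj := hg j hj'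
    have hjn : (j : ℝ) ≤ n := by exact_mod_cast hj'
    have e0 : -|(j : ℝ) - (0 : ℕ)| = -(j : ℝ) := by
      rw [Nat.cast_zero, sub_zero, abs_of_nonneg (Nat.cast_nonneg j)]
    have en : -|(j : ℝ) - n| = -((n : ℝ) - j) := by
      rw [abs_of_nonpos (by linarith only [hjn])]
      ring
    have a0 : 0 ≤ ∑ i ∈ Finset.range n, exp (-|(i : ℝ) - j| / 2) * X i :=
      Finset.sum_nonneg fun i hi => mul_nonneg (exp_pos _).le (hX i (Finset.mem_range.1 hi)).1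
    have a1 : ∑ i ∈ Finset.range n, exp (-|(i : ℝ) - j| / 2) * X i ≤ Q j :=
      Finset.sum_le_sum fun i hi => mul_le_mul_of_nonneg_right
        (exp_le_exp.2 (by linarith only [abs_nonneg ((i : ℝ) - j)])) (hX i (Finset.mem_range.1 hi)).1
    have b0 : 0 ≤ ∑ i ∈ Finset.range n, exp (-|(i : ℝ) - j| / 2) * (μ * |θ i - θ j| * g i) :=
      Finset.sum_nonneg fun i hi => by
        have := hg i (Finset.mem_range.1 hi).le
        positivity
    have b1 : ∑ i ∈ Finset.range n, exp (-|(i : ℝ) - j| / 2) * (μ * |θ i - θ j| * g i) ≤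
        K * (R j * g j) := by
      clear * - R j hR0 K hK n μ θ g gj hj' hs hg hμ1
      have r0 := hR0 j
      refine Book_le hK n j (by positivity) fun i hi => ?_
      have d1 : |θ i - θ j| ≤ exp (|(i : ℝ) - j| / 16) * R j := Book_drift θ hj' hi.le
      have d2 := hs i hi.le j hj'
      have gi := hg i hi.le
      have f : exp (-|(i : ℝ) - j| / 2) * (exp (|(i : ℝ) - j| / 16) * exp (|(i : ℝ) - j| / 100)) ≤
          exp (-|(i : ℝ) - j| / 20) := by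
        rw [← exp_add, ← exp_add]
        exact exp_le_exp.2 (by linarith only [abs_nonneg ((i : ℝ) - j)])
      calc exp (-|(i : ℝ) - j| / 2) * (μ * |θ i - θ j| * g i)
          ≤ exp (-|(i : ℝ) - j| / 2) * (1 * (exp (|(i : ℝ) - j| / 16) * R j) *
            (exp (|(i : ℝ) - j| / 100) * g j)) := by gcongr
        _ = exp (-|(i : ℝ) - j| / 2) * (exp (|(i : ℝ) - j| / 16) * exp (|(i : ℝ) - j| / 100)) *
            (R j * g j) := by ring
        _ ≤ _ := mul_le_mul_of_nonneg_right f (by positivity)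
    have a2 := pow_le_pow_left₀ a0 a1 2
    have b2 := pow_le_pow_left₀ b0 b1 2
    rw [hT j, e0, en, div_le_iff₀ gj]
    simp only [mul_add (exp _), Finset.sum_add_distrib]
    refine (Book_four _ _ _ _).trans ?_
    have e : 4 * (Q j ^ 2 * (g j)⁻¹ + K ^ 2 * (R j ^ 2 * g j) +
        (exp (-(j : ℝ) / 2) * E0) ^ 2 * (g j)⁻¹ +
        (exp (-((n : ℝ) - j) / 2) * En) ^ 2 * (g j)⁻¹) * g j =
        4 * (Q j ^ 2 + (K * (R j * g j)) ^ 2 + (exp (-(j : ℝ) / 2) * E0) ^ 2 +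
        (exp (-((n : ℝ) - j) / 2) * En) ^ 2) := by
      clear * - Q j g K R E0 n En gj
      field_simp
    rw [e]
    clear * - n j X μ θ g E0 En Q K R a2 b2; linarith only [a2, b2]
  have t2 : ∀ j ∈ Finset.range (n + 1), ∑ k ∈ Finset.range (n + 1),
      exp (-|(j : ℝ) - k| / 2) * (θ k - θ j) ^ 2 * g j ≤ K * (R j ^ 2 * g j) := by
    clear * - n g hg K hK θ R
    intro j hj
    have hj' := Nat.lt_succ_iff.1 (Finset.mem_range.1 hj)
    have gj := hg j hj'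
    refine Book_le hK (n + 1) j (by positivity) fun k hk => ?_
    have d1 : |θ k - θ j| ≤ exp (|(k : ℝ) - j| / 16) * R j :=
      Book_drift θ hj' (Nat.lt_succ_iff.1 hk)
    have d2 := pow_le_pow_left₀ (abs_nonneg _) d1 2
    rw [sq_abs] at d2
    have f : exp (-|(j : ℝ) - k| / 2) * exp (|(k : ℝ) - j| / 16) ^ 2 ≤
        exp (-|(k : ℝ) - j| / 20) := by
      rw [← exp_nat_mul, ← exp_add, abs_sub_comm (j : ℝ)]
      refine exp_le_exp.2 ?_
      push_cast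
      linarith only [abs_nonneg ((k : ℝ) - j)]
    calc exp (-|(j : ℝ) - k| / 2) * (θ k - θ j) ^ 2 * g j
        ≤ exp (-|(j : ℝ) - k| / 2) * (exp (|(k : ℝ) - j| / 16) * R j) ^ 2 * g j := by gcongr
      _ = exp (-|(j : ℝ) - k| / 2) * exp (|(k : ℝ) - j| / 16) ^ 2 * (R j ^ 2 * g j) := by ring
      _ ≤ _ := mul_le_mul_of_nonneg_right f (by positivity)
  have u1 := Finset.sum_le_sum t1
  have u2 := Finset.sum_le_sum t2
  rw [← Finset.mul_sum] at u1 u2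
  simp only [Finset.sum_add_distrib] at u1
  rw [← Finset.mul_sum] at u1
  have v0 : 0 ≤ E0 ^ 2 * (g 0)⁻¹ := mul_nonneg (sq_nonneg _) (hi0 0 (Nat.zero_le n))
  have vn : 0 ≤ En ^ 2 * (g n)⁻¹ := mul_nonneg (sq_nonneg _) (hi0 n le_rfl)
  have vY : 0 ≤ μ * ∑ k ∈ Finset.range n, Y k := mul_nonneg hμ.le hY
  have w := mul_le_mul_of_nonneg_left s2 (show 0 ≤ 4 * K ^ 2 + K by positivity)
  have w1 := mul_nonneg p1 (add_nonneg v0 vn)
  have w2 := mul_nonneg hK0 vY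
  rw [div_eq_mul_inv (E0 ^ 2), div_eq_mul_inv (En ^ 2), mul_assoc _ μ]
  clear * - n T g θ K C0 μ Y E0 En Q R s1 s3 s4 u2 u1 w w1 w2; linarith only [s1, s3, s4, u2, u1, w, w1, w2]

end

end Pool.Agent.MinMod
end
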