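import Mathlib

/-!
The objects of the problem: maximum and minimum modulus, lower order, the constant `C(λ)`.
-/

open Filter

namespace Pool.Agent.MinMod

noncomputable section

/-- `M(r, f)`, the maximum of `|f|` on the circle `|z| = r`. -/
def maxMod (f : ℂ → ℂ) (r : ℝ) : ℝ := sSup ((fun z => ‖f z‖) '' Metric.sphere 0 r)

/-- `m₀(r, f)`, the minimum of `|f|` on the circle `|z| = r`. -/
def minMod (f : ℂ → ℂ) (r : ℝ) : ℝ := sInf ((fun z => ‖f z‖) '' Metric.sphere 0 r)

/-- The lower order `liminf log log M(r, f) / log r`, in the extended reals. -/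
def lowerOrder (f : ℂ → ℂ) : EReal :=
  liminf (fun r : ℝ => ((Real.log (Real.log (maxMod f r)) / Real.log r : ℝ) : EReal)) atTop

/-- The quotient `log m₀(r, f) / log M(r, f)`, with `log 0 = -∞`. -/
def modRatio (f : ℂ → ℂ) (r : ℝ) : EReal :=
  if minMod f r = 0 then ⊥ else ((Real.log (minMod f r) / Real.log (maxMod f r) : ℝ) : EReal)

/-- `C(λ)`: the infimum of `limsup log m₀ / log M` over the non-constant entire functions of
lower order `λ`. -/
def minModConst (lam : ℝ) : EReal :=
  ⨅ (f : ℂ → ℂ) (_ : Differentiable ℂ f ∧ (∃ z w, f z ≠ f w) ∧ lowerOrder f = (lam : EReal)),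
    limsup (modRatio f) atTop

end

end Pool.Agent.MinMod
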