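import Pool.Agent.Work.MP_f62247_an.SL
import Pool.Agent.Work.MP_f62247_an.Prob

/-!
# From the hypotheses on `f` to a long stretch of a configuration

`maxMod`, `minMod` are attained on the compact circle, points of the circle are `exp (x + iθ)`.  From `lowerOrder f = lam > 1`: eventually
`log M(r) ≥ r^(lam - σ)` (note `log (log M) > 0` forces `|log M| > 1`, and `M(r) ≥ |f w| > 0` is bounded below by the maximum principle, so `log M < -1` with
`log |log M| ≥ (lam-σ) log r` is impossible for large `r`), and frequently `log M(R) ≤ R^(lam + σ)`.  `f ≠ 0`, `f z = a z^p g z` with `g` entire, `g 0 = 1`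
(iterate `dslope`, or `AnalyticAt.exists_eventuallyEq_pow_smul_nonzero_iff`).  With `σ' = σ / 20`, `R = e^y`, `Bm = 2 e^((lam+σ') y)`, `red_cfg`,
`x1 = (1 - 3σ') y - C'`: for `x0 ≤ x ≤ x1`, `‖f (e^z)‖ = ‖F z‖ e^E`, `|E| ≤ |log ‖a‖| + p x + C Bm e^(2(x-y)) ≤ (η/20) e^((lam-σ') x)`.
Hence `|B x - log M| ≤ (η/20) log M`, and `Min (η/2)`.
-/

open Real MeasureTheory Set Filter Topology

namespace Pool.Agent.MinMod

noncomputable section

theorem FinA_norm_exp (x θ : ℝ) : ‖Complex.exp (x + θ * Complex.I)‖ = exp x := by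
  rw [Complex.norm_exp]
  simp

theorem FinA_polar {x : ℝ} {z : ℂ} (hz : ‖z‖ = exp x) :
    ∃ θ : ℝ, z = Complex.exp (x + θ * Complex.I) := by
  refine ⟨Complex.arg z, ?_⟩
  rw [Complex.exp_add, ← Complex.ofReal_exp, ← hz, Complex.norm_mul_exp_arg_mul_I]

theorem exists_maxMod {f : ℂ → ℂ} (hf : Continuous f) (x : ℝ) :
    (∃ θ : ℝ, maxMod f (exp x) = ‖f (Complex.exp (x + θ * Complex.I))‖) ∧
      (∃ θ : ℝ, minMod f (exp x) = ‖f (Complex.exp (x + θ * Complex.I))‖) ∧
      ∀ θ : ℝ, minMod f (exp x) ≤ ‖f (Complex.exp (x + θ * Complex.I))‖ ∧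
        ‖f (Complex.exp (x + θ * Complex.I))‖ ≤ maxMod f (exp x) := by
  have hc : IsCompact (Metric.sphere (0 : ℂ) (exp x)) := isCompact_sphere _ _
  have hmem : ∀ θ : ℝ, Complex.exp (x + θ * Complex.I) ∈ Metric.sphere (0 : ℂ) (exp x) := by
    intro θ
    rw [mem_sphere_zero_iff_norm, FinA_norm_exp]
  have hne : (Metric.sphere (0 : ℂ) (exp x)).Nonempty := ⟨_, hmem 0⟩
  have hn : ContinuousOn (fun z => ‖f z‖) (Metric.sphere (0 : ℂ) (exp x)) :=
    hf.norm.continuousOn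
  obtain ⟨z, hz, hz1, hz2⟩ := hc.exists_sSup_image_eq_and_ge hne hn
  obtain ⟨w, hw, hw1, hw2⟩ := hc.exists_sInf_image_eq_and_le hne hn
  obtain ⟨θ1, h1⟩ := FinA_polar (mem_sphere_zero_iff_norm.1 hz)
  obtain ⟨θ2, h2⟩ := FinA_polar (mem_sphere_zero_iff_norm.1 hw)
  refine ⟨⟨θ1, ?_⟩, ⟨θ2, ?_⟩, fun θ => ⟨?_, ?_⟩⟩
  · rw [← h1]; exact hz1
  · rw [← h2]; exact hw1
  · unfold minMod; rw [hw1]; exact hw2 _ (hmem θ)
  · unfold maxMod; rw [hz1]; exact hz2 _ (hmem θ)

theorem FinA_maxp {g : ℂ → ℂ} (hg : Differentiable ℂ g) {R C : ℝ} (hR : 0 < R)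
    (h : ∀ z : ℂ, ‖z‖ = R → ‖g z‖ ≤ C) {w : ℂ} (hw : ‖w‖ ≤ R) : ‖g w‖ ≤ C := by
  refine Complex.norm_le_of_forall_mem_frontier_norm_le (U := Metric.ball 0 R)
    Metric.isBounded_ball hg.diffContOnCl ?_ ?_
  · intro z hz
    rw [frontier_ball _ hR.ne', mem_sphere_zero_iff_norm] at hz
    exact h z hz
  · rw [closure_ball _ hR.ne', mem_closedBall_zero_iff]
    exact hw

theorem FinA_le_maxMod {f : ℂ → ℂ} (hf : Differentiable ℂ f) {x : ℝ} {w : ℂ}
    (hw : ‖w‖ ≤ exp x) : ‖f w‖ ≤ maxMod f (exp x) := by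
  refine FinA_maxp hf (exp_pos x) (fun z hz => ?_) hw
  obtain ⟨θ, rfl⟩ := FinA_polar hz
  exact ((exists_maxMod hf.continuous x).2.2 θ).2

theorem order_bounds {f : ℂ → ℂ} (hf : Differentiable ℂ f) {lam σ : ℝ} (h1 : 1 < lam)
    (ho : lowerOrder f = (lam : EReal)) (hσ : 0 < σ) :
    (∀ᶠ x in atTop, exp ((lam - σ) * x) ≤ Real.log (maxMod f (exp x))) ∧
      ∃ᶠ x in atTop, Real.log (maxMod f (exp x)) ≤ exp ((lam + σ) * x) := by
  unfold lowerOrder at ho
  constructor
  · set b : ℝ := max (lam - σ) 1 with hb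
    have hbl : b < lam := max_lt (by linarith only [hσ]) h1
    have hb1 : 1 ≤ b := le_max_right _ _
    have hb2 : lam - σ ≤ b := le_max_left _ _
    have he := eventually_lt_of_lt_liminf
      (u := fun r : ℝ => ((Real.log (Real.log (maxMod f r)) / Real.log r : ℝ) : EReal))
      (f := atTop) (b := (b : EReal)) (by rw [ho]; exact_mod_cast hbl)
    have he2 : ∀ᶠ x in atTop, b * x < Real.log (Real.log (maxMod f (exp x))) := by
      filter_upwards [tendsto_exp_atTop.eventually he, eventually_gt_atTop (0 : ℝ)] with x hx hx0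
      rw [Real.log_exp] at hx
      have hx' : b < Real.log (Real.log (maxMod f (exp x))) / x := by exact_mod_cast hx
      rwa [lt_div_iff₀ hx0] at hx'
    have hne : ∃ w, f w ≠ 0 := by
      by_contra hcon
      push Not at hcon
      obtain ⟨x, hx, hx0⟩ := (he2.and (eventually_gt_atTop (0 : ℝ))).exists
      obtain ⟨θ, hθ⟩ := (exists_maxMod hf.continuous x).1
      rw [hθ, hcon] at hx
      simp only [norm_zero, Real.log_zero] at hx
      linarith only [hx0, hx, hb1, mul_nonneg_of_nonpos_of_nonpos (Mathlib.Tactic.Linarith.sub_nonpos_of_le hb1) (le_of_lt (Mathlib.Tactic.Linarith.sub_neg_of_lt hx0))]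
    obtain ⟨w, hw⟩ := hne
    have hw0 : 0 < ‖f w‖ := norm_pos_iff.2 hw
    filter_upwards [he2, eventually_gt_atTop (0 : ℝ),
      tendsto_exp_atTop.eventually (eventually_ge_atTop ‖w‖),
      tendsto_exp_atTop.eventually (eventually_ge_atTop (-Real.log ‖f w‖))] with x hx hx0 hxw hxf
    set L := Real.log (maxMod f (exp x)) with hL
    have hL1 : Real.log ‖f w‖ ≤ L := Real.log_le_log hw0 (FinA_le_maxMod hf hxw)
    have hbx : x ≤ b * x := by linarith only [hb1, hx0, mul_nonneg_of_nonpos_of_nonpos (Mathlib.Tactic.Linarith.sub_nonpos_of_le hb1) (le_of_lt (Mathlib.Tactic.Linarith.sub_neg_of_lt hx0))]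
    have hL0 : L ≠ 0 := by
      intro h0
      rw [h0, Real.log_zero] at hx
      linarith
    have habs : exp (b * x) < |L| := by
      rw [← Real.exp_log (abs_pos.2 hL0), Real.log_abs]
      exact exp_lt_exp.2 hx
    have hex : exp x ≤ exp (b * x) := exp_le_exp.2 hbx
    have hex2 : exp ((lam - σ) * x) ≤ exp (b * x) := exp_le_exp.2 (by linarith only [hb2, hx0, mul_nonneg_of_nonpos_of_nonpos (Mathlib.Tactic.Linarith.sub_nonpos_of_le hb2) (le_of_lt (Mathlib.Tactic.Linarith.sub_neg_of_lt hx0))])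
    rcases le_or_gt 0 L with h | h
    · rw [abs_of_nonneg h] at habs
      linarith
    · rw [abs_of_neg h] at habs
      linarith
  · have hfr := frequently_lt_of_liminf_lt
      (u := fun r : ℝ => ((Real.log (Real.log (maxMod f r)) / Real.log r : ℝ) : EReal))
      (f := atTop) (b := ((lam + σ : ℝ) : EReal))
      (h := by rw [ho]; exact_mod_cast (by linarith : lam < lam + σ))
    refine Real.tendsto_log_atTop.frequently ?_
    refine (hfr.and_eventually (eventually_gt_atTop (1 : ℝ))).mono ?_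
    rintro r ⟨hr, hr1⟩
    have hr' : Real.log (Real.log (maxMod f r)) / Real.log r < lam + σ := by exact_mod_cast hr
    have hl : 0 < Real.log r := Real.log_pos hr1
    rw [div_lt_iff₀ hl] at hr'
    rw [Real.exp_log (by linarith)]
    exact (Real.le_exp_log _).trans (exp_le_exp.2 hr'.le)

theorem exists_factor_zero {f : ℂ → ℂ} (hf : Differentiable ℂ f) (h : ∃ z, f z ≠ 0) :
    ∃ (a : ℂ) (p : ℕ) (g : ℂ → ℂ), a ≠ 0 ∧ Differentiable ℂ g ∧ g 0 = 1 ∧
      ∀ z, f z = a * z ^ p * g z := by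
  classical
  have han : AnalyticOnNhd ℂ f univ := fun z _ => hf.analyticAt z
  have hnz : ¬∀ᶠ z in 𝓝 (0 : ℂ), f z = 0 := by
    intro h0
    obtain ⟨z, hz⟩ := h
    exact hz (han.eqOn_zero_of_preconnected_of_eventuallyEq_zero isPreconnected_univ
      (mem_univ 0) h0 (mem_univ z))
  obtain ⟨n, g, hg, hg0, hfg⟩ :=
    (hf.analyticAt 0).exists_eventuallyEq_pow_smul_nonzero_iff.2 hnz
  simp only [sub_zero, smul_eq_mul] at hfg
  refine ⟨g 0, n, fun z => (if z = 0 then g 0 else f z / z ^ n) / g 0, hg0, ?_, ?_, ?_⟩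
  · refine Differentiable.div_const ?_ _
    intro z
    by_cases hz : z = 0
    · subst hz
      refine hg.differentiableAt.congr_of_eventuallyEq ?_
      filter_upwards [hfg] with w hw
      by_cases hw0 : w = 0
      · simp [hw0]
      · rw [if_neg hw0, hw]
        field_simp
    · have hd : DifferentiableAt ℂ (fun w => f w / w ^ n) z :=
        (hf z).div (differentiableAt_id.pow n) (pow_ne_zero n hz)
      refine hd.congr_of_eventuallyEq ?_
      filter_upwards [isOpen_ne.mem_nhds hz] with w hw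
      rw [if_neg hw]
  · simp [hg0]
  · intro z
    by_cases hz : z = 0
    · subst hz
      have h0 := hfg.self_of_nhds
      simp only [if_true]
      rw [h0]
      field_simp
    · simp only [if_neg hz]
      field_simp

theorem FinA_point {f : ℂ → ℂ} (hf : Continuous f) (Z : Cfg) {x η : ℝ} (hη : 0 < η) (hη1 : η ≤ 1)
    (hM : 0 < Real.log (maxMod f (exp x)))
    (hm : modRatio f (exp x) ≤ ((-1 - η : ℝ) : EReal))
    (hE : ∀ θ : ℝ, ∃ E : ℝ, |E| ≤ η / 20 * Real.log (maxMod f (exp x)) ∧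
      ‖f (Complex.exp (x + θ * Complex.I))‖ = ‖Z.F (x + θ * Complex.I)‖ * exp E) :
    Z.Min (η / 2) x ∧ 19 / 20 * Real.log (maxMod f (exp x)) ≤ Z.B x ∧
      Z.B x ≤ 2 * Real.log (maxMod f (exp x)) := by
  obtain ⟨⟨θ1, h1⟩, ⟨θ2, h2⟩, h3⟩ := exists_maxMod hf x
  set M := Real.log (maxMod f (exp x)) with hMdef
  have hM0 : 0 < maxMod f (exp x) := by
    rcases (h1 ▸ norm_nonneg _ : 0 ≤ maxMod f (exp x)).lt_or_eq with h | h
    · exact h
    · rw [hMdef, ← h, Real.log_zero] at hM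
      exact absurd hM (lt_irrefl _)
  have hMe : maxMod f (exp x) = exp M := (Real.exp_log hM0).symm
  have hup : Z.B x ≤ M + η / 20 * M := by
    obtain ⟨θ, hθ⟩ := Z.exists_norm_F_eq x
    obtain ⟨E, hE1, hE2⟩ := hE θ
    have h4 := (h3 θ).2
    rw [hE2, hθ, hMe, ← exp_add, exp_le_exp] at h4
    have := (abs_le.1 hE1).1
    linarith only [h4, this]
  have hlo : M - η / 20 * M ≤ Z.B x := by
    obtain ⟨E, hE1, hE2⟩ := hE θ1
    have h4 : exp M ≤ exp (Z.B x + E) := by
      rw [← hMe, h1, hE2, exp_add]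
      exact mul_le_mul_of_nonneg_right (Z.norm_F_le x θ1) (exp_pos E).le
    rw [exp_le_exp] at h4
    have := (abs_le.1 hE1).2
    linarith only [h4, this]
  have hηM : η * M ≤ M := by linarith only [hη1, hM, mul_nonneg_of_nonpos_of_nonpos (Mathlib.Tactic.Linarith.sub_nonpos_of_le hη1) (le_of_lt (Mathlib.Tactic.Linarith.sub_neg_of_lt hM))]
  have hηM0 : 0 ≤ η * M := by positivity
  refine ⟨⟨θ2, ?_⟩, by linarith only [hlo, hηM], by linarith only [hM, hup, hηM]⟩
  obtain ⟨E, hE1, hE2⟩ := hE θ2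
  rw [← h2] at hE2
  by_cases h0 : minMod f (exp x) = 0
  · rw [h0] at hE2
    rcases mul_eq_zero.1 hE2.symm with h | h
    · rw [h]
      exact (exp_pos _).le
    · exact absurd h (exp_pos E).ne'
  · have hm0 : 0 < minMod f (exp x) :=
      lt_of_le_of_ne (h2 ▸ norm_nonneg _) (Ne.symm h0)
    unfold modRatio at hm
    rw [if_neg h0] at hm
    have hm' : Real.log (minMod f (exp x)) / M ≤ -1 - η := by exact_mod_cast hm
    rw [div_le_iff₀ hM] at hm'
    have hF : ‖Z.F (x + θ2 * Complex.I)‖ = exp (Real.log (minMod f (exp x)) - E) := by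
      rw [exp_sub, Real.exp_log hm0, hE2, mul_div_assoc, div_self (exp_pos E).ne', mul_one]
    rw [hF, exp_le_exp]
    have h5 := (abs_le.1 hE1).1
    have h6 : (1 + η / 2) * Z.B x ≤ (1 + η / 2) * (M + η / 20 * M) :=
      mul_le_mul_of_nonneg_left hup (by linarith only [hη])
    have h7 : η * (η * M) ≤ η * M := mul_le_mul_of_nonneg_left hηM hη.le
    linarith only [hup, hlo, hm', h5, h6, h7]

theorem FinA_lin (A B c : ℝ) (hc : 0 < c) : ∀ᶠ x : ℝ in atTop, A + B * x ≤ c * exp (x / 2) := by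
  have h1 : Tendsto (fun x : ℝ => exp (x / 4)) atTop atTop :=
    tendsto_exp_atTop.comp (tendsto_id.atTop_div_const (by norm_num))
  filter_upwards [h1.eventually (eventually_ge_atTop ((|A| + 4 * |B|) / c)),
    eventually_ge_atTop (0 : ℝ)] with x hx hx0
  rw [div_le_iff₀ hc] at hx
  have h2 : x / 4 + 1 ≤ exp (x / 4) := add_one_le_exp _
  have h3 : exp (x / 2) = exp (x / 4) * exp (x / 4) := by
    rw [← exp_add]
    ring_nf
  have h4 : (|A| + 4 * |B|) * (x / 4 + 1) ≤ exp (x / 4) * c * exp (x / 4) :=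
    mul_le_mul hx h2 (by linarith only [hx0]) (by positivity)
  have h5 := le_abs_self A
  have h6 : B * x ≤ |B| * x := mul_le_mul_of_nonneg_right (le_abs_self B) hx0
  have h7 : 0 ≤ |A| * x := by positivity
  have h8 := abs_nonneg B
  rw [h3]
  linarith only [h4, h5, h6, h7, h8]

theorem red_f {f : ℂ → ℂ} (hf : Differentiable ℂ f) {lam η : ℝ} (h1 : 1 < lam) (h2 : lam ≤ 11 / 10)
    (ho : lowerOrder f = (lam : EReal)) (hη : 0 < η) (hη1 : η ≤ 1)
    (hm : ∀ᶠ r in atTop, modRatio f r ≤ ((-1 - η : ℝ) : EReal)) {σ : ℝ} (hσ : 0 < σ) :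
    ∃ x0 C0 : ℝ, 0 ≤ x0 ∧ ∀ X : ℝ, ∃ (Z : Cfg) (x1 : ℝ), X ≤ x1 ∧
      (∀ x ∈ Icc x0 x1, Z.Min (η / 2) x ∧ exp ((lam - σ) * x) ≤ Z.B x) ∧ Z.B x0 ≤ C0 ∧
      Z.B x1 + Z.W x1 ≤ exp ((lam + σ) * x1) := by
  obtain ⟨s, hs0, hs1, hs2⟩ : ∃ s : ℝ, 0 < s ∧ 20 * s ≤ σ ∧ s ≤ 1 / 200 :=
    ⟨min (σ / 20) (1 / 200), lt_min (by linarith only [hσ]) (by norm_num),
      by have := min_le_left (σ / 20) (1 / 200 : ℝ); linarith only [this], min_le_right _ _⟩
  obtain ⟨hev, hfr⟩ := order_bounds hf h1 ho hs0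
  have hne : ∃ z, f z ≠ 0 := by
    by_contra hcon
    push Not at hcon
    obtain ⟨x, hx⟩ := hev.exists
    obtain ⟨θ, hθ⟩ := (exists_maxMod hf.continuous x).1
    rw [hθ, hcon] at hx
    simp only [norm_zero, Real.log_zero] at hx
    exact absurd hx (not_le.2 (exp_pos _))
  obtain ⟨a, p, g, ha, hg, hg0, hfg⟩ := exists_factor_zero hf hne
  obtain ⟨C, hC1, hC⟩ := red_cfg
  have ha0 : 0 < ‖a‖ := norm_pos_iff.2 ha
  set la := Real.log ‖a‖ with hla
  have hae : ‖a‖ = exp la := (Real.exp_log ha0).symm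
  have hnf : ∀ x θ : ℝ, ‖f (Complex.exp (x + θ * Complex.I))‖ =
      exp (la + p * x) * ‖g (Complex.exp (x + θ * Complex.I))‖ := by
    intro x θ
    rw [hfg, norm_mul, norm_mul, norm_pow, FinA_norm_exp, hae, exp_add, exp_nat_mul]
  obtain ⟨x0, hx0⟩ := eventually_atTop.1 (hev.and ((tendsto_exp_atTop.eventually hm).and
    ((FinA_lin |la| p (η / 40) (by linarith only [hη])).and
      ((eventually_ge_atTop (0 : ℝ)).and (eventually_ge_atTop (1 / s))))))
  have hx00 : 0 ≤ x0 := (hx0 x0 le_rfl).2.2.2.1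
  refine ⟨x0, 2 * Real.log (maxMod f (exp x0)), hx00, fun X => ?_⟩
  obtain ⟨y, hy, hy1, hy2, hy3, hy4, hy5, hy6⟩ := (hfr.and_eventually
    ((eventually_ge_atTop (2 * |X|)).and ((eventually_ge_atTop (2 * x0)).and
      ((eventually_ge_atTop |la|).and ((eventually_ge_atTop (7 / s)).and
        ((eventually_ge_atTop (160 * C / η / s)).and
          (eventually_ge_atTop (6 * C / s)))))))).exists
  have hy0 : 0 ≤ y := by linarith only [hx00, hy2]
  rw [div_le_iff₀ hs0] at hy4 hy5 hy6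
  rw [div_le_iff₀ hη] at hy5
  have hys : 0 ≤ y * s := by positivity
  have hys2 : y * s ≤ y * (1 / 200) := mul_le_mul_of_nonneg_left hs2 hy0
  set Bm := 2 * exp ((lam + s) * y) with hBm
  have hBm0 : 0 < Bm := by positivity
  have hgB : ∀ z : ℂ, ‖z‖ = exp y → ‖g z‖ ≤ exp Bm := by
    intro z hz
    obtain ⟨θ, rfl⟩ := FinA_polar hz
    have h3 := ((exists_maxMod hf.continuous y).2.2 θ).2
    rw [hnf] at h3
    have h4 : maxMod f (exp y) ≤ exp (exp ((lam + s) * y)) :=
      (Real.le_exp_log _).trans (exp_le_exp.2 hy)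
    have h5 : y ≤ exp ((lam + s) * y) := by
      have := add_one_le_exp ((lam + s) * y)
      linarith only [h2, hy4, this, h1, hs0, hs2, hx00, hy2, mul_pos_of_neg_of_neg (Mathlib.Tactic.Linarith.sub_neg_of_lt h1) (Mathlib.Tactic.Linarith.sub_neg_of_lt hs0), mul_nonneg_of_nonpos_of_nonpos (le_of_lt (Mathlib.Tactic.Linarith.sub_neg_of_lt h1)) (Mathlib.Tactic.Linarith.sub_nonpos_of_le hs2), mul_nonneg_of_nonpos_of_nonpos (le_of_lt (Mathlib.Tactic.Linarith.sub_neg_of_lt h1)) (Mathlib.Tactic.Linarith.sub_nonpos_of_le hx00), mul_nonneg_of_nonpos_of_nonpos (le_of_lt (Mathlib.Tactic.Linarith.sub_neg_of_lt h1)) (Mathlib.Tactic.Linarith.sub_nonpos_of_le hy2)]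
    have h6 : 0 ≤ (p : ℝ) * y := by positivity
    have h7 := neg_abs_le la
    have h8 : exp (exp ((lam + s) * y)) ≤ exp (la + p * y) * exp Bm := by
      rw [← exp_add, exp_le_exp]
      linarith only [hy3, h5, h6, h7]
    exact le_of_mul_le_mul_left (h3.trans (h4.trans h8)) (exp_pos _)
  obtain ⟨Z, hZ1, hZ2⟩ := hC g (exp y) Bm hg hg0 (exp_pos y) hBm0 hgB
  set x1 := (1 - 3 * s) * y with hx1
  have hx1y : x1 = y - 3 * (y * s) := by rw [hx1]; ring
  have h8 : ∀ x, x ≤ x1 → exp x ≤ exp y / 8 := by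
    intro x hx
    rw [le_div_iff₀ (by norm_num)]
    have h3 : exp y = exp x * exp (y - x) := by rw [← exp_add]; ring_nf
    have h4 := add_one_le_exp (y - x)
    rw [h3]
    exact mul_le_mul_of_nonneg_left (by linarith only [hs0, hs2, hy4, hx, h4]) (exp_pos x).le
  have hkey : ∀ x ∈ Icc x0 x1, Z.Min (η / 2) x ∧
      19 / 20 * Real.log (maxMod f (exp x)) ≤ Z.B x ∧
      Z.B x ≤ 2 * Real.log (maxMod f (exp x)) := by
    intro x hx
    obtain ⟨hM, hmx, hlin, hxp, -⟩ := hx0 x hx.1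
    refine FinA_point hf.continuous Z hη hη1 ((exp_pos _).trans_le hM) hmx (fun θ => ?_)
    obtain ⟨E, hE1, hE2⟩ := hZ1 x θ (h8 x hx.2)
    refine ⟨la + p * x + E, ?_, ?_⟩
    · have h3 : exp (x / 2) ≤ exp ((lam - s) * x) := exp_le_exp.2 (by (refine le_of_not_gt fun h_nl => ?_; linarith only [h_nl, hxp, h1, h2, hs2, mul_nonneg_of_nonpos_of_nonpos (le_of_lt (Mathlib.Tactic.Linarith.sub_neg_of_lt h1)) (Mathlib.Tactic.Linarith.sub_nonpos_of_le hxp), mul_pos_of_neg_of_neg (Mathlib.Tactic.Linarith.sub_neg_of_lt h1) (Mathlib.Tactic.Linarith.sub_neg_of_lt h_nl), mul_nonneg_of_nonpos_of_nonpos (Mathlib.Tactic.Linarith.sub_nonpos_of_le h2) (le_of_lt (Mathlib.Tactic.Linarith.sub_neg_of_lt h_nl)), mul_nonneg_of_nonpos_of_nonpos (Mathlib.Tactic.Linarith.sub_nonpos_of_le hs2) (Mathlib.Tactic.Linarith.sub_nonpos_of_le hxp)]))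
      have h4 : C * Bm * (exp x / exp y) ^ 2 ≤ η / 40 * exp ((lam - s) * x) := by
        have e1 : C * Bm * (exp x / exp y) ^ 2 =
            2 * C * exp ((lam + s) * y + 2 * (x - y)) := by
          rw [← exp_sub, ← exp_nat_mul, hBm, exp_add]
          push_cast
          ring
        have e2 : (lam + s) * y + 2 * (x - y) + y * s / 2 ≤ (lam - s) * x := by
          have e3 : (2 - lam + s) * x ≤ (2 - lam + s) * x1 :=
            mul_le_mul_of_nonneg_left hx.2 (by linarith only [h2, hs0, hs2])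
          have e4 : (9 / 10) * (y * s) ≤ (2 - lam) * (y * s) :=
            mul_le_mul_of_nonneg_right (by linarith only [h2]) hys
          have e5 : 0 ≤ s * (y * s) := by positivity
          rw [hx1y] at e3
          linarith only [hs0, hs2, hy4, e3, e4, e5]
        have e6 : exp ((lam + s) * y + 2 * (x - y)) * exp (y * s / 2) ≤ exp ((lam - s) * x) := by
          rw [← exp_add]
          exact exp_le_exp.2 e2
        have e7 := add_one_le_exp (y * s / 2)
        have e8 : 2 * C ≤ η / 40 * exp (y * s / 2) := by (refine le_of_not_gt fun h_nl => ?_; linarith only [h_nl, hy5, h1, h2, hη, hs0, hs2, e7, mul_pos_of_neg_of_neg (Mathlib.Tactic.Linarith.sub_neg_of_lt h1) (Mathlib.Tactic.Linarith.sub_neg_of_lt h_nl), mul_nonneg_of_nonpos_of_nonpos (Mathlib.Tactic.Linarith.sub_nonpos_of_le h2) (le_of_lt (Mathlib.Tactic.Linarith.sub_neg_of_lt h_nl)), mul_pos_of_neg_of_neg (Mathlib.Tactic.Linarith.sub_neg_of_lt hη) (Mathlib.Tactic.Linarith.sub_neg_of_lt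 hs0), mul_nonneg_of_nonpos_of_nonpos (le_of_lt (Mathlib.Tactic.Linarith.sub_neg_of_lt hη)) (Mathlib.Tactic.Linarith.sub_nonpos_of_le hs2), mul_nonneg_of_nonpos_of_nonpos (le_of_lt (Mathlib.Tactic.Linarith.sub_neg_of_lt hη)) (Mathlib.Tactic.Linarith.sub_nonpos_of_le e7)])
        have e9 := exp_pos ((lam + s) * y + 2 * (x - y))
        rw [e1]
        calc 2 * C * exp ((lam + s) * y + 2 * (x - y))
            ≤ η / 40 * exp (y * s / 2) * exp ((lam + s) * y + 2 * (x - y)) :=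
              mul_le_mul_of_nonneg_right e8 e9.le
          _ = η / 40 * (exp ((lam + s) * y + 2 * (x - y)) * exp (y * s / 2)) := by ring
          _ ≤ η / 40 * exp ((lam - s) * x) := mul_le_mul_of_nonneg_left e6 (by linarith only [hη])
      have h5 : |la + p * x + E| ≤ |la| + p * x + |E| := by
        have h6 : 0 ≤ (p : ℝ) * x := by positivity
        have h7 := abs_add_le (la + p * x) E
        have h9 := abs_add_le la (p * x)
        rw [abs_of_nonneg h6] at h9
        linarith only [h7, h9]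
      have h10 : η / 40 * exp (x / 2) ≤ η / 40 * exp ((lam - s) * x) :=
        mul_le_mul_of_nonneg_left h3 (by linarith only [hη])
      have h11 : η / 20 * exp ((lam - s) * x) ≤ η / 20 * Real.log (maxMod f (exp x)) :=
        mul_le_mul_of_nonneg_left hM (by linarith only [hη])
      linarith only [hlin, hE1, h4, h5, h10, h11]
    · rw [hnf, hE2, exp_add (la + p * x) E]
      ring
  have hx01 : x0 ≤ x1 := by linarith only [hs0, hs2, hy2, hy4, hys2]
  refine ⟨Z, x1, ?_, fun x hx => ⟨(hkey x hx).1, ?_⟩, (hkey x0 ⟨le_rfl, hx01⟩).2.2, ?_⟩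
  · have := le_abs_self X
    have := abs_nonneg X
    linarith
  · obtain ⟨hM, -, -, hxp, hxs⟩ := hx0 x hx.1
    rw [div_le_iff₀ hs0] at hxs
    have h3 := (hkey x hx).2.1
    have h4 : exp ((lam - σ) * x) * exp 1 ≤ exp ((lam - s) * x) := by
      rw [← exp_add, exp_le_exp]
      (refine le_of_not_gt fun h_nl => ?_; linarith only [h_nl, hs2, hxs, h1, h2, hs0, hs1, hxp, mul_pos_of_neg_of_neg (Mathlib.Tactic.Linarith.sub_neg_of_lt h1) (Mathlib.Tactic.Linarith.sub_neg_of_lt h_nl), mul_nonneg_of_nonpos_of_nonpos (Mathlib.Tactic.Linarith.sub_nonpos_of_le h2) (le_of_lt (Mathlib.Tactic.Linarith.sub_neg_of_lt h_nl)), mul_pos_of_neg_of_neg (Mathlib.Tactic.Linarith.sub_neg_of_lt hs0) (Mathlib.Tactic.Linarith.sub_neg_of_lt hs0), mul_nonneg_of_nonpos_of_nonpos (le_of_lt (Mathlib.Tactic.Linarith.sub_neg_of_lt hs0)) (Mathlib.Tactic.Linarith.sub_nonpos_of_le hs2), mul_nonneg_of_nonpos_of_nonpos (Mathlib.Tactic.Linarith.sub_nonpos_of_le hs1) (Mathlib.Tactic.Linarith.sub_nonpos_of_le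 hxp)])
    have h5 := add_one_le_exp (1 : ℝ)
    have h6 := exp_pos ((lam - σ) * x)
    (refine le_of_not_gt fun h_nl => ?_; linarith only [h_nl, hM, h3, h4, hs0, h6, hs2, h5, mul_pos_of_neg_of_neg (Mathlib.Tactic.Linarith.sub_neg_of_lt hs0) (Mathlib.Tactic.Linarith.sub_neg_of_lt h6), mul_pos_of_neg_of_neg (Mathlib.Tactic.Linarith.sub_neg_of_lt hs0) (Mathlib.Tactic.Linarith.sub_neg_of_lt h_nl), mul_nonneg_of_nonpos_of_nonpos (Mathlib.Tactic.Linarith.sub_nonpos_of_le hs2) (le_of_lt (Mathlib.Tactic.Linarith.sub_neg_of_lt h6)), mul_nonneg_of_nonpos_of_nonpos (Mathlib.Tactic.Linarith.sub_nonpos_of_le hs2) (le_of_lt (Mathlib.Tactic.Linarith.sub_neg_of_lt h_nl)), mul_nonneg_of_nonpos_of_nonpos (Mathlib.Tactic.Linarith.sub_nonpos_of_le h5) (le_of_lt (Mathlib.Tactic.Linarith.sub_neg_of_lt h6))])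
  · have hx1p : 0 ≤ x1 := hx00.trans hx01
    have hx1le : x1 ≤ y := by linarith only [hs0, hs2, hy4]
    have hW := hZ2 x1 (exp_le_exp.2 hx1le)
    have hB : Z.B x1 ≤ Bm + C * Bm := by
      obtain ⟨θ, hθ⟩ := Z.exists_norm_F_eq x1
      obtain ⟨E, hE1, hE2⟩ := hZ1 x1 θ (h8 x1 le_rfl)
      have h3 : ‖g (Complex.exp (x1 + θ * Complex.I))‖ ≤ exp Bm :=
        FinA_maxp hg (exp_pos y) hgB (by rw [FinA_norm_exp]; exact exp_le_exp.2 hx1le)
      rw [hE2, hθ, ← exp_add, exp_le_exp] at h3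
      have h4 : (exp x1 / exp y) ^ 2 ≤ 1 := by
        apply pow_le_one₀ (by positivity)
        rw [div_le_one (exp_pos y)]
        exact exp_le_exp.2 hx1le
      have h5 : C * Bm * (exp x1 / exp y) ^ 2 ≤ C * Bm * 1 :=
        mul_le_mul_of_nonneg_left h4 (by positivity)
      have h6 := (abs_le.1 hE1).1
      linarith only [h3, h5, h6]
    have h7 : exp ((lam + s) * y) * exp (y * s) ≤ exp ((lam + σ) * x1) := by
      rw [← exp_add, exp_le_exp]
      have e1 : (lam + 20 * s) * x1 ≤ (lam + σ) * x1 :=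
        mul_le_mul_of_nonneg_right (by linarith only [hs1]) hx1p
      have e2 : lam * (y * s) ≤ 11 / 10 * (y * s) := mul_le_mul_of_nonneg_right h2 hys
      have e3 : s * (y * s) ≤ 1 / 200 * (y * s) := mul_le_mul_of_nonneg_right hs2 hys
      rw [hx1y] at e1 ⊢
      linarith only [hs0, hs2, hy4, e1, e2, e3]
    have h9 := add_one_le_exp (y * s)
    have h10 := exp_pos ((lam + s) * y)
    have h11 : exp ((lam + s) * y) * (6 * C) ≤ exp ((lam + s) * y) * exp (y * s) :=
      mul_le_mul_of_nonneg_left (by linarith only [hs0, hs2, hy6, h9]) h10.le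
    have h12 : exp ((lam + s) * y) * 1 ≤ exp ((lam + s) * y) * C :=
      mul_le_mul_of_nonneg_left hC1 h10.le
    rw [hBm] at hB hW
    linarith only [hW, hB, h7, h11, h12]

end

end Pool.Agent.MinMod
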