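import Pool.Agent.Work.MP_f62247_an.G1a

/-!
# Coherent directions of the minimum in a quiet window

Put `l = L 0 > 0`.  Quiet: `l ≤ L x ≤ (1 + c0) l ≤ 2 l` on `[0, T]` (`L_mono`).  Then `W x ≤ C e^x l`, `‖cc x‖ ≤ K l` is assumed, `B (x+3) ≤ C K e^x l` (`B_le`).
`R0 = 2 C²` (`mass_lower`) so that every window of length `R0` in `[0, T]` carries `∑ e^(-ξ) ≥ l`; hence
`B x ≥ e^(x - R0 - 1) l` for `x ≥ R0 + 1` (`sum_le_B` with the window `[x - R0 - 1, x - 1)`).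
(Return `R0 + 2`.)  Given `ρ0`, choose `r` small, `N = ⌈1/r²⌉`, `ρ = 1 / N`, then `c1`.  For each `i` use `select` on `[iρ, (i+1)ρ]` with
`A i = {a : |ξ a - iρ| ≤ 2 r}`, `M = c0 l`.  `axis` (window `[x - R0 - 1, x - 1)`, radius `R0 + 2`) gives `|sin (γ i - γ (i+1))| ≤ ϑ := ρ / (100 (T+1))`;
`no_flip` at `x = p (i+1)`, `x' = p i` with `d = 2ρ`, `G = C (1 - log ρ)` (note `r (1 - log ρ) → 0` if `ρ ≍ r²`) gives `cos > 0`; so
`‖e^(iγ i) - e^(iγ (i+1))‖ ≤ 2 ϑ` and the sum over at most `T N` steps is at most `1/50`.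
-/

open Real MeasureTheory Set Filter Topology

namespace Pool.Agent.MinMod

noncomputable section

theorem G1b_chord {γ γ' t : ℝ} (ht : 0 ≤ t) (hs : sin (γ - γ') ^ 2 ≤ t ^ 2)
    (hc : 0 < cos (γ - γ')) :
    ‖Complex.exp (γ * Complex.I) - Complex.exp (γ' * Complex.I)‖ ≤ 2 * t := by
  have h1 : ‖Complex.exp (γ * Complex.I) - Complex.exp (γ' * Complex.I)‖ ^ 2 =
      2 - 2 * cos (γ - γ') := by
    rw [Complex.sq_norm, Complex.normSq_apply, Complex.sub_re, Complex.sub_im,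
      Complex.exp_ofReal_mul_I_re, Complex.exp_ofReal_mul_I_re, Complex.exp_ofReal_mul_I_im,
      Complex.exp_ofReal_mul_I_im, cos_sub]
    linear_combination sin_sq_add_cos_sq γ + sin_sq_add_cos_sq γ'
  refine (pow_le_pow_iff_left₀ (norm_nonneg _) (by positivity) two_ne_zero).1 ?_
  have h2 := sin_sq_add_cos_sq (γ - γ')
  have h3 := cos_le_one (γ - γ')
  rw [h1]
  linarith only [hs, h2, hc, h1, sq_nonneg t, sq_nonneg t, mul_nonneg_of_nonpos_of_nonpos (Mathlib.Tactic.Linarith.sub_nonpos_of_le (sq_nonneg ‖Complex.exp (↑γ * Complex.I) - Complex.exp (↑γ' * Complex.I)‖)) (le_of_lt (Mathlib.Tactic.Linarith.sub_neg_of_lt hc)), Mathlib.Tactic.Linarith.mul_zero_eq (Mathlib.Tactic.Linarith.sub_neg_of_lt hc) (sub_eq_zero_of_eq h1)]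

theorem G1b_chain {f : ℕ → ℂ} {a b : ℕ} {t : ℝ}
    (h : ∀ i, a ≤ i → i + 1 < b → ‖f (i + 1) - f i‖ ≤ t) {i : ℕ} (hi : a ≤ i) (k : ℕ)
    (hk : i + k < b) : ‖f (i + k) - f i‖ ≤ k * t := by
  induction k with
  | zero => simp
  | succ k ih =>
    have h1 := ih (by omega)
    have h2 := h (i + k) (by omega) (by omega)
    have h3 := norm_sub_le_norm_sub_add_norm_sub (f (i + k + 1)) (f (i + k)) (f i)
    rw [← add_assoc]
    push_cast
    linarith only [h1, h2, h3]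

theorem G1b_small (a b ρ0 δ : ℝ) (hρ : 0 < ρ0) (hδ : 0 < δ) : ∃ m : ℕ, 32 ≤ m ∧
    1 / (m : ℝ) ≤ ρ0 ∧ (a + b * Real.log m) / m ≤ δ := by
  have h1 : Tendsto (fun x : ℝ => 1 / x) atTop (𝓝 0) := tendsto_const_nhds.div_atTop tendsto_id
  have h2 : Tendsto (fun x : ℝ => Real.log x / x) atTop (𝓝 0) := by
    simpa using Real.tendsto_pow_log_div_mul_add_atTop 1 0 1 one_ne_zero
  have h3 : Tendsto (fun x : ℝ => (a + b * Real.log x) / x) atTop (𝓝 0) := by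
    have := (h1.const_mul a).add (h2.const_mul b)
    simp only [mul_zero, add_zero] at this
    refine this.congr fun x => ?_
    ring
  have h4 := (tendsto_natCast_atTop_atTop (R := ℝ)).eventually
    ((h1.eventually (ge_mem_nhds hρ)).and (h3.eventually (ge_mem_nhds hδ)))
  obtain ⟨m, hm, hm'⟩ := ((eventually_ge_atTop 32).and h4).exists
  exact ⟨m, hm, hm'.1, hm'.2⟩

namespace Cfg

/-- Every window of length `R` carries many zeros. -/
theorem G1b_window : ∃ R : ℕ, ∀ (Z : Cfg) (T l x : ℝ), 0 < l →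
    (∀ y ∈ Icc (0 : ℝ) T, l ≤ Z.L y ∧ Z.L y ≤ 2 * l) → R + 1 ≤ x → x ≤ T →
    ∃ A ⊆ Z.s, (∀ a ∈ A, x - (R + 1) ≤ Z.ξ a ∧ Z.ξ a ≤ x - 1) ∧
      exp (-(R + 1 : ℝ)) * (exp x * l) ≤ A.card ∧ (A.card : ℝ) ≤ Z.B x := by
  obtain ⟨C, hC, H⟩ := mass_lower
  refine ⟨⌈2 * C ^ 2⌉₊, fun Z T l x hl hL hx hxT => ?_⟩
  have hR : 2 * C ^ 2 ≤ (⌈2 * C ^ 2⌉₊ : ℝ) := Nat.le_ceil _
  set R : ℝ := ((⌈2 * C ^ 2⌉₊ : ℕ) : ℝ) with hRdef
  have hR0 : 0 ≤ R := by positivity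
  have h1 := H Z (x - (R + 1)) (x - 1) l (by linarith)
    fun y hy => hL y ⟨by linarith [hy.1], by linarith [hy.2]⟩
  set A := Z.s.filter fun a => x - (R + 1) ≤ Z.ξ a ∧ Z.ξ a < x - 1 with hA
  have hmem : ∀ a ∈ A, x - (R + 1) ≤ Z.ξ a ∧ Z.ξ a ≤ x - 1 := fun a ha =>
    ⟨(Finset.mem_filter.1 ha).2.1, (Finset.mem_filter.1 ha).2.2.le⟩
  refine ⟨A, Finset.filter_subset _ _, hmem, ?_, ?_⟩
  · have h2 : ∑ a ∈ A, exp (-Z.ξ a) ≤ A.card * exp (-(x - (R + 1))) := by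
      rw [← nsmul_eq_mul]
      exact Finset.sum_le_card_nsmul _ _ _ fun a ha => exp_le_exp.2 (neg_le_neg (hmem a ha).1)
    have h3 : l ≤ l * (x - 1 - (x - (R + 1))) / C - C * l := by
      have h4 : 2 * C * l ≤ l * (x - 1 - (x - (R + 1))) / C := by
        rw [le_div_iff₀ (by linarith only [hC])]
        linarith only [hl, hR, mul_nonneg_of_nonpos_of_nonpos (le_of_lt (Mathlib.Tactic.Linarith.sub_neg_of_lt hl)) (Mathlib.Tactic.Linarith.sub_nonpos_of_le hR)]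
      linarith only [h4, hC, hl, mul_nonneg_of_nonpos_of_nonpos (Mathlib.Tactic.Linarith.sub_nonpos_of_le hC) (le_of_lt (Mathlib.Tactic.Linarith.sub_neg_of_lt hl))]
    have h5 : exp (-(R + 1)) * exp x * exp (-(x - (R + 1))) = 1 := by
      rw [← exp_add, ← exp_add, ← exp_zero]; congr 1; ring
    calc exp (-(R + 1)) * (exp x * l) = exp (-(R + 1)) * exp x * l := by ring
      _ ≤ exp (-(R + 1)) * exp x * (A.card * exp (-(x - (R + 1)))) :=
          mul_le_mul_of_nonneg_left (by linarith only [h1, h2, h3]) (by positivity)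
      _ = A.card * (exp (-(R + 1)) * exp x * exp (-(x - (R + 1)))) := by ring
      _ = A.card := by rw [h5, mul_one]
  · refine le_trans ?_ (Z.sum_le_B x)
    refine le_trans ?_ (Finset.sum_le_sum_of_subset_of_nonneg (Finset.filter_subset _ _ : A ⊆ Z.s)
      fun a _ _ => le_max_right _ _)
    have := Finset.card_nsmul_le_sum A (fun a => max (x - Z.ξ a) 0) 1
      fun a ha => le_max_of_le_left (by linarith only [hmem, ha, (hmem a ha).2])
    rw [nsmul_eq_mul, mul_one] at this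
    exact this

theorem coherent : ∃ R0 : ℕ, ∀ (K ρ0 : ℝ) (T : ℕ), 1 ≤ K → 0 < ρ0 → ∃ N : ℕ, 64 ≤ N ∧
    1 / (N : ℝ) ≤ ρ0 ∧ ∃ c1 : ℝ, 0 < c1 ∧ c1 ≤ 1 ∧ ∀ (c0 : ℝ) (Z : Cfg), 0 < c0 → c0 ≤ c1 → 0 < Z.L 0 →
      (∀ x ∈ Icc (0 : ℝ) T, Z.Min 0 x) → Z.L T ≤ (1 + c0) * Z.L 0 →
      (∀ x ∈ Icc (0 : ℝ) T, ‖Z.cc x‖ ≤ K * Z.L 0) →
      ∃ p γ : ℕ → ℝ, (∀ i < T * N, (i : ℝ) / N ≤ p i ∧ p i ≤ (i + 1) / N ∧ Z.Reg (p i) ∧
          Z.U (p i) (γ i) ≤ -Z.B (p i) ∧ exp (-p i) * Z.om (p i) ≤ 4 * N * c0 * Z.L 0) ∧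
        ∀ i j, R0 * N ≤ i → R0 * N ≤ j → i < T * N → j < T * N →
          ‖Complex.exp (γ i * Complex.I) - Complex.exp (γ j * Complex.I)‖ ≤ 1 / 10 := by
  obtain ⟨R, HR⟩ := G1b_window
  obtain ⟨Cw, hCw, Hw⟩ := W_L
  obtain ⟨Cs, hCs, Hs⟩ := select
  obtain ⟨Cn, hCn, Hn⟩ := no_flip
  obtain ⟨Ca, hCa, Ha⟩ := axis (R + 2)
  refine ⟨R + 2, fun K ρ0 T hK hρ0 => ?_⟩
  obtain ⟨δ, hδ⟩ : ∃ δ, δ = exp (-(R + 1 : ℝ)) := ⟨_, rfl⟩
  have hδ0 : 0 < δ := hδ ▸ exp_pos _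
  obtain ⟨Q, hQ⟩ : ∃ Q, Q = exp 3 * K + 2 * exp 6 * Cw := ⟨_, rfl⟩
  have hQ0 : 0 ≤ Q := by rw [hQ]; positivity
  obtain ⟨m, hm, hmρ, hmδ⟩ := G1b_small (6 * Cn * K + 12 * Cn * Cw + 3 * Cn * Q * (1 + Cs))
    (6 * Cn * Q * Cs) ρ0 (δ / 4) hρ0 (by positivity)
  have hm' : (32 : ℝ) ≤ m := by exact_mod_cast hm
  have hm0 : (0 : ℝ) < m := by linarith only [hm']
  obtain ⟨r, hr⟩ : ∃ r : ℝ, r = 1 / m := ⟨_, rfl⟩
  have hr0 : 0 < r := by rw [hr]; positivity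
  have hr1 : r ≤ 1 / 32 := by rw [hr]; exact one_div_le_one_div_of_le (by norm_num) hm'
  have hN : ((m ^ 2 : ℕ) : ℝ) = 1 / r ^ 2 := by rw [hr]; push_cast; field_simp
  obtain hlog : Real.log (r ^ 2) = -2 * Real.log m := by
    rw [Real.log_pow, hr, one_div, Real.log_inv]; push_cast; ring
  have hlog0 : 0 ≤ Real.log m := Real.log_nonneg (by linarith only [hm'])
  obtain ⟨G, hG⟩ : ∃ G, G = Cs * (1 - Real.log (r ^ 2)) := ⟨_, rfl⟩
  have hG0 : 0 ≤ G := by rw [hG, hlog]; exact mul_nonneg (by linarith only [hCs]) (by linarith only [hlog0])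
  obtain ⟨t, ht⟩ : ∃ t : ℝ, t = r ^ 2 / (100 * (T + 1)) := ⟨_, rfl⟩
  have ht0 : 0 < t := by rw [ht]; positivity
  obtain ht1 : t ≤ 2 * r ^ 2 := by
    rw [ht, div_le_iff₀ (by positivity)]
    linarith only [sq_nonneg r, mul_nonneg (sq_nonneg r) (Nat.cast_nonneg (α := ℝ) T), sq_nonneg r]
  obtain hsm : Cn * (2 * r ^ 2) * (3 * K) + Cn * (2 * r) * (6 * Cw) + Cn * (1 + G) * (r * (3 * Q)) ≤
      δ / 4 := by
    refine le_trans ?_ hmδ
    rw [div_eq_mul_one_div, ← hr, hG, hlog]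
    have : Cn * K * r ^ 2 ≤ Cn * K * r := mul_le_mul_of_nonneg_left (by linarith only [hr0, hr1, mul_nonneg_of_nonpos_of_nonpos (le_of_lt (Mathlib.Tactic.Linarith.sub_neg_of_lt hr0)) (Mathlib.Tactic.Linarith.sub_nonpos_of_le hr1)]) (by positivity)
    linarith only [this]
  refine ⟨m ^ 2, by nlinarith only [hm], ?_, min 1 (min (t ^ 2 * δ * r ^ 2 / (16 * Ca))
    (δ / 4 * r ^ 2 / (12 + Cn * (1 + G) * (16 / r ^ 2)))), by clear * - t δ r Ca Cn G ht0 hδ0 hr0 hCa hCn hG0; positivity, min_le_left _ _, ?_⟩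
  · rw [hN, one_div_one_div]
    rw [← hr] at hmρ
    clear * - r ρ0 hρ0 hr1 hmρ hr0; linarith only [hρ0, hr1, hmρ, hr0, sq_nonneg r, mul_nonneg_of_nonpos_of_nonpos (le_of_lt (Mathlib.Tactic.Linarith.sub_neg_of_lt hρ0)) (Mathlib.Tactic.Linarith.sub_nonpos_of_le hr1), mul_nonneg_of_nonpos_of_nonpos (Mathlib.Tactic.Linarith.sub_nonpos_of_le hmρ) (le_of_lt (Mathlib.Tactic.Linarith.sub_neg_of_lt hr0))]
  intro c0 Z hc0 hc1 hl hmin hLT hcc
  have hc1a : c0 ≤ 1 := hc1.trans (min_le_left _ _)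
  obtain hc1b : c0 / r ^ 2 * (16 * Ca) ≤ t ^ 2 * δ := by
    have := hc1.trans ((min_le_right _ _).trans (min_le_left _ _))
    rw [le_div_iff₀ (by positivity)] at this
    rw [div_mul_eq_mul_div, div_le_iff₀ (by positivity)]
    exact this
  obtain hc1c : c0 / r ^ 2 * (12 + Cn * (1 + G) * (16 / r ^ 2)) ≤ δ / 4 := by
    clear * - c0 δ r Cn G t Ca hc1 hr0 hCn hG0
    have := hc1.trans ((min_le_right _ _).trans (min_le_right _ _))
    rw [le_div_iff₀ (by positivity)] at this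
    rw [div_mul_eq_mul_div, div_le_iff₀ (by positivity)]
    exact this
  obtain ⟨l, hl'⟩ : ∃ l, l = Z.L 0 := ⟨_, rfl⟩
  rw [← hl'] at hl hLT hcc ⊢
  have hL1 : ∀ y ∈ Icc (0 : ℝ) T, l ≤ Z.L y ∧ Z.L y ≤ (1 + c0) * l := fun y hy =>
    ⟨hl' ▸ Z.L_mono hy.1 fun x hx => hmin x ⟨hx.1, hx.2.trans hy.2⟩,
      (Z.L_mono hy.2 fun x hx => hmin x ⟨hy.1.trans hx.1, hx.2⟩).trans hLT⟩
  have hL : ∀ y ∈ Icc (0 : ℝ) T, l ≤ Z.L y ∧ Z.L y ≤ 2 * l := fun y hy =>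
    ⟨(hL1 y hy).1, (hL1 y hy).2.trans (by linarith only [hc1a, hl, mul_nonneg_of_nonpos_of_nonpos (Mathlib.Tactic.Linarith.sub_nonpos_of_le hc1a) (le_of_lt (Mathlib.Tactic.Linarith.sub_neg_of_lt hl))])⟩
  have hr2 : 0 < r ^ 2 := by positivity
  obtain hidx : ∀ i : ℕ, i < T * m ^ 2 → ((i : ℝ) + 1) * r ^ 2 ≤ T := by
    intro i hi
    have h1 : ((i + 1 : ℕ) : ℝ) ≤ ((T * m ^ 2 : ℕ) : ℝ) := by exact_mod_cast hi
    rw [Nat.cast_mul, hN, mul_one_div, le_div_iff₀ hr2] at h1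
    push_cast at h1
    exact h1
  obtain hsel : ∀ i : ℕ, ∃ p γ : ℝ, i < T * m ^ 2 → (i * r ^ 2 ≤ p ∧ p ≤ (i + 1) * r ^ 2) ∧ Z.Reg p ∧
      Z.U p γ ≤ -Z.B p ∧ exp (-p) * Z.om p ≤ 4 * (c0 / r ^ 2) * l ∧
      ∑ a ∈ Z.s.filter (fun a => |Z.ξ a - i * r ^ 2| ≤ 2 * r), l0 (p - Z.ξ a) ≤
        G * (Z.s.filter fun a => |Z.ξ a - i * r ^ 2| ≤ 2 * r).card := by
    clear * - T m r Z c0 l G hidx hr0 Cs Hs hr2 hr1 hc0 hl hmin hL1 hG
    intro i
    by_cases hi : i < T * m ^ 2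
    · have h1 := hidx i hi
      have h0 : 0 ≤ (i : ℝ) * r ^ 2 := by positivity
      obtain ⟨p, hp, h2, h3, h4⟩ := Hs Z (r ^ 2) (i * r ^ 2) (c0 * l)
        (Z.s.filter fun a => |Z.ξ a - i * r ^ 2| ≤ 2 * r) hr2 (by linarith only [hr0, hr1, mul_nonneg_of_nonpos_of_nonpos (le_of_lt (Mathlib.Tactic.Linarith.sub_neg_of_lt hr0)) (Mathlib.Tactic.Linarith.sub_nonpos_of_le hr1)]) (by positivity)
        (fun x hx => hmin x ⟨h0.trans hx.1, by linarith only [h1, hx, hx.2]⟩)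
        (by linarith only [hL1, h0, hr2, h1, (hL1 (i * r ^ 2) ⟨h0, by linarith⟩).1,
          (hL1 (i * r ^ 2 + r ^ 2) ⟨by linarith, by linarith⟩).2])
      obtain ⟨γ, hγ⟩ := (hmin p ⟨h0.trans hp.1, by linarith only [h1, hp, hp.2]⟩).exists_U h2
      refine ⟨p, γ, fun _ => ⟨⟨hp.1, by linarith only [hp, hp.2]⟩, h2, by simpa using hγ,
        h3.trans_eq (by ring), h4.trans_eq (by rw [hG]; ring)⟩⟩
    · exact ⟨0, 0, fun h => absurd h hi⟩
  choose p γ hp using hsel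
  obtain hstep : ∀ i, (R + 2) * m ^ 2 ≤ i → i + 1 < T * m ^ 2 →
      ‖Complex.exp (γ (i + 1) * Complex.I) - Complex.exp (γ i * Complex.I)‖ ≤ 2 * t := by
    intro i hi hi'
    obtain ⟨⟨a1, a2⟩, a3, a4, a5, a6⟩ := hp i (by omega)
    obtain ⟨⟨b1, b2⟩, b3, b4, b5, -⟩ := hp (i + 1) hi'
    have hT := hidx (i + 1) hi'
    push_cast at b1 b2 hT
    obtain hlow : (R + 2 : ℝ) ≤ i * r ^ 2 := by
      have h1 : (((R + 2) * m ^ 2 : ℕ) : ℝ) ≤ i := by exact_mod_cast hi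
      rw [Nat.cast_mul, hN, mul_one_div, div_le_iff₀ hr2] at h1
      push_cast at h1
      exact h1
    have hR0 : (0 : ℝ) ≤ R := Nat.cast_nonneg R
    have hr3 : 16 * r ^ 2 ≤ r := by linarith only [hr2, hr0, hr1, mul_nonneg_of_nonpos_of_nonpos (le_of_lt (Mathlib.Tactic.Linarith.sub_neg_of_lt hr0)) (Mathlib.Tactic.Linarith.sub_nonpos_of_le hr1)]
    obtain ⟨x, hx⟩ : ∃ x, x = p (i + 1) := ⟨_, rfl⟩
    obtain ⟨x', hx'⟩ : ∃ x', x' = p i := ⟨_, rfl⟩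
    rw [← hx] at b1 b2 b3 b4 b5
    rw [← hx'] at a1 a2 a3 a4 a5 a6
    have hxI : x ∈ Icc (0 : ℝ) T := ⟨by linarith only [hr1, hr2, hlow, hr3, b1], by linarith only [hT, b2]⟩
    obtain ⟨E, hE⟩ : ∃ E, E = exp x' * l := ⟨_, rfl⟩
    have hE0 : 0 < E := by rw [hE]; positivity
    obtain hex : exp x * l ≤ 3 * E := by
      clear * - x x' r i hr1 hr2 hr3 b2 a1 l E hE hl
      obtain h1 : exp x ≤ exp 1 * exp x' := by
        rw [← exp_add]; exact exp_le_exp.2 (by linarith only [hr1, hr2, hr3, b2, a1])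
      have h2 : exp 1 * exp x' ≤ 3 * exp x' :=
        mul_le_mul_of_nonneg_right (Real.exp_one_lt_d9.le.trans (by norm_num)) (exp_pos _).le
      rw [hE, ← mul_assoc]
      exact mul_le_mul_of_nonneg_right (h1.trans h2) hl.le
    obtain ⟨κ, hκ⟩ : ∃ κ, κ = c0 / r ^ 2 := ⟨_, rfl⟩
    rw [← hκ] at a5 b5 hc1b hc1c
    have hκ0 : 0 < κ := by rw [hκ]; positivity
    obtain hom : ∀ y, exp (-y) * Z.om y ≤ 4 * κ * l → Z.om y ≤ 4 * κ * (exp y * l) := by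
      intro y hy
      rw [exp_neg, inv_mul_le_iff₀ (exp_pos y)] at hy
      exact hy.trans_eq (by ring)
    have o1 : Z.om x' ≤ 4 * κ * E := hE ▸ hom x' a5
    obtain o2 : Z.om x ≤ 12 * κ * E := by
      have := mul_le_mul_of_nonneg_left hex (show 0 ≤ 4 * κ by positivity)
      linarith only [this, hom, b5, hom x b5]
    obtain ⟨A, hA, hA1, hA2, hA3⟩ := HR Z T l x' hl hL (by linarith only [hr1, hr2, hlow, hr3, a1]) (by linarith only [hr2, hT, a2])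
    rw [← hδ, ← hE] at hA2
    obtain hsin : sin (γ (i + 1) - γ i) ^ 2 ≤ t ^ 2 := by
      clear * - A γ i Ca Z x x' Ha b3 a3 b4 a4 hA R hA1 r hr1 hr2 hr3 b2 a1 b1 a2 δ E t κ hA2 o1 o2
        hCa hc1b hE0 hδ0
      have h1 := Ha Z x x' (γ (i + 1)) (γ i) A b3 a3 b4 a4 hA fun a ha => by
        obtain ⟨h2, h3⟩ := hA1 a ha
        exact ⟨abs_le.2 ⟨by linarith only [hr1, hr2, hr3, b2, a1, h2], by linarith only [hr1, hr2, hr3, b1, a2, h3]⟩, abs_le.2 ⟨by linarith only [hr1, hr2, hr3, h2], by linarith only [hr1, hr2, hr3, h3]⟩⟩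
      obtain h2 : δ * E * sin (γ (i + 1) - γ i) ^ 2 ≤ δ * E * t ^ 2 := by
        calc δ * E * sin (γ (i + 1) - γ i) ^ 2 ≤ A.card * sin (γ (i + 1) - γ i) ^ 2 :=
              mul_le_mul_of_nonneg_right hA2 (sq_nonneg _)
          _ ≤ Ca * (16 * κ * E) :=
              h1.trans (mul_le_mul_of_nonneg_left (by linarith only [o1, o2]) (by linarith only [hCa, hr1, hr2, hr3]))
          _ = κ * (16 * Ca) * E := by ring
          _ ≤ t ^ 2 * δ * E := mul_le_mul_of_nonneg_right hc1b hE0.le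
          _ = _ := by ring
      exact le_of_mul_le_mul_left h2 (by positivity)
    refine G1b_chord ht0.le hsin (lt_of_not_ge fun hcos => ?_)
    have h1 := Hn Z x x' (γ (i + 1)) (γ i) (2 * r ^ 2) r G
      (Z.s.filter fun a => |Z.ξ a - i * r ^ 2| ≤ 2 * r) b3 a3 b4 a4
      (abs_le.2 ⟨by linarith only [hr2, b1, a2], by linarith only [b2, a1]⟩)
      ((abs_le_of_sq_le_sq' hsin ht0.le |> abs_le.2).trans ht1) (by positivity) (by linarith only [hr3]) hr1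
      (Finset.filter_subset _ _)
      (fun a ha h => Finset.mem_filter.2 ⟨ha, by
        obtain ⟨h2, h3⟩ := abs_le.1 h
        exact abs_le.2 ⟨by linarith only [hr2, hr3, b1, h2], by linarith only [hr2, hr3, b2, h3]⟩⟩)
      (fun a ha => by
        obtain ⟨h2, h3⟩ := abs_le.1 (Finset.mem_filter.1 ha).2
        exact abs_le.2 ⟨by linarith only [hr2, hr3, b2, h2], by linarith only [hr2, hr3, b1, h3]⟩) hG0 a6 hcos
    obtain w1 : Z.A x ≤ 3 * K * E := by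
      clear * - Z x K l hcc hxI E hex hK A hr1 hr2 hr3
      have h2 : Z.A x ≤ K * l * exp x := mul_le_mul_of_nonneg_right (hcc x hxI) (exp_pos x).le
      have h3 := mul_le_mul_of_nonneg_left hex (show 0 ≤ K by linarith only [hK, hr1, hr2, hr3])
      linarith only [h2, h3]
    obtain w2' : Z.W x ≤ 2 * Cw * (exp x * l) := by
      clear * - Cw x Z l hL hxI hCw Hw hr1 hr2 hr3
      have h2 : Cw * (exp x * Z.L x) ≤ Cw * (exp x * (2 * l)) :=
        mul_le_mul_of_nonneg_left (mul_le_mul_of_nonneg_left (hL x hxI).2 (exp_pos x).le)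
          (by linarith only [hCw, hr1, hr2, hr3])
      linarith only [h2, Hw, (Hw Z x).1]
    obtain w2 : Z.W x ≤ 6 * Cw * E := by
      have h3 := mul_le_mul_of_nonneg_left hex (show 0 ≤ 2 * Cw by linarith only [hCw, hr1, hr2, hr3])
      linarith only [w2', h3]
    obtain w3 : Z.B (x + 3) ≤ 3 * Q * E := by
      clear * - Z x K l hcc hxI Cw w2' Q E hex hQ0 hQ hr1 hr2 hr3
      have h2 := Z.B_le (y := x) (x := x + 3) (by linarith only [hr1, hr2, hr3])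
      rw [add_sub_cancel_left, exp_add, show (2 : ℝ) * 3 = 6 by norm_num] at h2
      have h3 : ‖Z.cc x‖ * (exp x * exp 3) ≤ K * l * (exp x * exp 3) :=
        mul_le_mul_of_nonneg_right (hcc x hxI) (by positivity)
      have h4 := mul_le_mul_of_nonneg_left w2' (exp_pos 6).le
      have h5 := mul_le_mul_of_nonneg_left hex hQ0
      obtain h6 : Q * (exp x * l) = K * l * (exp x * exp 3) + exp 6 * (2 * Cw * (exp x * l)) := by
        rw [hQ]; ring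
      linarith only [h2, h3, h4, h5, h6]
    have e1 : 2 * r ^ 2 / r = 2 * r := by field_simp
    rw [e1] at h1
    have v1 : Cn * (2 * r ^ 2) * Z.A x ≤ Cn * (2 * r ^ 2) * (3 * K * E) :=
      mul_le_mul_of_nonneg_left w1 (by positivity)
    have v2 : Cn * (2 * r) * Z.W x ≤ Cn * (2 * r) * (6 * Cw * E) :=
      mul_le_mul_of_nonneg_left w2 (by positivity)
    have v3 : Cn * (1 + G) * ((Z.om x + Z.om x') / r ^ 2 + r * Z.B (x + 3)) ≤
        Cn * (1 + G) * (16 * κ * E / r ^ 2 + r * (3 * Q * E)) :=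
      mul_le_mul_of_nonneg_left (add_le_add (div_le_div_of_nonneg_right (by linarith only [o1, o2]) hr2.le)
        (mul_le_mul_of_nonneg_left w3 hr0.le)) (by positivity)
    have v4 := mul_le_mul_of_nonneg_right hsm hE0.le
    have v5 := mul_le_mul_of_nonneg_right hc1c hE0.le
    have v6 : 12 * κ * E + Cn * (2 * r ^ 2) * (3 * K * E) + Cn * (2 * r) * (6 * Cw * E) +
        Cn * (1 + G) * (16 * κ * E / r ^ 2 + r * (3 * Q * E)) =
        (Cn * (2 * r ^ 2) * (3 * K) + Cn * (2 * r) * (6 * Cw) + Cn * (1 + G) * (r * (3 * Q))) * E +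
          κ * (12 + Cn * (1 + G) * (16 / r ^ 2)) * E := by ring
    have v7 := mul_pos hδ0 hE0
    clear * - Z x κ E δ A x' Cn r G K Cw Q o2 hA2 hA3 h1 v1 v2 v3 v4 v5 v6 v7; linarith only [o2, hA2, hA3, h1, v1, v2, v3, v4, v5, v6, v7]
  refine ⟨p, γ, fun i hi => ?_, ?_⟩
  · obtain ⟨⟨a1, a2⟩, a3, a4, a5, -⟩ := hp i hi
    rw [hN, div_div_eq_mul_div, div_div_eq_mul_div, div_one, div_one]
    exact ⟨a1, a2, a3, a4, a5.trans_eq (by ring)⟩
  · have key : ∀ i j, (R + 2) * m ^ 2 ≤ i → i ≤ j → j < T * m ^ 2 →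
        ‖Complex.exp (γ j * Complex.I) - Complex.exp (γ i * Complex.I)‖ ≤ 1 / 10 := by
      clear * - R m T γ t hstep r hidx ht hr2
      intro i j hi hij hj
      obtain ⟨k, rfl⟩ := Nat.exists_eq_add_of_le hij
      refine (G1b_chain (f := fun i => Complex.exp (γ i * Complex.I)) hstep hi k hj).trans ?_
      have h1 := hidx k (by omega)
      have h2 : (k : ℝ) * (2 * t) = 2 * (k * r ^ 2) / (100 * (T + 1)) := by rw [ht]; ring
      rw [h2, div_le_iff₀ (by positivity)]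
      linarith only [hr2, h1, Nat.cast_nonneg (α := ℝ) T]
    intro i j hi hj hi' hj'
    rcases le_total i j with h | h
    · rw [norm_sub_rev]; exact key i j hi h hj'
    · exact key j i hj h hi'

end Cfg

end

end Pool.Agent.MinMod
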