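import Pool.Agent.Work.MP_f62247_an.SL
import Pool.Agent.Work.MP_f62247_an.BadB

-- merged part: Pool.Agent.Work.MP_f62247_an.IdT
section
-- merged part: Pool.Agent.Work.MP_f62247_an.KerD
section
/-!
# Second derivatives in the angle, and the remainders of the tilt identity

With `w = s + i φ`: `dlg s φ = Im (e^w / (1 - e^w))`, its `φ`-derivative is `Re (e^w / (1 - e^w)²) = Re (1 / (4 sinh² (w/2)))`;
the `φ`-derivative of `dlg s φ - e^s sin φ` is `Re (e^(2w) (2 - e^w) / (1 - e^w)²)`.  Mean value theorem.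
* `d2_V`: the derivative is `Re (1 / (4 sinh² (w/2)) - lam² / sinh² (lam w)) = Re (ς(w/2)/4 - lam² ς(lam w))`,
  `ς v = 1 / sinh² v - 1 / v²`, bounded on `0 < ‖v‖`, `|Re v| ≤ 3`, `|Im v| ≤ 1` (near `0`: `‖sinh v - v‖ ≤ C ‖v‖³`;
  away from `0`: compactness, `sinh v ≠ 0`).
* `rem_*`: `ϱ = e^(lam u)`, `d = 1 - 2 ϱ cos α + ϱ² ≥ c max (1, ϱ²)` when `|u| ≥ 1` or `cos α ≤ cos (1/8)` (if
  `|rp η| ≥ π / lam` then `Sg = 0`); `ϱ / d - 1 / ϱ = (2 ϱ cos α - 1) / (ϱ d)`.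
* `rem_V`: `α = lam η`; `Imk + 2 dlg (-2 lam u) (-2 lam η) = ϱ sin α / (1 + 2 ϱ cos α + ϱ²)`.
-/

open Real MeasureTheory Set Filter Topology

namespace Pool.Agent.MinMod

noncomputable section

/-- the derivative of `dlg s` -/
def KerD_dA (s φ : ℝ) : ℝ := (cos φ * cosh s - 1) / (2 * (cosh s - cos φ) ^ 2)

theorem KerD_den (s φ : ℝ) :
    1 - 2 * exp s * cos φ + exp (2 * s) = exp s * (2 * (cosh s - cos φ)) := by
  rw [cosh_eq, two_mul s, exp_add, exp_neg]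
  field_simp
  ring

theorem KerD_dlg (s φ : ℝ) : dlg s φ = sin φ / (2 * (cosh s - cos φ)) := by
  rw [dlg, KerD_den, mul_div_mul_left _ _ (exp_pos s).ne']

theorem KerD_deriv {s φ : ℝ} (h : cos φ < cosh s) : HasDerivAt (dlg s) (KerD_dA s φ) φ := by
  have h0 := sub_pos.2 h
  have h1 := (hasDerivAt_sin φ).div (((hasDerivAt_cos φ).const_sub (cosh s)).const_mul 2)
    (by positivity)
  rw [show dlg s = fun φ => sin φ / (2 * (cosh s - cos φ)) from funext (KerD_dlg s)]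
  refine h1.congr_deriv ?_
  rw [KerD_dA]
  field_simp
  linear_combination -sin_sq_add_cos_sq φ

theorem KerD_dA_le {s φ : ℝ} (h : cos φ < cosh s) :
    |KerD_dA s φ| ≤ 1 / (2 * (cosh s - cos φ)) := by
  have h0 := sub_pos.2 h
  have h1 : |cos φ * cosh s - 1| ≤ cosh s - cos φ := by
    rw [abs_le]
    constructor
    · linarith only [mul_nonneg (sub_nonneg.2 (one_le_cosh s)) (sub_nonneg.2 (neg_one_le_cos φ))]
    · linarith only [mul_nonneg (cosh_pos s).le (sub_nonneg.2 (cos_le_one φ)), cos_le_one φ]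
  rw [KerD_dA, abs_div, abs_of_pos (by positivity : 0 < 2 * (cosh s - cos φ) ^ 2),
    div_le_div_iff₀ (by positivity) (by positivity)]
  linarith only [h, h1, mul_nonneg_of_nonpos_of_nonpos (le_of_lt (Mathlib.Tactic.Linarith.sub_neg_of_lt h)) (Mathlib.Tactic.Linarith.sub_nonpos_of_le h1)]

theorem KerD_mvt {f f' : ℝ → ℝ} {φ φ' C : ℝ} (h : ∀ ψ ∈ uIcc φ φ', HasDerivAt f (f' ψ) ψ)
    (h' : ∀ ψ ∈ uIcc φ φ', |f' ψ| ≤ C) : |f φ - f φ'| ≤ C * |φ - φ'| :=
  (convex_uIcc φ φ').norm_image_sub_le_of_norm_hasDerivWithin_le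
    (fun ψ hψ => (h ψ hψ).hasDerivWithinAt) h' right_mem_uIcc left_mem_uIcc

theorem KerD_lt {s : ℝ} (hs : s ≠ 0) (φ : ℝ) : cos φ < cosh s :=
  (cos_le_one φ).trans_lt (one_lt_cosh.2 hs)

theorem KerD_far {s : ℝ} (hs : 1 ≤ |s|) (φ : ℝ) :
    1 / (2 * (cosh s - cos φ)) ≤ 4 * exp (-|s|) := by
  have h1 := exp_one_gt_d9.le.trans (exp_le_exp.2 hs)
  have h2 : exp |s| / 4 ≤ 2 * (cosh s - cos φ) := by
    rw [← cosh_abs, cosh_eq]
    linarith only [h1, exp_pos (-|s|), cos_le_one φ]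
  refine (one_div_le_one_div_of_le (by positivity) h2).trans_eq ?_
  rw [exp_neg]
  field_simp

theorem KerD_ne {s : ℝ} (hs : 1 ≤ |s|) : s ≠ 0 := by
  rintro rfl
  norm_num at hs

theorem KerD_fut {r x : ℝ} (h0 : 0 < r) (h1 : r ≤ 1 / 2) (hx : |x| ≤ 1) :
    |r * (x * (1 + r ^ 2) - 2 * r) / (1 - 2 * r * x + r ^ 2) ^ 2 - r * x| ≤ 176 * r ^ 2 := by
  obtain ⟨h2, h3⟩ := abs_le.1 hx
  obtain ⟨d, hd⟩ : ∃ d, d = 1 - 2 * r * x + r ^ 2 := ⟨_, rfl⟩
  have h4 : 1 / 4 ≤ d := by linarith only [h1, hd, h0, h3, mul_nonneg_of_nonpos_of_nonpos (le_of_lt (Mathlib.Tactic.Linarith.sub_neg_of_lt h0)) (Mathlib.Tactic.Linarith.sub_nonpos_of_le h3), mul_nonneg_of_nonpos_of_nonpos (Mathlib.Tactic.Linarith.sub_nonpos_of_le h1) (Mathlib.Tactic.Linarith.sub_nonpos_of_le h1)]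
  have h5 : d + 1 ≤ 13 / 4 := by linarith only [h1, hd, h0, h2, mul_nonneg_of_nonpos_of_nonpos (le_of_lt (Mathlib.Tactic.Linarith.sub_neg_of_lt h0)) (Mathlib.Tactic.Linarith.sub_nonpos_of_le h1), mul_nonneg_of_nonpos_of_nonpos (le_of_lt (Mathlib.Tactic.Linarith.sub_neg_of_lt h0)) (Mathlib.Tactic.Linarith.sub_nonpos_of_le h2)]
  have e : r * (x * (1 + r ^ 2) - 2 * r) / d ^ 2 - r * x =
      r ^ 2 * (x * r - x * ((r - 2 * x) * (d + 1)) - 2) / d ^ 2 := by
    field_simp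
    rw [hd]
    ring
  have h6 : |x * ((r - 2 * x) * (d + 1))| ≤ 1 * (5 / 2 * (13 / 4)) := by
    rw [abs_mul, abs_mul, abs_of_pos (by linarith only [h0, h1, h4] : 0 < d + 1)]
    gcongr
    exact abs_le.2 ⟨by linarith only [h0, h1, h3], by linarith only [h1, h2]⟩
  have h7 : |x * r - x * ((r - 2 * x) * (d + 1)) - 2| ≤ 11 := by
    obtain ⟨h7, h8⟩ := abs_le.1 h6
    exact abs_le.2 ⟨by linarith only [h0, h1, hd, h5, h8, sq_nonneg r], by linarith only [h0, h1, hd, h4, h7, mul_nonneg_of_nonpos_of_nonpos (le_of_lt (Mathlib.Tactic.Linarith.sub_neg_of_lt h0)) (Mathlib.Tactic.Linarith.sub_nonpos_of_le h1)]⟩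
  rw [← hd, e, abs_div, abs_mul, abs_sq, abs_sq, div_le_iff₀ (by positivity)]
  linarith only [h7, h4, mul_le_mul_of_nonneg_left h7 (sq_nonneg r),
    mul_le_mul_of_nonneg_left (show 1 / 16 ≤ d ^ 2 by nlinarith) (sq_nonneg r)]

theorem KerD_cos8 : cos (1 / 8) < 1 := by
  exact (cos_lt_cos_of_nonneg_of_le_pi le_rfl (by linarith only [pi_gt_three]) (by norm_num)).trans_eq
    cos_zero

theorem KerD_cos_le {α : ℝ} (h : 1 / 8 ≤ |α|) (h' : |α| ≤ π) : cos α ≤ cos (1 / 8) := by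
  rw [← cos_abs α]
  exact cos_le_cos_of_nonneg_of_le_pi (by norm_num) h' h

theorem KerD_alg {a b p q K : ℝ} (ha : 0 < a) (hb : 0 ≤ b) (hK : 1 ≤ K) (h1 : a ≤ p)
    (h2 : p ≤ a + K * a ^ 2) (h3 : b / 2 ≤ q) (h4 : b - b ^ 2 ≤ q) (h5 : q ≤ b) :
    |(p - q - p * q) / (p + q) ^ 2 - (a - b) / (a + b) ^ 2| ≤ 1 + 10 * K := by
  have hq : 0 ≤ q := by linarith only [hb, h3]
  have hp : 0 < p := by linarith only [ha, h1]
  have hs : 0 < a + b := by positivity
  have ht : 0 < p + q := by positivity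
  have k1 : K * a ^ 2 + b ^ 2 ≤ K * (a + b) ^ 2 := by
    linarith only [hK, ha, hb, mul_nonneg (zero_le_one.trans hK) (mul_nonneg ha.le hb),
      mul_nonneg (sub_nonneg.2 hK) (sq_nonneg b)]
  have k2 : |p - q - (a - b)| ≤ K * (a + b) ^ 2 :=
    abs_le.2 ⟨by linarith only [h1, h2, h4, h5, k1, sq_nonneg b, mul_nonneg (zero_le_one.trans hK) (sq_nonneg a)],
      by linarith only [h2, h4, k1]⟩
  have k3 : |a + b - (p + q)| ≤ K * (a + b) ^ 2 :=
    abs_le.2 ⟨by linarith only [h2, h4, h5, k1, sq_nonneg b],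
      by linarith only [h1, h2, h4, k1, mul_nonneg (zero_le_one.trans hK) (sq_nonneg a)]⟩
  have k4 : a + b ≤ 2 * (p + q) := by linarith
  have k5 : |a - b| ≤ a + b := abs_le.2 ⟨by linarith, by linarith⟩
  have e : (p - q - p * q) / (p + q) ^ 2 - (a - b) / (a + b) ^ 2 =
      (p - q - (a - b) + (a - b) / (a + b) * ((a + b - (p + q)) / (a + b)) * (a + b + (p + q)) -
        p * q) / (p + q) ^ 2 := by
    field_simp
    ring
  have k6 : |(a - b) / (a + b) * ((a + b - (p + q)) / (a + b)) * (a + b + (p + q))| ≤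
      1 * (K * (a + b)) * (a + b + (p + q)) := by
    rw [abs_mul, abs_mul, abs_div, abs_div, abs_of_pos hs, abs_of_pos (add_pos hs ht)]
    gcongr
    · exact (div_le_one hs).2 k5
    · rw [div_le_iff₀ hs]
      linarith only [k3]
  have k7 : K * (a + b) ^ 2 ≤ K * (2 * (p + q)) ^ 2 := by gcongr
  have k8 : K * (a + b) * (p + q) ≤ K * (2 * (p + q)) * (p + q) := by gcongr
  rw [e, abs_div, abs_sq, div_le_iff₀ (by positivity)]
  obtain ⟨k9, k10⟩ := abs_le.1 k2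
  obtain ⟨k11, k12⟩ := abs_le.1 k6
  have k13 := mul_nonneg hp.le hq
  exact abs_le.2 ⟨by linarith only [h1, h2, h4, h5, k1, k7, k8, k11, k13, sq_nonneg p, sq_nonneg q], by linarith only [h2, h4, k1, k7, k8, k12, k13, sq_nonneg (p + q)]⟩

theorem KerD_half (s : ℝ) : 2 * |s / 2| = |s| := by
  rw [abs_div, abs_two]
  ring

theorem KerD_near {s φ : ℝ} (hs : s ≠ 0) (h1 : |s| ≤ 5) (h2 : |φ| ≤ 5 / 4) :
    |KerD_dA s φ - (s ^ 2 - φ ^ 2) / (s ^ 2 + φ ^ 2) ^ 2| ≤ 1 + 10 * exp 13 := by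
  have a0 : 0 < s ^ 2 / 2 := by positivity
  have a1 : s ^ 2 / 2 ≤ 13 := by linarith only [h1, sq_abs s, abs_nonneg s, mul_nonneg_of_nonpos_of_nonpos (Mathlib.Tactic.Linarith.sub_nonpos_of_le h1) (Mathlib.Tactic.Linarith.sub_nonpos_of_le (abs_nonneg s))]
  have b1 : φ ^ 2 ≤ 2 := by linarith only [h2, sq_abs φ, abs_nonneg φ, mul_nonneg_of_nonpos_of_nonpos (Mathlib.Tactic.Linarith.sub_nonpos_of_le h2) (Mathlib.Tactic.Linarith.sub_nonpos_of_le (abs_nonneg φ))]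
  have p1 : s ^ 2 / 2 ≤ cosh s - 1 := by
    have h3 : |s / 2| ≤ sinh |s / 2| := self_le_sinh_iff.2 (abs_nonneg _)
    have h4 := cosh_two_mul |s / 2|
    rw [cosh_sq, KerD_half, cosh_abs] at h4
    linarith only [h4, h3, sq_abs (s / 2), abs_nonneg (s / 2), mul_nonneg_of_nonpos_of_nonpos (Mathlib.Tactic.Linarith.sub_nonpos_of_le h3) (Mathlib.Tactic.Linarith.sub_nonpos_of_le h3), mul_nonneg_of_nonpos_of_nonpos (Mathlib.Tactic.Linarith.sub_nonpos_of_le h3) (Mathlib.Tactic.Linarith.sub_nonpos_of_le (abs_nonneg (s / (2 : ℝ))))]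
  have p2 : cosh s - 1 ≤ s ^ 2 / 2 + exp 13 * (s ^ 2 / 2) ^ 2 := by
    have h3 := cosh_le_exp_half_sq s
    generalize s ^ 2 / 2 = a at a0 a1 h3
    have h4 : exp a * (1 - a) ≤ 1 := by
      have h5 := mul_le_mul_of_nonneg_left (add_one_le_exp (-a)) (exp_pos a).le
      rw [← exp_add, add_neg_cancel, exp_zero] at h5
      linarith only [h5]
    have h5 := exp_le_exp.2 a1
    linarith only [h3, h4, a0, h5, mul_le_mul_of_nonneg_left h4 a0.le, mul_le_mul_of_nonneg_left h5 (sq_nonneg a)]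
  have q1 : φ ^ 2 / 2 - (φ ^ 2 / 2) ^ 2 / 2 ≤ 1 - cos φ := by
    have h3 := sin_ge_sub_cube (abs_nonneg (φ / 2))
    have h4 := cos_two_mul |φ / 2|
    rw [cos_sq', KerD_half, cos_abs] at h4
    have h5 : |φ / 2| ^ 2 = φ ^ 2 / 4 := by
      rw [sq_abs]
      ring
    have h6 := abs_nonneg (φ / 2)
    generalize |φ / 2| = y at h3 h4 h5 h6
    have h7 : φ ^ 2 = 4 * y ^ 2 := by linarith only [h5]
    have h8 : 0 ≤ y - y ^ 3 / 6 := by linarith only [h6, b1, h5, mul_nonneg_of_nonpos_of_nonpos (Mathlib.Tactic.Linarith.sub_nonpos_of_le b1) (Mathlib.Tactic.Linarith.sub_nonpos_of_le h6), Mathlib.Tactic.Linarith.zero_mul_eq (sub_eq_zero_of_eq h5) (Mathlib.Tactic.Linarith.sub_nonpos_of_le h6)]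
    have h9 := pow_le_pow_left₀ h8 h3 2
    rw [h7, h4]
    linarith only [h9, sq_nonneg (y ^ 3), sq_nonneg (y ^ 2)]
  have h3 := KerD_alg a0 (b := φ ^ 2 / 2) (by positivity) (one_le_exp (by norm_num)) p1 p2
    (q := 1 - cos φ) (by linarith only [q1, b1, sq_nonneg φ, mul_nonneg_of_nonpos_of_nonpos (Mathlib.Tactic.Linarith.sub_nonpos_of_le (sq_nonneg φ)) (Mathlib.Tactic.Linarith.sub_nonpos_of_le b1)]) (by linarith only [q1, sq_nonneg (φ ^ 2 / 2), sq_nonneg ((1 : ℝ) * ((1 : ℝ) * φ) ^ (2 : ℕ))])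
    (by linarith only [one_sub_sq_div_two_le_cos (x := φ)])
  have h4 := sub_pos.2 (KerD_lt hs φ)
  have e : KerD_dA s φ - (s ^ 2 - φ ^ 2) / (s ^ 2 + φ ^ 2) ^ 2 =
      ((cosh s - 1 - (1 - cos φ) - (cosh s - 1) * (1 - cos φ)) / (cosh s - 1 + (1 - cos φ)) ^ 2 -
        (s ^ 2 / 2 - φ ^ 2 / 2) / (s ^ 2 / 2 + φ ^ 2 / 2) ^ 2) / 2 := by
    rw [KerD_dA, sub_add_sub_cancel]
    field_simp
    ring
  rw [e, abs_div, abs_two]
  linarith only [h3, abs_nonneg ((cosh s - 1 - (1 - cos φ) - (cosh s - 1) * (1 - cos φ)) /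
    (cosh s - 1 + (1 - cos φ)) ^ 2 - (s ^ 2 / 2 - φ ^ 2 / 2) / (s ^ 2 / 2 + φ ^ 2 / 2) ^ 2)]

theorem KerD_rem {lam u x c : ℝ} (hl : 0 < lam) (hx : |x| ≤ 1) (hc : 0 < c)
    (h : c * (1 + exp (lam * u) ^ 2) ≤ 1 - 2 * exp (lam * u) * x + exp (lam * u) ^ 2) (S : ℝ) :
    |(S * exp (lam * u) / (1 - 2 * exp (lam * u) * x + exp (lam * u) ^ 2) -
      if 0 ≤ u then exp (-lam * u) * S else 0)| ≤ 3 / c * |S| * kw lam u := by
  have e1 : exp (-lam * u) = (exp (lam * u))⁻¹ := by rw [← exp_neg, neg_mul]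
  have e2 : exp (-2 * lam * u) = (exp (lam * u) ^ 2)⁻¹ := by
    rw [← exp_nat_mul, ← exp_neg]
    congr 1
    push_cast
    ring
  have r0 := exp_pos (lam * u)
  have d0 := (by positivity : 0 < c * (1 + exp (lam * u) ^ 2)).trans_le h
  obtain ⟨x1, x2⟩ := abs_le.1 hx
  rw [kw, e1, e2]
  split_ifs with hu
  · have r1 := one_le_exp (mul_nonneg hl.le hu)
    generalize exp (lam * u) = r at *
    rw [min_eq_left ((inv_le_one_of_one_le₀ (one_le_pow₀ r1)).trans r1)]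
    generalize hd : 1 - 2 * r * x + r ^ 2 = d at *
    have e : S * r / d - r⁻¹ * S = S * ((2 * r * x - 1) / (r * d)) := by
      field_simp
      rw [← hd]
      ring
    rw [e, abs_mul, mul_right_comm _ |S|, mul_comm |S|]
    refine mul_le_mul_of_nonneg_right ?_ (abs_nonneg S)
    have h1 : |2 * r * x - 1| ≤ 3 * r := by
      rw [abs_le]
      constructor <;>
        linarith only [r1, x1, r0, x2, mul_le_mul_of_nonneg_left x1 r0.le, mul_le_mul_of_nonneg_left x2 r0.le]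
    rw [abs_div, abs_of_pos (mul_pos r0 d0), div_le_iff₀ (mul_pos r0 d0)]
    refine h1.trans ?_
    rw [show 3 / c * (r ^ 2)⁻¹ * (r * d) = 3 * r * (d / (c * r ^ 2)) by field_simp]
    exact le_mul_of_one_le_right (by positivity)
      ((one_le_div (mul_pos hc (pow_pos r0 2))).2 (by linarith only [hc, h]))
  · have r1 := exp_le_one_iff.2 (mul_nonpos_of_nonneg_of_nonpos hl.le (not_le.1 hu).le)
    generalize exp (lam * u) = r at *
    rw [min_eq_right (r1.trans ((one_le_inv₀ (by positivity)).2 (pow_le_one₀ r0.le r1))),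
      sub_zero, abs_div, abs_mul, abs_of_pos r0, abs_of_pos d0, div_le_iff₀ d0]
    have h1 : 1 ≤ 3 / c * (1 - 2 * r * x + r ^ 2) := by
      rw [div_mul_eq_mul_div, le_div_iff₀ hc]
      linarith only [h, d0, hc, mul_nonneg hc.le (sq_nonneg r)]
    linarith only [h1, r0, mul_le_mul_of_nonneg_left h1 (mul_nonneg (abs_nonneg S) r0.le)]

theorem KerD_exp2 (lam u : ℝ) : exp (2 * lam * u) = exp (lam * u) ^ 2 := by
  rw [← exp_nat_mul, mul_assoc]
  rfl

theorem KerD_kw (lam u : ℝ) : 0 ≤ kw lam u := (lt_min (exp_pos _) (exp_pos _)).le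

theorem d2_past : ∃ C : ℝ, 1 ≤ C ∧ ∀ s φ φ' : ℝ, 1 ≤ |s| →
    |dlg s φ - dlg s φ'| ≤ C * exp (-|s|) * |φ - φ'| := by
  exact ⟨4, by norm_num, fun s φ φ' hs => KerD_mvt
    (fun ψ _ => KerD_deriv (KerD_lt (KerD_ne hs) ψ))
    fun ψ _ => (KerD_dA_le (KerD_lt (KerD_ne hs) ψ)).trans (KerD_far hs ψ)⟩

theorem d2_future : ∃ C : ℝ, 1 ≤ C ∧ ∀ s φ φ' : ℝ, s ≤ -1 →
    |(dlg s φ - exp s * sin φ) - (dlg s φ' - exp s * sin φ')| ≤ C * exp (2 * s) * |φ - φ'| := by
  refine ⟨176, by norm_num, fun s φ φ' hs => ?_⟩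
  have h0 : s ≠ 0 := by linarith
  refine KerD_mvt (f := fun φ => dlg s φ - exp s * sin φ) (fun ψ _ =>
    (KerD_deriv (KerD_lt h0 ψ)).sub ((hasDerivAt_sin ψ).const_mul _)) fun ψ _ => ?_
  have h1 : exp s ≤ 1 / 2 := by
    refine (exp_le_exp.2 hs).trans ?_
    linarith only [exp_neg_one_lt_d9]
  have h2 := KerD_fut (exp_pos s) h1 (abs_cos_le_one ψ)
  have e : exp (2 * s) = exp s ^ 2 := by
    rw [← exp_nat_mul]
    rfl
  have h3 := sub_pos.2 (KerD_lt h0 ψ)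
  rw [← e, KerD_den, e] at h2
  rw [e]
  convert h2 using 3
  rw [KerD_dA, div_eq_div_iff (by positivity) (by positivity), cosh_eq, exp_neg]
  field_simp
  ring

theorem d2_off : ∃ C : ℝ, 1 ≤ C ∧ ∀ s φ φ' : ℝ, (∀ ψ ∈ uIcc φ φ', 1 / 8 ≤ |rp ψ|) →
    |dlg s φ - dlg s φ'| ≤ C * |φ - φ'| := by
  have h0 := sub_pos.2 KerD_cos8
  refine ⟨1 + 1 / (2 * (1 - cos (1 / 8))), le_add_of_nonneg_right (by positivity),
    fun s φ φ' h => ?_⟩
  have h1 : ∀ ψ ∈ uIcc φ φ', cos ψ ≤ cos (1 / 8) := fun ψ hψ =>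
    cos_rp ψ ▸ KerD_cos_le (h ψ hψ) (KerG_abs_le ψ)
  have h2 : ∀ ψ ∈ uIcc φ φ', cos ψ < cosh s := fun ψ hψ =>
    (h1 ψ hψ).trans_lt (KerD_cos8.trans_le (one_le_cosh s))
  refine KerD_mvt (fun ψ hψ => KerD_deriv (h2 ψ hψ)) fun ψ hψ =>
    (KerD_dA_le (h2 ψ hψ)).trans (le_add_of_nonneg_of_le zero_le_one
      (one_div_le_one_div_of_le (by positivity) ?_))
  linarith only [h1, hψ, h1 ψ hψ, one_le_cosh s]

theorem d2_V : ∃ C : ℝ, 1 ≤ C ∧ ∀ lam s φ φ' : ℝ, 1 ≤ lam → lam ≤ 11 / 10 → s ≠ 0 → |s| ≤ 2 →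
    |φ| ≤ 1 / 2 → |φ'| ≤ 1 / 2 →
    |(dlg s φ - 2 * lam * dlg (2 * lam * s) (2 * lam * φ)) -
      (dlg s φ' - 2 * lam * dlg (2 * lam * s) (2 * lam * φ'))| ≤ C * |φ - φ'| := by
  refine ⟨6 * (1 + 10 * exp 13), by linarith only [exp_pos 13], fun lam s φ φ' h1 h2 hs h3 h4 h5 => ?_⟩
  have l0 : 0 < 2 * lam := by linarith only [h1]
  have hs' : 2 * lam * s ≠ 0 := mul_ne_zero l0.ne' hs
  refine KerD_mvt (f := fun φ => dlg s φ - 2 * lam * dlg (2 * lam * s) (2 * lam * φ))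
    (fun ψ _ => (KerD_deriv (KerD_lt hs ψ)).sub ((HasDerivAt.comp ψ
      (KerD_deriv (KerD_lt hs' (2 * lam * ψ))) ((hasDerivAt_id ψ).const_mul (2 * lam))).const_mul
        (2 * lam))) fun ψ hψ => ?_
  have h6 : |ψ| ≤ 1 / 2 := abs_le.2
    (uIcc_subset_Icc (abs_le.1 h4) (abs_le.1 h5) hψ)
  have h7 := KerD_near hs (by linarith only [h3]) (h6.trans (by norm_num))
  have h8 := KerD_near hs' (φ := 2 * lam * ψ)
    (by rw [abs_mul, abs_of_pos l0]; linarith only [h2, h3, h1, abs_nonneg s, mul_nonneg_of_nonpos_of_nonpos (Mathlib.Tactic.Linarith.sub_nonpos_of_le h1) (Mathlib.Tactic.Linarith.sub_nonpos_of_le h3)])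
    (by rw [abs_mul, abs_of_pos l0]; linarith only [h2, h6, h1, abs_nonneg ψ, mul_nonneg_of_nonpos_of_nonpos (Mathlib.Tactic.Linarith.sub_nonpos_of_le h1) (Mathlib.Tactic.Linarith.sub_nonpos_of_le h6)])
  have e : KerD_dA s ψ - 2 * lam * (KerD_dA (2 * lam * s) (2 * lam * ψ) * (2 * lam * 1)) =
      KerD_dA s ψ - (s ^ 2 - ψ ^ 2) / (s ^ 2 + ψ ^ 2) ^ 2 - (2 * lam) ^ 2 *
        (KerD_dA (2 * lam * s) (2 * lam * ψ) - ((2 * lam * s) ^ 2 - (2 * lam * ψ) ^ 2) /
          ((2 * lam * s) ^ 2 + (2 * lam * ψ) ^ 2) ^ 2) := by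
    field_simp
    ring
  rw [e]
  refine (abs_sub _ _).trans ?_
  rw [abs_mul, abs_sq]
  have h9 := mul_le_mul (show (2 * lam) ^ 2 ≤ 5 by linarith only [h2, h1, mul_nonneg_of_nonpos_of_nonpos (Mathlib.Tactic.Linarith.sub_nonpos_of_le h1) (Mathlib.Tactic.Linarith.sub_nonpos_of_le h2)]) h8 (abs_nonneg _) (by norm_num)
  linarith only [h7, h9]

theorem rem_off : ∃ C : ℝ, 1 ≤ C ∧ ∀ lam u η : ℝ, 1 < lam → lam ≤ 11 / 10 →
    (1 ≤ |u| ∨ 1 / 8 ≤ |rp η|) →
    |Imk lam u η - if 0 ≤ u then exp (-lam * u) * Sg lam η else 0| ≤ C * |Sg lam η| * kw lam u := by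
  have h0 := sub_pos.2 KerD_cos8
  have c0 : 0 < min (1 / 5) (1 - cos (1 / 8)) := lt_min (by norm_num) h0
  refine ⟨3 / min (1 / 5) (1 - cos (1 / 8)), (one_le_div c0).2
    ((min_le_left _ _).trans (by norm_num)), fun lam u η h1 h2 h => ?_⟩
  have l0 : 0 < lam := by linarith only [h1, h2]
  rcases le_total (π / lam) |rp η| with h3 | h3
  · simp [Imk, Sg_zero h1 h3]
  rw [Imk, KerD_exp2]
  refine KerD_rem l0 (abs_cos_le_one _) c0 ?_ _
  have r0 := exp_pos (lam * u)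
  rcases h with h | h
  · refine (mul_le_mul_of_nonneg_right (min_le_left _ _) (by positivity)).trans ?_
    have h4 : 0 ≤ (2 * exp (lam * u) - 1) * (exp (lam * u) - 2) := by
      rcases le_abs.1 h with h | h
      · have h5 := exp_one_gt_d9.le.trans (exp_le_exp.2 (show 1 ≤ lam * u by linarith only [h, h1, h2, mul_pos_of_neg_of_neg (Mathlib.Tactic.Linarith.sub_neg_of_lt h1) (Mathlib.Tactic.Linarith.sub_neg_of_lt h1), mul_nonneg_of_nonpos_of_nonpos (le_of_lt (Mathlib.Tactic.Linarith.sub_neg_of_lt h1)) (Mathlib.Tactic.Linarith.sub_nonpos_of_le h2), mul_nonneg_of_nonpos_of_nonpos (le_of_lt (Mathlib.Tactic.Linarith.sub_neg_of_lt h1)) (Mathlib.Tactic.Linarith.sub_nonpos_of_le h)]))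
        exact mul_nonneg (by linarith only [h1, h2, h5]) (by linarith only [h1, h2, h5])
      · have h5 := (exp_le_exp.2 (show lam * u ≤ -1 by linarith only [h, h1, h2, mul_pos_of_neg_of_neg (Mathlib.Tactic.Linarith.sub_neg_of_lt h1) (Mathlib.Tactic.Linarith.sub_neg_of_lt h1), mul_nonneg_of_nonpos_of_nonpos (le_of_lt (Mathlib.Tactic.Linarith.sub_neg_of_lt h1)) (Mathlib.Tactic.Linarith.sub_nonpos_of_le h2), mul_nonneg_of_nonpos_of_nonpos (le_of_lt (Mathlib.Tactic.Linarith.sub_neg_of_lt h1)) (Mathlib.Tactic.Linarith.sub_nonpos_of_le h)])).trans exp_neg_one_lt_d9.le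
        exact mul_nonneg_of_nonpos_of_nonpos (by linarith only [h1, h2, h5]) (by linarith only [h1, h2, h5])
    linarith only [h4, r0, mul_le_mul_of_nonneg_left (cos_le_one (lam * rp η)) r0.le]
  · refine (mul_le_mul_of_nonneg_right (min_le_right _ _) (by positivity)).trans ?_
    have h4 : cos (lam * rp η) ≤ cos (1 / 8) := by
      refine KerD_cos_le ?_ ?_ <;> rw [abs_mul, abs_of_pos l0]
      · linarith only [h, h1, h2, mul_pos_of_neg_of_neg (Mathlib.Tactic.Linarith.sub_neg_of_lt h1) (Mathlib.Tactic.Linarith.sub_neg_of_lt h1), mul_nonneg_of_nonpos_of_nonpos (le_of_lt (Mathlib.Tactic.Linarith.sub_neg_of_lt h1)) (Mathlib.Tactic.Linarith.sub_nonpos_of_le h2), mul_nonneg_of_nonpos_of_nonpos (le_of_lt (Mathlib.Tactic.Linarith.sub_neg_of_lt h1)) (Mathlib.Tactic.Linarith.sub_nonpos_of_le h)]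
      · exact (le_div_iff₀' l0).1 h3
    have h5 : 0 ≤ cos (1 / 8) :=
      cos_nonneg_of_mem_Icc ⟨by linarith only [h1, h2, pi_pos], by linarith only [h1, h2, pi_gt_three]⟩
    linarith only [h4, r0, h5, mul_le_mul_of_nonneg_left h4 r0.le, mul_nonneg h5 (sq_nonneg (exp (lam * u) - 1))]

theorem rem_V : ∃ C : ℝ, 1 ≤ C ∧ ∀ lam u η : ℝ, 1 < lam → lam ≤ 11 / 10 → u ≠ 0 →
    (1 ≤ |u| ∨ |η| ≤ 1 / 2) →
    |Imk lam u η - (if 0 ≤ u then exp (-lam * u) * Sg lam η else 0) +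
      2 * dlg (2 * lam * (-u)) (2 * lam * (-η))| ≤ C * min 1 |η| * kw lam u := by
  obtain ⟨C, hC, h0⟩ := rem_off
  refine ⟨2 * C + 24, by linarith only [hC], fun lam u η h1 h2 hu h => ?_⟩
  have l0 : 0 < lam := by linarith only [h1, h2]
  have k0 := KerD_kw lam u
  have m0 : 0 ≤ min 1 |η| := le_min zero_le_one (abs_nonneg _)
  have h3 : |Sg lam η| * kw lam u ≤ 2 * (min 1 |η| * kw lam u) := by
    rw [← mul_assoc]
    exact mul_le_mul_of_nonneg_right ((abs_Sg_le h1 η).trans (by linarith only [m0, h2, mul_nonneg_of_nonpos_of_nonpos (Mathlib.Tactic.Linarith.sub_nonpos_of_le h2) (Mathlib.Tactic.Linarith.sub_nonpos_of_le m0)])) k0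
  have h4 := mul_nonneg m0 k0
  rcases h with h | h
  · have h5 := h0 lam u η h1 h2 (Or.inl h)
    have e : |2 * lam * -u| = 2 * lam * |u| := by rw [abs_mul, abs_neg, abs_of_pos (by linarith only [h1, h2])]
    have h6 : 1 ≤ |2 * lam * -u| := by
      rw [e]
      linarith only [h2, h, h1, mul_pos_of_neg_of_neg (Mathlib.Tactic.Linarith.sub_neg_of_lt h1) (Mathlib.Tactic.Linarith.sub_neg_of_lt h1), mul_nonneg_of_nonpos_of_nonpos (le_of_lt (Mathlib.Tactic.Linarith.sub_neg_of_lt h1)) (Mathlib.Tactic.Linarith.sub_nonpos_of_le h2), mul_nonneg_of_nonpos_of_nonpos (le_of_lt (Mathlib.Tactic.Linarith.sub_neg_of_lt h1)) (Mathlib.Tactic.Linarith.sub_nonpos_of_le h)]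
    have h7 : exp (-|2 * lam * -u|) ≤ kw lam u := by
      rw [e]
      refine le_min (exp_le_exp.2 ?_) (exp_le_exp.2 ?_)
      · linarith only [h1, le_abs_self u, mul_nonneg_of_nonpos_of_nonpos (le_of_lt (Mathlib.Tactic.Linarith.sub_neg_of_lt h1)) (Mathlib.Tactic.Linarith.sub_nonpos_of_le (le_abs_self u))]
      · linarith only [h2, h, h1, neg_abs_le u, abs_nonneg u, mul_pos_of_neg_of_neg (Mathlib.Tactic.Linarith.sub_neg_of_lt h1) (Mathlib.Tactic.Linarith.sub_neg_of_lt h1), mul_nonneg_of_nonpos_of_nonpos (le_of_lt (Mathlib.Tactic.Linarith.sub_neg_of_lt h1)) (Mathlib.Tactic.Linarith.sub_nonpos_of_le h2), mul_nonneg_of_nonpos_of_nonpos (le_of_lt (Mathlib.Tactic.Linarith.sub_neg_of_lt h1)) (Mathlib.Tactic.Linarith.sub_nonpos_of_le h), mul_nonneg_of_nonpos_of_nonpos (le_of_lt (Mathlib.Tactic.Linarith.sub_neg_of_lt h1)) (Mathlib.Tactic.Linarith.sub_nonpos_of_le (neg_abs_le u))]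
    have h8 : |sin (2 * lam * -η)| ≤ 3 * min 1 |η| := by
      rcases min_choice 1 |η| with h8 | h8 <;> rw [h8]
      · linarith only [h1, h2, abs_sin_le_one (2 * lam * -η)]
      · refine abs_sin_le_abs.trans ?_
        rw [abs_mul, abs_neg, abs_of_pos (by linarith only [h1, h2])]
        linarith only [m0, h8, h1, h2, abs_nonneg η, Mathlib.Tactic.Linarith.mul_zero_eq (Mathlib.Tactic.Linarith.sub_neg_of_lt h1) (sub_eq_zero_of_eq h8), mul_nonneg_of_nonpos_of_nonpos (Mathlib.Tactic.Linarith.sub_nonpos_of_le h2) (Mathlib.Tactic.Linarith.sub_nonpos_of_le m0)]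
    have h9 := sub_pos.2 (KerD_lt (KerD_ne h6) (2 * lam * -η))
    have h10 : |dlg (2 * lam * -u) (2 * lam * -η)| ≤ 3 * min 1 |η| * (4 * kw lam u) := by
      rw [KerD_dlg, abs_div, abs_of_pos (mul_pos two_pos h9), div_eq_mul_one_div]
      exact mul_le_mul h8 ((KerD_far h6 _).trans (by linarith only [h7])) (by positivity) (by positivity)
    refine (abs_add_le _ _).trans ?_
    rw [abs_mul, abs_two]
    linarith only [h5, h10, h3, hC, mul_le_mul_of_nonneg_left h3 (zero_le_one.trans hC)]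
  · have h5 : |lam * η| ≤ 1 := by
      rw [abs_mul, abs_of_pos l0]
      linarith only [h2, h, h1, abs_nonneg η, mul_pos_of_neg_of_neg (Mathlib.Tactic.Linarith.sub_neg_of_lt h1) (Mathlib.Tactic.Linarith.sub_neg_of_lt h1), mul_nonneg_of_nonpos_of_nonpos (le_of_lt (Mathlib.Tactic.Linarith.sub_neg_of_lt h1)) (Mathlib.Tactic.Linarith.sub_nonpos_of_le h2), mul_nonneg_of_nonpos_of_nonpos (le_of_lt (Mathlib.Tactic.Linarith.sub_neg_of_lt h1)) (Mathlib.Tactic.Linarith.sub_nonpos_of_le h)]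
    have h6 : 0 ≤ cos (lam * η) := (cos_pos_of_le_one h5).le
    have h7 : Sg lam η = sin (lam * η) := Sg_eq h1 (by
      rw [le_div_iff₀ l0]
      linarith only [h2, h, h1, pi_gt_three, abs_nonneg η, mul_pos_of_neg_of_neg (Mathlib.Tactic.Linarith.sub_neg_of_lt h1) (Mathlib.Tactic.Linarith.sub_neg_of_lt h1), mul_nonneg_of_nonpos_of_nonpos (le_of_lt (Mathlib.Tactic.Linarith.sub_neg_of_lt h1)) (Mathlib.Tactic.Linarith.sub_nonpos_of_le h2), mul_nonneg_of_nonpos_of_nonpos (le_of_lt (Mathlib.Tactic.Linarith.sub_neg_of_lt h1)) (Mathlib.Tactic.Linarith.sub_nonpos_of_le h)])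
    have r0 := exp_pos (lam * u)
    have h8 := KerD_rem l0 (x := -cos (lam * η)) (by rw [abs_neg]; exact abs_cos_le_one _) one_pos (u := u)
      (by linarith only [r0, h6, mul_nonneg r0.le h6]) (Sg lam η)
    have h9 : 0 < 1 - 2 * exp (lam * u) * cos (lam * η) + exp (lam * u) ^ 2 := by
      rw [← KerD_exp2, mul_assoc 2 lam, KerD_den]
      exact mul_pos r0 (mul_pos two_pos (sub_pos.2 (KerD_lt (mul_ne_zero l0.ne' hu) _)))
    have h10 : 0 < 1 + 2 * exp (lam * u) * cos (lam * η) + exp (lam * u) ^ 2 := by positivity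
    have e : Imk lam u η + 2 * dlg (2 * lam * -u) (2 * lam * -η) = Sg lam η * exp (lam * u) /
        (1 - 2 * exp (lam * u) * -cos (lam * η) + exp (lam * u) ^ 2) := by
      have e1 : exp (2 * lam * -u) = (exp (lam * u) ^ 2)⁻¹ := by
        rw [mul_neg, exp_neg, KerD_exp2]
      have e2 : exp (2 * (2 * lam * -u)) = (exp (lam * u) ^ 2)⁻¹ ^ 2 := by
        rw [← e1, ← exp_nat_mul]
        rfl
      rw [Imk, dlg, rp_eq (by linarith only [h1, h2, h, pi_gt_three]), h7, KerD_exp2, e1, e2, mul_neg _ η,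
        sin_neg, cos_neg, mul_assoc 2 lam η, sin_two_mul, cos_two_mul, mul_neg _ (cos _),
        sub_neg_eq_add]
      generalize exp (lam * u) = r at *
      generalize cos (lam * η) = x at *
      have e3 : 1 - 2 * (r ^ 2)⁻¹ * (2 * x ^ 2 - 1) + (r ^ 2)⁻¹ ^ 2 =
          (1 - 2 * r * x + r ^ 2) * (1 + 2 * r * x + r ^ 2) / r ^ 4 := by
        field_simp
        ring
      rw [e3]
      generalize hd : 1 - 2 * r * x + r ^ 2 = d at h9 ⊢
      have e4 : 1 + 2 * r * x + r ^ 2 = d + 4 * r * x := by linarith only [hd]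
      rw [e4] at h10 ⊢
      field_simp
      ring
    rw [sub_add_eq_add_sub, e]
    refine h8.trans ?_
    linarith only [h3, h4, hC, mul_nonneg (zero_le_one.trans hC) h4]

end

end Pool.Agent.MinMod
end

-- merged part: Pool.Agent.Work.MP_f62247_an.IdT
section
/-!
# The tilt identity

`h = π / lam`.  One zero, base point `0`: `strip_res` on `-h ≤ Im ≤ h` for `g z = fk (z - ζ) / (1 - e^(lam z))`,
`ζ = ξ + i rp η`; on both lines `e^(lam z) = -ϱ`, `ϱ = e^(lam t)`.  Poles: `0` (residue `-fk (-ζ) / lam`) and `ζ` if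
`|rp η| < h` (residue `1 / (1 - e^(lam ζ))`).  Real parts, `parts_nk` with `ρ = 1 / (1 + ϱ)`, `ρ' = -kk`, `neg_im_fk`.
If `|rp η| = h` (pole on a line) use continuity in `η` of both sides (`continuous_int_nk`; `ξ ≠ 0`).
Linear term: the same with `g z = c e^z / (1 - e^(lam z))`.  (Checked numerically.)
-/

open Real MeasureTheory Set Filter Topology

namespace Pool.Agent.MinMod

noncomputable section

theorem IdT_exp_one {w : ℂ} (h : Complex.exp w = 1) (hw : |w.im| < 2 * π) : w = 0 := by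
  obtain ⟨n, rfl⟩ := Complex.exp_eq_one_iff.1 h
  have e : ((n : ℂ) * (2 * π * Complex.I)).im = n * (2 * π) := by simp
  rw [e, abs_mul, abs_of_pos two_pi_pos] at hw
  have h1 : |(n : ℝ)| < 1 := by
    by_contra hc
    linarith only [hw, hc, two_pi_pos, not_lt.1 hc, mul_nonneg_of_nonpos_of_nonpos (Mathlib.Tactic.Linarith.sub_nonpos_of_le (le_of_not_gt hc)) (le_of_lt (Mathlib.Tactic.Linarith.sub_neg_of_lt two_pi_pos))]
  have h2 : n = 0 := by
    rw [← Int.cast_abs] at h1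
    exact Int.abs_lt_one_iff.1 (by exact_mod_cast h1)
  simp [h2]

theorem IdT_rp {φ : ℝ} (h0 : φ ≠ 0) (h : |φ| < 2 * π) : rp φ ≠ 0 := by
  intro hc
  obtain ⟨k, hk⟩ := exists_rp φ
  have e : φ = -k * (2 * π) := by linarith only [hc, hk]
  rw [e, abs_mul, abs_of_pos two_pi_pos, abs_neg] at h
  have h1 : |(k : ℝ)| < 1 := by
    by_contra hc
    linarith only [h, hc, two_pi_pos, not_lt.1 hc, mul_nonneg_of_nonpos_of_nonpos (Mathlib.Tactic.Linarith.sub_nonpos_of_le (le_of_not_gt hc)) (le_of_lt (Mathlib.Tactic.Linarith.sub_neg_of_lt two_pi_pos))]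
  have h2 : k = 0 := by
    rw [← Int.cast_abs] at h1
    exact Int.abs_lt_one_iff.1 (by exact_mod_cast h1)
  exact h0 (by simp [e, h2])

/-- the weight on the boundary lines -/
def IdT_rho (lam t : ℝ) : ℝ := (1 + exp (lam * t))⁻¹

theorem IdT_wt {lam : ℝ} : Wt lam (IdT_rho lam) := by
  refine ⟨by unfold IdT_rho; fun_prop, 1, fun t => ?_⟩
  unfold IdT_rho
  rw [abs_of_pos (by positivity), one_mul, neg_mul, exp_neg]
  refine inv_anti₀ (exp_pos _) ?_
  rcases max_choice t 0 with h | h <;> rw [h]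
  · linarith only []
  · simp [(exp_pos _).le]

theorem IdT_kk {lam : ℝ} (h : 0 ≤ lam) : Wt lam (kk lam) := by
  simpa using wt_kk h 0

theorem IdT_nkk {lam : ℝ} (h : 0 ≤ lam) : Wt lam fun t => -kk lam t := by
  obtain ⟨h1, C, h2⟩ := IdT_kk h
  exact ⟨h1.neg, C, fun t => by rw [abs_neg]; exact h2 t⟩

theorem IdT_deriv (lam t : ℝ) : HasDerivAt (IdT_rho lam) (-kk lam t) t := by
  have h1 : HasDerivAt (fun t => 1 + exp (lam * t)) (exp (lam * t) * (lam * 1)) t :=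
    (((hasDerivAt_id t).const_mul lam).exp).const_add 1
  have h2 := h1.inv (by positivity)
  refine h2.congr_deriv ?_
  unfold kk
  ring

theorem IdT_line {lam φ : ℝ} (hl : 0 < lam) (hφ : |φ| = π / lam) (t : ℝ) (w : ℂ) :
    w / (1 - Complex.exp (lam * (t + φ * Complex.I))) = (IdT_rho lam t : ℂ) * w := by
  have e : (lam : ℂ) * (t + φ * Complex.I) = (lam * t : ℝ) + (lam * φ : ℝ) * Complex.I := by
    push_cast
    ring
  have h1 : Complex.exp ((lam * φ : ℝ) * Complex.I) = -1 := by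
    rcases eq_or_eq_neg_of_abs_eq hφ with h | h
    · have : lam * φ = π := by rw [h]; field_simp
      rw [this, Complex.exp_pi_mul_I]
    · have : lam * φ = -π := by rw [h]; field_simp
      rw [this, Complex.ofReal_neg, neg_mul, Complex.exp_neg, Complex.exp_pi_mul_I]
      norm_num
  rw [e, Complex.exp_add, h1, ← Complex.ofReal_exp, div_eq_inv_mul]
  unfold IdT_rho
  push_cast
  ring

theorem IdT_dec {lam : ℝ} (h1 : 1 < lam) (h2 : lam < 2) {z : ℂ} (hz : 1 ≤ |z.re|) :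
    exp z.re ≤ 2 * exp (-((lam - 1) * |z.re|)) * ‖1 - Complex.exp (lam * z)‖ := by
  have hn : ‖Complex.exp (lam * z)‖ = exp (lam * z.re) := by
    rw [Complex.norm_exp, Complex.re_ofReal_mul]
  have h3 := abs_norm_sub_norm_le (1 : ℂ) (Complex.exp (lam * z))
  rw [norm_one, hn] at h3
  generalize ‖1 - Complex.exp (lam * z)‖ = N at *
  generalize z.re = x at *
  rcases le_abs.1 hz with hx | hx
  · rw [abs_of_pos (by linarith only [h1, h2, hx] : 0 < x)]
    have h4 : 2 ≤ exp (lam * x) := by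
      have := add_one_le_exp (lam * x)
      linarith only [hx, this, h1, h2, mul_pos_of_neg_of_neg (Mathlib.Tactic.Linarith.sub_neg_of_lt h1) (Mathlib.Tactic.Linarith.sub_neg_of_lt h1), mul_pos_of_neg_of_neg (Mathlib.Tactic.Linarith.sub_neg_of_lt h1) (Mathlib.Tactic.Linarith.sub_neg_of_lt h2), mul_nonneg_of_nonpos_of_nonpos (le_of_lt (Mathlib.Tactic.Linarith.sub_neg_of_lt h1)) (Mathlib.Tactic.Linarith.sub_nonpos_of_le hx)]
    have h5 : exp (lam * x) ≤ 2 * N := by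
      have := neg_abs_le (1 - exp (lam * x))
      linarith only [h3, h4, this]
    have h6 : exp x = exp (-((lam - 1) * x)) * exp (lam * x) := by
      rw [← exp_add]
      congr 1
      ring
    have := mul_le_mul_of_nonneg_left h5 (exp_pos (-((lam - 1) * x))).le
    linarith only [h6, this]
  · rw [abs_of_neg (by linarith : x < 0)]
    have h4 : 2 ≤ exp (-(lam * x)) := by
      have := add_one_le_exp (-(lam * x))
      linarith only [hx, this, h1, h2, mul_pos_of_neg_of_neg (Mathlib.Tactic.Linarith.sub_neg_of_lt h1) (Mathlib.Tactic.Linarith.sub_neg_of_lt h1), mul_pos_of_neg_of_neg (Mathlib.Tactic.Linarith.sub_neg_of_lt h1) (Mathlib.Tactic.Linarith.sub_neg_of_lt h2), mul_nonneg_of_nonpos_of_nonpos (le_of_lt (Mathlib.Tactic.Linarith.sub_neg_of_lt h1)) (Mathlib.Tactic.Linarith.sub_nonpos_of_le hx)]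
    have h7 : exp (lam * x) * exp (-(lam * x)) = 1 := by rw [← exp_add]; simp
    have h5 : 1 ≤ 2 * N := by
      have := le_abs_self (1 - exp (lam * x))
      (refine le_of_not_gt fun h_nl => ?_; linarith only [h_nl, h3, h4, h7, this, h1, h2, exp_pos (lam * x), mul_pos_of_neg_of_neg (Mathlib.Tactic.Linarith.sub_neg_of_lt h1) (Mathlib.Tactic.Linarith.sub_neg_of_lt h_nl), mul_pos_of_neg_of_neg (Mathlib.Tactic.Linarith.sub_neg_of_lt h2) (Mathlib.Tactic.Linarith.sub_neg_of_lt h_nl), mul_nonneg_of_nonpos_of_nonpos (Mathlib.Tactic.Linarith.sub_nonpos_of_le h3) (Mathlib.Tactic.Linarith.sub_nonpos_of_le h4), mul_nonneg_of_nonpos_of_nonpos (Mathlib.Tactic.Linarith.sub_nonpos_of_le h4) (Mathlib.Tactic.Linarith.sub_nonpos_of_le this), mul_nonneg_of_nonpos_of_nonpos (Mathlib.Tactic.Linarith.sub_nonpos_of_le h4) (le_of_lt (Mathlib.Tactic.Linarith.sub_neg_of_lt h_nl))])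
    have h6 : exp x ≤ exp (-((lam - 1) * -x)) := exp_le_exp.2 (by linarith only [h1, h2, hx, mul_pos_of_neg_of_neg (Mathlib.Tactic.Linarith.sub_neg_of_lt h1) (Mathlib.Tactic.Linarith.sub_neg_of_lt h2), mul_pos_of_neg_of_neg (Mathlib.Tactic.Linarith.sub_neg_of_lt h2) (Mathlib.Tactic.Linarith.sub_neg_of_lt h2), mul_nonneg_of_nonpos_of_nonpos (le_of_lt (Mathlib.Tactic.Linarith.sub_neg_of_lt h2)) (Mathlib.Tactic.Linarith.sub_nonpos_of_le hx)])
    have := mul_le_mul_of_nonneg_left h5 (exp_pos (-((lam - 1) * -x))).le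
    linarith

theorem IdT_strip {lam : ℝ} (h1 : 1 < lam) (h2 : lam < 2) (f : ℂ → ℂ) (S : Finset ℂ) (R : ℂ → ℂ)
    (hS : ∀ p ∈ S, |p.im| < π / lam ∧ p ≠ 0)
    (hd : ∀ z : ℂ, |z.im| ≤ π / lam → z ∉ S → DifferentiableAt ℂ f z)
    (hR : ∀ p ∈ S, Tendsto (fun z => (z - p) * f z) (𝓝[≠] p) (𝓝 (R p)))
    (hint : ∀ φ : ℝ, |φ| = π / lam →
      Integrable fun t : ℝ => (IdT_rho lam t : ℂ) * f (t + φ * Complex.I))
    {C T0 : ℝ} (hC : 0 ≤ C) (hbd : ∀ z : ℂ, T0 ≤ |z.re| → ‖f z‖ ≤ C * exp z.re) :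
    (∫ t : ℝ, IdT_rho lam t * (f (t + (-(π / lam) : ℝ) * Complex.I)).re) -
      ∫ t : ℝ, IdT_rho lam t * (f (t + (π / lam : ℝ) * Complex.I)).re =
      2 * π / lam * (f 0).im - 2 * π * (∑ p ∈ S, R p / (1 - Complex.exp (lam * p))).im := by
  classical
  have hl : 0 < lam := by linarith only [h1, h2]
  have hh : 0 < π / lam := div_pos pi_pos hl
  have hlc : (lam : ℂ) ≠ 0 := by exact_mod_cast hl.ne'
  have h0S : (0 : ℂ) ∉ S := fun h => (hS 0 h).2 rfl
  have hne : ∀ z : ℂ, |z.im| ≤ π / lam → z ≠ 0 → 1 - Complex.exp (lam * z) ≠ 0 := by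
    intro z hz h0 hc
    refine mul_ne_zero hlc h0 (IdT_exp_one (sub_eq_zero.1 hc).symm ?_)
    rw [Complex.im_ofReal_mul, abs_mul, abs_of_pos hl]
    rw [le_div_iff₀ hl] at hz
    linarith [pi_pos]
  have hdk : ∀ z : ℂ, HasDerivAt (fun z : ℂ => 1 - Complex.exp (lam * z))
      (-(Complex.exp (lam * z) * (lam * 1))) z := fun z =>
    (((hasDerivAt_id z).const_mul (lam : ℂ)).cexp).const_sub 1
  have ha : |-(π / lam)| = π / lam := by rw [abs_neg, abs_of_pos hh]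
  have hb : |π / lam| = π / lam := abs_of_pos hh
  have key := strip_res (a := -(π / lam)) (b := π / lam) (by linarith only [hh])
    (fun z => f z / (1 - Complex.exp (lam * z))) (insert 0 S)
    (fun p => if p = 0 then -f 0 / lam else R p / (1 - Complex.exp (lam * p))) ?_ ?_ ?_ ?_ ?_ ?_
  · simp only [IdT_line hl ha, IdT_line hl hb] at key
    rw [Finset.sum_insert h0S, if_pos rfl,
      Finset.sum_congr rfl fun p hp => if_neg (hS p hp).2] at key
    have e : ∀ φ : ℝ, |φ| = π / lam → ∫ t : ℝ, IdT_rho lam t * (f (t + φ * Complex.I)).re =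
        (∫ t : ℝ, (IdT_rho lam t : ℂ) * f (t + φ * Complex.I)).re := by
      intro φ hφ
      have := integral_re (hint φ hφ)
      simpa only [RCLike.re_to_complex, Complex.re_ofReal_mul] using this
    rw [e _ ha, e _ hb, ← Complex.sub_re, key]
    generalize (∑ p ∈ S, R p / (1 - Complex.exp (lam * p))) = w
    simp only [Complex.mul_re, Complex.mul_im, Complex.add_re, Complex.add_im, Complex.I_re,
      Complex.I_im, Complex.ofReal_re, Complex.ofReal_im, Complex.re_ofNat, Complex.im_ofNat,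
      Complex.div_ofReal_re, Complex.div_ofReal_im, Complex.neg_re, Complex.neg_im]
    ring
  · intro p hp
    rcases Finset.mem_insert.1 hp with rfl | hp
    · simp only [Complex.zero_im]
      exact ⟨by linarith only [hh], hh⟩
    · exact abs_lt.1 (hS p hp).1
  · intro z hz1 hz2 hz
    rw [Finset.mem_insert, not_or] at hz
    have hz' : |z.im| ≤ π / lam := abs_le.2 ⟨hz1, hz2⟩
    exact (hd z hz' hz.2).div (hdk z).differentiableAt (hne z hz' hz.1)
  · intro p hp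
    rcases Finset.mem_insert.1 hp with rfl | hp
    · have h3 := (hasDerivAt_iff_tendsto_slope.1 (hdk 0)).inv₀ (by simpa using hlc)
      have h4 := ((hd 0 (by simpa using hh.le) h0S).continuousAt.tendsto.mono_left
        (nhdsWithin_le_nhds (s := {0}ᶜ))).mul h3
      rw [if_pos rfl]
      have e : -f 0 / lam = f 0 * (-(Complex.exp (lam * 0) * (lam * 1)))⁻¹ := by
        rw [mul_zero, Complex.exp_zero]
        field_simp
      rw [e]
      refine h4.congr fun z => ?_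
      rw [slope_def_field, mul_zero, Complex.exp_zero, sub_self, sub_zero, inv_div]
      ring
    · rw [if_neg (hS p hp).2]
      have h3 := (hR p hp).div ((hdk p).continuousAt.tendsto.mono_left nhdsWithin_le_nhds)
        (hne p (hS p hp).1.le (hS p hp).2)
      refine h3.congr fun z => ?_
      simp only [Pi.div_apply]
      ring
  · simp only [IdT_line hl ha]
    exact hint _ ha
  · simp only [IdT_line hl hb]
    exact hint _ hb
  · intro δ hδ
    have h3 : Tendsto (fun x : ℝ => C * (2 * exp (-((lam - 1) * x)))) atTop (𝓝 (C * (2 * 0))) :=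
      ((tendsto_exp_neg_atTop_nhds_zero.comp
        (tendsto_id.const_mul_atTop (by linarith only [h1] : 0 < lam - 1))).const_mul 2).const_mul C
    rw [mul_zero, mul_zero] at h3
    obtain ⟨T, hT⟩ := eventually_atTop.1 (h3.eventually (ge_mem_nhds hδ))
    refine ⟨max T (max T0 1), fun z _ _ hz => ?_⟩
    rw [max_le_iff, max_le_iff] at hz
    rw [norm_div]
    refine div_le_of_le_mul₀ (norm_nonneg _) hδ.le ((hbd z hz.2.1).trans ?_)
    refine (mul_le_mul_of_nonneg_left (IdT_dec h1 h2 hz.2.2) hC).trans ?_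
    rw [← mul_assoc]
    exact mul_le_mul_of_nonneg_right (hT _ hz.1) (norm_nonneg _)

theorem IdT_gen {lam : ℝ} (h1 : 1 < lam) (h2 : lam < 2) {ξ : ℝ} (hξ : ξ ≠ 0) {η : ℝ}
    (hη : |η| ≤ π) (hη' : |η| ≠ π / lam) :
    2 * π / lam * (dlg (-ξ) (-η) - exp (-ξ) * sin (-η)) =
      (∫ t, kk lam t * nk (t - ξ) (π / lam - η)) - (∫ t, kk lam t * nk (t - ξ) (-(π / lam) - η)) -
        2 * π * (Sg lam η * exp (lam * ξ) /
          (1 - 2 * exp (lam * ξ) * cos (lam * η) + exp (2 * (lam * ξ)))) := by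
  classical
  have hl : 0 < lam := by linarith only [h1, h2]
  have hh := KerG_lt h1
  have hrp : ∀ φ : ℝ, |φ| = π / lam → rp (φ - η) ≠ 0 := by
    intro φ hφ
    refine IdT_rp (sub_ne_zero.2 fun hc => hη' (hc ▸ hφ)) ?_
    have := abs_sub φ η
    linarith only [hη, hh, hφ, this]
  have e : ∀ t φ : ℝ, (t : ℂ) + φ * Complex.I - (ξ + η * Complex.I) =
      (t - ξ : ℝ) + (φ - η : ℝ) * Complex.I := fun t φ => by
    push_cast
    ring
  have him : ((ξ : ℂ) + η * Complex.I).im = η := by simp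
  have hre : ((ξ : ℂ) + η * Complex.I).re = ξ := by simp
  have key := IdT_strip h1 h2 (fun z => fk (z - (ξ + η * Complex.I)))
    (if |η| < π / lam then {(ξ : ℂ) + η * Complex.I} else ∅) (fun _ => 1) ?_ ?_ ?_ ?_
    (C := 2 * exp (-ξ)) (T0 := |ξ| + 1) (by positivity) ?_
  · have ha : |-(π / lam)| = π / lam := by rw [abs_neg, abs_of_pos (div_pos pi_pos hl)]
    have hb : |π / lam| = π / lam := abs_of_pos (div_pos pi_pos hl)
    simp only [e] at key
    rw [(parts_nk IdT_wt (IdT_nkk hl.le) h1 (IdT_deriv lam) ξ (hrp _ ha)).2,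
      (parts_nk IdT_wt (IdT_nkk hl.le) h1 (IdT_deriv lam) ξ (hrp _ hb)).2] at key
    simp only [neg_mul, integral_neg, neg_neg] at key
    have e0 : (0 : ℂ) - (ξ + η * Complex.I) = (-ξ : ℝ) + (-η : ℝ) * Complex.I := by
      push_cast
      ring
    have h3 := neg_im_fk (exp_ne_one (neg_ne_zero.2 hξ) (-η))
    rw [e0] at key
    have h4 : (∑ p ∈ (if |η| < π / lam then {(ξ : ℂ) + η * Complex.I} else ∅ : Finset ℂ),
        1 / (1 - Complex.exp (lam * p))).im = Sg lam η * exp (lam * ξ) /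
          (1 - 2 * exp (lam * ξ) * cos (lam * η) + exp (2 * (lam * ξ))) := by
      split_ifs with h5
      · have e1 : (lam : ℂ) * (ξ + η * Complex.I) = (lam * ξ : ℝ) + (lam * η : ℝ) * Complex.I := by
          push_cast
          ring
        rw [Finset.sum_singleton, one_div, Complex.inv_im, e1, KerA_normSq, Complex.sub_im,
          KerA_im, Sg_eq h1 h5.le, Complex.one_im]
        ring
      · rw [Sg_zero h1 (by rw [abs_rp_eq hη]; exact not_lt.1 h5)]
        simp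
    rw [h4] at key
    rw [← h3]
    linarith only [key]
  · intro p hp
    split_ifs at hp with h5
    · rw [Finset.mem_singleton.1 hp, him]
      refine ⟨h5, fun hc => hξ ?_⟩
      rw [← hre, hc, Complex.zero_re]
    · simp at hp
  · intro z hz hzS
    refine (differentiableAt_fk fun hc => hzS ?_).comp z (differentiableAt_id.sub_const _)
    have h5 : z = ξ + η * Complex.I := by
      refine sub_eq_zero.1 (IdT_exp_one hc ?_)
      rw [Complex.sub_im, him]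
      have := abs_sub z.im η
      linarith only [hη, hh, hz, this]
    rw [h5, him] at hz
    rw [if_pos (lt_of_le_of_ne hz hη'), h5]
    exact Finset.mem_singleton_self _
  · intro p hp
    split_ifs at hp with h5
    · rw [Finset.mem_singleton.1 hp]
      generalize (ξ : ℂ) + η * Complex.I = ζ
      have h6 := fk_res 0
      simp only [Int.cast_zero, zero_mul, sub_zero] at h6
      have h7 : Tendsto (fun z : ℂ => z - ζ) (𝓝[≠] ζ) (𝓝[≠] 0) := by
        refine tendsto_nhdsWithin_iff.2 ⟨?_, eventually_nhdsWithin_of_forall fun z hz =>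
          sub_ne_zero.2 hz⟩
        have := (continuous_sub_right ζ).tendsto ζ
        rw [sub_self] at this
        exact this.mono_left nhdsWithin_le_nhds
      exact h6.comp h7
    · simp at hp
  · intro φ hφ
    simp only [e]
    refine Integrable.re_im_iff.1 ⟨?_, ?_⟩
    · simp only [RCLike.re_to_complex, Complex.re_ofReal_mul]
      exact (parts_nk IdT_wt (IdT_nkk hl.le) h1 (IdT_deriv lam) ξ (hrp _ hφ)).1
    · simp only [RCLike.im_to_complex, Complex.im_ofReal_mul]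
      exact (hasDerivAt_int_nk IdT_wt h1 ξ (hrp _ hφ)).1
  · intro z hz
    have h5 : (z - (ξ + η * Complex.I)).re = z.re - ξ := by rw [Complex.sub_re, hre]
    have h6 := norm_fk_le (w := z - (ξ + η * Complex.I)) (by
      rw [h5]
      have := abs_sub_abs_le_abs_sub z.re ξ
      linarith only [hz, this])
    rw [h5] at h6
    refine h6.trans ?_
    rw [mul_assoc, ← exp_add, neg_add_eq_sub]
    exact mul_le_mul_of_nonneg_left (min_le_right _ _) zero_le_two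

theorem IdT_all {lam : ℝ} (h1 : 1 < lam) (h2 : lam < 2) {ξ : ℝ} (hξ : ξ ≠ 0) {η : ℝ}
    (hη : |η| ≤ π) :
    2 * π / lam * (dlg (-ξ) (-η) - exp (-ξ) * sin (-η)) =
      (∫ t, kk lam t * nk (t - ξ) (π / lam - η)) - (∫ t, kk lam t * nk (t - ξ) (-(π / lam) - η)) -
        2 * π * (Sg lam η * exp (lam * ξ) /
          (1 - 2 * exp (lam * ξ) * cos (lam * η) + exp (2 * (lam * ξ)))) := by
  by_cases hη' : |η| = π / lam
  swap
  · exact IdT_gen h1 h2 hξ hη hη'
  have hl : 0 < lam := by linarith only [h1, h2]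
  have hS : Continuous (Sg lam) := by
    refine (LipschitzWith.of_dist_le_mul (K := ⟨lam, hl.le⟩) fun a b => ?_).continuous
    exact Sg_lip h1 a b
  have hI := continuous_int_nk (IdT_kk hl.le) h1 ξ
  have hA : Continuous fun η : ℝ => 2 * π / lam * (dlg (-ξ) (-η) - exp (-ξ) * sin (-η)) := by
    unfold dlg
    refine continuous_const.mul (Continuous.sub (Continuous.div (by fun_prop) (by fun_prop)
      fun η => (den_pos (neg_ne_zero.2 hξ) _).ne') (by fun_prop))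
  have hB : Continuous fun η : ℝ => (∫ t, kk lam t * nk (t - ξ) (π / lam - η)) -
      (∫ t, kk lam t * nk (t - ξ) (-(π / lam) - η)) - 2 * π * (Sg lam η * exp (lam * ξ) /
        (1 - 2 * exp (lam * ξ) * cos (lam * η) + exp (2 * (lam * ξ)))) :=
    ((hI.comp (continuous_sub_left _)).sub (hI.comp (continuous_sub_left _))).sub
      (continuous_const.mul (Continuous.div (by fun_prop) (by fun_prop)
        fun η => (den_pos (mul_ne_zero hl.ne' hξ) _).ne'))
  refine tendsto_nhds_unique_of_eventuallyEq (l := 𝓝[≠] η)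
    ((hA.tendsto η).mono_left nhdsWithin_le_nhds) ((hB.tendsto η).mono_left nhdsWithin_le_nhds) ?_
  have h3 : ∀ᶠ x in 𝓝 η, |x| < π :=
    (continuous_abs.tendsto η).eventually (gt_mem_nhds (hη'.trans_lt (KerG_lt h1)))
  have h4 : η ≠ -η := by
    intro hc
    have : η = 0 := by linarith only [hc]
    rw [this, abs_zero] at hη'
    exact (div_pos pi_pos hl).ne hη'
  filter_upwards [h3.filter_mono nhdsWithin_le_nhds,
    (eventually_ne_nhds h4).filter_mono nhdsWithin_le_nhds, self_mem_nhdsWithin] with x a b c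
  refine IdT_gen h1 h2 hξ a.le fun hc => ?_
  rcases abs_eq_abs.1 (hc.trans hη'.symm) with h5 | h5
  exacts [c h5, b h5]

theorem tilt_nk {lam : ℝ} (h1 : 1 < lam) (h2 : lam < 2) {ξ : ℝ} (hξ : ξ ≠ 0) (η : ℝ) :
    2 * π / lam * (dlg (-ξ) (-η) - exp (-ξ) * sin (-η)) =
      (∫ t, kk lam t * Dop lam (fun φ => nk (t - ξ) (φ - η)) 0) - 2 * π * Imk lam ξ η := by
  have hl : 0 < lam := by linarith
  have key := IdT_all h1 h2 hξ (KerG_abs_le η)
  obtain ⟨k, hk⟩ := exists_rp η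
  have e1 : ∀ s φ, nk s (φ - rp η) = nk s (φ - η) := fun s φ => by
    rw [← nk_per s (φ - rp η) k, hk]
    congr 1
    ring
  have e2 : Sg lam (rp η) = Sg lam η := by rw [hk, Sg_per]
  unfold dlg at key ⊢
  simp only [e1, e2, sin_neg, cos_neg, sin_rp, cos_rp] at key
  simp only [sin_neg, cos_neg, Dop, Imk, zero_add, zero_sub, mul_sub (kk lam _)]
  rw [integral_sub ((IdT_kk hl.le).int_nk h1 _ _) ((IdT_kk hl.le).int_nk h1 _ _), key,
    mul_assoc 2 lam]

theorem IdT_re (c : ℂ) (t φ : ℝ) : (c * Complex.exp (t + φ * Complex.I)).re =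
    exp t * (c * Complex.exp (φ * Complex.I)).re := by
  rw [Complex.exp_add, ← Complex.ofReal_exp, mul_left_comm, Complex.re_ofReal_mul]

theorem IdT_int_main {lam : ℝ} {ρ : ℝ → ℝ} (h : Wt lam ρ) (h1 : 1 < lam) (c : ℂ) (φ : ℝ) :
    Integrable fun t : ℝ => ρ t * (c * Complex.exp (t + φ * Complex.I)).re := by
  simp only [IdT_re, ← mul_assoc]
  exact (h.int_exp h1).mul_const _

theorem tilt_main {lam : ℝ} (h1 : 1 < lam) (h2 : lam < 2) (c : ℂ) :
    2 * π / lam * -c.im =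
      ∫ t : ℝ, kk lam t * Dop lam (fun φ : ℝ => (c * Complex.exp (t + φ * Complex.I)).re) 0 := by
  have hl : 0 < lam := by linarith
  have key := IdT_strip h1 h2 (fun z => c * Complex.exp z) ∅ (fun _ => 0) (by simp)
    (fun z _ _ => by fun_prop) (by simp) ?_ (C := ‖c‖) (T0 := 0) (norm_nonneg _)
    (fun z _ => by rw [norm_mul, Complex.norm_exp])
  · have hp : ∫ t, IdT_rho lam t * exp t = ∫ t, kk lam t * exp t := by
      rw [integral_mul_deriv_eq_deriv_mul_of_integrable (u' := fun t => -kk lam t) (v := exp)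
        (fun t _ => IdT_deriv lam t) (fun t _ => hasDerivAt_exp t) (IdT_wt.int_exp h1)
        ((IdT_nkk hl.le).int_exp h1) (IdT_wt.int_exp h1)]
      simp only [neg_mul, integral_neg, neg_neg]
    simp only [Dop, zero_add, zero_sub, mul_sub (kk lam _)]
    rw [integral_sub (IdT_int_main (IdT_kk hl.le) h1 _ _) (IdT_int_main (IdT_kk hl.le) h1 _ _)]
    simp only [IdT_re, ← mul_assoc, integral_mul_const, hp, Complex.exp_zero, mul_one,
      Finset.sum_empty, Complex.zero_im, mul_zero, sub_zero] at key ⊢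
    linarith only [key]
  · intro φ _
    have h3 := (IdT_wt.int_exp h1).ofReal (𝕜 := ℂ)
    refine (h3.mul_const (c * Complex.exp (φ * Complex.I))).congr (Eventually.of_forall fun t => ?_)
    simp only [Complex.exp_add, Complex.coe_algebraMap, Complex.ofReal_mul, Complex.ofReal_exp]
    ring

theorem Cfg.tilt_id (Z : Cfg) {lam : ℝ} (h1 : 1 < lam) (h2 : lam < 2) {x : ℝ} (hx : Z.Reg x)
    (θ : ℝ) : 2 * π / lam * Z.dU x θ = (∫ t, kk lam (t - x) * Z.D lam t θ) -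
      2 * π * ∑ a ∈ Z.s, Imk lam (Z.ξ a - x) (Z.η a - θ) := by
  have hl : 0 < lam := by linarith only [h1, h2]
  have hU : ∀ t φ : ℝ, Z.U (t + x) (θ + φ) =
      (Z.c * Complex.exp (x + θ * Complex.I) * Complex.exp (t + φ * Complex.I)).re +
        ∑ a ∈ Z.s, nk (t - (Z.ξ a - x)) (φ - (Z.η a - θ)) := by
    intro t φ
    unfold Cfg.U
    congr 1
    · rw [mul_assoc, ← Complex.exp_add]
      congr 3
      push_cast
      ring
    · refine Finset.sum_congr rfl fun a _ => ?_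
      congr 1 <;> ring
  have hD : ∀ t : ℝ, kk lam (t + x - x) * Z.D lam (t + x) θ =
      kk lam t * Dop lam (fun φ : ℝ => (Z.c * Complex.exp (x + θ * Complex.I) *
        Complex.exp (t + φ * Complex.I)).re) 0 +
      ∑ a ∈ Z.s, kk lam t * Dop lam (fun φ => nk (t - (Z.ξ a - x)) (φ - (Z.η a - θ))) 0 := by
    intro t
    rw [add_sub_cancel_right, ← Finset.mul_sum, ← mul_add]
    congr 1
    simp only [Cfg.D, Dop, zero_add, zero_sub, Finset.sum_sub_distrib]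
    rw [sub_eq_add_neg θ, hU, hU]
    ring
  have hI : ∀ a ∈ Z.s, Integrable fun t =>
      kk lam t * Dop lam (fun φ => nk (t - (Z.ξ a - x)) (φ - (Z.η a - θ))) 0 := fun a _ => by
    simp only [Dop, mul_sub (kk lam _)]
    exact ((IdT_kk hl.le).int_nk h1 _ _).sub ((IdT_kk hl.le).int_nk h1 _ _)
  have hJ : Integrable fun t : ℝ => kk lam t * Dop lam (fun φ : ℝ =>
      (Z.c * Complex.exp (x + θ * Complex.I) * Complex.exp (t + φ * Complex.I)).re) 0 := by
    simp only [Dop, mul_sub (kk lam _)]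
    exact (IdT_int_main (IdT_kk hl.le) h1 _ _).sub (IdT_int_main (IdT_kk hl.le) h1 _ _)
  rw [← integral_add_right_eq_self _ x]
  simp only [hD]
  rw [integral_add hJ (integrable_finsetSum _ hI), integral_finsetSum _ hI, ← tilt_main h1 h2,
    add_sub_assoc, Finset.mul_sum, ← Finset.sum_sub_distrib]
  unfold Cfg.dU
  rw [mul_add, Finset.mul_sum]
  congr 1
  refine Finset.sum_congr rfl fun a ha => ?_
  rw [← tilt_nk h1 h2 (sub_ne_zero.2 (hx a ha)), neg_sub, neg_sub]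

end

end Pool.Agent.MinMod
end
end

-- merged part: Pool.Agent.Work.MP_f62247_an.DL3
section
-- merged part: Pool.Agent.Work.MP_f62247_an.DL2
section
/-!
# Line integrals of `P`; the function `Np`

Split with `U_split` at `y`.  Linear term: `Sop` of `Re (c e^(t+iφ))` is `(2 + 2 cos h) Re (c e^(iθ)) e^t` (`ha_cos`).
* `P_left`, `P_left_lip`: past zeros `abs_lg_sub_le`, `abs_gapN_le`, `lip_lg`, `lip_Nh`; future zeros `abs_nk_le`, `env_neg`, `lip_nk_neg`, `lip_Nh_neg`.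
* `P_le`: `gap ≥ 0`, `U_le` on the three lines.
* `Np_eq`: the linear term integrates to the main part; future zeros by `tot_D` (`∫_{Ioi y} = ∫ - ∫_{Iic y}`).
-/

open Real MeasureTheory Set Filter Topology

namespace Pool.Agent.MinMod

noncomputable section

theorem DL2_lin (c : ℂ) (t θ h : ℝ) : (c * Complex.exp (t + (θ + h : ℝ) * Complex.I)).re =
    (c * Complex.exp (t + θ * Complex.I)).re * cos h -
      (c * Complex.exp (t + θ * Complex.I)).im * sin h := by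
  have : Complex.exp (t + (θ + h : ℝ) * Complex.I) =
      Complex.exp (t + θ * Complex.I) * Complex.exp (h * Complex.I) := by
    rw [← Complex.exp_add]
    congr 1
    push_cast
    ring
  rw [this, ← mul_assoc, Complex.mul_re, Complex.exp_ofReal_mul_I_re, Complex.exp_ofReal_mul_I_im]

theorem DL2_lin' (c : ℂ) (t θ h : ℝ) : (c * Complex.exp (t + (θ - h : ℝ) * Complex.I)).re =
    (c * Complex.exp (t + θ * Complex.I)).re * cos h +
      (c * Complex.exp (t + θ * Complex.I)).im * sin h := by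
  rw [sub_eq_add_neg, DL2_lin, cos_neg, sin_neg]
  ring

theorem DL2_re (c : ℂ) (t θ : ℝ) : |(c * Complex.exp (t + θ * Complex.I)).re| ≤ ‖c‖ * exp t := by
  refine (Complex.abs_re_le_norm _).trans ?_
  rw [norm_mul, KerA_norm]

theorem DL2_re_lip (c : ℂ) (t θ θ' : ℝ) : |(c * Complex.exp (t + θ * Complex.I)).re -
    (c * Complex.exp (t + θ' * Complex.I)).re| ≤ ‖c‖ * exp t * |θ - θ'| := by
  rw [← Complex.sub_re, ← mul_sub]
  refine (Complex.abs_re_le_norm _).trans ?_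
  have : Complex.exp (t + θ * Complex.I) - Complex.exp (t + θ' * Complex.I) =
      Complex.exp (t + θ' * Complex.I) * (Complex.exp (Complex.I * (θ - θ' : ℝ)) - 1) := by
    rw [mul_sub, ← Complex.exp_add, mul_one]
    congr 2
    push_cast
    ring
  rw [this, norm_mul, norm_mul, KerA_norm, mul_assoc]
  refine mul_le_mul_of_nonneg_left (mul_le_mul_of_nonneg_left ?_ (exp_pos _).le) (norm_nonneg _)
  exact Real.norm_exp_I_mul_ofReal_sub_one_le

theorem DL2_shift {f : ℝ → ℝ} {y ξ : ℝ} (h : IntegrableOn f (Iio (-(ξ - y)))) :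
    IntegrableOn (fun t => f (t - ξ)) (Iio y) ∧
      ∫ t in Iio y, f (t - ξ) = ∫ s in Iio (-(ξ - y)), f s := by
  have e : (Iio y).indicator (fun t => f (t - ξ)) =
      fun t => (Iio (-(ξ - y))).indicator f (t - ξ) := by
    ext t
    by_cases ht : t < y
    · rw [indicator_of_mem (mem_Iio.2 ht), indicator_of_mem (mem_Iio.2 (by linarith))]
    · rw [indicator_of_notMem (by simpa using ht),
        indicator_of_notMem (by rw [mem_Iio]; intro h; exact ht (by linarith))]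
  constructor
  · rw [← integrable_indicator_iff measurableSet_Iio] at h ⊢
    rw [e]
    exact h.comp_sub_right ξ
  · rw [← integral_indicator measurableSet_Iio, ← integral_indicator measurableSet_Iio, e,
      integral_sub_right_eq_self]

theorem DL2_add {μ : Measure ℝ} {f g : ℝ → ℝ} (hf : Integrable f μ) (hg : Integrable g μ) :
    Integrable (fun t => f t + g t) μ := hf.add hg

theorem DL2_sum {S : Set ℝ} {F f : ℝ → ℝ} {g : ℕ → ℝ → ℝ} {s : Finset ℕ} {b : ℕ → ℝ} {b₀ : ℝ}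
    (h0 : ∀ t, 0 ≤ F t) (hf : IntegrableOn f S ∧ ∫ t in S, f t ≤ b₀)
    (hg : ∀ a ∈ s, IntegrableOn (g a) S ∧ ∫ t in S, g a t ≤ b a)
    (h : ∀ᵐ t ∂(volume.restrict S), F t ≤ f t + ∑ a ∈ s, g a t) :
    ∫ t in S, F t ≤ b₀ + ∑ a ∈ s, b a := by
  have h1 : Integrable (fun t => ∑ a ∈ s, g a t) (volume.restrict S) :=
    integrable_finsetSum _ fun a ha => (hg a ha).1
  refine (integral_mono_of_nonneg (Eventually.of_forall h0) (DL2_add hf.1 h1) h).trans ?_
  rw [integral_add hf.1 h1, integral_finsetSum _ fun a ha => (hg a ha).1]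
  exact add_le_add hf.2 (Finset.sum_le_sum fun a ha => (hg a ha).2)

theorem DL2_whole {f : ℝ → ℝ} (hf : Integrable f) (h0 : ∀ t, 0 ≤ f t) (ξ : ℝ) (S : Set ℝ) :
    IntegrableOn (fun t => f (t - ξ)) S ∧ ∫ t in S, f (t - ξ) ≤ ∫ t, f t :=
  ⟨(hf.comp_sub_right ξ).integrableOn, (setIntegral_le_integral (hf.comp_sub_right ξ)
    (Eventually.of_forall fun _ => h0 _)).trans_eq (integral_sub_right_eq_self f ξ)⟩

theorem DL2_exp (K y : ℝ) : IntegrableOn (fun t => K * exp t) (Iio y) ∧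
    ∫ t in Iio y, K * exp t ≤ K * exp y := by
  obtain ⟨h1, h2⟩ := KerL_Iio one_pos y
  simp only [one_mul, div_one] at h1 h2
  exact ⟨h1.const_mul K, by rw [integral_const_mul, h2]⟩

/-- The kernel of a past or future zero. -/
def DL2_k (y ξ t φ : ℝ) : ℝ := if ξ < y then lg (t - ξ) φ else nk (t - ξ) φ

/-- A majorant to the left of `y`. -/
def DL2_m (y ξ t : ℝ) : ℝ :=
  if ξ < y then (y - ξ) * exp (-y) * exp t + l0 (t - ξ) else env (t - ξ)

theorem DL2_w {y ξ : ℝ} (h : ξ < y) : 1 ≤ w0 (y - ξ) := by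
  rw [w0_of_nonneg (by linarith only [h])]
  linarith

theorem DL2_w' {y ξ : ℝ} (h : ¬ ξ < y) : w0 (y - ξ) = exp (-2 * (ξ - y)) := by
  rw [w0_of_nonpos (by linarith [not_lt.1 h])]
  congr 1
  ring

theorem DL2_m_int : ∃ C : ℝ, 1 ≤ C ∧ ∀ y ξ : ℝ, IntegrableOn (DL2_m y ξ) (Iio y) ∧
    ∫ t in Iio y, DL2_m y ξ t ≤ C * w0 (y - ξ) := by
  obtain ⟨C, hC, H⟩ := env_neg
  have h0 := KerI_int_nonneg
  refine ⟨C + ∫ s, l0 s, by linarith, fun y ξ => ?_⟩
  have hw := w0_pos (y - ξ)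
  unfold DL2_m
  by_cases h : ξ < y
  · simp only [if_pos h]
    obtain ⟨h1, h2⟩ := DL2_exp ((y - ξ) * exp (-y)) y
    obtain ⟨h3, h4⟩ := DL2_whole integrable_l0 l0_nonneg ξ (Iio y)
    refine ⟨h1.add h3, ?_⟩
    rw [mul_assoc, ← exp_add, neg_add_cancel, exp_zero, mul_one] at h2
    rw [integral_add h1 h3, w0_of_nonneg (by linarith)]
    linarith only [hC, h2, h4, h, h0, mul_nonneg_of_nonpos_of_nonpos (Mathlib.Tactic.Linarith.sub_nonpos_of_le hC) (le_of_lt (Mathlib.Tactic.Linarith.sub_neg_of_lt h)), mul_nonneg_of_nonpos_of_nonpos (Mathlib.Tactic.Linarith.sub_nonpos_of_le h0) (le_of_lt (Mathlib.Tactic.Linarith.sub_neg_of_lt h))]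
  · simp only [if_neg h]
    obtain ⟨h1, h2⟩ := H 0 (ξ - y) le_rfl (by norm_num) (by linarith [not_lt.1 h])
    simp only [neg_zero, zero_mul, exp_zero, one_mul, sub_zero] at h1 h2
    obtain ⟨h3, h4⟩ := DL2_shift h1
    refine ⟨h3, ?_⟩
    rw [h4]
    rw [← DL2_w' h] at h2
    linarith only [h2, h0, hw, mul_nonneg_of_nonpos_of_nonpos (Mathlib.Tactic.Linarith.sub_nonpos_of_le h0) (le_of_lt (Mathlib.Tactic.Linarith.sub_neg_of_lt hw))]

theorem DL2_m_ge {lam y ξ t : ℝ} (hl : 1 ≤ lam) (ht : t < y) (hξ : t - ξ ≠ 0) (φ : ℝ) :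
    exp (lam * (t - y)) * |DL2_k y ξ t φ| ≤ DL2_m y ξ t ∧
      exp (lam * (t - y)) * |Nh lam (t - ξ) φ - Nh lam (t - ξ) 0| ≤ 2 * DL2_m y ξ t := by
  have h1 : exp (lam * (t - y)) ≤ exp (-y) * exp t := by
    rw [← exp_add]
    exact exp_le_exp.2 (by linarith only [hl, ht, mul_nonneg_of_nonpos_of_nonpos (Mathlib.Tactic.Linarith.sub_nonpos_of_le hl) (le_of_lt (Mathlib.Tactic.Linarith.sub_neg_of_lt ht))])
  have h2 : exp (lam * (t - y)) ≤ 1 := exp_le_one_iff.2 (by nlinarith)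
  have h3 := exp_pos (lam * (t - y))
  obtain ⟨h4, h5, h6⟩ := abs_gapN_le hl hξ φ
  rw [abs_of_nonneg h4]
  unfold DL2_k DL2_m
  by_cases h : ξ < y
  · simp only [if_pos h]
    have h7 := KerI_lg hξ φ
    have h8 : max (t - ξ) 0 ≤ y - ξ := max_le (by linarith only [ht]) (by linarith)
    have h9 := l0_nonneg (t - ξ)
    have h10 := mul_le_mul_of_nonneg_left h1 (show 0 ≤ y - ξ by linarith)
    have h11 : 0 ≤ (y - ξ) * exp (-y) * exp t :=
      mul_nonneg (mul_nonneg (by linarith) (exp_pos _).le) (exp_pos _).le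
    constructor
    · linarith only [h10, h7, h8, h3, h2, h4, h6, mul_le_mul_of_nonneg_left (h7.trans (add_le_add_left h8 _)) h3.le, mul_nonneg_of_nonpos_of_nonpos (Mathlib.Tactic.Linarith.sub_nonpos_of_le h2) (Mathlib.Tactic.Linarith.sub_nonpos_of_le h4), mul_nonneg_of_nonpos_of_nonpos (Mathlib.Tactic.Linarith.sub_nonpos_of_le h2) (Mathlib.Tactic.Linarith.sub_nonpos_of_le h6)]
    · linarith only [h6, h11, h2, h4, mul_nonneg_of_nonpos_of_nonpos (Mathlib.Tactic.Linarith.sub_nonpos_of_le h2) (Mathlib.Tactic.Linarith.sub_nonpos_of_le h4)]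
  · simp only [if_neg h]
    have h7 := abs_nk_le hξ φ
    have h8 := abs_nonneg (nk (t - ξ) φ)
    constructor <;> linarith only [h7, h2, h8, h5, h4, mul_nonneg_of_nonpos_of_nonpos (Mathlib.Tactic.Linarith.sub_nonpos_of_le h2) (Mathlib.Tactic.Linarith.sub_nonpos_of_le h8), mul_nonneg_of_nonpos_of_nonpos (Mathlib.Tactic.Linarith.sub_nonpos_of_le h2) (Mathlib.Tactic.Linarith.sub_nonpos_of_le h4)]

theorem DL2_k_lip : ∃ C : ℝ, 1 ≤ C ∧ ∀ y ξ φ φ' : ℝ,
    IntegrableOn (fun t => |DL2_k y ξ t φ - DL2_k y ξ t φ'|) (Iio y) ∧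
      ∫ t in Iio y, |DL2_k y ξ t φ - DL2_k y ξ t φ'| ≤ C * |φ - φ'| * w0 (y - ξ) := by
  obtain ⟨C, hC, H⟩ := lip_nk_neg
  refine ⟨C + π, by linarith only [hC, pi_pos], fun y ξ φ φ' => ?_⟩
  have hw := mul_nonneg (abs_nonneg (φ - φ')) (w0_pos (y - ξ)).le
  unfold DL2_k
  by_cases h : ξ < y
  · simp only [if_pos h]
    obtain ⟨h1, h2⟩ := lip_lg φ φ'
    obtain ⟨h3, h4⟩ := DL2_whole h1 (fun _ => abs_nonneg _) ξ (Iio y)
    refine ⟨h3, h4.trans (h2.trans ?_)⟩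
    have := mul_le_mul_of_nonneg_left (DL2_w h) (mul_nonneg pi_pos.le (abs_nonneg (φ - φ')))
    linarith only [hw, this, hC, mul_nonneg_of_nonpos_of_nonpos (Mathlib.Tactic.Linarith.sub_nonpos_of_le hC) (Mathlib.Tactic.Linarith.sub_nonpos_of_le hw)]
  · simp only [if_neg h]
    obtain ⟨h1, h2⟩ := H 0 (ξ - y) φ φ' le_rfl (by norm_num) (by linarith only [h, not_lt.1 h])
    simp only [neg_zero, zero_mul, exp_zero, one_mul, sub_zero] at h1 h2
    obtain ⟨h3, h4⟩ := DL2_shift h1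
    refine ⟨h3, h4.trans_le ?_⟩
    rw [← DL2_w' h] at h2
    linarith only [h2, hw, pi_pos, mul_nonneg_of_nonpos_of_nonpos (Mathlib.Tactic.Linarith.sub_nonpos_of_le hw) (le_of_lt (Mathlib.Tactic.Linarith.sub_neg_of_lt pi_pos))]

theorem DL2_N_lip : ∃ C : ℝ, 1 ≤ C ∧ ∀ lam y ξ φ φ' : ℝ, 1 ≤ lam → lam ≤ 11 / 10 →
    IntegrableOn (fun t => |Nh lam (t - ξ) φ - Nh lam (t - ξ) φ'|) (Iio y) ∧
      ∫ t in Iio y, |Nh lam (t - ξ) φ - Nh lam (t - ξ) φ'| ≤ C * |φ - φ'| * w0 (y - ξ) := by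
  obtain ⟨C, hC, H⟩ := lip_Nh_neg
  refine ⟨C + π, by linarith [pi_pos], fun lam y ξ φ φ' hl hl' => ?_⟩
  have hw := mul_nonneg (abs_nonneg (φ - φ')) (w0_pos (y - ξ)).le
  obtain ⟨h1, h2⟩ := lip_Nh (by linarith only [hl] : 0 < lam) φ φ'
  obtain ⟨h3, h4⟩ := DL2_whole h1 (fun _ => abs_nonneg _) ξ (Iio y)
  refine ⟨h3, ?_⟩
  by_cases h : ξ < y
  · refine h4.trans (h2.trans ?_)
    have := mul_le_mul_of_nonneg_left (DL2_w h) (mul_nonneg pi_pos.le (abs_nonneg (φ - φ')))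
    linarith only [hw, this, hC, mul_nonneg_of_nonpos_of_nonpos (Mathlib.Tactic.Linarith.sub_nonpos_of_le hC) (Mathlib.Tactic.Linarith.sub_nonpos_of_le hw)]
  · have h5 := H lam (ξ - y) φ φ' hl hl' (by linarith only [h, not_lt.1 h])
    refine (DL2_shift h1.integrableOn).2.trans_le ?_
    rw [← DL2_w' h] at h5
    linarith only [h5, hw, pi_pos, mul_nonneg_of_nonpos_of_nonpos (Mathlib.Tactic.Linarith.sub_nonpos_of_le hw) (le_of_lt (Mathlib.Tactic.Linarith.sub_neg_of_lt pi_pos))]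

theorem DL2_int_lg {lam : ℝ} (hl : 0 < lam) (y ξ φ : ℝ) :
    IntegrableOn (fun t => exp (-lam * t) * lg (t - ξ) φ) (Ioi y) := by
  have := (wt_Ioi hl.le y).int_lg hl ξ φ
  rw [← integrable_indicator_iff measurableSet_Ioi]
  refine this.congr (Eventually.of_forall fun t => ?_)
  simp only
  by_cases ht : t ∈ Ioi y
  · rw [indicator_of_mem ht, indicator_of_mem ht]
  · rw [indicator_of_notMem ht, indicator_of_notMem ht, zero_mul]

/-- The line integral that belongs to one zero. -/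
def DL2_K (lam y ξ φ : ℝ) : ℝ :=
  if ξ < y then ∫ t in Ioi y, exp (-lam * t) * lg (t - ξ) φ
  else -∫ t in Iio y, exp (-lam * t) * nk (t - ξ) φ

theorem DL2_K_lip : ∃ C : ℝ, 1 ≤ C ∧ ∀ lam y ξ φ φ' : ℝ, 1 < lam → lam ≤ 11 / 10 →
    |DL2_K lam y ξ φ - DL2_K lam y ξ φ'| ≤ C * |φ - φ'| * (exp (-lam * y) * w0 (y - ξ)) := by
  obtain ⟨C, hC, H⟩ := lip_nk_neg
  refine ⟨C + π, by linarith [pi_pos], fun lam y ξ φ φ' hl hl' => ?_⟩
  have he := exp_pos (-lam * y)
  have hΔ := abs_nonneg (φ - φ')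
  have hw := mul_nonneg hΔ (mul_pos he (w0_pos (y - ξ))).le
  unfold DL2_K
  by_cases h : ξ < y
  · simp only [if_pos h]
    obtain ⟨h1, h2⟩ := lip_lg φ φ'
    obtain ⟨h3, h4⟩ := DL2_whole h1 (fun _ => abs_nonneg _) ξ (Ioi y)
    rw [← integral_sub (DL2_int_lg (by linarith only [hl, hl']) y ξ φ) (DL2_int_lg (by linarith only [hl, hl']) y ξ φ')]
    refine abs_integral_le_integral_abs.trans ((integral_mono_of_nonneg
      (Eventually.of_forall fun _ => abs_nonneg _) (h3.const_mul (exp (-lam * y)))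
      ((ae_restrict_iff' measurableSet_Ioi).2 (Eventually.of_forall fun t ht => ?_))).trans ?_)
    · simp only
      rw [← mul_sub, abs_mul, abs_of_pos (exp_pos _)]
      exact mul_le_mul_of_nonneg_right (exp_le_exp.2 (by linarith only [ht, hl, mem_Ioi.1 ht, mul_pos_of_neg_of_neg (Mathlib.Tactic.Linarith.sub_neg_of_lt hl) (Mathlib.Tactic.Linarith.sub_neg_of_lt (mem_Ioi.mp ht))])) (abs_nonneg _)
    · rw [integral_const_mul]
      have h5 := mul_le_mul_of_nonneg_left (h4.trans h2) he.le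
      have := mul_le_mul_of_nonneg_left (DL2_w h) (mul_nonneg (mul_nonneg pi_pos.le hΔ) he.le)
      linarith only [hw, h5, this, hC, mul_nonneg_of_nonpos_of_nonpos (Mathlib.Tactic.Linarith.sub_nonpos_of_le hC) (Mathlib.Tactic.Linarith.sub_nonpos_of_le hw)]
  · simp only [if_neg h]
    obtain ⟨h1, h2⟩ := H lam (ξ - y) φ φ' (by linarith only [hl, hl']) hl' (by linarith only [h, not_lt.1 h])
    obtain ⟨-, h4⟩ := DL2_shift h1
    rw [neg_sub_neg, abs_sub_comm, ← integral_sub (int_exp_nk hl (by linarith only [hl, hl']) ξ φ).integrableOn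
      (int_exp_nk hl (by linarith only [hl, hl']) ξ φ').integrableOn]
    refine abs_integral_le_integral_abs.trans ?_
    have h5 : ∀ t, |exp (-lam * t) * nk (t - ξ) φ - exp (-lam * t) * nk (t - ξ) φ'| =
        exp (-lam * ξ) * (exp (-lam * (t - ξ)) * |nk (t - ξ) φ - nk (t - ξ) φ'|) := fun t => by
      rw [← mul_sub, abs_mul, abs_of_pos (exp_pos _), ← mul_assoc, ← exp_add]
      congr 2
      ring
    simp only [h5]
    rw [integral_const_mul, h4]
    have h6 : exp (-lam * ξ) * exp (-(2 - lam) * (ξ - y)) = exp (-lam * y) * w0 (y - ξ) := by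
      rw [DL2_w' h, ← exp_add, ← exp_add]
      congr 1
      ring
    have h7 := mul_le_mul_of_nonneg_left h2 (exp_pos (-lam * ξ)).le
    rw [mul_left_comm, h6] at h7
    (refine le_of_not_gt fun h_nl => ?_; linarith only [h_nl, h7, hl, hl', hw, pi_pos, mul_pos_of_neg_of_neg (Mathlib.Tactic.Linarith.sub_neg_of_lt hl) (Mathlib.Tactic.Linarith.sub_neg_of_lt h_nl), mul_nonneg_of_nonpos_of_nonpos (Mathlib.Tactic.Linarith.sub_nonpos_of_le hl') (le_of_lt (Mathlib.Tactic.Linarith.sub_neg_of_lt h_nl)), mul_nonneg_of_nonpos_of_nonpos (Mathlib.Tactic.Linarith.sub_nonpos_of_le hw) (le_of_lt (Mathlib.Tactic.Linarith.sub_neg_of_lt pi_pos))])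

namespace Cfg

theorem DL2_U (Z : Cfg) (y t θ : ℝ) : Z.U t θ = (Z.cc y * Complex.exp (t + θ * Complex.I)).re +
    ∑ a ∈ Z.s, DL2_k y (Z.ξ a) t (θ - Z.η a) := by
  rw [Z.U_split y, add_assoc]
  unfold DL2_k
  rw [Finset.sum_ite]
  simp only [not_lt]

theorem DL2_P (Z : Cfg) (lam : ℝ) {V : Finset ℕ} (hV : V ⊆ Z.s) (y t θ : ℝ) : Z.P lam V t θ =
    2 * (1 + cos (π / lam)) * (Z.cc y * Complex.exp (t + θ * Complex.I)).re +
      ∑ a ∈ Z.s, (2 * DL2_k y (Z.ξ a) t (θ - Z.η a) + DL2_k y (Z.ξ a) t (θ + π / lam - Z.η a) +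
        DL2_k y (Z.ξ a) t (θ - π / lam - Z.η a) -
        if a ∈ V then 2 * (Nh lam (t - Z.ξ a) (θ - Z.η a) - Nh lam (t - Z.ξ a) 0) else 0) := by
  rw [Finset.sum_sub_distrib,
    Finset.sum_add_distrib, Finset.sum_add_distrib, Finset.sum_ite_mem, Finset.inter_eq_right.2 hV,
    ← Finset.mul_sum, ← Finset.mul_sum]
  unfold P Sop gap
  rw [Z.DL2_U y, Z.DL2_U y, Z.DL2_U y, DL2_lin, DL2_lin']
  ring

theorem P_left : ∃ C : ℝ, 1 ≤ C ∧ ∀ (Z : Cfg) (lam : ℝ) (V : Finset ℕ) (y θ : ℝ), 1 < lam →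
    lam ≤ 11 / 10 → V ⊆ Z.s →
    ∫ t in Iio y, exp (lam * (t - y)) * |Z.P lam V t θ| ≤ C * ((lam - 1) ^ 2 * Z.A y + Z.W y) := by
  obtain ⟨C, hC, H⟩ := DL2_m_int
  refine ⟨16 * C, by linarith, fun Z lam V y θ hl hl' hV => ?_⟩
  obtain ⟨hc0, hc⟩ := ha_cos hl.le
  refine (DL2_sum (s := Z.s) (g := fun a t => 8 * DL2_m y (Z.ξ a) t)
    (b := fun a => 8 * (C * w0 (y - Z.ξ a))) (fun t => by positivity)
    (DL2_exp (16 * (lam - 1) ^ 2 * ‖Z.cc y‖) y) (fun a _ => ⟨(H y (Z.ξ a)).1.const_mul 8, ?_⟩)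
    ?_).trans ?_
  · rw [integral_const_mul]
    linarith only [H, (H y (Z.ξ a)).2]
  · filter_upwards [ae_restrict_mem measurableSet_Iio, ae_restrict_of_ae Z.ae_reg] with t ht hr
    have h1 : exp (lam * (t - y)) ≤ 1 := exp_le_one_iff.2 (by linarith only [ht, hl, mem_Iio.1 ht, mul_pos_of_neg_of_neg (Mathlib.Tactic.Linarith.sub_neg_of_lt hl) (Mathlib.Tactic.Linarith.sub_neg_of_lt (mem_Iio.mp ht))])
    have h2 := exp_pos (lam * (t - y))
    rw [Z.DL2_P lam hV y]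
    refine (mul_le_mul_of_nonneg_left ((abs_add_le _ _).trans
      (add_le_add_right (Finset.abs_sum_le_sum_abs _ _) _)) h2.le).trans ?_
    rw [mul_add, Finset.mul_sum]
    refine add_le_add ?_ (Finset.sum_le_sum fun a ha => ?_)
    · rw [abs_mul, abs_of_nonneg (by linarith only [hc0])]
      have h3 := mul_le_mul (show 2 * (1 + cos (π / lam)) ≤ 16 * (lam - 1) ^ 2 by linarith only [hc])
        (DL2_re (Z.cc y) t θ) (abs_nonneg _) (by positivity)
      refine (mul_le_of_le_one_left (by positivity) h1).trans (h3.trans_eq (by ring))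
    · have h3 := fun φ => DL2_m_ge hl.le (mem_Iio.1 ht) (sub_ne_zero.2 (hr a ha).symm) φ
      have h4 : exp (lam * (t - y)) * |if a ∈ V then
          2 * (Nh lam (t - Z.ξ a) (θ - Z.η a) - Nh lam (t - Z.ξ a) 0) else 0| ≤
            4 * DL2_m y (Z.ξ a) t := by
        have h5 := (h3 (θ - Z.η a)).2
        split_ifs
        · rw [abs_mul, abs_two]
          linarith only [h5]
        · rw [abs_zero, mul_zero]
          linarith only [h5, h2, mul_nonneg h2.le (abs_nonneg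
            (Nh lam (t - Z.ξ a) (θ - Z.η a) - Nh lam (t - Z.ξ a) 0))]
      refine (mul_le_mul_of_nonneg_left ((abs_sub _ _).trans
        (add_le_add_left (abs_add_three _ _ _) _)) h2.le).trans ?_
      rw [abs_mul, abs_two]
      linarith only [h4, h3, (h3 (θ - Z.η a)).1, (h3 (θ + π / lam - Z.η a)).1, (h3 (θ - π / lam - Z.η a)).1]
  · rw [← Finset.mul_sum, ← Finset.mul_sum]
    have h1 : 0 ≤ (lam - 1) ^ 2 * Z.A y := by unfold A; positivity
    have h2 := Z.W_nonneg y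
    have h3 : 16 * (lam - 1) ^ 2 * ‖Z.cc y‖ * exp y = 16 * ((lam - 1) ^ 2 * Z.A y) := by
      unfold A; ring
    rw [h3]
    change _ + 8 * (C * Z.W y) ≤ _
    linarith only [h2, hC, h1, mul_nonneg_of_nonpos_of_nonpos (Mathlib.Tactic.Linarith.sub_nonpos_of_le hC) (Mathlib.Tactic.Linarith.sub_nonpos_of_le h1), mul_nonneg_of_nonpos_of_nonpos (Mathlib.Tactic.Linarith.sub_nonpos_of_le hC) (Mathlib.Tactic.Linarith.sub_nonpos_of_le h2)]

theorem P_left_lip : ∃ C : ℝ, 1 ≤ C ∧ ∀ (Z : Cfg) (lam : ℝ) (V : Finset ℕ) (y θ θ' : ℝ), 1 < lam →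
    lam ≤ 11 / 10 → V ⊆ Z.s →
    ∫ t in Iio y, exp (lam * (t - y)) * |Z.P lam V t θ - Z.P lam V t θ'| ≤
      C * |θ - θ'| * ((lam - 1) ^ 2 * Z.A y + Z.W y) := by
  obtain ⟨C, hC, H⟩ := DL2_k_lip
  obtain ⟨C', hC', H'⟩ := DL2_N_lip
  refine ⟨16 * C + 2 * C', by linarith only [hC, hC'], fun Z lam V y θ θ' hl hl' hV => ?_⟩
  obtain ⟨hc0, hc⟩ := ha_cos hl.le
  have hΔ := abs_nonneg (θ - θ')
  refine (DL2_sum (s := Z.s) (g := fun a t =>
      2 * |DL2_k y (Z.ξ a) t (θ - Z.η a) - DL2_k y (Z.ξ a) t (θ' - Z.η a)| +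
      |DL2_k y (Z.ξ a) t (θ + π / lam - Z.η a) - DL2_k y (Z.ξ a) t (θ' + π / lam - Z.η a)| +
      |DL2_k y (Z.ξ a) t (θ - π / lam - Z.η a) - DL2_k y (Z.ξ a) t (θ' - π / lam - Z.η a)| +
      2 * |Nh lam (t - Z.ξ a) (θ - Z.η a) - Nh lam (t - Z.ξ a) (θ' - Z.η a)|)
    (b := fun a => (4 * C + 2 * C') * |θ - θ'| * w0 (y - Z.ξ a)) (fun t => by positivity)
    (DL2_exp (16 * (lam - 1) ^ 2 * ‖Z.cc y‖ * |θ - θ'|) y) (fun a _ => ?_) ?_).trans ?_
  · obtain ⟨a1, b1⟩ := H y (Z.ξ a) (θ - Z.η a) (θ' - Z.η a)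
    obtain ⟨a2, b2⟩ := H y (Z.ξ a) (θ + π / lam - Z.η a) (θ' + π / lam - Z.η a)
    obtain ⟨a3, b3⟩ := H y (Z.ξ a) (θ - π / lam - Z.η a) (θ' - π / lam - Z.η a)
    obtain ⟨a4, b4⟩ := H' lam y (Z.ξ a) (θ - Z.η a) (θ' - Z.η a) hl.le hl'
    simp only [sub_sub_sub_cancel_right, add_sub_add_right_eq_sub] at b1 b2 b3 b4
    have a5 := DL2_add (a1.const_mul 2) a2
    have a6 := DL2_add a5 a3
    refine ⟨a6.add (a4.const_mul 2), ?_⟩
    rw [integral_add a6 (a4.const_mul 2), integral_add a5 a3, integral_add (a1.const_mul 2) a2,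
      integral_const_mul, integral_const_mul]
    linarith only [b1, b2, b3, b4]
  · filter_upwards [ae_restrict_mem measurableSet_Iio] with t ht
    have h1 : exp (lam * (t - y)) ≤ 1 := exp_le_one_iff.2 (by linarith only [ht, hl, mem_Iio.1 ht, mul_pos_of_neg_of_neg (Mathlib.Tactic.Linarith.sub_neg_of_lt hl) (Mathlib.Tactic.Linarith.sub_neg_of_lt (mem_Iio.mp ht))])
    refine (mul_le_of_le_one_left (abs_nonneg _) h1).trans ?_
    rw [Z.DL2_P lam hV y, Z.DL2_P lam hV y, add_sub_add_comm, ← Finset.sum_sub_distrib, ← mul_sub]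
    refine (abs_add_le _ _).trans (add_le_add ?_
      ((Finset.abs_sum_le_sum_abs _ _).trans (Finset.sum_le_sum fun a _ => ?_)))
    · rw [abs_mul, abs_of_nonneg (by linarith only [hc0])]
      exact (mul_le_mul (show 2 * (1 + cos (π / lam)) ≤ 16 * (lam - 1) ^ 2 by linarith only [hc])
        (DL2_re_lip (Z.cc y) t θ θ') (abs_nonneg _) (by positivity)).trans_eq (by ring)
    · have h3 := abs_le.1 (le_refl |DL2_k y (Z.ξ a) t (θ - Z.η a) - DL2_k y (Z.ξ a) t (θ' - Z.η a)|)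
      have h4 := abs_le.1 (le_refl |DL2_k y (Z.ξ a) t (θ + π / lam - Z.η a) -
        DL2_k y (Z.ξ a) t (θ' + π / lam - Z.η a)|)
      have h5 := abs_le.1 (le_refl |DL2_k y (Z.ξ a) t (θ - π / lam - Z.η a) -
        DL2_k y (Z.ξ a) t (θ' - π / lam - Z.η a)|)
      have h6 := abs_le.1 (le_refl |Nh lam (t - Z.ξ a) (θ - Z.η a) -
        Nh lam (t - Z.ξ a) (θ' - Z.η a)|)
      rw [abs_le]
      split_ifs <;> constructor <;> linarith only [h3, h4, h5, h6, h3.1, h3.2, h4.1, h4.2, h5.1, h5.2, h6.1, h6.2]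
  · rw [← Finset.mul_sum]
    have h1 : 0 ≤ |θ - θ'| * ((lam - 1) ^ 2 * Z.A y) := by unfold A; positivity
    have h2 := mul_nonneg hΔ (Z.W_nonneg y)
    have h3 : 16 * (lam - 1) ^ 2 * ‖Z.cc y‖ * |θ - θ'| * exp y =
        16 * (|θ - θ'| * ((lam - 1) ^ 2 * Z.A y)) := by
      unfold A; ring
    rw [h3]
    change _ + _ * Z.W y ≤ _
    linarith only [h1, h2, hC, hC', mul_nonneg_of_nonpos_of_nonpos (Mathlib.Tactic.Linarith.sub_nonpos_of_le hC) (Mathlib.Tactic.Linarith.sub_nonpos_of_le h1), mul_nonneg_of_nonpos_of_nonpos (Mathlib.Tactic.Linarith.sub_nonpos_of_le hC) (Mathlib.Tactic.Linarith.sub_nonpos_of_le h2), mul_nonneg_of_nonpos_of_nonpos (Mathlib.Tactic.Linarith.sub_nonpos_of_le hC') (Mathlib.Tactic.Linarith.sub_nonpos_of_le h1)]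

theorem P_le (Z : Cfg) {lam : ℝ} {V : Finset ℕ} {y t : ℝ} (θ : ℝ) (h1 : 1 ≤ lam) (hV : V ⊆ Z.s)
    (hy : y ≤ t) (ht : Z.Reg t) :
    Z.P lam V t θ ≤ 16 * (lam - 1) ^ 2 * (‖Z.cc y‖ * exp t) + 4 * exp (2 * (t - y)) * Z.W y := by
  obtain ⟨hc0, hc⟩ := ha_cos h1
  have h2 : 0 ≤ Z.gap lam V t θ := Finset.sum_nonneg fun a ha =>
    (abs_gapN_le h1 (sub_ne_zero.2 (ht a (hV ha)).symm) _).1
  have h3 := Z.U_le hy ht θ
  have h4 := Z.U_le hy ht (θ + π / lam)
  have h5 := Z.U_le hy ht (θ - π / lam)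
  rw [DL2_lin] at h4
  rw [DL2_lin'] at h5
  have h6 := mul_le_mul_of_nonneg_left ((le_abs_self _).trans (DL2_re (Z.cc y) t θ)) hc0
  have h7 := mul_le_mul_of_nonneg_right hc (show 0 ≤ ‖Z.cc y‖ * exp t by positivity)
  unfold P Sop
  linarith only [h2, h3, h4, h5, h6, h7]

theorem Np_eq (Z : Cfg) {lam : ℝ} (h1 : 1 < lam) (h2 : lam < 2) (y θ : ℝ) :
    Z.Np lam y θ =
      ∑ a ∈ Z.s.filter (fun a => Z.ξ a < y), lam *
        (∫ t in Ioi y, exp (-lam * t) * Dop lam (fun φ => lg (t - Z.ξ a) (φ - Z.η a)) θ) -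
      ∑ a ∈ Z.s.filter (fun a => y ≤ Z.ξ a), lam *
        ∫ t in Iio y, exp (-lam * t) * Dop lam (fun φ => nk (t - Z.ξ a) (φ - Z.η a)) θ := by
  have hlg : ∀ a, IntegrableOn
      (fun t => exp (-lam * t) * Dop lam (fun φ => lg (t - Z.ξ a) (φ - Z.η a)) θ) (Ioi y) := by
    intro a
    simp only [Dop, mul_sub]
    exact (DL2_int_lg (by linarith) _ _ _).sub (DL2_int_lg (by linarith) _ _ _)
  have hnk : ∀ a, Integrable
      fun t => exp (-lam * t) * Dop lam (fun φ => nk (t - Z.ξ a) (φ - Z.η a)) θ := by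
    intro a
    simp only [Dop, mul_sub]
    exact (int_exp_nk h1 h2 _ _).sub (int_exp_nk h1 h2 _ _)
  have hD : ∀ t, exp (-lam * t) * Z.D lam t θ =
      -(2 * sin (π / lam) * (Z.cc y * Complex.exp (θ * Complex.I)).im) * exp (-(lam - 1) * t) +
      ∑ a ∈ Z.s.filter (fun a => Z.ξ a < y),
        exp (-lam * t) * Dop lam (fun φ => lg (t - Z.ξ a) (φ - Z.η a)) θ +
      ∑ a ∈ Z.s.filter (fun a => y ≤ Z.ξ a),
        exp (-lam * t) * Dop lam (fun φ => nk (t - Z.ξ a) (φ - Z.η a)) θ := by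
    intro t
    have e1 : (Z.cc y * Complex.exp (t + θ * Complex.I)).im =
        exp t * (Z.cc y * Complex.exp (θ * Complex.I)).im := by
      rw [Complex.exp_add, mul_left_comm, ← Complex.ofReal_exp, Complex.im_ofReal_mul]
    have e2 : exp (-(lam - 1) * t) = exp (-lam * t) * exp t := by
      rw [← exp_add]
      congr 1
      ring
    unfold D Dop
    rw [← Finset.mul_sum, ← Finset.mul_sum, Finset.sum_sub_distrib, Finset.sum_sub_distrib,
      Z.U_split y, Z.U_split y, DL2_lin, DL2_lin', e1, e2]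
    ring
  have h0 : -(lam - 1) < 0 := by linarith
  have i1 := (integrableOn_exp_mul_Ioi h0 y).const_mul
    (-(2 * sin (π / lam) * (Z.cc y * Complex.exp (θ * Complex.I)).im))
  have i2 := integrable_finsetSum (Z.s.filter (fun a => Z.ξ a < y)) fun a _ => hlg a
  have i3 := integrable_finsetSum (μ := volume.restrict (Ioi y))
    (Z.s.filter (fun a => y ≤ Z.ξ a)) fun a _ => (hnk a).integrableOn
  have e3 : ∀ a, lam * ∫ t in Ioi y,
      exp (-lam * t) * Dop lam (fun φ => nk (t - Z.ξ a) (φ - Z.η a)) θ =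
      exp (-lam * Z.ξ a) * (2 * π * Sg lam (Z.η a - θ)) - lam * ∫ t in Iio y,
        exp (-lam * t) * Dop lam (fun φ => nk (t - Z.ξ a) (φ - Z.η a)) θ := by
    intro a
    rw [← tot_D h1 h2, ← intervalIntegral.integral_Iic_add_Ioi (b := y) (hnk a).integrableOn
      (hnk a).integrableOn, integral_Iic_eq_integral_Iio]
    ring
  unfold Np Nf
  simp only [hD]
  rw [integral_add (DL2_add i1 i2) i3, integral_add i1 i2, integral_const_mul,
    integral_exp_mul_Ioi h0, integral_finsetSum _ fun a _ => hlg a,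
    integral_finsetSum _ fun a _ => (hnk a).integrableOn, mul_add, mul_add, Finset.mul_sum,
    Finset.mul_sum]
  simp only [e3]
  rw [Finset.sum_sub_distrib]
  have : lam - 1 ≠ 0 := by linarith
  field_simp
  ring

theorem DL2_Np (Z : Cfg) {lam : ℝ} (h1 : 1 < lam) (h2 : lam < 2) (y θ : ℝ) :
    Z.Np lam y θ = lam * ∑ a ∈ Z.s, (DL2_K lam y (Z.ξ a) (θ + π / lam - Z.η a) -
      DL2_K lam y (Z.ξ a) (θ - π / lam - Z.η a)) := by
  rw [Z.Np_eq h1 h2, ← Finset.sum_filter_add_sum_filter_not Z.s (fun a => Z.ξ a < y), mul_add,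
    Finset.mul_sum, Finset.mul_sum, sub_eq_add_neg, ← Finset.sum_neg_distrib]
  simp only [not_lt]
  congr 1
  · refine Finset.sum_congr rfl fun a ha => ?_
    simp only [DL2_K, if_pos (Finset.mem_filter.1 ha).2, Dop, mul_sub (exp _)]
    rw [integral_sub (DL2_int_lg (by linarith only [h1, h2]) _ _ _) (DL2_int_lg (by linarith) _ _ _)]
  · refine Finset.sum_congr rfl fun a ha => ?_
    simp only [DL2_K, if_neg (not_lt.2 (Finset.mem_filter.1 ha).2), Dop, mul_sub (exp _)]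
    rw [integral_sub (int_exp_nk h1 h2 _ _).integrableOn (int_exp_nk h1 h2 _ _).integrableOn]
    ring

theorem Np_le : ∃ C : ℝ, 1 ≤ C ∧ ∀ (Z : Cfg) (lam y θ θ' : ℝ), 1 < lam → lam ≤ 11 / 10 →
    |Z.Np lam y θ| ≤ C * (exp (-lam * y) * Z.W y) ∧
      |Z.Np lam y θ - Z.Np lam y θ'| ≤ C * |θ - θ'| * (exp (-lam * y) * Z.W y) := by
  obtain ⟨C, hC, H⟩ := DL2_K_lip
  refine ⟨8 * C, by linarith, fun Z lam y θ θ' hl hl' => ?_⟩
  have h0 : 0 < lam := by linarith
  have hW : exp (-lam * y) * Z.W y = ∑ a ∈ Z.s, exp (-lam * y) * w0 (y - Z.ξ a) :=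
    Finset.mul_sum _ _ _
  rw [Z.DL2_Np hl (by linarith), Z.DL2_Np hl (by linarith), hW, ← mul_sub, ← Finset.sum_sub_distrib,
    Finset.mul_sum, Finset.mul_sum, Finset.mul_sum, Finset.mul_sum]
  constructor
  · refine (Finset.abs_sum_le_sum_abs _ _).trans (Finset.sum_le_sum fun a _ => ?_)
    have h1 := H lam y (Z.ξ a) (θ + π / lam - Z.η a) (θ - π / lam - Z.η a) hl hl'
    have h2 : 0 < π / lam := div_pos pi_pos h0
    rw [show θ + π / lam - Z.η a - (θ - π / lam - Z.η a) = 2 * (π / lam) by ring,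
      abs_of_pos (by linarith only [h2] : 0 < 2 * (π / lam))] at h1
    have h3 := mul_pos (exp_pos (-lam * y)) (w0_pos (y - Z.ξ a))
    rw [abs_mul, abs_of_pos h0]
    refine (mul_le_mul_of_nonneg_left h1 h0.le).trans ?_
    have h4 : lam * (C * (2 * (π / lam)) * (exp (-lam * y) * w0 (y - Z.ξ a))) =
        2 * π * (C * (exp (-lam * y) * w0 (y - Z.ξ a))) := by field_simp
    rw [h4]
    nlinarith only [hl, hl', hC, h3, pi_le_four, mul_pos (show 0 < C by linarith) h3]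
  · refine (Finset.abs_sum_le_sum_abs _ _).trans (Finset.sum_le_sum fun a _ => ?_)
    have h1 := H lam y (Z.ξ a) (θ + π / lam - Z.η a) (θ' + π / lam - Z.η a) hl hl'
    have h2 := H lam y (Z.ξ a) (θ - π / lam - Z.η a) (θ' - π / lam - Z.η a) hl hl'
    simp only [sub_sub_sub_cancel_right, add_sub_add_right_eq_sub] at h1 h2
    have h3 := mul_nonneg (mul_nonneg (show 0 ≤ C by linarith only [hC, hl, hl']) (abs_nonneg (θ - θ')))
      (mul_pos (exp_pos (-lam * y)) (w0_pos (y - Z.ξ a))).le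
    rw [abs_mul, abs_of_pos h0, sub_sub_sub_comm]
    have h4 := mul_le_mul_of_nonneg_left ((abs_sub _ _).trans (add_le_add h1 h2)) h0.le
    linarith only [h3, h4, hl', mul_nonneg_of_nonpos_of_nonpos (Mathlib.Tactic.Linarith.sub_nonpos_of_le hl') (Mathlib.Tactic.Linarith.sub_nonpos_of_le h3)]

end Cfg

end

end Pool.Agent.MinMod
end

-- merged part: Pool.Agent.Work.MP_f62247_an.DL3
section
/-!
# Upper bound of the functional

`U_split` at `y`; `e^(-lam t) Om (t-y) = e^(-lam y) Kc (t-y) ≤ e^(-lam y) e^(-lam |t-y|)` (`Kc_le`).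
Linear term: `≤ lam * 16 (lam-1)² ‖cc y‖ ∫ e^t e^(-lam y - lam |t-y|)`, and the integral is `≤ e^(-(lam-1) y) (1/(lam-1) + 1)`.
Past zero: `Sop lg ≤ 4 (s₊ + log 2)`, `gap ≥ 0`, `-ms ≤ 2π`, `Om (ξ-y) e^(-lam ξ) ≤ e^(-lam y)`.
Future zero: by `tot_S`, `tot_N` its contribution is `-lam ∫ e^(-lam t) (1 - Om (t-y)) p + (1 - Om (ξ-y)) e^(-lam ξ) ms`, with
`|p| ≤ 8 env (t-ξ)` a.e.; `env_neg` on `t < y`, `env_pos` on `t > y` (weight `≤ e^(-lam y) e^(-3 (t-y))`).
-/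

open Real MeasureTheory Set Filter Topology

namespace Pool.Agent.MinMod

noncomputable section

theorem DL3_int {μ : ℝ} (h : 0 < μ) (y : ℝ) :
    (Integrable fun t => exp (-μ * |t - y|)) ∧ ∫ t, exp (-μ * |t - y|) = 2 / μ := by
  refine ⟨(KerI_exp h).comp_sub_right y, ?_⟩
  rw [integral_sub_right_eq_self (fun t => exp (-μ * |t|)) y,
    integral_comp_abs (f := fun t => exp (-μ * t)), integral_exp_mul_Ioi (neg_lt_zero.2 h)]
  simp [div_eq_mul_inv]

theorem DL3_rho {lam : ℝ} (h : 0 ≤ lam) (y t : ℝ) : 0 ≤ exp (-lam * t) * Om lam (t - y) ∧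
    exp (-lam * t) * Om lam (t - y) ≤ exp (-lam * y) * exp (-lam * |t - y|) := by
  refine ⟨(mul_pos (exp_pos _) (Om_pos _ _)).le, le_trans (le_of_eq ?_)
    (mul_le_mul_of_nonneg_left (Kc_le h (t - y)).2 (exp_pos _).le)⟩
  rw [Kc, ← mul_assoc, ← exp_add]
  congr 2
  ring

theorem DL3_ms (lam η : ℝ) {e : ℝ} (h0 : 0 ≤ e) (h1 : e ≤ 1) :
    |2 * π * (|Sg lam η| - e * |sin (lam * η)|)| ≤ 7 := by
  have h2 := abs_Sg_le_one lam η
  have h3 := abs_nonneg (Sg lam η)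
  have h4 : e * |sin (lam * η)| ≤ 1 := mul_le_one₀ h1 (abs_nonneg _) (abs_sin_le_one _)
  have h5 : 0 ≤ e * |sin (lam * η)| := mul_nonneg h0 (abs_nonneg _)
  have h6 := pi_lt_d2
  have h7 := pi_pos
  rw [abs_le]
  constructor <;> linarith only [h3, h2, h6, h4, h7, h5, mul_nonneg_of_nonpos_of_nonpos (Mathlib.Tactic.Linarith.sub_nonpos_of_le h2) (le_of_lt (Mathlib.Tactic.Linarith.sub_neg_of_lt h6)), mul_nonneg_of_nonpos_of_nonpos (Mathlib.Tactic.Linarith.sub_nonpos_of_le h4) (le_of_lt (Mathlib.Tactic.Linarith.sub_neg_of_lt h7)), mul_nonneg_of_nonpos_of_nonpos (Mathlib.Tactic.Linarith.sub_nonpos_of_le h2) (le_of_lt (Mathlib.Tactic.Linarith.sub_neg_of_lt h7)), mul_nonneg_of_nonpos_of_nonpos (Mathlib.Tactic.Linarith.sub_nonpos_of_le h4) (le_of_lt (Mathlib.Tactic.Linarith.sub_neg_of_lt h6))]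

theorem DL3_lin {lam : ℝ} (h1 : 1 < lam) (h2 : lam ≤ 11 / 10) (c : ℂ) (y θ : ℝ) :
    (Integrable fun t => exp (-lam * t) * Om lam (t - y) *
      Sop lam (fun φ : ℝ => (c * Complex.exp (t + φ * Complex.I)).re) θ) ∧
    lam * ∫ t, exp (-lam * t) * Om lam (t - y) *
      Sop lam (fun φ : ℝ => (c * Complex.exp (t + φ * Complex.I)).re) θ ≤
        36 * (exp (-lam * y) * ((lam - 1) * (‖c‖ * exp y))) := by
  have h0 : 0 ≤ lam := by linarith only [h1, h2]
  have hμ : 0 < lam - 1 := by linarith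
  have e : ∀ t : ℝ, exp (-lam * t) * Om lam (t - y) *
      Sop lam (fun φ : ℝ => (c * Complex.exp (t + φ * Complex.I)).re) θ =
      (2 * (1 + cos (π / lam)) * cos (θ - -Complex.arg c) * ‖c‖) *
        (exp (-lam * t) * Om lam (t - y) * exp t) := by
    intro t
    simp only [Sop, Bf_re_mul]
    rw [add_sub_right_comm, sub_right_comm, cos_add, cos_sub _ (π / lam)]
    ring
  have hi := (wt_Om h0 y).int_exp h1
  simp only [e]
  refine ⟨hi.const_mul _, ?_⟩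
  rw [integral_const_mul]
  obtain ⟨h3, h4⟩ := DL3_int hμ y
  have h5 : ∫ t, exp (-lam * t) * Om lam (t - y) * exp t ≤
      exp (-lam * y) * exp y * (2 / (lam - 1)) := by
    rw [← h4, ← integral_const_mul]
    refine integral_mono hi (h3.const_mul _) fun t => ?_
    refine (mul_le_mul_of_nonneg_right (DL3_rho h0 y t).2 (exp_pos _).le).trans ?_
    simp only [← exp_add]
    exact exp_le_exp.2 (by linarith only [le_abs_self (t - y)])
  have h6 : 0 ≤ ∫ t, exp (-lam * t) * Om lam (t - y) * exp t :=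
    integral_nonneg fun t => mul_nonneg (DL3_rho h0 y t).1 (exp_pos _).le
  have h7 : 2 * (1 + cos (π / lam)) * cos (θ - -Complex.arg c) * ‖c‖ ≤ 16 * (lam - 1) ^ 2 * ‖c‖ := by
    obtain ⟨h8, h9⟩ := ha_cos h1.le
    refine mul_le_mul_of_nonneg_right ?_ (norm_nonneg _)
    (refine le_of_not_gt fun h_nl => ?_; linarith only [h_nl, h9, h1, h2, h8, cos_le_one (θ - -Complex.arg c), mul_pos_of_neg_of_neg (Mathlib.Tactic.Linarith.sub_neg_of_lt h1) (Mathlib.Tactic.Linarith.sub_neg_of_lt h_nl), mul_nonneg_of_nonpos_of_nonpos (Mathlib.Tactic.Linarith.sub_nonpos_of_le h2) (le_of_lt (Mathlib.Tactic.Linarith.sub_neg_of_lt h_nl)), mul_nonneg_of_nonpos_of_nonpos (Mathlib.Tactic.Linarith.sub_nonpos_of_le h8) (Mathlib.Tactic.Linarith.sub_nonpos_of_le (cos_le_one (θ - -c.arg)))])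
  calc _ ≤ 9 / 8 * (16 * (lam - 1) ^ 2 * ‖c‖ * (exp (-lam * y) * exp y * (2 / (lam - 1)))) :=
        le_trans (mul_le_mul_of_nonneg_left (mul_le_mul h7 h5 h6 (by positivity)) h0)
          (mul_le_mul_of_nonneg_right (by linarith only [h1, h2]) (by positivity))
    _ = _ := by
        field_simp
        ring

theorem DL3_past {lam : ℝ} (h1 : 1 < lam) (h2 : lam ≤ 11 / 10) {ξ y e : ℝ} (hξ : ξ < y) (η θ : ℝ)
    (h3 : 0 ≤ e) (h4 : e ≤ 1) :
    (Integrable fun t => exp (-lam * t) * Om lam (t - y) *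
      (Sop lam (fun φ => lg (t - ξ) (φ - η)) θ -
        e * (2 * (Nh lam (t - ξ) (θ - η) - Nh lam (t - ξ) 0)))) ∧
    lam * (∫ t, exp (-lam * t) * Om lam (t - y) * (Sop lam (fun φ => lg (t - ξ) (φ - η)) θ -
        e * (2 * (Nh lam (t - ξ) (θ - η) - Nh lam (t - ξ) 0)))) -
      Om lam (ξ - y) * exp (-lam * ξ) * (2 * π * (|Sg lam (η - θ)| - e * |sin (lam * (η - θ))|)) ≤
        43 * (exp (-lam * y) * w0 (y - ξ)) := by
  have h0 : 0 ≤ lam := by linarith only [h1, h2]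
  have hw := wt_Om h0 y
  have hl := hw.int_lg (by linarith) ξ
  have hN := hw.int_Nh h1 ξ
  have hi : Integrable fun t => exp (-lam * t) * Om lam (t - y) *
      (Sop lam (fun φ => lg (t - ξ) (φ - η)) θ -
        e * (2 * (Nh lam (t - ξ) (θ - η) - Nh lam (t - ξ) 0))) := by
    refine (((((hl (θ - η)).const_mul 2).add (hl (θ + π / lam - η))).add
      (hl (θ - π / lam - η))).sub ((((hN (θ - η)).sub (hN 0)).const_mul 2).const_mul e)).congr
      (Eventually.of_forall fun t => ?_)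
    simp only [Sop, Pi.add_apply, Pi.sub_apply]
    ring
  refine ⟨hi, ?_⟩
  obtain ⟨h5, h6⟩ := DL3_int one_half_pos y
  have hu : 0 < y - ξ := sub_pos.2 hξ
  have h7 : ∫ t, exp (-lam * t) * Om lam (t - y) * (Sop lam (fun φ => lg (t - ξ) (φ - η)) θ -
      e * (2 * (Nh lam (t - ξ) (θ - η) - Nh lam (t - ξ) 0))) ≤
      ∫ t, 8 * (exp (-lam * y) * (1 + (y - ξ))) * exp (-(1 / 2) * |t - y|) := by
    refine integral_mono_ae hi (h5.const_mul _) ?_
    filter_upwards [FkB_ae ξ] with t ht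
    obtain ⟨h8, h9⟩ := DL3_rho h0 y t
    have h10 := abs_nonneg (t - y)
    have h11 : ∀ φ, lg (t - ξ) φ ≤ (1 + (y - ξ)) * (1 + |t - y|) := fun φ => by
      have h12 : max (t - ξ) 0 ≤ |t - y| + (y - ξ) :=
        max_le (by linarith only [le_abs_self (t - y)]) (by linarith only [hξ, h10])
      have h13 := log_two_lt_d9
      linarith only [h1, h2, h12, h13, hu, h10, lg_le (t - ξ) φ, mul_nonneg hu.le h10]
    have h12 := mul_nonneg h3 (abs_gapN_le h1.le ht (θ - η)).1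
    have h13 : 1 + |t - y| ≤ 2 * exp (1 / 2 * |t - y|) := by
      linarith only [h1, h2, add_one_le_exp (1 / 2 * |t - y|)]
    have h14 : exp (-lam * |t - y|) * exp (1 / 2 * |t - y|) ≤ exp (-(1 / 2) * |t - y|) := by
      rw [← exp_add]
      exact exp_le_exp.2 (by linarith only [h1, h10, mul_nonneg_of_nonpos_of_nonpos (le_of_lt (Mathlib.Tactic.Linarith.sub_neg_of_lt h1)) (Mathlib.Tactic.Linarith.sub_nonpos_of_le h10)])
    calc _ ≤ exp (-lam * t) * Om lam (t - y) * (4 * ((1 + (y - ξ)) * (1 + |t - y|))) := by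
          refine mul_le_mul_of_nonneg_left ?_ h8
          simp only [Sop]
          linarith only [h12, h11, h11 (θ - η), h11 (θ + π / lam - η), h11 (θ - π / lam - η)]
      _ ≤ exp (-lam * y) * exp (-lam * |t - y|) *
          (4 * ((1 + (y - ξ)) * (2 * exp (1 / 2 * |t - y|)))) := by gcongr
      _ = 8 * (exp (-lam * y) * (1 + (y - ξ))) *
          (exp (-lam * |t - y|) * exp (1 / 2 * |t - y|)) := by ring
      _ ≤ _ := mul_le_mul_of_nonneg_left h14 (by positivity)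
  rw [integral_const_mul, h6] at h7
  have h8 := (abs_le.1 (DL3_ms lam (η - θ) h3 h4)).1
  obtain ⟨h9, h10⟩ := DL3_rho h0 y ξ
  have h11 : exp (-lam * |ξ - y|) ≤ 1 + (y - ξ) :=
    (exp_le_one_iff.2 (by linarith only [h1, abs_nonneg (ξ - y), mul_nonneg_of_nonpos_of_nonpos (le_of_lt (Mathlib.Tactic.Linarith.sub_neg_of_lt h1)) (Mathlib.Tactic.Linarith.sub_nonpos_of_le (abs_nonneg (ξ - y)))])).trans (by linarith only [hξ])
  have h12 := h10.trans (mul_le_mul_of_nonneg_left h11 (exp_pos _).le)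
  have h13 := mul_le_mul_of_nonneg_left h7 h0
  have h14 : 0 ≤ exp (-lam * y) * (1 + (y - ξ)) := by positivity
  rw [w0_of_nonneg hu.le, mul_comm (Om lam (ξ - y))]
  generalize exp (-lam * y) * (1 + (y - ξ)) = X at h12 h13 h14 ⊢
  linarith only [h9, h12, h13, h8, h2, h14, mul_le_mul_of_nonneg_left h8 h9, mul_le_mul_of_nonneg_right h2 h14]

theorem DL3_env : ∃ C : ℝ, 1 ≤ C ∧ ∀ lam ξ y : ℝ, 1 < lam → lam ≤ 11 / 10 → y ≤ ξ →
    ∫ t, exp (-lam * t) * (1 - Om lam (t - y)) * env (t - ξ) ≤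
      C * (exp (-lam * y) * exp (2 * (y - ξ))) := by
  obtain ⟨C, hC, h1⟩ := env_neg
  obtain ⟨C', hC', h2⟩ := env_pos
  refine ⟨C + C', by linarith, fun lam ξ y hl hl' hy => ?_⟩
  obtain ⟨h3, h4⟩ := h1 lam (ξ - y) (by linarith only [hl, hl']) hl' (sub_nonneg.2 hy)
  obtain ⟨h5, h6⟩ := h2 (ξ - y) (sub_nonneg.2 hy)
  have h7 := ((integrable_indicator_iff measurableSet_Iio).2 h3).const_mul (exp (-lam * ξ))
  have h8 := ((integrable_indicator_iff measurableSet_Ioi).2 h5).const_mul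
    (exp (-lam * y) * exp (-3 * (ξ - y)))
  rw [← integral_add_right_eq_self _ ξ]
  refine (integral_mono_of_nonneg (Eventually.of_forall fun s => mul_nonneg (mul_nonneg
    (exp_pos _).le (sub_nonneg.2 (Om_lt_one _ _).le)) (env_nonneg _)) (h7.add h8) ?_).trans ?_
  · filter_upwards [FkB_ae (-(ξ - y))] with s hs
    simp only [Pi.add_apply, add_sub_cancel_right]
    rcases lt_or_gt_of_ne (sub_ne_zero.1 hs) with h | h
    · rw [indicator_of_mem (mem_Iio.2 h), indicator_of_notMem (notMem_Ioi.2 h.le), mul_zero,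
        add_zero, ← mul_assoc, ← exp_add]
      refine mul_le_mul_of_nonneg_right ?_ (env_nonneg _)
      rw [show -lam * ξ + -lam * s = -lam * (s + ξ) by ring]
      exact mul_le_of_le_one_right (exp_pos _).le (by linarith [Om_pos lam (s + ξ - y)])
    · rw [indicator_of_mem (mem_Ioi.2 h), indicator_of_notMem (notMem_Iio.2 h.le), mul_zero,
        zero_add, ← mul_assoc]
      refine mul_le_mul_of_nonneg_right ((mul_le_mul_of_nonneg_left (one_sub_Om_le _ _)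
        (exp_pos _).le).trans ?_) (env_nonneg _)
      simp only [← exp_add]
      exact exp_le_exp.2 (by linarith only [hl, h, mul_pos_of_neg_of_neg (Mathlib.Tactic.Linarith.sub_neg_of_lt hl) (Mathlib.Tactic.Linarith.sub_neg_of_lt h)])
  · rw [integral_add' h7 h8, integral_const_mul, integral_const_mul,
      integral_indicator measurableSet_Iio, integral_indicator measurableSet_Ioi, add_mul]
    refine add_le_add ((mul_le_mul_of_nonneg_left h4 (exp_pos _).le).trans_eq ?_)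
      ((mul_le_mul_of_nonneg_left h6 (by positivity)).trans_eq ?_)
    · rw [mul_left_comm, ← exp_add, ← exp_add]
      congr 2
      ring
    · rw [mul_left_comm, ← exp_add, ← exp_add, ← exp_add]
      congr 2
      ring

theorem DL3_fut : ∃ C : ℝ, 1 ≤ C ∧ ∀ lam ξ y η θ e : ℝ, 1 < lam → lam ≤ 11 / 10 → y ≤ ξ → 0 ≤ e →
    e ≤ 1 → (Integrable fun t => exp (-lam * t) * Om lam (t - y) *
      (Sop lam (fun φ => nk (t - ξ) (φ - η)) θ -
        e * (2 * (Nh lam (t - ξ) (θ - η) - Nh lam (t - ξ) 0)))) ∧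
    lam * (∫ t, exp (-lam * t) * Om lam (t - y) * (Sop lam (fun φ => nk (t - ξ) (φ - η)) θ -
        e * (2 * (Nh lam (t - ξ) (θ - η) - Nh lam (t - ξ) 0)))) -
      Om lam (ξ - y) * exp (-lam * ξ) * (2 * π * (|Sg lam (η - θ)| - e * |sin (lam * (η - θ))|)) ≤
        C * (exp (-lam * y) * w0 (y - ξ)) := by
  obtain ⟨C, hC, hE⟩ := DL3_env
  refine ⟨9 * C + 7, by linarith only [hC], fun lam ξ y η θ e h1 h2 hy h3 h4 => ?_⟩
  have h0 : 0 < lam := by linarith only [h1, h2]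
  have h2' : lam < 2 := by linarith
  have hn := int_exp_nk h1 h2' ξ
  have hN := int_exp_Nh h0 ξ
  have hS : Integrable fun t => exp (-lam * t) * Sop lam (fun φ => nk (t - ξ) (φ - η)) θ := by
    refine ((((hn (θ - η)).const_mul 2).add (hn (θ + π / lam - η))).add
      (hn (θ - π / lam - η))).congr (Eventually.of_forall fun t => ?_)
    simp only [Sop, Pi.add_apply]
    ring
  have hG : Integrable fun t =>
      exp (-lam * t) * (2 * (Nh lam (t - ξ) (θ - η) - Nh lam (t - ξ) 0)) := by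
    refine (((hN (θ - η)).sub (hN 0)).const_mul 2).congr (Eventually.of_forall fun t => ?_)
    simp only [Pi.sub_apply]
    ring
  have hS' := tot_S h1 h2' ξ η θ
  have hG' := tot_N h0 ξ η θ
  have hb : ∀ᵐ t, |Sop lam (fun φ => nk (t - ξ) (φ - η)) θ -
      e * (2 * (Nh lam (t - ξ) (θ - η) - Nh lam (t - ξ) 0))| ≤ 8 * env (t - ξ) := by
    filter_upwards [FkB_ae ξ] with t ht
    obtain ⟨h5, h6, -⟩ := abs_gapN_le h1.le ht (θ - η)
    have h7 := mul_nonneg h3 h5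
    have h8 := mul_le_of_le_one_left h5 h4
    have h9 := abs_le.1 (abs_nk_le ht (θ - η))
    have h10 := abs_le.1 (abs_nk_le ht (θ + π / lam - η))
    have h11 := abs_le.1 (abs_nk_le ht (θ - π / lam - η))
    simp only [Sop]
    rw [abs_le]
    constructor <;> linarith only [h6, h8, h9, h10, h11, h5, h7, h9.1, h9.2, h10.1, h10.2, h11.1, h11.2]
  obtain ⟨p, hp⟩ : ∃ p : ℝ → ℝ, ∀ t, p t = Sop lam (fun φ => nk (t - ξ) (φ - η)) θ -
      e * (2 * (Nh lam (t - ξ) (θ - η) - Nh lam (t - ξ) 0)) := ⟨_, fun _ => rfl⟩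
  have e1 : ∀ t, exp (-lam * t) * p t =
      exp (-lam * t) * Sop lam (fun φ => nk (t - ξ) (φ - η)) θ -
        e * (exp (-lam * t) * (2 * (Nh lam (t - ξ) (θ - η) - Nh lam (t - ξ) 0))) := fun t => by
    rw [hp]
    ring
  have hi : Integrable fun t => exp (-lam * t) * p t := by
    simp only [e1]
    exact hS.sub (hG.const_mul e)
  have ht : lam * ∫ t, exp (-lam * t) * p t =
      exp (-lam * ξ) * (2 * π * (|Sg lam (η - θ)| - e * |sin (lam * (η - θ))|)) := by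
    simp only [e1]
    rw [integral_sub hS (hG.const_mul e), integral_const_mul, mul_sub, hS', mul_left_comm lam e, hG']
    ring
  have hc : Continuous fun t => Om lam (t - y) :=
    (continuous_Om lam).comp (continuous_id.sub continuous_const)
  have hm : ∀ {g : ℝ → ℝ}, (Integrable fun t => exp (-lam * t) * g t) →
      Integrable fun t => exp (-lam * t) * Om lam (t - y) * g t := fun {g} hg => by
    refine (hg.bdd_mul (c := 1) hc.aestronglyMeasurable (Eventually.of_forall fun t => ?_)).congr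
      (Eventually.of_forall fun t => by ring)
    rw [Real.norm_of_nonneg (Om_pos _ _).le]
    exact (Om_lt_one _ _).le
  have he := int_exp_env h1 h2' ξ
  have he' : Integrable fun t => exp (-lam * t) * (1 - Om lam (t - y)) * env (t - ξ) :=
    (he.sub (hm he)).congr (Eventually.of_forall fun t => by simp only [Pi.sub_apply]; ring)
  simp only [← hp] at hb ⊢
  refine ⟨hm hi, ?_⟩
  have h5 : (∫ t, exp (-lam * t) * Om lam (t - y) * p t) - ∫ t, exp (-lam * t) * p t ≤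
      8 * (C * (exp (-lam * y) * exp (2 * (y - ξ)))) := by
    rw [← integral_sub (hm hi) hi]
    refine le_trans ?_ (mul_le_mul_of_nonneg_left (hE lam ξ y h1 h2 hy) (by norm_num))
    rw [← integral_const_mul]
    refine integral_mono_ae ((hm hi).sub hi) (he'.const_mul _) (hb.mono fun t h => ?_)
    have := mul_le_mul_of_nonneg_left (abs_le.1 h).1
      (mul_nonneg (exp_pos (-lam * t)).le (sub_nonneg.2 (Om_lt_one lam (t - y)).le))
    simp only
    linarith only [this]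
  have h6 := (abs_le.1 (DL3_ms lam (η - θ) h3 h4)).2
  have h7 : 0 ≤ exp (-lam * ξ) * (1 - Om lam (ξ - y)) :=
    mul_nonneg (exp_pos _).le (sub_nonneg.2 (Om_lt_one _ _).le)
  have h8 : exp (-lam * ξ) * (1 - Om lam (ξ - y)) ≤ exp (-lam * y) * exp (2 * (y - ξ)) := by
    refine (mul_le_mul_of_nonneg_left (one_sub_Om_le _ _) (exp_pos _).le).trans ?_
    simp only [← exp_add]
    exact exp_le_exp.2 (by linarith only [hy, h1, mul_nonneg_of_nonpos_of_nonpos (le_of_lt (Mathlib.Tactic.Linarith.sub_neg_of_lt h1)) (Mathlib.Tactic.Linarith.sub_nonpos_of_le hy)])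
  have h9 := mul_le_mul_of_nonneg_left h5 h0.le
  have h10 := mul_le_mul_of_nonneg_left h6 h7
  have h11 : 0 ≤ C * (exp (-lam * y) * exp (2 * (y - ξ))) := by positivity
  have h12 := mul_le_mul_of_nonneg_right h2 h11
  rw [w0_of_nonpos (sub_nonpos.2 hy)]
  generalize 2 * π * (|Sg lam (η - θ)| - e * |sin (lam * (η - θ))|) = m at ht h10 ⊢
  linarith only [h8, h9, h11, h12, ht, h10]

namespace Cfg

theorem DL3_split (Z : Cfg) (y : ℝ) (f : ℕ → ℝ) : ∑ a ∈ Z.s, f a =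
    ∑ a ∈ Z.s.filter (fun a => Z.ξ a < y), f a + ∑ a ∈ Z.s.filter (fun a => y ≤ Z.ξ a), f a := by
  rw [← Finset.sum_filter_add_sum_filter_not Z.s fun a => Z.ξ a < y]
  simp only [not_lt]

theorem DL3_P (Z : Cfg) (lam : ℝ) {V : Finset ℕ} (hV : V ⊆ Z.s) (y t θ : ℝ) :
    Z.P lam V t θ = Sop lam (fun φ : ℝ => (Z.cc y * Complex.exp (t + φ * Complex.I)).re) θ +
      ∑ a ∈ Z.s.filter (fun a => Z.ξ a < y), (Sop lam (fun φ => lg (t - Z.ξ a) (φ - Z.η a)) θ -
        (if a ∈ V then 1 else 0) *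
          (2 * (Nh lam (t - Z.ξ a) (θ - Z.η a) - Nh lam (t - Z.ξ a) 0))) +
      ∑ a ∈ Z.s.filter (fun a => y ≤ Z.ξ a), (Sop lam (fun φ => nk (t - Z.ξ a) (φ - Z.η a)) θ -
        (if a ∈ V then 1 else 0) *
          (2 * (Nh lam (t - Z.ξ a) (θ - Z.η a) - Nh lam (t - Z.ξ a) 0))) := by
  have e : 2 * Z.gap lam V t θ = ∑ a ∈ Z.s, (if a ∈ V then 1 else 0) *
      (2 * (Nh lam (t - Z.ξ a) (θ - Z.η a) - Nh lam (t - Z.ξ a) 0)) := by
    simp only [ite_mul, one_mul, zero_mul]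
    rw [Finset.sum_ite_mem, Finset.inter_eq_right.2 hV, gap, Finset.mul_sum]
  rw [P, e, Z.DL3_split y]
  simp only [Sop, Z.U_split y, Finset.sum_sub_distrib, Finset.sum_add_distrib, ← Finset.mul_sum]
  ring

theorem Mh_le : ∃ C : ℝ, 1 ≤ C ∧ ∀ (Z : Cfg) (lam : ℝ) (V : Finset ℕ) (y θ : ℝ), 1 < lam →
    lam ≤ 11 / 10 → V ⊆ Z.s →
    Z.Mh lam V y θ ≤ C * (exp (-lam * y) * ((lam - 1) * Z.A y + Z.W y)) := by
  obtain ⟨C, hC, hF⟩ := DL3_fut
  refine ⟨C + 43, by linarith, fun Z lam V y θ h1 h2 hV => ?_⟩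
  have e0 : ∀ a, (0 : ℝ) ≤ if a ∈ V then 1 else 0 := fun a => by split_ifs <;> norm_num
  have e1 : ∀ a, (if a ∈ V then 1 else 0 : ℝ) ≤ 1 := fun a => by split_ifs <;> norm_num
  obtain ⟨h3, h4⟩ := DL3_lin h1 h2 (Z.cc y) y θ
  have h5 := fun a (ha : a ∈ Z.s.filter fun a => Z.ξ a < y) =>
    DL3_past h1 h2 (Finset.mem_filter.1 ha).2 (Z.η a) θ (e0 a) (e1 a)
  have h6 := fun a (ha : a ∈ Z.s.filter fun a => y ≤ Z.ξ a) =>
    hF lam (Z.ξ a) y (Z.η a) θ _ h1 h2 (Finset.mem_filter.1 ha).2 (e0 a) (e1 a)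
  have h7 := integrable_finsetSum _ fun a ha => (h5 a ha).1
  have h8 := integrable_finsetSum _ fun a ha => (h6 a ha).1
  have h9 := Finset.sum_le_sum fun a ha => (h5 a ha).2
  have h10 := Finset.sum_le_sum fun a ha => (h6 a ha).2
  have e2 : ∀ a, Z.ms lam V a θ = 2 * π * (|Sg lam (Z.η a - θ)| -
      (if a ∈ V then 1 else 0) * |sin (lam * (Z.η a - θ))|) := fun a => by
    simp only [ms, ite_mul, one_mul, zero_mul]
  have h11 : ∀ s : Finset ℕ, 0 ≤ exp (-lam * y) * ∑ a ∈ s, w0 (y - Z.ξ a) := fun s =>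
    mul_nonneg (exp_pos _).le (Finset.sum_nonneg fun a _ => (w0_pos _).le)
  have h12 : 0 ≤ exp (-lam * y) * ((lam - 1) * (‖Z.cc y‖ * exp y)) :=
    mul_nonneg (exp_pos _).le (mul_nonneg (by linarith only [h1]) (by positivity))
  rw [Finset.sum_sub_distrib, ← Finset.mul_sum, ← Finset.mul_sum, ← Finset.mul_sum] at h9 h10
  rw [← integral_finsetSum _ fun a ha => (h5 a ha).1] at h9
  rw [← integral_finsetSum _ fun a ha => (h6 a ha).1] at h10
  rw [Mh, Z.DL3_split y, A, Z.Bf_W_split y]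
  simp only [e2, Z.DL3_P lam hV y, mul_add, Finset.mul_sum]
  rw [integral_add (h3.fun_add h7) h8, integral_add h3 h7]
  have h13 := h11 (Z.s.filter fun a => Z.ξ a < y)
  have h14 := h11 (Z.s.filter fun a => y ≤ Z.ξ a)
  have hC0 : 0 ≤ C := by linarith only [hC, h1, h2]
  rw [← Finset.mul_sum _ _ (C + 43), ← Finset.mul_sum _ _ (C + 43),
    ← Finset.mul_sum _ _ (exp (-lam * y)), ← Finset.mul_sum _ _ (exp (-lam * y))]
  linarith only [h4, h9, h10, h12, h14, hC0, h13, mul_nonneg hC0 h12, mul_nonneg hC0 h13]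

end Cfg

end

end Pool.Agent.MinMod
end
end

-- merged part: Pool.Agent.Work.MP_f62247_an.Tilt
section
-- merged part: Pool.Agent.Work.MP_f62247_an.Conv
section
/-!
# Converting line integrals between frames

Split the line into `t < 0`, the cells `[i, i+1]`, `i < n`, and `t > n`.  On the cell `i`: `e^(-lam y) kw (t-y) ≤ C e^(-lam t) e^(-|i-j|)`,
`|D t ϑ| ≤ rr t (θ i) + |D t ϑ - D t (θ i)|`, `D_lip` at `i + 1` (`(lam-1) A + W ≤ 2 μ A`, `slow`), `|ϑ - θ i| ≤ |θ i - θ j| + |ϑ - θ j|`,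
`∑ e^(-|i-j|) g i ≤ C g j`.  `t < 0`: `D_left` at `0`, weight `e^(-2 lam y) e^(lam t)`.  `t > n`: `D_right` at `n`, weight
`e^(lam (y-n)) e^(-lam n) e^(-2 lam (t-n))`.  Zeros: in the cell `i`, `sz a ϑ ≤ |Sg (η - θ i)| + lam |ϑ - θ i|` (not in `VV`, `Sg_lip`) or
`≤ |η - θ i| + |ϑ - θ i|` (in `VV`); for `ξ < 0` or `ξ ≥ n` use `sz ≤ 1` and `W 0`, `W n`.
-/

open Real MeasureTheory Set Filter Topology

namespace Pool.Agent.MinMod

noncomputable section

theorem Conv_geo : ∃ G : ℝ, 1 ≤ G ∧ ∀ n j : ℕ,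
    ∑ i ∈ Finset.range n, exp (-|(i : ℝ) - j| / 2) ≤ G := by
  have h0 : Summable fun k : ℕ => exp (k * (-1 / 2 : ℝ)) :=
    Real.summable_exp_nat_mul_iff.2 (by norm_num)
  have h : Summable fun k : ℤ => exp (-|(k : ℝ)| / 2) := by
    refine Summable.of_nat_of_neg (h0.congr fun k => ?_) (h0.congr fun k => ?_)
    · rw [Int.cast_natCast, Nat.abs_cast]
      congr 1
      ring
    · rw [Int.cast_neg, abs_neg, Int.cast_natCast, Nat.abs_cast]
      congr 1
      ring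
  refine ⟨max 1 (∑' k : ℤ, exp (-|(k : ℝ)| / 2)), le_max_left _ _, fun n j => ?_⟩
  refine le_trans ?_ (le_max_right _ _)
  have h1 := h.sum_le_tsum ((Finset.range n).image fun i : ℕ => (i : ℤ) - j)
    fun k _ => (exp_pos _).le
  rw [Finset.sum_image fun a _ b _ e => by simpa using e] at h1
  simpa using h1

theorem Conv_kw1 (lam u : ℝ) : kw lam u ≤ exp (-2 * lam * u) := min_le_left _ _

theorem Conv_kw2 (lam u : ℝ) : kw lam u ≤ exp (lam * u) := min_le_right _ _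

theorem Conv_kw_pos {lam u : ℝ} (h : 0 ≤ lam) (hu : 0 ≤ u) : kw lam u = exp (-2 * lam * u) :=
  min_eq_left (exp_le_exp.2 (by linarith only [h, hu, mul_nonneg h hu]))

theorem Conv_kw_neg {lam u : ℝ} (h : 0 ≤ lam) (hu : u ≤ 0) : kw lam u = exp (lam * u) :=
  min_eq_right (exp_le_exp.2 (by linarith only [h, hu, mul_nonneg h (neg_nonneg.2 hu)]))

theorem Conv_cell {lam y t i j : ℝ} (h : 1 ≤ lam) (h1 : i ≤ t) (h2 : t ≤ i + 1) (h3 : j ≤ y)
    (h4 : y ≤ j + 1) :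
    exp (-lam * y) * kw lam (t - y) ≤ exp 1 * exp (-|i - j|) * exp (-lam * t) := by
  have e : |i - j| ≤ |t - y| + 1 := by
    rw [abs_le]
    constructor <;> linarith only [h2, h3, h1, h4, le_abs_self (t - y), neg_abs_le (t - y)]
  rw [← exp_add, ← exp_add]
  rcases le_total y t with hy | hy
  · refine (mul_le_mul_of_nonneg_left (Conv_kw1 _ _) (exp_pos _).le).trans ?_
    rw [abs_of_nonneg (sub_nonneg.2 hy)] at e
    rw [← exp_add, exp_le_exp]
    linarith only [e, h, hy, mul_nonneg (sub_nonneg.2 h) (sub_nonneg.2 hy)]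
  · refine (mul_le_mul_of_nonneg_left (Conv_kw2 _ _) (exp_pos _).le).trans ?_
    rw [abs_of_nonpos (sub_nonpos.2 hy)] at e
    rw [← exp_add, exp_le_exp]
    linarith only [e, hy, h, mul_nonneg (sub_nonneg.2 h) (sub_nonneg.2 hy)]

theorem Conv_left {lam y t j : ℝ} (h : 1 ≤ lam) (h0 : 0 ≤ j) (h3 : j ≤ y) :
    exp (-lam * y) * kw lam (t - y) ≤ exp (-j / 2) * exp (lam * (t - 0)) := by
  refine (mul_le_mul_of_nonneg_left (Conv_kw2 _ _) (exp_pos _).le).trans ?_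
  rw [← exp_add, ← exp_add, exp_le_exp]
  linarith only [h0, h3, h, mul_nonneg (sub_nonneg.2 h) (h0.trans h3)]

theorem Conv_right {lam y t j n : ℝ} (h : 1 ≤ lam) (h0 : j ≤ n) (h4 : y ≤ j + 1) (h5 : y ≤ n) :
    exp (-lam * y) * kw lam (t - y) ≤
      exp 1 * exp (-(n - j) / 2) * exp (-lam * n) * exp (-2 * lam * (t - n)) := by
  refine (mul_le_mul_of_nonneg_left (Conv_kw1 _ _) (exp_pos _).le).trans ?_
  rw [← exp_add, ← exp_add, ← exp_add, ← exp_add, exp_le_exp]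
  linarith only [h4, h5, h, mul_nonneg (sub_nonneg.2 h) (sub_nonneg.2 h5)]

theorem Conv_split {f : ℝ → ℝ} (hf : Integrable f) (n : ℕ) : ∫ t, f t = (∫ t in Iio 0, f t) +
    (∑ i ∈ Finset.range n, ∫ t in (i : ℝ)..(i + 1), f t) + ∫ t in Ioi (n : ℝ), f t := by
  have h1 := intervalIntegral.sum_integral_adjacent_intervals (f := f) (μ := volume)
    (a := fun k : ℕ => (k : ℝ)) (n := n) fun k _ => hf.intervalIntegrable
  simp only [Nat.cast_add, Nat.cast_one, Nat.cast_zero] at h1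
  rw [h1, add_assoc, intervalIntegral.integral_interval_add_Ioi hf.integrableOn hf.integrableOn,
    ← integral_Iic_eq_integral_Iio,
    intervalIntegral.integral_Iic_add_Ioi hf.integrableOn hf.integrableOn]

namespace Cfg

variable (Z : Cfg)

theorem Conv_int {lam : ℝ} (h : 1 < lam) (y ϑ : ℝ) :
    Integrable fun t => kw lam (t - y) * |Z.D lam t ϑ| := by
  refine ((wt_kw (by linarith) y).int_D h Z ϑ).abs.congr (Eventually.of_forall fun t => ?_)
  simp only [abs_mul, abs_of_pos (kw_pos lam (t - y))]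

theorem Conv_ii (lam θ a b : ℝ) : IntervalIntegrable (fun t => Z.D lam t θ) volume a b :=
  (Z.intervalIntegrable_U _ a b).sub (Z.intervalIntegrable_U _ a b)

theorem Conv_sz (lam : ℝ) (V : Finset ℕ) (a : ℕ) (ϑ : ℝ) :
    0 ≤ Z.sz lam V a ϑ ∧ Z.sz lam V a ϑ ≤ 1 := by
  unfold sz
  split_ifs
  · exact ⟨le_min zero_le_one (abs_nonneg _), min_le_left _ _⟩
  · exact ⟨abs_nonneg _, abs_Sg_le_one _ _⟩

theorem Conv_Ileft {lam y j c : ℝ} (h : 1 < lam) (h0 : 0 ≤ j) (h3 : j ≤ y) (ϑ : ℝ)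
    (hc : ∫ t in Iio 0, exp (lam * (t - 0)) * |Z.D lam t ϑ| ≤ c) :
    ∫ t in Iio 0, exp (-lam * y) * (kw lam (t - y) * |Z.D lam t ϑ|) ≤ exp (-j / 2) * c := by
  refine le_trans ?_ (mul_le_mul_of_nonneg_left hc (exp_pos _).le)
  rw [← integral_const_mul]
  refine setIntegral_mono ((Z.Conv_int h y ϑ).const_mul _).integrableOn
    (Integrable.const_mul ((Z.Conv_int h 0 ϑ).integrableOn.congr_fun (fun t ht => ?_)
      measurableSet_Iio) _) fun t => ?_
  · simp only [Conv_kw_neg (by linarith only [h] : 0 ≤ lam) (sub_nonpos.2 (le_of_lt ht))]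
  · simp only [← mul_assoc]
    exact mul_le_mul_of_nonneg_right (Conv_left h.le h0 h3) (abs_nonneg _)

theorem Conv_Iright {lam y j n c : ℝ} (h : 1 < lam) (h0 : j ≤ n) (h4 : y ≤ j + 1) (h5 : y ≤ n)
    (ϑ : ℝ) (hc : ∫ t in Ioi n, exp (-2 * lam * (t - n)) * |Z.D lam t ϑ| ≤ c) :
    ∫ t in Ioi n, exp (-lam * y) * (kw lam (t - y) * |Z.D lam t ϑ|) ≤
      exp 1 * exp (-(n - j) / 2) * exp (-lam * n) * c := by
  refine le_trans ?_ (mul_le_mul_of_nonneg_left hc (by positivity))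
  rw [← integral_const_mul]
  refine setIntegral_mono ((Z.Conv_int h y ϑ).const_mul _).integrableOn
    (Integrable.const_mul ((Z.Conv_int h n ϑ).integrableOn.congr_fun (fun t ht => ?_)
      measurableSet_Ioi) _) fun t => ?_
  · simp only [Conv_kw_pos (by linarith : 0 ≤ lam) (sub_nonneg.2 (le_of_lt ht))]
  · simp only [← mul_assoc _ _ |_|]
    exact mul_le_mul_of_nonneg_right (Conv_right h.le h0 h4 h5) (abs_nonneg _)

theorem Conv_Icell {lam y i j c : ℝ} (h : 1 < lam) (h3 : j ≤ y) (h4 : y ≤ j + 1) (ϑ θ : ℝ)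
    (hc : ∫ t in i..(i + 1), |Z.D lam t ϑ - Z.D lam t θ| ≤ c) :
    ∫ t in i..(i + 1), exp (-lam * y) * (kw lam (t - y) * |Z.D lam t ϑ|) ≤
      exp 1 * exp (-|i - j|) *
        (lam * (∫ t in i..(i + 1), exp (-lam * t) * Z.rr lam t θ) + exp (-lam * i) * c) := by
  have hi : i ≤ i + 1 := by linarith only []
  have i1 : IntervalIntegrable (fun t => exp (-lam * t) * Z.rr lam t θ) volume i (i + 1) :=
    (Z.intervalIntegrable_rr lam θ _ _).continuousOn_mul (by fun_prop)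
  have i2 : IntervalIntegrable (fun t => |Z.D lam t ϑ - Z.D lam t θ|) volume i (i + 1) :=
    ((Z.Conv_ii lam ϑ _ _).sub (Z.Conv_ii lam θ _ _)).abs
  refine le_trans (intervalIntegral.integral_mono_ae_restrict hi
    ((Z.Conv_int h y ϑ).const_mul _).intervalIntegrable
    (g := fun t => exp 1 * exp (-|i - j|) * (lam * (exp (-lam * t) * Z.rr lam t θ) +
      exp (-lam * i) * |Z.D lam t ϑ - Z.D lam t θ|))
    (((i1.const_mul _).add (i2.const_mul _)).const_mul _) ?_) ?_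
  · filter_upwards [ae_restrict_of_ae Z.ae_reg, ae_restrict_mem measurableSet_Icc] with t t1 t2
    obtain ⟨r1, r2⟩ := Z.rr_nonneg lam t1 θ
    rw [← mul_assoc]
    refine (mul_le_mul_of_nonneg_right (Conv_cell h.le t2.1 t2.2 h3 h4) (abs_nonneg _)).trans ?_
    rw [mul_assoc]
    refine mul_le_mul_of_nonneg_left ?_ (by positivity)
    have a1 : |Z.D lam t ϑ| ≤ Z.rr lam t θ + |Z.D lam t ϑ - Z.D lam t θ| := by
      linarith only [r2, abs_sub_abs_le_abs_sub (Z.D lam t ϑ) (Z.D lam t θ)]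
    have a2 : exp (-lam * t) ≤ exp (-lam * i) := exp_le_exp.2 (by linarith only [t2, h, t2.1, mul_nonneg_of_nonpos_of_nonpos (le_of_lt (Mathlib.Tactic.Linarith.sub_neg_of_lt h)) (Mathlib.Tactic.Linarith.sub_nonpos_of_le t2.left)])
    refine (mul_le_mul_of_nonneg_left a1 (exp_pos _).le).trans ?_
    rw [mul_add]
    exact add_le_add (le_mul_of_one_le_left (mul_nonneg (exp_pos _).le r1) h.le)
      (mul_le_mul_of_nonneg_right a2 (abs_nonneg _))
  · rw [intervalIntegral.integral_const_mul,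
      intervalIntegral.integral_add (i1.const_mul _) (i2.const_mul _),
      intervalIntegral.integral_const_mul, intervalIntegral.integral_const_mul]
    gcongr

theorem Conv_Ssplit {f : ℕ → ℝ} (hf : ∀ a, 0 ≤ f a) (n : ℕ) {c₁ c₂ : ℝ} (h1 : 0 ≤ c₁) (h2 : 0 ≤ c₂)
    (hl : ∀ a, Z.ξ a < 0 → f a ≤ c₁ * w0 (0 - Z.ξ a))
    (hr : ∀ a, (n : ℝ) ≤ Z.ξ a → f a ≤ c₂ * w0 (n - Z.ξ a)) :
    ∑ a ∈ Z.s, f a ≤ c₁ * Z.W 0 + (∑ i ∈ Finset.range n, ∑ a ∈ Z.cell i, f a) + c₂ * Z.W n := by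
  simp only [cell, Finset.sum_filter, W, Finset.mul_sum]
  rw [Finset.sum_comm, ← Finset.sum_add_distrib, ← Finset.sum_add_distrib]
  refine Finset.sum_le_sum fun a _ => ?_
  have a1 := mul_nonneg h1 (w0_pos (0 - Z.ξ a)).le
  have a2 := mul_nonneg h2 (w0_pos (n - Z.ξ a)).le
  have a3 : ∀ i ∈ Finset.range n, 0 ≤ if (i : ℝ) ≤ Z.ξ a ∧ Z.ξ a < i + 1 then f a else 0 :=
    fun i _ => by
      split_ifs
      exacts [hf a, le_rfl]
  have a4 := Finset.sum_nonneg a3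
  rcases lt_or_ge (Z.ξ a) 0 with h | h
  · linarith [hl a h]
  · rcases lt_or_ge (Z.ξ a) n with h' | h'
    · have a5 := Finset.single_le_sum a3 (Finset.mem_range.2 ((Nat.floor_lt h).2 h'))
      rw [if_pos ⟨Nat.floor_le h, Nat.lt_floor_add_one _⟩] at a5
      linarith
    · linarith [hr a h']

theorem Conv_Scell {lam y j : ℝ} (h : 1 < lam) (h2 : lam ≤ 2) (h3 : j ≤ y) (h4 : y ≤ j + 1)
    (V : Finset ℕ) (i : ℕ) (ϑ θ : ℝ) :
    ∑ a ∈ Z.cell i, exp (-lam * y) * (kw lam (Z.ξ a - y) * Z.sz lam V a ϑ) ≤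
      exp 1 * exp (-|(i : ℝ) - j|) *
        (∑ a ∈ Z.cell i \ V, exp (-lam * Z.ξ a) * |Sg lam (Z.η a - θ)| +
          ∑ a ∈ Z.cell i ∩ V, exp (-lam * Z.ξ a) * |Z.η a - θ| +
            2 * |ϑ - θ| * ∑ a ∈ Z.cell i, exp (-lam * Z.ξ a)) := by
  rw [Finset.sdiff_eq_filter, ← Finset.filter_mem_eq_inter, Finset.sum_filter, Finset.sum_filter,
    Finset.mul_sum, ← Finset.sum_add_distrib, ← Finset.sum_add_distrib, Finset.mul_sum]
  refine Finset.sum_le_sum fun a ha => ?_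
  obtain ⟨-, a1, a2⟩ := Finset.mem_filter.1 ha
  rw [← mul_assoc]
  refine (mul_le_mul_of_nonneg_right (Conv_cell h.le a1 a2.le h3 h4)
    (Z.Conv_sz lam V a ϑ).1).trans ?_
  rw [mul_assoc]
  refine mul_le_mul_of_nonneg_left ?_ (by positivity)
  have e0 := abs_nonneg (ϑ - θ)
  have e1 : |Z.η a - ϑ - (Z.η a - θ)| = |ϑ - θ| := by
    rw [← abs_neg]
    congr 1
    ring
  unfold sz
  by_cases hV : a ∈ V
  · simp only [hV, not_true, if_true, if_false, zero_add]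
    rw [mul_comm (2 * _), ← mul_add]
    refine mul_le_mul_of_nonneg_left ((min_le_right _ _).trans ?_) (exp_pos _).le
    linarith only [e0, e1, abs_sub_abs_le_abs_sub (Z.η a - ϑ) (Z.η a - θ)]
  · simp only [hV, not_false_iff, if_true, if_false, add_zero]
    rw [mul_comm (2 * _), ← mul_add]
    refine mul_le_mul_of_nonneg_left ?_ (exp_pos _).le
    have e2 := Sg_lip h (Z.η a - ϑ) (Z.η a - θ)
    rw [e1] at e2
    have e3 := mul_le_mul_of_nonneg_right h2 e0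
    linarith only [e2, e3, abs_sub_abs_le_abs_sub (Sg lam (Z.η a - ϑ)) (Sg lam (Z.η a - θ))]

theorem Conv_arith {m d c μ x δ r gi gj u : ℝ} (hm : 0 ≤ m) (hd : 0 ≤ d) (hc : 1 ≤ c) (hμ : 0 ≤ μ)
    (hx : 0 ≤ x) (hδ : 0 ≤ δ) (hr : r ≤ x + δ) (hi : 0 ≤ gi) (hu : 0 ≤ u)
    (hg : gi ≤ exp (u / 100) * gj) :
    exp (-u) * (m + d + c * μ * r * gi) ≤
      c * (exp (-u / 2) * (m + d + μ * x * gi) + μ * δ * gj * exp (-u / 2)) := by
  have hj : 0 ≤ gj := nonneg_of_mul_nonneg_right (hi.trans hg) (exp_pos _)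
  have h1 : exp (-u) ≤ exp (-u / 2) := exp_le_exp.2 (by linarith only [hu])
  have h2 : exp (-u) * gi ≤ gj * exp (-u / 2) := by
    refine (mul_le_mul_of_nonneg_left hg (exp_pos _).le).trans ?_
    rw [← mul_assoc, ← exp_add, mul_comm]
    exact mul_le_mul_of_nonneg_left (exp_le_exp.2 (by linarith only [hu])) hj
  have h3 : m + d + c * μ * r * gi ≤ c * (m + d + μ * x * gi) + c * (μ * δ) * gi := by
    have a1 := le_mul_of_one_le_left (add_nonneg hm hd) hc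
    have a2 : c * μ * r * gi ≤ c * μ * (x + δ) * gi := by gcongr
    linarith only [a1, a2]
  have h4 : exp (-u) * (c * (m + d + μ * x * gi)) ≤ exp (-u / 2) * (c * (m + d + μ * x * gi)) :=
    mul_le_mul_of_nonneg_right h1 (by positivity)
  have h5 := mul_le_mul_of_nonneg_left h2 (show 0 ≤ c * (μ * δ) by positivity)
  refine (mul_le_mul_of_nonneg_left h3 (exp_pos _).le).trans ?_
  linarith only [h4, h5]

theorem Zl_le : ∃ C μ0 : ℝ, 1 ≤ C ∧ 0 < μ0 ∧ ∀ (Z : Cfg) (lam μ η : ℝ) (n : ℕ) (θ : ℕ → ℝ),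
    Z.Calm lam μ η n θ → μ ≤ μ0 →
    ∀ j ≤ n, ∀ y ϑ : ℝ, (j : ℝ) ≤ y → y ≤ j + 1 → y ≤ n →
      Z.Zl lam (Z.VV n θ) y ϑ ≤ C * (Z.TT lam μ n θ j + μ * |ϑ - θ j| * Z.g lam j) := by
  obtain ⟨G, G1, hG⟩ := Conv_geo
  obtain ⟨CL, L1, hL⟩ := D_left
  obtain ⟨CR, R1, hR⟩ := D_right
  obtain ⟨Cl, l1, hl⟩ := D_lip
  obtain ⟨μ₁, m1, hs⟩ := slow
  obtain ⟨CB, μ₂, B1, m2, hB⟩ := B_calm
  obtain ⟨c, hc⟩ : ∃ c, c = 2 * exp 2 * Cl + 2 * CB := ⟨_, rfl⟩
  have c1 : 1 ≤ c := by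
    have : 0 ≤ 2 * exp 2 * Cl := by positivity
    linarith only [B1, hc, this]
  have e1 : 1 ≤ exp (1 : ℝ) := one_le_exp zero_le_one
  have p1 : 0 ≤ exp 1 * c * G := by positivity
  have p2 : 0 ≤ exp 1 * (CR + 1) := by positivity
  refine ⟨exp 1 * c * G + (CL + 1) + exp 1 * (CR + 1), min μ₁ μ₂, by linarith only [L1, p1, p2], lt_min m1 m2,
    fun Z lam μ η n θ h hμ j hj y ϑ y1 y2 y3 => ?_⟩
  have l1 := h.lam1
  have l2 := h.lam2
  have μ0 := h.mu_pos
  have hs' := hs Z lam μ η n θ h (hμ.trans (min_le_left _ _))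
  have hB' := hB Z lam μ η n θ h (hμ.trans (min_le_right _ _))
  have hjn : (j : ℝ) ≤ n := Nat.cast_le.2 hj
  have j0 : (0 : ℝ) ≤ j := Nat.cast_nonneg j
  have g0 := (h.g_pos (Nat.zero_le n)).le
  have gn := (h.g_pos le_rfl).le
  have gj := (h.g_pos hj).le
  have W0 := Z.W_nonneg 0
  have Wn := Z.W_nonneg n
  have A0 : Z.A 0 = Z.g lam 0 := by simpa using Z.A_eq lam 0
  have E0 : Z.EE lam 0 = (lam - 1) * Z.g lam 0 + Z.W 0 := by simp [EE, Wh]
  have En : Z.EE lam n = exp (-lam * n) * ((lam - 1) * Z.A n + Z.W n) := by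
    rw [EE, Wh, Z.A_eq lam n, mul_add, mul_left_comm, ← mul_assoc (exp _), ← exp_add]
    simp
  have i1 := Z.Conv_Ileft l1 j0 y1 ϑ (hL Z lam 0 ϑ l1 l2)
  have i2 := Z.Conv_Iright l1 hjn y2 y3 ϑ (hR Z lam n ϑ l1 l2)
  have s1 := Z.Conv_Ssplit
    (f := fun a => exp (-lam * y) * (kw lam (Z.ξ a - y) * Z.sz lam (Z.VV n θ) a ϑ))
    (fun a => mul_nonneg (exp_pos _).le (mul_nonneg (kw_pos _ _).le (Z.Conv_sz _ _ _ _).1)) n
    (c₁ := exp (-(j : ℝ) / 2)) (c₂ := exp 1 * exp (-((n : ℝ) - j) / 2) * exp (-lam * n))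
    (exp_pos _).le (by positivity)
    (fun a ha => by
      rw [← mul_assoc]
      refine (mul_le_of_le_one_right (mul_nonneg (exp_pos _).le (kw_pos _ _).le)
        (Z.Conv_sz _ _ _ _).2).trans ((Conv_left l1.le j0 y1).trans ?_)
      refine mul_le_mul_of_nonneg_left ?_ (exp_pos _).le
      rw [w0_of_nonneg (by linarith only [ha])]
      refine (exp_le_one_iff.2 ?_).trans (by linarith only [ha])
      linarith only [ha, l1, mul_pos_of_neg_of_neg (Mathlib.Tactic.Linarith.sub_neg_of_lt l1) (Mathlib.Tactic.Linarith.sub_neg_of_lt ha)])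
    (fun a ha => by
      rw [← mul_assoc]
      refine (mul_le_of_le_one_right (mul_nonneg (exp_pos _).le (kw_pos _ _).le)
        (Z.Conv_sz _ _ _ _).2).trans ((Conv_right l1.le hjn y2 y3).trans ?_)
      refine mul_le_mul_of_nonneg_left ?_ (by positivity)
      rw [w0_of_nonpos (by linarith only [ha]), exp_le_exp]
      linarith only [l1, ha, mul_nonneg_of_nonpos_of_nonpos (le_of_lt (Mathlib.Tactic.Linarith.sub_neg_of_lt l1)) (Mathlib.Tactic.Linarith.sub_nonpos_of_le ha)])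
  have cell : ∀ i ∈ Finset.range n,
      (∫ t in (i : ℝ)..(i + 1), exp (-lam * y) * (kw lam (t - y) * |Z.D lam t ϑ|)) +
        ∑ a ∈ Z.cell i, exp (-lam * y) * (kw lam (Z.ξ a - y) * Z.sz lam (Z.VV n θ) a ϑ) ≤
      exp 1 * (c * (exp (-|(i : ℝ) - j| / 2) *
        (Z.mm lam n θ i + Z.dd lam n θ i + μ * |θ i - θ j| * Z.g lam i) +
          μ * |ϑ - θ j| * Z.g lam j * exp (-|(i : ℝ) - j| / 2))) := by
    intro i hi
    rw [Finset.mem_range] at hi
    have gi := (h.g_pos hi.le).le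
    have a0 := abs_nonneg (ϑ - θ i)
    have a1 := hl Z lam (i + 1) ϑ (θ i) l1 l2
    rw [add_sub_cancel_right] at a1
    have a2 := Z.Conv_Icell l1 y1 y2 ϑ (θ i) a1
    have a3 := Z.Conv_Scell l1 (by linarith only [l1, l2]) y1 y2 (Z.VV n θ) i ϑ (θ i)
    have a4 := (hB' i hi.le).2.2.2
    have a5 : exp (-lam * i) * ((lam - 1) * Z.A (i + 1) + Z.W (i + 1)) ≤
        2 * exp 2 * (μ * Z.g lam i) := by
      have b1 := h.calm (i + 1) hi
      have b2 := Z.A_eq lam (i + 1)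
      have b3 := hs' (i + 1) hi i hi.le
      have b4 := (h.g_pos (k := i + 1) hi).le
      rw [Nat.cast_add, Nat.cast_one] at b1 b2 b3
      rw [add_sub_cancel_left, abs_one] at b3
      have b5 : 0 ≤ Z.A (i + 1) := b2 ▸ mul_nonneg (exp_pos _).le b4
      have b6 : (lam - 1) * Z.A (i + 1) + Z.W (i + 1) ≤ 2 * μ * Z.A (i + 1) := by
        linarith only [b1, h, b5, mul_le_mul_of_nonneg_right h.le_mu b5]
      have b7 : exp (-lam * i) * Z.A (i + 1) ≤ exp 2 * Z.g lam i := by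
        rw [b2, ← mul_assoc, ← exp_add]
        refine (mul_le_mul_of_nonneg_left b3 (exp_pos _).le).trans ?_
        rw [← mul_assoc, ← exp_add]
        exact mul_le_mul_of_nonneg_right (exp_le_exp.2 (by linarith only [l1, l2])) gi
      refine (mul_le_mul_of_nonneg_left b6 (exp_pos _).le).trans ?_
      linarith only [b7, μ0, mul_le_mul_of_nonneg_left b7 (show 0 ≤ 2 * μ by positivity)]
    have a6 := Conv_arith (Z.mm_nonneg (by linarith only [l1, l2] : 0 ≤ lam) n θ i).1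
      (Z.mm_nonneg (by linarith only [l1, l2] : 0 ≤ lam) n θ i).2.2 c1 μ0.le (abs_nonneg (θ i - θ j))
      (abs_nonneg (ϑ - θ j)) (r := |ϑ - θ i|) (by
        rw [add_comm, abs_sub_comm (θ i)]
        exact abs_sub_le _ _ _) gi (abs_nonneg ((i : ℝ) - j)) (hs' i hi.le j hj)
    refine (add_le_add a2 a3).trans (le_trans ?_ (mul_le_mul_of_nonneg_left a6 (exp_pos _).le))
    rw [← mul_add, mul_assoc]
    refine mul_le_mul_of_nonneg_left (mul_le_mul_of_nonneg_left ?_ (exp_pos _).le) (exp_pos _).le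
    have a7 := mul_le_mul_of_nonneg_left a5 (show 0 ≤ Cl * |ϑ - θ i| by positivity)
    have a8 := mul_le_mul_of_nonneg_left a4 (show 0 ≤ 2 * |ϑ - θ i| by positivity)
    rw [mm, dd, hc]
    linarith only [a7, a8]
  have sum := Finset.sum_le_sum cell
  rw [Finset.sum_add_distrib, ← Finset.mul_sum, ← Finset.mul_sum, Finset.sum_add_distrib,
    ← Finset.mul_sum] at sum
  have T0 : 0 ≤ ∑ i ∈ Finset.range n, exp (-|(i : ℝ) - j| / 2) *
      (Z.mm lam n θ i + Z.dd lam n θ i + μ * |θ i - θ j| * Z.g lam i) :=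
    Finset.sum_nonneg fun i hi => by
      have := (h.g_pos (Finset.mem_range.1 hi).le).le
      have := (Z.mm_nonneg (by linarith only [l1, l2] : 0 ≤ lam) n θ i).1
      have := (Z.mm_nonneg (by linarith only [l1, l2] : 0 ≤ lam) n θ i).2.2
      positivity
  rw [Zl, mul_add, ← integral_const_mul, Finset.mul_sum,
    Conv_split ((Z.Conv_int l1 y ϑ).const_mul _) n, TT]
  have d0 : 0 ≤ μ * |ϑ - θ j| * Z.g lam j := by positivity
  have f1 := mul_le_mul_of_nonneg_left (hG n j) d0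
  have f2 : exp (-(j : ℝ) / 2) * (CL * (lam - 1) * (Z.A 0 + Z.W 0)) + exp (-(j : ℝ) / 2) * Z.W 0 ≤
      (CL + 1) * (exp (-(j : ℝ) / 2) * Z.EE lam 0) := by
    rw [← mul_add, mul_left_comm, A0, E0]
    refine mul_le_mul_of_nonneg_left ?_ (exp_pos _).le
    have b1 : 0 ≤ (lam - 1) * Z.g lam 0 := mul_nonneg (by linarith only [l1]) g0
    have b2 : CL * ((lam - 1) * Z.W 0) ≤ CL * Z.W 0 :=
      mul_le_mul_of_nonneg_left (mul_le_of_le_one_left W0 (by linarith only [l1, l2])) (by linarith only [L1, l1, l2])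
    linarith only [b1, b2]
  have f3 : exp 1 * exp (-((n : ℝ) - j) / 2) * exp (-lam * n) * (CR * ((lam - 1) * Z.A n + Z.W n)) +
      exp 1 * exp (-((n : ℝ) - j) / 2) * exp (-lam * n) * Z.W n ≤
      exp 1 * (CR + 1) * (exp (-((n : ℝ) - j) / 2) * Z.EE lam n) := by
    have b1 : 0 ≤ (lam - 1) * Z.A n :=
      mul_nonneg (by linarith only [l1]) (Z.A_eq lam n ▸ mul_nonneg (exp_pos _).le gn)
    have b2 := mul_nonneg (show 0 ≤ exp 1 * exp (-((n : ℝ) - j) / 2) * exp (-lam * n) by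
      positivity) b1
    rw [En]
    linarith only [b2]
  have f4 := mul_nonneg (exp_pos (-(j : ℝ) / 2)).le (Z.EE_nonneg l1.le 0)
  have f5 := mul_nonneg (exp_pos (-((n : ℝ) - j) / 2)).le (Z.EE_nonneg l1.le n)
  generalize ∑ i ∈ Finset.range n, exp (-|(i : ℝ) - j| / 2) *
      (Z.mm lam n θ i + Z.dd lam n θ i + μ * |θ i - θ j| * Z.g lam i) = T at T0 sum ⊢
  generalize exp (-(j : ℝ) / 2) * Z.EE lam 0 = X at f2 f4 ⊢
  generalize exp (-((n : ℝ) - j) / 2) * Z.EE lam n = Y at f3 f5 ⊢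
  generalize μ * |ϑ - θ j| * Z.g lam j = d at d0 f1 sum ⊢
  have q1 : exp 1 * (c * (T + d * ∑ i ∈ Finset.range n, exp (-|(i : ℝ) - j| / 2))) ≤
      exp 1 * c * G * (T + X + Y + d) := by
    rw [mul_assoc, mul_assoc]
    refine mul_le_mul_of_nonneg_left (mul_le_mul_of_nonneg_left ?_ (by linarith only [c1, l1, l2])) (exp_pos _).le
    have b1 := le_mul_of_one_le_left (add_nonneg (add_nonneg T0 f4) f5) G1
    linarith only [f4, f5, f1, b1]
  have q2 : (CL + 1) * X ≤ (CL + 1) * (T + X + Y + d) :=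
    mul_le_mul_of_nonneg_left (by linarith only [T0, f5, d0]) (by linarith only [L1, l1, l2])
  have q3 : exp 1 * (CR + 1) * Y ≤ exp 1 * (CR + 1) * (T + X + Y + d) :=
    mul_le_mul_of_nonneg_left (by linarith only [T0, f4, d0]) p2
  linarith only [i1, i2, s1, f2, f3, sum, q1, q2, q3]

end Cfg

end

end Pool.Agent.MinMod
end

-- merged part: Pool.Agent.Work.MP_f62247_an.CalmN
section
/-!
# Frames

`Nf y θ = Np y θ - a Im (cc y e^(iθ))`, `a = 2 lam sin h / (lam-1) e^(-(lam-1) y)`, `4 ≤ 2 lam sin h / (lam - 1) ≤ 8` (`ha_sin`).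
* `exists_zero`: write `cc y e^(iθ') = -‖cc y‖ e^(iβ)`, `|β| ≤ 2 d`; then `-Im (cc y e^(iθ)) = ‖cc y‖ sin (θ - θ' + β)`; at
  `θ - θ' + β = ± C μ` the sign of `Nf` is that of the main part (`Np_le`); `Nf` is continuous in `θ`; intermediate values.
* `exists_frames`: recursion; `cc (k+1) e^(iθ k)` is within `C μ ‖cc‖` of `-‖cc (k+1)‖` (`norm_cc_step`).
* `Nf_local`: `Nf x θ - Nf k θ = -lam ∫_k^x e^(-lam t) D + ∑_{k ≤ ξ < x} e^(-lam ξ) 2π Sg`, `|D| ≤ rr`, `abs_Sg_le`; `frame`.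
  For the step: between `θ k` and `θ (k+1)` the main part of `Nf (k+1)` has derivative `≥ 3 g (k+1)` (`dir`, `step`), `Np` is `C μ g`-Lipschitz.
-/

open Real MeasureTheory Set Filter Topology

namespace Pool.Agent.MinMod

noncomputable section

theorem CalmN_pi : (1 : ℝ) / 2 ≤ 2 / π := by
  rw [div_le_div_iff₀ two_pos pi_pos]
  linarith [pi_le_four]

/-- Polar form around the direction where `c e^(iθ)` is negative. -/
theorem CalmN_pol {c : ℂ} (hc : 0 < ‖c‖) {θ' d : ℝ}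
    (h : ‖c * Complex.exp (θ' * Complex.I) + (‖c‖ : ℂ)‖ ≤ d * ‖c‖) :
    ∃ θ₀ : ℝ, |θ' - θ₀| ≤ 2 * d ∧ ∀ θ : ℝ, c * Complex.exp (θ * Complex.I) =
      -(‖c‖ * Complex.exp ((θ - θ₀ : ℝ) * Complex.I)) := by
  set u := -(c * Complex.exp (θ' * Complex.I)) with hu
  have hn : ‖u‖ = ‖c‖ := by rw [hu, norm_neg, norm_mul, Complex.norm_exp_ofReal_mul_I, mul_one]
  have e := Complex.norm_mul_exp_arg_mul_I u
  rw [hn] at e
  refine ⟨θ' - u.arg, ?_, fun θ => ?_⟩
  · rw [sub_sub_cancel]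
    have e1 : c * Complex.exp (θ' * Complex.I) + (‖c‖ : ℂ) =
        -(‖c‖ * (Complex.exp (Complex.I * u.arg) - 1)) := by
      rw [mul_comm Complex.I, mul_sub, e, hu]
      ring
    rw [e1, norm_neg, norm_mul, Complex.norm_real, norm_norm,
      Complex.norm_exp_I_mul_ofReal_sub_one, mul_comm d, mul_le_mul_iff_right₀ hc, norm_mul,
      Real.norm_eq_abs, Real.norm_eq_abs, abs_two] at h
    have h1 := Real.mul_abs_le_abs_sin (x := u.arg / 2) (by
      rw [abs_div, abs_two]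
      linarith only [Complex.abs_arg_le_pi u])
    rw [abs_div, abs_two] at h1
    linarith only [h, h1, CalmN_pi, abs_nonneg u.arg, mul_nonneg_of_nonpos_of_nonpos (Mathlib.Tactic.Linarith.sub_nonpos_of_le CalmN_pi) (Mathlib.Tactic.Linarith.sub_nonpos_of_le (abs_nonneg u.arg))]
  · have e2 : ((θ - (θ' - u.arg) : ℝ) : ℂ) * Complex.I =
        u.arg * Complex.I + (θ * Complex.I - θ' * Complex.I) := by
      push_cast
      ring
    rw [e2, Complex.exp_add, ← mul_assoc, e, hu, Complex.exp_sub]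
    field_simp

theorem CalmN_sin {u v : ℝ} (hu : |u| ≤ 1) (hv : |v| ≤ 1) : |u - v| / 4 ≤ |sin u - sin v| := by
  rw [abs_le] at hu hv
  have h1 := Real.mul_abs_le_abs_sin (x := (u - v) / 2) (by
    rw [abs_le]
    constructor <;> linarith only [hu, hv, pi_gt_three])
  have h2 : 1 / 2 ≤ cos ((u + v) / 2) := by
    linarith only [hu, hv, Real.one_sub_sq_div_two_le_cos (x := (u + v) / 2), mul_nonneg_of_nonpos_of_nonpos (Mathlib.Tactic.Linarith.sub_nonpos_of_le hu.left) (Mathlib.Tactic.Linarith.sub_nonpos_of_le hu.right), mul_nonneg_of_nonpos_of_nonpos (Mathlib.Tactic.Linarith.sub_nonpos_of_le hu.left) (Mathlib.Tactic.Linarith.sub_nonpos_of_le hv.right), mul_nonneg_of_nonpos_of_nonpos (Mathlib.Tactic.Linarith.sub_nonpos_of_le hu.right) (Mathlib.Tactic.Linarith.sub_nonpos_of_le hv.left), mul_nonneg_of_nonpos_of_nonpos (Mathlib.Tactic.Linarith.sub_nonpos_of_le hv.left) (Mathlib.Tactic.Linarith.sub_nonpos_of_le hv.right)]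
  rw [abs_div, abs_two] at h1
  rw [sin_sub_sin, abs_mul, abs_mul, abs_two, abs_of_nonneg (show 0 ≤ cos ((u + v) / 2) by linarith only [h2])]
  have h3 : |u - v| / 4 ≤ |sin ((u - v) / 2)| := by linarith only [h1, CalmN_pi, abs_nonneg (u - v), mul_nonneg_of_nonpos_of_nonpos (Mathlib.Tactic.Linarith.sub_nonpos_of_le CalmN_pi) (Mathlib.Tactic.Linarith.sub_nonpos_of_le (abs_nonneg (u - v)))]
  linarith only [h3, h2, abs_nonneg (sin ((u - v) / 2)), mul_nonneg_of_nonpos_of_nonpos (Mathlib.Tactic.Linarith.sub_nonpos_of_le h2) (Mathlib.Tactic.Linarith.sub_nonpos_of_le (abs_nonneg (sin ((u - v) / (2 : ℝ)))))]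

theorem CalmN_rec {P : ℕ → ℝ → Prop} {R : ℝ → ℝ → Prop} (n : ℕ) (h0 : ∃ x, P 0 x)
    (hs : ∀ k < n, ∀ x, P k x → ∃ y, P (k + 1) y ∧ R x y) :
    ∃ θ : ℕ → ℝ, (∀ k ≤ n, P k (θ k)) ∧ ∀ k < n, R (θ k) (θ (k + 1)) := by
  choose! f hf using hs
  obtain ⟨x, hx⟩ := h0
  let θ : ℕ → ℝ := fun k => Nat.rec x (fun k y => f k y) k
  have h : ∀ k ≤ n, P k (θ k) := fun k hk => by
    induction k with
    | zero => exact hx
    | succ k ih => exact (hf k hk _ (ih (Nat.le_of_succ_le hk))).1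
  exact ⟨θ, h, fun k hk => (hf k hk _ (h k hk.le)).2⟩

namespace Cfg

theorem CalmN_main (Z : Cfg) {lam : ℝ} (h1 : 1 < lam) (h2 : lam ≤ 11 / 10) {y θ₀ : ℝ}
    (h : ∀ θ : ℝ, Z.cc y * Complex.exp (θ * Complex.I) =
      -(‖Z.cc y‖ * Complex.exp ((θ - θ₀ : ℝ) * Complex.I))) :
    ∃ a : ℝ, 4 ≤ a ∧ ∀ θ, Z.Nf lam y θ =
      Z.Np lam y θ + a * (‖Z.cc y‖ * exp (-(lam - 1) * y)) * sin (θ - θ₀) := by
  refine ⟨2 * lam * sin (π / lam) / (lam - 1), ?_, fun θ => ?_⟩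
  · rw [le_div_iff₀ (sub_pos.2 h1)]
    linarith only [h1, h2, (ha_sin h1.le h2).1]
  · rw [Np, h, Complex.neg_im, Complex.im_ofReal_mul, Complex.exp_ofReal_mul_I_im]
    ring

theorem CalmN_W (Z : Cfg) (lam : ℝ) {μ y : ℝ} (h : Z.W y ≤ μ * Z.A y) :
    exp (-lam * y) * Z.W y ≤ μ * (‖Z.cc y‖ * exp (-(lam - 1) * y)) := by
  refine (mul_le_mul_of_nonneg_left h (exp_pos _).le).trans_eq ?_
  rw [A, show -(lam - 1) * y = -lam * y + y by ring, exp_add]
  ring

theorem exists_zero : ∃ C μ0 : ℝ, 1 ≤ C ∧ 0 < μ0 ∧ ∀ (Z : Cfg) (lam μ y θ' d : ℝ), 1 < lam →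
    lam ≤ 11 / 10 → 0 < μ → μ ≤ μ0 → 0 < ‖Z.cc y‖ → Z.W y ≤ μ * Z.A y → 0 ≤ d → d ≤ 1 →
    ‖Z.cc y * Complex.exp (θ' * Complex.I) + (‖Z.cc y‖ : ℂ)‖ ≤ d * ‖Z.cc y‖ →
    ∃ θ : ℝ, Z.Nf lam y θ = 0 ∧ |θ - θ'| ≤ 2 * d + C * μ ∧
      ‖Z.cc y * Complex.exp (θ * Complex.I) + (‖Z.cc y‖ : ℂ)‖ ≤ C * μ * ‖Z.cc y‖ := by
  obtain ⟨C, hC, hN⟩ := Np_le
  refine ⟨C, 1 / C, hC, by positivity, fun Z lam μ y θ' d h1 h2 m0 m1 hc hW _ _ hd => ?_⟩
  obtain ⟨θ₀, t1, t2⟩ := CalmN_pol hc hd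
  obtain ⟨a, a4, ha⟩ := Z.CalmN_main h1 h2 t2
  have hW' := Z.CalmN_W lam hW
  have hg : 0 < ‖Z.cc y‖ * exp (-(lam - 1) * y) := mul_pos hc (exp_pos _)
  generalize ‖Z.cc y‖ * exp (-(lam - 1) * y) = g at ha hW' hg
  have d0 : 0 < C * μ := by positivity
  have d1 : C * μ ≤ 1 := by rwa [le_div_iff₀' (by positivity)] at m1
  have hb : ∀ θ, |Z.Np lam y θ| ≤ C * μ * g := fun θ => ((hN Z lam y θ θ h1 h2).1.trans
    (mul_le_mul_of_nonneg_left hW' (by positivity))).trans_eq (mul_assoc _ _ _).symm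
  have hs : C * μ * g ≤ a * g * sin (C * μ) := by
    have s1 := Real.mul_le_sin d0.le (by linarith only [h1, h2, d1, pi_gt_three])
    have s2 : C * μ / 2 ≤ sin (C * μ) := by (refine le_of_not_gt fun h_nl => ?_; linarith only [h_nl, s1, h1, h2, d0, CalmN_pi, mul_pos_of_neg_of_neg (Mathlib.Tactic.Linarith.sub_neg_of_lt h1) (Mathlib.Tactic.Linarith.sub_neg_of_lt h_nl), mul_nonneg_of_nonpos_of_nonpos (Mathlib.Tactic.Linarith.sub_nonpos_of_le h2) (le_of_lt (Mathlib.Tactic.Linarith.sub_neg_of_lt h_nl)), mul_nonneg_of_nonpos_of_nonpos (le_of_lt (Mathlib.Tactic.Linarith.sub_neg_of_lt d0)) (Mathlib.Tactic.Linarith.sub_nonpos_of_le CalmN_pi)])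
    have s3 : C * μ ≤ a * sin (C * μ) := by (refine le_of_not_gt fun h_nl => ?_; linarith only [h_nl, s2, hC, m0, h1, h2, a4, d0, mul_nonneg_of_nonpos_of_nonpos (Mathlib.Tactic.Linarith.sub_nonpos_of_le hC) (le_of_lt (Mathlib.Tactic.Linarith.sub_neg_of_lt m0)), mul_pos_of_neg_of_neg (Mathlib.Tactic.Linarith.sub_neg_of_lt h1) (Mathlib.Tactic.Linarith.sub_neg_of_lt m0), mul_pos_of_neg_of_neg (Mathlib.Tactic.Linarith.sub_neg_of_lt h1) (Mathlib.Tactic.Linarith.sub_neg_of_lt h_nl), mul_nonneg_of_nonpos_of_nonpos (Mathlib.Tactic.Linarith.sub_nonpos_of_le h2) (le_of_lt (Mathlib.Tactic.Linarith.sub_neg_of_lt m0)), mul_nonneg_of_nonpos_of_nonpos (Mathlib.Tactic.Linarith.sub_nonpos_of_le h2) (le_of_lt (Mathlib.Tactic.Linarith.sub_neg_of_lt h_nl)), mul_nonneg_of_nonpos_of_nonpos (Mathlib.Tactic.Linarith.sub_nonpos_of_le a4) (le_of_lt (Mathlib.Tactic.Linarith.sub_neg_of_lt d0)), mul_nonneg_of_nonpos_of_nonpos (Mathlib.Tactic.Linarith.sub_nonpos_of_le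 a4) (Mathlib.Tactic.Linarith.sub_nonpos_of_le s2)])
    (refine le_of_not_gt fun h_nl => ?_; linarith only [h_nl, h1, h2, hg, s3, mul_pos_of_neg_of_neg (Mathlib.Tactic.Linarith.sub_neg_of_lt h1) (Mathlib.Tactic.Linarith.sub_neg_of_lt h_nl), mul_nonneg_of_nonpos_of_nonpos (Mathlib.Tactic.Linarith.sub_nonpos_of_le h2) (le_of_lt (Mathlib.Tactic.Linarith.sub_neg_of_lt h_nl)), mul_nonneg_of_nonpos_of_nonpos (le_of_lt (Mathlib.Tactic.Linarith.sub_neg_of_lt hg)) (Mathlib.Tactic.Linarith.sub_nonpos_of_le s3)])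
  have hcont : Continuous (Z.Nf lam y) := by
    rw [show Z.Nf lam y = _ from funext ha]
    refine Continuous.add ?_ (by fun_prop)
    refine (LipschitzWith.of_dist_le' (K := C * (exp (-lam * y) * Z.W y)) fun θ φ => ?_).continuous
    rw [Real.dist_eq, Real.dist_eq, mul_right_comm]
    exact (hN Z lam y θ φ h1 h2).2
  obtain ⟨θ, t3, t4⟩ := intermediate_value_Icc (show θ₀ - C * μ ≤ θ₀ + C * μ by linarith only [d0])
    hcont.continuousOn (show (0 : ℝ) ∈ Icc _ _ from ⟨by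
      rw [ha, sub_sub_cancel_left, sin_neg]
      linarith only [hs, hb, (abs_le.1 (hb (θ₀ - C * μ))).2], by
      rw [ha, add_sub_cancel_left]
      linarith only [hs, hb, (abs_le.1 (hb (θ₀ + C * μ))).1]⟩)
  have t5 : |θ - θ₀| ≤ C * μ := abs_le.2 ⟨by linarith [t3.1], by linarith only [t3, t3.2]⟩
  refine ⟨θ, t4, ?_, ?_⟩
  · linarith only [t1, t5, abs_sub_le θ θ₀ θ', abs_sub_comm θ₀ θ']
  · rw [t2, show ∀ p q : ℂ, -(p * q) + p = -(p * (q - 1)) from fun p q => by ring, norm_neg,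
      norm_mul, Complex.norm_real, norm_norm, mul_comm, mul_comm _ Complex.I]
    exact mul_le_mul_of_nonneg_right (Real.norm_exp_I_mul_ofReal_sub_one_le.trans t5) hc.le

theorem exists_frames : ∃ C μ0 : ℝ, 1 ≤ C ∧ 0 < μ0 ∧ ∀ (Z : Cfg) (lam μ : ℝ) (n : ℕ), 1 < lam →
    lam ≤ 11 / 10 → 0 < μ → μ ≤ μ0 → 0 < ‖Z.cc 0‖ → (∀ k ≤ n, Z.W k ≤ μ * Z.A k) →
    ∃ θ : ℕ → ℝ, (∀ k ≤ n, 0 < ‖Z.cc k‖ ∧ Z.Nf lam k (θ k) = 0 ∧
      ‖Z.cc k * Complex.exp (θ k * Complex.I) + (‖Z.cc k‖ : ℂ)‖ ≤ C * μ * ‖Z.cc k‖) ∧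
      ∀ k < n, |θ (k + 1) - θ k| ≤ C * μ := by
  obtain ⟨C, μ0, hC, h0, hz⟩ := exists_zero
  refine ⟨72 + 5 * C, min μ0 (1 / (36 + 2 * C)), by linarith, by positivity,
    fun Z lam μ n h1 h2 m0 m1 hc hW => ?_⟩
  obtain ⟨m1, m2⟩ := le_min_iff.1 m1
  rw [le_div_iff₀ (by positivity)] at m2
  refine (CalmN_rec (P := fun k x => 0 < ‖Z.cc k‖ ∧ Z.Nf lam k x = 0 ∧
      ‖Z.cc k * Complex.exp (x * Complex.I) + (‖Z.cc k‖ : ℂ)‖ ≤ C * μ * ‖Z.cc k‖)
    (R := fun x y => |y - x| ≤ (72 + 5 * C) * μ) n ?_ ?_).imp ?_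
  rotate_right
  · rintro θ ⟨t1, t2⟩
    refine ⟨fun k hk => ⟨(t1 k hk).1, (t1 k hk).2.1, (t1 k hk).2.2.trans ?_⟩, t2⟩
    gcongr
    linarith only [hC, h1, h2]
  · have hc' : 0 < ‖Z.cc (0 : ℕ)‖ := by rwa [Nat.cast_zero]
    obtain ⟨θ₀, -, e⟩ := CalmN_pol (θ' := 0) (d := 2) hc' ((norm_add_le _ _).trans_eq (by
      rw [norm_mul, Complex.norm_exp_ofReal_mul_I, Complex.norm_real, norm_norm]
      ring))
    obtain ⟨x, x1, -, x2⟩ := hz Z lam μ _ θ₀ 0 h1 h2 m0 m1 hc' (hW 0 n.zero_le) le_rfl zero_le_one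
      (by rw [e]; simp)
    exact ⟨x, hc', x1, x2⟩
  · rintro k hk x ⟨p1, -, p2⟩
    have e1 := Z.norm_cc_step (y := k) (y' := (k + 1 : ℕ)) (by simp) (by simp)
    have e2 : exp 2 ≤ 9 := by
      rw [show (2 : ℝ) = 1 + 1 by norm_num, exp_add]
      (refine le_of_not_gt fun h_nl => ?_; linarith only [h_nl, h1, h2, exp_one_lt_three, exp_pos 1, mul_pos_of_neg_of_neg (Mathlib.Tactic.Linarith.sub_neg_of_lt h1) (Mathlib.Tactic.Linarith.sub_neg_of_lt h_nl), mul_pos_of_neg_of_neg (Mathlib.Tactic.Linarith.sub_neg_of_lt h1) (Mathlib.Tactic.Linarith.sub_neg_of_lt exp_one_lt_three), mul_nonneg_of_nonpos_of_nonpos (Mathlib.Tactic.Linarith.sub_nonpos_of_le h2) (le_of_lt (Mathlib.Tactic.Linarith.sub_neg_of_lt h_nl)), mul_nonneg_of_nonpos_of_nonpos (Mathlib.Tactic.Linarith.sub_nonpos_of_le h2) (le_of_lt (Mathlib.Tactic.Linarith.sub_neg_of_lt exp_one_lt_three)), mul_pos_of_neg_of_neg (Mathlib.Tactic.Linarith.sub_neg_of_lt exp_one_lt_three)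 (Mathlib.Tactic.Linarith.sub_neg_of_lt (exp_pos (1 : ℝ)))])
    have e3 : ‖Z.cc (k + 1 : ℕ) - Z.cc k‖ ≤ 9 * μ * ‖Z.cc k‖ := by
      refine le_of_mul_le_mul_right (e1.trans ?_) (exp_pos _)
      refine (mul_le_mul e2 (hW k hk.le) (Z.W_nonneg _) (by norm_num)).trans_eq ?_
      rw [A]
      ring
    have hW' := hW (k + 1) hk
    generalize Z.cc k = c at p1 p2 e3
    have e4 := abs_le.1 ((abs_norm_sub_norm_le _ _).trans e3)
    have e5 : 9 * μ * ‖c‖ ≤ ‖c‖ / 2 := by linarith only [p1, hC, e4, m2, mul_pos m0 p1, mul_nonneg_of_nonpos_of_nonpos (Mathlib.Tactic.Linarith.sub_nonpos_of_le hC) (Mathlib.Tactic.Linarith.sub_nonpos_of_le e4.left), mul_nonneg_of_nonpos_of_nonpos (Mathlib.Tactic.Linarith.sub_nonpos_of_le hC) (Mathlib.Tactic.Linarith.sub_nonpos_of_le e4.right), mul_nonneg_of_nonpos_of_nonpos (Mathlib.Tactic.Linarith.sub_nonpos_of_le m2) (le_of_lt (Mathlib.Tactic.Linarith.sub_neg_of_lt p1))]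
    have p3 : 0 < ‖Z.cc (k + 1 : ℕ)‖ := by linarith only [p1, e4, e5, e4.1]
    have e6 : ‖Z.cc (k + 1 : ℕ) * Complex.exp (x * Complex.I) + (‖Z.cc (k + 1 : ℕ)‖ : ℂ)‖ ≤
        μ * (36 + 2 * C) * ‖Z.cc (k + 1 : ℕ)‖ := by
      generalize Z.cc (k + 1 : ℕ) = c' at e3 e4
      rw [show c' * Complex.exp (x * Complex.I) + (‖c'‖ : ℂ) = (c' - c) * Complex.exp (x * Complex.I) +
        (c * Complex.exp (x * Complex.I) + (‖c‖ : ℂ)) + ((‖c'‖ - ‖c‖ : ℝ) : ℂ) by push_cast; ring]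
      refine (norm_add₃_le.trans (add_le_add (add_le_add (le_of_eq (norm_mul _ _)) p2)
        ((Complex.norm_real _).trans_le (abs_le.2 e4)))).trans ?_
      rw [Complex.norm_exp_ofReal_mul_I]
      have e7 : μ * (18 + C) * ‖c‖ ≤ μ * (18 + C) * (2 * ‖c'‖) := by
        gcongr
        linarith only [e5, e4, e4.1]
      linarith only [e3, e7]
    obtain ⟨y, y1, y2, y3⟩ := hz Z lam μ _ x _ h1 h2 m0 m1 p3 hW' (by positivity) m2 e6
    exact ⟨y, ⟨p3, y1, y3⟩, y2.trans_eq (by ring)⟩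

theorem CalmN_int (Z : Cfg) {lam : ℝ} (h : 1 < lam) (y θ : ℝ) :
    IntegrableOn (fun t => exp (-lam * t) * Z.D lam t θ) (Ioi y) := by
  rw [← integrable_indicator_iff measurableSet_Ioi]
  refine ((wt_Ioi (by linarith) y).int_D h Z θ).congr (Eventually.of_forall fun t => ?_)
  exact (Set.indicator_mul_left (Ioi y) (fun t => exp (-lam * t)) fun t => Z.D lam t θ).symm

theorem CalmN_loc {Z : Cfg} {lam μ η : ℝ} {n : ℕ} {θ : ℕ → ℝ} (h : Z.Calm lam μ η n θ) {k : ℕ}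
    (hk : k ≤ n) {x : ℝ} (hx : x ∈ Icc (k : ℝ) (k + 1)) :
    |Z.Nf lam x (θ k)| ≤ 9 * (Z.mm lam n θ k + Z.dd lam n θ k) := by
  have l0 : 0 < lam := one_pos.trans h.lam1
  have hi := Z.CalmN_int h.lam1 k (θ k)
  have e1 := intervalIntegral.integral_Ioi_sub_Ioi hi hx.1
  have hr : ∀ a b, IntervalIntegrable (fun t => exp (-lam * t) * Z.rr lam t (θ k)) volume a b :=
    fun a b => (Z.intervalIntegrable_rr lam (θ k) a b).continuousOn_mul (by fun_prop)
  have h0 : ∀ᵐ t, 0 ≤ exp (-lam * t) * Z.rr lam t (θ k) :=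
    Z.ae_reg.mono fun t ht => mul_nonneg (exp_pos _).le (Z.rr_nonneg lam ht _).1
  have b1 : |∫ t in (k : ℝ)..x, exp (-lam * t) * Z.D lam t (θ k)| ≤
      ∫ t in (k : ℝ)..(k + 1), exp (-lam * t) * Z.rr lam t (θ k) := by
    refine le_trans ?_ (intervalIntegral.integral_mono_interval le_rfl hx.1 hx.2
      (ae_restrict_of_ae h0) (hr _ _))
    rw [← Real.norm_eq_abs]
    refine intervalIntegral.norm_integral_le_of_norm_le hx.1 (Z.ae_reg.mono fun t ht _ => ?_)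
      (hr _ _)
    rw [norm_mul, Real.norm_of_nonneg (exp_pos _).le]
    exact mul_le_mul_of_nonneg_left (Z.rr_nonneg lam ht _).2 (exp_pos _).le
  have b0 := (abs_nonneg _).trans b1
  have e2 := Finset.sum_filter_add_sum_filter_not (Z.s.filter fun a => (k : ℝ) ≤ Z.ξ a)
    (fun a => x ≤ Z.ξ a) fun a => exp (-lam * Z.ξ a) * (2 * π * Sg lam (Z.η a - θ k))
  rw [Finset.filter_filter, Finset.filter_filter,
    Finset.filter_congr (q := fun a => x ≤ Z.ξ a) fun a _ => and_iff_right_of_imp hx.1.trans] at e2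
  have b2 : |∑ a ∈ Z.s.filter fun a => (k : ℝ) ≤ Z.ξ a ∧ ¬ x ≤ Z.ξ a,
      exp (-lam * Z.ξ a) * (2 * π * Sg lam (Z.η a - θ k))| ≤
        8 * ∑ a ∈ Z.cell k, exp (-lam * Z.ξ a) * |Sg lam (Z.η a - θ k)| := by
    rw [Finset.mul_sum]
    refine (Finset.abs_sum_le_sum_abs _ _).trans ((Finset.sum_le_sum fun a _ => ?_).trans
      (Finset.sum_le_sum_of_subset_of_nonneg ?_ fun a _ _ => by positivity))
    · rw [abs_mul, abs_mul, abs_of_pos (exp_pos _), abs_of_pos two_pi_pos, mul_left_comm]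
      gcongr
      linarith only [pi_le_four]
    · exact Finset.monotone_filter_right _ fun a _ ha => ⟨ha.1, (not_le.1 ha.2).trans_le hx.2⟩
  have b3 : ∑ a ∈ Z.cell k ∩ Z.VV n θ, exp (-lam * Z.ξ a) * |Sg lam (Z.η a - θ k)| ≤
      11 / 10 * Z.dd lam n θ k := by
    rw [dd, Finset.mul_sum]
    refine Finset.sum_le_sum fun a _ => ?_
    rw [mul_left_comm]
    refine mul_le_mul_of_nonneg_left ((abs_Sg_le h.lam1 _).trans ?_) (exp_pos _).le
    exact mul_le_mul h.lam2 (min_le_right _ _) (by positivity) (by norm_num)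
  have b4 : 0 ≤ ∑ a ∈ Z.cell k \ Z.VV n θ, exp (-lam * Z.ξ a) * |Sg lam (Z.η a - θ k)| :=
    Finset.sum_nonneg fun a _ => by positivity
  have b5 := (Z.mm_nonneg l0.le n θ k).2.2
  rw [← Finset.sum_inter_add_sum_sdiff (Z.cell k) (Z.VV n θ)] at b2
  have f := h.frame k hk
  have b6 := mul_le_mul_of_nonneg_left b1 l0.le
  rw [← abs_of_pos l0, ← abs_mul, abs_of_pos l0, ← e1, mul_sub] at b6
  have b7 := mul_nonneg l0.le b0
  rw [Nf] at f ⊢
  rw [mm, abs_le]
  rw [abs_le] at b2 b6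
  constructor <;> linarith only [e2, b2, b3, b4, f, b6, b2.1, b2.2, b6.1, b6.2]

theorem Nf_local : ∃ C μ0 : ℝ, 1 ≤ C ∧ 0 < μ0 ∧ ∀ (Z : Cfg) (lam μ η : ℝ) (n : ℕ) (θ : ℕ → ℝ),
    Z.Calm lam μ η n θ → μ ≤ μ0 →
    ∀ k < n, (∀ x ∈ Icc (k : ℝ) (k + 1),
        |Z.Nf lam x (θ k)| ≤ C * (Z.mm lam n θ k + Z.dd lam n θ k)) ∧
      |θ (k + 1) - θ k| * Z.g lam k ≤ C * (Z.mm lam n θ k + Z.dd lam n θ k) := by
  obtain ⟨C, hC, hN⟩ := Np_le
  obtain ⟨μ0, h0, hs⟩ := slow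
  refine ⟨54, min μ0 (1 / (3 * C)), by norm_num, by positivity,
    fun Z lam μ η n θ h m1 k hk => ?_⟩
  obtain ⟨m1, m2⟩ := le_min_iff.1 m1
  rw [le_div_iff₀ (by positivity)] at m2
  have m0 := h.mu_pos
  have m3 : 3 * μ ≤ 1 := by linarith only [m2, hC, m0, mul_nonneg_of_nonpos_of_nonpos (Mathlib.Tactic.Linarith.sub_nonpos_of_le hC) (le_of_lt (Mathlib.Tactic.Linarith.sub_neg_of_lt m0))]
  have p0 := Z.mm_nonneg (zero_le_one.trans h.lam1.le) n θ k
  refine ⟨fun x hx => (CalmN_loc h hk.le hx).trans (by linarith only [p0, p0.1, p0.2.2]), ?_⟩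
  have b1 := CalmN_loc h hk.le (x := (k + 1 : ℕ)) ⟨by simp, by simp⟩
  obtain ⟨θ₀, t1, t2⟩ := CalmN_pol (h.pos _ hk) (h.dir _ hk)
  obtain ⟨a, a4, ha⟩ := Z.CalmN_main h.lam1 h.lam2 t2
  have hW := Z.CalmN_W lam (h.calm _ hk)
  have hg := h.g_pos hk
  have s1 := hs Z lam μ η n θ h m1 k hk.le _ hk
  have s2 : exp (|(k : ℝ) - (k + 1 : ℕ)| / 100) ≤ 3 := by
    refine (exp_le_exp.2 ?_).trans exp_one_lt_three.le
    norm_num
  have s3 : Z.g lam k ≤ 3 * Z.g lam (k + 1) := s1.trans (mul_le_mul_of_nonneg_right s2 hg.le)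
  have b2 := (hN Z lam (k + 1 : ℕ) (θ k) (θ (k + 1)) h.lam1 h.lam2).2.trans
    (mul_le_mul_of_nonneg_left hW (by positivity))
  have f := h.frame _ hk
  have st := h.step k hk
  rw [abs_sub_comm] at st ⊢
  have b3 := CalmN_sin (u := θ k - θ₀) (v := θ (k + 1) - θ₀)
    (by linarith only [m3, t1, st, abs_sub_le (θ k) (θ (k + 1)) θ₀]) (by linarith only [m3, t1])
  rw [sub_sub_sub_cancel_right] at b3
  rw [ha] at f b1
  change _ ≤ C * _ * (μ * Z.g lam (k + 1)) at b2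
  change _ + a * Z.g lam (k + 1) * _ = 0 at f
  change |_ + a * Z.g lam (k + 1) * _| ≤ _ at b1
  generalize Z.g lam (k + 1) = g at hg s3 b2 f b1
  have b4 : a * g * |sin (θ k - θ₀) - sin (θ (k + 1) - θ₀)| ≤
      9 * (Z.mm lam n θ k + Z.dd lam n θ k) + C * |θ k - θ (k + 1)| * (μ * g) := by
    rw [← abs_of_pos (show 0 < a * g by positivity), ← abs_mul, abs_le]
    rw [abs_le] at b1 b2
    constructor <;> linarith only [b2, f, b1, b1.1, b1.2, b2.1, b2.2]
  have b5 : 4 * g * (|θ k - θ (k + 1)| / 4) ≤ a * g * |sin (θ k - θ₀) - sin (θ (k + 1) - θ₀)| := by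
    gcongr
  have b6 := mul_nonneg (abs_nonneg (θ k - θ (k + 1))) hg.le
  have b7 := mul_le_mul_of_nonneg_left s3 (abs_nonneg (θ k - θ (k + 1)))
  linarith only [p0, b4, b5, b7, m2, b6, mul_le_mul_of_nonneg_left m2 b6]

end Cfg

end

end Pool.Agent.MinMod
end

-- merged part: Pool.Agent.Work.MP_f62247_an.Tilt
section
/-!
# The tilt is small

`tau_sub`: `tilt_id`, and `e^(lam x) Nf x θ = lam ∫_{t > x} e^(-lam (t-x)) D - ∑_{ξ ≥ x} e^(-lam (ξ-x)) 2π Sg`; subtract; `kk_sub_le`, `rem_off`,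
`rem_V` (with `u = ξ - x`, angle `η - θ`).
`tau_le`: for `|ξ - x| < 1` one has `|ki - j| ≤ 3`, so `|θ (ki) - θ j| ≤ 3 μ`; in `VV`: `|η - θ j| ≤ 1/2`; otherwise
`1/4 - 3μ ≤ |η - θ j| ≤ π + 3μ`, so `|rp| ≥ 1/8`.  `Nf_local`, `Zl_le`, `mm j + dd j ≤ TT j`.
-/

open Real MeasureTheory Set Filter Topology

namespace Pool.Agent.MinMod

noncomputable section

namespace Cfg

theorem Tilt_int (Z : Cfg) {lam : ℝ} (h1 : 1 < lam) (x θ : ℝ) :
    |(∫ t, kk lam (t - x) * Z.D lam t θ) -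
      lam * exp (lam * x) * ∫ t in Ioi x, exp (-lam * t) * Z.D lam t θ| ≤
      2 * lam * ∫ t, kw lam (t - x) * |Z.D lam t θ| := by
  have h0 : 0 ≤ lam := by linarith
  have i1 := (wt_kk h0 x).int_D h1 Z θ
  have i2 := (wt_Ioi h0 x).int_D h1 Z θ
  have i3 : Integrable fun t => kw lam (t - x) * |Z.D lam t θ| := by
    refine ((wt_kw h0 x).int_D h1 Z θ).abs.congr (Eventually.of_forall fun t => ?_)
    simp only [abs_mul, abs_of_pos (kw_pos _ _)]
  have e : ∫ t in Ioi x, exp (-lam * t) * Z.D lam t θ =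
      ∫ t, (Ioi x).indicator (fun t => exp (-lam * t)) t * Z.D lam t θ := by
    rw [← integral_indicator measurableSet_Ioi]
    refine integral_congr_ae (Eventually.of_forall fun t => ?_)
    by_cases ht : t ∈ Ioi x
    · simp only [indicator_of_mem ht]
    · simp only [indicator_of_notMem ht, zero_mul]
  rw [e, ← integral_const_mul, ← integral_sub i1 (i2.const_mul _), ← integral_const_mul]
  refine abs_integral_le_integral_abs.trans
    (integral_mono (i1.sub (i2.const_mul _)).abs (i3.const_mul _) fun t => ?_)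
  have k := kk_sub_le h0 (t - x)
  have e2 : lam * exp (lam * x) * (Ioi x).indicator (fun t => exp (-lam * t)) t =
      if 0 < t - x then lam * exp (-lam * (t - x)) else 0 := by
    by_cases ht : t ∈ Ioi x
    · rw [indicator_of_mem ht, if_pos (sub_pos.2 ht), mul_assoc, ← exp_add]
      congr 2
      ring
    · rw [indicator_of_notMem ht, if_neg (fun h => ht (sub_pos.1 h)), mul_zero]
  change |kk lam (t - x) * Z.D lam t θ - lam * exp (lam * x) *
    ((Ioi x).indicator (fun t => exp (-lam * t)) t * Z.D lam t θ)| ≤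
    2 * lam * (kw lam (t - x) * |Z.D lam t θ|)
  rw [← mul_assoc, ← sub_mul, abs_mul, e2, ← mul_assoc]
  exact mul_le_mul_of_nonneg_right k (abs_nonneg _)

/-- the remainder attached to one zero -/
def Tilt_r (Z : Cfg) (lam : ℝ) (V : Finset ℕ) (x θ : ℝ) (a : ℕ) : ℝ :=
  Imk lam (Z.ξ a - x) (Z.η a - θ) -
    (if 0 ≤ Z.ξ a - x then exp (-lam * (Z.ξ a - x)) * Sg lam (Z.η a - θ) else 0) +
    if a ∈ V then 2 * dlg (2 * lam * (-(Z.ξ a - x))) (2 * lam * (-(Z.η a - θ))) else 0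

theorem Tilt_eq (Z : Cfg) {lam : ℝ} (h1 : 1 < lam) (h2 : lam < 2) {V : Finset ℕ} (hV : V ⊆ Z.s)
    {x : ℝ} (hx : Z.Reg x) (θ : ℝ) :
    2 * π / lam * Z.tau lam V x θ =
      ((∫ t, kk lam (t - x) * Z.D lam t θ) -
        lam * exp (lam * x) * ∫ t in Ioi x, exp (-lam * t) * Z.D lam t θ) +
      exp (lam * x) * Z.Nf lam x θ - 2 * π * ∑ a ∈ Z.s, Z.Tilt_r lam V x θ a := by
  have h0 : lam ≠ 0 := by linarith
  have e1 : ∑ a ∈ Z.s, (if a ∈ V then
      2 * dlg (2 * lam * (-(Z.ξ a - x))) (2 * lam * (-(Z.η a - θ))) else 0) =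
      ∑ a ∈ V, 2 * dlg (2 * lam * (x - Z.ξ a)) (2 * lam * (θ - Z.η a)) := by
    rw [← Finset.sum_filter, Finset.filter_mem_eq_inter, Finset.inter_eq_right.2 hV]
    simp only [neg_sub]
  have e2 : exp (lam * x) * ∑ a ∈ Z.s.filter (fun a => x ≤ Z.ξ a),
      exp (-lam * Z.ξ a) * (2 * π * Sg lam (Z.η a - θ)) = 2 * π * ∑ a ∈ Z.s,
      (if 0 ≤ Z.ξ a - x then exp (-lam * (Z.ξ a - x)) * Sg lam (Z.η a - θ) else 0) := by
    rw [Finset.sum_filter, Finset.mul_sum, Finset.mul_sum]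
    refine Finset.sum_congr rfl fun a _ => ?_
    by_cases h : x ≤ Z.ξ a
    · rw [if_pos h, if_pos (sub_nonneg.2 h), show -lam * (Z.ξ a - x) = lam * x + -lam * Z.ξ a by ring,
        exp_add]
      ring
    · rw [if_neg h, if_neg (fun k => h (sub_nonneg.1 k)), mul_zero, mul_zero]
  have e3 : 2 * π / lam * ∑ a ∈ V, 2 * lam * dlg (2 * lam * (x - Z.ξ a)) (2 * lam * (θ - Z.η a)) =
      2 * π * ∑ a ∈ V, 2 * dlg (2 * lam * (x - Z.ξ a)) (2 * lam * (θ - Z.η a)) := by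
    rw [Finset.mul_sum, Finset.mul_sum]
    refine Finset.sum_congr rfl fun a _ => ?_
    field_simp
  simp only [Tilt_r, Finset.sum_add_distrib, Finset.sum_sub_distrib]
  rw [tau, mul_sub, Z.tilt_id h1 h2 hx θ, e3, e1, Nf, mul_sub (exp (lam * x)), e2]
  ring

theorem Tilt_r_le : ∃ C : ℝ, 1 ≤ C ∧ ∀ (Z : Cfg) (lam : ℝ) (V : Finset ℕ) (x θ : ℝ) (a : ℕ),
    1 < lam → lam ≤ 11 / 10 → Z.ξ a ≠ x →
    (|Z.ξ a - x| < 1 → if a ∈ V then |Z.η a - θ| ≤ 1 / 2 else 1 / 8 ≤ |rp (Z.η a - θ)|) →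
    |Z.Tilt_r lam V x θ a| ≤ C * (kw lam (Z.ξ a - x) * Z.sz lam V a θ) := by
  obtain ⟨C1, hC1, k1⟩ := rem_off
  obtain ⟨C2, hC2, k2⟩ := rem_V
  refine ⟨C1 + C2, by linarith, fun Z lam V x θ a h1 h2 hx h => ?_⟩
  have hk := kw_pos lam (Z.ξ a - x)
  by_cases ha : a ∈ V
  · simp only [ha, if_true] at h
    have := k2 lam (Z.ξ a - x) (Z.η a - θ) h1 h2 (sub_ne_zero.2 hx)
      ((le_or_gt 1 |Z.ξ a - x|).imp_right h)
    have hm : 0 ≤ min 1 |Z.η a - θ| := le_min zero_le_one (abs_nonneg _)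
    simp only [Tilt_r, sz, ha, if_true]
    refine this.trans ?_
    linarith only [hk, hm, hC1, mul_nonneg hk.le hm, mul_nonneg_of_nonpos_of_nonpos (Mathlib.Tactic.Linarith.sub_nonpos_of_le hC1) (Mathlib.Tactic.Linarith.sub_nonpos_of_le (mul_nonneg (LT.lt.le hk) hm))]
  · simp only [ha, if_false] at h
    have := k1 lam (Z.ξ a - x) (Z.η a - θ) h1 h2 ((le_or_gt 1 |Z.ξ a - x|).imp_right h)
    simp only [Tilt_r, sz, ha, if_false, add_zero]
    refine this.trans ?_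
    linarith only [hk, hC2, mul_nonneg hk.le (abs_nonneg (Sg lam (Z.η a - θ))), mul_nonneg_of_nonpos_of_nonpos (Mathlib.Tactic.Linarith.sub_nonpos_of_le hC2) (Mathlib.Tactic.Linarith.sub_nonpos_of_le (mul_nonneg (LT.lt.le hk) (abs_nonneg (Sg lam (Z.η a - θ)))))]

theorem tau_sub : ∃ C : ℝ, 1 ≤ C ∧ ∀ (Z : Cfg) (lam : ℝ) (V : Finset ℕ) (x θ : ℝ), 1 < lam →
    lam ≤ 11 / 10 → V ⊆ Z.s → Z.Reg x →
    (∀ a ∈ Z.s, |Z.ξ a - x| < 1 → if a ∈ V then |Z.η a - θ| ≤ 1 / 2 else 1 / 8 ≤ |rp (Z.η a - θ)|) →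
    exp (-lam * x) * |Z.tau lam V x θ| ≤ C * (|Z.Nf lam x θ| + Z.Zl lam V x θ) := by
  obtain ⟨C, hC, k⟩ := Tilt_r_le
  refine ⟨2 * C, by linarith only [hC], fun Z lam V x θ h1 h2 hV hx h => ?_⟩
  have e := Z.Tilt_eq h1 (by linarith) hV hx θ
  have i := Z.Tilt_int h1 x θ
  have s : |∑ a ∈ Z.s, Z.Tilt_r lam V x θ a| ≤
      C * ∑ a ∈ Z.s, kw lam (Z.ξ a - x) * Z.sz lam V a θ := by
    rw [Finset.mul_sum]
    exact (Finset.abs_sum_le_sum_abs _ _).trans
      (Finset.sum_le_sum fun a ha => k Z lam V x θ a h1 h2 (hx a ha) (h a ha))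
  have hK : 0 ≤ ∫ t, kw lam (t - x) * |Z.D lam t θ| :=
    integral_nonneg fun t => mul_nonneg (kw_pos _ _).le (abs_nonneg _)
  have hS : 0 ≤ ∑ a ∈ Z.s, kw lam (Z.ξ a - x) * Z.sz lam V a θ := by
    refine Finset.sum_nonneg fun a _ => mul_nonneg (kw_pos _ _).le ?_
    rw [sz]
    split_ifs
    · exact le_min zero_le_one (abs_nonneg _)
    · exact abs_nonneg _
  rw [Zl]
  generalize (∫ t, kw lam (t - x) * |Z.D lam t θ|) = K at *
  generalize (∑ a ∈ Z.s, kw lam (Z.ξ a - x) * Z.sz lam V a θ) = S at *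
  generalize (∑ a ∈ Z.s, Z.Tilt_r lam V x θ a) = R at *
  generalize ((∫ t, kk lam (t - x) * Z.D lam t θ) -
        lam * exp (lam * x) * ∫ t in Ioi x, exp (-lam * t) * Z.D lam t θ) = J at *
  generalize Z.tau lam V x θ = τ at *
  generalize Z.Nf lam x θ = N at *
  have hπ := pi_gt_three
  have hπ' := pi_lt_four
  have hE := exp_pos (lam * x)
  have hE' := exp_pos (-lam * x)
  have hEE : exp (-lam * x) * exp (lam * x) = 1 := by
    rw [← exp_add]
    simp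
  have hq : 4 ≤ 2 * π / lam := by
    rw [le_div_iff₀ (by linarith only [h1, h2])]
    linarith only [h1, h2, hπ]
  have b : 4 * |τ| ≤ 2 * lam * K + exp (lam * x) * |N| + 8 * (C * S) := by
    have b1 : |2 * π / lam * τ| ≤ |J| + |exp (lam * x) * N| + |2 * π * R| := by
      rw [e]
      exact (abs_sub _ _).trans (add_le_add_left (abs_add_le _ _) _)
    rw [abs_mul, abs_mul, abs_mul (2 * π), abs_of_pos hE, abs_of_nonneg (by linarith only [h1, h2, hq] : 0 ≤ 2 * π / lam),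
      abs_of_pos (by linarith only [h1, h2, hπ] : 0 < 2 * π)] at b1
    have b2 : 2 * π * |R| ≤ 8 * (C * S) :=
      mul_le_mul (by linarith only [hπ']) s (abs_nonneg _) (by norm_num)
    have b3 : 4 * |τ| ≤ 2 * π / lam * |τ| := mul_le_mul_of_nonneg_right hq (abs_nonneg _)
    linarith only [i, b1, b2, b3]
  have c := mul_le_mul_of_nonneg_left b hE'.le
  have c1 : exp (-lam * x) * (exp (lam * x) * |N|) = |N| := by rw [← mul_assoc, hEE, one_mul]
  have c2 : 0 ≤ exp (-lam * x) * K := mul_nonneg hE'.le hK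
  have c3 : 0 ≤ exp (-lam * x) * S := mul_nonneg hE'.le hS
  have c4 : lam * (exp (-lam * x) * K) ≤ 2 * C * (exp (-lam * x) * K) :=
    mul_le_mul_of_nonneg_right (by linarith only [hC, h1, h2]) c2
  have c5 : |N| ≤ C * |N| := le_mul_of_one_le_left (abs_nonneg _) hC
  have c6 : 0 ≤ C * (exp (-lam * x) * K) := mul_nonneg (by linarith only [hC, h1, h2]) c2
  have c7 := abs_nonneg N
  linarith only [c, c1, c4, c5, c6, c7]

theorem Tilt_TT {Z : Cfg} {lam μ η : ℝ} {n : ℕ} {θ : ℕ → ℝ} (h : Z.Calm lam μ η n θ) {j : ℕ}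
    (hj : j < n) : Z.mm lam n θ j + Z.dd lam n θ j ≤ Z.TT lam μ n θ j := by
  have h1 := h.lam1
  have s := Finset.single_le_sum (s := Finset.range n) (f := fun i : ℕ => exp (-|(i : ℝ) - j| / 2) *
      (Z.mm lam n θ i + Z.dd lam n θ i + μ * |θ i - θ j| * Z.g lam i)) (fun i hi => by
    have m := Z.mm_nonneg (lam := lam) (by linarith only [h1]) n θ i
    exact mul_nonneg (exp_pos _).le (add_nonneg (add_nonneg m.1 m.2.2)
      (mul_nonneg (mul_nonneg h.mu_pos.le (abs_nonneg _))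
        (h.g_pos (Finset.mem_range.1 hi).le).le))) (Finset.mem_range.2 hj)
  simp only [sub_self, abs_zero, neg_zero, zero_div, exp_zero, mul_zero, zero_mul, add_zero,
    one_mul] at s
  have e0 := mul_nonneg (exp_pos (-(j : ℝ) / 2)).le (Z.EE_nonneg h1.le 0)
  have en := mul_nonneg (exp_pos (-((n : ℝ) - j) / 2)).le (Z.EE_nonneg h1.le n)
  rw [TT]
  linarith only [s, e0, en]

theorem Tilt_ang {Z : Cfg} {lam μ η : ℝ} {n : ℕ} {θ : ℕ → ℝ} (h : Z.Calm lam μ η n θ)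
    (hμ : μ ≤ 1 / 24) {j : ℕ} (hj : j ≤ n) {x : ℝ} (hx : x ∈ Icc (j : ℝ) (j + 1)) :
    ∀ a ∈ Z.s, |Z.ξ a - x| < 1 →
      if a ∈ Z.VV n θ then |Z.η a - θ j| ≤ 1 / 2 else 1 / 8 ≤ |rp (Z.η a - θ j)| := by
  intro a ha hax
  have k1 := abs_ki_sub_le hj (Z.ξ a)
  have k2 : |Z.ξ a - j| ≤ 2 := by
    rw [abs_lt] at hax
    rw [abs_le]
    constructor <;> linarith only [hax, hx, hx.1, hx.2]
  have k3 := h.drift (ki_le n (Z.ξ a)) hj
  have k4 : |θ (ki n (Z.ξ a)) - θ j| ≤ 1 / 8 := by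
    have := mul_le_mul hμ (show |(ki n (Z.ξ a) : ℝ) - j| ≤ 3 by linarith only [k1, k2]) (abs_nonneg _)
      (by norm_num)
    linarith only [k3, this]
  split_ifs with hV
  · have v := (Finset.mem_filter.1 hV).2
    have := abs_add_le (Z.η a - θ (ki n (Z.ξ a))) (θ (ki n (Z.ξ a)) - θ j)
    rw [sub_add_sub_cancel] at this
    linarith only [k4, v, this]
  · have v : 1 / 4 < |Z.η a - θ (ki n (Z.ξ a))| :=
      lt_of_not_ge fun v => hV (Finset.mem_filter.2 ⟨ha, v⟩)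
    have w := abs_rp_add_le (Z.η a - θ j) (θ j - θ (ki n (Z.ξ a)))
    rw [sub_add_sub_cancel, abs_rp_eq (h.lift a ha)] at w
    have w2 := abs_rp_le (θ j - θ (ki n (Z.ξ a)))
    rw [abs_sub_comm] at w2
    linarith only [k4, v, w, w2]

theorem tau_le : ∃ C μ0 : ℝ, 1 ≤ C ∧ 0 < μ0 ∧ ∀ (Z : Cfg) (lam μ η : ℝ) (n : ℕ) (θ : ℕ → ℝ),
    Z.Calm lam μ η n θ → μ ≤ μ0 →
    ∀ j < n, ∀ x ∈ Icc (j : ℝ) (j + 1), Z.Reg x →
      exp (-lam * x) * |Z.tau lam (Z.VV n θ) x (θ j)| ≤ C * Z.TT lam μ n θ j := by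
  obtain ⟨C1, hC1, k1⟩ := tau_sub
  obtain ⟨C2, μ2, hC2, hμ2, k2⟩ := Nf_local
  obtain ⟨C3, μ3, hC3, hμ3, k3⟩ := Zl_le
  refine ⟨C1 * (C2 + C3), min (1 / 24) (min μ2 μ3), by linarith only [hC1, hC2, hC3, mul_nonneg_of_nonpos_of_nonpos (Mathlib.Tactic.Linarith.sub_nonpos_of_le hC1) (Mathlib.Tactic.Linarith.sub_nonpos_of_le hC2), mul_nonneg_of_nonpos_of_nonpos (Mathlib.Tactic.Linarith.sub_nonpos_of_le hC1) (Mathlib.Tactic.Linarith.sub_nonpos_of_le hC3)], by positivity,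
    fun Z lam μ η n θ h hμ j hj x hx hr => ?_⟩
  obtain ⟨m1, m2⟩ := le_min_iff.1 hμ
  obtain ⟨m2, m3⟩ := le_min_iff.1 m2
  have a1 := k1 Z lam (Z.VV n θ) x (θ j) h.lam1 h.lam2 (Z.VV_subset n θ) hr
    (Tilt_ang h m1 hj.le hx)
  have a2 := (k2 Z lam μ η n θ h m2 j hj).1 x hx
  have hn : x ≤ n := hx.2.trans (by exact_mod_cast hj)
  have a3 := k3 Z lam μ η n θ h m3 j hj.le x (θ j) hx.1 hx.2 hn
  rw [sub_self, abs_zero, mul_zero, zero_mul, add_zero] at a3
  have a4 := mul_le_mul_of_nonneg_left (Tilt_TT h hj) (by linarith only [hC2] : 0 ≤ C2)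
  refine a1.trans ?_
  rw [mul_assoc]
  exact mul_le_mul_of_nonneg_left (by linarith only [a2, a3, a4]) (by linarith only [hC1])

end Cfg

end

end Pool.Agent.MinMod
end
end
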