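import Pool.Agent.Work.MP_f62247_an.BadB
import Pool.Agent.Work.MP_f62247_an.Tilt

-- merged part: Pool.Agent.Work.MP_f62247_an.PW
section
/-!
# The pointwise inequality

`V = VV n θ`.  `hasDerivAt_ut`: `hasDerivAt_lg`.
`tau_mono`: write (as in `U_split`, at `y = j`) `tau x φ = -Im (cc j e^(x+iφ)) + ∑_{ξ<j} dlg + ∑_{ξ≥j} (dlg - e^s sin) - ∑_V 2 lam dlg (2 lam ·)`.  The derivative of
the first term is `-Re (cc j e^(x+iφ)) ∈ [A j / 2, e A j]` for `|φ - θ j| ≤ 1/16` (`dir`); each zero contributes a function that is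
`C w0 (j - ξ)`-Lipschitz: `|s| ≥ 1`: `d2_past`, `d2_future` (and `d2_past` at `2 lam s` for the `V` term); `|s| ≤ 1`: `d2_V` (angle `≤ 1/4 + 1/16 + 3μ ≤ 1/2`)
or `d2_off` (angle between `1/4 - 1/16 - 3μ` and `π + 1/16 + 3μ`).  `W j ≤ μ A j`.
`pw_any`: `-P = -2 U θ + 2 gap - 2B + rr ≥ -4B + rr`; `q ≤ card ≤ C μ A j`.
`pw_good`: if `|θ k - θ j| > 1/64` use `pw_any`.  Otherwise let `γ` be a minimum point (`Min.exists_U`), lifted (`U_per`, `exists_rp`) with
`|γ - θ j| ≤ 1/16`.  Taylor: `ut γ ≥ ut (θ k) + τ (γ - θ k) + A j (γ - θ k)² / 8`, `τ = tau (θ k) = tau (θ j) + O(A j |θ k - θ j|)`.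
`-P (θ k) = -2 ut (θ k) - 2 ∑_V Nh s 0 - 2B + rr` and `ut γ + ∑_V Nh s 0 + gap γ = U γ ≤ -(1+η) B`.  Finally `gap γ ≥ c ∑_{cell j ∩ V} (η-γ)²`
(`gapN_ge`, `abs_gapN_le`) and `(η - θ j)² ≤ 2 (η-γ)² + 4 (γ-θ k)² + 4 (θ k-θ j)²`, `card ≤ C μ A j`.
-/

open Real MeasureTheory Set Filter Topology

namespace Pool.Agent.MinMod

noncomputable section

namespace Cfg

theorem PW_hd_exp (c : ℂ) (x φ : ℝ) : HasDerivAt (fun φ : ℝ => c * Complex.exp (x + φ * Complex.I))
    (c * Complex.exp (x + φ * Complex.I) * Complex.I) φ := by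
  have h1 : HasDerivAt (fun φ : ℝ => (x : ℂ) + φ * Complex.I) Complex.I φ := by
    simpa using ((Complex.ofRealCLM.hasDerivAt (x := φ)).mul_const Complex.I).const_add (x : ℂ)
  simpa [mul_assoc] using h1.cexp.const_mul c

theorem PW_hd_re (c : ℂ) (x φ : ℝ) :
    HasDerivAt (fun φ : ℝ => (c * Complex.exp (x + φ * Complex.I)).re)
      (-(c * Complex.exp (x + φ * Complex.I)).im) φ := by
  have := Complex.reCLM.hasFDerivAt.comp_hasDerivAt φ (PW_hd_exp c x φ)
  simpa [Function.comp_def] using this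

theorem PW_hd_im (c : ℂ) (x φ : ℝ) :
    HasDerivAt (fun φ : ℝ => -(c * Complex.exp (x + φ * Complex.I)).im)
      (-(c * Complex.exp (x + φ * Complex.I)).re) φ := by
  have := (Complex.imCLM.hasFDerivAt.comp_hasDerivAt φ (PW_hd_exp c x φ)).fun_neg
  simpa [Function.comp_def] using this

theorem hasDerivAt_ut (Z : Cfg) {lam : ℝ} (h : 0 < lam) {V : Finset ℕ} (hV : V ⊆ Z.s) {x : ℝ}
    (hx : Z.Reg x) (φ : ℝ) : HasDerivAt (Z.ut lam V x) (Z.tau lam V x φ) φ := by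
  unfold ut tau dU U
  refine ((PW_hd_re Z.c x φ).add (HasDerivAt.fun_sum fun a ha => ?_)).sub
    (HasDerivAt.fun_sum fun a ha => ?_)
  · have hs : x - Z.ξ a ≠ 0 := sub_ne_zero.2 (hx a ha).symm
    have h1 := (hasDerivAt_lg (exp_ne_one hs (φ - Z.η a))).comp_sub_const φ (Z.η a)
    have h2 := ((hasDerivAt_cos (φ - Z.η a)).comp_sub_const φ (Z.η a)).const_mul (exp (x - Z.ξ a))
    unfold nk
    exact (h1.fun_add h2).congr_deriv (by ring)
  · have hs : 2 * lam * (x - Z.ξ a) ≠ 0 :=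
      mul_ne_zero (by positivity) (sub_ne_zero.2 (hx a (hV ha)).symm)
    have h1 := hasDerivAt_lg (exp_ne_one hs (2 * lam * (φ - Z.η a)))
    have h2 : HasDerivAt (fun θ : ℝ => 2 * lam * (θ - Z.η a)) (2 * lam) φ := by
      simpa using ((hasDerivAt_id φ).sub_const (Z.η a)).const_mul (2 * lam)
    unfold Nh
    rw [mul_comm (2 * lam) (dlg _ _)]
    have h3 := h1.comp φ h2
    exact h3

/-- the contribution of one zero to the tilt -/
def PW_T (lam s : ℝ) (p v : Prop) [Decidable p] [Decidable v] (φ : ℝ) : ℝ :=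
  dlg s φ - (if p then 0 else exp s * sin φ) -
    if v then 2 * lam * dlg (2 * lam * s) (2 * lam * φ) else 0

theorem PW_tau_eq (Z : Cfg) (lam : ℝ) {V : Finset ℕ} (hV : V ⊆ Z.s) (y x φ : ℝ) :
    Z.tau lam V x φ = -(Z.cc y * Complex.exp (x + φ * Complex.I)).im +
      ∑ a ∈ Z.s, PW_T lam (x - Z.ξ a) (Z.ξ a < y) (a ∈ V) (φ - Z.η a) := by
  have h1 : ∀ a, (Complex.exp (-Z.ζ a) * Complex.exp (x + φ * Complex.I)).im =
      exp (x - Z.ξ a) * sin (φ - Z.η a) := by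
    intro a
    rw [← Complex.exp_add, Complex.exp_im]
    simp only [ζ]
    congr 2
    · simp; ring
    · simp; ring
  have h2 : ∑ a ∈ V, 2 * lam * dlg (2 * lam * (x - Z.ξ a)) (2 * lam * (φ - Z.η a)) =
      ∑ a ∈ Z.s, if a ∈ V then 2 * lam * dlg (2 * lam * (x - Z.ξ a)) (2 * lam * (φ - Z.η a))
        else 0 := by
    rw [← Finset.sum_filter, Finset.filter_mem_eq_inter, Finset.inter_eq_right.2 hV]
  unfold tau dU cc PW_T
  rw [h2, add_mul, Complex.add_im, Finset.sum_mul, Complex.im_sum, Finset.sum_filter]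
  simp only [h1]
  rw [neg_add, add_assoc, add_sub_assoc]
  congr 1
  rw [← Finset.sum_sub_distrib, ← Finset.sum_neg_distrib, ← Finset.sum_add_distrib]
  refine Finset.sum_congr rfl fun a _ => ?_
  split_ifs <;> ring

theorem PW_rp {ψ : ℝ} (h1 : 1 / 8 ≤ |ψ|) (h2 : |ψ| ≤ π + 1) : 1 / 8 ≤ |rp ψ| := by
  by_contra hn
  push Not at hn
  obtain ⟨k, hk⟩ := exists_rp ψ
  have h3 : |(k : ℝ) * (2 * π)| < 2 * π := by
    have : (k : ℝ) * (2 * π) = rp ψ - ψ := by rw [hk]; ring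
    rw [this]
    linarith only [h2, hn, abs_sub (rp ψ) ψ, pi_gt_three]
  rw [abs_mul, abs_of_pos two_pi_pos] at h3
  have h4 : |(k : ℝ)| < 1 := by (refine lt_of_not_ge fun h_nl => ?_; linarith only [h_nl, h3, two_pi_pos, mul_nonneg_of_nonpos_of_nonpos (Mathlib.Tactic.Linarith.sub_nonpos_of_le h_nl) (le_of_lt (Mathlib.Tactic.Linarith.sub_neg_of_lt two_pi_pos))])
  have h5 : k = 0 := by
    have : |k| < 1 := by exact_mod_cast h4
    exact Int.abs_lt_one_iff.1 this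
  rw [h5] at hk
  simp at hk
  rw [hk] at hn
  linarith only [h1, hn]

theorem PW_T_lip : ∃ C : ℝ, 1 ≤ C ∧ ∀ (lam s u φ φ' : ℝ) (v : Prop) [Decidable v], 1 ≤ lam →
    lam ≤ 11 / 10 → s ≠ 0 → u ≤ s → s ≤ u + 1 →
    (|s| < 1 → v → |φ| ≤ 1 / 2 ∧ |φ'| ≤ 1 / 2) →
    (|s| < 1 → ¬ v → ∀ ψ ∈ uIcc φ φ', 1 / 8 ≤ |rp ψ|) →
    |PW_T lam s (0 < u) v φ - PW_T lam s (0 < u) v φ'| ≤ C * w0 u * |φ - φ'| := by
  obtain ⟨C1, hC1, h1⟩ := d2_past
  obtain ⟨C2, hC2, h2⟩ := d2_future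
  obtain ⟨C3, hC3, h3⟩ := d2_off
  obtain ⟨C4, hC4, h4⟩ := d2_V
  obtain ⟨K, hK⟩ : ∃ K, K = 6 * C1 + C2 + C3 + C4 + 3 := ⟨_, rfl⟩
  have he4 : 1 ≤ exp 4 := one_le_exp (by norm_num)
  refine ⟨K * exp 4, by linarith only [hC1, hC2, hC3, hC4, hK, he4, mul_nonneg_of_nonpos_of_nonpos (Mathlib.Tactic.Linarith.sub_nonpos_of_le hC1) (Mathlib.Tactic.Linarith.sub_nonpos_of_le he4), mul_nonneg_of_nonpos_of_nonpos (Mathlib.Tactic.Linarith.sub_nonpos_of_le hC2) (Mathlib.Tactic.Linarith.sub_nonpos_of_le he4), mul_nonneg_of_nonpos_of_nonpos (Mathlib.Tactic.Linarith.sub_nonpos_of_le hC3) (Mathlib.Tactic.Linarith.sub_nonpos_of_le he4), mul_nonneg_of_nonpos_of_nonpos (Mathlib.Tactic.Linarith.sub_nonpos_of_le hC4) (Mathlib.Tactic.Linarith.sub_nonpos_of_le he4), Mathlib.Tactic.Linarith.zero_mul_eq (sub_eq_zero_of_eq hK) (Mathlib.Tactic.Linarith.sub_nonpos_of_le he4)], ?_⟩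
  intro lam s u φ φ' v _ hl1 hl2 hs hu1 hu2 hv hnv
  have hd := abs_nonneg (φ - φ')
  have hV : 1 ≤ |s| → |(if v then 2 * lam * dlg (2 * lam * s) (2 * lam * φ) else 0) -
      (if v then 2 * lam * dlg (2 * lam * s) (2 * lam * φ') else 0)| ≤
      5 * C1 * exp (-2 * |s|) * |φ - φ'| := by
    clear * - s v lam φ φ' C1 hl1 h1 hl2 hC1
    intro hs1
    split_ifs
    · have e1 : |2 * lam * s| = 2 * lam * |s| := by rw [abs_mul, abs_of_pos (by positivity)]
      have e2 := h1 (2 * lam * s) (2 * lam * φ) (2 * lam * φ') (by rw [e1]; linarith only [hl1, hs1, mul_nonneg_of_nonpos_of_nonpos (Mathlib.Tactic.Linarith.sub_nonpos_of_le hl1) (Mathlib.Tactic.Linarith.sub_nonpos_of_le hs1)])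
      rw [e1, ← mul_sub, abs_mul, abs_of_pos (by positivity : 0 < 2 * lam)] at e2
      rw [← mul_sub, abs_mul, abs_of_pos (by positivity : 0 < 2 * lam)]
      have e3 : exp (-(2 * lam * |s|)) ≤ exp (-2 * |s|) := exp_le_exp.2 (by linarith only [hl1, hs1, mul_nonneg_of_nonpos_of_nonpos (Mathlib.Tactic.Linarith.sub_nonpos_of_le hl1) (Mathlib.Tactic.Linarith.sub_nonpos_of_le hs1)])
      calc _ ≤ 2 * lam * (C1 * exp (-(2 * lam * |s|)) * (2 * lam * |φ - φ'|)) := by gcongr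
        _ = 4 * lam ^ 2 * C1 * exp (-(2 * lam * |s|)) * |φ - φ'| := by ring
        _ ≤ _ := by gcongr; linarith only [hl2, hl1, mul_nonneg_of_nonpos_of_nonpos (Mathlib.Tactic.Linarith.sub_nonpos_of_le hl1) (Mathlib.Tactic.Linarith.sub_nonpos_of_le hl2)]
    · simp only [sub_self, abs_zero]; positivity
  unfold PW_T
  rcases le_or_gt s (-1) with hs1 | hs1
  · have hu : u ≤ 0 := by linarith only [hu1, hs1]
    have e0 : |s| = -s := abs_of_neg (by linarith)
    have e1 := hV (by rw [e0]; linarith)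
    have e2 := h2 s φ φ' hs1
    rw [if_neg (not_lt.2 hu), if_neg (not_lt.2 hu), w0_of_nonpos hu]
    rw [e0, show -2 * -s = 2 * s by ring] at e1
    have e3 : exp (2 * s) ≤ exp 4 * exp (2 * u) := by
      rw [← exp_add]; exact exp_le_exp.2 (by linarith only [hu2])
    calc _ ≤ C2 * exp (2 * s) * |φ - φ'| + 5 * C1 * exp (2 * s) * |φ - φ'| := by
          refine le_trans (le_of_eq ?_) ((abs_sub _ _).trans (add_le_add e2 e1))
          congr 1; ring
      _ = (C2 + 5 * C1) * exp (2 * s) * |φ - φ'| := by ring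
      _ ≤ K * (exp 4 * exp (2 * u)) * |φ - φ'| := by
          have : C2 + 5 * C1 ≤ K := by linarith only [hC1, hC3, hC4, hK]
          have : 0 ≤ K := by linarith only [hC1, hC2, hC3, hC4, hK]
          gcongr
      _ = _ := by ring
  · have ew : 1 ≤ exp 4 * w0 u := by
      have a1 := w0_shift u (t := 2) (by norm_num)
      have a2 := w0_mono (show (0 : ℝ) ≤ u + 2 by linarith only [hu2, hs1])
      rw [w0_of_nonneg le_rfl] at a2
      norm_num at a1 a2 ⊢
      linarith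
    have es : |(if 0 < u then 0 else exp s * sin φ) - (if 0 < u then 0 else exp s * sin φ')| ≤
        3 * |φ - φ'| := by
      split_ifs with hu
      · simp only [sub_self, abs_zero]; positivity
      · rw [← mul_sub, abs_mul, abs_of_pos (exp_pos s)]
        have a1 : exp s ≤ 3 := (exp_le_exp.2 (by linarith only [hu2, hu, not_lt.1 hu])).trans exp_one_lt_three.le
        exact mul_le_mul a1 (abs_sin_sub_sin_le φ φ') (abs_nonneg _) (by norm_num)
    have er : |(dlg s φ - if v then 2 * lam * dlg (2 * lam * s) (2 * lam * φ) else 0) -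
        (dlg s φ' - if v then 2 * lam * dlg (2 * lam * s) (2 * lam * φ') else 0)| ≤
        (6 * C1 + C3 + C4) * |φ - φ'| := by
      rcases le_or_gt 1 |s| with hs2 | hs2
      · have a1 := hV hs2
        have a2 := h1 s φ φ' hs2
        have a3 : exp (-|s|) ≤ 1 := exp_le_one_iff.2 (by linarith only [hs2])
        have a4 : exp (-2 * |s|) ≤ 1 := exp_le_one_iff.2 (by linarith only [hs2])
        calc _ ≤ C1 * exp (-|s|) * |φ - φ'| + 5 * C1 * exp (-2 * |s|) * |φ - φ'| := by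
              refine le_trans (le_of_eq ?_) ((abs_sub _ _).trans (add_le_add a2 a1))
              congr 1; ring
          _ ≤ C1 * 1 * |φ - φ'| + 5 * C1 * 1 * |φ - φ'| := by clear * - C1 s φ φ' a3 hC1 a4; gcongr
          _ ≤ _ := by linarith only [hd, hC3, hC4, mul_nonneg_of_nonpos_of_nonpos (Mathlib.Tactic.Linarith.sub_nonpos_of_le hC3) (Mathlib.Tactic.Linarith.sub_nonpos_of_le hd), mul_nonneg_of_nonpos_of_nonpos (Mathlib.Tactic.Linarith.sub_nonpos_of_le hC4) (Mathlib.Tactic.Linarith.sub_nonpos_of_le hd)]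
      · by_cases hvv : v
        · rw [if_pos hvv, if_pos hvv]
          refine (h4 lam s φ φ' hl1 hl2 hs (by linarith only [hs2]) (hv hs2 hvv).1 (hv hs2 hvv).2).trans ?_
          gcongr; linarith only [hC1, hC3]
        · rw [if_neg hvv, if_neg hvv, sub_zero, sub_zero]
          refine (h3 s φ φ' (hnv hs2 hvv)).trans ?_
          gcongr; linarith only [hC1, hC4]
    calc _ ≤ (6 * C1 + C3 + C4) * |φ - φ'| + 3 * |φ - φ'| := by
          refine le_trans (le_of_eq ?_) ((abs_sub _ _).trans (add_le_add er es))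
          congr 1; ring
      _ = (6 * C1 + C3 + C4 + 3) * 1 * |φ - φ'| := by ring
      _ ≤ K * (exp 4 * w0 u) * |φ - φ'| := by
          have : 6 * C1 + C3 + C4 + 3 ≤ K := by linarith only [hC2, hK]
          have : 0 ≤ K := by linarith only [hC1, hC2, hC3, hC4, hK]
          gcongr
      _ = _ := by ring

theorem PW_main {c : ℂ} {μ θ ψ : ℝ} (h : ‖c * Complex.exp (θ * Complex.I) + (‖c‖ : ℂ)‖ ≤ μ * ‖c‖)
    (hμ : μ ≤ 1 / 4) (hψ : |ψ - θ| ≤ 1 / 16) (x : ℝ) :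
    ‖c‖ * exp x / 2 ≤ -(c * Complex.exp (x + ψ * Complex.I)).re ∧
      -(c * Complex.exp (x + ψ * Complex.I)).re ≤ ‖c‖ * exp x := by
  have e1 : c * Complex.exp (x + ψ * Complex.I) =
      (exp x : ℝ) * (c * Complex.exp (ψ * Complex.I)) := by
    rw [Complex.exp_add, Complex.ofReal_exp]; ring
  have e2 : ‖c * Complex.exp (ψ * Complex.I) - c * Complex.exp (θ * Complex.I)‖ ≤ ‖c‖ * (1 / 16) := by
    have : c * Complex.exp (ψ * Complex.I) - c * Complex.exp (θ * Complex.I) =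
        c * Complex.exp (θ * Complex.I) * (Complex.exp (Complex.I * (ψ - θ : ℝ)) - 1) := by
      rw [mul_sub, mul_assoc, ← Complex.exp_add, mul_one]
      congr 3; push_cast; ring
    rw [this, norm_mul, norm_mul, Complex.norm_exp_ofReal_mul_I, mul_one]
    gcongr
    exact Real.norm_exp_I_mul_ofReal_sub_one_le.trans hψ
  have e3 : ‖c * Complex.exp (ψ * Complex.I) + (‖c‖ : ℂ)‖ ≤ ‖c‖ * (1 / 16) + μ * ‖c‖ := by
    refine le_trans (le_of_eq ?_) ((norm_add_le _ _).trans (add_le_add e2 h))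
    congr 1; ring
  have e4 := (Complex.re_le_norm _).trans e3
  rw [Complex.add_re, Complex.ofReal_re] at e4
  have e5 := (abs_le.1 (Complex.abs_re_le_norm (c * Complex.exp (ψ * Complex.I)))).1
  rw [norm_mul, Complex.norm_exp_ofReal_mul_I, mul_one] at e5
  rw [e1, Complex.re_ofReal_mul]
  have e6 := exp_pos x
  have e7 := norm_nonneg c
  have e8 : μ * ‖c‖ ≤ 1 / 4 * ‖c‖ := by gcongr
  constructor <;> linarith only [e4, e6, e7, e8, e5, mul_nonneg_of_nonpos_of_nonpos (Mathlib.Tactic.Linarith.sub_nonpos_of_le e4) (le_of_lt (Mathlib.Tactic.Linarith.sub_neg_of_lt e6)), mul_nonneg_of_nonpos_of_nonpos (le_of_lt (Mathlib.Tactic.Linarith.sub_neg_of_lt e6)) (Mathlib.Tactic.Linarith.sub_nonpos_of_le e7), mul_nonneg_of_nonpos_of_nonpos (le_of_lt (Mathlib.Tactic.Linarith.sub_neg_of_lt e6)) (Mathlib.Tactic.Linarith.sub_nonpos_of_le e8), mul_nonneg_of_nonpos_of_nonpos (Mathlib.Tactic.Linarith.sub_nonpos_of_le e5) (le_of_lt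 (Mathlib.Tactic.Linarith.sub_neg_of_lt e6))]

theorem PW_A (Z : Cfg) {j x : ℝ} (hx : x ∈ Icc j (j + 1)) :
    Z.A j ≤ ‖Z.cc j‖ * exp x ∧ ‖Z.cc j‖ * exp x ≤ 3 * Z.A j := by
  unfold A
  constructor
  · gcongr; exact hx.1
  · have : exp x ≤ 3 * exp j := by
      calc exp x ≤ exp (1 + j) := exp_le_exp.2 (by linarith only [hx, hx.2])
        _ = exp 1 * exp j := exp_add _ _
        _ ≤ 3 * exp j := by gcongr; exact exp_one_lt_three.le
    calc ‖Z.cc j‖ * exp x ≤ ‖Z.cc j‖ * (3 * exp j) := by gcongr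
      _ = _ := by ring

theorem tau_mono : ∃ C μ0 : ℝ, 1 ≤ C ∧ 0 < μ0 ∧ ∀ (Z : Cfg) (lam μ η : ℝ) (n : ℕ) (θ : ℕ → ℝ),
    Z.Calm lam μ η n θ → μ ≤ μ0 →
    ∀ j < n, ∀ x ∈ Icc (j : ℝ) (j + 1), Z.Reg x → ∀ φ φ' : ℝ, |φ - θ j| ≤ 1 / 16 →
      |φ' - θ j| ≤ 1 / 16 → φ ≤ φ' →
      Z.A j / 4 * (φ' - φ) ≤ Z.tau lam (Z.VV n θ) x φ' - Z.tau lam (Z.VV n θ) x φ ∧
        Z.tau lam (Z.VV n θ) x φ' - Z.tau lam (Z.VV n θ) x φ ≤ C * Z.A j * (φ' - φ) := by
  obtain ⟨C, hC, hT⟩ := PW_T_lip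
  refine ⟨4, 1 / (64 * C), by norm_num, by positivity, ?_⟩
  intro Z lam μ η n θ H hμ j hj x hx hR φ φ' hφ hφ' hle
  have hCμ : C * μ ≤ 1 / 64 := by rw [le_div_iff₀ (by positivity)] at hμ; linarith only [hμ]
  have hμ0 := H.mu_pos
  have hμ1 : μ ≤ 1 / 64 := by linarith only [hCμ, hC, hμ0, mul_nonneg_of_nonpos_of_nonpos (Mathlib.Tactic.Linarith.sub_nonpos_of_le hC) (le_of_lt (Mathlib.Tactic.Linarith.sub_neg_of_lt hμ0))]
  rw [PW_tau_eq Z lam (VV_subset Z n θ) j, PW_tau_eq Z lam (VV_subset Z n θ) j]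
  have hA := PW_A Z hx
  have hd : 0 ≤ φ' - φ := sub_nonneg.2 hle
  have hA0 : 0 ≤ Z.A j := by unfold A; positivity
  have m1 : Z.A j / 2 * (φ' - φ) ≤ -(Z.cc j * Complex.exp (x + φ' * Complex.I)).im -
        -(Z.cc j * Complex.exp (x + φ * Complex.I)).im ∧
      -(Z.cc j * Complex.exp (x + φ' * Complex.I)).im -
        -(Z.cc j * Complex.exp (x + φ * Complex.I)).im ≤ 3 * Z.A j * (φ' - φ) := by
    rcases hle.eq_or_lt with rfl | hlt
    · simp
    obtain ⟨ψ, hψ, e⟩ := exists_hasDerivAt_eq_slope _ _ hlt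
      (fun t _ => (PW_hd_im (Z.cc j) x t).continuousAt.continuousWithinAt)
      fun t _ => PW_hd_im (Z.cc j) x t
    have e1 := PW_main (ψ := ψ) (H.dir j hj.le) (by linarith only [hμ0, hμ1]) (abs_le.2
      ⟨by linarith only [hφ, hψ, (abs_le.1 hφ).1, hψ.1], by linarith only [hφ', hψ, (abs_le.1 hφ').2, hψ.2]⟩) x
    rw [eq_div_iff (sub_pos.2 hlt).ne'] at e
    rw [← e]
    constructor
    · gcongr; linarith only [hA, e1, e1.1, hA.1]
    · gcongr; linarith only [hA, e1, e1.2, hA.2]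
  have m2 : |∑ a ∈ Z.s, PW_T lam (x - Z.ξ a) (Z.ξ a < j) (a ∈ Z.VV n θ) (φ' - Z.η a) -
      ∑ a ∈ Z.s, PW_T lam (x - Z.ξ a) (Z.ξ a < j) (a ∈ Z.VV n θ) (φ - Z.η a)| ≤
      Z.A j / 4 * (φ' - φ) := by
    rw [← Finset.sum_sub_distrib]
    refine (Finset.abs_sum_le_sum_abs _ _).trans ?_
    calc _ ≤ ∑ a ∈ Z.s, C * w0 (j - Z.ξ a) * (φ' - φ) := by
          refine Finset.sum_le_sum fun a ha => ?_
          have hk : |x - Z.ξ a| < 1 → |θ (ki n (Z.ξ a)) - θ j| ≤ 3 / 64 := by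
            intro h1
            have a1 := H.drift (ki_le n (Z.ξ a)) hj.le
            have a2 := abs_ki_sub_le hj.le (Z.ξ a)
            have a3 : |Z.ξ a - j| ≤ 2 :=
              abs_le.2 ⟨by linarith only [hμ0, hμ1, h1, hx, (abs_lt.1 h1).2, hx.1], by linarith only [h1, hx, (abs_lt.1 h1).1, hx.2]⟩
            calc _ ≤ μ * |(ki n (Z.ξ a) : ℝ) - j| := a1
              _ ≤ 1 / 64 * 3 := by gcongr; linarith only [a2, a3]
              _ = _ := by norm_num
          have := hT lam (x - Z.ξ a) (j - Z.ξ a) (φ' - Z.η a) (φ - Z.η a) (a ∈ Z.VV n θ)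
            H.lam1.le H.lam2 (sub_ne_zero.2 (hR a ha).symm) (by linarith only [hx, hx.1])
            (by linarith only [hx, hx.2]) ?_ ?_
          · simp only [sub_pos] at this
            rwa [sub_sub_sub_cancel_right, abs_of_nonneg hd] at this
          · intro h1 hv
            have a1 := abs_le.1 (hk h1)
            have a2 := abs_le.1 (Finset.mem_filter.1 hv).2
            have a3 := abs_le.1 hφ
            have a4 := abs_le.1 hφ'
            exact ⟨abs_le.2 ⟨by linarith only [hle, hμ0, hμ1, a1, a2, a3], by linarith only [hμ0, hμ1, a1, a2, a4]⟩, abs_le.2 ⟨by linarith only [hμ0, hμ1, a1, a2, a3], by linarith only [hμ0, hμ1, a1, a2, a3]⟩⟩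
          · intro h1 hv ψ hψ
            have a1 := hk h1
            have a2 : 1 / 4 < |Z.η a - θ (ki n (Z.ξ a))| := by
              by_contra hn
              exact hv (Finset.mem_filter.2 ⟨ha, not_lt.1 hn⟩)
            have a3 := H.lift a ha
            rw [uIcc_of_ge (by linarith only [hle])] at hψ
            have a4 : |ψ + Z.η a - θ j| ≤ 1 / 16 := abs_le.2
              ⟨by linarith only [hφ, hψ, (abs_le.1 hφ).1, hψ.1], by linarith only [hφ', hψ, (abs_le.1 hφ').2, hψ.2]⟩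
            have a5 : |ψ + (Z.η a - θ (ki n (Z.ξ a)))| ≤ 1 / 16 + 3 / 64 := by
              refine le_trans (le_of_eq ?_) ((abs_sub _ _).trans (add_le_add a4 a1))
              congr 1; ring
            have a6 := abs_sub (ψ + (Z.η a - θ (ki n (Z.ξ a)))) ψ
            have a7 := abs_sub (ψ + (Z.η a - θ (ki n (Z.ξ a)))) (Z.η a - θ (ki n (Z.ξ a)))
            rw [add_sub_cancel_left] at a6
            rw [add_sub_cancel_right] at a7
            exact PW_rp (by linarith only [hμ0, hμ1, a2, a5, a6]) (by linarith only [hμ0, hμ1, a3, a5, a7])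
      _ = C * Z.W j * (φ' - φ) := by
          unfold W; rw [Finset.mul_sum, Finset.sum_mul]
      _ ≤ C * (μ * Z.A j) * (φ' - φ) := by gcongr; exact H.calm j hj.le
      _ = C * μ * Z.A j * (φ' - φ) := by ring
      _ ≤ 1 / 64 * Z.A j * (φ' - φ) := by gcongr
      _ ≤ _ := by linarith only [m1, mul_nonneg hA0 hd]
  have m3 := abs_le.1 m2
  constructor <;> linarith only [m1, m3, mul_nonneg hA0 hd, m1.1, m1.2]

theorem PW_card {Z : Cfg} {lam μ η : ℝ} {n : ℕ} {θ : ℕ → ℝ} (H : Z.Calm lam μ η n θ) {j : ℕ}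
    (hj : j < n) : ((Z.cell j ∩ Z.VV n θ).card : ℝ) ≤ 9 * μ * Z.A j := by
  have h1 := Z.card_le_W j (d := 1) zero_le_one (A := Z.cell j ∩ Z.VV n θ)
    (Finset.inter_subset_right.trans (VV_subset Z n θ))
    fun a ha => (Finset.mem_filter.1 (Finset.mem_inter.1 ha).1).2.2.le
  have h2 : exp (2 * 1) ≤ 9 := by
    rw [two_mul, exp_add]; linarith only [exp_one_lt_three, exp_pos 1, mul_pos_of_neg_of_neg (Mathlib.Tactic.Linarith.sub_neg_of_lt exp_one_lt_three) (Mathlib.Tactic.Linarith.sub_neg_of_lt (exp_pos (1 : ℝ)))]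
  have h3 := H.calm j hj.le
  have h4 := Z.W_nonneg j
  calc _ ≤ exp (2 * 1) * Z.W j := h1
    _ ≤ 9 * (μ * Z.A j) := by gcongr
    _ = _ := by ring

theorem PW_near {Z : Cfg} {n : ℕ} {θ : ℕ → ℝ} {j a : ℕ} (hj : j < n)
    (ha : a ∈ Z.cell j ∩ Z.VV n θ) : |Z.η a - θ j| ≤ 1 / 4 := by
  have h := (Finset.mem_filter.1 (Finset.mem_inter.1 ha).2).2
  rwa [ki_of_mem_cell Z hj.le (Finset.mem_inter.1 ha).1] at h

theorem PW_P (Z : Cfg) (lam : ℝ) (V : Finset ℕ) (x φ : ℝ) :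
    -Z.P lam V x φ = -2 * Z.U x φ - 2 * Z.B x + Z.rr lam x φ + 2 * Z.gap lam V x φ := by
  unfold P Sop rr; ring

theorem PW_gap {Z : Cfg} {lam : ℝ} (h : 1 ≤ lam) {V : Finset ℕ} (hV : V ⊆ Z.s) {x : ℝ}
    (hx : Z.Reg x) (φ : ℝ) : 0 ≤ Z.gap lam V x φ :=
  Finset.sum_nonneg fun a ha => (abs_gapN_le h (sub_ne_zero.2 (hx a (hV ha)).symm) _).1

theorem pw_any : ∃ C μ0 : ℝ, 1 ≤ C ∧ 0 < μ0 ∧ ∀ (Z : Cfg) (lam μ η : ℝ) (n : ℕ) (θ : ℕ → ℝ),
    Z.Calm lam μ η n θ → μ ≤ μ0 →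
    ∀ j < n, ∀ x ∈ Icc (j : ℝ) (j + 1), Z.Reg x → ∀ φ : ℝ,
      2 * η * Z.B x + Z.rr lam x φ + ∑ a ∈ Z.cell j ∩ Z.VV n θ, (Z.η a - θ j) ^ 2 - C * Z.A j ≤
        -Z.P lam (Z.VV n θ) x φ := by
  obtain ⟨C, μ0, hC, hμ0, hB⟩ := B_calm
  refine ⟨45, min μ0 1, by norm_num, by positivity, ?_⟩
  intro Z lam μ η n θ H hμ j hj x hx hR φ
  have h1 := (hB Z lam μ η n θ H (hμ.trans (min_le_left _ _)) j hj.le).1 x
    ⟨hx.1, by linarith only [hx, hx.2]⟩
  have h2 := (PW_A Z hx).2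
  have h3 := PW_card H hj
  have hμ1 : μ ≤ 1 := hμ.trans (min_le_right _ _)
  have hA0 : 0 ≤ Z.A j := by unfold A; positivity
  have h4 : ∑ a ∈ Z.cell j ∩ Z.VV n θ, (Z.η a - θ j) ^ 2 ≤ (Z.cell j ∩ Z.VV n θ).card := by
    rw [Finset.card_eq_sum_ones]; push_cast
    refine Finset.sum_le_sum fun a ha => ?_
    have := PW_near hj ha
    rw [← sq_abs]; linarith only [this, abs_nonneg (Z.η a - θ j), mul_nonneg_of_nonpos_of_nonpos (Mathlib.Tactic.Linarith.sub_nonpos_of_le this) (Mathlib.Tactic.Linarith.sub_nonpos_of_le (abs_nonneg (Z.η a - θ j)))]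
  have h5 := Z.U_le_B hR φ
  have h6 := PW_gap H.lam1.le (VV_subset Z n θ) hR φ
  have h7 := mul_le_mul_of_nonneg_right H.eta1 (Z.B_nonneg x)
  have h8 := mul_le_mul_of_nonneg_right hμ1 hA0
  rw [PW_P]
  linarith only [h1, h2, h3, h4, h5, h6, h7, h8]

theorem PW_taylor {f g : ℝ → ℝ} {A a b : ℝ} (hf : ∀ t, HasDerivAt f (g t) t)
    (hg : ∀ s ∈ uIcc a b, ∀ t ∈ uIcc a b, s ≤ t → A / 4 * (t - s) ≤ g t - g s) :
    f a + g a * (b - a) + A / 8 * (b - a) ^ 2 ≤ f b := by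
  have hd : ∀ t, HasDerivAt (fun t => f t - g a * (t - a) - A / 8 * (t - a) ^ 2)
      (g t - g a - A / 4 * (t - a)) t := by
    intro t
    have h1 := ((hasDerivAt_id t).sub_const a)
    exact (((hf t).fun_sub (h1.const_mul (g a))).fun_sub
      ((h1.fun_pow 2).const_mul (A / 8))).congr_deriv (by simp; ring)
  rcases lt_trichotomy a b with h | rfl | h
  · obtain ⟨ψ, hψ, e⟩ := exists_hasDerivAt_eq_slope _ _ h
      (fun t _ => (hd t).continuousAt.continuousWithinAt) fun t _ => hd t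
    rw [uIcc_of_le h.le] at hg
    have h1 := hg a ⟨le_rfl, h.le⟩ ψ ⟨hψ.1.le, hψ.2.le⟩ hψ.1.le
    rw [eq_div_iff (sub_pos.2 h).ne'] at e
    have h2 := mul_nonneg (sub_nonneg.2 h1) (sub_nonneg.2 h.le)
    linarith only [e, h2]
  · simp
  · obtain ⟨ψ, hψ, e⟩ := exists_hasDerivAt_eq_slope _ _ h
      (fun t _ => (hd t).continuousAt.continuousWithinAt) fun t _ => hd t
    rw [uIcc_of_ge h.le] at hg
    have h1 := hg ψ ⟨hψ.1.le, hψ.2.le⟩ a ⟨h.le, le_rfl⟩ hψ.2.le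
    rw [eq_div_iff (sub_pos.2 h).ne'] at e
    have h2 := mul_nonneg (sub_nonneg.2 h1) (sub_nonneg.2 h.le)
    linarith only [e, h2]

theorem PW_alg {A τ τ0 d δ C : ℝ} (hA : 0 < A) (h : |τ - τ0| ≤ C * A * |δ|) :
    -(16 * τ0 ^ 2 / A) - 16 * C ^ 2 * δ ^ 2 * A ≤ 2 * τ * d + A / 8 * d ^ 2 := by
  have h1 : (τ - τ0) ^ 2 ≤ (C * A) ^ 2 * δ ^ 2 := by
    rw [← sq_abs, ← sq_abs δ, ← mul_pow]; gcongr
  have h2 : τ ^ 2 ≤ 2 * τ0 ^ 2 + 2 * ((C * A) ^ 2 * δ ^ 2) := by linarith only [h1, sq_nonneg (τ - 2 * τ0), sq_nonneg (τ - (2 : ℝ) * τ0)]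
  have h3 : 16 * τ0 ^ 2 / A * A = 16 * τ0 ^ 2 := by field_simp
  refine le_of_mul_le_mul_right ?_ hA
  linarith only [h2, h3, sq_nonneg (A * d + 8 * τ), sq_nonneg (A * d + (8 : ℝ) * τ)]

theorem pw_good : ∃ C μ0 : ℝ, 1 ≤ C ∧ 0 < μ0 ∧ ∀ (Z : Cfg) (lam μ η : ℝ) (n : ℕ) (θ : ℕ → ℝ),
    Z.Calm lam μ η n θ → μ ≤ μ0 →
    ∀ j < n, ∀ x ∈ Icc (j : ℝ) (j + 1), Z.Reg x → Z.GoodAt (θ j) x → ∀ φ : ℝ,
      2 * η * Z.B x + Z.rr lam x φ + (∑ a ∈ Z.cell j ∩ Z.VV n θ, (Z.η a - θ j) ^ 2) / C -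
          C * Z.tau lam (Z.VV n θ) x (θ j) ^ 2 / Z.A j - C * (φ - θ j) ^ 2 * Z.A j ≤
        -Z.P lam (Z.VV n θ) x φ := by
  obtain ⟨C1, μ1, hC1, hμ1, h1⟩ := tau_mono
  obtain ⟨C2, μ2, hC2, hμ2, h2⟩ := pw_any
  obtain ⟨c', hc', h3⟩ := gapN_ge
  obtain ⟨c, hc, hc1, hcc⟩ : ∃ c : ℝ, 0 < c ∧ c ≤ 1 ∧ c ≤ c' :=
    ⟨min 1 c', by positivity, min_le_left _ _, min_le_right _ _⟩
  obtain ⟨K, hK⟩ : ∃ K, K = 1 / c + 16 * C1 ^ 2 + 4096 * C2 + 17 := ⟨_, rfl⟩
  have k0 : 0 < 1 / c := by positivity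
  have k1 : 0 ≤ C1 ^ 2 := by positivity
  have hK1 : 1 ≤ K := by linarith only [hC2, hK, k0, k1]
  refine ⟨K, min (min μ1 μ2) (1 / 288), hK1, by positivity, ?_⟩
  intro Z lam μ η n θ H hμ j hj x hx hR hG φ
  simp only [le_min_iff] at hμ
  have hA : 0 < Z.A j := mul_pos (H.pos j hj.le) (exp_pos _)
  obtain ⟨q, hq⟩ : ∃ q, q = ∑ a ∈ Z.cell j ∩ Z.VV n θ, (Z.η a - θ j) ^ 2 := ⟨_, rfl⟩
  have hq0 : 0 ≤ q := by rw [hq]; positivity
  have hV := VV_subset Z n θ
  rcases le_or_gt (1 / 64) |φ - θ j| with hδ | hδ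
  · have a1 := h2 Z lam μ η n θ H hμ.1.2 j hj x hx hR φ
    rw [← hq] at a1 ⊢
    have a2 : q / K ≤ q := div_le_self hq0 hK1
    have a3 : 0 ≤ K * Z.tau lam (Z.VV n θ) x (θ j) ^ 2 / Z.A j := by positivity
    have a4 : (1 / 64) ^ 2 ≤ (φ - θ j) ^ 2 := by rw [← sq_abs (φ - θ j)]; gcongr
    have a5 : 4096 * C2 * (1 / 64) ^ 2 * Z.A j ≤ K * (φ - θ j) ^ 2 * Z.A j := by
      clear * - Z j C2 K φ θ c C1 hK k0 k1 a4 hK1 hA
      gcongr; linarith only [hK, k0, k1]
    linarith only [a1, a2, a3, a5]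
  obtain ⟨γ0, hγ0⟩ := (H.min x ⟨by linarith only [hx, hx.1, (Nat.cast_nonneg j : (0 : ℝ) ≤ j)],
    by linarith only [hx, hj, hx.2, (by exact_mod_cast hj : (j : ℝ) + 1 ≤ n)]⟩).exists_U hR
  have hB := Z.B_nonneg x
  have hγ1 := hG γ0 (by linarith only [hγ0, H, hB, mul_nonneg H.eta0 hB])
  obtain ⟨k, hk⟩ := exists_rp (γ0 - θ j)
  obtain ⟨γ, hγ⟩ : ∃ γ, γ = γ0 + k * (2 * π) := ⟨_, rfl⟩
  have hγ2 : |γ - θ j| ≤ 1 / 16 := by
    rw [hk] at hγ1; rw [hγ]; convert hγ1 using 2; ring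
  have hγ3 : Z.U x γ ≤ -(1 + η) * Z.B x := by rw [hγ, U_per]; exact hγ0
  have hm := h1 Z lam μ η n θ H hμ.1.1 j hj x hx hR
  have hδ' : |φ - θ j| ≤ 1 / 16 := by linarith only [hδ]
  have hin : ∀ s ∈ uIcc φ γ, |s - θ j| ≤ 1 / 16 := by
    clear * - φ γ θ j hδ' hγ2
    intro s hs
    have a1 := abs_le.1 hδ'
    have a2 := abs_le.1 hγ2
    rcases mem_uIcc.1 hs with h | h <;> exact abs_le.2 ⟨by linarith only [a1, h, a2], by linarith only [a2, h, a1]⟩
  have t1 := PW_taylor (A := Z.A j) (a := φ) (b := γ)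
    (Z.hasDerivAt_ut (by linarith only [H, H.lam1]) hV hR) fun s hs t ht hst =>
      (hm s t (hin s hs) (hin t ht) hst).1
  have t2 : |Z.tau lam (Z.VV n θ) x φ - Z.tau lam (Z.VV n θ) x (θ j)| ≤ C1 * Z.A j * |φ - θ j| := by
    clear * - θ j φ Z lam n x C1 hm hδ' hA
    have a0 : |θ j - θ j| ≤ 1 / 16 := by simp
    rcases le_total φ (θ j) with h | h
    · have a1 := hm φ (θ j) hδ' a0 h
      have a2 : 0 ≤ Z.A j / 4 * (θ j - φ) := mul_nonneg (by linarith only [hA]) (by linarith only [h])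
      rw [abs_sub_comm, abs_of_nonneg (a2.trans a1.1), abs_sub_comm, abs_of_nonneg (by linarith only [h])]
      exact a1.2
    · have a1 := hm (θ j) φ a0 hδ' h
      have a2 : 0 ≤ Z.A j / 4 * (φ - θ j) := mul_nonneg (by linarith only [hA]) (by linarith only [h])
      rw [abs_of_nonneg (a2.trans a1.1), abs_of_nonneg (by linarith only [h])]
      exact a1.2
  have t3 := PW_alg (d := γ - φ) hA t2
  have t4 : ∀ ψ, Z.U x ψ - Z.gap lam (Z.VV n θ) x ψ =
      Z.ut lam (Z.VV n θ) x ψ + ∑ a ∈ Z.VV n θ, Nh lam (x - Z.ξ a) 0 := by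
    intro ψ
    unfold gap ut
    rw [Finset.sum_sub_distrib]; ring
  have t5 : c * ∑ a ∈ Z.cell j ∩ Z.VV n θ, (γ - Z.η a) ^ 2 ≤ Z.gap lam (Z.VV n θ) x γ := by
    clear * - c Z j n θ γ lam x hj hγ2 c' hcc h3 μ η H hR hx hV
    rw [Finset.mul_sum]
    refine le_trans (Finset.sum_le_sum fun a ha => ?_) (Finset.sum_le_sum_of_subset_of_nonneg
      (Finset.inter_subset_right (s₁ := Z.cell j)) fun a ha _ =>
        (abs_gapN_le H.lam1.le (sub_ne_zero.2 (hR a (hV ha)).symm) _).1)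
    have a1 := Finset.mem_filter.1 (Finset.mem_inter.1 ha).1
    have a2 := abs_le.1 (PW_near hj ha)
    have a3 := abs_le.1 hγ2
    refine le_trans ?_ (h3 lam _ _ H.lam1.le H.lam2 (sub_ne_zero.2 (hR a a1.1).symm)
      (abs_le.2 ⟨by linarith only [a1, hx, hx.1, a1.2.2], by linarith only [a1, hx, hx.2, a1.2.1]⟩)
      (abs_le.2 ⟨by linarith only [a2, a3], by linarith only [a2, a3]⟩))
    gcongr
  have t6 : q ≤ 2 * ∑ a ∈ Z.cell j ∩ Z.VV n θ, (γ - Z.η a) ^ 2 +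
      Z.A j / 8 * ((γ - φ) ^ 2 + (φ - θ j) ^ 2) := by
    clear * - q Z j n θ γ φ hq μ lam η H hj μ1 μ2 hμ hA
    have a1 : q ≤ ∑ a ∈ Z.cell j ∩ Z.VV n θ,
        (2 * (γ - Z.η a) ^ 2 + 4 * ((γ - φ) ^ 2 + (φ - θ j) ^ 2)) := by
      rw [hq]
      refine Finset.sum_le_sum fun a _ => ?_
      linarith only [sq_nonneg (γ - Z.η a + (γ - θ j)), sq_nonneg (γ - φ - (φ - θ j)), sq_nonneg (γ - φ - (φ - θ j)), sq_nonneg (γ - Z.η a + (γ - θ j))]
    rw [Finset.sum_add_distrib, ← Finset.mul_sum, Finset.sum_const, nsmul_eq_mul] at a1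
    have a2 : ((Z.cell j ∩ Z.VV n θ).card : ℝ) ≤ Z.A j / 32 := by
      have := PW_card H hj
      have := mul_le_mul_of_nonneg_right hμ.2 hA.le
      linarith
    have a3 := mul_le_mul_of_nonneg_right a2
      (by positivity : 0 ≤ 4 * ((γ - φ) ^ 2 + (φ - θ j) ^ 2))
    linarith only [a1, a3]
  rw [← hq, PW_P]
  have t7 : q / K ≤ c * q := by
    clear * - q K c C2 C1 hC2 hK k0 k1 hc hq0
    rw [div_le_iff₀ (by linarith only [hC2, hK, k0, k1])]
    have a1 : 1 ≤ c * K := by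
      calc 1 = c * (1 / c) := by field_simp
        _ ≤ c * K := by gcongr; linarith only [hC2, hK, k1]
    linarith only [hq0, a1, mul_nonneg_of_nonpos_of_nonpos (Mathlib.Tactic.Linarith.sub_nonpos_of_le hq0) (Mathlib.Tactic.Linarith.sub_nonpos_of_le a1)]
  have t8 := mul_le_mul_of_nonneg_left t6 hc.le
  have t9 : c * (Z.A j / 8 * ((γ - φ) ^ 2 + (φ - θ j) ^ 2)) ≤
      1 * (Z.A j / 8 * ((γ - φ) ^ 2 + (φ - θ j) ^ 2)) := by clear * - Z j γ φ θ c hc1 hA; gcongr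
  have t10 : 16 * Z.tau lam (Z.VV n θ) x (θ j) ^ 2 / Z.A j ≤
      K * Z.tau lam (Z.VV n θ) x (θ j) ^ 2 / Z.A j := by clear * - Z lam n θ x j K C2 c C1 hC2 hK k0 k1 hA; gcongr; linarith only [hC2, hK, k0, k1]
  have t11 : (16 * C1 ^ 2 + 1) * (φ - θ j) ^ 2 * Z.A j ≤ K * (φ - θ j) ^ 2 * Z.A j := by
    clear * - Z j C1 φ θ K C2 c hC2 hK k0 hA
    gcongr; linarith only [hC2, hK, k0]
  have t12 : 0 ≤ (φ - θ j) ^ 2 * Z.A j := by positivity
  clear * - η Z x lam φ q K n θ j γ C1 c hγ3 t1 t3 t5 t7 t8 t9 t10 t11 t12 t4; linarith only [hγ3, t1, t3, t5, t7, t8, t9, t10, t11, t12, t4, t4 φ, t4 γ]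

end Cfg

end

end Pool.Agent.MinMod
end

-- merged part: Pool.Agent.Work.MP_f62247_an.StepB
section
-- merged part: Pool.Agent.Work.MP_f62247_an.StepA
section
/-!
# Integrating the pointwise inequality

`cell_ge`: on `[j, j+1]` use `pw_good` off `S`, `pw_any` on `S`; `0 ≤ w ≤ M`; `tau_le` (`e^(-lam x) tau² / A j ≤ C TT² / g j`); `B_calm`.
`line_ge`: `∫_{Ioi 0} = ∑_{j<n} ∫_j^{j+1} + ∫_{Ioi n}`.  On the cell `j` apply `cell_ge` with `w = chi k`, `M = C e^(-|j-k|)` (`chi_le`), sum over `k`; for the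
positive terms `∑_k chi k ≥ 1/2` on `t ≤ n` (`sum_chi`, `Om_le_half`), keep only `k = j` for `rr` (`chi_ge`, `rr_nonneg`).  On `t > n`: `P_le` with `y = n`,
`∑_k chi k ≤ e^(-2 lam (t-n))`.
-/

open Real MeasureTheory Set Filter Topology

namespace Pool.Agent.MinMod

noncomputable section

namespace Cfg

theorem StepA_g (Z : Cfg) (lam : ℝ) (k : ℕ) : 0 ≤ Z.g lam k := by
  unfold g; positivity

theorem StepA_pt : ∃ C μ0 : ℝ, 1 ≤ C ∧ 0 < μ0 ∧ ∀ (Z : Cfg) (lam μ η : ℝ) (n : ℕ) (θ : ℕ → ℝ),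
    Z.Calm lam μ η n θ → μ ≤ μ0 →
    ∀ j < n, ∀ x ∈ Icc (j : ℝ) (j + 1), Z.Reg x → ∀ (φ i : ℝ), 0 ≤ i →
      (Z.GoodAt (θ j) x ∨ i = 1) →
      (η * Z.g lam j + Z.qq lam n θ j) / C + exp (-lam * x) * Z.rr lam x φ -
          C * (Z.TT lam μ n θ j ^ 2 / Z.g lam j + (φ - θ j) ^ 2 * Z.g lam j + i * Z.g lam j) ≤
        -(exp (-lam * x) * Z.P lam (Z.VV n θ) x φ) := by
  obtain ⟨C1, m1, hC1, hm1, h1⟩ := pw_good
  obtain ⟨C2, m2, hC2, hm2, h2⟩ := pw_any
  obtain ⟨C3, m3, hC3, hm3, h3⟩ := tau_le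
  obtain ⟨C4, m4, hC4, hm4, h4⟩ := B_calm
  have hC13 : C1 ≤ C1 * C3 ^ 2 := le_mul_of_one_le_right (by linarith) (one_le_pow₀ hC3)
  refine ⟨4 * (C1 * C3 ^ 2) + C2 + C4, min (min m1 m2) (min m3 m4), by linarith only [hC1, hC2, hC4, hC13], by positivity,
    fun Z lam μ η n θ hc hμ j hj x hx hr φ i hi hg => ?_⟩
  set C := 4 * (C1 * C3 ^ 2) + C2 + C4 with hC
  simp only [le_min_iff] at hμ
  have k3 := h3 Z lam μ η n θ hc hμ.2.1 j hj x hx hr
  have k4 := ((h4 Z lam μ η n θ hc hμ.2.2 j hj.le).2.2.1 x hx).1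
  have hg0 := hc.g_pos hj.le
  have hA := Z.A_eq lam j
  have hl1 := hc.lam1
  have hl2 := hc.lam2
  have hη := hc.eta0
  have hC0 : 0 < C := by linarith only [hC1, hC2, hC4, hC13, hl1, hl2]
  set E := exp (-lam * x) with hE
  have hE0 : 0 < E := exp_pos _
  set G := Z.g lam j
  set T := Z.TT lam μ n θ j
  set Q := ∑ a ∈ Z.cell j ∩ Z.VV n θ, (Z.η a - θ j) ^ 2 with hQ
  have hQ0 : 0 ≤ Q := Finset.sum_nonneg fun _ _ => sq_nonneg _
  have e1 : E ≤ exp (-lam * j) := exp_le_exp.2 (by linarith only [hx, hl1, hx.1, mul_nonneg_of_nonpos_of_nonpos (le_of_lt (Mathlib.Tactic.Linarith.sub_neg_of_lt hl1)) (Mathlib.Tactic.Linarith.sub_nonpos_of_le hx.left)])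
  have e2 : exp (-lam * j) ≤ 4 * E := by
    clear * - lam j E x hE hl2 hx hl1 hE0
    have a1 : exp (-lam * j) ≤ exp (11 / 10) * E := by
      rw [hE, ← exp_add]
      exact exp_le_exp.2 (by linarith only [hl2, hx, hl1, hx.2, mul_nonneg_of_nonpos_of_nonpos (le_of_lt (Mathlib.Tactic.Linarith.sub_neg_of_lt hl1)) (Mathlib.Tactic.Linarith.sub_nonpos_of_le hx.right)])
    have a2 : exp (11 / 10 : ℝ) ≤ 4 := by
      have b1 : exp (11 / 10 : ℝ) = exp 1 * exp (1 / 10) := by rw [← exp_add]; norm_num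
      have b2 := exp_one_lt_d9
      have b3 : exp (1 / 10 : ℝ) ≤ 1 / (1 - 1 / 10) := exp_bound_div_one_sub_of_interval
        (by norm_num) (by norm_num)
      have b4 := exp_pos (1 / 10 : ℝ)
      rw [b1]
      (refine le_of_not_gt fun h_nl => ?_; linarith only [h_nl, hl2, b3, hl1, b2, b4, mul_pos_of_neg_of_neg (Mathlib.Tactic.Linarith.sub_neg_of_lt hl1) (Mathlib.Tactic.Linarith.sub_neg_of_lt hl1), mul_nonneg_of_nonpos_of_nonpos (le_of_lt (Mathlib.Tactic.Linarith.sub_neg_of_lt hl1)) (Mathlib.Tactic.Linarith.sub_nonpos_of_le hl2), mul_pos_of_neg_of_neg (Mathlib.Tactic.Linarith.sub_neg_of_lt hl1) (Mathlib.Tactic.Linarith.sub_neg_of_lt h_nl), mul_nonneg_of_nonpos_of_nonpos (Mathlib.Tactic.Linarith.sub_nonpos_of_le hl2) (le_of_lt (Mathlib.Tactic.Linarith.sub_neg_of_lt h_nl)), mul_pos_of_neg_of_neg (Mathlib.Tactic.Linarith.sub_neg_of_lt b2) (Mathlib.Tactic.Linarith.sub_neg_of_lt b4)])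
    linarith only [a1, hE0, a2, mul_nonneg_of_nonpos_of_nonpos (le_of_lt (Mathlib.Tactic.Linarith.sub_neg_of_lt hE0)) (Mathlib.Tactic.Linarith.sub_nonpos_of_le a2)]
  have e3 : exp (-lam * j) * Z.A j = G := by
    rw [hA, ← mul_assoc, ← exp_add]
    simp
  have hA0 : 0 < Z.A j := by rw [hA]; positivity
  have a1 : E * Z.A j ≤ G := by (refine le_of_not_gt fun h_nl => ?_; linarith only [h_nl, e3, hl1, hl2, e1, hA0, mul_pos_of_neg_of_neg (Mathlib.Tactic.Linarith.sub_neg_of_lt hl1) (Mathlib.Tactic.Linarith.sub_neg_of_lt h_nl), mul_nonneg_of_nonpos_of_nonpos (Mathlib.Tactic.Linarith.sub_nonpos_of_le hl2) (le_of_lt (Mathlib.Tactic.Linarith.sub_neg_of_lt h_nl)), mul_nonneg_of_nonpos_of_nonpos (Mathlib.Tactic.Linarith.sub_nonpos_of_le e1) (le_of_lt (Mathlib.Tactic.Linarith.sub_neg_of_lt hA0))])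
  have a2 : G / 4 ≤ E * Z.A j := by (refine le_of_not_gt fun h_nl => ?_; linarith only [h_nl, hE0, e3, hg0, e2, e1, Mathlib.Tactic.Linarith.mul_zero_eq (Mathlib.Tactic.Linarith.sub_neg_of_lt hE0) (sub_eq_zero_of_eq e3), mul_pos_of_neg_of_neg (Mathlib.Tactic.Linarith.sub_neg_of_lt hE0) (Mathlib.Tactic.Linarith.sub_neg_of_lt h_nl), mul_nonneg_of_nonpos_of_nonpos (le_of_lt (Mathlib.Tactic.Linarith.sub_neg_of_lt hg0)) (Mathlib.Tactic.Linarith.sub_nonpos_of_le e2), mul_nonneg_of_nonpos_of_nonpos (Mathlib.Tactic.Linarith.sub_nonpos_of_le e1) (le_of_lt (Mathlib.Tactic.Linarith.sub_neg_of_lt h_nl))])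
  have q1 : Z.qq lam n θ j ≤ 4 * (E * Q) := by
    clear * - Z lam n θ j Q hQ hl1 E hl2 hQ0 e2
    have : Z.qq lam n θ j ≤ exp (-lam * j) * Q := by
      rw [hQ, Finset.mul_sum]
      refine Finset.sum_le_sum fun a ha => mul_le_mul_of_nonneg_right (exp_le_exp.2 ?_)
        (sq_nonneg _)
      have := (Finset.mem_filter.1 (Finset.mem_inter.1 ha).1).2.1
      linarith only [this, hl1, mul_nonneg_of_nonpos_of_nonpos (le_of_lt (Mathlib.Tactic.Linarith.sub_neg_of_lt hl1)) (Mathlib.Tactic.Linarith.sub_nonpos_of_le this)]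
    (refine le_of_not_gt fun h_nl => ?_; linarith only [h_nl, this, hl1, hl2, hQ0, e2, mul_pos_of_neg_of_neg (Mathlib.Tactic.Linarith.sub_neg_of_lt hl1) (Mathlib.Tactic.Linarith.sub_neg_of_lt h_nl), mul_nonneg_of_nonpos_of_nonpos (Mathlib.Tactic.Linarith.sub_nonpos_of_le hl2) (le_of_lt (Mathlib.Tactic.Linarith.sub_neg_of_lt h_nl)), mul_nonneg_of_nonpos_of_nonpos (Mathlib.Tactic.Linarith.sub_nonpos_of_le hQ0) (Mathlib.Tactic.Linarith.sub_nonpos_of_le e2)])
  have hEQ : 0 ≤ E * Q := by positivity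
  have q2 : Z.qq lam n θ j / C ≤ E * Q / C1 := by
    rw [div_le_div_iff₀ hC0 (by linarith only [hC1, hl1, hl2])]
    linarith only [q1, hEQ, hC1, hC2, hC4, hC13, mul_nonneg_of_nonpos_of_nonpos (Mathlib.Tactic.Linarith.sub_nonpos_of_le hC1) (Mathlib.Tactic.Linarith.sub_nonpos_of_le q1), mul_nonneg_of_nonpos_of_nonpos (Mathlib.Tactic.Linarith.sub_nonpos_of_le hC2) (Mathlib.Tactic.Linarith.sub_nonpos_of_le hEQ), mul_nonneg_of_nonpos_of_nonpos (Mathlib.Tactic.Linarith.sub_nonpos_of_le hC4) (Mathlib.Tactic.Linarith.sub_nonpos_of_le hEQ), mul_nonneg_of_nonpos_of_nonpos (Mathlib.Tactic.Linarith.sub_nonpos_of_le hC13) (Mathlib.Tactic.Linarith.sub_nonpos_of_le hEQ)]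
  have q3 : E * Q / C1 ≤ E * Q := div_le_self hEQ hC1
  have b1 : η * G / C ≤ 2 * η * (E * Z.B x) := by
    clear * - G C C4 hg0 hC4 C1 C2 C3 hC1 hC2 hC13 hC3 η E Z x lam hl1 hl2 hη k4
    have c1 : G / C ≤ G / C4 := div_le_div_of_nonneg_left hg0.le (by linarith only [hC4, hl1, hl2]) (by linarith only [hC1, hC2, hC13, hl1, hl2])
    have c2 : 0 ≤ G / C := by positivity
    rw [mul_div_assoc]
    (refine le_of_not_gt fun h_nl => ?_; linarith only [h_nl, hl1, hl2, hη, k4, c1, c2, mul_pos_of_neg_of_neg (Mathlib.Tactic.Linarith.sub_neg_of_lt hl1) (Mathlib.Tactic.Linarith.sub_neg_of_lt h_nl), mul_nonneg_of_nonpos_of_nonpos (Mathlib.Tactic.Linarith.sub_nonpos_of_le hl2) (le_of_lt (Mathlib.Tactic.Linarith.sub_neg_of_lt h_nl)), mul_nonneg_of_nonpos_of_nonpos (Mathlib.Tactic.Linarith.sub_nonpos_of_le hη) (Mathlib.Tactic.Linarith.sub_nonpos_of_le k4), mul_nonneg_of_nonpos_of_nonpos (Mathlib.Tactic.Linarith.sub_nonpos_of_le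 hη) (Mathlib.Tactic.Linarith.sub_nonpos_of_le c1), mul_nonneg_of_nonpos_of_nonpos (Mathlib.Tactic.Linarith.sub_nonpos_of_le hη) (Mathlib.Tactic.Linarith.sub_nonpos_of_le c2)])
  have hT : 0 ≤ T ^ 2 / G := by positivity
  have hd : 0 ≤ (φ - θ j) ^ 2 * G := by positivity
  have hiG : 0 ≤ i * G := by positivity
  rw [add_div]
  rcases hg with hg | rfl
  · have k1 := mul_le_mul_of_nonneg_left (h1 Z lam μ η n θ hc hμ.1.1 j hj x hx hr hg φ) hE0.le
    set τ := Z.tau lam (Z.VV n θ) x (θ j)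
    have t1 : E * (τ ^ 2 / Z.A j) ≤ 4 * C3 ^ 2 * (T ^ 2 / G) := by
      clear * - E τ C3 T lam x k3 Z j hA0 hE0 G hg0 hC3 a2
      have c1 : (E * |τ|) ^ 2 ≤ (C3 * T) ^ 2 := pow_le_pow_left₀ (by positivity) k3 2
      have c2 : E * (τ ^ 2 / Z.A j) = (E * |τ|) ^ 2 / (E * Z.A j) := by
        rw [mul_pow, sq_abs]
        field_simp
      have c3 : 4 * C3 ^ 2 * (T ^ 2 / G) = (C3 * T) ^ 2 / (G / 4) := by
        field_simp
      rw [c2, c3]
      exact div_le_div₀ (by positivity) c1 (by positivity) a2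
    have t2 : C1 * (E * (τ ^ 2 / Z.A j)) ≤ C * (T ^ 2 / G) := by
      clear * - C1 E τ Z j C3 T G t1 hC1 C C2 C4 hT hC2 hC4 hl1 hl2
      have := mul_le_mul_of_nonneg_left t1 (by linarith only [hC1, hl1, hl2] : 0 ≤ C1)
      linarith only [hT, this, hC2, hC4, mul_nonneg_of_nonpos_of_nonpos (Mathlib.Tactic.Linarith.sub_nonpos_of_le hC2) (Mathlib.Tactic.Linarith.sub_nonpos_of_le hT), mul_nonneg_of_nonpos_of_nonpos (Mathlib.Tactic.Linarith.sub_nonpos_of_le hC4) (Mathlib.Tactic.Linarith.sub_nonpos_of_le hT)]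
    have t3 : C1 * ((φ - θ j) ^ 2 * (E * Z.A j)) ≤ C * ((φ - θ j) ^ 2 * G) :=
      mul_le_mul (by linarith only [hC1, hC2, hC4, hC13, hl1, hl2]) (mul_le_mul_of_nonneg_left a1 (sq_nonneg _)) (by positivity) hC0.le
    have t4 : 0 ≤ C * (i * G) := by positivity
    have e : E * (2 * η * Z.B x + Z.rr lam x φ + Q / C1 - C1 * τ ^ 2 / Z.A j -
        C1 * (φ - θ j) ^ 2 * Z.A j) = 2 * η * (E * Z.B x) + E * Z.rr lam x φ + E * Q / C1 -
        C1 * (E * (τ ^ 2 / Z.A j)) - C1 * ((φ - θ j) ^ 2 * (E * Z.A j)) := by ring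
    rw [e] at k1
    clear * - η G C Z lam n θ j E x φ T i C1 C3 C2 C4 Q τ q2 b1 k1 t2 t3 t4; linarith only [q2, b1, k1, t2, t3, t4]
  · have k2 := mul_le_mul_of_nonneg_left (h2 Z lam μ η n θ hc hμ.1.2 j hj x hx hr φ) hE0.le
    have t1 : C2 * (E * Z.A j) ≤ C * G := mul_le_mul (by linarith only [hC1, hC4, hC13, hl1, hl2]) a1 (by positivity) hC0.le
    have t2 : 0 ≤ C * (T ^ 2 / G) := by positivity
    have t3 : 0 ≤ C * ((φ - θ j) ^ 2 * G) := by positivity
    linarith only [q2, q3, b1, k2, t1, t2, t3]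

theorem StepA_ii {f w : ℝ → ℝ} {a b M : ℝ} (hab : a ≤ b) (hf : IntervalIntegrable f volume a b)
    (hw : Measurable w) (hM : ∀ x ∈ Icc a b, |w x| ≤ M) :
    IntervalIntegrable (fun t => w t * f t) volume a b := by
  rw [intervalIntegrable_iff_integrableOn_Icc_of_le hab] at hf ⊢
  exact Integrable.bdd_mul hf hw.aestronglyMeasurable
    ((ae_restrict_iff' measurableSet_Icc).2 (Eventually.of_forall hM))

theorem StepA_iiP (Z : Cfg) {lam : ℝ} (hl : 1 < lam) (V : Finset ℕ) (φ : ℝ) {a b : ℝ}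
    (hab : a ≤ b) : IntervalIntegrable (fun t => Z.P lam V t φ) volume a b := by
  rw [intervalIntegrable_iff_integrableOn_Ioc_of_le hab,
    ← integrable_indicator_iff measurableSet_Ioc]
  refine ((wt_Ioc (by linarith) a b).int_P hl Z V φ).congr (Eventually.of_forall fun t => ?_)
  by_cases ht : t ∈ Ioc a b <;> simp [ht]

theorem cell_ge : ∃ C μ0 : ℝ, 1 ≤ C ∧ 0 < μ0 ∧ ∀ (Z : Cfg) (lam μ η : ℝ) (n : ℕ) (θ : ℕ → ℝ),
    Z.Calm lam μ η n θ → μ ≤ μ0 →
    ∀ j < n, ∀ (S : Set ℝ) (β φ M : ℝ) (w : ℝ → ℝ), MeasurableSet S → 0 ≤ β →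
      volume S ≤ ENNReal.ofReal β →
      (∀ x ∈ Icc (j : ℝ) (j + 1), Z.Reg x → x ∉ S → Z.GoodAt (θ j) x) → Measurable w →
      (∀ x ∈ Icc (j : ℝ) (j + 1), 0 ≤ w x ∧ w x ≤ M) →
      (η * Z.g lam j + Z.qq lam n θ j) / C * (∫ t in (j : ℝ)..(j + 1), w t) +
          (∫ t in (j : ℝ)..(j + 1), exp (-lam * t) * w t * Z.rr lam t φ) -
          C * M * (Z.TT lam μ n θ j ^ 2 / Z.g lam j + (φ - θ j) ^ 2 * Z.g lam j + β * Z.g lam j) ≤
        -∫ t in (j : ℝ)..(j + 1), exp (-lam * t) * w t * Z.P lam (Z.VV n θ) t φ := by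
  obtain ⟨C, m, hC, hm, h⟩ := StepA_pt
  refine ⟨C, m, hC, hm, fun Z lam μ η n θ hc hμ j hj S β φ M w hS hβ hv hg hw hM => ?_⟩
  have hab : (j : ℝ) ≤ j + 1 := by linarith only []
  have hg0 := hc.g_pos hj.le
  have hM0 : 0 ≤ M := (hM j ⟨le_rfl, hab⟩).1.trans (hM j ⟨le_rfl, hab⟩).2
  have hM' : ∀ x ∈ Icc (j : ℝ) (j + 1), |w x| ≤ M := fun x hx => by
    rw [abs_of_nonneg (hM x hx).1]; exact (hM x hx).2
  have hE : Continuous fun t : ℝ => exp (-lam * t) := by fun_prop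
  set G := Z.g lam j
  set a := (η * G + Z.qq lam n θ j) / C
  set b := Z.TT lam μ n θ j ^ 2 / G + (φ - θ j) ^ 2 * G with hb
  have hb0 : 0 ≤ b := by positivity
  have i1 : IntervalIntegrable w volume j (j + 1) := by
    simpa using StepA_ii hab (intervalIntegrable_const (c := (1 : ℝ))) hw hM'
  have i2 : IntervalIntegrable (fun t => exp (-lam * t) * w t * Z.rr lam t φ) volume j (j + 1) := by
    simpa only [mul_assoc] using
      (StepA_ii hab (Z.intervalIntegrable_rr lam φ _ _) hw hM').continuousOn_mul hE.continuousOn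
  have i3 : IntervalIntegrable (fun t => exp (-lam * t) * w t * Z.P lam (Z.VV n θ) t φ) volume
      j (j + 1) := by
    simpa only [mul_assoc] using
      (StepA_ii hab (Z.StepA_iiP hc.lam1 _ φ hab) hw hM').continuousOn_mul hE.continuousOn
  have hv' : volume S ≠ ⊤ := ne_top_of_le_ne_top ENNReal.ofReal_ne_top hv
  have i4 : Integrable (S.indicator fun _ => (1 : ℝ)) :=
    (integrable_indicator_iff hS).2 (integrableOn_const hv')
  have i5 : ∫ t in (j : ℝ)..(j + 1), S.indicator (fun _ => (1 : ℝ)) t ≤ β := by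
    rw [intervalIntegral.integral_of_le hab]
    refine (setIntegral_le_integral i4 (Eventually.of_forall fun t =>
      indicator_nonneg (fun _ _ => zero_le_one) t)).trans ?_
    rw [integral_indicator hS, setIntegral_const, smul_eq_mul, mul_one]
    exact ENNReal.toReal_le_of_le_ofReal hβ hv
  have key : ∫ t in (j : ℝ)..(j + 1), (a * w t + exp (-lam * t) * w t * Z.rr lam t φ -
      (C * M * b + C * M * G * S.indicator (fun _ => (1 : ℝ)) t)) ≤
      ∫ t in (j : ℝ)..(j + 1), -(exp (-lam * t) * w t * Z.P lam (Z.VV n θ) t φ) := by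
    refine intervalIntegral.integral_mono_ae_restrict hab (((i1.const_mul a).add i2).sub
      (intervalIntegrable_const.add (i4.intervalIntegrable.const_mul _))) i3.neg ?_
    filter_upwards [ae_restrict_mem measurableSet_Icc, ae_restrict_of_ae Z.ae_reg] with x hx hr
    have hi : 0 ≤ S.indicator (fun _ => (1 : ℝ)) x := indicator_nonneg (fun _ _ => zero_le_one) x
    have := mul_le_mul_of_nonneg_left (h Z lam μ η n θ hc hμ j hj x hx hr φ _ hi (by
      by_cases hxS : x ∈ S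
      · exact Or.inr (indicator_of_mem hxS _)
      · exact Or.inl (hg x hx hr hxS))) (hM x hx).1
    have h2 : w x * (C * (b + S.indicator (fun _ => (1 : ℝ)) x * G)) ≤
        M * (C * (b + S.indicator (fun _ => (1 : ℝ)) x * G)) :=
      mul_le_mul_of_nonneg_right (hM x hx).2 (by positivity)
    linarith only [this, h2]
  rw [intervalIntegral.integral_neg, intervalIntegral.integral_sub ((i1.const_mul a).add i2)
    (intervalIntegrable_const.add (i4.intervalIntegrable.const_mul _)),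
    intervalIntegral.integral_add (i1.const_mul a) i2, intervalIntegral.integral_const_mul,
    intervalIntegral.integral_add intervalIntegrable_const (i4.intervalIntegrable.const_mul _),
    intervalIntegral.integral_const, intervalIntegral.integral_const_mul, add_sub_cancel_left,
    one_smul] at key
  have := mul_le_mul_of_nonneg_left i5 (by positivity : 0 ≤ C * M * G)
  linarith only [key, this]

theorem StepA_geo (n j : ℕ) : ∑ k ∈ Finset.range n, exp (-|(j : ℝ) - k| / 2) ≤ 6 := by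
  have h1 : exp (-(1 / 2) : ℝ) ≤ 2 / 3 := by
    rw [exp_neg, inv_le_comm₀ (exp_pos _) (by norm_num)]
    have := add_one_le_exp (1 / 2 : ℝ)
    linarith only [this]
  have key : ∀ n : ℕ, ∑ k ∈ Finset.range n, exp (-|(j : ℝ) - k| / 2) ≤
      if n ≤ j then 3 * exp (-|(j : ℝ) - n| / 2) else 6 - 3 * exp (-|(j : ℝ) - n| / 2) := by
    intro n
    induction n with
    | zero => simp; positivity
    | succ n ih =>
      rw [Finset.sum_range_succ]
      have hp := exp_pos (-|(j : ℝ) - n| / 2)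
      rcases lt_trichotomy n j with h | h | h
      · have h' : (n : ℝ) + 1 ≤ j := by exact_mod_cast h
        rw [if_pos h.le] at ih
        have e : exp (-|(j : ℝ) - n| / 2) = exp (-(1 / 2)) * exp (-|(j : ℝ) - (n + 1 : ℕ)| / 2) := by
          rw [← exp_add, Nat.cast_succ, abs_of_nonneg (by linarith only [h']), abs_of_nonneg (by linarith only [h'])]
          congr 1
          ring
        have hq := exp_pos (-|(j : ℝ) - (n + 1 : ℕ)| / 2)
        rw [if_pos (by omega)]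
        linarith only [ih, hp, e, h1, hq, mul_nonneg_of_nonpos_of_nonpos (Mathlib.Tactic.Linarith.sub_nonpos_of_le h1) (le_of_lt (Mathlib.Tactic.Linarith.sub_neg_of_lt hq))]
      · subst h
        rw [if_pos le_rfl] at ih
        rw [if_neg (by omega)]
        have e : exp (-|(n : ℝ) - (n + 1 : ℕ)| / 2) = exp (-(1 / 2)) := by
          rw [Nat.cast_succ, abs_of_nonpos (by linarith only [])]
          congr 1
          ring
        rw [e]
        simp only [sub_self, abs_zero, neg_zero, zero_div, exp_zero] at ih ⊢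
        linarith only [h1, ih]
      · have h' : (j : ℝ) + 1 ≤ n := by exact_mod_cast h
        rw [if_neg (by omega)] at ih
        have e : exp (-|(j : ℝ) - (n + 1 : ℕ)| / 2) = exp (-(1 / 2)) * exp (-|(j : ℝ) - n| / 2) := by
          rw [← exp_add, Nat.cast_succ, abs_of_nonpos (by linarith only [h']), abs_of_nonpos (by linarith only [h'])]
          congr 1
          ring
        rw [if_neg (by omega), e]
        linarith only [ih, h1, hp, mul_nonneg_of_nonpos_of_nonpos (Mathlib.Tactic.Linarith.sub_nonpos_of_le h1) (le_of_lt (Mathlib.Tactic.Linarith.sub_neg_of_lt hp))]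
  have := key n
  have h2 : exp (-|(j : ℝ) - n| / 2) ≤ 1 := exp_le_one_iff.2 (by have := abs_nonneg ((j : ℝ) - n); linarith only [this])
  have h3 := exp_pos (-|(j : ℝ) - n| / 2)
  split_ifs at this <;> linarith only [h2, this, h3]

theorem StepA_int (Z : Cfg) {lam : ℝ} (hl : 1 < lam) (V : Finset ℕ) (k : ℕ) (φ y : ℝ) :
    IntegrableOn (fun t => exp (-lam * t) * chi lam k t * Z.P lam V t φ) (Ioi y) := by
  rw [← integrable_indicator_iff measurableSet_Ioi]
  refine (((wt_Ioi (by linarith) y).mul (measurable_chi lam k) (C := 1) fun t => by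
    rw [abs_of_nonneg (chi_nonneg (by linarith) k t)]; exact chi_le_one lam k t).int_P hl Z V
    φ).congr (Eventually.of_forall fun t => ?_)
  by_cases ht : t ∈ Ioi y <;> simp [ht]

theorem StepA_split (Z : Cfg) {lam : ℝ} (hl : 1 < lam) (V : Finset ℕ) (k n : ℕ) (φ : ℝ) :
    ∫ t in Ioi 0, exp (-lam * t) * chi lam k t * Z.P lam V t φ =
      ∑ j ∈ Finset.range n, (∫ t in (j : ℝ)..(j + 1), exp (-lam * t) * chi lam k t * Z.P lam V t φ) +
        ∫ t in Ioi (n : ℝ), exp (-lam * t) * chi lam k t * Z.P lam V t φ := by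
  have h := intervalIntegral.sum_integral_adjacent_intervals (μ := volume)
    (f := fun t => exp (-lam * t) * chi lam k t * Z.P lam V t φ) (a := fun j : ℕ => (j : ℝ))
    (n := n) fun j _ => by
      rw [intervalIntegrable_iff_integrableOn_Ioc_of_le (by simp)]
      exact (Z.StepA_int hl V k φ j).mono_set Ioc_subset_Ioi_self
  simp only [Nat.cast_succ, Nat.cast_zero] at h
  rw [h, intervalIntegral.integral_interval_add_Ioi (Z.StepA_int hl V k φ 0)
    (Z.StepA_int hl V k φ n)]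

theorem StepA_tail (Z : Cfg) {lam : ℝ} (hl : 1 < lam) (hl2 : lam ≤ 11 / 10) {V : Finset ℕ}
    (hV : V ⊆ Z.s) (n : ℕ) (θ : ℕ → ℝ) :
    ∑ k ∈ Finset.range n, ∫ t in Ioi (n : ℝ), exp (-lam * t) * chi lam k t * Z.P lam V t (θ k) ≤
      4 * Z.EE lam n := by
  have hE := Z.EE_nonneg hl.le n
  rcases Nat.eq_zero_or_pos n with rfl | hn
  · simpa using hE
  rw [← integral_finsetSum _ fun k _ => Z.StepA_int hl V k (θ k) n]
  have i1 : IntegrableOn (fun t : ℝ => 4 * Z.EE lam n * exp n * exp (-t)) (Ioi (n : ℝ)) :=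
    (integrableOn_exp_neg_Ioi _).const_mul _
  refine (setIntegral_mono_ae_restrict (integrable_finsetSum _ fun k _ =>
    Z.StepA_int hl V k (θ k) n) i1 ?_).trans (le_of_eq ?_)
  · filter_upwards [ae_restrict_mem measurableSet_Ioi, ae_restrict_of_ae Z.ae_reg] with t ht hr
    have ht' : (n : ℝ) ≤ t := le_of_lt ht
    have hW := Z.W_nonneg n
    set R := 16 * (lam - 1) ^ 2 * (‖Z.cc n‖ * exp t) + 4 * exp (2 * (t - n)) * Z.W n with hR
    have hR0 : 0 ≤ R := by positivity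
    have s1 : ∑ k ∈ Finset.range n, exp (-lam * t) * chi lam k t * Z.P lam V t (θ k) ≤
        exp (-lam * t) * exp (-2 * lam * (t - n)) * R := by
      refine (Finset.sum_le_sum fun k _ => mul_le_mul_of_nonneg_left
        (Z.P_le (θ k) hl.le hV ht' hr) (mul_nonneg (exp_pos _).le
          (chi_nonneg (by linarith only [hl, hl2]) k t))).trans ?_
      rw [← Finset.sum_mul, ← Finset.mul_sum, sum_chi lam hn]
      exact mul_le_mul_of_nonneg_right (mul_le_mul_of_nonneg_left (one_sub_Om_le _ _)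
        (exp_pos _).le) hR0
    refine s1.trans ?_
    have hu : 0 ≤ (lam - 1) * (t - n) := mul_nonneg (by linarith) (by linarith)
    have s2 : exp (-lam * t) * exp (-2 * lam * (t - n)) * exp t ≤
        exp (-(lam - 1) * n) * (exp n * exp (-t)) := by
      simp only [← exp_add]
      exact exp_le_exp.2 (by linarith only [ht', hu])
    have s3 : exp (-lam * t) * exp (-2 * lam * (t - n)) * exp (2 * (t - n)) ≤
        exp (-lam * n) * (exp n * exp (-t)) := by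
      simp only [← exp_add]
      exact exp_le_exp.2 (by linarith only [hu])
    have s4 := mul_le_mul (show 16 * (lam - 1) ^ 2 ≤ 4 * (lam - 1) by linarith only [hl, hl2, mul_pos_of_neg_of_neg (Mathlib.Tactic.Linarith.sub_neg_of_lt hl) (Mathlib.Tactic.Linarith.sub_neg_of_lt hl), mul_nonneg_of_nonpos_of_nonpos (le_of_lt (Mathlib.Tactic.Linarith.sub_neg_of_lt hl)) (Mathlib.Tactic.Linarith.sub_nonpos_of_le hl2)])
      (mul_le_mul_of_nonneg_left s2 (norm_nonneg (Z.cc n))) (by positivity) (by linarith only [hl])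
    have s5 := mul_le_mul_of_nonneg_left s3 hW
    simp only [hR, EE, g, Wh]
    linarith only [s4, s5]
  · rw [integral_const_mul, integral_exp_neg_Ioi, mul_assoc, ← exp_add]
    simp

theorem line_ge : ∃ C μ0 : ℝ, 1 ≤ C ∧ 0 < μ0 ∧ ∀ (Z : Cfg) (lam μ η : ℝ) (n : ℕ) (θ : ℕ → ℝ),
    Z.Calm lam μ η n θ → μ ≤ μ0 →
    ∀ (S : ℕ → Set ℝ) (β : ℕ → ℝ), (∀ j < n, MeasurableSet (S j) ∧ 0 ≤ β j ∧
        volume (S j) ≤ ENNReal.ofReal (β j) ∧
        ∀ x ∈ Icc (j : ℝ) (j + 1), Z.Reg x → x ∉ S j → Z.GoodAt (θ j) x) →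
      (∑ j ∈ Finset.range n, (η * Z.g lam j + Z.qq lam n θ j +
          lam * ∫ t in (j : ℝ)..(j + 1), exp (-lam * t) * Z.rr lam t (θ j))) / C -
        C * (Z.Err lam μ n θ + ∑ j ∈ Finset.range n, β j * Z.g lam j + Z.EE lam n) ≤
      ∑ k ∈ Finset.range n,
        -(lam * ∫ t in Ioi 0, exp (-lam * t) * chi lam k t * Z.P lam (Z.VV n θ) t (θ k)) := by
  obtain ⟨C, m, hC, hm, h⟩ := cell_ge
  obtain ⟨D, hD, hchi⟩ := chi_le
  obtain ⟨c, hc0, hchi'⟩ := chi_ge
  have he : 1 ≤ exp (2 : ℝ) := one_le_exp (by norm_num)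
  set K := C * (D * exp 2) with hK
  have hK1 : 1 ≤ K := one_le_mul_of_one_le_of_one_le hC (one_le_mul_of_one_le_of_one_le hD he)
  have hCc : 0 < C / c := by positivity
  refine ⟨C / c + 12 * K, m, by linarith only [hK1, hCc], hm, fun Z lam μ η n θ hc hμ S β hS => ?_⟩
  have hl1 := hc.lam1
  have hl2 := hc.lam2
  set G := Z.g lam with hG
  have hG0 : ∀ k, 0 ≤ G k := Z.StepA_g lam
  set T := fun j => Z.TT lam μ n θ j ^ 2 / G j with hT
  have hT0 : ∀ k, 0 ≤ T k := fun k => div_nonneg (sq_nonneg _) (hG0 k)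
  set R := fun j : ℕ => ∫ t in (j : ℝ)..(j + 1), exp (-lam * t) * Z.rr lam t (θ j) with hR
  set I := fun j k : ℕ => ∫ t in (j : ℝ)..(j + 1),
    exp (-lam * t) * chi lam k t * Z.P lam (Z.VV n θ) t (θ k) with hI
  set e := fun j k : ℕ => exp (-|(j : ℝ) - k| / 2) with he'
  have he0 : ∀ j k, 0 ≤ e j k := fun j k => (exp_pos _).le
  have hp : ∀ j, 0 ≤ η * G j + Z.qq lam n θ j := fun j =>
    add_nonneg (mul_nonneg hc.eta0 (hG0 j)) (Z.mm_nonneg (by linarith only [hl1, hl2]) n θ j).2.1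
  have hrr : ∀ (j : ℕ) (w : ℝ → ℝ) (φ : ℝ), (∀ t, 0 ≤ w t) →
      0 ≤ ∫ t in (j : ℝ)..(j + 1), w t * Z.rr lam t φ := fun j w φ hw =>
    intervalIntegral.integral_nonneg_of_ae (by linarith only [hl1, hl2]) (Z.ae_reg.mono fun t ht =>
      mul_nonneg (hw t) (Z.rr_nonneg lam ht φ).1)
  have hR0 : ∀ j, 0 ≤ R j := fun j => hrr j _ _ fun t => (exp_pos _).le
  have hch0 : ∀ k t, 0 ≤ chi lam k t := chi_nonneg (by linarith only [hl1, hl2])
  have hch1 : ∀ k t, |chi lam k t| ≤ 1 := fun k t => by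
    rw [abs_of_nonneg (hch0 k t)]; exact chi_le_one lam k t
  have cell : ∀ j ∈ Finset.range n, ∀ k ∈ Finset.range n,
      (if k = j then ((η * G j + Z.qq lam n θ j) / C + R j) * c else 0) -
        K * (e j k * (T j + β j * G j) + e j k * (θ k - θ j) ^ 2 * G j) ≤ -I j k := by
    intro j hj k _
    have hab : (j : ℝ) ≤ j + 1 := by linarith only [hl1, hl2]
    obtain ⟨s1, s2, s3, s4⟩ := hS j (Finset.mem_range.1 hj)
    have := h Z lam μ η n θ hc hμ j (Finset.mem_range.1 hj) (S j) (β j) (θ k)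
      (D * exp 2 * e j k) (chi lam k) s1 s2 s3 s4 (measurable_chi lam k) fun x hx => by
        clear * - lam k x D e j hch0 hchi hl1 hl2 hx he' hD
        refine ⟨hch0 k x, (hchi lam hl1.le hl2 k x ((Nat.cast_nonneg j).trans hx.1)).trans ?_⟩
        rw [mul_assoc, he', ← exp_add]
        refine mul_le_mul_of_nonneg_left (exp_le_exp.2 ?_) (by linarith only [hD, hl1, hl2])
        have b1 := abs_sub_le (j : ℝ) x k
        have b2 : |(j : ℝ) - x| ≤ 1 := abs_le.2 ⟨by linarith only [hx, hx.2], by linarith only [hl1, hl2, hx, hx.1]⟩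
        have b3 := abs_nonneg (x - k)
        linarith only [hl1, hl2, b1, b2, b3]
    refine le_trans (sub_le_sub ?_ (le_of_eq (by rw [hK]; ring))) this
    split_ifs with hkj
    · subst hkj
      have hE : Continuous fun t : ℝ => exp (-lam * t) := by fun_prop
      have i0 := (Z.intervalIntegrable_rr lam (θ k) k (k + 1)).continuousOn_mul hE.continuousOn
      have p1 : c ≤ ∫ t in (k : ℝ)..(k + 1), chi lam k t := by
        have := intervalIntegral.integral_mono_on hab (intervalIntegrable_const (c := c))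
          (show IntervalIntegrable (chi lam k) volume k (k + 1) by
            simpa using StepA_ii hab (intervalIntegrable_const (c := (1 : ℝ)))
              (measurable_chi lam k) fun x _ => hch1 k x)
          fun x hx => hchi' lam hl1.le hl2 k x hx.1 hx.2
        simpa using this
      have p2 : R k * c ≤ ∫ t in (k : ℝ)..(k + 1),
          exp (-lam * t) * chi lam k t * Z.rr lam t (θ k) := by
        rw [hR, ← intervalIntegral.integral_mul_const]
        refine intervalIntegral.integral_mono_ae_restrict hab (i0.mul_const c)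
          ((StepA_ii hab i0 (measurable_chi lam k) fun x _ => hch1 k x).congr
            fun x _ => by ring) ?_
        filter_upwards [ae_restrict_mem measurableSet_Icc, ae_restrict_of_ae Z.ae_reg]
          with x hx hr
        have := mul_le_mul_of_nonneg_left (hchi' lam hl1.le hl2 k x hx.1 hx.2)
          (mul_nonneg (exp_pos (-lam * x)).le (Z.rr_nonneg lam hr (θ k)).1)
        linarith only [this]
      rw [add_mul]
      exact add_le_add (mul_le_mul_of_nonneg_left p1 (div_nonneg (hp k) (by linarith only [hC, hl1, hl2]))) p2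
    · exact add_nonneg (mul_nonneg (div_nonneg (hp j) (by linarith only [hC, hl1, hl2]))
        (intervalIntegral.integral_nonneg hab fun t _ => hch0 k t))
        (hrr j (fun t => exp (-lam * t) * chi lam k t) _ fun t =>
          mul_nonneg (exp_pos _).le (hch0 k t))
  have hβG : ∀ j ∈ Finset.range n, 0 ≤ β j * G j := fun j hj =>
    mul_nonneg (hS j (Finset.mem_range.1 hj)).2.1 (hG0 j)
  have row : ∀ j ∈ Finset.range n, ((η * G j + Z.qq lam n θ j) / C + R j) * c -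
      K * (6 * (T j + β j * G j) + ∑ k ∈ Finset.range (n + 1), e j k * (θ k - θ j) ^ 2 * G j) ≤
      -∑ k ∈ Finset.range n, I j k := by
    intro j hj
    have := Finset.sum_le_sum (cell j hj)
    rw [Finset.sum_sub_distrib, Finset.sum_ite_eq', if_pos hj, ← Finset.mul_sum,
      Finset.sum_add_distrib, ← Finset.sum_mul, Finset.sum_neg_distrib] at this
    refine le_trans (sub_le_sub_left (mul_le_mul_of_nonneg_left (add_le_add ?_ ?_)
      (by linarith only [hK1, hl1, hl2])) _) this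
    · exact mul_le_mul_of_nonneg_right (StepA_geo n j) (add_nonneg (hT0 j) (hβG j hj))
    · rw [Finset.sum_range_succ]
      exact le_add_of_nonneg_right (mul_nonneg (mul_nonneg (he0 _ _) (sq_nonneg _)) (hG0 _))
  have tot := Finset.sum_le_sum row
  rw [Finset.sum_sub_distrib, ← Finset.mul_sum, Finset.sum_add_distrib (f := fun j =>
    6 * (T j + β j * G j)), ← Finset.mul_sum, Finset.sum_add_distrib (f := T),
    Finset.sum_neg_distrib, Finset.sum_comm (f := I)] at tot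
  have tail := Z.StepA_tail hl1 hl2 (Z.VV_subset n θ) n θ
  have hE := Z.EE_nonneg hl1.le n
  have r1 : ∑ k ∈ Finset.range n, -(lam * ∫ t in Ioi 0, exp (-lam * t) * chi lam k t *
      Z.P lam (Z.VV n θ) t (θ k)) = lam * -(∑ k ∈ Finset.range n, ∑ j ∈ Finset.range n, I j k) -
      lam * ∑ k ∈ Finset.range n, ∫ t in Ioi (n : ℝ), exp (-lam * t) * chi lam k t *
        Z.P lam (Z.VV n θ) t (θ k) := by
    rw [Finset.sum_neg_distrib, ← Finset.mul_sum,
      Finset.sum_congr rfl fun k _ => Z.StepA_split hl1 (Z.VV n θ) k n (θ k),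
      Finset.sum_add_distrib]
    ring
  have r2 : (∑ j ∈ Finset.range n, (η * G j + Z.qq lam n θ j + lam * R j)) / (C / c + 12 * K) ≤
      lam * ∑ j ∈ Finset.range n, ((η * G j + Z.qq lam n θ j) / C + R j) * c := by
    clear * - n η G Z lam θ R C c K hp hR0 hl1 hCc D hK1 hC hc0 hl2
    rw [Finset.sum_div, Finset.mul_sum]
    refine Finset.sum_le_sum fun j _ => ?_
    have a0 := hp j
    have a1 := hR0 j
    refine (div_le_div_of_nonneg_left (by positivity) hCc (by linarith only [hK1, hl1, hl2])).trans ?_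
    rw [div_div_eq_mul_div, mul_div_right_comm, ← mul_assoc, add_div, mul_add]
    refine mul_le_mul_of_nonneg_right (add_le_add (le_mul_of_one_le_left (by positivity) hl1.le)
      (div_le_self (by positivity) hC)) hc0.le
  set X1 := ∑ j ∈ Finset.range n, T j with hX1
  set X2 := ∑ j ∈ Finset.range n, ∑ k ∈ Finset.range (n + 1), e j k * (θ k - θ j) ^ 2 * G j
    with hX2
  set X3 := ∑ j ∈ Finset.range n, β j * G j
  have hq : ∀ j, 0 ≤ ∑ k ∈ Finset.range (n + 1), e j k * (θ k - θ j) ^ 2 * G j := fun j =>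
    Finset.sum_nonneg fun k _ => mul_nonneg (mul_nonneg (he0 _ _) (sq_nonneg _)) (hG0 _)
  have x1 : 0 ≤ X1 := Finset.sum_nonneg fun j _ => hT0 j
  have x2 : 0 ≤ X2 := Finset.sum_nonneg fun j _ => hq j
  have x3 : 0 ≤ X3 := Finset.sum_nonneg hβG
  have r3 : X1 + X2 ≤ Z.Err lam μ n θ := by
    rw [Err, Finset.sum_range_succ, Finset.sum_range_succ (n := n)
      fun j => ∑ k ∈ Finset.range (n + 1), exp (-|(j : ℝ) - k| / 2) * (θ k - θ j) ^ 2 * Z.g lam j]
    exact add_le_add (le_add_of_nonneg_right (hT0 n)) (le_add_of_nonneg_right (hq n))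
  rw [r1]
  have u1 := mul_le_mul_of_nonneg_left tot (by linarith only [hl1, hl2] : 0 ≤ lam)
  have u2 := mul_le_mul_of_nonneg_left tail (by linarith only [hl1, hl2] : 0 ≤ lam)
  have u3 : lam * (K * (6 * (X1 + X3) + X2)) ≤ 2 * (K * (6 * (Z.Err lam μ n θ + X3))) :=
    mul_le_mul (by linarith only [hl1, hl2]) (mul_le_mul_of_nonneg_left (by linarith only [x2, r3]) (by linarith only [hK1, hl1, hl2]))
      (by clear * - K X1 X3 X2 C D hC hD x1 x3 x2; positivity) (by norm_num)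
  have u4 : lam * (4 * Z.EE lam n) ≤ 12 * K * Z.EE lam n := by
    rw [← mul_assoc]
    exact mul_le_mul_of_nonneg_right (by linarith only [hK1, hl1, hl2]) hE
  have u5 : 0 ≤ C / c * (Z.Err lam μ n θ + X3 + Z.EE lam n) := mul_nonneg hCc.le (by linarith only [hE, x1, x2, x3, r3])
  linarith only [r2, u1, u2, u3, u4, u5]

end Cfg

end

end Pool.Agent.MinMod
end

-- merged part: Pool.Agent.Work.MP_f62247_an.StepB
section
/-!
The gain of the steps.

`Mc_step`: linearity (`Wt.int_P` with `wt_Ioi`, `Wt.mul`).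
`mass_ge`: zeros not in `VV` give exactly `Mass`, and `Mass ≥ c ∑_j ∑_{cell j \ VV} e^(-lam ξ) |Sg (η-θ j)|` (`chi_ge`).  For `a ∈ VV`, `ms a (θ k) = 0` if
`|η - θ k| ≤ π / lam` (`Sg_eq`), otherwise `ms ≥ -2π` and, for `a ∈ cell j`, `j < n`, `|θ k - θ j| ≥ 1`: loss `≤ C e^(-|j-k|) (θ k-θ j)² μ g j` (`chi_le`, `B_calm`);
for `ξ ≥ n`: `∑_k chi k ξ ≤ e^(-2 lam (ξ-n))`, loss `≤ C Wh n`.
-/

open Real MeasureTheory Set Filter Topology

namespace Pool.Agent.MinMod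

noncomputable section

namespace Cfg

theorem StepB_int (Z : Cfg) {lam : ℝ} (h : 1 < lam) (V : Finset ℕ) (k : ℕ) (θ : ℝ) :
    IntegrableOn (fun t => exp (-lam * t) * omk lam k t * Z.P lam V t θ) (Ioi 0) := by
  rw [← integrable_indicator_iff measurableSet_Ioi]
  refine (((wt_Ioi (by linarith) 0).mul (measurable_omk lam k) (C := 1) fun t => by
    rw [abs_of_pos (KerO_omk lam k t).1]
    exact (KerO_omk lam k t).2).int_P h Z V θ).congr (Eventually.of_forall fun t => ?_)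
  by_cases ht : t ∈ Ioi (0 : ℝ)
  · simp only [Set.indicator_of_mem ht]
  · simp only [Set.indicator_of_notMem ht, zero_mul]

theorem Mc_step (Z : Cfg) {lam : ℝ} (h1 : 1 < lam) (V : Finset ℕ) (k : ℕ) (θ : ℝ) :
    Z.Mc lam V (omk lam (k + 1)) θ - Z.Mc lam V (omk lam k) θ =
      -(lam * ∫ t in Ioi 0, exp (-lam * t) * chi lam k t * Z.P lam V t θ) +
        ∑ a ∈ Z.s.filter (fun a => 0 ≤ Z.ξ a),
          chi lam k (Z.ξ a) * exp (-lam * Z.ξ a) * Z.ms lam V a θ := by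
  simp only [Mc, chi, mul_sub, sub_mul, Finset.sum_sub_distrib]
  rw [integral_sub (Z.StepB_int h1 V k θ) (Z.StepB_int h1 V (k + 1) θ)]
  ring

theorem StepB_Err {Z : Cfg} {lam μ η : ℝ} {n : ℕ} {θ : ℕ → ℝ} (h : Z.Calm lam μ η n θ) :
    0 ≤ Z.Err lam μ n θ ∧ ∑ j ∈ Finset.range n, ∑ k ∈ Finset.range n,
      exp (-|(j : ℝ) - k| / 2) * (θ k - θ j) ^ 2 * Z.g lam j ≤ Z.Err lam μ n θ := by
  have hg : ∀ j ∈ Finset.range (n + 1), 0 ≤ Z.g lam j := fun j hj =>
    (h.g_pos (Nat.lt_succ_iff.1 (Finset.mem_range.1 hj))).le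
  have h1 : 0 ≤ ∑ j ∈ Finset.range (n + 1), Z.TT lam μ n θ j ^ 2 / Z.g lam j :=
    Finset.sum_nonneg fun j hj => div_nonneg (sq_nonneg _) (hg j hj)
  have h2 : ∀ j ∈ Finset.range (n + 1), ∀ k : ℕ,
      0 ≤ exp (-|(j : ℝ) - k| / 2) * (θ k - θ j) ^ 2 * Z.g lam j := fun j hj k =>
    mul_nonneg (by positivity) (hg j hj)
  have hs : Finset.range n ⊆ Finset.range (n + 1) := Finset.range_subset_range.2 (Nat.le_succ n)
  refine ⟨add_nonneg h1 (Finset.sum_nonneg fun j hj => Finset.sum_nonneg fun k _ => h2 j hj k),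
    le_trans ?_ (le_add_of_nonneg_left h1)⟩
  refine le_trans (Finset.sum_le_sum fun j hj =>
    Finset.sum_le_sum_of_subset_of_nonneg hs fun k _ _ => h2 j (hs hj) k) ?_
  exact Finset.sum_le_sum_of_subset_of_nonneg hs fun j hj _ =>
    Finset.sum_nonneg fun k _ => h2 j hj k

theorem StepB_ms {Z : Cfg} {lam : ℝ} (h1 : 1 < lam) (h2 : lam ≤ 11 / 10) {V : Finset ℕ} {a : ℕ}
    {φ ψ : ℝ} (h : a ∈ V → |Z.η a - ψ| ≤ 1 / 4) :
    (if a ∈ V then 0 else 2 * π * |Sg lam (Z.η a - φ)|) - 2 * π * min 1 ((φ - ψ) ^ 2) ≤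
      Z.ms lam V a φ := by
  have h0 : 0 ≤ min 1 ((φ - ψ) ^ 2) := le_min zero_le_one (sq_nonneg _)
  have hp := pi_pos
  rw [ms]
  by_cases ha : a ∈ V
  · rw [if_pos ha, if_pos ha]
    rcases le_total |φ - ψ| 1 with h3 | h3
    · have h4 : |Z.η a - φ| ≤ π / lam := by
        rw [le_div_iff₀ (by linarith only [h1, h2])]
        have h5 := abs_sub_le (Z.η a) ψ φ
        rw [abs_sub_comm ψ] at h5
        have h6 : |Z.η a - φ| ≤ 5 / 4 := by linarith only [h3, h5, h, ha, h ha]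
        have h7 := mul_le_mul h6 h2 (by linarith only [h1, h2]) (by norm_num)
        linarith only [h1, h2, h7, pi_gt_three]
      rw [Sg_eq h1 h4]
      (refine le_of_not_gt fun h_nl => ?_; linarith only [h_nl, h1, h2, h0, hp, mul_pos_of_neg_of_neg (Mathlib.Tactic.Linarith.sub_neg_of_lt h1) (Mathlib.Tactic.Linarith.sub_neg_of_lt h_nl), mul_nonneg_of_nonpos_of_nonpos (Mathlib.Tactic.Linarith.sub_nonpos_of_le h2) (le_of_lt (Mathlib.Tactic.Linarith.sub_neg_of_lt h_nl)), mul_nonneg_of_nonpos_of_nonpos (Mathlib.Tactic.Linarith.sub_nonpos_of_le h0) (le_of_lt (Mathlib.Tactic.Linarith.sub_neg_of_lt hp))])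
    · rw [min_eq_left (by rw [← sq_abs]; linarith only [h3, mul_nonneg_of_nonpos_of_nonpos (Mathlib.Tactic.Linarith.sub_nonpos_of_le h3) (Mathlib.Tactic.Linarith.sub_nonpos_of_le h3)])]
      have h4 := abs_sin_le_one (lam * (Z.η a - φ))
      have h5 := abs_nonneg (Sg lam (Z.η a - φ))
      (refine le_of_not_gt fun h_nl => ?_; linarith only [h_nl, h1, h2, hp, h4, h5, mul_pos_of_neg_of_neg (Mathlib.Tactic.Linarith.sub_neg_of_lt h1) (Mathlib.Tactic.Linarith.sub_neg_of_lt h_nl), mul_nonneg_of_nonpos_of_nonpos (Mathlib.Tactic.Linarith.sub_nonpos_of_le h2) (le_of_lt (Mathlib.Tactic.Linarith.sub_neg_of_lt h_nl)), mul_nonneg_of_nonpos_of_nonpos (le_of_lt (Mathlib.Tactic.Linarith.sub_neg_of_lt hp)) (Mathlib.Tactic.Linarith.sub_nonpos_of_le h4), mul_nonneg_of_nonpos_of_nonpos (le_of_lt (Mathlib.Tactic.Linarith.sub_neg_of_lt hp)) (Mathlib.Tactic.Linarith.sub_nonpos_of_le h5)])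
  · rw [if_neg ha, if_neg ha]
    (refine le_of_not_gt fun h_nl => ?_; linarith only [h_nl, h1, h2, h0, hp, mul_pos_of_neg_of_neg (Mathlib.Tactic.Linarith.sub_neg_of_lt h1) (Mathlib.Tactic.Linarith.sub_neg_of_lt h_nl), mul_nonneg_of_nonpos_of_nonpos (Mathlib.Tactic.Linarith.sub_nonpos_of_le h2) (le_of_lt (Mathlib.Tactic.Linarith.sub_neg_of_lt h_nl)), mul_nonneg_of_nonpos_of_nonpos (Mathlib.Tactic.Linarith.sub_nonpos_of_le h0) (le_of_lt (Mathlib.Tactic.Linarith.sub_neg_of_lt hp))])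

theorem StepB_tail {lam : ℝ} (n : ℕ) (t : ℝ) :
    ∑ k ∈ Finset.range n, chi lam k t ≤ exp (-2 * lam * (t - n)) := by
  rcases Nat.eq_zero_or_pos n with rfl | hn
  · simpa using (exp_pos _).le
  · rw [sum_chi lam hn]
    exact one_sub_Om_le _ _

theorem StepB_loss : ∃ C μ0 : ℝ, 1 ≤ C ∧ 0 < μ0 ∧ ∀ (Z : Cfg) (lam μ η : ℝ) (n : ℕ) (θ : ℕ → ℝ),
    Z.Calm lam μ η n θ → μ ≤ μ0 →
    ∑ a ∈ Z.s.filter (fun a => 0 ≤ Z.ξ a), ∑ k ∈ Finset.range n,
      chi lam k (Z.ξ a) * exp (-lam * Z.ξ a) * min 1 ((θ k - θ (ki n (Z.ξ a))) ^ 2) ≤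
        C * (Z.Err lam μ n θ + Z.EE lam n) := by
  obtain ⟨C1, hC1, H1⟩ := chi_le
  obtain ⟨C2, μ2, hC2, hμ2, H2⟩ := B_calm
  have he : 1 ≤ exp 2 := one_le_exp (by norm_num)
  have hC : 1 ≤ C1 * exp 2 * C2 := one_le_mul_of_one_le_of_one_le
    (one_le_mul_of_one_le_of_one_le hC1 he) hC2
  refine ⟨C1 * exp 2 * C2, min μ2 1, hC, lt_min hμ2 one_pos, fun Z lam μ η n θ h hμ => ?_⟩
  have l1 := h.lam1
  have l0 : 0 ≤ lam := by linarith
  have m0 : ∀ x : ℝ, 0 ≤ min 1 (x ^ 2) := fun x => le_min zero_le_one (sq_nonneg _)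
  rw [Finset.sum_filter]
  refine (Z.Conv_Ssplit (fun a => ?_) n le_rfl (exp_pos (-lam * n)).le (fun a ha => ?_)
    fun a ha => ?_).trans ?_
  · split_ifs
    · exact Finset.sum_nonneg fun k _ =>
        mul_nonneg (mul_nonneg (chi_nonneg l0 _ _) (exp_pos _).le) (m0 _)
    · exact le_rfl
  · rw [if_neg (not_le.2 ha), zero_mul]
  · rw [if_pos ((Nat.cast_nonneg n).trans ha), w0_of_nonpos (by linarith)]
    calc _ ≤ ∑ k ∈ Finset.range n, chi lam k (Z.ξ a) * exp (-lam * Z.ξ a) :=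
          Finset.sum_le_sum fun k _ => mul_le_of_le_one_right
            (mul_nonneg (chi_nonneg l0 _ _) (exp_pos _).le) (min_le_left _ _)
      _ ≤ exp (-2 * lam * (Z.ξ a - n)) * exp (-lam * Z.ξ a) := by
          rw [← Finset.sum_mul]
          exact mul_le_mul_of_nonneg_right (StepB_tail n _) (exp_pos _).le
      _ ≤ _ := by
          rw [← exp_add, ← exp_add, exp_le_exp]
          linarith only [ha, l1, mul_nonneg_of_nonpos_of_nonpos (le_of_lt (Mathlib.Tactic.Linarith.sub_neg_of_lt l1)) (Mathlib.Tactic.Linarith.sub_nonpos_of_le ha)]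
  · have hE := StepB_Err h
    have hW : exp (-lam * n) * Z.W n ≤ Z.EE lam n :=
      le_add_of_nonneg_left (mul_nonneg (by linarith only [l1]) (h.g_pos le_rfl).le)
    have hE0 := Z.EE_nonneg l1.le n
    have key : ∀ i ∈ Finset.range n, (∑ a ∈ Z.cell i, if 0 ≤ Z.ξ a then ∑ k ∈ Finset.range n,
        chi lam k (Z.ξ a) * exp (-lam * Z.ξ a) * min 1 ((θ k - θ (ki n (Z.ξ a))) ^ 2) else 0) ≤
        C1 * exp 2 * C2 * ∑ k ∈ Finset.range n,
          exp (-|(i : ℝ) - k| / 2) * (θ k - θ i) ^ 2 * Z.g lam i := by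
      intro i hi
      have hi' := (Finset.mem_range.1 hi).le
      have hg := h.g_pos hi'
      have h3 := (H2 Z lam μ η n θ h (hμ.trans (min_le_left _ _)) i hi').2.2.2
      have h4 : ∑ a ∈ Z.cell i, exp (-lam * Z.ξ a) ≤ C2 * Z.g lam i := by
        refine h3.trans (mul_le_mul_of_nonneg_right ?_ hg.le)
        exact mul_le_of_le_one_right (by linarith only [hC2]) (hμ.trans (min_le_right _ _))
      calc _ ≤ ∑ a ∈ Z.cell i, (C1 * exp 2 * ∑ k ∈ Finset.range n,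
            exp (-|(i : ℝ) - k| / 2) * (θ k - θ i) ^ 2) * exp (-lam * Z.ξ a) := by
            refine Finset.sum_le_sum fun a ha => ?_
            have h5 := (Finset.mem_filter.1 ha).2
            have h6 : 0 ≤ Z.ξ a := (Nat.cast_nonneg i).trans h5.1
            rw [if_pos h6, Z.ki_of_mem_cell hi' ha, Finset.mul_sum, Finset.sum_mul]
            refine Finset.sum_le_sum fun k _ => ?_
            have h7 : chi lam k (Z.ξ a) ≤ C1 * (exp 2 * exp (-|(i : ℝ) - k| / 2)) := by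
              refine (H1 lam l1.le h.lam2 k _ h6).trans (mul_le_mul_of_nonneg_left ?_ (by linarith only [hC1]))
              rw [← exp_add, exp_le_exp]
              have h8 := abs_sub_le (i : ℝ) (Z.ξ a) k
              have h9 : |(i : ℝ) - Z.ξ a| ≤ 1 := abs_le.2 ⟨by linarith only [h5, h5.2], by linarith only [h5, h5.1]⟩
              have h10 := abs_nonneg (Z.ξ a - k)
              linarith only [h8, h9, h10]
            calc _ ≤ C1 * (exp 2 * exp (-|(i : ℝ) - k| / 2)) * exp (-lam * Z.ξ a) *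
                  (θ k - θ i) ^ 2 :=
                  mul_le_mul (mul_le_mul_of_nonneg_right h7 (exp_pos _).le) (min_le_right _ _)
                    (m0 _) (by positivity)
              _ = _ := by ring
        _ ≤ (C1 * exp 2 * ∑ k ∈ Finset.range n,
            exp (-|(i : ℝ) - k| / 2) * (θ k - θ i) ^ 2) * (C2 * Z.g lam i) := by
            rw [← Finset.mul_sum]
            exact mul_le_mul_of_nonneg_left h4 (by positivity)
        _ = _ := by
            rw [← Finset.sum_mul]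
            ring
    have h5 := Finset.sum_le_sum key
    rw [← Finset.mul_sum] at h5
    have h6 := mul_le_mul_of_nonneg_left hE.2 (zero_le_one.trans hC)
    have h7 := le_mul_of_one_le_left hE0 hC
    rw [mul_add]
    linarith only [hW, h5, h6, h7]

theorem mass_ge : ∃ C μ0 : ℝ, 1 ≤ C ∧ 0 < μ0 ∧ ∀ (Z : Cfg) (lam μ η : ℝ) (n : ℕ) (θ : ℕ → ℝ),
    Z.Calm lam μ η n θ → μ ≤ μ0 →
    (∑ j ∈ Finset.range n, ∑ a ∈ Z.cell j \ Z.VV n θ,
        exp (-lam * Z.ξ a) * |Sg lam (Z.η a - θ j)|) / C ≤ Z.Mass lam n θ ∧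
      Z.Mass lam n θ - C * (Z.Err lam μ n θ + Z.EE lam n) ≤
        ∑ k ∈ Finset.range n, ∑ a ∈ Z.s.filter (fun a => 0 ≤ Z.ξ a),
          chi lam k (Z.ξ a) * exp (-lam * Z.ξ a) * Z.ms lam (Z.VV n θ) a (θ k) := by
  obtain ⟨c, hc, H1⟩ := chi_ge
  obtain ⟨C2, μ2, hC2, hμ2, H2⟩ := StepB_loss
  have hp := pi_gt_three
  have hc' : 0 < c⁻¹ := inv_pos.2 hc
  have hC : 0 < c⁻¹ + 2 * π * C2 := by positivity
  refine ⟨c⁻¹ + 2 * π * C2, μ2, by linarith only [hC2, hp, hc', hC, mul_nonneg_of_nonpos_of_nonpos (Mathlib.Tactic.Linarith.sub_nonpos_of_le hC2) (le_of_lt (Mathlib.Tactic.Linarith.sub_neg_of_lt hp))], hμ2, fun Z lam μ η n θ h hμ => ⟨?_, ?_⟩⟩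
  · have l0 : 0 ≤ lam := by linarith [h.lam1]
    rw [Finset.sum_div]
    refine Finset.sum_le_sum fun k _ => ?_
    rw [Finset.sum_div]
    refine le_trans (Finset.sum_le_sum fun a ha => ?_) (Finset.sum_le_sum_of_subset_of_nonneg
      (s := Z.cell k \ Z.VV n θ) (Finset.sdiff_subset_sdiff (fun a ha => ?_) le_rfl) fun a _ _ =>
        mul_nonneg (mul_nonneg (chi_nonneg l0 _ _) (exp_pos _).le) (by positivity))
    · have h5 := (Finset.mem_filter.1 (Finset.mem_sdiff.1 ha).1).2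
      have h6 := H1 lam h.lam1.le h.lam2 k _ h5.1 h5.2.le
      have h7 : 0 ≤ exp (-lam * Z.ξ a) * |Sg lam (Z.η a - θ k)| := by positivity
      calc _ ≤ exp (-lam * Z.ξ a) * |Sg lam (Z.η a - θ k)| / c⁻¹ :=
            div_le_div_of_nonneg_left h7 hc' (le_add_of_nonneg_right (by positivity))
        _ = c * 1 * (exp (-lam * Z.ξ a) * |Sg lam (Z.η a - θ k)|) := by
            rw [div_inv_eq_mul]
            ring
        _ ≤ chi lam k (Z.ξ a) * (2 * π) * (exp (-lam * Z.ξ a) * |Sg lam (Z.η a - θ k)|) :=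
            mul_le_mul_of_nonneg_right (mul_le_mul h6 (by linarith) zero_le_one (hc.le.trans h6)) h7
        _ = _ := by ring
    · have h5 := Finset.mem_filter.1 ha
      exact Finset.mem_filter.2 ⟨h5.1, (Nat.cast_nonneg k).trans h5.2.1⟩
  · have l0 : 0 ≤ lam := by linarith [h.lam1]
    have h3 := H2 Z lam μ η n θ h hμ
    rw [Finset.sum_comm] at h3
    have h4 : 0 ≤ Z.Err lam μ n θ + Z.EE lam n :=
      add_nonneg (StepB_Err h).1 (Z.EE_nonneg h.lam1.le n)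
    have h5 : Z.Mass lam n θ - 2 * π * ∑ k ∈ Finset.range n,
        ∑ a ∈ Z.s.filter (fun a => 0 ≤ Z.ξ a),
          chi lam k (Z.ξ a) * exp (-lam * Z.ξ a) * min 1 ((θ k - θ (ki n (Z.ξ a))) ^ 2) ≤
        ∑ k ∈ Finset.range n, ∑ a ∈ Z.s.filter (fun a => 0 ≤ Z.ξ a),
          chi lam k (Z.ξ a) * exp (-lam * Z.ξ a) * Z.ms lam (Z.VV n θ) a (θ k) := by
      rw [Mass, Finset.mul_sum, ← Finset.sum_sub_distrib]
      refine Finset.sum_le_sum fun k _ => ?_
      rw [Finset.sdiff_eq_filter, Finset.sum_filter (fun a => a ∉ Z.VV n θ), Finset.mul_sum,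
        ← Finset.sum_sub_distrib]
      refine Finset.sum_le_sum fun a _ => ?_
      have h6 := mul_le_mul_of_nonneg_left (StepB_ms (Z := Z) h.lam1 h.lam2 (V := Z.VV n θ) (a := a)
        (φ := θ k) (ψ := θ (ki n (Z.ξ a))) fun ha => (Finset.mem_filter.1 ha).2)
        (mul_nonneg (chi_nonneg l0 k (Z.ξ a)) (exp_pos (-lam * Z.ξ a)).le)
      refine le_of_eq_of_le ?_ h6
      by_cases ha : a ∈ Z.VV n θ
      · rw [if_pos ha, if_neg (not_not.2 ha)]
        ring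
      · rw [if_neg ha, if_pos ha]
        ring
    have h6 := mul_le_mul_of_nonneg_left h3 (by positivity : 0 ≤ 2 * π)
    have h7 := mul_nonneg hc'.le h4
    rw [add_mul, mul_assoc]
    linarith only [h5, h6, h7]

theorem step_sum : ∃ C μ0 : ℝ, 1 ≤ C ∧ 0 < μ0 ∧ ∀ (Z : Cfg) (lam μ η : ℝ) (n : ℕ) (θ : ℕ → ℝ),
    Z.Calm lam μ η n θ → μ ≤ μ0 →
    ∀ κ : ℝ, 0 ≤ κ → κ ≤ 1 → ∀ (S : ℕ → Set ℝ) (β : ℕ → ℝ), (∀ j < n, MeasurableSet (S j) ∧
        0 ≤ β j ∧ volume (S j) ≤ ENNReal.ofReal (β j) ∧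
        ∀ x ∈ Icc (j : ℝ) (j + 1), Z.Reg x → x ∉ S j → Z.GoodAt (θ j) x) →
      (1 - κ) * Z.Mass lam n θ + η / C * ∑ j ∈ Finset.range n, Z.g lam j +
          κ / C * ∑ j ∈ Finset.range n, (Z.mm lam n θ j + Z.qq lam n θ j) -
        C * (Z.Err lam μ n θ + ∑ j ∈ Finset.range n, β j * Z.g lam j + Z.EE lam n) ≤
      ∑ k ∈ Finset.range n, (Z.Mc lam (Z.VV n θ) (omk lam (k + 1)) (θ k) -
        Z.Mc lam (Z.VV n θ) (omk lam k) (θ k)) := by
  obtain ⟨C1, μ1, hC1, hμ1, H1⟩ := line_ge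
  obtain ⟨C2, μ2, hC2, hμ2, H2⟩ := mass_ge
  refine ⟨C1 + C2, min μ1 μ2, by linarith, lt_min hμ1 hμ2,
    fun Z lam μ η n θ h hμ κ k0 k1 S β hS => ?_⟩
  have l0 : 0 ≤ lam := by linarith [h.lam1]
  have e1 := H1 Z lam μ η n θ h (hμ.trans (min_le_left _ _)) S β hS
  obtain ⟨e2, e3⟩ := H2 Z lam μ η n θ h (hμ.trans (min_le_right _ _))
  simp only [Z.Mc_step h.lam1, mm, Finset.sum_add_distrib, ← Finset.mul_sum] at e1 ⊢
  have p1 : 0 ≤ ∑ j ∈ Finset.range n, Z.g lam j :=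
    Finset.sum_nonneg fun j hj => (h.g_pos (Finset.mem_range.1 hj).le).le
  have p2 : 0 ≤ ∑ j ∈ Finset.range n, Z.qq lam n θ j :=
    Finset.sum_nonneg fun j _ => (Z.mm_nonneg l0 n θ j).2.1
  have p3 : 0 ≤ lam * ∑ j ∈ Finset.range n,
      ∫ t in (j : ℝ)..(j + 1), exp (-lam * t) * Z.rr lam t (θ j) := by
    refine mul_nonneg l0 (Finset.sum_nonneg fun j _ =>
      intervalIntegral.integral_nonneg_of_ae (by linarith only []) ?_)
    filter_upwards [Z.ae_reg] with t ht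
    exact mul_nonneg (exp_pos _).le (Z.rr_nonneg lam ht _).1
  have p4 : 0 ≤ ∑ j ∈ Finset.range n, ∑ a ∈ Z.cell j \ Z.VV n θ,
      exp (-lam * Z.ξ a) * |Sg lam (Z.η a - θ j)| :=
    Finset.sum_nonneg fun j _ => Finset.sum_nonneg fun a _ => by positivity
  have p5 : 0 ≤ ∑ j ∈ Finset.range n, β j * Z.g lam j := Finset.sum_nonneg fun j hj =>
    mul_nonneg (hS j (Finset.mem_range.1 hj)).2.1 (h.g_pos (Finset.mem_range.1 hj).le).le
  have p6 := h.eta0
  generalize ∑ j ∈ Finset.range n, Z.g lam j = G at *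
  generalize ∑ j ∈ Finset.range n, Z.qq lam n θ j = Q at *
  generalize lam * ∑ j ∈ Finset.range n,
      ∫ t in (j : ℝ)..(j + 1), exp (-lam * t) * Z.rr lam t (θ j) = R at *
  generalize ∑ j ∈ Finset.range n, ∑ a ∈ Z.cell j \ Z.VV n θ,
      exp (-lam * Z.ξ a) * |Sg lam (Z.η a - θ j)| = O at *
  generalize ∑ j ∈ Finset.range n, β j * Z.g lam j = Bt at *
  have q1 : η / (C1 + C2) * G + κ / (C1 + C2) * (R + Q) ≤ (η * G + Q + R) / C1 := by
    refine le_trans ?_ (div_le_div_of_nonneg_left (c := C1) (b := C1 + C2) (by positivity)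
      (by linarith only [hC1]) (by linarith))
    rw [div_mul_eq_mul_div, div_mul_eq_mul_div, ← add_div]
    refine div_le_div_of_nonneg_right ?_ (by linarith only [hC1, hC2])
    linarith only [k1, p2, p3, mul_nonneg_of_nonpos_of_nonpos (Mathlib.Tactic.Linarith.sub_nonpos_of_le k1) (Mathlib.Tactic.Linarith.sub_nonpos_of_le p2), mul_nonneg_of_nonpos_of_nonpos (Mathlib.Tactic.Linarith.sub_nonpos_of_le k1) (Mathlib.Tactic.Linarith.sub_nonpos_of_le p3)]
  have q2 : κ / (C1 + C2) * O ≤ κ * Z.Mass lam n θ := by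
    rw [div_mul_eq_mul_div, mul_div_assoc]
    exact mul_le_mul_of_nonneg_left ((div_le_div_of_nonneg_left p4 (by linarith only [hC2])
      (by linarith only [hC1])).trans e2) k0
  have q3 : 0 ≤ C2 * Bt := mul_nonneg (by linarith only [hC2]) p5
  linarith only [e3, e1, q1, q2, q3]

end Cfg

end

end Pool.Agent.MinMod
end
end

-- merged part: Pool.Agent.Work.MP_f62247_an.LocC
section
-- merged part: Pool.Agent.Work.MP_f62247_an.LocA
section
/-!
# A four point inequality across the two ridge lines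

`e = lam - 1`, `b = π - π / lam ≤ 4 e`, `y = 30 e`, `c = θ + π`.  The two ridge lines are at the angles `c ∓ b`.  Since `U ≤ B`,
`U (c-b-y) - U (c-b) + U (c+b+y) - U (c+b) ≤ rr`.  A zero at angular distance `≤ b + y/2` from `c` gives a nonnegative
term (`lg s` increases with the angle), and at least `log 2` when it is within `e` of the plateau and of `x`.  The linear term
and the zeros far from the window give a second difference, of size `e²`.
-/

open Real MeasureTheory Set Filter Topology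

namespace Pool.Agent.MinMod

noncomputable section

/-- the four point difference -/
def LocQ (b y : ℝ) (f : ℝ → ℝ) (c : ℝ) : ℝ :=
  f (c - b - y) - f (c - b) + (f (c + b + y) - f (c + b))

theorem Loc_second {f g : ℝ → ℝ} {b y c L : ℝ} (hb : 0 ≤ b) (hy : 0 ≤ y) (hL : 0 ≤ L)
    (hf : ∀ t, HasDerivAt f (g t) t)
    (hg : ∀ t, 0 ≤ t → t ≤ b + y → |g (c + t) - g (c - t)| ≤ L * |c + t - (c - t)|) :
    -(2 * L * (b + y) * y) ≤ LocQ b y f c := by
  have h := KerD_mvt (f := fun t => f (c + t) + f (c - t)) (f' := fun t => g (c + t) - g (c - t))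
    (φ := b + y) (φ' := b) (C := 2 * L * (b + y))
    (fun t _ => ((hf (c + t)).comp_const_add c t).fun_add ((hf (c - t)).comp_const_sub c t))
    fun t ht => by
      rw [uIcc_of_ge (by linarith only [hy])] at ht
      refine (hg t (hb.trans ht.1) ht.2).trans ?_
      rw [show c + t - (c - t) = 2 * t by ring, abs_of_nonneg (by linarith only [hb, ht, ht.1])]
      linarith only [ht, hL, mul_le_mul_of_nonneg_left ht.2 hL]
  rw [add_sub_cancel_left, abs_of_nonneg hy, ← add_assoc, ← sub_sub c] at h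
  unfold LocQ
  linarith only [h, (abs_le.1 h).1]

theorem Loc_mono {s φ φ' : ℝ} (hs : s ≠ 0) (h : |φ| ≤ |φ'|) (h' : |φ'| ≤ π) :
    lg s φ ≤ lg s φ' := by
  have h1 := cos_le_cos_of_nonneg_of_le_pi (abs_nonneg φ) h' h
  rw [cos_abs, cos_abs] at h1
  rw [lg_eq, lg_eq]
  refine mul_le_mul_of_nonneg_left (log_le_log (den_pos hs φ) ?_) (by norm_num)
  linarith only [h1, mul_le_mul_of_nonneg_left h1 (exp_pos s).le]

theorem Loc_gain {e s φ φ' : ℝ} (he : 0 < e) (he1 : e ≤ 1) (hs : s ≠ 0) (h0 : |s| ≤ e)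
    (h : |φ| ≤ 9 * e) (h1 : 29 * e ≤ |φ'|) (h2 : |φ'| ≤ π) : lg s φ + Real.log 2 ≤ lg s φ' := by
  have a1 : s ^ 2 ≤ e ^ 2 := sq_le_sq' (abs_le.1 h0).1 (abs_le.1 h0).2
  have a2 : φ ^ 2 ≤ (9 * e) ^ 2 := sq_le_sq' (abs_le.1 h).1 (abs_le.1 h).2
  have a3 : (29 * e) ^ 2 ≤ φ' ^ 2 := by
    rw [← sq_abs φ']
    exact pow_le_pow_left₀ (by linarith) h1 2
  have a4 : e ^ 2 ≤ 1 := pow_le_one₀ he.le he1
  have a5 : cosh s ≤ 1 + s ^ 2 := by
    refine (cosh_le_exp_half_sq s).trans ((exp_bound_div_one_sub_of_interval (by positivity)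
      (by linarith only [a1, a4])).trans ?_)
    rw [div_le_iff₀ (by linarith only [a1, a4])]
    linarith only [a1, a4, sq_nonneg s, mul_nonneg_of_nonpos_of_nonpos (Mathlib.Tactic.Linarith.sub_nonpos_of_le (sq_nonneg s)) (Mathlib.Tactic.Linarith.sub_nonpos_of_le a1), mul_nonneg_of_nonpos_of_nonpos (Mathlib.Tactic.Linarith.sub_nonpos_of_le (sq_nonneg s)) (Mathlib.Tactic.Linarith.sub_nonpos_of_le a4)]
  have a6 := one_sub_sq_div_two_le_cos (x := φ)
  have a7 := cos_le_one_sub_mul_cos_sq h2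
  have a8 : 1 / 5 ≤ 2 / π ^ 2 := by
    rw [div_le_div_iff₀ (by norm_num) (by positivity)]
    (refine le_of_not_gt fun h_nl => ?_; linarith only [h_nl, he, h1, h2, pi_lt_d2, pi_pos, sq_nonneg π, mul_nonneg_of_nonpos_of_nonpos (Mathlib.Tactic.Linarith.sub_nonpos_of_le (sq_nonneg π)) (le_of_lt (Mathlib.Tactic.Linarith.sub_neg_of_lt pi_lt_d2)), mul_pos_of_neg_of_neg (Mathlib.Tactic.Linarith.sub_neg_of_lt he) (Mathlib.Tactic.Linarith.sub_neg_of_lt h_nl), mul_pos_of_neg_of_neg (Mathlib.Tactic.Linarith.sub_neg_of_lt he) (Mathlib.Tactic.Linarith.sub_neg_of_lt pi_lt_d2), mul_nonneg_of_nonpos_of_nonpos (Mathlib.Tactic.Linarith.sub_nonpos_of_le h1) (le_of_lt (Mathlib.Tactic.Linarith.sub_neg_of_lt h_nl)), mul_nonneg_of_nonpos_of_nonpos (Mathlib.Tactic.Linarith.sub_nonpos_of_le h1) (le_of_lt (Mathlib.Tactic.Linarith.sub_neg_of_lt pi_lt_d2)), mul_nonneg_of_nonpos_of_nonpos (Mathlib.Tactic.Linarith.sub_nonpos_of_le h2) (le_of_lt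 (Mathlib.Tactic.Linarith.sub_neg_of_lt h_nl)), mul_nonneg_of_nonpos_of_nonpos (Mathlib.Tactic.Linarith.sub_nonpos_of_le h2) (le_of_lt (Mathlib.Tactic.Linarith.sub_neg_of_lt pi_lt_d2))])
  have a9 : 4 * (cosh s - cos φ) ≤ cosh s - cos φ' := by
    linarith only [a1, a2, a3, a5, a6, a7, a8, mul_le_mul_of_nonneg_right a8 (sq_nonneg φ'), sq_nonneg e, sq_nonneg φ']
  have b1 := den_pos hs φ
  have b2 : 2 ^ 2 * (1 - 2 * exp s * cos φ + exp (2 * s)) ≤ 1 - 2 * exp s * cos φ' + exp (2 * s) := by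
    rw [KerD_den, KerD_den]
    linarith only [a9, mul_le_mul_of_nonneg_left a9 (exp_pos s).le]
  have b3 := log_le_log (by positivity) b2
  rw [log_mul (by norm_num) b1.ne', log_pow] at b3
  rw [lg_eq, lg_eq]
  push_cast at b3
  linarith only [b3]

theorem Loc_per (b y s c : ℝ) : LocQ b y (lg s) c = LocQ b y (lg s) (rp c) := by
  obtain ⟨k, hk⟩ := exists_rp c
  unfold LocQ
  rw [hk, ← lg_per s (c - b - y) k, ← lg_per s (c - b) k, ← lg_per s (c + b + y) k,
    ← lg_per s (c + b) k]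
  congr 3 <;> ring

theorem Loc_lg {e b s t : ℝ} (he : 0 < e) (he1 : e ≤ 1 / 600) (hb1 : b ≤ 4 * e)
    (hs : s ≠ 0) (ht : |t| ≤ 1 / 4) :
    (if |s| ≤ e ∧ |t| ≤ b + e then Real.log 2 else 0) -
      (if b + 15 * e < |t| then 2 * (l0 s + 1) else 0) ≤ LocQ b (30 * e) (lg s) t := by
  unfold LocQ
  have p := pi_gt_three
  obtain ⟨t1, t2⟩ := abs_le.1 ht
  rcases lt_or_ge (b + 15 * e) |t| with h | h
  · rw [if_neg (fun h' => by linarith only [he, h, h', h'.2]), if_pos h]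
    linarith only [he, he1, hs, (abs_le.1 (abs_lg_sub_le hs (t - b - 30 * e))).1, lg_le s (t - b), lg_le s (t + b),
      (abs_le.1 (abs_lg_sub_le hs (t + b + 30 * e))).1, log_two_lt_d9]
  obtain ⟨t3, t4⟩ := abs_le.1 h
  have a1 : |t - b - 30 * e| = -(t - b - 30 * e) := abs_of_nonpos (by linarith only [he, t4])
  have a2 : |t + b + 30 * e| = t + b + 30 * e := abs_of_nonneg (by linarith only [he, t3])
  have a3 := Loc_mono (φ := t + b) (φ' := t + b + 30 * e) hs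
    (by rw [a2, abs_le]; constructor <;> linarith only [t3, he]) (by rw [a2]; linarith only [he, he1, hb1, p, t2])
  rw [if_neg (not_lt.2 h)]
  split_ifs with h'
  · obtain ⟨t5, t6⟩ := abs_le.1 h'.2
    have := Loc_gain (φ := t - b) (φ' := t - b - 30 * e) he (by linarith only [he, he1]) hs h'.1
      (by rw [abs_le]; constructor <;> linarith only [hb1, t5, he, t6]) (by rw [a1]; linarith only [t6]) (by rw [a1]; linarith only [he, he1, hb1, p, t5])
    linarith only [a3, this]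
  · have := Loc_mono (φ := t - b) (φ' := t - b - 30 * e) hs
      (by rw [a1, abs_le]; constructor <;> linarith only [he, t4]) (by rw [a1]; linarith only [he, he1, hb1, p, t3])
    linarith only [a3, this]

theorem Loc_term : ∃ K : ℝ, 1 ≤ K ∧ ∀ e b s u c : ℝ, 0 < e → e ≤ 1 / 600 → 0 ≤ b → b ≤ 4 * e →
    s ≠ 0 → u ≤ s → s ≤ u + 1 →
    (if |s| ≤ e ∧ |rp c| ≤ b + e then Real.log 2 else 0) -
      (if |s| < 1 ∧ b + 15 * e < |rp c| ∧ |rp c| ≤ 1 / 4 then 2 * (l0 s + 1) else 0) -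
        K * e ^ 2 * w0 u ≤ LocQ b (30 * e) (fun φ => if 0 < u then lg s φ else nk s φ) c := by
  obtain ⟨C, hC, h⟩ := Cfg.PW_T_lip
  have he4 : 1 ≤ exp 4 := one_le_exp (by norm_num)
  refine ⟨2040 * (C + 3 * exp 4), by linarith only [hC, he4], fun e b s u c he he1 hb hb1 hs h1 h2 => ?_⟩
  have hw := w0_pos u
  have k0 : ∀ L : ℝ, 0 ≤ L → 2 * L * (b + 30 * e) * (30 * e) ≤ 2040 * L * e ^ 2 := fun L hL => by
    linarith only [hb1, hL, he, mul_le_mul_of_nonneg_left hb1 (mul_nonneg hL he.le)]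
  by_cases hc : |s| < 1 ∧ |rp c| ≤ 1 / 4
  · have a1 := Loc_lg he he1 hb1 hs hc.2
    rw [← Loc_per] at a1
    obtain ⟨s1, s2⟩ := abs_lt.1 hc.1
    have ew : 1 ≤ exp 4 * w0 u := by
      have a1 := w0_shift u (t := 2) (by norm_num)
      have a2 := w0_mono (show (0 : ℝ) ≤ u + 2 by linarith only [h2, s1])
      rw [w0_of_nonneg le_rfl] at a2
      norm_num at a1 a2 ⊢
      linarith only [a1, a2]
    have a2 : exp s ≤ 3 := (exp_le_exp.2 s2.le).trans exp_one_lt_three.le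
    have a3 := Loc_second (f := fun φ => exp s * cos φ) (g := fun φ => exp s * -sin φ) (c := c)
      (L := 3) hb (by linarith only [he] : 0 ≤ 30 * e) (by norm_num)
      (fun t => (hasDerivAt_cos t).const_mul _) fun t _ _ => by
        rw [← mul_sub, abs_mul, abs_of_pos (exp_pos s), neg_sub_neg, abs_sub_comm]
        exact mul_le_mul a2 (abs_sin_sub_sin_le _ _) (abs_nonneg _) (by norm_num)
    have a4 := k0 3 (by norm_num)
    have a5 := mul_le_mul_of_nonneg_left ew (sq_nonneg e)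
    have a6 : 0 ≤ C * e ^ 2 * w0 u := by positivity
    simp only [hc.1, hc.2, true_and, and_true]
    unfold LocQ at a1 a3 ⊢
    by_cases hu : 0 < u
    · simp only [if_pos hu]
      linarith only [a1, a5, a6, sq_nonneg e, sq_nonneg e]
    · simp only [if_neg hu, nk]
      linarith only [a1, a3, a4, a5, a6]
  · rw [if_neg (fun h' => hc ⟨by linarith only [he, he1, h', h'.1], by linarith only [he, he1, hb1, h', h'.2]⟩),
      if_neg (fun h' => hc ⟨h'.1, h'.2.2⟩)]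
    have a3 := Loc_second (f := fun φ => if 0 < u then lg s φ else nk s φ)
      (g := Cfg.PW_T 1 s (0 < u) False) (c := c) (L := C * w0 u) hb (by linarith only [he] : 0 ≤ 30 * e)
      (by positivity) (fun t => ?_) fun t t0 t1 => h 1 s u _ _ False le_rfl (by norm_num) hs h1 h2
        (fun _ h' => h'.elim) fun hs1 _ ψ hψ => ?_
    · have a4 := k0 (C * w0 u) (by positivity)
      have a6 : 0 ≤ exp 4 * e ^ 2 * w0 u := by positivity
      linarith only [a3, a4, a6]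
    · have b1 := hasDerivAt_lg (exp_ne_one hs t)
      unfold Cfg.PW_T
      by_cases hu : 0 < u
      · simp only [if_pos hu, if_false, sub_zero]
        exact b1
      · simp only [if_neg hu, if_false, sub_zero, nk]
        exact (b1.fun_add ((hasDerivAt_cos t).const_mul (exp s))).congr_deriv (by ring)
    · rw [uIcc_of_ge (by linarith only [t0])] at hψ
      have b1 : 1 / 4 < |rp c| := not_le.1 fun h' => hc ⟨hs1, h'⟩
      have b2 := abs_rp_add_le ψ (c - ψ)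
      rw [add_sub_cancel] at b2
      have b3 : |c - ψ| ≤ t := abs_le.2 ⟨by linarith only [hψ, hψ.2], by linarith only [hψ, hψ.1]⟩
      linarith only [he, he1, hb1, t1, b1, b2, b3, abs_rp_le (c - ψ)]

namespace Cfg

theorem Loc_pt : ∃ K : ℝ, 1 ≤ K ∧ ∀ (Z : Cfg) (lam j x θ : ℝ) (P N : Finset ℕ), 1 < lam →
    lam - 1 ≤ 1 / 600 → x ∈ Icc j (j + 1) → Z.Reg x → P ⊆ Z.s →
    (∀ a ∈ P, |x - Z.ξ a| ≤ lam - 1 ∧ |rp (θ + π - Z.η a)| ≤ π - π / lam + (lam - 1)) →
    (∀ a ∈ Z.s, |x - Z.ξ a| < 1 → π - π / lam + 15 * (lam - 1) < |rp (θ + π - Z.η a)| →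
      |rp (θ + π - Z.η a)| ≤ 1 / 4 → a ∈ N) →
    P.card * Real.log 2 ≤ Z.rr lam x θ + K * (lam - 1) ^ 2 * (Z.A j + Z.W j) +
      ∑ a ∈ N, 2 * (l0 (x - Z.ξ a) + 1) := by
  obtain ⟨K, hK, h⟩ := Loc_term
  refine ⟨K + 6120, by linarith, fun Z lam j x θ P N h1 h2 hx hr hP hP' hN => ?_⟩
  obtain ⟨b0, b1⟩ := ha_le h1.le
  obtain ⟨e, he⟩ : ∃ e, e = lam - 1 := ⟨_, rfl⟩
  obtain ⟨b, hb⟩ : ∃ b, b = π - π / lam := ⟨_, rfl⟩
  rw [← he] at h2 hP' hN b1 ⊢
  rw [← hb] at hP' hN b0 b1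
  have e0 : 0 < e := by linarith only [h1, he]
  have k1 : LocQ b (30 * e) (Z.U x) (θ + π) ≤ Z.rr lam x θ := by
    have a1 := Z.U_per x (θ - π / lam) 1
    unfold LocQ rr
    rw [show θ + π - b = θ + π / lam by rw [hb]; ring,
      show θ + π + b = θ - π / lam + (1 : ℤ) * (2 * π) by rw [hb]; push_cast; ring, a1]
    linarith only [hr, Z.U_le_B hr (θ + π / lam - 30 * e),
      Z.U_le_B hr (θ - π / lam + (1 : ℤ) * (2 * π) + 30 * e)]
  have k2 : ∀ φ, Z.U x φ = (Z.cc j * Complex.exp (x + φ * Complex.I)).re + ∑ a ∈ Z.s,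
      if 0 < j - Z.ξ a then lg (x - Z.ξ a) (φ - Z.η a) else nk (x - Z.ξ a) (φ - Z.η a) := fun φ => by
    rw [Z.U_split j, Finset.sum_ite, add_assoc]
    simp only [sub_pos, not_lt]
  have k3 : LocQ b (30 * e) (Z.U x) (θ + π) =
      LocQ b (30 * e) (fun φ => (Z.cc j * Complex.exp (x + φ * Complex.I)).re) (θ + π) +
      ∑ a ∈ Z.s, LocQ b (30 * e) (fun φ => if 0 < j - Z.ξ a then lg (x - Z.ξ a) φ
        else nk (x - Z.ξ a) φ) (θ + π - Z.η a) := by
    unfold LocQ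
    simp only [k2, Finset.sum_add_distrib, Finset.sum_sub_distrib, sub_right_comm _ (Z.η _),
      ← add_sub_right_comm _ _ (Z.η _)]
    ring
  have k4 := Loc_second (f := fun φ => (Z.cc j * Complex.exp (x + φ * Complex.I)).re)
    (c := θ + π) (L := 3 * Z.A j) b0 (by linarith only [h1, he] : 0 ≤ 30 * e) (by unfold A; positivity)
    (PW_hd_re (Z.cc j) x) fun t _ _ => KerD_mvt (fun ψ _ => PW_hd_im (Z.cc j) x ψ) fun ψ _ => by
      rw [abs_neg]
      refine (Complex.abs_re_le_norm _).trans (le_trans (le_of_eq ?_) (PW_A Z hx).2)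
      rw [norm_mul, KerA_norm]
  have k5 := Finset.sum_le_sum fun a (ha : a ∈ Z.s) => h e b (x - Z.ξ a) (j - Z.ξ a)
    (θ + π - Z.η a) e0 h2 b0 b1 (sub_ne_zero.2 (hr a ha).symm) (by linarith only [hx, hx.1])
    (by linarith only [hx, hx.2])
  rw [Finset.sum_sub_distrib, Finset.sum_sub_distrib, ← Finset.mul_sum, ← Finset.sum_filter,
    ← Finset.sum_filter, Finset.sum_const, nsmul_eq_mul] at k5
  have k6 : (P.card : ℝ) ≤ (Z.s.filter fun a =>
      |x - Z.ξ a| ≤ e ∧ |rp (θ + π - Z.η a)| ≤ b + e).card :=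
    Nat.cast_le.2 (Finset.card_le_card fun a ha => Finset.mem_filter.2 ⟨hP ha, hP' a ha⟩)
  have k7 : ∑ a ∈ Z.s.filter (fun a => |x - Z.ξ a| < 1 ∧ b + 15 * e < |rp (θ + π - Z.η a)| ∧
      |rp (θ + π - Z.η a)| ≤ 1 / 4), 2 * (l0 (x - Z.ξ a) + 1) ≤
      ∑ a ∈ N, 2 * (l0 (x - Z.ξ a) + 1) :=
    Finset.sum_le_sum_of_subset_of_nonneg (fun a ha => by
      obtain ⟨a1, a2, a3, a4⟩ := Finset.mem_filter.1 ha
      exact hN a a1 a2 a3 a4) fun a _ _ => by linarith only [h1, h2, he, l0_nonneg (x - Z.ξ a)]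
  have k8 := mul_le_mul_of_nonneg_right k6 (log_pos one_lt_two).le
  have k9 : 0 ≤ e ^ 2 * Z.W j := mul_nonneg (sq_nonneg e) (Z.W_nonneg j)
  have hA : 0 ≤ Z.A j := by unfold A; positivity
  have k10 : 0 ≤ K * e ^ 2 * Z.A j := by positivity
  change _ - K * e ^ 2 * Z.W j ≤ _ at k5
  linarith only [k1, k3, k4, k7, k8, k9, k10, k5, b1, hA, e0, mul_le_mul_of_nonneg_left b1 (mul_nonneg hA e0.le)]

end Cfg

end

end Pool.Agent.MinMod
end

-- merged part: Pool.Agent.Work.MP_f62247_an.LocB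
section
/-!
# Few zeros off the valley in a window of length `e`; the sharp exceptional set

`loc_card`: when the margins of three neighbouring cells are `≤ e⁴ g`, the frames differ by `≤ e` (`Loc_drift`), the zeros at distance
`≥ e` from the plateau are at most `C e³ A` (`Loc_mid`), and `Loc_pt` at a point chosen by averaging bounds the others by `C e² A`.
`Loc_vol`: zeros at distance `≥ e/3` contribute at most half of the threshold, the others are treated by `cartan`.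
-/

open Real MeasureTheory Set Filter Topology

namespace Pool.Agent.MinMod

noncomputable section

theorem Loc_rp {β : ℝ} (h : |β| ≤ π) : |rp (π - β)| = π - |β| := by
  obtain ⟨h1, h2⟩ := abs_le.1 h
  rcases le_total 0 β with h0 | h0
  · rw [abs_rp_eq (abs_le.2 ⟨by linarith, by linarith⟩), abs_of_nonneg h0,
      abs_of_nonneg (by linarith)]
  · rw [show π - β = -π - β + (1 : ℤ) * (2 * π) by push_cast; ring, rp_per,
      abs_rp_eq (abs_le.2 ⟨by linarith, by linarith⟩), abs_of_nonpos h0,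
      abs_of_nonpos (by linarith)]
    ring

theorem Loc_small {ε : ℝ} (hε : 0 < ε) :
    ∃ m : ℝ, 0 < m ∧ ∀ e : ℝ, 0 < e → e ≤ m → e * l0 (e / 3) ≤ ε := by
  refine ⟨min 1 (ε / 2 / (|Real.log (ε / 12)| + 1)), by positivity, fun e he h => ?_⟩
  obtain ⟨h1, h2⟩ := le_min_iff.1 h
  have h3 := KerI_near (s := e / 3) (by positivity) (by rw [abs_of_pos (by positivity)]; linarith only [h1])
  rw [abs_of_pos (by positivity)] at h3
  have h4 := log_le_sub_one_of_pos (show 0 < 2 / (e / 3) * (ε / 12) by positivity)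
  rw [log_mul (by positivity) (by positivity), log_div (by norm_num) (by positivity)] at h4
  rw [le_div_iff₀ (by positivity)] at h2
  have h5 : e * (2 / (e / 3) * (ε / 12)) = ε / 2 := by field_simp; ring
  linarith only [he, h2, h5, h3, h4, mul_le_mul_of_nonneg_left h3 he.le, mul_le_mul_of_nonneg_left h4 he.le,
    mul_le_mul_of_nonneg_left (neg_abs_le (Real.log (ε / 12))) he.le]

namespace Cfg

theorem Loc_vol : ∃ C : ℝ, 1 ≤ C ∧ ∀ (A : Finset ℕ) (ξ : ℕ → ℝ) (u H K e : ℝ), 0 < H → 0 < K →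
    0 < e → e ≤ 1 → (∀ p : ℝ, ((A.filter fun a => p ≤ ξ a ∧ ξ a ≤ p + e).card : ℝ) ≤ K * (H / 2)) →
    A.card * l0 (e / 3) ≤ H / 2 →
    volume (BadB_T A ξ u H) ≤ ENNReal.ofReal (C / e * exp (-(1 / 2) / K)) := by
  obtain ⟨C, hC, h⟩ := BadB_vol
  refine ⟨4 * C, by linarith only [hC], fun A ξ u H K e hH hK he he1 h1 h2 => ?_⟩
  let D : ℕ → Finset ℕ := fun l =>
    A.filter fun a => u + (l - 1) * (e / 3) ≤ ξ a ∧ ξ a ≤ u + (l - 1) * (e / 3) + e
  have k1 : BadB_T A ξ u H ⊆ ⋃ l ∈ Finset.range (⌊3 / e⌋₊ + 1), BadB_T (D l) ξ u (H / 2) := by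
    rintro x ⟨hx, hx'⟩
    have a1 : 0 ≤ (x - u) * (3 / e) := mul_nonneg (by linarith only [hx, hx.1]) (by positivity)
    have a2 := mul_le_mul_of_nonneg_right (Nat.floor_le a1) (show 0 ≤ e / 3 by positivity)
    have a3 := mul_lt_mul_of_pos_right (Nat.lt_floor_add_one ((x - u) * (3 / e)))
      (show 0 < e / 3 by positivity)
    rw [show (x - u) * (3 / e) * (e / 3) = x - u by field_simp] at a2 a3
    refine mem_iUnion₂.2 ⟨⌊(x - u) * (3 / e)⌋₊, Finset.mem_range.2 (Nat.lt_succ_of_le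
      (Nat.floor_mono (mul_le_of_le_one_left (by positivity) (by linarith only [hx, hx.2])))), hx, ?_⟩
    generalize ⌊(x - u) * (3 / e)⌋₊ = l at a2 a3
    have a4 := Finset.sum_filter_add_sum_filter_not A
      (fun a => u + (l - 1) * (e / 3) ≤ ξ a ∧ ξ a ≤ u + (l - 1) * (e / 3) + e) fun a => l0 (x - ξ a)
    have a5 := Finset.sum_le_card_nsmul (A.filter fun a =>
      ¬ (u + (l - 1) * (e / 3) ≤ ξ a ∧ ξ a ≤ u + (l - 1) * (e / 3) + e)) (fun a => l0 (x - ξ a))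
      (l0 (e / 3)) fun a ha => l0_anti (by positivity) (by
        rw [abs_of_pos (by positivity), le_abs]
        rcases not_and_or.1 (Finset.mem_filter.1 ha).2 with b | b
        · exact Or.inl (by linarith only [a2, b, not_le.1 b])
        · exact Or.inr (by linarith only [a3, b, not_le.1 b]))
    rw [nsmul_eq_mul] at a5
    have a6 := mul_le_mul_of_nonneg_right (Nat.cast_le (α := ℝ).2 (Finset.card_filter_le A fun a =>
      ¬ (u + (l - 1) * (e / 3) ≤ ξ a ∧ ξ a ≤ u + (l - 1) * (e / 3) + e))) (l0_nonneg (e / 3))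
    simp only [D]
    linarith only [h2, hx', a4, a5, a6]
  refine (measure_mono k1).trans ((measure_biUnion_finset_le _ _).trans
    ((Finset.sum_le_card_nsmul _ _ _ fun l _ => h (D l) ξ u (H / 2) K (by positivity) hK
      (h1 _)).trans ?_))
  rw [Finset.card_range, nsmul_eq_mul, ← ENNReal.ofReal_natCast,
    ← ENNReal.ofReal_mul (Nat.cast_nonneg _), ← mul_assoc]
  refine ENNReal.ofReal_le_ofReal (mul_le_mul_of_nonneg_right ?_ (exp_pos _).le)
  have a1 := Nat.floor_le (show 0 ≤ 3 / e by positivity)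
  have a2 : 1 ≤ 1 / e := (one_le_div he).2 he1
  rw [show 4 * C / e = (3 / e + 1 / e) * C by ring]
  push_cast
  gcongr

variable {Z : Cfg} {lam μ η : ℝ} {n : ℕ} {θ : ℕ → ℝ}

theorem Loc_int (Z : Cfg) (lam φ : ℝ) {a b : ℝ} (h : a ≤ b) :
    0 ≤ ∫ t in a..b, exp (-lam * t) * Z.rr lam t φ :=
  intervalIntegral.integral_nonneg_of_ae h
    (Z.ae_reg.mono fun _ ht => mul_nonneg (exp_pos _).le (Z.rr_nonneg lam ht _).1)

theorem Loc_gA (hc : Z.Calm lam μ η n θ) {k : ℕ} (hk : k ≤ n) :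
    exp (lam * (k + 1)) * Z.g lam k ≤ exp 2 * Z.A k := by
  rw [Z.A_eq lam, ← mul_assoc, ← exp_add]
  exact mul_le_mul_of_nonneg_right (exp_le_exp.2 (by linarith only [hc, hc.lam2])) (hc.g_pos hk).le

theorem Loc_A (hc : Z.Calm lam μ η n θ) {i j : ℕ} (hj : j ≤ n) (hij : |(i : ℝ) - j| ≤ 1)
    (h : Z.g lam i ≤ exp (|(i : ℝ) - j| / 100) * Z.g lam j) : Z.A i ≤ exp 2 * Z.A j := by
  rw [A_eq Z lam i, A_eq Z lam j, ← mul_assoc, ← exp_add]
  refine (mul_le_mul_of_nonneg_left h (exp_pos _).le).trans ?_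
  rw [← mul_assoc, ← exp_add]
  refine mul_le_mul_of_nonneg_right (exp_le_exp.2 ?_) (hc.g_pos hj).le
  (refine le_of_not_gt fun h_nl => ?_; linarith only [h_nl, hij, hc, hc.lam1, hc.lam2, (abs_le.1 hij).2, mul_pos_of_neg_of_neg (Mathlib.Tactic.Linarith.sub_neg_of_lt h_nl) (Mathlib.Tactic.Linarith.sub_neg_of_lt hc.lam1), mul_nonneg_of_nonpos_of_nonpos (le_of_lt (Mathlib.Tactic.Linarith.sub_neg_of_lt h_nl)) (Mathlib.Tactic.Linarith.sub_nonpos_of_le hc.lam2), mul_pos_of_neg_of_neg (Mathlib.Tactic.Linarith.sub_neg_of_lt hc.lam1) (Mathlib.Tactic.Linarith.sub_neg_of_lt hc.lam1), mul_nonneg_of_nonpos_of_nonpos (le_of_lt (Mathlib.Tactic.Linarith.sub_neg_of_lt hc.lam1)) (Mathlib.Tactic.Linarith.sub_nonpos_of_le hc.lam2), mul_nonneg_of_nonpos_of_nonpos (le_of_lt (Mathlib.Tactic.Linarith.sub_neg_of_lt hc.lam1)) (Mathlib.Tactic.Linarith.sub_nonpos_of_le (abs_le.mp hij).right)])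

theorem Loc_mid (hc : Z.Calm lam μ η n θ) (e1 : lam - 1 ≤ 1 / 600) {k : ℕ} (hk : k < n)
    (h : Z.mm lam n θ k + Z.qq lam n θ k ≤ (lam - 1) ^ 4 * Z.g lam k) {S : Finset ℕ}
    (hS : ∀ a ∈ S, a ∈ Z.cell k ∧ 1 / 32 ≤ |Z.η a - θ k| ∧ |Z.η a - θ k| ≤ π / lam - (lam - 1)) :
    (S.card : ℝ) ≤ 2 * exp 2 * (lam - 1) ^ 3 * Z.A k := by
  have e0 := sub_pos.2 hc.lam1
  have k1 := BadA_card (S := S) (T := Z.cell k) (f := fun a => if a ∈ Z.VV n θ then
      exp (-lam * Z.ξ a) * (Z.η a - θ k) ^ 2 else exp (-lam * Z.ξ a) * |Sg lam (Z.η a - θ k)|)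
    (c := exp (-(lam * (k + 1))) * (1 / 2 * (lam - 1))) (fun a ha => (hS a ha).1)
    (fun a _ => by split_ifs <;> positivity) fun a ha => by
      obtain ⟨a1, a2, a3⟩ := hS a ha
      have a4 : exp (-(lam * (k + 1))) ≤ exp (-lam * Z.ξ a) :=
        exp_le_exp.2 (by (refine le_of_not_gt fun h_nl => ?_; linarith only [h_nl, a1, e1, e0, (Finset.mem_filter.1 a1).2.2, mul_nonneg_of_nonpos_of_nonpos (Mathlib.Tactic.Linarith.sub_nonpos_of_le e1) (le_of_lt (Mathlib.Tactic.Linarith.sub_neg_of_lt h_nl)), mul_pos_of_neg_of_neg (Mathlib.Tactic.Linarith.sub_neg_of_lt e0) (Mathlib.Tactic.Linarith.sub_neg_of_lt h_nl), mul_pos_of_neg_of_neg (Mathlib.Tactic.Linarith.sub_neg_of_lt e0) (Mathlib.Tactic.Linarith.sub_neg_of_lt (Finset.mem_filter.mp a1).right.right)]))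
      have a5 : |Z.η a - θ k| ≤ π := by linarith only [e0, a3, hc, (ha_le hc.lam1.le).1]
      split_ifs
      · refine mul_le_mul a4 ?_ (by positivity) (by positivity)
        rw [← sq_abs]
        linarith only [e1, e0, a2, pow_le_pow_left₀ (by norm_num) a2 2]
      · refine mul_le_mul a4 (le_trans ?_ (abs_Sg_ge hc.lam1 e0.le ?_ ?_)) (by positivity)
          (by positivity)
        · exact mul_le_mul_of_nonneg_right
            ((le_div_iff₀ pi_pos).2 (by linarith only [pi_le_four])) e0.le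
        · rw [abs_rp_eq a5]; linarith only [e1, e0, a2]
        · rw [abs_rp_eq a5]; exact a3
  rw [Finset.sum_ite, Finset.filter_mem_eq_inter, Finset.filter_notMem_eq_sdiff, exp_neg,
    mul_left_comm, inv_mul_le_iff₀ (exp_pos _)] at k1
  have k2 := mul_nonneg (zero_le_one.trans hc.lam1.le) (Z.Loc_int lam (θ k) (a := k) (b := k + 1)
    (by linarith only [e1, e0]))
  have k3 := mul_le_mul_of_nonneg_left (Loc_gA hc hk.le) (pow_nonneg e0.le 4)
  rw [mm, qq] at h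
  refine le_of_mul_le_mul_right ?_ e0
  linarith only [k1, k3, k2, h, mul_le_mul_of_nonneg_left ((le_add_of_nonneg_left k2).trans
    ((add_assoc _ _ _).symm.trans_le h)) (exp_pos (lam * (k + 1))).le]

theorem Loc_drift : ∃ μ0 : ℝ, 0 < μ0 ∧ ∀ (Z : Cfg) (lam μ η : ℝ) (n : ℕ) (θ : ℕ → ℝ),
    Z.Calm lam μ η n θ → μ ≤ μ0 → ∀ k < n,
      Z.mm lam n θ k + Z.qq lam n θ k ≤ (lam - 1) ^ 4 * Z.g lam k → |θ (k + 1) - θ k| ≤ lam - 1 := by
  obtain ⟨C1, m1, c1, p1, H1⟩ := mm_le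
  obtain ⟨C2, m2, c2, p2, H2⟩ := Nf_local
  refine ⟨min (min m1 m2) (min (1 / C1) (1 / (2 * C2))), by positivity,
    fun Z lam μ η n θ hc hμ k hk h => ?_⟩
  simp only [le_min_iff] at hμ
  obtain ⟨⟨q1, q2⟩, q3, q4⟩ := hμ
  obtain ⟨a1, a2, a3⟩ := Z.mm_nonneg (zero_le_one.trans hc.lam1.le) n θ k
  have b1 := (H1 Z lam μ η n θ hc q1 k hk).2.2
  have b2 := (H2 Z lam μ η n θ hc q2 k hk).2
  have hg := hc.g_pos hk.le
  have e0 := sub_pos.2 hc.lam1
  have e1 := hc.le_mu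
  have e2 : lam - 1 ≤ 1 := by linarith only [hc, hc.lam2]
  generalize lam - 1 = e at *
  rw [le_div_iff₀' (by positivity)] at q3 q4
  have b3 : Z.dd lam n θ k ≤ e ^ 2 * Z.g lam k := by
    refine le_of_sq_le_sq (b1.trans ?_) (by positivity)
    calc _ ≤ 1 * Z.g lam k * (e ^ 4 * Z.g lam k) := by gcongr; linarith only [a1, h]
      _ = _ := by ring
  have b4 : e ^ 4 * Z.g lam k ≤ e ^ 2 * Z.g lam k :=
    mul_le_mul_of_nonneg_right (pow_le_pow_of_le_one e0.le e2 (by norm_num)) hg.le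
  refine le_of_mul_le_mul_right (b2.trans ?_) hg
  calc _ ≤ C2 * (2 * (e ^ 2 * Z.g lam k)) := by gcongr; linarith only [a2, h, b3, b4]
    _ = 2 * C2 * e * (e * Z.g lam k) := by ring
    _ ≤ 1 * (e * Z.g lam k) := by gcongr; linarith only [q4, e1, c2, mul_nonneg_of_nonpos_of_nonpos (Mathlib.Tactic.Linarith.sub_nonpos_of_le c2) (Mathlib.Tactic.Linarith.sub_nonpos_of_le e1)]
    _ = _ := one_mul _

theorem loc_card : ∃ C μ0 : ℝ, 1 ≤ C ∧ 0 < μ0 ∧ ∀ (Z : Cfg) (lam μ η : ℝ) (n : ℕ) (θ : ℕ → ℝ),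
    Z.Calm lam μ η n θ → μ ≤ μ0 → ∀ i, 1 ≤ i → i + 1 < n →
      (∀ k, i ≤ k + 1 → k ≤ i + 1 → Z.mm lam n θ k + Z.qq lam n θ k ≤ (lam - 1) ^ 4 * Z.g lam k) →
      ∀ p : ℝ, (((Z.Off n θ i).filter fun a => p ≤ Z.ξ a ∧ Z.ξ a ≤ p + (lam - 1)).card : ℝ) ≤
        C * (lam - 1) ^ 2 * Z.A i := by
  obtain ⟨K, hK, H1⟩ := Loc_pt
  obtain ⟨m1, p1, H2⟩ := Loc_drift
  obtain ⟨m2, p2, H3⟩ := slow
  have hI := KerI_int_nonneg
  have he2 : 1 ≤ exp 2 := one_le_exp (by norm_num)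
  refine ⟨4 * exp 2 + 4 * K + 24 * exp 2 ^ 2 * ((∫ s, l0 s) + 1), min (min m1 m2) (1 / 600),
    le_add_of_le_of_nonneg (by linarith only [hK, he2]) (by positivity), by positivity,
    fun Z lam μ η n θ hc hμ i hi hin hm p => ?_⟩
  simp only [le_min_iff] at hμ
  obtain ⟨⟨q1, q2⟩, q3⟩ := hμ
  have e0 := sub_pos.2 hc.lam1
  have e1 := hc.le_mu.trans q3
  have hi' : i < n := by omega
  have hA : 0 < Z.A i := mul_pos (hc.pos i hi'.le) (exp_pos _)
  let N := Z.s.filter fun a => ((i : ℝ) - 1 ≤ Z.ξ a ∧ Z.ξ a < i + 2) ∧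
    π - π / lam + 15 * (lam - 1) < |rp (θ i + π - Z.η a)| ∧ |rp (θ i + π - Z.η a)| ≤ 1 / 4
  have k1 : ∀ k, i ≤ k + 1 → k ≤ i + 1 → |θ i - θ k| ≤ lam - 1 →
      ((N ∩ Z.cell k).card : ℝ) ≤ 2 * exp 2 * (lam - 1) ^ 3 * (exp 2 * Z.A i) := by
    intro k a1 a2 a3
    have hk : k < n := by omega
    refine (Loc_mid hc e1 hk (hm k a1 a2) fun a ha => ?_).trans (mul_le_mul_of_nonneg_left
      (Loc_A hc hi'.le ?_ (H3 Z lam μ η n θ hc q2 k hk.le i hi'.le)) (by positivity))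
    · obtain ⟨b1, b2⟩ := Finset.mem_inter.1 ha
      obtain ⟨b3, -, b4, b5⟩ := Finset.mem_filter.1 b1
      have b6 := hc.lift a b3
      rw [Z.ki_of_mem_cell hk.le b2] at b6
      have b7 := abs_rp_add_le (π - (Z.η a - θ k)) (θ i - θ k)
      have b8 := abs_rp_add_le (θ i + π - Z.η a) (θ k - θ i)
      rw [show θ i + π - Z.η a + (θ k - θ i) = π - (Z.η a - θ k) by ring] at b8
      rw [show π - (Z.η a - θ k) + (θ i - θ k) = θ i + π - Z.η a by ring] at b7
      rw [Loc_rp b6] at b7 b8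
      exact ⟨b2, by linarith only [e0, e1, a3, b5, b8, abs_rp_le (θ k - θ i), abs_sub_comm (θ k) (θ i), pi_gt_three],
        by linarith only [e0, a3, b4, b7, abs_rp_le (θ i - θ k)]⟩
    · have b1 : (i : ℝ) ≤ k + 1 := by exact_mod_cast a1
      have b2 : (k : ℝ) ≤ i + 1 := by exact_mod_cast a2
      exact abs_le.2 ⟨by linarith only [b1], by linarith only [b2]⟩
  have k2 : (N.card : ℝ) ≤ 6 * exp 2 ^ 2 * (lam - 1) ^ 3 * Z.A i := by
    obtain ⟨m, rfl⟩ := Nat.exists_eq_add_of_le' hi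
    have a1 : N ⊆ N ∩ Z.cell m ∪ N ∩ Z.cell (m + 1) ∪ N ∩ Z.cell (m + 1 + 1) := fun a ha => by
      obtain ⟨b1, ⟨b2, b3⟩, -⟩ := Finset.mem_filter.1 ha
      simp only [Finset.mem_union, Finset.mem_inter, ha, true_and, cell, Finset.mem_filter, b1]
      push_cast at b2 b3 ⊢
      rcases lt_or_ge (Z.ξ a) (m + 1) with b | b
      · exact Or.inl (Or.inl ⟨by linarith only [b2], b⟩)
      rcases lt_or_ge (Z.ξ a) (m + 1 + 1) with b' | b'
      · exact Or.inl (Or.inr ⟨b, b'⟩)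
      · exact Or.inr ⟨b', by linarith only [b3]⟩
    have a2 : (N.card : ℝ) ≤ (N ∩ Z.cell m).card + (N ∩ Z.cell (m + 1)).card +
        (N ∩ Z.cell (m + 1 + 1)).card := by
      exact_mod_cast (Finset.card_le_card a1).trans ((Finset.card_union_le _ _).trans
        (Nat.add_le_add_right (Finset.card_union_le _ _) _))
    linarith only [a2, k1, H2, hc, q1, hin, hm, e0, hi', k1 m le_rfl (by omega) (H2 Z lam μ η n θ hc q1 m (by omega) (hm m le_rfl (by omega))),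
      k1 (m + 1) (by omega) (by omega) (by rw [sub_self, abs_zero]; exact e0.le),
      k1 (m + 1 + 1) (by omega) le_rfl ((abs_sub_comm _ _).trans_le
        (H2 Z lam μ η n θ hc q1 (m + 1) hi' (hm (m + 1) (by omega) (by omega))))]
  obtain ⟨p', r1, r2, r3⟩ : ∃ p' : ℝ, i ≤ p' ∧ p' + (lam - 1) ≤ i + 1 ∧ ∀ t : ℝ, i ≤ t → t ≤ i + 1 →
      p ≤ t → t ≤ p + (lam - 1) → p' ≤ t ∧ t ≤ p' + (lam - 1) :=
    ⟨max i (min p (i + 1 - (lam - 1))), le_max_left _ _,
      le_sub_iff_add_le.1 (max_le (by linarith only [e0, e1]) (min_le_right _ _)), fun t t1 t2 t3 t4 =>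
      ⟨max_le t1 ((min_le_left _ _).trans t3), sub_le_iff_le_add.1
        ((le_min (by linarith only [t4]) (by linarith only [t2])).trans (le_max_right _ _))⟩⟩
  have i1 : ∀ a b, IntervalIntegrable (fun t => exp (-lam * t) * Z.rr lam t (θ i)) volume a b :=
    fun a b => (Z.intervalIntegrable_rr lam _ a b).continuousOn_mul (by fun_prop)
  have i2 : ∀ a, IntervalIntegrable (fun t => 2 * (l0 (t - Z.ξ a) + 1)) volume p' (p' + (lam - 1)) :=
    fun a => ((integrable_l0.comp_sub_right _).intervalIntegrable.add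
      intervalIntegrable_const).const_mul 2
  have i3 := Bf_ii_sum N i2
  obtain ⟨x, x1, x2, x3, x4⟩ := Z.BadA_avg (a := p') (b := p' + (lam - 1)) (by linarith only [e0])
    (((i1 _ _).const_mul (exp (lam * (i + 1)))).add i3)
  rw [intervalIntegral.integral_add ((i1 _ _).const_mul _) i3, intervalIntegral.integral_const_mul,
    intervalIntegral.integral_finsetSum fun a _ => i2 a, add_sub_cancel_left] at x4
  have k3 : ∫ t in p'..(p' + (lam - 1)), exp (-lam * t) * Z.rr lam t (θ i) ≤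
      (lam - 1) ^ 4 * Z.g lam i := by
    refine (intervalIntegral.integral_mono_interval r1 (by linarith only [e0]) r2 (ae_restrict_of_ae
      (Z.ae_reg.mono fun _ ht => mul_nonneg (exp_pos _).le (Z.rr_nonneg lam ht _).1))
      (i1 _ _)).trans (le_trans ?_ (hm i (by omega) (by omega)))
    refine le_add_of_le_of_nonneg (le_add_of_le_of_nonneg (le_mul_of_one_le_left
      (Z.Loc_int lam _ (by linarith only [e0, e1])) hc.lam1.le) (Finset.sum_nonneg fun _ _ => by positivity))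
      (Z.mm_nonneg (zero_le_one.trans hc.lam1.le) n θ i).2.1
  have k4 := Finset.sum_le_card_nsmul N
    (fun a => ∫ t in p'..(p' + (lam - 1)), 2 * (l0 (t - Z.ξ a) + 1)) (2 * ((∫ s, l0 s) + 1))
    fun a _ => by
      rw [intervalIntegral.integral_const_mul, intervalIntegral.integral_add
        (integrable_l0.comp_sub_right _).intervalIntegrable intervalIntegrable_const,
        intervalIntegral.integral_const, intervalIntegral.integral_of_le (by linarith only [e0]),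
        ← integral_sub_right_eq_self l0 (Z.ξ a), smul_eq_mul]
      linarith only [e0, e1, setIntegral_le_integral (s := Ioc p' (p' + (lam - 1)))
        (integrable_l0.comp_sub_right (Z.ξ a)) (Eventually.of_forall fun _ => l0_nonneg _)]
  rw [nsmul_eq_mul] at k4
  have k0 : ∀ a ∈ (Z.Off n θ i).filter fun a => p ≤ Z.ξ a ∧ Z.ξ a ≤ p + (lam - 1),
      a ∈ Z.cell i ∧ 1 / 32 ≤ |Z.η a - θ i| ∧ |Z.η a - θ i| ≤ π ∧ |x - Z.ξ a| ≤ lam - 1 := by
    intro a ha
    obtain ⟨a0, a6⟩ := Finset.mem_filter.1 ha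
    obtain ⟨a1, a2, a3⟩ := Finset.mem_filter.1 a0
    have a4 : a ∈ Z.cell i := Finset.mem_filter.2 ⟨a1, a2⟩
    have a5 := hc.lift a a1
    rw [Z.ki_of_mem_cell hi'.le a4] at a3 a5
    obtain ⟨a7, a8⟩ := r3 _ a2.1 a2.2.le a6.1 a6.2
    exact ⟨a4, a3, a5, abs_le.2 ⟨by linarith only [x2, a8], by linarith only [x3, a7]⟩⟩
  generalize (Z.Off n θ i).filter (fun a => p ≤ Z.ξ a ∧ Z.ξ a ≤ p + (lam - 1)) = O at k0 ⊢
  have k5 := Loc_mid hc e1 hi' (hm i (by omega) (by omega))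
    (S := O.filter fun a => |Z.η a - θ i| ≤ π / lam - (lam - 1)) fun a ha =>
    have a1 := Finset.mem_filter.1 ha
    ⟨(k0 a a1.1).1, (k0 a a1.1).2.1, a1.2⟩
  have k6 := H1 Z lam i x (θ i) (O.filter fun a => ¬ |Z.η a - θ i| ≤ π / lam - (lam - 1)) N hc.lam1 e1
    ⟨by linarith only [r1, x2], by linarith only [r2, x3]⟩ x1
    (fun a ha => (Finset.mem_filter.1 (k0 a (Finset.mem_filter.1 ha).1).1).1) (fun a ha => by
      obtain ⟨a1, a2⟩ := Finset.mem_filter.1 ha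
      obtain ⟨-, -, a3, a4⟩ := k0 a a1
      rw [show θ i + π - Z.η a = π - (Z.η a - θ i) by ring, Loc_rp a3]
      exact ⟨a4, by linarith only [a2, not_le.1 a2]⟩) fun a a1 a2 a3 a4 =>
    Finset.mem_filter.2 ⟨a1, ⟨by linarith only [r1, x2, a2, (abs_lt.1 a2).2], by linarith only [r2, x3, a2, (abs_lt.1 a2).1]⟩, a3, a4⟩
  have k7 : Z.rr lam x (θ i) ≤ exp (lam * (i + 1)) * (exp (-lam * x) * Z.rr lam x (θ i)) := by
    rw [← mul_assoc, ← exp_add]
    exact le_mul_of_one_le_left (Z.rr_nonneg lam x1 _).1 (one_le_exp (by linarith only [r2, x3, e0, hc.lam1, mul_nonneg_of_nonpos_of_nonpos (le_of_lt (Mathlib.Tactic.Linarith.sub_neg_of_lt e0)) (Mathlib.Tactic.Linarith.sub_nonpos_of_le r2), mul_nonneg_of_nonpos_of_nonpos (le_of_lt (Mathlib.Tactic.Linarith.sub_neg_of_lt e0)) (Mathlib.Tactic.Linarith.sub_nonpos_of_le x3)]))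
  have k8 : Z.W i ≤ Z.A i := (hc.calm i hi'.le).trans (mul_le_of_le_one_left hA.le (by linarith only [q3, e0, e1]))
  have k9 := mul_le_mul_of_nonneg_left (Loc_gA hc hi'.le) (pow_nonneg e0.le 4)
  rw [← Finset.card_filter_add_card_filter_not (s := O)
    fun a => |Z.η a - θ i| ≤ π / lam - (lam - 1), Nat.cast_add]
  have k10 := mul_le_mul_of_nonneg_left k3 (exp_pos (lam * (i + 1))).le
  have k11 := mul_le_mul_of_nonneg_right k2 (show 0 ≤ 2 * ((∫ s, l0 s) + 1) by positivity)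
  have k12 := mul_le_mul_of_nonneg_left (show 1 / 2 ≤ Real.log 2 by linarith only [e0, e1, log_two_gt_d9])
    (Nat.cast_nonneg (α := ℝ) (O.filter fun a => ¬ |Z.η a - θ i| ≤ π / lam - (lam - 1)).card)
  generalize lam - 1 = e at *
  have k13 : exp (lam * (i + 1)) * (exp (-lam * x) * Z.rr lam x (θ i)) +
      ∑ a ∈ N, 2 * (l0 (x - Z.ξ a) + 1) ≤
      e ^ 3 * (exp 2 * Z.A i) + 12 * exp 2 ^ 2 * ((∫ s, l0 s) + 1) * e ^ 2 * Z.A i :=
    le_of_mul_le_mul_left (by linarith only [x4, k4, k9, k10, k11]) e0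
  have k14 : e ^ 3 * (exp 2 * Z.A i) ≤ e ^ 2 * (exp 2 * Z.A i) :=
    mul_le_mul_of_nonneg_right (pow_le_pow_of_le_one e0.le (by linarith only [e0, e1]) (by norm_num))
      (by positivity)
  linarith only [k7, k5, k6, k12, k13, k14, k8, hK, e0, mul_le_mul_of_nonneg_left k8 (show 0 ≤ K * e ^ 2 by positivity)]

end Cfg

end

end Pool.Agent.MinMod
end

-- merged part: Pool.Agent.Work.MP_f62247_an.LocC
section
/-!
# The exceptional set has measure `exp (-c/e²)`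

A cell `j` is good if `2 ≤ j`, `j + 2 < n` and the margins of the cells `j-2, …, j+2` are `≤ e⁴ g`; then `loc_card`, `off_card`, `Loc_vol` give
measure `≤ C exp (-c/e²)`.  Otherwise the crude bound `C exp (-c/μ) ≤ C μ e⁴` is charged to a cell at distance `≤ 2`.
-/

open Real MeasureTheory Set Filter Topology

namespace Pool.Agent.MinMod

noncomputable section

namespace Cfg

theorem LocC_exp {c : ℝ} (hc : 0 < c) :
    ∃ m : ℝ, 0 < m ∧ ∀ μ : ℝ, 0 < μ → μ ≤ m → exp (-c / μ) ≤ μ ^ 21 := by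
  obtain ⟨m, hm, h⟩ := BadB_exp (half_pos hc)
  refine ⟨min m 1, by positivity, fun μ hμ h1 => ?_⟩
  have h2 := h μ hμ (h1.trans (min_le_left _ _))
  calc exp (-c / μ) = exp (-(c / 2) / μ) ^ 2 := by rw [sq, ← exp_add]; congr 1; ring
    _ ≤ (μ ^ 11) ^ 2 := by gcongr
    _ ≤ μ ^ 21 := by
      rw [← pow_mul]
      exact pow_le_pow_of_le_one hμ.le (h1.trans (min_le_right _ _)) (by norm_num)

theorem LocC_sum {r : ℕ → ℝ} {n : ℕ} (hr : ∀ k ≤ n, 0 ≤ r k) :
    ∑ j ∈ Finset.range n, ∑ k ∈ Finset.range (n + 1), (if j ≤ k + 2 ∧ k ≤ j + 2 then r k else 0) ≤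
      5 * ∑ k ∈ Finset.range (n + 1), r k := by
  rw [Finset.sum_comm, Finset.mul_sum]
  refine Finset.sum_le_sum fun k hk => ?_
  rw [← Finset.sum_filter, Finset.sum_const, nsmul_eq_mul]
  refine mul_le_mul_of_nonneg_right ?_ (hr k (Nat.lt_succ_iff.1 (Finset.mem_range.1 hk)))
  have h := Finset.card_le_card (s := (Finset.range n).filter fun j => j ≤ k + 2 ∧ k ≤ j + 2)
    (t := Finset.Icc (k - 2) (k + 2)) fun j hj => by
      have := (Finset.mem_filter.1 hj).2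
      exact Finset.mem_Icc.2 (by omega)
  rw [Nat.card_Icc] at h
  exact_mod_cast h.trans (by omega)

theorem LocC_good : ∃ C c μ0 : ℝ, 1 ≤ C ∧ 0 < c ∧ 0 < μ0 ∧ ∀ C1 : ℝ, 1 ≤ C1 → ∃ μ1 : ℝ, 0 < μ1 ∧
    ∀ (Z : Cfg) (lam μ η : ℝ) (n : ℕ) (θ : ℕ → ℝ), Z.Calm lam μ η n θ → μ ≤ μ0 → μ ≤ μ1 →
      ∀ i j : ℕ, 1 ≤ i → i + 1 < n → j < n → |(i : ℝ) - j| ≤ 1 →
      (∀ k, i ≤ k + 1 → k ≤ i + 1 → Z.mm lam n θ k + Z.qq lam n θ k ≤ (lam - 1) ^ 4 * Z.g lam k) →
      volume (BadB_T (Z.Off n θ i) Z.ξ j (Z.A j / C1)) ≤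
        ENNReal.ofReal (C * C1 * exp (-(c / C1) / (lam - 1) ^ 2)) := by
  obtain ⟨C2, m2, hC2, hm2, H2⟩ := off_card
  obtain ⟨C3, hC3, H3⟩ := Loc_vol
  obtain ⟨C4, m4, hC4, hm4, H4⟩ := loc_card
  obtain ⟨m5, hm5, H5⟩ := slow
  have he2 : 1 ≤ exp 2 := one_le_exp (by norm_num)
  refine ⟨C3 * (8 * C4 * exp 2), 1 / (8 * C4 * exp 2), min m2 (min m4 m5),
    one_le_mul_of_one_le_of_one_le hC3 (by linarith only [hC4, he2, mul_nonneg_of_nonpos_of_nonpos (Mathlib.Tactic.Linarith.sub_nonpos_of_le hC4) (Mathlib.Tactic.Linarith.sub_nonpos_of_le he2)]), by positivity, by positivity, fun C1 hC1 => ?_⟩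
  obtain ⟨m6, hm6, H6⟩ := Loc_small (ε := 1 / (2 * C1 * C2 * exp 2)) (by positivity)
  refine ⟨m6, hm6, fun Z lam μ η n θ hc hμ q6 i j hi hin hj hij hm => ?_⟩
  simp only [le_min_iff] at hμ
  obtain ⟨q2, q4, q5⟩ := hμ
  have e0 := sub_pos.2 hc.lam1
  have e1 : lam - 1 ≤ 1 := by linarith only [hc, hc.lam2]
  have hi' : i < n := by omega
  have hA : 0 < Z.A j := mul_pos (hc.pos j hj.le) (exp_pos _)
  have k1 := Loc_A hc hj.le hij (H5 Z lam μ η n θ hc q5 i hi'.le j hj.le)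
  have k2 := H2 Z lam μ η n θ hc q2 i hi' ((hm i (by omega) (by omega)).trans
    (mul_le_mul_of_nonneg_right (pow_le_pow_of_le_one e0.le e1 (by norm_num)) (hc.g_pos hi'.le).le))
  have k3 := H4 Z lam μ η n θ hc q4 i hi hin hm
  have k4 := H6 _ e0 (hc.le_mu.trans q6)
  generalize lam - 1 = e at *
  refine (H3 _ _ _ _ (2 * C1 * C4 * exp 2 * e ^ 2) e (by positivity) (by positivity) e0 e1
    (fun p => (k3 p).trans ?_) ?_).trans (ENNReal.ofReal_le_ofReal ?_)
  · calc _ ≤ C4 * e ^ 2 * (exp 2 * Z.A j) := by gcongr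
      _ = _ := by field_simp
  · have := l0_nonneg (e / 3)
    calc _ ≤ C2 * e * (exp 2 * Z.A j) * l0 (e / 3) := by
          gcongr
          exact k2.trans (by gcongr)
      _ = C2 * (exp 2 * Z.A j) * (e * l0 (e / 3)) := by ring
      _ ≤ C2 * (exp 2 * Z.A j) * (1 / (2 * C1 * C2 * exp 2)) := by gcongr
      _ = _ := by field_simp
  · obtain ⟨t, ht⟩ : ∃ t, t = 1 / (8 * C4 * exp 2) / C1 / e ^ 2 := ⟨_, rfl⟩
    have t0 : 0 < t := by rw [ht]; positivity
    rw [show -(1 / 2) / (2 * C1 * C4 * exp 2 * e ^ 2) = -t + -t by rw [ht]; field_simp; ring,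
      neg_div, ← ht, exp_add, ← mul_assoc]
    refine mul_le_mul_of_nonneg_right ?_ (exp_pos _).le
    have a1 : t * exp (-t) ≤ 1 := by
      rw [exp_neg, mul_inv_le_iff₀ (exp_pos _)]
      linarith only [add_one_le_exp t]
    calc _ = C3 * (8 * C4 * exp 2) * C1 * e * (t * exp (-t)) := by rw [ht]; field_simp
      _ ≤ C3 * (8 * C4 * exp 2) * C1 * 1 * 1 := by gcongr
      _ = _ := by ring

theorem bad_set_sq : ∃ C c μ0 : ℝ, 1 ≤ C ∧ 0 < c ∧ 0 < μ0 ∧
    ∀ (Z : Cfg) (lam μ η : ℝ) (n : ℕ) (θ : ℕ → ℝ), Z.Calm lam μ η n θ → μ ≤ μ0 →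
    ∃ (S : ℕ → Set ℝ) (β : ℕ → ℝ), (∀ j < n, MeasurableSet (S j) ∧ 0 ≤ β j ∧
        volume (S j) ≤ ENNReal.ofReal (β j) ∧
        ∀ x ∈ Icc (j : ℝ) (j + 1), Z.Reg x → x ∉ S j → Z.GoodAt (θ j) x) ∧
      ∑ j ∈ Finset.range n, β j * Z.g lam j ≤
        C * exp (-c / (lam - 1) ^ 2) * ∑ j ∈ Finset.range n, Z.g lam j +
          C * μ * ∑ j ∈ Finset.range n, (Z.mm lam n θ j + Z.qq lam n θ j) +
          C * (lam - 1) * (Z.g lam 0 + Z.g lam n) := by
  classical
  obtain ⟨C1, m1, hC1, hm1, hgood⟩ := good_of_small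
  obtain ⟨C2, c2, m2, hC2, hc2, hm2, H⟩ := LocC_good
  obtain ⟨m2', hm2', H2⟩ := H C1 hC1
  obtain ⟨C3, hC3, hvol⟩ := BadB_vol
  obtain ⟨m3, hm3, hslow⟩ := slow
  obtain ⟨c1, hc1⟩ : ∃ c1, c1 = 1 / (2 * (exp 4 * C1)) := ⟨_, rfl⟩
  obtain ⟨m4, hm4, hexp⟩ := LocC_exp (c := c1) (by rw [hc1]; positivity)
  have hC21 := one_le_mul_of_one_le_of_one_le hC2 hC1
  refine ⟨3 * (C2 * C1) + 30 * C3, c2 / C1, min (min m1 (min m2 m2')) (min m3 (min m4 1)),
    by linarith only [hC3, hC21], by positivity, by positivity, fun Z lam μ η n θ hZ hμ => ?_⟩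
  simp only [le_min_iff] at hμ
  obtain ⟨⟨hμ1, hμ2, hμ2'⟩, hμ3, hμ4, hμ5⟩ := hμ
  have hμ0 := hZ.mu_pos
  have he0 := sub_pos.2 hZ.lam1
  have hg : ∀ k ≤ n, 0 < Z.g lam k := fun k hk => hZ.g_pos hk
  have hx := hexp μ hμ0 hμ4
  have hx1 : exp (-c1 / μ) ≤ μ * (lam - 1) ^ 4 := by
    calc exp (-c1 / μ) ≤ μ ^ 21 := hx
      _ = μ * (μ ^ 5) ^ 4 := by ring
      _ ≤ _ := by gcongr; exact hZ.mu_le
  have hx2 : exp (-c1 / μ) ≤ lam - 1 :=
    hx.trans ((pow_le_pow_of_le_one hμ0.le hμ5 (by norm_num : 5 ≤ 21)).trans hZ.mu_le)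
  let T : ℕ → ℝ → Set ℝ := fun j u => BadB_T (Z.Off n θ u) Z.ξ j (Z.A j / C1)
  let mq : ℕ → ℝ := fun i => Z.mm lam n θ i + Z.qq lam n θ i
  have hmq : ∀ i, 0 ≤ mq i := fun i =>
    have := mm_nonneg Z (zero_le_one.trans hZ.lam1.le) n θ i
    add_nonneg this.1 this.2.1
  let G : ℕ → Prop := fun j => 2 ≤ j ∧ j + 2 < n ∧
    ∀ k, j ≤ k + 2 → k ≤ j + 2 → mq k ≤ (lam - 1) ^ 4 * Z.g lam k
  let γ : ℕ → ℝ := fun j => if G j then C2 * C1 * exp (-(c2 / C1) / (lam - 1) ^ 2)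
    else C3 * exp (-c1 / μ)
  let r : ℕ → ℝ := fun k => (if k < n then μ * mq k else 0) +
    ((if k = 0 then (lam - 1) * Z.g lam 0 else 0) + if k = n then (lam - 1) * Z.g lam n else 0)
  have g0 := (mul_pos he0 (hg 0 n.zero_le)).le
  have gn := (mul_pos he0 (hg n le_rfl)).le
  have r1 : ∀ k, 0 ≤ if k < n then μ * mq k else 0 := fun k =>
    ite_nonneg (mul_nonneg hμ0.le (hmq k)) le_rfl
  have r2 : ∀ k, 0 ≤ if k = 0 then (lam - 1) * Z.g lam 0 else 0 := fun k => ite_nonneg g0 le_rfl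
  have r3 : ∀ k, 0 ≤ if k = n then (lam - 1) * Z.g lam n else 0 := fun k => ite_nonneg gn le_rfl
  have hr : ∀ k, 0 ≤ r k := fun k => add_nonneg (r1 k) (add_nonneg (r2 k) (r3 k))
  have hγ : ∀ j, 0 ≤ γ j := fun j => ite_nonneg (by positivity) (by positivity)
  have key1 : ∀ j < n, ∀ u : ℝ, u = j - 1 ∨ u = j ∨ u = j + 1 →
      volume (T j u) ≤ ENNReal.ofReal (γ j) := by
    intro j hj u hu
    simp only [γ]
    split_ifs with h
    · obtain ⟨i, rfl, a1, a2⟩ : ∃ i : ℕ, u = i ∧ j ≤ i + 1 ∧ i ≤ j + 1 := by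
        rcases hu with rfl | rfl | rfl
        · exact ⟨j - 1, by rw [Nat.cast_sub (by omega), Nat.cast_one], by omega, by omega⟩
        · exact ⟨j, rfl, by omega, by omega⟩
        · exact ⟨j + 1, by push_cast; rfl, by omega, le_rfl⟩
      have a3 : (j : ℝ) ≤ i + 1 := by exact_mod_cast a1
      have a4 : (i : ℝ) ≤ j + 1 := by exact_mod_cast a2
      obtain ⟨h1, h2, h3⟩ := h
      exact H2 Z lam μ η n θ hZ hμ2 hμ2' i j (by omega) (by omega) hj
        (abs_le.2 ⟨by linarith only [a3], by linarith only [a4]⟩) fun k b1 b2 => h3 k (by omega) (by omega)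
    · have hAj : 0 < Z.A j := mul_pos (hZ.pos j hj.le) (exp_pos _)
      have h0 : u ≤ j + 1 := by rcases hu with rfl | rfl | rfl <;> linarith only []
      have h1 := Z.card_le_W j (d := 2) (by norm_num) (A := Z.Off n θ u) (Finset.filter_subset _ _)
        (fun a ha => by linarith only [h0, ha, (Finset.mem_filter.1 ha).2.1.2])
      have h2 : ((Z.Off n θ u).card : ℝ) ≤ exp 4 * C1 * μ * (Z.A j / C1) := by
        calc ((Z.Off n θ u).card : ℝ) ≤ exp (2 * 2) * Z.W j := h1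
          _ ≤ exp (2 * 2) * (μ * Z.A j) := by gcongr; exact hZ.calm j hj.le
          _ = _ := by rw [show (2 * 2 : ℝ) = 4 by norm_num]; field_simp
      refine (hvol _ _ _ _ _ (by positivity) (by positivity) h2).trans (le_of_eq ?_)
      rw [hc1]
      congr 3
      field_simp
  have key2 : ∀ j < n, ¬ G j → ∃ k ≤ n, (j ≤ k + 2 ∧ k ≤ j + 2) ∧
      exp (-c1 / μ) * Z.g lam k ≤ r k := by
    intro j hj h
    by_cases h1 : 2 ≤ j
    · by_cases h2 : j + 2 < n
      · obtain ⟨k, a1, a2, a3⟩ : ∃ k, j ≤ k + 2 ∧ k ≤ j + 2 ∧ (lam - 1) ^ 4 * Z.g lam k < mq k := by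
          by_contra hn
          exact h ⟨h1, h2, fun k a1 a2 => not_lt.1 fun a3 => hn ⟨k, a1, a2, a3⟩⟩
        have hk : k < n := by omega
        refine ⟨k, hk.le, ⟨a1, a2⟩, ?_⟩
        simp only [r, if_pos hk]
        linarith only [r2, r3, hx1, hg, hk, a3, hμ0, r2 k, r3 k, mul_le_mul_of_nonneg_right hx1 (hg k hk.le).le,
          mul_le_mul_of_nonneg_left a3.le hμ0.le]
      · refine ⟨n, le_rfl, by omega, ?_⟩
        simp only [r, if_pos]
        linarith only [r1, r2, hx2, hg, r1 n, r2 n, mul_le_mul_of_nonneg_right hx2 (hg n le_rfl).le]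
    · refine ⟨0, n.zero_le, by omega, ?_⟩
      simp only [r, if_pos]
      linarith only [r1, r3, hx2, hg, r1 0, r3 0, mul_le_mul_of_nonneg_right hx2 (hg 0 n.zero_le).le]
  have key3 : ∀ j ∈ Finset.range n, 3 * γ j * Z.g lam j ≤
      3 * (C2 * C1) * exp (-(c2 / C1) / (lam - 1) ^ 2) * Z.g lam j +
      6 * C3 * ∑ k ∈ Finset.range (n + 1), if j ≤ k + 2 ∧ k ≤ j + 2 then r k else 0 := by
    intro j hj
    have hj' := Finset.mem_range.1 hj
    have a0 : ∀ k ∈ Finset.range (n + 1), 0 ≤ if j ≤ k + 2 ∧ k ≤ j + 2 then r k else 0 :=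
      fun k _ => ite_nonneg (hr k) le_rfl
    have a1 := hg j hj'.le
    by_cases h : G j
    · simp only [γ, if_pos h]
      linarith only [hC3, a0, mul_nonneg (zero_le_one.trans hC3) (Finset.sum_nonneg a0)]
    · obtain ⟨k, b1, b2, b3⟩ := key2 j hj' h
      have b4 := Finset.single_le_sum a0 (Finset.mem_range.2 (Nat.lt_succ_of_le b1))
      rw [if_pos b2] at b4
      have b5 : (j : ℝ) ≤ k + 2 := by exact_mod_cast b2.1
      have b6 : (k : ℝ) ≤ j + 2 := by exact_mod_cast b2.2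
      have b7 : |(j : ℝ) - k| ≤ 2 := abs_le.2 ⟨by linarith only [b6], by linarith only [b5]⟩
      have b8 : Z.g lam j ≤ 2 * Z.g lam k := (hslow Z lam μ η n θ hZ hμ3 j hj'.le k b1).trans
        (mul_le_mul_of_nonneg_right ((exp_le_exp.2 (by linarith only [b7, log_two_gt_d9])).trans_eq
          (exp_log two_pos)) (hg k b1).le)
      have b9 : 0 ≤ C2 * C1 * exp (-(c2 / C1) / (lam - 1) ^ 2) * Z.g lam j := by positivity
      simp only [γ, if_neg h]
      linarith only [b9, b8, hC3, b3, b4, mul_le_mul_of_nonneg_left b8 (show 0 ≤ C3 * exp (-c1 / μ) by positivity),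
        mul_le_mul_of_nonneg_left (b3.trans b4) (zero_le_one.trans hC3)]
  refine ⟨fun j => T j (j - 1) ∪ T j j ∪ T j (j + 1), fun j => 3 * γ j, fun j hj => ?_, ?_⟩
  · have h4 := hγ j
    refine ⟨((BadB_T_meas _ _ _ _).union (BadB_T_meas _ _ _ _)).union (BadB_T_meas _ _ _ _),
      by linarith only [h4], ?_, fun x hx hreg hn => ?_⟩
    · beta_reduce
      rw [show 3 * γ j = γ j + γ j + γ j by ring, ENNReal.ofReal_add (add_nonneg h4 h4) h4,
        ENNReal.ofReal_add h4 h4]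
      exact (measure_union_le _ _).trans (add_le_add ((measure_union_le _ _).trans (add_le_add
        (key1 j hj _ (Or.inl rfl)) (key1 j hj _ (Or.inr (Or.inl rfl)))))
        (key1 j hj _ (Or.inr (Or.inr rfl))))
    · refine hgood Z lam μ η n θ hZ hμ1 j hj x hx hreg fun u hu => ?_
      by_contra hlt
      have hmem : x ∈ T j u := ⟨hx, (not_le.1 hlt).le⟩
      rcases hu with rfl | rfl | rfl
      · exact hn (Or.inl (Or.inl hmem))
      · exact hn (Or.inl (Or.inr hmem))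
      · exact hn (Or.inr hmem)
  · have s0 := Finset.sum_le_sum key3
    rw [Finset.sum_add_distrib, ← Finset.mul_sum, ← Finset.mul_sum] at s0
    have s1 := mul_le_mul_of_nonneg_left (LocC_sum (r := r) (n := n) fun k _ => hr k)
      (zero_le_one.trans hC3)
    have s2 : ∑ k ∈ Finset.range (n + 1), r k = μ * ∑ j ∈ Finset.range n, mq j +
        ((lam - 1) * Z.g lam 0 + (lam - 1) * Z.g lam n) := by
      simp only [r, Finset.sum_add_distrib, Finset.sum_ite_eq', Finset.mem_range, Nat.succ_pos,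
        Nat.lt_succ_self, if_true]
      rw [Finset.sum_range_succ, if_neg (lt_irrefl n), add_zero, Finset.mul_sum]
      exact congrArg (· + _) (Finset.sum_congr rfl fun k hk => if_pos (Finset.mem_range.1 hk))
    rw [s2] at s1
    have s3 : 0 ≤ ∑ j ∈ Finset.range n, Z.g lam j :=
      Finset.sum_nonneg fun j hj => (hg j (Finset.mem_range.1 hj).le).le
    have s4 : 0 ≤ ∑ j ∈ Finset.range n, mq j := Finset.sum_nonneg fun j _ => hmq j
    have s5 : 0 ≤ C3 * exp (-(c2 / C1) / (lam - 1) ^ 2) * ∑ j ∈ Finset.range n, Z.g lam j := by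
      positivity
    have s6 : 0 ≤ C2 * C1 * μ * ∑ j ∈ Finset.range n, mq j := by positivity
    have s7 := mul_nonneg (zero_le_one.trans hC21) (add_nonneg g0 gn)
    change ∑ j ∈ Finset.range n, 3 * γ j * Z.g lam j ≤ _ + _ * ∑ j ∈ Finset.range n, mq j + _
    linarith only [s0, s1, s5, s6, s7]

end Cfg

end

end Pool.Agent.MinMod
end
end
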