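import Pool.Agent.Work.MP_f62247_an.SL
import Pool.Agent.Work.MP_f62247_an.Tilt
import Pool.Agent.Work.MP_f62247_an.LocC
import Pool.Agent.Work.MP_f62247_an.BadB
import Pool.Agent.Work.MP_f62247_an.Book
import Pool.Agent.Work.MP_f62247_an.G1b
import Pool.Agent.Work.MP_f62247_an.FinA

-- merged part: Pool.Agent.Work.MP_f62247_an.Sw
section
-- merged part: Pool.Agent.Work.MP_f62247_an.IdM1
section
/-!
# Derivative of the two-strip functional in the angle: one zero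

`h = π / lam`, `q = e^(lam z)`.  `up_nk`: strip `0 ≤ Im ≤ h`, `g z = fk (z - ζ) / (1 - i q)` (the kernel has no pole in the strip:
`q = -i` needs `lam Im z ≡ -π/2`); on the bottom line the kernel is `(1 + i ϱ)/(1 + ϱ²)`, on the top line `(1 - i ϱ)/(1 + ϱ²)`;
`ϱ/(1+ϱ²) = Kc`, `1/(1+ϱ²) = 1 - Om`.  Real parts, `parts_nk` with `ρ = 1 - Om`, `ρ' = -dOm`.  The pole `ζ = ξ + i r`, where
`r ≡ η` mod `2π`, `0 < r < h`, is present iff `0 < rp η < h`; `Im (1/(1 - i ϱ e^(iα))) = ϱ cos α / (1 + 2 ϱ sin α + ϱ²)`.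
`xi_nk`: apply `up_nk` at the angles `θ` and `θ - h` (`hasDerivAt_int_nk`); off the countable set where `η - θ ∈ {0, h, -h} + 2πℤ`,
`|Sg|` is locally `sin (lam r)`, `-sin (lam r)` or `0`; `E = 2 π lam ϱ cos α (1/(1+ϱ²) - 1/(1+2ϱ sin α+ϱ²))`, `sin α = |Sg|`.
(Checked numerically.)
-/

open Real MeasureTheory Set Filter Topology

namespace Pool.Agent.MinMod

noncomputable section

theorem IdM1_int {lam : ℝ} {ρ : ℝ → ℝ} (h : Wt lam ρ) (hl : 1 < lam) (ξ : ℝ) {φ : ℝ}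
    (hφ : rp φ ≠ 0) : Integrable fun t : ℝ => (ρ t : ℂ) * fk ((t - ξ : ℝ) + φ * Complex.I) := by
  obtain ⟨C, -, hC⟩ := norm_fk_le' (abs_pos.2 hφ)
  refine (((h.int_exp hl).norm).mul_const (C * exp (-ξ))).mono' ?_ (ae_of_all _ fun t => ?_)
  · have := h.1
    refine Measurable.aestronglyMeasurable ?_
    unfold fk
    fun_prop
  · have h1 := (hC ((t - ξ : ℝ) + φ * Complex.I) (by simp)).2
    have h2 : (((t - ξ : ℝ) : ℂ) + φ * Complex.I).re = t - ξ := by simp
    have h3 : 0 ≤ C * min (exp (2 * (t - ξ))) (exp (t - ξ)) := by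
      rw [h2] at h1
      exact (norm_nonneg _).trans h1
    have h4 : 0 < min (exp (2 * (t - ξ))) (exp (t - ξ)) := lt_min (exp_pos _) (exp_pos _)
    have h5 : 0 ≤ C := nonneg_of_mul_nonneg_left h3 h4
    rw [h2] at h1
    rw [norm_mul, norm_mul, Complex.norm_real, mul_assoc, Real.norm_of_nonneg (exp_pos t).le]
    refine mul_le_mul_of_nonneg_left (h1.trans ?_) (norm_nonneg _)
    rw [mul_left_comm, ← exp_add, ← sub_eq_add_neg]
    exact mul_le_mul_of_nonneg_left (min_le_right _ _) h5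

theorem IdM1_wt_Kc {lam : ℝ} (h : 0 ≤ lam) : Wt lam (Kc lam) := by
  have := wt_Om h 0
  simp only [sub_zero] at this
  exact this

theorem IdM1_wt_dOm {lam : ℝ} (h : 0 ≤ lam) : Wt lam (dOm lam) := by
  have := wt_dOm h 0
  simp only [sub_zero] at this
  exact this

theorem IdM1_wt_sub {lam : ℝ} (h : 0 ≤ lam) : Wt lam fun t => 1 - Om lam t := by
  refine ⟨measurable_const.sub (continuous_Om lam).measurable, 1, fun t => ?_⟩
  rw [abs_of_pos (sub_pos.2 (Om_lt_one lam t)), one_mul]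
  rcases le_total t 0 with ht | ht
  · rw [max_eq_right ht, mul_zero, exp_zero]
    linarith only [Om_pos lam t]
  · rw [max_eq_left ht]
    refine (one_sub_Om_le lam t).trans (exp_le_exp.2 ?_)
    linarith only [h, ht, mul_nonneg h ht]

theorem IdM1_Kc (lam t : ℝ) : Kc lam t = exp (lam * t) / (1 + exp (lam * t) ^ 2) := by
  have h1 : exp (2 * lam * t) = exp (lam * t) ^ 2 := by
    rw [← exp_nat_mul]
    congr 1
    push_cast
    ring
  rw [Kc, Om, h1, neg_mul, exp_neg]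
  have := exp_pos (lam * t)
  field_simp

theorem IdM1_Om (lam t : ℝ) : 1 - Om lam t = 1 / (1 + exp (lam * t) ^ 2) := by
  have h1 : exp (2 * lam * t) = exp (lam * t) ^ 2 := by
    rw [← exp_nat_mul]
    congr 1
    push_cast
    ring
  rw [Om, h1]
  have := exp_pos (lam * t)
  field_simp
  ring

/-- The denominator of the kernel. -/
def IdM1_den (lam : ℝ) (z : ℂ) : ℂ := 1 - Complex.I * Complex.exp (lam * z)

theorem IdM1_re (lam : ℝ) (z : ℂ) :
    (IdM1_den lam z).re = 1 + exp (lam * z.re) * sin (lam * z.im) := by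
  simp [IdM1_den, Complex.exp_im]

theorem IdM1_im (lam : ℝ) (z : ℂ) :
    (IdM1_den lam z).im = -(exp (lam * z.re) * cos (lam * z.im)) := by
  simp [IdM1_den, Complex.exp_re]

theorem IdM1_normSq (lam : ℝ) (z : ℂ) : Complex.normSq (IdM1_den lam z) =
    1 + 2 * exp (lam * z.re) * sin (lam * z.im) + exp (lam * z.re) ^ 2 := by
  rw [Complex.normSq_apply, IdM1_re, IdM1_im]
  linear_combination exp (lam * z.re) ^ 2 * sin_sq_add_cos_sq (lam * z.im)

theorem IdM1_norm {lam : ℝ} (hl : 0 < lam) {z : ℂ} (h0 : 0 ≤ z.im) (h1 : z.im ≤ π / lam) :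
    1 ≤ ‖IdM1_den lam z‖ ∧ exp (lam * z.re) ≤ ‖IdM1_den lam z‖ := by
  have h2 : 0 ≤ sin (lam * z.im) :=
    sin_nonneg_of_nonneg_of_le_pi (mul_nonneg hl.le h0) (by rwa [le_div_iff₀' hl] at h1)
  have h3 := IdM1_normSq lam z
  rw [Complex.normSq_eq_norm_sq] at h3
  have h4 := exp_pos (lam * z.re)
  have h5 := mul_nonneg h4.le h2
  constructor
  · refine abs_le_of_sq_le_sq' ?_ (norm_nonneg _) |>.2
    linarith only [h3, h5, sq_nonneg (rexp (lam * z.re))]
  · refine abs_le_of_sq_le_sq' ?_ (norm_nonneg _) |>.2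
    linarith only [h3, h5]

theorem IdM1_line (lam t : ℝ) {y e : ℝ} (h1 : sin (lam * y) = 0) (h2 : cos (lam * y) = e) :
    (IdM1_den lam (t + y * Complex.I))⁻¹ =
      ((1 - Om lam t : ℝ) : ℂ) + (e * Kc lam t : ℝ) * Complex.I := by
  have h3 : ((t : ℂ) + y * Complex.I).re = t := by simp
  have h4 : ((t : ℂ) + y * Complex.I).im = y := by simp
  apply Complex.ext
  · rw [Complex.inv_re, IdM1_normSq, IdM1_re, h3, h4, h1, IdM1_Om]
    simp only [Complex.add_re, Complex.ofReal_re, Complex.mul_re, Complex.I_re, Complex.ofReal_im,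
      Complex.I_im, mul_zero, add_zero, zero_mul, sub_zero]
  · rw [Complex.inv_im, IdM1_normSq, IdM1_im, h3, h4, h1, h2, IdM1_Kc]
    simp only [Complex.add_im, Complex.ofReal_re, Complex.mul_im, Complex.I_re, Complex.ofReal_im,
      Complex.I_im, mul_zero, add_zero, mul_one, zero_add]
    ring

theorem IdM1_lineInt {lam : ℝ} (hl : 1 < lam) (ξ η : ℝ) {y e : ℝ} (h1 : sin (lam * y) = 0)
    (h2 : cos (lam * y) = e) (hφ : rp (y - η) ≠ 0) :
    (Integrable fun t : ℝ => fk (t + y * Complex.I - (ξ + η * Complex.I)) *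
      (IdM1_den lam (t + y * Complex.I))⁻¹) ∧
    (∫ t : ℝ, fk (t + y * Complex.I - (ξ + η * Complex.I)) *
      (IdM1_den lam (t + y * Complex.I))⁻¹).re = (∫ t, dOm lam t * nk (t - ξ) (y - η)) -
        e * ∫ t : ℝ, Kc lam t * (fk ((t - ξ : ℝ) + (y - η : ℝ) * Complex.I)).im := by
  have h0 : 0 ≤ lam := by linarith
  have i1 := IdM1_int (IdM1_wt_sub h0) hl ξ hφ
  have i2 := IdM1_int (IdM1_wt_Kc h0) hl ξ hφ
  have e1 : (fun t : ℝ => fk (t + y * Complex.I - (ξ + η * Complex.I)) *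
      (IdM1_den lam (t + y * Complex.I))⁻¹) = fun t : ℝ =>
      ((1 - Om lam t : ℝ) : ℂ) * fk ((t - ξ : ℝ) + (y - η : ℝ) * Complex.I) +
        (e * Complex.I) * ((Kc lam t : ℂ) * fk ((t - ξ : ℝ) + (y - η : ℝ) * Complex.I)) := by
    funext t
    rw [IdM1_line lam t h1 h2, show (t : ℂ) + y * Complex.I - (ξ + η * Complex.I) =
      (t - ξ : ℝ) + (y - η : ℝ) * Complex.I by push_cast; ring]
    push_cast
    ring
  rw [e1]
  refine ⟨i1.add (i2.const_mul _), ?_⟩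
  have w : Wt lam fun t => dOm lam t * (-1) :=
    (IdM1_wt_dOm h0).mul measurable_const (C := 1) fun _ => by simp
  have p := (parts_nk (IdM1_wt_sub h0) w hl
    (fun t => by simpa using (hasDerivAt_Om lam t).const_sub 1) ξ hφ).2
  have r1 := integral_re i1
  have r2 := integral_im i2
  simp only [RCLike.re_to_complex, RCLike.im_to_complex, Complex.re_ofReal_mul,
    Complex.im_ofReal_mul] at r1 r2
  rw [integral_add i1 (i2.const_mul _), integral_const_mul, Complex.add_re, ← r1, p, r2,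
    ← integral_neg]
  simp only [Complex.mul_re, Complex.mul_im, Complex.ofReal_re, Complex.ofReal_im, Complex.I_re,
    Complex.I_im]
  congr 1
  · congr 1
    funext t
    ring
  · ring

theorem IdM1_decay {lam : ℝ} (h1 : 1 < lam) (h2 : lam < 2) (ξ η δ : ℝ) (hδ : 0 < δ) :
    ∃ T : ℝ, ∀ z : ℂ, 0 ≤ z.im → z.im ≤ π / lam → T ≤ |z.re| →
      ‖fk (z - (ξ + η * Complex.I)) * (IdM1_den lam z)⁻¹‖ ≤ δ := by
  have t1 : Tendsto (fun x : ℝ => 2 * exp (-ξ) * exp (-((lam - 1) * x))) atTop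
      (𝓝 (2 * exp (-ξ) * 0)) :=
    (tendsto_exp_neg_atTop_nhds_zero.comp
      (tendsto_id.const_mul_atTop (by linarith only [h1] : 0 < lam - 1))).const_mul _
  rw [mul_zero] at t1
  obtain ⟨T, hT⟩ := eventually_atTop.1 (t1.eventually (ge_mem_nhds hδ))
  refine ⟨max T (|ξ| + 1), fun z h3 h4 h5 => le_trans ?_ (hT _ ((le_max_left _ _).trans h5))⟩
  have h6 : (z - (ξ + η * Complex.I)).re = z.re - ξ := by simp
  have h7 := norm_fk_le (w := z - (ξ + η * Complex.I)) (by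
    rw [h6]
    linarith only [h5, abs_sub_abs_le_abs_sub z.re ξ, (le_max_right _ _).trans h5])
  rw [h6] at h7
  obtain ⟨h8, h9⟩ := IdM1_norm (by linarith only [h1, h2]) h3 h4
  have h10 := h7.trans (mul_le_mul_of_nonneg_left (min_le_right _ _) two_pos.le)
  rw [norm_mul, norm_inv]
  rcases le_total 0 z.re with hz | hz
  · refine (mul_le_mul h10 (inv_anti₀ (exp_pos _) h9) (by positivity) (by positivity)).trans_eq ?_
    rw [abs_of_nonneg hz, ← exp_neg, mul_assoc, mul_assoc, ← exp_add, ← exp_add]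
    congr 2
    ring
  · refine (mul_le_mul h10 (inv_le_one_of_one_le₀ h8) (by positivity) (by positivity)).trans ?_
    rw [abs_of_nonpos hz, mul_one, mul_assoc, ← exp_add]
    refine mul_le_mul_of_nonneg_left (exp_le_exp.2 ?_) two_pos.le
    linarith only [h2, hz, mul_nonneg_of_nonpos_of_nonpos (le_of_lt (Mathlib.Tactic.Linarith.sub_neg_of_lt h2)) (Mathlib.Tactic.Linarith.sub_nonpos_of_le hz)]

theorem IdM1_rp {a b : ℝ} (hb : |b| < π) (h : rp (b - a) = 0) : rp a = b := by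
  obtain ⟨k, hk⟩ := exists_rp (b - a)
  have : a = b + k * (2 * π) := by linarith only [h, hk]
  rw [this, rp_per, rp_eq hb]

theorem up_nk {lam : ℝ} (h1 : 1 < lam) (h2 : lam < 2) (ξ : ℝ) {η : ℝ} (h0 : rp η ≠ 0)
    (hh : rp η ≠ π / lam) :
    -(∫ t : ℝ, Kc lam t * (fk ((t - ξ : ℝ) + (-η : ℝ) * Complex.I)).im) -
        (∫ t : ℝ, Kc lam t * (fk ((t - ξ : ℝ) + (π / lam - η : ℝ) * Complex.I)).im) =
      (∫ t, dOm lam t * (nk (t - ξ) (π / lam - η) - nk (t - ξ) (-η))) -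
        if 0 < rp η ∧ rp η < π / lam then
          2 * π * (exp (lam * ξ) * cos (lam * rp η) /
            (1 + 2 * exp (lam * ξ) * sin (lam * rp η) + exp (2 * lam * ξ))) else 0 := by
  classical
  have hl : 0 < lam := by linarith
  have hp : 0 < π / lam := div_pos pi_pos hl
  have hp' : π / lam < π := div_lt_self pi_pos h1
  have hm : lam * (π / lam) = π := mul_div_cancel₀ _ hl.ne'
  obtain ⟨a1, a2⟩ := IdM1_lineInt h1 ξ η (y := 0) (e := 1) (by simp) (by simp)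
    fun h => h0 (IdM1_rp (by simpa using pi_pos) h)
  obtain ⟨b1, b2⟩ := IdM1_lineInt h1 ξ η (y := π / lam) (e := -1) (by rw [hm, sin_pi])
    (by rw [hm, cos_pi]) fun h => hh (IdM1_rp (by rwa [abs_of_pos hp]) h)
  have hd : ∀ z : ℂ, 0 ≤ z.im → z.im ≤ π / lam →
      DifferentiableAt ℂ (fun z => (IdM1_den lam z)⁻¹) z := by
    intro z h3 h4
    refine DifferentiableAt.inv (by unfold IdM1_den; fun_prop) ?_
    exact norm_pos_iff.1 (one_pos.trans_le (IdM1_norm hl h3 h4).1)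
  have key := strip_res hp (fun z => fk (z - (ξ + η * Complex.I)) * (IdM1_den lam z)⁻¹)
    (if 0 < rp η ∧ rp η < π / lam then {ξ + rp η * Complex.I} else ∅)
    (fun z => (IdM1_den lam z)⁻¹) ?_ ?_ ?_ a1 b1 (IdM1_decay h1 h2 ξ η)
  · have k2 := congrArg Complex.re key
    rw [Complex.sub_re, a2, b2, zero_sub] at k2
    have w := IdM1_wt_dOm hl.le
    simp only [mul_sub]
    rw [integral_sub (w.int_nk h1 ξ _) (w.int_nk h1 ξ _)]
    split_ifs at k2 ⊢ with h
    · have h3 : ((ξ : ℂ) + rp η * Complex.I).re = ξ := by simp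
      have h4 : ((ξ : ℂ) + rp η * Complex.I).im = rp η := by simp
      have h5 : exp (2 * lam * ξ) = exp (lam * ξ) ^ 2 := by
        rw [← exp_nat_mul]
        congr 1
        push_cast
        ring
      have h6 : ∀ R : ℂ, (2 * π * Complex.I * R).re = -(2 * π * R.im) := fun R => by simp
      rw [Finset.sum_singleton, h6, Complex.inv_im, IdM1_normSq, IdM1_im, h3, h4, neg_neg] at k2
      rw [h5]
      linarith only [k2]
    · rw [Finset.sum_empty, mul_zero, Complex.zero_re] at k2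
      linarith only [k2]
  · intro p hp
    split_ifs at hp with h
    · rw [Finset.mem_singleton.1 hp]
      simpa using h
    · exact absurd hp (Finset.notMem_empty p)
  · intro z h3 h4 h5
    refine DifferentiableAt.mul ?_ (hd z h3 h4)
    refine (differentiableAt_fk fun h6 => h5 ?_).comp z (by fun_prop)
    obtain ⟨n, hn⟩ := Complex.exp_eq_one_iff.1 h6
    have h7 := congrArg Complex.re hn
    have h8 := congrArg Complex.im hn
    simp at h7 h8
    have h9 : rp η = z.im := by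
      rw [← rp_per η n, show η + n * (2 * π) = z.im by linarith only [h8],
        rp_eq (by rw [abs_of_nonneg h3]; linarith only [hp', h4])]
    rw [if_pos ⟨lt_of_le_of_ne (h9 ▸ h3) h0.symm, lt_of_le_of_ne (h9 ▸ h4) hh⟩,
      Finset.mem_singleton]
    apply Complex.ext
    · simp
      linarith only [h7]
    · simp [h9]
  · intro p hp
    split_ifs at hp with h
    swap
    · exact absurd hp (Finset.notMem_empty p)
    obtain ⟨k, hk⟩ := exists_rp η
    have h3 : p - (ξ + η * Complex.I) = k * (2 * π * Complex.I) := by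
      rw [Finset.mem_singleton.1 hp, hk]
      push_cast
      ring
    have h4 : p.im = rp η := by rw [Finset.mem_singleton.1 hp]; simp
    have h5 : Tendsto (fun z : ℂ => z - (ξ + η * Complex.I)) (𝓝[≠] p)
        (𝓝[≠] (k * (2 * π * Complex.I))) := by
      rw [← h3]
      refine tendsto_nhdsWithin_iff.2 ⟨((continuous_id.sub continuous_const).tendsto p).mono_left
        nhdsWithin_le_nhds, eventually_nhdsWithin_of_forall fun z hz h6 => hz ?_⟩
      exact sub_left_injective h6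
    have h6 := ((fk_res k).comp h5).mul
      ((hd p (h4 ▸ h.1.le) (h4 ▸ h.2.le)).continuousAt.tendsto.mono_left nhdsWithin_le_nhds)
    rw [one_mul] at h6
    refine h6.congr fun z => ?_
    simp only [Function.comp_apply, ← h3]
    ring

/-- The residue term of `up_nk`. -/
def IdM1_P (lam ξ η : ℝ) : ℝ :=
  if 0 < rp η ∧ rp η < π / lam then
    2 * π * (exp (lam * ξ) * cos (lam * rp η) /
      (1 + 2 * exp (lam * ξ) * sin (lam * rp η) + exp (2 * lam * ξ))) else 0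

theorem IdM1_rp_add {r h : ℝ} (h0 : 0 < h) (h2 : h < π) (r1 : -π < r) (r2 : r < π) :
    (r + h ≤ π ∧ rp (r + h) = r + h) ∨ (π < r + h ∧ rp (r + h) = r + h - 2 * π) := by
  rcases le_or_gt (r + h) π with h3 | h3
  · refine Or.inl ⟨h3, ?_⟩
    rw [rp, toIocMod_eq_self]
    constructor <;> linarith only [h0, r1, h3]
  · refine Or.inr ⟨h3, ?_⟩
    rw [← rp_per (r + h) (-1), rp_eq (abs_lt.2 ⟨by push_cast; linarith, by push_cast; linarith⟩)]
    push_cast
    ring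

theorem IdM1_main {lam : ℝ} (h1 : 1 < lam) (h2 : lam < 2) (ξ η θ : ℝ) (a1 : rp (η - θ) ≠ 0)
    (a2 : rp (η - θ) ≠ π / lam) (a3 : rp (η - θ + π / lam) ≠ 0)
    (a4 : rp (η - θ + π / lam) ≠ π / lam) :
    HasDerivAt (fun θ => ∫ t, Kc lam t * Sop lam (fun φ => nk (t - ξ) (φ - η)) θ)
      ((∫ t, dOm lam t * Dop lam (fun φ => nk (t - ξ) (φ - η)) θ) - IdM1_P lam ξ (η - θ) -
        IdM1_P lam ξ (η - θ + π / lam)) θ := by
  have hl : 0 < lam := by linarith only [h1, h2]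
  have hp : 0 < π / lam := div_pos pi_pos hl
  have hp' : π / lam < π := div_lt_self pi_pos h1
  have w := IdM1_wt_Kc hl.le
  have w' := IdM1_wt_dOm hl.le
  have u1 := up_nk h1 h2 ξ a1 a2
  have u2 := up_nk h1 h2 ξ a3 a4
  have n1 : rp (θ - η) ≠ 0 := fun h => a1 (IdM1_rp (b := 0) (by simpa using pi_pos)
    (by rwa [zero_sub, neg_sub]))
  have n2 : rp (θ + π / lam - η) ≠ 0 := fun h => a2 (IdM1_rp (by rwa [abs_of_pos hp])
    (by rwa [show π / lam - (η - θ) = θ + π / lam - η by ring]))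
  have n3 : rp (θ - π / lam - η) ≠ 0 := fun h => a3 (IdM1_rp (b := 0) (by simpa using pi_pos)
    (by rwa [show 0 - (η - θ + π / lam) = θ - π / lam - η by ring]))
  have d1 := (hasDerivAt_int_nk w h1 ξ n1).2.comp_sub_const θ η
  have d2 := ((hasDerivAt_int_nk w h1 ξ n2).2.comp_sub_const (θ + π / lam) η).comp_add_const θ
    (π / lam)
  have d3 := ((hasDerivAt_int_nk w h1 ξ n3).2.comp_sub_const (θ - π / lam) η).comp_sub_const θ
    (π / lam)
  rw [neg_sub, show π / lam - (η - θ) = θ + π / lam - η by ring] at u1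
  rw [show -(η - θ + π / lam) = θ - π / lam - η by ring,
    show π / lam - (η - θ + π / lam) = θ - η by ring] at u2
  simp only [mul_sub] at u1 u2
  rw [integral_sub (w'.int_nk h1 ξ _) (w'.int_nk h1 ξ _)] at u1 u2
  have d := ((d1.const_mul 2).add d2).add d3
  refine (d.congr_of_eventuallyEq (Eventually.of_forall fun x => ?_)).congr_deriv ?_
  · simp only [Sop, mul_add, Pi.add_apply, mul_left_comm (Kc lam _) 2]
    rw [integral_add ?_ (w.int_nk h1 ξ _),
      integral_add ((w.int_nk h1 ξ _).const_mul 2) (w.int_nk h1 ξ _), integral_const_mul]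
    exact ((w.int_nk h1 ξ _).const_mul 2).add (w.int_nk h1 ξ _)
  · simp only [Dop, mul_sub, IdM1_P]
    rw [integral_sub (w'.int_nk h1 ξ _) (w'.int_nk h1 ξ _)]
    linarith only [u1, u2]

theorem IdM1_E {lam : ℝ} (h1 : 1 < lam) (h2 : lam ≤ 11 / 10) (ξ α : ℝ) (hα : 0 ≤ sin α) :
    |Kc lam ξ * (2 * π * (lam * cos α)) - lam * (2 * π * (exp (lam * ξ) * cos α /
      (1 + 2 * exp (lam * ξ) * sin α + exp (2 * lam * ξ))))| ≤
      16 * sin α * exp (-2 * lam * |ξ|) := by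
  have h3 := (dOm_le (by linarith only [h1, h2] : 0 ≤ lam) ξ).2
  have h5 : exp (2 * lam * ξ) = exp (lam * ξ) ^ 2 := by
    rw [← exp_nat_mul]
    congr 1
    push_cast
    ring
  rw [dOm, h5] at h3
  rw [IdM1_Kc, h5]
  have h6 := exp_pos (lam * ξ)
  have h7 := exp_pos (-2 * lam * |ξ|)
  generalize exp (lam * ξ) = q at *
  generalize exp (-2 * lam * |ξ|) = ε at *
  have h8 : 0 < 1 + q ^ 2 := by positivity
  have h9 : 0 < 1 + 2 * q * sin α + q ^ 2 := by positivity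
  have e : q / (1 + q ^ 2) * (2 * π * (lam * cos α)) -
      lam * (2 * π * (q * cos α / (1 + 2 * q * sin α + q ^ 2))) =
      cos α * (2 * π * sin α * (2 * lam * q ^ 2 / ((1 + q ^ 2) * (1 + 2 * q * sin α + q ^ 2)))) := by
    field_simp
    ring
  have h10 : 2 * lam * q ^ 2 / ((1 + q ^ 2) * (1 + 2 * q * sin α + q ^ 2)) ≤ 2 * lam * ε := by
    refine le_trans (div_le_div_of_nonneg_left (by positivity) (by positivity) ?_) h3
    rw [sq (1 + q ^ 2)]
    refine mul_le_mul_of_nonneg_left ?_ h8.le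
    linarith only [h6, hα, mul_nonneg h6.le hα]
  rw [e, abs_mul, abs_of_nonneg (a := 2 * π * sin α * _) (by positivity)]
  refine (mul_le_of_le_one_left (by positivity) (abs_cos_le_one α)).trans
    ((mul_le_mul_of_nonneg_left h10 (by positivity)).trans ?_)
  have h11 : π * lam ≤ 4 := by linarith only [h2, h1, pi_lt_d2, pi_pos, mul_pos_of_neg_of_neg (Mathlib.Tactic.Linarith.sub_neg_of_lt h1) (Mathlib.Tactic.Linarith.sub_neg_of_lt h1), mul_nonneg_of_nonpos_of_nonpos (le_of_lt (Mathlib.Tactic.Linarith.sub_neg_of_lt h1)) (Mathlib.Tactic.Linarith.sub_nonpos_of_le h2), mul_pos_of_neg_of_neg (Mathlib.Tactic.Linarith.sub_neg_of_lt h1) (Mathlib.Tactic.Linarith.sub_neg_of_lt pi_lt_d2)]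
  (refine le_of_not_gt fun h_nl => ?_; linarith only [h_nl, h1, h2, h11, hα, h7, mul_nonneg hα h7.le, mul_pos_of_neg_of_neg (Mathlib.Tactic.Linarith.sub_neg_of_lt h1) (Mathlib.Tactic.Linarith.sub_neg_of_lt h_nl), mul_nonneg_of_nonpos_of_nonpos (Mathlib.Tactic.Linarith.sub_nonpos_of_le h2) (le_of_lt (Mathlib.Tactic.Linarith.sub_neg_of_lt h_nl)), mul_nonneg_of_nonpos_of_nonpos (Mathlib.Tactic.Linarith.sub_nonpos_of_le h11) (Mathlib.Tactic.Linarith.sub_nonpos_of_le (mul_nonneg hα (LT.lt.le h7)))])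

theorem IdM1_loc {lam : ℝ} (h1 : 1 < lam) (η θ : ℝ) {e : ℝ} (he : e = 1 ∨ e = -1)
    (a1 : 0 < e * rp (η - θ)) (a2 : e * rp (η - θ) < π / lam) :
    |Sg lam (η - θ)| = e * sin (lam * rp (η - θ)) ∧ HasDerivAt (fun x => |Sg lam (η - x)|)
      (-(e * (lam * cos (lam * rp (η - θ))))) θ := by
  have hl : 0 < lam := by linarith only [h1]
  obtain ⟨k, hk⟩ := exists_rp (η - θ)
  generalize rp (η - θ) = r at *
  have hc : ContinuousAt (fun x => e * (r - (x - θ))) θ := by fun_prop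
  have ev : (fun x => |Sg lam (η - x)|) =ᶠ[𝓝 θ] fun x => e * sin (lam * (r - (x - θ))) := by
    filter_upwards [hc.eventually (Ioo_mem_nhds (a := 0) (b := π / lam) (by simpa using a1)
      (by simpa using a2))] with x hx
    have h3 : 0 ≤ sin (lam * (e * (r - (x - θ)))) :=
      sin_nonneg_of_nonneg_of_le_pi (mul_nonneg hl.le hx.1.le) ((le_div_iff₀' hl).1 hx.2.le)
    rw [← Sg_per lam (η - x) k, show η - x + k * (2 * π) = r - (x - θ) by linarith only [hk]]
    rcases he with rfl | rfl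
    · rw [one_mul] at hx h3 ⊢
      rw [Sg_eq h1 (by rw [abs_of_pos hx.1]; exact hx.2.le), abs_of_nonneg h3]
    · rw [neg_one_mul] at hx h3 ⊢
      rw [mul_neg, sin_neg] at h3
      rw [Sg_eq h1 (by rw [abs_of_neg (neg_pos.1 hx.1)]; exact hx.2.le),
        abs_of_nonpos (neg_nonneg.1 h3)]
  refine ⟨by simpa using ev.eq_of_nhds, HasDerivAt.congr_of_eventuallyEq ?_ ev⟩
  have d := (((((hasDerivAt_id θ).sub_const θ).const_sub r).const_mul lam).sin).const_mul e
  refine d.congr_deriv ?_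
  rw [id, sub_self, sub_zero]
  ring

theorem IdM1_loc0 {lam : ℝ} (h1 : 1 < lam) (η θ : ℝ) (a1 : π / lam < |rp (η - θ)|) :
    HasDerivAt (fun x => |Sg lam (η - x)|) 0 θ := by
  refine (hasDerivAt_const θ (0 : ℝ)).congr_of_eventuallyEq ?_
  filter_upwards [Metric.ball_mem_nhds θ (sub_pos.2 a1)] with x hx
  have h2 := abs_rp_add_le (η - x) (x - θ)
  have h3 := abs_rp_le (x - θ)
  rw [Metric.mem_ball, Real.dist_eq] at hx
  rw [sub_add_sub_cancel] at h2
  rw [Sg_zero h1 (by linarith only [hx, h2, h3]), abs_zero]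

theorem xi_nk : ∃ C : ℝ, 1 ≤ C ∧ ∀ lam ξ η : ℝ, 1 < lam → lam ≤ 11 / 10 →
    ∃ S : Set ℝ, S.Countable ∧ ∀ θ ∉ S, ∃ E : ℝ,
      |E| ≤ C * |Sg lam (η - θ)| * exp (-2 * lam * |ξ|) ∧
      HasDerivAt (fun θ => lam * (∫ t, Kc lam t * Sop lam (fun φ => nk (t - ξ) (φ - η)) θ) -
          Kc lam ξ * (2 * π * |Sg lam (η - θ)|))
        (lam * (∫ t, dOm lam t * Dop lam (fun φ => nk (t - ξ) (φ - η)) θ) + E) θ := by
  refine ⟨16, by norm_num, fun lam ξ η h1 h2 => ?_⟩
  have hl : 0 < lam := by linarith only [h1, h2]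
  have hp : 0 < π / lam := div_pos pi_pos hl
  have hp' : π / lam < π := div_lt_self pi_pos h1
  have hm : lam * (π / lam) = π := mul_div_cancel₀ _ hl.ne'
  refine ⟨⋃ r ∈ ({0, π / lam, -(π / lam), π} : Set ℝ), range fun k : ℤ => η + k * (2 * π) - r,
    (toFinite _).countable.biUnion fun r _ => countable_range _, fun θ hθ => ?_⟩
  obtain ⟨k, hk⟩ := exists_rp (η - θ)
  have hr : rp (η - θ) ∉ ({0, π / lam, -(π / lam), π} : Set ℝ) := fun h =>
    hθ (mem_biUnion h ⟨k, by linarith only [hk]⟩)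
  simp only [mem_insert_iff, mem_singleton_iff, not_or] at hr
  obtain ⟨r0, r1, r2, r3⟩ := hr
  obtain ⟨b1, b2⟩ := rp_mem (η - θ)
  have b3 := IdM1_rp_add hp hp' b1 (lt_of_le_of_ne b2 r3)
  have b4 : rp (rp (η - θ) + π / lam) = rp (η - θ + π / lam) := by
    rw [hk, add_right_comm, rp_per]
  rw [b4] at b3
  have d := (IdM1_main h1 (by linarith only [h1, h2]) ξ η θ r0 r1
    (fun h => by rcases b3 with b | b; exacts [r2 (by linarith only [h, b]), by linarith only [hp', b2, h, b]])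
    (fun h => by rcases b3 with b | b; exacts [r0 (by linarith only [h, b]), by linarith only [hp, hp', b2, h, b]])).const_mul lam
  rcases lt_or_gt_of_ne (show |rp (η - θ)| ≠ π / lam from fun h => by
    rcases abs_eq hp.le |>.1 h with h | h; exacts [r1 h, r2 h]) with c | c
  · obtain ⟨c1, c2⟩ := abs_lt.1 c
    rcases lt_or_gt_of_ne r0 with c3 | c3
    · obtain ⟨l1, l2⟩ := IdM1_loc h1 η θ (e := -1) (Or.inr rfl) (by linarith only [c3]) (by linarith only [c1])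
      have b5 := (b3.resolve_right fun b => by linarith only [hp', c3, b]).2
      have s1 : sin (lam * (rp (η - θ) + π / lam)) = -1 * sin (lam * rp (η - θ)) := by
        rw [mul_add, hm, sin_add_pi, neg_one_mul]
      have s2 : cos (lam * (rp (η - θ) + π / lam)) = -cos (lam * rp (η - θ)) := by
        rw [mul_add, hm, cos_add_pi]
      have s3 := IdM1_E h1 h2 ξ (lam * (rp (η - θ) + π / lam)) (by rw [s1, ← l1]; positivity)
      refine ⟨_, s3.trans_eq (by rw [l1, s1]), ?_⟩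
      refine (d.sub ((l2.const_mul (2 * π)).const_mul (Kc lam ξ))).congr_deriv ?_
      rw [IdM1_P, IdM1_P, if_neg fun h => by linarith only [c3, h, h.1], b5,
        if_pos ⟨by linarith only [c1], by linarith only [c3]⟩, s2]
      ring
    · obtain ⟨l1, l2⟩ := IdM1_loc h1 η θ (e := 1) (Or.inl rfl) (by linarith only [c3]) (by linarith only [c2])
      rw [one_mul] at l1
      have s3 := IdM1_E h1 h2 ξ (lam * rp (η - θ)) (by rw [← l1]; positivity)
      refine ⟨_, s3.trans_eq (by rw [l1]), ?_⟩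
      refine (d.sub ((l2.const_mul (2 * π)).const_mul (Kc lam ξ))).congr_deriv ?_
      rw [IdM1_P, IdM1_P, if_pos ⟨c3, c2⟩, if_neg fun h => by
        rcases b3 with b | b <;> linarith only [c3, h, b, hp', c2, h.1, h.2]]
      ring
  · refine ⟨0, by rw [abs_zero]; positivity, ?_⟩
    refine (d.sub (((IdM1_loc0 h1 η θ c).const_mul (2 * π)).const_mul (Kc lam ξ))).congr_deriv ?_
    rw [IdM1_P, IdM1_P, if_neg fun h => by linarith only [c, h, abs_of_pos h.1, h.2], if_neg fun h => by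
      rcases b3 with b | b <;> rcases lt_abs.1 c with c | c <;> linarith only [h, b, c, hp', b2, h.1, h.2]]
    ring

end

end Pool.Agent.MinMod
end

-- merged part: Pool.Agent.Work.MP_f62247_an.IdM2
section
/-!
# Derivative of the two-strip functional in the angle: the periodic kernel and the linear term

As in IdM1.  `xi_Nh`: `f w = -2 lam e^(2 lam w) / (1 - e^(2 lam w))` has period `i h`, poles at `i h ℤ` with residue `1`,
`∂_t Nh = Re f`, `∂_φ Nh = -Im f = 2 lam dlg`.  `strip_res` on `0 ≤ Im ≤ h` for `f (z - ζ) / (1 - i e^(lam z))`, exactly one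
pole when `η - θ ∉ h ℤ`; the two lines carry the same values of `f`, so the real parts of `f` cancel and no integration by parts is
needed.  With `α ≡ lam (η - θ)` mod `π`, `0 < α < π`, `ϱ = e^(lam ξ)`:
`E = 2 π lam ϱ cos α (1/(1+ϱ²) - 1/(1+2ϱ sin α+ϱ²))`, `sin α = |sin (lam (η - θ))|`.  Differentiate under the integral
(`hasDerivAt_integral_of_dominated_loc_of_deriv_le`; `dlg` is bounded for angles off `2πℤ`, locally uniformly).
`xi_main`: both sides are `Im (c e^(iθ))` times constants; the identity `(2 + 2 cos h) ∫ Kc e^t = 2 sin h ∫ dOm e^t` follows from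
`strip_res` without poles for `e^z / (1 - i e^(lam z))` and one integration by parts.  (Checked numerically.)
-/

open Real MeasureTheory Set Filter Topology

namespace Pool.Agent.MinMod

noncomputable section

theorem IdM2_int {μ : ℝ} (h : 0 < μ) : Integrable fun t : ℝ => exp (-μ * |t|) := by
  have h1 : IntegrableOn (fun t : ℝ => exp (-μ * |t|)) (Ioi 0) :=
    (exp_neg_integrableOn_Ioi 0 h).congr_fun (fun t ht => by simp [abs_of_pos (mem_Ioi.1 ht)])
      measurableSet_Ioi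
  have h2 : IntegrableOn (fun t : ℝ => exp (-μ * |t|)) (Iic 0) :=
    (integrableOn_exp_mul_Iic h 0).congr_fun (fun t ht => by simp [abs_of_nonpos (mem_Iic.1 ht)])
      measurableSet_Iic
  rw [← integrableOn_univ, ← Iic_union_Ioi (a := (0 : ℝ))]
  exact h2.union h1

/-- The kernel of the strip. -/
def IdM2_ker (lam : ℝ) (z : ℂ) : ℂ := (1 - Complex.I * Complex.exp (lam * z))⁻¹

theorem IdM2_re (lam : ℝ) (z : ℂ) : (1 - Complex.I * Complex.exp (lam * z)).re =
    1 + exp (lam * z.re) * sin (lam * z.im) := by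
  simp [Complex.exp_im]

theorem IdM2_im (lam : ℝ) (z : ℂ) : (1 - Complex.I * Complex.exp (lam * z)).im =
    -(exp (lam * z.re) * cos (lam * z.im)) := by
  simp [Complex.exp_re]

theorem IdM2_nsq (lam : ℝ) (z : ℂ) : Complex.normSq (1 - Complex.I * Complex.exp (lam * z)) =
    1 + 2 * exp (lam * z.re) * sin (lam * z.im) + exp (lam * z.re) ^ 2 := by
  rw [Complex.normSq_apply, IdM2_re, IdM2_im]
  linear_combination exp (lam * z.re) ^ 2 * sin_sq_add_cos_sq (lam * z.im)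

theorem IdM2_ker_re (lam : ℝ) (z : ℂ) : (IdM2_ker lam z).re =
    (1 + exp (lam * z.re) * sin (lam * z.im)) /
      (1 + 2 * exp (lam * z.re) * sin (lam * z.im) + exp (lam * z.re) ^ 2) := by
  rw [IdM2_ker, Complex.inv_re, IdM2_re, IdM2_nsq]

theorem IdM2_ker_im (lam : ℝ) (z : ℂ) : (IdM2_ker lam z).im =
    exp (lam * z.re) * cos (lam * z.im) /
      (1 + 2 * exp (lam * z.re) * sin (lam * z.im) + exp (lam * z.re) ^ 2) := by
  rw [IdM2_ker, Complex.inv_im, IdM2_im, IdM2_nsq, neg_neg]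

theorem IdM2_ker_le {lam : ℝ} (hl : 0 < lam) {z : ℂ} (h0 : 0 ≤ z.im) (h1 : z.im ≤ π / lam) :
    1 - Complex.I * Complex.exp (lam * z) ≠ 0 ∧ ‖IdM2_ker lam z‖ ≤ 1 ∧
      ‖IdM2_ker lam z‖ ≤ exp (-lam * z.re) := by
  have hs : 0 ≤ sin (lam * z.im) := sin_nonneg_of_nonneg_of_le_pi (by positivity)
    (by rwa [le_div_iff₀' hl] at h1)
  have he := exp_pos (lam * z.re)
  have hn := IdM2_nsq lam z
  rw [Complex.normSq_eq_norm_sq] at hn
  have hp := mul_nonneg he.le hs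
  have a1 : 1 ≤ ‖1 - Complex.I * Complex.exp (lam * z)‖ :=
    (abs_le_of_sq_le_sq' (by linarith only [hn, hp, sq_nonneg (rexp (lam * z.re))]) (norm_nonneg _)).2
  have a2 : exp (lam * z.re) ≤ ‖1 - Complex.I * Complex.exp (lam * z)‖ :=
    (abs_le_of_sq_le_sq' (by linarith only [hn, hp]) (norm_nonneg _)).2
  refine ⟨fun h => ?_, ?_, ?_⟩
  · rw [h, norm_zero] at a1; linarith
  · rw [IdM2_ker, norm_inv]; exact inv_le_one_of_one_le₀ a1
  · rw [IdM2_ker, norm_inv, neg_mul, exp_neg]; exact inv_anti₀ he a2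

theorem IdM2_Om (lam t : ℝ) : 1 - Om lam t = 1 / (1 + exp (lam * t) ^ 2) := by
  rw [Om, show 2 * lam * t = lam * t + lam * t by ring, exp_add]
  field_simp
  ring

theorem IdM2_Kc (lam t : ℝ) : Kc lam t = exp (lam * t) / (1 + exp (lam * t) ^ 2) := by
  rw [Kc, Om, show 2 * lam * t = lam * t + lam * t by ring, exp_add, neg_mul, exp_neg]
  field_simp

theorem IdM2_bot (lam t : ℝ) : IdM2_ker lam (t + (0 : ℝ) * Complex.I) =
    (1 - Om lam t : ℝ) + (Kc lam t : ℝ) * Complex.I := by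
  have e1 : ∀ a b : ℝ, ((a : ℂ) + b * Complex.I).re = a := fun a b => by simp
  have e2 : ∀ a b : ℝ, ((a : ℂ) + b * Complex.I).im = b := fun a b => by simp
  apply Complex.ext
  · rw [IdM2_ker_re, IdM2_Om, e1, e1, e2]; simp
  · rw [IdM2_ker_im, IdM2_Kc, e1, e2, e2]; simp

theorem IdM2_top {lam : ℝ} (hl : 0 < lam) (t : ℝ) :
    IdM2_ker lam (t + (π / lam : ℝ) * Complex.I) =
      (1 - Om lam t : ℝ) - (Kc lam t : ℝ) * Complex.I := by
  have e1 : ((t : ℂ) + (π / lam : ℝ) * Complex.I).re = t := by simp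
  have e2 : lam * ((t : ℂ) + (π / lam : ℝ) * Complex.I).im = π := by
    simp only [Complex.add_im, Complex.ofReal_im, Complex.mul_im, Complex.ofReal_re, Complex.I_im,
      Complex.I_re]
    field_simp
    ring
  have e3 : ∀ a b : ℝ, ((a : ℂ) - b * Complex.I).re = a := fun a b => by simp
  have e4 : ∀ a b : ℝ, ((a : ℂ) - b * Complex.I).im = -b := fun a b => by simp
  apply Complex.ext
  · rw [IdM2_ker_re, IdM2_Om, e1, e2, e3]; simp
  · rw [IdM2_ker_im, IdM2_Kc, e1, e2, e4]; simp [neg_div]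

theorem IdM2_strip {lam : ℝ} (hl : 0 < lam) (F : ℂ → ℂ) (S : Finset ℂ) (R : ℂ → ℂ)
    (hS : ∀ p ∈ S, 0 < p.im ∧ p.im < π / lam)
    (hd : ∀ z : ℂ, 0 ≤ z.im → z.im ≤ π / lam → z ∉ S → DifferentiableAt ℂ F z)
    (hR : ∀ p ∈ S, Tendsto (fun z => (z - p) * F z) (𝓝[≠] p) (𝓝 (R p))) {μ C T : ℝ} (hμ : 0 < μ)
    (hb : ∀ z : ℂ, 0 ≤ z.im → z.im ≤ π / lam → (z.im = 0 ∨ z.im = π / lam ∨ T ≤ |z.re|) →
      ‖F z * IdM2_ker lam z‖ ≤ C * exp (-μ * |z.re|)) :
    (Integrable fun t : ℝ => F (t + (0 : ℝ) * Complex.I) * IdM2_ker lam (t + (0 : ℝ) * Complex.I)) ∧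
    (Integrable fun t : ℝ => F (t + (π / lam : ℝ) * Complex.I) *
      IdM2_ker lam (t + (π / lam : ℝ) * Complex.I)) ∧
    (∫ t : ℝ, F (t + (0 : ℝ) * Complex.I) * IdM2_ker lam (t + (0 : ℝ) * Complex.I)) -
      ∫ t : ℝ, F (t + (π / lam : ℝ) * Complex.I) * IdM2_ker lam (t + (π / lam : ℝ) * Complex.I) =
      2 * π * Complex.I * ∑ p ∈ S, R p * IdM2_ker lam p := by
  have hh : 0 < π / lam := div_pos pi_pos hl
  have hk : ∀ z : ℂ, 0 ≤ z.im → z.im ≤ π / lam → DifferentiableAt ℂ (IdM2_ker lam) z :=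
    fun z h0 h1 => DifferentiableAt.inv (by fun_prop) (IdM2_ker_le hl h0 h1).1
  have hi : ∀ a : ℝ, a = 0 ∨ a = π / lam →
      Integrable fun t : ℝ => F (t + a * Complex.I) * IdM2_ker lam (t + a * Complex.I) := by
    intro a ha
    have him : ∀ t : ℝ, ((t : ℂ) + a * Complex.I).im = a := fun t => by simp
    have hre : ∀ t : ℝ, ((t : ℂ) + a * Complex.I).re = t := fun t => by simp
    have h0 : 0 ≤ a := by rcases ha with rfl | rfl; exacts [le_rfl, hh.le]
    have h1 : a ≤ π / lam := by rcases ha with rfl | rfl; exacts [hh.le, le_rfl]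
    refine ((IdM2_int hμ).const_mul C).mono' (Continuous.aestronglyMeasurable ?_)
      (Eventually.of_forall fun t => ?_)
    · refine continuous_iff_continuousAt.2 fun t => ?_
      have hc : ContinuousAt (fun z => F z * IdM2_ker lam z) ((t : ℂ) + a * Complex.I) :=
        ((hd _ (by rwa [him]) (by rwa [him]) fun h => by
          have := hS _ h
          rw [him] at this
          rcases ha with rfl | rfl
          · exact lt_irrefl _ this.1
          · exact lt_irrefl _ this.2).mul (hk _ (by rwa [him]) (by rwa [him]))).continuousAt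
      exact ContinuousAt.comp (f := fun t : ℝ => (t : ℂ) + a * Complex.I) hc (by fun_prop)
    · have := hb (t + a * Complex.I) (by rwa [him]) (by rwa [him]) (by rw [him]; tauto)
      rwa [hre] at this
  refine ⟨hi 0 (Or.inl rfl), hi _ (Or.inr rfl), ?_⟩
  refine strip_res hh (fun z => F z * IdM2_ker lam z) S (fun p => R p * IdM2_ker lam p) hS
    (fun z h0 h1 h2 => (hd z h0 h1 h2).mul (hk z h0 h1)) (fun p hp => ?_) (hi 0 (Or.inl rfl))
    (hi _ (Or.inr rfl)) fun δ hδ => ?_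
  · simp only [← mul_assoc]
    exact (hR p hp).mul
      ((hk p (hS p hp).1.le (hS p hp).2.le).continuousAt.tendsto.mono_left nhdsWithin_le_nhds)
  · have ht : Tendsto (fun x : ℝ => C * exp (-μ * x)) atTop (𝓝 (C * 0)) :=
      (tendsto_exp_atBot.comp (tendsto_id.const_mul_atTop_of_neg (neg_lt_zero.2 hμ))).const_mul C
    rw [mul_zero] at ht
    obtain ⟨T', hT'⟩ := eventually_atTop.1 (ht.eventually (ge_mem_nhds hδ))
    exact ⟨max T T', fun z h0 h1 h2 => (hb z h0 h1 (Or.inr (Or.inr ((le_max_left _ _).trans h2)))).trans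
      (hT' _ ((le_max_right _ _).trans h2))⟩

/-- The logarithmic derivative of `1 - e^w`. -/
def IdM2_ff (w : ℂ) : ℂ := -Complex.exp w / (1 - Complex.exp w)

theorem IdM2_ff_eq (w : ℂ) : IdM2_ff w = fk w * Complex.exp (-w) := by
  rw [IdM2_ff, fk, div_mul_eq_mul_div, neg_mul, ← Complex.exp_add]
  congr 3
  ring

theorem IdM2_ff_im {s φ : ℝ} (h : Complex.exp (s + φ * Complex.I) ≠ 1) :
    (IdM2_ff (s + φ * Complex.I)).im = -dlg s φ := by
  have e : IdM2_ff (s + φ * Complex.I) = fk (s + φ * Complex.I) - Complex.exp (s + φ * Complex.I) := by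
    have := sub_ne_zero.2 h.symm
    rw [IdM2_ff, fk, two_mul, Complex.exp_add (s + φ * Complex.I)]
    field_simp
    ring
  have e2 : (Complex.exp (s + φ * Complex.I)).im = exp s * sin φ := by simp [Complex.exp_im]
  rw [e, Complex.sub_im, e2]
  linarith only [h, neg_im_fk h]

theorem IdM2_ff_le {w : ℂ} {C : ℝ} (hC : 0 ≤ C)
    (h : ‖fk w‖ ≤ C * min (exp (2 * w.re)) (exp w.re)) :
    ‖IdM2_ff w‖ ≤ C * exp w.re ∧ ‖IdM2_ff w‖ ≤ C := by
  rw [IdM2_ff_eq, norm_mul, Complex.norm_exp, Complex.neg_re, exp_neg, ← div_eq_mul_inv,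
    div_le_iff₀ (exp_pos _), div_le_iff₀ (exp_pos _), mul_assoc, ← exp_add, ← two_mul]
  exact ⟨h.trans (mul_le_mul_of_nonneg_left (min_le_left _ _) hC),
    h.trans (mul_le_mul_of_nonneg_left (min_le_right _ _) hC)⟩

theorem IdM2_rp {α : ℝ} (h : sin α ≠ 0) : 0 < |rp (-2 * α)| := by
  refine abs_pos.2 fun e => h ?_
  obtain ⟨k, hk⟩ := exists_rp (-2 * α)
  rw [show α = k * π by linarith only [e, hk]]
  exact sin_int_mul_pi k

theorem IdM2_res {lam : ℝ} (hl : 1 < lam) (ξ : ℝ) {α : ℝ} (h0 : 0 < α) (h1 : α < π) :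
    ∫ t, Kc lam t * (2 * lam * dlg (2 * lam * (t - ξ)) (-2 * α)) =
      -(π * (exp (lam * ξ) * cos α / (1 + 2 * exp (lam * ξ) * sin α + exp (lam * ξ) ^ 2))) := by
  have hl0 : 0 < lam := by linarith only [hl]
  have hlc : (lam : ℂ) ≠ 0 := by exact_mod_cast hl0.ne'
  obtain ⟨C, hC, hb⟩ := norm_fk_le' (IdM2_rp (sin_pos_of_pos_of_lt_pi h0 h1).ne')
  set ζ : ℂ := ξ + (α / lam : ℝ) * Complex.I with hζ
  have zre : ζ.re = ξ := by simp [hζ]
  have zim : ζ.im = α / lam := by rw [hζ]; simp only [Complex.add_im, Complex.ofReal_im,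
    Complex.mul_im, Complex.ofReal_re, Complex.I_im, Complex.I_re]; ring
  have wre : ∀ z : ℂ, (2 * lam * (z - ζ)).re = 2 * lam * (z.re - ξ) := fun z => by simp [zre]
  have wim : ∀ z : ℂ, (2 * lam * (z - ζ)).im = 2 * lam * z.im - 2 * α := fun z => by
    simp [zim]; field_simp
  obtain ⟨i1, i2, e⟩ := IdM2_strip hl0 (fun z => 2 * lam * IdM2_ff (2 * lam * (z - ζ))) {ζ}
    (fun _ => 1) (μ := lam) (C := 2 * lam * (C + 2) * (1 + exp (-2 * lam * ξ))) (T := |ξ| + 1)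
    (fun p hp => by
      rw [Finset.mem_singleton.1 hp, zim]
      exact ⟨div_pos h0 hl0, div_lt_div_of_pos_right h1 hl0⟩)
    (fun z a0 a1 hz => by
      have hne : 1 - Complex.exp (2 * lam * (z - ζ)) ≠ 0 := fun h => by
        obtain ⟨n, hn⟩ := Complex.exp_eq_one_iff.1 (sub_eq_zero.1 h).symm
        have e1 := congrArg Complex.im hn
        rw [wim] at e1
        simp only [Complex.mul_im, Complex.intCast_re, Complex.intCast_im, Complex.mul_re,
          Complex.re_ofNat, Complex.im_ofNat, Complex.ofReal_re, Complex.ofReal_im, Complex.I_re,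
          Complex.I_im] at e1
        rw [le_div_iff₀' hl0] at a1
        have a2 : 0 ≤ lam * z.im := by positivity
        have b1 : (n : ℝ) < 1 := by (refine lt_of_not_ge fun h_nl => ?_; linarith only [h_nl, h0, a1, e1, h1, pi_pos, mul_nonneg_of_nonpos_of_nonpos (le_of_lt (Mathlib.Tactic.Linarith.sub_neg_of_lt h0)) (Mathlib.Tactic.Linarith.sub_nonpos_of_le h_nl), mul_nonneg_of_nonpos_of_nonpos (le_of_lt (Mathlib.Tactic.Linarith.sub_neg_of_lt h1)) (Mathlib.Tactic.Linarith.sub_nonpos_of_le h_nl)])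
        have b2 : (-1 : ℝ) < n := by (refine lt_of_not_ge fun h_nl => ?_; linarith only [h_nl, h1, e1, a2, h0, pi_pos, mul_nonneg_of_nonpos_of_nonpos (le_of_lt (Mathlib.Tactic.Linarith.sub_neg_of_lt h0)) (Mathlib.Tactic.Linarith.sub_nonpos_of_le h_nl), mul_nonneg_of_nonpos_of_nonpos (le_of_lt (Mathlib.Tactic.Linarith.sub_neg_of_lt h1)) (Mathlib.Tactic.Linarith.sub_nonpos_of_le h_nl)])
        have b3 : n = 0 := by
          have : n < 1 := by exact_mod_cast b1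
          have : -1 < n := by exact_mod_cast b2
          omega
        rw [b3, Int.cast_zero, zero_mul] at hn
        exact hz (Finset.mem_singleton.2
          (sub_eq_zero.1 ((mul_eq_zero.1 hn).resolve_left (mul_ne_zero two_ne_zero hlc))))
      unfold IdM2_ff
      fun_prop (disch := exact hne))
    (fun p hp => by
      rw [Finset.mem_singleton.1 hp]
      have t1 : Tendsto (fun z : ℂ => 2 * lam * (z - ζ)) (𝓝[≠] ζ) (𝓝[≠] 0) := by
        refine tendsto_nhdsWithin_iff.2 ⟨?_, eventually_mem_nhdsWithin.mono fun z hz =>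
          mul_ne_zero (mul_ne_zero two_ne_zero hlc) (sub_ne_zero.2 hz)⟩
        have : ContinuousAt (fun z : ℂ => 2 * lam * (z - ζ)) ζ := by fun_prop
        simpa using this.tendsto.mono_left nhdsWithin_le_nhds
      have t2 : Tendsto (fun w : ℂ => w * IdM2_ff w) (𝓝[≠] 0) (𝓝 1) := by
        have a := fk_res 0
        simp only [Int.cast_zero, zero_mul, sub_zero] at a
        have b : ContinuousAt (fun w : ℂ => Complex.exp (-w)) 0 := by fun_prop
        simpa [IdM2_ff_eq, mul_assoc] using a.mul (b.tendsto.mono_left nhdsWithin_le_nhds)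
      refine (t2.comp t1).congr fun z => ?_
      simp only [Function.comp_apply]
      ring)
    hl0
    (fun z a0 a1 hz => by
      have hf : ‖fk (2 * lam * (z - ζ))‖ ≤ (C + 2) * min (exp (2 * (2 * lam * (z - ζ)).re))
          (exp (2 * lam * (z - ζ)).re) := by
        have hm : 0 ≤ min (exp (2 * (2 * lam * (z - ζ)).re)) (exp (2 * lam * (z - ζ)).re) := by
          positivity
        rcases hz with hz | hz | hz
        · refine (hb _ ?_).2.trans (by linarith only [hm])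
          rw [wim, hz, mul_zero, zero_sub, neg_mul]
        · refine (hb _ ?_).2.trans (by linarith only [hm])
          rw [wim, hz, ← rp_per (-2 * α) 1]
          apply le_of_eq
          congr 2
          field_simp
          ring
        · refine (norm_fk_le ?_).trans (by linarith only [hm, hC, mul_nonneg_of_nonpos_of_nonpos (Mathlib.Tactic.Linarith.sub_nonpos_of_le hC) (Mathlib.Tactic.Linarith.sub_nonpos_of_le hm)])
          rw [wre, abs_mul, abs_of_pos (by linarith only [hl] : 0 < 2 * lam)]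
          have := abs_sub_abs_le_abs_sub z.re ξ
          linarith only [hl, hz, this, mul_nonneg_of_nonpos_of_nonpos (le_of_lt (Mathlib.Tactic.Linarith.sub_neg_of_lt hl)) (Mathlib.Tactic.Linarith.sub_nonpos_of_le hz), mul_nonneg_of_nonpos_of_nonpos (le_of_lt (Mathlib.Tactic.Linarith.sub_neg_of_lt hl)) (Mathlib.Tactic.Linarith.sub_nonpos_of_le this)]
      obtain ⟨b1, b2⟩ := IdM2_ff_le (by linarith only [hC]) hf
      obtain ⟨-, c1, c2⟩ := IdM2_ker_le hl0 a0 a1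
      have hn : ‖(2 * lam : ℂ)‖ = 2 * lam := by simp [abs_of_pos hl0]
      have he := exp_pos (-2 * lam * ξ)
      have hx := exp_pos (-lam * |z.re|)
      rw [norm_mul, norm_mul, hn, mul_assoc, mul_assoc (2 * lam), mul_assoc (2 * lam)]
      refine mul_le_mul_of_nonneg_left ?_ (by linarith only [hl])
      rcases le_total 0 z.re with h | h
      · rw [abs_of_nonneg h] at hx ⊢
        refine (mul_le_mul b2 c2 (norm_nonneg _) (by linarith only [hC])).trans ?_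
        exact mul_le_mul_of_nonneg_right (by linarith only [he, hC, mul_nonneg_of_nonpos_of_nonpos (Mathlib.Tactic.Linarith.sub_nonpos_of_le hC) (le_of_lt (Mathlib.Tactic.Linarith.sub_neg_of_lt he))]) hx.le
      · refine (mul_le_mul b1 c1 (norm_nonneg _) (by positivity)).trans ?_
        rw [mul_one, wre, mul_assoc (C + 2)]
        refine mul_le_mul_of_nonneg_left ?_ (by linarith only [hC])
        have : exp (2 * lam * (z.re - ξ)) ≤ exp (-2 * lam * ξ) * exp (-lam * |z.re|) := by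
          rw [← exp_add, abs_of_nonpos h]
          exact exp_le_exp.2 (by linarith only [h, hl, mul_nonneg_of_nonpos_of_nonpos (le_of_lt (Mathlib.Tactic.Linarith.sub_neg_of_lt hl)) (Mathlib.Tactic.Linarith.sub_nonpos_of_le h)])
        linarith only [hx, this])
  have w0 : ∀ t : ℝ, 2 * lam * ((t : ℂ) + (0 : ℝ) * Complex.I - ζ) =
      (2 * lam * (t - ξ) : ℝ) + (-2 * α : ℝ) * Complex.I := fun t => by
    rw [hζ]; push_cast; field_simp; ring
  have w1 : ∀ t : ℝ, IdM2_ff (2 * lam * ((t : ℂ) + (π / lam : ℝ) * Complex.I - ζ)) =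
      IdM2_ff ((2 * lam * (t - ξ) : ℝ) + (-2 * α : ℝ) * Complex.I) := fun t => by
    have : 2 * lam * ((t : ℂ) + (π / lam : ℝ) * Complex.I - ζ) =
        (2 * lam * (t - ξ) : ℝ) + (-2 * α : ℝ) * Complex.I + 2 * π * Complex.I := by
      rw [hζ]; push_cast; field_simp; ring
    rw [this, IdM2_ff, IdM2_ff, Complex.exp_add, Complex.exp_two_pi_mul_I, mul_one]
  simp only [w0, w1, IdM2_bot, IdM2_top hl0] at i1 i2 e
  have i3 := i1.sub i2
  rw [← integral_sub i1 i2, Finset.sum_singleton, one_mul] at e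
  have e2 := congrArg Complex.re e
  have e3 := integral_re i3
  simp only [RCLike.re_to_complex, Pi.sub_apply] at e3
  rw [← e3] at e2
  have e4 : ∀ t : ℝ, (2 * lam * IdM2_ff ((2 * lam * (t - ξ) : ℝ) + (-2 * α : ℝ) * Complex.I) *
      ((1 - Om lam t : ℝ) + (Kc lam t : ℝ) * Complex.I) -
      2 * lam * IdM2_ff ((2 * lam * (t - ξ) : ℝ) + (-2 * α : ℝ) * Complex.I) *
      ((1 - Om lam t : ℝ) - (Kc lam t : ℝ) * Complex.I)).re =
      2 * (Kc lam t * (2 * lam * dlg (2 * lam * (t - ξ)) (-2 * α))) := fun t => by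
    have := IdM2_ff_im (hb ((2 * lam * (t - ξ) : ℝ) + (-2 * α : ℝ) * Complex.I) (by simp)).1
    generalize IdM2_ff ((2 * lam * (t - ξ) : ℝ) + (-2 * α : ℝ) * Complex.I) = u at this ⊢
    generalize 1 - Om lam t = a
    simp [this]
    ring
  simp only [e4] at e2
  rw [integral_const_mul] at e2
  have e5 := IdM2_ker_im lam ζ
  rw [zre, zim, mul_div_cancel₀ _ hl0.ne'] at e5
  rw [← e5]
  have e6 : (2 * π * Complex.I * IdM2_ker lam ζ).re = -(2 * π * (IdM2_ker lam ζ).im) := by simp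
  linarith only [e2, e6]

theorem IdM2_dlg_per (s φ : ℝ) (k : ℤ) : dlg s (φ + k * (2 * π)) = dlg s φ := by
  rw [dlg, dlg, sin_add_int_mul_two_pi, cos_add_int_mul_two_pi]

theorem IdM2_wt {lam : ℝ} (h : 0 ≤ lam) : Wt lam (Kc lam) := by
  have := wt_Om h 0
  simp only [sub_zero] at this
  exact this

theorem IdM2_deriv {lam : ℝ} (hl : 1 < lam) (ξ η : ℝ) {θ : ℝ} (h : sin (lam * (η - θ)) ≠ 0) :
    HasDerivAt (fun θ => ∫ t, Kc lam t * (2 * (Nh lam (t - ξ) (θ - η) - Nh lam (t - ξ) 0)))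
      (∫ t, 2 * (Kc lam t * (2 * lam * dlg (2 * lam * (t - ξ)) (2 * lam * (θ - η))))) θ := by
  have hl0 : 0 < lam := by linarith
  have hδ := IdM2_rp h
  set δ := |rp (-2 * (lam * (η - θ)))| with hδe
  obtain ⟨C, hC, hb⟩ := norm_fk_le' (half_pos hδ)
  have hi : ∀ θ, Integrable fun t => Kc lam t * (2 * (Nh lam (t - ξ) (θ - η) - Nh lam (t - ξ) 0)) :=
    fun θ => ((((IdM2_wt hl0.le).int_Nh hl ξ (θ - η)).sub
      ((IdM2_wt hl0.le).int_Nh hl ξ 0)).const_mul 2).congr (Eventually.of_forall fun t => by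
        simp only [Pi.sub_apply]; ring)
  have hr : ∀ x ∈ Metric.ball θ (δ / (4 * lam)), ∀ s : ℝ,
      δ / 2 ≤ |rp ((s : ℂ) + (2 * lam * (x - η) : ℝ) * Complex.I).im| := fun x hx s => by
    have e : ((s : ℂ) + (2 * lam * (x - η) : ℝ) * Complex.I).im = 2 * lam * (x - η) := by simp
    have h1 := abs_rp_add_le (2 * lam * (x - η)) (2 * lam * (θ - x))
    have h2 := abs_rp_le (2 * lam * (θ - x))
    rw [show 2 * lam * (x - η) + 2 * lam * (θ - x) = -2 * (lam * (η - θ)) by ring, ← hδe] at h1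
    rw [Metric.mem_ball, Real.dist_eq, lt_div_iff₀ (by linarith only [hl]), abs_sub_comm] at hx
    rw [abs_mul, abs_of_pos (by linarith : 0 < 2 * lam)] at h2
    rw [e]
    linarith only [hx, h1, h2]
  refine (hasDerivAt_integral_of_dominated_loc_of_deriv_le
    (F := fun θ t => Kc lam t * (2 * (Nh lam (t - ξ) (θ - η) - Nh lam (t - ξ) 0)))
    (F' := fun θ t => 2 * (Kc lam t * (2 * lam * dlg (2 * lam * (t - ξ)) (2 * lam * (θ - η)))))
    (bound := fun t => 4 * lam * C * exp (-lam * |t|))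
    (Metric.ball_mem_nhds θ (by positivity : 0 < δ / (4 * lam)))
    (Eventually.of_forall fun x => (hi x).aestronglyMeasurable) (hi θ) ?_
    (Eventually.of_forall fun t x hx => ?_) ((IdM2_int hl0).const_mul _)
    (Eventually.of_forall fun t x hx => ?_)).2
  · have := (IdM2_wt hl0.le).1
    refine Measurable.aestronglyMeasurable ?_
    unfold dlg
    fun_prop
  · obtain ⟨a, b⟩ := hb _ (hr x hx (2 * lam * (t - ξ)))
    have h1 := (Complex.abs_im_le_norm _).trans (IdM2_ff_le (by linarith) b).2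
    rw [IdM2_ff_im a, abs_neg] at h1
    obtain ⟨k0, k1⟩ := Kc_le hl0.le t
    rw [Real.norm_eq_abs, abs_mul, abs_mul, abs_mul, abs_of_pos k0, abs_two,
      abs_of_pos (by linarith only [hl] : 0 < 2 * lam)]
    have := mul_le_mul k1 h1 (abs_nonneg _) (exp_pos _).le
    linarith only [this, hl, mul_nonneg_of_nonpos_of_nonpos (le_of_lt (Mathlib.Tactic.Linarith.sub_neg_of_lt hl)) (Mathlib.Tactic.Linarith.sub_nonpos_of_le this)]
  · have h1 := hasDerivAt_lg (hb _ (hr x hx (2 * lam * (t - ξ)))).1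
    have h2 : HasDerivAt (fun x => 2 * lam * (x - η)) (2 * lam) x := by
      simpa using ((hasDerivAt_id x).sub_const η).const_mul (2 * lam)
    have h3 := ((((h1.comp x h2).sub_const (Nh lam (t - ξ) 0)).const_mul 2).const_mul (Kc lam t))
    refine h3.congr_deriv ?_
    ring

theorem xi_Nh : ∃ C : ℝ, 1 ≤ C ∧ ∀ lam ξ η : ℝ, 1 < lam → lam ≤ 11 / 10 →
    ∃ S : Set ℝ, S.Countable ∧ ∀ θ ∉ S, ∃ E : ℝ,
      |E| ≤ C * |sin (lam * (η - θ))| * exp (-2 * lam * |ξ|) ∧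
      HasDerivAt (fun θ => lam * (∫ t, Kc lam t * (2 * (Nh lam (t - ξ) (θ - η) - Nh lam (t - ξ) 0))) -
          Kc lam ξ * (2 * π * |sin (lam * (η - θ))|)) E θ := by
  refine ⟨18, by norm_num, fun lam ξ η h1 h2 => ⟨range fun n : ℤ => η - n * π / lam,
    countable_range _, fun θ hθ => ?_⟩⟩
  have hl0 : 0 < lam := by linarith only [h1, h2]
  have hs : sin (lam * (η - θ)) ≠ 0 := fun e => by
    obtain ⟨n, hn⟩ := sin_eq_zero_iff.1 e
    exact hθ ⟨n, by simp only [hn]; field_simp; ring⟩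
  obtain ⟨α, k, a0, a1, hk⟩ : ∃ (α : ℝ) (k : ℤ), 0 < α ∧ α < π ∧ lam * (η - θ) - k * π = α := by
    have hm := toIcoMod_mem_Ico pi_pos 0 (lam * (η - θ))
    have he := self_sub_toIcoDiv_zsmul pi_pos 0 (lam * (η - θ))
    rw [zsmul_eq_mul] at he
    refine ⟨_, _, lt_of_le_of_ne hm.1 fun e => hs ?_, by simpa using hm.2, he⟩
    rw [← e, sub_eq_zero] at he
    rw [he, sin_int_mul_pi]
  have habs : ∀ x, |sin (lam * (η - x))| = |sin (lam * (η - x) - k * π)| := fun x => by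
    rw [sin_sub_int_mul_pi, abs_mul, abs_zpow, abs_neg, abs_one, one_zpow, one_mul]
  have hsin := sin_pos_of_pos_of_lt_pi a0 a1
  have d1 := IdM2_deriv h1 ξ η hs
  rw [integral_const_mul, show 2 * lam * (θ - η) = -2 * α + (-k : ℤ) * (2 * π) by
    rw [← hk]; push_cast; ring] at d1
  simp only [IdM2_dlg_per] at d1
  rw [IdM2_res h1 ξ a0 a1] at d1
  have d2 : HasDerivAt (fun x => |sin (lam * (η - x))|) (-(lam * cos α)) θ := by
    have h3 : HasDerivAt (fun x => lam * (η - x) - k * π) (-lam) θ := by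
      simpa using (((hasDerivAt_id θ).const_sub η).const_mul lam).sub_const (k * π)
    have h4 := (hasDerivAt_abs_pos (x := sin (lam * (η - θ) - k * π)) (by rwa [hk])).comp θ h3.sin
    simp only [habs]
    refine h4.congr_deriv ?_
    rw [hk]
    ring
  refine ⟨_, ?_, (d1.const_mul lam).sub ((d2.const_mul (2 * π)).const_mul (Kc lam ξ))⟩
  rw [habs, hk, abs_of_pos hsin]
  obtain ⟨k0, k1⟩ := Kc_le hl0.le ξ
  have k2 : Kc lam ξ * Kc lam ξ ≤ exp (-2 * lam * |ξ|) := by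
    rw [show -2 * lam * |ξ| = -lam * |ξ| + -lam * |ξ| by ring, exp_add]
    exact mul_self_le_mul_self k0.le k1
  have hρ := exp_pos (lam * ξ)
  have hp := mul_pos hρ hsin
  have k3 : exp (lam * ξ) / (1 + 2 * exp (lam * ξ) * sin α + exp (lam * ξ) ^ 2) ≤ Kc lam ξ := by
    rw [IdM2_Kc]
    exact div_le_div_of_nonneg_left hρ.le (by positivity) (by linarith only [hp])
  have e : lam * (2 * -(π * (exp (lam * ξ) * cos α /
      (1 + 2 * exp (lam * ξ) * sin α + exp (lam * ξ) ^ 2)))) -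
      Kc lam ξ * (2 * π * -(lam * cos α)) = cos α * (4 * π * lam * sin α * (Kc lam ξ *
        (exp (lam * ξ) / (1 + 2 * exp (lam * ξ) * sin α + exp (lam * ξ) ^ 2)))) := by
    rw [IdM2_Kc]
    field_simp
    ring
  rw [e, abs_mul, abs_of_pos (by positivity : 0 < 4 * π * lam * sin α * (Kc lam ξ *
    (exp (lam * ξ) / (1 + 2 * exp (lam * ξ) * sin α + exp (lam * ξ) ^ 2))))]
  refine (mul_le_of_le_one_left (by positivity) (abs_cos_le_one α)).trans ?_
  refine mul_le_mul (mul_le_mul_of_nonneg_right (by linarith only [h2, h1, pi_lt_four, pi_pos, mul_pos_of_neg_of_neg (Mathlib.Tactic.Linarith.sub_neg_of_lt h1) (Mathlib.Tactic.Linarith.sub_neg_of_lt h1), mul_nonneg_of_nonpos_of_nonpos (le_of_lt (Mathlib.Tactic.Linarith.sub_neg_of_lt h1)) (Mathlib.Tactic.Linarith.sub_nonpos_of_le h2), mul_pos_of_neg_of_neg (Mathlib.Tactic.Linarith.sub_neg_of_lt h1) (Mathlib.Tactic.Linarith.sub_neg_of_lt pi_lt_four)]) hsin.le)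
    ((mul_le_mul_of_nonneg_left k3 k0.le).trans k2) (by positivity) (by positivity)

theorem IdM2_main {lam : ℝ} (h1 : 1 < lam) (h2 : lam < 2) :
    (2 + 2 * cos (π / lam)) * ∫ t, Kc lam t * exp t =
      2 * sin (π / lam) * ∫ t, dOm lam t * exp t := by
  have hl0 : 0 < lam := by linarith only [h1, h2]
  have w1 : Wt lam fun t => 1 - Om lam t := by
    refine ⟨measurable_const.sub (continuous_Om lam).measurable, 1, fun t => ?_⟩
    rw [abs_of_pos (sub_pos.2 (Om_lt_one lam t)), one_mul]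
    rcases le_total 0 t with h | h
    · rw [max_eq_left h]
      exact (one_sub_Om_le lam t).trans (exp_le_exp.2 (by linarith only [h, h1, mul_nonneg_of_nonpos_of_nonpos (le_of_lt (Mathlib.Tactic.Linarith.sub_neg_of_lt h1)) (Mathlib.Tactic.Linarith.sub_nonpos_of_le h)]))
    · rw [max_eq_right h, mul_zero, exp_zero]
      linarith [Om_pos lam t]
  have w2 : Wt lam (dOm lam) := by simpa only [sub_zero] using wt_dOm hl0.le 0
  have iA := w1.int_exp h1
  have iB := (IdM2_wt hl0.le).int_exp h1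
  have iD := w2.int_exp h1
  have hp : ∫ t, (1 - Om lam t) * exp t = ∫ t, dOm lam t * exp t := by
    rw [integral_mul_deriv_eq_deriv_mul_of_integrable (u := fun t => 1 - Om lam t) (v := exp)
      (u' := fun t => -dOm lam t) (v' := exp) (fun t _ => (hasDerivAt_Om lam t).const_sub 1)
      (fun t _ => hasDerivAt_exp t) iA (iD.neg.congr (Eventually.of_forall fun t => by simp)) iA,
      ← integral_neg]
    simp
  obtain ⟨-, -, e⟩ := IdM2_strip hl0 Complex.exp ∅ (fun _ => 0) (μ := lam - 1) (C := 1) (T := 0)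
    (by simp) (fun z _ _ _ => Complex.differentiableAt_exp) (by simp) (by linarith)
    (fun z a0 a1 _ => by
      obtain ⟨-, c1, c2⟩ := IdM2_ker_le hl0 a0 a1
      rw [norm_mul, Complex.norm_exp, one_mul]
      rcases le_total 0 z.re with h | h
      · refine (mul_le_mul_of_nonneg_left c2 (exp_pos _).le).trans ?_
        rw [← exp_add, abs_of_nonneg h]
        exact exp_le_exp.2 (by linarith)
      · refine (mul_le_of_le_one_right (exp_pos _).le c1).trans ?_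
        rw [abs_of_nonpos h]
        exact exp_le_exp.2 (by linarith only [h2, h, mul_nonneg_of_nonpos_of_nonpos (le_of_lt (Mathlib.Tactic.Linarith.sub_neg_of_lt h2)) (Mathlib.Tactic.Linarith.sub_nonpos_of_le h)]))
  have b0 : ∀ t : ℝ, Complex.exp (t + (0 : ℝ) * Complex.I) *
      IdM2_ker lam (t + (0 : ℝ) * Complex.I) =
      ((1 - Om lam t) * exp t : ℝ) + (Kc lam t * exp t : ℝ) * Complex.I := fun t => by
    rw [IdM2_bot]; push_cast; rw [zero_mul, add_zero]; ring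
  have b1 : ∀ t : ℝ, Complex.exp (t + (π / lam : ℝ) * Complex.I) *
      IdM2_ker lam (t + (π / lam : ℝ) * Complex.I) = Complex.exp ((π / lam : ℝ) * Complex.I) *
      (((1 - Om lam t) * exp t : ℝ) - (Kc lam t * exp t : ℝ) * Complex.I) := fun t => by
    rw [IdM2_top hl0, Complex.exp_add]; push_cast; ring
  simp only [b0, b1] at e
  rw [integral_const_mul, integral_add iA.ofReal (iB.ofReal.mul_const _),
    integral_sub iA.ofReal (iB.ofReal.mul_const _), integral_mul_const, integral_complex_ofReal,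
    integral_complex_ofReal, hp] at e
  have e2 := congrArg Complex.im e
  generalize π / lam = h at e2 ⊢
  generalize (∫ t, Kc lam t * exp t) = B at e2 ⊢
  generalize (∫ t, dOm lam t * exp t) = A at e2 ⊢
  simp at e2
  linarith only [e2]

theorem xi_main {lam : ℝ} (h1 : 1 < lam) (h2 : lam < 2) (c : ℂ) (θ : ℝ) :
    HasDerivAt (fun θ : ℝ => lam * ∫ t : ℝ, Kc lam t *
        Sop lam (fun φ : ℝ => (c * Complex.exp (t + φ * Complex.I)).re) θ)
      (lam * ∫ t : ℝ, dOm lam t *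
        Dop lam (fun φ : ℝ => (c * Complex.exp (t + φ * Complex.I)).re) θ) θ := by
  have e0 : ∀ t φ : ℝ, (c * Complex.exp (t + φ * Complex.I)).re =
      exp t * (c.re * cos φ - c.im * sin φ) := fun t φ => by
    simp [Complex.exp_re, Complex.exp_im]
    ring
  have e1 : ∀ t θ : ℝ, Kc lam t * Sop lam (fun φ : ℝ => (c * Complex.exp (t + φ * Complex.I)).re) θ =
      Kc lam t * exp t * ((2 + 2 * cos (π / lam)) * (c.re * cos θ - c.im * sin θ)) := fun t θ => by
    simp only [Sop, e0, cos_add, cos_sub, sin_add, sin_sub]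
    ring
  have e2 : ∀ t : ℝ, dOm lam t * Dop lam (fun φ : ℝ => (c * Complex.exp (t + φ * Complex.I)).re) θ =
      dOm lam t * exp t * (2 * sin (π / lam) * (c.re * -sin θ - c.im * cos θ)) := fun t => by
    simp only [Dop, e0, cos_add, cos_sub, sin_add, sin_sub]
    ring
  simp only [e1, e2, integral_mul_const]
  refine ((((((hasDerivAt_cos θ).const_mul c.re).sub ((hasDerivAt_sin θ).const_mul c.im)).const_mul
    (2 + 2 * cos (π / lam))).const_mul (∫ t, Kc lam t * exp t)).const_mul lam).congr_deriv ?_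
  linear_combination lam * (c.re * -sin θ - c.im * cos θ) * IdM2_main h1 h2

end

end Pool.Agent.MinMod
end

-- merged part: Pool.Agent.Work.MP_f62247_an.IdM3
section
/-!
# The cost of changing the frame

Substituting `t ↦ t + y`, `Mh lam V y θ = e^(-lam y) (main (c e^y) + ∑ xi_nk (ξ - y) - ∑_V xi_Nh (ξ - y))`.  This is continuous in `θ`
(`continuous_int_nk`, `continuous_int_Nh`, `Sg_lip`), and off a countable set its derivative is
`e^(-lam y) (lam ∫ dOm (t - y) D t θ + ∑ E)`; `dOm_le`, `exp_le_kw`, `abs_Sg_le`; `mvi_countable`.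
-/

open Real MeasureTheory Set Filter Topology

namespace Pool.Agent.MinMod

noncomputable section

/-- The linear term. -/
def IdM3_l (c : ℂ) (t φ : ℝ) : ℝ := (c * Complex.exp (t + φ * Complex.I)).re

/-- The contribution of one zero. -/
def IdM3_n (lam ξ η θ : ℝ) : ℝ :=
  lam * (∫ t, Kc lam t * Sop lam (fun φ => nk (t - ξ) (φ - η)) θ) -
    Kc lam ξ * (2 * π * |Sg lam (η - θ)|)

/-- The correction of one zero. -/
def IdM3_h (lam ξ η θ : ℝ) : ℝ :=
  lam * (∫ t, Kc lam t * (2 * (Nh lam (t - ξ) (θ - η) - Nh lam (t - ξ) 0))) -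
    Kc lam ξ * (2 * π * |sin (lam * (η - θ))|)

theorem IdM3_int {lam : ℝ} {ρ : ℝ → ℝ} (h : Wt lam ρ) (hl : 1 < lam) (c : ℂ) (φ : ℝ) :
    Integrable fun t => ρ t * IdM3_l c t φ := by
  simpa only [Cfg.U, IdM3_l, Finset.sum_empty, add_zero] using h.int_U hl ⟨c, ∅, fun _ => 0, fun _ => 0⟩ φ

theorem IdM3_S {lam : ℝ} {ρ : ℝ → ℝ} {u : ℝ → ℝ → ℝ} (h : ∀ φ, Integrable fun t => ρ t * u t φ)
    (θ : ℝ) : (Integrable fun t => ρ t * Sop lam (u t) θ) ∧ ∫ t, ρ t * Sop lam (u t) θ =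
      2 * (∫ t, ρ t * u t θ) + (∫ t, ρ t * u t (θ + π / lam)) + ∫ t, ρ t * u t (θ - π / lam) := by
  have e : (fun t => ρ t * Sop lam (u t) θ) = fun t =>
      2 * (ρ t * u t θ) + ρ t * u t (θ + π / lam) + ρ t * u t (θ - π / lam) := by
    funext t
    rw [Sop]
    ring
  have h1 : Integrable fun t => 2 * (ρ t * u t θ) + ρ t * u t (θ + π / lam) :=
    ((h θ).const_mul 2).add (h _)
  rw [e]
  exact ⟨h1.add (h _), by
    rw [integral_add h1 (h _), integral_add ((h θ).const_mul 2) (h _), integral_const_mul]⟩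

theorem IdM3_D {lam : ℝ} {ρ : ℝ → ℝ} {u : ℝ → ℝ → ℝ} (h : ∀ φ, Integrable fun t => ρ t * u t φ)
    (θ : ℝ) : Integrable fun t => ρ t * Dop lam (u t) θ := by
  simp only [Dop, mul_sub]
  exact (h _).sub (h _)

theorem IdM3_cn {lam : ℝ} (hl : 1 < lam) (ξ η : ℝ) : Continuous (IdM3_n lam ξ η) := by
  have hw := IdM1_wt_Kc (lam := lam) (by linarith)
  have h1 := continuous_int_nk hw hl ξ
  have h2 : Continuous (Sg lam) :=
    (LipschitzWith.of_dist_le' (K := lam) fun x y => Sg_lip hl x y).continuous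
  unfold IdM3_n
  simp only [(IdM3_S (u := fun t φ => nk (t - ξ) (φ - η)) (fun φ => hw.int_nk hl ξ _) _).2]
  refine (continuous_const.mul (((continuous_const.mul (h1.comp ?_)).add (h1.comp ?_)).add
    (h1.comp ?_))).sub ?_ <;> fun_prop

theorem IdM3_ih {lam : ℝ} (hl : 1 < lam) (ξ φ : ℝ) :
    (Integrable fun t => Kc lam t * (2 * (Nh lam (t - ξ) φ - Nh lam (t - ξ) 0))) ∧
      ∫ t, Kc lam t * (2 * (Nh lam (t - ξ) φ - Nh lam (t - ξ) 0)) =
        2 * ((∫ t, Kc lam t * Nh lam (t - ξ) φ) - ∫ t, Kc lam t * Nh lam (t - ξ) 0) := by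
  have hw := IdM1_wt_Kc (lam := lam) (by linarith)
  simp only [mul_left_comm _ (2 : ℝ), mul_sub (Kc lam _)]
  exact ⟨((hw.int_Nh hl ξ φ).sub (hw.int_Nh hl ξ 0)).const_mul 2, by
    rw [integral_const_mul, integral_sub (hw.int_Nh hl ξ φ) (hw.int_Nh hl ξ 0)]⟩

theorem IdM3_ch {lam : ℝ} (hl : 1 < lam) (ξ η : ℝ) : Continuous (IdM3_h lam ξ η) := by
  have h1 := continuous_int_Nh (IdM1_wt_Kc (lam := lam) (by linarith)) hl ξ
  unfold IdM3_h
  simp only [(IdM3_ih hl ξ _).2]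
  refine (continuous_const.mul (continuous_const.mul ((h1.comp ?_).sub continuous_const))).sub ?_ <;>
    fun_prop

namespace Cfg

theorem IdM3_Mh (Z : Cfg) {lam : ℝ} (hl : 1 < lam) {V : Finset ℕ} (hV : V ⊆ Z.s) (θ : ℝ) :
    Z.Mh lam V 0 θ = lam * (∫ t, Kc lam t * Sop lam (IdM3_l Z.c t) θ) +
      ∑ a ∈ Z.s, IdM3_n lam (Z.ξ a) (Z.η a) θ - ∑ a ∈ V, IdM3_h lam (Z.ξ a) (Z.η a) θ := by
  have hw := IdM1_wt_Kc (lam := lam) (by linarith)
  have e : (fun t => exp (-lam * t) * Om lam (t - 0) * Z.P lam V t θ) = fun t =>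
      Kc lam t * Sop lam (IdM3_l Z.c t) θ +
        ∑ a ∈ Z.s, Kc lam t * Sop lam (fun φ => nk (t - Z.ξ a) (φ - Z.η a)) θ -
        ∑ a ∈ V, Kc lam t * (2 * (Nh lam (t - Z.ξ a) (θ - Z.η a) - Nh lam (t - Z.ξ a) 0)) := by
    funext t
    simp only [P, gap, Sop, U, IdM3_l, Kc, sub_zero, ← Finset.mul_sum, Finset.sum_add_distrib]
    ring
  have i1 := (IdM3_S (lam := lam) (IdM3_int hw hl Z.c) θ).1
  have i2 : ∀ a ∈ Z.s, Integrable fun t =>
      Kc lam t * Sop lam (fun φ => nk (t - Z.ξ a) (φ - Z.η a)) θ := fun a _ =>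
    (IdM3_S (u := fun t φ => nk (t - Z.ξ a) (φ - Z.η a)) (fun φ => hw.int_nk hl _ _) θ).1
  have i3 : ∀ a ∈ V, Integrable fun t =>
      Kc lam t * (2 * (Nh lam (t - Z.ξ a) (θ - Z.η a) - Nh lam (t - Z.ξ a) 0)) := fun a _ =>
    (IdM3_ih hl _ _).1
  have e2 : ∑ a ∈ Z.s, Om lam (Z.ξ a - 0) * exp (-lam * Z.ξ a) * Z.ms lam V a θ =
      ∑ a ∈ Z.s, Kc lam (Z.ξ a) * (2 * π * |Sg lam (Z.η a - θ)|) -
        ∑ a ∈ V, Kc lam (Z.ξ a) * (2 * π * |sin (lam * (Z.η a - θ))|) := by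
    rw [← Finset.inter_eq_right.2 hV, ← Finset.sum_ite_mem, ← Finset.sum_sub_distrib,
      Finset.inter_eq_right.2 hV]
    refine Finset.sum_congr rfl fun a _ => ?_
    rw [ms, Kc, sub_zero]
    split_ifs <;> ring
  have i4 : Integrable fun t => Kc lam t * Sop lam (IdM3_l Z.c t) θ +
      ∑ a ∈ Z.s, Kc lam t * Sop lam (fun φ => nk (t - Z.ξ a) (φ - Z.η a)) θ :=
    i1.add (integrable_finsetSum _ i2)
  rw [Mh, e, e2, integral_sub i4 (integrable_finsetSum _ i3),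
    integral_add i1 (integrable_finsetSum _ i2), integral_finsetSum _ i2, integral_finsetSum _ i3]
  simp only [IdM3_n, IdM3_h, Finset.sum_sub_distrib, ← Finset.mul_sum]
  ring

theorem IdM3_dD (Z : Cfg) {lam : ℝ} (hl : 1 < lam) (θ : ℝ) :
    ∫ t, dOm lam t * Z.D lam t θ = (∫ t, dOm lam t * Dop lam (IdM3_l Z.c t) θ) +
      ∑ a ∈ Z.s, ∫ t, dOm lam t * Dop lam (fun φ => nk (t - Z.ξ a) (φ - Z.η a)) θ := by
  have hw := IdM1_wt_dOm (lam := lam) (by linarith only [hl])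
  have i2 : ∀ a ∈ Z.s, Integrable fun t =>
      dOm lam t * Dop lam (fun φ => nk (t - Z.ξ a) (φ - Z.η a)) θ := fun a _ =>
    IdM3_D (u := fun t φ => nk (t - Z.ξ a) (φ - Z.η a)) (fun φ => hw.int_nk hl _ _) θ
  rw [← integral_finsetSum _ i2,
    ← integral_add (IdM3_D (IdM3_int hw hl Z.c) θ) (integrable_finsetSum _ i2)]
  refine integral_congr_ae (Eventually.of_forall fun t => ?_)
  simp only [D, Dop, U, IdM3_l, ← Finset.mul_sum, Finset.sum_sub_distrib]
  ring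

theorem IdM3_der : ∃ C : ℝ, 1 ≤ C ∧ ∀ (Z : Cfg) (lam : ℝ) (V : Finset ℕ), 1 < lam →
    lam ≤ 11 / 10 → V ⊆ Z.s → ∃ S : Set ℝ, S.Countable ∧ ∀ θ ∉ S, ∃ d,
      HasDerivAt (Z.Mh lam V 0) d θ ∧ |d| ≤ C * Z.Zl lam V 0 θ := by
  obtain ⟨C1, c1, h1⟩ := xi_nk
  obtain ⟨C2, c2, h2⟩ := xi_Nh
  refine ⟨3 + 2 * C1 + 2 * C2, by linarith, fun Z lam V l1 l2 hV => ?_⟩
  have l0 : 0 < lam := by linarith
  choose S1 s1 e1 using fun a => h1 lam (Z.ξ a) (Z.η a) l1 l2
  choose S2 s2 e2 using fun a => h2 lam (Z.ξ a) (Z.η a) l1 l2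
  refine ⟨⋃ a, (S1 a ∪ S2 a), countable_iUnion fun a => (s1 a).union (s2 a), fun θ hθ => ?_⟩
  simp only [mem_iUnion, mem_union, not_exists, not_or] at hθ
  choose E1 b1 d1 using fun a => e1 a θ (hθ a).1
  choose E2 b2 d2 using fun a => e2 a θ (hθ a).2
  refine ⟨lam * (∫ t, dOm lam t * Z.D lam t θ) + ∑ a ∈ Z.s, E1 a - ∑ a ∈ V, E2 a, ?_, ?_⟩
  · rw [show Z.Mh lam V 0 = _ from funext (Z.IdM3_Mh l1 hV), Z.IdM3_dD l1, mul_add,
      Finset.mul_sum, add_assoc, ← Finset.sum_add_distrib]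
    exact ((xi_main l1 (by linarith only [l1, l2]) Z.c θ).add (HasDerivAt.fun_sum fun a _ => d1 a)).sub
      (HasDerivAt.fun_sum fun a _ => d2 a)
  have hw := wt_kw l0.le 0
  simp only [sub_zero] at hw
  have k1 : |∫ t, dOm lam t * Z.D lam t θ| ≤ 2 * lam * ∫ t, kw lam t * |Z.D lam t θ| := by
    rw [← integral_const_mul, ← Real.norm_eq_abs]
    refine norm_integral_le_of_norm_le (((hw.int_D l1 Z θ).abs.congr
      (Eventually.of_forall fun t => ?_)).const_mul _) (Eventually.of_forall fun t => ?_)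
    · simp only [abs_mul, abs_of_pos (kw_pos lam t)]
    · rw [norm_mul, Real.norm_of_nonneg (dOm_le l0.le t).1, ← mul_assoc]
      exact mul_le_mul_of_nonneg_right ((dOm_le l0.le t).2.trans
        (mul_le_mul_of_nonneg_left (exp_le_kw l0.le t) (by positivity))) (abs_nonneg _)
  have k0 : 0 ≤ ∫ t, kw lam t * |Z.D lam t θ| :=
    integral_nonneg fun t => mul_nonneg (kw_pos _ _).le (abs_nonneg _)
  have z0 : ∀ a, 0 ≤ Z.sz lam V a θ := fun a => by
    rw [sz]
    split_ifs <;> positivity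
  have z1 : ∀ a ∈ Z.s, 0 ≤ kw lam (Z.ξ a) * Z.sz lam V a θ := fun a _ =>
    mul_nonneg (kw_pos _ _).le (z0 a)
  have z2 : ∀ {C x E : ℝ} (a : ℕ), 1 ≤ C → x ≤ 2 * Z.sz lam V a θ →
      E ≤ C * x * exp (-2 * lam * |Z.ξ a|) → E ≤ 2 * C * (kw lam (Z.ξ a) * Z.sz lam V a θ) :=
    fun {C x E} a hC hx hE => by
      refine hE.trans ((mul_le_mul (mul_le_mul_of_nonneg_left hx (by linarith only [l1, l2, hC]))
        (exp_le_kw l0.le _) (exp_pos _).le (mul_nonneg (by linarith) (by linarith only [z0, z0 a]))).trans_eq ?_)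
      ring
  have k2 : |∑ a ∈ Z.s, E1 a| ≤ 2 * C1 * ∑ a ∈ Z.s, kw lam (Z.ξ a) * Z.sz lam V a θ := by
    rw [Finset.mul_sum]
    refine (Finset.abs_sum_le_sum_abs _ _).trans (Finset.sum_le_sum fun a _ => z2 a c1 ?_ (b1 a))
    rw [sz]
    split_ifs
    · exact (abs_Sg_le l1 _).trans (mul_le_mul_of_nonneg_right (by linarith only [l1, l2]) (by positivity))
    · linarith [abs_nonneg (Sg lam (Z.η a - θ))]
  have k3 : |∑ a ∈ V, E2 a| ≤ 2 * C2 * ∑ a ∈ Z.s, kw lam (Z.ξ a) * Z.sz lam V a θ := by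
    refine le_trans ?_ (mul_le_mul_of_nonneg_left (Finset.sum_le_sum_of_subset_of_nonneg hV
      fun a ha _ => z1 a ha) (by linarith only [c2, l1, l2]))
    rw [Finset.mul_sum]
    refine (Finset.abs_sum_le_sum_abs _ _).trans (Finset.sum_le_sum fun a ha => z2 a c2 ?_ (b2 a))
    rw [sz, if_pos ha, mul_min_of_nonneg _ _ two_pos.le]
    refine le_min ((abs_sin_le_one _).trans (by norm_num)) (abs_sin_le_abs.trans ?_)
    rw [abs_mul, abs_of_pos l0]
    exact mul_le_mul_of_nonneg_right (by linarith only [l1, l2]) (abs_nonneg _)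
  have k4 : |lam * ∫ t, dOm lam t * Z.D lam t θ| ≤ 3 * ∫ t, kw lam t * |Z.D lam t θ| := by
    rw [abs_mul, abs_of_pos l0]
    refine (mul_le_mul_of_nonneg_left k1 l0.le).trans ?_
    rw [← mul_assoc]
    exact mul_le_mul_of_nonneg_right (by linarith only [l1, l2, mul_nonneg_of_nonpos_of_nonpos (le_of_lt (Mathlib.Tactic.Linarith.sub_neg_of_lt l1)) (Mathlib.Tactic.Linarith.sub_nonpos_of_le l2)]) k0
  have k5 := Finset.sum_nonneg z1
  simp only [Zl, mul_zero, exp_zero, one_mul, sub_zero]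
  refine ((abs_sub _ _).trans (add_le_add_left (abs_add_le _ _) _)).trans ?_
  linarith only [k2, k3, k4, k5, c1, k0, c2, mul_nonneg (zero_le_one.trans c1) k0, mul_nonneg (zero_le_one.trans c2) k0]

theorem IdM3_U (Z : Cfg) (y t : ℝ) : (Z.shift y).U t = Z.U (t + y) := by
  funext θ
  simp only [U, shift, sub_sub_eq_add_sub, mul_assoc, ← Complex.exp_add]
  congr 4
  push_cast
  ring

theorem IdM3_shift (Z : Cfg) (lam : ℝ) (V : Finset ℕ) (y θ : ℝ) :
    Z.Mh lam V y θ = exp (-lam * y) * (Z.shift y).Mh lam V 0 θ ∧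
      Z.Zl lam V y θ = exp (-lam * y) * (Z.shift y).Zl lam V 0 θ := by
  constructor
  · rw [Mh, Mh, mul_sub, mul_left_comm, ← integral_const_mul (exp _),
      ← integral_add_right_eq_self _ y, Finset.mul_sum]
    congr 1
    · congr 2
      funext t
      simp only [P, IdM3_U, add_sub_cancel_right, sub_zero]
      simp only [gap, shift, sub_sub_eq_add_sub, mul_add, exp_add]
      ring
    · refine Finset.sum_congr rfl fun a _ => ?_
      simp only [ms, shift, sub_zero]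
      rw [show -lam * Z.ξ a = -lam * y + -lam * (Z.ξ a - y) by ring, exp_add]
      ring
  · rw [Zl, Zl, ← integral_add_right_eq_self _ y]
    simp only [D, IdM3_U, add_sub_cancel_right, sub_zero, mul_zero, exp_zero, one_mul]
    rfl

theorem switch_le : ∃ C : ℝ, 1 ≤ C ∧ ∀ (Z : Cfg) (lam : ℝ) (V : Finset ℕ) (y θ θ' K : ℝ),
    1 < lam → lam ≤ 11 / 10 → V ⊆ Z.s → (∀ ϑ ∈ uIcc θ θ', Z.Zl lam V y ϑ ≤ K) →
    |Z.Mh lam V y θ' - Z.Mh lam V y θ| ≤ C * K * |θ' - θ| := by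
  obtain ⟨C, hC, h⟩ := IdM3_der
  refine ⟨C, hC, fun Z lam V y θ θ' K l1 l2 hV hK => ?_⟩
  obtain ⟨S, hS, hd⟩ := h (Z.shift y) lam V l1 l2 hV
  have hc : Continuous ((Z.shift y).Mh lam V 0) := by
    rw [show (Z.shift y).Mh lam V 0 = _ from funext ((Z.shift y).IdM3_Mh l1 hV)]
    exact ((continuous_iff_continuousAt.2 fun θ =>
      (xi_main l1 (by linarith only [l1, l2]) _ θ).continuousAt).add
      (continuous_finsetSum _ fun a _ => IdM3_cn l1 _ _)).sub
      (continuous_finsetSum _ fun a _ => IdM3_ch l1 _ _)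
  have e : Z.Mh lam V y = fun θ => exp (-lam * y) * (Z.shift y).Mh lam V 0 θ :=
    funext fun θ => (Z.IdM3_shift lam V y θ).1
  have key : ∀ a b, a ≤ b → (∀ ϑ ∈ Icc a b, Z.Zl lam V y ϑ ≤ K) →
      |Z.Mh lam V y b - Z.Mh lam V y a| ≤ C * K * (b - a) := fun a b hab H => by
    refine mvi_countable (f' := deriv (Z.Mh lam V y)) hab
      (e ▸ (continuous_const.mul hc).continuousOn) hS fun x hx => ?_
    obtain ⟨d, d1, d2⟩ := hd x hx.2
    have d3 : HasDerivAt (Z.Mh lam V y) (exp (-lam * y) * d) x := e ▸ d1.const_mul _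
    rw [d3.deriv]
    refine ⟨d3, ?_⟩
    rw [abs_mul, abs_of_pos (exp_pos _)]
    refine (mul_le_mul_of_nonneg_left d2 (exp_pos _).le).trans ?_
    rw [mul_left_comm, ← (Z.IdM3_shift lam V y x).2]
    exact mul_le_mul_of_nonneg_left (H x (Ioo_subset_Icc_self hx.1)) (by linarith only [hC, l1, l2])
  rcases le_total θ θ' with hle | hle
  · rw [uIcc_of_le hle] at hK
    rw [abs_of_nonneg (sub_nonneg.2 hle)]
    exact key _ _ hle hK
  · rw [uIcc_of_ge hle] at hK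
    rw [abs_sub_comm, abs_sub_comm θ', abs_of_nonneg (sub_nonneg.2 hle)]
    exact key _ _ hle hK

end Cfg

end

end Pool.Agent.MinMod
end

-- merged part: Pool.Agent.Work.MP_f62247_an.Sw
section
/-!
# Switching frames; the end of the chain

`tail_eq`: split `∫ = ∫_{Iio 0} + ∫_{Ioi 0}`.  On `t < 0`: `e^(-lam t) Om (t-k) ≤ e^(-2 lam k) e^(lam t)`; for `ξ < 0`:
`Om (ξ-k) e^(-lam ξ) ≤ e^(-2 lam k)`, `|ms| ≤ 2π`, `ms` is `4π lam`-Lipschitz (`Sg_lip`), number of such zeros `≤ W 0`.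
* `switch_sum`: `switch_le` at `y = k + 1` with `K = C (TT (k+1) + μ δ g (k+1))` (`Zl_le`), `δ TT ≤ δ² g + TT²/g`, and `δ_k² g (k+1)` is at most
  `e^(1/2)` times the term `(j, k) = (k+1, k)` of the double sum in `Err`; tails: `P_left_lip` at `y = 0`, `δ ≤ μ`, `∑ e^(-2k) ≤ 1`.
* `end_le`: `Mh_le` at `y = n`; `P_left` at `0`; `e^(-2 lam n) W 0 ≤ Wh n` (`W_mono`).
-/

open Real MeasureTheory Set Filter Topology

namespace Pool.Agent.MinMod

noncomputable section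

theorem Sw_wt {lam : ℝ} (y t : ℝ) :
    exp (-lam * t) * Om lam (t - y) ≤ exp (-2 * lam * y) * exp (lam * (t - 0)) := by
  refine (mul_le_mul_of_nonneg_left (Om_le lam (t - y)) (exp_pos _).le).trans (le_of_eq ?_)
  rw [← exp_add, ← exp_add]
  congr 1
  ring

theorem Sw_int {lam : ℝ} (y : ℝ) {f : ℝ → ℝ}
    (hf : IntegrableOn (fun t => exp (lam * (t - 0)) * |f t|) (Iio 0)) :
    |∫ t in Iio 0, exp (-lam * t) * Om lam (t - y) * f t| ≤
      exp (-2 * lam * y) * ∫ t in Iio 0, exp (lam * (t - 0)) * |f t| := by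
  rw [← integral_const_mul, ← Real.norm_eq_abs]
  refine norm_integral_le_of_norm_le (hf.const_mul _) (Eventually.of_forall fun t => ?_)
  rw [Real.norm_eq_abs, abs_mul, abs_of_pos (mul_pos (exp_pos _) (Om_pos _ _)), ← mul_assoc]
  exact mul_le_mul_of_nonneg_right (Sw_wt y t) (abs_nonneg _)

namespace Cfg

theorem Sw_P (Z : Cfg) {lam : ℝ} (h1 : 1 < lam) (V : Finset ℕ) (θ : ℝ) :
    IntegrableOn (fun t => exp (lam * (t - 0)) * Z.P lam V t θ) (Iio 0) := by
  rw [← integrable_indicator_iff measurableSet_Iio]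
  refine ((wt_Iio (by linarith) 0).int_P h1 Z V θ).congr (Eventually.of_forall fun t => ?_)
  simp only [indicator_mul_left]

theorem Sw_ms (Z : Cfg) (lam : ℝ) (V : Finset ℕ) (a : ℕ) (θ : ℝ) : |Z.ms lam V a θ| ≤ 8 := by
  unfold ms
  have h1 := abs_Sg_le_one lam (Z.η a - θ)
  have h2 := abs_nonneg (Sg lam (Z.η a - θ))
  have h3 := abs_sin_le_one (lam * (Z.η a - θ))
  have h4 := abs_nonneg (sin (lam * (Z.η a - θ)))
  have h5 : |(|Sg lam (Z.η a - θ)| - if a ∈ V then |sin (lam * (Z.η a - θ))| else 0)| ≤ 1 := by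
    rw [abs_le]
    split_ifs <;> constructor <;> linarith only [h2, h3, h1, h4]
  rw [abs_mul, abs_of_pos two_pi_pos]
  linarith only [h5, pi_le_four, pi_pos, abs_nonneg
    (|Sg lam (Z.η a - θ)| - if a ∈ V then |sin (lam * (Z.η a - θ))| else 0), mul_nonneg_of_nonpos_of_nonpos (Mathlib.Tactic.Linarith.sub_nonpos_of_le h5) (le_of_lt (Mathlib.Tactic.Linarith.sub_neg_of_lt pi_pos))]

theorem Sw_ms_lip (Z : Cfg) {lam : ℝ} (h1 : 1 < lam) (h2 : lam ≤ 2) (V : Finset ℕ) (a : ℕ)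
    (θ θ' : ℝ) : |Z.ms lam V a θ - Z.ms lam V a θ'| ≤ 32 * |θ - θ'| := by
  unfold ms
  have e : Z.η a - θ - (Z.η a - θ') = -(θ - θ') := by ring
  have d0 := abs_nonneg (θ - θ')
  have a1 : |(|Sg lam (Z.η a - θ)| - |Sg lam (Z.η a - θ')|)| ≤ 2 * |θ - θ'| := by
    refine (abs_abs_sub_abs_le _ _).trans ((Sg_lip h1 _ _).trans ?_)
    rw [e, abs_neg]
    exact mul_le_mul_of_nonneg_right h2 d0
  have a2 : |(|sin (lam * (Z.η a - θ))| - |sin (lam * (Z.η a - θ'))|)| ≤ 2 * |θ - θ'| := by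
    refine (abs_abs_sub_abs_le _ _).trans ((abs_sin_sub_sin_le _ _).trans ?_)
    rw [← mul_sub, e, abs_mul, abs_neg, abs_of_pos (by linarith : 0 < lam)]
    exact mul_le_mul_of_nonneg_right h2 d0
  have a3 : |(|Sg lam (Z.η a - θ)| - if a ∈ V then |sin (lam * (Z.η a - θ))| else 0) -
      (|Sg lam (Z.η a - θ')| - if a ∈ V then |sin (lam * (Z.η a - θ'))| else 0)| ≤
      4 * |θ - θ'| := by
    rw [abs_le] at a1 a2 ⊢
    split_ifs <;> constructor <;> linarith only [a1, a2, d0, a1.1, a1.2, a2.1, a2.2]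
  rw [← mul_sub, abs_mul, abs_of_pos two_pi_pos]
  refine (mul_le_mul_of_nonneg_left a3 two_pi_pos.le).trans ?_
  linarith only [d0, pi_le_four, mul_nonneg_of_nonpos_of_nonpos (Mathlib.Tactic.Linarith.sub_nonpos_of_le d0) (Mathlib.Tactic.Linarith.sub_nonpos_of_le pi_le_four)]

theorem Sw_sum (Z : Cfg) {lam : ℝ} (h1 : 1 < lam) (y : ℝ) {f : ℕ → ℝ} {c : ℝ} (hc : 0 ≤ c)
    (hf : ∀ a, |f a| ≤ c) :
    |∑ a ∈ Z.s.filter (fun a => Z.ξ a < 0), Om lam (Z.ξ a - y) * exp (-lam * Z.ξ a) * f a| ≤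
      exp (-2 * lam * y) * (c * Z.W 0) := by
  refine (Finset.abs_sum_le_sum_abs _ _).trans ((Finset.sum_le_card_nsmul _ _
    (exp (-2 * lam * y) * c) fun a ha => ?_).trans ?_)
  · have h2 := (Finset.mem_filter.1 ha).2
    rw [abs_mul, abs_of_pos (mul_pos (Om_pos _ _) (exp_pos _))]
    refine mul_le_mul ?_ (hf a) (abs_nonneg _) (exp_pos _).le
    rw [mul_comm]
    refine (Sw_wt y _).trans (mul_le_of_le_one_right (exp_pos _).le (exp_le_one_iff.2 ?_))
    linarith only [h2, h1, mul_pos_of_neg_of_neg (Mathlib.Tactic.Linarith.sub_neg_of_lt h1) (Mathlib.Tactic.Linarith.sub_neg_of_lt h2)]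
  · have h3 := Z.card_le_W 0 le_rfl (Finset.filter_subset (fun a => Z.ξ a < 0) Z.s)
      fun a ha => by linarith only [ha, (Finset.mem_filter.1 ha).2]
    rw [mul_zero, exp_zero, one_mul] at h3
    rw [nsmul_eq_mul]
    have := mul_le_mul_of_nonneg_right h3 (mul_nonneg (exp_pos (-2 * lam * y)).le hc)
    linarith only [this]

theorem tail_eq (Z : Cfg) {lam : ℝ} (h1 : 1 < lam) (V : Finset ℕ) {k : ℕ} (hk : 1 ≤ k) (θ : ℝ) :
    Z.Mh lam V k θ - Z.Mc lam V (omk lam k) θ =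
      lam * (∫ t in Iio 0, exp (-lam * t) * Om lam (t - k) * Z.P lam V t θ) -
        ∑ a ∈ Z.s.filter (fun a => Z.ξ a < 0),
          Om lam (Z.ξ a - k) * exp (-lam * Z.ξ a) * Z.ms lam V a θ := by
  have e : omk lam k = fun t => Om lam (t - k) := by
    funext t
    rw [omk, if_neg (by omega)]
  have hi := (wt_Om (by linarith only [h1] : 0 ≤ lam) k).int_P h1 Z V θ
  rw [Mh, Mc, e, ← intervalIntegral.integral_Iic_add_Ioi (b := 0) hi.integrableOn hi.integrableOn,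
    integral_Iic_eq_integral_Iio, ← Finset.sum_filter_add_sum_filter_not Z.s (fun a => 0 ≤ Z.ξ a)]
  simp only [not_le]
  ring

theorem Sw_tail : ∃ C : ℝ, 1 ≤ C ∧ ∀ (Z : Cfg) (lam : ℝ) (V : Finset ℕ) (k : ℕ) (θ : ℝ), 1 < lam →
    lam ≤ 11 / 10 → V ⊆ Z.s → 1 ≤ k → |Z.Mh lam V k θ - Z.Mc lam V (omk lam k) θ| ≤
      exp (-2 * lam * k) * (C * ((lam - 1) * Z.g lam 0 + Z.W 0)) := by
  obtain ⟨C, C1, hC⟩ := P_left
  refine ⟨2 * C + 8, by linarith only [C1], fun Z lam V k θ l1 l2 hV hk => ?_⟩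
  have A0 : Z.A 0 = Z.g lam 0 := by simpa using Z.A_eq lam 0
  have g0 : 0 ≤ Z.g lam 0 := mul_nonneg (norm_nonneg _) (exp_pos _).le
  have W0 := Z.W_nonneg 0
  have a1 := Sw_int (lam := lam) k (f := fun t => Z.P lam V t θ)
    ((Z.Sw_P l1 V θ).abs.congr (Eventually.of_forall fun t => by
      simp only [abs_mul, abs_of_pos (exp_pos _)]))
  have a2 := hC Z lam V 0 θ l1 l2 hV
  have a3 := Z.Sw_sum l1 k (by norm_num : (0 : ℝ) ≤ 8) fun a => Z.Sw_ms lam V a θ
  rw [A0] at a2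
  have b0 : 0 ≤ (lam - 1) * Z.g lam 0 := mul_nonneg (by linarith only [l1]) g0
  have b1 : (lam - 1) ^ 2 * Z.g lam 0 ≤ (lam - 1) * Z.g lam 0 := by linarith only [b0, l2, mul_nonneg_of_nonpos_of_nonpos (Mathlib.Tactic.Linarith.sub_nonpos_of_le l2) (Mathlib.Tactic.Linarith.sub_nonpos_of_le b0)]
  have a4 := a1.trans (mul_le_mul_of_nonneg_left (a2.trans (mul_le_mul_of_nonneg_left
    (add_le_add b1 le_rfl) (by linarith only [C1, l1, l2]))) (exp_pos _).le)
  rw [Z.tail_eq l1 V hk]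
  refine (abs_sub _ _).trans ?_
  rw [abs_mul, abs_of_pos (by linarith only [l1, l2] : 0 < lam)]
  have a5 := mul_le_mul (show lam ≤ 2 by linarith only [l1, l2]) a4 (abs_nonneg _) zero_le_two
  have a6 := mul_nonneg (exp_pos (-2 * lam * k)).le b0
  linarith only [a3, a5, a6]

theorem Sw_tail_lip : ∃ C : ℝ, 1 ≤ C ∧ ∀ (Z : Cfg) (lam : ℝ) (V : Finset ℕ) (k : ℕ) (θ θ' : ℝ),
    1 < lam → lam ≤ 11 / 10 → V ⊆ Z.s → 1 ≤ k →
    |(Z.Mh lam V k θ - Z.Mc lam V (omk lam k) θ) - (Z.Mh lam V k θ' - Z.Mc lam V (omk lam k) θ')| ≤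
      exp (-2 * lam * k) * (C * |θ - θ'| * Z.EE lam 0) := by
  obtain ⟨C, C1, hC⟩ := P_left_lip
  refine ⟨2 * C + 32, by linarith, fun Z lam V k θ θ' l1 l2 hV hk => ?_⟩
  have A0 : Z.A 0 = Z.g lam 0 := by simpa using Z.A_eq lam 0
  have E0 : Z.EE lam 0 = (lam - 1) * Z.g lam 0 + Z.W 0 := by simp [EE, Wh]
  have g0 : 0 ≤ Z.g lam 0 := mul_nonneg (norm_nonneg _) (exp_pos _).le
  have W0 := Z.W_nonneg 0
  have d0 := abs_nonneg (θ - θ')
  have a1 := Sw_int (lam := lam) k (f := fun t => Z.P lam V t θ - Z.P lam V t θ')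
    (((Z.Sw_P l1 V θ).sub (Z.Sw_P l1 V θ')).abs.congr (Eventually.of_forall fun t => by
      simp only [Pi.sub_apply, ← mul_sub, abs_mul, abs_of_pos (exp_pos _)]))
  have a2 := hC Z lam V 0 θ θ' l1 l2 hV
  have a3 := Z.Sw_sum l1 k (by positivity : (0 : ℝ) ≤ 32 * |θ - θ'|)
    fun a => Z.Sw_ms_lip l1 (by linarith only [l1, l2]) V a θ θ'
  rw [A0] at a2
  have b0 : 0 ≤ (lam - 1) * Z.g lam 0 := mul_nonneg (by linarith only [l1]) g0
  have b1 : (lam - 1) ^ 2 * Z.g lam 0 ≤ (lam - 1) * Z.g lam 0 := by linarith only [b0, l2, mul_nonneg_of_nonpos_of_nonpos (Mathlib.Tactic.Linarith.sub_nonpos_of_le l2) (Mathlib.Tactic.Linarith.sub_nonpos_of_le b0)]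
  have a4 := a1.trans (mul_le_mul_of_nonneg_left (a2.trans (mul_le_mul_of_nonneg_left
    (add_le_add b1 le_rfl) (by positivity))) (exp_pos _).le)
  have hi : ∀ ϑ, IntegrableOn (fun t => exp (-lam * t) * Om lam (t - k) * Z.P lam V t ϑ) (Iio 0) :=
    fun ϑ => ((wt_Om (by linarith only [l1, l2] : 0 ≤ lam) k).int_P l1 Z V ϑ).integrableOn
  simp only [mul_sub] at a3 a4
  rw [Finset.sum_sub_distrib] at a3
  rw [integral_sub (hi θ) (hi θ')] at a4
  rw [Z.tail_eq l1 V hk, Z.tail_eq l1 V hk, E0, sub_sub_sub_comm]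
  refine (abs_sub _ _).trans ?_
  rw [← mul_sub, abs_mul, abs_of_pos (by linarith only [l1, l2] : 0 < lam)]
  have a5 := mul_le_mul (show lam ≤ 2 by linarith only [l1, l2]) a4 (abs_nonneg _) zero_le_two
  have a6 := mul_nonneg (mul_nonneg (exp_pos (-2 * lam * k)).le d0) b0
  linarith only [a3, a5, a6]

theorem switch_sum : ∃ C μ0 : ℝ, 1 ≤ C ∧ 0 < μ0 ∧ ∀ (Z : Cfg) (lam μ η : ℝ) (n : ℕ) (θ : ℕ → ℝ),
    Z.Calm lam μ η n θ → μ ≤ μ0 →
    -(C * (Z.Err lam μ n θ + μ * Z.EE lam 0)) ≤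
      ∑ k ∈ Finset.range n, (Z.Mc lam (Z.VV n θ) (omk lam (k + 1)) (θ (k + 1)) -
        Z.Mc lam (Z.VV n θ) (omk lam (k + 1)) (θ k)) := by
  obtain ⟨G, G1, hG⟩ := Conv_geo
  obtain ⟨C₁, c1, h1⟩ := switch_le
  obtain ⟨C₂, μ₂, c2, m2, h2⟩ := Zl_le
  obtain ⟨C₃, c3, h3⟩ := Sw_tail_lip
  have p1 : 1 ≤ C₁ * C₂ := one_le_mul_of_one_le_of_one_le c1 c2
  have p2 : 0 ≤ C₃ * G := by positivity
  refine ⟨4 * (C₁ * C₂) + C₃ * G, min μ₂ 1, by linarith only [p1, p2], lt_min m2 one_pos,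
    fun Z lam μ η n θ h hμ => ?_⟩
  have l1 := h.lam1
  have l2 := h.lam2
  have μ0 := h.mu_pos
  have μ1 : μ ≤ 1 := hμ.trans (min_le_right _ _)
  have E0 := Z.EE_nonneg l1.le 0
  have hV := Z.VV_subset n θ
  have key : ∀ k ∈ Finset.range n,
      -(C₁ * C₂ * (Z.TT lam μ n θ (k + 1) ^ 2 / Z.g lam (k + 1)) +
        4 * (C₁ * C₂) * (exp (-|((k + 1 : ℕ) : ℝ) - k| / 2) * (θ k - θ (k + 1)) ^ 2 *
          Z.g lam (k + 1)) + C₃ * (μ * Z.EE lam 0) * exp (-|(k : ℝ) - (0 : ℕ)| / 2)) ≤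
      Z.Mc lam (Z.VV n θ) (omk lam (k + 1)) (θ (k + 1)) -
        Z.Mc lam (Z.VV n θ) (omk lam (k + 1)) (θ k) := by
    intro k hk
    rw [Finset.mem_range] at hk
    have gk := h.g_pos (k := k + 1) hk
    have d0 := abs_nonneg (θ (k + 1) - θ k)
    have a1 := h1 Z lam (Z.VV n θ) ((k + 1 : ℕ) : ℝ) (θ k) (θ (k + 1))
      (C₂ * (Z.TT lam μ n θ (k + 1) + μ * |θ (k + 1) - θ k| * Z.g lam (k + 1))) l1 l2 hV
      fun ϑ hϑ => by
        refine (h2 Z lam μ η n θ h (hμ.trans (min_le_left _ _)) (k + 1) hk _ ϑ le_rfl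
          (by linarith only [l1, l2]) (Nat.cast_le.2 hk)).trans (mul_le_mul_of_nonneg_left (add_le_add le_rfl
            (mul_le_mul_of_nonneg_right (mul_le_mul_of_nonneg_left ?_ μ0.le) gk.le)) (by linarith only [c2, l1, l2]))
        rw [abs_sub_comm ϑ]
        exact abs_sub_right_of_mem_uIcc hϑ
    have a2 := h3 Z lam (Z.VV n θ) (k + 1) (θ (k + 1)) (θ k) l1 l2 hV (Nat.le_add_left 1 k)
    have a3 : exp (-2 * lam * ((k + 1 : ℕ) : ℝ)) * (C₃ * |θ (k + 1) - θ k| * Z.EE lam 0) ≤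
        C₃ * (μ * Z.EE lam 0) * exp (-|(k : ℝ) - (0 : ℕ)| / 2) := by
      rw [mul_comm, mul_assoc C₃ |_|]
      refine mul_le_mul (mul_le_mul_of_nonneg_left (mul_le_mul_of_nonneg_right (h.step k hk) E0)
        (by linarith only [c3, l1, l2])) (exp_le_exp.2 ?_) (exp_pos _).le (by positivity)
      have k0 : (0 : ℝ) ≤ k := Nat.cast_nonneg k
      rw [Nat.cast_zero, sub_zero, abs_of_nonneg k0, Nat.cast_add, Nat.cast_one]
      linarith only [l1, l2, mul_nonneg_of_nonpos_of_nonpos (Mathlib.Tactic.Linarith.sub_nonpos_of_le (Mathlib.Tactic.Linarith.natCast_nonneg ℝ k)) (le_of_lt (Mathlib.Tactic.Linarith.sub_neg_of_lt l1))]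
    have a4 : (1 : ℝ) / 2 ≤ exp (-|((k + 1 : ℕ) : ℝ) - k| / 2) := by
      rw [Nat.cast_add, Nat.cast_one, add_sub_cancel_left, abs_one]
      linarith only [add_one_le_exp (-1 / 2 : ℝ)]
    have a5 : (θ k - θ (k + 1)) ^ 2 = |θ (k + 1) - θ k| ^ 2 := by rw [sq_abs]; ring
    rw [a5]
    generalize |θ (k + 1) - θ k| = d at *
    generalize Z.TT lam μ n θ (k + 1) = T at *
    generalize Z.g lam (k + 1) = g at *
    generalize exp (-|((k + 1 : ℕ) : ℝ) - k| / 2) = e at *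
    have b1 : T * d ≤ T ^ 2 / g + d ^ 2 * g := by
      clear * - T g d gk
      have b2 : T ^ 2 / g + d ^ 2 * g - 2 * (T * d) = (T - d * g) ^ 2 / g := by
        field_simp
        ring
      have b3 : 0 ≤ (T - d * g) ^ 2 / g := by positivity
      have b4 : 0 ≤ T ^ 2 / g := by positivity
      have b5 : 0 ≤ d ^ 2 * g := by positivity
      linarith only [b2, b3, b4, b5]
    have b6 : 0 ≤ d ^ 2 * g := by positivity
    have b7 : (T + μ * d * g) * d ≤ T ^ 2 / g + 4 * (e * d ^ 2 * g) := by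
      clear * - μ d g μ1 b6 e a4 T b1
      have := mul_le_mul_of_nonneg_right μ1 b6
      have := mul_le_mul_of_nonneg_right a4 b6
      nlinarith
    have b8 := mul_le_mul_of_nonneg_left b7 (show 0 ≤ C₁ * C₂ by linarith only [p1, l1, l2])
    have b9 := (abs_le.1 a1).1
    have b10 := (abs_le.1 a2).2
    linarith only [a3, b8, b9, b10]
  refine le_trans ?_ (Finset.sum_le_sum key)
  rw [Finset.sum_neg_distrib, neg_le_neg_iff, Finset.sum_add_distrib, Finset.sum_add_distrib,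
    ← Finset.mul_sum, ← Finset.mul_sum, ← Finset.mul_sum]
  have s1 : ∑ k ∈ Finset.range n, Z.TT lam μ n θ (k + 1) ^ 2 / Z.g lam (k + 1) ≤
      ∑ j ∈ Finset.range (n + 1), Z.TT lam μ n θ j ^ 2 / Z.g lam j := by
    rw [Finset.sum_range_succ']
    have := h.g_pos (Nat.zero_le n)
    exact le_add_of_nonneg_right (by positivity)
  have s0 : 0 ≤ ∑ k ∈ Finset.range n, Z.TT lam μ n θ (k + 1) ^ 2 / Z.g lam (k + 1) :=
    Finset.sum_nonneg fun k hk => by
      have := h.g_pos (k := k + 1) (Finset.mem_range.1 hk)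
      positivity
  have s2 : ∑ k ∈ Finset.range n, exp (-|((k + 1 : ℕ) : ℝ) - k| / 2) * (θ k - θ (k + 1)) ^ 2 *
      Z.g lam (k + 1) ≤ ∑ j ∈ Finset.range (n + 1), ∑ k ∈ Finset.range (n + 1),
        exp (-|(j : ℝ) - k| / 2) * (θ k - θ j) ^ 2 * Z.g lam j := by
    clear * - n θ Z lam μ η h
    rw [Finset.sum_range_succ']
    have g0 := h.g_pos (Nat.zero_le n)
    refine le_add_of_le_of_nonneg (Finset.sum_le_sum fun k hk => ?_)
      (Finset.sum_nonneg fun k _ => by positivity)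
    rw [Finset.mem_range] at hk
    have gk := h.g_pos (k := k + 1) hk
    exact Finset.single_le_sum (f := fun i : ℕ => exp (-|((k + 1 : ℕ) : ℝ) - i| / 2) *
      (θ i - θ (k + 1)) ^ 2 * Z.g lam (k + 1)) (fun i _ => by positivity)
      (Finset.mem_range.2 (by omega))
  have s3 : 0 ≤ ∑ k ∈ Finset.range n, exp (-|((k + 1 : ℕ) : ℝ) - k| / 2) *
      (θ k - θ (k + 1)) ^ 2 * Z.g lam (k + 1) :=
    Finset.sum_nonneg fun k hk => by
      have := h.g_pos (k := k + 1) (Finset.mem_range.1 hk)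
      positivity
  have m0 : 0 ≤ μ * Z.EE lam 0 := by positivity
  have s4 := mul_le_mul_of_nonneg_left (hG n 0) (show 0 ≤ C₃ * (μ * Z.EE lam 0) by positivity)
  rw [Err]
  generalize ∑ j ∈ Finset.range (n + 1), Z.TT lam μ n θ j ^ 2 / Z.g lam j = X at *
  generalize ∑ j ∈ Finset.range (n + 1), ∑ k ∈ Finset.range (n + 1),
    exp (-|(j : ℝ) - k| / 2) * (θ k - θ j) ^ 2 * Z.g lam j = Y at *
  have q0 : 0 ≤ C₁ * C₂ := by linarith only [p1, l1, l2]
  have q1 := mul_le_mul_of_nonneg_left s1 q0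
  have q2 := mul_le_mul_of_nonneg_left s2 q0
  have q3 := mul_nonneg q0 (s0.trans s1)
  have q4 := mul_nonneg q0 m0
  have q5 := mul_nonneg p2 (add_nonneg (s0.trans s1) (s3.trans s2))
  linarith only [s4, q1, q2, q3, q4, q5]

theorem end_le : ∃ C : ℝ, 1 ≤ C ∧ ∀ (Z : Cfg) (lam : ℝ) (V : Finset ℕ) (n : ℕ) (θ : ℝ), 1 < lam →
    lam ≤ 11 / 10 → V ⊆ Z.s → 1 ≤ n →
    Z.Mc lam V (omk lam n) θ ≤ C * ((lam - 1) * Z.g lam 0 + Z.EE lam n) := by
  obtain ⟨C₁, c1, h1⟩ := Mh_le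
  obtain ⟨C₂, c2, h2⟩ := Sw_tail
  refine ⟨C₁ + C₂, by linarith, fun Z lam V n θ l1 l2 hV hn => ?_⟩
  have a1 := h1 Z lam V n θ l1 l2 hV
  have a2 := (abs_le.1 (h2 Z lam V n θ l1 l2 hV hn)).1
  have En : Z.EE lam n = exp (-lam * n) * ((lam - 1) * Z.A n + Z.W n) := by
    rw [EE, Wh, Z.A_eq lam n, mul_add, mul_left_comm, ← mul_assoc (exp _), ← exp_add]
    simp
  rw [← En] at a1
  have n0 : (0 : ℝ) ≤ n := Nat.cast_nonneg n
  have g0 : 0 ≤ (lam - 1) * Z.g lam 0 :=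
    mul_nonneg (by linarith only [l1]) (mul_nonneg (norm_nonneg _) (exp_pos _).le)
  have gn : 0 ≤ (lam - 1) * Z.g lam n :=
    mul_nonneg (by linarith only [l1]) (mul_nonneg (norm_nonneg _) (exp_pos _).le)
  have b1 : exp (-2 * lam * n) * ((lam - 1) * Z.g lam 0) ≤ (lam - 1) * Z.g lam 0 :=
    mul_le_of_le_one_left g0 (exp_le_one_iff.2 (by linarith only [l1, mul_nonneg_of_nonpos_of_nonpos (Mathlib.Tactic.Linarith.sub_nonpos_of_le (Mathlib.Tactic.Linarith.natCast_nonneg ℝ n)) (le_of_lt (Mathlib.Tactic.Linarith.sub_neg_of_lt l1))]))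
  have b2 : exp (-2 * lam * n) * Z.W 0 ≤ Z.EE lam n := by
    have b3 : exp (-2 * lam * n) * Z.W 0 ≤ exp (-lam * n) * Z.W n :=
      mul_le_mul (exp_le_exp.2 (by linarith only [l1, mul_nonneg_of_nonpos_of_nonpos (Mathlib.Tactic.Linarith.sub_nonpos_of_le (Mathlib.Tactic.Linarith.natCast_nonneg ℝ n)) (le_of_lt (Mathlib.Tactic.Linarith.sub_neg_of_lt l1))])) (Z.W_mono n0) (Z.W_nonneg 0) (exp_pos _).le
    rw [EE, Wh]
    linarith only [gn, b3]
  have b4 := mul_le_mul_of_nonneg_left (add_le_add b1 b2) (show 0 ≤ C₂ by linarith only [c2, l1, l2])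
  have b5 := mul_nonneg (show 0 ≤ C₁ by linarith only [c1, l1, l2]) g0
  linarith only [a1, a2, b4, b5]

end Cfg

end

end Pool.Agent.MinMod
end
end

-- merged part: Pool.Agent.Work.MP_f62247_an.FinB
section
-- merged part: Pool.Agent.Work.MP_f62247_an.Mlem
section
/-!
# The calm lemma

`calm_main`: `n = 0` is trivial (`Wh 0 = W 0`).  Otherwise telescope `Mc (omk n) (θ n) - Mc (omk 0) (θ 0)` = steps + switches; `end_le`, `start_ge`,
`step_sum` (with the `κ` of `start_ge`), `switch_sum`, `bad_set`, `book` with `X = mm + dd`, `Y = mm + qq` (`mm_le`, `Nf_local`, `slow`);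
`EE k ≤ 2 μ g k`, so `EE k² / g k ≤ 2 μ EE k`; take `μ` small so that the terms `C μ ∑ (mm + qq)` and `C μ W 0` are absorbed.
`calm_final`: replace `Z` by `Z.shift y`; `W ≤ C0 e^x L` (`W_L`); `exists_frames` with `C0 μ`; `relift` with
`η' a = θ (ki) + rp (η a - θ (ki))`; this is `Calm` for `lam = 1 + μ⁴` and `μ' = C1 C0 μ` (`μ'^5 ≤ μ⁴` for small `μ`).
-/

open Real MeasureTheory Set Filter Topology

namespace Pool.Agent.MinMod

noncomputable section

theorem Mlem_arith {C1 C2 C3 C4 C5 C6 κ μ η x W eg egn Whn E0 En G Y Err Bs m M0 Mn St Sw : ℝ}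
    (c1 : 1 ≤ C1) (c2 : 1 ≤ C2) (c3 : 1 ≤ C3) (c4 : 1 ≤ C4) (c5 : 1 ≤ C5) (c6 : 1 ≤ C6)
    (m1 : μ ≤ 1) (m2 : ((C2 + C3) * C6 + C2 * C5) * μ ≤ κ / C2)
    (m3 : (2 * ((C2 + C3) * C6) + C3) * μ ≤ 1 / C1 / 2) (hη : 0 ≤ η) (hx : 0 ≤ x) (hW : 0 ≤ W)
    (heg : 0 ≤ eg) (hEn : 0 ≤ En) (hG : 0 ≤ G) (hY : 0 ≤ Y) (e0 : E0 = eg + W) (e1 : Whn ≤ En)
    (e2 : egn ≤ En) (h1 : W / C1 - C1 * (eg + Whn) ≤ M0 + m)
    (h2 : m + η / C2 * G + κ / C2 * Y - C2 * (Err + Bs + En) ≤ St)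
    (h3 : -(C3 * (Err + μ * E0)) ≤ Sw) (h4 : Mn ≤ C4 * (eg + En)) (h5 : St + Sw = Mn - M0)
    (h6 : Bs ≤ C5 * x * G + C5 * μ * Y + C5 * (eg + egn))
    (h7 : Err ≤ C6 * μ * Y + C6 * (2 * μ * E0 + 2 * μ * En)) {C : ℝ}
    (hC : C = 2 * C1 + C2 + C3 + C4 + C2 * C5 + 2 * ((C2 + C3) * C6)) :
    W / C + (η / C - C * x) * G ≤ C * En + C * eg := by
  have p1 : 0 ≤ C2 * C5 := by positivity
  have p2 : 0 ≤ (C2 + C3) * C6 := by positivity
  have k1 := mul_le_mul_of_nonneg_left h7 (show 0 ≤ C2 + C3 by positivity)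
  have k2 := mul_le_mul_of_nonneg_left h6 (show 0 ≤ C2 by positivity)
  have k3 := mul_le_mul_of_nonneg_right m2 hY
  have k4 : (2 * ((C2 + C3) * C6) + C3) * μ * W ≤ W / C1 / 2 :=
    (mul_le_mul_of_nonneg_right m3 hW).trans_eq (by ring)
  have k5 : (2 * ((C2 + C3) * C6) + C3) * eg * μ ≤ (2 * ((C2 + C3) * C6) + C3) * eg :=
    mul_le_of_le_one_right (by positivity) m1
  have k6 : 2 * ((C2 + C3) * C6) * En * μ ≤ 2 * ((C2 + C3) * C6) * En :=
    mul_le_of_le_one_right (by positivity) m1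
  have k7 := mul_le_mul_of_nonneg_left e1 (show 0 ≤ C1 by positivity)
  have k8 := mul_le_mul_of_nonneg_left e2 p1
  have k9 : W / C ≤ W / C1 / 2 := by
    rw [div_div]
    exact div_le_div_of_nonneg_left hW (by positivity) (by linarith only [c2, c3, c4, hC, p1, p2])
  have k10 : η / C * G ≤ η / C2 * G :=
    mul_le_mul_of_nonneg_right (div_le_div_of_nonneg_left hη (by positivity) (by linarith only [c1, c3, c4, hC, p1, p2])) hG
  have k11 : C2 * C5 * (x * G) ≤ C * (x * G) :=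
    mul_le_mul_of_nonneg_right (by linarith only [c1, c2, c3, c4, hC, p2]) (mul_nonneg hx hG)
  have k12 : (C4 + C1 + C2 + C2 * C5 + 2 * ((C2 + C3) * C6)) * En ≤ C * En :=
    mul_le_mul_of_nonneg_right (by linarith only [c1, c3, hC]) hEn
  have k13 : (C4 + C1 + C3 + C2 * C5 + 2 * ((C2 + C3) * C6)) * eg ≤ C * eg :=
    mul_le_mul_of_nonneg_right (by linarith only [c1, c2, hC]) heg
  subst e0
  linarith only [h1, h2, h4, h5, k2, k3, k4, k5, k6, k7, k8, k9, k10, k11, k12, k13, h3, k1]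

namespace Cfg

theorem Mlem_EE {Z : Cfg} {lam μ η : ℝ} {n : ℕ} {θ : ℕ → ℝ} (h : Z.Calm lam μ η n θ) {k : ℕ}
    (hk : k ≤ n) : Z.EE lam k ^ 2 / Z.g lam k ≤ 2 * μ * Z.EE lam k := by
  have h1 := h.g_pos hk
  have h2 := h.Wh_le hk
  have h3 := mul_le_mul_of_nonneg_right h.le_mu h1.le
  have h4 : Z.EE lam k ≤ 2 * μ * Z.g lam k := by
    unfold EE
    linarith
  rw [div_le_iff₀ h1, sq]
  exact (mul_le_mul_of_nonneg_left h4 (Z.EE_nonneg h.lam1.le k)).trans_eq (by ring)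

theorem Mlem_err : ∃ C μ0 : ℝ, 1 ≤ C ∧ 0 < μ0 ∧ ∀ (Z : Cfg) (lam μ η : ℝ) (n : ℕ) (θ : ℕ → ℝ),
    Z.Calm lam μ η n θ → μ ≤ μ0 → Z.Err lam μ n θ ≤
      C * μ * ∑ k ∈ Finset.range n, (Z.mm lam n θ k + Z.qq lam n θ k) +
        C * (2 * μ * Z.EE lam 0 + 2 * μ * Z.EE lam n) := by
  obtain ⟨Cm, m1, c1, p1, H1⟩ := mm_le
  obtain ⟨Cn, m2, c2, p2, H2⟩ := Nf_local
  obtain ⟨m3, p3, H3⟩ := slow
  obtain ⟨C, hC, H⟩ := book (C0 := 2 * Cm + Cn) (by linarith)
  refine ⟨C, min (min m1 m2) (min m3 1), hC, by positivity, fun Z lam μ η n θ h hμ => ?_⟩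
  simp only [le_min_iff] at hμ
  obtain ⟨⟨q1, q2⟩, q3, q4⟩ := hμ
  refine (H n μ (Z.EE lam 0) (Z.EE lam n) (Z.g lam) (fun k => Z.mm lam n θ k + Z.dd lam n θ k)
    (fun k => Z.mm lam n θ k + Z.qq lam n θ k) θ (Z.TT lam μ n θ) h.mu_pos q4
    (fun k hk => h.g_pos hk) (H3 Z lam μ η n θ h q3) (fun k hk => ?_) fun j => rfl).trans ?_
  · obtain ⟨a1, a2, a3⟩ := Z.mm_nonneg (zero_le_one.trans h.lam1.le) n θ k
    obtain ⟨b1, -, b3⟩ := H1 Z lam μ η n θ h q1 k hk
    have b4 := (H2 Z lam μ η n θ h q2 k hk).2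
    have b5 := mul_le_mul_of_nonneg_right b1 a1
    have b6 : 0 ≤ Cn * μ * Z.g lam k * (Z.mm lam n θ k + Z.qq lam n θ k) :=
      mul_nonneg (mul_nonneg (mul_nonneg (by linarith only [c2]) h.mu_pos.le) (h.g_pos hk.le).le)
        (add_nonneg a1 a2)
    have b7 : 0 ≤ Cm * (Z.mm lam n θ k + Z.dd lam n θ k) :=
      mul_nonneg (by linarith) (add_nonneg a1 a3)
    refine ⟨add_nonneg a1 a3, add_nonneg a1 a2, ?_, by linarith only [b4, b7]⟩
    linarith only [b3, b5, b6, sq_nonneg (Z.mm lam n θ k - Z.dd lam n θ k)]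
  · exact add_le_add_right (mul_le_mul_of_nonneg_left
      (add_le_add (Mlem_EE h n.zero_le) (Mlem_EE h le_rfl)) (by linarith)) _

theorem calm_main : ∃ C c μ0 : ℝ, 1 ≤ C ∧ 0 < c ∧ 0 < μ0 ∧ ∀ (Z : Cfg) (lam μ η : ℝ) (n : ℕ) (θ : ℕ → ℝ),
    Z.Calm lam μ η n θ → μ ≤ μ0 →
    Z.W 0 / C + (η / C - C * exp (-c / (lam - 1) ^ 2)) * ∑ k ∈ Finset.range n, Z.g lam k ≤
      C * Z.EE lam n + C * (lam - 1) * Z.g lam 0 := by
  obtain ⟨κ, C1, m1, k0, k1, c1, p1, H1⟩ := start_ge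
  obtain ⟨C2, m2, c2, p2, H2⟩ := step_sum
  obtain ⟨C3, m3, c3, p3, H3⟩ := switch_sum
  obtain ⟨C4, c4, H4⟩ := end_le
  obtain ⟨C5, c, m5, c5, hc, p5, H5⟩ := bad_set_sq
  obtain ⟨C6, m6, c6, p6, H6⟩ := Mlem_err
  obtain ⟨C, hC⟩ : ∃ C, C = 2 * C1 + C2 + C3 + C4 + C2 * C5 + 2 * ((C2 + C3) * C6) := ⟨_, rfl⟩
  have d1 : 0 < (C2 + C3) * C6 := by positivity
  have d2 : 0 < C2 * C5 := by positivity
  have hC1 : 1 ≤ C := by linarith only [c1, c2, c3, c4, hC, d1, d2]
  refine ⟨C, c, min (min (min m1 m2) (min m3 m5)) (min (min m6 1)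
    (min (κ / C2 / ((C2 + C3) * C6 + C2 * C5)) (1 / C1 / 2 / (2 * ((C2 + C3) * C6) + C3)))),
    hC1, hc, by positivity, fun Z lam μ η n θ h hμ => ?_⟩
  simp only [le_min_iff] at hμ
  obtain ⟨⟨⟨q1, q2⟩, q3, q5⟩, ⟨q6, q7⟩, q8, q9⟩ := hμ
  have hW := Z.W_nonneg 0
  have he : 0 ≤ lam - 1 := sub_nonneg.2 h.lam1.le
  have heg : ∀ k ≤ n, 0 ≤ (lam - 1) * Z.g lam k := fun k hk => mul_nonneg he (h.g_pos hk).le
  have e0 : Z.EE lam 0 = (lam - 1) * Z.g lam 0 + Z.W 0 := by simp [EE, Wh]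
  rw [mul_assoc]
  rcases Nat.eq_zero_or_pos n with rfl | hn
  · rw [Finset.range_zero, Finset.sum_empty, mul_zero, add_zero, e0]
    have a1 : Z.W 0 / C ≤ Z.W 0 := div_le_self hW hC1
    have a2 : Z.W 0 ≤ C * Z.W 0 := le_mul_of_one_le_left hW hC1
    have a3 := mul_nonneg (zero_le_one.trans hC1) (heg 0 le_rfl)
    linarith only [a1, a2, a3]
  obtain ⟨S, β, s1, s2⟩ := H5 Z lam μ η n θ h q5
  rw [le_div_iff₀' (by positivity)] at q8 q9
  refine Mlem_arith c1 c2 c3 c4 c5 c6 q7 q8 q9 h.eta0 (exp_pos _).le hW (heg 0 n.zero_le)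
    (Z.EE_nonneg h.lam1.le n) (Finset.sum_nonneg fun k hk => (h.g_pos (Finset.mem_range.1 hk).le).le)
    (Finset.sum_nonneg fun k _ => ?_) e0 (le_add_of_nonneg_left (heg n le_rfl))
    (le_add_of_nonneg_right (mul_nonneg (exp_pos _).le (Z.W_nonneg _)))
    (H1 Z lam μ η n θ h q1 hn) (H2 Z lam μ η n θ h q2 κ k0.le k1 S β s1) (H3 Z lam μ η n θ h q3)
    (H4 Z lam (Z.VV n θ) n (θ n) h.lam1 h.lam2 (Z.VV_subset n θ) hn) ?_
    (s2.trans_eq (by ring)) (H6 Z lam μ η n θ h q6) hC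
  · obtain ⟨a1, a2, -⟩ := Z.mm_nonneg (zero_le_one.trans h.lam1.le) n θ k
    exact add_nonneg a1 a2
  · rw [← Finset.sum_add_distrib,
      ← Finset.sum_range_sub fun k => Z.Mc lam (Z.VV n θ) (omk lam k) (θ k)]
    exact Finset.sum_congr rfl fun k _ => by ring

theorem Mlem_calm : ∃ K μ0 : ℝ, 1 ≤ K ∧ 0 < μ0 ∧ ∀ (Z : Cfg) (μ η : ℝ) (n : ℕ),
    0 < μ → μ ≤ μ0 → 0 ≤ η → η ≤ 1 → 0 < ‖Z.cc 0‖ → (∀ k ≤ n, Z.L k ≤ μ * ‖Z.cc k‖) →
    (∀ x ∈ Icc (0 : ℝ) n, Z.Min η x) → ∃ (η' θ : ℕ → ℝ), (Z.relift η').cc = Z.cc ∧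
      (Z.relift η').Calm (1 + μ ^ 4) (K * μ) η n θ := by
  obtain ⟨C0, c0, H0⟩ := W_L
  obtain ⟨C1, m1, c1, p1, H1⟩ := exists_frames
  have hK : 1 ≤ C1 * C0 := one_le_mul_of_one_le_of_one_le c1 c0
  refine ⟨C1 * C0, min (min (m1 / C0) (1 / 10)) (1 / (C1 * C0) ^ 5), hK, by positivity,
    fun Z μ η n h0 hμ e0 e1 hc hL hM => ?_⟩
  simp only [le_min_iff] at hμ
  obtain ⟨⟨q1, q2⟩, q3⟩ := hμ
  rw [le_div_iff₀' (by positivity)] at q1 q3
  have a1 : μ ^ 4 ≤ μ := pow_le_of_le_one h0.le (by linarith only [h0, q2]) (by norm_num)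
  have a2 : 0 < μ ^ 4 := by positivity
  have hW : ∀ k ≤ n, Z.W k ≤ C0 * μ * Z.A k := fun k hk =>
    (H0 Z k).1.trans ((mul_le_mul_of_nonneg_left (mul_le_mul_of_nonneg_left (hL k hk)
      (exp_pos _).le) (by linarith only [c0, h0, q2])).trans_eq (by unfold A; ring))
  obtain ⟨θ, t1, t2⟩ := H1 Z (1 + μ ^ 4) (C0 * μ) n (by linarith) (by linarith only [q2, a1]) (by positivity) q1
    hc hW
  have hη : ∀ a ∈ Z.s, ∃ k : ℤ, θ (ki n (Z.ξ a)) + rp (Z.η a - θ (ki n (Z.ξ a))) =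
      Z.η a + k * (2 * π) := fun a _ => by
    obtain ⟨k, hk⟩ := exists_rp (Z.η a - θ (ki n (Z.ξ a)))
    exact ⟨k, by rw [hk]; ring⟩
  have r1 := Z.relift_cc hη
  have r2 := Z.relift_Min hη
  have r3 := Z.relift_Nf hη
  refine ⟨_, θ, r1, by linarith only [a2], by linarith only [q2, a1], ?_, ?_, e0, e1, fun k hk => ?_, fun k hk => ?_,
    fun k hk => ?_, fun k hk => ?_, fun k hk => ?_, fun a _ => ?_, fun x hx => ?_⟩
  · rw [add_sub_cancel_left]
    exact a1.trans (le_mul_of_one_le_left h0.le hK)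
  · rw [add_sub_cancel_left]
    exact (show _ = (C1 * C0) ^ 5 * μ * μ ^ 4 by ring).trans_le
      (mul_le_of_le_one_left a2.le q3)
  · rw [r1]
    exact (t1 k hk).1
  · have b1 : C0 * μ ≤ C1 * C0 * μ := by
      rw [mul_assoc]
      exact le_mul_of_one_le_left (by positivity) c1
    unfold A
    rw [r1]
    exact (hW k hk).trans (mul_le_mul_of_nonneg_right b1
      (mul_nonneg (norm_nonneg _) (exp_pos _).le))
  · rw [r1, mul_assoc C1]
    exact (t1 k hk).2.2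
  · rw [mul_assoc]
    exact t2 k hk
  · rw [r3]
    exact (t1 k hk).2.1
  · change |θ (ki n (Z.ξ a)) + rp (Z.η a - θ (ki n (Z.ξ a))) - θ (ki n (Z.ξ a))| ≤ π
    rw [add_sub_cancel_left]
    exact KerG_abs_le _
  · rw [r2]
    exact hM x hx

theorem calm_final : ∃ C c μ0 : ℝ, 1 ≤ C ∧ 0 < c ∧ 0 < μ0 ∧ ∀ (Z : Cfg) (μ η y : ℝ) (n : ℕ),
    0 < μ → μ ≤ μ0 → 0 ≤ η → η ≤ 1 → 0 < ‖Z.cc y‖ →
    (∀ k ≤ n, Z.L (y + k) ≤ μ * ‖Z.cc (y + k)‖) → (∀ x ∈ Icc y (y + n), Z.Min η x) →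
    Z.L y / C + (η / C - C * exp (-c / (μ ^ 4) ^ 2)) *
        ∑ k ∈ Finset.range n, ‖Z.cc (y + k)‖ * exp (-μ ^ 4 * k) ≤
      C * ((Z.L (y + n) + μ ^ 4 * ‖Z.cc (y + n)‖) * exp (-μ ^ 4 * n)) + C * μ ^ 4 * ‖Z.cc y‖ := by
  obtain ⟨C, c, m1, c1, hc, p1, H1⟩ := calm_main
  obtain ⟨K, m2, c2, p2, H2⟩ := Mlem_calm
  obtain ⟨C0, c0, H0⟩ := W_L
  have hC : C ≤ C * C0 := le_mul_of_one_le_right (by linarith) c0
  refine ⟨C * C0, c, min (m1 / K) m2, c1.trans hC, hc, by positivity,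
    fun Z μ η y n h0 hμ e0 e1 hc hL hM => ?_⟩
  obtain ⟨q1, q2⟩ := le_min_iff.1 hμ
  rw [le_div_iff₀' (by positivity)] at q1
  have hy := exp_pos y
  obtain ⟨η', θ, r1, hZ⟩ := H2 (Z.shift y) μ η n h0 q2 e0 e1
    (by rw [shift_cc, zero_add]; positivity)
    (fun k hk => by
      rw [shift_L, shift_cc, add_comm, mul_left_comm]
      exact mul_le_mul_of_nonneg_left (hL k hk) hy.le)
    fun x hx => (Z.shift_Min y η x).2 (hM _ ⟨by linarith [hx.1], by linarith [hx.2]⟩)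
  have H := H1 _ _ _ _ _ _ hZ q1
  have hg : ∀ k : ℕ, ((Z.shift y).relift η').g (1 + μ ^ 4) k =
      exp y * (‖Z.cc (y + k)‖ * exp (-μ ^ 4 * k)) := fun k => by
    unfold g
    rw [r1, shift_cc, add_comm, add_sub_cancel_left, mul_assoc]
  have w0 : exp y * (Z.L y / (C * C0)) ≤ ((Z.shift y).relift η').W 0 / C := by
    have := (H0 (Z.shift y) 0).2
    rw [exp_zero, one_mul, shift_L, zero_add] at this
    rw [← mul_div_assoc, mul_comm C, ← div_div]
    exact div_le_div_of_nonneg_right ((div_le_iff₀' (by linarith only [c0])).2 this) (by linarith only [c1])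
  have w1 : ((Z.shift y).relift η').Wh (1 + μ ^ 4) n ≤
      exp y * (C0 * (Z.L (y + n) * exp (-μ ^ 4 * n))) := by
    have := (H0 (Z.shift y) n).1
    rw [shift_L, add_comm] at this
    refine (mul_le_mul_of_nonneg_left this (exp_pos _).le).trans_eq ?_
    rw [show -μ ^ 4 * (n : ℝ) = -(1 + μ ^ 4) * n + n by ring, exp_add]
    ring
  simp only [EE, hg, add_sub_cancel_left, ← Finset.mul_sum, Nat.cast_zero, add_zero, mul_zero,
    exp_zero, mul_one] at H
  have s0 : 0 ≤ ∑ k ∈ Finset.range n, ‖Z.cc (y + k)‖ * exp (-μ ^ 4 * k) :=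
    Finset.sum_nonneg fun k _ => by positivity
  generalize ∑ k ∈ Finset.range n, ‖Z.cc (y + k)‖ * exp (-μ ^ 4 * k) = G at H s0 ⊢
  have s1 : (η / (C * C0) - C * C0 * exp (-c / (μ ^ 4) ^ 2)) * G ≤ (η / C - C * exp (-c / (μ ^ 4) ^ 2)) * G :=
    mul_le_mul_of_nonneg_right (sub_le_sub (div_le_div_of_nonneg_left e0 (by linarith only [c1]) hC)
      (mul_le_mul_of_nonneg_right hC (exp_pos _).le)) s0
  have s2 : C * (μ ^ 4 * ‖Z.cc y‖) ≤ C * C0 * (μ ^ 4 * ‖Z.cc y‖) :=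
    mul_le_mul_of_nonneg_right hC (by positivity)
  have s3 : C * (μ ^ 4 * ‖Z.cc (y + n)‖ * exp (-μ ^ 4 * n)) ≤
      C * C0 * (μ ^ 4 * ‖Z.cc (y + n)‖ * exp (-μ ^ 4 * n)) :=
    mul_le_mul_of_nonneg_right hC (by positivity)
  have s4 := mul_le_mul_of_nonneg_left w1 (show 0 ≤ C by linarith only [c1])
  have s5 := mul_le_mul_of_nonneg_left (add_le_add (add_le_add s1 s2) s3) hy.le
  refine le_of_mul_le_mul_left ?_ hy
  linarith only [w0, H, s4, s5]

end Cfg

end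

end Pool.Agent.MinMod
end

-- merged part: Pool.Agent.Work.MP_f62247_an.G1c
section
/-!
# Much mass forces growth

Suppose `L T < (1 + c0) l`, `l = L 0` (if `l = 0` the claim is `L_nonneg`).  `‖cc x‖ ≤ (1/δ + C (x+1)) l`
(`norm_cc_step`, `W_L`).  Choose `T` (large, depending on `δ`), `K = 1/δ + C (T+1)`, `ρ0` small, then `N`, `c1` from `coherent`, then `c0`.
Let `m = T N - 1`, `e = e^(iγ m)`, `y = R0`.  A zero with `i/N ≤ ξ < (i+1)/N`, `R0 N ≤ i ≤ m`, is aligned if `|rp (η - γ i)| ≤ 2/N`; then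
`Re (e^(-iη) e) ≥ 1/2`.  By `misaligned` (radius `1/N`) and `sd_sum` (`K = 8`, on each unit interval) the non aligned zeros have
`∑ e^(-ξ) ≤ C T N⁴ c0 l + C T K l / N ≤ l`.  `mass_lower` on `[R0, p m]` and `cc_sub` give
`Re (cc (p m) e) ≥ -‖cc R0‖ + (T - R0 - 1) l / (2C) - C l - 2 l`, which exceeds `C' l` for large `T`.  But `-om ≤ U (p m) (γ m + π) ≤
-Re (cc (p m) e) e^(p m) + W (p m)` (`om_ge`, `U_le` with `y = x`).  Then `shift`.
-/

open Real MeasureTheory Set Filter Topology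

namespace Pool.Agent.MinMod

noncomputable section

theorem G1c_align {η γ γ' : ℝ} (h : |rp (η - γ)| ≤ 1 / 32)
    (h' : ‖Complex.exp (γ * Complex.I) - Complex.exp (γ' * Complex.I)‖ ≤ 1 / 10) :
    1 / 2 ≤ cos (γ' - η) := by
  have e : ∀ t : ℝ, (Complex.exp (-(η * Complex.I)) * Complex.exp (t * Complex.I)).re =
      cos (t - η) := by
    intro t
    rw [← Complex.exp_add, show -((η : ℂ) * Complex.I) + t * Complex.I =
      ((t - η : ℝ) : ℂ) * Complex.I by push_cast; ring, Complex.exp_ofReal_mul_I_re]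
  have n1 : ‖Complex.exp (-(η * Complex.I))‖ = 1 := by
    rw [show -((η : ℂ) * Complex.I) = ((-η : ℝ) : ℂ) * Complex.I by push_cast; ring,
      Complex.norm_exp_ofReal_mul_I]
  have a1 : cos (γ - η) - cos (γ' - η) ≤ 1 / 10 := by
    rw [← e, ← e, ← Complex.sub_re, ← mul_sub]
    refine (Complex.re_le_norm _).trans ?_
    rw [norm_mul, n1, one_mul]
    exact h'
  have a2 : 1 - (1 / 32) ^ 2 / 2 ≤ cos (γ - η) := by
    rw [← cos_neg, neg_sub, ← cos_rp]
    have b := Real.one_sub_sq_div_two_le_cos (x := rp (η - γ))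
    have c : rp (η - γ) ^ 2 ≤ (1 / 32) ^ 2 := by
      rw [← sq_abs]
      gcongr
    linarith only [b, c]
  linarith only [a1, a2]

namespace Cfg

theorem G1c_cc (Z : Cfg) {T a : ℝ}
    (h : ∀ y ∈ Icc (0 : ℝ) T, exp 2 * Z.W y ≤ a * exp y) (k : ℕ) :
    ∀ x ∈ Icc (0 : ℝ) T, x ≤ k → ‖Z.cc x‖ ≤ ‖Z.cc 0‖ + a * k := by
  induction k with
  | zero =>
    intro x hx hk
    have : x = 0 := le_antisymm (by simpa using hk) hx.1
    simp [this]
  | succ k ih =>
    intro x hx hk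
    push_cast at hk ⊢
    have hy : max 0 (x - 1) ∈ Icc (0 : ℝ) T :=
      ⟨le_max_left _ _, max_le (hx.1.trans hx.2) (by linarith [hx.2])⟩
    have h1 := ih _ hy (max_le (Nat.cast_nonneg k) (by linarith))
    have h2 := Z.norm_cc_step (y := max 0 (x - 1)) (y' := x) (max_le hx.1 (by linarith))
      (by linarith [le_max_right 0 (x - 1)])
    have h3 : ‖Z.cc x - Z.cc (max 0 (x - 1))‖ ≤ a :=
      le_of_mul_le_mul_right (h2.trans (h _ hy)) (exp_pos _)
    have h4 := norm_sub_norm_le (Z.cc x) (Z.cc (max 0 (x - 1)))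
    linarith

/-- The zeros near `p i` that are not aligned with `γ i`. -/
def G1c_M (Z : Cfg) (N : ℕ) (p γ : ℕ → ℝ) (i : ℕ) : Finset ℕ :=
  Z.s.filter fun a => |Z.ξ a - p i| ≤ 1 / (N : ℝ) ∧ 2 * (1 / (N : ℝ)) < |rp (Z.η a - γ i)|

theorem G1c_mis : ∃ C : ℝ, 1 ≤ C ∧ ∀ (Z : Cfg) (T N : ℕ) (p γ : ℕ → ℝ) (ε K : ℝ), 64 ≤ N → 0 ≤ ε →
    (∀ i < T * N, (i : ℝ) / N ≤ p i ∧ p i ≤ (i + 1) / N ∧ Z.Reg (p i) ∧
      Z.U (p i) (γ i) ≤ -Z.B (p i) ∧ exp (-p i) * Z.om (p i) ≤ ε) →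
    (∀ u < T, Z.B (u + 3) ≤ exp u * K) →
    ∑ u ∈ Finset.range T, ∑ j ∈ Finset.range N,
      exp (-(u : ℝ)) * (Z.G1c_M N p γ (u * N + j)).card ≤
        T * (3 * C * N ^ 3 * ε + 81 * C * (1 / N) * K) := by
  obtain ⟨C, hC, hmis⟩ := misaligned
  refine ⟨C, hC, fun Z T N p γ ε K hN hε hp hB => ?_⟩
  have hN' : (64 : ℝ) ≤ N := by exact_mod_cast hN
  have hN0 : (0 : ℝ) < N := by linarith
  have key : ∀ u ∈ Finset.range T, ∑ j ∈ Finset.range N,
      exp (-(u : ℝ)) * (Z.G1c_M N p γ (u * N + j)).card ≤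
        3 * C * N ^ 3 * ε + 81 * C * (1 / N) * K := by
    intro u hu
    have hu' := Finset.mem_range.1 hu
    have hlt : ∀ j < N, u * N + j < T * N := by
      intro j hj
      calc u * N + j < u * N + N := by omega
        _ = (u + 1) * N := by ring
        _ ≤ T * N := Nat.mul_le_mul_right _ hu'
    have hpos : ∀ j < N, (u : ℝ) + j * (1 / N) ≤ p (u * N + j) ∧
        p (u * N + j) ≤ u + (j + 1) * (1 / N) := by
      intro j hj
      obtain ⟨h1, h2, -⟩ := hp _ (hlt j hj)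
      push_cast at h1 h2
      constructor
      · refine le_trans (le_of_eq ?_) h1
        field_simp
      · refine h2.trans (le_of_eq ?_)
        field_simp
        ring
    have hsd := sd_sum Z.B_convex Z.B_mono Z.B_nonneg (u : ℝ) (ρ := 1 / N) (by positivity) 8 N
      (by rw [mul_one_div, div_le_one hN0]; push_cast; linarith)
      (by rw [mul_one_div, div_self hN0.ne']) (fun j => p (u * N + j)) hpos
    have hone : ∀ j ∈ Finset.range N, exp (-(u : ℝ)) * (Z.G1c_M N p γ (u * N + j)).card ≤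
        3 * C * N ^ 2 * ε + exp (-(u : ℝ)) * C *
          ((Z.B (p (u * N + j) + (8 : ℕ) * (1 / N)) + Z.B (p (u * N + j) - (8 : ℕ) * (1 / N))) / 2 -
            Z.B (p (u * N + j))) := by
      intro j hj
      have hj' := Finset.mem_range.1 hj
      obtain ⟨-, -, h3, h4, h5⟩ := hp _ (hlt j hj')
      have h6 := hmis Z _ _ (1 / N) h3 h4 (by positivity)
        (one_div_le_one_div_of_le (by norm_num) (by linarith only [hN']))
      have h7 : p (u * N + j) ≤ u + 1 := by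
        refine (hpos j hj').2.trans ?_
        have : (j : ℝ) + 1 ≤ N := by exact_mod_cast hj'
        rw [mul_one_div]
        have := (div_le_one hN0).2 this
        linarith only [this]
      have h8 : exp (-(u : ℝ)) * Z.om (p (u * N + j)) ≤ 3 * ε := by
        have e1 : exp (-(u : ℝ)) = exp (p (u * N + j) - u) * exp (-p (u * N + j)) := by
          rw [← exp_add]
          congr 1
          ring
        have e2 : exp (p (u * N + j) - u) ≤ 3 := by
          have := Real.exp_one_lt_d9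
          have := exp_le_exp.2 (show p (u * N + j) - u ≤ 1 by linarith only [h7])
          linarith
        rw [e1, mul_assoc]
        calc exp (p (u * N + j) - u) * (exp (-p (u * N + j)) * Z.om (p (u * N + j)))
            ≤ exp (p (u * N + j) - u) * ε := by gcongr
          _ ≤ 3 * ε := by gcongr
      have h9 := mul_le_mul_of_nonneg_left h6 (exp_pos (-(u : ℝ))).le
      have e3 : exp (-(u : ℝ)) * (C * Z.om (p (u * N + j)) / (1 / N) ^ 2) =
          C * N ^ 2 * (exp (-(u : ℝ)) * Z.om (p (u * N + j))) := by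
        field_simp
      have h10 : C * N ^ 2 * (exp (-(u : ℝ)) * Z.om (p (u * N + j))) ≤ C * N ^ 2 * (3 * ε) := by
        gcongr
      rw [mul_add, e3] at h9
      push_cast
      unfold G1c_M
      linarith only [h9, h10]
    refine (Finset.sum_le_sum hone).trans ?_
    rw [Finset.sum_add_distrib, Finset.sum_const, Finset.card_range, nsmul_eq_mul,
      ← Finset.mul_sum]
    have hB' := hB u hu'
    have h11 : exp (-(u : ℝ)) * C * ∑ j ∈ Finset.range N,
        ((Z.B (p (u * N + j) + (8 : ℕ) * (1 / N)) + Z.B (p (u * N + j) - (8 : ℕ) * (1 / N))) / 2 -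
          Z.B (p (u * N + j))) ≤ exp (-(u : ℝ)) * C * (((8 : ℕ) + 1) ^ 2 * (1 / N) * (exp u * K)) := by
      refine mul_le_mul_of_nonneg_left (hsd.trans ?_) (by positivity)
      gcongr
    have e4 : exp (-(u : ℝ)) * C * (((8 : ℕ) + 1) ^ 2 * (1 / N) * (exp u * K)) =
        81 * C * (1 / N) * K := by
      rw [exp_neg]
      field_simp
      push_cast
      ring
    rw [e4] at h11
    have e5 : (N : ℝ) * (3 * C * N ^ 2 * ε) = 3 * C * N ^ 3 * ε := by ring
    linarith only [h11]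
  refine (Finset.sum_le_sum key).trans ?_
  rw [Finset.sum_const, Finset.card_range, nsmul_eq_mul]

/-- The real part of the added linear coefficient is large. -/
theorem G1c_re (Z : Cfg) {T N R0 : ℕ} {p γ : ℕ → ℝ} (hN : 64 ≤ N) {g v : ℝ} (hv : v ≤ T)
    (hRv : (R0 : ℝ) ≤ v) (hp : ∀ i < T * N, (i : ℝ) / N ≤ p i ∧ p i ≤ (i + 1) / N)
    (hγ : ∀ i, R0 * N ≤ i → i < T * N →
      ‖Complex.exp (γ i * Complex.I) - Complex.exp (g * Complex.I)‖ ≤ 1 / 10) :
    1 / 2 * ∑ a ∈ Z.s.filter (fun a => (R0 : ℝ) ≤ Z.ξ a ∧ Z.ξ a < v), exp (-Z.ξ a) -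
      3 / 2 * ∑ u ∈ Finset.range T, ∑ j ∈ Finset.range N,
        exp (-(u : ℝ)) * (Z.G1c_M N p γ (u * N + j)).card ≤
      ((Z.cc v - Z.cc R0) * Complex.exp (g * Complex.I)).re := by
  classical
  have hN' : (64 : ℝ) ≤ N := by exact_mod_cast hN
  have hN0 : (0 : ℝ) < N := by linarith
  set S := Z.s.filter (fun a => (R0 : ℝ) ≤ Z.ξ a ∧ Z.ξ a < v) with hS
  set f : ℕ → ℝ := fun a => ∑ u ∈ Finset.range T, ∑ j ∈ Finset.range N,
    if a ∈ Z.G1c_M N p γ (u * N + j) then exp (-(u : ℝ)) else 0 with hf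
  have hnn : ∀ (a u j : ℕ), 0 ≤ if a ∈ Z.G1c_M N p γ (u * N + j) then exp (-(u : ℝ)) else 0 := by
    intro a u j
    split_ifs
    · exact (exp_pos _).le
    · exact le_rfl
  have hf0 : ∀ a, 0 ≤ f a := fun a =>
    Finset.sum_nonneg fun u _ => Finset.sum_nonneg fun j _ => hnn a u j
  have hsum : ∑ a ∈ S, f a ≤ ∑ u ∈ Finset.range T, ∑ j ∈ Finset.range N,
      exp (-(u : ℝ)) * (Z.G1c_M N p γ (u * N + j)).card := by
    rw [Finset.sum_comm]
    refine Finset.sum_le_sum fun u _ => ?_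
    rw [Finset.sum_comm]
    refine Finset.sum_le_sum fun j _ => ?_
    rw [← Finset.sum_filter, Finset.sum_const, nsmul_eq_mul, mul_comm]
    gcongr
    intro a ha
    exact (Finset.mem_filter.1 ha).2
  have hone : ∀ a ∈ S, 1 / 2 * exp (-Z.ξ a) - 3 / 2 * f a ≤
      (Complex.exp (-Z.ζ a) * Complex.exp (g * Complex.I)).re := by
    intro a ha
    obtain ⟨has, h1, h2⟩ := Finset.mem_filter.1 ha
    have e : (Complex.exp (-Z.ζ a) * Complex.exp (g * Complex.I)).re =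
        exp (-Z.ξ a) * cos (g - Z.η a) := by
      rw [← Complex.exp_add, ← Bf_re_exp]
      congr 2
      unfold ζ
      push_cast
      ring
    rw [e]
    have hξ0 : 0 ≤ Z.ξ a := (Nat.cast_nonneg R0).trans h1
    set i := ⌊Z.ξ a * N⌋₊ with hi
    have i1 : (i : ℝ) ≤ Z.ξ a * N := Nat.floor_le (by positivity)
    have i2 : Z.ξ a * N < i + 1 := Nat.lt_floor_add_one _
    have i3 : R0 * N ≤ i := by
      apply Nat.le_floor
      push_cast
      gcongr
    have i4 : i < T * N := by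
      have : (i : ℝ) < T * N := i1.trans_lt (by gcongr; exact h2.trans_le hv)
      exact_mod_cast this
    obtain ⟨p1, p2⟩ := hp i i4
    have hd : |Z.ξ a - p i| ≤ 1 / (N : ℝ) := by
      have q1 : (i : ℝ) / N ≤ Z.ξ a := by rwa [div_le_iff₀ hN0]
      have q2 : Z.ξ a ≤ (i + 1) / N := by rw [le_div_iff₀ hN0]; exact i2.le
      rw [add_div] at p2 q2
      rw [abs_le]
      constructor <;> linarith only [p2, q1, p1, q2]
    have hE := exp_pos (-Z.ξ a)
    by_cases hal : |rp (Z.η a - γ i)| ≤ 2 * (1 / (N : ℝ))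
    · have h32 : 2 * (1 / (N : ℝ)) ≤ 1 / 32 := by
        have : 1 / (N : ℝ) ≤ 1 / 64 := one_div_le_one_div_of_le (by norm_num) hN'
        linarith only [this]
      have := G1c_align (hal.trans h32) (hγ i i3 i4)
      linarith only [hf0, hE, this, hf0 a, mul_nonneg_of_nonpos_of_nonpos (le_of_lt (Mathlib.Tactic.Linarith.sub_neg_of_lt hE)) (Mathlib.Tactic.Linarith.sub_nonpos_of_le this)]
    · have hM : a ∈ Z.G1c_M N p γ (i / N * N + i % N) := by
        rw [Nat.div_add_mod']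
        exact Finset.mem_filter.2 ⟨has, hd, not_le.1 hal⟩
      have hu : i / N ∈ Finset.range T :=
        Finset.mem_range.2 (Nat.div_lt_of_lt_mul (by rwa [mul_comm]))
      have hj : i % N ∈ Finset.range N := Finset.mem_range.2 (Nat.mod_lt _ (by omega))
      have b1 : exp (-((i / N : ℕ) : ℝ)) ≤ f a := by
        refine le_trans ?_ (Finset.single_le_sum
          (f := fun u : ℕ => ∑ j ∈ Finset.range N,
            if a ∈ Z.G1c_M N p γ (u * N + j) then exp (-(u : ℝ)) else 0)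
          (fun u _ => Finset.sum_nonneg fun j _ => hnn a u j) hu)
        refine le_trans ?_ (Finset.single_le_sum
          (f := fun j : ℕ =>
            if a ∈ Z.G1c_M N p γ (i / N * N + j) then exp (-((i / N : ℕ) : ℝ)) else 0)
          (fun j _ => hnn a _ j) hj)
        simp only [hM, if_true]
        exact le_rfl
      have b2 : exp (-Z.ξ a) ≤ exp (-((i / N : ℕ) : ℝ)) := by
        apply exp_le_exp.2
        have q1 : (i : ℝ) / N ≤ Z.ξ a := by rwa [div_le_iff₀ hN0]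
        have q2 : ((i / N : ℕ) : ℝ) ≤ (i : ℝ) / N := Nat.cast_div_le
        linarith only [q1, q2]
      have b3 := neg_one_le_cos (g - Z.η a)
      linarith only [b1, b2, hE, b3, mul_nonneg_of_nonpos_of_nonpos (le_of_lt (Mathlib.Tactic.Linarith.sub_neg_of_lt hE)) (Mathlib.Tactic.Linarith.sub_nonpos_of_le b3)]
  rw [Z.cc_sub hRv, Finset.sum_mul, Complex.re_sum]
  refine le_trans ?_ (Finset.sum_le_sum hone)
  rw [Finset.sum_sub_distrib, ← Finset.mul_sum, ← Finset.mul_sum]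
  linarith only [hsum]

theorem G1c_up (Z : Cfg) {x γ : ℝ} (hx : Z.Reg x) (h : Z.U x γ ≤ -Z.B x) :
    (Z.cc x * Complex.exp (γ * Complex.I)).re ≤ exp (-x) * Z.om x + exp (-x) * Z.W x := by
  have h1 := Z.G1a_om hx h
  have h2 := Z.U_le le_rfl hx (γ + π)
  have h3 := Z.B_nonneg x
  have e : (Z.cc x * Complex.exp (x + ((γ + π : ℝ) : ℂ) * Complex.I)).re =
      -(exp x * (Z.cc x * Complex.exp (γ * Complex.I)).re) := by
    have : Complex.exp (x + ((γ + π : ℝ) : ℂ) * Complex.I) =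
        -(((exp x : ℝ) : ℂ) * Complex.exp (γ * Complex.I)) := by
      push_cast
      rw [add_mul, Complex.exp_add, Complex.exp_add, Complex.exp_pi_mul_I]
      ring
    rw [this, mul_neg, Complex.neg_re, mul_left_comm, Complex.re_ofReal_mul]
  rw [e, sub_self, mul_zero, exp_zero, one_mul] at h2
  have h4 : exp x * (Z.cc x * Complex.exp (γ * Complex.I)).re ≤ Z.om x + Z.W x := by linarith
  have h5 := mul_le_mul_of_nonneg_left h4 (exp_pos (-x)).le
  rw [← mul_assoc, ← exp_add, neg_add_cancel, exp_zero, one_mul, mul_add] at h5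
  exact h5

theorem growth0 {δ : ℝ} (hδ : 0 < δ) : ∃ (T : ℕ) (c0 : ℝ), 0 < c0 ∧ ∀ Z : Cfg,
    (∀ x ∈ Icc (0 : ℝ) T, Z.Min 0 x) → δ * ‖Z.cc 0‖ ≤ Z.L 0 → (1 + c0) * Z.L 0 ≤ Z.L T := by
  obtain ⟨Cw, hCw, hW⟩ := W_L
  obtain ⟨Cm, hCm, hml⟩ := mass_lower
  obtain ⟨Ci, hCi, hmis⟩ := G1c_mis
  obtain ⟨R0, hco⟩ := coherent
  set a : ℝ := 2 * exp 2 * Cw with ha
  have he2 : 1 ≤ exp (2 : ℝ) := one_le_exp (by norm_num)
  have ha1 : 1 ≤ a := by linarith only [hCw, he2, mul_nonneg_of_nonpos_of_nonpos (Mathlib.Tactic.Linarith.sub_nonpos_of_le hCw) (Mathlib.Tactic.Linarith.sub_nonpos_of_le he2)]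
  obtain ⟨T, hT⟩ := exists_nat_gt
    (1 + R0 + Cm * (Cm + 5 + 2 * (1 / δ) + 2 * a * R0 + 4 * Cw) : ℝ)
  have hQ : 0 ≤ Cm * (Cm + 5 + 2 * (1 / δ) + 2 * a * R0 + 4 * Cw) := by positivity
  have hR0 : (0 : ℝ) ≤ R0 := Nat.cast_nonneg _
  have hT1 : (1 : ℝ) ≤ T := by linarith only [hT, hQ]
  have hTR : R0 + 1 ≤ T := by
    have : ((R0 + 1 : ℕ) : ℝ) ≤ T := by push_cast; linarith only [hT, hQ]
    exact_mod_cast this
  set K : ℝ := 1 / δ + a * T with hK
  have hK1 : 1 ≤ K := by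
    have : 0 < 1 / δ := by positivity
    linarith only [hT, hQ, this, ha1, mul_nonneg_of_nonpos_of_nonpos (Mathlib.Tactic.Linarith.sub_nonpos_of_le (Mathlib.Tactic.Linarith.natCast_nonneg ℝ T)) (Mathlib.Tactic.Linarith.sub_nonpos_of_le ha1)]
  set K2 : ℝ := exp 3 * K + 2 * exp 6 * Cw with hK2
  have hK2p : 0 < K2 := by positivity
  obtain ⟨N, hN, hNρ, c1, hc1, hc11, hco⟩ := hco K (1 / (162 * Ci * T * K2)) T hK1 (by positivity)
  have hN' : (64 : ℝ) ≤ N := by exact_mod_cast hN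
  have hN0 : (0 : ℝ) < N := by linarith only [hN']
  set c0 : ℝ := min c1 (1 / (24 * Ci * T * N ^ 4)) with hc0
  have hc0p : 0 < c0 := lt_min hc1 (by positivity)
  have hc01 : c0 ≤ c1 := min_le_left _ _
  have hc02 : c0 ≤ 1 / (24 * Ci * T * N ^ 4) := min_le_right _ _
  refine ⟨T, c0, hc0p, fun Z hmin hcc => ?_⟩
  by_contra hcon
  rw [not_le] at hcon
  have hl0 : 0 < Z.L 0 := by
    rcases (Z.L_nonneg 0).eq_or_lt with h | h
    · rw [← h, mul_zero] at hcon
      exact absurd (Z.L_nonneg T) (not_le.2 hcon)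
    · exact h
  set l := Z.L 0 with hl
  have hq : ∀ x ∈ Icc (0 : ℝ) T, l ≤ Z.L x ∧ Z.L x ≤ 2 * l := by
    intro x hx
    have h1 := Z.L_mono hx.1 fun y hy => hmin y ⟨hy.1, hy.2.trans hx.2⟩
    have h2 := Z.L_mono hx.2 fun y hy => hmin y ⟨hx.1.trans hy.1, hy.2⟩
    refine ⟨h1, ?_⟩
    linarith only [hcon, h2, hc11, hl0, hc01, mul_nonneg_of_nonpos_of_nonpos (Mathlib.Tactic.Linarith.sub_nonpos_of_le hc11) (le_of_lt (Mathlib.Tactic.Linarith.sub_neg_of_lt hl0)), mul_nonneg_of_nonpos_of_nonpos (Mathlib.Tactic.Linarith.sub_nonpos_of_le hc01) (le_of_lt (Mathlib.Tactic.Linarith.sub_neg_of_lt hl0))]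
  have hWx : ∀ x ∈ Icc (0 : ℝ) T, Z.W x ≤ 2 * Cw * l * exp x := by
    intro x hx
    calc Z.W x ≤ Cw * (exp x * Z.L x) := (hW Z x).1
      _ ≤ Cw * (exp x * (2 * l)) := by gcongr; exact (hq x hx).2
      _ = 2 * Cw * l * exp x := by ring
  have hc0' : ‖Z.cc 0‖ ≤ 1 / δ * l := by
    rw [one_div, inv_mul_eq_div, le_div_iff₀ hδ]
    linarith only [hcc]
  have hccx := Z.G1c_cc (T := T) (a := a * l) (fun y hy => by
    calc exp 2 * Z.W y ≤ exp 2 * (2 * Cw * l * exp y) := by gcongr; exact hWx y hy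
      _ = a * l * exp y := by rw [ha]; ring)
  have hccK : ∀ x ∈ Icc (0 : ℝ) T, ‖Z.cc x‖ ≤ K * l := by
    intro x hx
    have := hccx T x hx hx.2
    rw [hK]
    linarith only [hc0', this]
  have hccR : ‖Z.cc R0‖ ≤ (1 / δ + a * R0) * l := by
    clear * - Z R0 a l hccx T hR0 Cm δ Cw hT hQ hc0'
    have := hccx R0 R0 ⟨hR0, by linarith only [hT, hQ]⟩ le_rfl
    linarith only [hc0', this]
  obtain ⟨p, γ, hp, hγ⟩ := hco c0 Z hc0p hc01 hl0 hmin hcon.le hccK
  have hB : ∀ u < T, Z.B (u + 3) ≤ exp u * (K2 * l) := by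
    clear * - T Z K l Cw K2 hccK hWx hK2 δ a
    intro u hu
    have hu' : (u : ℝ) ∈ Icc (0 : ℝ) T := ⟨Nat.cast_nonneg _, by exact_mod_cast hu.le⟩
    have h1 := Z.B_le (y := u) (x := u + 3) (by linarith only [])
    rw [show 2 * ((u : ℝ) + 3 - u) = 6 by ring, exp_add] at h1
    calc Z.B (u + 3) ≤ ‖Z.cc u‖ * (exp u * exp 3) + exp 6 * Z.W u := h1
      _ ≤ K * l * (exp u * exp 3) + exp 6 * (2 * Cw * l * exp u) := by
        gcongr
        · exact hccK _ hu'
        · exact hWx _ hu'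
      _ = exp u * (K2 * l) := by rw [hK2]; ring
  have hM := hmis Z T N p γ (4 * N * c0 * l) (K2 * l) hN (by positivity) hp hB
  have hM1 : (T : ℝ) * (3 * Ci * N ^ 3 * (4 * N * c0 * l) + 81 * Ci * (1 / N) * (K2 * l)) ≤ l := by
    clear * - T Ci N c0 l K2 hc02 hN hl0 hCi hNρ K Cw δ a hδ hCw hT1 hK2p
    calc (T : ℝ) * (3 * Ci * N ^ 3 * (4 * N * c0 * l) + 81 * Ci * (1 / N) * (K2 * l))
        ≤ T * (3 * Ci * N ^ 3 * (4 * N * (1 / (24 * Ci * T * N ^ 4)) * l) +
            81 * Ci * (1 / (162 * Ci * T * K2)) * (K2 * l)) := by gcongr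
      _ = l := by
        field_simp
        ring
  have hTN : R0 * N + N ≤ T * N := by
    calc R0 * N + N = (R0 + 1) * N := by ring
      _ ≤ T * N := Nat.mul_le_mul_right _ hTR
  obtain ⟨m, hm⟩ : ∃ m, m + 1 = T * N := ⟨T * N - 1, by omega⟩
  have hm1 : m < T * N := by omega
  have hm2 : R0 * N ≤ m := by omega
  obtain ⟨p1, p2, p3, p4, p5⟩ := hp m hm1
  have hmR : (m : ℝ) + 1 = T * N := by exact_mod_cast hm
  have hvT : p m ≤ T := by
    rw [hmR, mul_div_assoc, div_self hN0.ne', mul_one] at p2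
    exact p2
  have hv1 : (T : ℝ) - 1 ≤ p m := by
    refine le_trans ?_ p1
    rw [le_div_iff₀ hN0]
    linarith only [hN', hmR]
  have hRv : (R0 : ℝ) ≤ p m := by linarith only [hT, hQ, hv1]
  have hre := Z.G1c_re (T := T) (p := p) (γ := γ) hN (g := γ m) hvT hRv
    (fun i hi => ⟨(hp i hi).1, (hp i hi).2.1⟩) fun i h1 h2 => hγ i m h1 hm2 h2 hm1
  have hlow := hml Z R0 (p m) l hRv fun x hx => hq x ⟨hR0.trans hx.1, hx.2.trans hvT⟩
  have hup := Z.G1c_up p3 p4
  have hW1 : exp (-p m) * Z.W (p m) ≤ 2 * Cw * l := by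
    have := mul_le_mul_of_nonneg_left (hWx (p m) ⟨hR0.trans hRv, hvT⟩) (exp_pos (-p m)).le
    rwa [mul_comm (2 * Cw * l), ← mul_assoc (exp (-p m)), ← exp_add, neg_add_cancel, exp_zero,
      one_mul] at this
  have ho1 : 4 * N * c0 * l ≤ l := by
    clear * - N hN' Ci T hCi hT1 hN c0 hc02 c1 hc1 l hl0
    have b1 : (N : ℝ) ≤ N ^ 4 := le_self_pow₀ (le_trans (by norm_num) hN') (by norm_num)
    have b2 : (4 : ℝ) * N ≤ 24 * Ci * T * N ^ 4 := by
      calc (4 : ℝ) * N = 4 * 1 * 1 * N := by ring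
        _ ≤ 24 * Ci * T * N ^ 4 := by gcongr; norm_num
    have b3 : 4 * N * c0 ≤ 1 := by
      calc 4 * N * c0 ≤ (24 * Ci * T * N ^ 4) * (1 / (24 * Ci * T * N ^ 4)) := by gcongr
        _ = 1 := by field_simp
    exact mul_le_of_le_one_left hl0.le b3
  have hR' : -((1 / δ + a * R0) * l) ≤ (Z.cc R0 * Complex.exp (γ m * Complex.I)).re := by
    have b := Complex.abs_re_le_norm (Z.cc R0 * Complex.exp (γ m * Complex.I))
    rw [norm_mul, Complex.norm_exp_ofReal_mul_I, mul_one] at b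
    linarith only [neg_abs_le (Z.cc R0 * Complex.exp (γ m * Complex.I)).re, b, hccR]
  rw [sub_mul, Complex.sub_re] at hre
  have hfin : l * (p m - R0) / Cm ≤ (Cm + 5 + 2 * (1 / δ) + 2 * a * R0 + 4 * Cw) * l := by
    clear * - l p m R0 Cm δ a Cw Z T N γ c0 Ci K hre hlow hup hW1 ho1 hR' K2 hM hM1 p5
    linarith only [hre, hlow, hup, hW1, ho1, hR', hM, hM1, p5]
  rw [div_le_iff₀ (lt_of_lt_of_le one_pos hCm)] at hfin
  have : l * (Cm * (Cm + 5 + 2 * (1 / δ) + 2 * a * R0 + 4 * Cw)) < l * (p m - R0) :=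
    mul_lt_mul_of_pos_left (by linarith only [hT, hv1]) hl0
  linarith only [this, hfin]

theorem growth {δ : ℝ} (hδ : 0 < δ) : ∃ (T : ℕ) (c0 : ℝ), 0 < c0 ∧ ∀ (Z : Cfg) (y : ℝ),
    (∀ x ∈ Icc y (y + T), Z.Min 0 x) → δ * ‖Z.cc y‖ ≤ Z.L y → (1 + c0) * Z.L y ≤ Z.L (y + T) := by
  obtain ⟨T, c0, hc0, h⟩ := growth0 hδ
  refine ⟨T, c0, hc0, fun Z y hmin hcc => ?_⟩
  have h1 := h (Z.shift y)
    (fun x hx => (Z.shift_Min y 0 x).2 (hmin _ ⟨by linarith [hx.1], by linarith [hx.2]⟩))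
    (by
      rw [shift_cc, shift_L, zero_add, mul_left_comm]
      exact mul_le_mul_of_nonneg_left hcc (exp_pos y).le)
  rw [shift_L, shift_L, zero_add, mul_left_comm, add_comm (T : ℝ) y] at h1
  exact le_of_mul_le_mul_left h1 (exp_pos y)

end Cfg

end

end Pool.Agent.MinMod
end

-- merged part: Pool.Agent.Work.MP_f62247_an.Core
section
/-!
# The lower bound for configurations

`l j = L (a+j)`, `c j = ‖cc (a+j)‖`, `b j = e^(-(a+j)) B (a+j)`; `w = e^(1/24)`; `calm_final`, `growth` (`choose`), `L_mono`, `norm_cc_step`, `W_L`, `B_le`, `B_ge` (`t = 1`);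
take one constant `C` larger than all (the inequality `M` is monotone in `C`).
-/

open Real MeasureTheory Set Filter Topology

namespace Pool.Agent.MinMod

noncomputable section

theorem Core_mono {C C' l η ε S R T : ℝ} (h1 : 1 ≤ C) (h2 : C ≤ C') (hl : 0 ≤ l) (hη : 0 ≤ η)
    (hε : 0 ≤ ε) (hS : 0 ≤ S) (hR : 0 ≤ R) (hT : 0 ≤ T) {m : ℝ} (hm : 0 ≤ m)
    (h : l / C + (η / C - C * ε) * S ≤ C * R + C * m * T) :
    l / C' + (η / C' - C' * ε) * S ≤ C' * R + C' * m * T := by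
  have h0 : 0 < C := by linarith only [h1]
  calc l / C' + (η / C' - C' * ε) * S ≤ l / C + (η / C - C * ε) * S := by gcongr
    _ ≤ C * R + C * m * T := h
    _ ≤ C' * R + C' * m * T := by gcongr

namespace Cfg

theorem core : ∃ c e0 : ℝ, 0 < c ∧ 0 < e0 ∧ ∀ e η : ℝ, 0 < e → e ≤ e0 → exp (-c / e ^ 2) ≤ η →
    η ≤ 1 →
    ∃ κ κ' A : ℝ, 0 < κ ∧ 0 < κ' ∧ 0 < A ∧ ∀ (Z : Cfg) (a : ℝ) (N : ℕ),
      (∀ x ∈ Icc a (a + N), Z.Min η x) → 0 < Z.B a →
      (∀ j ≤ N, Z.B a * exp ((1 + e - κ') * j) ≤ Z.B (a + j)) →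
      A * Z.B a * exp ((1 + e + κ) * N) ≤ Z.B (a + N) + Z.W (a + N) := by
  obtain ⟨C1, c0, μ0, hC1, hc0, hμ0, H1⟩ := calm_final
  obtain ⟨C2, hC2, H2⟩ := W_L
  obtain ⟨C3, hC3, H3⟩ := B_ge
  choose! Tf cf hcf H4 using fun δ (hδ : 0 < δ) => growth hδ
  have k1 : 1 ≤ C2 * C3 := one_le_mul_of_one_le_of_one_le hC2 hC3
  have k2 : C2 ≤ C2 * C3 := le_mul_of_one_le_right (by linarith) hC3
  have k3 : 0 ≤ exp 2 * C2 := by positivity
  obtain ⟨C, a1, a2, a3⟩ : ∃ C, C1 ≤ C ∧ 2 * (C2 * C3) ≤ C ∧ exp 2 * C2 ≤ C :=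
    ⟨C1 + 2 * (C2 * C3) + exp 2 * C2, by linarith, by linarith, by linarith⟩
  have H5 : ∀ (Z : Cfg) (x : ℝ), ‖Z.cc x‖ * exp x ≤ 2 * Z.B x + 2 * C3 * Z.W x := by
    intro Z x
    have h1 := H3 Z 1 x x one_pos le_rfl le_rfl (by linarith)
    have h2 := one_sub_sq_div_two_le_cos (x := 1)
    have h3 : 0 ≤ ‖Z.cc x‖ * exp x := by positivity
    rw [div_one] at h1
    linarith only [h1, h2, h3, mul_le_mul_of_nonneg_right h2 h3]
  obtain ⟨w0, hw0, H⟩ := seq_main (hC1.trans a1) hc0 hμ0 Tf cf hcf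
  refine ⟨c0 / 2, w0 ^ 24, by positivity, by positivity, fun e η he he0 hη hη1 => ?_⟩
  have hw : (e ^ ((24 : ℕ) : ℝ)⁻¹) ^ 24 = e := rpow_inv_natCast_pow he.le (by norm_num)
  have hw' : 0 < e ^ ((24 : ℕ) : ℝ)⁻¹ := rpow_pos_of_pos he _
  obtain ⟨κ, κ', A, hκ, hκ', hA, H6⟩ := H _ η hw'
    (le_of_pow_le_pow_left₀ (n := 24) (by norm_num) hw0.le (by rwa [hw])) (by rwa [hw])
  rw [hw] at H6
  have hη0 : 0 ≤ η := (exp_pos _).le.trans hη
  have hD : 0 < C2 + 2 * C3 + 2 := by positivity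
  refine ⟨κ, κ', A / (C2 + 2 * C3 + 2), hκ, hκ', div_pos hA hD, fun Z a N hM hB hg => ?_⟩
  have hM0 : ∀ (i j : ℕ) (η' : ℝ), η' ≤ η → i + j ≤ N → ∀ x ∈ Icc (a + i) (a + i + j),
      Z.Min η' x := by
    intro i j η' h1 h2 x hx
    have h3 : (i : ℝ) + j ≤ N := by exact_mod_cast h2
    exact (hM x ⟨by linarith only [hx, hx.1, i.cast_nonneg (α := ℝ)], by linarith only [h3, hx, hx.2]⟩).mono h1
  have h := H6 N (fun j => Z.L (a + j)) (fun j => ‖Z.cc (a + j)‖)
    (fun j => exp (-(a + j)) * Z.B (a + j))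
    ⟨fun j => Z.L_nonneg _, fun j => norm_nonneg _, fun i j hij hj => ?_, fun j => ?_,
      fun μ h1 h2 j n h3 h4 h5 => ?_⟩ (fun δ hδ j h1 h2 => ?_) (fun j => ?_) ?_ fun j hj => ?_
  · simp only [Nat.cast_zero, add_zero] at h
    have h1 := H5 Z (a + N)
    have h2 := (H2 Z (a + N)).2
    have h3 := Z.W_nonneg (a + N)
    have h4 := Z.B_nonneg (a + N)
    have h5 := mul_le_mul_of_nonneg_left h (exp_pos (a + N)).le
    have e1 : exp (a + N) * (A * (exp (-a) * Z.B a) * exp ((e + κ) * N)) =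
        A * Z.B a * exp ((1 + e + κ) * N) := by
      rw [show (1 + e + κ) * N = (a + N) + -a + (e + κ) * N by ring, exp_add (a + N + -a),
        exp_add (a + N)]
      ring
    rw [e1] at h5
    rw [div_mul_eq_mul_div, div_mul_eq_mul_div, div_le_iff₀ hD]
    linarith only [h1, h2, h3, h5, h4, hC2, hC3, mul_nonneg h4 (by linarith : 0 ≤ C2 + 2 * C3)]
  · obtain ⟨k, rfl⟩ := Nat.exists_eq_add_of_le hij
    rw [Nat.cast_add, ← add_assoc]
    exact Z.L_mono (le_add_of_nonneg_right k.cast_nonneg) (hM0 i k 0 hη0 hj)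
  · have h1 := Z.norm_cc_step (y := a + j) (y' := a + (j + 1 : ℕ)) (by push_cast; linarith only [])
      (by push_cast; linarith only [])
    have h2 := mul_le_mul_of_nonneg_left (H2 Z (a + j)).1 (exp_pos 2).le
    have h3 := mul_le_mul_of_nonneg_right a3
      (mul_nonneg (exp_pos (a + j)).le (Z.L_nonneg (a + j)))
    refine (abs_norm_sub_norm_le _ _).trans (le_of_mul_le_mul_right ?_ (exp_pos (a + j)))
    linarith only [h1, h2, h3]
  · simp only [Nat.cast_add, ← add_assoc] at h5 ⊢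
    refine Core_mono hC1 a1 (Z.L_nonneg _) hη0 (exp_pos _).le
      (Finset.sum_nonneg fun _ _ => mul_nonneg (norm_nonneg _) (exp_pos _).le) ?_ (norm_nonneg _)
      (by positivity) (H1 Z μ η (a + j) n h1 h2 hη0 hη1 h4 h5 (hM0 j n η le_rfl h3))
    have := Z.L_nonneg (a + j + n)
    positivity
  · simp only [Nat.cast_add, ← add_assoc]
    exact H4 δ hδ Z (a + j) (hM0 j _ 0 hη0 h1) h2
  · have h1 := H5 Z (a + j)
    have h2 := (H2 Z (a + j)).1
    have h3 := Z.B_le (le_refl (a + j))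
    have h4 := Z.B_nonneg (a + j)
    have h5 := Z.L_nonneg (a + j)
    have h6 := norm_nonneg (Z.cc (a + j))
    have h7 := exp_pos (a + j)
    rw [sub_self, mul_zero, exp_zero, one_mul] at h3
    rw [exp_neg]
    generalize exp (a + j) = E at *
    generalize Z.B (a + j) = b at *
    generalize Z.L (a + j) = l at *
    generalize ‖Z.cc (a + j)‖ = c at *
    have h8 := mul_nonneg h7.le h5
    have h9 := mul_nonneg h7.le h6
    constructor
    · rw [inv_mul_le_iff₀ h7]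
      clear * - b E C c l Z a j C2 h2 h3 C3 k1 k2 a2 h8 h9; linarith only [h2, h3, k1, k2, a2, h8, h9, mul_le_mul_of_nonneg_right (by linarith : C2 ≤ C) h8,
        mul_le_mul_of_nonneg_right (by linarith : 1 ≤ C) h9]
    · refine le_of_mul_le_mul_right ?_ h7
      have e1 : C * (E⁻¹ * b + l) * E = C * b + C * (E * l) := by clear * - C E b l h7; field_simp
      rw [e1]
      clear * - c E C b l C3 Z a j C2 h1 a2 h8 k1 h4 h2 hC3; linarith only [h1, a2, h8, k1, h4, h2, hC3, mul_le_mul_of_nonneg_right a2 h8,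
        mul_le_mul_of_nonneg_right (by linarith : 2 ≤ C) h4,
        mul_le_mul_of_nonneg_left h2 (by linarith : 0 ≤ 2 * C3)]
  · simp only [Nat.cast_zero, add_zero]
    positivity
  · simp only [Nat.cast_zero, add_zero]
    refine le_trans (le_of_eq ?_) (mul_le_mul_of_nonneg_left (hg j hj) (exp_pos _).le)
    rw [mul_right_comm, ← exp_add, mul_left_comm, ← exp_add, mul_comm]
    congr 2
    ring

end Cfg

end

end Pool.Agent.MinMod
end

-- merged part: Pool.Agent.Work.MP_f62247_an.FinB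
section
/-!
# The lower bound

Suppose `limsup < -1 - η0`, `η0 = exp (-(c/2)/e²)`; then eventually `modRatio ≤ -1 - η0` (`eventually_lt_of_limsup_lt`).  `core` with `η = η0/2 ≥ exp (-c/e²)`.
`σ = min κ κ' / 4`, `red_f`.  `N0 = ⌊x1 - x0⌋₊`; let `i ≤ N0` minimise `log B (x0+j) - (lam - κ') j`; then `(κ' - σ) i ≤ log C0 - (lam-σ) x0`, so `i ≤ I0` independent of
`X`.  `core` with `a = x0 + i`, `N = N0 - i`: `A exp ((lam+κ)(x1 - x0 - 1 - I0)) ≤ B x1 + W x1 ≤ exp ((lam+σ) x1)` (`B_mono`, `W_mono`, `B a ≥ 1`), false for large `X`.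
-/

open Real MeasureTheory Set Filter Topology

namespace Pool.Agent.MinMod

noncomputable section

theorem FinB_min (Z : Cfg) (x0 r : ℝ) (N0 : ℕ) : ∃ i ≤ N0,
    Z.B (x0 + i) ≤ Z.B x0 * exp (r * i) ∧
      ∀ j ≤ N0 - i, Z.B (x0 + i) * exp (r * j) ≤ Z.B (x0 + i + j) := by
  obtain ⟨i, hi, H⟩ := Finset.exists_min_image (Finset.range (N0 + 1))
    (fun j : ℕ => Z.B (x0 + j) * exp (-r * j)) ⟨0, by simp⟩
  have hi' : i ≤ N0 := Nat.lt_succ_iff.1 (Finset.mem_range.1 hi)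
  refine ⟨i, hi', ?_, fun j hj => ?_⟩
  · have h1 := mul_le_mul_of_nonneg_right (H 0 (by simp)) (exp_pos (r * i)).le
    rw [mul_assoc, ← exp_add] at h1
    simpa using h1
  · have h1 := mul_le_mul_of_nonneg_right (H (i + j) (Finset.mem_range.2 (by omega)))
      (exp_pos (r * (i + j))).le
    rw [mul_assoc, mul_assoc, ← exp_add, ← exp_add] at h1
    push_cast at h1
    rw [show -r * (i : ℝ) + r * (i + j) = r * j by ring,
      show -r * ((i : ℝ) + j) + r * (i + j) = 0 by ring, exp_zero, mul_one, ← add_assoc] at h1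
    exact h1

theorem lower_bound : ∃ c δ : ℝ, 0 < c ∧ 0 < δ ∧ ∀ e : ℝ, 0 < e → e < δ → ∀ f : ℂ → ℂ,
    Differentiable ℂ f → lowerOrder f = ((1 + e : ℝ) : EReal) →
    ((-1 - exp (-c / e ^ 2) : ℝ) : EReal) ≤ limsup (modRatio f) atTop := by
  obtain ⟨c, e0, hc, he0, H⟩ := Cfg.core
  refine ⟨c / 2, min e0 (min (1 / 10) (c / 2)), by positivity, by positivity, ?_⟩
  intro e he hlt f hf ho
  have m1 : e ≤ e0 := hlt.le.trans (min_le_left _ _)
  have m2 : e ≤ 1 / 10 := hlt.le.trans ((min_le_right _ _).trans (min_le_left _ _))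
  have m3 : e ≤ c / 2 := hlt.le.trans ((min_le_right _ _).trans (min_le_right _ _))
  by_contra hcon
  have hev : ∀ᶠ r in atTop, modRatio f r ≤ ((-1 - exp (-(c / 2) / e ^ 2) : ℝ) : EReal) :=
    (eventually_lt_of_limsup_lt (not_le.1 hcon)).mono fun r hr => hr.le
  have q1 : 1 ≤ c / 2 / e ^ 2 := by
    rw [le_div_iff₀ (by positivity)]
    linarith only [m3, hc, he, m2, mul_pos_of_neg_of_neg (Mathlib.Tactic.Linarith.sub_neg_of_lt hc) (Mathlib.Tactic.Linarith.sub_neg_of_lt he), mul_nonneg_of_nonpos_of_nonpos (le_of_lt (Mathlib.Tactic.Linarith.sub_neg_of_lt hc)) (Mathlib.Tactic.Linarith.sub_nonpos_of_le m2), mul_nonneg_of_nonpos_of_nonpos (le_of_lt (Mathlib.Tactic.Linarith.sub_neg_of_lt he)) (Mathlib.Tactic.Linarith.sub_nonpos_of_le m2)]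
  have q2 : exp (-(c / 2) / e ^ 2) ≤ 1 / 2 := by
    rw [neg_div, exp_neg, one_div]
    exact inv_anti₀ (by norm_num) (by linarith only [q1, add_one_le_exp (c / 2 / e ^ 2)])
  have q0 := exp_pos (-(c / 2) / e ^ 2)
  have q3 : exp (-c / e ^ 2) ≤ exp (-(c / 2) / e ^ 2) / 2 := by
    rw [show -c / e ^ 2 = -(c / 2) / e ^ 2 + -(c / 2) / e ^ 2 by ring, exp_add]
    (refine le_of_not_gt fun h_nl => ?_; linarith only [h_nl, he, m2, q2, q0, mul_pos_of_neg_of_neg (Mathlib.Tactic.Linarith.sub_neg_of_lt he) (Mathlib.Tactic.Linarith.sub_neg_of_lt h_nl), mul_nonneg_of_nonpos_of_nonpos (Mathlib.Tactic.Linarith.sub_nonpos_of_le m2) (le_of_lt (Mathlib.Tactic.Linarith.sub_neg_of_lt h_nl)), mul_nonneg_of_nonpos_of_nonpos (Mathlib.Tactic.Linarith.sub_nonpos_of_le q2) (le_of_lt (Mathlib.Tactic.Linarith.sub_neg_of_lt q0))])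
  obtain ⟨κ, κ', A, hκ, hκ', hA, H1⟩ := H e _ he m1 q3 (by linarith only [he, m2, q2])
  have s0 : 0 < min (min κ κ') 1 / 2 := by positivity
  have s1 : min (min κ κ') 1 / 2 ≤ κ / 2 := by
    linarith only [(min_le_left (min κ κ') 1).trans (min_le_left κ κ')]
  have s2 : min (min κ κ') 1 / 2 ≤ κ' / 2 := by
    linarith only [(min_le_left (min κ κ') 1).trans (min_le_right κ κ')]
  have s3 : min (min κ κ') 1 / 2 ≤ 1 / 2 := by linarith only [min_le_right (min κ κ') 1]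
  set σ := min (min κ κ') 1 / 2
  obtain ⟨x0, C0, hx0, H2⟩ := red_f hf (lam := 1 + e) (by linarith only [he]) (by linarith only [m2]) ho q0
    (by linarith only [he, m2, q2]) hev s0
  set D := x0 + 1 + 2 * C0 / κ' with hD
  obtain ⟨Z, x1, hX, h1, h2, h3⟩ := H2 (max x0 (2 * exp ((1 + e + κ) * D) / (A * κ)))
  have X1 : x0 ≤ x1 := (le_max_left _ _).trans hX
  have X2 : 2 * exp ((1 + e + κ) * D) ≤ x1 * (A * κ) :=
    (div_le_iff₀ (by positivity)).1 ((le_max_right _ _).trans hX)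
  have n1 : (⌊x1 - x0⌋₊ : ℝ) ≤ x1 - x0 := Nat.floor_le (by linarith only [X1])
  have n2 := Nat.lt_floor_add_one (x1 - x0)
  obtain ⟨i, hi, i1, i2⟩ := FinB_min Z x0 (1 + e - κ') ⌊x1 - x0⌋₊
  have i0 : (0 : ℝ) ≤ i := Nat.cast_nonneg i
  have i3 : (i : ℝ) ≤ ⌊x1 - x0⌋₊ := Nat.cast_le.2 hi
  have i4 : ((⌊x1 - x0⌋₊ - i : ℕ) : ℝ) = ⌊x1 - x0⌋₊ - i := Nat.cast_sub hi
  have b1 := (h1 (x0 + i) ⟨by linarith only [], by linarith only [n1, i3]⟩).2
  have b2 : 1 ≤ Z.B (x0 + i) :=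
    (one_le_exp (mul_nonneg (by linarith only [he, m2, s3]) (by linarith only [hx0]))).trans b1
  have b3 : (i : ℝ) ≤ 2 * C0 / κ' := by
    have b4 : exp (κ' / 2 * i) * exp ((1 + e - κ') * i) ≤ C0 * exp ((1 + e - κ') * i) := by
      refine le_trans ?_ (b1.trans (i1.trans (mul_le_mul_of_nonneg_right h2 (exp_pos _).le)))
      rw [← exp_add]
      refine exp_le_exp.2 ?_
      linarith only [s2, i0, he, m2, s3, hx0, mul_le_mul_of_nonneg_right s2 i0, mul_nonneg (show 0 ≤ 1 + e - σ by linarith) hx0]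
    have b5 := le_of_mul_le_mul_right b4 (exp_pos _)
    rw [le_div_iff₀ hκ']
    linarith only [he, m2, b5, add_one_le_exp (κ' / 2 * i)]
  have c1 := H1 Z (x0 + i) (⌊x1 - x0⌋₊ - i)
    (fun x hx => (h1 x ⟨by linarith only [hx, hx.1], by linarith only [n1, i4, hx, hx.2]⟩).1) (by linarith only [he, m2, b2]) i2
  have c2 : x0 + i + ((⌊x1 - x0⌋₊ - i : ℕ) : ℝ) ≤ x1 := by linarith only [n1, i4]
  have c3 := Z.B_mono c2
  have c4 := Z.W_mono c2
  have c5 : exp ((1 + e + κ) * (x1 - D)) ≤ exp ((1 + e + κ) * ((⌊x1 - x0⌋₊ - i : ℕ) : ℝ)) :=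
    exp_le_exp.2 (mul_le_mul_of_nonneg_left (by linarith only [n2, i4, b3]) (by linarith only [he, m2, s0, s1]))
  have c6 : A * 1 * exp ((1 + e + κ) * (x1 - D)) ≤ exp ((1 + e + σ) * x1) := by
    refine le_trans ?_ (c1.trans ((add_le_add c3 c4).trans h3))
    exact mul_le_mul (mul_le_mul_of_nonneg_left b2 hA.le) c5 (exp_pos _).le (by positivity)
  have c7 : A * exp (κ / 2 * x1) * exp ((1 + e + σ) * x1) ≤
      exp ((1 + e + κ) * D) * exp ((1 + e + σ) * x1) := by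
    refine le_trans ?_ (mul_le_mul_of_nonneg_left c6 (exp_pos _).le)
    rw [mul_one, mul_left_comm, mul_assoc, ← exp_add, ← exp_add]
    refine mul_le_mul_of_nonneg_left (exp_le_exp.2 ?_) hA.le
    linarith only [s1, hx0, X1, mul_le_mul_of_nonneg_right s1 (hx0.trans X1)]
  have c8 := le_of_mul_le_mul_right c7 (exp_pos _)
  linarith only [hA, X2, c8, mul_le_mul_of_nonneg_left (add_one_le_exp (κ / 2 * x1)) hA.le]

end

end Pool.Agent.MinMod
end
end
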