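import Pool.Agent.Work.MP_f62247_an.SL
import Pool.Agent.Work.MP_f62247_an.FinA

-- merged part: Pool.Agent.Work.MP_f62247_an.BHole
section
-- merged part: Pool.Agent.Work.MP_f62247_an.BProd
section
/-!
# Canonical products of genus one; many zeros force growth

`exists_prod`: `f w = ∏' k, ((1 - w/a k) exp (w/a k))^(n k)`; `‖(1-u) e^u - 1‖ ≤ ‖u‖²` for `‖u‖ ≤ 1` (or any constant), locally uniform convergence
(`Summable.hasProdLocallyUniformlyOn_nat_one_add`, `hasProdUniformlyOn...`, or `exp` of a uniformly convergent series of logarithms for the tail); the bound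
passes to the limit of the finite products.
`growth_of_zeros`: Jensen (`AnalyticOnNhd.sum_divisor_le`, or divide out the zeros: `g = f / ∏ (1 - w/a)` is entire (`dslope`), `1 = ‖g 0‖ ≤ max_{‖w‖ = 3r} ‖g‖ ≤ M / 2^n`).
-/

open Real MeasureTheory Set Filter Topology

namespace Pool.Agent.MinMod

noncomputable section

theorem BProd_one {u : ℂ} (h : ‖u‖ ≤ 1) : ‖(1 - u) * Complex.exp u - 1‖ ≤ 3 * ‖u‖ ^ 2 := by
  have e : (1 - u) * Complex.exp u - 1 = (Complex.exp u - 1 - u) - u * (Complex.exp u - 1) := by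
    ring
  rw [e]
  refine (norm_sub_le _ _).trans ?_
  rw [norm_mul]
  linarith only [h, Complex.norm_exp_sub_one_sub_id_le h,
    mul_le_mul_of_nonneg_left (Complex.norm_exp_sub_one_le h) (norm_nonneg u)]

theorem BProd_pow {x : ℂ} {n : ℕ} (h : n * ‖x - 1‖ ≤ 1) : ‖x ^ n - 1‖ ≤ 2 * (n * ‖x - 1‖) := by
  have h1 := Finset.norm_prod_one_add_sub_one_le (Finset.range n) fun _ => x - 1
  rw [add_sub_cancel, Finset.prod_const, Finset.sum_const, Finset.card_range, nsmul_eq_mul] at h1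
  have h0 : 0 ≤ n * ‖x - 1‖ := by positivity
  have h2 := Real.abs_exp_sub_one_le (x := n * ‖x - 1‖) (by rwa [abs_of_nonneg h0])
  rw [abs_of_nonneg h0] at h2
  exact h1.trans ((le_abs_self _).trans h2)

theorem BProd_bound {a w : ℂ} {n : ℕ} {R : ℝ} (hw : ‖w‖ ≤ R)
    (h : 3 * R ^ 2 * (n / ‖a‖ ^ 2) ≤ 1) :
    ‖((1 - w / a) * Complex.exp (w / a)) ^ n - 1‖ ≤ 6 * R ^ 2 * (n / ‖a‖ ^ 2) := by
  rcases Nat.eq_zero_or_pos n with rfl | hn
  · simp
  have h1 : (1 : ℝ) ≤ n := by exact_mod_cast hn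
  have h2 : n * ‖w / a‖ ^ 2 ≤ R ^ 2 * (n / ‖a‖ ^ 2) := by
    rw [norm_div, div_pow, mul_div_left_comm, mul_div_assoc', mul_div_assoc', mul_comm]
    rw [mul_comm (n : ℝ)]
    gcongr
  have h3 : ‖w / a‖ ≤ 1 := by
    refine abs_le_of_sq_le_sq' ?_ zero_le_one |>.2
    linarith only [h, h2, h1, sq_nonneg ‖w / a‖, mul_nonneg_of_nonpos_of_nonpos (Mathlib.Tactic.Linarith.sub_nonpos_of_le (sq_nonneg ((1 : ℝ) * ‖w / a‖))) (Mathlib.Tactic.Linarith.sub_nonpos_of_le h1)]
  have h4 := mul_le_mul_of_nonneg_left (BProd_one h3) (zero_le_one.trans h1)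
  exact (BProd_pow (by linarith only [h, h2, h4])).trans (by linarith only [h2, h4])

theorem BProd_loc (a : ℕ → ℂ) (n : ℕ → ℕ) (hs : Summable fun k => (n k : ℝ) / ‖a k‖ ^ 2) (R : ℝ) :
    HasProdLocallyUniformlyOn (fun k w => ((1 - w / a k) * Complex.exp (w / a k)) ^ n k)
      (fun w => ∏' k, ((1 - w / a k) * Complex.exp (w / a k)) ^ n k) (Metric.ball 0 R) := by
  have h := (hs.mul_left (6 * R ^ 2)).hasProdLocallyUniformlyOn_nat_one_add
    (f := fun k (w : ℂ) => ((1 - w / a k) * Complex.exp (w / a k)) ^ n k - 1)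
    (K := Metric.ball 0 R) Metric.isOpen_ball ?_ fun k => by fun_prop
  · simpa only [add_sub_cancel] using h
  · filter_upwards [(hs.mul_left (3 * R ^ 2)).tendsto_atTop_zero.eventually_le_const one_pos]
      with k hk w hw
    exact BProd_bound (mem_ball_zero_iff.1 hw).le hk

theorem BProd_ind {r : ℝ} (hr : 0 < r) (A : Finset ℂ) : ∀ f : ℂ → ℂ, Differentiable ℂ f →
    (∀ a ∈ A, f a = 0 ∧ ‖a‖ ≤ r) → ∃ z : ℂ, ‖z‖ = 3 * r ∧ 2 ^ A.card * ‖f 0‖ ≤ ‖f z‖ := by
  classical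
  induction A using Finset.induction_on with
  | empty =>
    intro f hf _
    have h3 : 0 < 3 * r := by positivity
    obtain ⟨z, hz, h⟩ := Complex.exists_mem_frontier_isMaxOn_norm (f := f) (U := Metric.ball 0 (3 * r))
      Metric.isBounded_ball ⟨0, Metric.mem_ball_self h3⟩ hf.diffContOnCl
    rw [frontier_ball _ h3.ne', mem_sphere_zero_iff_norm] at hz
    exact ⟨z, hz, by simpa using h (subset_closure (Metric.mem_ball_self h3))⟩
  | insert a A ha ih =>
    intro f hf h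
    obtain ⟨h1, h2⟩ := h a (Finset.mem_insert_self a A)
    have e : ∀ w, f w = (w - a) * dslope f a w := fun w => by
      rw [← smul_eq_mul, sub_smul_dslope, h1, sub_zero]
    obtain ⟨z, hz, h3⟩ := ih (dslope f a) (differentiableOn_univ.1
      ((Complex.differentiableOn_dslope univ_mem).2 hf.differentiableOn)) fun b hb => by
        obtain ⟨h3, h4⟩ := h b (Finset.mem_insert_of_mem hb)
        rw [e] at h3
        exact ⟨(mul_eq_zero.1 h3).resolve_left (sub_ne_zero.2 fun h5 => ha (h5 ▸ hb)), h4⟩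
    refine ⟨z, hz, ?_⟩
    have h4 : 2 * r ≤ ‖z - a‖ := by linarith only [h2, hz, norm_sub_norm_le z a]
    rw [Finset.card_insert_of_notMem ha, e 0, e z, norm_mul, norm_mul, zero_sub, norm_neg, pow_succ]
    calc 2 ^ A.card * 2 * (‖a‖ * ‖dslope f a 0‖)
        = 2 * ‖a‖ * (2 ^ A.card * ‖dslope f a 0‖) := by ring
      _ ≤ ‖z - a‖ * ‖dslope f a z‖ :=
        mul_le_mul (by linarith only [h2, h4]) h3 (by positivity) (norm_nonneg _)

theorem exists_prod (a : ℕ → ℂ) (n : ℕ → ℕ) (ha : ∀ k, a k ≠ 0)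
    (hs : Summable fun k => (n k : ℝ) / ‖a k‖ ^ 2) : ∃ f : ℂ → ℂ, Differentiable ℂ f ∧ f 0 = 1 ∧
      (∀ k, n k ≠ 0 → f (a k) = 0) ∧ ∀ (w : ℂ) (g : ℕ → ℝ), Summable g →
        (∀ k, ‖(1 - w / a k) * Complex.exp (w / a k)‖ ^ n k ≤ exp (g k)) →
        ‖f w‖ ≤ exp (∑' k, g k) := by
  have hb : ∀ w : ℂ, w ∈ Metric.ball (0 : ℂ) (‖w‖ + 1) := fun w =>
    mem_ball_zero_iff.2 (lt_add_one _)
  refine ⟨fun w => ∏' k, ((1 - w / a k) * Complex.exp (w / a k)) ^ n k, fun w => ?_, by simp,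
    fun k hk => ?_, fun w g hg h => ?_⟩
  · refine ((BProd_loc a n hs (‖w‖ + 1)).differentiableOn (Eventually.of_forall fun s => ?_)
      Metric.isOpen_ball).differentiableAt (Metric.isOpen_ball.mem_nhds (hb w))
    fun_prop
  · exact tprod_of_exists_eq_zero ⟨k, by rw [div_self (ha k), sub_self, zero_mul, zero_pow hk]⟩
  · refine le_of_tendsto_of_tendsto' ((BProd_loc a n hs _).hasProd (hb w)).norm
      ((continuous_exp.tendsto _).comp hg.hasSum) fun s => ?_
    simp only [Function.comp_apply, norm_prod, norm_pow, exp_sum]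
    exact Finset.prod_le_prod (fun k _ => by positivity) fun k _ => h k

theorem norm_factor (x θ ξ η : ℝ) (h : Complex.exp ((x - ξ : ℝ) + (θ - η : ℝ) * Complex.I) ≠ 1) :
    ‖(1 - Complex.exp (x + θ * Complex.I) / Complex.exp (ξ + η * Complex.I)) *
      Complex.exp (Complex.exp (x + θ * Complex.I) / Complex.exp (ξ + η * Complex.I))‖ =
      exp (nk (x - ξ) (θ - η)) := by
  have e : Complex.exp (x + θ * Complex.I) / Complex.exp (ξ + η * Complex.I) =
      Complex.exp ((x - ξ : ℝ) + (θ - η : ℝ) * Complex.I) := by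
    rw [← Complex.exp_sub]
    congr 1
    push_cast
    ring
  rw [e, nk, lg, exp_add, exp_log (norm_pos_iff.2 (sub_ne_zero.2 h.symm)), norm_mul,
    Complex.norm_exp, Complex.exp_re]
  simp

theorem growth_of_zeros {f : ℂ → ℂ} (hf : Differentiable ℂ f) (h0 : f 0 = 1) {r : ℝ} (hr : 0 < r)
    (A : Finset ℂ) (hA : ∀ a ∈ A, f a = 0 ∧ ‖a‖ ≤ r) :
    ∃ z : ℂ, ‖z‖ = 3 * r ∧ exp (A.card * Real.log 2) ≤ ‖f z‖ := by
  obtain ⟨z, hz, h⟩ := BProd_ind hr A f hf hA
  refine ⟨z, hz, ?_⟩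
  rwa [exp_nat_mul, exp_log two_pos, ← mul_one (2 ^ A.card), ← norm_one (α := ℂ), ← h0]

end

end Pool.Agent.MinMod
end

-- merged part: Pool.Agent.Work.MP_f62247_an.BAtom
section
/-!
# Replacing a density on a ray by zeros

`N t = ∫_0^t ν` is continuous, strictly increasing, unbounded; `τ k` solves `N (τ k) = k`, `τ 0 = 0`; zeros `exp (τ (k+1) + iα)`;
`k ≤ C1 e^(lam τ k)` gives `∑ e^(-2 τ k) < ∞`.  Truncated kernel `nkr s φ = log (max ‖1 - e^(s+iφ)‖ ρ) + e^s cos φ`: the factor has norm `≤ exp (nkr ..)`, and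
`|nkr s φ - nkr s' φ| ≤ (1 + 1/ρ) |e^s - e^s'|`.  So `nkr (x - τ (k+1)) ≤ ∫_{τ k}^{τ (k+1)} nkr (x-t) ν t dt + (1+1/ρ)(e^(x-τ k) - e^(x-τ (k+1))) =: g k` (mass one), which is summable
(`nkr = nk` for `e^s ≤ 1/2`; `hasSum_integral_iUnion` or `intervalIntegral_tendsto_integral_Ioi`), telescope.  Finally `0 ≤ nkr - nk ≤ (log ρ - log |1 - e^s|)₊ ≤ (log (2ρ/|s|))₊` a.e., supported in
`|s| ≤ 2ρ ≤ 1`, with integral `4ρ`.
-/

open Real MeasureTheory Set Filter Topology

namespace Pool.Agent.MinMod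

noncomputable section

theorem BAtom_tau {ν : ℝ → ℝ} (hν : Continuous ν) {c : ℝ} (hc : 0 < c) (hlow : ∀ t, 0 ≤ t → c ≤ ν t) :
    ∃ τ : ℕ → ℝ, τ 0 = 0 ∧ StrictMono τ ∧ Tendsto τ atTop atTop ∧
      (∀ k, ∫ t in τ k..τ (k + 1), ν t = 1) ∧
      ∀ x, 0 ≤ x → ∀ k : ℕ, (k : ℝ) ≤ ∫ t in (0 : ℝ)..x, ν t → τ k ≤ x := by
  have hi : ∀ a b, IntervalIntegrable ν volume a b := fun a b => hν.intervalIntegrable a b
  set N : ℝ → ℝ := fun x => ∫ t in (0 : ℝ)..x, ν t with hN
  have hNc : Continuous N := intervalIntegral.continuous_primitive hi 0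
  have hsub : ∀ a b, N b - N a = ∫ t in a..b, ν t := fun a b =>
    intervalIntegral.integral_interval_sub_left (hi 0 b) (hi 0 a)
  have hN0 : N 0 = 0 := by simp [hN]
  have hmono : ∀ a b, 0 ≤ a → a < b → N a < N b := by
    intro a b ha hab
    have := intervalIntegral.intervalIntegral_pos_of_pos_on (hi a b)
      (fun x hx => hc.trans_le (hlow x (ha.trans hx.1.le))) hab
    linarith only [this, hsub, hsub a b]
  have hex : ∀ k : ℕ, ∃ t, 0 ≤ t ∧ N t = k := by
    intro k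
    have hT : 0 ≤ (k : ℝ) / c := by positivity
    have h1 : (k : ℝ) ≤ N (k / c) := by
      have := intervalIntegral.integral_mono_on hT (f := fun _ => c) intervalIntegrable_const
        (hi 0 (k / c)) (fun x hx => hlow x hx.1)
      rw [intervalIntegral.integral_const, sub_zero, smul_eq_mul, div_mul_cancel₀ _ hc.ne'] at this
      exact this
    obtain ⟨t, ht, h⟩ := intermediate_value_Icc hT hNc.continuousOn
      (show (k : ℝ) ∈ Icc (N 0) (N (k / c)) from ⟨by rw [hN0]; positivity, h1⟩)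
    exact ⟨t, ht.1, h⟩
  choose τ h0 hτ using hex
  have hle : ∀ x, 0 ≤ x → ∀ k : ℕ, (k : ℝ) ≤ N x → τ k ≤ x := by
    intro x hx k hk
    by_contra hn
    have := hmono x (τ k) hx (not_le.1 hn)
    linarith [hτ k]
  have hlt : ∀ x, 0 ≤ x → ∀ k : ℕ, N x < k → x < τ k := by
    intro x hx k hk
    by_contra hn
    rcases (not_lt.1 hn).eq_or_lt with h | h
    · rw [← h, hτ] at hk; exact lt_irrefl _ hk
    · have := hmono _ _ (h0 k) h
      linarith [hτ k]
  refine ⟨τ, le_antisymm (hle 0 le_rfl 0 (by simp [hN0])) (h0 0), ?_, ?_, ?_, hle⟩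
  · refine strictMono_nat_of_lt_succ fun k => hlt _ (h0 k) _ ?_
    rw [hτ]; push_cast; linarith
  · refine tendsto_atTop.2 fun b => ?_
    obtain ⟨m, hm⟩ := exists_nat_gt (N (max b 0))
    filter_upwards [eventually_ge_atTop m] with k hk
    have : (m : ℝ) ≤ k := by exact_mod_cast hk
    exact (le_max_left b 0).trans (hlt _ (le_max_right _ _) k (by linarith only [hm, this])).le
  · intro k
    rw [← hsub, hτ, hτ]; push_cast; ring

theorem BAtom_pieces {τ : ℕ → ℝ} (h0 : τ 0 = 0) (hm : Monotone τ) (ht : Tendsto τ atTop atTop)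
    {G : ℝ → ℝ} (hG : IntegrableOn G (Ioi 0)) :
    HasSum (fun k => ∫ t in τ k..τ (k + 1), G t) (∫ t in Ioi 0, G t) := by
  have hU : (⋃ k : ℕ, Ioc (τ k) (τ (k + 1))) = Ioi 0 := by
    have := iUnion_Ioc_map_succ_eq_Ioi (f := τ) (fun a => hm bot_le)
      (not_bddAbove_of_tendsto_atTop ht)
    simpa [h0] using this
  have := hasSum_integral_iUnion (μ := volume) (f := G) (s := fun k : ℕ => Ioc (τ k) (τ (k + 1)))
    (fun _ => measurableSet_Ioc) hm.pairwise_disjoint_on_Ioc_succ (by rw [hU]; exact hG)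
  rw [hU] at this
  have e : (fun k => ∫ t in τ k..τ (k + 1), G t) = fun k => ∫ t in Ioc (τ k) (τ (k + 1)), G t :=
    funext fun k => intervalIntegral.integral_of_le (hm (Nat.le_succ k))
  rw [e]
  exact this

/-- the truncated kernel -/
def BAtom_k (ρ s φ : ℝ) : ℝ :=
  Real.log (max ‖1 - Complex.exp (s + φ * Complex.I)‖ ρ) + exp s * cos φ

theorem BAtom_k_cont {ρ : ℝ} (hρ : 0 < ρ) (φ : ℝ) : Continuous fun s => BAtom_k ρ s φ := by
  unfold BAtom_k
  refine Continuous.add (Continuous.log (by fun_prop) fun s => ?_) (by fun_prop)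
  exact (hρ.trans_le (le_max_right _ _)).ne'

theorem BAtom_factor {ρ : ℝ} (hρ : 0 < ρ) (s φ : ℝ) :
    ‖(1 - Complex.exp (s + φ * Complex.I)) * Complex.exp (Complex.exp (s + φ * Complex.I))‖ ≤
      exp (BAtom_k ρ s φ) := by
  have h1 : (Complex.exp (s + φ * Complex.I)).re = exp s * cos φ := by
    rw [Complex.exp_re]; simp
  rw [norm_mul, Complex.norm_exp, h1, BAtom_k, exp_add,
    exp_log (hρ.trans_le (le_max_right _ _))]
  gcongr
  exact le_max_left _ _

theorem BAtom_lip {ρ : ℝ} (hρ : 0 < ρ) (s s' φ : ℝ) :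
    BAtom_k ρ s φ ≤ BAtom_k ρ s' φ + (1 + 1 / ρ) * |exp s - exp s'| := by
  set u := ‖1 - Complex.exp (s + φ * Complex.I)‖ with hu
  set v := ‖1 - Complex.exp (s' + φ * Complex.I)‖ with hv
  set d := |exp s - exp s'| with hd
  have hd0 : 0 ≤ d := abs_nonneg _
  have h1 : u - v ≤ d := by
    have e : (1 - Complex.exp (s + φ * Complex.I)) - (1 - Complex.exp (s' + φ * Complex.I)) =
        ((exp s' - exp s : ℝ) : ℂ) * Complex.exp (φ * Complex.I) := by
      rw [Complex.exp_add, Complex.exp_add]; push_cast; ring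
    have := norm_sub_norm_le (1 - Complex.exp (s + φ * Complex.I))
      (1 - Complex.exp (s' + φ * Complex.I))
    rw [e, norm_mul, Complex.norm_exp_ofReal_mul_I, mul_one, Complex.norm_real, Real.norm_eq_abs,
      abs_sub_comm] at this
    exact this
  have h2 : max u ρ ≤ max v ρ + d :=
    max_le (by linarith only [h1, le_max_left v ρ]) (by linarith only [hd0, le_max_right v ρ])
  have hb : ρ ≤ max v ρ := le_max_right _ _
  have hb0 : 0 < max v ρ := hρ.trans_le hb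
  have ha0 : 0 < max u ρ := hρ.trans_le (le_max_right _ _)
  have h3 : Real.log (max u ρ) - Real.log (max v ρ) ≤ d / ρ := by
    rw [← Real.log_div ha0.ne' hb0.ne']
    refine (Real.log_le_sub_one_of_pos (div_pos ha0 hb0)).trans ?_
    have : max u ρ / max v ρ - 1 = (max u ρ - max v ρ) / max v ρ := by field_simp
    rw [this]
    calc (max u ρ - max v ρ) / max v ρ ≤ d / max v ρ := by gcongr; linarith only [h2]
      _ ≤ d / ρ := by gcongr
  have h4 : exp s * cos φ - exp s' * cos φ ≤ d := by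
    rw [← sub_mul]
    refine (le_abs_self _).trans ?_
    rw [abs_mul]
    exact mul_le_of_le_one_right hd0 (abs_cos_le_one φ)
  have h5 : (1 + 1 / ρ) * d = d + d / ρ := by ring
  unfold BAtom_k
  linarith only [h3, h4, h5]

/-- the majorant of the truncation error -/
def BAtom_h (ρ : ℝ) : ℝ → ℝ :=
  (Ioc (-(2 * ρ)) (2 * ρ)).indicator fun s => Real.log (2 * ρ) - Real.log s

theorem BAtom_h_int {ρ : ℝ} (hρ : 0 < ρ) : Integrable (BAtom_h ρ) ∧ ∫ s, BAtom_h ρ s = 4 * ρ := by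
  have hi : IntervalIntegrable (fun s => Real.log (2 * ρ) - Real.log s) volume (-(2 * ρ)) (2 * ρ) :=
    intervalIntegrable_const.sub intervalIntegral.intervalIntegrable_log'
  refine ⟨hi.1.integrable_indicator measurableSet_Ioc, ?_⟩
  unfold BAtom_h
  rw [integral_indicator measurableSet_Ioc, ← intervalIntegral.integral_of_le (by linarith),
    intervalIntegral.integral_sub intervalIntegrable_const intervalIntegral.intervalIntegrable_log',
    integral_log, intervalIntegral.integral_const, Real.log_neg_eq_log, smul_eq_mul]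
  ring

theorem BAtom_h_nonneg {ρ s : ℝ} (hs : s ≠ 0) : 0 ≤ BAtom_h ρ s := by
  by_cases hm : s ∈ Ioc (-(2 * ρ)) (2 * ρ)
  · rw [BAtom_h, indicator_of_mem hm, ← Real.log_abs s]
    exact sub_nonneg.2 (Real.log_le_log (abs_pos.2 hs) (abs_le.2 ⟨hm.1.le, hm.2⟩))
  · rw [BAtom_h, indicator_of_notMem hm]

theorem BAtom_diff {ρ s : ℝ} (hρ : 0 < ρ) (hρ2 : ρ ≤ 1 / 2) (hs : s ≠ 0) (φ : ℝ) :
    0 ≤ BAtom_k ρ s φ - nk s φ ∧ BAtom_k ρ s φ - nk s φ ≤ BAtom_h ρ s := by
  set u := ‖1 - Complex.exp (s + φ * Complex.I)‖ with hu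
  have hu0 : 0 < u := norm_pos_iff.2 (sub_ne_zero.2 (exp_ne_one hs φ).symm)
  have e : BAtom_k ρ s φ - nk s φ = Real.log (max u ρ) - Real.log u := by
    unfold BAtom_k nk lg; ring
  rw [e]
  refine ⟨sub_nonneg.2 (Real.log_le_log hu0 (le_max_left _ _)), ?_⟩
  rcases le_total ρ u with h | h
  · rw [max_eq_left h, sub_self]; exact BAtom_h_nonneg hs
  · have h1 : |1 - exp s| ≤ u := by
      have := abs_norm_sub_norm_le (1 : ℂ) (Complex.exp (s + φ * Complex.I))
      rw [norm_one, Complex.norm_exp] at this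
      simpa using this
    have h2 : |s| ≤ 2 * u := by
      rw [abs_le] at h1
      rcases le_total 0 s with h3 | h3
      · rw [abs_of_nonneg h3]
        linarith only [hu0, h1, add_one_le_exp s]
      · rw [abs_of_nonpos h3]
        have h4 : exp s * (-s + 1) ≤ 1 := by
          calc exp s * (-s + 1) ≤ exp s * exp (-s) := by gcongr; exact add_one_le_exp _
            _ = 1 := by rw [← exp_add]; simp
        have h5 : 1 / 2 ≤ exp s := by linarith only [hρ2, h, h1]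
        (refine le_of_not_gt fun h_nl => ?_; linarith only [h_nl, h1, h4, hρ, hρ2, h3, h, mul_pos_of_neg_of_neg (Mathlib.Tactic.Linarith.sub_neg_of_lt hρ) (Mathlib.Tactic.Linarith.sub_neg_of_lt h_nl), mul_nonneg_of_nonpos_of_nonpos (Mathlib.Tactic.Linarith.sub_nonpos_of_le hρ2) (Mathlib.Tactic.Linarith.sub_nonpos_of_le h3), mul_nonneg_of_nonpos_of_nonpos (Mathlib.Tactic.Linarith.sub_nonpos_of_le hρ2) (le_of_lt (Mathlib.Tactic.Linarith.sub_neg_of_lt h_nl)), mul_nonneg_of_nonpos_of_nonpos (Mathlib.Tactic.Linarith.sub_nonpos_of_le h) (Mathlib.Tactic.Linarith.sub_nonpos_of_le h3), mul_nonneg_of_nonpos_of_nonpos (Mathlib.Tactic.Linarith.sub_nonpos_of_le h1.right) (Mathlib.Tactic.Linarith.sub_nonpos_of_le h3)])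
    have hs0 : 0 < |s| := abs_pos.2 hs
    have h6 : Real.log (max u ρ) - Real.log u ≤ Real.log (2 * ρ) - Real.log s := by
      rw [max_eq_right h, ← Real.log_abs s, ← Real.log_div hρ.ne' hu0.ne',
        ← Real.log_div (by positivity) hs0.ne']
      refine Real.log_le_log (by positivity) ?_
      rw [div_le_div_iff₀ hu0 hs0]
      linarith only [hρ, h2, mul_nonneg_of_nonpos_of_nonpos (le_of_lt (Mathlib.Tactic.Linarith.sub_neg_of_lt hρ)) (Mathlib.Tactic.Linarith.sub_nonpos_of_le h2)]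
    by_cases hm : s ∈ Ioc (-(2 * ρ)) (2 * ρ)
    · rw [BAtom_h, indicator_of_mem hm]; exact h6
    · have h7 : |s| ≤ 2 * ρ := by linarith only [h, h2]
      have h8 : s = -(2 * ρ) := by
        rw [abs_le] at h7
        by_contra hn
        exact hm ⟨lt_of_le_of_ne h7.1 (Ne.symm hn), h7.2⟩
      rw [BAtom_h, indicator_of_notMem hm]
      rw [h8, Real.log_neg_eq_log, sub_self] at h6
      exact h6

theorem BAtom_int_nk {lam C1 : ℝ} {ν : ℝ → ℝ} (h1 : 1 < lam) (h2 : lam < 2) (hν : Continuous ν)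
    (hb : ∀ t, 0 ≤ t → 0 ≤ ν t ∧ ν t ≤ C1 * exp (lam * t)) (x φ : ℝ) :
    IntegrableOn (fun t => nk (x - t) φ * ν t) (Ioi 0) := by
  have hi := ((int_exp_nk h1 h2 0 φ).comp_sub_left x).norm.const_mul (C1 * exp (lam * x))
  have hm : Measurable fun t => nk (x - t) φ * ν t := by
    refine Measurable.mul ?_ hν.measurable
    unfold nk
    exact (measurable_lg.comp (f := fun t : ℝ => (x - t, φ)) (by fun_prop)).add (by fun_prop)
  refine Integrable.mono' hi.integrableOn hm.aestronglyMeasurable ?_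
  filter_upwards [ae_restrict_mem measurableSet_Ioi] with t ht
  obtain ⟨h3, h4⟩ := hb t (le_of_lt ht)
  have e : exp (lam * t) = exp (lam * x) * exp (-lam * (x - t)) := by
    rw [← exp_add]; congr 1; ring
  rw [norm_mul, norm_mul, sub_zero, Real.norm_of_nonneg h3, Real.norm_of_nonneg (exp_pos _).le]
  calc ‖nk (x - t) φ‖ * ν t ≤ ‖nk (x - t) φ‖ * (C1 * exp (lam * t)) := by gcongr
    _ = _ := by rw [e]; ring

theorem BAtom_int_k {lam C1 ρ : ℝ} {ν : ℝ → ℝ} (h1 : 1 < lam) (h2 : lam < 2) (hρ : 0 < ρ)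
    (hρ2 : ρ ≤ 1 / 2) (hν : Continuous ν)
    (hb : ∀ t, 0 ≤ t → 0 ≤ ν t ∧ ν t ≤ C1 * exp (lam * t)) (x φ : ℝ) :
    IntegrableOn (fun t => BAtom_k ρ (x - t) φ * ν t) (Ioi 0) ∧
      ∫ t in Ioi 0, BAtom_k ρ (x - t) φ * ν t ≤
        (∫ t in Ioi 0, nk (x - t) φ * ν t) + 4 * exp 2 * C1 * ρ * exp (lam * x) := by
  have hC : 0 ≤ C1 := by
    have := hb 0 le_rfl
    rw [mul_zero, exp_zero, mul_one] at this
    linarith only [this, this.1, this.2]
  have hn := BAtom_int_nk h1 h2 hν hb x φ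
  obtain ⟨hh, hh'⟩ := BAtom_h_int hρ
  set K := exp 2 * C1 * exp (lam * x) with hK
  have hK0 : 0 ≤ K := by positivity
  have hH : Integrable fun t => BAtom_h ρ (x - t) * K := (hh.comp_sub_left x).mul_const K
  have hne : ∀ᵐ t : ℝ, t ≠ x := by simp [ae_iff]
  have hbd : ∀ᵐ t ∂(volume.restrict (Ioi 0)),
      0 ≤ BAtom_k ρ (x - t) φ * ν t - nk (x - t) φ * ν t ∧
      BAtom_k ρ (x - t) φ * ν t - nk (x - t) φ * ν t ≤ BAtom_h ρ (x - t) * K := by
    filter_upwards [ae_restrict_mem measurableSet_Ioi, ae_restrict_of_ae hne] with t ht htx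
    obtain ⟨h3, h4⟩ := hb t (le_of_lt ht)
    have hs : x - t ≠ 0 := sub_ne_zero.2 htx.symm
    obtain ⟨h5, h6⟩ := BAtom_diff hρ hρ2 hs φ
    rw [← sub_mul]
    refine ⟨mul_nonneg h5 h3, (mul_le_mul_of_nonneg_right h6 h3).trans ?_⟩
    by_cases hm : x - t ∈ Ioc (-(2 * ρ)) (2 * ρ)
    · refine mul_le_mul_of_nonneg_left (h4.trans ?_) (BAtom_h_nonneg hs)
      have h7 : exp (lam * t) ≤ exp 2 * exp (lam * x) := by
        rw [← exp_add]
        refine exp_le_exp.2 ?_
        have := hm.1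
        linarith only [h2, hρ2, this, h1, mul_nonneg_of_nonpos_of_nonpos (le_of_lt (Mathlib.Tactic.Linarith.sub_neg_of_lt h1)) (Mathlib.Tactic.Linarith.sub_nonpos_of_le hρ2), mul_pos_of_neg_of_neg (Mathlib.Tactic.Linarith.sub_neg_of_lt h1) (Mathlib.Tactic.Linarith.sub_neg_of_lt this)]
      calc C1 * exp (lam * t) ≤ C1 * (exp 2 * exp (lam * x)) := by gcongr
        _ = K := by rw [hK]; ring
    · rw [BAtom_h, indicator_of_notMem hm]; simp
  have hmk : AEStronglyMeasurable (fun t => BAtom_k ρ (x - t) φ * ν t) (volume.restrict (Ioi 0)) :=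
    (((BAtom_k_cont hρ φ).comp (by fun_prop : Continuous fun t : ℝ => x - t)).mul
      hν).aestronglyMeasurable
  have hD : IntegrableOn (fun t => BAtom_k ρ (x - t) φ * ν t - nk (x - t) φ * ν t) (Ioi 0) := by
    refine Integrable.mono' hH.integrableOn (hmk.sub hn.aestronglyMeasurable) ?_
    filter_upwards [hbd] with t ht
    rw [Real.norm_of_nonneg ht.1]
    exact ht.2
  have hk : IntegrableOn (fun t => BAtom_k ρ (x - t) φ * ν t) (Ioi 0) := by
    have := hD.add hn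
    refine this.congr (Eventually.of_forall fun t => ?_)
    simp
  refine ⟨hk, ?_⟩
  have h8 : ∫ t in Ioi 0, (BAtom_k ρ (x - t) φ * ν t - nk (x - t) φ * ν t) ≤
      ∫ t in Ioi 0, BAtom_h ρ (x - t) * K :=
    integral_mono_ae hD hH.integrableOn (hbd.mono fun t ht => ht.2)
  have h9 : ∫ t in Ioi 0, BAtom_h ρ (x - t) * K ≤ ∫ t, BAtom_h ρ (x - t) * K := by
    refine setIntegral_le_integral hH ?_
    filter_upwards [hne] with t ht
    exact mul_nonneg (BAtom_h_nonneg (sub_ne_zero.2 ht.symm)) hK0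
  rw [integral_mul_const, integral_mul_const, integral_sub_left_eq_self (BAtom_h ρ) volume x,
    hh'] at h9
  rw [integral_sub hk hn] at h8
  have e : 4 * ρ * K = 4 * exp 2 * C1 * ρ * exp (lam * x) := by rw [hK]; ring
  rw [integral_mul_const] at h8
  linarith only [h8, h9]

theorem atomise : ∃ C : ℝ, 1 ≤ C ∧ ∀ (lam c1 C1 α ρ : ℝ) (ν : ℝ → ℝ), 1 < lam → lam < 2 → 0 < c1 →
    0 < ρ → ρ ≤ 1 / 2 → Continuous ν →
    (∀ t, 0 ≤ t → c1 * exp (lam * t) ≤ ν t ∧ ν t ≤ C1 * exp (lam * t)) →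
    ∃ f : ℂ → ℂ, Differentiable ℂ f ∧ f 0 = 1 ∧
      (∀ x θ : ℝ, ‖f (Complex.exp (x + θ * Complex.I))‖ ≤
        exp ((∫ t in Ioi 0, nk (x - t) (θ - α) * ν t) + C * C1 * ρ * exp (lam * x) +
          (1 + 1 / ρ) * exp x)) ∧
      ∀ x : ℝ, 0 ≤ x → ∃ A : Finset ℂ, (∀ a ∈ A, f a = 0 ∧ ‖a‖ ≤ exp x) ∧
        c1 * (exp (lam * x) - 1) / lam - 1 ≤ A.card := by
  refine ⟨4 * exp 2, by linarith [one_le_exp (by norm_num : (0 : ℝ) ≤ 2)], ?_⟩
  intro lam c1 C1 α ρ ν h1 h2 hc hρ hρ2 hν hb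
  have hlow : ∀ t, 0 ≤ t → c1 ≤ ν t := fun t ht =>
    (le_mul_of_one_le_right hc.le (one_le_exp (by positivity))).trans (hb t ht).1
  have hb' : ∀ t, 0 ≤ t → 0 ≤ ν t ∧ ν t ≤ C1 * exp (lam * t) := fun t ht =>
    ⟨hc.le.trans (hlow t ht), (hb t ht).2⟩
  obtain ⟨τ, hτ0, hτm, hτt, hτ1, hτx⟩ := BAtom_tau hν hc hlow
  have hτn : ∀ k, 0 ≤ τ k := fun k => hτ0 ▸ hτm.monotone (Nat.zero_le k)
  have hτs : ∀ k, τ k ≤ τ (k + 1) := fun k => hτm.monotone (Nat.le_succ k)
  have havg : ∀ (k : ℕ) (G : ℝ → ℝ) (b : ℝ), Continuous G → (∀ t ∈ Icc (τ k) (τ (k + 1)), b ≤ G t) →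
      b ≤ ∫ t in τ k..τ (k + 1), G t * ν t := by
    intro k G b hG hGb
    have := intervalIntegral.integral_mono_on (μ := volume) (hτs k) (f := fun t => b * ν t)
      (g := fun t => G t * ν t) ((continuous_const.mul hν).intervalIntegrable _ _)
      ((hG.mul hν).intervalIntegrable _ _)
      (fun t ht => mul_le_mul_of_nonneg_right (hGb t ht) (hb' t ((hτn k).trans ht.1)).1)
    rwa [intervalIntegral.integral_const_mul, hτ1, mul_one] at this
  let a : ℕ → ℂ := fun k => Complex.exp (τ (k + 1) + α * Complex.I)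
  have hna : ∀ k, ‖a k‖ = exp (τ (k + 1)) := fun k => by
    simp only [a]
    rw [Complex.norm_exp]; simp
  have hsum : Summable fun k => (((fun _ => 1 : ℕ → ℕ) k : ℕ) : ℝ) / ‖a k‖ ^ 2 := by
    have hG : IntegrableOn (fun t => exp (-2 * t) * ν t) (Ioi 0) := by
      have hi := (integrableOn_exp_mul_Ioi (a := lam - 2) (by linarith) 0).const_mul C1
      refine Integrable.mono' hi (by fun_prop : Continuous fun t => exp (-2 * t) * ν t).aestronglyMeasurable ?_
      filter_upwards [ae_restrict_mem measurableSet_Ioi] with t ht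
      obtain ⟨h3, h4⟩ := hb' t (le_of_lt ht)
      rw [Real.norm_of_nonneg (by positivity)]
      calc exp (-2 * t) * ν t ≤ exp (-2 * t) * (C1 * exp (lam * t)) := by gcongr
        _ = C1 * exp ((lam - 2) * t) := by
          rw [show (lam - 2) * t = -2 * t + lam * t by ring, exp_add]; ring
    refine Summable.of_nonneg_of_le (fun k => by positivity) (fun k => ?_)
      (BAtom_pieces hτ0 hτm.monotone hτt hG).summable
    refine havg k (fun t => exp (-2 * t)) _ (by fun_prop) fun t ht => ?_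
    rw [hna, ← exp_nat_mul, Nat.cast_one, one_div, ← exp_neg]
    refine exp_le_exp.2 ?_
    push_cast
    linarith only [ht, ht.2]
  obtain ⟨f, hf, hf0, hfz, hfb⟩ := exists_prod a (fun _ => 1) (fun k => Complex.exp_ne_zero _) hsum
  refine ⟨f, hf, hf0, fun x θ => ?_, fun x hx => ?_⟩
  · obtain ⟨hk, hk'⟩ := BAtom_int_k h1 h2 hρ hρ2 hν hb' x (θ - α)
    have hs1 := BAtom_pieces hτ0 hτm.monotone hτt hk
    have hs2 : HasSum (fun k => exp (x - τ k) - exp (x - τ (k + 1))) (exp x) := by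
      refine (hasSum_iff_tendsto_nat_of_nonneg (fun k => sub_nonneg.2 (exp_le_exp.2 ?_)) _).2 ?_
      · linarith only [hτs, hτs k]
      · simp only [Finset.sum_range_sub' fun k => exp (x - τ k), hτ0, sub_zero]
        have h3 : Tendsto (fun n => exp (x - τ n)) atTop (𝓝 0) :=
          tendsto_exp_atBot.comp (tendsto_atBot_add_const_left _ x (tendsto_neg_atTop_atBot.comp hτt))
        simpa using h3.const_sub (exp x)
    have hs3 := hs1.add (hs2.mul_left (1 + 1 / ρ))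
    refine (hfb _ _ hs3.summable fun k => ?_).trans ?_
    · have e : Complex.exp (x + θ * Complex.I) / a k =
          Complex.exp ((x - τ (k + 1) : ℝ) + (θ - α : ℝ) * Complex.I) := by
        simp only [a]
        rw [← Complex.exp_sub]; congr 1; push_cast; ring
      rw [pow_one, e]
      refine (BAtom_factor hρ _ _).trans (exp_le_exp.2 ?_)
      rw [← sub_le_iff_le_add]
      refine havg k (fun t => BAtom_k ρ (x - t) (θ - α)) _
        ((BAtom_k_cont hρ _).comp (by fun_prop)) fun t ht => ?_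
      have h3 := BAtom_lip hρ (x - τ (k + 1)) (x - t) (θ - α)
      have h4 : exp (x - τ (k + 1)) ≤ exp (x - t) := exp_le_exp.2 (by linarith only [ht, ht.2])
      have h5 : exp (x - t) ≤ exp (x - τ k) := exp_le_exp.2 (by linarith only [ht, ht.1])
      rw [abs_of_nonpos (by linarith only [h4])] at h3
      have h6 : (1 + 1 / ρ) * -(exp (x - τ (k + 1)) - exp (x - t)) ≤
          (1 + 1 / ρ) * (exp (x - τ k) - exp (x - τ (k + 1))) :=
        mul_le_mul_of_nonneg_left (by linarith only [h5]) (by positivity)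
      linarith only [h3, h6]
    · rw [hs3.tsum_eq]
      exact exp_le_exp.2 (by linarith only [hk'])
  · classical
    set N := ∫ t in (0 : ℝ)..x, ν t with hN
    have hNl : c1 * (exp (lam * x) - 1) / lam ≤ N := by
      have h3 := intervalIntegral.integral_mono_on (μ := volume) hx (f := fun t => c1 * exp (lam * t))
        (g := ν) ((by fun_prop : Continuous fun t => c1 * exp (lam * t)).intervalIntegrable _ _)
        (hν.intervalIntegrable _ _) (fun t ht => (hb t ht.1).1)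
      have hl : lam ≠ 0 := by positivity
      rw [intervalIntegral.integral_const_mul, intervalIntegral.integral_comp_mul_left (fun t => exp t) hl,
        integral_exp, mul_zero, exp_zero, smul_eq_mul] at h3
      refine le_trans (le_of_eq ?_) h3
      field_simp
    have hN0 : 0 ≤ N := intervalIntegral.integral_nonneg hx fun t ht => (hb' t ht.1).1
    have hinj : Function.Injective a := by
      intro i j hij
      have h3 : exp (τ (i + 1)) = exp (τ (j + 1)) := by rw [← hna, ← hna, hij]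
      exact Nat.succ_injective (hτm.injective (exp_injective h3))
    refine ⟨(Finset.range ⌊N⌋₊).image a, fun z hz => ?_, ?_⟩
    · obtain ⟨k, hk, rfl⟩ := Finset.mem_image.1 hz
      refine ⟨hfz k one_ne_zero, ?_⟩
      rw [hna]
      refine exp_le_exp.2 (hτx x hx (k + 1) ?_)
      exact (Nat.le_floor_iff hN0).1 (Finset.mem_range.1 hk)
    · rw [Finset.card_image_of_injective _ hinj, Finset.card_range]
      linarith only [hNl, Nat.lt_floor_add_one N]

end

end Pool.Agent.MinMod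
end

-- merged part: Pool.Agent.Work.MP_f62247_an.BGreen
section
/-!
# Sweeping a point mass onto the two sides of a strip

`H x θ = ∫ (nk (x-t) (θ-b) + nk (x-t) (θ+b)) hm b t dt`.  Claim `H x θ - nk x θ = -log ‖tanh (π (x+iθ') / (4b))‖` for the representative `|θ'| < b`, and `0` if there is none (checked numerically).
For `θ = rp θ ∉ {0, b, -b}` differentiate in `x` under the integral (`hasDerivAt_nk_fst`, `norm_fk_le'`): `strip_res` on `-b ≤ Im ≤ b` for `g ζ = fk (z - ζ) / sinh (π ζ / (2b))`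
(`sinh (πt/(2b) ± iπ/2) = ± i cosh`), poles `0` (residue `(2b/π) fk z`) and `z` if `|θ| < b` (residue `-1 / sinh (π z/(2b))`).  So `∂_x (H - nk) = -Re ((π/2b) / sinh (π z/(2b)))` or `0`;
the derivative of `log ‖tanh (π z/(4b))‖` in `x` is `Re ((π/2b) / sinh (π z/(2b)))`; all terms tend to `0` as `x → -∞` (dominated convergence, `|nk s φ| ≤ C min (e^(2s), e^s)` off `2πℤ`);
`‖tanh (u+iv)‖ ≤ 1` for `|v| ≤ π/4`.  Other `θ`: continuity (`lip_lg`, `continuousAt_lg`).
`green_near`: directly, `nk x 0 ≤ log |x| + C`, `nk s (±b) ≥ log (sin b) ≥ log (2b/π)` for every `s`, `∫ hm = 1/2`.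
-/

open Real MeasureTheory Set Filter Topology

namespace Pool.Agent.MinMod

noncomputable section

theorem BGreen_sinh (w : ℂ) :
    (Complex.sinh w).re = sinh w.re * cos w.im ∧ (Complex.sinh w).im = cosh w.re * sin w.im := by
  have h : Complex.sinh w = ((sinh w.re * cos w.im : ℝ) : ℂ) +
      ((cosh w.re * sin w.im : ℝ) : ℂ) * Complex.I := by
    conv_lhs => rw [← Complex.re_add_im w, Complex.sinh_add, Complex.sinh_mul_I, Complex.cosh_mul_I]
    push_cast
    ring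
  rw [h]
  constructor <;> simp only [Complex.add_re, Complex.add_im, Complex.mul_re, Complex.mul_im,
    Complex.ofReal_re, Complex.ofReal_im, Complex.I_re, Complex.I_im] <;> ring

theorem BGreen_cosh (w : ℂ) :
    (Complex.cosh w).re = cosh w.re * cos w.im ∧ (Complex.cosh w).im = sinh w.re * sin w.im := by
  have h : Complex.cosh w = ((cosh w.re * cos w.im : ℝ) : ℂ) +
      ((sinh w.re * sin w.im : ℝ) : ℂ) * Complex.I := by
    conv_lhs => rw [← Complex.re_add_im w, Complex.cosh_add, Complex.sinh_mul_I, Complex.cosh_mul_I]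
    push_cast
    ring
  rw [h]
  constructor <;> simp only [Complex.add_re, Complex.add_im, Complex.mul_re, Complex.mul_im,
    Complex.ofReal_re, Complex.ofReal_im, Complex.I_re, Complex.I_im] <;> ring

theorem BGreen_nsinh (w : ℂ) : ‖Complex.sinh w‖ ^ 2 = sinh w.re ^ 2 + sin w.im ^ 2 := by
  rw [Complex.sq_norm, Complex.normSq_apply, (BGreen_sinh w).1, (BGreen_sinh w).2]
  linear_combination sinh w.re ^ 2 * sin_sq_add_cos_sq w.im + sin w.im ^ 2 * cosh_sq w.re

theorem BGreen_ncosh (w : ℂ) : ‖Complex.cosh w‖ ^ 2 = sinh w.re ^ 2 + cos w.im ^ 2 := by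
  rw [Complex.sq_norm, Complex.normSq_apply, (BGreen_cosh w).1, (BGreen_cosh w).2]
  linear_combination sinh w.re ^ 2 * sin_sq_add_cos_sq w.im + cos w.im ^ 2 * cosh_sq w.re

theorem BGreen_sinh_ne {w : ℂ} (h : |w.im| < π) (h0 : w ≠ 0) : Complex.sinh w ≠ 0 := by
  intro e
  have h1 := BGreen_nsinh w
  rw [e, norm_zero] at h1
  have h2 : sinh w.re = 0 := by nlinarith [sq_nonneg (sinh w.re), sq_nonneg (sin w.im)]
  have h3 : sin w.im = 0 := by nlinarith [sq_nonneg (sinh w.re), sq_nonneg (sin w.im)]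
  exact h0 (Complex.ext (sinh_eq_zero.1 h2)
    ((sin_eq_zero_iff_of_lt_of_lt (abs_lt.1 h).1 (abs_lt.1 h).2).1 h3))

theorem BGreen_sinh_ge {w : ℂ} (h : 1 ≤ |w.re|) : exp |w.re| / 4 ≤ ‖Complex.sinh w‖ := by
  have h1 : |sinh w.re| ≤ ‖Complex.sinh w‖ :=
    abs_le_of_sq_le_sq' (by rw [BGreen_nsinh, sq_abs]; linarith only [sq_nonneg (sin w.im), sq_nonneg (sin w.im)])
      (norm_nonneg _) |>.2
  have h2 : exp (-|w.re|) ≤ 1 := exp_le_one_iff.2 (by linarith)
  have h3 := add_one_le_exp |w.re|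
  rw [abs_sinh, sinh_eq] at h1
  linarith only [h, h1, h2, h3]

theorem BGreen_integrable {f : ℝ → ℂ} (hf : Continuous f) {C T : ℝ}
    (h : ∀ t, T ≤ |t| → ‖f t‖ ≤ C * exp (-|t|)) : Integrable f := by
  refine hf.locallyIntegrable.integrable_of_isBigO_atBot_atTop (g := fun t => exp t)
    (g' := fun t => exp (-t)) (Asymptotics.IsBigO.of_bound C ?_)
    ⟨Iic 0, Iic_mem_atBot 0, integrableOn_exp_Iic 0⟩ (Asymptotics.IsBigO.of_bound C ?_)
    ⟨Ioi 0, Ioi_mem_atTop 0, integrableOn_exp_neg_Ioi 0⟩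
  · filter_upwards [eventually_le_atBot (-T), eventually_le_atBot 0] with t h1 h2
    have := h t (by rw [abs_of_nonpos h2]; linarith)
    rwa [abs_of_nonpos h2, neg_neg, ← abs_of_pos (exp_pos t)] at this
  · filter_upwards [eventually_ge_atTop T, eventually_ge_atTop 0] with t h1 h2
    have := h t (by rwa [abs_of_nonneg h2])
    rwa [abs_of_nonneg h2, ← abs_of_pos (exp_pos (-t))] at this

theorem BGreen_slope {f : ℂ → ℂ} {f' p : ℂ} (h : HasDerivAt f f' p) (h0 : f p = 0) :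
    Tendsto (fun z => f z / (z - p)) (𝓝[≠] p) (𝓝 f') := by
  refine (hasDerivAt_iff_tendsto_slope.1 h).congr fun z => ?_
  rw [slope_def_field, h0, sub_zero]

theorem BGreen_mean {b : ℝ} (hb : 0 < b) (hb1 : b ≤ 1 / 2) (G : ℂ → ℂ) (S : Finset ℂ)
    (hS : ∀ p ∈ S, |p.im| < b) (h0 : (0 : ℂ) ∉ S)
    (hd : ∀ z : ℂ, |z.im| ≤ b → z ∉ S → DifferentiableAt ℂ G z)
    (hR : ∀ p ∈ S, ∃ l, Tendsto G (𝓝[≠] p) (𝓝 l)) {C T : ℝ}
    (hg : ∀ z : ℂ, |z.im| ≤ b → T ≤ |z.re| → ‖G z‖ ≤ C * exp |z.re|) :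
    ∫ t : ℝ, ((G (t + b * Complex.I)).re + (G (t + (-b : ℝ) * Complex.I)).re) * hm b t =
      (G 0).re := by
  classical
  obtain ⟨c, hc⟩ : ∃ c : ℝ, c = π / (2 * b) := ⟨_, rfl⟩
  have hcb : c * b = π / 2 := by rw [hc]; field_simp
  have hc3 : 3 ≤ c := by
    rw [hc, le_div_iff₀ (by positivity)]
    linarith only [hb1, pi_gt_three]
  have hc0 : (c : ℂ) ≠ 0 := Complex.ofReal_ne_zero.2 (by linarith only [hb, hb1, hc3])
  have hne : ∀ z : ℂ, |z.im| ≤ b → z ≠ 0 → Complex.sinh (c * z) ≠ 0 := by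
    intro z hz hz0
    refine BGreen_sinh_ne ?_ (mul_ne_zero hc0 hz0)
    rw [Complex.im_ofReal_mul, abs_mul, abs_of_pos (by linarith only [hb, hb1, hc3] : 0 < c)]
    linarith only [hcb, hz, hb, hb1, hc3, pi_pos, mul_pos_of_neg_of_neg (Mathlib.Tactic.Linarith.sub_neg_of_lt hb) (Mathlib.Tactic.Linarith.sub_neg_of_lt hb), mul_nonneg_of_nonpos_of_nonpos (le_of_lt (Mathlib.Tactic.Linarith.sub_neg_of_lt hb)) (Mathlib.Tactic.Linarith.sub_nonpos_of_le hb1), mul_nonneg_of_nonpos_of_nonpos (le_of_lt (Mathlib.Tactic.Linarith.sub_neg_of_lt hb)) (Mathlib.Tactic.Linarith.sub_nonpos_of_le hc3), mul_nonneg_of_nonpos_of_nonpos (Mathlib.Tactic.Linarith.sub_nonpos_of_le hc3) (Mathlib.Tactic.Linarith.sub_nonpos_of_le hz)]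
  have hdg : ∀ z : ℂ, |z.im| ≤ b → z ∉ insert 0 S →
      DifferentiableAt ℂ (fun z => G z / Complex.sinh (c * z)) z := by
    intro z hz hz'
    rw [Finset.mem_insert, not_or] at hz'
    exact (hd z hz hz'.2).div (by fun_prop) (hne z hz hz'.1)
  have hC : 0 ≤ C := by
    have h1 := (norm_nonneg _).trans (hg (|T| : ℝ) (by simpa using hb.le) (by simp [le_abs_self]))
    exact nonneg_of_mul_nonneg_left h1 (exp_pos _)
  have hbd : ∀ z : ℂ, |z.im| ≤ b → max T 1 ≤ |z.re| →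
      ‖G z / Complex.sinh (c * z)‖ ≤ 4 * C * exp (-|z.re|) := by
    intro z hz hz'
    have h1 := hg z hz ((le_max_left _ _).trans hz')
    have h2 : 1 ≤ |z.re| := (le_max_right _ _).trans hz'
    have h3 : |(c * z : ℂ).re| = c * |z.re| := by
      rw [Complex.re_ofReal_mul, abs_mul, abs_of_pos (by linarith only [hb, hb1, hc3] : 0 < c)]
    have h4 := BGreen_sinh_ge (w := c * z) (by rw [h3]; (refine le_of_not_gt fun h_nl => ?_; linarith only [h_nl, hb1, hc3, h2, hb, mul_pos_of_neg_of_neg (Mathlib.Tactic.Linarith.sub_neg_of_lt hb) (Mathlib.Tactic.Linarith.sub_neg_of_lt hb), mul_nonneg_of_nonpos_of_nonpos (le_of_lt (Mathlib.Tactic.Linarith.sub_neg_of_lt hb)) (Mathlib.Tactic.Linarith.sub_nonpos_of_le hb1), mul_pos_of_neg_of_neg (Mathlib.Tactic.Linarith.sub_neg_of_lt hb) (Mathlib.Tactic.Linarith.sub_neg_of_lt h_nl), mul_nonneg_of_nonpos_of_nonpos (Mathlib.Tactic.Linarith.sub_nonpos_of_le hb1) (le_of_lt (Mathlib.Tactic.Linarith.sub_neg_of_lt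 h_nl)), mul_nonneg_of_nonpos_of_nonpos (Mathlib.Tactic.Linarith.sub_nonpos_of_le hc3) (Mathlib.Tactic.Linarith.sub_nonpos_of_le h2)]))
    have h5 : exp (2 * |z.re|) ≤ exp |(c * z : ℂ).re| := exp_le_exp.2 (by rw [h3]; (refine le_of_not_gt fun h_nl => ?_; linarith only [h_nl, hb1, hc3, h2, hb, mul_pos_of_neg_of_neg (Mathlib.Tactic.Linarith.sub_neg_of_lt hb) (Mathlib.Tactic.Linarith.sub_neg_of_lt hb), mul_nonneg_of_nonpos_of_nonpos (le_of_lt (Mathlib.Tactic.Linarith.sub_neg_of_lt hb)) (Mathlib.Tactic.Linarith.sub_nonpos_of_le hb1), mul_pos_of_neg_of_neg (Mathlib.Tactic.Linarith.sub_neg_of_lt hb) (Mathlib.Tactic.Linarith.sub_neg_of_lt h_nl), mul_nonneg_of_nonpos_of_nonpos (Mathlib.Tactic.Linarith.sub_nonpos_of_le hb1) (le_of_lt (Mathlib.Tactic.Linarith.sub_neg_of_lt h_nl)), mul_nonneg_of_nonpos_of_nonpos (Mathlib.Tactic.Linarith.sub_nonpos_of_le hc3) (Mathlib.Tactic.Linarith.sub_nonpos_of_le h2)]))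
    have h6 : exp (-|z.re|) * exp (2 * |z.re|) = exp |z.re| := by
      rw [← exp_add]; congr 1; ring
    rw [norm_div, div_le_iff₀ (lt_of_lt_of_le (by positivity) h4)]
    calc ‖G z‖ ≤ 4 * C * exp (-|z.re|) * (exp (2 * |z.re|) / 4) := by
          rw [← h6] at h1; linarith only [h1]
      _ ≤ _ := mul_le_mul_of_nonneg_left (by linarith only [h4, h5]) (by positivity)
  have hint : ∀ y : ℝ, |y| = b →
      Integrable fun t : ℝ => G (t + y * Complex.I) / Complex.sinh (c * (t + y * Complex.I)) := by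
    intro y hy
    refine BGreen_integrable (C := 4 * C) (T := max T 1) ?_ fun t ht => ?_
    · refine continuous_iff_continuousAt.2 fun t => ContinuousAt.comp
        (g := fun z => G z / Complex.sinh (c * z)) (f := fun t : ℝ => (t : ℂ) + y * Complex.I)
        (hdg _ (by simp [hy]) fun e => ?_).continuousAt (by fun_prop)
      rcases Finset.mem_insert.1 e with e | e
      · have := congrArg Complex.im e
        simp only [Complex.add_im, Complex.ofReal_im, Complex.mul_im, Complex.ofReal_re,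
          Complex.I_im, mul_one, Complex.I_re, mul_zero, add_zero, zero_add, Complex.zero_im] at this
        rw [this, abs_zero] at hy
        linarith only [hb, hy]
      · simpa [hy] using hS _ e
    · simpa using hbd (t + y * Complex.I) (by simp [hy]) (by simpa using ht)
  have hp := hint b (abs_of_pos hb)
  have hm' := hint (-b) (by rw [abs_neg, abs_of_pos hb])
  have key := strip_res (a := -b) (b := b) (by linarith only [hb]) (fun z => G z / Complex.sinh (c * z))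
    (insert 0 S) (fun p => if p = 0 then G 0 / c else 0)
    (fun p hp => by
      rcases Finset.mem_insert.1 hp with rfl | hp
      · simpa using hb
      · exact abs_lt.1 (hS p hp))
    (fun z h1 h2 => hdg z (abs_le.2 ⟨h1, h2⟩))
    (fun p hp => by
      rcases Finset.mem_insert.1 hp with rfl | hp
      · rw [if_pos rfl]
        have h1 : HasDerivAt (fun z : ℂ => Complex.sinh (c * z)) c 0 := by
          simpa using ((hasDerivAt_id (0 : ℂ)).const_mul (c : ℂ)).csinh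
        refine (((hd 0 (by simpa using hb.le) h0).continuousAt.tendsto.mono_left
          nhdsWithin_le_nhds).div (BGreen_slope h1 (by simp)) hc0).congr fun z => ?_
        simp only [Pi.div_apply, sub_zero]
        rw [div_div_eq_mul_div, mul_div_assoc', mul_comm]
      · have hp0 : p ≠ 0 := fun e => h0 (e ▸ hp)
        obtain ⟨l, hl⟩ := hR p hp
        have h1 : Tendsto (fun z : ℂ => z - p) (𝓝[≠] p) (𝓝 0) := by
          have : Continuous fun z : ℂ => z - p := by fun_prop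
          simpa using (this.tendsto p).mono_left nhdsWithin_le_nhds
        have h2 : Continuous fun z : ℂ => Complex.sinh (c * z) := by fun_prop
        rw [if_neg hp0]
        simpa using h1.mul (hl.div ((h2.tendsto p).mono_left nhdsWithin_le_nhds)
          (hne p (hS p hp).le hp0)))
    hm' hp
    (fun δ hδ => by
      have h1 : Tendsto (fun t : ℝ => 4 * C * exp (-t)) atTop (𝓝 0) := by
        simpa using tendsto_exp_neg_atTop_nhds_zero.const_mul (4 * C)
      obtain ⟨T', hT'⟩ := eventually_atTop.1 (h1.eventually (ge_mem_nhds hδ))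
      exact ⟨max (max T 1) T', fun z h2 h3 h4 => (hbd z (abs_le.2 ⟨h2, h3⟩)
        ((le_max_left _ _).trans h4)).trans (hT' _ ((le_max_right _ _).trans h4))⟩)
  rw [Finset.sum_insert h0, if_pos rfl,
    Finset.sum_eq_zero fun p hp => if_neg fun e : p = 0 => h0 (e ▸ hp), add_zero,
    ← integral_sub hm' hp] at key
  have e1 : ∀ t : ℝ, Complex.sinh (c * (t + b * Complex.I)) = cosh (c * t) * Complex.I := by
    intro t
    refine Complex.ext ?_ ?_
    · simp [(BGreen_sinh _).1, hcb, -Complex.ofReal_cosh]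
    · simp [(BGreen_sinh _).2, hcb, -Complex.ofReal_cosh]
  have e2 : ∀ t : ℝ, Complex.sinh (c * (t + (-b : ℝ) * Complex.I)) =
      -(cosh (c * t) * Complex.I) := by
    intro t
    refine Complex.ext ?_ ?_
    · simp [(BGreen_sinh _).1, hcb, -Complex.ofReal_cosh]
    · simp [(BGreen_sinh _).2, hcb, -Complex.ofReal_cosh]
  have hb0 : (b : ℂ) ≠ 0 := Complex.ofReal_ne_zero.2 hb.ne'
  have e3 : ∀ t : ℝ, (G (t + b * Complex.I) + G (t + (-b : ℝ) * Complex.I)) * (hm b t : ℝ) =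
      (G (t + (-b : ℝ) * Complex.I) / Complex.sinh (c * (t + (-b : ℝ) * Complex.I)) -
        G (t + b * Complex.I) / Complex.sinh (c * (t + b * Complex.I))) / (4 * b * Complex.I) := by
    intro t
    have h1 : ((cosh (c * t) : ℝ) : ℂ) ≠ 0 := Complex.ofReal_ne_zero.2 (cosh_pos _).ne'
    rw [e1, e2, hm, show π * t / (2 * b) = c * t by rw [hc]; ring, Complex.ofReal_div,
      Complex.ofReal_mul, Complex.ofReal_mul, Complex.ofReal_ofNat, Complex.ofReal_one]
    generalize G (t + b * Complex.I) = A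
    generalize G (t + (-b : ℝ) * Complex.I) = B
    field_simp
    linear_combination (A + B) * Complex.I_sq
  have e4 : ∫ t : ℝ, (G (t + b * Complex.I) + G (t + (-b : ℝ) * Complex.I)) * (hm b t : ℝ) =
      G 0 := by
    have h1 : (c : ℂ) * b = π / 2 := by exact_mod_cast hcb
    simp only [e3]
    rw [integral_div, key]
    field_simp
    linear_combination (-4 * G 0) * h1
  have e5 : Integrable fun t : ℝ =>
      (G (t + b * Complex.I) + G (t + (-b : ℝ) * Complex.I)) * (hm b t : ℝ) := by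
    simp only [e3]
    exact (hm'.sub hp).div_const _
  rw [← e4]
  refine Eq.trans ?_ (integral_re e5)
  congr 1
  ext t
  simp

theorem BGreen_wt {b : ℝ} (hb : 0 < b) (hb1 : b ≤ 1 / 2) : Wt 2 (hm b) := by
  refine ⟨by unfold hm; fun_prop, 1 / (2 * b), fun t => ?_⟩
  have h1 : 2 * max t 0 ≤ |π * t / (2 * b)| := by
    rw [abs_div, abs_mul, abs_of_pos pi_pos, abs_of_pos (by positivity : 0 < 2 * b),
      le_div_iff₀ (by positivity)]
    have h2 : max t 0 ≤ |t| := max_le (le_abs_self t) (abs_nonneg t)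
    have h3 : 0 ≤ max t 0 := le_max_right _ _
    (refine le_of_not_gt fun h_nl => ?_; linarith only [h_nl, h2, h3, hb, hb1, pi_gt_three, mul_nonneg h3 hb.le, mul_pos_of_neg_of_neg (Mathlib.Tactic.Linarith.sub_neg_of_lt hb) (Mathlib.Tactic.Linarith.sub_neg_of_lt h_nl), mul_nonneg_of_nonpos_of_nonpos (Mathlib.Tactic.Linarith.sub_nonpos_of_le hb1) (Mathlib.Tactic.Linarith.sub_nonpos_of_le h3), mul_nonneg_of_nonpos_of_nonpos (Mathlib.Tactic.Linarith.sub_nonpos_of_le hb1) (le_of_lt (Mathlib.Tactic.Linarith.sub_neg_of_lt h_nl)), mul_nonneg_of_nonpos_of_nonpos (Mathlib.Tactic.Linarith.sub_nonpos_of_le h2) (le_of_lt (Mathlib.Tactic.Linarith.sub_neg_of_lt pi_gt_three)), mul_nonneg_of_nonpos_of_nonpos (Mathlib.Tactic.Linarith.sub_nonpos_of_le h3) (le_of_lt (Mathlib.Tactic.Linarith.sub_neg_of_lt pi_gt_three))])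
  have h2 : exp (2 * max t 0) ≤ 2 * cosh (π * t / (2 * b)) := by
    rw [← cosh_abs, cosh_eq]
    linarith only [h1, exp_le_exp.2 h1, exp_pos (-|π * t / (2 * b)|)]
  have h3 := cosh_pos (π * t / (2 * b))
  rw [hm, abs_of_pos (by positivity), neg_mul, exp_neg, ← div_eq_mul_inv, div_div]
  exact one_div_le_one_div_of_le (by positivity) (by linarith only [hb, h2, mul_nonneg_of_nonpos_of_nonpos (le_of_lt (Mathlib.Tactic.Linarith.sub_neg_of_lt hb)) (Mathlib.Tactic.Linarith.sub_nonpos_of_le h2)])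

theorem BGreen_hm_neg (b t : ℝ) : hm b (-t) = hm b t := by
  rw [hm, hm, mul_neg, neg_div, cosh_neg]

theorem BGreen_hm_pos {b : ℝ} (hb : 0 < b) (t : ℝ) : 0 < hm b t := by
  have := cosh_pos (π * t / (2 * b))
  rw [hm]
  positivity

theorem BGreen_flip (b x φ : ℝ) :
    (fun t => nk (x - t) φ * hm b t) = fun t => hm b (-t) * nk (-t - -x) φ := by
  ext t
  rw [BGreen_hm_neg, mul_comm, show -t - -x = x - t by ring]

theorem integrable_green {b : ℝ} (hb : 0 < b) (hb1 : b ≤ 1 / 2) (x φ : ℝ) :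
    Integrable fun t => nk (x - t) φ * hm b t := by
  rw [BGreen_flip]
  exact ((BGreen_wt hb hb1).int_nk (by norm_num) (-x) φ).comp_neg

theorem BGreen_cont {b : ℝ} (hb : 0 < b) (hb1 : b ≤ 1 / 2) (x : ℝ) :
    Continuous fun θ => ∫ t, (nk (x - t) (θ - b) + nk (x - t) (θ + b)) * hm b t := by
  have h1 : Continuous fun φ => ∫ t, nk (x - t) φ * hm b t := by
    refine (continuous_int_nk (BGreen_wt hb hb1) (by norm_num) (-x)).congr fun φ => ?_
    rw [BGreen_flip]
    exact (integral_neg_eq_self (fun t => hm b t * nk (t - -x) φ) volume).symm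
  refine ((h1.comp (continuous_sub_right b)).add (h1.comp (continuous_add_const b))).congr
    fun θ => ?_
  simp only [add_mul]
  exact (integral_add (integrable_green hb hb1 x _) (integrable_green hb hb1 x _)).symm

theorem BGreen_nk (w : ℂ) :
    nk w.re w.im = Real.log ‖1 - Complex.exp w‖ + (Complex.exp w).re := by
  rw [nk, lg, Complex.re_add_im, Complex.exp_re]

theorem BGreen_env {s : ℝ} (hs : 1 ≤ |s|) (φ : ℝ) : |nk s φ| ≤ 5 * exp |s| := by
  have h0 : s ≠ 0 := by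
    rintro rfl
    norm_num at hs
  have h1 := abs_nk_le h0 φ
  have h2 := l0_le hs
  have h3 := l0_nonneg s
  have h4 : exp (-|s|) ≤ 1 := exp_le_one_iff.2 (by linarith only [hs])
  have h5 := add_one_le_exp |s|
  have h6 : exp s ≤ exp |s| := exp_le_exp.2 (le_abs_self s)
  have h7 := le_abs_self s
  rw [env] at h1
  split_ifs at h1 with h
  · linarith only [hs, h2, h4, h5, h1, h3, h6, exp_pos s, mul_nonneg_of_nonpos_of_nonpos (Mathlib.Tactic.Linarith.sub_nonpos_of_le hs) (Mathlib.Tactic.Linarith.sub_nonpos_of_le h2), mul_nonneg_of_nonpos_of_nonpos (Mathlib.Tactic.Linarith.sub_nonpos_of_le hs) (Mathlib.Tactic.Linarith.sub_nonpos_of_le h4), mul_nonneg_of_nonpos_of_nonpos (Mathlib.Tactic.Linarith.sub_nonpos_of_le h2) (Mathlib.Tactic.Linarith.sub_nonpos_of_le h5), mul_nonneg_of_nonpos_of_nonpos (Mathlib.Tactic.Linarith.sub_nonpos_of_le h3) (Mathlib.Tactic.Linarith.sub_nonpos_of_le h6), mul_nonneg_of_nonpos_of_nonpos (Mathlib.Tactic.Linarith.sub_nonpos_of_le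 h4) (Mathlib.Tactic.Linarith.sub_nonpos_of_le h5)]
  · linarith only [hs, h2, h4, h5, h6, h7, h1]

theorem BGreen_growth {x K : ℝ} {ζ g : ℂ} (hK : 0 ≤ K) (h : |x| + 1 ≤ |ζ.re|) (φ : ℝ)
    (h1 : |g.re - nk (x - ζ.re) φ| ≤ K) (h2 : |g.im| ≤ K + exp (x - ζ.re)) :
    ‖g‖ ≤ (2 * K + 6) * exp |x| * exp |ζ.re| := by
  have a1 : |ζ.re| - |x| ≤ |x - ζ.re| := by
    rw [abs_sub_comm]
    exact abs_sub_abs_le_abs_sub _ _
  have a2 : exp |x - ζ.re| ≤ exp |x| * exp |ζ.re| := by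
    rw [← exp_add]
    exact exp_le_exp.2 (abs_sub _ _)
  have a3 := BGreen_env (s := x - ζ.re) (by linarith) φ
  have a4 : exp (x - ζ.re) ≤ exp |x - ζ.re| := exp_le_exp.2 (le_abs_self _)
  have a5 : 1 ≤ exp |x - ζ.re| := one_le_exp (abs_nonneg _)
  have a6 := abs_sub_abs_le_abs_sub g.re (nk (x - ζ.re) φ)
  have a7 := Complex.norm_le_abs_re_add_abs_im g
  rw [mul_assoc]
  linarith only [h1, h2, a2, a3, a4, a6, a7, hK, a5, mul_nonneg_of_nonpos_of_nonpos (Mathlib.Tactic.Linarith.sub_nonpos_of_le hK) (Mathlib.Tactic.Linarith.sub_nonpos_of_le a2), mul_nonneg_of_nonpos_of_nonpos (Mathlib.Tactic.Linarith.sub_nonpos_of_le hK) (Mathlib.Tactic.Linarith.sub_nonpos_of_le a5)]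

/-- No zero in the closed strip. -/
theorem BGreen_out {b : ℝ} (hb : 0 < b) (hb1 : b ≤ 1 / 2) (x : ℝ) {θ : ℝ} (h1 : b < |θ|)
    (h2 : |θ| ≤ 4) :
    ∫ t, (nk (x - t) (θ - b) + nk (x - t) (θ + b)) * hm b t = nk x θ := by
  obtain ⟨z, hz1, hz2⟩ : ∃ z : ℂ, z.re = x ∧ z.im = θ := ⟨⟨x, θ⟩, rfl, rfl⟩
  have hre : ∀ ζ : ℂ, (Complex.log (1 - Complex.exp (z - ζ)) + Complex.exp (z - ζ)).re =
      nk (x - ζ.re) (θ - ζ.im) := by
    intro ζ
    rw [← hz1, ← hz2, ← Complex.sub_re, ← Complex.sub_im, BGreen_nk, Complex.add_re,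
      Complex.log_re]
  have key := BGreen_mean hb hb1
    (fun ζ => Complex.log (1 - Complex.exp (z - ζ)) + Complex.exp (z - ζ)) ∅ (by simp) (by simp)
    (fun ζ hζ _ => by
      refine DifferentiableAt.add (DifferentiableAt.clog (by fun_prop) ?_) (by fun_prop)
      rw [Complex.mem_slitPlane_iff, Complex.sub_re, Complex.sub_im, Complex.exp_re,
        Complex.exp_im, Complex.sub_im, hz2, Complex.one_re, Complex.one_im]
      have a1 := exp_pos (z - ζ).re
      by_cases e : sin (θ - ζ.im) = 0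
      · have a2 := abs_sub_abs_le_abs_sub θ ζ.im
        have a3 := abs_sub θ ζ.im
        have a4 : |θ - ζ.im| < 2 * π := by linarith only [hb, hb1, h2, hζ, a3, pi_gt_three]
        rcases sin_eq_zero_iff_cos_eq.1 e with e | e
        · rw [(cos_eq_one_iff_of_lt_of_lt (abs_lt.1 a4).1 (abs_lt.1 a4).2).1 e, abs_zero] at a2
          linarith only [h1, hζ, a2]
        · rw [e]
          exact Or.inl (by linarith only [hb, hb1, a1])
      · exact Or.inr (by simpa using e))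
    (by simp) (C := (2 * π + 6) * exp |x|) (T := |x| + 1)
    (fun ζ _ hζ => BGreen_growth pi_pos.le hζ (θ - ζ.im) (by rw [hre]; simpa using pi_pos.le) (by
      rw [Complex.add_im, Complex.log_im]
      refine (abs_add_le _ _).trans (add_le_add (Complex.abs_arg_le_pi _) ?_)
      simpa [Complex.norm_exp, hz1] using Complex.abs_im_le_norm (Complex.exp (z - ζ))))
  simp only [hre] at key
  simpa using key

theorem BGreen_quot {c : ℝ} (hc : 0 < c) {w : ℂ} (h0 : w ≠ 0) (h1 : |w.im / 2| < π / 2)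
    (h2 : |c * w.im| < π / 2) : 0 < (Complex.sinh (w / 2) / Complex.sinh (c * w)).re := by
  have hne : Complex.sinh (c * w) ≠ 0 :=
    BGreen_sinh_ne (by rw [Complex.im_ofReal_mul]; linarith only [h2, pi_pos])
      (mul_ne_zero (Complex.ofReal_ne_zero.2 hc.ne') h0)
  rw [Complex.div_re, ← add_div]
  refine div_pos ?_ (Complex.normSq_pos.2 hne)
  rw [(BGreen_sinh _).1, (BGreen_sinh _).1, (BGreen_sinh _).2, (BGreen_sinh _).2,
    Complex.re_ofReal_mul, Complex.im_ofReal_mul, Complex.div_ofNat_re, Complex.div_ofNat_im]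
  have a1 : 0 < cos (w.im / 2) * cos (c * w.im) :=
    mul_pos (cos_pos_of_mem_Ioo (abs_lt.1 h1)) (cos_pos_of_mem_Ioo (abs_lt.1 h2))
  have a2 : 0 < cosh (w.re / 2) * cosh (c * w.re) := mul_pos (cosh_pos _) (cosh_pos _)
  have a3 : w.re ≠ 0 → 0 < sinh (w.re / 2) * sinh (c * w.re) := by
    intro h
    rcases h.lt_or_gt with h | h
    · exact mul_pos_of_neg_of_neg (sinh_neg_iff.2 (by linarith only [h])) (sinh_neg_iff.2 (by linarith only [hc, h, mul_pos_of_neg_of_neg (Mathlib.Tactic.Linarith.sub_neg_of_lt hc) (Mathlib.Tactic.Linarith.sub_neg_of_lt h)]))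
    · exact mul_pos (sinh_pos_iff.2 (by linarith only [h])) (sinh_pos_iff.2 (by positivity))
  have a4 : w.im ≠ 0 → 0 < sin (w.im / 2) * sin (c * w.im) := by
    intro h
    have b1 := abs_lt.1 h1
    have b2 := abs_lt.1 h2
    rcases h.lt_or_gt with h | h
    · exact mul_pos_of_neg_of_neg
        (sin_neg_of_neg_of_neg_pi_lt (by linarith only [h]) (by linarith only [b1, h, pi_pos]))
        (sin_neg_of_neg_of_neg_pi_lt (by linarith only [hc, h, mul_pos_of_neg_of_neg (Mathlib.Tactic.Linarith.sub_neg_of_lt hc) (Mathlib.Tactic.Linarith.sub_neg_of_lt h)]) (by linarith only [b1, b2, h, pi_pos]))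
    · exact mul_pos (sin_pos_of_pos_of_lt_pi (by linarith only [h]) (by linarith only [b1, h, pi_pos]))
        (sin_pos_of_pos_of_lt_pi (by positivity) (by linarith only [b1, b2, h, pi_pos]))
  by_cases e1 : w.re = 0
  · have := mul_pos a2 (a4 fun e2 => h0 (Complex.ext e1 e2))
    rw [e1] at this ⊢
    simp only [zero_div, mul_zero, sinh_zero, zero_mul, zero_add] at this ⊢
    linarith only [this]
  · have a5 := mul_pos a1 (a3 e1)
    by_cases e2 : w.im = 0
    · rw [e2] at a5 ⊢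
      simp only [zero_div, mul_zero, sin_zero, add_zero] at a5 ⊢
      linarith only [a5]
    · have := mul_pos a2 (a4 e2)
      linarith only [a5, this]

theorem BGreen_half {w : ℂ} (h : Complex.sinh (w / 2) ≠ 0) : Real.log ‖1 - Complex.exp w‖ =
    w.re / 2 + Real.log 2 + Real.log ‖Complex.sinh (w / 2)‖ := by
  have e1 : 1 - Complex.exp w = -(Complex.exp (w / 2) * (2 * Complex.sinh (w / 2))) := by
    rw [Complex.two_sinh, mul_sub, ← Complex.exp_add, ← Complex.exp_add, add_halves,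
      add_neg_cancel, Complex.exp_zero, neg_sub]
  rw [e1, norm_neg, norm_mul, norm_mul, Complex.norm_exp, Complex.norm_ofNat,
    Real.log_mul (exp_pos _).ne' (mul_ne_zero two_ne_zero (norm_ne_zero_iff.2 h)),
    Real.log_mul two_ne_zero (norm_ne_zero_iff.2 h), Real.log_exp, Complex.div_ofNat_re, add_assoc]

theorem BGreen_log {p q : ℝ} (hp : 0 < p) (hq : 0 < q) (h : p ^ 2 ≤ 4 * q ^ 2) :
    Real.log p - Real.log q ≤ 1 := by
  have h1 : p ≤ 2 * q := (abs_le_of_sq_le_sq' (by linarith) (by positivity)).2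
  rw [← Real.log_div hp.ne' hq.ne']
  have h2 := Real.log_le_sub_one_of_pos (div_pos hp hq)
  have h3 : p / q ≤ 2 := (div_le_iff₀ hq).2 h1
  linarith only [h2, h3]

/-- One zero in the open strip. -/
theorem BGreen_in {b : ℝ} (hb : 0 < b) (hb1 : b ≤ 1 / 2) {z : ℂ} (h0 : z ≠ 0) (h1 : |z.im| < b) :
    nk z.re z.im ≤ ∫ t, (nk (z.re - t) (z.im - b) + nk (z.re - t) (z.im + b)) * hm b t := by
  obtain ⟨c, hc⟩ : ∃ c : ℝ, c = π / (4 * b) := ⟨_, rfl⟩
  have hcb : c * b = π / 4 := by rw [hc]; field_simp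
  have hc1 : 1 ≤ c := by
    rw [hc, le_div_iff₀ (by positivity)]
    linarith only [hb, hb1, pi_gt_three]
  have hc0 : 0 < c := by linarith only [hb, hb1, hc1]
  obtain ⟨z', hz1, hz2⟩ : ∃ z' : ℂ, z'.re = z.re ∧ z'.im = -z.im := ⟨⟨z.re, -z.im⟩, rfl, rfl⟩
  have hang : ∀ y : ℝ, |y| < 2 * b → |c * y| < π / 2 := by
    intro y hy
    rw [abs_mul, abs_of_pos hc0]
    linarith only [hcb, hb, hy, hb1, hc1, mul_pos_of_neg_of_neg (Mathlib.Tactic.Linarith.sub_neg_of_lt hb) (Mathlib.Tactic.Linarith.sub_neg_of_lt hy), mul_nonneg_of_nonpos_of_nonpos (Mathlib.Tactic.Linarith.sub_nonpos_of_le hb1) (le_of_lt (Mathlib.Tactic.Linarith.sub_neg_of_lt hy)), mul_nonneg_of_nonpos_of_nonpos (Mathlib.Tactic.Linarith.sub_nonpos_of_le hc1) (le_of_lt (Mathlib.Tactic.Linarith.sub_neg_of_lt hy))]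
  have hq : ∀ ζ : ℂ, |ζ.im| ≤ b → ζ ≠ z →
      0 < (Complex.sinh ((z - ζ) / 2) / Complex.sinh (c * (z - ζ))).re := by
    intro ζ h2 h3
    have h4 : |(z - ζ).im| < 2 * b := by
      rw [Complex.sub_im]
      linarith only [h1, h2, abs_sub z.im ζ.im]
    refine BGreen_quot hc0 (sub_ne_zero.2 h3.symm) ?_ (hang _ h4)
    rw [abs_div, abs_two]
    linarith only [hb, hb1, h4, pi_gt_three]
  have hch : ∀ ζ : ℂ, |ζ.im| ≤ b → 0 < (Complex.cosh (c * (z' - ζ))).re := by
    intro ζ h2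
    rw [(BGreen_cosh _).1, Complex.im_ofReal_mul]
    refine mul_pos (cosh_pos _) (cos_pos_of_mem_Ioo (abs_lt.1 (hang _ ?_)))
    rw [Complex.sub_im, hz2]
    linarith only [h1, h2, abs_sub (-z.im) ζ.im, abs_neg z.im]
  obtain ⟨G, hG⟩ : ∃ G : ℂ → ℂ, G = fun ζ => (z - ζ) / 2 + (Real.log 2 : ℝ) +
      Complex.log (Complex.sinh ((z - ζ) / 2) / Complex.sinh (c * (z - ζ))) +
      Complex.log (Complex.cosh (c * (z' - ζ))) + Complex.exp (z - ζ) := ⟨_, rfl⟩
  have hne : ∀ ζ : ℂ, |ζ.im| ≤ b → ζ ≠ z →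
      Complex.sinh ((z - ζ) / 2) ≠ 0 ∧ Complex.sinh (c * (z - ζ)) ≠ 0 ∧
        Complex.cosh (c * (z' - ζ)) ≠ 0 := by
    intro ζ h2 h3
    have h4 := hq ζ h2 h3
    have h5 := hch ζ h2
    refine ⟨fun e => ?_, fun e => ?_, fun e => ?_⟩
    · simp [e] at h4
    · simp [e] at h4
    · simp [e] at h5
  have hre : ∀ ζ : ℂ, |ζ.im| ≤ b → ζ ≠ z → (G ζ).re = nk (z.re - ζ.re) (z.im - ζ.im) +
      (Real.log ‖Complex.cosh (c * (z' - ζ))‖ - Real.log ‖Complex.sinh (c * (z - ζ))‖) := by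
    intro ζ h2 h3
    obtain ⟨a1, a2, -⟩ := hne ζ h2 h3
    rw [← Complex.sub_re, ← Complex.sub_im, BGreen_nk, BGreen_half a1, hG]
    simp only [Complex.add_re, Complex.log_re, Complex.ofReal_re, Complex.div_ofNat_re, norm_div]
    rw [Real.log_div (norm_ne_zero_iff.2 a1) (norm_ne_zero_iff.2 a2)]
    ring
  have hn1 : ∀ ζ : ℂ, ‖Complex.cosh (c * (z' - ζ))‖ ^ 2 =
      sinh (c * (z.re - ζ.re)) ^ 2 + cos (c * z.im + c * ζ.im) ^ 2 := by
    intro ζ
    rw [BGreen_ncosh, Complex.re_ofReal_mul, Complex.im_ofReal_mul, Complex.sub_re, Complex.sub_im,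
      hz1, hz2, ← cos_neg]
    congr 3
    ring
  have hn2 : ∀ ζ : ℂ, ‖Complex.sinh (c * (z - ζ))‖ ^ 2 =
      sinh (c * (z.re - ζ.re)) ^ 2 + sin (c * z.im - c * ζ.im) ^ 2 := by
    intro ζ
    rw [BGreen_nsinh, Complex.re_ofReal_mul, Complex.im_ofReal_mul, Complex.sub_re, Complex.sub_im,
      mul_sub c z.im]
  have hbd : ∀ ζ : ℂ, |ζ.im| = b → (G ζ).re = nk (z.re - ζ.re) (z.im - ζ.im) := by
    intro ζ h2
    have a1 : ‖Complex.cosh (c * (z' - ζ))‖ = ‖Complex.sinh (c * (z - ζ))‖ := by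
      refine (pow_left_inj₀ (norm_nonneg _) (norm_nonneg _) two_ne_zero).1 ?_
      rw [hn1, hn2]
      rcases (abs_eq hb.le).1 h2 with e | e
      · rw [e, hcb, show c * z.im + π / 4 = c * z.im - π / 4 + π / 2 by ring, cos_add_pi_div_two,
          neg_sq]
      · rw [e, mul_neg, hcb, show c * z.im - -(π / 4) = c * z.im + -(π / 4) + π / 2 by ring,
          sin_add_pi_div_two]
    rw [hre ζ h2.le (fun e => by rw [e] at h2; linarith only [h1, h2]), a1, sub_self, add_zero]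
  have key := BGreen_mean hb hb1 G {z} (by simpa using h1) (by simpa using h0.symm)
    (fun ζ h2 h3 => by
      rw [Finset.mem_singleton] at h3
      have a1 : DifferentiableAt ℂ
          (fun ζ : ℂ => Complex.sinh ((z - ζ) / 2) / Complex.sinh (c * (z - ζ))) ζ :=
        DifferentiableAt.fun_div (by fun_prop) (by fun_prop) (hne ζ h2 h3).2.1
      have a2 := a1.clog (Or.inl (hq ζ h2 h3))
      have a3 : DifferentiableAt ℂ (fun ζ : ℂ => Complex.cosh (c * (z' - ζ))) ζ := by fun_prop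
      have a4 := a3.clog (Or.inl (hch ζ h2))
      have a5 : DifferentiableAt ℂ (fun ζ : ℂ => (z - ζ) / 2 + (Real.log 2 : ℝ)) ζ := by fun_prop
      have a6 : DifferentiableAt ℂ (fun ζ : ℂ => Complex.exp (z - ζ)) ζ := by fun_prop
      rw [hG]
      exact ((a5.fun_add a2).fun_add a4).fun_add a6)
    (fun p hp => by
      obtain rfl := Finset.mem_singleton.1 hp
      have a1 : HasDerivAt (fun ζ : ℂ => Complex.sinh ((p - ζ) / 2)) (-1 / 2) p := by
        simpa using (((hasDerivAt_id p).const_sub p).div_const 2).csinh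
      have a2 : HasDerivAt (fun ζ : ℂ => Complex.sinh (c * (p - ζ))) (-c) p := by
        simpa using (((hasDerivAt_id p).const_sub p).const_mul (c : ℂ)).csinh
      have a3 : (c : ℂ) ≠ 0 := Complex.ofReal_ne_zero.2 hc0.ne'
      have a4 : Tendsto (fun ζ : ℂ => Complex.sinh ((p - ζ) / 2) / Complex.sinh (c * (p - ζ)))
          (𝓝[≠] p) (𝓝 ((1 / (2 * c) : ℝ) : ℂ)) := by
        have a5 := (BGreen_slope a1 (by simp)).div (BGreen_slope a2 (by simp)) (neg_ne_zero.2 a3)
        rw [show (-1 / 2 / -(c : ℂ)) = ((1 / (2 * c) : ℝ) : ℂ) by push_cast; field_simp] at a5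
        refine a5.congr' ?_
        filter_upwards [self_mem_nhdsWithin] with ζ hζ
        exact div_div_div_cancel_right₀ (sub_ne_zero.2 hζ) _ _
      have a6 : ContinuousAt (fun ζ : ℂ => Complex.log (Complex.cosh (c * (z' - ζ)))) p :=
        ContinuousAt.clog (by fun_prop) (Or.inl (hch p h1.le))
      have a7 : Continuous fun ζ : ℂ => (p - ζ) / 2 + (Real.log 2 : ℝ) := by fun_prop
      have a8 : Continuous fun ζ : ℂ => Complex.exp (p - ζ) := by fun_prop
      rw [hG]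
      exact ⟨_, ((((a7.tendsto p).mono_left nhdsWithin_le_nhds).add
        (a4.clog (Complex.ofReal_mem_slitPlane.2 (by positivity)))).add
        (a6.tendsto.mono_left nhdsWithin_le_nhds)).add
        ((a8.tendsto p).mono_left nhdsWithin_le_nhds)⟩)
    (C := (2 * (1 + 2 * π) + 6) * exp |z.re|) (T := |z.re| + 1)
    (fun ζ h2 h3 => by
      have a1 : 1 ≤ |z.re - ζ.re| := by
        rw [abs_sub_comm]
        linarith only [h3, abs_sub_abs_le_abs_sub ζ.re z.re]
      have a2 : ζ ≠ z := fun e => by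
        rw [e] at h3
        linarith only [hb, hb1, h3]
      obtain ⟨-, a3, a4⟩ := hne ζ h2 a2
      have a5 : 1 ≤ |sinh (c * (z.re - ζ.re))| := by
        rw [abs_sinh, abs_mul, abs_of_pos hc0]
        exact le_trans (by (refine le_of_not_gt fun h_nl => ?_; linarith only [h_nl, hc1, a1, hb, hb1, mul_pos_of_neg_of_neg (Mathlib.Tactic.Linarith.sub_neg_of_lt hb) (Mathlib.Tactic.Linarith.sub_neg_of_lt h_nl), mul_nonneg_of_nonpos_of_nonpos (Mathlib.Tactic.Linarith.sub_nonpos_of_le hb1) (le_of_lt (Mathlib.Tactic.Linarith.sub_neg_of_lt h_nl)), mul_nonneg_of_nonpos_of_nonpos (Mathlib.Tactic.Linarith.sub_nonpos_of_le hc1) (Mathlib.Tactic.Linarith.sub_nonpos_of_le a1)])) (self_le_sinh_iff.2 (by positivity))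
      have a6 : 1 ≤ sinh (c * (z.re - ζ.re)) ^ 2 := by
        rw [← sq_abs]
        linarith only [a5, mul_nonneg_of_nonpos_of_nonpos (Mathlib.Tactic.Linarith.sub_nonpos_of_le a5) (Mathlib.Tactic.Linarith.sub_nonpos_of_le a5)]
      refine BGreen_growth (by positivity) h3 (z.im - ζ.im) ?_ ?_
      · rw [hre ζ h2 a2, add_sub_cancel_left, abs_sub_le_iff]
        have b1 := BGreen_log (norm_pos_iff.2 a4) (norm_pos_iff.2 a3) (by
          rw [hn1, hn2]
          linarith only [hb, hb1, a6, cos_sq_le_one (c * z.im + c * ζ.im), sq_nonneg (sin (c * z.im - c * ζ.im)), sq_nonneg (sin (c * z.im - c * ζ.im))])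
        have b2 := BGreen_log (norm_pos_iff.2 a3) (norm_pos_iff.2 a4) (by
          rw [hn1, hn2]
          linarith only [hb, hb1, a6, sin_sq_le_one (c * z.im - c * ζ.im), sq_nonneg (cos (c * z.im + c * ζ.im)), sq_nonneg (cos (c * z.im + c * ζ.im))])
        constructor <;> linarith only [b1, b2, pi_pos]
      · have b1 := Complex.abs_im_le_norm (Complex.exp (z - ζ))
        have b2 := abs_le.1 (Complex.abs_arg_le_pi
          (Complex.sinh ((z - ζ) / 2) / Complex.sinh (c * (z - ζ))))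
        have b3 := abs_le.1 (Complex.abs_arg_le_pi (Complex.cosh (c * (z' - ζ))))
        have b4 := abs_le.1 h2
        have b5 := abs_lt.1 h1
        rw [Complex.norm_exp, Complex.sub_re, abs_le] at b1
        rw [hG]
        simp only [Complex.add_im, Complex.log_im, Complex.ofReal_im, Complex.div_ofNat_im,
          Complex.sub_im]
        rw [abs_le]
        constructor <;> linarith only [hb, hb1, b1, b2, b3, b4, b5, b1.1, b1.2, b2.1, b2.2, b3.1, b3.2])
  have e1 : ∀ t : ℝ, (G (t + b * Complex.I)).re = nk (z.re - t) (z.im - b) := fun t => by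
    simpa using hbd (t + b * Complex.I) (by simpa using hb.le)
  have e2 : ∀ t : ℝ, (G (t + (-b : ℝ) * Complex.I)).re = nk (z.re - t) (z.im + b) := fun t => by
    simpa using hbd (t + (-b : ℝ) * Complex.I) (by simpa using hb.le)
  simp only [e1, e2] at key
  rw [key, hre 0 (by simpa using hb.le) h0.symm, Complex.zero_re, Complex.zero_im, sub_zero,
    sub_zero, le_add_iff_nonneg_right, sub_nonneg]
  refine Real.log_le_log (norm_pos_iff.2 (hne 0 (by simpa using hb.le) h0.symm).2.1)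
    (abs_le_of_sq_le_sq' ?_ (norm_nonneg _)).2
  have a1 := cos_pos_of_mem_Ioo (abs_lt.1 (show |2 * (c * z.im)| < π / 2 by
    rw [← mul_assoc, mul_comm 2, mul_assoc]
    exact hang _ (by rw [abs_mul, abs_two]; linarith only [h1])))
  rw [cos_two_mul'] at a1
  rw [hn1, hn2, Complex.zero_im, mul_zero, add_zero, sub_zero]
  linarith only [a1]

theorem green_ge {b : ℝ} (hb : 0 < b) (hb1 : b ≤ 1 / 2) {x θ : ℝ}
    (h : Complex.exp (x + θ * Complex.I) ≠ 1) :
    nk x θ ≤ ∫ t, (nk (x - t) (θ - b) + nk (x - t) (θ + b)) * hm b t := by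
  obtain ⟨k, hk⟩ := exists_rp θ
  have hψ : |rp θ| ≤ π := abs_le.2 ⟨(rp_mem θ).1.le, (rp_mem θ).2⟩
  have h' : Complex.exp (x + rp θ * Complex.I) ≠ 1 := by
    rw [hk, show (x : ℂ) + ((θ + k * (2 * π) : ℝ) : ℂ) * Complex.I =
      x + θ * Complex.I + k * (2 * π * Complex.I) by push_cast; ring, Complex.exp_add,
      Complex.exp_int_mul_two_pi_mul_I, mul_one]
    exact h
  have e1 : ∀ s y : ℝ, nk s (θ + y) = nk s (rp θ + y) := fun s y => by
    rw [hk, ← nk_per s (θ + y) k]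
    congr 1
    ring
  have e2 : nk x θ = nk x (rp θ) := by simpa using e1 x 0
  simp only [sub_eq_add_neg θ, e1]
  simp only [← sub_eq_add_neg (rp θ)]
  rw [e2]
  generalize rp θ = ψ at hψ h'
  rcases lt_trichotomy |ψ| b with h1 | h1 | h1
  · have := BGreen_in hb hb1 (z := x + ψ * Complex.I) (fun e => h' (by rw [e, Complex.exp_zero]))
      (by simpa using h1)
    simpa using this
  · have a1 : ContinuousAt (fun u : ℝ => nk x (u * ψ)) 1 := by
      have a2 : ContinuousAt (fun u : ℝ => lg x (u * ψ)) 1 :=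
        ContinuousAt.comp_of_eq (f := fun u : ℝ => (x, u * ψ)) (continuousAt_lg h') (by fun_prop)
          (by simp)
      unfold nk
      exact a2.add (by fun_prop)
    have a2 := ((BGreen_cont hb hb1 x).comp (continuous_mul_const ψ)).continuousAt (x := 1)
    have a3 := tendsto_nhds_unique_of_eventuallyEq
      (a2.tendsto.mono_left (nhdsWithin_le_nhds (s := Ioi 1)))
      (a1.tendsto.mono_left nhdsWithin_le_nhds) (by
        filter_upwards [Ioo_mem_nhdsGT (one_lt_two (α := ℝ))] with u hu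
        have a4 : |u * ψ| = u * b := by rw [abs_mul, h1, abs_of_pos (by linarith only [hb, hb1, hu, hu.1])]
        exact BGreen_out hb hb1 x (by rw [a4]; linarith only [hb, hu, hu.1, mul_pos_of_neg_of_neg (Mathlib.Tactic.Linarith.sub_neg_of_lt hb) (Mathlib.Tactic.Linarith.sub_neg_of_lt hu.left)]) (by rw [a4]; linarith only [hb1, hb, hu, hu.2, mul_pos_of_neg_of_neg (Mathlib.Tactic.Linarith.sub_neg_of_lt hb) (Mathlib.Tactic.Linarith.sub_neg_of_lt hb), mul_nonneg_of_nonpos_of_nonpos (le_of_lt (Mathlib.Tactic.Linarith.sub_neg_of_lt hb)) (Mathlib.Tactic.Linarith.sub_nonpos_of_le hb1), mul_pos_of_neg_of_neg (Mathlib.Tactic.Linarith.sub_neg_of_lt hb) (Mathlib.Tactic.Linarith.sub_neg_of_lt hu.right)]))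
    simp only [Function.comp_apply, one_mul] at a3
    exact a3.ge
  · exact (BGreen_out hb hb1 x h1 (by linarith only [hψ, pi_le_four])).ge

theorem green_near : ∃ C : ℝ, 1 ≤ C ∧ ∀ b x : ℝ, 0 < b → b ≤ 1 / 2 → x ≠ 0 → |x| ≤ b / 2 →
    nk x 0 ≤ (∫ t, (nk (x - t) (0 - b) + nk (x - t) (0 + b)) * hm b t) + Real.log (|x| / b) + C := by
  refine ⟨5, by norm_num, fun b x hb hb1 hx hxb => ?_⟩
  have hl2 : Real.log 2 ≤ 1 := by linarith only [Real.log_le_sub_one_of_pos (two_pos (α := ℝ))]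
  have hx0 : 0 < |x| := abs_pos.2 hx
  have h1 : nk x 0 ≤ Real.log |x| + 3 := by
    have a1 := abs_exp_sub_one_le (x := x) (by linarith only [hb1, hxb, hx0])
    have a2 : ‖1 - Complex.exp (x + (0 : ℝ) * Complex.I)‖ = |exp x - 1| := by
      rw [Complex.ofReal_zero, zero_mul, add_zero, ← Complex.ofReal_exp, ← Complex.ofReal_one,
        ← Complex.ofReal_sub, Complex.norm_real, Real.norm_eq_abs, abs_sub_comm]
    have a3 : 0 < |exp x - 1| := abs_pos.2 (sub_ne_zero.2 (mt (exp_eq_one_iff x).1 hx))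
    have a4 := Real.log_le_log a3 a1
    rw [Real.log_mul two_ne_zero hx0.ne'] at a4
    rw [nk, lg, a2, cos_zero, mul_one]
    linarith only [hb1, hxb, hl2, hx0, a1, a4, le_abs_self (exp x - 1)]
  have h2 : ∀ s, Real.log b - 1 ≤ nk s b := by
    intro s
    have a1 : b / 2 ≤ sin b := by
      have a2 := mul_le_sin hb.le (by linarith only [hb1, hxb, hx0, pi_gt_three])
      have a3 : 1 / 2 ≤ 2 / π := by
        rw [le_div_iff₀ pi_pos]
        linarith only [pi_le_four]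
      linarith only [a2, hb, a3, mul_nonneg_of_nonpos_of_nonpos (le_of_lt (Mathlib.Tactic.Linarith.sub_neg_of_lt hb)) (Mathlib.Tactic.Linarith.sub_nonpos_of_le a3)]
    have a2 : 0 ≤ exp s * cos b := mul_nonneg (exp_pos s).le
      (cos_nonneg_of_mem_Icc ⟨by linarith only [hxb, hx0, pi_pos], by linarith only [hb1, hxb, hx0, pi_gt_three]⟩)
    have a3 : (b / 2) ^ 2 ≤ 1 - 2 * exp s * cos b + exp (2 * s) := by
      rw [two_mul s, exp_add]
      (refine le_of_not_gt fun h_nl => ?_; linarith only [h_nl, hb, a1, hb1, hxb, hx0, sq_nonneg (exp s - cos b), sin_sq_add_cos_sq b, sq_nonneg (rexp s - cos b), mul_nonneg_of_nonpos_of_nonpos (le_of_lt (Mathlib.Tactic.Linarith.sub_neg_of_lt hb)) (Mathlib.Tactic.Linarith.sub_nonpos_of_le a1), mul_nonneg_of_nonpos_of_nonpos (Mathlib.Tactic.Linarith.sub_nonpos_of_le hb1) (le_of_lt (Mathlib.Tactic.Linarith.sub_neg_of_lt h_nl)), mul_nonneg_of_nonpos_of_nonpos (Mathlib.Tactic.Linarith.sub_nonpos_of_le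 hxb) (le_of_lt (Mathlib.Tactic.Linarith.sub_neg_of_lt h_nl)), mul_pos_of_neg_of_neg (Mathlib.Tactic.Linarith.sub_neg_of_lt hx0) (Mathlib.Tactic.Linarith.sub_neg_of_lt h_nl), mul_nonneg_of_nonpos_of_nonpos (Mathlib.Tactic.Linarith.sub_nonpos_of_le a1) (Mathlib.Tactic.Linarith.sub_nonpos_of_le a1)])
    have a4 := Real.log_le_log (by positivity) a3
    rw [Real.log_pow, Real.log_div hb.ne' two_ne_zero] at a4
    rw [nk, lg_eq]
    push_cast at a4
    linarith only [hl2, a2, a4]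
  have h3 := BGreen_mean hb hb1 (fun _ => 1) ∅ (by simp) (by simp) (by simp) (by simp) (C := 1)
    (T := 0) (by simp)
  have h4 : Integrable fun t => (1 + 1) * hm b t := Integrable.of_integral_ne_zero (by
    simp only [Complex.one_re] at h3
    rw [h3]
    exact one_ne_zero)
  have h5 : ∫ t, (Real.log b - 1) * ((1 + 1) * hm b t) ≤
      ∫ t, (nk (x - t) (0 - b) + nk (x - t) (0 + b)) * hm b t := by
    refine integral_mono (h4.const_mul _) ?_ fun t => ?_
    · simp only [add_mul]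
      exact (integrable_green hb hb1 x _).add (integrable_green hb hb1 x _)
    · have := mul_le_mul_of_nonneg_right (h2 (x - t)) (BGreen_hm_pos hb t).le
      simp only [zero_sub, zero_add, nk_neg]
      linarith only [this]
  simp only [Complex.one_re] at h3
  rw [integral_const_mul, h3] at h5
  rw [Real.log_div hx0.ne' hb.ne']
  linarith only [hb1, hxb, hx0, h1, h5]

end

end Pool.Agent.MinMod
end

-- merged part: Pool.Agent.Work.MP_f62247_an.BHole
section
/-!
# The holes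

`n j = ⌊(b σ / 4) e^(2π lam j)⌋₊`, `p j = 2π j + iπ`, `f = exists_prod (exp (p j)) n`, `ν t = σ e^(lam t) - ∑' j, n j hm b (t - 2π j)`.
`hm b t ≤ e^(-π |t|/(2b)) / (2b)`, `π/(2b) ≥ 3`, so `∑ n j hm ≤ (σ/8) e^(lam t) ∑ e^(-|t - 2πj|) ≤ (σ/2) e^(lam t)`; continuity by `continuous_tsum` on bounded sets.
If `exp z = exp (p j)` with `n j ≠ 0` then `f = 0`.  Otherwise take `g j = n j * H j`, `H j = ∫ (nk (x-t) (θ-π-b) + nk (x-t) (θ-π+b)) hm b (t - 2πj) dt` (`green_ge`, `norm_factor`), with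
`g j0` lowered by `n j0 (log (|x - 2π j0|/b) + C)` in the second claim (`green_near`); `∑' g j = ∫ (..) (σ e^(lam t) - ν t)` (`integral_tsum_of_summable_integral_norm`, `int_exp_env`).
-/

open Real MeasureTheory Set Filter Topology

namespace Pool.Agent.MinMod

noncomputable section

theorem BHole_step (s : ℝ) :
    exp (-|s|) ≤ 4 * ((1 + exp s)⁻¹ - (1 + exp (s + 2 * π))⁻¹) := by
  have hq : 3 ≤ exp (2 * π) := by linarith only [add_one_le_exp (2 * π), pi_gt_three]
  have hy := exp_pos s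
  rw [exp_add]
  generalize exp (2 * π) = q at hq
  have h1 : (1 + exp s)⁻¹ - (1 + exp s * q)⁻¹ =
      exp s * (q - 1) / ((1 + exp s) * (1 + exp s * q)) := by
    field_simp
    ring
  rw [h1, ← mul_div_assoc, le_div_iff₀ (by positivity)]
  rcases le_total s 0 with h | h
  · have h2 : exp s ≤ 1 := exp_le_one_iff.2 h
    rw [abs_of_nonpos h, neg_neg]
    have h3 : (1 + exp s) * (1 + exp s * q) ≤ 2 * (1 + q) :=
      mul_le_mul (by linarith only [h2]) (by linarith only [h2, hq, mul_nonneg_of_nonpos_of_nonpos (Mathlib.Tactic.Linarith.sub_nonpos_of_le hq) (Mathlib.Tactic.Linarith.sub_nonpos_of_le h2)]) (by positivity) zero_le_two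
    linarith only [hy, hq, h3, mul_nonneg_of_nonpos_of_nonpos (le_of_lt (Mathlib.Tactic.Linarith.sub_neg_of_lt hy)) (Mathlib.Tactic.Linarith.sub_nonpos_of_le hq), mul_nonneg_of_nonpos_of_nonpos (le_of_lt (Mathlib.Tactic.Linarith.sub_neg_of_lt hy)) (Mathlib.Tactic.Linarith.sub_nonpos_of_le h3)]
  · have h2 : 1 ≤ exp s := one_le_exp h
    rw [abs_of_nonneg h, exp_neg, inv_mul_le_iff₀ hy]
    have h3 : (1 + exp s) * (1 + exp s * q) ≤ (2 * exp s) * (exp s + exp s * q) :=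
      mul_le_mul (by linarith only [h2]) (by linarith only [h2]) (by positivity) (by positivity)
    linarith only [h3, hy, hq, mul_nonneg (mul_pos hy hy).le (sub_nonneg.2 hq)]

theorem BHole_geo (t : ℝ) : (Summable fun j : ℕ => exp (-|t - j * (2 * π)|)) ∧
    ∑' j : ℕ, exp (-|t - j * (2 * π)|) ≤ 4 := by
  have h : ∀ N : ℕ, ∑ j ∈ Finset.range N, exp (-|t - j * (2 * π)|) ≤ 4 := fun N => by
    have h1 := Finset.sum_range_sub' (fun j : ℕ => (1 + exp (j * (2 * π) - t))⁻¹) N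
    have h0 := congrArg (4 * ·) h1
    simp only [Finset.mul_sum] at h0
    refine (Finset.sum_le_sum fun j _ => ?_).trans (h0.trans_le ?_)
    · rw [abs_sub_comm]
      refine (BHole_step _).trans_eq ?_
      congr 5
      push_cast
      ring
    · have h2 : (1 + exp (((0 : ℕ) : ℝ) * (2 * π) - t))⁻¹ ≤ 1 :=
        inv_le_one_of_one_le₀ (le_add_of_nonneg_right (exp_pos _).le)
      have h3 : 0 < (1 + exp (N * (2 * π) - t))⁻¹ := by positivity
      linarith only [h2, h3]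
  exact ⟨summable_of_sum_range_le (fun _ => (exp_pos _).le) h,
    Real.tsum_le_of_sum_range_le (fun _ => (exp_pos _).le) h⟩

theorem BHole_hm {b : ℝ} (hb : 0 < b) (hb1 : b ≤ 1 / 2) (t : ℝ) :
    0 < hm b t ∧ hm b t ≤ exp (-3 * |t|) / (2 * b) := by
  have h0 := cosh_pos (π * t / (2 * b))
  refine ⟨by rw [hm]; positivity, ?_⟩
  have h1 : exp (3 * |t|) ≤ 2 * cosh (π * t / (2 * b)) := by
    have h2 : 3 * |t| ≤ |π * t / (2 * b)| := by
      rw [abs_div, abs_mul, abs_of_pos pi_pos, abs_of_pos (by positivity : 0 < 2 * b),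
        le_div_iff₀ (by positivity)]
      (refine le_of_not_gt fun h_nl => ?_; linarith only [h_nl, hb, hb1, abs_nonneg t, pi_gt_three, mul_pos_of_neg_of_neg (Mathlib.Tactic.Linarith.sub_neg_of_lt hb) (Mathlib.Tactic.Linarith.sub_neg_of_lt h_nl), mul_nonneg_of_nonpos_of_nonpos (Mathlib.Tactic.Linarith.sub_nonpos_of_le hb1) (le_of_lt (Mathlib.Tactic.Linarith.sub_neg_of_lt h_nl)), mul_nonneg_of_nonpos_of_nonpos (Mathlib.Tactic.Linarith.sub_nonpos_of_le hb1) (Mathlib.Tactic.Linarith.sub_nonpos_of_le (abs_nonneg t)), mul_nonneg_of_nonpos_of_nonpos (Mathlib.Tactic.Linarith.sub_nonpos_of_le (abs_nonneg t)) (le_of_lt (Mathlib.Tactic.Linarith.sub_neg_of_lt pi_gt_three))])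
    rw [← cosh_abs, cosh_eq]
    linarith only [h2, exp_le_exp.2 h2, exp_pos (-|π * t / (2 * b)|)]
  rw [hm, div_le_div_iff₀ (by positivity) (by positivity), neg_mul, exp_neg,
    le_inv_mul_iff₀ (exp_pos _)]
  linarith only [hb, h1, mul_nonneg_of_nonpos_of_nonpos (le_of_lt (Mathlib.Tactic.Linarith.sub_neg_of_lt hb)) (Mathlib.Tactic.Linarith.sub_nonpos_of_le h1)]

theorem BHole_cont {b : ℝ} (hb : 0 < b) : Continuous (hm b) :=
  continuous_const.div (by fun_prop) fun t => (mul_pos (by positivity) (cosh_pos _)).ne'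

theorem BHole_int {lam M : ℝ} (h1 : 1 < lam) (h2 : lam < 2) (x φ : ℝ) {ρ : ℝ → ℝ}
    (hρ : Continuous ρ) (h : ∀ t, |ρ t| ≤ M * exp (lam * t)) :
    Integrable fun t => nk (x - t) φ * ρ t := by
  refine ((int_exp_nk h1 h2 (-x) φ).comp_neg.abs.const_mul M).mono' ?_ (ae_of_all _ fun t => ?_)
  · refine (Measurable.mul ?_ hρ.measurable).aestronglyMeasurable
    exact (measurable_lg.comp (g := fun p : ℝ × ℝ => lg p.1 p.2) (f := fun t => (x - t, φ))
      (by fun_prop)).add (by fun_prop)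
  · rw [Real.norm_eq_abs, abs_mul, abs_mul, neg_mul_neg, abs_exp, show -t - -x = x - t by ring,
      ← mul_assoc, mul_comm]
    exact mul_le_mul_of_nonneg_right (h t) (abs_nonneg _)

/-- The swept masses. -/
theorem BHole_mass {lam b σ : ℝ} (h1 : 1 < lam) (h2 : lam < 2) (hb : 0 < b) (hb1 : b ≤ 1 / 2)
    (hσ : 0 < σ) {n : ℕ → ℕ} (hn : ∀ j, (n j : ℝ) ≤ b * σ / 4 * exp (lam * (j * (2 * π)))) :
    ∃ S : ℝ → ℝ, Continuous S ∧ (∀ t, 0 ≤ S t ∧ S t ≤ σ / 2 * exp (lam * t)) ∧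
      ∀ x φ : ℝ, HasSum (fun j => n j * ∫ t, nk (x - j * (2 * π) - t) φ * hm b t)
        (∫ t, nk (x - t) φ * S t) := by
  obtain ⟨u, hu⟩ : ∃ u : ℕ → ℝ → ℝ, u = fun j t => n j * hm b (t - j * (2 * π)) := ⟨_, rfl⟩
  have u0 : ∀ j t, 0 ≤ u j t := fun j t => by
    rw [hu]
    exact mul_nonneg (Nat.cast_nonneg _) (BHole_hm hb hb1 _).1.le
  have u1 : ∀ j t, u j t ≤ σ / 8 * exp (lam * (j * (2 * π)) + -3 * |t - j * (2 * π)|) :=
    fun j t => by
      rw [hu]
      refine (mul_le_mul (hn j) (BHole_hm hb hb1 _).2 (BHole_hm hb hb1 _).1.le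
        (by positivity)).trans_eq ?_
      rw [exp_add]
      field_simp
      ring
  have u2 : ∀ j t, u j t ≤ σ / 8 * exp (lam * t) * exp (-|t - j * (2 * π)|) := fun j t => by
    rw [mul_assoc, ← exp_add]
    refine (u1 j t).trans (mul_le_mul_of_nonneg_left (exp_le_exp.2 ?_) (by positivity))
    (refine le_of_not_gt fun h_nl => ?_; linarith only [h_nl, h1, h2, neg_abs_le (t - j * (2 * π)), abs_nonneg (t - j * (2 * π)), mul_pos_of_neg_of_neg (Mathlib.Tactic.Linarith.sub_neg_of_lt h1) (Mathlib.Tactic.Linarith.sub_neg_of_lt h_nl), mul_nonneg_of_nonpos_of_nonpos (le_of_lt (Mathlib.Tactic.Linarith.sub_neg_of_lt h1)) (Mathlib.Tactic.Linarith.sub_nonpos_of_le (neg_abs_le (t - ↑j * ((2 : ℝ) * π)))), mul_pos_of_neg_of_neg (Mathlib.Tactic.Linarith.sub_neg_of_lt h2) (Mathlib.Tactic.Linarith.sub_neg_of_lt h_nl), mul_nonneg_of_nonpos_of_nonpos (le_of_lt (Mathlib.Tactic.Linarith.sub_neg_of_lt h2)) (Mathlib.Tactic.Linarith.sub_nonpos_of_le (abs_nonneg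 (t - ↑j * ((2 : ℝ) * π))))])
  have u3 : ∀ j, Continuous (u j) := fun j => by
    rw [hu]
    exact continuous_const.mul ((BHole_cont hb).comp (continuous_sub_right _))
  have u4 : ∀ t, Summable fun j => u j t := fun t =>
    ((BHole_geo t).1.mul_left _).of_nonneg_of_le (fun j => u0 j t) fun j => u2 j t
  have s0 : ∀ t, 0 ≤ ∑' j, u j t := fun t => tsum_nonneg fun j => u0 j t
  have s1 : ∀ t, ∑' j, u j t ≤ σ / 2 * exp (lam * t) := fun t => by
    refine ((u4 t).tsum_le_tsum (fun j => u2 j t) ((BHole_geo t).1.mul_left _)).trans ?_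
    rw [tsum_mul_left]
    exact (mul_le_mul_of_nonneg_left (BHole_geo t).2 (by positivity)).trans_eq (by ring)
  have s2 : Continuous fun t => ∑' j, u j t := by
    have h3 : Continuous fun t => ∑' j, exp (-3 * t) * u j t := by
      refine continuous_tsum (fun j => (by fun_prop : Continuous fun t => exp (-3 * t)).mul (u3 j))
        ((BHole_geo 0).1.mul_left (σ / 8)) fun j t => ?_
      rw [Real.norm_of_nonneg (mul_nonneg (exp_pos _).le (u0 j t))]
      refine (mul_le_mul_of_nonneg_left (u1 j t) (exp_pos _).le).trans ?_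
      have h4 : 0 ≤ (j : ℝ) * (2 * π) := by positivity
      rw [mul_left_comm, ← exp_add, zero_sub, abs_neg, abs_of_nonneg h4]
      refine mul_le_mul_of_nonneg_left (exp_le_exp.2 ?_) (by positivity)
      linarith only [h2, h4, neg_abs_le (t - j * (2 * π)), mul_nonneg_of_nonpos_of_nonpos (le_of_lt (Mathlib.Tactic.Linarith.sub_neg_of_lt h2)) (Mathlib.Tactic.Linarith.sub_nonpos_of_le h4)]
    refine ((by fun_prop : Continuous fun t => exp (3 * t)).mul h3).congr fun t => ?_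
    rw [Pi.mul_apply, tsum_mul_left, ← mul_assoc, ← exp_add, neg_mul, add_neg_cancel, exp_zero,
      one_mul]
  have s3 := fun x φ => BHole_int h1 h2 x φ s2 fun t => (abs_of_nonneg (s0 t)).trans_le (s1 t)
  refine ⟨_, s2, fun t => ⟨s0 t, s1 t⟩, fun x φ => ?_⟩
  have h3 := hasSum_integral_of_dominated_convergence (μ := volume)
    (F := fun j t => nk (x - t) φ * u j t) (f := fun t => nk (x - t) φ * ∑' j, u j t)
    (fun j t => |nk (x - t) φ| * u j t)
    (fun j => (BHole_int h1 h2 x φ (u3 j) fun t => (abs_of_nonneg (u0 j t)).trans_le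
      (((u4 t).le_tsum j fun i _ => u0 i t).trans (s1 t))).aestronglyMeasurable)
    (fun j => ae_of_all _ fun t => by rw [Real.norm_eq_abs, abs_mul, abs_of_nonneg (u0 j t)])
    (ae_of_all _ fun t => (u4 t).mul_left _)
    ((s3 x φ).abs.congr (ae_of_all _ fun t => by
      simp only [tsum_mul_left, abs_mul, abs_of_nonneg (s0 t)]))
    (ae_of_all _ fun t => (u4 t).hasSum.mul_left _)
  refine (congrArg (HasSum · _) (funext fun j => ?_)).mpr h3
  rw [← integral_sub_right_eq_self (fun t => nk (x - j * (2 * π) - t) φ * hm b t) (j * (2 * π)),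
    ← integral_const_mul, hu]
  simp only [sub_sub_sub_cancel_right, mul_left_comm]

theorem holes : ∃ C : ℝ, 1 ≤ C ∧ ∀ lam b σ : ℝ, 1 < lam → lam < 2 → 0 < b → b ≤ 1 / 2 → 0 < σ →
    ∃ (ν : ℝ → ℝ) (f : ℂ → ℂ), Continuous ν ∧
      (∀ t, σ / 2 * exp (lam * t) ≤ ν t ∧ ν t ≤ σ * exp (lam * t)) ∧ Differentiable ℂ f ∧ f 0 = 1 ∧
      (∀ x θ : ℝ, ‖f (Complex.exp (x + θ * Complex.I))‖ ≤
        exp ((∫ t, nk (x - t) (θ - (π - b)) * (σ * exp (lam * t) - ν t)) +
          ∫ t, nk (x - t) (θ - (π + b)) * (σ * exp (lam * t) - ν t))) ∧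
      ∀ (x ℓ : ℝ) (j : ℕ), 0 < ℓ → ℓ ≤ b * exp (-C) / 2 → |x - j * (2 * π)| ≤ ℓ →
        1 ≤ b * σ / 4 * exp (lam * (j * (2 * π))) →
        ‖f (Complex.exp (x + π * Complex.I))‖ ≤
          exp ((∫ t, nk (x - t) (π - (π - b)) * (σ * exp (lam * t) - ν t)) +
            (∫ t, nk (x - t) (π - (π + b)) * (σ * exp (lam * t) - ν t)) -
            b * σ / 8 * exp (lam * (j * (2 * π))) * (Real.log (b / ℓ) - C)) := by
  obtain ⟨C, hC, near⟩ := green_near
  refine ⟨C, hC, fun lam b σ h1 h2 hb hb1 hσ => ?_⟩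
  obtain ⟨n, hn⟩ : ∃ n : ℕ → ℕ, ∀ j, n j = ⌊b * σ / 4 * exp (lam * (j * (2 * π)))⌋₊ :=
    ⟨_, fun _ => rfl⟩
  have hn' : ∀ j, (n j : ℝ) ≤ b * σ / 4 * exp (lam * (j * (2 * π))) := fun j =>
    hn j ▸ Nat.floor_le (by positivity)
  obtain ⟨S, s1, s2, s3⟩ := BHole_mass h1 h2 hb hb1 hσ hn'
  obtain ⟨f, f1, f2, f3, f4⟩ := exists_prod
    (fun j : ℕ => Complex.exp ((j * (2 * π) : ℝ) + π * Complex.I)) n
    (fun _ => Complex.exp_ne_zero _) (by
      refine ((Real.summable_exp_nat_mul_iff.2 (show (lam - 2) * (2 * π) < 0 by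
        linarith only [h2, pi_pos, mul_pos_of_neg_of_neg (Mathlib.Tactic.Linarith.sub_neg_of_lt h2) (Mathlib.Tactic.Linarith.sub_neg_of_lt pi_pos)])).mul_left (b * σ / 4)).of_nonneg_of_le (fun j => by positivity)
        fun j => ?_
      rw [KerA_norm, div_le_iff₀ (by positivity), ← KerA_two, mul_assoc, ← exp_add]
      exact (hn' j).trans_eq (by congr 2; ring))
  have key : ∀ (x θ r : ℝ) (g : ℕ → ℝ), HasSum g r → (∀ j : ℕ, n j = 0 ∨
      Complex.exp ((x - j * (2 * π) : ℝ) + (θ - π : ℝ) * Complex.I) ≠ 1 →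
      n j * nk (x - j * (2 * π)) (θ - π) ≤ g j) →
      ‖f (Complex.exp (x + θ * Complex.I))‖ ≤ exp r := fun x θ r g hg h => by
    by_cases e : ∀ j : ℕ, n j = 0 ∨
      Complex.exp ((x - j * (2 * π) : ℝ) + (θ - π : ℝ) * Complex.I) ≠ 1
    · rw [← hg.tsum_eq]
      refine f4 _ g hg.summable fun j => le_trans ?_ (exp_le_exp.2 (h j (e j)))
      rcases e j with e | e
      · simp [e]
      · rw [norm_factor _ _ _ _ e, exp_nat_mul]
    · push Not at e
      obtain ⟨j, e1, e2⟩ := e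
      have e3 := f3 j e1
      rw [← one_mul (Complex.exp _), ← e2, ← Complex.exp_add] at e3
      rw [show (x + θ * Complex.I : ℂ) = _ from ?_, e3, norm_zero]
      · exact (exp_pos _).le
      · push_cast
        ring
  have hs : ∀ x θ : ℝ, HasSum (fun j : ℕ => n j * ∫ t, (nk (x - j * (2 * π) - t) (θ - π - b) +
      nk (x - j * (2 * π) - t) (θ - π + b)) * hm b t)
      ((∫ t, nk (x - t) (θ - (π - b)) * S t) + ∫ t, nk (x - t) (θ - (π + b)) * S t) :=
    fun x θ => by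
      have h3 := (s3 x (θ - (π - b))).add (s3 x (θ - (π + b)))
      simp only [← mul_add, ← integral_add (integrable_green hb hb1 _ _)
        (integrable_green hb hb1 _ _), ← add_mul] at h3
      simpa only [sub_sub, ← sub_add, add_comm] using h3
  have hg : ∀ (x θ : ℝ) (j : ℕ), n j = 0 ∨
      Complex.exp ((x - j * (2 * π) : ℝ) + (θ - π : ℝ) * Complex.I) ≠ 1 →
      n j * nk (x - j * (2 * π)) (θ - π) ≤ n j * ∫ t, (nk (x - j * (2 * π) - t) (θ - π - b) +
        nk (x - j * (2 * π) - t) (θ - π + b)) * hm b t := fun x θ j e => by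
    rcases e with e | e
    · simp [e]
    · exact mul_le_mul_of_nonneg_left (green_ge hb hb1 e) (Nat.cast_nonneg _)
  refine ⟨fun t => σ * exp (lam * t) - S t, f, by fun_prop,
    fun t => ⟨by linarith only [s2, (s2 t).2], by linarith [(s2 t).1]⟩, f1, f2, fun x θ => ?_,
    fun x ℓ j a1 a2 a3 a4 => ?_⟩
  · simp only [sub_sub_cancel]
    exact key x θ _ _ (hs x θ) (hg x θ)
  · simp only [sub_sub_cancel (σ * _)]
    refine key x π _ _ ((hs x π).sub (hasSum_ite_eq j _)) fun i e => ?_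
    split_ifs with e'
    swap
    · rw [sub_zero]
      exact hg x π i e
    subst e'
    have b1 : 1 ≤ n i := hn i ▸ Nat.floor_pos.2 a4
    have b2 : b * σ / 8 * exp (lam * (i * (2 * π))) ≤ n i := by
      have b3 := Nat.lt_floor_add_one (b * σ / 4 * exp (lam * (i * (2 * π))))
      have b4 : (1 : ℝ) ≤ n i := by exact_mod_cast b1
      rw [← hn] at b3
      linarith only [b3, b4]
    have b3 : x - i * (2 * π) ≠ 0 := fun e0 => e.elim (by omega) fun e => e (by simp [e0])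
    have b4 : exp (-C) ≤ 1 := exp_le_one_iff.2 (by linarith only [hC, h1, h2])
    have b5 := near b _ hb hb1 b3 (by linarith only [a2, a3, hb, b4, mul_nonneg_of_nonpos_of_nonpos (le_of_lt (Mathlib.Tactic.Linarith.sub_neg_of_lt hb)) (Mathlib.Tactic.Linarith.sub_nonpos_of_le b4)])
    have b6 : Real.log (|x - i * (2 * π)| / b) ≤ -Real.log (b / ℓ) := by
      rw [← Real.log_inv, inv_div]
      exact Real.log_le_log (div_pos (abs_pos.2 b3) hb) (div_le_div_of_nonneg_right a3 hb.le)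
    have b7 : C ≤ Real.log (b / ℓ) := by
      rw [Real.le_log_iff_exp_le (div_pos hb a1), le_div_iff₀ a1, ← le_inv_mul_iff₀ (exp_pos C),
        ← exp_neg]
      linarith only [a1, a2, exp_pos (-C)]
    rw [sub_self π]
    linarith only [b2, b7, b5, b6, mul_le_mul_of_nonneg_right b2 (sub_nonneg.2 b7),
      mul_le_mul_of_nonneg_left (b5.trans (add_le_add (add_le_add le_rfl b6) le_rfl))
        (Nat.cast_nonneg (α := ℝ) (n i))]

end

end Pool.Agent.MinMod
end
end

-- merged part: Pool.Agent.Work.MP_f62247_an.FinC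
section
-- merged part: Pool.Agent.Work.MP_f62247_an.BProf
section
/-!
# The model: three rays

`e = lam - 1`, `b = π e / (2 lam)`, `S = sin (π e)`, `q = 1 - ℓ²/40`, `d = (1-q)⁴ / 10^6`, `s0 = 64 d / (1-q)²`, `σ = (lam S + (s0/2) cos (π e)) / (2π cos (lam b))`, `p n = lam + i n`,
`a n = 4 d q^n p n sin (π p n) / (π cos (π p n))`, `ν0 t = (s0/(2π)) e^(lam t) + ∑_{n ≥ 1} Re (a n e^(p n t))`; `∑ ‖a n‖ ≤ s0/(4π)`.
By `sl_nk` (substitute `t ↦ x - t`), for `0 ≤ θ ≤ π` (the function is even and periodic in `θ`): `v = e^(lam x) φ θ + χ`,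
`φ θ = -cos (lam θ) + (s0/(2 lam)) sin (lam θ)` on `[0, π-b]`, `φ θ = A cos (lam (π-θ))`, `0 ≤ A ≤ 1`, on `[π-b, π]` (`prof`), and
`χ = 4 d e^(lam x) ∑_{n≥1} q^n Re (e^(i n x) cos (p n (π-θ)) / cos (π p n))` (`pert`; `‖cos (p (π-θ))‖ ≤ cosh (n (π-θ))`, `‖cos (π p)‖ ≥ sinh (π n)`, the quotient is `≤ 2.01 e^(-nθ)`).
`φ ≤ 1 + s0²/8 ≤ 1 + d/100`; for `θ ≥ 13/5`, `|χ| ≤ 4d * 2.01 * ∑ e^(-13n/5) ≤ 0.7 d`; for `θ ≤ 13/5`, `φ ≤ 0.97`, `|χ| ≤ 12d/(1-q) ≤ 0.01`.
At `θ = 0`: `∑ q^n cos (n x) = (P - 1)/2`, `P = (1-q²)/((1-q)² + 4q sin²(x/2)) ≤ 1/4`.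
-/

open Real MeasureTheory Set Filter Topology

namespace Pool.Agent.MinMod

noncomputable section

theorem BProf_int {lam : ℝ} (h1 : 1 < lam) (h2 : lam < 2) (x φ : ℝ) :
    Integrable fun t => nk (x - t) φ * exp (lam * t) := by
  refine (((int_exp_nk h1 h2 0 φ).comp_sub_left x).const_mul (exp (lam * x))).congr
    (ae_of_all _ fun t => ?_)
  simp only [sub_zero]
  rw [← mul_assoc, ← exp_add, mul_comm]
  congr 2
  ring

theorem BProf_int' {lam C : ℝ} (h1 : 1 < lam) (h2 : lam < 2) {ν : ℝ → ℝ} (hν : Continuous ν)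
    (hC : ∀ t, |ν t| ≤ C * exp (lam * t)) (x φ : ℝ) : Integrable fun t => nk (x - t) φ * ν t := by
  refine ((BProf_int h1 h2 x φ).mul_bdd (g := fun t => ν t / exp (lam * t)) (c := C)
    (Continuous.aestronglyMeasurable (by fun_prop (disch := intros; positivity)))
    (ae_of_all _ fun t => ?_)).congr (ae_of_all _ fun t => ?_)
  · rw [Real.norm_eq_abs, abs_div, abs_of_pos (exp_pos _), div_le_iff₀ (exp_pos _)]
    exact hC t
  · simp only
    field_simp

theorem BProf_r {lam a : ℝ} (h1 : 1 < lam) (h2 : lam < 2) (h0 : 0 ≤ a) (h3 : a ≤ 2 * π)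
    (c x : ℝ) : ∫ t, nk (x - t) a * (c * exp (lam * t)) =
      c * (π * cos (lam * (π - a)) / (lam * sin (π * lam))) * exp (lam * x) := by
  rw [← sl_nk_real h1 h2 h0 h3, ← integral_sub_left_eq_self _ volume x, ← integral_const_mul,
    ← integral_mul_const]
  refine integral_congr_ae (ae_of_all _ fun t => ?_)
  simp only [sub_sub_cancel]
  rw [show lam * (x - t) = -lam * t + lam * x by ring, exp_add]
  ring

theorem BProf_pi : 1 / 5 ≤ 2 / π ^ 2 := by
  rw [le_div_iff₀ (by positivity)]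
  linarith only [pi_lt_d2, pi_pos, mul_pos_of_neg_of_neg (Mathlib.Tactic.Linarith.sub_neg_of_lt pi_lt_d2) (Mathlib.Tactic.Linarith.sub_neg_of_lt pi_pos)]

theorem BProf_phi {lam s0 θ : ℝ} (h1 : 1 < lam) (h2 : lam ≤ 101 / 100) (hs : 0 ≤ s0)
    (hs1 : s0 ≤ lam - 1) (h3 : 0 ≤ θ) :
    -cos (lam * θ) + s0 / (2 * lam) * sin (lam * θ) ≤ 1 + s0 ^ 2 / 8 ∧
      (θ ≤ 13 / 5 → -cos (lam * θ) + s0 / (2 * lam) * sin (lam * θ) ≤ 97 / 100) := by
  have hk : 0 ≤ s0 / (2 * lam) := by positivity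
  have hk1 : s0 / (2 * lam) ≤ s0 / 2 := div_le_div_of_nonneg_left hs two_pos (by linarith only [h1])
  generalize s0 / (2 * lam) = k at *
  refine ⟨?_, fun h6 => ?_⟩
  · linarith only [hk, hk1, sin_sq_add_cos_sq (lam * θ), sq_nonneg (k - sin (lam * θ)),
      sq_nonneg (1 + cos (lam * θ)), pow_le_pow_left₀ hk hk1 2]
  have p1 := pi_gt_d2
  have h7 : 0 ≤ lam * θ := by positivity
  have h8 := mul_le_mul h2 h6 h3 (by norm_num)
  have h9 := cos_le_one_sub_mul_cos_sq (x := π - lam * θ) (abs_le.2 ⟨by linarith only [h1, h2, p1, h8], by linarith only [h7]⟩)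
  have h11 := pow_le_pow_left₀ (by norm_num) (show 1 / 2 ≤ π - lam * θ by linarith only [h1, h2, p1, h8]) 2
  rw [cos_pi_sub] at h9
  linarith only [h1, h2, hs1, hk1, h9, hk, h11, mul_le_of_le_one_right hk (sin_le_one (lam * θ)),
    mul_le_mul BProf_pi h11 (by norm_num) (by positivity)]

theorem BProf_c {p : ℂ} {a : ℝ} (h1 : 1 < p.re) (h2 : p.re < 2) (h0 : 0 ≤ a) (h3 : a ≤ 2 * π)
    (c : ℂ) (x : ℝ) : ∫ t, nk (x - t) a * (c * Complex.exp (p * t)).re =
      (c * (π * Complex.cos (p * (π - a)) / (p * Complex.sin (π * p))) *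
        Complex.exp (p * x)).re := by
  have h4 : Integrable fun t : ℝ => (nk (x - t) a : ℂ) * (c * Complex.exp (p * t)) := by
    refine ((BProf_int h1 h2 x a).ofReal.mul_bdd (c := ‖c‖)
      (g := fun t : ℝ => c * Complex.exp ((p.im * t : ℝ) * Complex.I))
      (Continuous.aestronglyMeasurable (by fun_prop)) (ae_of_all _ fun t => ?_)).congr
      (ae_of_all _ fun t => ?_)
    · rw [norm_mul, Complex.norm_exp_ofReal_mul_I, mul_one]
    · have e : p * t = (p.re * t : ℝ) + (p.im * t : ℝ) * Complex.I := by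
        conv_lhs => rw [← Complex.re_add_im p]
        push_cast
        ring
      simp only [e, Complex.exp_add, ← Complex.ofReal_exp]
      change ((_ * _ : ℝ) : ℂ) * _ = _
      rw [Complex.ofReal_mul]
      ring
  have h5 := integral_re h4
  simp only [RCLike.re_to_complex, Complex.re_ofReal_mul] at h5
  rw [h5, ← sl_nk h1 h2 h0 h3, ← integral_sub_left_eq_self _ volume x, ← integral_const_mul,
    ← integral_mul_const]
  congr 1
  refine integral_congr_ae (ae_of_all _ fun t => ?_)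
  simp only [sub_sub_cancel]
  rw [show p * ((x - t : ℝ) : ℂ) = -p * t + p * x by push_cast; ring, Complex.exp_add]
  ring

theorem prof {lam s0 : ℝ} (h1 : 1 < lam) (h2 : lam ≤ 101 / 100) (hs : 0 ≤ s0)
    (hs1 : s0 ≤ lam - 1) : ∃ σ : ℝ, (lam - 1) / 4 ≤ σ ∧ σ ≤ 1 ∧ ∀ x θ : ℝ, 0 ≤ θ → θ ≤ π → ∃ φ : ℝ,
      (∫ t, nk (x - t) θ * (s0 / (2 * π) * exp (lam * t))) +
          (∫ t, nk (x - t) (θ - (π - π * (lam - 1) / (2 * lam))) * (σ * exp (lam * t))) +
          (∫ t, nk (x - t) (θ - (π + π * (lam - 1) / (2 * lam))) * (σ * exp (lam * t))) =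
        φ * exp (lam * x) ∧ φ ≤ 1 + s0 ^ 2 / 8 ∧ (θ ≤ 13 / 5 → φ ≤ 97 / 100) ∧ (θ = 0 → φ = -1) := by
  have p1 := pi_gt_d2
  have p2 := pi_lt_d2
  have hl : lam ≠ 0 := by positivity
  obtain ⟨y, hy⟩ : ∃ y, y = π * (lam - 1) / 2 := ⟨_, rfl⟩
  obtain ⟨b, hb⟩ : ∃ b, b = π * (lam - 1) / (2 * lam) := ⟨_, rfl⟩
  have hyb : lam * b = y := by
    rw [hb, hy]
    field_simp
  have hy0 : 0 < y := by
    rw [hy]
    have := sub_pos.2 h1
    positivity
  have hy1 : y ≤ 1 / 50 := by rw [hy]; linarith only [h2, h1, p2, mul_pos_of_neg_of_neg (Mathlib.Tactic.Linarith.sub_neg_of_lt h1) (Mathlib.Tactic.Linarith.sub_neg_of_lt h1), mul_nonneg_of_nonpos_of_nonpos (le_of_lt (Mathlib.Tactic.Linarith.sub_neg_of_lt h1)) (Mathlib.Tactic.Linarith.sub_nonpos_of_le h2), mul_pos_of_neg_of_neg (Mathlib.Tactic.Linarith.sub_neg_of_lt h1) (Mathlib.Tactic.Linarith.sub_neg_of_lt p2)]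
  have hb0 : 0 < b := by
    rw [hb]
    have := sub_pos.2 h1
    positivity
  have hb1 : b ≤ 1 / 50 := by linarith only [hyb, hy1, h1, hb0, mul_pos_of_neg_of_neg (Mathlib.Tactic.Linarith.sub_neg_of_lt h1) (Mathlib.Tactic.Linarith.sub_neg_of_lt hb0)]
  have hS : 2 * (lam - 1) ≤ sin (2 * y) := by
    refine le_trans (Eq.le ?_) (mul_le_sin (by linarith only [hy0]) (by linarith only [h1, h2, p1, hy1]))
    rw [hy]
    field_simp
  have hc : 1 / 2 ≤ cos y := by (refine le_of_not_gt fun h_nl => ?_; linarith only [h_nl, h1, h2, hy1, hy0, one_sub_sq_div_two_le_cos (x := y), mul_pos_of_neg_of_neg (Mathlib.Tactic.Linarith.sub_neg_of_lt h1) (Mathlib.Tactic.Linarith.sub_neg_of_lt h_nl), mul_nonneg_of_nonpos_of_nonpos (Mathlib.Tactic.Linarith.sub_nonpos_of_le h2) (le_of_lt (Mathlib.Tactic.Linarith.sub_neg_of_lt h_nl)), mul_nonneg_of_nonpos_of_nonpos (le_of_lt (Mathlib.Tactic.Linarith.sub_neg_of_lt hy0)) (Mathlib.Tactic.Linarith.sub_nonpos_of_le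 hy1)])
  have hc2 : 0 ≤ cos (2 * y) := cos_nonneg_of_mem_Icc ⟨by linarith only [h1, h2, p1, hy0], by linarith only [h1, h2, p1, hy1]⟩
  have hc3 := cos_le_one (2 * y)
  have hc4 := cos_le_one y
  have hS1 := sin_le_one (2 * y)
  have hπ : lam * π = 2 * y + π := by rw [hy]; ring
  have hsin : sin (π * lam) = -sin (2 * y) := by rw [mul_comm, hπ, sin_add_pi]
  have hS0 : sin (2 * y) ≠ 0 := by linarith only [h1, hS] |> fun h : 0 < sin (2 * y) => h.ne'
  have hc0 : cos y ≠ 0 := by linarith only [h1, h2, hc] |> fun h : 0 < cos y => h.ne'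
  have hm : 0 ≤ s0 / 2 * cos (2 * y) := by positivity
  refine ⟨(lam * sin (2 * y) + s0 / 2 * cos (2 * y)) / (2 * π * cos y), ?_, ?_,
    fun x θ h3 h4 => ?_⟩
  · rw [le_div_iff₀ (by positivity)]
    have h3 := mul_le_mul_of_nonneg_left ((mul_le_of_le_one_right (by positivity) hc4).trans
      (show 2 * π ≤ 8 by linarith only [h1, h2, p2])) (show 0 ≤ (lam - 1) / 4 by linarith only [h1])
    linarith only [hS, hm, h3, h1, le_mul_of_one_le_left (show 0 ≤ sin (2 * y) by linarith) h1.le]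
  · rw [div_le_one (by positivity)]
    linarith only [h1, h2, hs1, p1, hS1, hs, hc3, hc, mul_le_of_le_one_right (show 0 ≤ lam by linarith) hS1,
      mul_le_of_le_one_right (show 0 ≤ s0 / 2 by linarith) hc3,
      mul_le_mul_of_nonneg_left hc (show 0 ≤ 2 * π by linarith)]
  rw [← hb]
  have h2' : lam < 2 := by linarith only [h1, h2]
  have e3 : ∀ s, nk s (θ - (π + b)) = nk s (π + b - θ) := fun s => by rw [← nk_neg, neg_sub]
  simp only [e3]
  rw [BProf_r h1 h2' h3 (by linarith only [h1, h2, p1, h4]), BProf_r h1 h2' (a := π + b - θ) (by linarith only [hb0, h4]) (by linarith only [h1, h2, p1, hb1, h3]),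
    hsin]
  rcases le_total θ (π - b) with h5 | h5
  · have e2 : ∀ s, nk s (θ - (π - b)) = nk s (π - b - θ) := fun s => by rw [← nk_neg, neg_sub]
    simp only [e2]
    rw [BProf_r h1 h2' (a := π - b - θ) (by linarith only [h5]) (by linarith only [h1, h2, p1, hb0, h3]), hsin]
    obtain ⟨h6, h7⟩ := BProf_phi h1 h2 hs hs1 h3
    refine ⟨-cos (lam * θ) + s0 / (2 * lam) * sin (lam * θ), ?_, h6, h7, ?_⟩
    · rw [show lam * (π - θ) = 2 * y - lam * θ + π by linarith only [hy],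
        show lam * (π - (π - b - θ)) = lam * θ + y by linarith only [hyb],
        show lam * (π - (π + b - θ)) = lam * θ - y by linarith only [hyb], cos_add_pi, cos_sub, cos_add,
        cos_sub]
      field_simp
      ring
    · rintro rfl
      simp
  · rw [BProf_r h1 h2' (a := θ - (π - b)) (by linarith only [h5]) (by linarith only [h1, h2, p1, hb1, h4]), hsin]
    obtain ⟨u, hu⟩ : ∃ u, u = lam * (π - θ) := ⟨_, rfl⟩
    have h8 : 0 ≤ u := hu ▸ mul_nonneg (by linarith only [h1, h2]) (by linarith only [h4])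
    have h9 : u ≤ y := hu ▸ hyb ▸ mul_le_mul_of_nonneg_left (by linarith only [h5]) (by linarith only [h1, h2])
    have h6 : 0 ≤ cos u := cos_nonneg_of_mem_Icc ⟨by linarith only [h1, h2, p1, h8], by linarith only [h1, h2, p1, hy1, h9]⟩
    have h7 : 0 ≤ s0 / (2 * lam * sin (2 * y)) * (1 - cos (2 * y)) * cos u := by
      have : 0 < sin (2 * y) := by linarith only [h1, hS]
      have := sub_nonneg.2 hc3
      positivity
    refine ⟨(1 - s0 / (2 * lam * sin (2 * y)) * (1 - cos (2 * y))) * cos u, ?_,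
      by linarith only [h7, cos_le_one u, sq_nonneg s0], fun h => by linarith only [h1, h2, p1, hb1, h5, h], fun h => by linarith only [h1, h2, p1, hb1, h5, h]⟩
    rw [show lam * (π - (θ - (π - b))) = y + u + π by linarith only [hy, hyb, hu],
      show lam * (π - (π + b - θ)) = y - u + π by linarith only [hy, hyb, hu], ← hu, cos_add_pi, cos_add_pi, cos_add,
      cos_sub]
    field_simp
    ring

theorem BProf_exp (z : ℂ) : ‖Complex.exp (z * Complex.I)‖ = exp (-z.im) ∧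
    ‖Complex.exp (-z * Complex.I)‖ = exp z.im := by
  simp [Complex.norm_exp]

theorem BProf_up {z : ℂ} (h : 0 ≤ z.im) :
    ‖Complex.cos z‖ ≤ exp z.im ∧ ‖Complex.sin z‖ ≤ exp z.im := by
  obtain ⟨h1, h2⟩ := BProf_exp z
  have h3 : exp (-z.im) ≤ exp z.im := exp_le_exp.2 (by linarith)
  have h4 := norm_add_le (Complex.exp (z * Complex.I)) (Complex.exp (-z * Complex.I))
  have h5 := norm_sub_le (Complex.exp (-z * Complex.I)) (Complex.exp (z * Complex.I))
  rw [Complex.cos, Complex.sin, norm_div, norm_div, norm_mul, Complex.norm_I, Complex.norm_two]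
  constructor <;> linarith only [h1, h2, h3, h4, h5]

theorem BProf_low {z : ℂ} (h : 3 ≤ z.im) :
    10 / 21 * exp z.im ≤ ‖Complex.cos z‖ ∧ Complex.sin z ≠ 0 := by
  obtain ⟨h1, h2⟩ := BProf_exp z
  have h3 : 21 * exp (-z.im) ≤ exp z.im := by
    rw [show exp z.im = exp (2 * z.im) * exp (-z.im) by rw [← exp_add]; ring_nf]
    refine mul_le_mul_of_nonneg_right (le_trans ?_ (quadratic_le_exp_of_nonneg (by linarith)))
      (exp_pos _).le
    linarith only [h, mul_nonneg_of_nonpos_of_nonpos (Mathlib.Tactic.Linarith.sub_nonpos_of_le h) (Mathlib.Tactic.Linarith.sub_nonpos_of_le h)]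
  refine ⟨?_, fun e => ?_⟩
  · have h4 := norm_sub_le (Complex.exp (z * Complex.I) + Complex.exp (-z * Complex.I))
      (Complex.exp (z * Complex.I))
    rw [add_sub_cancel_left] at h4
    rw [Complex.cos, norm_div, Complex.norm_two]
    linarith only [h1, h2, h3, h4]
  · obtain ⟨k, rfl⟩ := Complex.sin_eq_zero_iff.1 e
    simp at h
    linarith

theorem BProf_tan {p : ℂ} {M : ℝ} (h : 3 ≤ (p * π).im) (hp : 7 / 10 * ‖p‖ ≤ M) :
    ‖p * Complex.sin (p * π) / (π * Complex.cos (p * π))‖ ≤ M := by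
  have h5 := (BProf_up (z := p * π) (by linarith only [h])).2
  have h6 := (BProf_low h).1
  have h7 := exp_pos (p * π).im
  rw [norm_div, norm_mul, norm_mul, Complex.norm_of_nonneg pi_pos.le]
  refine (div_le_div₀ (by positivity) (mul_le_mul_of_nonneg_left h5 (norm_nonneg p))
    (by positivity) (mul_le_mul pi_gt_three.le h6 (by positivity) pi_pos.le)).trans
    (le_trans (Eq.le ?_) hp)
  field_simp
  ring

theorem BProf_sum {lam : ℝ} (h1 : 1 < lam) (h2 : lam < 2) {g : ℕ → ℝ → ℝ} {u : ℕ → ℝ}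
    (hc : ∀ n, Continuous (g n)) (hu : Summable u) (hg : ∀ n t, ‖g n t‖ ≤ u n) (x θ : ℝ) :
    ∫ t, nk (x - t) θ * ((∑' n, g n t) * exp (lam * t)) =
      ∑' n, ∫ t, nk (x - t) θ * (g n t * exp (lam * t)) := by
  have h6 : ∀ n, Integrable fun t => nk (x - t) θ * exp (lam * t) * g n t := fun n =>
    (BProf_int h1 h2 x θ).mul_bdd (hc n).aestronglyMeasurable (ae_of_all _ (hg n))
  have e : ∀ t v, nk (x - t) θ * (v * exp (lam * t)) = nk (x - t) θ * exp (lam * t) * v :=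
    fun _ _ => by ring
  simp only [e, ← tsum_mul_left]
  refine (integral_tsum_of_summable_integral_norm h6 (Summable.of_nonneg_of_le
    (fun n => integral_nonneg fun t => norm_nonneg _) (fun n => ?_)
    (hu.mul_left (∫ t, ‖nk (x - t) θ * exp (lam * t)‖)))).symm
  rw [← integral_mul_const]
  refine integral_mono (h6 n).norm ((BProf_int h1 h2 x θ).norm.mul_const _) fun t => ?_
  simp only [norm_mul (_ * _)]
  exact mul_le_mul_of_nonneg_left (hg n t) (norm_nonneg _)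

theorem BProf_pois {q : ℝ} (hq0 : 0 < q) (hq1 : q < 1) (x : ℝ) :
    ∑' n : ℕ, ((q ^ (n + 1) : ℝ) * Complex.exp ((((n + 1 : ℕ) : ℝ) * x : ℝ) * Complex.I)).re =
      ((1 - q ^ 2) / (1 - 2 * q * cos x + q ^ 2) - 1) / 2 := by
  have h6 : ‖q * Complex.exp (x * Complex.I)‖ < 1 := by
    rwa [norm_mul, Complex.norm_exp_ofReal_mul_I, mul_one, Complex.norm_of_nonneg hq0.le]
  have h7 := Complex.hasSum_re ((hasSum_geometric_of_norm_lt_one h6).mul_left
    (q * Complex.exp (x * Complex.I)))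
  have h8 : 0 < 1 - 2 * q * cos x + q ^ 2 := by
    linarith only [hq1, hq0, cos_le_one x, mul_pos (sub_pos.2 hq1) (sub_pos.2 hq1), mul_nonneg_of_nonpos_of_nonpos (le_of_lt (Mathlib.Tactic.Linarith.sub_neg_of_lt hq0)) (Mathlib.Tactic.Linarith.sub_nonpos_of_le (cos_le_one x))]
  refine (tsum_congr fun n => ?_).trans (h7.tsum_eq.trans ?_)
  · rw [← pow_succ', mul_pow, ← Complex.exp_nat_mul]
    push_cast
    rw [mul_assoc]
  · have h9 : Complex.normSq (1 - q * Complex.exp (x * Complex.I)) =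
        1 - 2 * q * cos x + q ^ 2 := by
      simp [Complex.normSq_apply, Complex.exp_ofReal_mul_I_re, Complex.exp_ofReal_mul_I_im]
      linear_combination q ^ 2 * sin_sq_add_cos_sq x
    rw [← div_eq_mul_inv, Complex.div_re, h9, ← add_div, div_sub_one h8.ne', div_right_comm]
    congr 1
    simp [Complex.exp_ofReal_mul_I_re, Complex.exp_ofReal_mul_I_im]
    linear_combination (-q ^ 2) * sin_sq_add_cos_sq x

theorem pert {lam q : ℝ} (h1 : 1 < lam) (h2 : lam ≤ 101 / 100) (hq : 1 / 2 ≤ q) (hq1 : q < 1) :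
    ∃ ν : ℝ → ℝ, Continuous ν ∧ (∀ t, |ν t| ≤ 1 / (1 - q) ^ 2 * exp (lam * t)) ∧
      ∀ x θ : ℝ, 0 ≤ θ → θ ≤ π → ∃ χ : ℝ, ∫ t, nk (x - t) θ * ν t = χ * exp (lam * x) ∧
        |χ| ≤ 3 / (1 - q) ∧ (13 / 5 ≤ θ → |χ| ≤ 7 / 40) ∧
        (θ = 0 → χ = ((1 - q ^ 2) / (1 - 2 * q * cos x + q ^ 2) - 1) / 2) := by
  have h2' : lam < 2 := by linarith only [h1, h2]
  have hq0 : 0 < q := by linarith only [h1, h2, hq]
  have p1 := pi_gt_three
  obtain ⟨m, hm⟩ : ∃ m : ℕ → ℝ, ∀ n, m n = (n + 1 : ℕ) := ⟨_, fun _ => rfl⟩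
  obtain ⟨p, hp⟩ : ∃ p : ℕ → ℂ, ∀ n, p n = lam + m n * Complex.I := ⟨_, fun _ => rfl⟩
  have hre : ∀ n, (p n).re = lam := fun n => by simp [hp]
  have him : ∀ n, ∀ u : ℝ, (p n * u).im = m n * u := fun n u => by simp [hp]
  have hn : ∀ n : ℕ, 1 ≤ m n := fun n => by
    rw [hm]
    exact_mod_cast n.succ_pos
  have h3 : ∀ n, 3 ≤ (p n * π).im := fun n => by rw [him]; (refine le_of_not_gt fun h_nl => ?_; linarith only [h_nl, hn, h1, p1, h2, hn n, mul_pos_of_neg_of_neg (Mathlib.Tactic.Linarith.sub_neg_of_lt h1) (Mathlib.Tactic.Linarith.sub_neg_of_lt p1), mul_pos_of_neg_of_neg (Mathlib.Tactic.Linarith.sub_neg_of_lt h1) (Mathlib.Tactic.Linarith.sub_neg_of_lt h_nl), mul_nonneg_of_nonpos_of_nonpos (Mathlib.Tactic.Linarith.sub_nonpos_of_le h2) (le_of_lt (Mathlib.Tactic.Linarith.sub_neg_of_lt p1)), mul_nonneg_of_nonpos_of_nonpos (Mathlib.Tactic.Linarith.sub_nonpos_of_le h2) (le_of_lt (Mathlib.Tactic.Linarith.sub_neg_of_lt h_nl)), mul_nonneg_of_nonpos_of_nonpos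 (le_of_lt (Mathlib.Tactic.Linarith.sub_neg_of_lt p1)) (Mathlib.Tactic.Linarith.sub_nonpos_of_le (hn n))])
  have hc : ∀ n, Complex.cos (p n * π) ≠ 0 := fun n => norm_pos_iff.1
    (lt_of_lt_of_le (by positivity) (BProf_low (h3 n)).1)
  obtain ⟨a, hd⟩ : ∃ a : ℕ → ℂ, ∀ n, a n = (q ^ (n + 1) : ℝ) *
    (p n * Complex.sin (p n * π) / (π * Complex.cos (p n * π))) := ⟨_, fun _ => rfl⟩
  obtain ⟨u, hu, S, hS, hb⟩ : ∃ u : ℕ → ℝ, (∀ n, u n = (m n + 1) * q ^ (n + 1)) ∧
      ∃ S ≤ 1 / (1 - q) ^ 2, HasSum u S :=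
    ⟨_, fun n => by rw [Nat.choose_one_right, Nat.cast_succ, ← hm], _, by simp,
      (hasSum_nat_add_iff' 1).2 (hasSum_choose_mul_geometric_of_norm_lt_one 1
        (show ‖q‖ < 1 by rwa [Real.norm_of_nonneg hq0.le]))⟩
  have ha : ∀ n, ‖a n‖ ≤ u n := fun n => by
    rw [hd, norm_mul, Complex.norm_of_nonneg (pow_pos hq0 _).le, mul_comm, hu]
    refine mul_le_mul_of_nonneg_right (BProf_tan (h3 n) ?_) (pow_pos hq0 _).le
    have := norm_add_le (lam : ℂ) (m n * Complex.I)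
    rw [norm_mul, Complex.norm_I, mul_one, Complex.norm_of_nonneg (by linarith only [h1, h2]),
      Complex.norm_of_nonneg (by linarith only [h1, h2, hn, hn n]), ← hp] at this
    linarith only [h1, h2, this, hn, hn n]
  obtain ⟨g, hg'⟩ : ∃ g : ℕ → ℝ → ℝ, ∀ n, g n = fun t =>
    (a n * Complex.exp ((m n * t : ℝ) * Complex.I)).re := ⟨_, fun _ => rfl⟩
  have hg : ∀ n t, ‖g n t‖ ≤ u n := fun n t => by
    rw [hg']
    refine (Complex.abs_re_le_norm _).trans ?_
    rw [norm_mul, Complex.norm_exp_ofReal_mul_I, mul_one]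
    exact ha n
  have hgc : ∀ n, Continuous (g n) := fun n => by
    rw [hg']
    fun_prop
  have he : ∀ n (c : ℂ) (t : ℝ), (c * Complex.exp (p n * t)).re =
      (c * Complex.exp ((m n * t : ℝ) * Complex.I)).re * exp (lam * t) := by
    intro n c t
    rw [show p n * t = (m n * t : ℝ) * Complex.I + (lam * t : ℝ) by
      rw [hp]; push_cast; ring, Complex.exp_add, ← mul_assoc, ← Complex.ofReal_exp,
      Complex.re_mul_ofReal]
  refine ⟨fun t => (∑' n, g n t) * exp (lam * t),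
    (continuous_tsum hgc hb.summable hg).mul (by fun_prop), fun t => ?_, fun x θ h4 h5 => ?_⟩
  · rw [abs_mul, abs_of_pos (exp_pos _)]
    exact mul_le_mul_of_nonneg_right ((tsum_of_norm_bounded hb fun n => hg n t).trans hS)
      (exp_pos _).le
  obtain ⟨c, hc'⟩ : ∃ c : ℕ → ℝ, ∀ n, c n = ((q ^ (n + 1) : ℝ) * (Complex.cos (p n * (π - θ : ℝ)) /
    Complex.cos (p n * π)) * Complex.exp ((m n * x : ℝ) * Complex.I)).re := ⟨_, fun _ => rfl⟩
  have hcb : ∀ r, q * exp (-θ) ≤ r → r < 1 → |∑' n, c n| ≤ 21 / 10 * r * (1 - r)⁻¹ := by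
    intro r h6 h7
    have h8 : 0 ≤ q * exp (-θ) := by positivity
    refine tsum_of_norm_bounded (f := c)
      ((hasSum_geometric_of_lt_one (h8.trans h6) h7).mul_left _) fun n => ?_
    rw [hc']
    refine (Complex.abs_re_le_norm _).trans ?_
    have h9 := (BProf_up (z := p n * (π - θ : ℝ)) (by rw [him]; (refine le_of_not_gt fun h_nl => ?_; linarith only [h_nl, h5, h1, h2, hn, hn n, mul_pos_of_neg_of_neg (Mathlib.Tactic.Linarith.sub_neg_of_lt h1) (Mathlib.Tactic.Linarith.sub_neg_of_lt h_nl), mul_nonneg_of_nonpos_of_nonpos (Mathlib.Tactic.Linarith.sub_nonpos_of_le h2) (le_of_lt (Mathlib.Tactic.Linarith.sub_neg_of_lt h_nl)), mul_nonneg_of_nonpos_of_nonpos (Mathlib.Tactic.Linarith.sub_nonpos_of_le h5) (Mathlib.Tactic.Linarith.sub_nonpos_of_le (hn n))]))).1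
    have h10 := (BProf_low (h3 n)).1
    rw [him] at h9 h10
    rw [norm_mul, Complex.norm_exp_ofReal_mul_I, mul_one, norm_mul, norm_div,
      Complex.norm_of_nonneg (pow_pos hq0 _).le, mul_assoc, ← pow_succ']
    refine (mul_le_mul_of_nonneg_left (div_le_div₀ (exp_pos _).le h9 (by positivity) h10)
      (pow_pos hq0 _).le).trans (le_trans (Eq.le ?_)
        (mul_le_mul_of_nonneg_left (pow_le_pow_left₀ h8 h6 _) (by norm_num)))
    rw [mul_pow, ← exp_nat_mul, ← hm, mul_sub, exp_sub, mul_neg, exp_neg]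
    field_simp
  have hx : exp (-θ) ≤ 1 := exp_le_one_iff.2 (by linarith only [h4])
  refine ⟨∑' n, c n, ?_, (hcb q (by (refine le_of_not_gt fun h_nl => ?_; linarith only [h_nl, hx, h1, h2, hq, mul_pos_of_neg_of_neg (Mathlib.Tactic.Linarith.sub_neg_of_lt h1) (Mathlib.Tactic.Linarith.sub_neg_of_lt h_nl), mul_nonneg_of_nonpos_of_nonpos (Mathlib.Tactic.Linarith.sub_nonpos_of_le h2) (le_of_lt (Mathlib.Tactic.Linarith.sub_neg_of_lt h_nl)), mul_nonneg_of_nonpos_of_nonpos (Mathlib.Tactic.Linarith.sub_nonpos_of_le hq) (Mathlib.Tactic.Linarith.sub_nonpos_of_le hx)])) hq1).trans ?_,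
    fun h6 => (hcb (1 / 13) ?_ (by norm_num)).trans (by norm_num), ?_⟩
  · rw [BProf_sum h1 h2' hgc hb.summable hg, ← tsum_mul_right]
    refine tsum_congr fun n => ?_
    have h8 := BProf_c (p := p n) (by rwa [hre]) (by rwa [hre]) h4 (by linarith only [h1, h2, p1, h5]) (a n) x
    simp only [he] at h8
    rw [hg', h8, hc', hd]
    congr 3
    have := hc n
    have := (BProf_low (h3 n)).2
    have : p n ≠ 0 := fun e => by
      have := hre n
      rw [e, Complex.zero_re] at this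
      linarith only [h1, h2, this]
    have : (π : ℂ) ≠ 0 := Complex.ofReal_ne_zero.2 pi_ne_zero
    rw [mul_comm (π : ℂ) (p n), Complex.ofReal_sub]
    field_simp
  · rw [div_eq_mul_inv 3]
    exact mul_le_mul_of_nonneg_right (by linarith only [h1, h2, hq1]) (inv_nonneg.2 (by linarith only [hq1]))
  · have h7 : 13 ≤ exp θ := by
      refine le_trans ?_ (exp_le_exp.2 (show ((10 : ℕ) : ℝ) * (13 / 50) ≤ θ by push_cast; linarith only [h6]))
      rw [exp_nat_mul]
      exact le_trans (by norm_num) (pow_le_pow_left₀ (by norm_num)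
        (quadratic_le_exp_of_nonneg (by norm_num)) 10)
    rw [exp_neg, one_div]
    exact (mul_le_of_le_one_left (by positivity) hq1.le).trans (inv_anti₀ (by norm_num) h7)
  · rintro rfl
    refine (tsum_congr fun n => ?_).trans (BProf_pois hq0 hq1 x)
    rw [hc', sub_zero, div_self (hc n), mul_one, hm]

theorem model : ∃ K0 : ℝ, 1 ≤ K0 ∧ ∀ lam ℓ : ℝ, 1 < lam → lam ≤ 101 / 100 → 0 < ℓ → ℓ ≤ lam - 1 →
    ∃ (σ c1 : ℝ) (ν : ℝ → ℝ), (lam - 1) / 4 ≤ σ ∧ σ ≤ 1 ∧ 0 < c1 ∧ Continuous ν ∧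
      (∀ t, c1 * exp (lam * t) ≤ ν t ∧ ν t ≤ exp (lam * t)) ∧ ∀ x θ : ℝ, ∃ v : ℝ,
        (∫ t, nk (x - t) θ * ν t) +
            (∫ t, nk (x - t) (θ - (π - π * (lam - 1) / (2 * lam))) * (σ * exp (lam * t))) +
            (∫ t, nk (x - t) (θ - (π + π * (lam - 1) / (2 * lam))) * (σ * exp (lam * t))) =
          v * exp (lam * x) ∧ v ≤ 1 + 3 / 4 * (ℓ ^ 8 / K0) ∧
          (θ = 0 → (∀ j : ℤ, ℓ ≤ |x - j * (2 * π)|) → v ≤ -1 - 3 / 2 * (ℓ ^ 8 / K0)) := by
  refine ⟨40 ^ 4 * 10 ^ 6, by norm_num, fun lam ℓ h1 h2 h3 h4 => ?_⟩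
  have p1 := pi_gt_d2
  have p2 := pi_lt_d2
  have h2' : lam < 2 := by linarith only [h1, h2]
  obtain ⟨u, hu⟩ : ∃ u, u = ℓ ^ 2 / 40 := ⟨_, rfl⟩
  have hu0 : 0 < u := by rw [hu]; positivity
  have hu1 : u ≤ ℓ := by rw [hu]; (refine le_of_not_gt fun h_nl => ?_; linarith only [h_nl, h2, h1, h3, h4, mul_nonneg_of_nonpos_of_nonpos (Mathlib.Tactic.Linarith.sub_nonpos_of_le (sq_nonneg ((1 : ℝ) * ℓ))) (Mathlib.Tactic.Linarith.sub_nonpos_of_le h2), mul_pos_of_neg_of_neg (Mathlib.Tactic.Linarith.sub_neg_of_lt h1) (Mathlib.Tactic.Linarith.sub_neg_of_lt h3), mul_pos_of_neg_of_neg (Mathlib.Tactic.Linarith.sub_neg_of_lt h1) (Mathlib.Tactic.Linarith.sub_neg_of_lt h_nl), mul_nonneg_of_nonpos_of_nonpos (le_of_lt (Mathlib.Tactic.Linarith.sub_neg_of_lt h3)) (Mathlib.Tactic.Linarith.sub_nonpos_of_le h4)])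
  have hu2 : u ≤ 1 / 100 := by linarith only [h2, h4, hu1]
  have hd : ℓ ^ 8 / (40 ^ 4 * 10 ^ 6) = u ^ 4 / 10 ^ 6 := by rw [hu]; ring
  have hs : 64 * u ^ 2 / 10 ^ 6 ≤ u := by (refine le_of_not_gt fun h_nl => ?_; linarith only [h_nl, hu, h2, h4, hu1, h1, hu0, mul_nonneg_of_nonpos_of_nonpos (Mathlib.Tactic.Linarith.sub_nonpos_of_le (sq_nonneg ((1 : ℝ) * u))) (Mathlib.Tactic.Linarith.sub_nonpos_of_le h2), mul_nonneg_of_nonpos_of_nonpos (Mathlib.Tactic.Linarith.sub_nonpos_of_le (sq_nonneg ((1 : ℝ) * ℓ))) (Mathlib.Tactic.Linarith.sub_nonpos_of_le h2), mul_nonneg_of_nonpos_of_nonpos (Mathlib.Tactic.Linarith.sub_nonpos_of_le (sq_nonneg ((1 : ℝ) * ℓ))) (Mathlib.Tactic.Linarith.sub_nonpos_of_le h4), Mathlib.Tactic.Linarith.mul_zero_eq (Mathlib.Tactic.Linarith.sub_nonpos_of_le (sq_nonneg ((1 : ℝ) * ℓ))) (sub_eq_zero_of_eq hu), mul_nonneg_of_nonpos_of_nonpos (Mathlib.Tactic.Linarith.sub_nonpos_of_le (sq_nonneg ((1 : ℝ) * ℓ))) (Mathlib.Tactic.Linarith.sub_nonpos_of_le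 hu1), mul_pos_of_neg_of_neg (Mathlib.Tactic.Linarith.sub_neg_of_lt h1) (Mathlib.Tactic.Linarith.sub_neg_of_lt hu0), mul_pos_of_neg_of_neg (Mathlib.Tactic.Linarith.sub_neg_of_lt h1) (Mathlib.Tactic.Linarith.sub_neg_of_lt h_nl), Mathlib.Tactic.Linarith.zero_mul_eq (sub_eq_zero_of_eq hu) (sub_eq_zero_of_eq hu)])
  obtain ⟨σ, s1, s2, hσ⟩ := prof (s0 := 64 * u ^ 2 / 10 ^ 6) h1 h2 (by positivity) (by linarith only [h4, hu1, hs])
  obtain ⟨ν, n1, n2, hν⟩ := pert (q := 1 - u) h1 h2 (by linarith only [h1, h2, h4, hu1]) (by linarith only [hu0])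
  rw [sub_sub_cancel] at n2 hν
  have k1 : 8 * u ^ 2 / 10 ^ 6 ≤ 64 * u ^ 2 / 10 ^ 6 / (2 * π) := by
    rw [le_div_iff₀ (by positivity)]
    linarith only [p2, sq_nonneg u, sq_nonneg u, mul_nonneg_of_nonpos_of_nonpos (Mathlib.Tactic.Linarith.sub_nonpos_of_le (sq_nonneg u)) (le_of_lt (Mathlib.Tactic.Linarith.sub_neg_of_lt p2))]
  have k2 : 64 * u ^ 2 / 10 ^ 6 / (2 * π) ≤ 1 / 2 := by
    rw [div_le_iff₀ (by positivity)]
    linarith only [h1, h2, h4, p1, hu1, hs]
  have k3 : ∀ t, |4 * u ^ 4 / 10 ^ 6 * ν t| ≤ 4 * u ^ 2 / 10 ^ 6 * exp (lam * t) := fun t => by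
    rw [abs_mul, abs_of_pos (by positivity)]
    refine (mul_le_mul_of_nonneg_left (n2 t) (by positivity)).trans_eq ?_
    field_simp
  rw [hd]
  refine ⟨σ, 4 * u ^ 2 / 10 ^ 6, fun t => 64 * u ^ 2 / 10 ^ 6 / (2 * π) * exp (lam * t) +
    4 * u ^ 4 / 10 ^ 6 * ν t, s1, s2, by positivity, by fun_prop, fun t => ?_, fun x θ => ?_⟩
  · have h5 := abs_le.1 (k3 t)
    have h6 := mul_le_mul_of_nonneg_right k1 (exp_pos (lam * t)).le
    have h7 := mul_le_mul_of_nonneg_right k2 (exp_pos (lam * t)).le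
    have h8 := mul_le_mul_of_nonneg_right (show 4 * u ^ 2 / 10 ^ 6 ≤ 1 / 2 by linarith only [h1, h2, h4, hu1, hs])
      (exp_pos (lam * t)).le
    constructor <;> linarith only [h5, h6, h7, h5.1, h5.2]
  generalize π * (lam - 1) / (2 * lam) = b at hσ
  wlog h5 : 0 ≤ θ ∧ θ ≤ π generalizing θ
  · obtain ⟨k, hk⟩ := exists_rp θ
    obtain ⟨v, h6, h7, h8⟩ := this |rp θ| ⟨abs_nonneg _, abs_le.2 ⟨(rp_mem θ).1.le, (rp_mem θ).2⟩⟩
    refine ⟨v, Eq.trans ?_ h6, h7, fun h => h8 (by rw [h, rp_eq (by simpa using pi_pos), abs_zero])⟩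
    have e : ∀ s c, nk s (θ - c) = nk s (rp θ - c) := fun s c => by
      rw [hk, add_sub_right_comm, nk_per]
    have e0 : ∀ s, nk s θ = nk s (rp θ) := fun s => by rw [hk, nk_per]
    simp only [e, e0]
    rcases abs_choice (rp θ) with h | h <;> rw [h]
    have e1 : ∀ s, nk s (-rp θ - (π - b)) = nk s (rp θ - (π + b)) := fun s => by
      rw [← nk_neg, ← nk_per s _ (-1 : ℤ)]
      congr 1
      push_cast
      ring
    have e2 : ∀ s, nk s (-rp θ - (π + b)) = nk s (rp θ - (π - b)) := fun s => by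
      rw [← nk_neg, ← nk_per s _ (-1 : ℤ)]
      congr 1
      push_cast
      ring
    simp only [nk_neg, e1, e2]
    ring
  obtain ⟨φ, f1, f2, f3, f4⟩ := hσ x θ h5.1 h5.2
  obtain ⟨χ, c1, c2, c3, c4⟩ := hν x θ h5.1 h5.2
  have hu4 : 0 < u ^ 4 := by positivity
  refine ⟨φ + 4 * u ^ 4 / 10 ^ 6 * χ, ?_, ?_, fun h6 h7 => ?_⟩
  · simp only [mul_add, mul_left_comm _ (4 * u ^ 4 / 10 ^ 6)]
    rw [integral_add (BProf_int' h1 h2' (by fun_prop) (fun t => (abs_of_pos (by positivity)).le) x θ)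
      ((BProf_int' h1 h2' n1 n2 x θ).const_mul _), integral_const_mul, c1]
    linear_combination f1
  · rcases le_total θ (13 / 5) with h6 | h6
    · have h7 : u ^ 4 * χ ≤ 3 * u ^ 3 :=
        (mul_le_mul_of_nonneg_left ((le_abs_self χ).trans c2) hu4.le).trans_eq (by field_simp)
      have h8 : u ^ 3 ≤ 1 := pow_le_one₀ hu0.le (by linarith only [h1, h2, h4, hu1])
      linarith only [h1, h2, hu4, h7, h8, f3, h6, f3 h6]
    · have h7 := mul_le_mul_of_nonneg_left ((le_abs_self χ).trans (c3 h6)) hu4.le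
      linarith only [f2, hu4, h7]
  · obtain ⟨k, hk⟩ := exists_rp x
    have h8 : ℓ ≤ |rp x| := by simpa [hk] using h7 (-k)
    have h9 := cos_le_one_sub_mul_cos_sq (abs_le.2 ⟨(rp_mem x).1.le, (rp_mem x).2⟩)
    have h11 : 40 * u ≤ rp x ^ 2 := by
      rw [← sq_abs, hu]
      linarith only [h3, h8, pow_le_pow_left₀ h3.le h8 2]
    have h12 : 8 * u ≤ 1 - cos x := by
      rw [cos_rp] at h9
      linarith only [h9, h11, hu0, mul_le_mul BProf_pi h11 (by positivity) (by positivity)]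
    have h13 : 8 * u ≤ 1 - 2 * (1 - u) * cos x + (1 - u) ^ 2 := by (refine le_of_not_gt fun h_nl => ?_; linarith only [h_nl, hu, h12, h2, h4, hu1, h1, hu0, Mathlib.Tactic.Linarith.mul_zero_eq (Mathlib.Tactic.Linarith.sub_nonpos_of_le (sq_nonneg ((1 : ℝ) - u))) (sub_eq_zero_of_eq hu), Mathlib.Tactic.Linarith.mul_zero_eq (Mathlib.Tactic.Linarith.sub_nonpos_of_le (sq_nonneg u)) (sub_eq_zero_of_eq hu), mul_nonneg_of_nonpos_of_nonpos (Mathlib.Tactic.Linarith.sub_nonpos_of_le (sq_nonneg ((1 : ℝ) * ℓ))) (Mathlib.Tactic.Linarith.sub_nonpos_of_le h2), mul_nonneg_of_nonpos_of_nonpos (Mathlib.Tactic.Linarith.sub_nonpos_of_le (sq_nonneg ((1 : ℝ) * ℓ))) (Mathlib.Tactic.Linarith.sub_nonpos_of_le h4), mul_nonneg_of_nonpos_of_nonpos (Mathlib.Tactic.Linarith.sub_nonpos_of_le (sq_nonneg ((1 : ℝ) * ℓ))) (Mathlib.Tactic.Linarith.sub_nonpos_of_le hu1), Mathlib.Tactic.Linarith.mul_zero_eq (Mathlib.Tactic.Linarith.sub_neg_of_lt h1) (sub_eq_zero_of_eq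 hu), mul_pos_of_neg_of_neg (Mathlib.Tactic.Linarith.sub_neg_of_lt h1) (Mathlib.Tactic.Linarith.sub_neg_of_lt hu0), mul_pos_of_neg_of_neg (Mathlib.Tactic.Linarith.sub_neg_of_lt h1) (Mathlib.Tactic.Linarith.sub_neg_of_lt h_nl), mul_nonneg_of_nonpos_of_nonpos (Mathlib.Tactic.Linarith.sub_nonpos_of_le h2) (Mathlib.Tactic.Linarith.sub_nonpos_of_le h12), mul_nonneg_of_nonpos_of_nonpos (Mathlib.Tactic.Linarith.sub_nonpos_of_le h2) (le_of_lt (Mathlib.Tactic.Linarith.sub_neg_of_lt h_nl)), mul_nonneg_of_nonpos_of_nonpos (Mathlib.Tactic.Linarith.sub_nonpos_of_le h4) (Mathlib.Tactic.Linarith.sub_nonpos_of_le h12), mul_nonneg_of_nonpos_of_nonpos (Mathlib.Tactic.Linarith.sub_nonpos_of_le hu1) (Mathlib.Tactic.Linarith.sub_nonpos_of_le h12)])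
    have h14 : (1 - (1 - u) ^ 2) / (1 - 2 * (1 - u) * cos x + (1 - u) ^ 2) ≤ 1 / 4 := by
      rw [div_le_iff₀ (by linarith only [hu0, h13])]
      linarith only [h13, sq_nonneg u]
    have h15 := mul_le_mul_of_nonneg_left h14 hu4.le
    rw [f4 h6, c4 h6]
    linarith only [h15]

end

end Pool.Agent.MinMod
end

-- merged part: Pool.Agent.Work.MP_f62247_an.BMain
section
/-!
# The example

`e = lam - 1`, `b = π e/(2 lam) ∈ [e, 2e]`, `ℓ = exp (-K1/e²)`, `d = ℓ⁸/K0`.  `model`, `holes`, `atomise` three times (`ν` on the ray `α = 0`, the density of `holes` on `α = π ∓ b`) with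
`ρ = d / (1000 C)`; `f` is the product of the four functions.  `cut`: `∫_{Ioi 0} = ∫ - ∫_{Iic 0}` and the last integral is `O(e^x)`.  Adding up,
`log ‖f‖ ≤ (v + d/100) e^(lam x) + C' e^x`.  If `x` is within `ℓ` of `2πj`, use `θ = π`: `(bσ/8) e^(-lam) (log (b/ℓ) - C) ≥ 4` for a suitable absolute `K1` and small `e`.
Growth: `growth_of_zeros` for `f` with the zeros of the first factor.
-/

open Real MeasureTheory Set Filter Topology

namespace Pool.Agent.MinMod

noncomputable section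

theorem cut {lam C1 x : ℝ} (h1 : 1 < lam) (h2 : lam < 2) (hx : 1 ≤ x) {ν : ℝ → ℝ}
    (hν : Continuous ν) (hb : ∀ t, |ν t| ≤ C1 * exp (lam * t)) (φ : ℝ) :
    (Integrable fun t => nk (x - t) φ * ν t) ∧
      ∫ t in Ioi 0, nk (x - t) φ * ν t ≤
        (∫ t, nk (x - t) φ * ν t) + 5 * C1 / (lam - 1) * exp x := by
  have hC : 0 ≤ C1 := by simpa using (abs_nonneg _).trans (hb 0)
  have hm : Measurable fun t => nk (x - t) φ * ν t := by
    have : Measurable fun t => lg (x - t) φ :=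
      measurable_lg.comp (f := fun t => (x - t, φ)) (by fun_prop)
    exact (this.add (by fun_prop)).mul hν.measurable
  have hi : Integrable fun t => nk (x - t) φ * ν t := by
    refine (((int_exp_env h1 h2 0).comp_sub_left x).const_mul (C1 * exp (lam * x))).mono'
      hm.aestronglyMeasurable ?_
    filter_upwards [(countable_singleton x).ae_notMem volume] with t ht
    have h3 := abs_nk_le (s := x - t) (sub_ne_zero.2 (Ne.symm ht)) φ
    rw [Real.norm_eq_abs, abs_mul, sub_zero]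
    refine (mul_le_mul h3 (hb t) (abs_nonneg _) (env_nonneg _)).trans_eq ?_
    rw [show lam * t = lam * x + -lam * (x - t) by ring, exp_add]
    ring
  refine ⟨hi, ?_⟩
  have e0 : 0 < lam - 1 := sub_pos.2 h1
  rw [← intervalIntegral.integral_Iic_add_Ioi (b := 0) hi.integrableOn hi.integrableOn]
  have h4 : ∫ t in Iic (0 : ℝ), -(4 * C1 * exp x) * exp ((lam - 1) * t) ≤
      ∫ t in Iic (0 : ℝ), nk (x - t) φ * ν t := by
    refine setIntegral_mono_on ((integrableOn_exp_mul_Iic e0 0).const_mul _) hi.integrableOn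
      measurableSet_Iic fun t ht => ?_
    have ht' : t ≤ 0 := ht
    have h5 := abs_nk_le (s := x - t) (by linarith) φ
    have h6 := l0_le (s := x - t) (by rw [abs_of_pos (by linarith)]; linarith)
    have h7 : exp (-|x - t|) ≤ exp (x - t) := exp_le_exp.2 (by linarith [abs_nonneg (x - t)])
    rw [env, if_neg (by linarith)] at h5
    have h8 : |nk (x - t) φ| ≤ 4 * exp (x - t) := by linarith [add_one_le_exp (x - t)]
    have h9 := mul_le_mul h8 (hb t) (abs_nonneg _) (by positivity)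
    rw [← abs_mul] at h9
    refine le_trans (le_of_eq ?_) (neg_le_of_abs_le h9)
    have : exp x * exp ((lam - 1) * t) = exp (x - t) * exp (lam * t) := by
      rw [← exp_add, ← exp_add]
      congr 1
      ring
    linear_combination -(4 * C1) * this
  rw [integral_const_mul, integral_exp_mul_Iic e0, mul_zero, exp_zero] at h4
  have h5 : 0 ≤ C1 / (lam - 1) * exp x := by positivity
  have e1 : 5 * C1 / (lam - 1) * exp x = 5 * (C1 / (lam - 1) * exp x) := by ring
  have e2 : -(4 * C1 * exp x) * (1 / (lam - 1)) = -4 * (C1 / (lam - 1) * exp x) := by ring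
  linarith only [h4, h5, e1, e2]

theorem BMain_ev {a c : ℝ} (ha : 0 < a) (hc : 0 < c) (C : ℝ) :
    ∀ᶠ x in atTop, C ≤ c * exp (a * x) :=
  ((tendsto_exp_atTop.comp (tendsto_id.const_mul_atTop ha)).const_mul_atTop hc).eventually_ge_atTop C

theorem BMain_par {C e b : ℝ} (hC : 1 ≤ C) (h0 : 0 < e) (h1 : e ≤ 1) (hb : e ≤ b) :
    exp (-(C + 1153) / e ^ 2) ≤ b * exp (-C) / 2 ∧
      1152 / e ^ 2 ≤ Real.log (b / exp (-(C + 1153) / e ^ 2)) - C := by
  have b0 : 0 < b := h0.trans_le hb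
  have e2 : 0 < e ^ 2 := by positivity
  have e3 : e ^ 2 ≤ e := by linarith only [h0, h1, mul_nonneg_of_nonpos_of_nonpos (le_of_lt (Mathlib.Tactic.Linarith.sub_neg_of_lt h0)) (Mathlib.Tactic.Linarith.sub_nonpos_of_le h1)]
  have k1 : 1 / e ≤ 1 / e ^ 2 := one_div_le_one_div_of_le e2 e3
  have k2 : 1 ≤ 1 / e ^ 2 := by rw [le_div_iff₀ e2]; linarith
  have k3 := (one_sub_inv_le_log_of_pos h0).trans (Real.log_le_log h0 hb)
  rw [← one_div] at k3
  have k4 : 1152 / e ^ 2 ≤ Real.log (b / exp (-(C + 1153) / e ^ 2)) - C := by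
    rw [Real.log_div b0.ne' (exp_pos _).ne', log_exp]
    have a1 : -(C + 1153) / e ^ 2 = -(C + 1153) * (1 / e ^ 2) := by ring
    have a2 : 1152 / e ^ 2 = 1152 * (1 / e ^ 2) := by ring
    linarith only [k1, k2, k3, a1, a2, hC, mul_nonneg_of_nonpos_of_nonpos (Mathlib.Tactic.Linarith.sub_nonpos_of_le hC) (Mathlib.Tactic.Linarith.sub_nonpos_of_le k2)]
  refine ⟨?_, k4⟩
  have k5 : 1 + C ≤ Real.log (b / exp (-(C + 1153) / e ^ 2)) := by
    have a2 : 1152 / e ^ 2 = 1152 * (1 / e ^ 2) := by ring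
    linarith only [k2, k4, a2]
  rw [le_log_iff_exp_le (by positivity), le_div_iff₀ (exp_pos _), exp_add] at k5
  have k6 : exp C * exp (-C) = 1 := by rw [← exp_add, add_neg_cancel, exp_zero]
  have k7 := mul_le_mul_of_nonneg_right k5 (exp_pos (-C)).le
  have k8 : exp 1 * exp C * exp (-(C + 1153) / e ^ 2) * exp (-C) =
      exp 1 * exp (-(C + 1153) / e ^ 2) := by
    linear_combination exp 1 * exp (-(C + 1153) / e ^ 2) * k6
  linarith only [k7, k8, add_one_le_exp 1, exp_pos (-(C + 1153) / e ^ 2), mul_nonneg_of_nonpos_of_nonpos (Mathlib.Tactic.Linarith.sub_nonpos_of_le (add_one_le_exp (1 : ℝ))) (le_of_lt (Mathlib.Tactic.Linarith.sub_neg_of_lt (exp_pos (-(C + (1153 : ℝ)) / e ^ (2 : ℕ)))))]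

theorem BMain_mul {a b c d : ℂ} {p q r s t : ℝ} (ha : ‖a‖ ≤ exp p) (hb : ‖b‖ ≤ exp q)
    (hc : ‖c‖ ≤ exp r) (hd : ‖d‖ ≤ exp s) (h : p + q + r + s ≤ t) : ‖a * b * c * d‖ ≤ exp t := by
  refine le_trans ?_ (exp_le_exp.2 h)
  rw [norm_mul, norm_mul, norm_mul, exp_add, exp_add, exp_add]
  gcongr

theorem example_exists : ∃ K e0 : ℝ, 0 < K ∧ 0 < e0 ∧ ∀ lam : ℝ, 1 < lam → lam < 1 + e0 →
    ∃ d : ℝ, exp (-K / (lam - 1) ^ 2) ≤ d ∧ d ≤ 1 ∧ ∃ (f : ℂ → ℂ) (c x0 : ℝ), Differentiable ℂ f ∧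
      0 < c ∧ ∀ x : ℝ, x0 ≤ x →
        (∃ θ : ℝ, ‖f (Complex.exp (x + θ * Complex.I))‖ ≤ exp (-(1 + d) * exp (lam * x))) ∧
        (∀ θ : ℝ, ‖f (Complex.exp (x + θ * Complex.I))‖ ≤ exp ((1 + 4 / 5 * d) * exp (lam * x))) ∧
        ∃ θ : ℝ, exp (c * exp (lam * x)) ≤ ‖f (Complex.exp (x + θ * Complex.I))‖ := by
  obtain ⟨K0, hK0, hmodel⟩ := model
  obtain ⟨CH, hCH, hholes⟩ := holes
  obtain ⟨CA, hCA, hatom⟩ := atomise
  refine ⟨8 * (CH + 1153) + K0, 1 / 100, by linarith only [hK0, hCH], by norm_num, fun lam h1 h2 => ?_⟩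
  have e0 : 0 < lam - 1 := sub_pos.2 h1
  have l2 : lam < 2 := by linarith only [h1, h2]
  obtain ⟨b, hb⟩ : ∃ b, b = π * (lam - 1) / (2 * lam) := ⟨_, rfl⟩
  have hb1 : lam - 1 ≤ b := by
    rw [hb, le_div_iff₀ (by linarith only [h1, h2])]
    linarith only [h1, h2, pi_gt_three, mul_pos_of_neg_of_neg (Mathlib.Tactic.Linarith.sub_neg_of_lt h1) (Mathlib.Tactic.Linarith.sub_neg_of_lt h1), mul_pos_of_neg_of_neg (Mathlib.Tactic.Linarith.sub_neg_of_lt h1) (Mathlib.Tactic.Linarith.sub_neg_of_lt h2), mul_pos_of_neg_of_neg (Mathlib.Tactic.Linarith.sub_neg_of_lt h1) (Mathlib.Tactic.Linarith.sub_neg_of_lt pi_gt_three)]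
  have hb2 : b ≤ 1 / 2 := by
    rw [hb, div_le_iff₀ (by linarith only [h1, h2])]
    linarith only [h2, h1, pi_lt_four, mul_pos_of_neg_of_neg (Mathlib.Tactic.Linarith.sub_neg_of_lt h1) (Mathlib.Tactic.Linarith.sub_neg_of_lt h1), mul_pos_of_neg_of_neg (Mathlib.Tactic.Linarith.sub_neg_of_lt h1) (Mathlib.Tactic.Linarith.sub_neg_of_lt h2), mul_pos_of_neg_of_neg (Mathlib.Tactic.Linarith.sub_neg_of_lt h1) (Mathlib.Tactic.Linarith.sub_neg_of_lt pi_lt_four)]
  have b0 : 0 < b := e0.trans_le hb1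
  obtain ⟨hl1, hl2⟩ := BMain_par hCH e0 (by linarith only [h1, h2]) hb1
  have hl3 := (BMain_par hCH e0 (by linarith only [h1, h2]) le_rfl).1
  obtain ⟨ℓ, hℓ⟩ : ∃ ℓ, ℓ = exp (-(CH + 1153) / (lam - 1) ^ 2) := ⟨_, rfl⟩
  rw [← hℓ] at hl1 hl2 hl3
  have l0 : 0 < ℓ := hℓ ▸ exp_pos _
  have l1 : ℓ ≤ lam - 1 := by
    have : exp (-CH) ≤ 1 := exp_le_one_iff.2 (by linarith only [hCH, h1, h2])
    linarith only [h1, hl3, this, e0, mul_le_mul_of_nonneg_left this e0.le]
  obtain ⟨σ, c1, ν, hσ1, hσ2, hc1, hν, hνb, hv⟩ := hmodel lam ℓ h1 (by linarith only [h2]) l0 l1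
  rw [← hb] at hv
  have s0 : 0 < σ := by linarith only [h1, hσ1]
  obtain ⟨μ, fh, hμ, hμb, dh, zh, bh, bh'⟩ := hholes lam b σ h1 l2 b0 hb2 s0
  obtain ⟨d, hd⟩ : ∃ d, d = ℓ ^ 8 / K0 := ⟨_, rfl⟩
  rw [← hd] at hv
  have d0 : 0 < d := by rw [hd]; positivity
  have d1 : d ≤ 1 := by
    rw [hd, div_le_one (by linarith only [hK0])]
    exact (pow_le_one₀ l0.le (by linarith only [h2, l1])).trans hK0
  obtain ⟨ρ, hρ⟩ : ∃ ρ, ρ = d / (1000 * CA) := ⟨_, rfl⟩
  have r0 : 0 < ρ := by rw [hρ]; positivity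
  have r1 : CA * ρ = d / 1000 := by rw [hρ]; field_simp
  have r2 : ρ ≤ 1 / 2 := by linarith only [h1, h2, d1, r1, hCA, r0, mul_le_mul_of_nonneg_right hCA r0.le]
  have hμ1 : ∀ t, μ t ≤ 1 * exp (lam * t) := fun t =>
    (hμb t).2.trans (mul_le_mul_of_nonneg_right hσ2 (exp_pos _).le)
  obtain ⟨f0, df0, zf0, bf0, gf0⟩ := hatom lam c1 1 0 ρ ν h1 l2 hc1 r0 r2 hν
    fun t _ => ⟨(hνb t).1, by simpa using (hνb t).2⟩
  obtain ⟨f1, df1, zf1, bf1, -⟩ := hatom lam (σ / 2) 1 (π - b) ρ μ h1 l2 (half_pos s0) r0 r2 hμ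
    fun t _ => ⟨(hμb t).1, hμ1 t⟩
  obtain ⟨f2, df2, zf2, bf2, -⟩ := hatom lam (σ / 2) 1 (π + b) ρ μ h1 l2 (half_pos s0) r0 r2 hμ
    fun t _ => ⟨(hμb t).1, hμ1 t⟩
  refine ⟨d, ?_, d1, fun z => f0 z * f1 z * f2 z * fh z, c1 * exp (-4) / 8, ?_⟩
  · rw [hd, le_div_iff₀ (by linarith only [hK0]), hℓ, ← exp_nat_mul]
    refine (mul_le_mul_of_nonneg_left (by linarith only [add_one_le_exp K0] : K0 ≤ exp K0)
      (exp_pos _).le).trans ?_
    rw [← exp_add, exp_le_exp]
    have e2 : 0 < (lam - 1) ^ 2 := by positivity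
    have : K0 ≤ K0 / (lam - 1) ^ 2 := by
      rw [le_div_iff₀ e2]
      exact mul_le_of_le_one_right (by linarith only [hK0]) (pow_le_one₀ e0.le (by linarith only [h2]))
    have a1 : -(8 * (CH + 1153) + K0) / (lam - 1) ^ 2 =
        8 * (-(CH + 1153) / (lam - 1) ^ 2) - K0 / (lam - 1) ^ 2 := by ring
    push_cast
    linarith only [this, a1]
  obtain ⟨x0, hx0⟩ := eventually_atTop.1 ((eventually_ge_atTop (2 : ℝ)).and
    ((BMain_ev e0 (div_pos d0 (by norm_num : (0 : ℝ) < 100))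
      (3 * (1 + 1 / ρ) + 3 * (5 * 1 / (lam - 1)))).and
    ((BMain_ev (by linarith only [h1] : 0 < lam) (by positivity : 0 < b * σ / 4 / 9) 1).and
      (BMain_ev (by linarith only [h1] : 0 < lam) (by positivity : 0 < c1 * exp (-4) / 4) (c1 / 2 + 1)))))
  have df : Differentiable ℂ fun z => f0 z * f1 z * f2 z * fh z := by fun_prop
  refine ⟨x0, df, by positivity, fun x hx => ?_⟩
  obtain ⟨x2, k1, k2, k3⟩ := hx0 x hx
  have E0 := exp_pos (lam * x)
  have k1' : (3 * (1 + 1 / ρ) + 3 * (5 * 1 / (lam - 1))) * exp x ≤ d / 100 * exp (lam * x) := by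
    rw [show lam * x = (lam - 1) * x + x by ring, exp_add, ← mul_assoc]
    exact mul_le_mul_of_nonneg_right k1 (exp_pos _).le
  have cν := cut (C1 := 1) h1 l2 (by linarith only [x2] : 1 ≤ x) hν fun t => by
    rw [abs_of_pos ((by positivity : 0 < c1 * exp (lam * t)).trans_le (hνb t).1), one_mul]
    exact (hνb t).2
  have cμ := cut (C1 := 1) h1 l2 (by linarith only [x2] : 1 ≤ x) hμ fun t => by
    rw [abs_of_pos ((by positivity : 0 < σ / 2 * exp (lam * t)).trans_le (hμb t).1)]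
    exact hμ1 t
  have cσ := cut (C1 := σ) (ν := fun t => σ * exp (lam * t)) h1 l2 (by linarith only [x2] : 1 ≤ x)
    (by fun_prop) fun t => (abs_of_pos (by positivity)).le
  have hs : ∀ φ, ∫ t, nk (x - t) φ * (σ * exp (lam * t) - μ t) =
      (∫ t, nk (x - t) φ * (σ * exp (lam * t))) - ∫ t, nk (x - t) φ * μ t := fun φ => by
    rw [← integral_sub (cσ φ).1 (cμ φ).1]
    simp only [mul_sub]
  have key : ∀ θ v G : ℝ, (∫ t, nk (x - t) θ * ν t) +
      (∫ t, nk (x - t) (θ - (π - b)) * (σ * exp (lam * t))) +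
      (∫ t, nk (x - t) (θ - (π + b)) * (σ * exp (lam * t))) = v * exp (lam * x) →
      ‖fh (Complex.exp (x + θ * Complex.I))‖ ≤
        exp ((∫ t, nk (x - t) (θ - (π - b)) * (σ * exp (lam * t) - μ t)) +
          (∫ t, nk (x - t) (θ - (π + b)) * (σ * exp (lam * t) - μ t)) - G) →
      ‖f0 (Complex.exp (x + θ * Complex.I)) * f1 (Complex.exp (x + θ * Complex.I)) *
        f2 (Complex.exp (x + θ * Complex.I)) * fh (Complex.exp (x + θ * Complex.I))‖ ≤
        exp ((v + d / 50) * exp (lam * x) - G) := fun θ v G e h => by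
    refine BMain_mul (bf0 x θ) (bf1 x θ) (bf2 x θ) h ?_
    rw [hs, hs, sub_zero, mul_one, r1]
    have := mul_pos d0 E0
    linarith only [k1', e, this, cν, cμ, (cν θ).2, (cμ (θ - (π - b))).2, (cμ (θ - (π + b))).2]
  have dE := mul_pos d0 E0
  refine ⟨?_, fun θ => ?_, ?_⟩
  · by_cases hj : ∀ j : ℤ, ℓ ≤ |x - j * (2 * π)|
    · obtain ⟨v, e, -, h⟩ := hv x 0
      refine ⟨0, (key 0 v 0 e (by rw [sub_zero]; exact bh x 0)).trans (exp_le_exp.2 ?_)⟩
      linarith only [dE, h, hj, E0, mul_le_mul_of_nonneg_right (h rfl hj) E0.le]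
    · push Not at hj
      obtain ⟨j, hj⟩ := hj
      have j1 : x - 1 ≤ j * (2 * π) := by linarith only [h2, l1, hj, (abs_lt.1 hj).2]
      have j0 : 0 ≤ j := by
        by_contra hn
        have : (j : ℝ) ≤ 0 := by exact_mod_cast (not_le.1 hn).le
        linarith only [x2, j1, this, mul_nonpos_of_nonpos_of_nonneg this two_pi_pos.le]
      obtain ⟨n, rfl⟩ := Int.eq_ofNat_of_zero_le j0
      rw [Int.cast_natCast] at hj j1
      have j2 : exp (lam * x) / 9 ≤ exp (lam * (n * (2 * π))) := by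
        have a1 : exp (lam * x) ≤ exp (lam * (n * (2 * π))) * (exp 1 * exp 1) := by
          rw [← exp_add, ← exp_add, exp_le_exp]
          linarith only [h2, j1, h1, mul_le_mul_of_nonneg_left j1 (by linarith : 0 ≤ lam)]
        have a0 : exp 1 ≤ 3 := by linarith only [exp_one_lt_d9]
        have a2 := mul_le_mul a0 a0 (exp_pos 1).le (by norm_num)
        linarith only [a1, a2, mul_le_mul_of_nonneg_left a2 (exp_pos (lam * (n * (2 * π)))).le]
      have bs : 0 < b * σ := mul_pos b0 s0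
      obtain ⟨v, e, h, -⟩ := hv x π
      refine ⟨π, (key π v _ e (bh' x ℓ n l0 hl1 hj.le
        (by linarith only [k2, j2, bs, mul_le_mul_of_nonneg_left j2 bs.le]))).trans (exp_le_exp.2 ?_)⟩
      have a1 : (lam - 1) ^ 2 / 32 ≤ b * σ / 8 := by
        linarith only [hb1, hσ1, h1, b0, mul_le_mul hb1 hσ1 (by linarith) b0.le]
      have a2 : (lam - 1) ^ 2 / 32 * (exp (lam * x) / 9) * (1152 / (lam - 1) ^ 2) ≤
          b * σ / 8 * exp (lam * (n * (2 * π))) * (Real.log (b / ℓ) - CH) := by gcongr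
      have a3 : (lam - 1) ^ 2 / 32 * (exp (lam * x) / 9) * (1152 / (lam - 1) ^ 2) =
          4 * exp (lam * x) := by
        field_simp
        ring
      linarith only [E0, a2, a3, h, d1, mul_le_mul_of_nonneg_right h E0.le, mul_le_mul_of_nonneg_right d1 E0.le]
  · obtain ⟨v, e, h, -⟩ := hv x θ
    refine (key θ v 0 e (by rw [sub_zero]; exact bh x θ)).trans (exp_le_exp.2 ?_)
    linarith only [dE, h, E0, mul_le_mul_of_nonneg_right h E0.le]
  · obtain ⟨A, hA, hA'⟩ := gf0 (x - 2) (by linarith only [x2])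
    obtain ⟨z, hz, hz'⟩ := growth_of_zeros df (by simp [zf0, zf1, zf2, zh])
      (r := exp x / 3) (by positivity) A fun a ha => ⟨by simp [(hA a ha).1], (hA a ha).2.trans (by
        rw [exp_sub, div_le_div_iff_of_pos_left (exp_pos _) (exp_pos _) (by norm_num)]
        linarith only [add_one_le_exp 2])⟩
    refine ⟨Complex.arg z, le_trans (exp_le_exp.2 ?_) (hz'.trans_eq ?_)⟩
    · have a1 : exp (-4) * exp (lam * x) ≤ exp (lam * (x - 2)) := by
        rw [← exp_add, exp_le_exp]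
        linarith only [h2]
      have a2 : 1 ≤ exp (lam * (x - 2)) := one_le_exp (mul_nonneg (by linarith only [h1]) (by linarith only [x2]))
      have a3 : c1 * (exp (lam * (x - 2)) - 1) / 2 ≤ c1 * (exp (lam * (x - 2)) - 1) / lam :=
        div_le_div_of_nonneg_left (mul_nonneg hc1.le (by linarith only [a2])) (by linarith only [h1]) l2.le
      have a4 := mul_le_mul_of_nonneg_left a1 hc1.le
      have a5 : (0 : ℝ) ≤ A.card := Nat.cast_nonneg _
      linarith only [k3, hA', a3, a4, a5, mul_le_mul_of_nonneg_left (by linarith [log_two_gt_d9] : 1 / 2 ≤ Real.log 2) a5]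
    · have : Complex.exp (x + Complex.arg z * Complex.I) = z := by
        rw [Complex.exp_add, ← Complex.ofReal_exp, show exp x = ‖z‖ by rw [hz]; ring,
          Complex.norm_mul_exp_arg_mul_I]
      simp only [this]

end

end Pool.Agent.MinMod
end

-- merged part: Pool.Agent.Work.MP_f62247_an.FinC
section
/-!
# The upper bound

For `r = e^x` large: `c r^lam ≤ log M ≤ 2 r^lam`, so `log log M / log r → lam` (`Tendsto.liminf_eq`), `f` is not constant (its norm takes a value `< 1` and a value `> 1`), and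
`log m₀ / log M ≤ -(1+d)/(1+4d/5) ≤ -1 - d/10`; `d/10 ≥ exp (-(K+1)/e²)` for small `e`.
-/

open Real MeasureTheory Set Filter Topology

namespace Pool.Agent.MinMod

noncomputable section

theorem FinC_order {f : ℂ → ℂ} {c C lam x0 : ℝ} (hc : 0 < c) (hC : 0 < C)
    (h : ∀ x, x0 ≤ x → c * exp (lam * x) ≤ Real.log (maxMod f (exp x)) ∧
      Real.log (maxMod f (exp x)) ≤ C * exp (lam * x)) : lowerOrder f = (lam : EReal) := by
  have h1 : ∀ a : ℝ, Tendsto (fun x : ℝ => a / x + lam) atTop (𝓝 lam) := fun a => by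
    simpa using (tendsto_id.const_div_atTop a).add_const lam
  have h2 : Tendsto (fun x => Real.log (Real.log (maxMod f (exp x))) / x) atTop (𝓝 lam) := by
    refine tendsto_of_tendsto_of_tendsto_of_le_of_le' (h1 (Real.log c)) (h1 (Real.log C)) ?_ ?_
    · filter_upwards [eventually_ge_atTop x0, eventually_gt_atTop 0] with x h3 h4
      have h5 := log_le_log (by positivity) (h x h3).1
      rw [log_mul hc.ne' (exp_pos _).ne', log_exp] at h5
      rwa [le_div_iff₀ h4, add_mul, div_mul_cancel₀ _ h4.ne']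
    · filter_upwards [eventually_ge_atTop x0, eventually_gt_atTop 0] with x h3 h4
      have h5 := log_le_log (lt_of_lt_of_le (by positivity) (h x h3).1) (h x h3).2
      rw [log_mul hC.ne' (exp_pos _).ne', log_exp] at h5
      rwa [div_le_iff₀ h4, add_mul, div_mul_cancel₀ _ h4.ne']
  refine Tendsto.liminf_eq ((continuous_coe_real_ereal.tendsto lam).comp
    ((h2.comp tendsto_log_atTop).congr' ?_))
  filter_upwards [eventually_gt_atTop 0] with r hr
  simp only [Function.comp_apply, exp_log hr]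

theorem upper_bound : ∃ K δ : ℝ, 0 < K ∧ 0 < δ ∧ ∀ e : ℝ, 0 < e → e < δ →
    minModConst (1 + e) ≤ ((-1 - exp (-K / e ^ 2) : ℝ) : EReal) := by
  obtain ⟨K, e0, hK, he0, h⟩ := example_exists
  refine ⟨K + 1, min e0 (1 / 3), by linarith, lt_min he0 (by norm_num), fun e he hlt => ?_⟩
  have h3 : e < 1 / 3 := hlt.trans_le (min_le_right _ _)
  obtain ⟨d, hd0, hd1, f, c, x0, hf, hc, hx⟩ :=
    h (1 + e) (by linarith) (by linarith [hlt.trans_le (min_le_left _ _)])
  rw [add_sub_cancel_left] at hd0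
  have hd : 0 < d := (exp_pos _).trans_le hd0
  have hL : ∀ x, x0 ≤ x → c * exp ((1 + e) * x) ≤ Real.log (maxMod f (exp x)) ∧
      Real.log (maxMod f (exp x)) ≤ (1 + 4 / 5 * d) * exp ((1 + e) * x) := by
    intro x h0
    obtain ⟨-, h2, θ, h4⟩ := hx x h0
    obtain ⟨⟨θ', h5⟩, -, h6⟩ := exists_maxMod hf.continuous x
    have h7 := h4.trans (h6 θ).2
    exact ⟨(le_log_iff_exp_le ((exp_pos _).trans_le h7)).2 h7,
      (log_le_iff_le_exp ((exp_pos _).trans_le h7)).2 (h5 ▸ h2 θ')⟩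
  have hne : ∃ z w, f z ≠ f w := by
    obtain ⟨⟨θ, h1⟩, -, θ', h2⟩ := hx x0 le_rfl
    refine ⟨_, _, fun h4 => absurd ((h2.trans_eq (congrArg norm h4)).trans h1) (not_le.2 ?_)⟩
    have := exp_pos ((1 + e) * x0)
    exact exp_lt_exp.2 (by linarith only [this, hc, hd, mul_pos hc this, mul_pos hd this])
  refine (iInf₂_le f ⟨hf, hne, FinC_order hc (by positivity) hL⟩).trans
    (limsup_le_of_le (h := ?_))
  filter_upwards [tendsto_log_atTop.eventually_ge_atTop x0, eventually_gt_atTop 0] with r h0 hr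
  obtain ⟨x, rfl⟩ : ∃ x, r = exp x := ⟨_, (exp_log hr).symm⟩
  rw [log_exp] at h0
  unfold modRatio
  split_ifs with hm
  · exact bot_le
  obtain ⟨⟨θ, h1⟩, -⟩ := hx x h0
  obtain ⟨-, ⟨θ', h5⟩, h6⟩ := exists_maxMod hf.continuous x
  have h7 : 0 < minMod f (exp x) := lt_of_le_of_ne (h5 ▸ norm_nonneg _) (Ne.symm hm)
  have h8 := (log_le_iff_le_exp h7).2 ((h6 θ).1.trans h1)
  obtain ⟨h9, h10⟩ := hL x h0
  have hE := exp_pos ((1 + e) * x)
  have h11 : exp (-(K + 1) / e ^ 2) ≤ d / 10 := by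
    have h12 : 9 ≤ 1 / e ^ 2 := by
      rw [le_div_iff₀ (by positivity)]
      linarith only [h3, he, mul_pos_of_neg_of_neg (Mathlib.Tactic.Linarith.sub_neg_of_lt he) (Mathlib.Tactic.Linarith.sub_neg_of_lt h3)]
    have h13 : exp (-(K + 1) / e ^ 2) * exp (1 / e ^ 2) = exp (-K / e ^ 2) := by
      rw [← exp_add]
      congr 1
      ring
    (refine le_of_not_gt fun h_nl => ?_; linarith only [h_nl, hd0, h13, he, h3, hd, h12, add_one_le_exp (1 / e ^ 2), exp_pos (-(K + 1) / e ^ 2), mul_pos_of_neg_of_neg (Mathlib.Tactic.Linarith.sub_neg_of_lt he) (Mathlib.Tactic.Linarith.sub_neg_of_lt h_nl), mul_pos_of_neg_of_neg (Mathlib.Tactic.Linarith.sub_neg_of_lt h3) (Mathlib.Tactic.Linarith.sub_neg_of_lt h_nl), mul_nonneg_of_nonpos_of_nonpos (le_of_lt (Mathlib.Tactic.Linarith.sub_neg_of_lt hd)) (Mathlib.Tactic.Linarith.sub_nonpos_of_le h12), mul_nonneg_of_nonpos_of_nonpos (le_of_lt (Mathlib.Tactic.Linarith.sub_neg_of_lt hd)) (Mathlib.Tactic.Linarith.sub_nonpos_of_le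 (add_one_le_exp ((1 : ℝ) / e ^ (2 : ℕ)))), mul_nonneg_of_nonpos_of_nonpos (Mathlib.Tactic.Linarith.sub_nonpos_of_le h12) (le_of_lt (Mathlib.Tactic.Linarith.sub_neg_of_lt h_nl)), mul_nonneg_of_nonpos_of_nonpos (le_of_lt (Mathlib.Tactic.Linarith.sub_neg_of_lt h_nl)) (Mathlib.Tactic.Linarith.sub_nonpos_of_le (add_one_le_exp ((1 : ℝ) / e ^ (2 : ℕ))))])
  refine EReal.coe_le_coe_iff.2 (le_trans ?_ (sub_le_sub_left h11 _))
  rw [div_le_iff₀ ((mul_pos hc hE).trans_le h9)]
  have h14 := mul_le_mul_of_nonneg_left h10 (show 0 ≤ 1 + d / 10 by positivity)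
  linarith only [h8, h14, hd, hd1, hE, mul_nonneg (mul_nonneg hd.le (sub_nonneg.2 hd1)) hE.le, mul_pos hd hE]

end

end Pool.Agent.MinMod
end
end
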