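import Mathlib

-- merged part: Pool.Agent.Work.MP_f62247_an.KerG
section
-- merged part: Pool.Agent.Work.MP_f62247_an.Defs
section
/-!
Definitions for the minimum modulus problem, in logarithmic coordinates `z = x + i θ`.
See PROOF.md in this folder.
-/

open Real MeasureTheory Set Filter Topology

namespace Pool.Agent.MinMod

noncomputable section

/-- `log |1 - e^(s + i φ)|` -/
def lg (s φ : ℝ) : ℝ := Real.log ‖1 - Complex.exp (s + φ * Complex.I)‖

/-- the genus one kernel -/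
def nk (s φ : ℝ) : ℝ := lg s φ + exp s * cos φ

/-- derivative of `lg s` -/
def dlg (s φ : ℝ) : ℝ := exp s * sin φ / (1 - 2 * exp s * cos φ + exp (2 * s))

/-- complex derivative of the holomorphic function with real part `nk` -/
def fk (w : ℂ) : ℂ := -Complex.exp (2 * w) / (1 - Complex.exp w)

def kap (s : ℝ) : ℝ := lg (2 * s) 0

def l0 (s : ℝ) : ℝ := -Real.log (1 - exp (-|s|))

def env (s : ℝ) : ℝ := if s < 0 then exp s * l0 s else 1 + s + exp s + l0 s

def w0 (s : ℝ) : ℝ := min (exp (2 * s)) 1 + max s 0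

def Kp (s : ℝ) : ℝ :=
  (exp (-s) - 1) * Real.log |1 - exp s| + (exp (-s) + 1) * Real.log (1 + exp s)

/-- representative of an angle in `(-π, π]` -/
def rp (η : ℝ) : ℝ := toIocMod Real.two_pi_pos (-π) η

def Sg (lam η : ℝ) : ℝ := sin (lam * max (-(π / lam)) (min (rp η) (π / lam)))

def Nh (lam s φ : ℝ) : ℝ := lg (2 * lam * s) (2 * lam * φ)

def Om (lam t : ℝ) : ℝ := exp (2 * lam * t) / (1 + exp (2 * lam * t))

def dOm (lam t : ℝ) : ℝ := 2 * lam * exp (2 * lam * t) / (1 + exp (2 * lam * t)) ^ 2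

def Kc (lam t : ℝ) : ℝ := exp (-lam * t) * Om lam t

def kk (lam t : ℝ) : ℝ := lam * exp (lam * t) / (1 + exp (lam * t)) ^ 2

def kw (lam u : ℝ) : ℝ := min (exp (-2 * lam * u)) (exp (lam * u))

def Imk (lam u η : ℝ) : ℝ :=
  Sg lam η * exp (lam * u) / (1 - 2 * exp (lam * u) * cos (lam * rp η) + exp (2 * lam * u))

def Sop (lam : ℝ) (u : ℝ → ℝ) (θ : ℝ) : ℝ := 2 * u θ + u (θ + π / lam) + u (θ - π / lam)

def Dop (lam : ℝ) (u : ℝ → ℝ) (θ : ℝ) : ℝ := u (θ + π / lam) - u (θ - π / lam)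

/-- admissible weights -/
def Wt (lam : ℝ) (ρ : ℝ → ℝ) : Prop := Measurable ρ ∧ ∃ C : ℝ, ∀ t, |ρ t| ≤ C * exp (-lam * max t 0)

def ki (n : ℕ) (x : ℝ) : ℕ := min n ⌊x⌋₊

def omk (lam : ℝ) (k : ℕ) (t : ℝ) : ℝ := if k = 0 then 1 else Om lam (t - k)

def chi (lam : ℝ) (k : ℕ) (t : ℝ) : ℝ := omk lam k t - omk lam (k + 1) t

/-- harmonic measure of a strip of half width `b` -/
def hm (b t : ℝ) : ℝ := 1 / (4 * b * cosh (π * t / (2 * b)))

/-- a finite configuration: a linear term and finitely many zeros `exp (ξ a + i η a)` -/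
structure Cfg where
  c : ℂ
  s : Finset ℕ
  ξ : ℕ → ℝ
  η : ℕ → ℝ

namespace Cfg

variable (Z : Cfg)

def ζ (a : ℕ) : ℂ := Z.ξ a + Z.η a * Complex.I

def F (z : ℂ) : ℂ :=
  Complex.exp (Z.c * Complex.exp z) *
    ∏ a ∈ Z.s, ((1 - Complex.exp (z - Z.ζ a)) * Complex.exp (Complex.exp (z - Z.ζ a)))

def U (x θ : ℝ) : ℝ :=
  (Z.c * Complex.exp (x + θ * Complex.I)).re + ∑ a ∈ Z.s, nk (x - Z.ξ a) (θ - Z.η a)

def B (x : ℝ) : ℝ := Real.log (⨆ θ : ℝ, ‖Z.F (x + θ * Complex.I)‖)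

def Reg (x : ℝ) : Prop := ∀ a ∈ Z.s, Z.ξ a ≠ x

def L (x : ℝ) : ℝ := ∑ a ∈ Z.s, exp (-Z.ξ a) * Kp (x - Z.ξ a)

def W (x : ℝ) : ℝ := ∑ a ∈ Z.s, w0 (x - Z.ξ a)

def om (x : ℝ) : ℝ := -∑ a ∈ Z.s, kap (x - Z.ξ a)

def cc (y : ℝ) : ℂ := Z.c + ∑ a ∈ Z.s.filter (fun a => Z.ξ a < y), Complex.exp (-Z.ζ a)

def Min (η x : ℝ) : Prop := ∃ θ : ℝ, ‖Z.F (x + θ * Complex.I)‖ ≤ exp (-(1 + η) * Z.B x)

def shift (y : ℝ) : Cfg := ⟨Z.c * Complex.exp y, Z.s, fun a => Z.ξ a - y, Z.η⟩

def relift (η' : ℕ → ℝ) : Cfg := ⟨Z.c, Z.s, Z.ξ, η'⟩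

def D (lam t θ : ℝ) : ℝ := Dop lam (Z.U t) θ

def gap (lam : ℝ) (V : Finset ℕ) (t θ : ℝ) : ℝ :=
  ∑ a ∈ V, (Nh lam (t - Z.ξ a) (θ - Z.η a) - Nh lam (t - Z.ξ a) 0)

def P (lam : ℝ) (V : Finset ℕ) (t θ : ℝ) : ℝ := Sop lam (Z.U t) θ - 2 * Z.gap lam V t θ

def ms (lam : ℝ) (V : Finset ℕ) (a : ℕ) (θ : ℝ) : ℝ :=
  2 * π * (|Sg lam (Z.η a - θ)| - if a ∈ V then |sin (lam * (Z.η a - θ))| else 0)

def sz (lam : ℝ) (V : Finset ℕ) (a : ℕ) (θ : ℝ) : ℝ :=
  if a ∈ V then min 1 |Z.η a - θ| else |Sg lam (Z.η a - θ)|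

def Mh (lam : ℝ) (V : Finset ℕ) (y θ : ℝ) : ℝ :=
  lam * (∫ t, exp (-lam * t) * Om lam (t - y) * Z.P lam V t θ) -
    ∑ a ∈ Z.s, Om lam (Z.ξ a - y) * exp (-lam * Z.ξ a) * Z.ms lam V a θ

def Mc (lam : ℝ) (V : Finset ℕ) (w : ℝ → ℝ) (θ : ℝ) : ℝ :=
  lam * (∫ t in Ioi 0, exp (-lam * t) * w t * Z.P lam V t θ) -
    ∑ a ∈ Z.s.filter (fun a => 0 ≤ Z.ξ a), w (Z.ξ a) * exp (-lam * Z.ξ a) * Z.ms lam V a θ

def Nf (lam y θ : ℝ) : ℝ :=
  lam * (∫ t in Ioi y, exp (-lam * t) * Z.D lam t θ) -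
    ∑ a ∈ Z.s.filter (fun a => y ≤ Z.ξ a), exp (-lam * Z.ξ a) * (2 * π * Sg lam (Z.η a - θ))

/-- `Nf` without its main part -/
def Np (lam y θ : ℝ) : ℝ :=
  Z.Nf lam y θ + 2 * lam * sin (π / lam) / (lam - 1) * exp (-(lam - 1) * y) *
    (Z.cc y * Complex.exp (θ * Complex.I)).im

def Zl (lam : ℝ) (V : Finset ℕ) (y θ : ℝ) : ℝ :=
  exp (-lam * y) * ((∫ t, kw lam (t - y) * |Z.D lam t θ|) +
    ∑ a ∈ Z.s, kw lam (Z.ξ a - y) * Z.sz lam V a θ)

def ut (lam : ℝ) (V : Finset ℕ) (x θ : ℝ) : ℝ :=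
  Z.U x θ - ∑ a ∈ V, Nh lam (x - Z.ξ a) (θ - Z.η a)

def dU (x θ : ℝ) : ℝ :=
  -(Z.c * Complex.exp (x + θ * Complex.I)).im +
    ∑ a ∈ Z.s, (dlg (x - Z.ξ a) (θ - Z.η a) - exp (x - Z.ξ a) * sin (θ - Z.η a))

def tau (lam : ℝ) (V : Finset ℕ) (x θ : ℝ) : ℝ :=
  Z.dU x θ - ∑ a ∈ V, 2 * lam * dlg (2 * lam * (x - Z.ξ a)) (2 * lam * (θ - Z.η a))

def rr (lam t θ : ℝ) : ℝ := 2 * Z.B t - Z.U t (θ + π / lam) - Z.U t (θ - π / lam)

def GoodAt (θ x : ℝ) : Prop := ∀ φ, Z.U x φ ≤ -Z.B x → |rp (φ - θ)| ≤ 1 / 16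

def cell (k : ℕ) : Finset ℕ := Z.s.filter fun a => (k : ℝ) ≤ Z.ξ a ∧ Z.ξ a < k + 1

def VV (n : ℕ) (θ : ℕ → ℝ) : Finset ℕ := Z.s.filter fun a => |Z.η a - θ (ki n (Z.ξ a))| ≤ 1 / 4

def Off (n : ℕ) (θ : ℕ → ℝ) (u : ℝ) : Finset ℕ :=
  Z.s.filter fun a => (u ≤ Z.ξ a ∧ Z.ξ a < u + 1) ∧ 1 / 32 ≤ |Z.η a - θ (ki n (Z.ξ a))|

/-- the size of the linear term -/
def A (y : ℝ) : ℝ := ‖Z.cc y‖ * exp y

def g (lam : ℝ) (k : ℕ) : ℝ := ‖Z.cc k‖ * exp (-(lam - 1) * k)

def Wh (lam : ℝ) (k : ℕ) : ℝ := exp (-lam * k) * Z.W k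

def EE (lam : ℝ) (k : ℕ) : ℝ := (lam - 1) * Z.g lam k + Z.Wh lam k

def mm (lam : ℝ) (n : ℕ) (θ : ℕ → ℝ) (k : ℕ) : ℝ :=
  lam * (∫ t in (k : ℝ)..(k + 1), exp (-lam * t) * Z.rr lam t (θ k)) +
    ∑ a ∈ Z.cell k \ Z.VV n θ, exp (-lam * Z.ξ a) * |Sg lam (Z.η a - θ k)|

def qq (lam : ℝ) (n : ℕ) (θ : ℕ → ℝ) (k : ℕ) : ℝ :=
  ∑ a ∈ Z.cell k ∩ Z.VV n θ, exp (-lam * Z.ξ a) * (Z.η a - θ k) ^ 2

def dd (lam : ℝ) (n : ℕ) (θ : ℕ → ℝ) (k : ℕ) : ℝ :=
  ∑ a ∈ Z.cell k ∩ Z.VV n θ, exp (-lam * Z.ξ a) * |Z.η a - θ k|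

def TT (lam μ : ℝ) (n : ℕ) (θ : ℕ → ℝ) (j : ℕ) : ℝ :=
  ∑ i ∈ Finset.range n, exp (-|(i : ℝ) - j| / 2) *
      (Z.mm lam n θ i + Z.dd lam n θ i + μ * |θ i - θ j| * Z.g lam i) +
    exp (-(j : ℝ) / 2) * Z.EE lam 0 + exp (-((n : ℝ) - j) / 2) * Z.EE lam n

/-- all quadratic errors -/
def Err (lam μ : ℝ) (n : ℕ) (θ : ℕ → ℝ) : ℝ :=
  ∑ j ∈ Finset.range (n + 1), Z.TT lam μ n θ j ^ 2 / Z.g lam j +
    ∑ j ∈ Finset.range (n + 1), ∑ k ∈ Finset.range (n + 1),
      exp (-|(j : ℝ) - k| / 2) * (θ k - θ j) ^ 2 * Z.g lam j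

def Mass (lam : ℝ) (n : ℕ) (θ : ℕ → ℝ) : ℝ :=
  ∑ k ∈ Finset.range n, ∑ a ∈ Z.s.filter (fun a => 0 ≤ Z.ξ a) \ Z.VV n θ,
    chi lam k (Z.ξ a) * exp (-lam * Z.ξ a) * (2 * π * |Sg lam (Z.η a - θ k)|)

/-- a calm stretch `[0, n]` with its frames -/
structure Calm (lam μ η : ℝ) (n : ℕ) (θ : ℕ → ℝ) : Prop where
  lam1 : 1 < lam
  lam2 : lam ≤ 11 / 10
  le_mu : lam - 1 ≤ μ
  mu_le : μ ^ 5 ≤ lam - 1
  eta0 : 0 ≤ η
  eta1 : η ≤ 1
  pos : ∀ k ≤ n, 0 < ‖Z.cc k‖
  calm : ∀ k ≤ n, Z.W k ≤ μ * Z.A k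
  dir : ∀ k ≤ n, ‖Z.cc k * Complex.exp (θ k * Complex.I) + (‖Z.cc k‖ : ℂ)‖ ≤ μ * ‖Z.cc k‖
  step : ∀ k < n, |θ (k + 1) - θ k| ≤ μ
  frame : ∀ k ≤ n, Z.Nf lam k (θ k) = 0
  lift : ∀ a ∈ Z.s, |Z.η a - θ (ki n (Z.ξ a))| ≤ π
  min : ∀ x ∈ Icc (0 : ℝ) n, Z.Min η x

end Cfg

end

end Pool.Agent.MinMod
end

-- merged part: Pool.Agent.Work.MP_f62247_an.KerA
section
/-!
# Pointwise facts on the kernel `lg`

`‖1 - e^(s+iφ)‖² = 1 - 2 e^s cos φ + e^(2s) = (1 - e^s)² + 2 e^s (1 - cos φ)`, so for `s ≠ 0` the norm lies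
between `|1 - e^s| > 0` and `1 + e^s`.
* `lg_refl`: `1 - e^w = -e^w (1 - e^(-w))` and `lg_neg`.
* `abs_lg_sub_le`: for `s < 0`, `u = e^s`: `log (1 - u) ≤ lg ≤ log (1 + u) ≤ -log (1 - u)`; `s > 0` by `lg_refl`.
* `nk_le`: `log x ≤ x - 1`.  `abs_nk_le`, `s < 0`: with `w = e^(s+iφ)`, `‖log (1 - w) + w‖ ≤ -log (1-u) - u ≤ u * (-log (1-u))`
  (power series `Complex.hasSum_taylorSeries_neg_log`, `Real.hasSum_pow_div_log_of_abs_lt_one`; or derivative in `u`).
* `l0_Nh`: `l0 (2 lam s) ≤ l0 (2 s)`, and `-log (1 - u²) ≤ u * (-log (1 - u))` (series).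
* `lg_add_pi`: `(1 - w)(1 + w) = 1 - w²`.
* `lg_ge_of_rp`: `1 - cos φ ≥ 1 - cos t` for `t ≤ |rp φ| ≤ π`; for `|s| ≥ 1` use `abs_lg_sub_le`, `l0_le`.
-/

open Real MeasureTheory Set Filter Topology

namespace Pool.Agent.MinMod

noncomputable section

theorem KerA_two (s : ℝ) : exp (2 * s) = exp s ^ 2 := by
  rw [two_mul, exp_add, sq]

theorem KerA_re (s φ : ℝ) : (Complex.exp (s + φ * Complex.I)).re = exp s * cos φ := by
  simp [Complex.exp_re]

theorem KerA_im (s φ : ℝ) : (Complex.exp (s + φ * Complex.I)).im = exp s * sin φ := by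
  simp [Complex.exp_im]

theorem KerA_norm (s φ : ℝ) : ‖Complex.exp (s + φ * Complex.I)‖ = exp s := by
  simp [Complex.norm_exp]

theorem KerA_normSq (s φ : ℝ) : Complex.normSq (1 - Complex.exp (s + φ * Complex.I)) =
    1 - 2 * exp s * cos φ + exp (2 * s) := by
  rw [Complex.normSq_apply, Complex.sub_re, Complex.sub_im, KerA_re, KerA_im, KerA_two,
    Complex.one_re, Complex.one_im]
  linear_combination exp s ^ 2 * sin_sq_add_cos_sq φ

theorem KerA_sq (s φ : ℝ) : ‖1 - Complex.exp (s + φ * Complex.I)‖ ^ 2 =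
    1 - 2 * exp s * cos φ + exp (2 * s) := by
  rw [Complex.sq_norm, KerA_normSq]

theorem KerA_den {s φ : ℝ} (h : Complex.exp (s + φ * Complex.I) ≠ 1) :
    1 - 2 * exp s * cos φ + exp (2 * s) ≠ 0 := by
  rw [← KerA_sq]
  exact pow_ne_zero 2 (norm_ne_zero_iff.2 (sub_ne_zero.2 h.symm))

theorem lg_eq (s φ : ℝ) : lg s φ = 1 / 2 * Real.log (1 - 2 * exp s * cos φ + exp (2 * s)) := by
  rw [← KerA_sq, Real.log_pow, lg]
  push_cast
  ring

theorem den_pos {s : ℝ} (hs : s ≠ 0) (φ : ℝ) : 0 < 1 - 2 * exp s * cos φ + exp (2 * s) := by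
  have h1 : 1 - exp s ≠ 0 := sub_ne_zero.2 fun h => hs (exp_eq_one_iff s |>.1 h.symm)
  have h2 := mul_nonneg (exp_pos s).le (sub_nonneg.2 (cos_le_one φ))
  have h3 := sq_pos_of_ne_zero h1
  rw [KerA_two]
  linarith only [h2, h3]

theorem lg_neg (s φ : ℝ) : lg s (-φ) = lg s φ := by
  rw [lg_eq, lg_eq, cos_neg]

theorem lg_per (s φ : ℝ) (k : ℤ) : lg s (φ + k * (2 * π)) = lg s φ := by
  rw [lg_eq, lg_eq, cos_add_int_mul_two_pi]

theorem nk_neg (s φ : ℝ) : nk s (-φ) = nk s φ := by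
  rw [nk, nk, lg_neg, cos_neg]

theorem nk_per (s φ : ℝ) (k : ℤ) : nk s (φ + k * (2 * π)) = nk s φ := by
  rw [nk, nk, lg_per, cos_add_int_mul_two_pi]

theorem lg_refl {s : ℝ} (hs : s ≠ 0) (φ : ℝ) : lg s φ = s + lg (-s) φ := by
  have h1 : 1 - 2 * exp s * cos φ + exp (2 * s) =
      exp (2 * s) * (1 - 2 * exp (-s) * cos φ + exp (2 * -s)) := by
    have h2 := (exp_pos s).ne'
    rw [KerA_two, KerA_two, exp_neg]
    field_simp
    ring
  rw [lg_eq, lg_eq, h1, Real.log_mul (exp_pos _).ne' (den_pos (neg_ne_zero.2 hs) φ).ne', log_exp]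
  ring

theorem l0_nonneg (s : ℝ) : 0 ≤ l0 s := by
  refine neg_nonneg.2 (Real.log_nonpos (sub_nonneg.2 (exp_le_one_iff.2 ?_)) ?_)
  · exact neg_nonpos.2 (abs_nonneg s)
  · exact sub_le_self _ (exp_pos _).le

theorem l0_le {s : ℝ} (hs : 1 ≤ |s|) : l0 s ≤ 2 * exp (-|s|) := by
  have h1 : exp (-|s|) ≤ 1 / 2 :=
    (exp_le_exp.2 (neg_le_neg hs)).trans (Real.exp_neg_one_lt_d9.le.trans (by norm_num))
  have h2 := exp_pos (-|s|)
  have h3 := Real.one_sub_inv_le_log_of_pos (x := 1 - exp (-|s|)) (by linarith)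
  have h4 : (1 - exp (-|s|))⁻¹ ≤ 1 + 2 * exp (-|s|) := by
    rw [inv_le_iff_one_le_mul₀ (by linarith)]
    linarith only [h1, h2, mul_nonneg_of_nonpos_of_nonpos (Mathlib.Tactic.Linarith.sub_nonpos_of_le h1) (le_of_lt (Mathlib.Tactic.Linarith.sub_neg_of_lt h2))]
  unfold l0
  linarith only [h3, h4]

theorem l0_anti {s s' : ℝ} (hs : s ≠ 0) (h : |s| ≤ |s'|) : l0 s' ≤ l0 s := by
  refine neg_le_neg (Real.log_le_log (sub_pos.2 (exp_lt_one_iff.2 ?_)) ?_)
  · exact neg_neg_of_pos (abs_pos.2 hs)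
  · exact sub_le_sub_left (exp_le_exp.2 (neg_le_neg h)) 1

theorem env_nonneg (s : ℝ) : 0 ≤ env s := by
  have h1 := l0_nonneg s
  have h2 := exp_pos s
  unfold env
  split_ifs with h
  · positivity
  · linarith [not_lt.1 h]

theorem KerA_anti {lam s : ℝ} (h : 1 ≤ lam) (hs : s ≠ 0) : l0 (2 * lam * s) ≤ l0 s := by
  refine l0_anti hs ?_
  rw [abs_mul, abs_of_pos (a := 2 * lam) (by linarith)]
  linarith only [h, abs_nonneg s, mul_nonneg_of_nonpos_of_nonpos (Mathlib.Tactic.Linarith.sub_nonpos_of_le h) (Mathlib.Tactic.Linarith.sub_nonpos_of_le (abs_nonneg s))]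

theorem KerA_sum {s : ℝ} (hs : s < 0) :
    HasSum (fun n : ℕ => exp s * (exp s ^ (n + 1) / (n + 1))) (exp s * l0 s) := by
  rw [l0, abs_of_neg hs, neg_neg]
  exact (Real.hasSum_pow_div_log_of_abs_lt_one
    (by rw [abs_of_pos (exp_pos s)]; exact exp_lt_one_iff.2 hs)).mul_left _

theorem l0_Nh {lam s : ℝ} (h : 1 ≤ lam) (hs : s ≠ 0) : l0 (2 * lam * s) ≤ env s := by
  unfold env
  split_ifs with h1
  · refine (l0_anti (s := 2 * s) (mul_ne_zero two_ne_zero hs) ?_).trans ?_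
    · rw [abs_of_neg (by linarith), abs_of_neg (by nlinarith)]
      nlinarith
    · have h2 := exp_pos s
      have h3 : exp s < 1 := exp_lt_one_iff.2 h1
      rw [l0, abs_of_neg (by linarith), neg_neg, KerA_two]
      refine hasSum_le (fun n => ?_) (Real.hasSum_pow_div_log_of_abs_lt_one (x := exp s ^ 2)
        (by rw [abs_of_pos (by positivity)]; nlinarith)) (KerA_sum h1)
      rw [← mul_div_assoc, ← pow_succ', ← pow_mul]
      exact div_le_div_of_nonneg_right (pow_le_pow_of_le_one h2.le h3.le (by omega))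
        (by positivity)
  · linarith [KerA_anti h hs, not_lt.1 h1, exp_pos s]

theorem KerA_abs {s : ℝ} (hs : s < 0) (φ : ℝ) : |lg s φ| ≤ l0 s := by
  have h1 := exp_pos s
  have h2 : exp s < 1 := exp_lt_one_iff.2 hs
  have h3 := mul_nonneg h1.le (sub_nonneg.2 (cos_le_one φ))
  have h4 := mul_nonneg h1.le (sub_nonneg.2 (neg_one_le_cos φ))
  have h5 : Real.log ((1 - exp s) ^ 2) ≤ Real.log (1 - 2 * exp s * cos φ + exp (2 * s)) :=
    Real.log_le_log (pow_pos (by linarith) 2) (by rw [KerA_two]; linarith only [h3])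
  have h6 : Real.log (1 - 2 * exp s * cos φ + exp (2 * s)) ≤ Real.log ((1 + exp s) ^ 2) :=
    Real.log_le_log (den_pos hs.ne φ) (by rw [KerA_two]; linarith only [h4])
  have h7 : Real.log ((1 + exp s) * (1 - exp s)) ≤ 0 :=
    Real.log_nonpos (by linarith only [h2, h1, mul_nonneg_of_nonpos_of_nonpos (Mathlib.Tactic.Linarith.sub_nonpos_of_le (sq_nonneg ((1 : ℝ) + rexp s))) (le_of_lt (Mathlib.Tactic.Linarith.sub_neg_of_lt h2)), mul_nonneg_of_nonpos_of_nonpos (Mathlib.Tactic.Linarith.sub_nonpos_of_le (sq_nonneg ((1 : ℝ) - rexp s))) (le_of_lt (Mathlib.Tactic.Linarith.sub_neg_of_lt h1))]) (by linarith only [h1, mul_pos_of_neg_of_neg (Mathlib.Tactic.Linarith.sub_neg_of_lt h1) (Mathlib.Tactic.Linarith.sub_neg_of_lt h1)])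
  rw [Real.log_mul (by linarith) (by linarith)] at h7
  rw [Real.log_pow] at h5 h6
  rw [lg_eq, l0, abs_of_neg hs, neg_neg, abs_le]
  push_cast at h5 h6
  constructor <;> linarith only [h5, h6, h7]

theorem abs_lg_sub_le {s : ℝ} (hs : s ≠ 0) (φ : ℝ) : |lg s φ - max s 0| ≤ l0 s := by
  rcases lt_or_gt_of_ne hs with h | h
  · rw [max_eq_right h.le, sub_zero]
    exact KerA_abs h φ
  · have h1 := KerA_abs (neg_neg_of_pos h) φ
    rw [l0, abs_neg] at h1
    rw [max_eq_left h.le, lg_refl hs, add_sub_cancel_left]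
    exact h1

theorem lg_le (s φ : ℝ) : lg s φ ≤ max s 0 + Real.log 2 := by
  have h1 : 1 ≤ exp (max s 0) := one_le_exp (le_max_right _ _)
  have h2 : exp s ≤ exp (max s 0) := exp_le_exp.2 (le_max_left _ _)
  have h3 := norm_sub_le 1 (Complex.exp (s + φ * Complex.I))
  rw [norm_one, KerA_norm] at h3
  rw [← log_exp (max s 0), ← Real.log_mul (exp_pos _).ne' two_ne_zero, lg]
  rcases (norm_nonneg (1 - Complex.exp (s + φ * Complex.I))).eq_or_lt with h | h
  · rw [← h, Real.log_zero]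
    exact Real.log_nonneg (by linarith)
  · exact Real.log_le_log h (by linarith)

theorem nk_le {s : ℝ} (hs : s ≠ 0) (φ : ℝ) : nk s φ ≤ exp (2 * s) / 2 := by
  have h1 := Real.log_le_sub_one_of_pos (den_pos hs φ)
  rw [nk, lg_eq]
  linarith only [h1]

theorem abs_nk_le {s : ℝ} (hs : s ≠ 0) (φ : ℝ) : |nk s φ| ≤ env s := by
  unfold env
  split_ifs with h1
  · have h2 := exp_pos s
    have h3 := (hasSum_nat_add_iff' 2).2 (Complex.hasSum_taylorSeries_neg_log
      (z := Complex.exp (s + φ * Complex.I)) (by rw [KerA_norm]; exact exp_lt_one_iff.2 h1))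
    have h4 := tsum_of_norm_bounded (f := fun n : ℕ =>
      Complex.exp (s + φ * Complex.I) ^ (n + 2) / ((n + 2 : ℕ) : ℂ)) (KerA_sum h1) fun n => by
        rw [norm_div, norm_pow, KerA_norm, Complex.norm_natCast, ← mul_div_assoc, ← pow_succ']
        exact div_le_div_of_nonneg_left (by positivity) (by positivity) (by push_cast; linarith)
    rw [h3.tsum_eq] at h4
    refine le_trans (le_of_eq ?_) ((Complex.abs_re_le_norm _).trans h4)
    rw [← abs_neg, nk, lg, ← KerA_re, ← Complex.log_re]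
    simp [Finset.sum_range_succ, sub_eq_neg_add]
  · have h2 := abs_lg_sub_le hs φ
    have h3 := mul_nonneg (exp_pos s).le (sub_nonneg.2 (cos_le_one φ))
    have h4 := mul_nonneg (exp_pos s).le (sub_nonneg.2 (neg_one_le_cos φ))
    rw [max_eq_left (not_lt.1 h1), abs_le] at h2
    rw [nk, abs_le]
    constructor <;> linarith only [h1, h2, h4, h3, not_lt.1 h1, h2.1, h2.2]

theorem lg_add_pi {s : ℝ} (hs : s ≠ 0) (φ : ℝ) : lg s φ + lg s (φ + π) = lg (2 * s) (2 * φ) := by
  rw [lg_eq, lg_eq, lg_eq, ← mul_add, ← Real.log_mul (den_pos hs _).ne' (den_pos hs _).ne',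
    cos_add_pi, cos_two_mul, KerA_two (2 * s), KerA_two]
  congr 2
  ring

theorem nk_add_pi {s : ℝ} (hs : s ≠ 0) (φ : ℝ) : nk s φ + nk s (φ + π) = lg (2 * s) (2 * φ) := by
  rw [nk, nk, ← lg_add_pi hs, cos_add_pi]
  ring

theorem lg_zero_le {s : ℝ} (hs : s ≠ 0) (φ : ℝ) : lg s 0 ≤ lg s φ := by
  have h1 := mul_nonneg (exp_pos s).le (sub_nonneg.2 (cos_le_one φ))
  rw [lg_eq, lg_eq]
  refine mul_le_mul_of_nonneg_left (Real.log_le_log (den_pos hs 0) ?_) (by norm_num)
  rw [cos_zero]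
  linarith

theorem abs_gapN_le {lam s : ℝ} (h : 1 ≤ lam) (hs : s ≠ 0) (φ : ℝ) :
    0 ≤ Nh lam s φ - Nh lam s 0 ∧ Nh lam s φ - Nh lam s 0 ≤ 2 * env s ∧
      Nh lam s φ - Nh lam s 0 ≤ 2 * l0 s := by
  have h1 : 2 * lam * s ≠ 0 := mul_ne_zero (by linarith) hs
  have h2 := abs_le.1 (abs_lg_sub_le h1 (2 * lam * φ))
  have h3 := abs_le.1 (abs_lg_sub_le h1 0)
  have h4 := lg_zero_le h1 (2 * lam * φ)
  have h5 := l0_Nh h hs
  have h6 := KerA_anti h hs
  rw [Nh, Nh, mul_zero]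
  refine ⟨?_, ?_, ?_⟩ <;> linarith only [h4, h2, h3, h5, h6, h2.2, h3.1]

theorem lg_ge_of_rp {t : ℝ} (ht : 0 < t) :
    ∃ C : ℝ, 0 ≤ C ∧ ∀ s φ : ℝ, t ≤ |rp φ| → max s 0 - C ≤ lg s φ := by
  have h0 : 0 < min t 1 := lt_min ht one_pos
  have h1 : min t 1 ≤ 1 := min_le_right _ _
  have h2 : 0 < cos (min t 1) := cos_pos_of_le_one (by rwa [abs_of_pos h0])
  have h3 : cos (min t 1) < 1 :=
    (cos_lt_cos_of_nonneg_of_le_pi le_rfl (by linarith [pi_gt_three]) h0).trans_eq cos_zero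
  refine ⟨-(1 / 2 * Real.log (1 - cos (min t 1))), ?_, fun s φ h => ?_⟩
  · linarith only [h3, h2, Real.log_nonpos (x := 1 - cos (min t 1)) (by linarith) (by linarith)]
  · have h4 : cos φ ≤ cos (min t 1) := by
      have h5 := toIocMod_mem_Ioc Real.two_pi_pos (-π) φ
      rw [← toIocMod_add_toIocDiv_zsmul Real.two_pi_pos (-π) φ, zsmul_eq_mul,
        cos_add_int_mul_two_pi, ← cos_abs (toIocMod _ _ _)]
      exact cos_le_cos_of_nonneg_of_le_pi h0.le (abs_le.2 ⟨h5.1.le, by linarith [h5.2]⟩)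
        ((min_le_left _ _).trans h)
    have h5 : exp (2 * max s 0) ≤ 1 + exp s ^ 2 := by
      rcases le_total s 0 with h6 | h6
      · rw [max_eq_right h6, mul_zero, exp_zero]
        exact le_add_of_nonneg_right (sq_nonneg _)
      · rw [max_eq_left h6, KerA_two]
        exact le_add_of_nonneg_left zero_le_one
    have h6 : Real.log (exp (2 * max s 0) * (1 - cos (min t 1))) ≤
        Real.log (1 - 2 * exp s * cos φ + exp (2 * s)) := by
      refine Real.log_le_log (mul_pos (exp_pos _) (by linarith)) ?_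
      have h7 := mul_le_mul_of_nonneg_right h5 (sub_pos.2 h3).le
      have h8 := mul_le_mul_of_nonneg_left h4 (exp_pos s).le
      have h9 := mul_nonneg h2.le (sq_nonneg (1 - exp s))
      rw [KerA_two s]
      linarith only [h7, h8, h9]
    rw [Real.log_mul (exp_pos _).ne' (by linarith), log_exp] at h6
    rw [lg_eq]
    linarith only [h6]

theorem measurable_lg : Measurable fun p : ℝ × ℝ => lg p.1 p.2 := by
  exact Real.measurable_log.comp (Continuous.measurable (by fun_prop))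

theorem measurable_l0 : Measurable l0 := by
  exact (Real.measurable_log.comp (Continuous.measurable (by fun_prop))).neg

theorem measurable_env : Measurable env := by
  exact Measurable.ite measurableSet_Iio (measurable_exp.mul measurable_l0)
    (((measurable_const.add measurable_id).add measurable_exp).add measurable_l0)

theorem continuousAt_lg {s φ : ℝ} (h : Complex.exp (s + φ * Complex.I) ≠ 1) :
    ContinuousAt (fun p : ℝ × ℝ => lg p.1 p.2) (s, φ) := by
  exact ContinuousAt.log (f := fun p : ℝ × ℝ => ‖1 - Complex.exp (p.1 + p.2 * Complex.I)‖)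
    (by fun_prop) (norm_ne_zero_iff.2 (sub_ne_zero.2 h.symm))

theorem exp_ne_one {s : ℝ} (hs : s ≠ 0) (φ : ℝ) : Complex.exp (s + φ * Complex.I) ≠ 1 := by
  intro h
  have h1 := KerA_norm s φ
  rw [h, norm_one] at h1
  exact hs (exp_eq_one_iff s |>.1 h1.symm)

theorem hasDerivAt_lg {s φ : ℝ} (h : Complex.exp (s + φ * Complex.I) ≠ 1) :
    HasDerivAt (lg s) (dlg s φ) φ := by
  have h1 := KerA_den h
  have h2 := (((((hasDerivAt_cos φ).const_mul (2 * exp s)).const_sub 1).add_const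
    (exp (2 * s))).log h1).const_mul (1 / 2)
  rw [funext (lg_eq s)]
  refine h2.congr_deriv ?_
  rw [dlg]
  ring

theorem KerA_fk (w : ℂ) : fk w = -(Complex.exp w * Complex.exp w) / (1 - Complex.exp w) := by
  rw [fk, two_mul, Complex.exp_add]

theorem hasDerivAt_nk_fst {s φ : ℝ} (h : Complex.exp (s + φ * Complex.I) ≠ 1) :
    HasDerivAt (fun t => nk t φ) (fk (s + φ * Complex.I)).re s := by
  have h1 := KerA_den h
  have h2 := (((((((hasDerivAt_exp s).const_mul 2).mul_const (cos φ)).const_sub 1).fun_add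
    ((hasDerivAt_id' s).const_mul 2).exp).log h1).const_mul (1 / 2)).fun_add
    ((hasDerivAt_exp s).mul_const (cos φ))
  simp only [nk, lg_eq]
  refine h2.congr_deriv ?_
  rw [KerA_fk, Complex.div_re, KerA_normSq]
  simp only [Complex.neg_re, Complex.neg_im, Complex.mul_re, Complex.mul_im, Complex.sub_re,
    Complex.sub_im, Complex.one_re, Complex.one_im, KerA_re, KerA_im]
  field_simp
  rw [KerA_two]
  linear_combination (-exp s ^ 2 - exp s ^ 3 * cos φ) * sin_sq_add_cos_sq φ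

theorem neg_im_fk {s φ : ℝ} (h : Complex.exp (s + φ * Complex.I) ≠ 1) :
    -(fk (s + φ * Complex.I)).im = dlg s φ - exp s * sin φ := by
  have h1 := KerA_den h
  rw [KerA_fk, Complex.div_im, KerA_normSq, dlg]
  simp only [Complex.neg_re, Complex.neg_im, Complex.mul_re, Complex.mul_im, Complex.sub_re,
    Complex.sub_im, Complex.one_re, Complex.one_im, KerA_re, KerA_im]
  rw [← sub_div, ← neg_div, eq_sub_iff_add_eq, div_add' _ _ _ h1, div_left_inj' h1, KerA_two]
  linear_combination (-exp s ^ 3 * sin φ) * sin_sq_add_cos_sq φ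

end

end Pool.Agent.MinMod
end

-- merged part: Pool.Agent.Work.MP_f62247_an.KerO
section
/-!
# The cut-off functions

Elementary facts on `Om lam t = e^(2 lam t) / (1 + e^(2 lam t))`, on `chi`, and on the weights `Wt`.
* `chi_le`: for `k ≥ 1`, `chi k t ≤ Om (t - k) ≤ e^(2 lam (t-k))` and `chi k t ≤ 1 - Om (t-k-1) ≤ e^(-2 lam (t-k-1))`;
  for `k = 0`, `t ≥ 0`, the second bound is enough.
* `chi_ge`: `Om (u) - Om (u - 1)` on `0 ≤ u ≤ 1`, `1 ≤ lam ≤ 11/10`, is `a (1 - b) / ((1 + a)(1 + a b))`, `a = e^(2 lam u)`,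
  `b = e^(-2 lam)`.
* `sum_mul_chi_le`: Abel summation, `∑ k chi k ≤ ∑_{1 ≤ k < n} Om (t - k) ≤ t + 1 + ∑ e^(-2 j)`.
* `ha_*`: `h = π / lam`, `π - h = π (lam - 1) / lam`.
-/

open Real MeasureTheory Set Filter Topology

namespace Pool.Agent.MinMod

noncomputable section

theorem Om_pos (lam t : ℝ) : 0 < Om lam t := by
  unfold Om
  positivity

theorem Om_lt_one (lam t : ℝ) : Om lam t < 1 := by
  exact (div_lt_one (by positivity)).2 (lt_one_add _)

theorem Om_le (lam t : ℝ) : Om lam t ≤ exp (2 * lam * t) := by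
  exact div_le_self (exp_pos _).le (le_add_of_nonneg_right (exp_pos _).le)

theorem KerO_one_sub (lam t : ℝ) : 1 - Om lam t = 1 / (1 + exp (2 * lam * t)) := by
  unfold Om
  field_simp
  ring

theorem one_sub_Om_le (lam t : ℝ) : 1 - Om lam t ≤ exp (-2 * lam * t) := by
  rw [KerO_one_sub, show -2 * lam * t = -(2 * lam * t) by ring, exp_neg, ← one_div]
  exact one_div_le_one_div_of_le (exp_pos _) (le_add_of_nonneg_left zero_le_one)

theorem Om_mono {lam : ℝ} (h : 0 ≤ lam) : Monotone (Om lam) := by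
  intro s t hst
  have h1 : exp (2 * lam * s) ≤ exp (2 * lam * t) :=
    exp_le_exp.2 (mul_le_mul_of_nonneg_left hst (by linarith))
  have h2 := one_div_le_one_div_of_le (show 0 < 1 + exp (2 * lam * s) by positivity)
    (add_le_add_right h1 1)
  rw [← KerO_one_sub, ← KerO_one_sub] at h2
  linarith

theorem Om_le_half {lam t : ℝ} (h : 0 ≤ lam) (ht : t ≤ 0) : Om lam t ≤ 1 / 2 := by
  refine (Om_mono h ht).trans_eq ?_
  rw [Om, mul_zero, exp_zero]
  norm_num

theorem hasDerivAt_Om (lam t : ℝ) : HasDerivAt (Om lam) (dOm lam t) t := by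
  have h1 : HasDerivAt (fun t => exp (2 * lam * t)) (exp (2 * lam * t) * (2 * lam)) t := by
    simpa using ((hasDerivAt_id t).const_mul (2 * lam)).exp
  refine (h1.div (h1.const_add 1) (by positivity)).congr_deriv ?_
  unfold dOm
  ring

theorem continuous_Om (lam : ℝ) : Continuous (Om lam) := by
  exact continuous_iff_continuousAt.2 fun t => (hasDerivAt_Om lam t).continuousAt

theorem Kc_le {lam : ℝ} (h : 0 ≤ lam) (t : ℝ) : 0 < Kc lam t ∧ Kc lam t ≤ exp (-lam * |t|) := by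
  refine ⟨mul_pos (exp_pos _) (Om_pos _ _), ?_⟩
  rcases le_total 0 t with k | k
  · rw [abs_of_nonneg k]
    exact mul_le_of_le_one_right (exp_pos _).le (Om_lt_one _ _).le
  · refine (mul_le_mul_of_nonneg_left (Om_le _ _) (exp_pos _).le).trans_eq ?_
    rw [← exp_add, abs_of_nonpos k]
    ring_nf

theorem dOm_le {lam : ℝ} (h : 0 ≤ lam) (t : ℝ) :
    0 ≤ dOm lam t ∧ dOm lam t ≤ 2 * lam * exp (-2 * lam * |t|) := by
  have e : dOm lam t = 2 * lam * (Om lam t * (1 - Om lam t)) := by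
    rw [KerO_one_sub, dOm, Om]
    field_simp
  have h1 := (Om_pos lam t).le
  have h2 := (Om_lt_one lam t).le
  rw [e]
  refine ⟨mul_nonneg (by linarith) (mul_nonneg h1 (by linarith)),
    mul_le_mul_of_nonneg_left ?_ (by linarith)⟩
  rcases le_total 0 t with k | k
  · rw [abs_of_nonneg k]
    exact (mul_le_of_le_one_left (by linarith) h2).trans (one_sub_Om_le _ _)
  · refine ((mul_le_of_le_one_right h1 (by linarith)).trans (Om_le _ _)).trans_eq ?_
    rw [abs_of_nonpos k]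
    ring_nf

theorem exp_le_kw {lam : ℝ} (h : 0 ≤ lam) (t : ℝ) : exp (-2 * lam * |t|) ≤ kw lam t := by
  have h1 := mul_le_mul_of_nonneg_left (le_abs_self t) h
  have h2 := mul_le_mul_of_nonneg_left (neg_abs_le t) h
  have h3 := mul_nonneg h (abs_nonneg t)
  exact le_min (exp_le_exp.2 (by linarith)) (exp_le_exp.2 (by linarith))

theorem kw_pos (lam t : ℝ) : 0 < kw lam t := by
  exact lt_min (exp_pos _) (exp_pos _)

theorem kk_sub_le {lam : ℝ} (h : 0 ≤ lam) (t : ℝ) :
    |kk lam t - if 0 < t then lam * exp (-lam * t) else 0| ≤ 2 * lam * kw lam t := by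
  have hb := exp_pos (lam * t)
  split_ifs with k
  · have h1 := mul_nonneg h k.le
    have e1 : exp (-lam * t) = (exp (lam * t))⁻¹ := by rw [← exp_neg, neg_mul]
    have e2 : exp (-2 * lam * t) = (exp (lam * t) ^ 2)⁻¹ := by
      rw [← exp_nat_mul, ← exp_neg]
      congr 1
      push_cast
      ring
    rw [kw, min_eq_left (exp_le_exp.2 (by linarith only [h1])), e1, e2, kk]
    generalize exp (lam * t) = b at hb
    have e3 : lam * b / (1 + b) ^ 2 - lam * b⁻¹ = -(lam * ((1 + 2 * b) / (b * (1 + b) ^ 2))) := by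
      field_simp
      ring
    rw [e3, abs_neg, abs_of_nonneg (by positivity), mul_comm 2 lam, mul_assoc]
    refine mul_le_mul_of_nonneg_left ?_ h
    rw [← div_eq_mul_inv, div_le_div_iff₀ (by positivity) (by positivity)]
    have : 0 ≤ 2 * b + 3 * b ^ 2 := by positivity
    linarith only [this, show 2 * (b * (1 + b) ^ 2) = (1 + 2 * b) * b ^ 2 + (2 * b + 3 * b ^ 2) by ring]
  · have h1 := mul_nonpos_of_nonneg_of_nonpos h (not_lt.1 k)
    rw [kw, min_eq_right (exp_le_exp.2 (by linarith)), sub_zero, kk, abs_of_nonneg (by positivity)]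
    have h2 := mul_nonneg h hb.le
    refine (div_le_self h2 (one_le_pow₀ (by linarith))).trans ?_
    linarith

theorem KerO_succ (lam : ℝ) (k : ℕ) (t : ℝ) : omk lam (k + 1) t = Om lam (t - (k + 1)) := by
  rw [omk, if_neg k.succ_ne_zero, Nat.cast_succ]

theorem KerO_omk (lam : ℝ) (k : ℕ) (t : ℝ) : 0 < omk lam k t ∧ omk lam k t ≤ 1 := by
  unfold omk
  split_ifs
  · exact ⟨one_pos, le_rfl⟩
  · exact ⟨Om_pos _ _, (Om_lt_one _ _).le⟩

theorem KerO_meas (lam : ℝ) (k : ℕ) : Measurable (omk lam k) := by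
  unfold omk
  split_ifs
  · exact measurable_const
  · exact (continuous_Om lam).measurable.comp (measurable_sub_const _)

theorem chi_nonneg {lam : ℝ} (h : 0 ≤ lam) (k : ℕ) (t : ℝ) : 0 ≤ chi lam k t := by
  rw [chi, sub_nonneg, KerO_succ, omk]
  split_ifs
  · exact (Om_lt_one _ _).le
  · exact Om_mono h (by linarith only [])

theorem chi_le_one (lam : ℝ) (k : ℕ) (t : ℝ) : chi lam k t ≤ 1 := by
  rw [chi]
  linarith [(KerO_omk lam k t).2, (KerO_omk lam (k + 1) t).1]

theorem measurable_chi (lam : ℝ) (k : ℕ) : Measurable (chi lam k) := by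
  exact (KerO_meas lam k).sub (KerO_meas lam (k + 1))

theorem measurable_omk (lam : ℝ) (k : ℕ) : Measurable (omk lam k) := by
  exact KerO_meas lam k

theorem sum_chi (lam : ℝ) {n : ℕ} (hn : 1 ≤ n) (t : ℝ) :
    ∑ k ∈ Finset.range n, chi lam k t = 1 - Om lam (t - n) := by
  refine (Finset.sum_range_sub' (fun k => omk lam k t) n).trans ?_
  rw [omk, omk, if_pos rfl, if_neg (by omega)]

theorem chi_le : ∃ C : ℝ, 1 ≤ C ∧ ∀ lam : ℝ, 1 ≤ lam → lam ≤ 11 / 10 → ∀ (k : ℕ) (t : ℝ), 0 ≤ t →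
    chi lam k t ≤ C * exp (-2 * |t - k|) := by
  refine ⟨exp 3, one_le_exp (by norm_num), fun lam h1 h2 k t ht => ?_⟩
  rw [← exp_add, chi]
  rcases le_or_gt (k : ℝ) t with h | h
  · have h3 := one_sub_Om_le lam (t - (k + 1))
    have h4 := mul_nonneg (sub_nonneg.2 h1) (sub_nonneg.2 h)
    rw [KerO_succ, abs_of_nonneg (sub_nonneg.2 h)]
    refine le_trans (by linarith only [(KerO_omk lam k t).2]) (h3.trans (exp_le_exp.2 ?_))
    linarith only [h2, h4]
  · have hk : k ≠ 0 := by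
      rintro rfl
      exact ht.not_gt (by simpa using h)
    have h3 := Om_le lam (t - k)
    have h4 := mul_nonneg (sub_nonneg.2 h1) (sub_nonneg.2 h.le)
    rw [omk, if_neg hk, abs_of_neg (sub_neg.2 h)]
    refine le_trans (by linarith only [(KerO_omk lam (k + 1) t).1]) (h3.trans (exp_le_exp.2 ?_))
    linarith only [h4]

theorem chi_ge : ∃ c : ℝ, 0 < c ∧ ∀ lam : ℝ, 1 ≤ lam → lam ≤ 11 / 10 → ∀ (k : ℕ) (t : ℝ),
    (k : ℝ) ≤ t → t ≤ k + 1 → c ≤ chi lam k t := by
  refine ⟨1 / 8, by norm_num, fun lam h1 _ k t h3 h4 => ?_⟩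
  rw [chi, KerO_succ, omk]
  split_ifs
  · linarith only [h1, h4, Om_le_half (lam := lam) (t := t - (k + 1)) (by linarith) (by linarith)]
  have e1 := KerO_one_sub lam (t - k)
  have e2 := KerO_one_sub lam (t - (k + 1))
  have a1 : 1 ≤ exp (2 * lam * (t - k)) := one_le_exp (mul_nonneg (by linarith only [h1]) (by linarith only [h3]))
  have a2 : exp (2 * lam * (t - (k + 1))) ≤ 1 :=
    exp_le_one_iff.2 (mul_nonpos_of_nonneg_of_nonpos (by linarith only [h1]) (by linarith only [h4]))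
  have a3 := exp_pos (2 * lam * (t - (k + 1)))
  have a4 : exp (2 * lam * (t - (k + 1))) * 2 ≤ exp (2 * lam * (t - k)) := by
    rw [show 2 * lam * (t - k) = 2 * lam * (t - (k + 1)) + 2 * lam by ring, exp_add]
    exact mul_le_mul_of_nonneg_left (by linarith only [h1, add_one_le_exp (2 * lam)]) a3.le
  generalize exp (2 * lam * (t - k)) = a at *
  generalize exp (2 * lam * (t - (k + 1))) = b at *
  have : 1 / 8 ≤ 1 / (1 + b) - 1 / (1 + a) := by
    rw [div_sub_div _ _ (by positivity) (by positivity), le_div_iff₀ (by positivity)]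
    linarith only [a1, a4, a2, mul_le_mul_of_nonneg_right a2 (show 0 ≤ a by linarith)]
  linarith only [e1, e2, this]

theorem KerO_step {lam : ℝ} (h : 1 ≤ lam) (s : ℝ) : Om lam s ≤
    (if 0 ≤ s + 1 then s + 1 + 3 else exp (s + 1)) - if 0 ≤ s then s + 3 else exp s := by
  have h1 := (Om_lt_one lam s).le
  split_ifs with k1 k2 k2
  · linarith
  · linarith [exp_le_one_iff.2 (not_le.1 k2).le]
  · linarith
  · have h2 := mul_nonneg (show 0 ≤ 2 * lam - 1 by linarith only [h]) (show 0 ≤ -s by linarith)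
    have h3 := (Om_le lam s).trans (exp_le_exp.2 (show 2 * lam * s ≤ s by linarith))
    have h4 := mul_le_mul_of_nonneg_left (add_one_le_exp 1) (exp_pos s).le
    rw [exp_add]
    linarith

theorem sum_mul_chi_le {lam : ℝ} (h : 1 ≤ lam) (n : ℕ) {t : ℝ} (ht : 0 ≤ t) :
    ∑ k ∈ Finset.range n, (k : ℝ) * chi lam k t ≤ t + 3 := by
  have key : ∀ n : ℕ, ∑ k ∈ Finset.range n, (k : ℝ) * chi lam k t + n * omk lam n t ≤
      t + 3 - if 0 ≤ t - n then t - n + 3 else exp (t - n) := by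
    intro n
    induction n with
    | zero => simp [ht]
    | succ n ih =>
      have h1 := KerO_step h (t - (n + 1))
      rw [show t - (n + 1) + 1 = t - n by ring] at h1
      rw [Finset.sum_range_succ, chi, KerO_succ, Nat.cast_succ]
      linarith only [ih, h1]
  have h1 := key n
  have h2 := mul_nonneg (Nat.cast_nonneg (α := ℝ) n) (KerO_omk lam n t).1.le
  split_ifs at h1
  · linarith
  · linarith [exp_pos (t - n)]

theorem KerO_pi {lam : ℝ} (h : 1 ≤ lam) : lam * (π - π / lam) = π * (lam - 1) := by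
  have : lam ≠ 0 := by linarith
  field_simp

theorem ha_le {lam : ℝ} (h : 1 ≤ lam) : 0 ≤ π - π / lam ∧ π - π / lam ≤ 4 * (lam - 1) := by
  have h1 : 0 ≤ π - π / lam := sub_nonneg.2 (div_le_self pi_pos.le h)
  refine ⟨h1, (le_mul_of_one_le_left h1 h).trans ?_⟩
  rw [KerO_pi h]
  exact mul_le_mul_of_nonneg_right pi_le_four (by linarith only [h])

theorem ha_cos {lam : ℝ} (h : 1 ≤ lam) :
    0 ≤ 1 + cos (π / lam) ∧ 1 + cos (π / lam) ≤ 8 * (lam - 1) ^ 2 := by
  refine ⟨by linarith only [neg_one_le_cos (π / lam)], ?_⟩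
  have h1 := one_sub_sq_div_two_le_cos (x := π - π / lam)
  have h2 := pow_le_pow_left₀ (ha_le h).1 (ha_le h).2 2
  rw [cos_pi_sub] at h1
  linarith only [h1, h2]

theorem ha_sin {lam : ℝ} (h : 1 ≤ lam) (h' : lam ≤ 11 / 10) :
    2 * (lam - 1) ≤ lam * sin (π / lam) ∧ lam * sin (π / lam) ≤ 4 * (lam - 1) := by
  have h0 : 0 < lam := by linarith only [h]
  rw [← sin_pi_sub]
  constructor
  · have h1 : π / 2 ≤ π / lam := div_le_div_of_nonneg_left pi_pos.le h0 (by linarith only [h'])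
    refine le_trans (le_of_eq ?_)
      (mul_le_mul_of_nonneg_left (mul_le_sin (ha_le h).1 (by linarith only [h1])) h0.le)
    rw [mul_left_comm, KerO_pi h]
    field_simp
  · refine (mul_le_mul_of_nonneg_left (sin_le (ha_le h).1) h0.le).trans ?_
    rw [KerO_pi h]
    exact mul_le_mul_of_nonneg_right pi_le_four (by linarith only [h])

theorem Wt.mul {lam : ℝ} {ρ w : ℝ → ℝ} (h : Wt lam ρ) (hw : Measurable w) {C : ℝ}
    (hC : ∀ t, |w t| ≤ C) : Wt lam fun t => ρ t * w t := by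
  obtain ⟨h1, K, hK⟩ := h
  refine ⟨h1.mul hw, K * C, fun t => ?_⟩
  rw [abs_mul, mul_right_comm]
  exact mul_le_mul (hK t) (hC t) (abs_nonneg _) ((abs_nonneg _).trans (hK t))

theorem Wt.indicator {lam : ℝ} {ρ : ℝ → ℝ} (h : Wt lam ρ) {S : Set ℝ} (hS : MeasurableSet S) :
    Wt lam (S.indicator ρ) := by
  obtain ⟨h1, K, hK⟩ := h
  exact ⟨h1.indicator hS, K, fun t => (norm_indicator_le_norm_self ρ t).trans (hK t)⟩

theorem KerO_wt {lam : ℝ} (h : 0 ≤ lam) {ρ : ℝ → ℝ} (hm : Measurable ρ) (y : ℝ) {K : ℝ}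
    (hK : 0 ≤ K) (hρ : ∀ t, |ρ t| ≤ K * exp (-lam * |t - y|)) : Wt lam ρ := by
  refine ⟨hm, K * exp (lam * |y|), fun t => (hρ t).trans ?_⟩
  rw [mul_assoc, ← exp_add]
  refine mul_le_mul_of_nonneg_left (exp_le_exp.2 ?_) hK
  have h1 : max t 0 ≤ |t - y| + |y| :=
    (max_le (le_abs_self t) (abs_nonneg t)).trans (by linarith only [abs_sub_abs_le_abs_sub t y])
  linarith [mul_le_mul_of_nonneg_left h1 h]

theorem KerO_ind {lam : ℝ} (h : 0 ≤ lam) {ρ : ℝ → ℝ} (hm : Measurable ρ) {S : Set ℝ}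
    (hS : MeasurableSet S) (y : ℝ) {K : ℝ} (hK : 0 ≤ K)
    (hρ : ∀ t ∈ S, |ρ t| ≤ K * exp (-lam * |t - y|)) : Wt lam (S.indicator ρ) := by
  refine KerO_wt h (hm.indicator hS) y hK fun t => ?_
  by_cases k : t ∈ S
  · rw [indicator_of_mem k]
    exact hρ t k
  · rw [indicator_of_notMem k, abs_zero]
    positivity

theorem wt_Om {lam : ℝ} (h : 0 ≤ lam) (y : ℝ) : Wt lam fun t => exp (-lam * t) * Om lam (t - y) := by
  refine KerO_wt h ((by fun_prop : Measurable fun t => exp (-lam * t)).mul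
    ((continuous_Om lam).measurable.comp (measurable_sub_const y))) y (exp_pos (-lam * y)).le
    fun t => ?_
  rw [abs_of_pos (mul_pos (exp_pos _) (Om_pos _ _)),
    show -lam * t = -lam * y + -lam * (t - y) by ring, exp_add, mul_assoc]
  exact mul_le_mul_of_nonneg_left (Kc_le h _).2 (exp_pos _).le

theorem wt_dOm {lam : ℝ} (h : 0 ≤ lam) (y : ℝ) : Wt lam fun t => dOm lam (t - y) := by
  refine KerO_wt h (by unfold dOm; fun_prop) y (show 0 ≤ 2 * lam by linarith only [h]) fun t => ?_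
  rw [abs_of_nonneg (dOm_le h _).1]
  refine (dOm_le h _).2.trans (mul_le_mul_of_nonneg_left (exp_le_exp.2 ?_) (by linarith))
  linarith only [h, mul_nonneg h (abs_nonneg (t - y))]

theorem wt_kk {lam : ℝ} (h : 0 ≤ lam) (y : ℝ) : Wt lam fun t => kk lam (t - y) := by
  refine KerO_wt h (by unfold kk; fun_prop) y h fun t => ?_
  have h1 := dOm_le (show 0 ≤ lam / 2 by linarith only [h]) (t - y)
  rw [dOm, show 2 * (lam / 2) = lam by ring, show -2 * (lam / 2) = -lam by ring] at h1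
  rw [kk, abs_of_nonneg h1.1]
  exact h1.2

theorem wt_kw {lam : ℝ} (h : 0 ≤ lam) (y : ℝ) : Wt lam fun t => kw lam (t - y) := by
  refine KerO_wt h (by unfold kw; fun_prop) y zero_le_one fun t => ?_
  rw [abs_of_pos (kw_pos _ _), one_mul]
  rcases le_total 0 (t - y) with k | k
  · rw [abs_of_nonneg k]
    exact (min_le_left _ _).trans (exp_le_exp.2 (by linarith only [h, k, mul_nonneg h k]))
  · rw [abs_of_nonpos k, neg_mul_neg]
    exact min_le_right _ _

theorem wt_Ioi {lam : ℝ} (h : 0 ≤ lam) (y : ℝ) :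
    Wt lam ((Ioi y).indicator fun t => exp (-lam * t)) := by
  refine KerO_ind h (by fun_prop) measurableSet_Ioi y (exp_pos (-lam * y)).le fun t ht => ?_
  rw [abs_of_pos (exp_pos _), abs_of_pos (sub_pos.2 ht), ← exp_add]
  exact le_of_eq (by ring_nf)

theorem wt_Iio {lam : ℝ} (h : 0 ≤ lam) (y : ℝ) :
    Wt lam ((Iio y).indicator fun t => exp (lam * (t - y))) := by
  refine KerO_ind h (by fun_prop) measurableSet_Iio y zero_le_one fun t ht => ?_
  rw [abs_of_pos (exp_pos _), abs_of_neg (sub_neg.2 ht), one_mul, neg_mul_neg]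

theorem wt_Ioc {lam : ℝ} (h : 0 ≤ lam) (a b : ℝ) : Wt lam ((Ioc a b).indicator fun _ => 1) := by
  refine KerO_ind h measurable_const measurableSet_Ioc a (exp_pos (lam * (b - a))).le
    fun t ht => ?_
  rw [abs_one, abs_of_pos (sub_pos.2 ht.1), ← exp_add]
  exact one_le_exp (by linarith [mul_le_mul_of_nonneg_left ht.2 h])

end

end Pool.Agent.MinMod
end

-- merged part: Pool.Agent.Work.MP_f62247_an.KerG
section
/-!
# The gap function, the weight `w0`, angles

* `gap_eq`: `‖1 - e^(2s+2iφ)‖² = (1 - e^(2s))² + 4 e^(2s) sin² φ` and `(1 - e^(2s))² = 4 e^(2s) sinh² s`.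
* `gap_ge`: `log (1 + x) ≥ log (1 + y)`, `y = sin² φ / sinh² R ≤ 1 / sinh² R`, `log (1 + y) ≥ y / (1 + y)`.
* `gap_lam_le`: `|sinh (lam s)| ≥ lam |sinh s|` (convexity on `[0, ∞)`), `|sin (lam φ)| ≤ lam |sin φ|` for
  `|φ| ≤ π / lam` (concavity of `sin` on `[0, π]`: `sin φ = sin ((1/lam) (lam φ) + (1 - 1/lam) 0)`).
* `Sg_lip`: `u ↦ sin (lam * clamp u)` is `lam`-Lipschitz on the line and vanishes for `|u| ≥ π / lam`; for two
  representatives `u > u'` with `u - u' > π` use `|f u| ≤ lam (π - u)`, `|f u'| ≤ lam (u' + π)`.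
* `sin_sq_le`: `|sin η| = sin |rp η|`; for `|rp η| ≤ π/2 ` use `sin (lam u) ≥ sin u / 2`; otherwise
  `sin u ≤ π - u ≤ (π/lam - u)₊ + π (lam - 1)`.
-/

open Real MeasureTheory Set Filter Topology

namespace Pool.Agent.MinMod

noncomputable section

theorem KerG_sinh {s : ℝ} (hs : s ≠ 0) : 0 < sinh s ^ 2 :=
  sq_pos_of_ne_zero (Real.sinh_ne_zero.2 hs)

theorem KerG_sq (s : ℝ) : (1 - exp (2 * s)) ^ 2 = 4 * exp (2 * s) * sinh s ^ 2 := by
  have h1 : exp (2 * s) = exp s ^ 2 := by rw [← exp_nat_mul]; norm_num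
  have h2 := (exp_pos s).ne'
  rw [h1, sinh_eq, exp_neg]
  field_simp
  ring

theorem gap_eq {s : ℝ} (hs : s ≠ 0) (φ : ℝ) :
    lg (2 * s) (2 * φ) - kap s = 1 / 2 * Real.log (1 + sin φ ^ 2 / sinh s ^ 2) := by
  have h0 := KerG_sinh hs
  have h1 : exp (2 * (2 * s)) = exp (2 * s) ^ 2 := by rw [← exp_nat_mul]; norm_num
  have h2 := KerG_sq s
  have h3 : 1 - 2 * exp (2 * s) * cos 0 + exp (2 * (2 * s)) = 4 * exp (2 * s) * sinh s ^ 2 := by
    rw [cos_zero, h1, ← h2]
    ring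
  have h4 : 1 - 2 * exp (2 * s) * cos (2 * φ) + exp (2 * (2 * s)) =
      4 * exp (2 * s) * sinh s ^ 2 * (1 + sin φ ^ 2 / sinh s ^ 2) := by
    rw [mul_add, mul_one, mul_assoc (4 * exp (2 * s)), mul_div_cancel₀ _ h0.ne', ← h2, h1, cos_two_mul, cos_sq']
    ring
  rw [kap, lg_eq, lg_eq, h3, h4, Real.log_mul (by positivity) (by positivity)]
  ring

theorem gap_ge (R : ℝ) : ∃ c : ℝ, 0 < c ∧ ∀ s φ : ℝ, s ≠ 0 → |s| ≤ R →
    c * sin φ ^ 2 ≤ lg (2 * s) (2 * φ) - kap s := by
  refine ⟨1 / (2 * (sinh R ^ 2 + 1)), by positivity, fun s φ hs h => ?_⟩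
  have h0 := KerG_sinh hs
  have h1 : sinh s ^ 2 ≤ sinh R ^ 2 := by
    rw [sq_le_sq, abs_sinh, abs_sinh]
    exact sinh_le_sinh.2 (h.trans (le_abs_self R))
  have h2 := Real.one_sub_inv_le_log_of_pos (x := 1 + sin φ ^ 2 / sinh s ^ 2) (by positivity)
  have h3 : 1 - (1 + sin φ ^ 2 / sinh s ^ 2)⁻¹ = sin φ ^ 2 / (sinh s ^ 2 + sin φ ^ 2) := by
    field_simp
    ring
  have h4 : sin φ ^ 2 / (sinh R ^ 2 + 1) ≤ sin φ ^ 2 / (sinh s ^ 2 + sin φ ^ 2) :=
    div_le_div_of_nonneg_left (sq_nonneg _) (by positivity) (add_le_add h1 (sin_sq_le_one φ))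
  have h5 : 1 / (2 * (sinh R ^ 2 + 1)) * sin φ ^ 2 = 1 / 2 * (sin φ ^ 2 / (sinh R ^ 2 + 1)) := by
    field_simp
  rw [gap_eq hs, h5]
  linarith only [h2, h3, h4]

theorem gap_le {s : ℝ} (hs : s ≤ -1) (φ : ℝ) :
    lg (2 * s) (2 * φ) - kap s ≤ 4 * exp (2 * s) * sin φ ^ 2 := by
  have hs0 : s ≠ 0 := by linarith
  have h0 := KerG_sinh hs0
  have h1 := Real.log_le_sub_one_of_pos (x := 1 + sin φ ^ 2 / sinh s ^ 2) (by positivity)
  have h2 : exp (2 * s) ≤ 1 / 4 := by
    have h3 : exp (2 * s) ≤ exp (-1) * exp (-1) := by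
      rw [← exp_add]
      exact exp_le_exp.2 (by linarith only [hs])
    have h4 : exp (-1) ≤ 1 / 2 := by
      rw [exp_neg, one_div]
      exact inv_anti₀ two_pos (by linarith [add_one_le_exp 1])
    linarith only [h3, h4, exp_pos (-1), mul_nonneg_of_nonpos_of_nonpos (Mathlib.Tactic.Linarith.sub_nonpos_of_le h4) (le_of_lt (Mathlib.Tactic.Linarith.sub_neg_of_lt (exp_pos (-1 : ℝ))))]
  have h3 : sin φ ^ 2 / sinh s ^ 2 ≤ 8 * exp (2 * s) * sin φ ^ 2 := by
    rw [div_le_iff₀ h0]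
    have h4 : 1 ≤ 8 * exp (2 * s) * sinh s ^ 2 := by linarith only [h2, KerG_sq s, mul_nonneg_of_nonpos_of_nonpos (Mathlib.Tactic.Linarith.sub_nonpos_of_le h2) (Mathlib.Tactic.Linarith.sub_nonpos_of_le h2)]
    linarith only [h4, mul_le_mul_of_nonneg_left h4 (sq_nonneg (sin φ)), sq_nonneg (sin φ)]
  rw [gap_eq hs0]
  linarith only [h1, h3]

theorem KerG_Nh (lam s φ : ℝ) :
    Nh lam s φ - Nh lam s 0 = lg (2 * (lam * s)) (2 * (lam * φ)) - kap (lam * s) := by
  rw [Nh, Nh, kap, mul_zero, mul_assoc, mul_assoc]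

theorem KerG_sinh_le {lam t : ℝ} (h : 1 ≤ lam) (ht : 0 ≤ t) : lam * sinh t ≤ sinh (lam * t) := by
  have hd : ∀ x, HasDerivAt (fun x => sinh (lam * x) - lam * sinh x)
      (cosh (lam * x) * (lam * 1) - lam * cosh x) x := fun x =>
    ((hasDerivAt_id x).const_mul lam).sinh.sub ((Real.hasDerivAt_sinh x).const_mul lam)
  have hm := monotoneOn_of_deriv_nonneg (convex_Ici (0 : ℝ))
    (f := fun x => sinh (lam * x) - lam * sinh x) (Continuous.continuousOn (by fun_prop))
    (fun x _ => (hd x).differentiableAt.differentiableWithinAt) (fun x hx => by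
      have hx0 : 0 ≤ x := interior_subset hx
      have h1 : cosh x ≤ cosh (lam * x) := by
        rw [cosh_le_cosh, abs_of_nonneg hx0, abs_of_nonneg (by positivity)]
        linarith only [h, hx0, mul_nonneg_of_nonpos_of_nonpos (Mathlib.Tactic.Linarith.sub_nonpos_of_le h) (Mathlib.Tactic.Linarith.sub_nonpos_of_le hx0)]
      rw [(hd x).deriv]
      nlinarith)
  have h1 := hm self_mem_Ici ht ht
  simp only [mul_zero, sinh_zero, sub_zero] at h1
  linarith

theorem KerG_sin_le {lam t : ℝ} (h : 1 ≤ lam) (ht : 0 ≤ t) (h1 : lam * t ≤ π) :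
    sin (lam * t) ≤ lam * sin t := by
  have h0 : 0 < lam := by linarith
  have h2 := strictConcaveOn_sin_Icc.concaveOn.2 (show lam * t ∈ Icc 0 π from ⟨by positivity, h1⟩)
    (show (0 : ℝ) ∈ Icc 0 π from ⟨le_rfl, pi_pos.le⟩) (show 0 ≤ 1 / lam by positivity)
    (show 0 ≤ 1 - 1 / lam from sub_nonneg.2 ((div_le_one h0).2 h)) (by ring)
  simp only [smul_eq_mul, sin_zero, mul_zero, add_zero] at h2
  rw [one_div, inv_mul_cancel_left₀ h0.ne', inv_mul_le_iff₀ h0] at h2
  exact h2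

theorem gap_lam_le {lam s φ : ℝ} (h : 1 ≤ lam) (hs : s ≠ 0) (hφ : |φ| ≤ π / lam) :
    Nh lam s φ - Nh lam s 0 ≤ lg (2 * s) (2 * φ) - kap s := by
  have h0 : 0 < lam := by linarith
  have hs' : lam * s ≠ 0 := mul_ne_zero h0.ne' hs
  have h1 := KerG_sinh hs
  have h2 := KerG_sinh hs'
  have h3 : lam * |φ| ≤ π := by rwa [le_div_iff₀' h0] at hφ
  have h4 : (lam * sinh s) ^ 2 ≤ sinh (lam * s) ^ 2 := by
    rw [sq_le_sq, abs_mul, abs_sinh, abs_sinh, abs_mul, abs_of_pos h0]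
    exact KerG_sinh_le h (abs_nonneg s)
  have h5 : sin (lam * φ) ^ 2 ≤ (lam * sin φ) ^ 2 := by
    rw [sq_le_sq, abs_mul, abs_sin_eq_sin_abs_of_abs_le_pi (by rwa [abs_mul, abs_of_pos h0]),
      abs_sin_eq_sin_abs_of_abs_le_pi (by linarith only [h3, h, abs_nonneg φ, mul_nonneg_of_nonpos_of_nonpos (Mathlib.Tactic.Linarith.sub_nonpos_of_le h) (Mathlib.Tactic.Linarith.sub_nonpos_of_le (abs_nonneg φ))]), abs_mul, abs_of_pos h0]
    exact KerG_sin_le h (abs_nonneg φ) h3
  have h6 : sin (lam * φ) ^ 2 / sinh (lam * s) ^ 2 ≤ sin φ ^ 2 / sinh s ^ 2 := by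
    refine (div_le_div₀ (sq_nonneg _) h5 (by positivity) h4).trans_eq ?_
    rw [mul_pow, mul_pow, mul_div_mul_left _ _ (pow_pos h0 2).ne']
  rw [KerG_Nh, gap_eq hs, gap_eq hs']
  exact mul_le_mul_of_nonneg_left (Real.log_le_log (by positivity) (by linarith only [h6])) (by norm_num)

theorem gapN_ge : ∃ c : ℝ, 0 < c ∧ ∀ lam s φ : ℝ, 1 ≤ lam → lam ≤ 11 / 10 → s ≠ 0 → |s| ≤ 2 →
    |φ| ≤ 1 → c * φ ^ 2 ≤ Nh lam s φ - Nh lam s 0 := by
  obtain ⟨c, hc, h⟩ := gap_ge 3
  refine ⟨c * (2 / π) ^ 2, by positivity, fun lam s φ h1 h2 hs h3 h4 => ?_⟩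
  have h0 : 0 < lam := by linarith only [h1]
  rw [KerG_Nh]
  refine le_trans ?_ (h _ _ (mul_ne_zero h0.ne' hs) (by
    rw [abs_mul, abs_of_pos h0]
    linarith only [h2, h3, h1, mul_nonneg_of_nonpos_of_nonpos (Mathlib.Tactic.Linarith.sub_nonpos_of_le h1) (Mathlib.Tactic.Linarith.sub_nonpos_of_le h3)]))
  have h5 := mul_abs_le_abs_sin (x := lam * φ) (by
    rw [abs_mul, abs_of_pos h0]
    linarith only [h2, h4, h1, pi_gt_three, abs_nonneg φ, mul_nonneg_of_nonpos_of_nonpos (Mathlib.Tactic.Linarith.sub_nonpos_of_le h1) (Mathlib.Tactic.Linarith.sub_nonpos_of_le h4)])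
  rw [mul_assoc, ← mul_pow]
  refine mul_le_mul_of_nonneg_left (sq_le_sq.2 (le_trans ?_ h5)) hc.le
  rw [abs_mul, abs_mul, abs_of_pos h0, abs_of_pos (by positivity : 0 < 2 / π)]
  exact mul_le_mul_of_nonneg_left (le_mul_of_one_le_left (abs_nonneg φ) h1) (by positivity)

theorem neg_kap_ge {s : ℝ} (hs : s < 0) : exp (2 * s) ≤ -kap s := by
  have h1 : exp (2 * (2 * s)) = exp (2 * s) ^ 2 := by rw [← exp_nat_mul]; norm_num
  have h2 : exp (2 * s) < 1 := exp_lt_one_iff.2 (by linarith)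
  have h3 : 1 - 2 * exp (2 * s) * cos 0 + exp (2 * (2 * s)) = (1 - exp (2 * s)) ^ 2 := by
    rw [cos_zero, h1]
    ring
  have h4 := Real.log_le_sub_one_of_pos (sub_pos.2 h2)
  rw [kap, lg_eq, h3, Real.log_pow]
  push_cast
  linarith only [h4]

theorem w0_pos (s : ℝ) : 0 < w0 s := by
  exact add_pos_of_pos_of_nonneg (lt_min (exp_pos _) one_pos) (le_max_right _ _)

theorem w0_mono : Monotone w0 := by
  intro s t h
  exact add_le_add (min_le_min_right _ (exp_le_exp.2 (by linarith only [h]))) (max_le_max_right _ h)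

theorem w0_shift (s : ℝ) {t : ℝ} (ht : 0 ≤ t) : w0 (s + t) ≤ exp (2 * t) * w0 s := by
  have ha : ∀ x : ℝ, 0 ≤ x → w0 x = 1 + x := fun x hx => by
    rw [w0, min_eq_right (one_le_exp (by linarith only [hx])), max_eq_left hx]
  have hb : ∀ x : ℝ, x ≤ 0 → w0 x = exp (2 * x) := fun x hx => by
    rw [w0, min_eq_left (exp_le_one_iff.2 (by linarith)), max_eq_right hx, add_zero]
  rcases le_total 0 s with hs | hs
  · rw [ha s hs, ha _ (add_nonneg hs ht)]
    linarith only [ht, hs, mul_le_mul_of_nonneg_right (add_one_le_exp (2 * t)) (by linarith : 0 ≤ 1 + s),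
      mul_nonneg hs ht]
  · rw [hb s hs, ← exp_add]
    rcases le_total 0 (s + t) with h | h
    · rw [ha _ h]
      linarith [add_one_le_exp (2 * t + 2 * s)]
    · rw [hb _ h]
      exact le_of_eq (by congr 1; ring)

theorem w0_of_nonneg {s : ℝ} (hs : 0 ≤ s) : w0 s = 1 + s := by
  rw [w0, min_eq_right (one_le_exp (by linarith)), max_eq_left hs]

theorem w0_of_nonpos {s : ℝ} (hs : s ≤ 0) : w0 s = exp (2 * s) := by
  rw [w0, min_eq_left (exp_le_one_iff.2 (by linarith)), max_eq_right hs, add_zero]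

theorem rp_mem (η : ℝ) : -π < rp η ∧ rp η ≤ π := by
  have h := toIocMod_mem_Ioc Real.two_pi_pos (-π) η
  exact ⟨h.1, h.2.trans_eq (by ring)⟩

theorem KerG_self {η : ℝ} (h1 : -π < η) (h2 : η ≤ π) : rp η = η :=
  (toIocMod_eq_self Real.two_pi_pos).2 ⟨h1, h2.trans_eq (by ring)⟩

theorem KerG_per (η : ℝ) (k : ℤ) : rp (η + k * (2 * π)) = rp η := by
  rw [rp, rp, ← zsmul_eq_mul, toIocMod_add_zsmul]

theorem rp_eq {η : ℝ} (h : |η| < π) : rp η = η := by
  exact KerG_self (abs_lt.1 h).1 (abs_lt.1 h).2.le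

theorem abs_rp_eq {η : ℝ} (h : |η| ≤ π) : |rp η| = |η| := by
  rcases (abs_le.1 h).1.lt_or_eq with h1 | h1
  · rw [KerG_self h1 (abs_le.1 h).2]
  · have h2 : η + (1 : ℤ) * (2 * π) = π := by
      rw [← h1]
      push_cast
      ring
    rw [← KerG_per η 1, h2, KerG_self (by linarith only [pi_pos]) le_rfl, ← h1, abs_neg]

theorem rp_per (η : ℝ) (k : ℤ) : rp (η + k * (2 * π)) = rp η := by
  exact KerG_per η k

theorem exists_rp (η : ℝ) : ∃ k : ℤ, rp η = η + k * (2 * π) := by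
  refine ⟨-toIocDiv Real.two_pi_pos (-π) η, ?_⟩
  rw [rp, ← self_sub_toIocDiv_zsmul, zsmul_eq_mul]
  push_cast
  ring

theorem cos_rp (η : ℝ) : cos (rp η) = cos η := by
  obtain ⟨k, hk⟩ := exists_rp η
  rw [hk, cos_add_int_mul_two_pi]

theorem sin_rp (η : ℝ) : sin (rp η) = sin η := by
  obtain ⟨k, hk⟩ := exists_rp η
  rw [hk, sin_add_int_mul_two_pi]

theorem KerG_abs_le (η : ℝ) : |rp η| ≤ π := abs_le.2 ⟨(rp_mem η).1.le, (rp_mem η).2⟩

theorem abs_rp_neg (η : ℝ) : |rp (-η)| = |rp η| := by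
  rw [← arccos_cos (abs_nonneg _) (KerG_abs_le (-η)), ← arccos_cos (abs_nonneg _) (KerG_abs_le η),
    cos_abs, cos_abs, cos_rp, cos_rp, cos_neg]

theorem abs_rp_le (η : ℝ) : |rp η| ≤ |η| := by
  rcases le_total |η| π with h | h
  · exact (abs_rp_eq h).le
  · exact (KerG_abs_le η).trans h

theorem abs_rp_add_le (a b : ℝ) : |rp (a + b)| ≤ |rp a| + |rp b| := by
  obtain ⟨k, hk⟩ := exists_rp a
  obtain ⟨l, hl⟩ := exists_rp b
  have h : rp a + rp b = a + b + (k + l : ℤ) * (2 * π) := by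
    rw [hk, hl]
    push_cast
    ring
  rw [← rp_per (a + b) (k + l), ← h]
  exact (abs_rp_le _).trans (abs_add_le _ _)

theorem Sg_per (lam η : ℝ) (k : ℤ) : Sg lam (η + k * (2 * π)) = Sg lam η := by
  rw [Sg, Sg, rp_per]

theorem KerG_lt {lam : ℝ} (h : 1 < lam) : π / lam < π := div_lt_self pi_pos h

theorem KerG_Sg {lam η : ℝ} (hη : |rp η| ≤ π / lam) : Sg lam η = sin (lam * rp η) := by
  rw [Sg, min_eq_left (abs_le.1 hη).2, max_eq_right (abs_le.1 hη).1]

theorem KerG_zero {lam u : ℝ} (h : 1 < lam) (hu : π / lam ≤ |u|) :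
    sin (lam * max (-(π / lam)) (min u (π / lam))) = 0 := by
  have h0 : 0 < lam := by linarith only [h]
  have h1 : 0 < π / lam := div_pos pi_pos h0
  rcases le_abs.1 hu with h2 | h2
  · rw [min_eq_right h2, max_eq_right (by linarith only [h1]), mul_div_cancel₀ _ h0.ne', sin_pi]
  · rw [max_eq_left ((min_le_left _ _).trans (by linarith only [h2])), mul_neg, mul_div_cancel₀ _ h0.ne',
      sin_neg, sin_pi, neg_zero]

theorem KerG_lip {lam : ℝ} (h : 1 < lam) (u u' : ℝ) :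
    |sin (lam * max (-(π / lam)) (min u (π / lam))) -
      sin (lam * max (-(π / lam)) (min u' (π / lam)))| ≤ lam * |u - u'| := by
  have h0 : 0 < lam := by linarith only [h]
  refine (abs_sin_sub_sin_le _ _).trans ?_
  rw [← mul_sub, abs_mul, abs_of_pos h0, max_comm, max_comm (-(π / lam))]
  refine mul_le_mul_of_nonneg_left ((abs_max_sub_max_le_abs _ _ _).trans ?_) h0.le
  simpa using abs_min_sub_min_le_max u (π / lam) u' (π / lam)

theorem Sg_eq {lam η : ℝ} (h : 1 < lam) (hη : |η| ≤ π / lam) : Sg lam η = sin (lam * η) := by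
  have h1 := rp_eq (hη.trans_lt (KerG_lt h))
  rw [KerG_Sg (by rwa [h1]), h1]

theorem Sg_zero {lam η : ℝ} (h : 1 < lam) (hη : π / lam ≤ |rp η|) : Sg lam η = 0 := by
  exact KerG_zero h hη

theorem Sg_neg {lam : ℝ} (h : 1 < lam) (η : ℝ) : Sg lam (-η) = -Sg lam η := by
  rcases le_total |rp η| (π / lam) with h1 | h1
  · obtain ⟨k, hk⟩ := exists_rp η
    have h2 : -η = -rp η + k * (2 * π) := by
      rw [hk]
      ring
    rw [h2, Sg_per, Sg_eq h (by rwa [abs_neg]), KerG_Sg h1, mul_neg, sin_neg]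
  · rw [Sg_zero h h1, Sg_zero h (by rwa [abs_rp_neg]), neg_zero]

theorem Sg_lip {lam : ℝ} (h : 1 < lam) (η η' : ℝ) : |Sg lam η - Sg lam η'| ≤ lam * |η - η'| := by
  wlog hle : rp η' ≤ rp η generalizing η η'
  · rw [abs_sub_comm, abs_sub_comm η]
    exact this η' η (le_of_not_ge hle)
  have h0 : 0 < lam := by linarith
  obtain ⟨k, hk⟩ := exists_rp η
  obtain ⟨l, hl⟩ := exists_rp η'
  have h1 : rp η - rp η' = η - η' + (k - l : ℤ) * (2 * π) := by
    rw [hk, hl]
    push_cast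
    ring
  have h2 : |rp (rp η - rp η')| ≤ |η - η'| := by
    rw [h1, rp_per]
    exact abs_rp_le _
  refine le_trans ?_ (mul_le_mul_of_nonneg_left h2 h0.le)
  rcases le_total (rp η - rp η') π with h3 | h3
  · rw [abs_rp_eq (abs_le.2 ⟨by linarith [pi_pos], h3⟩)]
    exact KerG_lip h _ _
  · have h4 := rp_mem η
    have h5 := rp_mem η'
    have h6 : |rp (rp η - rp η')| = 2 * π - (rp η - rp η') := by
      rw [← rp_per _ (-1), abs_rp_eq (abs_le.2 ⟨by push_cast; linarith, by push_cast; linarith⟩),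
        abs_of_nonpos (by push_cast; linarith)]
      push_cast
      ring
    have h7 := KerG_lip h (rp η) π
    have h8 := KerG_lip h (rp η') (-π)
    rw [KerG_zero h (u := π) ((KerG_lt h).le.trans (le_abs_self _)), sub_zero,
      abs_of_nonpos (by linarith only [h4] : rp η - π ≤ 0)] at h7
    rw [KerG_zero h (u := -π) ((KerG_lt h).le.trans (by rw [abs_neg]; exact le_abs_self _)),
      sub_zero, abs_of_nonneg (by linarith only [h5] : 0 ≤ rp η' - -π)] at h8
    rw [h6]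
    refine (abs_sub _ _).trans ((add_le_add h7 h8).trans_eq ?_)
    ring

theorem abs_Sg_le_one (lam η : ℝ) : |Sg lam η| ≤ 1 := by
  exact abs_sin_le_one _

theorem abs_Sg_le {lam : ℝ} (h : 1 < lam) (η : ℝ) : |Sg lam η| ≤ lam * min 1 |η| := by
  have h0 : 0 < lam := by linarith
  rw [mul_min_of_nonneg _ _ h0.le]
  refine le_min ((abs_Sg_le_one lam η).trans (by linarith)) ?_
  have h1 := Sg_lip h η 0
  rwa [Sg_eq h (η := 0) (by rw [abs_zero]; positivity), mul_zero, sin_zero, sub_zero, sub_zero] at h1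

theorem abs_Sg_ge {lam η t : ℝ} (h : 1 < lam) (ht : 0 ≤ t) (h1 : t ≤ |rp η|)
    (h2 : |rp η| ≤ π / lam - t) : 2 / π * t ≤ |Sg lam η| := by
  have h0 : 0 < lam := by linarith
  have h3 : lam * |rp η| ≤ π - lam * t := by
    have := mul_le_mul_of_nonneg_left h2 h0.le
    rwa [mul_sub, mul_div_cancel₀ _ h0.ne'] at this
  have h4 : t ≤ lam * t := le_mul_of_one_le_left ht h.le
  have h5 : lam * t ≤ lam * |rp η| := mul_le_mul_of_nonneg_left h1 h0.le
  have h6 : 0 ≤ 2 / π := by positivity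
  rw [KerG_Sg (by linarith only [ht, h2]), abs_sin_eq_sin_abs_of_abs_le_pi (by
    rw [abs_mul, abs_of_pos h0]
    linarith only [ht, h3, h4]), abs_mul, abs_of_pos h0]
  rcases le_total (lam * |rp η|) (π / 2) with h7 | h7
  · exact (mul_le_mul_of_nonneg_left (by linarith only [h4, h5]) h6).trans (mul_le_sin (by linarith only [ht, h4, h5]) h7)
  · rw [← sin_pi_sub]
    exact (mul_le_mul_of_nonneg_left (by linarith only [h3, h4]) h6).trans
      (mul_le_sin (by linarith only [ht, h3, h4]) (by linarith only [h7]))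

theorem sin_sq_le : ∃ C : ℝ, 1 ≤ C ∧ ∀ lam η : ℝ, 1 < lam → lam ≤ 11 / 10 →
    sin η ^ 2 ≤ C * (|Sg lam η| + (lam - 1)) := by
  refine ⟨4, by norm_num, fun lam η h _ => ?_⟩
  have h0 : 0 < lam := by linarith
  have h1 := KerG_abs_le η
  have h2 : |sin η| = sin |rp η| := by rw [← sin_rp, abs_sin_eq_sin_abs_of_abs_le_pi h1]
  have h3 : sin η ^ 2 ≤ sin |rp η| := by
    rw [← h2, ← sq_abs]
    linarith only [abs_nonneg (sin η), abs_sin_le_one η, mul_nonneg_of_nonpos_of_nonpos (Mathlib.Tactic.Linarith.sub_nonpos_of_le (abs_nonneg (sin η))) (Mathlib.Tactic.Linarith.sub_nonpos_of_le (abs_sin_le_one η))]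
  have h4 : sin |rp η| ≤ |rp η| := sin_le (abs_nonneg _)
  have h5 : sin |rp η| ≤ π - |rp η| := by
    rw [← sin_pi_sub]
    exact sin_le (by linarith)
  have h6 : π - π / lam ≤ 4 * (lam - 1) := by
    have h7 : π - π / lam = π / lam * (lam - 1) := by field_simp
    rw [h7]
    exact mul_le_mul_of_nonneg_right ((KerG_lt h).le.trans pi_le_four) (by linarith only [h])
  have h7 := abs_nonneg (Sg lam η)
  rcases le_total |rp η| (π / lam) with h8 | h8
  · have h9 := abs_Sg_ge h (η := η) (t := min |rp η| (π / lam - |rp η|))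
      (le_min (abs_nonneg _) (by linarith only [h8])) (min_le_left _ _)
      (by linarith only [min_le_right |rp η| (π / lam - |rp η|)])
    rw [div_mul_eq_mul_div, div_le_iff₀ pi_pos] at h9
    have h10 : |Sg lam η| * π ≤ |Sg lam η| * 4 := mul_le_mul_of_nonneg_left pi_le_four h7
    rcases min_cases |rp η| (π / lam - |rp η|) with h11 | h11 <;> rw [h11.1] at h9 <;> linarith only [h, h3, h4, h7, h9, h10, h5, h6]
  · linarith only [h3, h5, h6, h7, h8]

end

end Pool.Agent.MinMod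
end
end

-- merged part: Pool.Agent.Work.MP_f62247_an.KerK
section
-- merged part: Pool.Agent.Work.MP_f62247_an.KerI
section
/-!
# Integrals of the envelopes

`l0 s ≤ 2 e^(-|s|)` for `|s| ≥ 1`; for `0 < |s| ≤ 1`, `1 - e^(-|s|) ≥ |s| / 2`, so `l0 s ≤ log 2 - log |s| ≤ 2 |s|^(-1/2)`
and `exp (l0 s / 2) ≤ 2 + 2 |s|^(-1/2)` for every `s`.
* `cartan`: on the set, `exp (H / (2 n)) ≤ exp ((1/n) ∑ l0 / 2) ≤ (1/n) ∑ exp (l0 / 2)` (convexity of `exp`); Markov.
  For `A = ∅` the right side is `C`.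
* Weighted integrability: dominate by the envelopes off the null set `t = ξ`.
-/

open Real MeasureTheory Set Filter Topology

namespace Pool.Agent.MinMod

noncomputable section

theorem KerI_abs {f : ℝ → ℝ} (h : IntegrableOn f (Ioi 0)) : Integrable fun x => f |x| := by
  have h1 : IntegrableOn (fun x => f |x|) (Ioi 0) :=
    h.congr_fun (fun x hx => by simp only [abs_of_pos (mem_Ioi.1 hx)]) measurableSet_Ioi
  have h2 : IntegrableOn (fun x => f |x|) (Iic 0) := by
    rw [← Measure.map_neg_eq_self (volume : Measure ℝ)]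
    let m : MeasurableEmbedding fun x : ℝ => -x := (Homeomorph.neg ℝ).measurableEmbedding
    rw [m.integrableOn_map_iff]
    simp_rw [Function.comp_def, abs_neg, neg_preimage, neg_Iic, neg_zero]
    exact Iff.mpr integrableOn_Ici_iff_integrableOn_Ioi h1
  rw [← integrableOn_univ, ← Iic_union_Ioi (a := (0 : ℝ))]
  exact h2.union h1

theorem KerI_exp {c : ℝ} (hc : 0 < c) : Integrable fun s : ℝ => exp (-c * |s|) :=
  KerI_abs (f := fun x => exp (-c * x)) (integrableOn_exp_mul_Ioi (by linarith) 0)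

/-- the singular majorant -/
def KerI_q (s : ℝ) : ℝ := (Iic (1 : ℝ)).indicator (fun x => x ^ (-(1 / 2) : ℝ)) |s|

theorem KerI_q_nonneg (s : ℝ) : 0 ≤ KerI_q s := by
  unfold KerI_q
  by_cases h : |s| ∈ Iic (1 : ℝ)
  · rw [indicator_of_mem h]; positivity
  · rw [indicator_of_notMem h]

theorem KerI_q_int : Integrable KerI_q := by
  refine KerI_abs (f := (Iic (1 : ℝ)).indicator fun x => x ^ (-(1 / 2) : ℝ)) ?_
  rw [IntegrableOn, integrable_indicator_iff measurableSet_Iic, IntegrableOn,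
    Measure.restrict_restrict measurableSet_Iic, inter_comm, Ioi_inter_Iic]
  exact (intervalIntegrable_iff_integrableOn_Ioc_of_le zero_le_one).1
    (intervalIntegral.intervalIntegrable_rpow' (by norm_num))

theorem KerI_half {x : ℝ} (h0 : 0 ≤ x) (h1 : x ≤ 1) : x / 2 ≤ 1 - exp (-x) := by
  have h2 : exp (-x) ≤ 1 / (1 + x) := by
    rw [exp_neg, one_div]
    exact inv_anti₀ (by linarith) (by linarith [add_one_le_exp x])
  have h3 : 1 / (1 + x) ≤ 1 - x / 2 := by
    rw [div_le_iff₀ (by linarith)]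
    linarith only [h0, h1, mul_nonneg_of_nonpos_of_nonpos (Mathlib.Tactic.Linarith.sub_nonpos_of_le h0) (Mathlib.Tactic.Linarith.sub_nonpos_of_le h1)]
  linarith only [h2, h3]

theorem KerI_far {s : ℝ} (hs : 1 ≤ |s|) : l0 s ≤ 1 := by
  have h1 : exp (-|s|) ≤ 1 / 2 :=
    (exp_le_exp.2 (neg_le_neg hs)).trans (Real.exp_neg_one_lt_d9.le.trans (by norm_num))
  linarith only [h1, hs, l0_le hs]

theorem KerI_near {s : ℝ} (h0 : s ≠ 0) (hs : |s| ≤ 1) : l0 s ≤ Real.log 2 - Real.log |s| := by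
  have h1 := abs_pos.2 h0
  have h2 := Real.log_le_log (by positivity) (KerI_half h1.le hs)
  rw [Real.log_div h1.ne' two_ne_zero] at h2
  unfold l0
  linarith

theorem KerI_zero : l0 0 = 0 := by simp [l0]

theorem KerI_exp_l0 (s : ℝ) : exp (l0 s / 2) ≤ 2 + 2 * KerI_q s := by
  have hq := KerI_q_nonneg s
  rcases le_total 1 |s| with h | h
  · have h1 : exp (l0 s / 2) ≤ exp (Real.log 2) :=
      exp_le_exp.2 (by linarith only [h, KerI_far h, Real.log_two_gt_d9])
    rw [exp_log two_pos] at h1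
    linarith only [hq, h1]
  · by_cases h0 : s = 0
    · rw [h0, KerI_zero, zero_div, exp_zero]
      linarith only [KerI_q_nonneg 0]
    · have h1 := abs_pos.2 h0
      have h2 : KerI_q s = exp (-(Real.log |s|) / 2) := by
        rw [KerI_q, indicator_of_mem (mem_Iic.2 h), rpow_def_of_pos h1]
        congr 1
        ring
      have h3 : exp (l0 s / 2) ≤ exp (Real.log 2 + -(Real.log |s|) / 2) :=
        exp_le_exp.2 (by linarith only [h0, h, KerI_near h0 h, Real.log_two_gt_d9])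
      rw [exp_add, exp_log two_pos, ← h2] at h3
      linarith only [h3]

theorem integrable_l0_exp {a : ℝ} (ha : a < 1) : Integrable fun s => l0 s * exp (a * |s|) := by
  have h1 : Integrable fun s : ℝ => 12 * exp (-(1 - a) * |s|) + 12 * KerI_q s :=
    ((KerI_exp (by linarith)).const_mul 12).add (KerI_q_int.const_mul 12)
  refine h1.mono' (measurable_l0.mul (by fun_prop)).aestronglyMeasurable
    (Eventually.of_forall fun s => ?_)
  have h0 := l0_nonneg s
  have hq := KerI_q_nonneg s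
  have he := exp_pos (-(1 - a) * |s|)
  rw [Real.norm_eq_abs, abs_of_nonneg (by positivity)]
  rcases le_total 1 |s| with h | h
  · have h2 : l0 s * exp (a * |s|) ≤ 2 * exp (-|s|) * exp (a * |s|) :=
      mul_le_mul_of_nonneg_right (l0_le h) (exp_pos _).le
    rw [mul_assoc, ← exp_add, show -|s| + a * |s| = -(1 - a) * |s| by ring] at h2
    linarith
  · have h2 : l0 s ≤ 4 + 4 * KerI_q s := by
      linarith only [KerI_exp_l0 s, add_one_le_exp (l0 s / 2)]
    have h3 : exp (a * |s|) ≤ 3 :=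
      (exp_le_exp.2 (by linarith only [h, ha, abs_nonneg s, mul_nonneg_of_nonpos_of_nonpos (le_of_lt (Mathlib.Tactic.Linarith.sub_neg_of_lt ha)) (Mathlib.Tactic.Linarith.sub_nonpos_of_le (abs_nonneg s))])).trans
        (Real.exp_one_lt_d9.le.trans (by norm_num))
    have h4 : exp (a * |s|) ≤ 3 * exp (-(1 - a) * |s|) := by
      rw [show a * |s| = |s| + -(1 - a) * |s| by ring, exp_add]
      exact mul_le_mul_of_nonneg_right
        ((exp_le_exp.2 h).trans (Real.exp_one_lt_d9.le.trans (by norm_num))) he.le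
    calc l0 s * exp (a * |s|) ≤ (4 + 4 * KerI_q s) * exp (a * |s|) :=
          mul_le_mul_of_nonneg_right h2 (exp_pos _).le
      _ = 4 * exp (a * |s|) + 4 * KerI_q s * exp (a * |s|) := by ring
      _ ≤ _ := by linarith only [h4, hq, h3, mul_nonneg_of_nonpos_of_nonpos (Mathlib.Tactic.Linarith.sub_nonpos_of_le hq) (Mathlib.Tactic.Linarith.sub_nonpos_of_le h3)]

theorem integrable_l0 : Integrable l0 := by
  simpa using integrable_l0_exp (a := 0) zero_lt_one

theorem KerI_int_nonneg : 0 ≤ ∫ s, l0 s := integral_nonneg l0_nonneg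

theorem KerI_self (s : ℝ) : l0 s ≤ exp (-|s|) * (2 + 3 * l0 s) := by
  have h0 := l0_nonneg s
  have he := exp_pos (-|s|)
  rcases le_total 1 |s| with h | h
  · linarith only [h, h0, he, l0_le h, mul_nonneg_of_nonpos_of_nonpos (Mathlib.Tactic.Linarith.sub_nonpos_of_le h0) (le_of_lt (Mathlib.Tactic.Linarith.sub_neg_of_lt he))]
  · have h1 : 1 / 3 ≤ exp (-|s|) :=
      le_trans (by linarith only [Real.exp_neg_one_gt_d9]) (exp_le_exp.2 (neg_le_neg h))
    linarith only [he, h0, h1, mul_nonneg_of_nonpos_of_nonpos (Mathlib.Tactic.Linarith.sub_nonpos_of_le h0) (Mathlib.Tactic.Linarith.sub_nonpos_of_le h1)]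

theorem KerI_dom {f g : ℝ → ℝ} {S : Set ℝ} (hS : MeasurableSet S) (hf : Measurable f)
    (hg : Integrable g) (g0 : ∀ x, 0 ≤ g x) (f0 : ∀ x, 0 ≤ f x) (h : ∀ x ∈ S, f x ≤ g x) :
    IntegrableOn f S ∧ ∫ x in S, f x ≤ ∫ x, g x := by
  have h1 : IntegrableOn f S := hg.integrableOn.mono' hf.aestronglyMeasurable
    ((ae_restrict_iff' hS).2 (Eventually.of_forall fun x hx => by
      rw [Real.norm_eq_abs, abs_of_nonneg (f0 x)]; exact h x hx))
  exact ⟨h1, (setIntegral_mono_on h1 hg.integrableOn hS h).trans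
    (setIntegral_le_integral hg (Eventually.of_forall g0))⟩

theorem KerI_maj (c u K : ℝ) (hc : 0 < c) :
    Integrable (fun s => K * (2 * exp (-c * |s + u|) + 3 * l0 s)) ∧
      ∫ s, K * (2 * exp (-c * |s + u|) + 3 * l0 s) =
        K * (2 * (∫ s : ℝ, exp (-c * |s|)) + 3 * ∫ s, l0 s) := by
  have h1 : Integrable fun s : ℝ => exp (-c * |s + u|) := (KerI_exp hc).comp_add_right u
  refine ⟨((h1.const_mul 2).add (integrable_l0.const_mul 3)).const_mul K, ?_⟩
  rw [integral_const_mul, integral_add (h1.const_mul 2) (integrable_l0.const_mul 3),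
    integral_const_mul, integral_const_mul,
    integral_add_right_eq_self (fun s : ℝ => exp (-c * |s|)) u]

theorem env_neg : ∃ C : ℝ, 1 ≤ C ∧ ∀ a u : ℝ, 0 ≤ a → a ≤ 11 / 10 → 0 ≤ u →
    IntegrableOn (fun s => exp (-a * s) * env s) (Iio (-u)) ∧
      ∫ s in Iio (-u), exp (-a * s) * env s ≤ C * exp (-(2 - a) * u) := by
  have hI : 0 ≤ ∫ s : ℝ, exp (-(9 / 10) * |s|) := integral_nonneg fun s => (exp_pos _).le
  refine ⟨1 + (2 * (∫ s : ℝ, exp (-(9 / 10) * |s|)) + 3 * ∫ s, l0 s),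
    by linarith only [hI, KerI_int_nonneg], fun a u _ ha hu => ?_⟩
  obtain ⟨h1, h2⟩ := KerI_maj (9 / 10) u (exp (-(2 - a) * u)) (by norm_num)
  obtain ⟨h3, h4⟩ := KerI_dom (f := fun s => exp (-a * s) * env s) (measurableSet_Iio (a := -u))
    (Measurable.mul (by fun_prop) measurable_env) h1
    (fun s => by have := l0_nonneg s; positivity) (fun s => by have := env_nonneg s; positivity)
    (fun s hs => by
      have hs' : s < -u := hs
      have h0 := l0_nonneg s
      have h5 := KerI_self s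
      rw [abs_of_neg (by linarith only [hu, hs']), neg_neg] at h5
      have h6 : exp (-a * s) * (exp s * exp s) ≤
          exp (-(2 - a) * u) * exp (-(9 / 10) * |s + u|) := by
        rw [← exp_add, ← exp_add, ← exp_add, abs_of_neg (by linarith only [hs'])]
        exact exp_le_exp.2 (by linarith only [ha, hs', mul_nonneg_of_nonpos_of_nonpos (Mathlib.Tactic.Linarith.sub_nonpos_of_le ha) (le_of_lt (Mathlib.Tactic.Linarith.sub_neg_of_lt hs'))])
      have h7 : exp (-(9 / 10) * |s + u|) ≤ 1 := exp_le_one_iff.2 (by linarith only [abs_nonneg (s + u)])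
      have h8 := exp_pos (-(9 / 10) * |s + u|)
      simp only [env, if_pos (show s < 0 by linarith only [hu, hs'])]
      calc exp (-a * s) * (exp s * l0 s) ≤ exp (-a * s) * (exp s * (exp s * (2 + 3 * l0 s))) := by
            gcongr
        _ = exp (-a * s) * (exp s * exp s) * (2 + 3 * l0 s) := by ring
        _ ≤ exp (-(2 - a) * u) * exp (-(9 / 10) * |s + u|) * (2 + 3 * l0 s) := by gcongr
        _ ≤ _ := by
            rw [mul_assoc]
            exact mul_le_mul_of_nonneg_left (by linarith only [h0, h7, mul_nonneg_of_nonpos_of_nonpos (Mathlib.Tactic.Linarith.sub_nonpos_of_le h0) (Mathlib.Tactic.Linarith.sub_nonpos_of_le h7)]) (exp_pos _).le)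
  refine ⟨h3, h4.trans ?_⟩
  rw [h2]
  linarith only [exp_pos (-(2 - a) * u)]

theorem env_pos : ∃ C : ℝ, 1 ≤ C ∧ ∀ u : ℝ, 0 ≤ u →
    IntegrableOn (fun s => exp (-3 * s) * env s) (Ioi (-u)) ∧
      ∫ s in Ioi (-u), exp (-3 * s) * env s ≤ C * exp u := by
  have hI : 0 ≤ ∫ s : ℝ, exp (-1 * |s|) := integral_nonneg fun s => (exp_pos _).le
  refine ⟨1 + (2 * (∫ s : ℝ, exp (-1 * |s|)) + 3 * ∫ s, l0 s),
    by linarith only [hI, KerI_int_nonneg], fun u hu => ?_⟩
  obtain ⟨h1, h2⟩ := KerI_maj 1 u (exp u) one_pos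
  obtain ⟨h3, h4⟩ := KerI_dom (f := fun s => exp (-3 * s) * env s) (measurableSet_Ioi (a := -u))
    (Measurable.mul (by fun_prop) measurable_env) h1
    (fun s => by have := l0_nonneg s; positivity) (fun s => by have := env_nonneg s; positivity)
    (fun s hs => by
      have hs' : -u < s := hs
      have h0 := l0_nonneg s
      have h6 : exp u * exp (-1 * |s + u|) = exp (-s) := by
        rw [← exp_add, abs_of_pos (by linarith)]
        congr 1
        ring
      have h7 : 1 ≤ exp u := one_le_exp hu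
      have h8 : exp u * (2 * exp (-1 * |s + u|) + 3 * l0 s) = 2 * exp (-s) + 3 * exp u * l0 s := by
        rw [← h6]; ring
      rw [h8]
      by_cases h9 : s < 0
      · have h5 := KerI_self s
        rw [abs_of_neg h9, neg_neg] at h5
        have h10 : exp (-3 * s) * (exp s * exp s) = exp (-s) := by
          rw [← exp_add, ← exp_add]; congr 1; ring
        have h11 : exp (-s) ≤ exp u := exp_le_exp.2 (by linarith)
        simp only [env, if_pos h9]
        calc exp (-3 * s) * (exp s * l0 s) ≤ exp (-3 * s) * (exp s * (exp s * (2 + 3 * l0 s))) := by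
              gcongr
          _ = exp (-3 * s) * (exp s * exp s) * (2 + 3 * l0 s) := by ring
          _ ≤ _ := by rw [h10]; linarith only [h0, h11, mul_nonneg_of_nonpos_of_nonpos (Mathlib.Tactic.Linarith.sub_nonpos_of_le h0) (Mathlib.Tactic.Linarith.sub_nonpos_of_le h11)]
      · have h9' := not_lt.1 h9
        have h10 : exp (-3 * s) * exp s ≤ exp (-s) := by
          rw [← exp_add]; exact exp_le_exp.2 (by linarith)
        have h11 : exp (-3 * s) ≤ 1 := exp_le_one_iff.2 (by linarith)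
        have h12 := exp_pos (-3 * s)
        have h13 := add_one_le_exp s
        simp only [env, if_neg h9]
        linarith only [h0, h10, h7, h11, h12, h13, mul_nonneg_of_nonpos_of_nonpos (Mathlib.Tactic.Linarith.sub_nonpos_of_le h0) (Mathlib.Tactic.Linarith.sub_nonpos_of_le h7), mul_nonneg_of_nonpos_of_nonpos (Mathlib.Tactic.Linarith.sub_nonpos_of_le h0) (Mathlib.Tactic.Linarith.sub_nonpos_of_le h11), mul_nonneg_of_nonpos_of_nonpos (le_of_lt (Mathlib.Tactic.Linarith.sub_neg_of_lt h12)) (Mathlib.Tactic.Linarith.sub_nonpos_of_le h13)])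
  refine ⟨h3, h4.trans ?_⟩
  rw [h2]
  linarith only [exp_pos u]

theorem KerI_scale {ρ : ℝ} (h0 : 0 < ρ) (h1 : ρ ≤ 1) (s : ℝ) :
    l0 s ≤ 1 - Real.log ρ + l0 (s / ρ) := by
  have h2 := Real.log_nonpos h0.le h1
  have h3 := l0_nonneg (s / ρ)
  rcases le_total 1 |s| with h | h
  · linarith only [h2, h3, h, KerI_far h]
  · by_cases hs : s = 0
    · rw [hs, KerI_zero]; rw [hs] at h3; linarith only [h2, h3]
    · have h4 := KerI_near hs h
      have h5 : 0 < |s / ρ| := abs_pos.2 (div_ne_zero hs h0.ne')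
      have h6 : Real.log (1 - exp (-|s / ρ|)) ≤ Real.log |s / ρ| :=
        Real.log_le_log (sub_pos.2 (exp_lt_one_iff.2 (by linarith)))
          (by linarith only [add_one_le_exp (-|s / ρ|)])
      have h7 : Real.log |s / ρ| = Real.log |s| - Real.log ρ := by
        rw [abs_div, abs_of_pos h0, Real.log_div (abs_pos.2 hs).ne' h0.ne']
      have h8 : l0 (s / ρ) = -Real.log (1 - exp (-|s / ρ|)) := rfl
      linarith only [h4, h6, h7, h8, Real.log_two_lt_d9]

theorem avg_l0 : ∃ C : ℝ, 1 ≤ C ∧ ∀ x ρ ξ : ℝ, 0 < ρ → ρ ≤ 1 →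
    ∫ t in x..(x + ρ), l0 (t - ξ) ≤ C * ρ * (1 - Real.log ρ) := by
  have hI := KerI_int_nonneg
  refine ⟨1 + ∫ s, l0 s, by linarith, fun x ρ ξ h0 h1 => ?_⟩
  have h2 := Real.log_nonpos h0.le h1
  have h3 : Integrable fun t => l0 ((t - ξ) / ρ) :=
    (integrable_l0.comp_div h0.ne').comp_sub_right ξ
  have h4 : ∫ t in x..(x + ρ), l0 (t - ξ) ≤
      ∫ t in x..(x + ρ), (1 - Real.log ρ + l0 ((t - ξ) / ρ)) :=
    intervalIntegral.integral_mono_on (by linarith)
      (integrable_l0.comp_sub_right ξ).intervalIntegrable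
      (intervalIntegrable_const.add h3.intervalIntegrable) fun t _ => KerI_scale h0 h1 _
  rw [intervalIntegral.integral_add intervalIntegrable_const h3.intervalIntegrable,
    intervalIntegral.integral_const, intervalIntegral.integral_of_le (a := x) (b := x + ρ)
      (f := fun t => l0 ((t - ξ) / ρ)) (by linarith only [h0])] at h4
  have h5 : ∫ t in Ioc x (x + ρ), l0 ((t - ξ) / ρ) ≤ ∫ t, l0 ((t - ξ) / ρ) :=
    setIntegral_le_integral h3 (Eventually.of_forall fun t => l0_nonneg _)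
  rw [integral_sub_right_eq_self (μ := volume) (fun t => l0 (t / ρ)) ξ, Measure.integral_comp_div,
    abs_of_pos h0, smul_eq_mul] at h5
  rw [add_sub_cancel_left, smul_eq_mul] at h4
  linarith only [h4, h5, hI, h0, h2, mul_nonneg (mul_nonneg hI h0.le) (neg_nonneg.2 h2)]

theorem cartan : ∃ C : ℝ, 1 ≤ C ∧ ∀ (A : Finset ℕ) (ξ : ℕ → ℝ) (u H : ℝ),
    volume {x | x ∈ Icc u (u + 1) ∧ H ≤ ∑ a ∈ A, l0 (x - ξ a)} ≤
      ENNReal.ofReal (C * exp (-H / (2 * A.card))) := by
  have hI : 0 ≤ ∫ s, KerI_q s := integral_nonneg KerI_q_nonneg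
  refine ⟨2 + 2 * ∫ s, KerI_q s, by linarith, fun A ξ u H => ?_⟩
  have hfin : volume {x | x ∈ Icc u (u + 1) ∧ H ≤ ∑ a ∈ A, l0 (x - ξ a)} ≤ 1 :=
    (measure_mono fun x hx => hx.1).trans (by simp)
  rcases A.eq_empty_or_nonempty with hA | hA
  · refine hfin.trans ?_
    rw [hA]
    simp only [Finset.card_empty, Nat.cast_zero, mul_zero, div_zero, exp_zero, mul_one]
    exact ENNReal.one_le_ofReal.2 (by linarith)
  have hn : (0 : ℝ) < A.card := by exact_mod_cast hA.card_pos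
  set μ : Measure ℝ := volume.restrict (Icc u (u + 1)) with hμ
  have : IsFiniteMeasure μ := by rw [hμ]; infer_instance
  set F : ℝ → ℝ := fun x => ∑ a ∈ A, (A.card : ℝ)⁻¹ * (2 + 2 * KerI_q (x - ξ a)) with hF
  have hq : ∀ a, Integrable (fun x => KerI_q (x - ξ a)) μ := fun a =>
    (KerI_q_int.comp_sub_right (ξ a)).integrableOn
  have hi : ∀ a, Integrable (fun x => (A.card : ℝ)⁻¹ * (2 + 2 * KerI_q (x - ξ a))) μ := fun a =>
    ((integrable_const 2).add ((hq a).const_mul 2)).const_mul _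
  have h1 : ∫ x, F x ∂μ ≤ 2 + 2 * ∫ s, KerI_q s := by
    rw [hF, integral_finsetSum _ fun a _ => hi a]
    have h2 : ∀ a ∈ A, ∫ x, (A.card : ℝ)⁻¹ * (2 + 2 * KerI_q (x - ξ a)) ∂μ ≤
        (A.card : ℝ)⁻¹ * (2 + 2 * ∫ s, KerI_q s) := by
      intro a _
      rw [integral_const_mul, integral_add (integrable_const 2) ((hq a).const_mul 2),
        integral_const_mul, integral_const]
      have h3 : ∫ x, KerI_q (x - ξ a) ∂μ ≤ ∫ s, KerI_q s := by
        rw [← integral_sub_right_eq_self KerI_q (ξ a)]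
        exact setIntegral_le_integral (KerI_q_int.comp_sub_right (ξ a))
          (Eventually.of_forall fun x => KerI_q_nonneg _)
      have h4 : μ.real univ = 1 := by simp [hμ, Measure.real]
      rw [h4, one_smul]
      gcongr
    refine (Finset.sum_le_sum h2).trans_eq ?_
    rw [Finset.sum_const, nsmul_eq_mul, ← mul_assoc, mul_inv_cancel₀ hn.ne', one_mul]
  have h5 := mul_meas_ge_le_integral_of_nonneg (μ := μ) (f := F)
    (Eventually.of_forall fun x => Finset.sum_nonneg fun a _ => by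
      have := KerI_q_nonneg (x - ξ a); positivity)
    (integrable_finsetSum _ fun a _ => hi a) (exp (H / (2 * A.card)))
  have h6 : volume {x | x ∈ Icc u (u + 1) ∧ H ≤ ∑ a ∈ A, l0 (x - ξ a)} ≤
      μ {x | exp (H / (2 * A.card)) ≤ F x} := by
    rw [hμ, Measure.restrict_apply' measurableSet_Icc]
    refine measure_mono fun x hx => ⟨?_, hx.1⟩
    have h7 := convexOn_exp.map_sum_le (t := A) (w := fun _ => (A.card : ℝ)⁻¹)
      (p := fun a => l0 (x - ξ a) / 2) (fun _ _ => by positivity)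
      (by rw [Finset.sum_const, nsmul_eq_mul, mul_inv_cancel₀ hn.ne']) (fun _ _ => mem_univ _)
    simp only [smul_eq_mul] at h7
    have h8 : H / (2 * A.card) ≤ ∑ a ∈ A, (A.card : ℝ)⁻¹ * (l0 (x - ξ a) / 2) := by
      rw [← Finset.mul_sum, ← Finset.sum_div]
      have h9 : H / (2 * A.card) = (A.card : ℝ)⁻¹ * (H / 2) := by field_simp
      rw [h9]
      have := hx.2
      gcongr
    refine (exp_le_exp.2 h8).trans (h7.trans (Finset.sum_le_sum fun a _ => ?_))
    exact mul_le_mul_of_nonneg_left (KerI_exp_l0 _) (by positivity)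
  refine h6.trans ?_
  rw [← ofReal_measureReal (measure_ne_top _ _)]
  refine ENNReal.ofReal_le_ofReal ?_
  rw [neg_div, exp_neg, ← div_eq_mul_inv, le_div_iff₀ (exp_pos _)]
  linarith only [h1, h5]

theorem KerI_ae_ne (ξ : ℝ) : ∀ᵐ t : ℝ, t - ξ ≠ 0 := by
  filter_upwards [Measure.ae_ne volume ξ] with t ht using sub_ne_zero.2 ht

theorem KerI_wt_exp {lam b : ℝ} {ρ : ℝ → ℝ} (h : Wt lam ρ) (h0 : 0 < b) (hl : b < lam) :
    Integrable fun t => ρ t * exp (b * t) := by
  obtain ⟨hm, C, hC⟩ := h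
  have hc : 0 < min b (lam - b) := lt_min h0 (by linarith)
  have hC0 : 0 ≤ C := by
    have := (abs_nonneg _).trans (hC 0)
    simpa using this
  refine ((KerI_exp hc).const_mul C).mono' (hm.mul (by fun_prop)).aestronglyMeasurable
    (Eventually.of_forall fun t => ?_)
  rw [Real.norm_eq_abs, abs_mul, abs_of_pos (exp_pos _)]
  refine (mul_le_mul_of_nonneg_right (hC t) (exp_pos _).le).trans ?_
  rw [mul_assoc, ← exp_add]
  refine mul_le_mul_of_nonneg_left (exp_le_exp.2 ?_) hC0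
  rcases le_total 0 t with ht | ht
  · rw [max_eq_left ht, abs_of_nonneg ht]
    linarith only [ht, min_le_right b (lam - b), mul_nonneg_of_nonpos_of_nonpos (Mathlib.Tactic.Linarith.sub_nonpos_of_le ht) (Mathlib.Tactic.Linarith.sub_nonpos_of_le (min_le_right b (lam - b)))]
  · rw [max_eq_right ht, abs_of_nonpos ht]
    linarith only [ht, min_le_left b (lam - b), mul_nonneg_of_nonpos_of_nonpos (Mathlib.Tactic.Linarith.sub_nonpos_of_le ht) (Mathlib.Tactic.Linarith.sub_nonpos_of_le (min_le_left b (lam - b)))]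

theorem KerI_wt_int {lam : ℝ} {ρ g : ℝ → ℝ} (h : Wt lam ρ) (hl : 0 ≤ lam) (hg : Integrable g) :
    Integrable fun t => ρ t * g t := by
  obtain ⟨hm, C, hC⟩ := h
  have hC0 : 0 ≤ C := by
    have := (abs_nonneg _).trans (hC 0)
    simpa using this
  refine hg.bdd_mul (c := C) hm.aestronglyMeasurable (Eventually.of_forall fun t => ?_)
  refine (hC t).trans (mul_le_of_le_one_right hC0 (exp_le_one_iff.2 ?_))
  linarith only [hl, le_max_right t 0, mul_nonneg_of_nonpos_of_nonpos (Mathlib.Tactic.Linarith.sub_nonpos_of_le hl) (Mathlib.Tactic.Linarith.sub_nonpos_of_le (le_max_right t (0 : ℝ)))]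

/-- the general domination -/
theorem KerI_wt {lam b K : ℝ} {ρ f : ℝ → ℝ} (h : Wt lam ρ) (h0 : 0 < b) (hl : b < lam) (ξ : ℝ)
    (hf : Measurable f) (hb : ∀ s, s ≠ 0 → |f s| ≤ K * exp (b * s) + l0 s) :
    Integrable fun t => ρ t * f (t - ξ) := by
  have h1 := ((KerI_wt_exp h h0 hl).norm.const_mul (K * exp (-b * ξ))).add
    (KerI_wt_int h (by linarith) (integrable_l0.comp_sub_right ξ)).norm
  refine h1.mono' (h.1.mul (hf.comp (by fun_prop))).aestronglyMeasurable ?_
  filter_upwards [KerI_ae_ne ξ] with t ht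
  simp only [Pi.add_apply, Real.norm_eq_abs, abs_mul, abs_of_pos (exp_pos _),
    abs_of_nonneg (l0_nonneg _)]
  have h2 : exp (b * (t - ξ)) = exp (-b * ξ) * exp (b * t) := by
    rw [← exp_add]; congr 1; ring
  refine (mul_le_mul_of_nonneg_left (hb _ ht) (abs_nonneg _)).trans_eq ?_
  rw [h2]
  ring

theorem KerI_max {b : ℝ} (h0 : 0 < b) (s : ℝ) : max s 0 ≤ b⁻¹ * exp (b * s) := by
  refine max_le ?_ (by positivity)
  rw [le_inv_mul_iff₀ h0]
  linarith [add_one_le_exp (b * s)]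

theorem KerI_lg {s : ℝ} (hs : s ≠ 0) (φ : ℝ) : |lg s φ| ≤ max s 0 + l0 s := by
  have h1 := abs_le.1 (abs_lg_sub_le hs φ)
  have h2 := le_max_right s 0
  rw [abs_le]
  constructor <;> linarith only [h1, h2, h1.1, h1.2]

theorem KerI_meas_lg (φ : ℝ) : Measurable fun s => lg s φ :=
  measurable_lg.comp (measurable_id.prodMk measurable_const)

theorem KerI_meas_nk (φ : ℝ) : Measurable fun s => nk s φ :=
  (KerI_meas_lg φ).add (by fun_prop)

theorem KerI_meas_Nh (lam φ : ℝ) : Measurable fun s => Nh lam s φ :=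
  (KerI_meas_lg (2 * lam * φ)).comp (by fun_prop)

theorem KerI_env (s : ℝ) : env s ≤ 2 * exp (1 * s) + l0 s := by
  have h0 := l0_nonneg s
  have h1 := exp_pos s
  rw [one_mul]
  unfold env
  split_ifs with h
  · have : exp s ≤ 1 := exp_le_one_iff.2 h.le
    linarith only [h1, h0, this, mul_nonneg_of_nonpos_of_nonpos (Mathlib.Tactic.Linarith.sub_nonpos_of_le h0) (Mathlib.Tactic.Linarith.sub_nonpos_of_le this)]
  · linarith [add_one_le_exp s]

theorem Wt.int_exp {lam : ℝ} {ρ : ℝ → ℝ} (h : Wt lam ρ) (hl : 1 < lam) :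
    Integrable fun t => ρ t * exp t := by
  simpa using KerI_wt_exp h one_pos hl

theorem Wt.int_lg {lam : ℝ} {ρ : ℝ → ℝ} (h : Wt lam ρ) (hl : 0 < lam) (ξ φ : ℝ) :
    Integrable fun t => ρ t * lg (t - ξ) φ :=
  KerI_wt (b := lam / 2) (K := (lam / 2)⁻¹) (f := fun s => lg s φ) h (by linarith only [hl]) (by linarith) ξ
    (KerI_meas_lg φ) fun s hs => (KerI_lg hs φ).trans (by
      linarith only [hl, KerI_max (b := lam / 2) (by linarith) s])

theorem Wt.int_nk {lam : ℝ} {ρ : ℝ → ℝ} (h : Wt lam ρ) (hl : 1 < lam) (ξ φ : ℝ) :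
    Integrable fun t => ρ t * nk (t - ξ) φ :=
  KerI_wt (K := 2) (f := fun s => nk s φ) h one_pos hl ξ (KerI_meas_nk φ)
    fun s hs => (abs_nk_le hs φ).trans (KerI_env s)

theorem Wt.int_Nh {lam : ℝ} {ρ : ℝ → ℝ} (h : Wt lam ρ) (hl : 1 < lam) (ξ φ : ℝ) :
    Integrable fun t => ρ t * Nh lam (t - ξ) φ := by
  refine KerI_wt (K := 2 * lam) (f := fun s => Nh lam s φ) h one_pos hl ξ (KerI_meas_Nh lam φ)
    fun s hs => ?_
  have h1 := KerI_lg (s := 2 * lam * s) (mul_ne_zero (by positivity) hs) (2 * lam * φ)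
  have h2 := KerA_anti hl.le hs
  have h3 : max (2 * lam * s) 0 ≤ 2 * lam * exp (1 * s) := by
    refine max_le (mul_le_mul_of_nonneg_left ?_ (by positivity)) (by positivity)
    rw [one_mul]
    linarith [add_one_le_exp s]
  unfold Nh
  linarith

theorem Wt.int_env {lam : ℝ} {ρ : ℝ → ℝ} (h : Wt lam ρ) (hl : 1 < lam) (ξ : ℝ) :
    Integrable fun t => ρ t * env (t - ξ) :=
  KerI_wt (K := 2) h one_pos hl ξ measurable_env
    fun s _ => (abs_of_nonneg (env_nonneg s)).trans_le (KerI_env s)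

theorem Wt.int_U {lam : ℝ} {ρ : ℝ → ℝ} (h : Wt lam ρ) (hl : 1 < lam) (Z : Cfg) (θ : ℝ) :
    Integrable fun t => ρ t * Z.U t θ := by
  have h1 := ((h.int_exp hl).mul_const (Z.c * Complex.exp (θ * Complex.I)).re).add
    (integrable_finsetSum Z.s fun a _ => h.int_nk hl (Z.ξ a) (θ - Z.η a))
  refine h1.congr (Eventually.of_forall fun t => ?_)
  have h2 : (Z.c * Complex.exp (t + θ * Complex.I)).re =
      exp t * (Z.c * Complex.exp (θ * Complex.I)).re := by
    rw [Complex.exp_add, mul_left_comm, ← Complex.ofReal_exp, Complex.re_ofReal_mul]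
  simp only [Pi.add_apply, Cfg.U, h2, mul_add, Finset.mul_sum, mul_assoc]

theorem Wt.int_D {lam : ℝ} {ρ : ℝ → ℝ} (h : Wt lam ρ) (hl : 1 < lam) (Z : Cfg) (θ : ℝ) :
    Integrable fun t => ρ t * Z.D lam t θ := by
  refine ((h.int_U hl Z (θ + π / lam)).sub (h.int_U hl Z (θ - π / lam))).congr
    (Eventually.of_forall fun t => ?_)
  simp only [Pi.sub_apply, Cfg.D, Dop, mul_sub]

theorem Wt.int_P {lam : ℝ} {ρ : ℝ → ℝ} (h : Wt lam ρ) (hl : 1 < lam) (Z : Cfg) (V : Finset ℕ)
    (θ : ℝ) : Integrable fun t => ρ t * Z.P lam V t θ := by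
  have h1 := ((((h.int_U hl Z θ).const_mul 2).add (h.int_U hl Z (θ + π / lam))).add
    (h.int_U hl Z (θ - π / lam))).sub ((integrable_finsetSum V fun a _ =>
      (h.int_Nh hl (Z.ξ a) (θ - Z.η a)).sub (h.int_Nh hl (Z.ξ a) 0)).const_mul 2)
  refine h1.congr (Eventually.of_forall fun t => ?_)
  simp only [Pi.add_apply, Pi.sub_apply, Cfg.P, Cfg.gap, Sop, ← mul_sub, ← Finset.mul_sum]
  ring

theorem KerI_shift {lam : ℝ} {f : ℝ → ℝ} (h : Integrable fun s => exp (-lam * s) * f s) (ξ : ℝ) :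
    Integrable fun t => exp (-lam * t) * f (t - ξ) := by
  refine ((h.comp_sub_right ξ).const_mul (exp (-lam * ξ))).congr (Eventually.of_forall fun t => ?_)
  simp only
  rw [← mul_assoc, ← exp_add]
  congr 2
  ring

theorem int_exp_env {lam : ℝ} (h1 : 1 < lam) (h2 : lam < 2) (ξ : ℝ) :
    Integrable fun t => exp (-lam * t) * env (t - ξ) := by
  refine KerI_shift ?_ ξ
  refine ((integrable_l0_exp (a := lam - 1) (by linarith)).add
    ((KerI_exp (c := lam - 1) (by linarith)).const_mul 2)).mono'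
    (Measurable.mul (by fun_prop) measurable_env).aestronglyMeasurable
    (Eventually.of_forall fun s => ?_)
  have h0 := l0_nonneg s
  have h3 := env_nonneg s
  rw [Real.norm_eq_abs, abs_of_nonneg (by positivity), Pi.add_apply]
  by_cases hs : s < 0
  · have h4 : exp (-lam * s) * exp s = exp ((lam - 1) * |s|) := by
      rw [← exp_add, abs_of_neg hs]; congr 1; ring
    simp only [env, if_pos hs]
    rw [← mul_assoc, h4]
    linarith only [exp_pos (-(lam - 1) * |s|)]
  · have hs' := not_lt.1 hs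
    have h4 : exp (-lam * s) * exp (1 * s) = exp (-(lam - 1) * |s|) := by
      rw [← exp_add, abs_of_nonneg hs']; congr 1; ring
    have h5 : exp (-lam * s) ≤ exp ((lam - 1) * |s|) := by
      rw [abs_of_nonneg hs']; exact exp_le_exp.2 (by linarith only [hs, h1, mul_nonneg_of_nonpos_of_nonpos (le_of_lt (Mathlib.Tactic.Linarith.sub_neg_of_lt h1)) (Mathlib.Tactic.Linarith.sub_nonpos_of_le (le_of_not_gt hs))])
    refine (mul_le_mul_of_nonneg_left (KerI_env s) (exp_pos _).le).trans ?_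
    rw [← h4]
    (refine le_of_not_gt fun h_nl => ?_; linarith only [h_nl, h1, h2, h0, h5, mul_pos_of_neg_of_neg (Mathlib.Tactic.Linarith.sub_neg_of_lt h1) (Mathlib.Tactic.Linarith.sub_neg_of_lt h_nl), mul_pos_of_neg_of_neg (Mathlib.Tactic.Linarith.sub_neg_of_lt h2) (Mathlib.Tactic.Linarith.sub_neg_of_lt h_nl), mul_nonneg_of_nonpos_of_nonpos (Mathlib.Tactic.Linarith.sub_nonpos_of_le h0) (Mathlib.Tactic.Linarith.sub_nonpos_of_le h5)])

theorem int_exp_nk {lam : ℝ} (h1 : 1 < lam) (h2 : lam < 2) (ξ φ : ℝ) :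
    Integrable fun t => exp (-lam * t) * nk (t - ξ) φ := by
  refine (int_exp_env h1 h2 ξ).mono' (Measurable.mul (by fun_prop)
    ((KerI_meas_nk φ).comp (by fun_prop))).aestronglyMeasurable ?_
  filter_upwards [KerI_ae_ne ξ] with t ht
  rw [Real.norm_eq_abs, abs_mul, abs_of_pos (exp_pos _)]
  exact mul_le_mul_of_nonneg_left (abs_nk_le ht φ) (exp_pos _).le

theorem int_exp_Nh {lam : ℝ} (h1 : 0 < lam) (ξ φ : ℝ) :
    Integrable fun t => exp (-lam * t) * Nh lam (t - ξ) φ := by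
  refine KerI_shift (f := fun s => Nh lam s φ) ?_ ξ
  refine (((integrable_l0_exp (a := 1 / 2) (by norm_num)).comp_mul_left' (R := 2 * lam)
    (by positivity)).add ((KerI_exp (c := lam / 2) (by linarith only [h1])).const_mul 4)).mono'
    (Measurable.mul (by fun_prop) (KerI_meas_Nh lam φ)).aestronglyMeasurable ?_
  filter_upwards [Measure.ae_ne volume 0] with s hs
  have h2 := KerI_lg (s := 2 * lam * s) (mul_ne_zero (by positivity) hs) (2 * lam * φ)
  have h3 := l0_nonneg (2 * lam * s)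
  have h4 : exp (-lam * s) ≤ exp (1 / 2 * |2 * lam * s|) :=
    exp_le_exp.2 (by linarith only [neg_abs_le (2 * lam * s)])
  have h5 : exp (-lam * s) * max (2 * lam * s) 0 ≤ 4 * exp (-(lam / 2) * |s|) := by
    rcases le_total s 0 with h | h
    · rw [max_eq_right (by linarith only [h1, h, mul_nonneg_of_nonpos_of_nonpos (le_of_lt (Mathlib.Tactic.Linarith.sub_neg_of_lt h1)) (Mathlib.Tactic.Linarith.sub_nonpos_of_le h)]), mul_zero]; positivity
    · have h6 : exp (-(lam / 2) * |s|) = exp (-lam * s) * exp (lam / 2 * s) := by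
        rw [← exp_add, abs_of_nonneg h]; congr 1; ring
      rw [max_eq_left (by positivity), h6]
      linarith only [add_one_le_exp (lam / 2 * s), exp_pos (-lam * s), mul_nonneg_of_nonpos_of_nonpos (Mathlib.Tactic.Linarith.sub_nonpos_of_le (add_one_le_exp (lam / (2 : ℝ) * s))) (le_of_lt (Mathlib.Tactic.Linarith.sub_neg_of_lt (exp_pos (-lam * s))))]
  rw [Real.norm_eq_abs, abs_mul, abs_of_pos (exp_pos _), Pi.add_apply]
  refine (mul_le_mul_of_nonneg_left h2 (exp_pos _).le).trans ?_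
  linarith only [h5, h3, h4, mul_nonneg_of_nonpos_of_nonpos (Mathlib.Tactic.Linarith.sub_nonpos_of_le h3) (Mathlib.Tactic.Linarith.sub_nonpos_of_le h4)]

theorem Cfg.ae_reg (Z : Cfg) : ∀ᵐ x, Z.Reg x := by
  refine (eventually_all_finset Z.s).2 fun a _ => ?_
  filter_upwards [Measure.ae_ne volume (Z.ξ a)] with x hx using hx.symm

theorem KerI_Ioc (Z : Cfg) (θ a b : ℝ) : IntegrableOn (fun t => Z.U t θ) (Ioc a b) := by
  have hw : Wt 2 ((Ioc a b).indicator fun _ => (1 : ℝ)) := by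
    refine ⟨measurable_const.indicator measurableSet_Ioc, exp (2 * max b 0), fun t => ?_⟩
    by_cases ht : t ∈ Ioc a b
    · rw [indicator_of_mem ht, abs_one, ← exp_add]
      exact one_le_exp (by linarith only [ht, max_le_max ht.2 (le_refl (0 : ℝ))])
    · rw [indicator_of_notMem ht, abs_zero]; positivity
  rw [← integrable_indicator_iff measurableSet_Ioc]
  refine (hw.int_U one_lt_two Z θ).congr (Eventually.of_forall fun t => ?_)
  by_cases ht : t ∈ Ioc a b <;> simp [ht]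

theorem Cfg.intervalIntegrable_U (Z : Cfg) (θ a b : ℝ) :
    IntervalIntegrable (fun t => Z.U t θ) volume a b :=
  ⟨KerI_Ioc Z θ a b, KerI_Ioc Z θ b a⟩

end

end Pool.Agent.MinMod
end

-- merged part: Pool.Agent.Work.MP_f62247_an.KerK
section
/-!
# The kernel `Kp`

`Kp' s = -e^(-s) kap s` for `s ≠ 0` (`kap s = log |1 - e^s| + log (1 + e^s)`); `Kp` is continuous
(`(e^(-s) - 1) log |1 - e^s| = e^(-s) (x log x)`, `x = 1 - e^s`, `Real.continuous_mul_log`, `Real.log_abs`).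
Numerically `e^s Kp s / w0 s` lies in `[1, 2]`.  With `u = e^s`: `e^s Kp s = (1-u) log |1-u| + (1+u) log (1+u)`; this is
convex and even in `u`, `≥ u²` and `≤ 2 u²` for `0 ≤ u ≤ 1`; for `u ≥ 1` its derivative `log ((u+1)/(u-1))` lies
between `2/u` and `2/u + (integrable)`; any proof with unspecified constants is fine.
`KL_ge`: by parts, `∫_{s0}^∞ e^(-e s) (-Kp') = e^(-e s0) Kp s0 - e ∫ e^(-e s) Kp ≥ e^(-e s0) (Kp s0 - e ∫_{s0}^∞ Kp)`,
`e = lam - 1`; for `s0 ≥ 0` use `Kp_tail_right`, for `-R ≤ s0 ≤ 0` use `Kp_total` and the lower bound of `Kp`.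
-/

open Real MeasureTheory Set Filter Topology

namespace Pool.Agent.MinMod

noncomputable section

theorem KerK_eq (s : ℝ) : Kp s = exp (-s) *
    ((1 - exp s) * Real.log (1 - exp s) + (1 + exp s) * Real.log (1 + exp s)) := by
  have h : exp (-s) * exp s = 1 := by rw [← exp_add, neg_add_cancel, exp_zero]
  rw [Kp, log_abs]
  linear_combination (Real.log (1 - exp s) - Real.log (1 + exp s)) * h

theorem KerK_up {u : ℝ} (h : 0 ≤ u) : u * Real.log u ≤ u * (u - 1) := by
  rcases h.eq_or_lt with rfl | h1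
  · simp
  · exact mul_le_mul_of_nonneg_left (log_le_sub_one_of_pos h1) h

theorem KerK_neg {s : ℝ} (hs : s ≤ 0) : exp s / 3 ≤ Kp s ∧ Kp s ≤ 2 * exp s := by
  have h0 := exp_pos s
  have h1 : exp s ≤ 1 := exp_le_one_iff.2 hs
  have h : exp (-s) * exp s = 1 := by rw [← exp_add, neg_add_cancel, exp_zero]
  have h2 := self_sub_one_le_mul_log (x := 1 - exp s) (by linarith)
  have h3 := KerK_up (u := 1 - exp s) (by linarith)
  have h4 := KerK_up (u := 1 + exp s) (by linarith)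
  have h5 := le_log_one_add_of_nonneg h0.le
  rw [div_le_iff₀ (by linarith only [h0])] at h5
  have h6 : exp s + exp s ^ 2 / 3 ≤ (1 + exp s) * Real.log (1 + exp s) := by
    refine le_of_mul_le_mul_right ?_ (by linarith : 0 < exp s + 2)
    have h7 := mul_le_mul_of_nonneg_left h5 (by linarith : 0 ≤ 1 + exp s)
    have h8 := mul_nonneg (sq_nonneg (exp s)) (sub_nonneg.2 h1)
    linarith only [h7, h8]
  have h9 := exp_pos (-s)
  rw [KerK_eq]
  constructor
  · calc exp s / 3 = exp (-s) * (exp s ^ 2 / 3) := by linear_combination -(exp s / 3) * h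
      _ ≤ _ := mul_le_mul_of_nonneg_left (by linarith only [h2, h6]) h9.le
  · calc _ ≤ exp (-s) * (2 * exp s ^ 2) := mul_le_mul_of_nonneg_left (by linarith only [h3, h4]) h9.le
      _ = 2 * exp s := by linear_combination 2 * exp s * h

theorem KerK_pos {s : ℝ} (hs : 0 ≤ s) :
    exp (-s) * (1 + s) ≤ Kp s ∧ Kp s ≤ 3 * (exp (-s) * (1 + s)) := by
  have h0 := exp_pos (-s)
  have h1 : exp (-s) ≤ 1 := exp_le_one_iff.2 (neg_nonpos.2 hs)
  have h : exp (-s) * exp s = 1 := by rw [← exp_add, neg_add_cancel, exp_zero]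
  have e1 : Real.log (1 + exp s) = s + Real.log (1 + exp (-s)) := by
    rw [show 1 + exp s = exp s * (1 + exp (-s)) by linear_combination -h,
      Real.log_mul (exp_pos s).ne' (by linarith), log_exp]
  have e2 : (exp (-s) - 1) * Real.log |1 - exp s| =
      (exp (-s) - 1) * (s + Real.log (1 - exp (-s))) := by
    rcases h1.eq_or_lt with h2 | h2
    · rw [h2, sub_self, zero_mul, zero_mul]
    · rw [abs_sub_comm, log_abs, show exp s - 1 = exp s * (1 - exp (-s)) by linear_combination h,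
        Real.log_mul (exp_pos s).ne' (by linarith), log_exp]
  have h2 := self_sub_one_le_mul_log (x := 1 - exp (-s)) (by linarith)
  have h3 := mul_log_nonpos (x := 1 - exp (-s)) (by linarith) (by linarith)
  have h4 := KerK_up (u := 1 + exp (-s)) (by linarith)
  have h5 := self_sub_one_le_mul_log (x := 1 + exp (-s)) (by linarith)
  have h6 := mul_nonneg h0.le hs
  have h7 := mul_nonneg h0.le (sub_nonneg.2 h1)
  rw [Kp, e1, e2]
  constructor <;> linarith only [h3, h5, h6, h2, h4, h7]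

theorem KerK_kap {s : ℝ} (hs : s ≠ 0) : kap s = Real.log (1 - exp s) + Real.log (1 + exp s) := by
  have h1 : 1 - exp s ≠ 0 := sub_ne_zero.2 fun h => hs (exp_eq_one_iff s |>.1 h.symm)
  have h2 : 1 + exp s ≠ 0 := by positivity
  have h3 : 1 - 2 * exp (2 * s) * 1 + exp (2 * (2 * s)) = ((1 - exp s) * (1 + exp s)) ^ 2 := by
    rw [KerA_two (2 * s), KerA_two s]
    ring
  rw [kap, lg_eq, cos_zero, h3, Real.log_pow, Real.log_mul h1 h2]
  push_cast
  ring

theorem KerK_deriv {s : ℝ} (hs : s ≠ 0) : HasDerivAt Kp (-(exp (-s) * kap s)) s := by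
  have h1 : 1 - exp s ≠ 0 := sub_ne_zero.2 fun h => hs (exp_eq_one_iff s |>.1 h.symm)
  have h2 : 1 + exp s ≠ 0 := by positivity
  have h3 := (exp_pos s).ne'
  have d0 : HasDerivAt (fun t => exp (-t)) (-exp (-s)) s := by
    simpa using (hasDerivAt_neg s).exp
  have d1 := ((hasDerivAt_exp s).const_sub 1).log h1
  have d2 := ((hasDerivAt_exp s).const_add 1).log h2
  have e : Kp = fun t => (exp (-t) - 1) * Real.log (1 - exp t) +
      (exp (-t) + 1) * Real.log (1 + exp t) := funext fun t => by rw [Kp, log_abs]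
  rw [e]
  refine (((d0.sub_const 1).mul d1).add ((d0.add_const 1).mul d2)).congr_deriv ?_
  rw [KerK_kap hs, exp_neg]
  field_simp
  ring

theorem continuous_Kp : Continuous Kp := by
  rw [funext KerK_eq]
  exact (continuous_exp.comp continuous_neg).mul
    ((continuous_mul_log.comp (continuous_const.sub continuous_exp)).add
      (continuous_mul_log.comp (continuous_const.add continuous_exp)))

theorem Kp_bounds : ∃ C : ℝ, 1 ≤ C ∧ ∀ s, w0 s ≤ C * (exp s * Kp s) ∧ exp s * Kp s ≤ C * w0 s := by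
  refine ⟨3, by norm_num, fun s => ?_⟩
  have h0 := exp_pos s
  rcases le_total s 0 with hs | hs
  · have h1 := mul_le_mul_of_nonneg_left (KerK_neg hs).1 h0.le
    have h2 := mul_le_mul_of_nonneg_left (KerK_neg hs).2 h0.le
    have h3 := sq_nonneg (exp s)
    rw [w0_of_nonpos hs, KerA_two]
    constructor <;> linarith only [h1, h2]
  · have h1 := mul_le_mul_of_nonneg_left (KerK_pos hs).1 h0.le
    have h2 := mul_le_mul_of_nonneg_left (KerK_pos hs).2 h0.le
    have h3 : exp s * (exp (-s) * (1 + s)) = 1 + s := by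
      rw [← mul_assoc, ← exp_add, add_neg_cancel, exp_zero, one_mul]
    rw [w0_of_nonneg hs]
    constructor <;> linarith only [hs, h1, h3, h2]

theorem Kp_nonneg (s : ℝ) : 0 ≤ Kp s := by
  rcases le_total s 0 with hs | hs
  · exact le_trans (by positivity) (KerK_neg hs).1
  · exact le_trans (by positivity) (KerK_pos hs).1

theorem intervalIntegrable_kap (a b : ℝ) :
    IntervalIntegrable (fun s => exp (-s) * kap s) volume a b := by
  have h1 : Measurable kap :=
    measurable_lg.comp (f := fun s : ℝ => (2 * s, (0 : ℝ))) (by fun_prop)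
  have h2 : Continuous fun s : ℝ => max (2 * s) 0 := by fun_prop
  have h3 : Integrable fun s => kap s - max (2 * s) 0 := by
    refine integrable_l0.mono' (h1.sub h2.measurable).aestronglyMeasurable ?_
    filter_upwards [Measure.ae_ne volume 0] with s hs
    refine (abs_lg_sub_le (mul_ne_zero two_ne_zero hs) 0).trans (l0_anti hs ?_)
    rw [abs_mul, abs_two]
    linarith [abs_nonneg s]
  have h4 := h3.intervalIntegrable.add (h2.intervalIntegrable (μ := volume) a b)
  simp only [sub_add_cancel] at h4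
  exact h4.continuousOn_mul (by fun_prop)

theorem Kp_sub (a b : ℝ) : Kp b - Kp a = -∫ s in a..b, exp (-s) * kap s := by
  rw [← intervalIntegral.integral_neg]
  exact (integral_eq_of_hasDerivAt_off_countable _ _ (countable_singleton 0)
    continuous_Kp.continuousOn (fun x hx => KerK_deriv hx.2) (intervalIntegrable_kap a b).neg).symm

theorem Kp_tail_right : ∃ C : ℝ, 1 ≤ C ∧ ∀ s s' : ℝ, 0 ≤ s → s ≤ s' →
    ∫ t in s..s', Kp t ≤ C * Kp s := by
  refine ⟨6, by norm_num, fun s s' hs h => ?_⟩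
  have h1 : ∫ t in s..s', 3 * (exp (-t) * (1 + t)) =
      -3 * (exp (-s') * (2 + s')) - -3 * (exp (-s) * (2 + s)) := by
    refine intervalIntegral.integral_eq_sub_of_hasDerivAt
      (f := fun t => -3 * (exp (-t) * (2 + t))) (fun t _ => ?_)
      (Continuous.intervalIntegrable (by fun_prop) _ _)
    refine (((hasDerivAt_neg t).exp.mul ((hasDerivAt_id' t).const_add 2)).const_mul
      (-3)).congr_deriv ?_
    ring
  have h2 := intervalIntegral.integral_mono_on h (continuous_Kp.intervalIntegrable s s')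
    (Continuous.intervalIntegrable (μ := volume) (u := fun t => 3 * (exp (-t) * (1 + t)))
      (by fun_prop) _ _) fun t ht => (KerK_pos (hs.trans ht.1)).2
  have h3 := (KerK_pos hs).1
  have h4 := mul_nonneg (exp_pos (-s)).le hs
  have h5 := mul_nonneg (exp_pos (-s')).le (by linarith : 0 ≤ 2 + s')
  linarith

theorem Kp_tail_left : ∃ C : ℝ, 1 ≤ C ∧ ∀ s s' : ℝ, s ≤ 0 → s' ≤ s →
    ∫ t in s'..s, Kp t ≤ C * Kp s := by
  refine ⟨6, by norm_num, fun s s' hs h => ?_⟩
  have h2 := intervalIntegral.integral_mono_on h (continuous_Kp.intervalIntegrable s' s)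
    (Continuous.intervalIntegrable (μ := volume) (u := fun t => 2 * exp t) (by fun_prop) _ _)
    fun t ht => (KerK_neg (ht.2.trans hs)).2
  rw [intervalIntegral.integral_const_mul, integral_exp] at h2
  linarith only [h2, hs, (KerK_neg hs).1, exp_pos s']

theorem Kp_total : ∃ C : ℝ, 1 ≤ C ∧ ∀ a b : ℝ, a ≤ b → ∫ t in a..b, Kp t ≤ C := by
  obtain ⟨C, -, h1⟩ := Kp_tail_right
  obtain ⟨C', -, h2⟩ := Kp_tail_left
  refine ⟨max 1 (C' * Kp 0 + C * Kp 0), le_max_left _ _, fun a b h => ?_⟩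
  refine (intervalIntegral.integral_mono_interval (min_le_left a 0) h (le_max_left b 0)
    (Eventually.of_forall Kp_nonneg) (continuous_Kp.intervalIntegrable _ _)).trans ?_
  rw [← intervalIntegral.integral_add_adjacent_intervals (b := 0)
    (continuous_Kp.intervalIntegrable _ _) (continuous_Kp.intervalIntegrable _ _)]
  exact (add_le_add (h2 _ _ le_rfl (min_le_right _ _)) (h1 _ _ le_rfl (le_max_right _ _))).trans
    (le_max_right _ _)

theorem KerK_tail (R : ℝ) : ∃ D : ℝ, 0 < D ∧ ∀ s s' : ℝ, -R ≤ s → s ≤ s' →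
    ∫ t in s..s', Kp t ≤ D * Kp s := by
  obtain ⟨C, h1, h2⟩ := Kp_tail_right
  obtain ⟨C', h3, h4⟩ := Kp_total
  have h5 : 0 < C' * (3 * exp R) := by positivity
  refine ⟨C + C' * (3 * exp R), by linarith, fun s s' hs h => ?_⟩
  have h6 := Kp_nonneg s
  rw [add_mul]
  rcases le_total s 0 with h7 | h7
  · have h8 : 1 ≤ exp R * exp s := by
      rw [← exp_add]
      exact one_le_exp (by linarith)
    have h9 := mul_le_mul_of_nonneg_left (KerK_neg h7).1 (exp_pos R).le
    have h10 := mul_le_mul_of_nonneg_left (show 1 ≤ 3 * exp R * Kp s by linarith only [h8, h9])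
      (show 0 ≤ C' by linarith only [h3])
    have h11 := mul_nonneg (show 0 ≤ C by linarith only [h1]) h6
    linarith only [h10, h11, h4, h, h4 s s' h]
  · linarith [h2 s s' h7 h, mul_nonneg h5.le h6]

theorem KerK_int {lam : ℝ} (h : 0 < lam) (s0 : ℝ) :
    IntegrableOn (fun s => exp (-lam * s) * kap s) (Ioi s0) := by
  have h1 := ((wt_Ioi h.le s0).int_lg h 0 0).add ((wt_Ioi h.le s0).int_lg h 0 (0 + π))
  rw [← integrable_indicator_iff measurableSet_Ioi]
  refine h1.congr ?_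
  filter_upwards [Measure.ae_ne volume 0] with s hs
  rw [Pi.add_apply, sub_zero, ← mul_add, lg_add_pi hs, mul_zero, indicator_mul_left]
  rfl

theorem KerK_parts {e a b : ℝ} (he : 0 ≤ e) (h : a ≤ b) :
    exp (-e * a) * (Kp a - e * ∫ t in a..b, Kp t) - exp (-e * b) * Kp b ≤
      ∫ s in a..b, exp (-(1 + e) * s) * kap s := by
  have e1 : ∀ s, exp (-(1 + e) * s) * kap s = exp (-e * s) * (exp (-s) * kap s) := fun s => by
    rw [← mul_assoc, ← exp_add]
    congr 2
    ring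
  have c0 : Continuous fun s => exp (-e * s) := by fun_prop
  have i1 : IntervalIntegrable (fun s => exp (-e * s) * (exp (-s) * kap s)) volume a b :=
    (intervalIntegrable_kap a b).continuousOn_mul c0.continuousOn
  have i2 : IntervalIntegrable (fun s => e * (exp (-e * s) * Kp s)) volume a b :=
    (continuous_const.mul (c0.mul continuous_Kp)).intervalIntegrable a b
  have h1 := integral_eq_of_hasDerivAt_off_countable (fun s => -(exp (-e * s) * Kp s)) _
    (countable_singleton 0) (c0.mul continuous_Kp).neg.continuousOn (fun x hx => by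
      refine (((hasDerivAt_id' x).const_mul (-e)).exp.mul (KerK_deriv hx.2)).neg.congr_deriv ?_
      ring) (i1.add i2)
  have c1 : Continuous fun s => e * exp (-e * a) * Kp s := continuous_const.mul continuous_Kp
  have h2 := intervalIntegral.integral_mono_on h i2 (c1.intervalIntegrable a b) fun t ht => by
      rw [mul_assoc]
      refine mul_le_mul_of_nonneg_left (mul_le_mul_of_nonneg_right (exp_le_exp.2 ?_)
        (Kp_nonneg t)) he
      linarith [mul_le_mul_of_nonneg_left ht.1 he]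
  rw [intervalIntegral.integral_add i1 i2] at h1
  rw [intervalIntegral.integral_const_mul (e * _)] at h2
  simp only [e1]
  linarith

theorem KL_ge (R : ℝ) : ∃ c e0 : ℝ, 0 < c ∧ 0 < e0 ∧ ∀ lam s0 : ℝ, 1 < lam → lam ≤ 1 + e0 →
    -R ≤ s0 → IntegrableOn (fun s => exp (-lam * s) * kap s) (Ioi s0) ∧
      c * (exp (-lam * s0) * w0 s0) ≤ ∫ s in Ioi s0, exp (-lam * s) * kap s := by
  obtain ⟨C, hC, h1⟩ := Kp_bounds
  obtain ⟨D, hD, h2⟩ := KerK_tail R
  refine ⟨1 / (2 * C), 1 / (2 * D), by positivity, by positivity, fun lam s0 h3 h4 h5 =>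
    ⟨KerK_int (by linarith only [h3]) s0, ?_⟩⟩
  obtain ⟨e, rfl⟩ : ∃ e, lam = 1 + e := ⟨lam - 1, by ring⟩
  have he : 0 ≤ e := by linarith
  have h6 : e * D ≤ 1 / 2 := by
    have h7 : e ≤ 1 / (2 * D) := by linarith only [h4]
    rw [le_div_iff₀ (by positivity)] at h7
    linarith only [h7]
  have h7 : 1 / (2 * C) * (exp (-(1 + e) * s0) * w0 s0) ≤ exp (-e * s0) * (Kp s0 / 2) := by
    have h8 : exp (-e * s0) = exp (-(1 + e) * s0) * exp s0 := by
      rw [← exp_add]
      congr 1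
      ring
    have h9 := mul_le_mul_of_nonneg_left (h1 s0).1 (exp_pos (-(1 + e) * s0)).le
    rw [h8, one_div, inv_mul_le_iff₀ (by positivity)]
    linarith only [h9]
  have h8 : Tendsto (fun b : ℝ => exp (-e * s0) * (Kp s0 / 2) - 3 * (exp (-b) * (1 + b))) atTop
      (𝓝 (exp (-e * s0) * (Kp s0 / 2))) := by
    have h9 := (tendsto_exp_neg_atTop_nhds_zero.add
      (tendsto_pow_mul_exp_neg_atTop_nhds_zero 1)).const_mul 3 |>.const_sub
      (exp (-e * s0) * (Kp s0 / 2))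
    simp only [add_zero, mul_zero, sub_zero] at h9
    exact h9.congr fun b => by ring
  refine h7.trans (le_of_tendsto_of_tendsto h8
    (intervalIntegral_tendsto_integral_Ioi s0 (KerK_int (by linarith only [h3]) s0) tendsto_id) ?_)
  filter_upwards [eventually_ge_atTop s0, eventually_ge_atTop 0] with b hb hb'
  refine le_trans (sub_le_sub (mul_le_mul_of_nonneg_left ?_ (exp_pos _).le) ?_)
    (KerK_parts (b := b) he hb)
  · have h9 := mul_le_mul_of_nonneg_left (h2 s0 b h5 hb) he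
    have h10 := mul_le_mul_of_nonneg_right h6 (Kp_nonneg s0)
    linarith only [h9, h10]
  · refine le_trans (mul_le_of_le_one_left (Kp_nonneg b) (exp_le_one_iff.2 ?_)) (KerK_pos hb').2
    linarith only [he, hb', mul_nonneg he hb']

end

end Pool.Agent.MinMod
end
end

-- merged part: Pool.Agent.Work.MP_f62247_an.Red
section
-- merged part: Pool.Agent.Work.MP_f62247_an.Bf
section
/-!
# The logarithm of the maximum modulus of a configuration

`‖F (x + iθ)‖` is continuous and periodic in `θ`, so the supremum is attained; it is positive (all but countably many `θ` are not zeros).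
* `B_convex`: Hadamard three lines (`Complex.HadamardThreeLines.norm_le_interp_of_mem_verticalClosedStrip'`), `F` is entire and bounded on
  vertical strips.
* `sum_le_B`: `∫_0^{2π} lg s (θ - η) dθ = 2π max s 0` for every `s` (`circleAverage_log_norm_sub_const_eq_posLog`), the
  trigonometric terms have mean zero, `ae_U_le_B`.
* `B_mono`: a convex function bounded above near `-∞` (`B_le` type bound: `B x ≤ ‖c‖ e^x + ∑ e^(2(x-ξ))/2`) is monotone.
* `B_le`: bound `‖F‖` factor by factor (at a zero there is nothing to prove): `U_split`, `lg_le`, `nk_le`.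
* `B_ge`: average `U x ·` over an interval `I` of length `2t` centred where `Re (cc y e^(iθ)) = ‖cc y‖`;
  `∫_I lg = 2π s₊ - ∫_{rest} lg ≥ 2t s₊ - 2π log 2`; for `s ≤ -1` use `abs_nk_le`, `l0_le`.
-/

open Real MeasureTheory Set Filter Topology

namespace Pool.Agent.MinMod

noncomputable section

theorem Bf_re_exp (s φ : ℝ) : (Complex.exp (s + φ * Complex.I)).re = exp s * cos φ := by
  simp [Complex.exp_re]

theorem Bf_norm_exp (s φ : ℝ) : ‖Complex.exp (s + φ * Complex.I)‖ = exp s := by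
  simp [Complex.norm_exp]

theorem Bf_nk_le {s φ : ℝ} (h : Complex.exp (s + φ * Complex.I) ≠ 1) :
    nk s φ ≤ exp (2 * s) / 2 := by
  have h0 : 0 < ‖1 - Complex.exp (s + φ * Complex.I)‖ := norm_pos_iff.2 (sub_ne_zero.2 h.symm)
  have h1 : ‖1 - Complex.exp (s + φ * Complex.I)‖ ^ 2 = 1 - 2 * (exp s * cos φ) + exp (2 * s) := by
    rw [← Bf_re_exp, show 2 * s = s + s by ring, exp_add, ← Bf_norm_exp s φ, ← sq,
      Complex.sq_norm, Complex.sq_norm, Complex.normSq_sub]
    simp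
    ring
  have h2 := Real.log_le_sub_one_of_pos (pow_pos h0 2)
  rw [Real.log_pow, h1] at h2
  unfold nk lg
  push_cast at h2
  linarith only [h2]

theorem Bf_lg_circ (s φ : ℝ) : lg s φ = Real.log ‖circleMap 0 1 φ - (exp s : ℂ)‖ := by
  rw [← lg_neg]
  unfold lg
  congr 1
  have h1 : ‖Complex.exp (φ * Complex.I)‖ = 1 := Complex.norm_exp_ofReal_mul_I φ
  have h2 : circleMap 0 1 φ - (exp s : ℂ) =
      Complex.exp (φ * Complex.I) * (1 - Complex.exp (s + (-φ : ℝ) * Complex.I)) := by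
    rw [mul_sub, ← Complex.exp_add, circleMap]
    push_cast
    rw [show (φ : ℂ) * Complex.I + (s + -φ * Complex.I) = s by ring]
    ring
  rw [h2, norm_mul, h1, one_mul]

theorem Bf_lg_periodic (s : ℝ) : Function.Periodic (lg s) (2 * π) := fun φ => by
  simpa using lg_per s φ 1

theorem Bf_ii_lg (s η a b : ℝ) : IntervalIntegrable (fun θ => lg s (θ - η)) volume a b := by
  have h : IntervalIntegrable (lg s) volume 0 (2 * π) := by
    have := circleIntegrable_log_norm_sub_const (a := (exp s : ℂ)) (c := 0) 1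
    rw [show lg s = _ from funext (Bf_lg_circ s)]
    exact this
  have := ((Bf_lg_periodic s).intervalIntegrable₀ two_pi_pos.ne' h (a - η) (b - η)).comp_sub_right η
  simpa using this

theorem Bf_int_lg (s η a : ℝ) : ∫ θ in a..a + 2 * π, lg s (θ - η) = 2 * π * max s 0 := by
  rw [intervalIntegral.integral_comp_sub_right (lg s), show a + 2 * π - η = a - η + 2 * π by ring,
    (Bf_lg_periodic s).intervalIntegral_add_eq _ 0, zero_add]
  have h := circleAverage_log_norm_sub_const_eq_posLog (a := (exp s : ℂ))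
  rw [circleAverage_def, smul_eq_mul, inv_mul_eq_iff_eq_mul₀ two_pi_pos.ne'] at h
  simp only [Bf_lg_circ]
  rw [h, Complex.norm_real, Real.norm_of_nonneg (exp_pos s).le, posLog_apply, log_exp, max_comm]

theorem Bf_ii_cos (r η a b : ℝ) : IntervalIntegrable (fun θ => r * cos (θ - η)) volume a b :=
  Continuous.intervalIntegrable (by fun_prop) _ _

theorem Bf_ii_nk (s η a b : ℝ) : IntervalIntegrable (fun θ => nk s (θ - η)) volume a b :=
  (Bf_ii_lg s η a b).add (Bf_ii_cos _ η a b)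

theorem Bf_int_cos (r η a : ℝ) : ∫ θ in a..a + 2 * π, r * cos (θ - η) = 0 := by
  rw [intervalIntegral.integral_const_mul, intervalIntegral.integral_comp_sub_right cos,
    integral_cos, show a + 2 * π - η = a - η + 2 * π by ring, sin_add_two_pi, sub_self, mul_zero]

theorem Bf_int_nk (s η a : ℝ) : ∫ θ in a..a + 2 * π, nk s (θ - η) = 2 * π * max s 0 := by
  unfold nk
  rw [intervalIntegral.integral_add (Bf_ii_lg s η _ _) (Bf_ii_cos _ η _ _), Bf_int_lg, Bf_int_cos,
    add_zero]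

theorem Bf_re_mul (c : ℂ) (x θ : ℝ) :
    (c * Complex.exp (x + θ * Complex.I)).re = ‖c‖ * exp x * cos (θ - -Complex.arg c) := by
  conv_lhs => rw [← Complex.norm_mul_exp_arg_mul_I c]
  rw [mul_assoc, ← Complex.exp_add, Complex.re_ofReal_mul, show (Complex.arg c : ℂ) * Complex.I +
    (x + θ * Complex.I) = x + ((θ - -Complex.arg c : ℝ) : ℂ) * Complex.I by push_cast; ring,
    Bf_re_exp, mul_assoc]

theorem Bf_lg_ge (s η a : ℝ) {t : ℝ} (h0 : 0 < t) (h1 : t ≤ 1) :
    -7 ≤ ∫ θ in a..a + 2 * t, lg s (θ - η) := by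
  have hπ := pi_gt_three
  have hπ' := pi_lt_d2
  have e := intervalIntegral.integral_add_adjacent_intervals (Bf_ii_lg s η a (a + 2 * t))
    (Bf_ii_lg s η (a + 2 * t) (a + 2 * π))
  rw [Bf_int_lg] at e
  have h2 := intervalIntegral.integral_mono_on (μ := volume) (a := a + 2 * t) (b := a + 2 * π)
    (g := fun _ => max s 0 + 1) (by linarith only [h1, hπ, hπ']) (Bf_ii_lg s η _ _) intervalIntegrable_const
    (fun θ _ => (lg_le s _).trans (by linarith only [hπ, hπ', log_two_lt_d9]))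
  rw [intervalIntegral.integral_const, smul_eq_mul] at h2
  have := le_max_right s 0
  linarith only [hπ, hπ', e, h2, h0, this, mul_pos_of_neg_of_neg (Mathlib.Tactic.Linarith.sub_neg_of_lt h0) (Mathlib.Tactic.Linarith.sub_neg_of_lt hπ), mul_pos_of_neg_of_neg (Mathlib.Tactic.Linarith.sub_neg_of_lt h0) (Mathlib.Tactic.Linarith.sub_neg_of_lt hπ'), mul_nonneg_of_nonpos_of_nonpos (le_of_lt (Mathlib.Tactic.Linarith.sub_neg_of_lt h0)) (Mathlib.Tactic.Linarith.sub_nonpos_of_le this)]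

theorem Bf_nk_ge (η a : ℝ) {s t : ℝ} (hs : s ≤ 1) (h0 : 0 < t) (h1 : t ≤ 1) :
    -(13 * exp 2 * exp (2 * s)) ≤ ∫ θ in a..a + 2 * t, nk s (θ - η) := by
  have e2 : 1 ≤ exp 2 := one_le_exp (by norm_num)
  rcases le_or_gt s (-1) with h | h
  · have h2 := intervalIntegral.integral_mono_on (μ := volume) (a := a) (b := a + 2 * t)
      (f := fun _ => -(2 * exp (2 * s))) (by linarith) intervalIntegrable_const (Bf_ii_nk s η _ _)
      (fun θ _ => by
        have h3 := abs_nk_le (s := s) (by linarith) (θ - η)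
        have h4 := l0_le (s := s) (by rw [abs_of_neg (by linarith)]; linarith)
        rw [abs_of_neg (by linarith), neg_neg] at h4
        rw [env, if_pos (by linarith)] at h3
        have h5 := mul_le_mul_of_nonneg_left h4 (exp_pos s).le
        rw [show 2 * s = s + s by ring, exp_add]
        linarith [(abs_le.1 h3).1])
    rw [intervalIntegral.integral_const, smul_eq_mul] at h2
    have := exp_pos (2 * s)
    linarith only [h2, this, h1, e2, mul_nonneg_of_nonpos_of_nonpos (Mathlib.Tactic.Linarith.sub_nonpos_of_le h1) (le_of_lt (Mathlib.Tactic.Linarith.sub_neg_of_lt this)), mul_nonneg_of_nonpos_of_nonpos (Mathlib.Tactic.Linarith.sub_nonpos_of_le e2) (le_of_lt (Mathlib.Tactic.Linarith.sub_neg_of_lt this))]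
  · have h2 := intervalIntegral.integral_mono_on (μ := volume) (a := a) (b := a + 2 * t)
      (f := fun _ => -3) (by linarith) intervalIntegrable_const (Bf_ii_cos (exp s) η _ _)
      (fun θ _ => by
        have h3 : exp s ≤ 3 := (exp_le_exp.2 hs).trans (by linarith only [exp_one_lt_d9])
        linarith only [h3, neg_one_le_cos (θ - η), exp_pos s, mul_nonneg_of_nonpos_of_nonpos (Mathlib.Tactic.Linarith.sub_nonpos_of_le (neg_one_le_cos (θ - η))) (le_of_lt (Mathlib.Tactic.Linarith.sub_neg_of_lt (exp_pos s)))])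
    rw [intervalIntegral.integral_const, smul_eq_mul] at h2
    have h3 : 1 ≤ exp 2 * exp (2 * s) := by
      rw [← exp_add]
      exact one_le_exp (by linarith)
    unfold nk
    rw [intervalIntegral.integral_add (Bf_ii_lg s η _ _) (Bf_ii_cos _ η _ _)]
    have := Bf_lg_ge s η a h0 h1
    linarith only [h1, h2, h3, this]

namespace Cfg

variable (Z : Cfg)

theorem Bf_arg (x θ : ℝ) (a : ℕ) : (x : ℂ) + θ * Complex.I - Z.ζ a =
    ((x - Z.ξ a : ℝ) : ℂ) + ((θ - Z.η a : ℝ) : ℂ) * Complex.I := by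
  unfold ζ
  push_cast
  ring

theorem Bf_norm_F (x θ : ℝ) : ‖Z.F (x + θ * Complex.I)‖ =
    exp (Z.c * Complex.exp (x + θ * Complex.I)).re * ∏ a ∈ Z.s,
      (‖1 - Complex.exp (((x - Z.ξ a : ℝ) : ℂ) + ((θ - Z.η a : ℝ) : ℂ) * Complex.I)‖ *
        exp (exp (x - Z.ξ a) * cos (θ - Z.η a))) := by
  unfold F
  rw [norm_mul, norm_prod, Complex.norm_exp]
  congr 1
  refine Finset.prod_congr rfl fun a _ => ?_
  rw [norm_mul, Complex.norm_exp, Z.Bf_arg, Bf_re_exp]

theorem Bf_ne_iff (x θ : ℝ) : Z.F (x + θ * Complex.I) ≠ 0 ↔ ∀ a ∈ Z.s,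
    Complex.exp (((x - Z.ξ a : ℝ) : ℂ) + ((θ - Z.η a : ℝ) : ℂ) * Complex.I) ≠ 1 := by
  unfold F
  simp only [ne_eq, mul_eq_zero, Complex.exp_ne_zero, false_or, or_false, Finset.prod_eq_zero_iff,
    not_exists, not_and, Z.Bf_arg, sub_eq_zero, eq_comm (a := (1 : ℂ))]

/-- A crude bound, monotone in `x`. -/
def Bf_M (x : ℝ) : ℝ :=
  exp (‖Z.c‖ * exp x) * ∏ a ∈ Z.s, ((1 + exp (x - Z.ξ a)) * exp (exp (x - Z.ξ a)))

theorem Bf_le_M {x y : ℝ} (h : x ≤ y) (θ : ℝ) : ‖Z.F (x + θ * Complex.I)‖ ≤ Z.Bf_M y := by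
  rw [Bf_norm_F, Bf_M]
  refine mul_le_mul (exp_le_exp.2 ?_) (Finset.prod_le_prod (fun a _ => by positivity)
    fun a _ => ?_) (Finset.prod_nonneg fun a _ => by positivity) (exp_pos _).le
  · refine (Complex.re_le_norm _).trans ?_
    rw [norm_mul, Bf_norm_exp]
    gcongr
  · have h1 : exp (x - Z.ξ a) ≤ exp (y - Z.ξ a) := exp_le_exp.2 (by linarith)
    refine mul_le_mul ((norm_sub_le _ _).trans ?_) (exp_le_exp.2 ?_) (exp_pos _).le
      (by positivity)
    · rw [Bf_norm_exp, norm_one]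
      linarith
    · linarith only [h1, cos_le_one (θ - Z.η a), exp_pos (x - Z.ξ a), mul_nonneg_of_nonpos_of_nonpos (Mathlib.Tactic.Linarith.sub_nonpos_of_le (cos_le_one (θ - Z.η a))) (le_of_lt (Mathlib.Tactic.Linarith.sub_neg_of_lt (exp_pos (x - Z.ξ a))))]

theorem Bf_bdd (x : ℝ) : BddAbove (range fun θ : ℝ => ‖Z.F (x + θ * Complex.I)‖) :=
  ⟨Z.Bf_M x, by rintro _ ⟨θ, rfl⟩; exact Z.Bf_le_M le_rfl θ⟩

theorem Bf_ae_ne (x : ℝ) : ∀ᵐ θ : ℝ, Z.F (x + θ * Complex.I) ≠ 0 := by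
  simp only [Bf_ne_iff]
  rw [Finset.eventually_all]
  intro a _
  have hc : (range fun k : ℤ => Z.η a + k * (2 * π)).Countable := countable_range _
  filter_upwards [hc.ae_notMem volume] with θ hθ h
  obtain ⟨k, hk⟩ := Complex.exp_eq_one_iff.1 h
  have := congrArg Complex.im hk
  simp at this
  exact hθ ⟨k, by linarith⟩

theorem Bf_exp_B (x : ℝ) : exp (Z.B x) = ⨆ θ : ℝ, ‖Z.F (x + θ * Complex.I)‖ := by
  obtain ⟨θ, hθ⟩ := (Z.Bf_ae_ne x).exists
  exact exp_log ((norm_pos_iff.2 hθ).trans_le (le_ciSup (Z.Bf_bdd x) θ))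

theorem differentiable_F : Differentiable ℂ Z.F := by
  unfold F
  fun_prop

theorem norm_F {x θ : ℝ} (h : Z.F (x + θ * Complex.I) ≠ 0) :
    ‖Z.F (x + θ * Complex.I)‖ = exp (Z.U x θ) := by
  rw [Bf_norm_F, U, exp_add, exp_sum]
  congr 1
  refine Finset.prod_congr rfl fun a ha => ?_
  rw [nk, exp_add, lg, exp_log (norm_pos_iff.2 (sub_ne_zero.2 ((Z.Bf_ne_iff x θ).1 h a ha).symm))]

theorem F_ne_zero {x : ℝ} (h : Z.Reg x) (θ : ℝ) : Z.F (x + θ * Complex.I) ≠ 0 := by
  exact (Z.Bf_ne_iff x θ).2 fun a ha => exp_ne_one (sub_ne_zero.2 (h a ha).symm) _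

theorem norm_F_le (x θ : ℝ) : ‖Z.F (x + θ * Complex.I)‖ ≤ exp (Z.B x) := by
  rw [Bf_exp_B]
  exact le_ciSup (Z.Bf_bdd x) θ

theorem exists_norm_F_eq (x : ℝ) : ∃ θ : ℝ, ‖Z.F (x + θ * Complex.I)‖ = exp (Z.B x) := by
  have hp : Function.Periodic (fun θ : ℝ => ‖Z.F (x + θ * Complex.I)‖) (2 * π) := fun θ => by
    have e : ∀ w : ℂ, Complex.exp (x + ((θ + 2 * π : ℝ) : ℂ) * Complex.I - w) =
        Complex.exp (x + θ * Complex.I - w) := fun w => by
      rw [← Complex.exp_periodic (x + θ * Complex.I - w)]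
      congr 1
      push_cast
      ring
    have e0 := e 0
    rw [sub_zero, sub_zero] at e0
    simp only [F, e, e0]
  have hc : Continuous fun θ : ℝ => ‖Z.F (x + θ * Complex.I)‖ :=
    (Z.differentiable_F.continuous.comp (by fun_prop)).norm
  obtain ⟨θ, -, hθ⟩ := (isCompact_Icc (a := 0) (b := 2 * π)).exists_isMaxOn
    ⟨0, le_rfl, two_pi_pos.le⟩ hc.continuousOn
  refine ⟨θ, le_antisymm (Z.norm_F_le x θ) ?_⟩
  rw [Bf_exp_B]
  refine ciSup_le fun φ => ?_
  obtain ⟨ψ, hψ, e⟩ := hp.exists_mem_Ico₀ two_pi_pos φ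
  exact e.trans_le (hθ (Ico_subset_Icc_self hψ))

theorem U_le_B {x : ℝ} (h : Z.Reg x) (θ : ℝ) : Z.U x θ ≤ Z.B x := by
  rw [← exp_le_exp, ← Z.norm_F (Z.F_ne_zero h θ)]
  exact Z.norm_F_le x θ

theorem ae_U_le_B (x : ℝ) : ∀ᵐ θ, Z.U x θ ≤ Z.B x := by
  filter_upwards [Z.Bf_ae_ne x] with θ h
  rw [← exp_le_exp, ← Z.norm_F h]
  exact Z.norm_F_le x θ

theorem U_per (x θ : ℝ) (k : ℤ) : Z.U x (θ + k * (2 * π)) = Z.U x θ := by
  unfold U
  congr 1
  · rw [Bf_re_mul, Bf_re_mul, add_sub_right_comm, cos_add_int_mul_two_pi]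
  · exact Finset.sum_congr rfl fun a _ => by rw [add_sub_right_comm, nk_per]

theorem Min.exists_U {Z : Cfg} {η x : ℝ} (h : Z.Min η x) (hx : Z.Reg x) :
    ∃ θ, Z.U x θ ≤ -(1 + η) * Z.B x := by
  obtain ⟨θ, hθ⟩ := h
  rw [Z.norm_F (Z.F_ne_zero hx θ), exp_le_exp] at hθ
  exact ⟨θ, hθ⟩

theorem B_convex : ConvexOn ℝ univ Z.B := by
  refine LinearOrder.convexOn_of_lt convex_univ fun x _ y _ hxy a b ha hb hab => ?_
  obtain ⟨θ, hθ⟩ := Z.exists_norm_F_eq (a • x + b • y)
  have hz : ∀ z : ℂ, z = (z.re : ℂ) + (z.im : ℂ) * Complex.I := fun z => (Complex.re_add_im z).symm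
  have hre : (((a • x + b • y : ℝ) : ℂ) + θ * Complex.I).re = a * x + b * y := by simp
  have h := Complex.HadamardThreeLines.norm_le_interp_of_mem_verticalClosedStrip' (f := Z.F)
    (z := ((a • x + b • y : ℝ) : ℂ) + θ * Complex.I) (a := exp (Z.B x)) (b := exp (Z.B y)) hxy
    (by
      show _ ∈ Icc x y
      rw [hre, show a = 1 - b by linarith only [hab]]
      have := mul_pos ha (sub_pos.2 hxy)
      rw [show a = 1 - b by linarith] at this
      exact ⟨by linarith [mul_pos hb (sub_pos.2 hxy)], by linarith⟩)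
    Z.differentiable_F.diffContOnCl
    ⟨Z.Bf_M y, by
      rintro _ ⟨z, hz', rfl⟩
      rw [hz z]
      exact Z.Bf_le_M hz'.2 _⟩
    (fun z h => by rw [hz z, show z.re = x from h]; exact Z.norm_F_le _ _)
    (fun z h => by rw [hz z, show z.re = y from h]; exact Z.norm_F_le _ _)
  have e : (a * x + b * y - x) / (y - x) = b := by
    rw [div_eq_iff (sub_pos.2 hxy).ne', show a = 1 - b by linarith only [hab]]
    ring
  rw [hθ, hre, e, ← exp_mul, ← exp_mul, ← exp_add, exp_le_exp, show 1 - b = a by linarith only [hab]] at h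
  simpa only [smul_eq_mul, mul_comm] using h

theorem continuous_B : Continuous Z.B := by
  exact continuousOn_univ.1 (Z.B_convex.continuousOn isOpen_univ)

theorem Bf_ii_re (c : ℂ) (x a b : ℝ) : IntervalIntegrable
    (fun θ : ℝ => (c * Complex.exp (x + θ * Complex.I)).re) volume a b :=
  Continuous.intervalIntegrable (by fun_prop) _ _

theorem Bf_ii_sum {f : ℕ → ℝ → ℝ} (A : Finset ℕ) {a b : ℝ}
    (h : ∀ i, IntervalIntegrable (f i) volume a b) :
    IntervalIntegrable (fun θ => ∑ i ∈ A, f i θ) volume a b := by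
  have := IntervalIntegrable.sum A fun i _ => h i
  rwa [Finset.sum_fn] at this

theorem Bf_int_U_le (x : ℝ) {a b : ℝ} (h : a ≤ b) : ∫ θ in a..b, Z.U x θ ≤ (b - a) * Z.B x := by
  have := intervalIntegral.integral_mono_ae (μ := volume) h
    ((Bf_ii_re Z.c x a b).add (Bf_ii_sum Z.s fun i => Bf_ii_nk (x - Z.ξ i) (Z.η i) a b))
    intervalIntegrable_const (Z.ae_U_le_B x)
  rwa [intervalIntegral.integral_const, smul_eq_mul] at this

theorem sum_le_B (x : ℝ) : ∑ a ∈ Z.s, max (x - Z.ξ a) 0 ≤ Z.B x := by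
  have h := Z.Bf_int_U_le x (a := 0) (b := 0 + 2 * π) (by linarith [two_pi_pos])
  unfold U at h
  rw [intervalIntegral.integral_add (Bf_ii_re _ _ _ _) (Bf_ii_sum _ fun i => Bf_ii_nk _ _ _ _),
    intervalIntegral.integral_finsetSum fun i _ => Bf_ii_nk _ _ _ _] at h
  simp only [Bf_re_mul, Bf_int_cos, Bf_int_nk, ← Finset.mul_sum] at h
  (refine le_of_not_gt fun h_nl => ?_; linarith only [h_nl, h, two_pi_pos, mul_pos_of_neg_of_neg (Mathlib.Tactic.Linarith.sub_neg_of_lt h_nl) (Mathlib.Tactic.Linarith.sub_neg_of_lt two_pi_pos)])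

theorem B_nonneg (x : ℝ) : 0 ≤ Z.B x := by
  exact (Finset.sum_nonneg fun a _ => le_max_right _ _).trans (Z.sum_le_B x)

theorem B_mono : Monotone Z.B := by
  intro x y hxy
  by_contra hlt
  rw [not_le] at hlt
  have hxy' : x < y := hxy.lt_of_ne fun e => hlt.ne (by rw [e])
  have hK : ∀ z ≤ x, Z.B z ≤ Z.Bf_M x := fun z hz => by
    obtain ⟨θ, hθ⟩ := Z.exists_norm_F_eq z
    have := Z.Bf_le_M hz θ
    linarith [add_one_le_exp (Z.B z)]
  set d := Z.B x - Z.B y with hd
  have d0 : 0 < d := sub_pos.2 hlt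
  have hM := hK x le_rfl
  set r := (y - x) * (Z.Bf_M x - Z.B x) / d + 1 with hr
  have r0 : 0 < r := by
    have : 0 ≤ (y - x) * (Z.Bf_M x - Z.B x) / d :=
      div_nonneg (mul_nonneg (by linarith) (by linarith)) d0.le
    linarith only [this]
  have h := Z.B_convex.slope_mono_adjacent (x := x - r) (y := x) (z := y) (mem_univ _)
    (mem_univ _) (by linarith) hxy'
  rw [sub_sub_cancel, div_le_div_iff₀ r0 (sub_pos.2 hxy')] at h
  have h1 : r * d = (y - x) * (Z.Bf_M x - Z.B x) + d := by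
    rw [hr]
    field_simp
  have h2 := mul_le_mul_of_nonneg_left (hK (x - r) (by linarith only [r0])) (sub_pos.2 hxy').le
  linarith only [hlt, h, h1, h2]

theorem Min.mono {Z : Cfg} {η η' x : ℝ} (h : Z.Min η x) (hη : η' ≤ η) : Z.Min η' x := by
  obtain ⟨θ, hθ⟩ := h
  exact ⟨θ, hθ.trans (exp_le_exp.2 (by linarith only [hη, Z.B_nonneg x, mul_nonneg_of_nonpos_of_nonpos (Mathlib.Tactic.Linarith.sub_nonpos_of_le hη) (Mathlib.Tactic.Linarith.sub_nonpos_of_le (B_nonneg Z x))]))⟩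

theorem U_split (y x θ : ℝ) : Z.U x θ = (Z.cc y * Complex.exp (x + θ * Complex.I)).re +
    ∑ a ∈ Z.s.filter (fun a => Z.ξ a < y), lg (x - Z.ξ a) (θ - Z.η a) +
    ∑ a ∈ Z.s.filter (fun a => y ≤ Z.ξ a), nk (x - Z.ξ a) (θ - Z.η a) := by
  unfold U cc
  rw [← Finset.sum_filter_add_sum_filter_not Z.s (fun a => Z.ξ a < y), add_mul, Complex.add_re,
    Finset.sum_mul, Complex.re_sum]
  simp only [not_lt, add_assoc]
  rw [← add_assoc (∑ a ∈ _, _), ← Finset.sum_add_distrib]
  congr 2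
  refine Finset.sum_congr rfl fun a _ => ?_
  rw [← Complex.exp_add, neg_add_eq_sub, Z.Bf_arg, Bf_re_exp, nk, add_comm]

theorem Bf_W_split (y : ℝ) : Z.W y = ∑ a ∈ Z.s.filter (fun a => Z.ξ a < y), w0 (y - Z.ξ a) +
    ∑ a ∈ Z.s.filter (fun a => y ≤ Z.ξ a), w0 (y - Z.ξ a) := by
  rw [W, ← Finset.sum_filter_add_sum_filter_not Z.s (fun a => Z.ξ a < y)]
  simp only [not_lt]

theorem Bf_U_le {y x θ : ℝ} (h : y ≤ x) (hx : Z.F (x + θ * Complex.I) ≠ 0) :
    Z.U x θ ≤ (Z.cc y * Complex.exp (x + θ * Complex.I)).re + exp (2 * (x - y)) * Z.W y := by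
  rw [Z.U_split y, Bf_W_split, mul_add, Finset.mul_sum, Finset.mul_sum, add_assoc]
  refine add_le_add_right (add_le_add (Finset.sum_le_sum fun a ha => ?_)
    (Finset.sum_le_sum fun a ha => ?_)) _
  · have h1 := (Finset.mem_filter.1 ha).2
    have h2 := w0_shift (y - Z.ξ a) (sub_nonneg.2 h)
    rw [show y - Z.ξ a + (x - y) = x - Z.ξ a by ring, w0_of_nonneg (by linarith)] at h2
    have h3 := lg_le (x - Z.ξ a) (θ - Z.η a)
    rw [max_eq_left (by linarith)] at h3
    linarith only [h2, h3, log_two_lt_d9]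
  · have h1 := Finset.mem_filter.1 ha
    rw [w0_of_nonpos (by linarith [h1.2]), ← exp_add,
      show 2 * (x - y) + 2 * (y - Z.ξ a) = 2 * (x - Z.ξ a) by ring]
    linarith only [hx, h1, Bf_nk_le ((Z.Bf_ne_iff x θ).1 hx a h1.1), exp_pos (2 * (x - Z.ξ a))]

theorem U_le {y x : ℝ} (h : y ≤ x) (hx : Z.Reg x) (θ : ℝ) :
    Z.U x θ ≤ (Z.cc y * Complex.exp (x + θ * Complex.I)).re + exp (2 * (x - y)) * Z.W y := by
  exact Z.Bf_U_le h (Z.F_ne_zero hx θ)

theorem B_le {y x : ℝ} (h : y ≤ x) : Z.B x ≤ ‖Z.cc y‖ * exp x + exp (2 * (x - y)) * Z.W y := by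
  obtain ⟨θ, hθ⟩ := Z.exists_norm_F_eq x
  have h0 : Z.F (x + θ * Complex.I) ≠ 0 := norm_pos_iff.1 (hθ ▸ exp_pos _)
  rw [Z.norm_F h0, exp_eq_exp] at hθ
  have h1 := Z.Bf_U_le h h0
  have h2 := Complex.re_le_norm (Z.cc y * Complex.exp (x + θ * Complex.I))
  rw [norm_mul, Bf_norm_exp] at h2
  linarith only [hθ, h1, h2]

theorem B_ge : ∃ C : ℝ, 1 ≤ C ∧ ∀ (Z : Cfg) (t y x : ℝ), 0 < t → t ≤ 1 → y ≤ x → x ≤ y + 1 →
    cos t * (‖Z.cc y‖ * exp x) - C * Z.W y / t ≤ Z.B x := by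
  have e4 : 1 ≤ exp 4 := one_le_exp (by norm_num)
  refine ⟨13 * exp 4, by linarith only [e4], fun Z t y x h0 h1 hy hx => ?_⟩
  set a := -Complex.arg (Z.cc y) - t with ha
  have h := Z.Bf_int_U_le x (a := a) (b := a + 2 * t) (by linarith)
  simp only [Z.U_split y x] at h
  rw [intervalIntegral.integral_add ((Bf_ii_re _ _ _ _).add
      (Bf_ii_sum _ fun i => Bf_ii_lg _ _ _ _)) (Bf_ii_sum _ fun i => Bf_ii_nk _ _ _ _),
    intervalIntegral.integral_add (Bf_ii_re _ _ _ _) (Bf_ii_sum _ fun i => Bf_ii_lg _ _ _ _),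
    intervalIntegral.integral_finsetSum fun i _ => Bf_ii_nk _ _ _ _,
    intervalIntegral.integral_finsetSum fun i _ => Bf_ii_lg _ _ _ _] at h
  have k1 := intervalIntegral.integral_mono_on (μ := volume) (a := a) (b := a + 2 * t)
    (f := fun _ => cos t * (‖Z.cc y‖ * exp x)) (by linarith) intervalIntegrable_const
    (Bf_ii_re (Z.cc y) x _ _) (fun θ hθ => by
      rw [Bf_re_mul, mul_comm, ← cos_abs (θ - _)]
      refine mul_le_mul_of_nonneg_left (cos_le_cos_of_nonneg_of_le_pi (abs_nonneg _)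
        (by linarith [pi_gt_three]) (abs_le.2 ⟨?_, ?_⟩)) (by positivity)
      · linarith [hθ.1]
      · linarith [hθ.2])
  rw [intervalIntegral.integral_const, smul_eq_mul] at k1
  have k2 : ∑ i ∈ Z.s.filter (fun a => Z.ξ a < y), -(13 * exp 4 * w0 (y - Z.ξ i)) ≤
      ∑ i ∈ Z.s.filter (fun a => Z.ξ a < y), ∫ θ in a..a + 2 * t, lg (x - Z.ξ i) (θ - Z.η i) :=
    Finset.sum_le_sum fun i hi => by
      have h2 := (Finset.mem_filter.1 hi).2
      rw [w0_of_nonneg (by linarith)]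
      have := Bf_lg_ge (x - Z.ξ i) (Z.η i) a h0 h1
      linarith only [e4, h2, this, mul_nonneg_of_nonpos_of_nonpos (Mathlib.Tactic.Linarith.sub_nonpos_of_le e4) (le_of_lt (Mathlib.Tactic.Linarith.sub_neg_of_lt h2))]
  have k3 : ∑ i ∈ Z.s.filter (fun a => y ≤ Z.ξ a), -(13 * exp 4 * w0 (y - Z.ξ i)) ≤
      ∑ i ∈ Z.s.filter (fun a => y ≤ Z.ξ a), ∫ θ in a..a + 2 * t, nk (x - Z.ξ i) (θ - Z.η i) :=
    Finset.sum_le_sum fun i hi => by
      have h2 := (Finset.mem_filter.1 hi).2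
      rw [w0_of_nonpos (by linarith)]
      refine le_trans (neg_le_neg ?_) (Bf_nk_ge (Z.η i) a (by linarith) h0 h1)
      rw [mul_assoc, mul_assoc, ← exp_add, ← exp_add]
      exact mul_le_mul_of_nonneg_left (exp_le_exp.2 (by linarith)) (by norm_num)
  rw [Finset.sum_neg_distrib, ← Finset.mul_sum] at k2 k3
  have hW : 0 ≤ Z.W y := Finset.sum_nonneg fun i _ => (w0_pos _).le
  have k4 : 2 * t * (cos t * (‖Z.cc y‖ * exp x)) - 13 * exp 4 * Z.W y ≤ 2 * t * Z.B x := by
    rw [Bf_W_split]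
    linarith only [h, k1, k2, k3]
  rw [sub_le_comm, le_div_iff₀ h0]
  linarith only [hW, k4, e4, mul_nonneg_of_nonpos_of_nonpos (Mathlib.Tactic.Linarith.sub_nonpos_of_le e4) (Mathlib.Tactic.Linarith.sub_nonpos_of_le hW)]

end Cfg

end

end Pool.Agent.MinMod
end

-- merged part: Pool.Agent.Work.MP_f62247_an.Wf
section
/-!
# The weights `W`, `L`, the coefficient `cc`; translation and change of representatives

All elementary (`w0_*`, `Kp_bounds`).  `shift`: `(Z.shift y).ζ a = Z.ζ a - y`.  `relift`: `nk_per`, `Sg_per`, `Complex.exp_periodic`.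
-/

open Real MeasureTheory Set Filter Topology

namespace Pool.Agent.MinMod

noncomputable section

namespace Cfg

variable (Z : Cfg)

theorem W_nonneg (x : ℝ) : 0 ≤ Z.W x := by
  exact Finset.sum_nonneg fun a _ => (w0_pos _).le

theorem W_mono : Monotone Z.W := by
  intro x y h
  exact Finset.sum_le_sum fun a _ => w0_mono (by linarith)

theorem W_shift (x : ℝ) {t : ℝ} (ht : 0 ≤ t) : Z.W (x + t) ≤ exp (2 * t) * Z.W x := by
  unfold W
  rw [Finset.mul_sum]
  refine Finset.sum_le_sum fun a _ => ?_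
  rw [add_sub_right_comm]
  exact w0_shift _ ht

theorem card_le_W (y : ℝ) {d : ℝ} (hd : 0 ≤ d) {A : Finset ℕ} (hA : A ⊆ Z.s)
    (h : ∀ a ∈ A, Z.ξ a ≤ y + d) : (A.card : ℝ) ≤ exp (2 * d) * Z.W y := by
  refine le_trans ?_ (Z.W_shift y hd)
  rw [Finset.card_eq_sum_ones]
  push_cast
  refine le_trans (Finset.sum_le_sum fun a ha => ?_)
    (Finset.sum_le_sum_of_subset_of_nonneg hA fun a _ _ => (w0_pos _).le)
  rw [w0_of_nonneg (by linarith [h a ha])]
  linarith [h a ha]

theorem L_nonneg (x : ℝ) : 0 ≤ Z.L x := by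
  exact Finset.sum_nonneg fun a _ => mul_nonneg (exp_pos _).le (Kp_nonneg _)

theorem continuous_L : Continuous Z.L := by
  unfold L
  exact continuous_finset_sum _ fun a _ =>
    continuous_const.mul (continuous_Kp.comp (continuous_id.sub continuous_const))

theorem W_L : ∃ C : ℝ, 1 ≤ C ∧ ∀ (Z : Cfg) (x : ℝ),
    Z.W x ≤ C * (exp x * Z.L x) ∧ exp x * Z.L x ≤ C * Z.W x := by
  obtain ⟨C, hC, h⟩ := Kp_bounds
  refine ⟨C, hC, fun Z x => ?_⟩
  have e : exp x * Z.L x = ∑ a ∈ Z.s, exp (x - Z.ξ a) * Kp (x - Z.ξ a) := by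
    unfold L
    rw [Finset.mul_sum]
    refine Finset.sum_congr rfl fun a _ => ?_
    rw [← mul_assoc, ← exp_add, sub_eq_add_neg]
  rw [e]
  unfold W
  rw [Finset.mul_sum, Finset.mul_sum]
  exact ⟨Finset.sum_le_sum fun a _ => (h _).1, Finset.sum_le_sum fun a _ => (h _).2⟩

theorem cc_sub {y y' : ℝ} (h : y ≤ y') : Z.cc y' - Z.cc y =
    ∑ a ∈ Z.s.filter (fun a => y ≤ Z.ξ a ∧ Z.ξ a < y'), Complex.exp (-Z.ζ a) := by
  unfold cc
  rw [add_sub_add_left_eq_sub, Finset.sum_filter, Finset.sum_filter, Finset.sum_filter,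
    ← Finset.sum_sub_distrib]
  refine Finset.sum_congr rfl fun a _ => ?_
  by_cases h1 : Z.ξ a < y
  · simp [h1, h1.trans_le h, not_le.2 h1]
  · by_cases h2 : Z.ξ a < y' <;> simp [h1, h2, not_lt.1 h1]

theorem norm_cc_sub_le {y y' : ℝ} (h : y ≤ y') : ‖Z.cc y' - Z.cc y‖ ≤
    ∑ a ∈ Z.s.filter (fun a => y ≤ Z.ξ a ∧ Z.ξ a < y'), exp (-Z.ξ a) := by
  rw [Z.cc_sub h]
  refine (norm_sum_le _ _).trans (le_of_eq (Finset.sum_congr rfl fun a _ => ?_))
  rw [Complex.norm_exp]
  simp [ζ]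

theorem norm_cc_step {y y' : ℝ} (h : y ≤ y') (h' : y' ≤ y + 1) :
    ‖Z.cc y' - Z.cc y‖ * exp y ≤ exp 2 * Z.W y := by
  have h1 := Z.card_le_W y zero_le_one
    (A := Z.s.filter (fun a => y ≤ Z.ξ a ∧ Z.ξ a < y')) (Finset.filter_subset _ _)
    fun a ha => (Finset.mem_filter.1 ha).2.2.le.trans h'
  rw [mul_one] at h1
  refine le_trans ?_ h1
  refine (mul_le_mul_of_nonneg_right (Z.norm_cc_sub_le h) (exp_pos _).le).trans ?_
  rw [Finset.sum_mul, Finset.card_eq_sum_ones]
  push_cast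
  refine Finset.sum_le_sum fun a ha => ?_
  rw [← exp_add]
  exact exp_le_one_iff.2 (by linarith [(Finset.mem_filter.1 ha).2.1])

theorem Wf_zeta (y : ℝ) (a : ℕ) : (Z.shift y).ζ a = Z.ζ a - y := by
  simp only [ζ, shift]; push_cast; ring

theorem shift_F (y : ℝ) (z : ℂ) : (Z.shift y).F z = Z.F (z + y) := by
  have e : ∀ a, z - (Z.shift y).ζ a = z + y - Z.ζ a := fun a => by rw [Wf_zeta]; ring
  unfold F
  simp only [e]
  congr 2
  simp only [shift, Complex.exp_add]
  ring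

theorem shift_U (y x θ : ℝ) : (Z.shift y).U x θ = Z.U (x + y) θ := by
  unfold U
  congr 1
  · simp only [shift]
    rw [mul_assoc, ← Complex.exp_add]
    congr 3; push_cast; ring
  · refine Finset.sum_congr rfl fun a _ => ?_
    simp only [shift]
    congr 1; ring

theorem shift_B (y x : ℝ) : (Z.shift y).B x = Z.B (x + y) := by
  unfold B
  simp only [shift_F]
  congr 2
  ext θ
  congr 2; push_cast; ring

theorem shift_W (y x : ℝ) : (Z.shift y).W x = Z.W (x + y) := by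
  refine Finset.sum_congr rfl fun a _ => ?_
  simp only [shift]
  congr 1; ring

theorem shift_L (y x : ℝ) : (Z.shift y).L x = exp y * Z.L (x + y) := by
  unfold L
  rw [Finset.mul_sum]
  refine Finset.sum_congr rfl fun a _ => ?_
  simp only [shift]
  rw [← mul_assoc, ← exp_add]
  congr 2 <;> ring

theorem shift_cc (y x : ℝ) : ‖(Z.shift y).cc x‖ = exp y * ‖Z.cc (x + y)‖ := by
  have e : (Z.shift y).cc x = Complex.exp y * Z.cc (x + y) := by
    unfold cc
    rw [mul_add, Finset.mul_sum]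
    congr 1
    · simp only [shift]; ring
    · refine Finset.sum_congr ?_ fun a _ => ?_
      · simp only [shift, sub_lt_iff_lt_add]
      · rw [Wf_zeta, ← Complex.exp_add]; congr 1; ring
  rw [e, norm_mul, Complex.norm_exp_ofReal]

theorem shift_Min (y η x : ℝ) : (Z.shift y).Min η x ↔ Z.Min η (x + y) := by
  unfold Min
  rw [shift_B]
  refine exists_congr fun θ => ?_
  rw [shift_F, show (x : ℂ) + θ * Complex.I + y = ((x + y : ℝ) : ℂ) + θ * Complex.I by
    push_cast; ring]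

section relift

variable {η' : ℕ → ℝ} (h : ∀ a ∈ Z.s, ∃ k : ℤ, η' a = Z.η a + k * (2 * π))
include h

theorem Wf_relift {a : ℕ} (ha : a ∈ Z.s) :
    Complex.exp (-(Z.relift η').ζ a) = Complex.exp (-Z.ζ a) := by
  obtain ⟨k, hk⟩ := h a ha
  rw [Complex.exp_eq_exp_iff_exists_int]
  refine ⟨-k, ?_⟩
  simp only [ζ, relift, hk]
  push_cast; ring

theorem relift_F : (Z.relift η').F = Z.F := by
  ext z
  unfold F
  congr 1
  refine Finset.prod_congr rfl fun a ha => ?_
  rw [sub_eq_add_neg z, sub_eq_add_neg z, Complex.exp_add, Complex.exp_add, Z.Wf_relift h ha]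

theorem relift_U : (Z.relift η').U = Z.U := by
  ext x θ
  unfold U
  congr 1
  refine Finset.sum_congr rfl fun a ha => ?_
  obtain ⟨k, hk⟩ := h a ha
  simp only [relift, hk]
  rw [← nk_per _ _ k]
  congr 1; ring

theorem relift_cc : (Z.relift η').cc = Z.cc := by
  ext y
  unfold cc
  congr 1
  exact Finset.sum_congr rfl fun a ha => Z.Wf_relift h (Finset.mem_filter.1 ha).1

theorem relift_Min : (Z.relift η').Min = Z.Min := by
  ext η x
  unfold Min B
  rw [Z.relift_F h]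

theorem relift_Nf : (Z.relift η').Nf = Z.Nf := by
  ext lam y θ
  unfold Nf D
  rw [Z.relift_U h]
  congr 1
  refine Finset.sum_congr rfl fun a ha => ?_
  obtain ⟨k, hk⟩ := h a (Finset.mem_filter.1 ha).1
  simp only [relift, hk]
  rw [add_sub_right_comm, Sg_per]

end relift

end Cfg

end

end Pool.Agent.MinMod
end

-- merged part: Pool.Agent.Work.MP_f62247_an.Red
section
/-!
# From an entire function to a configuration

`factor`: the zeros of `g` in the ball of radius `ρ` are finitely many; divide them out one at a time (induction on the total multiplicity, `dslope`), or use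
`MeromorphicOn.extract_zeros_poles`.
`red_cfg`: `factor` with `ρ = R/3`; `ξ a + i η a = log (z a)`.  On `‖z‖ = R` every factor has norm `≥ 2`, so `‖h‖ ≤ e^Bm` on the ball of radius `R` (maximum principle) and
`1 = ‖h 0‖` gives `∑ log (R/‖z a‖ - 1) ≤ Bm`.  `h = exp H` on the ball of radius `R/3`, `H 0 = 0` (`DifferentiableOn.isExactOn_ball` for `h'/h`), `Re H ≤ Bm`,
`Complex.borelCaratheodory_zero`, then `‖H z - H'(0) z‖ ≤ C Bm (‖z‖/R)²` for `‖z‖ ≤ R/8` (Schwarz lemma or maximum principle for `dslope (dslope H 0) 0` on radius `R/6`).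
`c = H'(0) - ∑ 1 / z a`.
-/

open Real MeasureTheory Set Filter Topology

namespace Pool.Agent.MinMod

noncomputable section

theorem Red_local {g : ℂ → ℂ} (hg : Differentiable ℂ g) (h0 : g 0 = 1) {a : ℂ} (ha : a ≠ 0) :
    ∃ (n : ℕ) (h : ℂ → ℂ), Differentiable ℂ h ∧ h a ≠ 0 ∧ ∀ w, g w = (1 - w / a) ^ n * h w := by
  classical
  have han : AnalyticOnNhd ℂ g univ := fun z _ => hg.analyticAt z
  have hne : ¬ ∀ᶠ z in 𝓝 a, g z = 0 := by
    intro h
    have := han.eqOn_zero_of_preconnected_of_eventuallyEq_zero isPreconnected_univ (mem_univ a) h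
      (mem_univ 0)
    rw [h0] at this
    simp at this
  obtain ⟨n, g', hg', hga, hev⟩ :=
    (hg.analyticAt a).exists_eventuallyEq_pow_smul_nonzero_iff.2 hne
  have key : ∀ w : ℂ, (w - a) = (1 - w / a) * (-a) := by
    intro w; field_simp; ring
  have hnz : ∀ w : ℂ, w ≠ a → (1 - w / a) ≠ 0 := by
    intro w hw h
    apply hw
    have := key w
    rw [h, zero_mul] at this
    exact sub_eq_zero.1 this
  refine ⟨n, fun w => if w = a then (-a) ^ n * g' a else g w / (1 - w / a) ^ n, ?_, ?_, ?_⟩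
  · intro w
    by_cases hw : w = a
    · subst hw
      have : (fun v => if v = w then (-w) ^ n * g' w else g v / (1 - v / w) ^ n) =ᶠ[𝓝 w]
          fun v => (-w) ^ n * g' v := by
        filter_upwards [hev] with v hv
        by_cases hvw : v = w
        · simp [hvw]
        · rw [if_neg hvw, hv, smul_eq_mul, key v, mul_pow]
          have := pow_ne_zero n (hnz v hvw)
          field_simp
      exact (hg'.differentiableAt.const_mul _).congr_of_eventuallyEq this
    · have : (fun v => if v = a then (-a) ^ n * g' a else g v / (1 - v / a) ^ n) =ᶠ[𝓝 w]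
          fun v => g v / (1 - v / a) ^ n := by
        filter_upwards [isOpen_ne.mem_nhds hw] with v hv
        rw [if_neg hv]
      refine DifferentiableAt.congr_of_eventuallyEq ?_ this
      exact (hg w).div (by fun_prop) (pow_ne_zero n (hnz w hw))
  · simp only [if_true]
    exact mul_ne_zero (pow_ne_zero n (neg_ne_zero.2 ha)) hga
  · intro w
    by_cases hw : w = a
    · subst hw
      simp only [if_true]
      rw [hev.self_of_nhds, smul_eq_mul, key w, mul_pow]
      ring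
    · simp only [if_neg hw]
      have := pow_ne_zero n (hnz w hw)
      field_simp

theorem Red_ind (ρ : ℝ) (T : Finset ℂ) : ∀ g : ℂ → ℂ, Differentiable ℂ g → g 0 = 1 →
    (∀ w, ‖w‖ < ρ → g w = 0 → w ∈ T) →
    ∃ (N : ℕ) (z : ℕ → ℂ) (h : ℂ → ℂ), Differentiable ℂ h ∧
      (∀ a ∈ Finset.range N, z a ≠ 0 ∧ ‖z a‖ < ρ) ∧ (∀ w, ‖w‖ < ρ → h w ≠ 0) ∧
      ∀ w, g w = (∏ a ∈ Finset.range N, (1 - w / z a)) * h w := by
  classical
  induction T using Finset.induction_on with
  | empty =>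
    intro g hg h0 hT
    refine ⟨0, fun _ => 1, g, hg, by simp, fun w hw h => by simpa using hT w hw h, by simp⟩
  | insert a T haT ih =>
    intro g hg h0 hT
    by_cases hc : a ≠ 0 ∧ ‖a‖ < ρ
    · obtain ⟨n, h, hh, hha, hgh⟩ := Red_local hg h0 hc.1
      have hh0 : h 0 = 1 := by
        have := hgh 0
        rw [h0] at this
        simpa using this.symm
      obtain ⟨N, z, k, hk, hz, hkz, hhk⟩ := ih h hh hh0 (by
        intro w hw hw0
        have h1 : g w = 0 := by rw [hgh w, hw0, mul_zero]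
        rcases Finset.mem_insert.1 (hT w hw h1) with h2 | h2
        · exact absurd (h2 ▸ hw0) hha
        · exact h2)
      refine ⟨N + n, fun i => if i < N then z i else a, k, hk, ?_, hkz, ?_⟩
      · intro i _
        by_cases hi : i < N
        · simp only [if_pos hi]; exact hz i (Finset.mem_range.2 hi)
        · simp only [if_neg hi]; exact hc
      · intro w
        rw [Finset.prod_range_add, hgh w, hhk w]
        have e1 : ∏ i ∈ Finset.range N, (1 - w / (if i < N then z i else a)) =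
            ∏ i ∈ Finset.range N, (1 - w / z i) :=
          Finset.prod_congr rfl fun i hi => by rw [if_pos (Finset.mem_range.1 hi)]
        have e2 : ∏ i ∈ Finset.range n, (1 - w / (if N + i < N then z (N + i) else a)) =
            (1 - w / a) ^ n := by
          rw [Finset.prod_congr rfl (g := fun _ => 1 - w / a)
            fun i _ => by rw [if_neg (by omega)]]
          simp
        rw [e1, e2]
        ring
    · refine ih g hg h0 fun w hw hw0 => ?_
      rcases Finset.mem_insert.1 (hT w hw hw0) with h2 | h2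
      · exfalso
        apply hc
        subst h2
        refine ⟨fun h => ?_, hw⟩
        rw [h, h0] at hw0
        exact one_ne_zero hw0
      · exact h2

theorem Red_finite {g : ℂ → ℂ} (hg : Differentiable ℂ g) (h0 : g 0 = 1) (ρ : ℝ) :
    {w : ℂ | ‖w‖ < ρ ∧ g w = 0}.Finite := by
  have han : AnalyticOnNhd ℂ g univ := fun z _ => hg.analyticAt z
  rcases han.eqOn_zero_or_eventually_ne_zero_of_preconnected isPreconnected_univ with h | h
  · have := h (mem_univ 0)
    rw [h0] at this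
    simp at this
  · have h2 : {x | g x ≠ 0} ∈ codiscreteWithin (Metric.closedBall (0 : ℂ) ρ) :=
      codiscreteWithin_mono (subset_univ _) h
    refine ((isCompact_closedBall (0 : ℂ) ρ).finite_sdiff_of_mem_codiscreteWithin h2).subset ?_
    intro w hw
    exact ⟨mem_closedBall_zero_iff.2 hw.1.le, fun h => h hw.2⟩

theorem factor {g : ℂ → ℂ} (hg : Differentiable ℂ g) (h0 : g 0 = 1) (ρ : ℝ) :
    ∃ (s : Finset ℕ) (z : ℕ → ℂ) (h : ℂ → ℂ), Differentiable ℂ h ∧
      (∀ a ∈ s, z a ≠ 0 ∧ ‖z a‖ < ρ) ∧ (∀ w, ‖w‖ < ρ → h w ≠ 0) ∧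
      ∀ w, g w = (∏ a ∈ s, (1 - w / z a)) * h w := by
  obtain ⟨N, z, h, H⟩ := Red_ind ρ (Red_finite hg h0 ρ).toFinset g hg h0
    fun w hw hw0 => (Set.Finite.mem_toFinset _).2 ⟨hw, hw0⟩
  exact ⟨Finset.range N, z, h, H⟩

theorem Red_log {h : ℂ → ℂ} (hh : Differentiable ℂ h) (h0 : h 0 = 1) {ρ : ℝ} (hρ : 0 < ρ)
    (hz : ∀ w, ‖w‖ < ρ → h w ≠ 0) :
    ∃ H : ℂ → ℂ, DifferentiableOn ℂ H (Metric.ball 0 ρ) ∧ H 0 = 0 ∧
      ∀ w, ‖w‖ < ρ → h w = Complex.exp (H w) := by
  have hd : Differentiable ℂ (deriv h) := fun z => (hh.analyticAt z).deriv.differentiableAt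
  have hf : DifferentiableOn ℂ (fun w => deriv h w / h w) (Metric.ball 0 ρ) := fun w hw =>
    ((hd w).div (hh w) (hz w (mem_ball_zero_iff.1 hw))).differentiableWithinAt
  obtain ⟨H, hH0, hH⟩ := hf.isExactOn_ball.with_val_at 0 0
  have hHd : DifferentiableOn ℂ H (Metric.ball 0 ρ) := fun w hw =>
    (hH w hw).differentiableAt.differentiableWithinAt
  refine ⟨H, hHd, hH0, fun w hw => ?_⟩
  have hder : ∀ v ∈ Metric.ball (0 : ℂ) ρ,
      HasDerivAt (fun u => h u * Complex.exp (-H u)) 0 v := by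
    intro v hv
    have h1 := (hh v).hasDerivAt.mul (hH v hv).neg.cexp
    have h2 := hz v (mem_ball_zero_iff.1 hv)
    have h3 : deriv h v * Complex.exp (-H v) + h v * (Complex.exp (-H v) * -(deriv h v / h v))
        = 0 := by
      field_simp
      ring
    rw [← h3]
    exact h1
  have hc := Metric.isOpen_ball.is_const_of_deriv_eq_zero (convex_ball (0 : ℂ) ρ).isPreconnected
    (f := fun u => h u * Complex.exp (-H u))
    (fun v hv => (hder v hv).differentiableAt.differentiableWithinAt)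
    (fun v hv => (hder v hv).deriv) (mem_ball_zero_iff.2 hw) (Metric.mem_ball_self hρ)
  simp only [h0, hH0, neg_zero, Complex.exp_zero, mul_one] at hc
  rw [Complex.exp_neg] at hc
  have := Complex.exp_ne_zero (H w)
  field_simp at hc
  exact hc

theorem Red_second {H : ℂ → ℂ} {R Bm : ℝ} (hR : 0 < R) (hB : 0 < Bm)
    (hH : DifferentiableOn ℂ H (Metric.ball 0 (R / 3))) (h0 : H 0 = 0)
    (hre : ∀ w, ‖w‖ < R / 3 → (H w).re ≤ Bm) :
    ∃ d : ℂ, ∀ w : ℂ, ‖w‖ < R / 6 → ‖H w - d * w‖ ≤ 144 * Bm * (‖w‖ / R) ^ 2 := by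
  have hsub : Metric.ball (0 : ℂ) (R / 6) ⊆ Metric.ball 0 (R / 3) :=
    Metric.ball_subset_ball (by linarith only [hR])
  have h6 : 0 < R / 6 := by linarith
  have hH6 := hH.mono hsub
  have b1 : MapsTo H (Metric.ball 0 (R / 6)) (Metric.closedBall (H 0) (2 * Bm)) := by
    intro w hw
    rw [h0, mem_closedBall_zero_iff]
    have hw' := mem_ball_zero_iff.1 hw
    have := Complex.borelCaratheodory_zero hB hH
      (fun v hv => hre v (mem_ball_zero_iff.1 hv)) (by linarith only [hR]) (hsub hw) h0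
    refine this.trans ?_
    rw [div_le_iff₀ (by linarith only [hR, hw'])]
    linarith only [hB, hw', mul_pos_of_neg_of_neg (Mathlib.Tactic.Linarith.sub_neg_of_lt hB) (Mathlib.Tactic.Linarith.sub_neg_of_lt hw')]
  have b2 : ∀ w ∈ Metric.ball (0 : ℂ) (R / 6), ‖dslope H 0 w‖ ≤ 2 * Bm / (R / 6) :=
    fun w hw => Complex.norm_dslope_le_div_of_mapsTo_ball hH6 b1 hw
  have hD : DifferentiableOn ℂ (dslope H 0) (Metric.ball 0 (R / 6)) :=
    (Complex.differentiableOn_dslope (Metric.ball_mem_nhds 0 h6)).2 hH6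
  have b3 : MapsTo (dslope H 0) (Metric.ball 0 (R / 6))
      (Metric.closedBall (dslope H 0 0) (2 * (2 * Bm / (R / 6)))) := by
    intro w hw
    rw [mem_closedBall_iff_norm]
    have := norm_sub_le (dslope H 0 w) (dslope H 0 0)
    linarith only [this, b2, hw, h6, b2 w hw, b2 0 (Metric.mem_ball_self h6)]
  refine ⟨dslope H 0 0, fun w hw => ?_⟩
  have b4 := Complex.norm_dslope_le_div_of_mapsTo_ball hD b3 (mem_ball_zero_iff.2 hw)
  have e1 := sub_smul_dslope H 0 w
  have e2 := sub_smul_dslope (dslope H 0) 0 w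
  simp only [sub_zero, smul_eq_mul, h0] at e1 e2
  have e3 : H w - dslope H 0 0 * w = w * w * dslope (dslope H 0) 0 w := by
    rw [← e1]
    linear_combination (-w) * e2
  rw [e3, norm_mul, norm_mul]
  calc ‖w‖ * ‖w‖ * ‖dslope (dslope H 0) 0 w‖
      ≤ ‖w‖ * ‖w‖ * (2 * (2 * Bm / (R / 6)) / (R / 6)) := by gcongr
    _ = 144 * Bm * (‖w‖ / R) ^ 2 := by field_simp; ring

theorem Red_w0 {t q : ℝ} (hq : 2 ≤ q) (ht : exp t ≤ q + 1) : w0 t ≤ 4 * Real.log q := by
  have h2 : (1 : ℝ) / 2 ≤ Real.log q := by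
    have := Real.log_two_gt_d9
    have := Real.log_le_log (by norm_num) hq
    linarith
  have h3 : t ≤ 2 * Real.log q := by
    have h4 : exp t ≤ q ^ 2 := by linarith only [hq, ht, mul_nonneg_of_nonpos_of_nonpos (Mathlib.Tactic.Linarith.sub_nonpos_of_le hq) (Mathlib.Tactic.Linarith.sub_nonpos_of_le hq)]
    have h5 := Real.log_le_log (exp_pos t) h4
    rw [Real.log_exp, Real.log_pow] at h5
    exact_mod_cast h5
  unfold w0
  have h6 : min (exp (2 * t)) 1 ≤ 1 := min_le_right _ _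
  have h7 : max t 0 ≤ 2 * Real.log q := max_le h3 (by linarith only [h2])
  linarith only [h2, h6, h7]

theorem red_cfg : ∃ C : ℝ, 1 ≤ C ∧ ∀ (g : ℂ → ℂ) (R Bm : ℝ), Differentiable ℂ g → g 0 = 1 → 0 < R →
    0 < Bm → (∀ z : ℂ, ‖z‖ = R → ‖g z‖ ≤ exp Bm) → ∃ Z : Cfg,
      (∀ x θ : ℝ, exp x ≤ R / 8 → ∃ E : ℝ, |E| ≤ C * Bm * (exp x / R) ^ 2 ∧
        ‖g (Complex.exp (x + θ * Complex.I))‖ = ‖Z.F (x + θ * Complex.I)‖ * exp E) ∧
      ∀ x : ℝ, exp x ≤ R → Z.W x ≤ C * Bm := by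
  refine ⟨144, by norm_num, fun g R Bm hg h0 hR hB hb => ?_⟩
  obtain ⟨s, z, h, hh, hz, hnz, hgh⟩ := factor hg h0 (R / 3)
  have hh0 : h 0 = 1 := by
    have := hgh 0
    rw [h0] at this
    simpa using this.symm
  set q : ℕ → ℝ := fun a => R / ‖z a‖ - 1 with hq
  have hq2 : ∀ a ∈ s, 2 ≤ q a := by
    intro a ha
    have h1 : 0 < ‖z a‖ := norm_pos_iff.2 (hz a ha).1
    have h2 : 3 ≤ R / ‖z a‖ := by
      rw [le_div_iff₀ h1]; linarith only [hz, ha, (hz a ha).2]
    simp only [hq]; linarith only [h2]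
  set Q : ℝ := ∏ a ∈ s, q a with hQ
  have hQ1 : 1 ≤ Q := by
    have := Finset.prod_le_prod (s := s) (f := fun _ => (1 : ℝ)) (g := q)
      (fun _ _ => zero_le_one) (fun a ha => by linarith [hq2 a ha])
    simpa using this
  have hfr : ∀ w ∈ frontier (Metric.ball (0 : ℂ) R), ‖h w‖ ≤ exp Bm / Q := by
    intro w hw
    rw [frontier_ball 0 hR.ne', mem_sphere_zero_iff_norm] at hw
    have h1 := hb w hw
    rw [hgh w, norm_mul, norm_prod] at h1
    have h2 : Q ≤ ∏ a ∈ s, ‖1 - w / z a‖ := by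
      refine Finset.prod_le_prod (fun a ha => by linarith only [hq2, ha, hq2 a ha]) fun a ha => ?_
      have h3 := norm_sub_norm_le (w / z a) 1
      rw [norm_div, hw, norm_one, norm_sub_rev] at h3
      exact h3
    rw [le_div_iff₀ (by linarith only [hQ1])]
    linarith only [h1, h2, norm_nonneg (h w), mul_nonneg_of_nonpos_of_nonpos (Mathlib.Tactic.Linarith.sub_nonpos_of_le h2) (Mathlib.Tactic.Linarith.sub_nonpos_of_le (norm_nonneg (h w)))]
  have hball : ∀ w : ℂ, ‖w‖ ≤ R → ‖h w‖ ≤ exp Bm / Q := by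
    intro w hw
    refine Complex.norm_le_of_forall_mem_frontier_norm_le Metric.isBounded_ball
      hh.diffContOnCl hfr ?_
    rw [closure_ball 0 hR.ne']
    exact mem_closedBall_zero_iff.2 hw
  have hQe : Q ≤ exp Bm := by
    have := hball 0 (by simpa using hR.le)
    rw [hh0, norm_one, le_div_iff₀ (by linarith)] at this
    linarith
  have hsum : ∑ a ∈ s, Real.log (q a) ≤ Bm := by
    rw [← Real.log_prod (fun a ha => by linarith [hq2 a ha])]
    have := Real.log_le_log (by linarith) hQe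
    rwa [Real.log_exp] at this
  obtain ⟨H, hH, hH0, hexp⟩ := Red_log hh hh0 (by linarith : 0 < R / 3) hnz
  have hre : ∀ w, ‖w‖ < R / 3 → (H w).re ≤ Bm := by
    intro w hw
    have h1 := hball w (by linarith only [hR, hw])
    rw [hexp w hw, Complex.norm_exp] at h1
    have h2 : exp Bm / Q ≤ exp Bm := div_le_self (exp_pos _).le hQ1
    exact exp_le_exp.1 (h1.trans h2)
  obtain ⟨d, hd⟩ := Red_second hR hB hH hH0 hre
  refine ⟨⟨d - ∑ a ∈ s, 1 / z a, s, fun a => (Complex.log (z a)).re,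
    fun a => (Complex.log (z a)).im⟩, fun x θ hx => ?_, fun x hx => ?_⟩
  · set w : ℂ := Complex.exp (x + θ * Complex.I) with hw
    have hwn : ‖w‖ = exp x := by
      rw [hw, Complex.norm_exp]; simp
    refine ⟨(H w - d * w).re, ?_, ?_⟩
    · have := hd w (by rw [hwn]; linarith only [hR, hx])
      rw [hwn] at this
      exact (Complex.abs_re_le_norm _).trans this
    · rw [← Complex.norm_exp, ← norm_mul]
      congr 1
      rw [hgh w, hexp w (by rw [hwn]; linarith only [hR, hx])]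
      simp only [Cfg.F, Cfg.ζ, Complex.re_add_im]
      have e1 : ∏ a ∈ s, ((1 - Complex.exp (x + θ * Complex.I - Complex.log (z a))) *
          Complex.exp (Complex.exp (x + θ * Complex.I - Complex.log (z a)))) =
          (∏ a ∈ s, (1 - w / z a)) * Complex.exp (∑ a ∈ s, 1 / z a * w) := by
        rw [Complex.exp_sum, ← Finset.prod_mul_distrib]
        refine Finset.prod_congr rfl fun a ha => ?_
        rw [Complex.exp_sub, Complex.exp_log (hz a ha).1, ← hw]
        congr 2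
        ring
      rw [e1, ← hw, ← Finset.sum_mul]
      have e2 : Complex.exp (H w) = Complex.exp ((d - ∑ a ∈ s, 1 / z a) * w) *
          Complex.exp ((∑ a ∈ s, 1 / z a) * w) * Complex.exp (H w - d * w) := by
        rw [← Complex.exp_add, ← Complex.exp_add]
        congr 1
        ring
      rw [e2]
      ring
  · simp only [Cfg.W]
    have h1 : ∑ a ∈ s, w0 (x - (Complex.log (z a)).re) ≤ ∑ a ∈ s, 4 * Real.log (q a) := by
      refine Finset.sum_le_sum fun a ha => Red_w0 (hq2 a ha) ?_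
      have h2 : 0 < ‖z a‖ := norm_pos_iff.2 (hz a ha).1
      rw [Complex.log_re, exp_sub, exp_log h2]
      simp only [hq, sub_add_cancel]
      gcongr
    rw [← Finset.mul_sum] at h1
    linarith only [hB, hsum, h1]

end

end Pool.Agent.MinMod
end
end

-- merged part: Pool.Agent.Work.MP_f62247_an.SL
section
-- merged part: Pool.Agent.Work.MP_f62247_an.KerL
section
/-!
# The kernels are Lipschitz in the angle, in the `L¹(dt)` norm

`lip_lg`: reduce (`lg_neg`, `lg_per`, `abs_rp_*`) to `0 ≤ φ' ≤ φ ≤ π` with `φ - φ' ≤` the old difference; there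
`lg t φ - lg t φ' ≥ 0` for `t ≠ 0`.  It equals `∫_{φ'}^{φ} dlg t ψ dψ` with `dlg ≥ 0`; Tonelli, and for `0 < ψ < π`
`∫_a^b dlg t ψ dt = [arctan ((e^t - cos ψ) / sin ψ)] ≤ π`.
For `s ≤ -1`: `|dlg s ψ| ≤ 3 e^s` and `|dlg s ψ - e^s sin ψ| ≤ ‖fk‖ ≤ 2 e^(2s)` (`neg_im_fk`), so the mean value theorem gives
pointwise bounds; on `[-1, 0]` use `lip_lg`.  `Nh`: substitute `t ↦ 2 lam t`.
`lip_nk_pos`: for `t ≤ u - 1` the integrand is at most `2 |Δ| e^(-2u) e^(-2 (lam-1) t)`; for `t ≥ u - 1` use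
`|Δ nk| ≤ |Δ lg| + |Δ| e^(t-u)`.
-/

open Real MeasureTheory Set Filter Topology

namespace Pool.Agent.MinMod

noncomputable section

theorem KerL_dlg (ψ : ℝ) : ∫⁻ t, ‖dlg t ψ‖ₑ ≤ ENNReal.ofReal π := by
  by_cases h : sin ψ = 0
  · simp [dlg, h]
  have ha : 0 < |sin ψ| := abs_pos.2 h
  have hden : ∀ t, 1 - 2 * exp t * cos ψ + exp (2 * t) = (exp t - cos ψ) ^ 2 + |sin ψ| ^ 2 := by
    intro t
    rw [sq_abs, KerA_two]
    linear_combination -sin_sq_add_cos_sq ψ
  have hpos : ∀ t, 0 < 1 - 2 * exp t * cos ψ + exp (2 * t) := fun t => by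
    rw [hden]
    positivity
  have hd : ∀ t, HasDerivAt (fun t => arctan ((exp t - cos ψ) / |sin ψ|)) ‖dlg t ψ‖ t := by
    intro t
    convert (((hasDerivAt_exp t).sub_const (cos ψ)).div_const |sin ψ|).arctan using 1
    rw [dlg, Real.norm_eq_abs, abs_div, abs_mul, abs_of_pos (hpos t), abs_of_pos (exp_pos t), hden]
    field_simp
    ring
  have hc : Continuous fun t => dlg t ψ := by
    unfold dlg
    exact Continuous.div (by fun_prop) (by fun_prop) fun t => (hpos t).ne'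
  have hb : ∀ a b, ∫ t in a..b, ‖dlg t ψ‖ ≤ π := fun a b => by
    rw [intervalIntegral.integral_eq_sub_of_hasDerivAt (fun t _ => hd t)
      (hc.norm.intervalIntegrable _ _)]
    linarith only [arctan_lt_pi_div_two ((exp b - cos ψ) / |sin ψ|),
      neg_pi_div_two_lt_arctan ((exp a - cos ψ) / |sin ψ|)]
  have hi : Integrable fun t => dlg t ψ :=
    integrable_of_intervalIntegral_norm_bounded π (a := fun x : ℝ => -x) (b := fun x => x)
      (fun _ => hc.integrableOn_Ioc) tendsto_neg_atTop_atBot tendsto_id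
      (Eventually.of_forall fun _ => hb _ _)
  rw [← ofReal_integral_norm_eq_lintegral_enorm hi]
  exact ENNReal.ofReal_le_ofReal (le_of_tendsto' (intervalIntegral_tendsto_integral hi.norm
    tendsto_neg_atTop_atBot tendsto_id) fun _ => hb _ _)

theorem KerL_meas (φ : ℝ) : Measurable fun t => lg t φ := by
  simp only [lg_eq]
  fun_prop

theorem KerL_meas' (φ φ' : ℝ) : Measurable fun t => |nk t φ - nk t φ'| := by
  simp only [nk, lg_eq]
  fun_prop

theorem KerL_lint (φ φ' : ℝ) :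
    ∫⁻ t, ‖|lg t φ - lg t φ'|‖ₑ ≤ ENNReal.ofReal (π * |φ - φ'|) := by
  have hm : Measurable (Function.uncurry fun t ψ => ‖dlg t ψ‖ₑ) := by
    unfold dlg Function.uncurry
    fun_prop
  calc ∫⁻ t, ‖|lg t φ - lg t φ'|‖ₑ ≤ ∫⁻ t, ∫⁻ ψ in uIoc φ' φ, ‖dlg t ψ‖ₑ := by
        refine lintegral_mono_ae ?_
        filter_upwards [compl_mem_ae_iff.2 (measure_singleton (0 : ℝ))] with t ht
        have hc : Continuous (dlg t) := by
          unfold dlg
          exact Continuous.div (by fun_prop) (by fun_prop) fun ψ => (den_pos ht ψ).ne'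
        rw [← intervalIntegral.integral_eq_sub_of_hasDerivAt
          (fun ψ _ => hasDerivAt_lg (exp_ne_one ht ψ)) (hc.intervalIntegrable _ _),
          intervalIntegral.abs_integral_eq_abs_integral_uIoc, Real.enorm_abs]
        exact enorm_integral_le_lintegral_enorm _
    _ = ∫⁻ ψ in uIoc φ' φ, ∫⁻ t, ‖dlg t ψ‖ₑ := lintegral_lintegral_swap hm.aemeasurable
    _ ≤ ∫⁻ _ in uIoc φ' φ, ENNReal.ofReal π := lintegral_mono fun ψ => KerL_dlg ψ
    _ = ENNReal.ofReal (π * |φ - φ'|) := by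
        rw [setLIntegral_const, Real.volume_uIoc, ENNReal.ofReal_mul pi_pos.le]

theorem lip_lg (φ φ' : ℝ) :
    (Integrable fun t => |lg t φ - lg t φ'|) ∧ ∫ t, |lg t φ - lg t φ'| ≤ π * |φ - φ'| := by
  have hi : Integrable fun t => |lg t φ - lg t φ'| :=
    ⟨((KerL_meas φ).sub (KerL_meas φ')).abs.aestronglyMeasurable,
      (KerL_lint φ φ').trans_lt ENNReal.ofReal_lt_top⟩
  refine ⟨hi, ?_⟩
  have h := KerL_lint φ φ'
  rw [← ofReal_integral_norm_eq_lintegral_enorm hi,
    ENNReal.ofReal_le_ofReal_iff (by positivity)] at h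
  simpa only [Real.norm_eq_abs, abs_abs] using h

theorem lip_Nh {lam : ℝ} (h : 0 < lam) (φ φ' : ℝ) :
    (Integrable fun t => |Nh lam t φ - Nh lam t φ'|) ∧
      ∫ t, |Nh lam t φ - Nh lam t φ'| ≤ π * |φ - φ'| := by
  obtain ⟨h1, h2⟩ := lip_lg (2 * lam * φ) (2 * lam * φ')
  have h3 : 0 < 2 * lam := by linarith
  refine ⟨h1.comp_mul_left' h3.ne', ?_⟩
  have h4 := Measure.integral_comp_mul_left
    (fun t => |lg t (2 * lam * φ) - lg t (2 * lam * φ')|) (2 * lam)
  rw [← mul_sub, abs_mul, abs_of_pos h3] at h2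
  refine h4.trans_le ?_
  rw [smul_eq_mul, abs_of_pos (inv_pos.2 h3), inv_mul_le_iff₀ h3]
  linarith only [h2]

theorem KerL_mvt {f f' : ℝ → ℝ} {C : ℝ} (h : ∀ x, HasDerivAt f (f' x) x) (hC : ∀ x, |f' x| ≤ C)
    (x y : ℝ) : |f x - f y| ≤ C * |x - y| :=
  convex_univ.norm_image_sub_le_of_norm_hasDerivWithin_le (fun x _ => (h x).hasDerivWithinAt)
    (fun x _ => hC x) (mem_univ y) (mem_univ x)

theorem KerL_exp {s : ℝ} (hs : s ≤ -1) : exp s ≤ 2 / 5 :=
  (exp_le_exp.2 hs).trans (exp_neg_one_lt_d9.le.trans (by norm_num))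

theorem KerL_pt {s : ℝ} (hs : s ≤ -1) (φ φ' : ℝ) :
    |lg s φ - lg s φ'| ≤ 3 * exp s * |φ - φ'| := by
  have h0 : s ≠ 0 := by linarith
  refine KerL_mvt (fun ψ => hasDerivAt_lg (exp_ne_one h0 ψ)) (fun ψ => ?_) φ φ'
  have h1 := KerL_exp hs
  have h2 := exp_pos s
  have h3 : 1 / 3 ≤ 1 - 2 * exp s * cos ψ + exp (2 * s) := by
    rw [KerA_two]
    (refine le_of_not_gt fun h_nl => ?_; linarith only [h_nl, h1, h2, cos_le_one ψ, mul_nonneg_of_nonpos_of_nonpos (Mathlib.Tactic.Linarith.sub_nonpos_of_le h1) (Mathlib.Tactic.Linarith.sub_nonpos_of_le h1), mul_nonneg_of_nonpos_of_nonpos (Mathlib.Tactic.Linarith.sub_nonpos_of_le h1) (le_of_lt (Mathlib.Tactic.Linarith.sub_neg_of_lt h_nl)), mul_pos_of_neg_of_neg (Mathlib.Tactic.Linarith.sub_neg_of_lt h2) (Mathlib.Tactic.Linarith.sub_neg_of_lt h2), mul_pos_of_neg_of_neg (Mathlib.Tactic.Linarith.sub_neg_of_lt h2) (Mathlib.Tactic.Linarith.sub_neg_of_lt h_nl), mul_nonneg_of_nonpos_of_nonpos (le_of_lt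 (Mathlib.Tactic.Linarith.sub_neg_of_lt h2)) (Mathlib.Tactic.Linarith.sub_nonpos_of_le (cos_le_one ψ))])
  rw [dlg, abs_div, abs_mul, abs_of_pos (den_pos h0 ψ), abs_of_pos h2, div_le_iff₀ (den_pos h0 ψ)]
  (refine le_of_not_gt fun h_nl => ?_; linarith only [h_nl, h1, h2, h3, abs_sin_le_one ψ, mul_nonneg_of_nonpos_of_nonpos (Mathlib.Tactic.Linarith.sub_nonpos_of_le h1) (le_of_lt (Mathlib.Tactic.Linarith.sub_neg_of_lt h_nl)), mul_nonneg_of_nonpos_of_nonpos (le_of_lt (Mathlib.Tactic.Linarith.sub_neg_of_lt h2)) (Mathlib.Tactic.Linarith.sub_nonpos_of_le h3), mul_pos_of_neg_of_neg (Mathlib.Tactic.Linarith.sub_neg_of_lt h2) (Mathlib.Tactic.Linarith.sub_neg_of_lt h_nl), mul_nonneg_of_nonpos_of_nonpos (le_of_lt (Mathlib.Tactic.Linarith.sub_neg_of_lt h2)) (Mathlib.Tactic.Linarith.sub_nonpos_of_le (abs_sin_le_one ψ))])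

theorem lip_lg_pt {s : ℝ} (hs : 1 ≤ |s|) (φ φ' : ℝ) :
    |lg s φ - lg s φ'| ≤ 3 * exp (-|s|) * |φ - φ'| := by
  rcases le_abs.1 hs with h | h
  · rw [lg_refl (by linarith) φ, lg_refl (by linarith) φ', add_sub_add_left_eq_sub,
      abs_of_nonneg (by linarith : 0 ≤ s)]
    exact KerL_pt (by linarith) φ φ'
  · rw [abs_of_nonpos (by linarith : s ≤ 0), neg_neg]
    exact KerL_pt (by linarith) φ φ'

theorem lip_nk_pt {s : ℝ} (hs : s ≤ -1) (φ φ' : ℝ) :
    |nk s φ - nk s φ'| ≤ 2 * exp (2 * s) * |φ - φ'| := by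
  have h0 : s ≠ 0 := by linarith
  refine KerL_mvt (f' := fun ψ => dlg s ψ - exp s * sin ψ) (fun ψ => ?_) (fun ψ => ?_) φ φ'
  · exact ((hasDerivAt_lg (exp_ne_one h0 ψ)).add
      ((hasDerivAt_cos ψ).const_mul (exp s))).congr_deriv (by ring)
  · have h1 := KerL_exp hs
    have h2 : 1 / 2 ≤ ‖1 - Complex.exp (s + ψ * Complex.I)‖ := by
      have := norm_sub_norm_le 1 (Complex.exp (s + ψ * Complex.I))
      rw [norm_one, KerA_norm] at this
      linarith only [h1, this]
    rw [← neg_im_fk (exp_ne_one h0 ψ), abs_neg]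
    refine (Complex.abs_im_le_norm _).trans ?_
    rw [KerA_fk, norm_div, norm_neg, norm_mul, KerA_norm, KerA_two, div_le_iff₀ (by linarith only [h2])]
    linarith only [h2, mul_pos (exp_pos s) (exp_pos s), mul_nonneg_of_nonpos_of_nonpos (Mathlib.Tactic.Linarith.sub_nonpos_of_le (mul_self_nonneg (rexp s))) (Mathlib.Tactic.Linarith.sub_nonpos_of_le h2)]

/-- Domination by an integrable function on the line and an exponential. -/
theorem KerL_dom {S : Set ℝ} (hS : MeasurableSet S) {f g h : ℝ → ℝ} {K M : ℝ} (hf : Measurable f)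
    (h0 : ∀ t, 0 ≤ f t) (hg : Integrable g) (hg0 : ∀ t, 0 ≤ g t) (hh : IntegrableOn h S)
    (hK : 0 ≤ K) (H : ∀ t ∈ S, f t ≤ K * g t + M * h t) :
    IntegrableOn f S ∧ ∫ t in S, f t ≤ K * (∫ t, g t) + M * ∫ t in S, h t := by
  have h1 : IntegrableOn (fun t => K * g t + M * h t) S :=
    (hg.integrableOn.const_mul K).add (hh.const_mul M)
  have h2 : IntegrableOn f S := by
    refine Integrable.mono' h1 hf.aestronglyMeasurable ((ae_restrict_iff' hS).2 ?_)
    exact Eventually.of_forall fun t ht => (abs_of_nonneg (h0 t)).trans_le (H t ht)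
  refine ⟨h2, (setIntegral_mono_on h2 h1 hS H).trans ?_⟩
  rw [integral_add (hg.integrableOn.const_mul K) (hh.const_mul M), integral_const_mul,
    integral_const_mul]
  exact add_le_add_left (mul_le_mul_of_nonneg_left
    (setIntegral_le_integral hg (Eventually.of_forall hg0)) hK) _

theorem KerL_Iio {a : ℝ} (ha : 0 < a) (c : ℝ) : IntegrableOn (fun x => exp (a * x)) (Iio c) ∧
    ∫ x in Iio c, exp (a * x) = exp (a * c) / a :=
  ⟨(integrableOn_exp_mul_Iic ha c).mono_set Iio_subset_Iic_self,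
    integral_Iic_eq_integral_Iio.symm.trans (integral_exp_mul_Iic ha c)⟩

theorem KerL_nk (s φ φ' : ℝ) : |nk s φ - nk s φ'| ≤ |lg s φ - lg s φ'| + exp s * |φ - φ'| := by
  rw [show nk s φ - nk s φ' = lg s φ - lg s φ' + exp s * (cos φ - cos φ') by unfold nk; ring]
  refine (abs_add_le _ _).trans (add_le_add_right ?_ _)
  rw [abs_mul, abs_of_pos (exp_pos s)]
  exact mul_le_mul_of_nonneg_left (abs_cos_sub_cos_le _ _) (exp_pos s).le

theorem KerL_three {x y : ℝ} (h : x ≤ y + 1) : exp x ≤ 3 * exp y := by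
  refine (exp_le_exp.2 h).trans ?_
  rw [exp_add, mul_comm]
  exact mul_le_mul_of_nonneg_right (exp_one_lt_d9.le.trans (by norm_num)) (exp_pos y).le

theorem lip_Nh_neg : ∃ C : ℝ, 1 ≤ C ∧ ∀ lam u φ φ' : ℝ, 1 ≤ lam → lam ≤ 11 / 10 → 0 ≤ u →
    ∫ s in Iio (-u), |Nh lam s φ - Nh lam s φ'| ≤ C * |φ - φ'| * exp (-2 * u) := by
  refine ⟨exp 2 * π + 4, by linarith only [mul_pos (exp_pos 2) pi_pos], fun lam u φ φ' h1 h2 hu => ?_⟩
  obtain ⟨h3, h4⟩ := lip_Nh (by linarith only [h1] : 0 < lam) φ φ'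
  obtain ⟨h5, h6⟩ := KerL_Iio two_pos (-u)
  have hΔ := abs_nonneg (φ - φ')
  have hm : Measurable fun s => |Nh lam s φ - Nh lam s φ'| := by
    simp only [Nh, lg_eq]
    fun_prop
  refine (KerL_dom measurableSet_Iio (K := exp 2 * exp (-2 * u)) (M := 7 * |φ - φ'|) hm
    (fun _ => abs_nonneg _) h3 (fun _ => abs_nonneg _) h5 (by positivity) fun s hs => ?_).2.trans ?_
  · rcases le_total s (-1) with h | h
    · have h7 := KerL_pt (s := 2 * lam * s) (by linarith only [h1, h, mul_nonneg_of_nonpos_of_nonpos (Mathlib.Tactic.Linarith.sub_nonpos_of_le h1) (Mathlib.Tactic.Linarith.sub_nonpos_of_le h)]) (2 * lam * φ) (2 * lam * φ')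
      have h8 : exp (2 * lam * s) ≤ exp (2 * s) := exp_le_exp.2 (by linarith only [h1, h, mul_nonneg_of_nonpos_of_nonpos (Mathlib.Tactic.Linarith.sub_nonpos_of_le h1) (Mathlib.Tactic.Linarith.sub_nonpos_of_le h)])
      rw [← mul_sub, abs_mul, abs_of_pos (by linarith only [h1] : 0 < 2 * lam)] at h7
      have h9 : exp (2 * lam * s) * (2 * lam * |φ - φ'|) ≤ exp (2 * s) * (7 / 3 * |φ - φ'|) :=
        mul_le_mul h8 (mul_le_mul_of_nonneg_right (by linarith only [h2]) hΔ) (by positivity) (exp_pos _).le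
      refine le_add_of_nonneg_of_le (by positivity) (le_trans h7 (by linarith only [h9]))
    · refine le_add_of_le_of_nonneg (le_mul_of_one_le_left (abs_nonneg _) ?_) (by positivity)
      rw [← exp_add]
      exact one_le_exp (by linarith only [h, hs, mem_Iio.1 hs])
  · rw [h6, show 2 * -u = -2 * u by ring]
    have h7 := mul_le_mul_of_nonneg_left h4 (show 0 ≤ exp 2 * exp (-2 * u) by positivity)
    linarith only [h7, hΔ, mul_nonneg hΔ (exp_pos (-2 * u)).le]

theorem lip_nk_neg : ∃ C : ℝ, 1 ≤ C ∧ ∀ a u φ φ' : ℝ, 0 ≤ a → a ≤ 11 / 10 → 0 ≤ u →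
    IntegrableOn (fun s => exp (-a * s) * |nk s φ - nk s φ'|) (Iio (-u)) ∧
      ∫ s in Iio (-u), exp (-a * s) * |nk s φ - nk s φ'| ≤ C * |φ - φ'| * exp (-(2 - a) * u) := by
  refine ⟨exp 4 * π + 4, by linarith only [mul_pos (exp_pos 4) pi_pos], fun a u φ φ' h1 h2 hu => ?_⟩
  obtain ⟨h3, h4⟩ := lip_lg φ φ'
  obtain ⟨h5, h6⟩ := KerL_Iio (by linarith only [h2] : 0 < 2 - a) (-u)
  have hΔ := abs_nonneg (φ - φ')
  refine (KerL_dom measurableSet_Iio (K := exp 4 * exp (-(2 - a) * u)) (M := 3 * |φ - φ'|)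
    (f := fun s => exp (-a * s) * |nk s φ - nk s φ'|)
    (Measurable.mul (by fun_prop) (KerL_meas' φ φ')) (fun _ => by positivity) h3
    (fun _ => abs_nonneg _) h5 (by positivity) fun s hs => ?_).imp_right fun h => h.trans ?_
  · have hs' := mem_Iio.1 hs
    rcases le_total s (-1) with h | h
    · have h7 := mul_le_mul_of_nonneg_left (lip_nk_pt h φ φ') (exp_pos (-a * s)).le
      have h8 : exp ((2 - a) * s) = exp (-a * s) * exp (2 * s) := by
        rw [← exp_add]
        congr 1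
        ring
      refine le_add_of_nonneg_of_le (by positivity) (h7.trans ?_)
      rw [h8]
      linarith only [hΔ, mul_nonneg (mul_pos (exp_pos (-a * s)) (exp_pos (2 * s))).le hΔ]
    · refine (mul_le_mul_of_nonneg_left (KerL_nk s φ φ') (exp_pos _).le).trans ?_
      rw [mul_add, ← mul_assoc, ← exp_add, ← exp_add]
      refine add_le_add (mul_le_mul_of_nonneg_right (exp_le_exp.2 (by linarith only [h2, hs', h, h1, hu, mul_nonneg_of_nonpos_of_nonpos (Mathlib.Tactic.Linarith.sub_nonpos_of_le h1) (Mathlib.Tactic.Linarith.sub_nonpos_of_le hu), mul_nonneg_of_nonpos_of_nonpos (Mathlib.Tactic.Linarith.sub_nonpos_of_le h1) (Mathlib.Tactic.Linarith.sub_nonpos_of_le h)])) (abs_nonneg _)) ?_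
      have h7 := KerL_three (show -a * s + s ≤ (2 - a) * s + 1 by linarith only [h])
      linarith only [h7, hΔ, mul_le_mul_of_nonneg_right h7 hΔ]
  · rw [h6, show (2 - a) * -u = -(2 - a) * u by ring]
    have h7 := mul_le_mul_of_nonneg_left h4 (show 0 ≤ exp 4 * exp (-(2 - a) * u) by positivity)
    have h8 : exp (-(2 - a) * u) / (2 - a) ≤ 4 / 3 * exp (-(2 - a) * u) := by
      rw [div_le_iff₀ (by linarith only [h2])]
      linarith only [h2, exp_pos (-(2 - a) * u), mul_nonneg_of_nonpos_of_nonpos (Mathlib.Tactic.Linarith.sub_nonpos_of_le h2) (le_of_lt (Mathlib.Tactic.Linarith.sub_neg_of_lt (exp_pos (-((2 : ℝ) - a) * u))))]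
    linarith only [h7, h8, hΔ, mul_le_mul_of_nonneg_left h8 hΔ]

theorem lip_nk_pos : ∃ C : ℝ, 1 ≤ C ∧ ∀ lam u φ φ' : ℝ, 1 < lam → lam ≤ 11 / 10 → 0 ≤ u →
    IntegrableOn (fun t => exp (-2 * lam * t) * |nk (t - u) φ - nk (t - u) φ'|) (Ioi 0) ∧
      ∫ t in Ioi 0, exp (-2 * lam * t) * |nk (t - u) φ - nk (t - u) φ'| ≤
        C * |φ - φ'| * exp (-2 * u) / (lam - 1) := by
  refine ⟨exp 2 * π + 2, by linarith [mul_pos (exp_pos 2) pi_pos], fun lam u φ φ' h1 h2 hu => ?_⟩
  obtain ⟨h3, h4⟩ := lip_lg φ φ'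
  have h0 : -2 * (lam - 1) < 0 := by linarith only [h1]
  have hΔ := abs_nonneg (φ - φ')
  refine (KerL_dom measurableSet_Ioi (K := exp 2 * exp (-2 * u))
    (M := 3 * |φ - φ'| * exp (-2 * u))
    (f := fun t => exp (-2 * lam * t) * |nk (t - u) φ - nk (t - u) φ'|)
    (Measurable.mul (by fun_prop) ((KerL_meas' φ φ').comp (measurable_id.sub_const u)))
    (fun _ => by positivity) (h3.comp_sub_right u) (fun _ => abs_nonneg _)
    (integrableOn_exp_mul_Ioi h0 0) (by positivity) fun t ht => ?_).imp_right fun h => h.trans ?_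
  · have ht' := mem_Ioi.1 ht
    rcases le_total (t - u) (-1) with h | h
    · have h7 := mul_le_mul_of_nonneg_left (lip_nk_pt h φ φ') (exp_pos (-2 * lam * t)).le
      have h8 : exp (-2 * u) * exp (-2 * (lam - 1) * t) =
          exp (-2 * lam * t) * exp (2 * (t - u)) := by
        rw [← exp_add, ← exp_add]
        congr 1
        ring
      refine le_add_of_nonneg_of_le (by positivity) (h7.trans ?_)
      rw [mul_assoc (3 * |φ - φ'|), h8]
      linarith only [hΔ, mul_nonneg (mul_pos (exp_pos (-2 * lam * t)) (exp_pos (2 * (t - u)))).le hΔ]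
    · refine (mul_le_mul_of_nonneg_left (KerL_nk (t - u) φ φ') (exp_pos _).le).trans ?_
      rw [mul_add, ← mul_assoc, mul_assoc (3 * |φ - φ'|), ← exp_add, ← exp_add, ← exp_add]
      refine add_le_add (mul_le_mul_of_nonneg_right (exp_le_exp.2 (by linarith only [h, h1, ht', mul_pos_of_neg_of_neg (Mathlib.Tactic.Linarith.sub_neg_of_lt h1) (Mathlib.Tactic.Linarith.sub_neg_of_lt ht')])) (abs_nonneg _)) ?_
      have h7 := KerL_three
        (show -2 * lam * t + (t - u) ≤ -2 * u + -2 * (lam - 1) * t + 1 by linarith only [h])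
      linarith only [h7, hΔ, mul_le_mul_of_nonneg_right h7 hΔ]
  · rw [integral_exp_mul_Ioi h0, integral_sub_right_eq_self (fun t => |lg t φ - lg t φ'|), mul_zero,
      exp_zero, le_div_iff₀ (by linarith), add_mul, mul_assoc (3 * _ * _),
      show -1 / (-2 * (lam - 1)) * (lam - 1) = 1 / 2 by
        have : lam - 1 ≠ 0 := by linarith
        field_simp]
    have h7 := mul_le_mul_of_nonneg_left h4 (show 0 ≤ exp 2 * exp (-2 * u) by positivity)
    have h8 := mul_le_mul h7 (show lam - 1 ≤ 1 by linarith only [h1, h2]) (by linarith) (by positivity)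
    linarith only [h8, hΔ, mul_nonneg hΔ (exp_pos (-2 * u)).le]

end

end Pool.Agent.MinMod
end

-- merged part: Pool.Agent.Work.MP_f62247_an.FkB
section
/-!
# Bounds for `fk`, and continuity of line integrals in the angle

* `fk_res`: `(w - 2 π i k) fk w → 1` (`(e^w - 1)/(w - 2πik) → 1`, `hasDerivAt_iff_tendsto_slope`).
* `norm_fk_le`: `‖1 - e^w‖ ≥ |1 - e^s|`.
* `norm_fk_le'`: `‖1 - e^w‖ ≥ c max (1, e^s)` if `t ≤ |rp φ|`.
* `continuous_int_*`: `|∫ ρ (nk φ - nk φ')| ≤ C ∫ |lg φ - lg φ'| + |φ - φ'| ∫ |ρ| e^(t-ξ)` (`lip_lg`; `ρ` is bounded).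
* `hasDerivAt_int_nk`: `hasDerivAt_integral_of_dominated_loc_of_deriv_le` near an angle off `2 π ℤ`, dominated by
  `C |ρ t| e^(t-ξ)` (`norm_fk_le'`, `neg_im_fk`, `hasDerivAt_lg`).
* `parts_nk`: `integral_mul_deriv_eq_deriv_mul` on the whole line (`MeasureTheory.integral_mul_deriv_eq_deriv_mul_of_integrable`).
-/

open Real MeasureTheory Set Filter Topology

namespace Pool.Agent.MinMod

noncomputable section

theorem fk_res (k : ℤ) : Tendsto (fun w : ℂ => (w - k * (2 * π * Complex.I)) * fk w)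
    (𝓝[≠] (k * (2 * π * Complex.I))) (𝓝 1) := by
  have h0 := Complex.exp_int_mul_two_pi_mul_I k
  generalize (k : ℂ) * (2 * π * Complex.I) = p at h0
  have h1 := hasDerivAt_iff_tendsto_slope.1 (Complex.hasDerivAt_exp p)
  have h2 : Tendsto (fun w => Complex.exp w * Complex.exp w) (𝓝[≠] p) (𝓝 (1 * 1)) := by
    have := (Complex.continuous_exp.tendsto p).mono_left (nhdsWithin_le_nhds (s := {p}ᶜ))
    rw [h0] at this
    exact this.mul this
  rw [h0] at h1
  have h3 := h2.div h1 one_ne_zero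
  rw [mul_one, div_one] at h3
  refine h3.congr fun w => ?_
  rw [Pi.div_apply, slope_def_field, h0, KerA_fk, div_div_eq_mul_div, neg_div, ← div_neg, neg_sub]
  ring

theorem differentiableAt_fk {w : ℂ} (h : Complex.exp w ≠ 1) : DifferentiableAt ℂ fk w := by
  unfold fk
  exact DifferentiableAt.div (by fun_prop) (by fun_prop) (sub_ne_zero.2 h.symm)

theorem FkB_core {w : ℂ} {C : ℝ} (hC : 0 < C) (h : max 1 (exp w.re) ≤ C * ‖1 - Complex.exp w‖) :
    ‖fk w‖ ≤ C * min (exp (2 * w.re)) (exp w.re) := by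
  have h1 : 0 < ‖1 - Complex.exp w‖ :=
    pos_of_mul_pos_right (one_pos.trans_le ((le_max_left _ _).trans h)) hC.le
  have h2 := exp_pos w.re
  rw [KerA_fk, norm_div, norm_neg, norm_mul, Complex.norm_exp, div_le_iff₀ h1, KerA_two,
    mul_right_comm, mul_comm _ (min _ _)]
  refine le_trans ?_ (mul_le_mul_of_nonneg_left h (by positivity))
  rcases le_total (exp w.re) 1 with h3 | h3
  · rw [max_eq_left h3, min_eq_left (by linarith only [h2, h3, mul_nonneg_of_nonpos_of_nonpos (le_of_lt (Mathlib.Tactic.Linarith.sub_neg_of_lt h2)) (Mathlib.Tactic.Linarith.sub_nonpos_of_le h3)]), mul_one, sq]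
  · rw [max_eq_right h3, min_eq_right (by linarith only [h2, h3, mul_nonneg_of_nonpos_of_nonpos (le_of_lt (Mathlib.Tactic.Linarith.sub_neg_of_lt h2)) (Mathlib.Tactic.Linarith.sub_nonpos_of_le h3)])]

theorem norm_fk_le {w : ℂ} (h : 1 ≤ |w.re|) : ‖fk w‖ ≤ 2 * min (exp (2 * w.re)) (exp w.re) := by
  refine FkB_core two_pos ?_
  have h1 := abs_norm_sub_norm_le 1 (Complex.exp w)
  rw [norm_one, Complex.norm_exp] at h1
  have h2 := exp_pos w.re
  rcases le_abs'.1 h with h3 | h3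
  · have h4 : exp w.re * 2 ≤ 1 := by
      have h5 := add_one_le_exp (-w.re)
      have h6 : exp w.re * exp (-w.re) = 1 := by rw [← exp_add, add_neg_cancel, exp_zero]
      linarith only [h6, h2, h3, h5, mul_nonneg_of_nonpos_of_nonpos (le_of_lt (Mathlib.Tactic.Linarith.sub_neg_of_lt h2)) (Mathlib.Tactic.Linarith.sub_nonpos_of_le h3), mul_nonneg_of_nonpos_of_nonpos (le_of_lt (Mathlib.Tactic.Linarith.sub_neg_of_lt h2)) (Mathlib.Tactic.Linarith.sub_nonpos_of_le h5)]
    have := le_abs_self (1 - exp w.re)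
    exact max_le (by linarith) (by linarith only [h1, h2, h4, this])
  · have h4 := add_one_le_exp w.re
    have := neg_le_abs (1 - exp w.re)
    exact max_le (by linarith only [h1, h3, h4, this]) (by linarith)

theorem norm_fk_le' {t : ℝ} (ht : 0 < t) : ∃ C : ℝ, 1 ≤ C ∧ ∀ w : ℂ, t ≤ |rp w.im| →
    Complex.exp w ≠ 1 ∧ ‖fk w‖ ≤ C * min (exp (2 * w.re)) (exp w.re) := by
  obtain ⟨C, h0, hC⟩ := lg_ge_of_rp ht
  refine ⟨exp C, one_le_exp h0, fun w hw => ?_⟩
  have h1 : Complex.exp w ≠ 1 := fun h1 => by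
    obtain ⟨n, rfl⟩ := Complex.exp_eq_one_iff.1 h1
    have h2 := rp_per 0 n
    rw [zero_add, rp_eq (η := 0) (by simpa using pi_pos)] at h2
    simp [h2] at hw
    linarith
  refine ⟨h1, FkB_core (exp_pos C) ?_⟩
  have h2 := hC w.re w.im hw
  rw [lg, Complex.re_add_im, le_log_iff_exp_le (norm_pos_iff.2 (sub_ne_zero.2 h1.symm)), exp_sub,
    div_le_iff₀' (exp_pos C), exp_monotone.map_max, exp_zero, max_comm] at h2
  exact h2

theorem FkB_ae (ξ : ℝ) : ∀ᵐ t : ℝ, t - ξ ≠ 0 := by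
  filter_upwards [Measure.ae_ne volume ξ] with t ht using sub_ne_zero.2 ht

theorem FkB_cont {s : ℝ} (hs : s ≠ 0) : Continuous (lg s) :=
  continuous_iff_continuousAt.2 fun φ => (hasDerivAt_lg (exp_ne_one hs φ)).continuousAt

theorem continuous_int_nk {lam : ℝ} {ρ : ℝ → ℝ} (h : Wt lam ρ) (hl : 1 < lam) (ξ : ℝ) :
    Continuous fun φ => ∫ t, ρ t * nk (t - ξ) φ := by
  refine continuous_of_dominated (fun φ => (h.int_nk hl ξ φ).1) (fun φ => ?_)
    (h.int_env hl ξ).norm ?_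
  · filter_upwards [FkB_ae ξ] with t ht
    rw [norm_mul, norm_mul]
    exact mul_le_mul_of_nonneg_left ((abs_nk_le ht φ).trans (le_abs_self _)) (norm_nonneg _)
  · filter_upwards [FkB_ae ξ] with t ht
    exact continuous_const.mul ((FkB_cont ht).add (by fun_prop))

theorem continuous_int_Nh {lam : ℝ} {ρ : ℝ → ℝ} (h : Wt lam ρ) (hl : 1 < lam) (ξ : ℝ) :
    Continuous fun φ => ∫ t, ρ t * Nh lam (t - ξ) φ := by
  refine continuous_of_dominated (fun φ => (h.int_Nh hl ξ φ).1) (fun φ => ?_)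
    ((h.int_Nh hl ξ 0).norm.add ((h.int_env hl ξ).norm.const_mul 2)) ?_
  · filter_upwards [FkB_ae ξ] with t ht
    obtain ⟨h1, h2, -⟩ := abs_gapN_le hl.le ht φ
    have h3 := abs_add_le (Nh lam (t - ξ) 0) (Nh lam (t - ξ) φ - Nh lam (t - ξ) 0)
    rw [add_sub_cancel, abs_of_nonneg h1] at h3
    simp only [Pi.add_apply, norm_mul, Real.norm_eq_abs]
    linarith only [h2, h3, abs_nonneg (ρ t), le_abs_self (env (t - ξ)), mul_nonneg_of_nonpos_of_nonpos (Mathlib.Tactic.Linarith.sub_nonpos_of_le h2) (Mathlib.Tactic.Linarith.sub_nonpos_of_le (abs_nonneg (ρ t))), mul_nonneg_of_nonpos_of_nonpos (Mathlib.Tactic.Linarith.sub_nonpos_of_le h3) (Mathlib.Tactic.Linarith.sub_nonpos_of_le (abs_nonneg (ρ t))), mul_nonneg_of_nonpos_of_nonpos (Mathlib.Tactic.Linarith.sub_nonpos_of_le (abs_nonneg (ρ t))) (Mathlib.Tactic.Linarith.sub_nonpos_of_le (le_abs_self (env (t - ξ))))]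
  · filter_upwards [FkB_ae ξ] with t ht
    exact continuous_const.mul ((FkB_cont (mul_ne_zero (by positivity) ht)).comp (by fun_prop))

theorem FkB_meas (ξ φ : ℝ) : Measurable fun t : ℝ => fk ((t - ξ : ℝ) + φ * Complex.I) := by
  unfold fk
  fun_prop

theorem FkB_bound {r t ξ φ x C : ℝ} (hx : |x| ≤ ‖fk ((t - ξ : ℝ) + φ * Complex.I)‖)
    (h : ‖fk ((t - ξ : ℝ) + φ * Complex.I)‖ ≤ C *
      min (exp (2 * (((t - ξ : ℝ) : ℂ) + φ * Complex.I).re))
        (exp (((t - ξ : ℝ) : ℂ) + φ * Complex.I).re)) :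
    ‖r * x‖ ≤ |C| * exp (-ξ) * ‖r * exp t‖ := by
  have h1 := (hx.trans h).trans ((mul_le_mul_of_nonneg_right (le_abs_self C) (by positivity)).trans
    (mul_le_mul_of_nonneg_left (min_le_right _ _) (abs_nonneg C)))
  simp only [Complex.add_re, Complex.ofReal_re, Complex.mul_I_re, Complex.ofReal_im, neg_zero,
    add_zero] at h1
  rw [sub_eq_neg_add, exp_add, ← mul_assoc] at h1
  rw [norm_mul, norm_mul, Real.norm_eq_abs x, Real.norm_of_nonneg (exp_pos t).le, mul_left_comm]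
  exact mul_le_mul_of_nonneg_left h1 (norm_nonneg _)

theorem hasDerivAt_int_nk {lam : ℝ} {ρ : ℝ → ℝ} (h : Wt lam ρ) (hl : 1 < lam) (ξ : ℝ) {φ : ℝ}
    (hφ : rp φ ≠ 0) : (Integrable fun t : ℝ => ρ t * (fk ((t - ξ : ℝ) + φ * Complex.I)).im) ∧
      HasDerivAt (fun φ => ∫ t, ρ t * nk (t - ξ) φ)
        (-∫ t : ℝ, ρ t * (fk ((t - ξ : ℝ) + φ * Complex.I)).im) φ := by
  have h0 := half_pos (abs_pos.2 hφ)
  obtain ⟨C, -, hC⟩ := norm_fk_le' h0
  have h1 : ∀ ψ ∈ Metric.ball φ (|rp φ| / 2), ∀ s : ℝ, |rp φ| / 2 ≤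
      |rp ((s : ℂ) + ψ * Complex.I).im| := by
    intro ψ hψ s
    have h2 := abs_rp_add_le ψ (φ - ψ)
    have h3 := abs_rp_le (φ - ψ)
    rw [Metric.mem_ball', Real.dist_eq] at hψ
    rw [add_sub_cancel] at h2
    simp only [Complex.add_im, Complex.ofReal_im, Complex.mul_I_im, Complex.ofReal_re, zero_add]
    linarith only [hψ, h2, h3]
  have h2 := hasDerivAt_integral_of_dominated_loc_of_deriv_le (Metric.ball_mem_nhds φ h0)
    (F := fun ψ t => ρ t * nk (t - ξ) ψ)
    (F' := fun ψ t => -(ρ t * (fk ((t - ξ : ℝ) + ψ * Complex.I)).im))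
    (Eventually.of_forall fun ψ => (h.int_nk hl ξ ψ).1) (h.int_nk hl ξ φ)
    (h.1.mul (Complex.measurable_im.comp (FkB_meas ξ φ))).neg.aestronglyMeasurable
    (ae_of_all _ fun t ψ hψ => by
      rw [norm_neg]
      exact FkB_bound (Complex.abs_im_le_norm _) (hC _ (h1 ψ hψ _)).2)
    ((h.int_exp hl).norm.const_mul _)
    (ae_of_all _ fun t ψ hψ => by
      have h3 := (hC _ (h1 ψ hψ (t - ξ))).1
      rw [← mul_neg, neg_im_fk h3, sub_eq_add_neg (dlg _ _), ← mul_neg]
      exact ((hasDerivAt_lg h3).add ((hasDerivAt_cos ψ).const_mul _)).const_mul _)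
  rw [integral_neg] at h2
  exact ⟨integrable_neg_iff.1 h2.1, h2.2⟩

theorem parts_nk {lam : ℝ} {ρ ρ' : ℝ → ℝ} (h : Wt lam ρ) (h' : Wt lam ρ') (hl : 1 < lam)
    (hd : ∀ t, HasDerivAt ρ (ρ' t) t) (ξ : ℝ) {φ : ℝ} (hφ : rp φ ≠ 0) :
    (Integrable fun t : ℝ => ρ t * (fk ((t - ξ : ℝ) + φ * Complex.I)).re) ∧
      ∫ t : ℝ, ρ t * (fk ((t - ξ : ℝ) + φ * Complex.I)).re = -∫ t, ρ' t * nk (t - ξ) φ := by
  obtain ⟨C, -, hC⟩ := norm_fk_le' (abs_pos.2 hφ)
  have h1 : ∀ s : ℝ, |rp φ| ≤ |rp ((s : ℂ) + φ * Complex.I).im| := fun s => by simp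
  have h2 : Integrable fun t : ℝ => ρ t * (fk ((t - ξ : ℝ) + φ * Complex.I)).re :=
    ((h.int_exp hl).norm.const_mul _).mono'
      (h.1.mul (Complex.measurable_re.comp (FkB_meas ξ φ))).aestronglyMeasurable
      (ae_of_all _ fun t => FkB_bound (Complex.abs_re_le_norm _) (hC _ (h1 _)).2)
  exact ⟨h2, integral_mul_deriv_eq_deriv_mul_of_integrable (v := fun t => nk (t - ξ) φ)
    (fun t _ => hd t) (fun t _ => (hasDerivAt_nk_fst (hC _ (h1 _)).1).comp_sub_const t ξ) h2
    (h'.int_nk hl ξ φ) (h.int_nk hl ξ φ)⟩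

end

end Pool.Agent.MinMod
end

-- merged part: Pool.Agent.Work.MP_f62247_an.Res
section
/-!
# Residues in a strip; a mean value inequality

`strip_res`: take `T > b - a` and `ψ p z = 1 / (z - p) - 1 / (z - p - i T)`.  For real `α ≠ 0`, `α < T`,
`∫ (1 / (t + i α) - 1 / (t + i (α - T))) dt` is `0` for `α < 0` and `-2 π i` for `α > 0` (real part odd, imaginary part
`-α/(t²+α²) + (α-T)/(t²+(α-T)²)`).  `g - ∑ R p ψ p` has removable singularities
(`Complex.differentiableOn_update_limUnder_of_isLittleO` or `Complex.differentiableOn_compl_singleton_and_continuousAt_iff`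
applied to `(z - p) g z` and `dslope`); `Complex.integral_boundary_rect_eq_zero_of_differentiable_on_off_countable`
on `[-X, X] × [a, b]`, `X → ∞` (`intervalIntegral_tendsto_integral`).
`mvi_countable`: `MeasureTheory.integral_eq_of_hasDerivAt_off_countable_of_le` with `deriv f` (measurable, a.e. bounded).
-/

open Real MeasureTheory Set Filter Topology

namespace Pool.Agent.MinMod

noncomputable section

/-- The principal value of the integral of a simple pole along the real line. -/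
theorem Res_pv (c q : ℂ) (h : ∀ x : ℝ, c * (x - q) ∈ Complex.slitPlane)
    (h1 : c ∈ Complex.slitPlane) (h2 : -c ∈ Complex.slitPlane) :
    Tendsto (fun X : ℝ => ∫ x in -X..X, ((x : ℂ) - q)⁻¹) atTop
      (𝓝 (Complex.log c - Complex.log (-c))) := by
  have hc := Complex.slitPlane_ne_zero h1
  have h0 : ∀ x : ℝ, (x : ℂ) - q ≠ 0 := fun x =>
    right_ne_zero_of_mul (Complex.slitPlane_ne_zero (h x))
  have h3 : ∀ x : ℝ, HasDerivAt (fun x : ℝ => Complex.log (c * (x - q))) ((x : ℂ) - q)⁻¹ x :=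
    fun x => by
    have := (((hasDerivAt_id (x : ℂ)).sub_const q).const_mul c).comp_ofReal.clog_real (h x)
    simpa [mul_div_mul_left _ _ hc, div_mul_cancel_left₀ hc] using this
  have h4 : Tendsto (fun X : ℝ => q * (X : ℂ)⁻¹) atTop (𝓝 0) := by
    have := ((Complex.continuous_ofReal.tendsto 0).comp tendsto_inv_atTop_zero).const_mul q
    simpa [Function.comp_def] using this
  have h5 : Tendsto (fun X : ℝ => c * (1 - q * (X : ℂ)⁻¹)) atTop (𝓝 c) := by
    simpa using (h4.const_sub 1).const_mul c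
  have h6 : Tendsto (fun X : ℝ => c * (-1 - q * (X : ℂ)⁻¹)) atTop (𝓝 (-c)) := by
    simpa using (h4.const_sub (-1)).const_mul c
  refine ((h5.clog h1).sub (h6.clog h2)).congr' ?_
  filter_upwards [eventually_gt_atTop 0] with X hX
  have hX' : (X : ℂ) ≠ 0 := Complex.ofReal_ne_zero.2 hX.ne'
  have e1 : c * ((X : ℂ) - q) = X * (c * (1 - q * (X : ℂ)⁻¹)) := by field_simp
  have e2 : c * (((-X : ℝ) : ℂ) - q) = X * (c * (-1 - q * (X : ℂ)⁻¹)) := by
    push_cast
    field_simp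
  rw [intervalIntegral.integral_eq_sub_of_hasDerivAt (fun x _ => h3 x)
    (((Complex.continuous_ofReal.sub continuous_const).inv₀ h0).intervalIntegrable _ _), e1, e2,
    Complex.log_ofReal_mul hX (right_ne_zero_of_mul (e1 ▸ mul_ne_zero hc (h0 _))),
    Complex.log_ofReal_mul hX (right_ne_zero_of_mul (e2 ▸ mul_ne_zero hc (h0 _)))]
  ring

theorem Res_dec {a b : ℝ} {h : ℂ → ℂ} :
    (∀ δ : ℝ, 0 < δ → ∃ T : ℝ, ∀ z : ℂ, a ≤ z.im → z.im ≤ b → T ≤ |z.re| → ‖h z‖ ≤ δ) ↔
      Tendsto h (comap (fun z : ℂ => |z.re|) atTop ⊓ 𝓟 {z | a ≤ z.im ∧ z.im ≤ b}) (𝓝 0) := by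
  simp only [Metric.nhds_basis_closedBall.tendsto_right_iff, eventually_inf_principal,
    eventually_comap, eventually_atTop, mem_closedBall_zero_iff, mem_ofPred_eq]
  refine forall₂_congr fun δ _ => exists_congr fun T => ⟨fun h _ h1 z e h2 => ?_, fun h z a b c => ?_⟩
  · exact h z h2.1 h2.2 (e ▸ h1)
  · exact h _ c z rfl ⟨a, b⟩

theorem Res_vert {a b : ℝ} (hab : a < b) {h : ℂ → ℂ}
    (hdec : ∀ δ : ℝ, 0 < δ → ∃ T : ℝ, ∀ z : ℂ, a ≤ z.im → z.im ≤ b → T ≤ |z.re| → ‖h z‖ ≤ δ)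
    (σ : ℝ → ℝ) (hσ : ∀ X, |σ X| = |X|) :
    Tendsto (fun X : ℝ => ∫ y in a..b, h (σ X + y * Complex.I)) atTop (𝓝 0) := by
  refine Metric.nhds_basis_closedBall.tendsto_right_iff.2 fun δ hδ => ?_
  obtain ⟨T, hT⟩ := hdec (δ / (b - a)) (div_pos hδ (sub_pos.2 hab))
  filter_upwards [eventually_ge_atTop T] with X hX
  rw [mem_closedBall_zero_iff]
  refine (intervalIntegral.norm_integral_le_of_norm_le_const (C := δ / (b - a))
    fun y hy => ?_).trans_eq ?_
  · rw [uIoc_of_le hab.le] at hy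
    exact hT _ (by simpa using hy.1.le) (by simpa using hy.2)
      (by simpa [hσ] using hX.trans (le_abs_self X))
  · rw [abs_of_pos (sub_pos.2 hab), div_mul_cancel₀ _ (sub_pos.2 hab).ne']

theorem strip_res {a b : ℝ} (hab : a < b) (g : ℂ → ℂ) (S : Finset ℂ) (R : ℂ → ℂ)
    (hS : ∀ p ∈ S, a < p.im ∧ p.im < b)
    (hd : ∀ z : ℂ, a ≤ z.im → z.im ≤ b → z ∉ S → DifferentiableAt ℂ g z)
    (hR : ∀ p ∈ S, Tendsto (fun z => (z - p) * g z) (𝓝[≠] p) (𝓝 (R p)))
    (ha : Integrable fun t : ℝ => g (t + a * Complex.I))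
    (hb : Integrable fun t : ℝ => g (t + b * Complex.I))
    (hdec : ∀ δ : ℝ, 0 < δ → ∃ T : ℝ, ∀ z : ℂ, a ≤ z.im → z.im ≤ b → T ≤ |z.re| → ‖g z‖ ≤ δ) :
    (∫ t : ℝ, g (t + a * Complex.I)) - ∫ t : ℝ, g (t + b * Complex.I) =
      2 * π * Complex.I * ∑ p ∈ S, R p := by
  classical
  let h₀ : ℂ → ℂ := fun z => g z - ∑ p ∈ S, R p * (z - p)⁻¹
  let h : ℂ → ℂ := fun z => if z ∈ S then limUnder (𝓝[≠] z) h₀ else h₀ z
  have e0 : ∀ z ∉ S, h z = h₀ z := fun z hz => if_neg hz
  have d0 : ∀ z : ℂ, a ≤ z.im → z.im ≤ b → z ∉ S → DifferentiableAt ℂ h₀ z := fun z h1 h2 h3 =>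
    (hd z h1 h2 h3).sub (DifferentiableAt.fun_sum fun p hp => ((differentiableAt_id.sub_const p).inv
      (sub_ne_zero.2 fun e => h3 (by rwa [← id_eq z, e]))).const_mul _)
  have d1 : ∀ z : ℂ, a ≤ z.im → z.im ≤ b → z ∉ S → DifferentiableAt ℂ h z := fun z h1 h2 h3 =>
    (d0 z h1 h2 h3).congr_of_eventuallyEq
      (mem_of_superset (S.finite_toSet.isClosed.isOpen_compl.mem_nhds h3) e0)
  have d2 : ∀ p ∈ S, ContinuousAt h p := fun p hp => by
    have h1 : ∀ᶠ z in 𝓝[≠] p, z ∉ S := by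
      have h2 := (S.erase p).finite_toSet.isClosed.isOpen_compl.mem_nhds (S.notMem_erase p)
      filter_upwards [mem_nhdsWithin_of_mem_nhds h2, self_mem_nhdsWithin] with z h3 h4 h5
      exact h3 (Finset.mem_erase.2 ⟨h4, h5⟩)
    have h2 : ∀ᶠ z in 𝓝[≠] p, a < z.im ∧ z.im < b := mem_nhdsWithin_of_mem_nhds
      (Complex.continuous_im.continuousAt.eventually (Ioo_mem_nhds (hS p hp).1 (hS p hp).2))
    rw [continuousAt_iff_punctured_nhds, show h p = limUnder (𝓝[≠] p) h₀ from if_pos hp]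
    refine (Complex.tendsto_limUnder_of_differentiable_on_punctured_nhds_of_isLittleO ?_ ?_).congr'
      (h1.mono fun z hz => (e0 z hz).symm)
    · filter_upwards [h1, h2] with z h3 h4 using d0 z h4.1.le h4.2.le h3
    · have h3 : ContinuousAt (fun z => (z - p) * (∑ q ∈ S.erase p, R q * (z - q)⁻¹ + h₀ p)) p :=
        (continuousAt_id.sub continuousAt_const).mul ((tendsto_finsetSum _ fun q hq =>
          ((continuousAt_id.sub continuousAt_const).inv₀
            (sub_ne_zero.2 (Finset.ne_of_mem_erase hq).symm)).const_mul _).add continuousAt_const)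
      have h4 := ((hR p hp).sub_const (R p)).sub (h3.tendsto.mono_left nhdsWithin_le_nhds)
      simp only [sub_self, zero_mul] at h4
      refine Asymptotics.isLittleO_of_tendsto' (mem_of_superset self_mem_nhdsWithin
        fun z hz e => absurd e (inv_ne_zero (sub_ne_zero.2 hz))) (h4.congr' ?_)
      filter_upwards [self_mem_nhdsWithin] with z hz
      have h5 : z - p ≠ 0 := sub_ne_zero.2 hz
      rw [div_inv_eq_mul, show h₀ z = g z - ∑ p ∈ S, R p * (z - p)⁻¹ from rfl,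
        ← Finset.add_sum_erase S _ hp]
      field_simp
      ring
  have d3 : ∀ δ : ℝ, 0 < δ → ∃ T : ℝ, ∀ z : ℂ, a ≤ z.im → z.im ≤ b → T ≤ |z.re| → ‖h z‖ ≤ δ := by
    rw [Res_dec] at hdec ⊢
    have h1 : ∀ p : ℂ, Tendsto (fun z : ℂ => ‖z - p‖)
        (comap (fun z : ℂ => |z.re|) atTop ⊓ 𝓟 {z | a ≤ z.im ∧ z.im ≤ b}) atTop := fun p =>
      tendsto_atTop_mono (fun z => by
        linarith [Complex.abs_re_le_norm z, norm_sub_norm_le z p])
        (tendsto_atTop_add_const_right _ (-‖p‖) (tendsto_comap.mono_left inf_le_left))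
    have h2 := hdec.sub (tendsto_finsetSum S fun p _ => (tendsto_inv₀_cobounded.comp
      (tendsto_norm_atTop_iff_cobounded.1 (h1 p))).const_mul (R p))
    simp only [mul_zero, Finset.sum_const_zero, sub_zero] at h2
    refine h2.congr' ?_
    filter_upwards [(Finset.eventually_all S).2 fun p _ => (h1 p).eventually_gt_atTop 0] with z hz
    exact (e0 z fun e => by simpa using hz z e).symm
  have line : ∀ y : ℝ, (∀ p ∈ S, p.im ≠ y) → (Integrable fun t : ℝ => g (t + y * Complex.I)) →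
      ∀ X : ℝ, ∫ x in -X..X, h (x + y * Complex.I) = (∫ x in -X..X, g (x + y * Complex.I)) -
        ∑ p ∈ S, R p * ∫ x in -X..X, ((x : ℂ) - (p - y * Complex.I))⁻¹ := fun y h1 h2 X => by
    have h3 : ∀ p ∈ S, IntervalIntegrable (fun x : ℝ => R p * ((x : ℂ) - (p - y * Complex.I))⁻¹)
        volume (-X) X := fun p hp =>
      (continuous_const.mul ((Complex.continuous_ofReal.sub continuous_const).inv₀ fun x e =>
        h1 p hp (Eq.symm (by simpa [sub_eq_zero] using congrArg Complex.im e)))).intervalIntegrable _ _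
    simp only [← intervalIntegral.integral_const_mul]
    rw [← intervalIntegral.integral_finsetSum h3, ← intervalIntegral.integral_sub
      h2.intervalIntegrable (by simpa only [Finset.sum_fn] using IntervalIntegrable.sum S h3)]
    refine intervalIntegral.integral_congr fun x _ => (e0 _ fun e => h1 _ e (by simp)).trans ?_
    simp only [h₀, ← sub_add, sub_add_eq_add_sub]
  have rect : ∀ X : ℝ, (∫ x in -X..X, h (x + a * Complex.I)) - (∫ x in -X..X, h (x + b * Complex.I)) +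
      Complex.I • (∫ y in a..b, h (X + y * Complex.I)) -
      Complex.I • (∫ y in a..b, h ((-X : ℝ) + y * Complex.I)) = 0 := fun X => by
    refine Complex.integral_boundary_rect_eq_zero_of_differentiable_on_off_countable h ⟨-X, a⟩ ⟨X, b⟩
      S S.countable_toSet (fun z hz => ContinuousAt.continuousWithinAt ?_) fun z hz => ?_
    · have h1 : z.im ∈ Icc a b := uIcc_of_le hab.le ▸ hz.2
      by_cases e : z ∈ S
      · exact d2 z e
      · exact (d1 z h1.1 h1.2 e).continuousAt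
    · have h1 : z.im ∈ Ioo (min a b) (max a b) := hz.1.2
      rw [min_eq_left hab.le, max_eq_right hab.le] at h1
      exact d1 z h1.1.le h1.2.le hz.2
  have sI : Complex.I ∈ Complex.slitPlane := Or.inr (by simp)
  have sI' : -Complex.I ∈ Complex.slitPlane := Or.inr (by simp)
  have lim := ((((intervalIntegral_tendsto_integral ha tendsto_neg_atTop_atBot tendsto_id).sub
    (tendsto_finsetSum S fun p hp => (Res_pv Complex.I (p - a * Complex.I)
      (fun x => Or.inl (by simpa using (hS p hp).1)) sI sI').const_mul (R p))).sub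
    ((intervalIntegral_tendsto_integral hb tendsto_neg_atTop_atBot tendsto_id).sub
    (tendsto_finsetSum S fun p hp => (Res_pv (-Complex.I) (p - b * Complex.I)
      (fun x => Or.inl (by simpa using (hS p hp).2)) sI' (by rwa [neg_neg])).const_mul (R p)))).add
    ((Res_vert hab d3 id fun _ => rfl).const_smul Complex.I)).sub
    ((Res_vert hab d3 (fun X => -X) abs_neg).const_smul Complex.I)
  have fin := tendsto_nhds_unique lim ((tendsto_const_nhds (x := (0 : ℂ))).congr fun X => by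
    rw [← rect X, line a (fun p hp => (hS p hp).1.ne') ha, line b (fun p hp => (hS p hp).2.ne) hb]
    rfl)
  rw [neg_neg, Complex.log_I, Complex.log_neg_I, ← Finset.sum_mul, ← Finset.sum_mul] at fin
  simp only [smul_zero] at fin
  linear_combination fin

theorem mvi_countable {f f' : ℝ → ℝ} {a b K : ℝ} (hab : a ≤ b) (hc : ContinuousOn f (Icc a b))
    {S : Set ℝ} (hS : S.Countable)
    (hd : ∀ x ∈ Ioo a b \ S, HasDerivAt f (f' x) x ∧ |f' x| ≤ K) : |f b - f a| ≤ K * (b - a) := by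
  have h1 : ∀ᵐ x, x ∈ uIoc a b → ‖deriv f x‖ ≤ K := by
    filter_upwards [(hS.insert b).ae_notMem volume] with x hx hx'
    rw [uIoc_of_le hab] at hx'
    rw [mem_insert_iff, not_or] at hx
    obtain ⟨h2, h3⟩ := hd x ⟨⟨hx'.1, lt_of_le_of_ne hx'.2 hx.1⟩, hx.2⟩
    rwa [h2.deriv]
  have h2 : IntervalIntegrable (deriv f) volume a b := by
    rw [intervalIntegrable_iff]
    exact Measure.integrableOn_of_bounded (M := K) (by simp [uIoc])
      (measurable_deriv f).aestronglyMeasurable ((ae_restrict_iff' measurableSet_uIoc).2 h1)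
  rw [← integral_eq_of_hasDerivAt_off_countable_of_le f (deriv f) hab hS hc
    (fun x hx => (hd x hx).1.differentiableAt.hasDerivAt) h2, ← abs_of_nonneg (sub_nonneg.2 hab)]
  exact intervalIntegral.norm_integral_le_of_norm_le_const_ae h1

end

end Pool.Agent.MinMod
end

-- merged part: Pool.Agent.Work.MP_f62247_an.SL
section
/-!
# The Mellin transform of the kernel on one line, and the total masses

`sl_nk`, `0 < a < 2 π`: `strip_res` for `g z = fk z e^(-p z)` on the strip `a - 2π ≤ Im ≤ a` (pole `0`, residue `1`,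
`fk` has period `2 π i`) gives `∫ fk (t + i a) e^(-p t) = π e^(i p (a - π)) / sin (π p)`.  Use it for `a` and `2π - a`
(`conj (fk (t + i a)) = fk (t + i (2π - a))`), add, and integrate by parts (`hasDerivAt_nk_fst`).  `a = 0, 2π` by continuity
in `a` (`lip_nk_neg` on `t < 0`, `lip_lg` on `t > 0`; or dominated convergence with `env`).
`sl_lg_half`: the same with `g z = -e^z / (1 - e^z) * e^(-z/2)` (`= (fk z - e^z) e^(-z/2)`, the `t`-derivative of `lg` is the real part of the first factor).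
`tot_up`: with `r = rp`-representatives, `cos (lam (η-π)) + cos (lam (π - h + η)) = 2 sin (lam η) sin (lam π)` for
`0 ≤ η ≤ h`, and the sum vanishes for `h ≤ η ≤ 2π`.  Lower strip: `nk_neg`, `Sg_neg`.
`tot_N`: substitute `u = 2 lam (t - ξ)`; `2 lam (θ - η) ≡ a` mod `2π`, `sin (a/2) = |sin (lam (η - θ))|`.
(All formulas were checked numerically.)
-/

open Real MeasureTheory Set Filter Topology

namespace Pool.Agent.MinMod

noncomputable section

theorem SL_min {a b : ℝ} (ha : 0 < a) (hb : b < 0) :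
    Integrable fun t : ℝ => min (exp (a * t)) (exp (b * t)) := by
  have hm : AEStronglyMeasurable (fun t : ℝ => min (exp (a * t)) (exp (b * t))) volume :=
    Continuous.aestronglyMeasurable (by fun_prop)
  have h0 : ∀ t : ℝ, ‖min (exp (a * t)) (exp (b * t))‖ = min (exp (a * t)) (exp (b * t)) :=
    fun t => norm_of_nonneg (le_min (exp_pos _).le (exp_pos _).le)
  rw [← integrableOn_univ, ← Iic_union_Ioi (a := (0 : ℝ))]
  exact IntegrableOn.union
    ((integrableOn_exp_mul_Iic ha 0).mono' hm.restrict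
      (Eventually.of_forall fun t => (h0 t).trans_le (min_le_left _ _)))
    ((integrableOn_exp_mul_Ioi hb 0).mono' hm.restrict
      (Eventually.of_forall fun t => (h0 t).trans_le (min_le_right _ _)))

theorem SL_mul (r t : ℝ) : exp (-r * t) * min (exp (2 * t)) (exp t) =
    min (exp ((2 - r) * t)) (exp ((1 - r) * t)) := by
  rw [mul_min_of_nonneg _ _ (exp_pos _).le, ← exp_add, ← exp_add]
  congr 2 <;> ring

theorem SL_rp {a : ℝ} (h0 : 0 < a) (h3 : a < 2 * π) : 0 < |rp a| := by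
  obtain ⟨k, hk⟩ := exists_rp a
  refine abs_pos.2 fun h => ?_
  rw [h] at hk
  rcases le_or_gt 0 k with h1 | h1
  · have : (0 : ℝ) ≤ k := by exact_mod_cast h1
    linarith only [h0, hk, this, h3, pi_pos, mul_nonneg_of_nonpos_of_nonpos (le_of_lt (Mathlib.Tactic.Linarith.sub_neg_of_lt h0)) (Mathlib.Tactic.Linarith.sub_nonpos_of_le this), mul_nonneg_of_nonpos_of_nonpos (le_of_lt (Mathlib.Tactic.Linarith.sub_neg_of_lt h3)) (Mathlib.Tactic.Linarith.sub_nonpos_of_le this)]
  · have : (k : ℝ) ≤ -1 := by exact_mod_cast Int.le_sub_one_of_lt h1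
    linarith only [h3, hk, h0, this, pi_pos, mul_nonneg_of_nonpos_of_nonpos (le_of_lt (Mathlib.Tactic.Linarith.sub_neg_of_lt h0)) (Mathlib.Tactic.Linarith.sub_nonpos_of_le this), mul_nonneg_of_nonpos_of_nonpos (le_of_lt (Mathlib.Tactic.Linarith.sub_neg_of_lt h3)) (Mathlib.Tactic.Linarith.sub_nonpos_of_le this)]

theorem SL_ne {a : ℝ} (h0 : 0 < a) (h3 : a < 2 * π) (t : ℝ) :
    Complex.exp (t + a * Complex.I) ≠ 1 := by
  obtain ⟨C, -, h⟩ := norm_fk_le' (SL_rp h0 h3)
  exact (h _ (by simp)).1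

theorem SL_norm (p : ℂ) (t : ℝ) : ‖Complex.exp (-p * t)‖ = exp (-p.re * t) := by
  simp [Complex.norm_exp]

theorem SL_int {p : ℂ} (h1 : 1 < p.re) (h2 : p.re < 2) {a : ℝ} (h0 : 0 < a) (h3 : a < 2 * π) :
    Integrable fun t : ℝ => Complex.exp (-p * t) * fk (t + a * Complex.I) := by
  obtain ⟨C, -, h⟩ := norm_fk_le' (SL_rp h0 h3)
  have hc : Continuous fun t : ℝ => fk (t + a * Complex.I) := continuous_iff_continuousAt.2 fun t =>
    (differentiableAt_fk (SL_ne h0 h3 t)).continuousAt.comp_of_eq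
      (f := fun t : ℝ => (t : ℂ) + a * Complex.I) (by fun_prop) rfl
  refine ((SL_min (sub_pos.2 h2) (sub_neg.2 h1)).const_mul C).mono'
    (Continuous.aestronglyMeasurable (by fun_prop)) (Eventually.of_forall fun t => ?_)
  have h4 := (h (t + a * Complex.I) (by simp)).2
  simp only [Complex.add_re, Complex.ofReal_re, Complex.mul_re, Complex.I_re, mul_zero,
    Complex.ofReal_im, Complex.I_im, zero_mul, sub_self, add_zero] at h4
  rw [norm_mul, SL_norm, ← SL_mul, mul_left_comm]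
  exact mul_le_mul_of_nonneg_left h4 (exp_pos _).le

theorem SL_per (w : ℂ) : fk (w - 2 * π * Complex.I) = fk w := by
  rw [KerA_fk, KerA_fk, Complex.exp_sub, Complex.exp_two_pi_mul_I, div_one]

theorem SL_sin {p : ℂ} (h1 : 1 < p.re) (h2 : p.re < 2) : Complex.sin (π * p) ≠ 0 := by
  intro h
  obtain ⟨k, hk⟩ := Complex.sin_eq_zero_iff.1 h
  rw [mul_comm, mul_left_inj' (by exact_mod_cast pi_ne_zero)] at hk
  rw [hk, Complex.intCast_re] at h1 h2
  have h3 : 1 < k := by exact_mod_cast h1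
  have h4 : k < 2 := by exact_mod_cast h2
  omega

theorem SL_dec {p : ℂ} (h1 : 1 < p.re) (h2 : p.re < 2) {δ : ℝ} (hδ : 0 < δ) :
    ∃ T : ℝ, ∀ z : ℂ, |z.im| ≤ 2 * π → T ≤ |z.re| → ‖Complex.exp (-p * z) * fk z‖ ≤ δ := by
  obtain ⟨c, hc, hc1, hc2⟩ : ∃ c : ℝ, 0 < c ∧ c ≤ 2 - p.re ∧ c ≤ p.re - 1 :=
    ⟨min (2 - p.re) (p.re - 1), lt_min (by linarith) (by linarith), min_le_left _ _,
      min_le_right _ _⟩
  have t1 : Tendsto (fun x : ℝ => exp (|p.im| * (2 * π)) * (2 * exp (-(c * x)))) atTop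
      (𝓝 (exp (|p.im| * (2 * π)) * (2 * 0))) :=
    ((tendsto_exp_neg_atTop_nhds_zero.comp (tendsto_id.const_mul_atTop hc)).const_mul 2).const_mul _
  rw [mul_zero, mul_zero] at t1
  obtain ⟨T, hT⟩ := eventually_atTop.1 ((t1.eventually (ge_mem_nhds hδ)).and (eventually_ge_atTop 1))
  refine ⟨T, fun z h3 h4 => le_trans ?_ (hT _ h4).1⟩
  have h5 : ‖Complex.exp (-p * z)‖ ≤ exp (|p.im| * (2 * π)) * exp (-p.re * z.re) := by
    rw [Complex.norm_exp, ← exp_add, exp_le_exp]
    have := (le_abs_self (p.im * z.im)).trans_eq (abs_mul _ _)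
    have := mul_le_mul_of_nonneg_left h3 (abs_nonneg p.im)
    simp only [Complex.mul_re, Complex.neg_re, Complex.neg_im]
    linarith
  have h6 : exp (-p.re * z.re) * min (exp (2 * z.re)) (exp z.re) ≤ exp (-(c * |z.re|)) := by
    rw [SL_mul]
    rcases le_total 0 z.re with h7 | h7
    · rw [abs_of_nonneg h7]
      exact (min_le_right _ _).trans (exp_le_exp.2 (by (refine le_of_not_gt fun h_nl => ?_; linarith only [h_nl, h1, h2, hc2, h7, mul_pos_of_neg_of_neg (Mathlib.Tactic.Linarith.sub_neg_of_lt h1) (Mathlib.Tactic.Linarith.sub_neg_of_lt h_nl), mul_pos_of_neg_of_neg (Mathlib.Tactic.Linarith.sub_neg_of_lt h2) (Mathlib.Tactic.Linarith.sub_neg_of_lt h_nl), mul_nonneg_of_nonpos_of_nonpos (Mathlib.Tactic.Linarith.sub_nonpos_of_le hc2) (Mathlib.Tactic.Linarith.sub_nonpos_of_le h7)])))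
    · rw [abs_of_nonpos h7]
      exact (min_le_left _ _).trans (exp_le_exp.2 (by (refine le_of_not_gt fun h_nl => ?_; linarith only [h_nl, h1, h2, hc1, h7, mul_pos_of_neg_of_neg (Mathlib.Tactic.Linarith.sub_neg_of_lt h1) (Mathlib.Tactic.Linarith.sub_neg_of_lt h_nl), mul_pos_of_neg_of_neg (Mathlib.Tactic.Linarith.sub_neg_of_lt h2) (Mathlib.Tactic.Linarith.sub_neg_of_lt h_nl), mul_nonneg_of_nonpos_of_nonpos (Mathlib.Tactic.Linarith.sub_nonpos_of_le hc1) (Mathlib.Tactic.Linarith.sub_nonpos_of_le h7)])))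
  rw [norm_mul]
  refine (mul_le_mul h5 (norm_fk_le (hT _ h4).2) (norm_nonneg _) (by positivity)).trans ?_
  rw [mul_assoc]
  refine mul_le_mul_of_nonneg_left ?_ (exp_pos _).le
  linarith

theorem SL_res {p : ℂ} (h1 : 1 < p.re) (h2 : p.re < 2) {a : ℝ} (h0 : 0 < a) (h3 : a < 2 * π) :
    ∫ t : ℝ, Complex.exp (-p * t) * fk (t + a * Complex.I) =
      π * Complex.exp (p * (a - π) * Complex.I) / Complex.sin (π * p) := by
  have e1 : ∀ t : ℝ, Complex.exp (-p * (t + a * Complex.I)) * fk (t + a * Complex.I) =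
      Complex.exp (-p * (a * Complex.I)) * (Complex.exp (-p * t) * fk (t + a * Complex.I)) := by
    intro t
    rw [mul_add, Complex.exp_add]
    ring
  have e2 : ∀ t : ℝ, Complex.exp (-p * (t + (a - 2 * π : ℝ) * Complex.I)) *
      fk (t + (a - 2 * π : ℝ) * Complex.I) = Complex.exp (-p * ((a - 2 * π) * Complex.I)) *
        (Complex.exp (-p * t) * fk (t + a * Complex.I)) := by
    intro t
    rw [mul_add, Complex.exp_add, ← SL_per (t + a * Complex.I)]
    push_cast
    ring_nf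
  have h := strip_res (a := a - 2 * π) (b := a) (by linarith [pi_pos])
    (fun z => Complex.exp (-p * z) * fk z) {0} (fun _ => 1) (by simpa using ⟨h3, h0⟩) ?_ ?_
    (by simpa only [e2] using (SL_int h1 h2 h0 h3).const_mul _)
    (by simpa only [e1] using (SL_int h1 h2 h0 h3).const_mul _) ?_
  · simp only [e1, e2, integral_const_mul, Finset.sum_singleton, mul_one] at h
    rw [eq_div_iff (SL_sin h1 h2), Complex.sin]
    have e3 : Complex.exp (-p * ((a - 2 * π) * Complex.I)) *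
        Complex.exp (p * (a - π) * Complex.I) = Complex.exp (π * p * Complex.I) := by
      rw [← Complex.exp_add]
      congr 1
      ring
    have e4 : Complex.exp (-p * (a * Complex.I)) * Complex.exp (p * (a - π) * Complex.I) =
        Complex.exp (-(π * p) * Complex.I) := by
      rw [← Complex.exp_add]
      congr 1
      ring
    rw [← e3, ← e4]
    linear_combination (-Complex.exp (p * (a - π) * Complex.I) * Complex.I / 2) * h -
      π * Complex.exp (p * (a - π) * Complex.I) * Complex.I_mul_I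
  · intro z h4 h5 h6
    refine DifferentiableAt.mul (by fun_prop) (differentiableAt_fk fun h7 => ?_)
    obtain ⟨k, rfl⟩ := Complex.exp_eq_one_iff.1 h7
    have e : ((k : ℂ) * (2 * π * Complex.I)).im = k * (2 * π) := by simp
    rw [e] at h4 h5
    have h8 : (k : ℝ) < 1 := by (refine lt_of_not_ge fun h_nl => ?_; linarith only [h_nl, h5, h1, h3, h2, h0, pi_pos, mul_pos_of_neg_of_neg (Mathlib.Tactic.Linarith.sub_neg_of_lt h1) (Mathlib.Tactic.Linarith.sub_neg_of_lt h3), mul_pos_of_neg_of_neg (Mathlib.Tactic.Linarith.sub_neg_of_lt h2) (Mathlib.Tactic.Linarith.sub_neg_of_lt h3), mul_nonneg_of_nonpos_of_nonpos (le_of_lt (Mathlib.Tactic.Linarith.sub_neg_of_lt h0)) (Mathlib.Tactic.Linarith.sub_nonpos_of_le h_nl), mul_nonneg_of_nonpos_of_nonpos (le_of_lt (Mathlib.Tactic.Linarith.sub_neg_of_lt h3)) (Mathlib.Tactic.Linarith.sub_nonpos_of_le h_nl)])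
    have h9 : (-1 : ℝ) < k := by (refine lt_of_not_ge fun h_nl => ?_; linarith only [h_nl, h4, h1, h0, h2, h3, pi_pos, mul_pos_of_neg_of_neg (Mathlib.Tactic.Linarith.sub_neg_of_lt h1) (Mathlib.Tactic.Linarith.sub_neg_of_lt h0), mul_pos_of_neg_of_neg (Mathlib.Tactic.Linarith.sub_neg_of_lt h2) (Mathlib.Tactic.Linarith.sub_neg_of_lt h0), mul_nonneg_of_nonpos_of_nonpos (le_of_lt (Mathlib.Tactic.Linarith.sub_neg_of_lt h0)) (Mathlib.Tactic.Linarith.sub_nonpos_of_le h_nl), mul_nonneg_of_nonpos_of_nonpos (le_of_lt (Mathlib.Tactic.Linarith.sub_neg_of_lt h3)) (Mathlib.Tactic.Linarith.sub_nonpos_of_le h_nl)])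
    have h10 : k < 1 := by exact_mod_cast h8
    have h11 : -1 < k := by exact_mod_cast h9
    obtain rfl : k = 0 := by omega
    simp at h6
  · intro q hq
    obtain rfl := Finset.mem_singleton.1 hq
    have h4 := fk_res 0
    simp only [Int.cast_zero, zero_mul] at h4
    have h5 : Tendsto (fun z : ℂ => Complex.exp (-p * z)) (𝓝[≠] 0) (𝓝 1) :=
      ((show Continuous fun z : ℂ => Complex.exp (-p * z) by fun_prop).tendsto' _ _
        (by simp)).mono_left nhdsWithin_le_nhds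
    simpa only [mul_one, mul_left_comm] using h5.mul h4
  · intro δ hδ
    obtain ⟨T, hT⟩ := SL_dec h1 h2 hδ
    exact ⟨T, fun z h4 h5 h6 => hT z (abs_le.2 ⟨by linarith only [h0, h4], by linarith⟩) h6⟩

theorem SL_conj (t a : ℝ) : ((fk (t + a * Complex.I)).re : ℂ) =
    (fk (t + a * Complex.I) + fk (t + (2 * π - a : ℝ) * Complex.I)) / 2 := by
  rw [Complex.re_eq_add_conj, ← SL_per (t + (2 * π - a : ℝ) * Complex.I), KerA_fk, KerA_fk]
  simp only [map_div₀, map_neg, map_mul, map_sub, map_one, ← Complex.exp_conj, map_add,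
    Complex.conj_ofReal, Complex.conj_I]
  push_cast
  ring_nf

theorem SL_exp (p : ℂ) (t : ℝ) :
    HasDerivAt (fun t : ℝ => Complex.exp (-p * t)) (Complex.exp (-p * t) * -p) t := by
  simpa using ((hasDerivAt_id' t).ofReal_comp.const_mul (-p)).cexp

theorem SL_meas (a : ℝ) : Measurable fun t : ℝ => lg t a :=
  measurable_lg.comp (measurable_id.prodMk measurable_const)

theorem SL_cont {t : ℝ} (ht : t ≠ 0) : Continuous (lg t) := continuous_iff_continuousAt.2 fun a =>
  (hasDerivAt_lg (exp_ne_one ht a)).continuousAt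

theorem SL_ae : ∀ᵐ t : ℝ, t ≠ 0 := by simp [ae_iff]

theorem SL_nk_meas (p : ℂ) (a : ℝ) :
    AEStronglyMeasurable (fun t : ℝ => Complex.exp (-p * t) * (nk t a : ℂ)) volume := by
  refine Measurable.aestronglyMeasurable (Measurable.mul (by fun_prop) ?_)
  exact Complex.measurable_ofReal.comp ((SL_meas a).add (by fun_prop))

theorem SL_nk_le (p : ℂ) (a : ℝ) :
    ∀ᵐ t : ℝ, ‖Complex.exp (-p * t) * (nk t a : ℂ)‖ ≤ exp (-p.re * t) * env (t - 0) := by
  filter_upwards [SL_ae] with t ht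
  rw [norm_mul, SL_norm, Complex.norm_real, sub_zero]
  exact mul_le_mul_of_nonneg_left (abs_nk_le ht a) (exp_pos _).le

theorem SL_ext {E : Type} [TopologicalSpace E] [T2Space E] {f g : ℝ → E} (hf : Continuous f)
    (hg : Continuous g) (h : ∀ a, 0 < a → a < 2 * π → f a = g a) {a : ℝ} (h0 : 0 ≤ a)
    (h3 : a ≤ 2 * π) : f a = g a :=
  EqOn.closure (s := Ioo 0 (2 * π)) (fun a ha => h a ha.1 ha.2) hf hg
    (by rw [closure_Ioo two_pi_pos.ne]; exact ⟨h0, h3⟩)

theorem sl_nk {p : ℂ} (h1 : 1 < p.re) (h2 : p.re < 2) {a : ℝ} (h0 : 0 ≤ a) (h3 : a ≤ 2 * π) :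
    ∫ t : ℝ, Complex.exp (-p * t) * (nk t a : ℂ) =
      π * Complex.cos (p * (π - a)) / (p * Complex.sin (π * p)) := by
  refine SL_ext (f := fun a => ∫ t : ℝ, Complex.exp (-p * t) * (nk t a : ℂ))
    (g := fun a => π * Complex.cos (p * (π - a)) / (p * Complex.sin (π * p)))
    (continuous_of_dominated (SL_nk_meas p) (SL_nk_le p) (int_exp_env h1 h2 0) ?_)
    (by fun_prop) (fun a h0 h3 => ?_) h0 h3
  · filter_upwards [SL_ae] with t ht
    have := SL_cont ht
    unfold nk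
    fun_prop
  have hp : p ≠ 0 := fun h => by
    rw [h, Complex.zero_re] at h1
    linarith only [h1]
  have i1 := SL_int h1 h2 h0 h3
  have i2 := SL_int h1 h2 (sub_pos.2 h3) (sub_lt_self _ h0)
  have i3 : Integrable fun t : ℝ => Complex.exp (-p * t) * (nk t a : ℂ) :=
    (int_exp_env h1 h2 0).mono' (SL_nk_meas p a) (SL_nk_le p a)
  have e : ∀ t : ℝ, Complex.exp (-p * t) * ((fk (t + a * Complex.I)).re : ℂ) =
      (Complex.exp (-p * t) * fk (t + a * Complex.I) +
        Complex.exp (-p * t) * fk (t + (2 * π - a : ℝ) * Complex.I)) / 2 := fun t => by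
    rw [SL_conj]
    ring
  have h := integral_mul_deriv_eq_deriv_mul_of_integrable (fun t _ => SL_exp p t)
    (fun t _ => (hasDerivAt_nk_fst (SL_ne h0 h3 t)).ofReal_comp)
    (((i1.add i2).div_const 2).congr (Eventually.of_forall fun t => (e t).symm))
    ((i3.mul_const (-p)).congr (Eventually.of_forall fun t => mul_right_comm _ _ _)) i3
  simp only [e, mul_right_comm _ (-p)] at h
  rw [integral_div, integral_add i1 i2, integral_mul_const, SL_res h1 h2 h0 h3,
    SL_res h1 h2 (sub_pos.2 h3) (sub_lt_self _ h0)] at h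
  have h4 := SL_sin h1 h2
  have e1 : p * ((2 * π - a : ℝ) - π) * Complex.I = p * (π - a) * Complex.I := by
    push_cast
    ring
  have e2 : p * (a - π) * Complex.I = -(p * (π - a)) * Complex.I := by ring
  rw [e1, e2] at h
  rw [Complex.cos, eq_div_iff (mul_ne_zero hp h4)]
  generalize (∫ t : ℝ, Complex.exp (-p * t) * (nk t a : ℂ)) = J at h ⊢
  generalize Complex.exp (-(p * (π - a)) * Complex.I) = A at h ⊢
  field_simp at h
  linear_combination (-1 / 2 : ℂ) * h

theorem sl_nk_real {p : ℝ} (h1 : 1 < p) (h2 : p < 2) {a : ℝ} (h0 : 0 ≤ a) (h3 : a ≤ 2 * π) :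
    ∫ t : ℝ, exp (-p * t) * nk t a = π * cos (p * (π - a)) / (p * sin (π * p)) := by
  have h := sl_nk (p := p) h1 h2 h0 h3
  rw [← Complex.ofReal_inj, ← integral_complex_ofReal]
  push_cast
  exact h

theorem SL_lg_le (a : ℝ) : ∀ᵐ t : ℝ, ‖exp (-t / 2) * lg t a‖ ≤
    4 * min (exp (1 * t)) (exp (-1 / 4 * t)) + l0 t * exp (1 / 2 * |t|) := by
  filter_upwards [SL_ae] with t ht
  have h1 : |lg t a| ≤ max t 0 + l0 t := by
    have := abs_le.1 (abs_lg_sub_le ht a)
    rw [abs_le]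
    constructor <;> linarith only [this, this.1, this.2, le_max_right t 0]
  have h2 : exp (-t / 2) ≤ exp (1 / 2 * |t|) := exp_le_exp.2 (by linarith only [neg_le_abs t])
  have h3 : exp (-t / 2) * max t 0 ≤ 4 * min (exp (1 * t)) (exp (-1 / 4 * t)) := by
    rcases le_total t 0 with h4 | h4
    · rw [max_eq_right h4, mul_zero]
      positivity
    · have e : exp (-1 / 4 * t) = exp (-t / 2) * exp (t / 4) := by
        rw [← exp_add]
        congr 1
        ring
      rw [max_eq_left h4, min_eq_right (exp_le_exp.2 (by linarith only [h4])), e, mul_left_comm]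
      exact mul_le_mul_of_nonneg_left (by linarith only [add_one_le_exp (t / 4)]) (exp_pos _).le
  rw [norm_mul, norm_of_nonneg (exp_pos _).le, Real.norm_eq_abs]
  linarith only [h3, h1, h2, mul_le_mul_of_nonneg_left h1 (exp_pos (-t / 2)).le,
    mul_le_mul_of_nonneg_left h2 (l0_nonneg t)]

theorem SL_lg_meas (a : ℝ) :
    AEStronglyMeasurable (fun t : ℝ => exp (-t / 2) * lg t a) volume :=
  Measurable.aestronglyMeasurable (Measurable.mul (by fun_prop) (SL_meas a))

theorem SL_lg_bd : Integrable fun t : ℝ =>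
    4 * min (exp (1 * t)) (exp (-1 / 4 * t)) + l0 t * exp (1 / 2 * |t|) :=
  ((SL_min one_pos (by norm_num)).const_mul 4).add (integrable_l0_exp (by norm_num))

theorem SL_lg_int (a : ℝ) : Integrable fun t : ℝ => exp (-t / 2) * lg t a :=
  SL_lg_bd.mono' (SL_lg_meas a) (SL_lg_le a)

theorem sl_lg_half {a : ℝ} (h0 : 0 ≤ a) (h3 : a ≤ 2 * π) :
    ∫ t : ℝ, exp (-t / 2) * lg t a = 2 * π * sin (a / 2) := by
  refine SL_ext (f := fun a => ∫ t : ℝ, exp (-t / 2) * lg t a) (g := fun a => 2 * π * sin (a / 2))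
    (continuous_of_dominated SL_lg_meas SL_lg_le SL_lg_bd ?_) (by fun_prop) (fun a h0 h3 => ?_)
    h0 h3
  · filter_upwards [SL_ae] with t ht
    exact continuous_const.mul (SL_cont ht)
  have p1 : 1 < (3 / 2 : ℂ).re := by norm_num
  have p2 : (3 / 2 : ℂ).re < 2 := by norm_num
  have i1 := (SL_int p1 p2 h0 h3).const_mul (Complex.exp (-(a * Complex.I)))
  have e : ∀ t : ℝ, exp (-t / 2) * ((fk (t + a * Complex.I)).re - exp t * cos a) =
      (Complex.exp (-(a * Complex.I)) *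
        (Complex.exp (-(3 / 2) * t) * fk (t + a * Complex.I))).re := fun t => by
    have h4 := sub_ne_zero.2 (SL_ne h0 h3 t).symm
    have h5 : Complex.exp (-(a * Complex.I)) * Complex.exp (-(3 / 2) * t) *
        Complex.exp (t + a * Complex.I) = (exp (-t / 2) : ℝ) := by
      rw [← Complex.exp_add, ← Complex.exp_add]
      push_cast
      congr 1
      ring
    rw [← KerA_re, ← Complex.sub_re, ← Complex.re_ofReal_mul, ← h5, KerA_fk]
    congr 1
    field_simp
    ring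
  have hu : ∀ t : ℝ, HasDerivAt (fun t : ℝ => exp (-t / 2)) (exp (-t / 2) * (-1 / 2)) t :=
    fun t => ((hasDerivAt_id' t).fun_neg.div_const 2).exp
  have hv : ∀ t : ℝ, HasDerivAt (fun t : ℝ => lg t a)
      ((fk (t + a * Complex.I)).re - exp t * cos a) t := fun t => by
    simpa only [nk, add_sub_cancel_right] using
      (hasDerivAt_nk_fst (SL_ne h0 h3 t)).fun_sub ((hasDerivAt_exp t).mul_const (cos a))
  have h := integral_mul_deriv_eq_deriv_mul_of_integrable (fun t _ => hu t) (fun t _ => hv t)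
    (i1.re.congr (Eventually.of_forall fun t => (e t).symm))
    (((SL_lg_int a).mul_const (-1 / 2)).congr
      (Eventually.of_forall fun t => mul_right_comm _ _ _)) (SL_lg_int a)
  have h4 := integral_re i1
  simp only [RCLike.re_to_complex] at h4
  simp only [e, mul_right_comm _ (-1 / 2 : ℝ)] at h
  rw [h4, integral_mul_const, integral_const_mul, SL_res p1 p2 h0 h3] at h
  have e1 : Complex.sin (π * (3 / 2)) = -1 := by
    rw [show (π * (3 / 2) : ℂ) = π / 2 + π by ring, Complex.sin_add_pi, Complex.sin_pi_div_two]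
  have e2 : Complex.exp (-(a * Complex.I)) * (π * Complex.exp (3 / 2 * (a - π) * Complex.I) / -1) =
      (-π : ℝ) * Complex.exp ((a / 2 + π / 2 : ℝ) * Complex.I) := by
    have e3 : Complex.exp (-(a * Complex.I)) * Complex.exp (3 / 2 * (a - π) * Complex.I) =
        Complex.exp ((a / 2 + π / 2 : ℝ) * Complex.I) := by
      rw [← Complex.exp_add, ← Complex.exp_periodic]
      push_cast
      congr 1
      ring
    rw [← e3]
    push_cast
    ring
  rw [e1, e2, Complex.re_ofReal_mul, Complex.exp_ofReal_mul_I_re, cos_add_pi_div_two] at h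
  linarith only [h]

theorem SL_rep (η : ℝ) : ∃ (a : ℝ) (k : ℤ), 0 ≤ a ∧ a ≤ 2 * π ∧ η = a + k * (2 * π) := by
  have h := toIcoMod_mem_Ico' two_pi_pos η
  exact ⟨_, _, h.1, h.2.le, by rw [← zsmul_eq_mul, toIcoMod_add_toIcoDiv_zsmul two_pi_pos 0 η]⟩

theorem SL_Sg {lam x : ℝ} (h1 : 1 < lam) (h0 : 0 ≤ x) (h3 : x ≤ π / lam) :
    Sg lam x = sin (lam * x) ∧ 0 ≤ sin (lam * x) := by
  refine ⟨Sg_eq h1 (by rwa [abs_of_nonneg h0]),
    sin_nonneg_of_nonneg_of_le_pi (mul_nonneg (by linarith) h0) ?_⟩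
  rwa [le_div_iff₀' (by linarith)] at h3

theorem SL_Sg' {lam x : ℝ} (h1 : 1 < lam) (h0 : π / lam ≤ x) (h3 : x ≤ 2 * π) :
    Sg lam x ≤ 0 := by
  have h4 : 0 < π / lam := div_pos pi_pos (by linarith only [h1])
  rcases le_total x π with h5 | h5
  · exact (Sg_zero h1 (by
      rwa [abs_rp_eq (by rwa [abs_of_nonneg (by linarith)]), abs_of_nonneg (by linarith)])).le
  · have e : x = -(2 * π - x) + (1 : ℤ) * (2 * π) := by simp
    rw [e, Sg_per, Sg_neg h1, neg_nonpos]
    rcases le_total (2 * π - x) (π / lam) with h6 | h6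
    · obtain ⟨h7, h8⟩ := SL_Sg h1 (sub_nonneg.2 h3) h6
      rwa [h7]
    · refine (Sg_zero h1 ?_).ge
      rwa [abs_rp_eq (by rw [abs_of_nonneg (by linarith only [h4, h6])]; linarith only [h5]), abs_of_nonneg (by linarith only [h4, h6])]

theorem SL_nk_int {lam : ℝ} (h1 : 1 < lam) (h2 : lam < 2) (a : ℝ) :
    Integrable fun t => exp (-lam * t) * nk t a := by
  simpa only [sub_zero] using int_exp_nk h1 h2 0 a

theorem tot_up {lam : ℝ} (h1 : 1 < lam) (h2 : lam < 2) (η : ℝ) :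
    lam * ∫ t, exp (-lam * t) * (nk t (-η) + nk t (π / lam - η)) = 2 * π * max (Sg lam η) 0 := by
  obtain ⟨a, k, h0, h3, rfl⟩ := SL_rep η
  have hl : lam ≠ 0 := by positivity
  have hs : sin (π * lam) ≠ 0 := by exact_mod_cast SL_sin (p := lam) h1 h2
  have h4 : 0 < π / lam := by positivity
  have h5 := KerG_lt h1
  have e1 : ∀ t, nk t (-(a + k * (2 * π))) = nk t a := fun t => by rw [nk_neg, nk_per]
  have e2 : ∀ t, nk t (π / lam - (a + k * (2 * π))) = nk t |π / lam - a| := fun t => by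
    rw [← nk_per t _ k, show π / lam - (a + k * (2 * π)) + k * (2 * π) = π / lam - a by ring]
    rcases abs_cases (π / lam - a) with h | h
    · rw [h.1]
    · rw [h.1, nk_neg]
  simp only [e1, e2, mul_add]
  rw [integral_add (SL_nk_int h1 h2 _) (SL_nk_int h1 h2 _), sl_nk_real h1 h2 h0 h3,
    sl_nk_real h1 h2 (abs_nonneg _) (abs_le.2 ⟨by linarith only [h3, h4], by linarith only [h0, h4, h5]⟩), Sg_per]
  rcases le_total a (π / lam) with h | h
  · obtain ⟨h7, h8⟩ := SL_Sg h1 h0 h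
    have e3 : lam * (π - (π / lam - a)) = π * lam + lam * a - π := by field_simp; ring
    have e4 : lam * (π - a) = π * lam - lam * a := by ring
    rw [h7, max_eq_left h8, abs_of_nonneg (sub_nonneg.2 h), e3, e4, cos_sub_pi, cos_add, cos_sub]
    generalize sin (π * lam) = A at hs
    field_simp
    ring
  · have e3 : lam * (π - -(π / lam - a)) = lam * (π - a) + π := by field_simp; ring
    rw [max_eq_right (SL_Sg' h1 h h3), abs_of_nonpos (sub_nonpos.2 h), e3, cos_add_pi]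
    ring

theorem SL_shift (lam ξ : ℝ) (G : ℝ → ℝ) :
    ∫ t, exp (-lam * t) * G (t - ξ) = exp (-lam * ξ) * ∫ t, exp (-lam * t) * G t := by
  rw [← integral_sub_right_eq_self (fun t => exp (-lam * t) * G t) ξ, ← integral_const_mul]
  refine integral_congr_ae (Eventually.of_forall fun t => ?_)
  simp only [← mul_assoc, ← exp_add]
  congr 2
  ring

theorem SL_up_int {lam : ℝ} (h1 : 1 < lam) (h2 : lam < 2) (η : ℝ) :
    Integrable fun t => exp (-lam * t) * (nk t (-η) + nk t (π / lam - η)) := by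
  simp only [mul_add]
  exact (SL_nk_int h1 h2 _).add (SL_nk_int h1 h2 _)

theorem SL_ang (lam s η θ : ℝ) : nk s (θ - η) = nk s (-(η - θ)) ∧
    nk s (θ - η) = nk s (- -(η - θ)) ∧ nk s (θ + π / lam - η) = nk s (π / lam - (η - θ)) ∧
      nk s (θ - π / lam - η) = nk s (π / lam - -(η - θ)) := by
  refine ⟨by rw [neg_sub], by rw [nk_neg, neg_sub], by congr 1; ring, ?_⟩
  rw [← nk_neg]
  congr 1
  ring

theorem tot_S {lam : ℝ} (h1 : 1 < lam) (h2 : lam < 2) (ξ η θ : ℝ) :
    lam * ∫ t, exp (-lam * t) * Sop lam (fun φ => nk (t - ξ) (φ - η)) θ =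
      exp (-lam * ξ) * (2 * π * |Sg lam (η - θ)|) := by
  have e : ∀ s, exp (-lam * s) * Sop lam (fun φ => nk s (φ - η)) θ =
      exp (-lam * s) * (nk s (-(η - θ)) + nk s (π / lam - (η - θ))) +
        exp (-lam * s) * (nk s (- -(η - θ)) + nk s (π / lam - -(η - θ))) := fun s => by
    obtain ⟨e1, e2, e3, e4⟩ := SL_ang lam s η θ
    rw [Sop, ← e1, ← e2, e3, e4]
    ring
  rw [SL_shift lam ξ fun s => Sop lam (fun φ => nk s (φ - η)) θ, mul_left_comm]
  simp only [e]
  rw [integral_add (SL_up_int h1 h2 _) (SL_up_int h1 h2 _), mul_add, tot_up h1 h2, tot_up h1 h2,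
    Sg_neg h1, ← mul_add, max_zero_add_max_neg_zero_eq_abs_self]

theorem tot_D {lam : ℝ} (h1 : 1 < lam) (h2 : lam < 2) (ξ η θ : ℝ) :
    lam * ∫ t, exp (-lam * t) * Dop lam (fun φ => nk (t - ξ) (φ - η)) θ =
      exp (-lam * ξ) * (2 * π * Sg lam (η - θ)) := by
  have e : ∀ s, exp (-lam * s) * Dop lam (fun φ => nk s (φ - η)) θ =
      exp (-lam * s) * (nk s (-(η - θ)) + nk s (π / lam - (η - θ))) -
        exp (-lam * s) * (nk s (- -(η - θ)) + nk s (π / lam - -(η - θ))) := fun s => by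
    obtain ⟨e1, e2, e3, e4⟩ := SL_ang lam s η θ
    rw [Dop, ← e1, ← e2, e3, e4]
    ring
  rw [SL_shift lam ξ fun s => Dop lam (fun φ => nk s (φ - η)) θ, mul_left_comm]
  simp only [e]
  rw [integral_sub (SL_up_int h1 h2 _) (SL_up_int h1 h2 _), mul_sub, tot_up h1 h2, tot_up h1 h2,
    Sg_neg h1, ← mul_sub, max_zero_sub_max_neg_zero_eq_self]

theorem SL_lg_abs (η : ℝ) : ∫ t : ℝ, exp (-t / 2) * lg t η = 2 * π * |sin (η / 2)| := by
  obtain ⟨a, k, h0, h3, rfl⟩ := SL_rep η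
  simp only [lg_per]
  rw [sl_lg_half h0 h3, show (a + k * (2 * π)) / 2 = a / 2 + k * π by ring, sin_add_int_mul_pi,
    abs_mul, abs_zpow, abs_neg, abs_one, one_zpow, one_mul,
    abs_of_nonneg (sin_nonneg_of_nonneg_of_le_pi (by linarith only [h0]) (by linarith))]

theorem tot_N {lam : ℝ} (h1 : 0 < lam) (ξ η θ : ℝ) :
    lam * ∫ t, exp (-lam * t) * (2 * (Nh lam (t - ξ) (θ - η) - Nh lam (t - ξ) 0)) =
      exp (-lam * ξ) * (2 * π * |sin (lam * (η - θ))|) := by
  have e : ∀ s, exp (-lam * s) * (2 * (Nh lam s (θ - η) - Nh lam s 0)) =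
      2 * (exp (-(2 * lam * s) / 2) * lg (2 * lam * s) (2 * lam * (θ - η)) -
        exp (-(2 * lam * s) / 2) * lg (2 * lam * s) 0) := fun s => by
    rw [Nh, Nh, mul_zero, show -(2 * lam * s) / 2 = -lam * s by ring]
    ring
  rw [SL_shift lam ξ fun s => 2 * (Nh lam s (θ - η) - Nh lam s 0), mul_left_comm]
  simp only [e]
  rw [integral_const_mul, Measure.integral_comp_mul_left (fun u => exp (-u / 2) *
      lg u (2 * lam * (θ - η)) - exp (-u / 2) * lg u 0) (2 * lam),
    integral_sub (SL_lg_int _) (SL_lg_int _), SL_lg_abs, SL_lg_abs,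
    show 2 * lam * (θ - η) / 2 = -(lam * (η - θ)) by ring, sin_neg, abs_neg, zero_div, sin_zero,
    abs_zero, abs_of_pos (by positivity), smul_eq_mul]
  field_simp
  ring

end

end Pool.Agent.MinMod
end
end
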