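import Pool.Agent.Work.MP_f62247_an.BadB
import Pool.Agent.Work.MP_f62247_an.SL

/-!
# Comparison at two near points; no flip of the orientation

`compare`: `U_split` at `y = x`.  For `a ∉ A`, `|s| ≥ 3 r / 4` on the segment, the gradient of `lg` (resp. `nk`, `s < 0`) is at most
`C / r` (resp. `C e^(2s) / r`): move first in `θ`, then in `x`.  For `a ∈ A`: `lg_le`, `nk_le` at `x`, `abs_lg_sub_le` at `x'`.
`no_flip`: suppose `cos (γ - γ') ≤ 0`; from `|sin (γ - γ')| ≤ d` we get `θ' ≡ γ'` with `|θ' - (γ + π)| ≤ 2 d`.  A zero of `A` is within `4r` of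
both `x`, `x'` and cannot satisfy both `|rp (η-γ)| ≤ 8 r` and `|rp (η-γ')| ≤ 8 r`; so by `misaligned` (radius `4 r`) and `sd_one`,
`card A ≤ C (om x + om x') / r² + C r (B (x+2) + B (x'+2))`.  Then `-om x ≤ U x (γ+π)` (`om_ge`, `B ≥ 0`, `gap_ge`), `U x' θ' ≤ -B x'`,
and `compare` with `2 d` in place of `d`.
-/

open Real MeasureTheory Set Filter Topology

namespace Pool.Agent.MinMod

noncomputable section

theorem G1a_exp {s φ s' φ' d : ℝ} (hs : |s - s'| ≤ d) (hφ : |φ - φ'| ≤ d) (hd : d ≤ 1 / 4) :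
    ‖Complex.exp (s + φ * Complex.I) - Complex.exp (s' + φ' * Complex.I)‖ ≤ 4 * d * exp s := by
  have h1 : ‖((s' - s : ℝ) : ℂ) + ((φ' - φ : ℝ) : ℂ) * Complex.I‖ ≤ 2 * d := by
    refine (norm_add_le _ _).trans ?_
    rw [norm_mul, Complex.norm_I, mul_one, Complex.norm_real, Complex.norm_real, Real.norm_eq_abs,
      Real.norm_eq_abs, abs_sub_comm s', abs_sub_comm φ']
    linarith only [hs, hφ]
  have h2 := Complex.norm_exp_sub_one_le (h1.trans (by linarith only [hd]))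
  have h3 : Complex.exp (s + φ * Complex.I) - Complex.exp (s' + φ' * Complex.I) =
      -(Complex.exp (s + φ * Complex.I) *
        (Complex.exp (((s' - s : ℝ) : ℂ) + ((φ' - φ : ℝ) : ℂ) * Complex.I) - 1)) := by
    rw [mul_sub, ← Complex.exp_add, mul_one, neg_sub]
    congr 2
    push_cast; ring
  rw [h3, norm_neg, norm_mul, KerA_norm]
  linarith only [h1, h2, exp_pos s, mul_nonneg_of_nonpos_of_nonpos (Mathlib.Tactic.Linarith.sub_nonpos_of_le h1) (le_of_lt (Mathlib.Tactic.Linarith.sub_neg_of_lt (exp_pos s))), mul_nonneg_of_nonpos_of_nonpos (Mathlib.Tactic.Linarith.sub_nonpos_of_le h2) (le_of_lt (Mathlib.Tactic.Linarith.sub_neg_of_lt (exp_pos s)))]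

theorem G1a_low {t r : ℝ} (hr : 0 < r) (hr1 : r ≤ 1) (ht : 3 * r / 4 ≤ t) :
    3 * r / 7 ≤ 1 - exp (-t) := by
  have h1 : 3 * r / 4 + 1 ≤ exp t := by linarith only [ht, add_one_le_exp t]
  have h2 : exp (-t) * exp t = 1 := by rw [← exp_add]; simp
  have h3 := exp_pos (-t)
  by_contra! h
  linarith only [h2, h, hr, hr1, h1, h3, mul_nonneg_of_nonpos_of_nonpos (le_of_lt (Mathlib.Tactic.Linarith.sub_neg_of_lt hr)) (Mathlib.Tactic.Linarith.sub_nonpos_of_le hr1), mul_pos_of_neg_of_neg (Mathlib.Tactic.Linarith.sub_neg_of_lt hr) (Mathlib.Tactic.Linarith.sub_neg_of_lt h), mul_nonneg_of_nonpos_of_nonpos (Mathlib.Tactic.Linarith.sub_nonpos_of_le h1) (le_of_lt (Mathlib.Tactic.Linarith.sub_neg_of_lt h3))]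

theorem G1a_log {u u' : ℂ} (hu : u ≠ 1) (hu' : u' ≠ 1) :
    Real.log ‖1 - u‖ - Real.log ‖1 - u'‖ = Real.log ‖1 + (u' - u) / (1 - u')‖ ∧
      1 + (u' - u) / (1 - u') ≠ 0 := by
  have h1 : 1 - u ≠ 0 := sub_ne_zero.2 hu.symm
  have h2 : 1 - u' ≠ 0 := sub_ne_zero.2 hu'.symm
  have h3 : 1 + (u' - u) / (1 - u') = (1 - u) / (1 - u') := by field_simp; ring
  rw [h3, norm_div, Real.log_div (norm_ne_zero_iff.2 h1) (norm_ne_zero_iff.2 h2)]
  exact ⟨rfl, div_ne_zero h1 h2⟩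

theorem G1a_log_le {v : ℂ} (hv : 1 + v ≠ 0) : Real.log ‖1 + v‖ ≤ v.re + ‖v‖ ^ 2 / 2 := by
  have h1 : ‖1 + v‖ ^ 2 = 1 + 2 * v.re + ‖v‖ ^ 2 := by
    rw [Complex.sq_norm, Complex.sq_norm, Complex.normSq_apply, Complex.normSq_apply]
    simp
    ring
  have h2 := Real.log_le_sub_one_of_pos (pow_pos (norm_pos_iff.2 hv) 2)
  rw [Real.log_pow] at h2
  push_cast at h2
  linarith only [h1, h2]

theorem G1a_far_pos {s φ s' φ' d r : ℝ} (hs : |s - s'| ≤ d) (hφ : |φ - φ'| ≤ d) (hd : 0 < d)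
    (hdr : 4 * d ≤ r) (hr : r ≤ 1) (h : r ≤ s) : lg s φ - lg s' φ' ≤ 30 * (d / r) := by
  have hr0 : 0 < r := by linarith only [hd, hdr]
  obtain ⟨h1, h2⟩ := abs_le.1 hs
  have hs' : 3 * r / 4 ≤ s' := by linarith only [hdr, h, h2]
  obtain ⟨e, hv⟩ := G1a_log (exp_ne_one (s := s) (by linarith only [hd, hdr, h]) φ)
    (exp_ne_one (s := s') (by linarith only [hd, hdr, h, h2]) φ')
  unfold lg
  rw [e]
  set u := Complex.exp (s + φ * Complex.I)
  set u' := Complex.exp (s' + φ' * Complex.I) with hu'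
  have h3 : ‖u' - u‖ ≤ 4 * d * exp s' :=
    G1a_exp (by rwa [abs_sub_comm]) (by rwa [abs_sub_comm]) (by linarith only [hdr, hr])
  have h4 : 3 * r / 7 * exp s' ≤ ‖1 - u'‖ := by
    have h5 := norm_sub_norm_le u' 1
    rw [norm_sub_rev, norm_one, hu', KerA_norm] at h5
    have h6 := G1a_low hr0 hr hs'
    have h7 : exp (-s') * exp s' = 1 := by rw [← exp_add]; simp
    (refine le_of_not_gt fun h_nl => ?_; linarith only [h_nl, h5, h7, hd, hdr, hr, h6, exp_pos s', mul_pos_of_neg_of_neg (Mathlib.Tactic.Linarith.sub_neg_of_lt hd) (Mathlib.Tactic.Linarith.sub_neg_of_lt h_nl), mul_nonneg_of_nonpos_of_nonpos (Mathlib.Tactic.Linarith.sub_nonpos_of_le hdr) (le_of_lt (Mathlib.Tactic.Linarith.sub_neg_of_lt h_nl)), mul_nonneg_of_nonpos_of_nonpos (Mathlib.Tactic.Linarith.sub_nonpos_of_le hr) (le_of_lt (Mathlib.Tactic.Linarith.sub_neg_of_lt h_nl)), mul_nonneg_of_nonpos_of_nonpos (Mathlib.Tactic.Linarith.sub_nonpos_of_le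 h6) (le_of_lt (Mathlib.Tactic.Linarith.sub_neg_of_lt (exp_pos s')))])
  have h5 : ‖(u' - u) / (1 - u')‖ ≤ 30 * (d / r) := by
    have h6 : 0 < 3 * r / 7 * exp s' := by positivity
    rw [norm_div, div_le_iff₀ (h6.trans_le h4)]
    have h7 : 30 * (d / r) * (3 * r / 7 * exp s') = 90 / 7 * d * exp s' := by field_simp; ring
    have h8 := mul_le_mul_of_nonneg_left h4 (show 0 ≤ 30 * (d / r) by positivity)
    linarith only [h3, h7, h8, hd, mul_pos hd (exp_pos s')]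
  have h6 := Real.log_le_sub_one_of_pos (norm_pos_iff.2 hv)
  have h7 := norm_add_le 1 ((u' - u) / (1 - u'))
  rw [norm_one] at h7
  linarith only [h5, h6, h7]

theorem G1a_far_neg {s φ s' φ' d r : ℝ} (hs : |s - s'| ≤ d) (hφ : |φ - φ'| ≤ d) (hd : 0 < d)
    (hdr : 4 * d ≤ r) (hr : r ≤ 1) (h : s ≤ -r) :
    nk s φ - nk s' φ' ≤ 30 * (d / r) * exp (2 * s) := by
  have hr0 : 0 < r := by linarith
  obtain ⟨h1, h2⟩ := abs_le.1 hs
  have hs' : 3 * r / 4 ≤ -s' := by linarith only [hdr, h, h1]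
  have hne := exp_ne_one (s := s') (by linarith only [hd, hdr, h, h1]) φ'
  obtain ⟨e, hv⟩ := G1a_log (exp_ne_one (s := s) (by linarith only [hd, hdr, h]) φ) hne
  have e1 : nk s φ - nk s' φ' = (lg s φ - lg s' φ') +
      (Complex.exp (s + φ * Complex.I) - Complex.exp (s' + φ' * Complex.I)).re := by
    rw [Complex.sub_re, KerA_re, KerA_re]
    unfold nk
    ring
  rw [e1]
  unfold lg
  rw [e]
  set u := Complex.exp (s + φ * Complex.I)
  set u' := Complex.exp (s' + φ' * Complex.I) with hu'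
  have h3 : ‖u' - u‖ ≤ 4 * d * exp s := by
    rw [norm_sub_rev]
    exact G1a_exp hs hφ (by linarith only [hdr, hr])
  have h4 : 3 * r / 7 ≤ ‖1 - u'‖ := by
    have h5 := norm_sub_norm_le 1 u'
    rw [norm_one, hu', KerA_norm] at h5
    have h6 := G1a_low hr0 hr hs'
    rw [neg_neg] at h6
    linarith only [h5, h6]
  have h5 : ‖(u' - u) / (1 - u')‖ ≤ 28 / 3 * (d / r) * exp s := by
    have h6 : 0 < 3 * r / 7 := by positivity
    rw [norm_div, div_le_iff₀ (h6.trans_le h4)]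
    have h7 : 28 / 3 * (d / r) * exp s * (3 * r / 7) = 4 * d * exp s := by field_simp; ring
    have h8 := mul_le_mul_of_nonneg_left h4 (show 0 ≤ 28 / 3 * (d / r) * exp s by positivity)
    linarith only [h3, h7, h8]
  have h6 : ‖u'‖ ≤ 2 * exp s := by
    rw [hu', KerA_norm]
    have h7 : exp s' ≤ exp (s + 1 / 4) := exp_le_exp.2 (by linarith only [hdr, hr, h1])
    have h8 : exp (1 / 4 : ℝ) ≤ 2 := by
      have := Real.exp_bound' (x := 1 / 4) (by norm_num) (by norm_num) (n := 1) one_pos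
      norm_num at this
      linarith only [hd, hdr, hr, this]
    rw [exp_add] at h7
    (refine le_of_not_gt fun h_nl => ?_; linarith only [h_nl, h7, hd, hdr, hr, h8, exp_pos s, mul_pos_of_neg_of_neg (Mathlib.Tactic.Linarith.sub_neg_of_lt hd) (Mathlib.Tactic.Linarith.sub_neg_of_lt h_nl), mul_nonneg_of_nonpos_of_nonpos (Mathlib.Tactic.Linarith.sub_nonpos_of_le hdr) (le_of_lt (Mathlib.Tactic.Linarith.sub_neg_of_lt h_nl)), mul_nonneg_of_nonpos_of_nonpos (Mathlib.Tactic.Linarith.sub_nonpos_of_le hr) (le_of_lt (Mathlib.Tactic.Linarith.sub_neg_of_lt h_nl)), mul_nonneg_of_nonpos_of_nonpos (Mathlib.Tactic.Linarith.sub_nonpos_of_le h8) (le_of_lt (Mathlib.Tactic.Linarith.sub_neg_of_lt (exp_pos s)))])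
  have h7 : ((u' - u) / (1 - u')).re + (u - u').re = ((u' - u) / (1 - u') * u').re := by
    rw [← Complex.add_re]
    congr 1
    have : 1 - u' ≠ 0 := sub_ne_zero.2 hne.symm
    field_simp
    ring
  have h8 := Complex.re_le_norm ((u' - u) / (1 - u') * u')
  rw [norm_mul] at h8
  have h9 := G1a_log_le hv
  have h10 : d / r ≤ 1 / 4 := by rw [div_le_iff₀ hr0]; linarith only [hdr]
  have h11 : 0 < d / r := div_pos hd hr0
  have h12 := mul_le_mul h5 h6 (norm_nonneg _) (by positivity)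
  have h13 := pow_le_pow_left₀ (norm_nonneg _) h5 2
  rw [KerA_two]
  set q := d / r
  have h14 : 0 < exp s ^ 2 := by positivity
  have h15 : q * q * exp s ^ 2 ≤ 1 / 4 * q * exp s ^ 2 := by gcongr
  linarith only [h7, h8, h9, h12, h13, h15, mul_pos h11 h14, sq_nonneg ((1 : ℝ) * (28 : ℝ) * ((1 : ℝ) * q) * ((1 : ℝ) * rexp s))]

theorem G1a_near_pos {s φ s' φ' : ℝ} (h : |s| ≤ 2) (hs' : s' ≠ 0) :
    lg s φ - lg s' φ' ≤ 3 + l0 s' := by
  have h1 := lg_le s φ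
  have h2 := (abs_le.1 (abs_lg_sub_le hs' φ')).1
  have h3 : max s 0 ≤ 2 := max_le ((le_abs_self s).trans h) (by norm_num)
  have h4 := le_max_right s' 0
  have h5 := Real.log_two_lt_d9
  linarith only [h1, h2, h3, h4, h5]

theorem G1a_near_neg {s φ s' φ' : ℝ} (h : s < 0) (hs : s' ≤ 1 / 4) (hs' : s' ≠ 0) :
    nk s φ - nk s' φ' ≤ 3 + l0 s' := by
  have h1 := nk_le h.ne φ
  have h2 := (abs_le.1 (abs_lg_sub_le hs' φ')).1
  have h3 : exp (2 * s) ≤ 1 := exp_le_one_iff.2 (by linarith only [h])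
  have h4 := le_max_right s' 0
  have h7 : exp s' ≤ exp (1 / 4) := exp_le_exp.2 hs
  have h8 : exp (1 / 4 : ℝ) ≤ 2 := by
    have := Real.exp_bound' (x := 1 / 4) (by norm_num) (by norm_num) (n := 1) one_pos
    norm_num at this
    linarith only [this]
  have h9 := mul_le_mul_of_nonneg_left (neg_one_le_cos φ') (exp_pos s').le
  have h10 : nk s' φ' = lg s' φ' + exp s' * cos φ' := rfl
  linarith only [h1, h2, h3, h4, h7, h8, h9, h10]

namespace Cfg

theorem compare : ∃ C : ℝ, 1 ≤ C ∧ ∀ (Z : Cfg) (x x' θ θ' d r : ℝ) (A : Finset ℕ), Z.Reg x →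
    Z.Reg x' → |x - x'| ≤ d → |θ - θ'| ≤ d → 0 < d → 4 * d ≤ r → r ≤ 1 → A ⊆ Z.s →
    (∀ a ∈ Z.s, |Z.ξ a - x| ≤ r → a ∈ A) → (∀ a ∈ A, |Z.ξ a - x| ≤ 2) →
    Z.U x θ - Z.U x' θ' ≤ C * d * Z.A x + C * (d / r) * Z.W x + C * A.card +
      ∑ a ∈ A, l0 (x' - Z.ξ a) := by
  refine ⟨30, by norm_num, fun Z x x' θ θ' d r A hx hx' hxx hθ hd hdr hr hA hnear hA2 => ?_⟩
  have hr0 : 0 < r := by linarith
  have hq : 0 < 30 * (d / r) := by positivity
  let b : ℕ → ℝ := fun a => 30 * (d / r) * w0 (x - Z.ξ a) +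
    if a ∈ A then 3 + l0 (x' - Z.ξ a) else 0
  have hs : ∀ a, |x - Z.ξ a - (x' - Z.ξ a)| ≤ d := fun a => by rwa [sub_sub_sub_cancel_right]
  have hφ : ∀ a, |θ - Z.η a - (θ' - Z.η a)| ≤ d := fun a => by rwa [sub_sub_sub_cancel_right]
  have h1 : ∑ a ∈ Z.s.filter (fun a => Z.ξ a < x), lg (x - Z.ξ a) (θ - Z.η a) -
      ∑ a ∈ Z.s.filter (fun a => Z.ξ a < x), lg (x' - Z.ξ a) (θ' - Z.η a) ≤
      ∑ a ∈ Z.s.filter (fun a => Z.ξ a < x), b a := by
    rw [← Finset.sum_sub_distrib]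
    refine Finset.sum_le_sum fun a ha => ?_
    obtain ⟨ha1, ha2⟩ := Finset.mem_filter.1 ha
    have hw := w0_of_nonneg (sub_nonneg.2 ha2.le)
    by_cases haA : a ∈ A
    · simp only [b, if_pos haA]
      have := G1a_near_pos (φ := θ - Z.η a) (φ' := θ' - Z.η a)
        (by rw [abs_sub_comm]; exact hA2 a haA : |x - Z.ξ a| ≤ 2) (sub_ne_zero.2 (hx' a ha1).symm)
      have := mul_pos hq (w0_pos (x - Z.ξ a))
      linarith
    · simp only [b, if_neg haA]
      have h2 : r < |Z.ξ a - x| := not_le.1 fun h => haA (hnear a ha1 h)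
      rw [abs_sub_comm, abs_of_pos (sub_pos.2 ha2)] at h2
      have := G1a_far_pos (hs a) (hφ a) hd hdr hr h2.le
      rw [hw]
      (refine le_of_not_gt fun h_nl => ?_; linarith only [h_nl, this, hd, hdr, hr, hq, ha2, mul_pos_of_neg_of_neg (Mathlib.Tactic.Linarith.sub_neg_of_lt hd) (Mathlib.Tactic.Linarith.sub_neg_of_lt h_nl), mul_nonneg_of_nonpos_of_nonpos (Mathlib.Tactic.Linarith.sub_nonpos_of_le hdr) (le_of_lt (Mathlib.Tactic.Linarith.sub_neg_of_lt h_nl)), mul_nonneg_of_nonpos_of_nonpos (Mathlib.Tactic.Linarith.sub_nonpos_of_le hr) (le_of_lt (Mathlib.Tactic.Linarith.sub_neg_of_lt h_nl)), mul_pos_of_neg_of_neg (Mathlib.Tactic.Linarith.sub_neg_of_lt hq) (Mathlib.Tactic.Linarith.sub_neg_of_lt ha2)])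
  have h2 : ∑ a ∈ Z.s.filter (fun a => x ≤ Z.ξ a), nk (x - Z.ξ a) (θ - Z.η a) -
      ∑ a ∈ Z.s.filter (fun a => x ≤ Z.ξ a), nk (x' - Z.ξ a) (θ' - Z.η a) ≤
      ∑ a ∈ Z.s.filter (fun a => x ≤ Z.ξ a), b a := by
    rw [← Finset.sum_sub_distrib]
    refine Finset.sum_le_sum fun a ha => ?_
    obtain ⟨ha1, ha2⟩ := Finset.mem_filter.1 ha
    have hlt : x - Z.ξ a < 0 := sub_neg.2 (lt_of_le_of_ne ha2 (hx a ha1).symm)
    have hw := w0_of_nonpos hlt.le
    by_cases haA : a ∈ A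
    · simp only [b, if_pos haA]
      have := G1a_near_neg (φ := θ - Z.η a) (φ' := θ' - Z.η a) (s' := x' - Z.ξ a) hlt
        (by linarith only [hdr, hr, hlt, hxx, (abs_le.1 hxx).1]) (sub_ne_zero.2 (hx' a ha1).symm)
      have := mul_pos hq (w0_pos (x - Z.ξ a))
      linarith
    · simp only [b, if_neg haA]
      have h2 : r < |Z.ξ a - x| := not_le.1 fun h => haA (hnear a ha1 h)
      rw [abs_of_nonneg (sub_nonneg.2 ha2)] at h2
      have := G1a_far_neg (hs a) (hφ a) hd hdr hr (by linarith)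
      rw [hw]
      linarith only [this]
  have h3 : ∑ a ∈ Z.s.filter (fun a => Z.ξ a < x), b a + ∑ a ∈ Z.s.filter (fun a => x ≤ Z.ξ a), b a =
      30 * (d / r) * Z.W x + (3 * A.card + ∑ a ∈ A, l0 (x' - Z.ξ a)) := by
    have := Finset.sum_filter_add_sum_filter_not Z.s (fun a => Z.ξ a < x) b
    simp only [not_lt] at this
    rw [this, Finset.sum_add_distrib, ← Finset.mul_sum, Finset.sum_ite_mem,
      Finset.inter_eq_right.2 hA, Finset.sum_add_distrib, Finset.sum_const, nsmul_eq_mul, mul_comm _ 3]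
    rfl
  have h4 : (Z.cc x * Complex.exp (x + θ * Complex.I)).re -
      (Z.cc x * Complex.exp (x' + θ' * Complex.I)).re ≤ 4 * d * Z.A x := by
    rw [← Complex.sub_re, ← mul_sub]
    refine (Complex.re_le_norm _).trans ?_
    rw [norm_mul]
    have := mul_le_mul_of_nonneg_left (G1a_exp hxx hθ (by linarith only [hdr, hr])) (norm_nonneg (Z.cc x))
    unfold Cfg.A
    linarith only [this]
  have h5 : 0 ≤ d * Z.A x := mul_nonneg hd.le (mul_nonneg (norm_nonneg _) (exp_pos _).le)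
  have h6 : (0 : ℝ) ≤ A.card := Nat.cast_nonneg _
  rw [Z.U_split x x θ, Z.U_split x x' θ']
  linarith only [h1, h2, h3, h4, h5]

theorem G1a_om (Z : Cfg) {x γ : ℝ} (hx : Z.Reg x) (h : Z.U x γ ≤ -Z.B x) :
    Z.B x - Z.U x (γ + π) ≤ Z.om x := by
  have h1 := Z.om_ge (η := 0) hx (by linarith only [h])
  have h2 : 0 ≤ ∑ a ∈ Z.s, (lg (2 * (x - Z.ξ a)) (2 * (γ - Z.η a)) - kap (x - Z.ξ a)) :=
    Finset.sum_nonneg fun a ha => sub_nonneg.2
      (lg_zero_le (mul_ne_zero two_ne_zero (sub_ne_zero.2 (hx a ha).symm)) _)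
  linarith only [h1, h2]

theorem no_flip : ∃ C : ℝ, 1 ≤ C ∧ ∀ (Z : Cfg) (x x' γ γ' d r G : ℝ) (A : Finset ℕ), Z.Reg x →
    Z.Reg x' → Z.U x γ ≤ -Z.B x → Z.U x' γ' ≤ -Z.B x' → |x - x'| ≤ d → |sin (γ - γ')| ≤ d →
    0 < d → 8 * d ≤ r → r ≤ 1 / 32 → A ⊆ Z.s → (∀ a ∈ Z.s, |Z.ξ a - x| ≤ r → a ∈ A) →
    (∀ a ∈ A, |Z.ξ a - x| ≤ 3 * r) → 0 ≤ G → ∑ a ∈ A, l0 (x' - Z.ξ a) ≤ G * A.card →
    cos (γ - γ') ≤ 0 →
    Z.B x' ≤ Z.om x + C * d * Z.A x + C * (d / r) * Z.W x +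
      C * (1 + G) * ((Z.om x + Z.om x') / r ^ 2 + r * Z.B (x + 3)) := by
  obtain ⟨C₁, hC₁, H₁⟩ := compare
  obtain ⟨C₂, hC₂, H₂⟩ := misaligned
  refine ⟨64 * C₁ * C₂, by linarith only [hC₁, hC₂, mul_nonneg_of_nonpos_of_nonpos (Mathlib.Tactic.Linarith.sub_nonpos_of_le hC₁) (Mathlib.Tactic.Linarith.sub_nonpos_of_le hC₂)],
    fun Z x x' γ γ' d r G A hx hx' hγ hγ' hxx hsin hd hdr hr hA hnear hA3 hG hl hcos => ?_⟩
  have hr0 : 0 < r := by linarith only [hd, hdr]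
  obtain ⟨hx1, hx2⟩ := abs_le.1 hxx
  -- the angle
  have hψ : |rp (γ' - γ - π)| ≤ 2 * d := by
    have h1 : 0 ≤ cos |rp (γ' - γ - π)| := by
      rw [cos_abs, cos_rp, cos_sub_pi, ← cos_neg, neg_sub]
      linarith only [hcos]
    have h2 : |rp (γ' - γ - π)| ≤ π / 2 := by
      by_contra! h
      exact h1.not_gt (cos_neg_of_pi_div_two_lt_of_lt h (by linarith only [h, KerG_abs_le (γ' - γ - π), pi_pos]))
    have h3 := mul_abs_le_abs_sin h2
    have h5 : |sin (γ' - γ)| = |sin (γ - γ')| := by rw [← neg_sub γ γ', sin_neg, abs_neg]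
    rw [sin_rp, sin_sub_pi, abs_neg, h5] at h3
    have h4 : 1 / 2 ≤ 2 / π := by
      rw [le_div_iff₀ pi_pos]
      linarith only [pi_le_four]
    (refine le_of_not_gt fun h_nl => ?_; linarith only [h_nl, hsin, h3, hd, h4, hdr, hr, abs_nonneg (rp (γ' - γ - π)), mul_nonneg_of_nonpos_of_nonpos (le_of_lt (Mathlib.Tactic.Linarith.sub_neg_of_lt hd)) (Mathlib.Tactic.Linarith.sub_nonpos_of_le h4), mul_pos_of_neg_of_neg (Mathlib.Tactic.Linarith.sub_neg_of_lt hd) (Mathlib.Tactic.Linarith.sub_neg_of_lt h_nl), mul_nonneg_of_nonpos_of_nonpos (Mathlib.Tactic.Linarith.sub_nonpos_of_le hdr) (le_of_lt (Mathlib.Tactic.Linarith.sub_neg_of_lt h_nl)), mul_nonneg_of_nonpos_of_nonpos (Mathlib.Tactic.Linarith.sub_nonpos_of_le hr) (le_of_lt (Mathlib.Tactic.Linarith.sub_neg_of_lt h_nl)), mul_nonneg_of_nonpos_of_nonpos (Mathlib.Tactic.Linarith.sub_nonpos_of_le h4) (le_of_lt (Mathlib.Tactic.Linarith.sub_neg_of_lt h_nl))])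
  obtain ⟨k, hk⟩ := exists_rp (γ' - γ - π)
  have hc := H₁ Z x x' (γ + π) (γ' + k * (2 * π)) (2 * d) r A hx hx' (by linarith only [hxx, hd])
    (by rw [abs_sub_comm]; convert hψ using 2; rw [hk]; ring) (by linarith only [hd]) (by linarith only [hdr])
    (by linarith only [hd, hdr, hr]) hA hnear fun a ha => (hA3 a ha).trans (by linarith only [hd, hdr, hr])
  rw [Z.U_per] at hc
  have ho := Z.G1a_om hx hγ
  have ho' := Z.G1a_om hx' hγ'
  have hB := Z.B_nonneg x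
  have hom : 0 ≤ Z.om x := by linarith only [ho, hx, Z.U_le_B hx (γ + π)]
  have hom' : 0 ≤ Z.om x' := by linarith only [ho', hx', Z.U_le_B hx' (γ' + π)]
  -- the number of near zeros
  have hB3 := Z.B_nonneg (x + 3)
  have hcount : ∀ y δ, Z.Reg y → Z.U y δ ≤ -Z.B y → y ≤ x + 1 → 0 ≤ Z.om y →
      ((Z.s.filter fun a => |Z.ξ a - y| ≤ 4 * r ∧ 2 * (4 * r) < |rp (Z.η a - δ)|).card : ℝ) ≤
        C₂ * (Z.om y / r ^ 2 + 32 * r * Z.B (x + 3)) := by
    intro y δ hy hδ hyx hoy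
    have h1 := H₂ Z y δ (4 * r) hy hδ (by linarith only [hd, hdr]) (by linarith only [hr])
    have h2 := sd_one Z.B_convex Z.B_mono Z.B_nonneg y (R := 8 * (4 * r)) (by linarith only [hd, hdr]) (by linarith only [hr])
    have h3 : Z.B (y + 2) ≤ Z.B (x + 3) := Z.B_mono (by linarith only [hyx])
    have h4 : C₂ * Z.om y / (4 * r) ^ 2 ≤ C₂ * (Z.om y / r ^ 2) := by
      rw [mul_div_assoc]
      refine mul_le_mul_of_nonneg_left ?_ (by linarith only [hC₂, hd, hdr, hr])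
      exact div_le_div_of_nonneg_left hoy (by positivity) (by linarith only [sq_nonneg r])
    have h5 := mul_le_mul_of_nonneg_left h3 (show 0 ≤ 8 * (4 * r) by linarith only [hd, hdr])
    have h6 := mul_le_mul_of_nonneg_left (h2.trans h5) (show 0 ≤ C₂ by linarith only [hC₂, hd, hdr, hr])
    linarith only [h1, h4, h6]
  have hsub : A ⊆ (Z.s.filter fun a => |Z.ξ a - x| ≤ 4 * r ∧ 2 * (4 * r) < |rp (Z.η a - γ)|) ∪
      (Z.s.filter fun a => |Z.ξ a - x'| ≤ 4 * r ∧ 2 * (4 * r) < |rp (Z.η a - γ')|) := by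
    intro a ha
    have h1 := hA3 a ha
    have h2 : |Z.ξ a - x'| ≤ 4 * r := by
      have := abs_sub_le (Z.ξ a) x x'
      linarith only [hxx, hd, hdr, h1, this]
    rw [Finset.mem_union, Finset.mem_filter, Finset.mem_filter]
    by_contra! h
    have h3 := h.1 (hA ha) (by linarith only [hd, hdr, h1])
    have h4 := h.2 (hA ha) h2
    have h5 := abs_rp_add_le (-(Z.η a - γ)) (Z.η a - γ')
    rw [abs_rp_neg, show -(Z.η a - γ) + (Z.η a - γ') = γ - γ' by ring] at h5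
    have h6 : |rp (γ - γ')| < π / 2 := by linarith only [hd, hdr, hr, h3, h4, h5, pi_gt_three]
    have h7 := cos_pos_of_mem_Ioo (abs_lt.1 h6)
    rw [cos_rp] at h7
    linarith only [hcos, h7]
  have hcard : (A.card : ℝ) ≤ 64 * C₂ * ((Z.om x + Z.om x') / r ^ 2 + r * Z.B (x + 3)) := by
    have h1 : (A.card : ℝ) ≤ _ := Nat.cast_le.2
      ((Finset.card_le_card hsub).trans (Finset.card_union_le _ _))
    rw [Nat.cast_add] at h1
    have h2 := hcount x γ hx hγ (by linarith only [hd, hdr, hr]) hom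
    have h3 := hcount x' γ' hx' hγ' (by linarith only [hd, hdr, hr, hx1]) hom'
    have h4 : 0 ≤ C₂ * (Z.om x / r ^ 2) := by positivity
    have h5 : 0 ≤ C₂ * (Z.om x' / r ^ 2) := by positivity
    rw [add_div]
    linarith only [h1, h2, h3, h4, h5]
  have hA0 : 0 ≤ d * Z.A x := mul_nonneg hd.le (mul_nonneg (norm_nonneg _) (exp_pos _).le)
  have hW0 : 0 ≤ d / r * Z.W x := mul_nonneg (div_pos hd hr0).le (Z.W_nonneg x)
  have hN : (0 : ℝ) ≤ A.card := Nat.cast_nonneg _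
  have h2C : 2 * C₁ ≤ 64 * C₁ * C₂ := by linarith only [hC₁, hC₂, hd, hdr, hr, mul_nonneg_of_nonpos_of_nonpos (Mathlib.Tactic.Linarith.sub_nonpos_of_le hC₁) (Mathlib.Tactic.Linarith.sub_nonpos_of_le hC₂)]
  have e1 := mul_le_mul_of_nonneg_right h2C hA0
  have e2 := mul_le_mul_of_nonneg_right h2C hW0
  have e3 : C₁ * A.card + G * A.card ≤ C₁ * (1 + G) * A.card := by
    linarith only [hC₁, hG, hN, mul_nonneg (mul_nonneg (sub_nonneg.2 hC₁) hG) hN]
  have e4 := mul_le_mul_of_nonneg_left hcard (show 0 ≤ C₁ * (1 + G) by positivity)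
  have e5 : C₁ * (2 * d / r) * Z.W x = 2 * C₁ * (d / r * Z.W x) := by ring
  linarith only [hγ', hl, hc, ho, hB, e1, e2, e3, e4, e5]

end Cfg

end

end Pool.Agent.MinMod
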