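import Pool.Agent.Work.MP_f62247_an.FinB
import Pool.Agent.Work.MP_f62247_an.FinC

open Real Filter

namespace Pool.Agent.MinMod

theorem two_sided : ∃ c K δ : ℝ, 0 < c ∧ 0 < K ∧ 0 < δ ∧ ∀ e : ℝ, 0 < e → e < δ →
    ((-1 - exp (-c / e ^ 2) : ℝ) : EReal) ≤ minModConst (1 + e) ∧
      minModConst (1 + e) ≤ ((-1 - exp (-K / e ^ 2) : ℝ) : EReal) := by
  obtain ⟨c, δ1, hc, hδ1, h1⟩ := lower_bound
  obtain ⟨K, δ2, hK, hδ2, h2⟩ := upper_bound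
  refine ⟨c, K, min δ1 δ2, hc, hK, lt_min hδ1 hδ2, fun e he hlt => ⟨?_, ?_⟩⟩
  · exact le_iInf fun f => le_iInf fun hf =>
      h1 e he (hlt.trans_le (min_le_left _ _)) f hf.1 hf.2.2
  · exact h2 e he (hlt.trans_le (min_le_right _ _))

end Pool.Agent.MinMod
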